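import Mathlib

/-! Parametric integrals (taken from the library of MP_0cc5e8_gt). -/

namespace Pool.Agent.Lib.MP_21f752_an

open Complex Set Filter Topology Metric
open scoped ComplexConjugate ContDiff Real

variable {Y V : Type} [NormedAddCommGroup Y] [NormedSpace ℝ Y] [FiniteDimensional ℝ Y]
  [NormedAddCommGroup V] [NormedSpace ℝ V] [CompleteSpace V]

namespace Calc

open MeasureTheory ContinuousLinearMap

variable {F : Y × ℝ → V} {a b : ℝ} {y : Y}

omit [CompleteSpace V] [FiniteDimensional ℝ Y] in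
theorem tube {n : ℕ} (hF : ∀ t ∈ uIcc a b, ContDiffAt ℝ n F (y, t)) :
    ∀ᶠ x in 𝓝 y, ∀ t ∈ uIcc a b, ContDiffAt ℝ n F (x, t) :=
  isCompact_uIcc.eventually_forall_of_forall_eventually fun t ht => (hF t ht).eventually (by simp)

omit [CompleteSpace V] in
theorem bdd (hF : ∀ t ∈ uIcc a b, ContDiffAt ℝ 0 F (y, t)) :
    ∃ M, ∀ᶠ x in 𝓝 y, ContinuousOn (fun t => F (x, t)) (uIcc a b) ∧
      ∀ t ∈ uIcc a b, ‖F (x, t)‖ ≤ M := by
  have := FiniteDimensional.proper_real Y
  obtain ⟨K, K1, K2, K3⟩ := local_compact_nhds (tube (n := 0) hF)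
  obtain ⟨M, hM⟩ := (K3.prod (isCompact_uIcc (a := a) (b := b))).exists_bound_of_continuousOn
    (f := F) fun p hp => (K2 hp.1 p.2 hp.2).continuousAt.continuousWithinAt
  refine ⟨M, mem_of_superset K1 fun x hx => ⟨fun t ht => ?_, fun t ht => hM _ ⟨hx, ht⟩⟩⟩
  exact ((K2 hx t ht).continuousAt.comp_of_eq (f := fun t => (x, t)) (by fun_prop)
    rfl).continuousWithinAt

omit [CompleteSpace V] in
theorem cont (hF : ∀ t ∈ uIcc a b, ContDiffAt ℝ 0 F (y, t)) :
    ContinuousAt (fun y => ∫ t in a..b, F (y, t)) y := by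
  obtain ⟨M, hM⟩ := bdd hF
  exact intervalIntegral.continuousAt_of_dominated_interval (bound := fun _ => M)
    (hM.mono fun x h => (h.1.mono uIoc_subset_uIcc).aestronglyMeasurable measurableSet_uIoc)
    (hM.mono fun x h => .of_forall fun t ht => h.2 t (uIoc_subset_uIcc ht))
    intervalIntegrable_const (.of_forall fun t ht =>
      (hF t (uIoc_subset_uIcc ht)).continuousAt.comp_of_eq (f := fun x => (x, t)) (by fun_prop) rfl)

/-- the partial derivative in the parameter -/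
noncomputable def pd (F : Y × ℝ → V) (p : Y × ℝ) : Y →L[ℝ] V := (fderiv ℝ F p).comp (inl ℝ Y ℝ)

omit [CompleteSpace V] [FiniteDimensional ℝ Y] in
theorem pd_cd {n : ℕ} {p : Y × ℝ} (h : ContDiffAt ℝ (n + 1) F p) : ContDiffAt ℝ n (pd F) p :=
  (h.fderiv_right le_rfl).clm_comp contDiffAt_const

omit [CompleteSpace V] in
theorem hasF (hF : ∀ t ∈ uIcc a b, ContDiffAt ℝ 1 F (y, t)) :
    HasFDerivAt (fun y => ∫ t in a..b, F (y, t)) (∫ t in a..b, pd F (y, t)) y := by
  obtain ⟨_, h0⟩ := bdd fun t ht => (hF t ht).of_le zero_le_one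
  obtain ⟨M, hM⟩ := bdd (F := pd F) fun t ht => pd_cd (n := 0) (by simpa using hF t ht)
  refine intervalIntegral.hasFDerivAt_integral_of_dominated_of_fderiv_le (bound := fun _ => M)
    (F' := fun x t => pd F (x, t)) (hM.and (tube (n := 1) hF))
    (h0.mono fun x h => (h.1.mono uIoc_subset_uIcc).aestronglyMeasurable measurableSet_uIoc)
    h0.self_of_nhds.1.intervalIntegrable
    ((hM.self_of_nhds.1.mono uIoc_subset_uIcc).aestronglyMeasurable measurableSet_uIoc)
    (.of_forall fun t ht x hx => hx.1.2 t (uIoc_subset_uIcc ht)) intervalIntegrable_const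
    (.of_forall fun t ht x hx => ?_)
  exact ((hx.2 t (uIoc_subset_uIcc ht)).differentiableAt (by simp)).hasFDerivAt.comp x
    (hasFDerivAt_prodMk_left x t)

end Calc

open Calc

theorem contDiffAt_int {n : ℕ} {F : Y × ℝ → V} {a b : ℝ} {y : Y}
    (hF : ∀ t ∈ uIcc a b, ContDiffAt ℝ n F (y, t)) :
    ContDiffAt ℝ n (fun y => ∫ t in a..b, F (y, t)) y := by
  induction n generalizing V with
  | zero =>
    exact contDiffAt_zero.2 ⟨_, tube hF, fun x hx => (cont hx).continuousWithinAt⟩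
  | succ n ih =>
    push_cast at hF ⊢
    exact contDiffAt_succ_iff_hasFDerivAt.2 ⟨fun y => ∫ t in a..b, pd F (y, t),
      ⟨_, tube (n := 1) fun t ht => (hF t ht).of_le (by simp), fun x hx => hasF hx⟩,
      ih fun t ht => pd_cd (hF t ht)⟩

theorem contDiff_int {n : ℕ∞} {F : Y × ℝ → V} (hF : ContDiff ℝ n F) (a b : ℝ) :
    ContDiff ℝ n fun y => ∫ t in a..b, F (y, t) :=
  contDiff_iff_forall_nat_le.2 fun _ hm => contDiff_iff_contDiffAt.2 fun _ =>
    contDiffAt_int fun _ _ => (contDiff_iff_forall_nat_le.1 hF _ hm).contDiffAt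

omit [CompleteSpace V] in
theorem fderiv_int {F : Y × ℝ → V} (hF : ContDiff ℝ 1 F) (a b : ℝ) (y d : Y) :
    fderiv ℝ (fun y => ∫ t in a..b, F (y, t)) y d = ∫ t in a..b, fderiv ℝ F (y, t) (d, 0) := by
  obtain ⟨M, hM⟩ := bdd (F := pd F) (y := y) (a := a) (b := b) fun t _ =>
    pd_cd (n := 0) (by simpa using hF.contDiffAt)
  rw [(hasF fun _ _ => hF.contDiffAt).fderiv,
    ContinuousLinearMap.intervalIntegral_apply hM.self_of_nhds.1.intervalIntegrable]
  rfl

end Pool.Agent.Lib.MP_21f752_an
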