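import Pool.Agent.Lib.MP_21f752_an.Sys

/-! The action of Möbius maps on the unit tangent bundle; it commutes with the flow. -/

namespace Pool.Agent.Lib.MP_21f752_an

open UpperHalfPlane Set Filter Topology Metric
open scoped MatrixGroups ContDiff Real

noncomputable section

def den (γ : SL(2, ℝ)) (z : ℂ) : ℂ := (γ 1 0 : ℝ) * z + (γ 1 1 : ℝ)

def mob (γ : SL(2, ℝ)) (z : ℂ) : ℂ := ((γ 0 0 : ℝ) * z + (γ 0 1 : ℝ)) / den γ z

lemma coe_smul_mob (γ : SL(2, ℝ)) (z : ℍ) : ((γ • z : ℍ) : ℂ) = mob γ z :=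
  coe_specialLinearGroup_apply γ z

lemma det_one (γ : SL(2, ℝ)) : γ 0 0 * γ 1 1 - γ 0 1 * γ 1 0 = 1 := by
  have := γ.det_coe
  rwa [Matrix.det_fin_two] at this

lemma den_ne (γ : SL(2, ℝ)) {z : ℂ} (hz : 0 < z.im) : den γ z ≠ 0 := by
  intro h
  have h1 := congrArg Complex.im h
  have h2 := congrArg Complex.re h
  simp [den, hz.ne'] at h1 h2
  have := det_one γ
  rw [h1] at h2 this
  simp at h2
  rw [h2] at this
  simp at this

lemma mob_im (γ : SL(2, ℝ)) {z : ℂ} (hz : 0 < z.im) :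
    (mob γ z).im = z.im / Complex.normSq (den γ z) := by
  have h := det_one γ
  have hn : Complex.normSq (den γ z) ≠ 0 := by simpa using den_ne γ hz
  rw [mob, Complex.div_im]
  field_simp
  simp only [den, Complex.add_im, Complex.add_re, Complex.mul_im, Complex.mul_re,
    Complex.ofReal_re, Complex.ofReal_im]
  linear_combination z.im * h

lemma mob_pos (γ : SL(2, ℝ)) {z : ℂ} (hz : 0 < z.im) : 0 < (mob γ z).im := by
  rw [mob_im γ hz]
  exact div_pos hz (Complex.normSq_pos.2 (den_ne γ hz))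

lemma ofComplex_mob (γ : SL(2, ℝ)) {z : ℂ} (hz : 0 < z.im) :
    ofComplex (mob γ z) = γ • ofComplex z := by
  rw [ofComplex_apply_of_im_pos hz, ← ofComplex_apply (γ • _), coe_smul_mob]

lemma hasDerivAt_den (γ : SL(2, ℝ)) (z : ℂ) : HasDerivAt (den γ) (γ 1 0 : ℝ) z :=
  (((hasDerivAt_id z).const_mul ((γ 1 0 : ℝ) : ℂ)).add_const ((γ 1 1 : ℝ) : ℂ)).congr_deriv
    (mul_one _)

lemma hasDerivAt_mob (γ : SL(2, ℝ)) {z : ℂ} (hz : 0 < z.im) :
    HasDerivAt (mob γ) (1 / den γ z ^ 2) z := by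
  have h1 := ((hasDerivAt_id z).const_mul ((γ 0 0 : ℝ) : ℂ)).add_const ((γ 0 1 : ℝ) : ℂ)
  refine (h1.div (hasDerivAt_den γ z) (den_ne γ hz)).congr_deriv ?_
  congr 1
  have h : ((γ 0 0 : ℝ) : ℂ) * (γ 1 1 : ℝ) - (γ 0 1 : ℝ) * (γ 1 0 : ℝ) = 1 := by
    exact_mod_cast det_one γ
  simp only [den, id]
  linear_combination h

lemma hd_hol {F : ℂ → ℂ} {F' : ℂ} {z : ℝ → ℂ} {u : ℂ} {t : ℝ} (hF : HasDerivAt F F' (z t))
    (hz : HasDerivAt z u t) : HasDerivAt (fun s => F (z s)) (F' * u) t := by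
  have := (hF.hasFDerivAt.restrictScalars ℝ).comp_hasDerivAt t hz
  refine this.congr_deriv ?_
  simp [mul_comm]

lemma hd_mob (γ : SL(2, ℝ)) {z : ℝ → ℂ} {u : ℂ} {t : ℝ} (hz : HasDerivAt z u t)
    (hp : 0 < (z t).im) : HasDerivAt (fun s => mob γ (z s)) (u / den γ (z t) ^ 2) t :=
  (hd_hol (hasDerivAt_mob γ hp) hz).congr_deriv (by ring)

lemma hd_comp {G : ℂ → ℝ} {z : ℝ → ℂ} {u : ℂ} {t : ℝ} (hG : DifferentiableAt ℝ G (z t))
    (hz : HasDerivAt z u t) : HasDerivAt (fun s => G (z s)) (fderiv ℝ G (z t) u) t :=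
  hG.hasFDerivAt.comp_hasDerivAt t hz

lemma hd_log_normSq {w : ℝ → ℂ} {u : ℂ} {t : ℝ} (h : HasDerivAt w u t) (h0 : w t ≠ 0) :
    HasDerivAt (fun s => Real.log (Complex.normSq (w s))) (2 * (u / w t).re) t := by
  have hn : Complex.normSq (w t) ≠ 0 := by simpa using h0
  have h1 : HasDerivAt (fun s => Complex.normSq (w s))
      (u.re * (w t).re + (w t).re * u.re + (u.im * (w t).im + (w t).im * u.im)) t :=
    ((hd_re h).mul (hd_re h)).add ((hd_im h).mul (hd_im h))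
  refine (h1.log hn).congr_deriv ?_
  rw [Complex.div_re]
  ring

lemma hd_line (z u : ℂ) : HasDerivAt (fun s : ℝ => z + (s : ℂ) * u) u 0 := by
  simpa using ((Complex.ofRealCLM.hasDerivAt (x := 0)).mul_const u).const_add z

lemma ev_line {z : ℂ} (hz : 0 < z.im) (u : ℂ) : ∀ᶠ s : ℝ in 𝓝 0, 0 < (z + (s : ℂ) * u).im := by
  have : ContinuousAt (fun s : ℝ => (z + (s : ℂ) * u).im) 0 := by fun_prop
  exact this.eventually (lt_mem_nhds (by simpa using hz))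

/-- derivative of a function that is invariant up to a multiple of `log |den|²` -/
lemma fderiv_inv {G : ℂ → ℝ} (hG : ∀ z : ℂ, 0 < z.im → DifferentiableAt ℝ G z) {γ : SL(2, ℝ)}
    {κ m : ℝ}
    (h : ∀ z : ℂ, 0 < z.im → G (mob γ z) = G z + κ + m * Real.log (Complex.normSq (den γ z)))
    {z : ℂ} (hz : 0 < z.im) (u : ℂ) :
    fderiv ℝ G (mob γ z) (u / den γ z ^ 2) =
      fderiv ℝ G z u + m * (2 * ((γ 1 0 : ℝ) * u / den γ z).re) := by
  have l := hd_line z u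
  have e : z + ((0 : ℝ) : ℂ) * u = z := by simp
  have h1 := hd_comp (G := G) (z := fun s : ℝ => mob γ (z + (s : ℂ) * u))
    (by rw [e]; exact hG _ (mob_pos γ hz)) (hd_mob γ l (by rw [e]; exact hz))
  have h2 := ((hd_comp (G := G) (by rw [e]; exact hG _ hz) l).add_const κ).add
    ((hd_log_normSq (hd_hol (hasDerivAt_den γ _) l) (by rw [e]; exact den_ne γ hz)).const_mul m)
  have := h1.unique (h2.congr_of_eventuallyEq ((ev_line hz u).mono fun s hs => h _ hs))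
  simpa only [e] using this

/-- the rotation angle of the derivative of a Möbius map -/
def ang (γ : SL(2, ℝ)) (z : ℂ) : ℝ := -2 * Complex.arg (den γ z)

lemma ce_ang (γ : SL(2, ℝ)) {z : ℂ} (hz : 0 < z.im) :
    ce (ang γ z) = (Complex.normSq (den γ z) : ℝ) / den γ z ^ 2 := by
  have h0 := den_ne γ hz
  have h1 : (‖den γ z‖ : ℂ) * ce (Complex.arg (den γ z)) = den γ z :=
    Complex.norm_mul_exp_arg_mul_I _
  have h2 : ce (ang γ z) * (ce (Complex.arg (den γ z)) * ce (Complex.arg (den γ z))) = 1 := by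
    rw [← ce_add, ← ce_add, ← ce_zero, ang]
    congr 1
    ring
  rw [eq_div_iff (pow_ne_zero 2 h0), Complex.normSq_eq_norm_sq]
  push_cast
  calc _ = ce (ang γ z) * ((‖den γ z‖ : ℂ) * ce (Complex.arg (den γ z))) ^ 2 := by rw [h1]
    _ = (‖den γ z‖ : ℂ) ^ 2 * (ce (ang γ z) *
        (ce (Complex.arg (den γ z)) * ce (Complex.arg (den γ z)))) := by ring
    _ = _ := by rw [h2, mul_one]

lemma hasFDerivAt_ang (γ : SL(2, ℝ)) {z : ℂ} (hz : 0 < z.im) :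
    ∃ D : ℂ →L[ℝ] ℝ, HasFDerivAt (ang γ) D z ∧
      ∀ u, D u = -2 * ((γ 1 0 : ℝ) * u / den γ z).im := by
  by_cases hc : γ 1 0 = 0
  · refine ⟨0, ?_, fun u => by simp [hc]⟩
    have : ang γ = fun _ => -2 * Complex.arg ((γ 1 1 : ℝ) : ℂ) := by
      ext w; simp [ang, den, hc]
    rw [this]
    exact hasFDerivAt_const _ _
  · have hs : den γ z ∈ Complex.slitPlane := Or.inr (by simp [den, hc, hz.ne'])
    have h1 := ((hasDerivAt_den γ z).clog hs).hasFDerivAt.restrictScalars ℝ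
    have h2 := (Complex.imCLM.hasFDerivAt.comp z h1).const_mul (-2)
    refine ⟨_, h2.congr_of_eventuallyEq (Eventually.of_forall fun w => ?_), fun u => ?_⟩
    · simp [ang, Complex.log_im]
    · simp only [smul_apply, ContinuousLinearMap.comp_apply,
        Complex.imCLM_apply, ContinuousLinearMap.coe_restrictScalars',
        ContinuousLinearMap.toSpanSingleton_apply, smul_eq_mul]
      congr 2
      ring

lemma continuous_ang (γ : SL(2, ℝ)) : Continuous fun z : ℍ => ang γ z :=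
  continuous_iff_continuousAt.2 fun z =>
    ContinuousAt.comp (g := ang γ) (hasFDerivAt_ang γ z.im_pos).choose_spec.1.continuousAt
      continuous_coe.continuousAt

/-- the lift of a Möbius map, followed by a rotation -/
def gg (γ : SL(2, ℝ)) (s : ℝ) (ξ : N) : N := (γ • ξ.1, ξ.2 + ang γ ξ.1 + s)

def gi (γ : SL(2, ℝ)) (s : ℝ) (ξ : N) : N := (γ⁻¹ • ξ.1, ξ.2 - ang γ (γ⁻¹ • ξ.1 : ℍ) - s)

lemma gi_gg (γ : SL(2, ℝ)) (s : ℝ) (ξ : N) : gi γ s (gg γ s ξ) = ξ := by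
  refine Prod.ext (by simp [gi, gg]) ?_
  simp only [gi, gg, inv_smul_smul]
  ring

lemma gg_gi (γ : SL(2, ℝ)) (s : ℝ) (ξ : N) : gg γ s (gi γ s ξ) = ξ := by
  refine Prod.ext (by simp [gi, gg]) ?_
  simp only [gi, gg]
  ring

lemma continuous_gg (γ : SL(2, ℝ)) (s : ℝ) : Continuous (gg γ s) :=
  ((continuous_const_smul γ).comp continuous_fst).prodMk
    ((continuous_snd.add ((continuous_ang γ).comp continuous_fst)).add continuous_const)

lemma continuous_gi (γ : SL(2, ℝ)) (s : ℝ) : Continuous (gi γ s) :=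
  ((continuous_const_smul γ⁻¹).comp continuous_fst).prodMk
    ((continuous_snd.sub ((continuous_ang γ).comp
      ((continuous_const_smul γ⁻¹).comp continuous_fst))).sub continuous_const)

/-- rotation of the fibres -/
def rot (s : ℝ) (ξ : N) : N := (ξ.1, ξ.2 + s)

lemma gg_one (s : ℝ) : gg 1 s = rot s := by
  ext ξ
  · simp [gg, rot]
  · simp [gg, rot, ang, den]

lemma rot_gg (γ : SL(2, ℝ)) (s r : ℝ) (ξ : N) : rot r (gg γ s ξ) = gg γ s (rot r ξ) := by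
  refine Prod.ext rfl ?_
  simp only [rot, gg]
  ring

lemma continuous_rot (s : ℝ) : Continuous (rot s) := gg_one s ▸ continuous_gg 1 s

namespace Sys

variable (S : Sys)

def V (ξ : N) : ℂ := S.vv (emb ξ)

def W (ξ : N) : ℝ := S.b ξ.1 + fderiv ℝ S.L ξ.1 (Complex.I * S.V ξ)

lemma X_emb (ξ : N) : S.X (emb ξ) = (S.V ξ, S.W ξ) := by
  simp [X, V, W, B, emb]

lemma V_ne (ξ : N) : S.V ξ ≠ 0 := S.vv_ne _

lemma norm_V (ξ : N) : ‖S.V ξ‖ = Real.exp (-S.f ξ.1) * ξ.1.im := by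
  rw [V, norm_vv]
  exact S.exp_neg_L ξ.1

lemma V_rot (s : ℝ) (ξ : N) : S.V (rot s ξ) = ce s * S.V ξ := by
  simp only [V, vv, rot, emb, ce_add]
  ring

lemma continuous_V : Continuous S.V :=
  continuous_iff_continuousAt.2 fun ξ =>
    ContinuousAt.comp (S.vv_cd ξ.1.im_pos).continuousAt continuous_emb.continuousAt

lemma hd_z (ξ : N) (t : ℝ) : HasDerivAt (fun s => ((S.φ s ξ).1 : ℂ)) (S.V (S.φ t ξ)) t :=
  (ContinuousLinearMap.fst ℝ ℂ ℝ).hasFDerivAt.comp_hasDerivAt t (S.hd_φ ξ t)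

lemma hd_θ (ξ : N) (t : ℝ) : HasDerivAt (fun s => (S.φ s ξ).2) (S.W (S.φ t ξ)) t := by
  have := (ContinuousLinearMap.snd ℝ ℂ ℝ).hasFDerivAt.comp_hasDerivAt t (S.hd_φ ξ t)
  rw [X_emb] at this
  exact this

lemma φ_uniq' {x : ℝ → N} (h1 : ∀ t, HasDerivAt (fun s => ((x s).1 : ℂ)) (S.V (x t)) t)
    (h2 : ∀ t, HasDerivAt (fun s => (x s).2) (S.W (x t)) t) (t : ℝ) : x t = S.φ t (x 0) :=
  S.φ_uniq (fun t => by rw [X_emb]; exact (h1 t).prodMk (h2 t)) t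

lemma L_diff {z : ℂ} (hz : 0 < z.im) : DifferentiableAt ℝ S.L z :=
  (S.L_cd hz).differentiableAt (by simp)

lemma L_mob {γ : SL(2, ℝ)} (hγ : γ ∈ S.Γ) {z : ℂ} (hz : 0 < z.im) :
    S.L (mob γ z) = S.L z + 0 + 1 * Real.log (Complex.normSq (den γ z)) := by
  simp only [L, lam]
  rw [ofComplex_mob γ hz, S.f_inv γ hγ, mob_im γ hz,
    Real.log_div hz.ne' (Complex.normSq_pos.2 (den_ne γ hz)).ne']
  ring

lemma V_gg {γ : SL(2, ℝ)} (hγ : γ ∈ S.Γ) (s : ℝ) (ξ : N) :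
    S.V (gg γ s ξ) = ce s * S.V ξ / den γ ξ.1 ^ 2 := by
  have hz := ξ.1.im_pos
  have hn := Complex.normSq_pos.2 (den_ne γ hz)
  simp only [V, vv, gg, emb, ce_add, coe_smul_mob]
  rw [S.L_mob hγ hz, ce_ang γ hz, add_zero, one_mul, neg_add, Real.exp_add, Real.exp_neg (Real.log _),
    Real.exp_log hn]
  have : ((Complex.normSq (den γ ξ.1) : ℝ) : ℂ) ≠ 0 := by exact_mod_cast hn.ne'
  push_cast
  field_simp

lemma V_gg' {γ : SL(2, ℝ)} (hγ : γ ∈ S.Γ) (k : ℤ) (ξ : N) :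
    S.V (gg γ (k * (2 * π)) ξ) = S.V ξ / den γ ξ.1 ^ 2 := by
  rw [S.V_gg hγ, ce_int, one_mul]

lemma W_gg {γ : SL(2, ℝ)} (hγ : γ ∈ S.Γ) (k : ℤ) (ξ : N) :
    S.W (gg γ (k * (2 * π)) ξ) = S.W ξ + -2 * ((γ 1 0 : ℝ) * S.V ξ / den γ ξ.1).im := by
  have h := fderiv_inv (fun z hz => S.L_diff hz) (fun z hz => S.L_mob hγ hz) ξ.1.im_pos
    (Complex.I * S.V ξ)
  simp only [W]
  rw [S.V_gg' hγ, ← mul_div_assoc]
  have e1 : ((gg γ (k * (2 * π)) ξ).1 : ℂ) = mob γ ξ.1 := coe_smul_mob _ _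
  have e2 : S.b (gg γ (k * (2 * π)) ξ).1 = S.b ξ.1 := S.b_inv γ hγ _
  rw [e1, e2, h]
  have : ((γ 1 0 : ℝ) : ℂ) * (Complex.I * S.V ξ) / den γ ξ.1 =
      Complex.I * ((γ 1 0 : ℝ) * S.V ξ / den γ ξ.1) := by ring
  rw [this, Complex.I_mul_re]
  ring

lemma φ_gg {γ : SL(2, ℝ)} (hγ : γ ∈ S.Γ) (k : ℤ) (t : ℝ) (ξ : N) :
    S.φ t (gg γ (k * (2 * π)) ξ) = gg γ (k * (2 * π)) (S.φ t ξ) := by
  have := S.φ_uniq' (x := fun t => gg γ (k * (2 * π)) (S.φ t ξ)) (fun t => ?_) (fun t => ?_) t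
  · rw [this, φ_zero]
  · rw [S.V_gg' hγ]
    simp only [gg, coe_smul_mob]
    exact hd_mob γ (S.hd_z ξ t) (S.φ t ξ).1.im_pos
  · obtain ⟨D, hD, hD'⟩ := hasFDerivAt_ang γ (S.φ t ξ).1.im_pos
    rw [S.W_gg hγ, ← hD']
    exact ((S.hd_θ ξ t).add (hD.comp_hasDerivAt t (S.hd_z ξ t))).add_const _

lemma φ_rot (k : ℤ) (t : ℝ) (ξ : N) :
    S.φ t (rot (k * (2 * π)) ξ) = rot (k * (2 * π)) (S.φ t ξ) := by
  rw [← gg_one]
  exact S.φ_gg S.Γ.one_mem k t ξ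

/-- functions on the unit tangent bundle of the quotient -/
def Inv {α : Type} (G : N → α) : Prop := ∀ γ ∈ S.Γ, ∀ (k : ℤ) (ξ : N), G (gg γ (k * (2 * π)) ξ) = G ξ

variable {S}

lemma Inv.comp_φ {α : Type} {G : N → α} (h : S.Inv G) (t : ℝ) : S.Inv fun ξ => G (S.φ t ξ) :=
  fun γ hγ k ξ => by simp only [S.φ_gg hγ, h γ hγ]

lemma Inv.comp_rot {α : Type} {G : N → α} (h : S.Inv G) (s : ℝ) : S.Inv fun ξ => G (rot s ξ) :=
  fun γ hγ k ξ => by simp only [rot_gg, h γ hγ]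

variable (S)

def K0 : Set N := closedBall UpperHalfPlane.I S.R0 ×ˢ Icc 0 (2 * π)

lemma K0_compact : IsCompact S.K0 := (isCompact_closedBall _ _).prod isCompact_Icc

lemma exists_gg (ξ : N) : ∃ γ ∈ S.Γ, ∃ k : ℤ, gg γ (k * (2 * π)) ξ ∈ S.K0 := by
  obtain ⟨γ, hγ, h⟩ := S.cov ξ.1
  have hp : 0 < 2 * π := by positivity
  refine ⟨γ, hγ, -toIcoDiv hp 0 (ξ.2 + ang γ ξ.1), h, ?_⟩
  have := sub_toIcoDiv_zsmul_mem_Ico hp 0 (ξ.2 + ang γ ξ.1)
  simp only [zsmul_eq_mul, zero_add] at this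
  simp only [gg, Int.cast_neg, neg_mul, ← sub_eq_add_neg]
  exact Ico_subset_Icc_self this

variable {S}

lemma Inv.bdd {G : N → ℝ} (h : S.Inv G) (hG : Continuous G) : ∃ C, 0 ≤ C ∧ ∀ ξ, |G ξ| ≤ C := by
  obtain ⟨C, hC⟩ := S.K0_compact.exists_bound_of_continuousOn hG.continuousOn
  refine ⟨max C 0, le_max_right _ _, fun ξ => ?_⟩
  obtain ⟨γ, hγ, k, hk⟩ := S.exists_gg ξ
  rw [← h γ hγ k ξ]
  exact (hC _ hk).trans (le_max_left _ _)

/-- derivatives along the flow of invariant functions are invariant -/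
lemma Inv.deriv {G G1 : N → ℝ} (h : S.Inv G)
    (hd : ∀ ξ t, HasDerivAt (fun s => G (S.φ s ξ)) (G1 (S.φ t ξ)) t) : S.Inv G1 := by
  intro γ hγ k ξ
  have h1 := hd (gg γ (k * (2 * π)) ξ) 0
  have h2 := hd ξ 0
  simp only [S.φ_gg hγ, h γ hγ, φ_zero] at h1 h2
  exact h1.unique h2

end Sys

end

end Pool.Agent.Lib.MP_21f752_an
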