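import Pool.Agent.Lib.MP_21f752_an.Prim

/-! Unique joining excludes conjugate points. -/

namespace Pool.Agent.Lib.MP_21f752_an

open UpperHalfPlane Set Filter Topology Metric MeasureTheory
open scoped MatrixGroups ContDiff Real

noncomputable section

lemma lin_uniq {k y1 z1 y2 z2 : ℝ → ℝ} {C t0 : ℝ} (hk : ∀ t, |k t| ≤ C)
    (a1 : ∀ t, HasDerivAt y1 (z1 t) t) (b1 : ∀ t, HasDerivAt z1 (-(k t * y1 t)) t)
    (a2 : ∀ t, HasDerivAt y2 (z2 t) t) (b2 : ∀ t, HasDerivAt z2 (-(k t * y2 t)) t)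
    (h1 : y1 t0 = y2 t0) (h2 : z1 t0 = z2 t0) (t : ℝ) : y1 t = y2 t ∧ z1 t = z2 t := by
  have hC : 0 ≤ C := (abs_nonneg _).trans (hk 0)
  have := ODE_solution_unique_univ (v := fun t (p : ℝ × ℝ) => (p.2, -(k t * p.1)))
    (s := fun _ => univ) (K := ⟨C + 1, by positivity⟩) (f := fun t => (y1 t, z1 t))
    (g := fun t => (y2 t, z2 t)) (t₀ := t0) (fun t => ?_)
    (fun t => ⟨(a1 t).prodMk (b1 t), trivial⟩) (fun t => ⟨(a2 t).prodMk (b2 t), trivial⟩)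
    (Prod.ext h1 h2)
  · exact Prod.ext_iff.1 (congrFun this t)
  · refine (LipschitzWith.of_dist_le_mul fun p q => ?_).lipschitzOnWith
    have d0 : 0 ≤ dist p q := dist_nonneg
    have d1 : |p.1 - q.1| ≤ dist p q := le_max_left (dist p.1 q.1) _
    have d2 : |p.2 - q.2| ≤ dist p q := le_max_right _ (dist p.2 q.2)
    refine max_le ?_ ?_
    · change |p.2 - q.2| ≤ (C + 1) * dist p q
      nlinarith
    · change |-(k t * p.1) - -(k t * q.1)| ≤ (C + 1) * dist p q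
      rw [show -(k t * p.1) - -(k t * q.1) = -(k t * (p.1 - q.1)) by ring, abs_neg, abs_mul]
      nlinarith [mul_le_mul (hk t) d1 (abs_nonneg _) hC]

namespace Sys

variable (S : Sys)

def ja (ξ : N) (t : ℝ) : ℝ := (S.jq ξ (0, 1) t).re

def jy (ξ : N) (t : ℝ) : ℝ := (S.jq ξ (0, 1) t).im

def jw (ξ : N) (t : ℝ) : ℝ := S.jz ξ (0, 1) t

lemma ja_zero (ξ : N) : S.ja ξ 0 = 0 := by simp [ja, jq_zero]

lemma jy_zero (ξ : N) : S.jy ξ 0 = 0 := by simp [jy, jq_zero]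

lemma jw_zero (ξ : N) : S.jw ξ 0 = 1 := by simp [jw, jz, jq_zero, J_zero]

lemma hd_y (ξ : N) (t : ℝ) : HasDerivAt (S.jy ξ) (S.jw ξ t) t := S.hd_jy ξ _ t

lemma hd_w (ξ : N) (t : ℝ) : HasDerivAt (S.jw ξ) (-(S.Km (S.φ t ξ) * S.jy ξ t)) t := S.hd_jz ξ _ t

lemma fderiv_Φ (t : ℝ) (ξ : N) (α : ℝ) (δ : ℂ × ℝ) :
    fderiv ℝ S.Φ (t, emb ξ) (α, δ) = α • S.X (emb (S.φ t ξ)) + S.J ξ δ t := by
  rw [← Φ_emb, ← S.fderiv_Φ_t ξ.1.im_pos, J, ← map_smul, ← map_add]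
  simp

lemma J_smul (ξ : N) (σ : ℝ) (δ : ℂ × ℝ) (t : ℝ) : S.J ξ (σ • δ) t = σ • S.J ξ δ t := by
  rw [J, J, ← map_smul]
  simp

/-- the exponential map in polar coordinates -/
def ex (p : ℍ) (q : ℝ × ℝ) : ℂ × ℝ := emb (S.φ q.1 (p, q.2))

lemma ex_cd (p : ℍ) : ContDiff ℝ ∞ (S.ex p) :=
  contDiff_iff_contDiffAt.2 fun q =>
    ContDiffAt.comp (g := S.Φ) (f := fun q : ℝ × ℝ => (q.1, ((p : ℂ), q.2))) q (S.Φ_cd p.im_pos)
      (by fun_prop)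

lemma fderiv_ex (p : ℍ) (q d : ℝ × ℝ) : fderiv ℝ (S.ex p) q d =
    d.1 • S.X (emb (S.φ q.1 (p, q.2))) + d.2 • S.J (p, q.2) (0, 1) q.1 := by
  have h : HasFDerivAt (fun q : ℝ × ℝ => (q.1, ((p : ℂ), q.2))) ((ContinuousLinearMap.fst ℝ ℝ ℝ).prod
      ((0 : ℝ × ℝ →L[ℝ] ℂ).prod (ContinuousLinearMap.snd ℝ ℝ ℝ))) q :=
    hasFDerivAt_fst.prodMk ((hasFDerivAt_const _ _).prodMk hasFDerivAt_snd)
  have := (HasFDerivAt.comp (g := S.Φ) q (S.Φ_diff q.1 (p, q.2)).hasFDerivAt h).fderiv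
  rw [← J_smul, ← fderiv_Φ]
  refine (congrArg (fun E => E d) this).trans ?_
  simp

def ez (p : ℍ) (q : ℝ × ℝ) : ℂ := (S.φ q.1 (p, q.2)).1

lemma ez_cd (p : ℍ) : ContDiff ℝ ∞ (S.ez p) := contDiff_fst.comp (S.ex_cd p)

lemma fderiv_ez (p : ℍ) (q d : ℝ × ℝ) : fderiv ℝ (S.ez p) q d =
    (d.1 + d.2 * S.jq (p, q.2) (0, 1) q.1) * S.V (S.φ q.1 (p, q.2)) := by
  have := ((S.ex_cd p).differentiable (by simp) q).hasFDerivAt.fst.fderiv
  refine (congrArg (fun E => E d) this).trans ?_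
  simp only [ContinuousLinearMap.comp_apply, fderiv_ex, X_emb, ContinuousLinearMap.coe_fst',
    Prod.fst_add, Prod.smul_fst, J_fst, Complex.real_smul]
  ring

/-- any two points of the cover are joined by exactly one orbit -/
structure Uq : Prop where
  surj : ∀ p q : ℍ, p ≠ q → ∃ θ T, 0 < T ∧ (S.φ T (p, θ)).1 = q
  uniq : ∀ (p : ℍ) (θ1 θ2 T1 T2 : ℝ), 0 < T1 → 0 < T2 → (S.φ T1 (p, θ1)).1 = (S.φ T2 (p, θ2)).1 →
    p ≠ (S.φ T1 (p, θ1)).1 → T1 = T2 ∧ ce θ1 = ce θ2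

variable {S}

lemma Uq.noloop (h : S.Uq) (ξ : N) {T : ℝ} (hT : 0 < T) : ξ.1 ≠ (S.φ T ξ).1 := by
  intro h0
  obtain ⟨s, hs, h1⟩ : ∃ s : ℝ, s < 0 ∧ (S.φ s ξ).1 ≠ ξ.1 := by
    by_contra hc
    push Not at hc
    refine S.V_ne _ ((S.hd_z ξ (-1)).unique
      ((hasDerivAt_const (-1 : ℝ) (ξ.1 : ℂ)).congr_of_eventuallyEq ?_))
    exact (eventually_lt_nhds (show (-1 : ℝ) < 0 by norm_num)).mono fun s hs => by simp only [hc s hs]
  have := h.uniq (S.φ s ξ).1 (S.φ s ξ).2 (S.φ s ξ).2 (-s) (T - s) (by linarith) (by linarith)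
    (by rw [Prod.mk.eta, φ_neg, ← φ_add, sub_add_cancel]; exact h0)
    (by rw [Prod.mk.eta, φ_neg]; exact h1)
  linarith [this.1]

lemma Uq.uniq' (h : S.Uq) {p : ℍ} {θ1 θ2 T1 T2 : ℝ} (h1 : 0 < T1) (h2 : 0 < T2)
    (e : (S.φ T1 (p, θ1)).1 = (S.φ T2 (p, θ2)).1) : T1 = T2 ∧ ce θ1 = ce θ2 :=
  h.uniq p θ1 θ2 T1 T2 h1 h2 e (h.noloop (p, θ1) h1)

lemma Uq.jy_ne (h : S.Uq) (ξ : N) {t0 : ℝ} (ht : 0 < t0) : S.jy ξ t0 ≠ 0 := by
  intro hy
  obtain ⟨p, θ⟩ := ξ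
  have hw : S.jw (p, θ) t0 ≠ 0 := by
    intro hw
    obtain ⟨C, -, hC⟩ := S.ci_Km.inv.bdd S.ci_Km.cont
    have := (lin_uniq (fun t => hC _) (S.hd_y (p, θ)) (S.hd_w (p, θ)) (y2 := fun _ => 0)
      (z2 := fun _ => 0) (fun t => hasDerivAt_const _ _)
      (fun t => by simpa using hasDerivAt_const t (0 : ℝ)) hy hw 0).2
    rw [jw_zero] at this
    exact one_ne_zero this
  have hE := S.ez_cd p
  have hD : ContDiff ℝ ∞ (fderiv ℝ (S.ez p)) := hE.fderiv_right (by simp)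
  set H : (ℝ × ℝ × ℝ) × ℝ → ℂ := fun x => fderiv ℝ (S.ez p) (x.1.2.1, θ + x.2 * x.1.1) (0, 1) -
    x.1.2.2 • fderiv ℝ (S.ez p) (x.1.2.1 + x.2 * (x.1.1 * x.1.2.2), θ) (1, 0) with hH
  have Hcd : ContDiff ℝ ∞ H :=
    ((hD.comp (by fun_prop)).clm_apply contDiff_const).sub
      (ContDiff.smul (f := fun x : (ℝ × ℝ × ℝ) × ℝ => x.1.2.2) (by fun_prop)
        ((hD.comp (f := fun x : (ℝ × ℝ × ℝ) × ℝ => (x.1.2.1 + x.2 * (x.1.1 * x.1.2.2), θ))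
          (by fun_prop)).clm_apply contDiff_const))
  set F : ℝ × ℝ × ℝ → ℂ := fun x => ∫ τ in (0 : ℝ)..1, H (x, τ) with hF
  have Fcd : ContDiff ℝ ∞ F := contDiff_int Hcd 0 1
  have F1 : ∀ s t r : ℝ, s • F (s, t, r) = S.ez p (t, θ + s) - S.ez p (t + s * r, θ) := by
    intro s t r
    have key : ∀ τ : ℝ, HasDerivAt (fun τ => S.ez p (t, θ + τ * s) - S.ez p (t + τ * (s * r), θ))
        (s • H ((s, t, r), τ)) τ := by
      intro τ
      have a := (hE.differentiable (by simp) _).hasFDerivAt.comp_hasDerivAt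
        (f := fun τ : ℝ => (t, θ + τ * s)) τ ((hasDerivAt_const _ _).prodMk
          (((hasDerivAt_id τ).mul_const s).const_add θ))
      have b := (hE.differentiable (by simp) _).hasFDerivAt.comp_hasDerivAt
        (f := fun τ : ℝ => (t + τ * (s * r), θ)) τ
          ((((hasDerivAt_id τ).mul_const (s * r)).const_add t).prodMk (hasDerivAt_const _ _))
      refine (a.sub b).congr_deriv ?_
      simp only [hH, smul_sub, ← map_smul]
      simp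
    rw [hF, ← intervalIntegral.integral_smul, intervalIntegral.integral_eq_sub_of_hasDerivAt
      (fun τ _ => key τ) (((Hcd.continuous.comp (by fun_prop)).const_smul s).intervalIntegrable _ _)]
    simp
  have F0 : ∀ t r : ℝ, F (0, t, r) = (S.jq (p, θ) (0, 1) t - r) * S.V (S.φ t (p, θ)) := by
    intro t r
    simp [hF, hH, fderiv_ez]
    ring
  set a := S.ja (p, θ) t0 with ha
  have hq : S.jq (p, θ) (0, 1) t0 = a := Complex.ext rfl hy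
  have dF := (Fcd.differentiable (by simp) (0, t0, a)).hasFDerivAt
  have d1 : fderiv ℝ F (0, t0, a) (0, 1, 0) = S.jw (p, θ) t0 * Complex.I * S.V (S.φ t0 (p, θ)) := by
    have u := dF.comp_hasDerivAt (f := fun t : ℝ => ((0 : ℝ), t, a)) t0
      ((hasDerivAt_const _ _).prodMk ((hasDerivAt_id _).prodMk (hasDerivAt_const _ _)))
    have v := ((S.hd_jq (p, θ) (0, 1) t0).sub_const (a : ℂ)).mul (S.hd_V (p, θ) t0)
    rw [u.unique (v.congr_of_eventuallyEq (.of_forall fun t => F0 t a)), hq]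
    simp [jw]
  have d2 : fderiv ℝ F (0, t0, a) (0, 0, 1) = -S.V (S.φ t0 (p, θ)) := by
    have u := dF.comp_hasDerivAt (f := fun r : ℝ => ((0 : ℝ), t0, r)) a
      ((hasDerivAt_const _ _).prodMk ((hasDerivAt_const _ _).prodMk (hasDerivAt_id _)))
    have v := ((hasDerivAt_id a).ofReal_comp.const_sub (S.jq (p, θ) (0, 1) t0)).mul_const
      (S.V (S.φ t0 (p, θ)))
    rw [u.unique (v.congr_of_eventuallyEq (.of_forall fun r => F0 t0 r))]
    simp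
  have hs : HasStrictFDerivAt (fun x : ℝ × ℝ × ℝ => (x.1, F x))
      ((ContinuousLinearMap.fst ℝ ℝ (ℝ × ℝ)).prod (fderiv ℝ F (0, t0, a))) (0, t0, a) :=
    hasStrictFDerivAt_fst.prodMk (Fcd.contDiffAt.hasStrictFDerivAt (by simp))
  have hm := hs.map_nhds_eq_of_surj (LinearMap.range_eq_top.2 fun y => by
    set q := (y.2 - y.1 • fderiv ℝ F (0, t0, a) (1, 0, 0)) / S.V (S.φ t0 (p, θ)) with hq
    refine ⟨y.1 • (1, 0, 0) + (q.im / S.jw (p, θ) t0) • (0, 1, 0) + (-q.re) • (0, 0, 1),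
      Prod.ext (by simp) ?_⟩
    have e : q * S.V (S.φ t0 (p, θ)) = y.2 - y.1 • fderiv ℝ F (0, t0, a) (1, 0, 0) :=
      div_mul_cancel₀ _ (S.V_ne _)
    have hw' : (S.jw (p, θ) t0 : ℂ) ≠ 0 := by exact_mod_cast hw
    change fderiv ℝ F (0, t0, a) _ = _
    rw [map_add, map_add, map_smul, map_smul, map_smul, d1, d2, ← sub_add_cancel y.2
      (y.1 • fderiv ℝ F (0, t0, a) (1, 0, 0)), ← e]
    conv_rhs => rw [← Complex.re_add_im q]
    simp only [Complex.real_smul]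
    push_cast
    field_simp
    ring)
  have hU : ∀ᶠ x : ℝ × ℝ × ℝ in 𝓝 (0, t0, a), 0 < x.2.1 ∧ 0 < x.2.1 + x.1 * x.2.2 := by
    refine Eventually.and ?_ ?_ <;>
      exact ContinuousAt.eventually_lt continuousAt_const (by fun_prop) (by simpa using ht)
  have h2 := image_mem_map (m := fun x : ℝ × ℝ × ℝ => (x.1, F x)) hU
  rw [hm, F0, hq, sub_self, zero_mul] at h2
  have h3 : ∀ᶠ s : ℝ in 𝓝 0, _ :=
    (by fun_prop : ContinuousAt (fun s : ℝ => (s, (0 : ℂ))) 0).eventually h2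
  obtain ⟨s, ⟨⟨s', t, r⟩, ⟨u1, u2⟩, u3⟩, hs1⟩ :=
    ((h3.filter_mono nhdsWithin_le_nhds).and (Ioo_mem_nhdsGT one_pos)).exists
  obtain ⟨rfl, u4⟩ := Prod.ext_iff.1 u3
  have u5 := F1 s' t r
  rw [show F (s', t, r) = 0 from u4, smul_zero] at u5
  obtain ⟨k, hk⟩ := ce_eq_iff.1
    (h.uniq' u1 u2 (UpperHalfPlane.ext (sub_eq_zero.1 u5.symm))).2
  have hk' : s' = k * (2 * π) := by linarith
  have := Real.pi_gt_three
  rcases le_or_gt k 0 with hk0 | hk0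
  · have : (k : ℝ) ≤ 0 := by exact_mod_cast hk0
    nlinarith [hs1.1]
  · have : (1 : ℝ) ≤ k := by exact_mod_cast hk0
    nlinarith [hs1.2]

lemma Uq.jy_pos (h : S.Uq) (ξ : N) {t : ℝ} (ht : 0 < t) : 0 < S.jy ξ t := by
  by_contra hc
  have h1 := (S.hd_y ξ 0).tendsto_slope_zero_right
  rw [jw_zero] at h1
  obtain ⟨s, hs1, hs2⟩ := ((h1.eventually (lt_mem_nhds one_pos)).and (Ioo_mem_nhdsGT ht)).exists
  have hs : 0 < S.jy ξ s := by
    simp only [zero_add, jy_zero, sub_zero, smul_eq_mul] at hs1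
    exact (mul_pos_iff_of_pos_left (inv_pos.2 hs2.1)).1 hs1
  obtain ⟨r, hr, h0⟩ := intermediate_value_Icc' hs2.2.le
    (fun r _ => (S.hd_y ξ r).continuousAt.continuousWithinAt) ⟨not_lt.1 hc, hs.le⟩
  exact h.jy_ne ξ (hs2.1.trans_le hr.1) h0

end Sys

end

end Pool.Agent.Lib.MP_21f752_an
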