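import Pool.Agent.Lib.MP_21f752_an.Jac

/-! Locally finite sums over the group and a smooth cut-off function. -/

namespace Pool.Agent.Lib.MP_21f752_an

open UpperHalfPlane Set Filter Topology Metric
open scoped MatrixGroups ContDiff Real

noncomputable section

lemma mob_mul (γ δ : SL(2, ℝ)) {z : ℂ} (hz : 0 < z.im) : mob γ (mob δ z) = mob (γ * δ) z := by
  have := coe_smul_mob (γ * δ) ⟨z, hz⟩
  rw [mul_smul, coe_smul_mob, coe_smul_mob] at this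
  exact this

lemma mob_cd (γ : SL(2, ℝ)) {z : ℂ} (hz : 0 < z.im) : ContDiffAt ℝ ∞ (mob γ) z := by
  have h1 : ContDiffAt ℂ ∞ (mob γ) z := by
    unfold mob
    refine ContDiffAt.div (by fun_prop) (by unfold den; fun_prop) (den_ne γ hz)
  exact h1.restrict_scalars ℝ

lemma ev_im {z : ℂ} (hz : 0 < z.im) : ∀ᶠ w in 𝓝 z, 0 < w.im :=
  isOpen_upperHalfPlaneSet.mem_nhds hz

def Box (A y0 : ℝ) (z : ℂ) : Prop := |z.re| ≤ A ∧ y0 ≤ z.im ∧ z.im ≤ A

lemma Box.dist_le {A y0 : ℝ} (h0 : 0 < y0) {z : ℍ} (h : Box A y0 z) :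
    dist z UpperHalfPlane.I ≤ (2 * A + 1) / √y0 := by
  refine (dist_le_dist_coe_div_sqrt _ _).trans ?_
  obtain ⟨h1, h2, h3⟩ := h
  have hA : 0 ≤ A := (abs_nonneg _).trans h1
  refine div_le_div₀ (by positivity) ?_ (Real.sqrt_pos.2 h0) (Real.sqrt_le_sqrt (by simpa using h2))
  rw [dist_eq_norm]
  refine (Complex.norm_le_abs_re_add_abs_im _).trans ?_
  have : |((z : ℂ) - (UpperHalfPlane.I : ℍ)).im| ≤ A + 1 := by
    simp only [coe_I, Complex.sub_im, Complex.I_im]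
    rw [abs_le]
    constructor <;> linarith
  have h4 : |((z : ℂ) - (UpperHalfPlane.I : ℍ)).re| ≤ A := by simpa using h1
  linarith

lemma Box.cd {E : Type} [NormedAddCommGroup E] [NormedSpace ℝ E] {A y0 : ℝ} (h0 : 0 < y0)
    {G : ℂ → E} (h : ∀ z, G z ≠ 0 → Box A y0 z) (hG : ∀ z : ℂ, 0 < z.im → ContDiffAt ℝ ∞ G z) :
    ContDiff ℝ ∞ G := by
  refine contDiff_iff_contDiffAt.2 fun z => ?_
  rcases lt_or_ge 0 z.im with hz | hz
  · exact hG z hz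
  · refine (contDiffAt_const (c := 0)).congr_of_eventuallyEq ?_
    have : ∀ᶠ w in 𝓝 z, w.im < y0 :=
      Complex.continuous_im.continuousAt.eventually (gt_mem_nhds (hz.trans_lt h0))
    refine this.mono fun w hw => ?_
    by_contra hc
    exact absurd (h w hc).2.1 (not_le.2 hw)

namespace Sys

variable (S : Sys)

instance : Countable S.Γ := by
  rw [← Set.countable_univ_iff]
  have : (univ : Set S.Γ) = ⋃ n : ℕ,
      {γ : S.Γ | dist ((γ : SL(2, ℝ)) • UpperHalfPlane.I) UpperHalfPlane.I ≤ n} := by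
    ext γ
    simpa using exists_nat_ge _
  rw [this]
  exact countable_iUnion fun n => (S.fin n).countable

lemma locfin (R : ℝ) (z0 : ℍ) : ∃ T : Finset S.Γ, ∀ z : ℍ, dist z z0 < 1 → ∀ γ : S.Γ,
    dist ((γ : SL(2, ℝ)) • z) UpperHalfPlane.I ≤ R → γ ∈ T := by
  refine ⟨(S.fin (R + 1 + dist z0 UpperHalfPlane.I)).toFinset, fun z hz γ h => ?_⟩
  simp only [Finite.mem_toFinset, mem_ofPred_eq]
  have h1 := dist_triangle ((γ : SL(2, ℝ)) • UpperHalfPlane.I) ((γ : SL(2, ℝ)) • z) UpperHalfPlane.I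
  have h2 := dist_triangle z z0 UpperHalfPlane.I
  rw [dist_smul, dist_comm _ z] at h1
  linarith

lemma sum_ev {E : Type} [AddCommMonoid E] {G : S.Γ → ℂ → E} {R : ℝ}
    (hs : ∀ (γ : S.Γ) (z : ℍ), G γ z ≠ 0 → dist ((γ : SL(2, ℝ)) • z) UpperHalfPlane.I ≤ R)
    {z0 : ℂ} (hz : 0 < z0.im) : ∃ T : Finset S.Γ, ∀ᶠ z in 𝓝 z0,
      (∀ γ, γ ∉ T → G γ z = 0) ∧ ∑ᶠ γ, G γ z = ∑ γ ∈ T, G γ z := by
  obtain ⟨T, hT⟩ := S.locfin R ⟨z0, hz⟩
  refine ⟨T, ?_⟩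
  have := isOpenEmbedding_coe.isOpenMap.image_mem_nhds (ball_mem_nhds (⟨z0, hz⟩ : ℍ) one_pos)
  refine mem_of_superset this ?_
  rintro _ ⟨z, h, rfl⟩
  have h1 : ∀ γ, γ ∉ T → G γ z = 0 := fun γ hγ => by
    by_contra hc
    exact hγ (hT z h γ (hs γ z hc))
  refine ⟨h1, finsum_eq_sum_of_support_subset _ fun γ hγ => ?_⟩
  by_contra hc
  exact hγ (h1 γ hc)

lemma sum_cd {E : Type} [NormedAddCommGroup E] [NormedSpace ℝ E] {G : S.Γ → ℂ → E} {R : ℝ}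
    (hs : ∀ (γ : S.Γ) (z : ℍ), G γ z ≠ 0 → dist ((γ : SL(2, ℝ)) • z) UpperHalfPlane.I ≤ R)
    {z0 : ℂ} (hz : 0 < z0.im) (hG : ∀ γ, ContDiffAt ℝ ∞ (G γ) z0) :
    ContDiffAt ℝ ∞ (fun z => ∑ᶠ γ, G γ z) z0 := by
  obtain ⟨T, hT⟩ := S.sum_ev hs hz
  exact (ContDiffAt.sum fun γ _ => hG γ).congr_of_eventuallyEq (hT.mono fun z h => h.2)

structure Cut where
  χ : ℂ → ℝ
  A : ℝ
  y0 : ℝ
  y0_pos : 0 < y0
  y0_lt : y0 < A
  cd : ContDiff ℝ ∞ χ
  nonneg : ∀ z, 0 ≤ χ z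
  box : ∀ z, χ z ≠ 0 → Box A y0 z
  sum_one : ∀ z : ℂ, 0 < z.im → ∑ᶠ γ : S.Γ, χ (mob γ z) = 1

lemma exists_cut : Nonempty S.Cut := by
  set r : ℝ := |S.R0| + 1 with hr
  have hr0 : 0 < r := by positivity
  have h1 : 0 < Real.sinh r := Real.sinh_pos_iff.2 hr0
  have h2 : Real.sinh r < Real.cosh r := Real.sinh_lt_cosh r
  let χ0 : ContDiffBump ((UpperHalfPlane.I.center r : ℍ) : ℂ) :=
    ⟨Real.sinh r, (Real.sinh r + Real.cosh r) / 2, h1, by linarith⟩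
  have y0p : 0 < (Real.cosh r - Real.sinh r) / 2 := by linarith
  have hbox : ∀ z, χ0 z ≠ 0 → Box (2 * Real.cosh r) ((Real.cosh r - Real.sinh r) / 2) z := by
    intro z hz
    have : z ∈ Function.support χ0 := hz
    rw [χ0.support_eq, mem_ball, dist_eq_norm] at this
    have a := (Complex.abs_re_le_norm _).trans_lt this
    have b := abs_lt.1 ((Complex.abs_im_le_norm _).trans_lt this)
    simp only [Complex.sub_re, Complex.sub_im, coe_re, coe_im, center_re, center_im, I_re, I_im,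
      sub_zero, one_mul, χ0] at a b
    exact ⟨by linarith, by linarith, by linarith⟩
  have hs : ∀ (γ : S.Γ) (z : ℍ), χ0 (mob γ z) ≠ 0 →
      dist ((γ : SL(2, ℝ)) • z) UpperHalfPlane.I ≤ _ := fun γ z h =>
    Box.dist_le y0p (by rw [coe_smul_mob]; exact hbox _ h)
  set σ : ℂ → ℝ := fun z => ∑ᶠ γ : S.Γ, χ0 (mob γ z) with hσ
  have σcd : ∀ z : ℂ, 0 < z.im → ContDiffAt ℝ ∞ σ z := fun z hz =>
    S.sum_cd (G := fun γ z => χ0 (mob γ z)) hs hz fun γ =>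
      χ0.contDiff.contDiffAt.comp z (mob_cd γ hz)
  have σpos : ∀ z : ℂ, 0 < z.im → 0 < σ z := by
    intro z hz
    obtain ⟨T, hT⟩ := S.sum_ev (G := fun γ z => χ0 (mob γ z)) hs hz
    obtain ⟨a, b⟩ := hT.self_of_nhds
    obtain ⟨γ, hγ, h⟩ := S.cov ⟨z, hz⟩
    have h3 : χ0 (mob γ z) = 1 := by
      refine χ0.one_of_mem_closedBall ?_
      have : dist (γ • (⟨z, hz⟩ : ℍ)) UpperHalfPlane.I ≤ r := by linarith [le_abs_self S.R0]
      rw [dist_le_iff_dist_coe_center_le, coe_smul_mob] at this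
      simpa [χ0] using this
    have h4 : (⟨γ, hγ⟩ : S.Γ) ∈ T := by
      by_contra hc
      have := a _ hc
      simp [h3] at this
    simp only [hσ]
    rw [b]
    exact Finset.sum_pos' (fun _ _ => χ0.nonneg) ⟨_, h4, by simp [h3]⟩
  have σinv : ∀ (δ : S.Γ) (z : ℂ), 0 < z.im → σ (mob δ z) = σ z := by
    intro δ z hz
    simp only [hσ, mob_mul _ _ hz]
    exact finsum_comp_equiv (Equiv.mulRight δ) (f := fun γ : S.Γ => χ0 (mob γ z))
  have hb2 : ∀ z, χ0 z / σ z ≠ 0 → Box (2 * Real.cosh r) ((Real.cosh r - Real.sinh r) / 2) z :=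
    fun z h => hbox z (left_ne_zero_of_mul h)
  refine ⟨⟨fun z => χ0 z / σ z, _, _, y0p, by linarith, Box.cd y0p hb2 fun z hz =>
    χ0.contDiff.contDiffAt.div (σcd z hz) (σpos z hz).ne', fun z => ?_, hb2, fun z hz => ?_⟩⟩
  · exact div_nonneg χ0.nonneg (finsum_nonneg fun _ => χ0.nonneg)
  · simp only [σinv _ z hz, div_eq_mul_inv]
    rw [← finsum_mul]
    exact mul_inv_cancel₀ (σpos z hz).ne'

def cut : S.Cut := S.exists_cut.some

lemma cut_supp (γ : S.Γ) (z : ℍ) (h : S.cut.χ (mob γ z) ≠ 0) :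
    dist ((γ : SL(2, ℝ)) • z) UpperHalfPlane.I ≤ (2 * S.cut.A + 1) / √S.cut.y0 :=
  Box.dist_le S.cut.y0_pos (by rw [coe_smul_mob]; exact S.cut.box _ h)

lemma cut_tsum (z : ℍ) :
    ∑' γ : S.Γ, ENNReal.ofReal (S.cut.χ (((γ : SL(2, ℝ)) • z : ℍ) : ℂ)) = 1 := by
  obtain ⟨T, hT⟩ := S.sum_ev (G := fun γ z => S.cut.χ (mob γ z)) S.cut_supp z.im_pos
  obtain ⟨a, b⟩ := hT.self_of_nhds
  simp only [coe_smul_mob]
  rw [tsum_eq_sum (s := T) fun γ hγ => by rw [a γ hγ]; simp,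
    ← ENNReal.ofReal_sum_of_nonneg fun _ _ => S.cut.nonneg _, ← b, S.cut.sum_one _ z.im_pos]
  simp

end Sys

end

end Pool.Agent.Lib.MP_21f752_an
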