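import Mathlib

/-! Magnetic systems on a closed surface `ℍ / Γ`, written on the universal cover. -/

namespace Pool.Agent.Lib.MP_21f752_an

open UpperHalfPlane
open scoped MatrixGroups ContDiff

/-- a smooth real function on the upper half-plane -/
def SmoothH (f : ℍ → ℝ) : Prop :=
  ContDiffOn ℝ ∞ (fun z : ℂ => f (ofComplex z)) {z : ℂ | 0 < z.im}

/-- the metric `e^{2 f}` times the hyperbolic metric equals `e^{2 lam} |dz|²` -/
noncomputable def lam (f : ℍ → ℝ) (z : ℂ) : ℝ := f (ofComplex z) - Real.log z.im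

/-- Gaussian curvature `- e^{-2 lam} Δ lam` of the metric `e^{2 lam} |dz|²` -/
noncomputable def curv (f : ℍ → ℝ) (z : ℍ) : ℝ :=
  -Real.exp (-2 * lam f z) * Laplacian.laplacian (lam f) (z : ℂ)

/-- the energy `|v|² / 2` of the tangent vector `v` at `z` -/
noncomputable def energy (f : ℍ → ℝ) (x : ℍ × ℂ) : ℝ :=
  Real.exp (2 * lam f x.1) * ‖x.2‖ ^ 2 / 2

/-- the velocity of a curve -/
noncomputable def vel (c : ℝ → ℍ) (t : ℝ) : ℂ := deriv (fun s => (c s : ℂ)) t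

/-- the covariant derivative of the velocity for the Levi-Civita connection of
`e^{2 lam} |dz|²`: `z'' + 2 dlam(z') z' - |z'|² grad lam` -/
noncomputable def covAcc (f : ℍ → ℝ) (c : ℝ → ℍ) (t : ℝ) : ℂ :=
  deriv (vel c) t + 2 * (fderiv ℝ (lam f) (c t) (vel c t) : ℝ) * vel c t -
    (‖vel c t‖ ^ 2 : ℝ) * ((fderiv ℝ (lam f) (c t) 1 : ℝ) +
      (fderiv ℝ (lam f) (c t) Complex.I : ℝ) * Complex.I)

/-- a magnetic geodesic of energy `k`: `D c' / dt = b(c) J c'` and `|c'|² / 2 = k` -/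
def IsMagGeodesic (f b : ℍ → ℝ) (k : ℝ) (c : ℝ → ℍ) : Prop :=
  Differentiable ℝ (fun s => (c s : ℂ)) ∧ Differentiable ℝ (vel c) ∧
    ∀ t, covAcc f c t = (b (c t) : ℝ) * (Complex.I * vel c t) ∧ energy f (c t, vel c t) = k

/-- the action of a Möbius map on tangent vectors -/
noncomputable def tact (γ : SL(2, ℝ)) (x : ℍ × ℂ) : ℍ × ℂ :=
  (γ • x.1, x.2 / ((γ 1 0 : ℝ) * (x.1 : ℂ) + (γ 1 1 : ℝ)) ^ 2)

/-- The time one map of the magnetic flow on the energy level `k` of `ℍ / Γ` has topological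
entropy zero (open cover definition): for every finite cover `O` of the level by `Γ`-invariant open
sets, the covers `O ∨ φ₁⁻¹ O ∨ … ∨ φ_{n-1}⁻¹ O` have subcovers of subexponential size. -/
def ZeroEntropy (Γ : Subgroup SL(2, ℝ)) (f b : ℍ → ℝ) (k : ℝ) : Prop :=
  ∀ (m : ℕ) (O : Fin m → Set (ℍ × ℂ)), (∀ i, IsOpen (O i)) →
    (∀ i, ∀ γ ∈ Γ, ∀ x ∈ O i, tact γ x ∈ O i) → (∀ x, energy f x = k → ∃ i, x ∈ O i) →
    ∀ η : ℝ, 0 < η → ∃ C : ℝ, ∀ n : ℕ, ∃ W : Finset (Fin n → Fin m),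
      (W.card : ℝ) ≤ C * Real.exp (η * n) ∧
      ∀ c, IsMagGeodesic f b k c → ∃ w ∈ W, ∀ j : Fin n, (c j, vel c j) ∈ O (w j)

end Pool.Agent.Lib.MP_21f752_an
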