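import Pool.Agent.Lib.MP_21f752_an.Place
import Pool.Agent.Lib.MP_d32f96_gt.T1

/-! Orbits do not make detours along the circle at infinity. -/

namespace Pool.Agent.Lib.MP_21f752_an

open UpperHalfPlane Set Filter Topology Metric
open scoped MatrixGroups ContDiff Real

noncomputable section

lemma cross {P Q : ℝ → ℂ} (hP : Continuous P) (hQ : Continuous Q) {a b c d σ : ℝ} (hσ : σ ≠ 0)
    (h1 : ∀ t ∈ uIcc c d, (P a).im ≤ (Q t).im ∧ (Q t).im ≤ (P b).im)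
    (h2 : ∀ s ∈ uIcc a b, σ * (Q c).re ≤ σ * (P s).re ∧ σ * (P s).re ≤ σ * (Q d).re) :
    ∃ s ∈ uIcc a b, ∃ t ∈ uIcc c d, P s = Q t := by
  have m : ∀ a b : ℝ, ∀ s ∈ Icc (0 : ℝ) 1, a + s * (b - a) ∈ uIcc a b := fun a b s hs =>
    (convex_uIcc a b).add_smul_sub_mem left_mem_uIcc right_mem_uIcc hs
  obtain ⟨s, hs, t, ht, e⟩ := MP_d32f96_gt.sX_of
    (fun s => (σ * (P (a + s * (b - a))).re : ℝ) + (P (a + s * (b - a))).im * Complex.I)
    (fun t => (σ * (Q (c + t * (d - c))).re : ℝ) + (Q (c + t * (d - c))).im * Complex.I)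
    (by fun_prop) (by fun_prop) (fun t ht => by simpa using h1 _ (m c d t ht))
    fun s hs => by simpa using h2 _ (m a b s hs)
  refine ⟨_, m a b s hs, _, m c d t ht, Complex.ext ?_ ?_⟩
  · simpa [hσ] using congrArg Complex.re e
  · simpa using congrArg Complex.im e

namespace Sys

variable {S : Sys}

lemma Uq.same (h : S.Uq) {ξ η : N} {t1 t2 s1 s2 : ℝ} (e1 : (S.φ t1 ξ).1 = (S.φ s1 η).1)
    (e2 : (S.φ t2 ξ).1 = (S.φ s2 η).1) (ht : t1 < t2) (hs : s1 < s2) (r : ℝ) :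
    (S.φ (r + t1) ξ).1 = (S.φ (r + s1) η).1 := by
  obtain ⟨k, hk⟩ := ce_eq_iff.1 (h.uniq' (p := (S.φ t1 ξ).1) (θ1 := (S.φ t1 ξ).2)
    (θ2 := (S.φ s1 η).2) (sub_pos.2 ht) (sub_pos.2 hs) (by
      rw [Prod.mk.eta, e1, Prod.mk.eta, ← φ_add, ← φ_add, sub_add_cancel, sub_add_cancel, e2])).2
  have : S.φ t1 ξ = rot (k * (2 * π)) (S.φ s1 η) := Prod.ext e1 hk
  rw [φ_add, φ_add, this, φ_rot]
  rfl

lemma Uq.nd (h : S.Uq) {ξ0 : N} {g0 : SL(2, ℝ)}
    (h1 : Tendsto (fun t => lg (g0 • (S.φ t ξ0).1)) atBot atBot)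
    (h2 : Tendsto (fun t => lg (g0 • (S.φ t ξ0).1)) atTop atTop) :
    ∃ ε, 0 < ε ∧ ∀ (g : SL(2, ℝ)) (ξ : N) (T : ℝ), 0 ≤ T → (g • ξ.1).re = 0 →
      ‖((g • ξ.1 : ℍ) : ℂ)‖ ≤ 1 → 1 ≤ ‖((g • (S.φ T ξ).1 : ℍ) : ℂ)‖ →
      ∃ t ∈ Icc 0 T, ‖((g • (S.φ t ξ).1 : ℍ) : ℂ)‖ ≤ 1 ∧ ε ≤ (g • (S.φ t ξ).1).im := by
  obtain ⟨ε1, a1, b1⟩ := S.good_all h1 h2 (σ := 1) (by simp)
  obtain ⟨ε2, a2, b2⟩ := S.good_all h1 h2 (σ := -1) (by simp)
  refine ⟨min (min ε1 ε2) (1 / 10), by positivity, fun g ξ T hT z0 z1 z2 => ?_⟩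
  set ε := min (min ε1 ε2) (1 / 10) with hε
  by_contra hn
  push Not at hn
  have cont : ∀ (g : SL(2, ℝ)) (ξ : N), Continuous fun t => ((g • (S.φ t ξ).1 : ℍ) : ℂ) :=
    fun g ξ => continuous_coe.comp ((continuous_const_smul g).comp
      (S.continuous_φ.comp (continuous_id.prodMk continuous_const)).fst)
  set Q : ℝ → ℂ := fun t => ((g • (S.φ t ξ).1 : ℍ) : ℂ) with hQ
  obtain ⟨T1, hT1, e1, l1⟩ := first_hit (m := fun t => ‖Q t‖) (cont g ξ).norm hT (u := 1)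
    (by simpa [hQ, φ_zero] using z1) z2
  have low : ∀ t ∈ Icc 0 T1, (Q t).im < ε := fun t ht => hn t ⟨ht.1, ht.2.trans hT1.2⟩ (l1 t ht)
  obtain ⟨σ, hσ, hG, hre⟩ : ∃ σ : ℝ, σ ≠ 0 ∧ S.Good (fun s => (S.φ s ξ0).1) σ ε g ∧
      9 / 10 ≤ σ * (Q T1).re := by
    have i1 := (low T1 ⟨hT1.1, le_rfl⟩).trans_le (min_le_right _ _)
    have i2 : 0 < (Q T1).im := im_pos _
    have i3 : (Q T1).re ^ 2 + (Q T1).im ^ 2 = 1 := by
      have := Complex.sq_norm (Q T1)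
      rw [show ‖Q T1‖ = 1 from e1, Complex.normSq_apply] at this
      linarith
    rcases le_total 0 (Q T1).re with i | i
    · exact ⟨1, one_ne_zero, (b1 g).mono S ((min_le_left _ _).trans (min_le_left _ _)), by nlinarith⟩
    · exact ⟨-1, by simp, (b2 g).mono S ((min_le_left _ _).trans (min_le_right _ _)), by nlinarith⟩
  obtain ⟨γ, hγ, s2, s3, m, u1, u2, u3, u4, u5, u6, u7, u8, u9⟩ := hG
  set η := gg γ ((0 : ℤ) * (2 * π)) ξ0 with hη
  have eP : ∀ s, g • γ • (S.φ s ξ0).1 = g • (S.φ s η).1 := fun s => by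
    rw [hη, S.φ_gg hγ]
    rfl
  simp only [eP] at u4 u5 u6 u7 u8 u9
  have Q0 : σ * (Q 0).re = 0 := by simp [hQ, φ_zero, z0]
  obtain ⟨t0, ht0, e0⟩ := intermediate_value_Icc hT1.1 (f := fun t => σ * (Q t).re)
    (continuous_const.mul (Complex.continuous_re.comp (cont g ξ))).continuousOn
    (show m ∈ _ from ⟨by simp only [Q0]; exact u2.le, by linarith⟩)
  obtain ⟨tm, -, hmin⟩ := isCompact_Icc.exists_isMinOn ⟨0, le_rfl, hT1.1⟩
    (Complex.continuous_im.comp (cont g ξ)).continuousOn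
  have hpos : 0 < (Q tm).im := im_pos _
  obtain ⟨s1, v1, v2⟩ := ((u8.eventually (gt_mem_nhds hpos)).and (eventually_le_atBot s2)).exists
  obtain ⟨s4, v3, v4⟩ := ((u9.eventually (gt_mem_nhds hpos)).and (eventually_ge_atTop s3)).exists
  simp only at e0
  obtain ⟨s, hs, t, ht, c1⟩ := cross (cont g η) (cont g ξ) (a := s1) (b := s2) (c := 0) (d := t0) hσ
    (fun t ht => by
      rw [uIcc_of_le ht0.1] at ht
      have ht' : t ∈ Icc 0 T1 := ⟨ht.1, ht.2.trans ht0.2⟩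
      exact ⟨v1.le.trans (hmin ht'), (low t ht').le.trans u6⟩)
    fun s hs => by
      rw [uIcc_of_le v2] at hs
      exact ⟨Q0.trans_le (u4 s hs.2).1.le, (u4 s hs.2).2.le.trans e0.ge⟩
  obtain ⟨s', hs', t', ht', c2⟩ := cross (cont g η) (cont g ξ) (a := s4) (b := s3) (c := t0)
    (d := T1) hσ
    (fun t ht => by
      rw [uIcc_of_le ht0.2] at ht
      have ht' : t ∈ Icc 0 T1 := ⟨ht0.1.trans ht.1, ht.2⟩
      exact ⟨v3.le.trans (hmin ht'), (low t ht').le.trans u7⟩)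
    fun s hs => by
      rw [uIcc_of_ge v4] at hs
      exact ⟨e0.trans_le (u5 s hs.1).1.le, (u5 s hs.1).2.le.trans hre⟩
  rw [uIcc_of_le v2] at hs
  rw [uIcc_of_ge v4] at hs'
  rw [uIcc_of_le ht0.1] at ht
  rw [uIcc_of_le ht0.2] at ht'
  have d1 := (smul_left_cancel_iff g).1 (UpperHalfPlane.ext c1)
  have d2 := (smul_left_cancel_iff g).1 (UpperHalfPlane.ext c2)
  have lt : t < t' := (ht.2.trans ht'.1).lt_of_ne fun e => by
    have x := (u4 s hs.2).2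
    have y := (u5 s' hs'.1).1
    rw [d1, e, ← d2] at x
    linarith
  have := h.same d1.symm d2.symm lt (by linarith [hs.2, hs'.1]) (-t)
  rw [neg_add_cancel, φ_zero] at this
  have x := (u4 (-t + s) (by linarith [hs.2, ht.1])).1
  rw [← this, z0] at x
  simp at x

/-- joining times are logarithmic along a fan of points -/
lemma Uq.time_log (h : S.Uq) {ξ0 : N} {g0 : SL(2, ℝ)}
    (h1 : Tendsto (fun t => lg (g0 • (S.φ t ξ0).1)) atBot atBot)
    (h2 : Tendsto (fun t => lg (g0 • (S.φ t ξ0).1)) atTop atTop) :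
    ∃ F, 0 ≤ F ∧ ∀ (J : ℕ) (x : ℝ), |x| ≤ Real.exp J →
      (S.tm (pt x 0) (pt 0 J)).1 ≤ (J + 2) * F := by
  obtain ⟨ε, hε, hn⟩ := h.nd h1 h2
  set ε' := min ε 1 / 3 with hε'
  have hε0 : 0 < ε' := by positivity
  have l1 : ε' ≤ ε / 3 := div_le_div_of_nonneg_right (min_le_left _ _) (by norm_num)
  have l2 : ε' ≤ 1 / 3 := div_le_div_of_nonneg_right (min_le_right _ _) (by norm_num)
  obtain ⟨F, hF0, hF⟩ := h.prop (2 / ε')
  refine ⟨F, hF0, fun J x hx => ?_⟩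
  obtain ⟨hT, hq⟩ := h.tm_spec (pt x 0) (pt 0 J)
  set T := (S.tm (pt x 0) (pt 0 J)).1
  set ξ : N := (pt x 0, (S.tm (pt x 0) (pt 0 J)).2) with hξ
  set g : SL(2, ℝ) := mkS 1 (-x) 0 1 (by simp) with hg
  have eg : ∀ z : ℍ, ((g • z : ℍ) : ℂ) = z - x := fun z => by simp [hg, coe_mkS, sub_eq_add_neg]
  have e0 : ((g • (S.φ 0 ξ).1 : ℍ) : ℂ) = Complex.I := by simp [eg, hξ, φ_zero, pt]
  have eT : ((g • (S.φ T ξ).1 : ℍ) : ℂ) = (Real.exp J : ℝ) * Complex.I - x := by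
    simp [eg, hq, pt, -Complex.ofReal_exp]
  have hd : ∀ (s t Y : ℝ), ‖((g • (S.φ s ξ).1 : ℍ) : ℂ)‖ ≤ Y → ‖((g • (S.φ t ξ).1 : ℍ) : ℂ)‖ ≤ Y →
      ε' * Y ≤ (g • (S.φ s ξ).1).im → ε' * Y ≤ (g • (S.φ t ξ).1).im → t ≤ s + F := by
    intro s t Y a b c d
    have := hF (S.φ s ξ) (t - s) (by
      rw [← φ_add, sub_add_cancel, ← dist_smul g]
      exact dist_sector hε0 a b c d)
    linarith [le_abs_self (t - s)]
  have imT : (g • (S.φ T ξ).1).im = Real.exp J := by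
    rw [← coe_im, eT]
    simp [-Complex.ofReal_exp]
  have key : ∀ j : ℕ, j ≤ J → ∃ t, ‖((g • (S.φ t ξ).1 : ℍ) : ℂ)‖ ≤ Real.exp j ∧
      ε * Real.exp j ≤ (g • (S.φ t ξ).1).im := by
    intro j hj
    have p := Real.exp_pos (j : ℝ)
    have q : Real.exp (-(j : ℝ)) * Real.exp j = 1 := by simp [← Real.exp_add]
    have nn : ∀ z : ℍ, ‖(((dil (-j) * g) • z : ℍ) : ℂ)‖ = Real.exp (-j) * ‖((g • z : ℍ) : ℂ)‖ :=
      fun z => by rw [mul_smul, ← exp_lg, lg_dil, Real.exp_add, exp_lg]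
    rw [φ_zero] at e0
    obtain ⟨t, -, a, b⟩ := hn (dil (-j) * g) ξ T hT
      (by rw [mul_smul, ← coe_re, coe_dil, e0]; simp [-Complex.ofReal_exp])
      (by rw [nn, e0]; simp) (by
        rw [nn, ← q]
        refine mul_le_mul_of_nonneg_left (le_trans ?_ (im_le_norm _)) (Real.exp_pos _).le
        rw [imT]
        exact Real.exp_le_exp.2 (Nat.cast_le.2 hj))
    rw [nn] at a
    rw [mul_smul, im_dil] at b
    refine ⟨t, ?_, ?_⟩
    · have := mul_le_mul_of_nonneg_right a p.le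
      rwa [mul_right_comm, q, one_mul, one_mul] at this
    · have := mul_le_mul_of_nonneg_right b p.le
      rwa [mul_right_comm, q, one_mul] at this
  choose! t ht1 ht2 using key
  have ind : ∀ j : ℕ, j ≤ J → t j ≤ (j + 1) * F := by
    intro j
    induction j with
    | zero =>
      intro hj
      have a := ht1 0 hj
      have b := ht2 0 hj
      simp only [Nat.cast_zero, Real.exp_zero, mul_one] at a b
      have := hd 0 (t 0) 1 (by simp [e0]) a (by rw [← coe_im, e0]; simp; linarith) (by linarith)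
      simpa using this
    | succ j ih =>
      intro hj
      have hj' : j ≤ J := by omega
      have p := Real.exp_pos (j : ℝ)
      have e3 : Real.exp 1 ≤ 3 := Real.exp_one_lt_three.le
      have e1 := Real.one_le_exp zero_le_one
      have a := ht1 _ hj
      have b := ht2 _ hj
      push_cast at a b ⊢
      rw [Real.exp_add] at a b
      have := hd (t j) (t (j + 1)) (Real.exp j * Real.exp 1) ((ht1 j hj').trans (by nlinarith)) a
        (le_trans (by nlinarith [mul_pos hε p, mul_pos hε0 p]) (ht2 j hj'))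
        (le_trans (mul_le_mul_of_nonneg_right (by linarith) (by positivity)) b)
      linarith [ih hj']
  have p := Real.exp_pos (J : ℝ)
  have := hd (t J) T (2 * Real.exp J) ((ht1 J le_rfl).trans (by linarith)) (by
    rw [eT]
    refine (norm_sub_le _ _).trans ?_
    simp only [norm_mul, Complex.norm_real, Complex.norm_I, Real.norm_eq_abs, abs_of_pos p]
    linarith) (le_trans (by nlinarith) (ht2 J le_rfl)) (by rw [imT]; nlinarith)
  linarith [ind J le_rfl]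

end Sys

end

end Pool.Agent.Lib.MP_21f752_an
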