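import Pool.Agent.Lib.MP_21f752_an.Var

/-! Positive helicity forces long orbit segments with linear drift. -/

namespace Pool.Agent.Lib.MP_21f752_an

open UpperHalfPlane Set Filter Topology Metric MeasureTheory
open scoped MatrixGroups ContDiff Real

noncomputable section

def pt (x y : ℝ) : ℍ :=
  ⟨x + (Real.exp y : ℝ) * Complex.I, by simpa [-Complex.ofReal_exp] using Real.exp_pos y⟩

lemma pt_im (x y : ℝ) : (pt x y).im = Real.exp y := by simp [pt, -Complex.ofReal_exp]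

lemma pt_self (z : ℍ) : pt z.re (Real.log z.im) = z := by
  apply UpperHalfPlane.ext
  simp only [pt, Real.exp_log z.im_pos]
  exact Complex.re_add_im z

def mkS (a b c d : ℝ) (h : a * d - b * c = 1) : SL(2, ℝ) :=
  ⟨!![a, b; c, d], by rw [Matrix.det_fin_two_of]; exact h⟩

lemma coe_mkS (a b c d : ℝ) (h : a * d - b * c = 1) (z : ℍ) :
    ((mkS a b c d h • z : ℍ) : ℂ) = (a * z + b) / (c * z + d) := by
  rw [coe_smul_mob]
  rfl

def lg (z : ℍ) : ℝ := Real.log ‖(z : ℂ)‖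

namespace Sys

variable {S : Sys}

lemma Uq.path (h : S.Uq) (P : S.Pr) : ∃ C C1, 0 ≤ C ∧
    (∀ p q, (S.tm p q).1 ≤ 1 → P.Ac p q ≤ C1) ∧
    ∀ (p : ℍ) (q : ℝ → ℍ) (w : ℝ → ℂ) (l : ℝ), (∀ r, HasDerivAt (fun r => (q r : ℂ)) (w r) r) →
      (∀ r, ‖w r‖ / (q r).im ≤ l) → max (P.Ac p (q 0)) C1 ≤ max (P.Ac p (q 1)) C1 + C * l := by
  obtain ⟨C, hC0, hC⟩ := h.hd_Ac P
  obtain ⟨C1, h10, h1⟩ := P.ci_ψ.inv.bdd P.ci_ψ.cont
  have k1 : ∀ p q, (S.tm p q).1 ≤ 1 → P.Ac p q ≤ C1 := by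
    intro p q hq
    have := intervalIntegral.norm_integral_le_of_norm_le_const (a := 0) (b := (S.tm p q).1)
      (f := fun r => P.ψ (S.φ r (p, (S.tm p q).2))) fun r _ => h1 _
    rw [sub_zero, abs_of_nonneg (h.tm_spec p q).1] at this
    exact (le_abs_self _).trans (this.trans (mul_le_of_le_one_right h10 hq))
  refine ⟨C, C1, hC0, k1, fun p q w l hq hl => ?_⟩
  have hl0 : 0 ≤ C * l :=
    mul_nonneg hC0 ((div_nonneg (norm_nonneg _) (q 0).im_pos.le).trans (hl 0))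
  have qc : Continuous q :=
    isEmbedding_coe.continuous_iff.2 (continuous_iff_continuousAt.2 fun r => (hq r).continuousAt)
  have τc : Continuous fun r => (S.tm p (q r)).1 := h.tm_cont.comp (continuous_const.prodMk qc)
  obtain ⟨r0, ⟨hr0, hr1⟩, hr2⟩ := (isCompact_Icc.inter_right
    ((isClosed_le τc (continuous_const (y := 1))).union (isClosed_singleton (x := 1)))).exists_isLeast
    ⟨1, ⟨zero_le_one, le_rfl⟩, Or.inr rfl⟩
  rcases hr0.1.eq_or_lt with rfl | hpos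
  · have := k1 p (q 0) (hr1.resolve_right (by simp))
    rw [max_eq_right this]
    linarith [le_max_right (P.Ac p (q 1)) C1]
  have hge : Icc 0 r0 ⊆ {r | 1 ≤ (S.tm p (q r)).1} := by
    rw [← closure_Ico hpos.ne]
    refine (isClosed_le continuous_const τc).closure_subset_iff.2 fun r hr => ?_
    by_contra hc
    exact absurd (hr2 ⟨⟨hr.1, hr.2.le.trans hr0.2⟩, 
      Or.inl (show (S.tm p (q r)).1 ≤ 1 from le_of_not_ge hc)⟩) (not_le.2 hr.2)
  choose! D hD hD' using fun r (hr : r ∈ Icc 0 r0) => hC p q (w r) r (hq r) (hge hr)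
  have := (convex_Icc 0 r0).norm_image_sub_le_of_norm_hasDerivWithin_le (C := C * l)
    (fun r hr => (hD r hr).hasDerivWithinAt)
    (fun r hr => (hD' r hr).trans (mul_le_mul_of_nonneg_left (hl r) hC0))
    ⟨hpos.le, le_rfl⟩ ⟨le_rfl, hpos.le⟩
  rw [zero_sub, norm_neg, Real.norm_of_nonneg hpos.le] at this
  have a := (le_abs_self _).trans (this.trans (mul_le_of_le_one_right hl0 hr0.2))
  have b : P.Ac p (q r0) ≤ max (P.Ac p (q 1)) C1 := by
    rcases hr1 with e | e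
    · exact le_max_of_le_right (k1 _ _ e)
    · rw [e]
      exact le_max_left _ _
  exact max_le (by linarith) (by linarith [le_max_right (P.Ac p (q 1)) C1])

lemma Uq.act_bound (h : S.Uq) (P : S.Pr) : ∃ C C1, 0 < C ∧ ∀ p q : ℍ, C1 < P.Ac p q →
    ∃ g : SL(2, ℝ), P.Ac p q - C1 ≤ C * (lg (g • q) - lg (g • p)) := by
  obtain ⟨C, C1, hC0, k1, k2⟩ := h.path P
  have seg : ∀ (p : ℍ) (x1 x2 y1 y2 : ℝ), x1 = x2 ∨ y1 = y2 → max (P.Ac p (pt x1 y1)) C1 ≤
      max (P.Ac p (pt x2 y2)) C1 + C * (|x2 - x1| / Real.exp y1 + |y2 - y1|) := by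
    intro p x1 x2 y1 y2 hxy
    have := k2 p (fun r => pt (x1 + r * (x2 - x1)) (y1 + r * (y2 - y1))) _
      (|x2 - x1| / Real.exp y1 + |y2 - y1|)
      (fun r => hd_mk (((hasDerivAt_id r).mul_const _).const_add _)
        (((hasDerivAt_id r).mul_const _).const_add _).exp) fun r => ?_
    · simpa using this
    rw [pt_im]
    have e := Real.exp_pos (y1 + r * (y2 - y1))
    rcases hxy with rfl | rfl
    · simp only [sub_self, mul_zero, Complex.ofReal_zero, zero_add, norm_mul, Complex.norm_real,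
        Complex.norm_I, Real.norm_eq_abs, id, abs_of_pos e, abs_zero, zero_div, abs_one]
      field_simp
      rfl
    · simp [-Complex.ofReal_exp, -Complex.ofReal_sub]
  refine ⟨2 * C + 1, C1 + C, by positivity, fun p q hpq => ?_⟩
  have hp := p.im_pos
  have hq := q.im_pos
  set Y := max (max p.im q.im) |p.re - q.re| with hY
  have Y1 : p.im ≤ Y := le_max_of_le_left (le_max_left _ _)
  have Y2 : q.im ≤ Y := le_max_of_le_left (le_max_right _ _)
  have Y0 : 0 < Y := hp.trans_le Y1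
  have s1 := seg p q.re q.re (Real.log q.im) (Real.log Y) (Or.inl rfl)
  have s2 := seg p q.re p.re (Real.log Y) (Real.log Y) (Or.inr rfl)
  have s3 := seg p p.re p.re (Real.log Y) (Real.log p.im) (Or.inl rfl)
  rw [pt_self, abs_of_nonneg (sub_nonneg.2 (Real.log_le_log hq Y2))] at s1
  rw [pt_self, max_eq_right (k1 p p (by simp [h.tm_self])),
    abs_of_nonpos (sub_nonpos.2 (Real.log_le_log hp Y1))] at s3
  rw [Real.exp_log Y0] at s2
  simp only [sub_self, abs_zero, zero_div, zero_add, add_zero] at s1 s2 s3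
  have s4 : C * (|p.re - q.re| / Y) ≤ C :=
    mul_le_of_le_one_right hC0 ((div_le_one Y0).2 (le_max_right _ _))
  have s5 : P.Ac p q - (C1 + C) ≤
      C * (Real.log Y - Real.log q.im) + C * (Real.log Y - Real.log p.im) := by
    linarith [le_max_left (P.Ac p q) C1]
  have key : ∀ a b : ℍ, Y ≤ max (max a.im b.im) |a.re - b.re| →
      Real.log Y - Real.log b.im ≤ max (Real.log ‖(a : ℂ) - b.re‖ - Real.log b.im) 0 := by
    intro a b hY
    have n1 : a.im ≤ ‖(a : ℂ) - b.re‖ := by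
      simpa using (le_abs_self _).trans (Complex.abs_im_le_norm ((a : ℂ) - b.re))
    have n2 : |a.re - b.re| ≤ ‖(a : ℂ) - b.re‖ := by
      simpa using Complex.abs_re_le_norm ((a : ℂ) - b.re)
    rcases le_max_iff.1 (hY.trans (max_le (max_le (n1.trans (le_max_left _ b.im)) (le_max_right _ _))
      (n2.trans (le_max_left _ _)))) with e | e
    · exact le_max_of_le_left (sub_le_sub_right (Real.log_le_log Y0 e) _)
    · exact le_max_of_le_right (sub_nonpos.2 (Real.log_le_log Y0 e))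
  have t1 := key p q le_rfl
  have t2 := key q p (by rw [max_comm q.im, abs_sub_comm])
  have nz : ∀ a b : ℍ, ‖(a : ℂ) - b.re‖ ≠ 0 := fun a b e => by
    have := congrArg Complex.im (norm_eq_zero.1 e)
    exact a.im_pos.ne' (by simpa using this)
  have self : ∀ a : ℍ, ‖(a : ℂ) - a.re‖ = a.im := fun a => by
    have : (a : ℂ) - a.re = a.im * Complex.I := Complex.ext (by simp) (by simp)
    rw [this, norm_mul, Complex.norm_I, mul_one, Complex.norm_real, Real.norm_of_nonneg a.im_pos.le]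
  set D1 := Real.log ‖(p : ℂ) - q.re‖ - Real.log q.im with hD1
  set D2 := Real.log ‖(q : ℂ) - p.re‖ - Real.log p.im with hD2
  have fin : ∀ D, D1 ≤ D → D2 ≤ D → P.Ac p q - (C1 + C) ≤ (2 * C + 1) * D := by
    intro D a b
    have a' := mul_le_mul_of_nonneg_left (t1.trans (max_le_max_right 0 a)) hC0
    have b' := mul_le_mul_of_nonneg_left (t2.trans (max_le_max_right 0 b)) hC0
    rcases le_total D 0 with e | e
    · rw [max_eq_right e] at a' b'
      linarith
    · rw [max_eq_left e] at a' b'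
      linarith
  rcases le_total D1 D2 with e | e
  · refine ⟨mkS 1 (-p.re) 0 1 (by simp), (fin D2 e le_rfl).trans_eq ?_⟩
    simp only [lg, coe_mkS, hD2, ← self p]
    simp [sub_eq_add_neg]
  · refine ⟨mkS 0 (-1) 1 (-q.re) (by simp), (fin D1 le_rfl e).trans_eq ?_⟩
    simp only [lg, coe_mkS, hD1, ← self q]
    simp [sub_eq_add_neg, add_comm]

lemma Uq.drift (h : S.Uq)
    (hel : S.I (fun ξ => S.b ξ.1) / S.Hy * S.I (fun ξ => S.b ξ.1) < S.I fun _ => 1) :
    ∃ η c, 0 < η ∧ ∀ T : ℝ, 0 < T → c < η * T → ∃ (ξ : N) (g : SL(2, ℝ)),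
      η * T - c ≤ lg (g • (S.φ T ξ).1) - lg (g • ξ.1) := by
  obtain ⟨F, F1, F2, F3⟩ := S.exists_prim (div_mul_cancel₀ _ S.Hy_pos.ne').symm
  let P : S.Pr := ⟨_, F, F1, F2, F3⟩
  have hI : 0 < S.I P.ψ := by
    rw [P.I_ψ]
    exact sub_pos.2 hel
  have v := vol_pos (S := S)
  obtain ⟨C, C1, hC, k⟩ := h.act_bound P
  refine ⟨S.I P.ψ / S.I (fun _ => 1) / C, C1 / C, by positivity, fun T hT hc => ?_⟩
  rw [div_mul_eq_mul_div, div_lt_div_iff_of_pos_right hC] at hc
  obtain ⟨ξ, hξ⟩ : ∃ ξ, S.I P.ψ / S.I (fun _ => 1) * T ≤ ∫ t in (0 : ℝ)..T, P.ψ (S.φ t ξ) := by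
    by_contra hn
    push Not at hn
    have := ((CI.const (S.I P.ψ / S.I (fun _ => 1) * T)).sub (P.ci_ψ.avg 0 T)).I_pos
      fun ξ => sub_pos.2 (hn ξ)
    rw [(CI.const _).I_sub (P.ci_ψ.avg 0 T), P.ci_ψ.I_avg, I_const] at this
    have e : S.I P.ψ / S.I (fun _ => 1) * T * S.I (fun _ => 1) = T * S.I P.ψ := by field_simp
    linarith
  have e : P.Ac ξ.1 (S.φ T ξ).1 = ∫ t in (0 : ℝ)..T, P.ψ (S.φ t ξ) := h.Ac_eq P ξ.1 (x := (T, ξ.2)) hT
  obtain ⟨g, hg⟩ := k ξ.1 (S.φ T ξ).1 (by linarith)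
  refine ⟨ξ, g, ?_⟩
  rw [div_mul_eq_mul_div, ← sub_div, div_le_iff₀ hC]
  linarith

end Sys

end

end Pool.Agent.Lib.MP_21f752_an
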