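import Pool.Agent.Lib.MP_21f752_an.Det

/-! A wall forces positive entropy. -/

namespace Pool.Agent.Lib.MP_21f752_an

open UpperHalfPlane Set Filter Topology Metric
open scoped MatrixGroups ContDiff Real

noncomputable section

namespace Sys

variable (S : Sys)

def Free : Prop := ∀ γ ∈ S.Γ, ∀ z : ℍ, γ • z = z → ∀ w : ℍ, γ • w = w

def ZE : Prop := ∀ (m : ℕ) (O : Fin m → Set N), (∀ i, IsOpen (O i)) →
  (∀ i, S.Inv fun ξ => ξ ∈ O i) → (∀ ξ, ∃ i, ξ ∈ O i) → ∀ η : ℝ, 0 < η → ∃ C : ℝ, ∀ n : ℕ,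
    ∃ W : Finset (Fin n → Fin m), (W.card : ℝ) ≤ C * Real.exp (η * n) ∧
      ∀ ξ, ∃ w ∈ W, ∀ j : Fin n, S.φ j ξ ∈ O (w j)

variable {S}

lemma Free.disp (h : S.Free) : ∃ r, 0 < r ∧ ∀ γ ∈ S.Γ, ∀ z : ℍ, dist (γ • z) z < r →
    ∀ w : ℍ, γ • w = w := by
  have k : ∀ γ : S.Γ, ∀ᶠ r in 𝓝[>] (0 : ℝ), ∀ z ∈ closedBall UpperHalfPlane.I S.R0,
      dist ((γ : SL(2, ℝ)) • z) z < r → ∀ w : ℍ, (γ : SL(2, ℝ)) • w = w := by
    intro γ
    by_cases e : ∀ w : ℍ, (γ : SL(2, ℝ)) • w = w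
    · exact .of_forall fun _ _ _ _ => e
    obtain ⟨a, ha, hb⟩ := (isCompact_closedBall UpperHalfPlane.I S.R0).exists_forall_le'
      (f := fun z => dist ((γ : SL(2, ℝ)) • z) z) (a := 0) (by fun_prop)
      fun z _ => dist_pos.2 fun e' => e (h γ γ.2 z e')
    exact mem_of_superset (Ioo_mem_nhdsGT ha) fun r hr z hz hd =>
      absurd ((hb z hz).trans_lt (hd.trans hr.2)) (lt_irrefl _)
  obtain ⟨r, h1, h2⟩ := ((((S.fin (2 * S.R0 + 1)).eventually_all).2 fun γ _ => k γ).and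
    (Ioo_mem_nhdsGT one_pos)).exists
  refine ⟨r, h2.1, fun γ hγ z hz w => ?_⟩
  obtain ⟨δ, hδ, hd⟩ := S.cov z
  have e : dist ((δ * γ * δ⁻¹) • δ • z) (δ • z) < r := by simpa [mul_smul] using hz
  have := h1 ⟨δ * γ * δ⁻¹, S.Γ.mul_mem (S.Γ.mul_mem hδ hγ) (S.Γ.inv_mem hδ)⟩ (by
    have a := dist_triangle4 ((δ * γ * δ⁻¹) • UpperHalfPlane.I) ((δ * γ * δ⁻¹) • δ • z) (δ • z)
      UpperHalfPlane.I
    rw [dist_smul, dist_comm _ (δ • z)] at a
    simp only [mem_ofPred_eq]
    linarith [h2.2]) (δ • z) hd e (δ • w)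
  simpa [mul_smul] using this

lemma Uq.not_ZE (h : S.Uq) (hf : S.Free) {ξ0 : N} {g0 : SL(2, ℝ)}
    (h1 : Tendsto (fun t => lg (g0 • (S.φ t ξ0).1)) atBot atBot)
    (h2 : Tendsto (fun t => lg (g0 • (S.φ t ξ0).1)) atTop atTop) : ¬S.ZE := by
  intro hz
  obtain ⟨F, hF0, hF⟩ := h.time_log h1 h2
  obtain ⟨r, hr0, hr⟩ := hf.disp
  obtain ⟨D, hD0, hD⟩ := S.disp 1
  let U : N → Set N := fun x => {ξ | ∃ γ ∈ S.Γ, dist ξ.1 (γ • x.1) < r / 4 ∧
    dist (S.φ 1 ξ).1 (γ • (S.φ 1 x).1) < r / 4}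
  have Uo : ∀ x, IsOpen (U x) := fun x => by
    have : U x = ⋃ γ ∈ S.Γ, {ξ | dist ξ.1 (γ • x.1) < r / 4} ∩
        {ξ | dist (S.φ 1 ξ).1 (γ • (S.φ 1 x).1) < r / 4} := by
      ext ξ
      simp only [U, mem_ofPred_eq, mem_iUnion, mem_inter_iff, exists_prop]
    rw [this]
    exact isOpen_biUnion fun γ _ => (isOpen_lt (by fun_prop) continuous_const).inter (isOpen_lt
      ((S.continuous_φ.comp (continuous_const.prodMk continuous_id)).fst.dist continuous_const)
      continuous_const)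
  have Ui : ∀ x, S.Inv fun ξ => ξ ∈ U x := fun x δ hδ k ξ => by
    simp only [U, mem_ofPred_eq, S.φ_gg hδ, eq_iff_iff]
    constructor
    · rintro ⟨γ, hγ, a, b⟩
      refine ⟨δ⁻¹ * γ, S.Γ.mul_mem (S.Γ.inv_mem hδ) hγ, ?_⟩
      rw [← dist_smul δ, ← dist_smul δ (S.φ 1 ξ).1]
      simpa [mul_smul, gg] using And.intro a b
    · rintro ⟨γ, hγ, a, b⟩
      refine ⟨δ * γ, S.Γ.mul_mem hδ hγ, ?_⟩
      simpa [mul_smul, gg] using And.intro a b
  obtain ⟨t, ht⟩ := S.K0_compact.elim_finite_subcover U Uo fun x _ =>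
    mem_iUnion.2 ⟨x, 1, S.Γ.one_mem, by simpa using hr0, by simpa using hr0⟩
  set η := 1 / (4 * (F + 1)) with hη
  have hη0 : 0 < η := by positivity
  obtain ⟨C, hC⟩ := hz t.card (fun i => U (t.equivFin.symm i)) (fun i => Uo _) (fun i => Ui _)
    (fun ξ => by
      obtain ⟨γ, hγ, k, hk⟩ := S.exists_gg ξ
      obtain ⟨x, hx, e⟩ := mem_iUnion₂.1 (ht hk)
      exact ⟨t.equivFin ⟨x, hx⟩, by simpa using (Ui x γ hγ k ξ).mp e⟩) η hη0
  set L := Real.exp (2 * D + r / 2) with hL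
  have hL0 : 0 < L := Real.exp_pos _
  have count : ∀ J : ℕ, Real.exp J / L ≤ 1 + |C| * (1 / η + 1) * Real.exp ((J + 3) / 2) := by
    intro J
    set n := ⌈(J + 2) * F⌉₊ with hn
    obtain ⟨W, hW, hw⟩ := hC n
    let T : ℕ → ℝ := fun i => (S.tm (pt (i * L) 0) (pt 0 J)).1
    let ξ : ℕ → N := fun i => S.φ (T i - n) (pt (i * L) 0, (S.tm (pt (i * L) 0) (pt 0 J)).2)
    choose w hw1 hw2 using fun i => hw (ξ i)
    have T0 : ∀ i, 0 ≤ T i := fun i => (h.tm_spec _ _).1
    have T1 : ∀ i ∈ Finset.range ⌊Real.exp J / L⌋₊, T i ≤ n := fun i hi => by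
      refine (hF J _ ?_).trans (Nat.le_ceil _)
      rw [abs_of_nonneg (by positivity), ← le_div_iff₀ hL0]
      exact (Nat.cast_le.2 (Finset.mem_range.1 hi).le).trans (Nat.floor_le (by positivity))
    have back : ∀ i i', w i = w i' → ∀ d j : ℕ, j + d = n →
        dist (S.φ j (ξ i)).1 (S.φ j (ξ i')).1 < r / 2 := by
      intro i i' e d
      induction d with
      | zero =>
        intro j hj
        have : ∀ i, (S.φ j (ξ i)).1 = pt 0 J := fun i => by
          rw [← (h.tm_spec (pt (i * L) 0) (pt 0 J)).2, ← φ_add, show j = n from hj, add_sub_cancel]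
        rw [this, this, dist_self]
        positivity
      | succ d ih =>
        intro j hj
        have a := ih (j + 1) (by omega)
        obtain ⟨γ, hγ, b1, b2⟩ := hw2 i ⟨j, by omega⟩
        obtain ⟨γ', hγ', c1, c2⟩ := hw2 i' ⟨j, by omega⟩
        rw [← e] at c1 c2
        rw [← φ_add, add_comm] at b2 c2
        push_cast at a b1 b2 c1 c2
        generalize (t.equivFin.symm (w i ⟨j, by omega⟩) : N) = x at *
        have := hr (γ⁻¹ * γ') (S.Γ.mul_mem (S.Γ.inv_mem hγ) hγ') (S.φ 1 x).1 (by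
          rw [← dist_smul γ, mul_smul, smul_inv_smul]
          have := dist_triangle4 (γ' • (S.φ 1 x).1) (S.φ (j + 1) (ξ i')).1 (S.φ (j + 1) (ξ i)).1
            (γ • (S.φ 1 x).1)
          rw [dist_comm] at c2 a
          linarith) x.1
        rw [mul_smul, inv_smul_eq_iff] at this
        rw [this] at c1
        linarith [dist_triangle_right (S.φ j (ξ i)).1 (S.φ j (ξ i')).1 (γ • x.1)]
    have hc := Finset.card_le_card_of_injOn (s := Finset.range ⌊Real.exp J / L⌋₊)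
      (t := W ×ˢ Finset.range (n + 1)) (fun i => (w i, ⌊n - T i⌋₊))
      (fun i _ => Finset.mem_coe.2 (Finset.mem_product.2 ⟨hw1 i, Finset.mem_range.2
        (Nat.lt_succ_of_le (Nat.floor_le_of_le (by linarith [T0 i])))⟩))
      fun i hi i' hi' e => by
        obtain ⟨e1, e2⟩ := Prod.ext_iff.1 e
        simp only at e1 e2
        have near : ∀ i ∈ Finset.range ⌊Real.exp J / L⌋₊,
            dist (pt (i * L) 0) (S.φ (⌊n - T i⌋₊ : ℕ) (ξ i)).1 ≤ D := fun i hi => by
          have := hD (ξ i) (⌊n - T i⌋₊ : ℕ) (n - T i) (by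
            have := Nat.floor_le (sub_nonneg.2 (T1 i hi))
            have := Nat.lt_floor_add_one (n - T i)
            rw [abs_le]
            constructor <;> linarith)
          rwa [← φ_add, sub_add_sub_cancel, sub_self, φ_zero] at this
        obtain ⟨d, hd⟩ := Nat.exists_eq_add_of_le
          (Nat.floor_le_of_le (show (n : ℝ) - T i ≤ n by linarith [T0 i]))
        have a := back i i' e1 d _ hd.symm
        have b := near i hi
        have c := near i' hi'
        rw [← e2, dist_comm] at c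
        have f := dist_triangle4 (pt (i * L) 0) (S.φ (⌊n - T i⌋₊ : ℕ) (ξ i)).1
          (S.φ (⌊n - T i⌋₊ : ℕ) (ξ i')).1 (pt (i' * L) 0)
        have g := dist_coe_le (pt (i * L) 0) (pt (i' * L) 0)
        have g2 : Real.exp (dist (pt (i * L) 0) (pt (i' * L) 0)) ≤ L :=
          Real.exp_le_exp.2 (by linarith)
        have g3 : dist ((pt (i * L) 0 : ℍ) : ℂ) (pt (i' * L) 0 : ℍ) = |(i : ℝ) - i'| * L := by
          simp only [pt, dist_add_right, Complex.dist_eq, ← Complex.ofReal_sub, Complex.norm_real,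
            Real.norm_eq_abs, ← sub_mul, abs_mul, abs_of_pos hL0]
        rw [g3, pt_im, Real.exp_zero] at g
        have g4 : |(i : ℝ) - i'| < 1 := by
          by_contra hc
          nlinarith
        rw [abs_lt] at g4
        have x1 : (i : ℝ) < i' + 1 := by linarith
        have x2 : (i' : ℝ) < i + 1 := by linarith
        have : i < i' + 1 := by exact_mod_cast x1
        have : i' < i + 1 := by exact_mod_cast x2
        omega
    rw [Finset.card_range, Finset.card_product, Finset.card_range] at hc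
    have hc' : (⌊Real.exp J / L⌋₊ : ℝ) ≤ W.card * (n + 1) := by exact_mod_cast hc
    have n0 : (0 : ℝ) ≤ n := Nat.cast_nonneg n
    have J0 : (0 : ℝ) ≤ J := Nat.cast_nonneg J
    have a1 : (n : ℝ) + 1 ≤ (1 / η + 1) * Real.exp (η * n) := by
      refine le_trans ?_ (mul_le_mul_of_nonneg_left (Real.add_one_le_exp _) (by positivity))
      have : (1 / η + 1) * (η * n + 1) = n + 1 + (1 / η + η * n) := by field_simp; ring
      rw [this]
      exact le_add_of_nonneg_right (by positivity)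
    have a2 : η * n + η * n ≤ (J + 3) / 2 := by
      have := Nat.ceil_lt_add_one (show 0 ≤ ((J : ℝ) + 2) * F by positivity)
      have e : η * ((J + 3) * (F + 1)) = (J + 3) / 4 := by rw [hη]; field_simp
      have : η * n ≤ η * ((J + 3) * (F + 1)) := mul_le_mul_of_nonneg_left (by nlinarith) hη0.le
      linarith
    have a3 : (W.card : ℝ) * (n + 1) ≤ |C| * (1 / η + 1) * Real.exp ((J + 3) / 2) :=
      calc _ ≤ |C| * Real.exp (η * n) * ((1 / η + 1) * Real.exp (η * n)) :=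
            mul_le_mul (hW.trans (by gcongr; exact le_abs_self C)) a1 (by positivity) (by positivity)
        _ = |C| * (1 / η + 1) * Real.exp (η * n + η * n) := by rw [Real.exp_add]; ring
        _ ≤ _ := by gcongr
    linarith [Nat.lt_floor_add_one (Real.exp J / L)]
  obtain ⟨J, hJ⟩ := exists_nat_gt (2 * (L * (1 + |C| * (1 / η + 1) * Real.exp (3 / 2))))
  have a := count J
  have b := Real.add_one_le_exp ((J : ℝ) / 2)
  have c : 1 ≤ Real.exp ((J : ℝ) / 2) := Real.one_le_exp (by positivity)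
  rw [div_le_iff₀ hL0, add_div, Real.exp_add, ← add_halves (J : ℝ), Real.exp_add, add_halves] at a
  have d : 0 ≤ |C| * (1 / η + 1) * Real.exp (3 / 2) := by positivity
  generalize Real.exp ((J : ℝ) / 2) = x at *
  have e : (1 + |C| * (1 / η + 1) * (x * Real.exp (3 / 2))) * L ≤
      x * (L * (1 + |C| * (1 / η + 1) * Real.exp (3 / 2))) := by nlinarith
  nlinarith

theorem Uq.main (h : S.Uq) (hf : S.Free) (hz : S.ZE) :
    (∃ κ, ∀ z, curv S.f z = κ) ∧ ∃ β, ∀ z, S.b z = β := by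
  refine h.rigid (not_lt.1 fun hel => ?_)
  obtain ⟨η, c, hη, hd⟩ := h.drift hel
  obtain ⟨ξ, g, h1, h2⟩ := h.wall hη hd
  exact h.not_ZE hf h1 h2 hz

end Sys

end

end Pool.Agent.Lib.MP_21f752_an
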