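import Pool.Agent.Lib.MP_21f752_an.Ent

/-! Frozen statements, part A: fields, action potential, the geometric system. -/

namespace Pool.Agent.Lib.MP_21f752_an

open UpperHalfPlane Set Filter Topology Metric MeasureTheory
open scoped MatrixGroups ContDiff Real

noncomputable section

namespace Sys

variable (S : Sys)

/-- no conjugate points, normal component -/
def NC : Prop := ∀ ξ t, t ≠ 0 → S.jy ξ t ≠ 0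

def l1 (ξ : N) (d : ℂ × ℝ) : ℝ := (d.1 / S.V ξ).im

def l2 (ξ : N) (d : ℂ × ℝ) : ℝ :=
  d.2 + (d.1 / S.V ξ).im * fderiv ℝ S.L ξ.1 (S.V ξ) - (d.1 / S.V ξ).re * S.W ξ

def df (t : ℝ) (ξ η : N) : ℂ × ℝ := emb (S.φ t η) - emb (S.φ t ξ)

/-- the germ of `α` at `z` stays in the positive cone for all times -/
def Gd (C : ℝ) (α : ℍ → ℝ) (z : ℍ) : Prop :=
  ∀ t ε : ℝ, 0 < ε → ∀ᶠ w : ℍ × ℍ in 𝓝 (z, z), 0 ≤ (((w.2 : ℂ) - w.1) / S.V (z, α z)).im →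
    |S.l2 (S.φ t (z, α z)) (S.df t (w.1, α w.1) (w.2, α w.2))| ≤
      C * S.l1 (S.φ t (z, α z)) (S.df t (w.1, α w.1) (w.2, α w.2)) + ε * ‖(w.2 : ℂ) - w.1‖

def CLip (κ : ℝ → N) (a : ℝ) : Prop :=
  ∃ M, ∀ᶠ x : ℝ × ℝ in 𝓝 (a, a), ‖emb (κ x.2) - emb (κ x.1)‖ ≤ M * |x.2 - x.1|

def CTr (κ : ℝ → N) (a : ℝ) : Prop :=
  ∃ c, 0 < c ∧ ∀ᶠ x : ℝ × ℝ in 𝓝 (a, a), x.1 ≤ x.2 →
    c * (x.2 - x.1) ≤ S.l1 (κ a) (emb (κ x.2) - emb (κ x.1))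

/-- a positive curve at the parameter `a` -/
structure PC (C : ℝ) (κ : ℝ → N) (a : ℝ) : Prop where
  lip : CLip κ a
  tr : S.CTr κ a
  cone : ∀ t ε : ℝ, 0 < ε → ∀ᶠ x : ℝ × ℝ in 𝓝 (a, a), x.1 ≤ x.2 →
    |S.l2 (S.φ t (κ a)) (S.df t (κ x.1) (κ x.2))| ≤
      C * S.l1 (S.φ t (κ a)) (S.df t (κ x.1) (κ x.2)) + ε * (x.2 - x.1)

/-- the normal segment -/
def sg (ξ : N) (η : ℝ) : ℍ := ofComplex ((ξ.1 : ℂ) + η * (Complex.I * S.V ξ))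

/-- every point carries a positive curve over its normal segment -/
def Curves (C : ℝ) : Prop :=
  ∀ ξ : N, ∃ ε, 0 < ε ∧ ∃ a : ℝ → ℝ, a 0 = ξ.2 ∧
    ∀ η, |η| < ε → S.PC C (fun s => (S.sg ξ s, a s)) η

/-- the graph of `α` is invariant under the flow -/
def Fl (α : ℍ → ℝ) : Prop := ∀ z t, α (S.φ t (z, α z)).1 = (S.φ t (z, α z)).2

variable {S}

/-- `u` is the potential of the field `α` -/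
def Pr.Pot (P : S.Pr) (α u : ℍ → ℝ) : Prop :=
  ∀ z : ℍ, ∃ D : ℂ →L[ℝ] ℝ, HasFDerivAt (fun w : ℂ => u (ofComplex w)) D (z : ℂ) ∧
    ∀ δ, D δ = (δ / S.V (z, α z)).re - (P.Θ z * δ).re

def Pr.Fields (P : S.Pr) : Prop :=
  ∃ C, ∀ ξ : N, ∃ α u : ℍ → ℝ, α ξ.1 = ξ.2 ∧ S.Fl α ∧ (∀ z w, |α z - α w| ≤ C * dist z w) ∧
    P.Pot α u

/-- subsolutions -/
def Pr.Sub (P : S.Pr) (u : ℍ → ℝ) : Prop :=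
  ∀ z : ℍ, ∃ D : ℂ →L[ℝ] ℝ, HasFDerivAt (fun w : ℂ => u (ofComplex w)) D (z : ℂ) ∧
    ∀ δ, D δ ≤ Real.exp (S.L z) * ‖δ‖ - (P.Θ z * δ).re

/-- the action potential -/
def Pr.Ph (P : S.Pr) (p q : ℍ) : ℝ := sSup {r | ∃ u, P.Sub u ∧ r = u q - u p}

structure Pr.B1 (P : S.Pr) : Prop where
  le : ∀ u, P.Sub u → ∀ p q, u q - u p ≤ P.Ph p q
  cont : Continuous fun x : ℍ × ℍ => P.Ph x.1 x.2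
  tri : ∀ p q r, P.Ph p r ≤ P.Ph p q + P.Ph q r
  nn : ∀ p q, 0 ≤ P.Ph p q + P.Ph q p
  seg : ∀ p q : ℍ, P.Ph p q ≤ ∫ s in (0 : ℝ)..1, (Real.exp (S.L (p + s * (q - p))) * ‖(q : ℂ) - p‖ -
    (P.Θ (p + s * (q - p)) * (q - p)).re)
  orb : ∀ ξ s t, s ≤ t → P.Ph (S.φ s ξ).1 (S.φ t ξ).1 =
    ∫ r in s..t, (1 - (P.Θ (S.φ r ξ).1 * S.V (S.φ r ξ)).re)
  eqv : ∀ γ ∈ S.Γ, ∀ p q : ℍ, P.Ph (γ • p) (γ • q) = P.Ph p q + P.c * (ang γ q - ang γ p)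
  lip : ∃ C, ∀ ξ T, |∫ t in (0 : ℝ)..T, P.ψ (S.φ t ξ)| ≤ C * dist ξ.1 (S.φ T ξ).1

structure Pr.B2 (P : S.Pr) : Prop where
  cc : ∀ (p : ℍ) (θ1 θ2 s t : ℝ), ce θ1 ≠ ce θ2 → 0 < s → 0 < t →
    P.Ph (S.φ (-s) (p, θ1)).1 (S.φ t (p, θ2)).1 <
      P.Ph (S.φ (-s) (p, θ1)).1 p + P.Ph p (S.φ t (p, θ2)).1
  nr : ∀ t0, 0 < t0 → ∃ r, 0 < r ∧ ∀ ξ t, t0 ≤ |t| → r ≤ dist (S.φ t ξ).1 ξ.1

end Sys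

/-- a system without conjugate points and with positive mean action -/
structure Geo extends Sys where
  free : toSys.Free
  tw : ∀ (ξ : N) (t : ℝ), t ≠ 0 → ∃ q : ℂ, 0 < t * q.im ∧
    HasDerivAt (fun θ => ((toSys.φ t (ξ.1, θ)).1 : ℂ)) (q * toSys.V (toSys.φ t ξ)) ξ.2
  opn : ∀ (ξ : N) (t : ℝ), t ≠ 0 →
    𝓝 (toSys.φ t ξ).1 ≤ map (fun x : ℝ × ℝ => (toSys.φ x.1 (ξ.1, x.2)).1) (𝓝 (t, ξ.2))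
  c : ℝ
  Ph : ℍ → ℍ → ℝ
  cont : Continuous fun x : ℍ × ℍ => Ph x.1 x.2
  tri : ∀ p q r, Ph p r ≤ Ph p q + Ph q r
  nn : ∀ p q, 0 ≤ Ph p q + Ph q p
  act : ∀ ξ s t r, s ≤ t → t ≤ r → Ph (toSys.φ s ξ).1 (toSys.φ r ξ).1 =
    Ph (toSys.φ s ξ).1 (toSys.φ t ξ).1 + Ph (toSys.φ t ξ).1 (toSys.φ r ξ).1
  eqv : ∀ γ ∈ Γ, ∀ p q : ℍ, Ph (γ • p) (γ • q) = Ph p q + c * (ang γ q - ang γ p)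
  cc : ∀ (p : ℍ) (θ1 θ2 s t : ℝ), ce θ1 ≠ ce θ2 → 0 < s → 0 < t →
    Ph (toSys.φ (-s) (p, θ1)).1 (toSys.φ t (p, θ2)).1 <
      Ph (toSys.φ (-s) (p, θ1)).1 p + Ph p (toSys.φ t (p, θ2)).1
  nr : ∀ t0, 0 < t0 → ∃ r, 0 < r ∧ ∀ ξ t, t0 ≤ |t| → r ≤ dist (toSys.φ t ξ).1 ξ.1
  ψ : N → ℝ
  ci : toSys.CI ψ
  pos : 0 < toSys.I ψ
  lip : ∃ C, ∀ ξ T, |∫ t in (0 : ℝ)..T, ψ (toSys.φ t ξ)| ≤ C * dist ξ.1 (toSys.φ T ξ).1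

/-- Riccati bound, twist, open exponential map, Hopf rigidity -/
def RicSt : Prop := ∀ S : Sys, S.NC →
  (∀ ξ t, t ≠ 0 → 0 < t * S.jy ξ t) ∧
  (∃ C, 0 < C ∧ ∀ ξ t, 1 ≤ t → |S.jw ξ t| ≤ C * S.jy ξ t) ∧
  (∀ (ξ : N) (t : ℝ), t ≠ 0 → ∃ q : ℂ, 0 < t * q.im ∧
    HasDerivAt (fun θ => ((S.φ t (ξ.1, θ)).1 : ℂ)) (q * S.V (S.φ t ξ)) ξ.2) ∧
  (∀ (ξ : N) (t : ℝ), t ≠ 0 →
    𝓝 (S.φ t ξ).1 ≤ map (fun x : ℝ × ℝ => (S.φ x.1 (ξ.1, x.2)).1) (𝓝 (t, ξ.2))) ∧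
  (S.I (fun _ => 1) ≤ S.I (fun ξ => S.b ξ.1) / S.Hy * S.I (fun ξ => S.b ξ.1) →
    (∃ κ, ∀ z, curv S.f z = κ) ∧ ∃ β, ∀ z, S.b z = β)

def CurveSt : Prop := ∀ S : Sys, S.NC → ∃ C, 0 < C ∧ S.Curves C

/-- flow box of a positive curve -/
def BoxSt : Prop := ∀ (S : Sys) (C : ℝ) (κ : ℝ → N) (a t : ℝ), 0 < C → S.PC C κ a →
  ∃ iv : ℍ → ℝ × ℝ, (∀ᶠ x : ℝ × ℝ in 𝓝 (t, a), iv (S.φ x.1 (κ x.2)).1 = x) ∧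
    (∀ᶠ z in 𝓝 (S.φ t (κ a)).1, (S.φ (iv z).1 (κ (iv z).2)).1 = z) ∧
    Tendsto iv (𝓝 (S.φ t (κ a)).1) (𝓝 (t, a)) ∧
    S.Gd C (fun z => (S.φ (iv z).1 (κ (iv z).2)).2) (S.φ t (κ a)).1 ∧
    ∀ᶠ w : ℍ × ℍ in 𝓝 ((S.φ t (κ a)).1, (S.φ t (κ a)).1),
      |(((w.2 : ℂ) - w.1) / S.V (S.φ t (κ a))).re| < (((w.2 : ℂ) - w.1) / S.V (S.φ t (κ a))).im →
        (iv w.1).2 < (iv w.2).2

/-- gluing, restriction of a good germ to a transversal, Lipschitz bounds -/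
def GlueSt : Prop := ∀ (S : Sys) (C : ℝ), 0 < C →
  (∀ (κ : ℝ → N) (a : ℝ), Sys.CLip κ a → S.CTr κ a → (∀ᶠ s in 𝓝[≠] a, S.PC C κ s) → S.PC C κ a) ∧
  (∀ (α : ℍ → ℝ) (σ : ℝ → ℍ) (z0 v : ℂ) (a : ℝ), (∀ᶠ s in 𝓝 a, (σ s : ℂ) = z0 + s * v) →
    0 < (v / S.V (σ a, α (σ a))).im → S.Gd C α (σ a) → S.PC C (fun s => (σ s, α (σ s))) a) ∧
  (∃ M, ∀ (α : ℍ → ℝ) (z : ℍ), S.Gd C α z →
    ∀ᶠ w : ℍ × ℍ in 𝓝 (z, z), |α w.2 - α w.1| ≤ M * dist w.2 w.1) ∧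
  ∀ (α : ℍ → ℝ) (M : ℝ), (∀ z, ∀ᶠ w in 𝓝 z, |α w - α z| ≤ M * dist w z) →
    ∀ z w, |α z - α w| ≤ M * dist z w

def ZornSt : Prop := ∀ (S : Sys) (C : ℝ), 0 < C → S.Curves C →
  ∀ ξ : N, ∃ α : ℍ → ℝ, α ξ.1 = ξ.2 ∧ S.Fl α ∧ ∀ z, S.Gd C α z

def PrimSt : Prop := ∀ (S : Sys) (P : S.Pr) (α : ℍ → ℝ) (C : ℝ), S.Fl α →
  (∀ z w, |α z - α w| ≤ C * dist z w) → ∃ u, P.Pot α u

def B1St : Prop := ∀ (S : Sys) (P : S.Pr), P.Fields → P.B1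

def B2St : Prop := ∀ (S : Sys) (P : S.Pr), P.Fields → P.B1 → P.B2

end

end Pool.Agent.Lib.MP_21f752_an
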