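import Pool.Agent.Lib.MP_21f752_an.FT3

/-! Walls avoid shielded points at infinity. -/

namespace Pool.Agent.Lib.MP_21f752_an

open UpperHalfPlane Set Filter Topology Metric
open scoped MatrixGroups Real

noncomputable section

namespace FAv

open FT3

lemma bl_per (l ε : ℝ) : Bl (l + 2 * π) ε = Bl l ε := by simp only [Bl, ce_per]

lemma bl_mono {l ε ε' : ℝ} (h : ε ≤ ε') : Bl l ε ⊆ Bl l ε' := fun _ hz => lt_of_lt_of_le hz h

lemma gap {a b : ℝ} (h1 : a < b) (h2 : b < a + 2 * π) : 0 < ‖ce a - ce b‖ / 2 := by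
  refine half_pos (norm_pos_iff.2 (sub_ne_zero.2 fun e => ?_))
  obtain ⟨j, rfl⟩ := ce_eq_iff.1 e
  have h3 : (j : ℝ) < 0 := by nlinarith [Real.pi_pos]
  have h4 : (-1 : ℝ) < j := by nlinarith [Real.pi_pos]
  have h5 : j < 0 := by exact_mod_cast h3
  have h6 : -1 < j := by exact_mod_cast h4
  omega

lemma bl_dis {a b e δ : ℝ} (h : e + δ ≤ ‖ce a - ce b‖) : Disjoint (Bl a e) (Bl b δ) := by
  rw [Set.disjoint_left]
  intro z h1 h2
  have := norm_sub_le_norm_sub_add_norm_sub (ce a) (cay z) (ce b)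
  rw [norm_sub_rev (ce a) (cay z)] at this
  exact absurd (this.trans_lt (add_lt_add h1 h2)) h.not_gt

lemma acc {G : Geo} {g : N} {x y : ℝ} (w : G.Wl g x y) (ε : ℝ) (h : 0 < ε) :
    ∃ z ∈ range (G.o g), z ∈ Bl y ε :=
  let ⟨t, ht⟩ := (ev_bl w.p h).exists
  ⟨_, ⟨t, rfl⟩, ht⟩

lemma dis {G : Geo} {f g : N} (h : G.Dis f g) : Disjoint (range (G.o f)) (range (G.o g)) := by
  rw [Set.disjoint_left]
  rintro _ ⟨s, rfl⟩ ⟨t, e⟩
  exact h s t e.symm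

/-- the back half of a wall closed up at a point at infinity that it passes -/
lemma tip (hi : IdxSt) (hd : Disc) {G : Geo} {f : N} {x y μ δ l l' : ℝ} (w : G.Wl f x y)
    (hn : G.Nr f μ δ) {A : Set ℍ} (hA : IsPreconnected A) (d1 : Disjoint A (range (G.o f)))
    (d2 : Disjoint A (Bl μ δ)) (h1 : x < l) (h2 : l < μ) (h3 : μ < l') (h4 : l' < x + 2 * π)
    (a : ∀ ε, 0 < ε → ∃ z ∈ A, z ∈ Bl l ε) (b : ∀ ε, 0 < ε → ∃ z ∈ A, z ∈ Bl l' ε) : False := by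
  obtain ⟨t, ht⟩ := hn
  obtain ⟨σ, s1, s2, s3, s4⟩ := hd.seg (G.o f t) μ
  refine sep hi (line_cat (a := t) (b := 0) (cont_o G f) s1 s2.symm w.m s3 (h1.trans h2)
    (h3.trans h4)) hA (Disjoint.mono_right (cat_range ..) (disjoint_union_right.2
      ⟨d1.mono_right (image_subset_range _ _), d2.mono_right ?_⟩)) h1 h2 h3 h4 a b
  rintro _ ⟨u, hu, rfl⟩
  obtain ⟨s, hs, e⟩ := s4 u hu
  have : cay (σ u) - ce μ = (1 - s : ℝ) * (cay (G.o f t) - ce μ) := by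
    rw [e]
    push_cast
    ring
  refine lt_of_le_of_lt (?_ : ‖cay (σ u) - ce μ‖ ≤ ‖cay (G.o f t) - ce μ‖) ht
  rw [this, norm_mul, Complex.norm_real, Real.norm_of_nonneg (by linarith [hs.2])]
  exact mul_le_of_le_one_left (norm_nonneg _) (by linarith [hs.1])

lemma conn (hd : Disc) {G : Geo} {g : N} {l e : ℝ} (h : G.Nr g l e) :
    IsPreconnected (range (G.o g) ∪ Bl l e) :=
  let ⟨t, ht⟩ := h
  (isPreconnected_range (cont_o G g)).union _ ⟨t, rfl⟩ ht (hd.conn l e)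

lemma accB (hd : Disc) (A : Set ℍ) {l e : ℝ} (he : 0 < e) (ε : ℝ) (h : 0 < ε) :
    ∃ z ∈ A ∪ Bl l e, z ∈ Bl l ε :=
  let ⟨z, hz⟩ := hd.ne l (min e ε) (lt_min he h)
  ⟨z, .inr (bl_mono (min_le_left _ _) hz), bl_mono (min_le_right _ _) hz⟩

lemma disB {G : Geo} {f : N} {l e : ℝ} (h : ¬G.Nr f l e) : Disjoint (Bl l e) (range (G.o f)) := by
  rw [Set.disjoint_right]
  rintro _ ⟨t, rfl⟩ ht
  exact h ⟨t, ht⟩

end FAv

open FT3 FAv in
theorem av (hd : Disc) (hi : IdxSt) (hb : BaseSt) (ht : T3St) : AvSt := by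
  intro G
  have B := hb G
  have T := ht G
  refine ⟨fun m x y l w h1 h2 => ?_, fun m x y l w h1 h2 => ?_, fun μ l h1 h2 => ?_,
    fun μ l h1 h2 => ?_⟩
  · obtain ⟨n, hn⟩ := hi _ _ _ (B.line m x y w)
    obtain ⟨e, e0, he⟩ := hn.rt l h1 h2
    refine ⟨e, e0, fun g x' y' w' a b ⟨t, c⟩ => ?_⟩
    obtain ⟨ε, ε0, hε⟩ := hn.lf y' b (by linarith [w'.lt2])
    obtain ⟨z, z1, z2⟩ := acc w' ε ε0
    have := hn.lc _ (isPreconnected_range (cont_o G g)) (dis (T _ _ _ _ _ _ w w' a b)).symm z z1 _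
      ⟨t, rfl⟩
    rw [(hε z z2).2, (he _ c).2] at this
    omega
  · obtain ⟨n, hn⟩ := hi _ _ _ (B.line m x y w)
    obtain ⟨e, e0, he⟩ := hn.lf l h1 h2
    refine ⟨e, e0, fun g x' y' w' a b ⟨t, c⟩ => ?_⟩
    obtain ⟨ε, ε0, hε⟩ := hn.rt y' (a.trans w'.lt) b
    obtain ⟨z, z1, z2⟩ := acc w' ε ε0
    have := hn.lc _ (isPreconnected_range (cont_o G g)) (dis (T _ _ _ _ _ _ w' w a b)) z z1 _
      ⟨t, rfl⟩
    rw [(hε z z2).2, (he _ c).2] at this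
    omega
  · refine ⟨_, gap h1 h2, fun e e0 e1 g x y w a => ?_⟩
    by_cases c : μ - 2 * π < y
    swap
    · exact ⟨1, one_pos, fun f x' y' w' _ _ _ => absurd (by linarith [w'.lt]) c⟩
    obtain ⟨n, hn⟩ := hi _ _ _ (B.line g x y w)
    obtain ⟨δ, δ0, hδ⟩ := hn.rt (μ - 2 * π) (by linarith) c
    rw [← bl_per, sub_add_cancel] at hδ
    refine ⟨min δ (‖ce μ - ce l‖ / 2), lt_min δ0 (gap h1 h2),
      fun f x' y' w' b1 b2 b3 n1 n2 n3 => ?_⟩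
    refine tip hi hd w' n1 (conn hd n3) (disjoint_union_left.2
      ⟨(dis (T _ _ _ _ _ _ w' w b1 b2)).symm, disB n2⟩) (disjoint_union_left.2 ⟨?_, ?_⟩)
      (w'.lt.trans b2) (w.lt2.trans a) h1 b3
      (fun ε h => let ⟨z, u, v⟩ := acc w ε h; ⟨z, .inl u, v⟩) (accB hd _ e0)
    · exact Set.disjoint_right.2 fun z hz => (hδ z (bl_mono (min_le_left _ _) hz)).1
    · exact (bl_dis (by linarith [min_le_right δ (‖ce μ - ce l‖ / 2)])).symm
  · refine ⟨_, gap h1 h2, fun e e0 e1 g x y w a => ?_⟩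
    by_cases c : y < μ + 2 * π
    swap
    · exact ⟨1, one_pos, fun f x' y' w' _ _ _ => absurd (by linarith [w'.lt2]) c⟩
    obtain ⟨n, hn⟩ := hi _ _ _ (B.line g x y w)
    obtain ⟨δ, δ0, hδ⟩ := hn.lf (μ + 2 * π) c (by linarith)
    rw [bl_per] at hδ
    refine ⟨min δ (‖ce l - ce μ‖ / 2), lt_min δ0 (gap h1 h2),
      fun f x' y' w' b1 b2 b3 n1 n2 n3 => ?_⟩
    refine tip hi hd w' n1 (conn hd n3) (disjoint_union_left.2
      ⟨dis (T _ _ _ _ _ _ w w' b1 b2), disB n2⟩) (disjoint_union_left.2 ⟨?_, ?_⟩)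
      b3 h1 (a.trans w.lt) (b2.trans w'.lt2) (accB hd _ e0)
      (fun ε h => let ⟨z, u, v⟩ := acc w ε h; ⟨z, .inl u, v⟩)
    · exact Set.disjoint_right.2 fun z hz => (hδ z (bl_mono (min_le_left _ _) hz)).1
    · exact bl_dis (by linarith [min_le_right δ (‖ce l - ce μ‖ / 2)])

end

end Pool.Agent.Lib.MP_21f752_an
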