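import Pool.Agent.Lib.MP_21f752_an.FDm

/-! North-south dynamics of Möbius maps on the closed disc. -/

namespace Pool.Agent.Lib.MP_21f752_an

open UpperHalfPlane Set Filter Topology Metric FDm
open scoped MatrixGroups Real ComplexConjugate

namespace FMob

variable {γ : SL(2, ℝ)} {g : ℝ ≃o ℝ}

lemma sub_zero_le (γ : SL(2, ℝ)) {w : ℂ} (hw : ‖w‖ ≤ 1) :
    ‖dm γ w - dm γ 0‖ ≤ 1 / (‖dd γ w‖ * ‖al γ‖) := by
  rw [dm_sub γ hw (by simp), norm_div, norm_mul, sub_zero]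
  have : ‖dd γ 0‖ = ‖al γ‖ := by simp [dd]
  rw [this]
  gcongr

lemma one_sub_lt {v A : ℂ} {η : ℝ} (hA : ‖A‖ = 1) (h : ‖v - A‖ < η) : 1 - ‖v‖ ^ 2 < 2 * η := by
  have := norm_sub_norm_le A v
  rw [norm_sub_rev, hA] at this
  nlinarith [sq_nonneg (1 - ‖v‖)]

/-- north-south dynamics, static form -/
lemma ns {ε : ℝ} (hε : 0 < ε) : ∃ η, 0 < η ∧ ∀ (γ : SL(2, ℝ)) (A R : ℂ), ‖A‖ = 1 →
    ‖dm γ 0 - A‖ < η → ‖dm γ⁻¹ 0 - R‖ < η → ∀ w, ‖w‖ ≤ 1 → ε ≤ ‖w - R‖ → ‖dm γ w - A‖ < ε := by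
  set M := 1 + 4 / ε with hM
  have M0 : 0 < M := by positivity
  refine ⟨min (ε / 2) (1 / (2 * M ^ 2)), by positivity, fun γ A R hA h1 h2 w hw h3 => ?_⟩
  obtain ⟨h1, h4⟩ := lt_min_iff.1 h1
  have a0 := one_pos.trans_le (one_le γ)
  have h5 := one_sub_lt hA h4
  rw [one_sub_zero, show 2 * (1 / (2 * M ^ 2)) = 1 / M ^ 2 by field_simp,
    one_div_lt_one_div (by positivity) (by positivity)] at h5
  have h6 : M < ‖al γ‖ := lt_of_pow_lt_pow_left₀ 2 a0.le h5
  have h7 : ‖al γ‖ ≤ 1 + ‖be γ‖ := le_of_pow_le_pow_left₀ two_ne_zero (by positivity)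
    (by nlinarith [nsq γ, norm_nonneg (be γ)])
  have h8 : ε / 2 ≤ ‖w - dm γ⁻¹ 0‖ := by
    have := norm_sub_le_norm_sub_add_norm_sub w (dm γ⁻¹ 0) R
    linarith [h2.trans_le (min_le_left _ _)]
  have e : conj (be γ) * (w - dm γ⁻¹ 0) = dd γ w - 1 / al γ := by
    have := al_ne γ
    rw [dm_zero, al_inv, be_inv, Complex.conj_conj, dd]
    field_simp
    linear_combination -ab γ
  have h9 : 1 ≤ ‖dd γ w‖ := by
    have a := congrArg norm e
    have b := norm_sub_le (dd γ w) (1 / al γ)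
    rw [norm_mul, Complex.norm_conj] at a
    rw [norm_div, norm_one] at b
    have c : 1 / ‖al γ‖ ≤ 1 := (div_le_one a0).2 (one_le γ)
    have d : 4 / ε * (ε / 2) ≤ ‖be γ‖ * ‖w - dm γ⁻¹ 0‖ :=
      mul_le_mul (by linarith) h8 (by positivity) (norm_nonneg _)
    have : 4 / ε * (ε / 2) = 2 := by field_simp; norm_num
    linarith
  have h10 : 1 / (‖dd γ w‖ * ‖al γ‖) ≤ ε / 4 := by
    rw [← one_div_div 4 ε]
    exact one_div_le_one_div_of_le (by positivity) (by nlinarith)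
  linarith [norm_sub_le_norm_sub_add_norm_sub (dm γ w) (dm γ 0) A, sub_zero_le γ hw]

lemma zero_of_pt {P : ℂ} (hP : ‖P‖ < 1) {η : ℝ} (hη : 0 < η) : ∃ δ, 0 < δ ∧
    ∀ (γ : SL(2, ℝ)) (A : ℂ), ‖A‖ = 1 → ‖dm γ P - A‖ < δ → ‖dm γ 0 - A‖ < η := by
  have p : 0 < 1 - ‖P‖ ^ 2 := by nlinarith [norm_nonneg P]
  refine ⟨min (η / 2) ((1 - ‖P‖ ^ 2) * (η / 2) ^ 2 / 2), by positivity, fun γ A hA h => ?_⟩
  obtain ⟨h1, h2⟩ := lt_min_iff.1 h
  have d0 := norm_pos_iff.2 (dd_ne γ hP.le)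
  have h3 := one_sub_lt hA h2
  rw [one_sub γ hP.le, div_lt_iff₀ (by positivity)] at h3
  have h4 : 1 < η / 2 * ‖dd γ P‖ := lt_of_pow_lt_pow_left₀ 2 (by positivity) (by
    apply lt_of_mul_lt_mul_left _ p.le
    nlinarith)
  have h5 : 1 / (‖dd γ P‖ * ‖al γ‖) ≤ η / 2 := by
    rw [div_le_iff₀ (mul_pos d0 (one_pos.trans_le (one_le γ)))]
    nlinarith [one_le γ]
  have := norm_sub_le_norm_sub_add_norm_sub (dm γ 0) (dm γ P) A
  rw [norm_sub_rev (dm γ 0) (dm γ P)] at this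
  linarith [sub_zero_le γ hP.le]

lemma ctr_inv (hg : ∀ t, g (t + 2 * π) = g t + 2 * π) {r a δ : ℝ} (hδ : δ ≤ π)
    (h : Ctr g r a δ) : Ctr g⁻¹ a (r + 2 * π) δ := by
  intro s s1 s2
  have h1 := abs_lt.1 (h (r + 2 * π - δ) (by linarith) le_rfl)
  have h2 := abs_lt.1 (h (r + δ) le_rfl (by linarith))
  have h3 : r + 2 * π - δ < g.symm s := g.lt_symm_apply.2 (by linarith)
  have h4 : g.symm s < r + δ + 2 * π := g.symm_apply_lt.2 (by rw [hg]; linarith)
  exact abs_lt.2 ⟨by change _ < g.symm s - _; linarith, by change g.symm s - _ < _; linarith⟩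

lemma zero_of_ctr {η : ℝ} (hη : 0 < η) : ∃ δ, 0 < δ ∧ δ ≤ 1 ∧ ∀ (γ : SL(2, ℝ)) g r a, Lc γ g →
    Ctr g r a δ → ‖dm γ 0 - ce a‖ < η := by
  refine ⟨min 1 (min (η / 2) ((η / 2) ^ 2)), by positivity, min_le_left _ _,
    fun γ g r a hg h => ?_⟩
  set δ := min 1 (min (η / 2) ((η / 2) ^ 2))
  have d1 : δ ≤ 1 := min_le_left _ _
  have d2 : δ ≤ η / 2 := (min_le_right _ _).trans (min_le_left _ _)
  have d3 : δ ≤ (η / 2) ^ 2 := (min_le_right _ _).trans (min_le_right _ _)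
  have hp := Real.two_le_pi
  have h1 := h (r + π / 2) (by linarith) (by linarith)
  have h2 := h (r + π / 2 + π) (by linarith) (by linarith)
  have key : ∀ t, |g t - a| < δ → 1 < η / 2 * ‖dd γ (ce t)‖ → ‖dm γ 0 - ce a‖ < η := by
    intro t p q
    have d0 := norm_pos_iff.2 (dd_ne γ (norm_ce t).le)
    have h5 : 1 / (‖dd γ (ce t)‖ * ‖al γ‖) ≤ η / 2 := by
      rw [div_le_iff₀ (mul_pos d0 (one_pos.trans_le (one_le γ)))]
      nlinarith [one_le γ]
    have := norm_sub_le_norm_sub_add_norm_sub (dm γ 0) (dm γ (ce t)) (ce a)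
    rw [norm_sub_rev (dm γ 0) (dm γ _)] at this
    have h6 := ce_ub (g t) a
    rw [hg.1] at h6
    linarith [sub_zero_le γ (norm_ce t).le]
  by_contra hc
  have n1 := not_lt.1 fun q => hc (key _ h1 q)
  have n2 := not_lt.1 fun q => hc (key _ h2 q)
  have p1 := norm_pos_iff.2 (dd_ne γ (norm_ce (r + π / 2)).le)
  have p2 := norm_pos_iff.2 (dd_ne γ (norm_ce (r + π / 2 + π)).le)
  have e := ce_ub (g (r + π / 2)) (g (r + π / 2 + π))
  have e2 : ‖ce (r + π / 2) - ce (r + π / 2 + π)‖ = 2 := by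
    rw [ce_add _ π, ce_pi, mul_neg, mul_one, sub_neg_eq_add, ← two_mul, norm_mul, norm_ce]
    simp
  rw [hg.1, hg.1, dm_sub γ (norm_ce _).le (norm_ce _).le, norm_div, norm_mul, e2,
    div_le_iff₀ (mul_pos p1 p2)] at e
  have e3 : |g (r + π / 2) - g (r + π / 2 + π)| < 2 * (η / 2) ^ 2 := by
    rw [abs_lt] at h1 h2 ⊢
    constructor <;> linarith
  have e4 := mul_lt_mul_of_pos_right e3 (mul_pos p1 p2)
  have e5 := mul_le_mul n1 n2 (by positivity) zero_le_one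
  nlinarith

lemma ctr_of {r a ε : ℝ} (hε : ε ≤ π) (h0 : |g (r + π) - a| ≤ π)
    (h : ∀ t, r + ε ≤ t → t ≤ r + 2 * π - ε → ‖ce (g t) - ce a‖ < ε / 2) : Ctr g r a ε := by
  intro t t1 t2
  have e0 : 0 < ε := by linarith [h t t1 t2, norm_nonneg (ce (g t) - ce a)]
  have h1 : |g (r + π) - a| < ε := by
    linarith [ce_lb h0, h (r + π) (by linarith) (by linarith)]
  by_contra hc
  obtain ⟨s, hs, e⟩ := intermediate_value_uIcc (a := r + π) (b := t) (f := fun s => |g s - a|)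
    (g.continuous.sub continuous_const).abs.continuousOn (mem_uIcc.2 (Or.inl ⟨h1.le, not_lt.1 hc⟩))
  have e' : |g s - a| = ε := e
  have := ce_lb (e'.le.trans hε)
  have := h s (by rcases mem_uIcc.1 hs with p | p <;> linarith [p.1])
    (by rcases mem_uIcc.1 hs with p | p <;> linarith [p.2])
  linarith

lemma fix_pm {δ : SL(2, ℝ)} (h1 : dm δ 1 = 1) (h2 : dm δ (-1) = -1) : δ 0 1 = 0 ∧ δ 1 0 = 0 := by
  rw [dm, div_eq_iff (dd_ne δ (by simp))] at h1 h2
  have a := congrArg Complex.im h1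
  have b := congrArg Complex.im h2
  simp [dd, al, be] at a b
  constructor <;> linarith

lemma diag {δ : SL(2, ℝ)} (h1 : dm δ 1 = 1) (h2 : dm δ (-1) = -1) :
    ∃ s, ∀ z : ℍ, δ • z = dil s • z := by
  obtain ⟨b, c⟩ := fix_pm h1 h2
  have d := det_one δ
  rw [b, c, mul_zero, sub_zero] at d
  have a0 : δ 0 0 ≠ 0 := left_ne_zero_of_mul_eq_one d
  have d0 : ((δ 1 1 : ℝ) : ℂ) ≠ 0 := by exact_mod_cast right_ne_zero_of_mul_eq_one d
  refine ⟨Real.log (δ 0 0 ^ 2), fun z => UpperHalfPlane.ext ?_⟩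
  have d' : ((δ 0 0 : ℝ) : ℂ) * (δ 1 1 : ℝ) = 1 := by exact_mod_cast d
  rw [coe_dil, Real.exp_log (by positivity), coe_smul_mob, mob, den, b, c]
  push_cast
  rw [zero_mul, zero_add, add_zero, div_eq_iff d0]
  linear_combination (-(δ 0 0 : ℝ) * z : ℂ) * d'

lemma ce_eq (t : ℝ) : ce t = Real.cos t + Real.sin t * Complex.I := by
  rw [ce, Complex.exp_mul_I]
  push_cast
  rfl

/-- two points of the circle are sent to `-1` and `1` -/
lemma two_pts {x y : ℝ} (h1 : x < y) (h2 : y < x + 2 * π) :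
    ∃ g0 : SL(2, ℝ), dm g0 (ce x) = -1 ∧ dm g0 (ce y) = 1 := by
  have h : Real.sin (y / 2 - x / 2) ≠ 0 :=
    (Real.sin_pos_of_pos_of_lt_pi (by linarith) (by linarith)).ne'
  have sq : ∀ t : ℝ, ce t = ce (t / 2) * ce (t / 2) := fun t => by rw [← ce_add, add_halves]
  have cs : ∀ t : ℝ, ce t * conj (ce t) = 1 := fun t => by rw [← ce_neg, ce_mul_neg]
  set l := -(Real.sin (y / 2 - x / 2))⁻¹ with hl
  have p : l * Real.sin (x / 2) * Real.cos (y / 2) - l * Real.cos (x / 2) * Real.sin (y / 2) = 1 := by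
    rw [← inv_mul_cancel₀ h, hl]
    nth_rewrite 4 [Real.sin_sub]
    ring
  set g0 := mkS _ _ _ _ p
  refine ⟨g0, ?_, ?_⟩ <;> rw [dm, div_eq_iff (dd_ne _ (norm_ce _).le), dd]
  · have e : al g0 + conj (be g0) = Complex.I * l * conj (ce (x / 2)) := by
      apply Complex.ext <;> simp [g0, mkS, al, be, ce_eq, -Complex.ofReal_cos,
        -Complex.ofReal_sin] <;> ring
    have e' := congrArg conj e
    simp only [map_add, map_mul, Complex.conj_conj, Complex.conj_I, Complex.conj_ofReal] at e'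
    rw [sq x]
    linear_combination ce (x / 2) * ce (x / 2) * e + e' + Complex.I * l * ce (x / 2) * cs (x / 2)
  · have e : al g0 - conj (be g0) = conj (ce (y / 2)) := by
      apply Complex.ext <;> simp [g0, mkS, al, be, ce_eq, -Complex.ofReal_cos,
        -Complex.ofReal_sin] <;> ring
    have e' := congrArg conj e
    simp only [map_sub, Complex.conj_conj] at e'
    rw [sq y]
    linear_combination ce (y / 2) * ce (y / 2) * e - e' + ce (y / 2) * cs (y / 2)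

lemma lg_big {M : ℝ} {z : ℍ} (h : ‖cay z - 1‖ < 2 / (Real.exp M + 1)) : M < lg z := by
  have h0 := add_I_ne z
  have e : cay z - 1 = -(2 * Complex.I) / (z + Complex.I) := by
    rw [cay]
    field_simp
    ring
  have p := norm_pos_iff.2 h0
  rw [e, norm_div, norm_neg, norm_mul, Complex.norm_I, Complex.norm_ofNat, mul_one,
    div_lt_div_iff_of_pos_left two_pos p (by positivity)] at h
  have := norm_add_le (z : ℂ) Complex.I
  rw [Complex.norm_I] at this
  rw [← Real.exp_lt_exp, exp_lg]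
  linarith

lemma lg_small {M : ℝ} {z : ℍ} (h : ‖cay z - -1‖ < min 1 (Real.exp M)) : lg z < M := by
  have h0 := add_I_ne z
  have e : cay z - -1 = 2 * z / (z + Complex.I) := by
    rw [cay]
    field_simp
    ring
  have p := norm_pos_iff.2 h0
  rw [e, norm_div, norm_mul, Complex.norm_ofNat, div_lt_iff₀ p] at h
  have := norm_add_le (z : ℂ) Complex.I
  rw [Complex.norm_I] at this
  rw [← Real.exp_lt_exp, exp_lg]
  have a := min_le_left 1 (Real.exp M)
  have b := min_le_right 1 (Real.exp M)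
  have c : 0 < min 1 (Real.exp M) := by positivity
  nlinarith [norm_nonneg (z : ℂ)]

end FMob

open FMob in
theorem mobius : Mob where
  ex γ := (exists_lift γ).imp fun _ => lift_iff.2
  uniq _ _ _ a b := (lift_iff.1 a).diff (lift_iff.1 b)
  add _ g g' k a h := lift_iff.2 ⟨fun t => by rw [h, ce_sh, (lift_iff.1 a).1],
    fun t => by rw [h, h, a.per]; ring⟩
  triv γ g a h z := by
    have h0 : ∀ t, dm γ (ce t) = ce t := fun t => ((lift_iff.1 a).1 t).symm.trans (h t)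
    obtain ⟨b, c⟩ := fix_pm (ce_zero ▸ h0 0) (ce_pi ▸ h0 π)
    have d := h0 (π / 2)
    rw [ce_half, dm, div_eq_iff (dd_ne γ (by simp))] at d
    have e := congrArg Complex.re d
    simp [dd, al, be, b, c] at e
    have e1 : be γ = 0 := by apply Complex.ext <;> simp [be, b, c]; linarith
    have e2 : conj (al γ) = al γ := by apply Complex.ext <;> simp [al, b, c]
    apply cay_inj
    rw [cay_smul, dm, dd, e1, e2, map_zero, zero_mul, zero_add, add_zero,
      mul_div_cancel_left₀ _ (al_ne γ)]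
  hull ε hε := by
    obtain ⟨η, h0, h1⟩ := ns hε
    obtain ⟨δ, d0, d1, d2⟩ := zero_of_ctr h0
    refine ⟨δ, d0, fun γ g r a hg h z hz => ?_⟩
    have b := d2 _ _ _ _ (lift_iff.1 hg).inv
      (ctr_inv hg.per (d1.trans (by linarith [Real.two_le_pi])) h)
    rw [ce_two] at b
    change ‖_‖ < ε
    rw [cay_smul]
    exact h1 γ _ _ (norm_ce a) (d2 _ _ _ _ (lift_iff.1 hg) h) b _ (cay_lt z).le (not_lt.1 hz)
  ctr p ε hε := by
    have hp := Real.pi_pos
    obtain ⟨η, h0, h1⟩ := ns (ε := min ε π / 2) (by positivity)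
    obtain ⟨δ, d0, d1⟩ := zero_of_pt (cay_lt p) h0
    refine ⟨δ, d0, fun γ g r a hg p1 p2 => ?_⟩
    obtain ⟨k, k1, k2⟩ := ex_sh a (g (r + π) - π)
    have := ctr_of (g := g) (r := r) (a := a + k * (2 * π)) (min_le_right ε π)
      (abs_le.2 ⟨by linarith, by linarith⟩) fun t t1 t2 => by
        rw [ce_sh, (lift_iff.1 hg).1]
        exact h1 γ _ _ (norm_ce a) (d1 γ _ (norm_ce a) (cay_smul γ p ▸ p1))
          (d1 γ⁻¹ _ (norm_ce r) (cay_smul γ⁻¹ p ▸ p2)) _ (norm_ce t).le (ce_far t1 t2)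
    exact ⟨k, fun t t1 t2 => (this t (by linarith [min_le_left ε π])
      (by linarith [min_le_left ε π])).trans_le (min_le_left _ _)⟩
  std x y h1 h2 := by
    obtain ⟨g0, a, b⟩ := two_pts h1 h2
    refine ⟨g0, fun γ g hg p q => ?_, fun M => ?_, fun M => ?_⟩
    · have key : ∀ t, ce (g t) = ce t → dm (g0 * γ * g0⁻¹) (dm g0 (ce t)) = dm g0 (ce t) :=
        fun t e => by
          rw [← dm_mul _ _ (norm_ce t).le, inv_mul_cancel_right, dm_mul _ _ (norm_ce t).le,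
            ← (lift_iff.1 hg).1, e]
      obtain ⟨s, hs⟩ := diag (b ▸ key y q) (a ▸ key x p)
      exact ⟨s, fun z => by rw [← hs, mul_smul, mul_smul, inv_smul_smul]⟩
    · obtain ⟨δ, d0, d1⟩ := bl_cont g0 y (ε := 2 / (Real.exp M + 1)) (by positivity)
      exact ⟨δ, d0, fun z hz => lg_big (b ▸ d1 z hz)⟩
    · obtain ⟨δ, d0, d1⟩ := bl_cont g0 x (ε := min 1 (Real.exp M)) (by positivity)
      exact ⟨δ, d0, fun z hz => lg_small (a ▸ d1 z hz)⟩

end Pool.Agent.Lib.MP_21f752_an
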