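import Pool.Agent.Lib.MP_21f752_an.FFreq
import Pool.Agent.Lib.MP_21f752_an.FMob

/-! The walls with two given ends form a null set. -/

namespace Pool.Agent.Lib.MP_21f752_an

open UpperHalfPlane Set Filter Topology Metric MeasureTheory
open scoped MatrixGroups ContDiff Real

noncomputable section

namespace FAxis

lemma slope {A : ℝ → ℝ} {Λ : AddSubgroup ℝ} (hc : Continuous A) (h0 : A 0 = 0)
    (hs : ∀ s ∈ Λ, ∀ t, A (s + t) ≤ A s + A t) :
    ∃ a, (∀ s ∈ Λ, a * s ≤ A s) ∧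
      ∀ ε, 0 < ε → ∃ C, ∀ s ∈ Λ, 0 ≤ s → A s ≤ (a + ε) * s + C := by
  have it : ∀ s ∈ Λ, ∀ (n : ℕ) (t : ℝ), A (n * s + t) ≤ n * A s + A t := by
    intro s hs' n t
    induction n with
    | zero => simp
    | succ n ih =>
      have := hs s hs' (n * s + t)
      push_cast
      rw [show (n + 1 : ℝ) * s + t = s + (n * s + t) by ring]
      linarith
  have ub : ∀ t ∈ Λ, ∃ C, ∀ u, 0 ≤ u → A (u * t) ≤ u * A t + C := by
    intro t ht
    obtain ⟨C, hC⟩ := (isCompact_Icc (a := (0 : ℝ)) (b := 1)).exists_bound_of_continuousOn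
      (f := fun r => A (r * t) - r * A t) (by fun_prop)
    refine ⟨C, fun u hu => ?_⟩
    have h1 := Nat.floor_le hu
    have h2 := Nat.lt_floor_add_one u
    have h3 := (le_abs_self _).trans (hC (u - ⌊u⌋₊) ⟨by linarith, by linarith⟩)
    have h4 := it t ht ⌊u⌋₊ ((u - ⌊u⌋₊) * t)
    rw [show (⌊u⌋₊ : ℝ) * t + (u - ⌊u⌋₊) * t = u * t by ring] at h4
    linarith
  have two : ∀ s ∈ Λ, 0 < s → ∀ t ∈ Λ, t < 0 → A t / t ≤ A s / s := by
    intro s hs' s0 t ht t0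
    obtain ⟨C, hC⟩ := ub t ht
    by_contra hlt
    rw [not_le] at hlt
    have hp : 0 < s * (A t / t - A s / s) := mul_pos s0 (sub_pos.2 hlt)
    obtain ⟨m, hm⟩ := exists_nat_gt (C / (s * (A t / t - A s / s)))
    rw [div_lt_iff₀ hp] at hm
    have h1 := it s hs' m (-(m * s))
    have h2 := hC (m * s / -t) (div_nonneg (by positivity) (by linarith))
    have e1 : m * s / -t * t = -(m * s) := by field_simp [t0.ne]
    have e2 : m * (s * (A t / t - A s / s)) = -(m * s / -t * A t) - m * A s := by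
      field_simp [t0.ne]
    rw [e1] at h2
    rw [add_neg_cancel, h0] at h1
    linarith
  by_cases h : ∃ s ∈ Λ, 0 < s
  · obtain ⟨s1, m1, p1⟩ := h
    have ne : {r | ∃ s ∈ Λ, 0 < s ∧ r = A s / s}.Nonempty := ⟨_, s1, m1, p1, rfl⟩
    have lb : ∀ t ∈ Λ, t < 0 → A t / t ∈ lowerBounds {r | ∃ s ∈ Λ, 0 < s ∧ r = A s / s} := by
      rintro t ht t0 _ ⟨s, a, b, rfl⟩
      exact two s a b t ht t0
    have bd : BddBelow {r | ∃ s ∈ Λ, 0 < s ∧ r = A s / s} :=
      ⟨_, lb _ (Λ.neg_mem m1) (neg_neg_of_pos p1)⟩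
    refine ⟨sInf {r | ∃ s ∈ Λ, 0 < s ∧ r = A s / s}, fun s hs' => ?_, fun ε hε => ?_⟩
    · rcases lt_trichotomy s 0 with e | rfl | e
      · exact (div_le_iff_of_neg e).1 (le_csInf ne (lb s hs' e))
      · simp [h0]
      · exact (le_div_iff₀ e).1 (csInf_le bd ⟨s, hs', e, rfl⟩)
    · obtain ⟨_, ⟨t, ht, t0, rfl⟩, hl⟩ := exists_lt_of_csInf_lt ne (lt_add_of_pos_right _ hε)
      obtain ⟨C, hC⟩ := ub t ht
      refine ⟨C, fun s _ s0 => ?_⟩
      have h1 := hC (s / t) (div_nonneg s0 t0.le)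
      rw [div_mul_cancel₀ _ t0.ne', show s / t * A t = A t / t * s by ring] at h1
      linarith [mul_le_mul_of_nonneg_right hl.le s0]
  · have z : ∀ s ∈ Λ, s = 0 := fun s hs' => by
      rcases lt_trichotomy s 0 with e | e | e
      · exact absurd ⟨_, Λ.neg_mem hs', neg_pos.2 e⟩ h
      · exact e
      · exact absurd ⟨_, hs', e⟩ h
    exact ⟨0, fun s hs' => by simp [z s hs', h0], fun ε _ => ⟨0, fun s hs' _ => by
      simp [z s hs', h0]⟩⟩

/-- an equivariant subsolution with the critical forward slope -/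
lemma wk {X : Type} [TopologicalSpace X] {Λ : AddSubgroup ℝ} {D : ℝ → X → X} {Ψ : X → X → ℝ}
    (p0 : X) (hc : Continuous fun x : X × X => Ψ x.1 x.2) (hD : Continuous fun s => D s p0)
    (D0 : ∀ z, D 0 z = z) (Da : ∀ s t z, D (s + t) z = D s (D t z)) (z0 : ∀ p, Ψ p p = 0)
    (tri : ∀ p q r, Ψ p r ≤ Ψ p q + Ψ q r) (inv : ∀ s ∈ Λ, ∀ p q, Ψ (D s p) (D s q) = Ψ p q) :
    ∃ v : X → ℝ, Continuous v ∧ (∀ p q, v q - v p ≤ Ψ p q) ∧
      (∀ s ∈ Λ, ∀ p q, v (D s q) - v (D s p) = v q - v p) ∧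
      ∀ ε, 0 < ε → ∃ C, ∀ s ∈ Λ, 0 ≤ s → Ψ p0 (D s p0) - (v (D s p0) - v p0) ≤ ε * s + C := by
  obtain ⟨a, h1, h2⟩ := slope (A := fun s => Ψ p0 (D s p0)) (Λ := Λ)
    (hc.comp (continuous_const.prodMk hD)) (by simp only [D0, z0]) fun s hs t => by
      rw [Da, ← inv s hs p0 (D t p0)]
      exact tri _ _ _
  obtain ⟨v, hv⟩ : ∃ v : X → ℝ, ∀ q, v q = ⨅ s : Λ, (Ψ p0 (D s q) - a * s) := ⟨_, fun _ => rfl⟩
  have le : ∀ q, ∀ s ∈ Λ, v q ≤ Ψ p0 (D s q) - a * s := fun q s hs => by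
    rw [hv]
    refine ciInf_le ⟨-Ψ q p0, ?_⟩ (⟨s, hs⟩ : Λ)
    rintro _ ⟨t, rfl⟩
    have := tri p0 (D t q) (D t p0)
    rw [inv t t.2] at this
    linarith [h1 t t.2]
  have ge : ∀ q r, (∀ s ∈ Λ, r ≤ Ψ p0 (D s q) - a * s) → r ≤ v q := fun q r h => by
    rw [hv]
    exact le_ciInf fun s => h s s.2
  have sub : ∀ p q, v q - v p ≤ Ψ p q := fun p q => by
    have := ge p (v q - Ψ p q) fun s hs => by
      have := tri p0 (D s p) (D s q)
      rw [inv s hs] at this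
      linarith [le q s hs]
    linarith
  have e1 : ∀ t ∈ Λ, ∀ q, v (D t q) ≤ v q + a * t := fun t ht q => by
    have := ge q (v (D t q) - a * t) fun s hs => by
      have := le (D t q) (s - t) (Λ.sub_mem hs ht)
      rw [← Da, sub_add_cancel] at this
      linarith
    linarith
  have e2 : ∀ t ∈ Λ, ∀ q, v (D t q) = v q + a * t := fun t ht q => by
    have := e1 (-t) (Λ.neg_mem ht) (D t q)
    rw [← Da, neg_add_cancel, D0] at this
    linarith [e1 t ht q]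
  refine ⟨v, continuous_iff_continuousAt.2 fun p => ?_, sub, fun s hs p q => ?_, fun ε hε => ?_⟩
  · have c1 : Continuous fun q => v p - Ψ q p :=
      continuous_const.sub (hc.comp (continuous_id.prodMk continuous_const))
    have c2 : Continuous fun q => v p + Ψ p q :=
      continuous_const.add (hc.comp (continuous_const.prodMk continuous_id))
    exact tendsto_of_tendsto_of_tendsto_of_le_of_le (c1.tendsto' p _ (by simp [z0]))
      (c2.tendsto' p _ (by simp [z0])) (fun q => by linarith [sub q p])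
      (fun q => by linarith [sub p q])
  · rw [e2 s hs, e2 s hs]
    ring
  · obtain ⟨C, hC⟩ := h2 ε hε
    refine ⟨C, fun s hs s0 => ?_⟩
    rw [e2 s hs]
    linarith [hC s hs s0]

/-- the one parameter group of an axis -/
def D (g0 : SL(2, ℝ)) (s : ℝ) (z : ℍ) : ℍ := g0⁻¹ • dil s • g0 • z

variable (g0 : SL(2, ℝ))

lemma D_zero (z : ℍ) : D g0 0 z = z := by
  have : dil 0 • g0 • z = g0 • z := UpperHalfPlane.ext (by simp [coe_dil])
  rw [D, this, inv_smul_smul]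

lemma D_add (s t : ℝ) (z : ℍ) : D g0 (s + t) z = D g0 s (D g0 t z) := by
  simp only [D, smul_inv_smul]
  congr 1
  refine UpperHalfPlane.ext ?_
  simp only [coe_dil, Real.exp_add]
  push_cast
  ring

lemma D_cont (z : ℍ) : Continuous fun s => D g0 s z := by
  refine (continuous_const_smul g0⁻¹).comp (isEmbedding_coe.continuous_iff.2 ?_)
  simp only [Function.comp_def, coe_dil]
  fun_prop

lemma lg_D (s : ℝ) (z : ℍ) : lg (g0 • D g0 s z) = s + lg (g0 • z) := by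
  rw [D, smul_inv_smul, lg_dil]

/-- translation lengths along the axis -/
def Tr (Γ : Subgroup SL(2, ℝ)) : AddSubgroup ℝ where
  carrier := {s | ∃ γ ∈ Γ, ∀ z : ℍ, γ • z = D g0 s z}
  zero_mem' := ⟨1, Γ.one_mem, fun z => by rw [one_smul, D_zero]⟩
  add_mem' := by
    rintro s t ⟨γ, a, h⟩ ⟨γ', a', h'⟩
    exact ⟨γ * γ', Γ.mul_mem a a', fun z => by rw [mul_smul, h, h', D_add]⟩
  neg_mem' := by
    rintro s ⟨γ, a, h⟩
    exact ⟨γ⁻¹, Γ.inv_mem a, fun z => by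
      rw [inv_smul_eq_iff, h, ← D_add, add_neg_cancel, D_zero]⟩

lemma ang_congr {a b : SL(2, ℝ)} (h : ∀ z : ℍ, a • z = b • z) (z : ℍ) :
    ce (ang a z) = ce (ang b z) := by
  have e : ∀ w : ℂ, 0 < w.im → mob a w = mob b w := fun w hw =>
    (coe_smul_mob a ⟨w, hw⟩).symm.trans ((congrArg _ (h _)).trans (coe_smul_mob b ⟨w, hw⟩))
  have e1 := (hasDerivAt_mob a z.im_pos).unique ((hasDerivAt_mob b z.im_pos).congr_of_eventuallyEq
    (mem_of_superset (isOpen_upperHalfPlaneSet.mem_nhds z.im_pos) e))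
  have e2 : den a z ^ 2 = den b z ^ 2 := by simpa using e1
  have e3 : Complex.normSq (den a z) = Complex.normSq (den b z) := by
    rw [Complex.normSq_eq_norm_sq, Complex.normSq_eq_norm_sq, ← norm_pow, ← norm_pow, e2]
  rw [ce_ang a z.im_pos, ce_ang b z.im_pos, e2, e3]

lemma ang_dil (s : ℝ) (z : ℂ) : ang (dil s) z = 0 := by
  have : den (dil s) z = (Real.exp (-(s / 2)) : ℝ) := by simp [den, dil, mkS]
  rw [ang, this, Complex.arg_ofReal_of_nonneg (Real.exp_pos _).le, mul_zero]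

lemma ang_const {γ : SL(2, ℝ)} {s : ℝ} (h : ∀ z : ℍ, γ • z = D g0 s z) (p q : ℍ) :
    ang g0 (γ • q : ℍ) + ang γ q - ang g0 q = ang g0 (γ • p : ℍ) + ang γ p - ang g0 p := by
  refine isPreconnected_univ.constant_of_mapsTo (T := AddSubgroup.zmultiples (2 * π))
    ⟨NormedSpace.discreteTopology_zmultiples _⟩
    (f := fun z : ℍ => ang g0 (γ • z : ℍ) + ang γ z - ang g0 z)
    ((((continuous_ang g0).comp (continuous_const_smul γ)).add (continuous_ang γ)).sub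
      (continuous_ang g0)).continuousOn (fun z _ => ?_) (mem_univ q) (mem_univ p)
  obtain ⟨k1, h1⟩ := FFreq.ang_mul g0 γ z
  obtain ⟨k2, h2⟩ := FFreq.ang_mul (dil s) g0 z
  obtain ⟨k3, h3⟩ := ce_eq_iff.1 (ang_congr (a := g0 * γ) (b := dil s * g0)
    (fun w => by rw [mul_smul, mul_smul, h, D, smul_inv_smul]) z)
  rw [ang_dil] at h2
  refine AddSubgroup.mem_zmultiples_iff.2 ⟨k1 + k3 - k2, ?_⟩
  simp only [zsmul_eq_mul]
  push_cast
  linarith

variable (G : Geo)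

/-- the excess of the action over a potential adapted to the axis -/
lemma pot : ∃ Ξ : ℍ → ℍ → ℝ, (Continuous fun x : ℍ × ℍ => Ξ x.1 x.2) ∧ (∀ p q, 0 ≤ Ξ p q) ∧
    (∃ u : ℍ → ℝ, ∀ p q, Ξ p q = G.Ph p q - (u q - u p)) ∧
    (∀ s ∈ Tr g0 G.Γ, ∀ p q, Ξ (D g0 s p) (D g0 s q) = Ξ p q) ∧
    ∀ ε, 0 < ε → ∃ C, ∀ s ∈ Tr g0 G.Γ, 0 ≤ s →
      Ξ UpperHalfPlane.I (D g0 s UpperHalfPlane.I) ≤ ε * s + C := by
  have c1 : Continuous fun x : ℍ × ℍ => G.Ph x.1 x.2 + G.c * (ang g0 x.2 - ang g0 x.1) :=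
    G.cont.add (continuous_const.mul (((continuous_ang g0).comp continuous_snd).sub
      ((continuous_ang g0).comp continuous_fst)))
  have iv : ∀ s ∈ Tr g0 G.Γ, ∀ p q : ℍ, G.Ph (D g0 s p) (D g0 s q) +
      G.c * (ang g0 (D g0 s q) - ang g0 (D g0 s p)) = G.Ph p q + G.c * (ang g0 q - ang g0 p) := by
    rintro s ⟨γ, hγ, h⟩ p q
    rw [← h, ← h, G.eqv γ hγ]
    linear_combination G.c * ang_const g0 h p q
  obtain ⟨v, h1, h2, h3, h4⟩ := wk (Λ := Tr g0 G.Γ) (D := D g0)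
    (Ψ := fun p q => G.Ph p q + G.c * (ang g0 q - ang g0 p)) UpperHalfPlane.I c1 (D_cont g0 _)
    (D_zero g0) (D_add g0) (fun p => by
      have := G.act (p, 0) 0 0 0 le_rfl le_rfl
      rw [Sys.φ_zero] at this
      linarith) (fun p q r => by linarith [G.tri p q r]) iv
  refine ⟨fun p q => G.Ph p q + G.c * (ang g0 q - ang g0 p) - (v q - v p),
    c1.sub ((h1.comp continuous_snd).sub (h1.comp continuous_fst)), fun p q => sub_nonneg.2 (h2 p q),
    ⟨fun p => v p - G.c * ang g0 p, fun p q => by ring⟩, fun s hs p q => ?_, h4⟩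
  simp only [iv s hs, h3 s hs]

lemma o_φ (ξ : N) (s t : ℝ) : G.o (G.φ s ξ) t = G.o ξ (t + s) := by
  rw [Geo.o, Geo.o, Sys.φ_add]

variable {g0 G}

open Classical in
/-- returns with a definite excess have frequency zero -/
lemma count {Ξ : ℍ → ℍ → ℝ} (hc : Continuous fun x : ℍ × ℍ => Ξ x.1 x.2) (nn : ∀ p q, 0 ≤ Ξ p q)
    (tri : ∀ p q r, Ξ p r ≤ Ξ p q + Ξ q r)
    (act : ∀ ξ s t r, s ≤ t → t ≤ r →
      Ξ (G.o ξ s) (G.o ξ r) = Ξ (G.o ξ s) (G.o ξ t) + Ξ (G.o ξ t) (G.o ξ r))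
    (iv : ∀ s ∈ Tr g0 G.Γ, ∀ p q, Ξ (D g0 s p) (D g0 s q) = Ξ p q)
    (sl : ∀ ε, 0 < ε → ∃ C, ∀ s ∈ Tr g0 G.Γ, 0 ≤ s →
      Ξ UpperHalfPlane.I (D g0 s UpperHalfPlane.I) ≤ ε * s + C)
    {ξ : N} (hξ : Tendsto (fun t => lg (g0 • G.o ξ t)) atTop atTop) {P : ℕ → Prop} {R δ : ℝ}
    (hP : ∀ j : ℕ, P j → ∃ s ∈ Tr g0 G.Γ, dist (D g0 s (G.o ξ (1 + j * 2))) UpperHalfPlane.I ≤ R ∧
      δ ≤ Ξ (G.o ξ (-1 + j * 2)) (G.o ξ (1 + j * 2))) (hδ : 0 < δ) {ε : ℝ} (hε : 0 < ε) :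
    ∃ K, ∀ n : ℕ, δ * ((Finset.range n).filter P).card ≤ K + ε * n := by
  obtain ⟨L, L0, hL⟩ := G.toSys.disp 2
  obtain ⟨C, hC⟩ := sl (ε / (L + 1)) (by positivity)
  obtain ⟨M, hM⟩ := (isCompact_closedBall UpperHalfPlane.I R).exists_bound_of_continuousOn
    (hc.comp (continuous_const.prodMk continuous_id) (f := fun q => (UpperHalfPlane.I, q))).continuousOn
  obtain ⟨T, hT⟩ := eventually_atTop.1 (hξ.eventually_ge_atTop (lg (g0 • UpperHalfPlane.I) + R))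
  have lin : ∀ n : ℕ, dist (G.o ξ (1 + n * 2)) (G.o ξ 1) ≤ L * n := fun n => by
    induction n with
    | zero => simp
    | succ n ih =>
      have := hL ξ (1 + n * 2) (1 + (n + 1 : ℕ) * 2) (by push_cast; rw [abs_le]; constructor <;> linarith)
      refine (dist_triangle _ (G.o ξ (1 + n * 2)) _).trans ?_
      push_cast at this ⊢
      linarith
  have st : ∀ n : ℕ, (((Finset.range (n + 1)).filter P).card : ℝ) =
      ((Finset.range n).filter P).card + if P n then 1 else 0 := fun n => by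
    rw [Finset.range_add_one, Finset.filter_insert]
    split_ifs
    · rw [Finset.card_insert_of_notMem (by simp)]
      simp
    · simp
  have tel : ∀ n : ℕ, δ * ((Finset.range n).filter P).card ≤
      Ξ (G.o ξ (-1)) (G.o ξ (-1 + n * 2)) := fun n => by
    induction n with
    | zero => simpa using nn _ _
    | succ n ih =>
      have n0 : (0 : ℝ) ≤ n := n.cast_nonneg
      rw [st, act ξ (-1) (-1 + n * 2) _ (by linarith) (by push_cast; linarith),
        show -1 + ((n + 1 : ℕ) : ℝ) * 2 = 1 + n * 2 by push_cast; ring]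
      split_ifs with h
      · obtain ⟨s, -, -, h2⟩ := hP n h
        linarith
      · linarith [nn (G.o ξ (-1 + n * 2)) (G.o ξ (1 + n * 2))]
  refine ⟨max (δ * (|T| + 1)) (Ξ (G.o ξ (-1)) UpperHalfPlane.I + C + M +
    ε / (L + 1) * (dist (G.o ξ 1) UpperHalfPlane.I + R)), fun n => ?_⟩
  induction n with
  | zero => simpa using Or.inl (by positivity)
  | succ n ih =>
    have n0 : (0 : ℝ) ≤ n := n.cast_nonneg
    have e0 : 0 ≤ ε * (n + 1 : ℕ) := by positivity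
    by_cases h : P n
    swap
    · rw [st, if_neg h, add_zero]
      push_cast
      linarith
    by_cases hn : 1 + n * 2 < T
    · have : (((Finset.range (n + 1)).filter P).card : ℝ) ≤ |T| + 1 := by
        have h1 : (((Finset.range (n + 1)).filter P).card : ℝ) ≤ (n + 1 : ℕ) := by
          exact_mod_cast (Finset.card_filter_le _ _).trans (Finset.card_range _).le
        push_cast at h1
        linarith [le_abs_self T]
      linarith [mul_le_mul_of_nonneg_left this hδ.le, le_max_left (δ * (|T| + 1))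
        (Ξ (G.o ξ (-1)) UpperHalfPlane.I + C + M +
          ε / (L + 1) * (dist (G.o ξ 1) UpperHalfPlane.I + R))]
    obtain ⟨s, hs, h1, -⟩ := hP n h
    obtain ⟨w, hw⟩ : ∃ w, w = D g0 s (G.o ξ (1 + n * 2)) := ⟨_, rfl⟩
    have e1 : G.o ξ (1 + n * 2) = D g0 (-s) w := by rw [hw, ← D_add, neg_add_cancel, D_zero]
    have e2 := lg_D g0 (-s) w
    rw [← hw] at h1
    rw [← e1] at e2
    have a1 := lg_sub_le (g0 • w) (g0 • UpperHalfPlane.I)
    have a2 := lg_sub_le (g0 • G.o ξ (1 + n * 2)) (g0 • w)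
    rw [dist_smul] at a1 a2
    have a3 := dist_triangle4_right (G.o ξ (1 + n * 2)) w (G.o ξ 1) UpperHalfPlane.I
    have a4 := hC (-s) ((Tr g0 G.Γ).neg_mem hs) (by linarith [hT _ (not_lt.1 hn)])
    have a5 := tel (n + 1)
    rw [show -1 + ((n + 1 : ℕ) : ℝ) * 2 = 1 + n * 2 by push_cast; ring, e1] at a5
    have a6 := tri (G.o ξ (-1)) UpperHalfPlane.I (D g0 (-s) w)
    have a7 := tri UpperHalfPlane.I (D g0 (-s) UpperHalfPlane.I) (D g0 (-s) w)
    rw [iv _ ((Tr g0 G.Γ).neg_mem hs)] at a7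
    have a8 : Ξ UpperHalfPlane.I w ≤ M := (le_abs_self _).trans (hM w h1)
    have a9 : ε / (L + 1) * -s ≤
        ε / (L + 1) * ((L + 1) * (n + 1) + (dist (G.o ξ 1) UpperHalfPlane.I + R)) :=
      mul_le_mul_of_nonneg_left (by linarith [lin n]) (by positivity)
    rw [mul_add, ← mul_assoc, div_mul_cancel₀ _ (by positivity)] at a9
    push_cast
    linarith [le_max_right (δ * (|T| + 1)) (Ξ (G.o ξ (-1)) UpperHalfPlane.I + C + M +
      ε / (L + 1) * (dist (G.o ξ 1) UpperHalfPlane.I + R))]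

end FAxis

open FAxis

theorem axis (hb : BaseSt) (hs : MeasSt) : AxisSt := by
  classical
  intro G x y
  have hB := hb G
  have e : G.EW {(x, y)} = {ξ | G.Wl ξ x y} := by
    ext ξ
    simp [Geo.EW]
  have mB := (hs G).1 _ (measurableSet_singleton (x, y))
  rw [e] at mB ⊢
  by_contra hne
  obtain ⟨ξ0, hw⟩ := nonempty_of_measure_ne_zero hne
  obtain ⟨g0, h1, h2, -⟩ := mobius.std x y hw.lt hw.lt2
  obtain ⟨Ξ, hc, nn, ⟨u, hu⟩, iv, sl⟩ := pot g0 G
  obtain ⟨f1, -, -, -, f5, -⟩ := freq G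
  have co : ∀ t, Continuous fun ξ => G.o ξ t := fun t =>
    (G.continuous_φ.comp (continuous_const.prodMk continuous_id)).fst
  have cE : Continuous fun ξ => Ξ (G.o ξ (-1)) (G.o ξ 1) := hc.comp ((co _).prodMk (co _))
  have act : ∀ ξ s t r, s ≤ t → t ≤ r →
      Ξ (G.o ξ s) (G.o ξ r) = Ξ (G.o ξ s) (G.o ξ t) + Ξ (G.o ξ t) (G.o ξ r) := fun ξ s t r a b => by
    simp only [hu]
    linarith [G.act ξ s t r a b]
  have n1 : ∀ R δ, 0 < δ → G.μ {ξ | G.Wl ξ x y ∧ dist (G.o ξ 1) UpperHalfPlane.I ≤ R ∧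
      δ ≤ Ξ (G.o ξ (-1)) (G.o ξ 1)} = 0 := fun R δ hδ => by
    refine measure_mono_null ?_ (ae_iff.1 (f1 2 ({ξ | G.Wl ξ x y} ∩
      ({ξ | dist (G.o ξ 1) UpperHalfPlane.I ≤ R} ∩ {ξ | δ ≤ Ξ (G.o ξ (-1)) (G.o ξ 1)})) (mB.inter
      ((measurableSet_le ((co 1).dist continuous_const).measurable measurable_const).inter
        (measurableSet_le measurable_const cE.measurable)))))
    intro ξ hξ h
    obtain ⟨c, c0, hf⟩ := h hξ
    obtain ⟨K, hK⟩ := count hc nn (fun p q r => by simp only [hu]; linarith [G.tri p q r]) act iv sl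
      (ξ := ξ) (tendsto_atTop.2 fun M => by
        obtain ⟨ε, ε0, hε⟩ := h2 M
        exact (Metric.tendsto_nhds.1 hξ.1.p ε ε0).mono fun t ht =>
          (hε _ (by rwa [dist_eq_norm] at ht)).le)
      (P := fun j : ℕ => G.φ (j * 2) ξ ∈ G.Sat ({ξ | G.Wl ξ x y} ∩
        ({ξ | dist (G.o ξ 1) UpperHalfPlane.I ≤ R} ∩ {ξ | δ ≤ Ξ (G.o ξ (-1)) (G.o ξ 1)})))
      (R := R) (δ := δ) (fun j ⟨γ, hγ, k, a, b, d⟩ => by
        obtain ⟨g, hg⟩ := mobius.ex γ
        obtain ⟨i, e1, e2⟩ := hB.wu _ _ _ _ _ a (hB.wg _ x y γ hγ g k hg (hB.wφ ξ x y _ hξ.1))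
        obtain ⟨s, hs⟩ := h1 γ g hg (ce_eq_iff.2 ⟨i, e1⟩) (ce_eq_iff.2 ⟨i, e2⟩)
        have hD : ∀ z : ℍ, γ • z = D g0 s z := fun z => by rw [D, ← hs, inv_smul_smul]
        have eo : ∀ t, G.o (gg γ (k * (2 * π)) (G.φ (j * 2) ξ)) t = D g0 s (G.o ξ (t + j * 2)) :=
          fun t => by rw [← hD, ← o_φ, Geo.o, G.φ_gg hγ]; rfl
        simp only [mem_ofPred_eq, eo] at b d
        exact ⟨s, ⟨γ, hγ, hD⟩, b, by rwa [iv s ⟨γ, hγ, hD⟩] at d⟩) hδ
      (ε := δ * c / 2) (by positivity)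
    obtain ⟨n, a, b⟩ := (hf.and_eventually
      (tendsto_natCast_atTop_atTop.eventually_gt_atTop (K / (δ * c / 2)))).exists
    rw [div_lt_iff₀ (by positivity)] at b
    have := (mul_le_mul_of_nonneg_left a hδ.le).trans (by convert hK n)
    linarith
  have n2 : G.μ {ξ | G.Wl ξ x y ∧ Ξ (G.o ξ (-1)) (G.o ξ 1) ≤ 0} = 0 := by
    refine measure_mono_null ?_
      (f5 _ (mB.inter (measurableSet_le cE.measurable (measurable_const (a := 0))))).2
    intro ξ hξ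
    refine ⟨hξ, ?_⟩
    refine measure_mono_null (fun θ hθ => ?_)
      ((countable_range fun k : ℤ => ξ.2 + k * (2 * π)).measure_zero _)
    by_contra hc
    have := G.cc ξ.1 θ ξ.2 1 1 (fun h => hc (by
      obtain ⟨k, hk⟩ := ce_eq_iff.1 h
      exact ⟨k, hk.symm⟩)) one_pos one_pos
    have a1 := act ξ (-1) 0 1 (by norm_num) (by norm_num)
    have a2 := act (ξ.1, θ) (-1) 0 1 (by norm_num) (by norm_num)
    have a3 : Ξ (G.o (ξ.1, θ) (-1)) (G.o (ξ.1, θ) 1) ≤ 0 := hθ.2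
    have a4 := nn (G.o ξ (-1)) ξ.1
    have a5 := nn ξ.1 (G.o (ξ.1, θ) 1)
    have a6 := nn (G.o (ξ.1, θ) (-1)) (G.o ξ 1)
    have a7 := hξ.2
    simp only [Geo.o, Sys.φ_zero, hu, Prod.mk.eta] at this a1 a2 a3 a4 a5 a6 a7
    linarith
  refine hne (measure_mono_null (fun ξ hξ => ?_) (measure_union_null n2
    (measure_iUnion_null fun n : ℕ => n1 n (1 / (n + 1)) (by positivity))))
  rcases le_or_gt (Ξ (G.o ξ (-1)) (G.o ξ 1)) 0 with h | h
  · exact Or.inl ⟨hξ, h⟩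
  · obtain ⟨n, a, b⟩ := ((tendsto_natCast_atTop_atTop.eventually_ge_atTop
      (dist (G.o ξ 1) UpperHalfPlane.I)).and
      (tendsto_one_div_add_atTop_nhds_zero_nat.eventually_le_const h)).exists
    exact Or.inr (mem_iUnion.2 ⟨n, hξ, a, b⟩)

end

end Pool.Agent.Lib.MP_21f752_an
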