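import Pool.Agent.Lib.MP_21f752_an.FA

/-! Part B1: first properties of the action potential. -/

namespace Pool.Agent.Lib.MP_21f752_an

open UpperHalfPlane Set Filter Topology Metric MeasureTheory
open scoped MatrixGroups ContDiff Real

noncomputable section

namespace FB1

variable {S : Sys} (P : S.Pr)

lemma norm_V' (ξ : N) : ‖S.V ξ‖ = Real.exp (-S.L ξ.1) := S.norm_vv _

lemma exp_V (ξ : N) : Real.exp (S.L ξ.1) * ‖S.V ξ‖ = 1 := by
  rw [norm_V', ← Real.exp_add, add_neg_cancel, Real.exp_zero]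

lemma sub_of_pot {α u : ℍ → ℝ} (h : P.Pot α u) : P.Sub u := by
  intro z
  obtain ⟨D, hD, e⟩ := h z
  refine ⟨D, hD, fun δ => ?_⟩
  rw [e]
  have h1 : (δ / S.V (z, α z)).re ≤ ‖δ / S.V (z, α z)‖ := Complex.re_le_norm _
  rw [norm_div, norm_V', Real.exp_neg, div_inv_eq_mul, mul_comm] at h1
  linarith

lemma exp_L (z : ℍ) : Real.exp (S.L z) * z.im = Real.exp (S.f z) := by
  have h := S.exp_neg_L z
  have h1 : Real.exp (S.L z) * Real.exp (-S.L z) = 1 := by
    rw [← Real.exp_add, add_neg_cancel, Real.exp_zero]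
  have h2 : Real.exp (S.f z) * Real.exp (-S.f z) = 1 := by
    rw [← Real.exp_add, add_neg_cancel, Real.exp_zero]
  rw [h] at h1
  linear_combination Real.exp (S.f z) * h1 - Real.exp (S.L z) * z.im * h2

lemma F_mob {γ : SL(2, ℝ)} (hγ : γ ∈ S.Γ) {z : ℂ} (hz : 0 < z.im) :
    P.F (mob γ z) = P.F z * den γ z ^ 2 := by
  rw [← P.inv γ hγ z hz, div_mul_cancel₀ _ (pow_ne_zero 2 (den_ne γ hz))]

lemma bd_F : ∃ C, ∀ z : ℍ, ‖P.F z‖ * z.im ≤ C := by
  have hc : Continuous fun z : ℍ => ‖P.F z‖ * z.im :=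
    (continuous_iff_continuousAt.2 fun z : ℍ =>
      ContinuousAt.comp (g := P.F) (P.cd z z.im_pos).continuousAt
        continuous_coe.continuousAt).norm.mul UpperHalfPlane.continuous_im
  obtain ⟨C, hC⟩ := S.bdd_inv hc (fun γ hγ z => by
    have hn := Complex.normSq_pos.2 (den_ne γ z.im_pos)
    rw [← coe_im (γ • z), coe_smul_mob, F_mob P hγ z.im_pos, mob_im γ z.im_pos, norm_mul, norm_pow,
      ← Complex.normSq_eq_norm_sq, coe_im]
    field_simp)
  exact ⟨C, fun z => (le_abs_self _).trans (hC z)⟩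

lemma bd_E : ∃ K, 0 ≤ K ∧ ∀ (z : ℍ) (δ : ℂ),
    Real.exp (S.L z) * ‖δ‖ - (P.Θ z * δ).re ≤ K / z.im * ‖δ‖ := by
  obtain ⟨C, hC1, hC⟩ := S.exists_speed
  obtain ⟨C', hC'⟩ := bd_F P
  have h0 : 0 ≤ C' :=
    (mul_nonneg (norm_nonneg _) UpperHalfPlane.I.im_pos.le).trans (hC' UpperHalfPlane.I)
  refine ⟨C + C' + |P.c|, by positivity, fun z δ => ?_⟩
  have hz := z.im_pos
  have h1 : Real.exp (S.L z) ≤ C / z.im := by
    rw [le_div_iff₀ hz, exp_L]; exact (hC z).2
  have h2 : ‖P.Θ z‖ ≤ (C' + |P.c|) / z.im := by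
    have a : ‖P.F z‖ ≤ C' / z.im := by rw [le_div_iff₀ hz]; exact hC' z
    have b : ‖((P.c / (z : ℂ).im : ℝ) : ℂ)‖ = |P.c| / z.im := by
      rw [Complex.norm_real, Real.norm_eq_abs, abs_div, coe_im, abs_of_pos hz]
    rw [Sys.Pr.Θ, add_div]
    exact (norm_add_le _ _).trans (by rw [b]; linarith)
  have h3 : -(P.Θ z * δ).re ≤ ‖P.Θ z‖ * ‖δ‖ := by
    rw [← norm_mul]
    exact (neg_le_abs _).trans (Complex.abs_re_le_norm _)
  have h4 := mul_le_mul_of_nonneg_right h1 (norm_nonneg δ)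
  have h5 := mul_le_mul_of_nonneg_right h2 (norm_nonneg δ)
  have e : (C + C' + |P.c|) / z.im * ‖δ‖ = C / z.im * ‖δ‖ + (C' + |P.c|) / z.im * ‖δ‖ := by ring
  linarith

lemma lip (hg : GlueSt) : ∃ M, 0 ≤ M ∧ ∀ u, P.Sub u → ∀ z w, |u z - u w| ≤ M * dist z w := by
  obtain ⟨K, hK, hE⟩ := bd_E P
  refine ⟨2 * (K + 1), by positivity, fun u hu => (hg S 1 one_pos).2.2.2 u _ fun z => ?_⟩
  obtain ⟨D, hD, hD'⟩ := hu z
  have hz := z.im_pos
  have h1 := (hD.isLittleO.def (c := 1 / z.im) (by positivity))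
  have h2 := continuous_coe.continuousAt.eventually h1
  have h3 : ∀ᶠ w in 𝓝 z, dist w z ≤ 1 := closedBall_mem_nhds z one_pos
  filter_upwards [h2, h3] with w hw hw1
  simp only [ofComplex_apply, Real.norm_eq_abs] at hw
  have h4 : |D ((w : ℂ) - z)| ≤ K / z.im * ‖(w : ℂ) - z‖ := by
    refine abs_le.2 ⟨?_, (hD' _).trans (hE z _)⟩
    have := (hD' (-((w : ℂ) - z))).trans (hE z _)
    rw [map_neg, norm_neg] at this
    linarith
  have h5 : ‖(w : ℂ) - z‖ ≤ z.im * (2 * dist w z) := by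
    rw [← dist_eq_norm]
    refine (dist_coe_le w z).trans (mul_le_mul_of_nonneg_left ?_ hz.le)
    have := Real.abs_exp_sub_one_le (x := dist w z) (by rwa [abs_of_nonneg dist_nonneg])
    rw [abs_of_nonneg (dist_nonneg (x := w) (y := z))] at this
    exact (le_abs_self _).trans this
  have h6 : |u w - u z| ≤ (K + 1) / z.im * ‖(w : ℂ) - z‖ := by
    have := abs_add_le (u w - u z - D ((w : ℂ) - z)) (D ((w : ℂ) - z))
    rw [sub_add_cancel] at this
    have e : (K + 1) / z.im * ‖(w : ℂ) - z‖ =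
        1 / z.im * ‖(w : ℂ) - z‖ + K / z.im * ‖(w : ℂ) - z‖ := by ring
    linarith
  refine h6.trans ((mul_le_mul_of_nonneg_left h5 (by positivity)).trans (le_of_eq ?_))
  field_simp

/-- a subsolution along a curve -/
lemma curve {u : ℍ → ℝ} (hu : P.Sub u) {x x' : ℝ → ℂ} {a b : ℝ} (hab : a ≤ b)
    (hp : ∀ t ∈ Icc a b, 0 < (x t).im) (hx : ∀ t, HasDerivAt x (x' t) t) (hc : Continuous x') :
    u (ofComplex (x b)) - u (ofComplex (x a)) ≤
      ∫ t in a..b, (Real.exp (S.L (x t)) * ‖x' t‖ - (P.Θ (x t) * x' t).re) := by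
  choose D hD hD' using hu
  have hd : ∀ t ∈ Icc a b,
      HasDerivAt (fun t => u (ofComplex (x t))) (D (ofComplex (x t)) (x' t)) t := by
    intro t ht
    have := hD (ofComplex (x t))
    rw [ofComplex_apply_of_im_pos (hp t ht)] at this ⊢
    exact HasFDerivAt.comp_hasDerivAt (l := fun w : ℂ => u (ofComplex w)) t this (hx t)
  have hxc : Continuous x := continuous_iff_continuousAt.2 fun t => (hx t).continuousAt
  refine intervalIntegral.sub_le_integral_of_hasDeriv_right_of_le hab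
    (fun t ht => (hd t ht).continuousAt.continuousWithinAt)
    (fun t ht => (hd t (Ioo_subset_Icc_self ht)).hasDerivWithinAt)
    (ContinuousOn.integrableOn_Icc fun t ht => ContinuousAt.continuousWithinAt ?_) fun t ht => ?_
  · have h1 : ContinuousAt (fun t => S.L (x t)) t :=
      ContinuousAt.comp (S.L_cd (hp t ht)).continuousAt hxc.continuousAt
    have h2 : ContinuousAt (fun t => P.Θ (x t)) t :=
      ContinuousAt.comp (P.Θ_cd (hp t ht)).continuousAt hxc.continuousAt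
    exact (h1.rexp.mul hc.norm.continuousAt).sub
      (Complex.continuous_re.continuousAt.comp (h2.mul hc.continuousAt))
  · have := hD' (ofComplex (x t)) (x' t)
    rw [ofComplex_apply_of_im_pos (hp t (Ioo_subset_Icc_self ht))] at this ⊢
    exact this

lemma den_one (z : ℂ) : den 1 z = 1 := by simp [den]

/-- transport of subsolutions -/
lemma transport {u : ℍ → ℝ} (hu : P.Sub u) {γ : SL(2, ℝ)} (hγ : γ ∈ S.Γ) {h : ℂ → ℝ}
    (hh : ∀ z : ℂ, 0 < z.im → ∃ D : ℂ →L[ℝ] ℝ, HasFDerivAt h D z ∧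
      ∀ v, D v = -2 * ((γ 1 0 : ℝ) * v / den γ z).im) :
    P.Sub fun z => u (γ • z) - P.c * h z := by
  intro z
  have hz : 0 < (z : ℂ).im := z.im_pos
  obtain ⟨D, hD, hD'⟩ := hu (γ • z)
  obtain ⟨E, hE, hE'⟩ := hh z hz
  rw [coe_smul_mob] at hD hD'
  have h1 := (hD.comp (z : ℂ) ((hasDerivAt_mob γ hz).hasFDerivAt.restrictScalars ℝ)).sub
    (hE.const_mul P.c)
  refine ⟨_, h1.congr_of_eventuallyEq ?_, fun δ => ?_⟩
  · filter_upwards [isOpen_upperHalfPlaneSet.mem_nhds hz] with w hw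
    have hw' : 0 < w.im := hw
    simp only [Function.comp, Pi.sub_apply]
    rw [ofComplex_mob γ hw', ofComplex_apply_of_im_pos hw']
  · have h2 := hD' (δ / den γ z ^ 2)
    have h0 := den_ne γ hz
    have hn := Complex.normSq_pos.2 h0
    have e1 : Real.exp (S.L (mob γ z)) * ‖δ / den γ z ^ 2‖ = Real.exp (S.L z) * ‖δ‖ := by
      rw [S.L_mob hγ hz, add_zero, one_mul, Real.exp_add, Real.exp_log hn, norm_div, norm_pow,
        ← Complex.normSq_eq_norm_sq]
      field_simp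
    have e2 : P.Θ (mob γ z) * (δ / den γ z ^ 2) =
        P.Θ z * δ - 2 * Complex.I * (P.c : ℝ) * ((γ 1 0 : ℝ) * δ / den γ z) := by
      have a : ((Complex.normSq (den γ z) : ℝ) : ℂ) =
          den γ z * (den γ z - 2 * Complex.I * (γ 1 0 : ℝ) * ((z : ℂ).im : ℝ)) := by
        rw [← Complex.mul_conj]
        congr 1
        apply Complex.ext <;> simp [den]
        ring
      have b : (((z : ℂ).im : ℝ) : ℂ) ≠ 0 := by exact_mod_cast hz.ne'
      simp only [Sys.Pr.Θ]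
      rw [F_mob P hγ hz, mob_im γ hz, div_div_eq_mul_div]
      push_cast
      rw [a]
      field_simp
      ring
    rw [e1, e2] at h2
    have e3 : (P.Θ z * δ - 2 * Complex.I * (P.c : ℝ) * ((γ 1 0 : ℝ) * δ / den γ z)).re =
        (P.Θ z * δ).re + 2 * P.c * ((γ 1 0 : ℝ) * δ / den γ z).im := by
      generalize ((γ 1 0 : ℝ) : ℂ) * δ / den γ z = q
      simp
    rw [e3] at h2
    have e4 : δ • (1 / den γ z ^ 2) = δ / den γ z ^ 2 := by rw [smul_eq_mul]; ring
    simp only [sub_apply, ContinuousLinearMap.comp_apply,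
      ContinuousLinearMap.coe_restrictScalars', ContinuousLinearMap.toSpanSingleton_apply,
      smul_apply, e4, hE', smul_eq_mul]
    linarith

lemma ang_inv (γ : SL(2, ℝ)) (z : ℂ) (hz : 0 < z.im) : ∃ D : ℂ →L[ℝ] ℝ,
    HasFDerivAt (fun w => -ang γ (mob γ⁻¹ w)) D z ∧
      ∀ v, D v = -2 * ((γ⁻¹ 1 0 : ℝ) * v / den γ⁻¹ z).im := by
  obtain ⟨E, hE, hE'⟩ := hasFDerivAt_ang γ (mob_pos γ⁻¹ hz)
  have h1 := (hE.comp z ((hasDerivAt_mob γ⁻¹ hz).hasFDerivAt.restrictScalars ℝ)).neg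
  refine ⟨_, h1, fun v => ?_⟩
  have a : den γ (mob γ⁻¹ z) * den γ⁻¹ z = 1 := by rw [← den_mul γ γ⁻¹ hz, mul_inv_cancel, den_one]
  have b : γ⁻¹ 1 0 = -γ 1 0 := by
    rw [Matrix.SpecialLinearGroup.SL2_inv_expl]
    rfl
  have h0 := den_ne γ⁻¹ hz
  have h0' := den_ne γ (mob_pos γ⁻¹ hz)
  have e : ((γ 1 0 : ℝ) : ℂ) * (v * (1 / den γ⁻¹ z ^ 2)) / den γ (mob γ⁻¹ z) =
      -(((γ⁻¹ 1 0 : ℝ) : ℂ) * v / den γ⁻¹ z) := by
    rw [b, eq_div_of_mul_eq h0 a]
    push_cast
    field_simp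
  simp only [neg_apply, ContinuousLinearMap.comp_apply,
    ContinuousLinearMap.coe_restrictScalars', ContinuousLinearMap.toSpanSingleton_apply,
    hE', smul_eq_mul, e, Complex.neg_im]
  ring

lemma hd_pot {α u : ℍ → ℝ} (hf : S.Fl α) (h : P.Pot α u) {ξ : N} (h0 : α ξ.1 = ξ.2) (t : ℝ) :
    HasDerivAt (fun s => u (S.φ s ξ).1) (1 - (P.Θ (S.φ t ξ).1 * S.V (S.φ t ξ)).re) t := by
  obtain ⟨D, hD, e⟩ := h (S.φ t ξ).1
  have h1 := HasFDerivAt.comp_hasDerivAt (l := fun w : ℂ => u (ofComplex w)) t hD (S.hd_z ξ t)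
  have h2 : α (S.φ t ξ).1 = (S.φ t ξ).2 := by
    have := hf ξ.1 t
    rwa [h0] at this
  rw [e, h2, Prod.mk.eta, div_self (S.V_ne _), Complex.one_re] at h1
  simpa only [Function.comp_def, ofComplex_apply] using h1

lemma cont_orb (ξ : N) : Continuous fun t => S.φ t ξ :=
  S.continuous_φ.comp (continuous_id.prodMk continuous_const)

lemma cont_int (ξ : N) : Continuous fun t => 1 - (P.Θ (S.φ t ξ).1 * S.V (S.φ t ξ)).re :=
  continuous_const.sub (Complex.continuous_re.comp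
    (((Sys.cont_base fun _ hz => (P.Θ_cd hz).continuousAt).mul S.continuous_V).comp (cont_orb ξ)))

end FB1

open FB1 in
theorem b1 (hg : GlueSt) : B1St := by
  intro S P ⟨C, hF⟩
  obtain ⟨M, hM0, hM⟩ := lip P hg
  obtain ⟨α0, u0, -, -, -, hu0⟩ := hF (UpperHalfPlane.I, 0)
  have hs0 := sub_of_pot P hu0
  have le : ∀ u, P.Sub u → ∀ p q, u q - u p ≤ P.Ph p q := fun u hu p q =>
    le_csSup ⟨M * dist q p, by
      rintro r ⟨v, hv, rfl⟩
      exact (le_abs_self _).trans (hM v hv q p)⟩ ⟨u, hu, rfl⟩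
  have ub : ∀ p q r, (∀ u, P.Sub u → u q - u p ≤ r) → P.Ph p q ≤ r := fun p q r h =>
    csSup_le ⟨_, u0, hs0, rfl⟩ (by
      rintro _ ⟨v, hv, rfl⟩
      exact h v hv)
  have tri : ∀ p q r, P.Ph p r ≤ P.Ph p q + P.Ph q r := fun p q r => ub _ _ _ fun u hu => by
    have := le u hu p q
    have := le u hu q r
    linarith
  have bd : ∀ p q, P.Ph p q ≤ M * dist q p := fun p q => ub _ _ _ fun u hu =>
    (le_abs_self _).trans (hM u hu q p)
  refine ⟨le, ?_, tri, fun p q => ?_, fun p q => ub _ _ _ fun u hu => ?_, fun ξ s t hst => ?_,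
    fun γ hγ p q => ?_, M + |P.c| * C, fun ξ T => ?_⟩
  · have key : ∀ x y : ℍ × ℍ, P.Ph x.1 x.2 - P.Ph y.1 y.2 ≤ 2 * M * dist x y := by
      intro x y
      have h1 := tri x.1 y.1 x.2
      have h2 := tri y.1 y.2 x.2
      have h3 := bd x.1 y.1
      have h4 := bd y.2 x.2
      have h5 : dist y.1 x.1 ≤ dist x y := by rw [dist_comm, Prod.dist_eq]; exact le_max_left _ _
      have h6 : dist x.2 y.2 ≤ dist x y := by rw [Prod.dist_eq]; exact le_max_right _ _
      have := mul_le_mul_of_nonneg_left h5 hM0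
      have := mul_le_mul_of_nonneg_left h6 hM0
      linarith
    refine (LipschitzWith.of_dist_le_mul (K := ⟨2 * M, by positivity⟩) fun x y => ?_).continuous
    rw [Real.dist_eq]
    refine abs_le.2 ⟨?_, key x y⟩
    have := key y x
    rw [dist_comm] at this
    change -(2 * M * dist x y) ≤ _
    linarith
  · have := le u0 hs0 p q
    have := le u0 hs0 q p
    linarith
  · have := curve P hu (x := fun s : ℝ => (p : ℂ) + s * (q - p)) (x' := fun _ => (q : ℂ) - p)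
      zero_le_one (fun t ht => ?_) (fun t => ?_) continuous_const
    · simpa using this
    · have e : ((p : ℂ) + t * (q - p)).im = (1 - t) * p.im + t * q.im := by simp; ring
      rw [e]
      have := p.im_pos
      have := q.im_pos
      rcases ht.1.eq_or_lt with h | h
      · rw [← h]; simpa
      · have := mul_nonneg (sub_nonneg.2 ht.2) p.im_pos.le
        have := mul_pos h q.im_pos
        linarith
    · simpa using ((Complex.ofRealCLM.hasDerivAt (x := t)).mul_const ((q : ℂ) - p)).const_add (p : ℂ)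
  · refine le_antisymm (ub _ _ _ fun u hu => ?_) ?_
    · have := curve P hu hst (fun t _ => (S.φ t ξ).1.im_pos) (S.hd_z ξ)
        (S.continuous_V.comp (cont_orb ξ))
      simpa only [ofComplex_apply, exp_V] using this
    · obtain ⟨α, u, h0, hf, -, hu⟩ := hF ξ
      rw [intervalIntegral.integral_eq_sub_of_hasDerivAt (fun t _ => hd_pot P hf hu h0 t)
        ((cont_int P ξ).intervalIntegrable _ _)]
      exact le u (sub_of_pot P hu) _ _
  · refine le_antisymm (ub _ _ _ fun u hu => ?_) ?_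
    · have := le _ (transport P hu hγ fun z hz => hasFDerivAt_ang γ hz) p q
      linarith
    · have : P.Ph p q ≤ P.Ph (γ • p) (γ • q) - P.c * (ang γ q - ang γ p) :=
        ub _ _ _ fun u hu => by
          have := le _ (transport P hu (S.Γ.inv_mem hγ) (ang_inv γ)) (γ • p) (γ • q)
          simp only [← coe_smul_mob, inv_smul_smul] at this
          linarith
      linarith
  · obtain ⟨α, u, h0, hf, hl, hu⟩ := hF ξ
    have hd : ∀ t, HasDerivAt (fun s => u (S.φ s ξ).1 - P.c * (S.φ s ξ).2) (P.ψ (S.φ t ξ)) t := by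
      intro t
      refine ((hd_pot P hf hu h0 t).sub ((S.hd_θ ξ t).const_mul P.c)).congr_deriv ?_
      simp only [Sys.Pr.ψ, Sys.Pr.ψ', Sys.X_emb]
      rfl
    rw [intervalIntegral.integral_eq_sub_of_hasDerivAt (fun t _ => hd t)
      ((P.ci_ψ.cont_t ξ).intervalIntegrable _ _)]
    have h2 : α (S.φ T ξ).1 = (S.φ T ξ).2 := by
      have := hf ξ.1 T
      rwa [h0] at this
    rw [S.φ_zero, ← h2, ← h0]
    have h3 := hM u (sub_of_pot P hu) (S.φ T ξ).1 ξ.1
    have h4 := mul_le_mul_of_nonneg_left (hl (S.φ T ξ).1 ξ.1) (abs_nonneg P.c)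
    rw [← abs_mul] at h4
    rw [dist_comm] at h3 h4
    have h5 := abs_sub (u (S.φ T ξ).1 - u ξ.1) (P.c * (α (S.φ T ξ).1 - α ξ.1))
    have e : u (S.φ T ξ).1 - P.c * α (S.φ T ξ).1 - (u ξ.1 - P.c * α ξ.1) =
        u (S.φ T ξ).1 - u ξ.1 - P.c * (α (S.φ T ξ).1 - α ξ.1) := by ring
    rw [e]
    linarith

end

end Pool.Agent.Lib.MP_21f752_an
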