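import Pool.Agent.Lib.MP_21f752_an.FA

/-! Corners are not minimal, orbits do not return. -/

namespace Pool.Agent.Lib.MP_21f752_an

open UpperHalfPlane Set Filter Topology Metric MeasureTheory
open scoped MatrixGroups ContDiff Real

noncomputable section

namespace FB2

variable {S : Sys} {P : S.Pr}

lemma pot_sub {α u : ℍ → ℝ} (h : P.Pot α u) : P.Sub u := by
  intro z
  obtain ⟨D, hD, hδ⟩ := h z
  refine ⟨D, hD, fun δ => ?_⟩
  rw [hδ]
  have h1 : (δ / S.V (z, α z)).re ≤ ‖δ / S.V (z, α z)‖ := Complex.re_le_norm _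
  have h2 : ‖S.V (z, α z)‖ = Real.exp (-S.L z) := S.norm_vv _
  rw [norm_div, h2, Real.exp_neg, div_inv_eq_mul, mul_comm] at h1
  linarith

/-- the local upper bound -/
lemma ph_up (h : P.B1) (p : ℍ) {ε : ℝ} (hε : 0 < ε) : ∀ᶠ x : ℍ × ℍ in 𝓝 (p, p),
    P.Ph x.1 x.2 ≤ Real.exp (S.L p) * ‖(x.2 : ℂ) - x.1‖ - (P.Θ p * (x.2 - x.1)).re +
      ε * ‖(x.2 : ℂ) - x.1‖ := by
  have c1 : ContinuousAt (fun z : ℂ => Real.exp (S.L z)) p :=
    Real.continuous_exp.continuousAt.comp (S.L_cd p.im_pos).continuousAt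
  have c2 : ContinuousAt P.Θ p := (P.Θ_cd p.im_pos).continuousAt
  have e1 := c1.eventually (ball_mem_nhds _ (half_pos hε))
  have e2 := c2.eventually (ball_mem_nhds _ (half_pos hε))
  have e3 : ∀ᶠ z : ℂ in 𝓝 (p : ℂ), 0 < z.im := isOpen_upperHalfPlaneSet.mem_nhds p.im_pos
  obtain ⟨r, hr, hb⟩ := Metric.eventually_nhds_iff_ball.1 (e1.and (e2.and e3))
  have t1 : ∀ᶠ z : ℍ in 𝓝 p, (z : ℂ) ∈ ball (p : ℂ) r :=
    continuous_coe.continuousAt.eventually (ball_mem_nhds _ hr)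
  filter_upwards [(continuousAt_fst (p := (p, p))).eventually t1,
    (continuousAt_snd (p := (p, p))).eventually t1] with x h1 h2
  have hm : ∀ s ∈ Icc (0 : ℝ) 1, (x.1 : ℂ) + s * (x.2 - x.1) ∈ ball (p : ℂ) r := fun s hs => by
    have := (convex_ball (p : ℂ) r).add_smul_sub_mem h1 h2 hs
    simpa using this
  have cl : Continuous fun s : ℝ => (x.1 : ℂ) + s * (x.2 - x.1) := by fun_prop
  have ci : ContinuousOn (fun s : ℝ => Real.exp (S.L (x.1 + s * (x.2 - x.1))) * ‖(x.2 : ℂ) - x.1‖ -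
      (P.Θ (x.1 + s * (x.2 - x.1)) * (x.2 - x.1)).re) (Icc 0 1) := by
    intro s hs
    have hz := (hb _ (hm s hs)).2.2
    have a1 : ContinuousAt (fun s : ℝ => S.L (x.1 + s * (x.2 - x.1))) s :=
      ContinuousAt.comp (f := fun s : ℝ => (x.1 : ℂ) + s * (x.2 - x.1)) (S.L_cd hz).continuousAt
        cl.continuousAt
    have a2 : ContinuousAt (fun s : ℝ => P.Θ (x.1 + s * (x.2 - x.1))) s :=
      ContinuousAt.comp (f := fun s : ℝ => (x.1 : ℂ) + s * (x.2 - x.1)) (P.Θ_cd hz).continuousAt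
        cl.continuousAt
    exact ((a1.rexp.mul continuousAt_const).sub
      (Complex.continuous_re.continuousAt.comp (a2.mul continuousAt_const))).continuousWithinAt
  refine (h.seg x.1 x.2).trans ?_
  have := intervalIntegral.integral_mono_on (μ := volume) zero_le_one
    (ci.intervalIntegrable_of_Icc zero_le_one)
    (intervalIntegrable_const (c := Real.exp (S.L p) * ‖(x.2 : ℂ) - x.1‖ -
      (P.Θ p * (x.2 - x.1)).re + ε * ‖(x.2 : ℂ) - x.1‖)) (fun s hs => by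
      obtain ⟨b1, b2, -⟩ := hb _ (hm s hs)
      rw [Real.dist_eq] at b1
      rw [dist_eq_norm] at b2
      have n0 := norm_nonneg ((x.2 : ℂ) - x.1)
      have k1 := mul_le_mul_of_nonneg_right (abs_lt.1 b1).2.le n0
      have k2 : -((P.Θ (x.1 + s * (x.2 - x.1)) - P.Θ p) * (x.2 - x.1)).re ≤
          ε / 2 * ‖(x.2 : ℂ) - x.1‖ := by
        refine (neg_le_abs _).trans ((Complex.abs_re_le_norm _).trans ?_)
        rw [norm_mul]
        exact mul_le_mul_of_nonneg_right b2.le n0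
      rw [sub_mul, Complex.sub_re] at k2
      linarith)
  simpa using this

/-- the integrand of the action -/
def lg (P : S.Pr) (ξ : N) (r : ℝ) : ℝ := 1 - (P.Θ (S.φ r ξ).1 * S.V (S.φ r ξ)).re

lemma cφ (ξ : N) : Continuous fun r => S.φ r ξ :=
  S.continuous_φ.comp (continuous_id.prodMk continuous_const)

lemma lg_cont (ξ : N) : Continuous (lg P ξ) := by
  have a : Continuous fun z : ℍ => P.Θ z := continuous_iff_continuousAt.2 fun z =>
    ContinuousAt.comp (P.Θ_cd z.im_pos).continuousAt continuous_coe.continuousAt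
  exact continuous_const.sub (Complex.continuous_re.comp
    ((a.comp (cφ ξ).fst).mul (S.continuous_V.comp (cφ ξ))))

lemma hd_ac (ξ : N) : HasDerivAt (fun t => ∫ r in (0 : ℝ)..t, lg P ξ r)
    (1 - (P.Θ ξ.1 * S.V ξ).re) 0 := by
  have := ((lg_cont (P := P) ξ).integral_hasStrictDerivAt 0 0).hasDerivAt
  simpa [lg, S.φ_zero] using this

lemma ph_add (h : P.B1) (ξ : N) {s t r : ℝ} (h1 : s ≤ t) (h2 : t ≤ r) :
    P.Ph (S.φ s ξ).1 (S.φ r ξ).1 = P.Ph (S.φ s ξ).1 (S.φ t ξ).1 + P.Ph (S.φ t ξ).1 (S.φ r ξ).1 := by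
  rw [h.orb ξ s r (h1.trans h2), h.orb ξ s t h1, h.orb ξ t r h2]
  exact (intervalIntegral.integral_add_adjacent_intervals
    ((lg_cont (P := P) ξ).intervalIntegrable _ _) ((lg_cont (P := P) ξ).intervalIntegrable _ _)).symm

lemma slope_pos {g : ℝ → ℝ} {d : ℝ} (h : HasDerivAt g d 0) (h0 : g 0 = 0) (hd : 0 < d) :
    ∀ᶠ t in 𝓝[>] (0 : ℝ), 0 < g t := by
  have := (hasDerivAt_iff_tendsto_slope.1 h).mono_left (nhdsGT_le_nhdsNE 0)
  filter_upwards [this.eventually (lt_mem_nhds hd), self_mem_nhdsWithin] with t ht h2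
  rw [slope_def_field, h0, sub_zero, sub_zero] at ht
  exact (div_pos_iff_of_pos_right h2).1 ht

lemma norm_lt_two {a b : ℝ} (h : ce a ≠ ce b) : ‖ce a + ce b‖ < 2 := by
  have h1 := parallelogram_law_with_norm ℝ (ce a) (ce b)
  have h2 : 0 < ‖ce a - ce b‖ := norm_pos_iff.2 (sub_ne_zero.2 h)
  rw [norm_ce, norm_ce] at h1
  nlinarith [norm_nonneg (ce a + ce b)]

lemma cc_small (h : P.B1) (p : ℍ) {θ1 θ2 : ℝ} (hθ : ce θ1 ≠ ce θ2) : ∀ᶠ t in 𝓝[>] (0 : ℝ),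
    P.Ph (S.φ (-t) (p, θ1)).1 (S.φ t (p, θ2)).1 <
      P.Ph (S.φ (-t) (p, θ1)).1 p + P.Ph p (S.φ t (p, θ2)).1 := by
  set w := S.V (p, θ1) + S.V (p, θ2) with hw
  have hn : Real.exp (S.L p) * ‖w‖ < 2 := by
    have : w = (Real.exp (-S.L p) : ℝ) * (ce θ1 + ce θ2) := by
      simp only [hw, Sys.V, Sys.vv, emb]
      ring
    rw [this, norm_mul, Complex.norm_real, Real.norm_of_nonneg (Real.exp_pos _).le, ← mul_assoc,
      ← Real.exp_add, add_neg_cancel, Real.exp_zero, one_mul]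
    exact norm_lt_two hθ
  obtain ⟨ε, hε, hε'⟩ : ∃ ε, 0 < ε ∧ (Real.exp (S.L p) + ε) * ‖w‖ < 2 := by
    have c : ContinuousAt (fun ε : ℝ => (Real.exp (S.L p) + ε) * ‖w‖) 0 := by fun_prop
    have e := (c.eventually (gt_mem_nhds (by simpa using hn))).filter_mono
      (nhdsWithin_le_nhds (s := Ioi 0))
    obtain ⟨ε, a, b⟩ := (e.and self_mem_nhdsWithin).exists
    exact ⟨ε, b, a⟩
  have d1 : HasDerivAt (fun t => ((S.φ (-t) (p, θ1)).1 : ℂ)) (-S.V (p, θ1)) 0 := by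
    have a := S.hd_z (p, θ1) (-0)
    have := a.scomp (0 : ℝ) (hasDerivAt_neg (0 : ℝ))
    simpa [S.φ_zero, Function.comp_def] using this
  have d2 : HasDerivAt (fun t => ((S.φ t (p, θ2)).1 : ℂ)) (S.V (p, θ2)) 0 := by
    simpa [S.φ_zero] using S.hd_z (p, θ2) 0
  have d3 : HasDerivAt (fun t => ((S.φ t (p, θ2)).1 : ℂ) - (S.φ (-t) (p, θ1)).1) w 0 := by
    refine (d2.sub d1).congr_deriv ?_
    rw [hw]
    ring
  have s3 := (hasDerivAt_iff_tendsto_slope.1 d3).mono_left (nhdsGT_le_nhdsNE 0)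
  have a1 : HasDerivAt (fun t => ∫ r in (0 : ℝ)..(-t), lg P (p, θ1) r)
      (-(1 - (P.Θ p * S.V (p, θ1)).re)) 0 := by
    have a := hd_ac (P := P) (p, θ1)
    rw [← neg_zero] at a
    have := a.scomp (0 : ℝ) (hasDerivAt_neg (0 : ℝ))
    simpa [Function.comp_def] using this
  have a2 := (hd_ac (P := P) (p, θ2)).sub a1
  have s2 := (hasDerivAt_iff_tendsto_slope.1 a2).mono_left (nhdsGT_le_nhdsNE 0)
  have cf : Continuous fun δ : ℂ => (Real.exp (S.L p) + ε) * ‖δ‖ - (P.Θ p * δ).re := by fun_prop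
  have s4 := (cf.tendsto w).comp s3
  have lt : (Real.exp (S.L p) + ε) * ‖w‖ - (P.Θ p * w).re <
      1 - (P.Θ p * S.V (p, θ2)).re - -(1 - (P.Θ p * S.V (p, θ1)).re) := by
    rw [hw, mul_add (P.Θ p), Complex.add_re]
    rw [hw] at hε'
    linarith
  have tn : Tendsto (fun t : ℝ => ((S.φ (-t) (p, θ1)).1, (S.φ t (p, θ2)).1)) (𝓝[>] 0) (𝓝 (p, p)) := by
    have c : Continuous fun t : ℝ => ((S.φ (-t) (p, θ1)).1, (S.φ t (p, θ2)).1) :=
      ((cφ (p, θ1)).comp continuous_neg).fst.prodMk (cφ (p, θ2)).fst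
    have := (c.tendsto 0).mono_left (nhdsWithin_le_nhds (s := Ioi 0))
    simpa [S.φ_zero] using this
  filter_upwards [s4.eventually_lt s2 lt, tn.eventually (ph_up h p hε), self_mem_nhdsWithin]
    with t k1 k2 ht
  have ht : (0 : ℝ) < t := ht
  have o1 := h.orb (p, θ1) (-t) 0 (by linarith)
  have o2 := h.orb (p, θ2) 0 t ht.le
  rw [S.φ_zero] at o1 o2
  rw [o1, o2, intervalIntegral.integral_symm]
  simp only [Function.comp, slope_def_module, sub_zero, neg_zero, S.φ_zero,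
    sub_self, intervalIntegral.integral_same, Pi.sub_apply, Complex.real_smul] at k1 k2
  set δ := ((S.φ t (p, θ2)).1 : ℂ) - (S.φ (-t) (p, θ1)).1
  have e : (P.Θ p * (((t⁻¹ : ℝ) : ℂ) * δ)).re = t⁻¹ * (P.Θ p * δ).re := by
    rw [mul_left_comm, Complex.re_ofReal_mul]
  have e2 : ‖((t⁻¹ : ℝ) : ℂ) * δ‖ = t⁻¹ * ‖δ‖ := by
    rw [norm_mul, Complex.norm_real, Real.norm_of_nonneg (inv_pos.2 ht).le]
  rw [e, e2, smul_eq_mul, inv_mul_eq_div t (_ - _), lt_div_iff₀ ht] at k1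
  have e3 : ((Real.exp (S.L p) + ε) * (t⁻¹ * ‖δ‖) - t⁻¹ * (P.Θ p * δ).re) * t =
      (Real.exp (S.L p) + ε) * ‖δ‖ - (P.Θ p * δ).re := by
    field_simp
  rw [e3] at k1
  simp only [lg] at k1
  linarith

lemma cc (h : P.B1) (p : ℍ) (θ1 θ2 s t : ℝ) (hθ : ce θ1 ≠ ce θ2) (hs : 0 < s) (ht : 0 < t) :
    P.Ph (S.φ (-s) (p, θ1)).1 (S.φ t (p, θ2)).1 <
      P.Ph (S.φ (-s) (p, θ1)).1 p + P.Ph p (S.φ t (p, θ2)).1 := by
  obtain ⟨r, k1, k2⟩ := ((cc_small h p hθ).and (Ioo_mem_nhdsGT (lt_min hs ht))).exists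
  have r1 := k2.2.trans_le (min_le_left _ _)
  have r2 := k2.2.trans_le (min_le_right _ _)
  have a1 := ph_add h (p, θ1) (s := -s) (t := -r) (r := 0) (by linarith) (by linarith [k2.1])
  have a2 := ph_add h (p, θ2) (s := 0) (t := r) (r := t) k2.1.le r2.le
  rw [S.φ_zero] at a1 a2
  have b1 := h.tri (S.φ (-s) (p, θ1)).1 (S.φ (-r) (p, θ1)).1 (S.φ t (p, θ2)).1
  have b2 := h.tri (S.φ (-r) (p, θ1)).1 (S.φ r (p, θ2)).1 (S.φ t (p, θ2)).1
  simp only at a1 a2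
  linarith

/-- the symmetrised potential -/
def Ds (P : S.Pr) (p q : ℍ) : ℝ := P.Ph p q + P.Ph q p

lemma ds_mono (h : P.B1) (ξ : N) {s t : ℝ} (hs : 0 ≤ s) (ht : s ≤ t) :
    Ds P ξ.1 (S.φ s ξ).1 ≤ Ds P ξ.1 (S.φ t ξ).1 := by
  have a := ph_add h ξ hs ht
  have b := h.tri (S.φ s ξ).1 (S.φ t ξ).1 ξ.1
  rw [S.φ_zero] at a
  simp only [Ds]
  linarith

lemma ds_pos (hf : P.Fields) (h : P.B1) (ξ : N) {t : ℝ} (ht : 0 < t) :
    0 < Ds P ξ.1 (S.φ t ξ).1 := by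
  obtain ⟨C, hC⟩ := hf
  obtain ⟨α, u, h1, -, -, h2⟩ := hC (rot π ξ)
  obtain ⟨D, hD, hδ⟩ := h2 ξ.1
  have hV : S.V (ξ.1, α ξ.1) = -S.V ξ := by
    have : (ξ.1, α ξ.1) = rot π ξ := Prod.ext rfl h1
    rw [this, S.V_rot, ce_pi]
    ring
  have d1 : HasDerivAt (fun t => ((S.φ t ξ).1 : ℂ)) (S.V ξ) 0 := by
    simpa [S.φ_zero] using S.hd_z ξ 0
  have d2 : HasDerivAt (fun t => u (S.φ t ξ).1) (D (S.V ξ)) 0 := by
    have hD' : HasFDerivAt (fun w : ℂ => u (ofComplex w)) D ((S.φ 0 ξ).1 : ℂ) := by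
      rwa [S.φ_zero]
    simpa [Function.comp_def] using hD'.comp_hasDerivAt 0 d1
  have d3 := ((hd_ac (P := P) ξ).sub d2).add_const (u ξ.1)
  have e := slope_pos d3 (by simp [S.φ_zero]) (by
    rw [hδ, hV, div_neg, div_self (S.V_ne ξ)]
    simp)
  obtain ⟨r, k1, k2⟩ := (e.and (Ioo_mem_nhdsGT ht)).exists
  refine lt_of_lt_of_le ?_ (ds_mono h ξ k2.1.le k2.2.le)
  have o := h.orb ξ 0 r k2.1.le
  have l := h.le u (pot_sub h2) (S.φ r ξ).1 ξ.1
  rw [S.φ_zero] at o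
  simp only [Pi.sub_apply, lg] at k1
  simp only [Ds]
  linarith

lemma ds_inv (h : P.B1) {γ : SL(2, ℝ)} (hγ : γ ∈ S.Γ) (p q : ℍ) :
    Ds P (γ • p) (γ • q) = Ds P p q := by
  simp only [Ds, h.eqv γ hγ]
  ring

lemma ds_cont (h : P.B1) : Continuous fun x : ℍ × ℍ => Ds P x.1 x.2 :=
  h.cont.add (h.cont.comp continuous_swap)

lemma ds_self (h : P.B1) (p : ℍ) : Ds P p p = 0 := by
  have := h.orb (p, 0) 0 0 le_rfl
  rw [S.φ_zero] at this
  simp only [Ds]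
  simp only [intervalIntegral.integral_same] at this
  rw [this, add_zero]

lemma ds_unif (hf : P.Fields) (h : P.B1) {t : ℝ} (ht : 0 < t) :
    ∃ d, 0 < d ∧ ∀ ξ : N, d ≤ Ds P ξ.1 (S.φ t ξ).1 := by
  have c : Continuous fun ξ : N => Ds P ξ.1 (S.φ t ξ).1 :=
    (ds_cont h).comp (continuous_fst.prodMk
      (S.continuous_φ.comp (continuous_const.prodMk continuous_id)).fst)
  obtain ⟨d, hd, hd'⟩ := S.K0_compact.exists_forall_le' c.continuousOn
    (fun ξ _ => ds_pos hf h ξ ht)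
  refine ⟨d, hd, fun ξ => ?_⟩
  obtain ⟨γ, hγ, k, hk⟩ := S.exists_gg ξ
  have := hd' _ hk
  rw [S.φ_gg hγ] at this
  simpa only [gg, ds_inv h hγ] using this

lemma ds_small (h : P.B1) {d : ℝ} (hd : 0 < d) :
    ∃ r, 0 < r ∧ ∀ p q : ℍ, d ≤ Ds P p q → r ≤ dist q p := by
  have hc : IsCompact ((closedBall UpperHalfPlane.I S.R0 ×ˢ closedBall UpperHalfPlane.I (S.R0 + 1)) ∩
      {x : ℍ × ℍ | d ≤ Ds P x.1 x.2}) :=
    ((isCompact_closedBall _ _).prod (isCompact_closedBall _ _)).inter_right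
      (isClosed_le continuous_const (ds_cont h))
  obtain ⟨r, hr, hr'⟩ := hc.exists_forall_le' (f := fun x => dist x.2 x.1) (a := 0)
    (continuous_snd.dist continuous_fst).continuousOn (fun x hx => dist_pos.2 fun e => by
      have := hx.2
      simp only [mem_ofPred_eq, e, ds_self h] at this
      linarith)
  refine ⟨min r 1, lt_min hr one_pos, fun p q hpq => ?_⟩
  obtain ⟨γ, hγ, k⟩ := S.cov p
  rw [← dist_smul γ q p]
  by_cases h1 : dist (γ • q) (γ • p) ≤ 1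
  · refine (min_le_left _ _).trans (hr' (γ • p, γ • q) ⟨⟨k, ?_⟩, ?_⟩)
    · have := dist_triangle (γ • q) (γ • p) UpperHalfPlane.I
      simp only [mem_closedBall]
      linarith
    · simpa only [mem_ofPred_eq, ds_inv h hγ] using hpq
  · exact (min_le_right _ _).trans (not_le.1 h1).le

lemma nr (hf : P.Fields) (h : P.B1) (t0 : ℝ) (h0 : 0 < t0) :
    ∃ r, 0 < r ∧ ∀ ξ t, t0 ≤ |t| → r ≤ dist (S.φ t ξ).1 ξ.1 := by
  obtain ⟨d, hd, hd'⟩ := ds_unif hf h h0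
  obtain ⟨r, hr, hr'⟩ := ds_small h hd
  have key : ∀ (ξ : N) t, t0 ≤ t → r ≤ dist (S.φ t ξ).1 ξ.1 := fun ξ t ht =>
    hr' _ _ ((hd' ξ).trans (ds_mono h ξ h0.le ht))
  refine ⟨r, hr, fun ξ t ht => ?_⟩
  rcases le_abs.1 ht with h1 | h1
  · exact key ξ t h1
  · have := key (S.φ t ξ) (-t) h1
    rwa [← S.φ_add, neg_add_cancel, S.φ_zero, dist_comm] at this

end FB2

theorem b2 : B2St := fun _ _ hf h => ⟨FB2.cc h, FB2.nr hf h⟩

end

end Pool.Agent.Lib.MP_21f752_an
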