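import Pool.Agent.Lib.MP_21f752_an.FG

/-! Basic facts on orbits and walls. -/

namespace Pool.Agent.Lib.MP_21f752_an

open UpperHalfPlane Set Filter Topology Metric MeasureTheory
open scoped MatrixGroups ContDiff Real

noncomputable section

namespace FBase

variable (G : Geo)

lemma o_φ (ξ : N) (t s : ℝ) : G.o (G.φ t ξ) s = G.o ξ (s + t) := by
  simp only [Geo.o, G.φ_add]

lemma o_zero (ξ : N) : G.o ξ 0 = ξ.1 := by simp only [Geo.o, G.φ_zero]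

lemma o_gg {γ : SL(2, ℝ)} (hγ : γ ∈ G.Γ) (k : ℤ) (ξ : N) (t : ℝ) :
    G.o (gg γ (k * (2 * π)) ξ) t = γ • G.o ξ t := by
  simp only [Geo.o, G.φ_gg hγ]
  rfl

lemma o_rot (k : ℤ) (ξ : N) (t : ℝ) : G.o (rot (k * (2 * π)) ξ) t = G.o ξ t := by
  simp only [Geo.o, G.φ_rot]
  rfl

lemma cont_o (ξ : N) : Continuous (G.o ξ) :=
  continuous_fst.comp (G.continuous_φ.comp (continuous_id.prodMk continuous_const))

lemma sep {t0 : ℝ} (h : 0 < t0) : ∃ r, 0 < r ∧ ∀ ξ s t, t0 ≤ |t - s| → r ≤ dist (G.o ξ t) (G.o ξ s) := by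
  obtain ⟨r, r0, hr⟩ := G.nr t0 h
  refine ⟨r, r0, fun ξ s t hst => ?_⟩
  have := hr (G.φ s ξ) (t - s) hst
  rwa [← G.φ_add, sub_add_cancel] at this

lemma inj (ξ : N) : Function.Injective (G.o ξ) := by
  intro s t h
  by_contra hne
  obtain ⟨r, r0, hr⟩ := sep G (abs_pos.2 (sub_ne_zero.2 hne))
  have := hr ξ t s le_rfl
  rw [h, dist_self] at this
  exact absurd this (not_le.2 r0)

lemma f5 (ξ η : N) (s1 s2 t1 t2 : ℝ) (hs : s1 < s2) (ht : t1 < t2) (e1 : G.o ξ s1 = G.o η t1)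
    (e2 : G.o ξ s2 = G.o η t2) : ∃ k : ℤ, G.φ s1 ξ = rot (k * (2 * π)) (G.φ t1 η) := by
  by_cases h : ce (G.φ s1 ξ).2 = ce (G.φ t1 η).2
  · obtain ⟨k, hk⟩ := ce_eq_iff.1 h
    exact ⟨k, Prod.ext e1 hk⟩
  · exfalso
    have c := G.cc (G.o ξ s1) _ _ 1 (t2 - t1) h one_pos (sub_pos.2 ht)
    have a1 : ((G.o ξ s1, (G.φ s1 ξ).2) : N) = G.φ s1 ξ := rfl
    have a2 : ((G.o ξ s1, (G.φ t1 η).2) : N) = G.φ t1 η := by rw [e1]
    rw [a1, a2, ← G.φ_add, ← G.φ_add, sub_add_cancel] at c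
    have a := G.act ξ (-1 + s1) s1 s2 (by linarith) hs.le
    change G.Ph _ (G.o η t2) < G.Ph _ _ + G.Ph _ (G.o η t2) at c
    rw [← e2] at c
    exact absurd a c.ne

lemma cnt (R : ℝ) : ∃ M : ℕ, ∀ (ξ : N) (p : ℍ) (s : Finset ℤ),
    (∀ j ∈ s, dist (G.o ξ j) p ≤ R) → s.card ≤ M := by
  classical
  obtain ⟨r, r0, hr⟩ := sep G one_pos
  obtain ⟨T, -, hT, hc⟩ := finite_cover_balls_of_compact
    (isCompact_closedBall UpperHalfPlane.I (R + G.R0)) (half_pos r0)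
  refine ⟨hT.toFinset.card, fun ξ p s hs => ?_⟩
  obtain ⟨γ, -, hγ⟩ := G.cov p
  have : ∀ j ∈ s, ∃ c ∈ T, dist (γ • G.o ξ j) c < r / 2 := fun j hj => by
    have : γ • G.o ξ j ∈ closedBall UpperHalfPlane.I (R + G.R0) := by
      refine (dist_triangle _ (γ • p) _).trans ?_
      rw [dist_smul]
      exact add_le_add (hs j hj) hγ
    simpa using hc this
  choose! c hc1 hc2 using this
  refine Finset.card_le_card_of_injOn c (fun j hj => by simpa using hc1 j hj) fun i hi j hj e => ?_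
  by_contra hne
  have h1 : (1 : ℝ) ≤ |(i : ℝ) - j| := by exact_mod_cast Int.one_le_abs (sub_ne_zero.2 hne)
  have h2 := hr ξ j i h1
  have h3 := dist_triangle_right (γ • G.o ξ i) (γ • G.o ξ j) (c i)
  have h4 := hc2 i hi
  have h5 := hc2 j hj
  rw [← e] at h5
  rw [dist_smul] at h3
  linarith

lemma far (ξ : N) (p : ℍ) (R : ℝ) : ∃ T, ∀ t, T ≤ |t| → R ≤ dist (G.o ξ t) p := by
  obtain ⟨D, -, hD⟩ := G.toSys.disp 1
  obtain ⟨M, hM⟩ := cnt G (R + D)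
  have fin : {j : ℤ | dist (G.o ξ j) p ≤ R + D}.Finite := by
    by_contra h
    obtain ⟨s, hs, hc⟩ := Set.Infinite.exists_subset_card_eq h (M + 1)
    have := hM ξ p s fun j hj => hs hj
    omega
  obtain ⟨B, hB⟩ := (fin.image fun j : ℤ => |(j : ℝ)|).bddAbove
  refine ⟨B + 2, fun t ht => ?_⟩
  have f1 := Int.floor_le t
  have f2 := Int.lt_floor_add_one t
  have h1 : |t - (⌊t⌋ : ℝ)| ≤ 1 := abs_le.2 ⟨by linarith, by linarith⟩
  have h2 : ¬dist (G.o ξ (⌊t⌋ : ℤ)) p ≤ R + D := fun h => by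
    have := hB (mem_image_of_mem _ h)
    have := abs_sub_abs_le_abs_sub t (⌊t⌋ : ℝ)
    linarith
  have h3 := hD ξ (⌊t⌋ : ℤ) t h1
  have h4 := dist_triangle (G.o ξ (⌊t⌋ : ℤ)) (G.o ξ t) p
  change dist (G.o ξ _) (G.o ξ _) ≤ D at h3
  have h5 := dist_comm (G.o ξ (⌊t⌋ : ℤ)) (G.o ξ t)
  linarith [not_le.1 h2]

lemma top (ξ : N) (p : ℍ) : Tendsto (fun t => dist (G.o ξ t) p) atTop atTop :=
  tendsto_atTop.2 fun R => by
    obtain ⟨T, hT⟩ := far G ξ p R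
    exact (tendsto_abs_atTop_atTop.eventually_ge_atTop T).mono hT

lemma bot (ξ : N) (p : ℍ) : Tendsto (fun t => dist (G.o ξ t) p) atBot atTop :=
  tendsto_atTop.2 fun R => by
    obtain ⟨T, hT⟩ := far G ξ p R
    exact (tendsto_abs_atBot_atTop.eventually_ge_atTop T).mono hT

lemma acc (hd : Disc) {ι : Type} {F : Filter ι} [F.NeBot] {u : ι → ℍ} {p : ℍ}
    (h : Tendsto (fun t => dist (u t) p) F atTop) : ∃ l, ∀ ε, 0 < ε → ∃ᶠ t in F, u t ∈ Bl l ε := by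
  obtain ⟨w, hw, hc⟩ := (isCompact_closedBall (0 : ℂ) 1).exists_mapClusterPt
    (f := F) (u := fun t => cay (u t))
    (by
      rw [le_principal_iff, mem_map]
      exact Eventually.of_forall fun t => mem_closedBall_zero_iff.2 (hd.lt _).le)
  have fr : ∀ ε, 0 < ε → ∃ᶠ t in F, ‖cay (u t) - w‖ < ε := fun ε hε =>
    (mapClusterPt_iff_frequently.1 hc _ (ball_mem_nhds w hε)).mono fun t ht => by
      rwa [mem_ball, dist_eq_norm] at ht
  have n1 : ‖w‖ = 1 := by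
    refine le_antisymm (mem_closedBall_zero_iff.1 hw) (le_of_forall_pos_le_add fun ε hε => ?_)
    obtain ⟨R, hR⟩ := hd.near p (ε / 2) (half_pos hε)
    obtain ⟨t, h1, h2⟩ := ((fr _ (half_pos hε)).and_eventually (h.eventually_ge_atTop R)).exists
    obtain ⟨l, hl⟩ := hR _ h2
    have h3 : ‖cay (u t) - ce l‖ < ε / 2 := hl
    have h4 := norm_sub_norm_le (ce l) (cay (u t))
    have h5 := norm_sub_norm_le (cay (u t)) w
    rw [norm_ce, norm_sub_rev] at h4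
    linarith
  have e : ce (Complex.arg w) = w := by
    have := Complex.norm_mul_exp_arg_mul_I w
    rwa [n1, Complex.ofReal_one, one_mul] at this
  exact ⟨Complex.arg w, fun ε hε => (fr ε hε).mono fun t ht => by rw [Bl, e]; exact ht⟩

lemma tend_iff {ι : Type} {F : Filter ι} {u : ι → ℍ} {l : ℝ} :
    Tendsto (fun t => cay (u t)) F (𝓝 (ce l)) ↔ ∀ ε, 0 < ε → ∀ᶠ t in F, u t ∈ Bl l ε := by
  simp only [Metric.tendsto_nhds, dist_eq_norm]
  rfl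

lemma tend_smul {ι : Type} {F : Filter ι} {u : ι → ℍ} {l : ℝ} {γ : SL(2, ℝ)} {g : ℝ ≃o ℝ}
    (hg : Lift γ g) (h : Tendsto (fun t => cay (u t)) F (𝓝 (ce l))) :
    Tendsto (fun t => cay (γ • u t)) F (𝓝 (ce (g l))) :=
  tend_iff.2 fun ε hε => by
    obtain ⟨δ, d0, hδ⟩ := hg.fw l ε hε
    exact (tend_iff.1 h δ d0).mono fun t ht => hδ _ ht

lemma ce_shift (x : ℝ) (k : ℤ) : ce (x + k * (2 * π)) = ce x := ce_eq_iff.2 ⟨k, rfl⟩

lemma wφ (ξ : N) (x y t : ℝ) (h : G.Wl ξ x y) : G.Wl (G.φ t ξ) x y := by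
  refine ⟨?_, ?_, h.lt, h.lt2⟩
  · simp only [Geo.EndM, o_φ]
    exact h.m.comp (tendsto_atBot_add_const_right _ t tendsto_id)
  · simp only [Geo.EndP, o_φ]
    exact h.p.comp (tendsto_atTop_add_const_right _ t tendsto_id)

lemma wg (ξ : N) (x y : ℝ) (γ : SL(2, ℝ)) (hγ : γ ∈ G.Γ) (g : ℝ ≃o ℝ) (k : ℤ) (hg : Lift γ g)
    (h : G.Wl ξ x y) : G.Wl (gg γ (k * (2 * π)) ξ) (g x) (g y) := by
  refine ⟨?_, ?_, g.strictMono h.lt, ?_⟩
  · simp only [Geo.EndM, o_gg G hγ]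
    exact tend_smul hg h.m
  · simp only [Geo.EndP, o_gg G hγ]
    exact tend_smul hg h.p
  · rw [← hg.per]
    exact g.strictMono h.lt2

lemma wu (ξ : N) (x y x' y' : ℝ) (h : G.Wl ξ x y) (h' : G.Wl ξ x' y') :
    ∃ k : ℤ, x' = x + k * (2 * π) ∧ y' = y + k * (2 * π) := by
  obtain ⟨k, hk⟩ := ce_eq_iff.1 (tendsto_nhds_unique h'.m h.m)
  obtain ⟨j, hj⟩ := ce_eq_iff.1 (tendsto_nhds_unique h'.p h.p)
  have p0 : 0 < 2 * π := by positivity
  have a1 := h.lt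
  have a2 := h.lt2
  have a3 := h'.lt
  have a4 := h'.lt2
  have b1 : (k : ℝ) < j + 1 := lt_of_mul_lt_mul_right (by linarith) p0.le
  have b2 : (j : ℝ) < k + 1 := lt_of_mul_lt_mul_right (by linarith) p0.le
  have c1 : k < j + 1 := by exact_mod_cast b1
  have c2 : j < k + 1 := by exact_mod_cast b2
  obtain rfl : j = k := by omega
  exact ⟨j, hk, hj⟩

lemma ws (ξ : N) (x y : ℝ) (k : ℤ) (h : G.Wl ξ x y) :
    G.Wl ξ (x + k * (2 * π)) (y + k * (2 * π)) := by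
  refine ⟨?_, ?_, by linarith [h.lt], by linarith [h.lt2]⟩
  · rw [Geo.EndM, ce_shift]
    exact h.m
  · rw [Geo.EndP, ce_shift]
    exact h.p

end FBase

theorem base (hd : Disc) : BaseSt := fun G =>
  ⟨FBase.inj G, FBase.f5 G, FBase.cnt G, FBase.top G, FBase.bot G,
    fun ξ => FBase.acc hd (FBase.top G ξ ξ.1), fun ξ => FBase.acc hd (FBase.bot G ξ ξ.1),
    fun ξ _ _ h => ⟨FBase.cont_o G ξ, h.m, h.p, h.lt, h.lt2⟩, FBase.wφ G, FBase.wg G, FBase.wu G,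
    FBase.ws G⟩

end

end Pool.Agent.Lib.MP_21f752_an
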