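import Pool.Agent.Lib.MP_21f752_an.FA

/-! The flow box of a positive curve. -/

namespace Pool.Agent.Lib.MP_21f752_an

open UpperHalfPlane Set Filter Topology Metric Asymptotics

namespace FBox

lemma pairs {α : Type*} [TopologicalSpace α] {p : α} {P : α × α → Prop}
    (h : ∀ᶠ x in 𝓝 (p, p), P x) : ∃ U ∈ 𝓝 p, ∀ x ∈ U, ∀ y ∈ U, P (x, y) := by
  rw [nhds_prod_eq] at h
  exact (eventually_prod_self_iff (r := fun x y => P (x, y))).1 h

lemma loc_inv {α β : Type*} [TopologicalSpace α] [TopologicalSpace β] [Nonempty α] {F : α → β}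
    {p : α} (hi : ∀ᶠ x : α × α in 𝓝 (p, p), F x.2 = F x.1 → x.2 = x.1)
    (ho : 𝓝 (F p) ≤ map F (𝓝 p)) : ∃ g : β → α, (∀ᶠ x in 𝓝 p, g (F x) = x) ∧
      (∀ᶠ z in 𝓝 (F p), F (g z) = z) ∧ Tendsto g (𝓝 (F p)) (𝓝 p) := by
  obtain ⟨U, hU, h⟩ := pairs hi
  have h1 : ∀ᶠ x in 𝓝 p, Function.invFunOn F U (F x) = x :=
    mem_of_superset hU fun x hx =>
      InjOn.leftInvOn_invFunOn (fun x hx y hy e => h y hy x hx e) hx
  exact ⟨_, h1, ho (h1.mono fun x hx => congrArg F hx),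
    (tendsto_map' (tendsto_id.congr' (h1.mono fun x hx => hx.symm))).mono_left ho⟩

lemma open_mono {Y : ℝ → ℝ} {a c M : ℝ} (hc : 0 < c)
    (h1 : ∀ᶠ x : ℝ × ℝ in 𝓝 (a, a), x.1 ≤ x.2 → c * (x.2 - x.1) ≤ Y x.2 - Y x.1)
    (h2 : ∀ᶠ x : ℝ × ℝ in 𝓝 (a, a), |Y x.2 - Y x.1| ≤ M * |x.2 - x.1|) :
    𝓝 (Y a) ≤ map Y (𝓝 a) := by
  intro s hs
  obtain ⟨U, hU, h⟩ := pairs (h1.and h2)
  obtain ⟨r, r0, hr⟩ := nhds_basis_closedBall.mem_iff.1 (inter_mem hU hs)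
  rw [Real.closedBall_eq_Icc] at hr
  have ha : a ∈ Icc (a - r) (a + r) := ⟨by linarith, by linarith⟩
  have hl : a - r ∈ Icc (a - r) (a + r) := ⟨le_rfl, by linarith⟩
  have hu : a + r ∈ Icc (a - r) (a + r) := ⟨by linarith, le_rfl⟩
  have hY : ContinuousOn Y (Icc (a - r) (a + r)) :=
    (LipschitzOnWith.of_dist_le' (K := M) fun x hx y hy => (h y (hr hy).1 x (hr hx).1).2).continuousOn
  have k1 := (h _ (hr hl).1 _ (hr ha).1).1 ha.1
  have k2 := (h _ (hr ha).1 _ (hr hu).1).1 ha.2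
  refine mem_of_superset (Icc_mem_nhds (a := Y (a - r)) (b := Y (a + r)) (by nlinarith)
    (by nlinarith)) ((intermediate_value_Icc (by linarith) hY).trans ?_)
  rintro _ ⟨x, hx, rfl⟩
  exact (hr hx).2

lemma lip_tendsto {E : Type*} [NormedAddCommGroup E] {k : ℝ → E} {a M : ℝ}
    (h : ∀ᶠ x : ℝ × ℝ in 𝓝 (a, a), ‖k x.2 - k x.1‖ ≤ M * |x.2 - x.1|) :
    Tendsto k (𝓝 a) (𝓝 (k a)) := by
  rw [tendsto_iff_norm_sub_tendsto_zero]
  have c : Continuous fun η : ℝ => M * |η - a| := by fun_prop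
  refine squeeze_zero' (.of_forall fun _ => norm_nonneg _)
    ((Continuous.prodMk_right a).continuousAt.eventually h) ?_
  simpa using c.tendsto a

lemma t22 (t a : ℝ) : Tendsto (fun x : (ℝ × ℝ) × (ℝ × ℝ) => (x.1.2, x.2.2))
    (𝓝 ((t, a), (t, a))) (𝓝 (a, a)) := Continuous.tendsto' (by fun_prop) _ _ rfl

lemma t22' (t a : ℝ) : Tendsto (fun x : (ℝ × ℝ) × (ℝ × ℝ) => (x.2.2, x.1.2))
    (𝓝 ((t, a), (t, a))) (𝓝 (a, a)) := Continuous.tendsto' (by fun_prop) _ _ rfl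

lemma abs_snd (x : (ℝ × ℝ) × (ℝ × ℝ)) : |x.2.2 - x.1.2| ≤ ‖x.2 - x.1‖ := norm_snd_le (x.2 - x.1)

/-- a map that is strictly tangent to `(s, η) ↦ s + q η` is open and expanding -/
lemma box2 {u : ℝ × ℝ → ℂ} {q : ℝ → ℂ} {t a c M : ℝ} (hc : 0 < c) (hM : 0 ≤ M)
    (h1 : ∀ᶠ x : ℝ × ℝ in 𝓝 (a, a), x.1 ≤ x.2 → c * (x.2 - x.1) ≤ (q x.2 - q x.1).im)
    (h2 : ∀ᶠ x : ℝ × ℝ in 𝓝 (a, a), ‖q x.2 - q x.1‖ ≤ M * |x.2 - x.1|)
    (h3 : (fun x : (ℝ × ℝ) × (ℝ × ℝ) => u x.2 - u x.1 - ((x.2.1 - x.1.1 : ℝ) + (q x.2.2 - q x.1.2)))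
      =o[𝓝 ((t, a), (t, a))] fun x => x.2 - x.1) :
    𝓝 (u (t, a)) ≤ map u (𝓝 (t, a)) ∧
      ∃ K > 0, ∀ᶠ x : (ℝ × ℝ) × (ℝ × ℝ) in 𝓝 ((t, a), (t, a)), ‖x.2 - x.1‖ ≤ K * ‖u x.2 - u x.1‖ := by
  set K := 1 + (M + 1) / c with hK
  have K0 : 0 < K := by positivity
  have low : ∀ᶠ x : (ℝ × ℝ) × (ℝ × ℝ) in 𝓝 ((t, a), (t, a)),
      ‖x.2 - x.1‖ ≤ K * ‖((x.2.1 - x.1.1 : ℝ) : ℂ) + (q x.2.2 - q x.1.2)‖ := by
    filter_upwards [(t22 t a).eventually h1, (t22' t a).eventually h1, (t22 t a).eventually h2]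
      with x k1 k2 k3
    set w := ((x.2.1 - x.1.1 : ℝ) : ℂ) + (q x.2.2 - q x.1.2) with hw
    have e1 := abs_le.1 (Complex.abs_im_le_norm w)
    have e2 := Complex.abs_re_le_norm w
    have e3 := Complex.abs_re_le_norm (q x.2.2 - q x.1.2)
    have e4 : w.im = (q x.2.2).im - (q x.1.2).im := by simp [hw]
    have e5 : x.2.1 - x.1.1 = w.re - (q x.2.2 - q x.1.2).re := by simp [hw]
    simp only [Complex.sub_im] at k1 k2
    have k4 : |x.2.2 - x.1.2| ≤ ‖w‖ / c := by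
      rw [le_div_iff₀ hc]
      rcases le_total x.1.2 x.2.2 with o | o
      · rw [abs_of_nonneg (by linarith)]; linarith [k1 o]
      · rw [abs_of_nonpos (by linarith)]; linarith [k2 o]
    have k5 := mul_le_mul_of_nonneg_left k4 hM
    have k6 : K * ‖w‖ = ‖w‖ + M * (‖w‖ / c) + ‖w‖ / c := by rw [hK]; ring
    have k7 : 0 ≤ ‖w‖ / c := by positivity
    rw [Prod.norm_def, k6]
    refine max_le ?_ ?_
    · change |x.2.1 - x.1.1| ≤ _
      rw [e5]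
      linarith [abs_sub w.re (q x.2.2 - q x.1.2).re]
    · change |x.2.2 - x.1.2| ≤ _
      linarith [norm_nonneg w, mul_nonneg hM k7]
  refine ⟨?_, 2 * K, by positivity, ?_⟩
  · obtain ⟨Yi, y1, y2, y3⟩ := loc_inv (F := fun η => (q η).im) (p := a) (by
      filter_upwards [h1, (continuous_swap.tendsto' (a, a) (a, a) rfl).eventually h1] with x k1 k2 e
      simp only [Complex.sub_im, Prod.fst_swap, Prod.snd_swap] at k1 k2
      rcases le_total x.1 x.2 with o | o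
      · nlinarith [k1 o]
      · nlinarith [k2 o]) (open_mono hc h1 (h2.mono fun x hx =>
        (Complex.abs_im_le_norm (q x.2 - q x.1)).trans hx))
    set p : ℂ := t + q a with hp
    set g : ℂ → ℝ × ℝ := fun w => (w.re - (q (Yi w.im)).re, Yi w.im) with hg
    have i1 : Tendsto Complex.im (𝓝 p) (𝓝 (q a).im) :=
      Complex.continuous_im.tendsto' _ _ (by simp [hp])
    have g1 : Tendsto g (𝓝 p) (𝓝 (t, a)) := by
      refine Tendsto.prodMk_nhds ?_ (y3.comp i1)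
      simpa [hp] using (Complex.continuous_re.tendsto p).sub
        ((Complex.continuous_re.tendsto _).comp ((lip_tendsto h2).comp (y3.comp i1)))
    have g2 : ∀ᶠ w in 𝓝 p, ((g w).1 : ℂ) + q (g w).2 = w := (i1.eventually y2).mono fun w hw =>
      Complex.ext (by simp [hg]) (by simpa [hg] using hw)
    have g3 : g p = (t, a) := by simp [hg, hp, y1.self_of_nhds]
    have g4 : Tendsto (fun w : ℂ × ℂ => (g w.2, g w.1)) (𝓝 (p, p)) (𝓝 ((t, a), (t, a))) :=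
      (g1.comp (continuous_snd.tendsto (p, p))).prodMk_nhds (g1.comp (continuous_fst.tendsto (p, p)))
    have g5 : ∀ᶠ w : ℂ × ℂ in 𝓝 (p, p),
        (((g w.1).1 - (g w.2).1 : ℝ) : ℂ) + (q (g w.1).2 - q (g w.2).2) = w.1 - w.2 := by
      filter_upwards [(continuous_fst.tendsto (p, p)).eventually g2,
        (continuous_snd.tendsto (p, p)).eventually g2] with w k1 k2
      push_cast
      linear_combination k1 - k2
    have st : HasStrictFDerivAt (u ∘ g) (ContinuousLinearEquiv.refl ℝ ℂ : ℂ →L[ℝ] ℂ) p := by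
      refine .of_isLittleO (((h3.comp_tendsto g4).congr' (g5.mono fun w hw => ?_) .rfl).trans_isBigO
        (.of_bound K ?_))
      · simp only [Function.comp, hw]; rfl
      · filter_upwards [g4.eventually low, g5] with w k1 k2
        rwa [k2] at k1
    rw [← g3]
    refine st.map_nhds_eq_of_equiv.ge.trans ?_
    rw [← map_map, g3]
    exact map_mono g1
  · filter_upwards [low, h3.def (c := 1 / (2 * K)) (by positivity)] with x k1 k2
    have k3 := norm_sub_norm_le (((x.2.1 - x.1.1 : ℝ) : ℂ) + (q x.2.2 - q x.1.2)) (u x.2 - u x.1)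
    rw [norm_sub_rev] at k2
    have k4 := mul_le_mul_of_nonneg_left (k3.trans k2) K0.le
    have k5 : K * (1 / (2 * K) * ‖x.2 - x.1‖) = ‖x.2 - x.1‖ / 2 := by field_simp
    linarith

variable (S : Sys)

noncomputable def Lq (ξ : N) : (ℂ × ℝ) →L[ℝ] ℂ := LinearMap.toContinuousLinearMap
  { toFun := fun d => d.1 / S.V ξ
    map_add' := fun x y => by simp [add_div]
    map_smul' := fun c x => by simp [mul_div_assoc] }

noncomputable def L1 (ξ : N) : (ℂ × ℝ) →L[ℝ] ℝ := LinearMap.toContinuousLinearMap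
  { toFun := S.l1 ξ
    map_add' := fun x y => by simp [Sys.l1, add_div]
    map_smul' := fun c x => by simp [Sys.l1, mul_div_assoc] }

noncomputable def L2 (ξ : N) : (ℂ × ℝ) →L[ℝ] ℝ := LinearMap.toContinuousLinearMap
  { toFun := S.l2 ξ
    map_add' := fun x y => by simp [Sys.l2, add_div]; ring
    map_smul' := fun c x => by simp [Sys.l2, mul_div_assoc]; ring }

noncomputable def JL (ξ : N) (t : ℝ) : (ℂ × ℝ) →L[ℝ] ℂ × ℝ :=
  (fderiv ℝ S.Φ (t, emb ξ)).comp (ContinuousLinearMap.inr ℝ ℝ (ℂ × ℝ))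

lemma Lq_X (ξ : N) : Lq S ξ (S.X (emb ξ)) = 1 := by
  rw [S.X_emb]; exact div_self (S.V_ne ξ)

lemma L1_X (ξ : N) : L1 S ξ (S.X (emb ξ)) = 0 := by
  rw [S.X_emb]; change (S.V ξ / S.V ξ).im = 0; rw [div_self (S.V_ne ξ)]; rfl

lemma L2_X (ξ : N) : L2 S ξ (S.X (emb ξ)) = 0 := by
  rw [S.X_emb]; change S.l2 ξ _ = 0; simp [Sys.l2, div_self (S.V_ne ξ)]

/-- the Wronskian -/
lemma wr (ξ : N) (δ : ℂ × ℝ) (t : ℝ) :
    S.l1 ξ δ = (S.jq ξ δ t).im * S.jw ξ t - S.jz ξ δ t * S.jy ξ t := by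
  have h : ∀ s, HasDerivAt (fun s => (S.jq ξ δ s).im * S.jw ξ s - S.jz ξ δ s * S.jy ξ s) 0 s :=
    fun s => (((S.hd_jy ξ δ s).mul (S.hd_w ξ s)).sub
      ((S.hd_jz ξ δ s).mul (S.hd_y ξ s))).congr_deriv (by ring)
  rw [is_const_of_deriv_eq_zero (fun s => (h s).differentiableAt) (fun s => (h s).deriv) t 0]
  simp [S.jw_zero, S.jy_zero, S.jq_zero, Sys.l1]

variable {S} {κ : ℝ → N} {a C : ℝ}

lemma clip (h : Sys.CLip κ a) : ∃ M, 0 ≤ M ∧
    ∀ᶠ x : ℝ × ℝ in 𝓝 (a, a), ‖emb (κ x.2) - emb (κ x.1)‖ ≤ M * |x.2 - x.1| := by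
  obtain ⟨M, h⟩ := h
  exact ⟨|M|, abs_nonneg _, h.mono fun x hx =>
    hx.trans (mul_le_mul_of_nonneg_right (le_abs_self M) (abs_nonneg _))⟩

lemma strict (h : Sys.CLip κ a) (T : ℝ) :
    (fun x : (ℝ × ℝ) × (ℝ × ℝ) => emb (S.φ x.2.1 (κ x.2.2)) - emb (S.φ x.1.1 (κ x.1.2)) -
      ((x.2.1 - x.1.1) • S.X (emb (S.φ T (κ a))) + JL S (κ a) T (emb (κ x.2.2) - emb (κ x.1.2))))
      =o[𝓝 ((T, a), (T, a))] fun x => x.2 - x.1 := by
  obtain ⟨M, M0, h⟩ := clip h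
  have c : Tendsto (fun x : ℝ × ℝ => (x.1, emb (κ x.2))) (𝓝 (T, a)) (𝓝 (T, emb (κ a))) :=
    (continuous_fst.tendsto _).prodMk_nhds
      ((lip_tendsto (k := fun η => emb (κ η)) h).comp (continuous_snd.tendsto (T, a)))
  have hs := ((S.Φ_cd (p := (T, emb (κ a))) (κ a).1.im_pos).hasStrictFDerivAt
    (by simp)).isLittleO.comp_tendsto ((c.comp (continuous_snd.tendsto ((T, a), (T, a)))).prodMk_nhds
      (c.comp (continuous_fst.tendsto ((T, a), (T, a)))))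
  refine (hs.congr_left fun x => ?_).trans_isBigO (.of_bound (M + 1) ?_)
  · simp only [Function.comp, Prod.mk_sub_mk, S.fderiv_Φ]; rfl
  · filter_upwards [(t22 T a).eventually h] with x hx
    have h1 := abs_snd x
    have h2 : |x.2.1 - x.1.1| ≤ ‖x.2 - x.1‖ := norm_fst_le (x.2 - x.1)
    have h3 := mul_le_mul_of_nonneg_left h1 M0
    have h4 := norm_nonneg (x.2 - x.1)
    refine max_le (h2.trans (by nlinarith)) (hx.trans (by linarith))

lemma app (h : Sys.CLip κ a) (T : ℝ) {L : (ℂ × ℝ) →L[ℝ] ℝ} (hL : L (S.X (emb (S.φ T (κ a)))) = 0)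
    {ε : ℝ} (hε : 0 < ε) : ∀ᶠ x : (ℝ × ℝ) × (ℝ × ℝ) in 𝓝 ((T, a), (T, a)),
      |L (emb (S.φ x.2.1 (κ x.2.2)) - emb (S.φ x.1.1 (κ x.1.2))) -
        L (JL S (κ a) T (emb (κ x.2.2) - emb (κ x.1.2)))| ≤ ε * ‖x.2 - x.1‖ :=
  (((L.isBigO_comp _ _).trans_isLittleO (strict h T)).def hε).mono fun x hx => by
    rwa [map_sub, map_add, map_smul, hL, smul_zero, zero_add] at hx

lemma coneJ (hC : 0 < C) (h : S.PC C κ a) (T : ℝ) {ε : ℝ} (hε : 0 < ε) :
    ∀ᶠ x : ℝ × ℝ in 𝓝 (a, a), x.1 ≤ x.2 →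
      |L2 S (S.φ T (κ a)) (JL S (κ a) T (emb (κ x.2) - emb (κ x.1)))| ≤
        C * L1 S (S.φ T (κ a)) (JL S (κ a) T (emb (κ x.2) - emb (κ x.1))) + ε * (x.2 - x.1) := by
  obtain ⟨e, e0, he⟩ : ∃ e > 0, (C + 2) * e = ε := ⟨ε / (C + 2), by positivity, by field_simp⟩
  have c : Tendsto (fun x : ℝ × ℝ => ((T, x.1), (T, x.2))) (𝓝 (a, a)) (𝓝 ((T, a), (T, a))) :=
    Continuous.tendsto' (by fun_prop) _ _ rfl
  filter_upwards [h.cone T e e0, c.eventually (app h.lip T (L1_X S _) e0),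
    c.eventually (app h.lip T (L2_X S _) e0)] with x k1 k2 k3 o
  have n : ‖((T, x.2) : ℝ × ℝ) - (T, x.1)‖ = x.2 - x.1 := by
    simp [Prod.norm_def, abs_of_nonneg (sub_nonneg.2 o), o]
  simp only [n] at k2 k3
  have k4 : |L2 S _ (_ - _)| ≤ C * L1 S _ (_ - _) + _ := k1 o
  have k5 := mul_le_mul_of_nonneg_left (abs_le.1 k2).2 hC.le
  rw [← he]
  rw [abs_le] at k3 k4 ⊢
  constructor <;> linarith [k3.1, k3.2, k4.1, k4.2]

lemma lowJ (hC : 0 < C) (h : S.PC C κ a) (T : ℝ) : ∃ c > 0, ∀ᶠ x : ℝ × ℝ in 𝓝 (a, a), x.1 ≤ x.2 →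
    c * (x.2 - x.1) ≤ L1 S (S.φ T (κ a)) (JL S (κ a) T (emb (κ x.2) - emb (κ x.1))) := by
  obtain ⟨c, c0, hc⟩ := h.tr
  obtain ⟨K, K0, K1, K2⟩ : ∃ K > 0, |S.jw (κ a) T| ≤ K ∧ |S.jy (κ a) T| ≤ K :=
    ⟨|S.jw (κ a) T| + |S.jy (κ a) T| + 1, by positivity,
      by linarith [abs_nonneg (S.jy (κ a) T)], by linarith [abs_nonneg (S.jw (κ a) T)]⟩
  obtain ⟨e, e0, he⟩ : ∃ e > 0, 2 * K * (C + 2) * e = c * C :=
    ⟨c * C / (2 * K * (C + 2)), by positivity, by field_simp⟩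
  refine ⟨c / (2 * K * (1 + C)), by positivity, ?_⟩
  filter_upwards [hc, coneJ hC h T e0] with x k1 k2 o
  have k3 := (k1 o).trans (wr S (κ a) _ T).le
  have k4 := k2 o
  change _ ≤ L1 S (S.φ T (κ a)) (JL S (κ a) T _) * _ - L2 S (S.φ T (κ a)) (JL S (κ a) T _) * _ at k3
  generalize L1 S (S.φ T (κ a)) _ = y, L2 S (S.φ T (κ a)) _ = z at *
  have d0 := sub_nonneg.2 o
  generalize x.2 - x.1 = d at *
  have k5 : y * S.jw (κ a) T ≤ |y| * K :=
    (le_abs_self _).trans (by rw [abs_mul]; exact mul_le_mul_of_nonneg_left K1 (abs_nonneg _))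
  have k6 : -(z * S.jy (κ a) T) ≤ |z| * K :=
    (neg_le_abs _).trans (by rw [abs_mul]; exact mul_le_mul_of_nonneg_left K2 (abs_nonneg _))
  have k7 : C * |y| ≤ C * y + 2 * (e * d) := by
    have := mul_nonneg e0.le d0
    rcases abs_cases y with k | k <;> rw [k.1] <;> linarith [abs_nonneg z]
  have k8 : C * (c * d) ≤ C * (|y| * K + (C * y + e * d) * K) :=
    mul_le_mul_of_nonneg_left (by nlinarith) hC.le
  have k9 := mul_le_mul_of_nonneg_left k7 K0.le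
  have k10 : 2 * K * (C + 2) * e * d = c * C * d := by rw [he]
  rw [div_mul_eq_mul_div, div_le_iff₀ (by positivity)]
  refine le_of_mul_le_mul_left ?_ hC
  nlinarith

lemma bndJ (h : Sys.CLip κ a) {F : Type*} [NormedAddCommGroup F] [NormedSpace ℝ F]
    (L : (ℂ × ℝ) →L[ℝ] F) : ∃ M, 0 ≤ M ∧
      ∀ᶠ x : ℝ × ℝ in 𝓝 (a, a), ‖L (emb (κ x.2) - emb (κ x.1))‖ ≤ M * |x.2 - x.1| := by
  obtain ⟨M, M0, h⟩ := clip h
  exact ⟨‖L‖ * M, by positivity, h.mono fun x hx => mul_assoc ‖L‖ M _ ▸ L.le_opNorm_of_le hx⟩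

end FBox

open FBox

theorem box : BoxSt := by
  intro S C κ a t hC h
  set ξ := S.φ t (κ a) with hξ
  set u : ℝ × ℝ → ℂ := fun x => Lq S ξ (emb (S.φ x.1 (κ x.2))) with hu
  set q : ℝ → ℂ := fun η => Lq S ξ (JL S (κ a) t (emb (κ η))) with hq
  have v0 := S.V_ne ξ
  have eq : ∀ x y, q y - q x = Lq S ξ (JL S (κ a) t (emb (κ y) - emb (κ x))) := fun x y => by
    simp only [hq, map_sub]
  obtain ⟨c, c0, h1⟩ := lowJ hC h t
  replace h1 : ∀ᶠ x : ℝ × ℝ in 𝓝 (a, a), x.1 ≤ x.2 → c * (x.2 - x.1) ≤ (q x.2 - q x.1).im :=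
    h1.mono fun x hx => by rw [eq]; exact hx
  obtain ⟨M, M0, h2⟩ := bndJ h.lip ((Lq S ξ).comp (JL S (κ a) t))
  have h3 : (fun x : (ℝ × ℝ) × (ℝ × ℝ) => u x.2 - u x.1 - ((x.2.1 - x.1.1 : ℝ) +
      (q x.2.2 - q x.1.2))) =o[𝓝 ((t, a), (t, a))] fun x => x.2 - x.1 :=
    (((Lq S ξ).isBigO_comp _ _).trans_isLittleO (strict h.lip t)).congr_left fun x => by
      rw [map_sub, map_sub, map_add, map_smul, Lq_X, eq, Complex.real_smul, mul_one]
  obtain ⟨ho, K, K0, hK⟩ := box2 c0 M0 h1 (h2.mono fun x hx => by rw [eq]; exact hx) h3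
  have h4 : ∀ ε > 0, ∀ᶠ x : (ℝ × ℝ) × (ℝ × ℝ) in 𝓝 ((t, a), (t, a)), x.2.2 ≤ x.1.2 →
      (u x.2 - u x.1).im + c * (x.1.2 - x.2.2) ≤ ε * ‖x.2 - x.1‖ := fun ε hε => by
    filter_upwards [h3.def hε, (t22' t a).eventually h1] with x k1 k2 o
    have k3 := (Complex.im_le_norm _).trans k1
    have k4 := k2 o
    simp only [Complex.sub_im, Complex.add_im, Complex.ofReal_im] at k3 k4 ⊢
    linarith
  obtain ⟨iv, i1, i2, i3⟩ := loc_inv (F := fun x : ℝ × ℝ => (S.φ x.1 (κ x.2)).1) (p := (t, a))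
    (hK.mono fun x hx e => by
      have : u x.2 = u x.1 := congrArg (fun z : ℍ => (z : ℂ) / S.V ξ) e
      rwa [this, sub_self, norm_zero, mul_zero, norm_le_zero_iff, sub_eq_zero] at hx) (by
      have i : Function.Injective fun z : ℍ => (z : ℂ) / S.V ξ := fun z w e =>
        UpperHalfPlane.ext ((div_left_inj' v0).1 e)
      have c : Continuous fun z : ℍ => (z : ℂ) / S.V ξ := continuous_coe.div_const _
      rw [← comap_map (f := map _ _) i, map_map, ← map_le_iff_le_comap]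
      exact (c.tendsto _).trans ho)
  have i4 : Tendsto (fun w : ℍ × ℍ => (iv w.1, iv w.2)) (𝓝 (ξ.1, ξ.1)) (𝓝 ((t, a), (t, a))) :=
    (i3.comp (continuous_fst.tendsto (ξ.1, ξ.1))).prodMk_nhds
      (i3.comp (continuous_snd.tendsto (ξ.1, ξ.1)))
  have i5 : ∀ᶠ w : ℍ × ℍ in 𝓝 (ξ.1, ξ.1), (S.φ (iv w.1).1 (κ (iv w.1).2)).1 = w.1 ∧
      (S.φ (iv w.2).1 (κ (iv w.2).2)).1 = w.2 :=
    ((continuous_fst.tendsto (ξ.1, ξ.1)).eventually i2).and
      ((continuous_snd.tendsto (ξ.1, ξ.1)).eventually i2)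
  have i6 : ∀ᶠ w : ℍ × ℍ in 𝓝 (ξ.1, ξ.1),
      u (iv w.2) - u (iv w.1) = ((w.2 : ℂ) - w.1) / S.V ξ := i5.mono fun w hw => by
    rw [sub_div, ← hw.1, ← hw.2, hw.1, hw.2]
    conv_rhs => rw [← hw.1, ← hw.2]
    rfl
  refine ⟨iv, i1, i2, i3, fun τ ε hε => ?_, ?_⟩
  · have e0 : (ξ.1, (S.φ (iv ξ.1).1 (κ (iv ξ.1).2)).2) = ξ := by
      rw [show iv ξ.1 = (t, a) from i1.self_of_nhds]
    obtain ⟨B1, b1, k1⟩ := bndJ h.lip ((L1 S (S.φ (τ + t) (κ a))).comp (JL S (κ a) (τ + t)))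
    obtain ⟨B2, b2, k2⟩ := bndJ h.lip ((L2 S (S.φ (τ + t) (κ a))).comp (JL S (κ a) (τ + t)))
    have n0 := norm_pos_iff.2 v0
    obtain ⟨e, e1, he⟩ : ∃ e > 0, (2 * C + 2) * e * K = ε * ‖S.V ξ‖ :=
      ⟨ε * ‖S.V ξ‖ / ((2 * C + 2) * K), by positivity, by field_simp⟩
    obtain ⟨e', e2, he'⟩ : ∃ e' > 0, (B1 + B2 + 1) * e' = c * e :=
      ⟨c * e / (B1 + B2 + 1), by positivity, by field_simp⟩
    have sh : Tendsto (fun x : (ℝ × ℝ) × (ℝ × ℝ) => ((τ + x.1.1, x.1.2), (τ + x.2.1, x.2.2)))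
        (𝓝 ((t, a), (t, a))) (𝓝 ((τ + t, a), (τ + t, a))) :=
      Continuous.tendsto' (by fun_prop) _ _ rfl
    have key : ∀ᶠ x : (ℝ × ℝ) × (ℝ × ℝ) in 𝓝 ((t, a), (t, a)), 0 ≤ (u x.2 - u x.1).im →
        |L2 S (S.φ (τ + t) (κ a)) (emb (S.φ (τ + x.2.1) (κ x.2.2)) - emb (S.φ (τ + x.1.1) (κ x.1.2)))|
          ≤ C * L1 S (S.φ (τ + t) (κ a)) (emb (S.φ (τ + x.2.1) (κ x.2.2)) -
            emb (S.φ (τ + x.1.1) (κ x.1.2))) + (2 * C + 2) * e * ‖x.2 - x.1‖ := by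
      filter_upwards [sh.eventually (app h.lip (τ + t) (L1_X S _) e1),
        sh.eventually (app h.lip (τ + t) (L2_X S _) e1), (t22 t a).eventually k1,
        (t22 t a).eventually k2, (t22 t a).eventually (coneJ hC h (τ + t) e1), h4 e' e2]
        with x a1 a2 a3 a4 a5 a6 o
      have n : ((τ + x.2.1, x.2.2) : ℝ × ℝ) - (τ + x.1.1, x.1.2) = x.2 - x.1 := by
        ext <;> simp
      simp only [n, ContinuousLinearMap.comp_apply, Real.norm_eq_abs] at a1 a2 a3 a4 a5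
      have a7 := abs_snd x
      have a8 := norm_nonneg (x.2 - x.1)
      generalize ‖x.2 - x.1‖ = r, L1 S _ (JL S _ _ _) = y, L2 S _ (JL S _ _ _) = z,
        L1 S _ (_ - _) = y', L2 S _ (_ - _) = z' at *
      have a9 := mul_nonneg e1.le a8
      have a10 := mul_le_mul_of_nonneg_left (abs_le.1 a1).1 hC.le
      have a11 := mul_nonneg hC.le a9
      have a12 := abs_add_le (z' - z) z
      rw [sub_add_cancel] at a12
      rcases le_total x.1.2 x.2.2 with o' | o'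
      · have := mul_le_mul_of_nonneg_left ((le_abs_self _).trans a7) e1.le
        linarith [a5 o']
      · rw [abs_sub_comm x.2.2, abs_of_nonneg (sub_nonneg.2 o')] at a3 a4
        have d0 := sub_nonneg.2 o'
        have a13 := a6 o'
        generalize x.1.2 - x.2.2 = d at *
        have a14 : (B1 + B2 + 1) * d ≤ e * r := le_of_mul_le_mul_left (by
          have := mul_le_mul_of_nonneg_left (show c * d ≤ e' * r by linarith)
            (show 0 ≤ B1 + B2 + 1 by positivity)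
          rw [← mul_assoc _ e', he'] at this
          linarith) c0
        have a15 := mul_nonneg b1 d0
        have a16 := mul_nonneg b2 d0
        have a17 := mul_le_mul_of_nonneg_left (show -(e * r) ≤ y by
          linarith [(abs_le.1 a3).1]) hC.le
        linarith
    filter_upwards [i4.eventually key, i4.eventually hK, i5, i6] with w a1 a2 a3 a4
    have a5 : ∀ z : ℍ, (S.φ (iv z).1 (κ (iv z).2)).1 = z →
        S.φ τ (z, (S.φ (iv z).1 (κ (iv z).2)).2) = S.φ (τ + (iv z).1) (κ (iv z).2) := fun z hz => by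
      rw [S.φ_add]; congr 1; exact Prod.ext hz.symm rfl
    simp only [a4] at a1 a2
    rw [e0, Sys.df, a5 _ a3.1, a5 _ a3.2, hξ, ← S.φ_add]
    refine fun o => (a1 o).trans (add_le_add le_rfl ?_)
    refine (mul_le_mul_of_nonneg_left a2 (by positivity)).trans_eq ?_
    rw [← mul_assoc, he, norm_div]
    field_simp
  · filter_upwards [i4.eventually (h4 (1 / (2 * K)) (by positivity)), i4.eventually hK, i6]
      with w a1 a2 a3 o
    simp only [a3] at a1 a2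
    refine lt_of_not_ge fun o' => ?_
    have a4 := a1 o'
    have a5 := mul_nonneg c0.le (sub_nonneg.2 o')
    have a6 := Complex.norm_le_abs_re_add_abs_im (((w.2 : ℂ) - w.1) / S.V ξ)
    have a7 := mul_le_mul_of_nonneg_left a2 (show 0 ≤ 1 / (2 * K) by positivity)
    rw [abs_of_nonneg ((abs_nonneg _).trans o.le)] at a6
    rw [← mul_assoc, show 1 / (2 * K) * K = 1 / 2 by field_simp] at a7
    linarith

end Pool.Agent.Lib.MP_21f752_an
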