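import Pool.Agent.Lib.MP_21f752_an.FC

/-! Elementary facts on linking components. -/

namespace Pool.Agent.Lib.MP_21f752_an

open Set Filter Topology
open scoped Real

namespace FCe1

open CW

variable {C : CW}

lemma perZ {g : ℝ ≃o ℝ} (hg : g ∈ C.G) (t : ℝ) (j : ℤ) :
    g (t + j * (2 * π)) = g t + j * (2 * π) := by
  induction j using Int.induction_on with
  | zero => simp
  | succ i ih =>
    have := C.cg.per g hg (t + (i : ℤ) * (2 * π))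
    rw [ih] at this
    push_cast at this ⊢
    rw [show t + (i + 1) * (2 * π) = t + i * (2 * π) + 2 * π by ring, this]
    ring
  | pred i ih =>
    have := C.cg.per g hg (t + (-(i : ℤ) - 1 : ℤ) * (2 * π))
    push_cast at this ih ⊢
    rw [show t + (-(i : ℝ) - 1) * (2 * π) + 2 * π = t + -(i : ℝ) * (2 * π) by ring, ih] at this
    linarith

lemma perS {g : ℝ ≃o ℝ} (hg : g ∈ C.G) (t : ℝ) : g (t - 2 * π) = g t - 2 * π := by
  have := C.cg.per g hg (t - 2 * π)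
  rw [sub_add_cancel] at this
  linarith

lemma exT (C : CW) (j : ℤ) : ∃ T ∈ C.G, ∀ t, T t = t + j * (2 * π) := by
  obtain ⟨T, hT, h⟩ := C.cg.sh
  induction j using Int.induction_on with
  | zero => exact ⟨1, C.G.one_mem, fun t => by simp⟩
  | succ i ih =>
    obtain ⟨U, hU, h2⟩ := ih
    refine ⟨T * U, C.G.mul_mem hT hU, fun t => ?_⟩
    change T (U t) = _
    rw [h, h2]
    push_cast
    ring
  | pred i ih =>
    obtain ⟨U, hU, h2⟩ := ih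
    refine ⟨T⁻¹ * U, C.G.mul_mem (C.G.inv_mem hT) hU, fun t => ?_⟩
    change T.symm (U t) = _
    rw [OrderIso.symm_apply_eq, h, h2]
    push_cast
    ring

lemma inv_ap (g : ℝ ≃o ℝ) (t : ℝ) : g⁻¹ (g t) = t := g.symm_apply_apply t

lemma ap_inv (g : ℝ ≃o ℝ) (t : ℝ) : g (g⁻¹ t) = t := g.apply_symm_apply t

lemma lt_ap {g : ℝ ≃o ℝ} {s t : ℝ} (h : g⁻¹ t < s) : t < g s := by
  have := g.strictMono h
  rwa [ap_inv] at this

lemma ap_lt {g : ℝ ≃o ℝ} {s t : ℝ} (h : s < g⁻¹ t) : g s < t := by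
  have := g.strictMono h
  rwa [ap_inv] at this

lemma mem_iff {k u v : C.W} (h : Relation.EqvGen C.Rel u v) : u ∈ K k ↔ v ∈ K k :=
  ⟨fun a => Relation.EqvGen.trans _ _ _ a h,
    fun a => Relation.EqvGen.trans _ _ _ a (Relation.EqvGen.symm _ _ h)⟩

lemma self_mem (k : C.W) : k ∈ K k := Relation.EqvGen.refl k

lemma lk_iff {k u v : C.W} (h : C.Lk u v) : u ∈ K k ↔ v ∈ K k :=
  mem_iff (Relation.EqvGen.rel _ _ (Or.inl h))

lemma sh_iff {k u v : C.W} (j : ℤ) (h1 : C.x v = C.x u + j * (2 * π))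
    (h2 : C.y v = C.y u + j * (2 * π)) : u ∈ K k ↔ v ∈ K k :=
  mem_iff (Relation.EqvGen.rel _ _ (Or.inr ⟨j, h1, h2⟩))

lemma mem_trans {k u v : C.W} (h : u ∈ K k) (h2 : v ∈ K u) : v ∈ K k := (mem_iff h2).1 h

lemma exW (w : C.W) (j : ℤ) :
    ∃ w', C.x w' = C.x w + j * (2 * π) ∧ C.y w' = C.y w + j * (2 * π) := by
  obtain ⟨T, hT, h⟩ := exT C j
  obtain ⟨w', a, b⟩ := C.act T hT w
  exact ⟨w', by rw [a, h], by rw [b, h]⟩

lemma exK {k w : C.W} (hw : w ∈ K k) (j : ℤ) :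
    ∃ w' ∈ K k, C.x w' = C.x w + j * (2 * π) ∧ C.y w' = C.y w + j * (2 * π) := by
  obtain ⟨w', a, b⟩ := exW w j
  exact ⟨w', (sh_iff j a b).1 hw, a, b⟩

lemma transport {g : ℝ ≃o ℝ} (hg : g ∈ C.G) {a b : C.W} (h : Relation.EqvGen C.Rel a b) :
    ∀ a' b', C.x a' = g (C.x a) → C.y a' = g (C.y a) → C.x b' = g (C.x b) → C.y b' = g (C.y b) →
      Relation.EqvGen C.Rel a' b' := by
  induction h with
  | rel a b h =>
    intro a' b' h1 h2 h3 h4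
    refine Relation.EqvGen.rel _ _ ?_
    rcases h with ⟨p1, p2, p3, p4⟩ | ⟨j, p1, p2⟩
    · refine Or.inl ⟨?_, ?_, ?_, ?_⟩
      · rw [h1, h3]; exact g.strictMono p1
      · rw [h2, h3]; exact g.strictMono p2
      · rw [h2, h4]; exact g.strictMono p3
      · rw [h1, h4, ← C.cg.per g hg]; exact g.strictMono p4
    · exact Or.inr ⟨j, by rw [h1, h3, p1, perZ hg], by rw [h2, h4, p2, perZ hg]⟩
  | refl a =>
    intro a' b' h1 h2 h3 h4
    exact Relation.EqvGen.rel _ _ (Or.inr ⟨0, by simp [h1, h3], by simp [h2, h4]⟩)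
  | symm a b _ ih =>
    intro a' b' h1 h2 h3 h4
    exact Relation.EqvGen.symm _ _ (ih _ _ h3 h4 h1 h2)
  | trans a b c _ _ ih1 ih2 =>
    intro a' c' h1 h2 h3 h4
    obtain ⟨b', p1, p2⟩ := C.act g hg b
    exact Relation.EqvGen.trans _ _ _ (ih1 _ _ h1 h2 p1 p2) (ih2 _ _ p1 p2 h3 h4)

variable {k : C.W}

lemma s_of {g : ℝ ≃o ℝ} (hg : g ∈ C.G) {w w' : C.W} (hw : w ∈ K k) (hw' : w' ∈ K k)
    (h1 : C.x w' = g (C.x w)) (h2 : C.y w' = g (C.y w)) : Stab k g := by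
  refine ⟨hg, fun v v' p1 p2 => ⟨fun a => ?_, fun a => ?_⟩⟩
  · refine (mem_iff (transport (C.G.inv_mem hg) (a := w') (b := v')
      (Relation.EqvGen.trans _ _ _ (Relation.EqvGen.symm _ _ hw') a) w v ?_ ?_ ?_ ?_)).1 hw
    · rw [h1, inv_ap]
    · rw [h2, inv_ap]
    · rw [p1, inv_ap]
    · rw [p2, inv_ap]
  · exact (mem_iff (transport hg (a := w) (b := v)
      (Relation.EqvGen.trans _ _ _ (Relation.EqvGen.symm _ _ hw) a) w' v' h1 h2 p1 p2)).1 hw'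

lemma s_inv {g : ℝ ≃o ℝ} (h : Stab k g) : Stab k g⁻¹ :=
  ⟨C.G.inv_mem h.1, fun w w' p1 p2 =>
    (h.2 w' w (by rw [p1, ap_inv]) (by rw [p2, ap_inv])).symm⟩

lemma s_mul {g h : ℝ ≃o ℝ} (a : Stab k g) (b : Stab k h) : Stab k (g * h) := by
  refine ⟨C.G.mul_mem a.1 b.1, fun w w' p1 p2 => ?_⟩
  obtain ⟨m, q1, q2⟩ := C.act h b.1 w
  exact (a.2 m w' (by rw [p1, q1]; rfl) (by rw [p2, q2]; rfl)).trans (b.2 w m q1 q2)

lemma s_sh {g : ℝ ≃o ℝ} (hg : g ∈ C.G) (j : ℤ) (h : ∀ t, g t = t + j * (2 * π)) : Stab k g :=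
  ⟨hg, fun _ _ p1 p2 => (sh_iff j (by rw [p1, h]) (by rw [p2, h])).symm⟩

lemma s_act {g : ℝ ≃o ℝ} (h : Stab k g) {w : C.W} (hw : w ∈ K k) :
    ∃ w' ∈ K k, C.x w' = g (C.x w) ∧ C.y w' = g (C.y w) := by
  obtain ⟨w', a, b⟩ := C.act g h.1 w
  exact ⟨w', (h.2 w w' a b).2 hw, a, b⟩

lemma x_en {w : C.W} (hw : w ∈ K k) : C.x w ∈ En k := ⟨w, hw, Or.inl rfl⟩

lemma y_en {w : C.W} (hw : w ∈ K k) : C.y w ∈ En k := ⟨w, hw, Or.inr rfl⟩

lemma en_lam {t : ℝ} (h : t ∈ En k) : t ∈ Lam k := subset_closure h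

lemma en_act {g : ℝ ≃o ℝ} (h : Stab k g) {t : ℝ} (ht : t ∈ En k) : g t ∈ En k := by
  obtain ⟨w, hw, e⟩ := ht
  obtain ⟨w', hw', a, b⟩ := s_act h hw
  exact ⟨w', hw', e.imp (fun e => by rw [a, e]) fun e => by rw [b, e]⟩

lemma lam_act {g : ℝ ≃o ℝ} (h : Stab k g) {t : ℝ} (ht : t ∈ Lam k) : g t ∈ Lam k :=
  map_mem_closure g.continuous ht fun _ hs => en_act h hs

lemma lam_iff {g : ℝ ≃o ℝ} (h : Stab k g) (t : ℝ) : g t ∈ Lam k ↔ t ∈ Lam k :=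
  ⟨fun a => by simpa only [inv_ap] using lam_act (s_inv h) a, lam_act h⟩

lemma en_sh {t : ℝ} (ht : t ∈ En k) (j : ℤ) : t + j * (2 * π) ∈ En k := by
  obtain ⟨T, hT, h⟩ := exT C j
  rw [← h]
  exact en_act (s_sh hT j h) ht

lemma lam_sh (t : ℝ) (j : ℤ) : t + j * (2 * π) ∈ Lam k ↔ t ∈ Lam k := by
  obtain ⟨T, hT, h⟩ := exT C j
  rw [← h]
  exact lam_iff (s_sh hT j h) t

lemma ex_sh (t a : ℝ) : ∃ j : ℤ, a ≤ t + j * (2 * π) ∧ t + j * (2 * π) < a + 2 * π := by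
  have hp : (0 : ℝ) < 2 * π := by positivity
  refine ⟨⌈(a - t) / (2 * π)⌉, ?_, ?_⟩
  · have := Int.le_ceil ((a - t) / (2 * π))
    rw [div_le_iff₀ hp] at this
    linarith
  · have := Int.ceil_lt_add_one ((a - t) / (2 * π))
    rw [div_add_one hp.ne', lt_div_iff₀ hp] at this
    linarith

lemma ex_two (k : C.W) (t : ℝ) : ∃ s ∈ En k, t < s ∧ s < t + 2 * π := by
  obtain ⟨j, a, b⟩ := ex_sh (C.x k) t
  rcases a.eq_or_lt with a | a
  · exact ⟨_, en_sh (y_en (self_mem k)) j, by linarith [C.lt k], by linarith [C.lt2 k]⟩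
  · exact ⟨_, en_sh (x_en (self_mem k)) j, a, b⟩

lemma ctr_mono {g : ℝ ≃o ℝ} {r a ε ε' : ℝ} (h : Ctr g r a ε') (he : ε' ≤ ε) : Ctr g r a ε :=
  fun t h1 h2 => (h t (by linarith) (by linarith)).trans_le he

lemma ex_small {a b c d e : ℝ} (ha : 0 < a) (hb : 0 < b) (hc : 0 < c) (hd : 0 < d) (he : 0 < e) :
    ∃ η, 0 < η ∧ η ≤ a ∧ η ≤ b ∧ η ≤ c ∧ η ≤ d ∧ η ≤ e :=
  ⟨min a (min b (min c (min d e))), by positivity, by simp, by simp, by simp, by simp, by simp⟩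

lemma near_stab {w : C.W} (hw : w ∈ K k) : ∃ η, 0 < η ∧ ∀ g ∈ C.G, |g⁻¹ (C.x w) - C.x w| < η →
    |g⁻¹ (C.y w) - C.y w| < η → Stab k g := by
  obtain ⟨w', p1, p2, p3, p4⟩ := C.up w
  obtain ⟨η, h0, h1, h2, h3, h4, -⟩ := ex_small (sub_pos.2 p1) (sub_pos.2 p2) (sub_pos.2 p3)
    (sub_pos.2 p4) one_pos
  refine ⟨η, h0, fun g hg a b => ?_⟩
  obtain ⟨v, q1, q2⟩ := C.act g⁻¹ (C.G.inv_mem hg) w
  rw [← q1, abs_lt] at a
  rw [← q2, abs_lt] at b
  have hv : v ∈ K k := (lk_iff (u := v) (v := w') ⟨by linarith, by linarith, by linarith,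
    by linarith⟩).2 ((lk_iff ⟨p1, p2, p3, p4⟩).1 hw)
  simpa using s_inv (s_of (C.G.inv_mem hg) hw hv q1 q2)

lemma recP {w : C.W} (hw : w ∈ K k) (ε : ℝ) (h : 0 < ε) : ∃ g, Stab k g ∧
    |g⁻¹ (C.x w) - C.x w| < ε ∧ |g⁻¹ (C.y w) - C.y w| < ε ∧ Ctr g (C.x w) (C.y w) ε := by
  obtain ⟨η, h0, h1⟩ := near_stab hw
  obtain ⟨g, hg, a, b, c⟩ := C.recP w (min ε η) (lt_min h h0)
  exact ⟨g, h1 g hg (a.trans_le (min_le_right _ _)) (b.trans_le (min_le_right _ _)),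
    a.trans_le (min_le_left _ _), b.trans_le (min_le_left _ _), ctr_mono c (min_le_left _ _)⟩

lemma recM {w : C.W} (hw : w ∈ K k) (ε : ℝ) (h : 0 < ε) : ∃ g, Stab k g ∧
    |g⁻¹ (C.x w) - C.x w| < ε ∧ |g⁻¹ (C.y w) - C.y w| < ε ∧
      Ctr g (C.y w - 2 * π) (C.x w) ε := by
  obtain ⟨η, h0, h1⟩ := near_stab hw
  obtain ⟨g, hg, a, b, c⟩ := C.recM w (min ε η) (lt_min h h0)
  exact ⟨g, h1 g hg (a.trans_le (min_le_right _ _)) (b.trans_le (min_le_right _ _)),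
    a.trans_le (min_le_left _ _), b.trans_le (min_le_left _ _), ctr_mono c (min_le_left _ _)⟩

/-- every end is the attracting point of recurrences, with an opposite point `r` -/
lemma rec_en {t : ℝ} (ht : t ∈ En k) : ∃ r, (∃ m ∈ K k, r < C.x m ∧ C.x m < t ∧ t < C.y m ∧
    C.y m < r + 2 * π) ∧ (∃ m ∈ K k, r < C.y m ∧ C.y m < t ∧ t < C.x m + 2 * π ∧ C.x m < r) ∧
      ∀ ε, 0 < ε → ∃ g, Stab k g ∧ |g⁻¹ t - t| < ε ∧ Ctr g r t ε := by
  obtain ⟨w, hw, e⟩ := ht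
  obtain ⟨u, p1, p2, p3, p4⟩ := C.up w
  obtain ⟨d, q1, q2, q3, q4⟩ := C.dn w
  have hu : u ∈ K k := (lk_iff ⟨p1, p2, p3, p4⟩).1 hw
  have hd : d ∈ K k := (lk_iff ⟨q1, q2, q3, q4⟩).2 hw
  rcases e with rfl | rfl
  · obtain ⟨u', hu', a, b⟩ := exK hu (-1)
    push_cast at a b
    refine ⟨C.y w - 2 * π, ⟨d, hd, by linarith, q1, q2, by linarith⟩,
      ⟨u', hu', by linarith, by linarith, by linarith, by linarith⟩, fun ε h => ?_⟩
    obtain ⟨g, a, b, -, c⟩ := recM hw ε h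
    exact ⟨g, a, b, c⟩
  · refine ⟨C.x w, ⟨u, hu, p1, p2, p3, p4⟩, ⟨d, hd, q2, q3, q4, q1⟩, fun ε h => ?_⟩
    obtain ⟨g, a, -, b, c⟩ := recP hw ε h
    exact ⟨g, a, b, c⟩

lemma squeeze {r t a b : ℝ} (h : ∀ ε, 0 < ε → ∃ g, Stab k g ∧ |g⁻¹ t - t| < ε ∧ Ctr g r t ε)
    (p1 : r < a) (p2 : a < t) (p3 : t < b) (p4 : b < r + 2 * π) {ε : ℝ} (he : 0 < ε) :
    ∃ g, Stab k g ∧ Ctr g r t ε ∧ t - ε < g a ∧ g a < t ∧ t < g b ∧ g b < t + ε := by
  obtain ⟨η, h0, h1, h2, h3, h4, h5⟩ := ex_small (sub_pos.2 p1) (sub_pos.2 p2) (sub_pos.2 p3)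
    (sub_pos.2 p4) he
  obtain ⟨g, hg, c, d⟩ := h η h0
  rw [abs_lt] at c
  have e1 := abs_lt.1 (d a (by linarith) (by linarith))
  have e2 := abs_lt.1 (d b (by linarith) (by linarith))
  exact ⟨g, hg, ctr_mono d h5, by linarith, ap_lt (by linarith), lt_ap (by linarith), by linarith⟩

lemma shR {t : ℝ} (ht : t ∈ En k) (ε : ℝ) (he : 0 < ε) :
    ∃ s ∈ K k, t - ε < C.x s ∧ C.x s < t ∧ t < C.y s ∧ C.y s < t + ε := by
  obtain ⟨r, ⟨m, hm, p1, p2, p3, p4⟩, -, h⟩ := rec_en ht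
  obtain ⟨g, hg, -, a⟩ := squeeze h p1 p2 p3 p4 he
  obtain ⟨s, hs, b, c⟩ := s_act hg hm
  exact ⟨s, hs, by rwa [b, c]⟩

lemma shL {t : ℝ} (ht : t ∈ En k) (ε : ℝ) (he : 0 < ε) :
    ∃ s ∈ K k, t - ε < C.y s ∧ C.y s < t ∧ t < C.x s + 2 * π ∧ C.x s + 2 * π < t + ε := by
  obtain ⟨r, -, ⟨m, hm, p1, p2, p3, p4⟩, h⟩ := rec_en ht
  obtain ⟨g, hg, -, a⟩ := squeeze h p1 p2 p3 (by linarith) he
  obtain ⟨s, hs, b, c⟩ := s_act hg hm
  exact ⟨s, hs, by rwa [b, c, ← C.cg.per g hg.1]⟩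

lemma shE {t : ℝ} (ht : t ∈ En k) : C.Sh t := by
  obtain ⟨r, ⟨m, -, p1, p2, p3, p4⟩, -, h⟩ := rec_en ht
  refine ⟨m, r, Or.inl ⟨by linarith, p1, fun ε he => ?_⟩⟩
  obtain ⟨g, hg, a, -, b, c, -⟩ := squeeze h p1 p2 p3 p4 he
  exact ⟨g, hg.1, a, b, c⟩

/-- `t` lies in the arc from `a` to `b` -/
def Arc (a b t : ℝ) : Prop := ∃ j : ℤ, a < t + j * (2 * π) ∧ t + j * (2 * π) < b

lemma not_arc {a b t : ℝ} (j : ℤ) (h1 : b ≤ t + j * (2 * π)) (h2 : t + j * (2 * π) ≤ a + 2 * π) :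
    ¬Arc a b t := by
  rintro ⟨i, p1, p2⟩
  have hp : (0 : ℝ) < 2 * π := by positivity
  rcases le_or_gt j i with h | h
  · have : (j : ℝ) ≤ i := by exact_mod_cast h
    nlinarith
  · have : (i : ℝ) + 1 ≤ j := by exact_mod_cast h
    nlinarith

lemma arc_mid {a b x y s t : ℝ} (hx : Arc a b x) (hy : Arc a b y) (p1 : x < s) (p2 : s < y)
    (p3 : y < t) (p4 : t < x + 2 * π) : Arc a b s ∨ Arc a b t := by
  obtain ⟨j, q1, q2⟩ := hx
  by_cases h : y + j * (2 * π) < b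
  · exact Or.inl ⟨j, by linarith, by linarith⟩
  · by_cases h2 : y + j * (2 * π) ≤ a + 2 * π
    · exact absurd hy (not_arc j (not_lt.1 h) h2)
    · refine Or.inr ⟨j - 1, ?_, ?_⟩ <;> push_cast <;> linarith

lemma arc_sh {a b t : ℝ} (j : ℤ) : Arc a b (t + j * (2 * π)) ↔ Arc a b t :=
  ⟨fun ⟨i, p, q⟩ => ⟨j + i, by push_cast; linarith, by push_cast; linarith⟩,
    fun ⟨i, p, q⟩ => ⟨i - j, by push_cast; linarith, by push_cast; linarith⟩⟩

lemma en_of_lam {a b s : ℝ} (h : s ∈ Lam k) (p1 : a < s) (p2 : s < b) :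
    ∃ t ∈ En k, a < t ∧ t < b := by
  obtain ⟨t, q, r⟩ := mem_closure_iff.1 h (Ioo a b) isOpen_Ioo ⟨p1, p2⟩
  exact ⟨t, r, q⟩

lemma sep {a b s t : ℝ} (p1 : a < s) (p2 : s < b) (p3 : b < t) (p4 : t < a + 2 * π)
    (hs : s ∈ Lam k) (ht : t ∈ Lam k) : ∃ w ∈ K k,
    (a < C.x w ∧ C.x w < b ∧ b < C.y w ∧ C.y w < a + 2 * π) ∨
      (C.x w < a ∧ a < C.y w ∧ C.y w < b ∧ b < C.x w + 2 * π) := by
  by_contra hc
  obtain ⟨η, h0, h1, h2, -⟩ := ex_small (a := b - a) (b := a + 2 * π - b) (by linarith)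
    (by linarith) one_pos one_pos one_pos
  have na : a ∉ En k := fun h => by
    obtain ⟨w, hw, q1, q2, q3, q4⟩ := shR h η h0
    exact hc ⟨w, hw, Or.inr ⟨q2, q3, by linarith, by linarith⟩⟩
  have nb : b ∉ En k := fun h => by
    obtain ⟨w, hw, q1, q2, q3, q4⟩ := shR h η h0
    exact hc ⟨w, hw, Or.inl ⟨by linarith, q2, q3, by linarith⟩⟩
  have c1 : ∀ w ∈ K k, Arc a b (C.x w) ↔ Arc a b (C.y w) := by
    intro w hw
    constructor
    · rintro ⟨j, q1, q2⟩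
      obtain ⟨v, hv, e1, e2⟩ := exK hw j
      have l1 := C.lt v
      have l2 := C.lt2 v
      by_contra hn
      have n1 : b ≤ C.y v := not_lt.1 fun h => hn ⟨j, by linarith, by linarith⟩
      have n2 : C.y v ≤ a + 2 * π := not_lt.1 fun h =>
        hn ⟨j - 1, by push_cast; linarith, by push_cast; linarith⟩
      refine hc ⟨v, hv, Or.inl ⟨by linarith, by linarith, n1.lt_of_ne fun h => ?_,
        n2.lt_of_ne fun h => ?_⟩⟩
      · exact nb (h ▸ y_en hv)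
      · have := en_sh (y_en hv) (-1)
        rw [h] at this
        exact na (by simpa using this)
    · rintro ⟨j, q1, q2⟩
      obtain ⟨v, hv, e1, e2⟩ := exK hw j
      have l1 := C.lt v
      have l2 := C.lt2 v
      by_contra hn
      have n1 : C.x v ≤ a := not_lt.1 fun h => hn ⟨j, by linarith, by linarith⟩
      have n2 : b ≤ C.x v + 2 * π := not_lt.1 fun h =>
        hn ⟨j + 1, by push_cast; linarith, by push_cast; linarith⟩
      refine hc ⟨v, hv, Or.inr ⟨n1.lt_of_ne fun h => ?_, by linarith, by linarith,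
        n2.lt_of_ne fun h => ?_⟩⟩
      · exact na (h ▸ x_en hv)
      · have := en_sh (x_en hv) 1
        exact nb (by simpa [h] using this)
  have c2 : ∀ u v, Relation.EqvGen C.Rel u v → u ∈ K k →
      (Arc a b (C.x u) ↔ Arc a b (C.x v)) := by
    intro u v h
    induction h with
    | rel u v h =>
      intro hu
      rcases h with h | ⟨j, e, -⟩
      · have hv := (lk_iff h).1 hu
        obtain ⟨q1, q2, q3, q4⟩ := h
        constructor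
        · intro h
          exact (arc_mid h ((c1 u hu).1 h) q1 q2 q3 q4).elim id (c1 v hv).2
        · intro h
          have := arc_mid (t := C.x u + (1 : ℤ) * (2 * π)) h ((c1 v hv).1 h) q2 q3
            (by push_cast; linarith) (by push_cast; linarith)
          exact this.elim (c1 u hu).2 (arc_sh 1).1
      · rw [e, arc_sh]
    | refl u => exact fun _ => Iff.rfl
    | symm u v h ih => exact fun hv => (ih ((mem_iff h).2 hv)).symm
    | trans u v w h _ ih1 ih2 => exact fun hu => (ih1 hu).trans (ih2 ((mem_iff h).1 hu))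
  have c3 : ∀ r ∈ En k, Arc a b r ↔ Arc a b (C.x k) := by
    rintro r ⟨w, hw, rfl | rfl⟩
    · exact (c2 k w hw (self_mem k)).symm
    · exact (c1 w hw).symm.trans (c2 k w hw (self_mem k)).symm
  obtain ⟨s', hs', q1, q2⟩ := en_of_lam hs p1 p2
  obtain ⟨t', ht', q3, q4⟩ := en_of_lam ht p3 p4
  exact not_arc 0 (by simpa using q3.le) (by simpa using q4.le)
    ((c3 t' ht').2 ((c3 s' hs').1 ⟨0, by simpa using q1, by simpa using q2⟩))

lemma of_sep {w : C.W} {s t : ℝ} (p1 : C.x w < s) (p2 : s < C.y w) (p3 : C.y w < t)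
    (p4 : t < C.x w + 2 * π) (hs : s ∈ Lam k) (ht : t ∈ Lam k) : w ∈ K k := by
  obtain ⟨v, hv, h | h⟩ := sep p1 p2 p3 p4 hs ht
  · exact (lk_iff h).2 hv
  · exact (lk_iff h).1 hv

lemma share {w : C.W} (h : C.x w ∈ Lam k ∨ C.y w ∈ Lam k) : w ∈ K k := by
  obtain ⟨t, h1, h2⟩ : ∃ t ∈ Lam k, t ∈ En w :=
    h.elim (fun h => ⟨_, h, x_en (self_mem w)⟩) fun h => ⟨_, h, y_en (self_mem w)⟩
  obtain ⟨r, hr, p1, p2⟩ := ex_two k t
  obtain ⟨η, h0, q1, q2, -⟩ := ex_small (sub_pos.2 p1) (sub_pos.2 p2) one_pos one_pos one_pos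
  obtain ⟨s, hs, a, b, c, d⟩ := shR h2 η h0
  exact (mem_iff hs).2 (of_sep b c (by linarith) (by linarith) h1 (en_lam hr))

lemma gap_en {u v : ℝ} (h : Gap k u v) : u ∉ En k ∧ v ∉ En k := by
  constructor <;> intro ht <;> obtain ⟨s, hs, a, b, c, d⟩ := shR ht (v - u) (sub_pos.2 h.1)
  · exact h.2.2.2 _ c (by linarith) (en_lam (y_en hs))
  · exact h.2.2.2 _ (by linarith) b (en_lam (x_en hs))

end FCe1

open FCe1 in
theorem cell1 : Cell1St := fun C k =>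
  { one := s_sh C.G.one_mem 0 fun t => by simp
    mul := fun _ _ => s_mul
    inv := fun _ => s_inv
    sh := fun _ hg j h => s_sh hg j h
    of := fun _ hg _ hw _ hw' => s_of hg hw hw'
    lam := fun _ => lam_iff
    gap := fun g hg u v h => ⟨g.strictMono h.1, lam_act hg h.2.1, lam_act hg h.2.2.1,
      fun t p q ht => h.2.2.2 (g⁻¹ t) (by simpa only [inv_ap] using g⁻¹.strictMono p)
        (by simpa only [inv_ap] using g⁻¹.strictMono q) (lam_act (s_inv hg) ht)⟩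
    per := lam_sh
    short := fun u v h => by
      obtain ⟨s, hs, p, q⟩ := ex_two k u
      exact (not_lt.1 fun r => h.2.2.2 s p r (en_lam hs)).trans_lt q
    recP := fun _ hw => recP hw
    recM := fun _ hw => recM hw
    shR := fun _ ht => shR ht
    shL := fun _ ht => shL ht
    shE := fun _ ht => shE ht
    share := fun _ => share
    other := fun w hw => by
      by_contra hc
      push Not at hc
      obtain ⟨⟨s, p1, p2, hs⟩, t, p3, p4, ht⟩ := hc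
      exact hw (of_sep p1 p2 p3 p4 hs ht)
    gapE := fun u v h w =>
      ⟨fun e => (gap_en h).1 (e ▸ x_en (share (Or.inl (e ▸ h.2.1)))),
        fun e => (gap_en h).2 (e ▸ x_en (share (Or.inl (e ▸ h.2.2.1)))),
        fun e => (gap_en h).1 (e ▸ y_en (share (Or.inr (e ▸ h.2.1)))),
        fun e => (gap_en h).2 (e ▸ y_en (share (Or.inr (e ▸ h.2.2.1))))⟩
    gapN := fun u v h ε he => by
      constructor
      · obtain ⟨t, ht, p, q⟩ := en_of_lam (a := u - ε) h.2.1 (by linarith) h.1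
        exact ⟨t, ht, p, (not_lt.1 fun r => h.2.2.2 t r q (en_lam ht)).lt_of_ne
          fun e => (gap_en h).1 (e ▸ ht)⟩
      · obtain ⟨t, ht, p, q⟩ := en_of_lam (b := v + ε) h.2.2.1 h.1 (by linarith)
        exact ⟨t, ht, (not_lt.1 fun r => h.2.2.2 t p r (en_lam ht)).lt_of_ne
          fun e => (gap_en h).2 (e ▸ ht), q⟩
    sep := fun _ _ _ _ => sep }

end Pool.Agent.Lib.MP_21f752_an
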