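import Pool.Agent.Lib.MP_21f752_an.FC

/-! Gaps of a linking component: stabilisers, finiteness, shields. -/

namespace Pool.Agent.Lib.MP_21f752_an

open Set Filter Topology
open scoped Real

namespace FCe2

section grp

variable {G : Subgroup (ℝ ≃o ℝ)}

lemma ai (g : ℝ ≃o ℝ) (t : ℝ) : g (g⁻¹ t) = t := RelIso.apply_inv_self g t

lemma ia (g : ℝ ≃o ℝ) (t : ℝ) : g⁻¹ (g t) = t := RelIso.inv_apply_self g t

lemma ma (g h : ℝ ≃o ℝ) (t : ℝ) : (g * h) t = g (h t) := rfl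

lemma perZ (h : CG G) {g : ℝ ≃o ℝ} (hg : g ∈ G) (j : ℤ) (t : ℝ) :
    g (t + j * (2 * π)) = g t + j * (2 * π) := by
  induction j using Int.induction_on generalizing t with
  | zero => simp
  | succ n ih =>
    have : t + ((n : ℤ) + 1 : ℤ) * (2 * π) = (t + (n : ℤ) * (2 * π)) + 2 * π := by push_cast; ring
    rw [this, h.per g hg, ih]; push_cast; ring
  | pred n ih =>
    have e : t + (-(n : ℤ) : ℤ) * (2 * π) = (t + (-(n : ℤ) - 1 : ℤ) * (2 * π)) + 2 * π := by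
      push_cast; ring
    have := ih t
    rw [e, h.per g hg] at this
    push_cast at this ⊢; linarith

lemma perM (h : CG G) {g : ℝ ≃o ℝ} (hg : g ∈ G) (t : ℝ) : g (t - 2 * π) = g t - 2 * π := by
  have := h.per g hg (t - 2 * π)
  rw [sub_add_cancel] at this; linarith

lemma shZ (h : CG G) (j : ℤ) : ∃ S ∈ G, ∀ t, S t = t + j * (2 * π) := by
  obtain ⟨T, hT, e⟩ := h.sh
  induction j using Int.induction_on with
  | zero => exact ⟨1, G.one_mem, fun t => by simp⟩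
  | succ n ih =>
    obtain ⟨S, hS, f⟩ := ih
    exact ⟨T * S, G.mul_mem hT hS, fun t => by rw [ma, e, f]; push_cast; ring⟩
  | pred n ih =>
    obtain ⟨S, hS, f⟩ := ih
    refine ⟨T⁻¹ * S, G.mul_mem (G.inv_mem hT) hS, fun t => ?_⟩
    have := e (T⁻¹ (S t))
    rw [ai, f] at this
    rw [ma, f]; push_cast at this ⊢; linarith

lemma red (a t : ℝ) : ∃ j : ℤ, a ≤ t + j * (2 * π) ∧ t + j * (2 * π) < a + 2 * π := by
  have hp : 0 < 2 * π := Real.two_pi_pos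
  refine ⟨-toIcoDiv hp a t, ?_⟩
  have := sub_toIcoDiv_zsmul_mem_Ico hp a t
  rw [zsmul_eq_mul] at this
  push_cast
  exact ⟨by linarith [this.1], by linarith [this.2]⟩

/-- a normalised separated triple -/
def Sp (e a b c : ℝ) : Prop := 0 ≤ a ∧ a < 2 * π ∧ a + e ≤ b ∧ b + e ≤ c ∧ c + e ≤ a + 2 * π

lemma recn (h : CG G) : ∃ e, 0 < e ∧ ∀ x y z : ℝ, x < y → y < z → z < x + 2 * π →
    ∃ g ∈ G, Sp e (g x) (g y) (g z) := by
  obtain ⟨e, he, H⟩ := h.coc
  refine ⟨e, he, fun x y z h1 h2 h3 => ?_⟩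
  obtain ⟨g, hg, a1, a2, a3⟩ := H x y z h1 h2 h3
  obtain ⟨j, j1, j2⟩ := red 0 (g x)
  obtain ⟨S, hS, f⟩ := shZ h j
  refine ⟨S * g, G.mul_mem hS hg, ?_⟩
  simp only [ma, f, Sp]
  exact ⟨j1, by linarith, by linarith, by linarith, by linarith⟩

lemma cell1 {d : ℝ} (hd : 0 < d) : ∃ (n : ℕ) (c : ℝ → Fin n), ∀ a b, 0 ≤ a → a ≤ 4 * π → 0 ≤ b →
    b ≤ 4 * π → c a = c b → |a - b| < d := by
  refine ⟨⌊4 * π / d⌋₊ + 1, fun a => ⟨min ⌊a / d⌋₊ ⌊4 * π / d⌋₊, by omega⟩,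
    fun a b a0 a1 b0 b1 e => ?_⟩
  have e' := congrArg Fin.val e
  simp only at e'
  rw [min_eq_left (Nat.floor_mono (by gcongr)), min_eq_left (Nat.floor_mono (by gcongr))] at e'
  have p1 := Nat.floor_le (div_nonneg a0 hd.le)
  have p2 := Nat.lt_floor_add_one (a / d)
  have p3 := Nat.floor_le (div_nonneg b0 hd.le)
  have p4 := Nat.lt_floor_add_one (b / d)
  rw [e'] at p1 p2
  have q : |a / d - b / d| < 1 := abs_lt.2 ⟨by linarith, by linarith⟩
  rw [← sub_div, abs_div, abs_of_pos hd, div_lt_one hd] at q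
  exact q

/-- two triples are close -/
def Cl (e a b c a' b' c' : ℝ) : Prop := |a - a'| < e / 4 ∧ |b - b'| < e / 4 ∧ |c - c'| < e / 4

lemma cells {e : ℝ} (he : 0 < e) : ∃ (n : ℕ) (c : ℝ → ℝ → ℝ → Fin n), ∀ x y z x' y' z',
    Sp e x y z → Sp e x' y' z' → c x y z = c x' y' z' → Cl e x y z x' y' z' := by
  obtain ⟨n, c, H⟩ := cell1 (d := e / 4) (by linarith)
  refine ⟨_, fun x y z => Finite.equivFin (Fin n × Fin n × Fin n) (c x, c y, c z),
    fun x y z x' y' z' ⟨a1, a2, a3, a4, a5⟩ ⟨b1, b2, b3, b4, b5⟩ E => ?_⟩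
  have E' := (Finite.equivFin _).injective E
  simp only [Prod.mk.injEq] at E'
  have := Real.pi_pos
  exact ⟨H _ _ a1 (by linarith) b1 (by linarith) E'.1,
    H _ _ (by linarith) (by linarith) (by linarith) (by linarith) E'.2.1,
    H _ _ (by linarith) (by linarith) (by linarith) (by linarith) E'.2.2⟩

lemma hyp_of (h : CG G) {g : ℝ ≃o ℝ} (hg : g ∈ G) (h1 : g ≠ 1) {u v : ℝ} (l1 : u < v)
    (l2 : v < u + 2 * π) (fu : g u = u) (fv : g v = v) : Hyp g u v ∨ Hyp g⁻¹ u v := by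
  obtain ⟨a, b, H, rfl | rfl⟩ := h.hy g hg u fu h1
  · left
    rcases lt_trichotomy v b with c | rfl | c
    · exact absurd (H.up v l1 c) (by rw [fv]; exact lt_irrefl _)
    · exact H
    · exact absurd (H.dn v c l2) (by rw [fv]; exact lt_irrefl _)
  · right
    rcases lt_trichotomy v (a + 2 * π) with c | rfl | c
    · exact absurd (H.dn v l1 c) (by rw [fv]; exact lt_irrefl _)
    · refine ⟨l1, l2, by rw [← fu, ia, fu], by rw [← fv, ia, fv], fun t t1 t2 => ?_,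
        fun t t1 t2 => ?_⟩
      · have := (g⁻¹).strictMono (H.dn t t1 t2)
        rwa [ia] at this
      · have := H.up (t - 2 * π) (by linarith) (by linarith)
        rw [perM h hg] at this
        have := (g⁻¹).strictMono (show t < g t by linarith)
        rwa [ia] at this
    · have := H.up (v - 2 * π) (by linarith) (by linarith)
      rw [perM h hg, fv] at this
      exact absurd this (lt_irrefl _)

lemma ctr_mono {g : ℝ ≃o ℝ} {r a ε ε' : ℝ} (h : Ctr g r a ε') (hε : ε' ≤ ε) : Ctr g r a ε :=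
  fun t t1 t2 => (h t (by linarith) (by linarith)).trans_le hε

lemma ctr_sh (h : CG G) {g : ℝ ≃o ℝ} (hg : g ∈ G) {r a ε : ℝ} (H : Ctr g r a ε) (j : ℤ) :
    Ctr g (r + j * (2 * π)) (a + j * (2 * π)) ε := fun t t1 t2 => by
  have := H (t - j * (2 * π)) (by linarith) (by linarith)
  have e := perZ h hg j (t - j * (2 * π))
  rw [sub_add_cancel] at e
  rwa [e, add_sub_add_right_eq_sub]

/-- the limit of a contracting sequence along a convergent sequence of points -/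
lemma ctr_lim {g : ℕ → ℝ ≃o ℝ} {r a s : ℝ} {x : ℕ → ℝ}
    (H : ∀ ε, 0 < ε → ∀ᶠ n in atTop, Ctr (g n) r a ε) (hx : Tendsto x atTop (𝓝 s)) (s1 : r < s)
    (s2 : s < r + 2 * π) : Tendsto (fun n => g n (x n)) atTop (𝓝 a) := by
  rw [Metric.tendsto_nhds]
  intro ε hε
  have d0 : 0 < min ε (min ((s - r) / 2) ((r + 2 * π - s) / 2)) :=
    lt_min hε (lt_min (by linarith) (by linarith))
  have d1 := min_le_left ε (min ((s - r) / 2) ((r + 2 * π - s) / 2))
  have d2 := (min_le_right ε _).trans (min_le_left ((s - r) / 2) ((r + 2 * π - s) / 2))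
  have d3 := (min_le_right ε _).trans (min_le_right ((s - r) / 2) ((r + 2 * π - s) / 2))
  filter_upwards [H _ d0, Metric.tendsto_nhds.1 hx _ d0] with n c1 c2
  rw [Real.dist_eq, abs_lt] at c2
  exact (c1 _ (by linarith) (by linarith)).trans_le d1

/-- the inverses of recentring maps contract -/
lemma contract (h : CG G) {f : ℕ → ℝ ≃o ℝ} (hf : ∀ n, f n ∈ G) {α l r l' μ' : ℝ} {μ : ℕ → ℝ}
    (a1 : α < l) (a2 : l < α + 2 * π) (hμ : Tendsto μ atTop (𝓝 l))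
    (t1 : Tendsto (fun n => f n α) atTop (𝓝 r)) (t2 : Tendsto (fun n => f n l) atTop (𝓝 l'))
    (t3 : Tendsto (fun n => f n (μ n)) atTop (𝓝 μ')) (o1 : r < l') (o2 : l' < μ')
    (o3 : μ' < r + 2 * π) : ∃ φ : ℕ → ℕ, StrictMono φ ∧
      ∀ ε, 0 < ε → ∀ᶠ n in atTop, Ctr (f (φ n))⁻¹ r l ε := by
  obtain ⟨φ, g, k, hφ, hg, e, H⟩ := h.cd (fun n => (f n)⁻¹) fun n => G.inv_mem (hf n)
  refine ⟨φ, hφ, ?_⟩
  have T := hφ.tendsto_atTop
  have u1 : Tendsto (fun n => f (φ n) α) atTop (𝓝 r) := t1.comp T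
  have u2 : Tendsto (fun n => f (φ n) l) atTop (𝓝 l') := t2.comp T
  have u3 : Tendsto (fun n => f (φ n) (μ (φ n))) atTop (𝓝 μ') := t3.comp T
  have u4 : Tendsto (fun n => μ (φ n) - l) atTop (𝓝 0) := by
    simpa using (hμ.comp T).sub_const l
  rcases H with H | ⟨r0, a0, H⟩
  · exfalso
    have c := (g 0).continuous
    have w := ((c.tendsto _).comp u3).sub ((c.tendsto _).comp u2)
    have : (fun n => (g 0 ∘ fun n => f (φ n) (μ (φ n))) n - (g 0 ∘ fun n => f (φ n) l) n) =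
        fun n => μ (φ n) - l := by
      funext n
      simp only [Function.comp]
      rw [← H n, e, e, ia, ia]; ring
    rw [this] at w
    have := tendsto_nhds_unique w u4
    have := (g 0).strictMono o2
    linarith
  · have L : ∀ (j : ℤ) (s : ℝ) (x : ℕ → ℝ), Tendsto x atTop (𝓝 s) → r0 + j * (2 * π) < s →
        s < r0 + j * (2 * π) + 2 * π →
        Tendsto (fun n => g n (x n)) atTop (𝓝 (a0 + j * (2 * π))) := fun j s x hx s1 s2 =>
      ctr_lim (fun ε hε => (H ε hε).mono fun n c => ctr_sh h (hg n) c j) hx s1 s2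
    have K : ∀ s, ∃ j : ℤ, r0 + j * (2 * π) ≤ s ∧ s < r0 + j * (2 * π) + 2 * π := fun s => by
      obtain ⟨j, j1, j2⟩ := red r0 s
      exact ⟨-j, by push_cast; linarith, by push_cast; linarith⟩
    have Z : ∀ i j : ℤ, ∀ d : ℝ, d = (i - j) * (2 * π) → 0 < d → d < 2 * π → False := by
      intro i j d hd d0 d1
      have hp := Real.two_pi_pos
      have b1 : (0 : ℝ) < i - j := by
        by_contra c
        nlinarith [mul_nonneg (neg_nonneg.2 (not_lt.1 c)) hp.le]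
      have b2 : (i : ℝ) - j < 1 := by
        by_contra c
        nlinarith [mul_nonneg (sub_nonneg.2 (not_lt.1 c)) hp.le]
      have b3 : (0 : ℤ) < i - j := by exact_mod_cast b1
      have b4 : i - j < (1 : ℤ) := by exact_mod_cast b2
      omega
    obtain ⟨j, j1, j2⟩ := K r
    have hr : r0 + j * (2 * π) = r := by
      by_contra c
      have v1 := L j r _ u1 (lt_of_le_of_ne j1 c) j2
      have fin : ∀ (i : ℤ) (m : ℕ → ℝ), Tendsto (fun n => m n - l) atTop (𝓝 0) →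
          Tendsto (fun n => g n (f (φ n) (m n))) atTop (𝓝 (a0 + i * (2 * π))) → False := by
        intro i m hm v2
        have w := (v2.sub v1).sub hm
        have : (fun n => g n (f (φ n) (m n)) - g n (f (φ n) α) - (m n - l)) = fun _ => l - α := by
          funext n; rw [e, e, ia, ia]; ring
        rw [this] at w
        have := tendsto_nhds_unique w tendsto_const_nhds
        exact Z i j (l - α) (by linarith) (by linarith) (by linarith)
      obtain ⟨i, i1, i2⟩ := K l'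
      rcases eq_or_lt_of_le i1 with c1 | c1
      · exact fin i _ u4 (L i μ' _ u3 (by linarith) (by linarith))
      · exact fin i (fun _ => l) (by simp) (L i l' _ u2 c1 i2)
    have v2 := L j l' _ u2 (by linarith) (by linarith)
    intro ε hε
    filter_upwards [H (ε / 2) (by linarith), Metric.tendsto_nhds.1 v2 (ε / 2) (by linarith)]
      with n c1 c2
    intro t s1 s2
    have c3 := ctr_sh h (hg n) c1 j t (by linarith) (by linarith)
    rw [Real.dist_eq, e, ia, abs_lt] at c2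
    rw [e, abs_lt] at c3
    exact abs_lt.2 ⟨by linarith, by linarith⟩

lemma pow_le {γ : ℝ ≃o ℝ} {u v : ℝ} (H : Hyp γ u v) (j : ℕ) :
    (∀ t, u ≤ t → t ≤ v → t ≤ (γ ^ j) t ∧ (γ ^ j) t ≤ v) ∧
      ∀ t, v ≤ t → t ≤ u + 2 * π → t < u + 2 * π → v ≤ (γ ^ j) t ∧ (γ ^ j) t ≤ t := by
  induction j with
  | zero => exact ⟨fun t _ b => ⟨le_rfl, b⟩, fun t a _ _ => ⟨a, le_rfl⟩⟩
  | succ j ih =>
    rw [pow_succ']
    refine ⟨fun t a b => ?_, fun t a b c => ?_⟩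
    · obtain ⟨p, q⟩ := ih.1 t a b
      rw [ma]
      refine ⟨p.trans ?_, H.fv ▸ γ.monotone q⟩
      rcases eq_or_lt_of_le (a.trans p) with c | c
      · rw [← c, H.fu]
      · rcases eq_or_lt_of_le q with d | d
        · rw [d, H.fv]
        · exact (H.up _ c d).le
    · obtain ⟨p, q⟩ := ih.2 t a b c
      rw [ma]
      refine ⟨H.fv ▸ γ.monotone p, le_trans ?_ q⟩
      rcases eq_or_lt_of_le p with d | d
      · rw [← d, H.fv]
      · exact (H.dn _ d (by linarith)).le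

/-- a fundamental domain on the outer arc -/
lemma fund {γ : ℝ ≃o ℝ} {u v b t : ℝ} (H : Hyp γ u v) (b1 : v < b) (b2 : b < u + 2 * π)
    (t1 : v < t) (t2 : t ≤ b) : ∃ j : ℕ, γ b ≤ (γ ^ j)⁻¹ t ∧ (γ ^ j)⁻¹ t ≤ b := by
  have ex : ∃ j : ℕ, (γ ^ (j + 1)) b ≤ t := by
    by_contra c
    push Not at c
    have an : Antitone fun j : ℕ => (γ ^ j) b := antitone_nat_of_succ_le fun j => by
      rw [pow_succ, ma]; exact (γ ^ j).monotone (H.dn b b1 b2).le
    have bd : ∀ j : ℕ, t ≤ (γ ^ j) b := fun j => by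
      cases j with
      | zero => exact t2
      | succ j => exact (c j).le
    have T := tendsto_atTop_ciInf an ⟨t, by rintro _ ⟨j, rfl⟩; exact bd j⟩
    set s := ⨅ j : ℕ, (γ ^ j) b
    have s1 : t ≤ s := ge_of_tendsto' T bd
    have s2 : s ≤ b := le_of_tendsto' T fun j => an (Nat.zero_le j)
    have T2 : Tendsto (fun j : ℕ => γ ((γ ^ j) b)) atTop (𝓝 s) := by
      have := T.comp (tendsto_add_atTop_nat 1)
      refine this.congr fun j => ?_
      simp only [Function.comp, pow_succ', ma]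
    have := tendsto_nhds_unique ((γ.continuous.tendsto _).comp T) T2
    exact absurd (H.dn s (by linarith) (by linarith)) (by rw [this]; exact lt_irrefl _)
  classical
  refine ⟨Nat.find ex, ?_, ?_⟩
  · have := ((γ ^ Nat.find ex)⁻¹).monotone (Nat.find_spec ex)
    rwa [pow_succ, ma, ia] at this
  · have : t ≤ (γ ^ Nat.find ex) b := by
      rcases Nat.eq_zero_or_pos (Nat.find ex) with z | z
      · rw [z]; exact t2
      · have := Nat.find_min ex (Nat.sub_one_lt_of_lt z)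
        rw [Nat.sub_add_cancel z] at this
        exact (not_le.1 this).le
    have := ((γ ^ Nat.find ex)⁻¹).monotone this
    rwa [ia] at this

end grp

variable {C : CW}

open CW

/-- `w'` is the image of `w` -/
def Im (g : ℝ ≃o ℝ) (w w' : C.W) : Prop := C.x w' = g (C.x w) ∧ C.y w' = g (C.y w)

lemma Im.inv {g : ℝ ≃o ℝ} {w w' : C.W} (h : Im g w w') : Im g⁻¹ w' w :=
  ⟨by rw [h.1, ia], by rw [h.2, ia]⟩

lemma eqv_im {g : ℝ ≃o ℝ} (hg : g ∈ C.G) {a b : C.W} (h : Relation.EqvGen C.Rel a b) :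
    ∀ a' b', Im g a a' → Im g b b' → Relation.EqvGen C.Rel a' b' := by
  induction h with
  | rel a b h =>
    intro a' b' p q
    refine .rel _ _ ?_
    rcases h with ⟨h1, h2, h3, h4⟩ | ⟨j, h1, h2⟩
    · left
      rw [Lk, p.1, p.2, q.1, q.2, ← C.cg.per g hg]
      exact ⟨g.strictMono h1, g.strictMono h2, g.strictMono h3, g.strictMono h4⟩
    · exact .inr ⟨j, by rw [q.1, p.1, h1, perZ C.cg hg], by rw [q.2, p.2, h2, perZ C.cg hg]⟩
  | refl a =>
    intro a' b' p q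
    exact .rel _ _ (.inr ⟨0, by rw [q.1, p.1]; simp, by rw [q.2, p.2]; simp⟩)
  | symm a b _ ih => intro a' b' p q; exact (ih _ _ q p).symm _ _
  | trans a b c _ _ i1 i2 =>
    intro a' c' p q
    obtain ⟨b', hb⟩ := C.act g hg b
    exact (i1 _ _ p hb).trans _ _ _ (i2 _ _ hb q)

lemma lam_im {g : ℝ ≃o ℝ} (hg : g ∈ C.G) {k k' : C.W} (h : Im g k k') {t : ℝ} (ht : t ∈ Lam k) :
    g t ∈ Lam k' := by
  refine map_mem_closure g.continuous ht ?_
  rintro s ⟨w, hw, e⟩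
  obtain ⟨w', h'⟩ := C.act g hg w
  refine ⟨w', eqv_im hg hw _ _ h h', ?_⟩
  rcases e with rfl | rfl
  exacts [.inl h'.1.symm, .inr h'.2.symm]

lemma lam_iff {g : ℝ ≃o ℝ} (hg : g ∈ C.G) {k k' : C.W} (h : Im g k k') (t : ℝ) :
    g t ∈ Lam k' ↔ t ∈ Lam k :=
  ⟨fun a => by have := lam_im (C.G.inv_mem hg) h.inv a; rwa [ia] at this, lam_im hg h⟩

lemma K_eq {k k' : C.W} (h : k' ∈ K k) : K k' = K k :=
  Set.ext fun _ => ⟨fun a => Relation.EqvGen.trans _ _ _ h a,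
    fun a => Relation.EqvGen.trans _ _ _ (Relation.EqvGen.symm _ _ h) a⟩

lemma lam_eq {k k' : C.W} (h : k' ∈ K k) : Lam k' = Lam k := by rw [Lam, Lam, En, En, K_eq h]

lemma gap_tr {g : ℝ ≃o ℝ} {k k' : C.W} (h : ∀ t, g t ∈ Lam k' ↔ t ∈ Lam k) {u v : ℝ}
    (H : Gap k u v) : Gap k' (g u) (g v) := by
  refine ⟨g.strictMono H.1, (h _).2 H.2.1, (h _).2 H.2.2.1, fun t a b c => ?_⟩
  rw [← ai g t] at a b c
  exact H.2.2.2 _ (g.lt_iff_lt.1 a) (g.lt_iff_lt.1 b) ((h _).1 c)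

lemma gap_eq {k : C.W} {u v u' v' m : ℝ} (H : Gap k u v) (H' : Gap k u' v') (a : u < m) (b : m < v)
    (a' : u' < m) (b' : m < v') : u = u' ∧ v = v' :=
  ⟨le_antisymm (not_lt.1 fun c => H'.2.2.2 u c (by linarith) H.2.1)
      (not_lt.1 fun c => H.2.2.2 u' c (by linarith) H'.2.1),
    le_antisymm (not_lt.1 fun c => H.2.2.2 v' (by linarith) c H'.2.2.1)
      (not_lt.1 fun c => H'.2.2.2 v (by linarith) c H.2.2.1)⟩

lemma self_mem (k : C.W) : k ∈ K k := Relation.EqvGen.refl k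

lemma lam_p {k : C.W} (c : Cell1 k) {t : ℝ} (h : t ∈ Lam k) : t + 2 * π ∈ Lam k := by
  have := (c.per t 1).2 h
  simpa using this

/-- close separated triples belong to one component -/
lemma same (h1 : Cell1St) {k1 k2 : C.W} {e a b c a' b' c' : ℝ} (he : 0 < e) (s : Sp e a b c)
    (s' : Sp e a' b' c') (cl : Cl e a b c a' b' c') (ha : a ∈ Lam k1) (hb : b ∈ Lam k1)
    (hc : c ∈ Lam k1) (ha' : a' ∈ Lam k2) (hb' : b' ∈ Lam k2) (hc' : c' ∈ Lam k2) :
    k1 ∈ K k2 := by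
  by_contra hn
  have c1 := h1 C k1
  have c2 := h1 C k2
  have N : ∀ p q s t, p ∈ Lam k2 → q ∈ Lam k2 → p < s → s < q → q < t → t < p + 2 * π →
      s ∈ Lam k1 → t ∈ Lam k1 → False := by
    intro p q s t hp hq o1 o2 o3 o4 hs ht
    obtain ⟨w, hw, H⟩ := c1.sep p q s t o1 o2 o3 o4 hs ht
    have hw2 : w ∉ K k2 := fun z => hn (by rw [← K_eq z, K_eq hw]; exact self_mem k1)
    rcases H with ⟨x1, x2, x3, x4⟩ | ⟨x1, x2, x3, x4⟩ <;> rcases c2.other w hw2 with O | O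
    · exact O q x2 x3 hq
    · exact O _ x4 (by linarith) (lam_p c2 hp)
    · exact O p x1 x2 hp
    · exact O q x3 x4 hq
  obtain ⟨-, -, a3, a4, a5⟩ := s
  obtain ⟨-, -, b3, b4, b5⟩ := s'
  obtain ⟨d1, d2, d3⟩ := cl
  rw [abs_lt] at d1 d2 d3
  have n1 : ∀ s, a' < s → s < b' → s ∉ Lam k1 := fun s o1 o2 hs =>
    N a' b' s c ha' hb' o1 o2 (by linarith) (by linarith) hs hc
  have n2 : ∀ s, b' < s → s < c' → s ∉ Lam k1 := fun s o1 o2 hs =>
    N b' c' s _ hb' hc' o1 o2 (by linarith) (by linarith) hs (lam_p c1 ha)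
  have n3 : ∀ s, c' < s → s < a' + 2 * π → s ∉ Lam k1 := fun s o1 o2 hs =>
    N c' _ s _ hc' (lam_p c2 ha') o1 o2 (by linarith) (by linarith) hs (lam_p c1 hb)
  have m0 : C.x k1 ∈ En k1 := ⟨k1, self_mem k1, .inl rfl⟩
  obtain ⟨s, hs, s1, s2, -⟩ := c1.shR _ m0 e he
  obtain ⟨j, j1, j2⟩ := red a' (C.x k1)
  have p2 := (c1.per _ j).2 (subset_closure m0)
  have p1 := (c1.per _ j).2 (subset_closure (show C.x s ∈ En k1 from ⟨s, hs, .inl rfl⟩))
  rcases eq_or_lt_of_le j1 with z | z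
  · exact n3 _ (by linarith) (by linarith) (lam_p c1 p1)
  rcases lt_trichotomy (C.x k1 + j * (2 * π)) b' with y | y | y
  · exact n1 _ z y p2
  · exact n1 _ (by linarith) (by linarith) p1
  rcases lt_trichotomy (C.x k1 + j * (2 * π)) c' with x | x | x
  · exact n2 _ y x p2
  · exact n2 _ (by linarith) (by linarith) p1
  · exact n3 _ x j2 p2

lemma core (h1 : Cell1St) {k : C.W} {g g' : ℝ ≃o ℝ} (hg : g ∈ C.G) (hg' : g' ∈ C.G)
    {e u v l u' v' l' : ℝ} (he : 0 < e) (H : Gap k u v) (H' : Gap k u' v') (hl : l ∈ Lam k)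
    (hl' : l' ∈ Lam k) (s : Sp e (g u) (g v) (g l)) (s' : Sp e (g' u') (g' v') (g' l'))
    (cl : Cl e (g u) (g v) (g l) (g' u') (g' v') (g' l')) :
    Stab k (g'⁻¹ * g) ∧ (g'⁻¹ * g) u = u' ∧ (g'⁻¹ * g) v = v' := by
  obtain ⟨k1, i1⟩ := C.act g hg k
  obtain ⟨k2, i2⟩ := C.act g' hg' k
  have m := same h1 he s s' cl (lam_im hg i1 H.2.1) (lam_im hg i1 H.2.2.1) (lam_im hg i1 hl)
    (lam_im hg' i2 H'.2.1) (lam_im hg' i2 H'.2.2.1) (lam_im hg' i2 hl')
  have hh := C.G.mul_mem (C.G.inv_mem hg') hg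
  obtain ⟨w, i3⟩ := C.act _ hh k
  have i4 : Im g'⁻¹ k1 w := ⟨by rw [i3.1, i1.1, ma], by rw [i3.2, i1.2, ma]⟩
  have G1 : Gap k2 (g u) (g v) := gap_tr (fun t => by rw [← lam_eq m]; exact lam_iff hg i1 t) H
  have G2 : Gap k2 (g' u') (g' v') := gap_tr (lam_iff hg' i2) H'
  obtain ⟨d1, d2, -⟩ := cl
  rw [abs_lt] at d1 d2
  have E := gap_eq (m := g u + e / 2) G1 G2 (by linarith) (by linarith [s.2.2.1]) (by linarith)
    (by linarith [s.2.2.1])
  exact ⟨(h1 C k).of _ hh k (self_mem k) w (eqv_im (C.G.inv_mem hg') m _ _ (Im.inv i2) i4)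
    i3.1 i3.2, by rw [ma, E.1, ia], by rw [ma, E.2, ia]⟩

lemma fiber {n : ℕ} (c : ℕ → Fin n) : ∃ φ : ℕ → ℕ, StrictMono φ ∧ ∀ i, c (φ i) = c (φ 0) := by
  obtain ⟨y, hy⟩ := Finite.exists_infinite_fiber c
  have hi : (c ⁻¹' {y}).Infinite := infinite_coe_iff.1 hy
  obtain ⟨φ, h, e⟩ := extraction_of_frequently_atTop (Nat.frequently_atTop_iff_infinite.2 hi)
  exact ⟨φ, h, fun i => (e i).trans (e 0).symm⟩

/-- a sequence decreasing to `v` -/
lemma seq_to {P : ℝ → Prop} {v b : ℝ} (hb : v < b) (h : ∀ ε, 0 < ε → ∃ t, P t ∧ v < t ∧ t < v + ε) :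
    ∃ μ : ℕ → ℝ, Tendsto μ atTop (𝓝 v) ∧ ∀ n, P (μ n) ∧ v < μ n ∧ μ n < b := by
  have H : ∀ n : ℕ, ∃ t, P t ∧ v < t ∧ t < v + min (b - v) (1 / ((n : ℝ) + 1)) := fun n =>
    h _ (lt_min (by linarith) Nat.one_div_pos_of_nat)
  choose μ p q r using H
  refine ⟨μ, ?_, fun n => ⟨p n, q n, by linarith [r n, min_le_left (b - v) (1 / ((n : ℝ) + 1))]⟩⟩
  have T : Tendsto (fun n : ℕ => v + 1 / ((n : ℝ) + 1)) atTop (𝓝 v) := by
    simpa using tendsto_one_div_add_atTop_nhds_zero_nat.const_add v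
  exact tendsto_of_tendsto_of_tendsto_of_le_of_le tendsto_const_nhds T (fun n => (q n).le)
    fun n => by linarith [r n, min_le_right (b - v) (1 / ((n : ℝ) + 1))]

lemma hyp (h1 : Cell1St) (k : C.W) (u v : ℝ) (H : Gap k u v) : ∃ g, Stab k g ∧ Hyp g u v := by
  have c1 := h1 C k
  obtain ⟨e, he, R⟩ := recn C.cg
  obtain ⟨n, c, hc⟩ := cells he
  have sh := c1.short u v H
  obtain ⟨μ, T, hμ⟩ := seq_to (P := fun t => t ∈ En k) sh fun ε hε => (c1.gapN u v H ε hε).2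
  choose g hg s using fun i => R u v (μ i) H.1 (hμ i).2.1 (hμ i).2.2
  obtain ⟨φ, hφ, E⟩ := fiber fun i => c (g i u) (g i v) (g i (μ i))
  have T2 := ((g (φ 0)).continuous.tendsto _).comp (T.comp hφ.tendsto_atTop)
  obtain ⟨i, hi⟩ := (T2.eventually (gt_mem_nhds (lt_add_of_pos_right _ he))).exists
  obtain ⟨st, fu, fv⟩ := core h1 (hg _) (hg _) he H H (subset_closure (hμ _).1)
    (subset_closure (hμ _).1) (s (φ i)) (s (φ 0)) (hc _ _ _ _ _ _ (s _) (s _) (E i))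
  have ne : (g (φ 0))⁻¹ * g (φ i) ≠ 1 := fun z => by
    have := (s (φ i)).2.2.2.1
    rw [← inv_mul_eq_one.1 z] at this
    exact absurd hi (not_lt.2 this)
  rcases hyp_of C.cg st.1 ne H.1 sh fu fv with a | a
  exacts [⟨_, st, a⟩, ⟨_, c1.inv _ st, a⟩]

lemma fin (h1 : Cell1St) (k : C.W) : ∃ (n : ℕ) (c : ℝ → Fin n), ∀ u v u' v', Gap k u v →
    Gap k u' v' → c u = c u' → ∃ h, Stab k h ∧ h u = u' ∧ h v = v' := by
  have c1 := h1 C k
  obtain ⟨e, he, R⟩ := recn C.cg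
  obtain ⟨n, c, hc⟩ := cells he
  have A : ∀ u : ℝ, ∃ (v l : ℝ) (g : ℝ ≃o ℝ), ∀ v', Gap k u v' →
      v' = v ∧ l ∈ Lam k ∧ g ∈ C.G ∧ Sp e (g u) (g v) (g l) := by
    intro u
    by_cases z : ∃ v, Gap k u v
    · obtain ⟨v, H⟩ := z
      obtain ⟨t, ht, t1, t2⟩ := (c1.gapN u v H _ (sub_pos.2 (c1.short u v H))).2
      obtain ⟨g, hg, s⟩ := R u v t H.1 t1 (by linarith)
      refine ⟨v, t, g, fun v' H' => ⟨?_, subset_closure ht, hg, s⟩⟩
      have m := lt_min H.1 H'.1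
      exact (gap_eq (m := (u + min v v') / 2) H' H (by linarith) (by linarith [min_le_right v v'])
        (by linarith) (by linarith [min_le_left v v'])).2
    · exact ⟨0, 0, 1, fun v' H => (z ⟨v', H⟩).elim⟩
  choose V L g hA using A
  refine ⟨n, fun u => c (g u u) (g u (V u)) (g u (L u)), fun u v u' v' H H' E => ?_⟩
  obtain ⟨rfl, a2, a3, a4⟩ := hA u v H
  obtain ⟨rfl, b2, b3, b4⟩ := hA u' v' H'
  exact ⟨_, core h1 a3 b3 he H H' a2 b2 a4 b4 (hc _ _ _ _ _ _ a4 b4 E)⟩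

lemma sh_of (h1 : Cell1St) {k : C.W} {l r a s t : ℝ} (o1 : r < s) (o2 : s < a) (o3 : a < t)
    (o4 : t < r + 2 * π) (hs : s ∈ Lam k) (ht : t ∈ Lam k)
    (H : ∀ ε, 0 < ε → ∃ g ∈ C.G, Ctr g r l ε ∧ |g⁻¹ l - a| < ε) : C.Sh l := by
  have F : ∀ p q, p < a → a < q → ∀ ε, 0 < ε → ∃ g ∈ C.G, Ctr g r l ε ∧ g p < l ∧ l < g q := by
    intro p q p1 q1 ε hε
    obtain ⟨g, hg, c, d⟩ := H _ (lt_min hε (lt_min (sub_pos.2 p1) (sub_pos.2 q1)))
    have d2 := (min_le_right ε _).trans (min_le_left (a - p) (q - a))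
    have d3 := (min_le_right ε _).trans (min_le_right (a - p) (q - a))
    rw [abs_lt] at d
    refine ⟨g, hg, ctr_mono c (min_le_left _ _), ?_, ?_⟩
    · rw [← ai g l]; exact g.strictMono (by linarith)
    · rw [← ai g l]; exact g.strictMono (by linarith)
  obtain ⟨w, -, ⟨x1, x2, x3, x4⟩ | ⟨x1, x2, x3, x4⟩⟩ := (h1 C k).sep r a s t o1 o2 o3 o4 hs ht
  · exact ⟨w, r, .inl ⟨by linarith, x1, F _ _ x2 x3⟩⟩
  · exact ⟨w, r, .inr ⟨x1, x2, F _ _ x3 x4⟩⟩

lemma acc {k : C.W} (c1 : Cell1 k) {l : ℝ} (hl : l ∈ Lam k) (n1 : ∀ v, ¬Gap k l v) (ε : ℝ) (hε : 0 < ε) :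
    ∃ t, t ∈ Lam k ∧ l < t ∧ t < l + ε := by
  by_contra c
  push Not at c
  have ne : (Lam k ∩ Ici (l + min ε π)).Nonempty :=
    ⟨_, lam_p c1 hl, by
      rw [mem_Ici]; linarith [min_le_right ε π, Real.pi_pos]⟩
  have cl : IsClosed (Lam k ∩ Ici (l + min ε π)) := isClosed_closure.inter isClosed_Ici
  have bd : BddBelow (Lam k ∩ Ici (l + min ε π)) := ⟨_, fun _ z => z.2⟩
  have m := cl.csInf_mem ne bd
  have m0 := lt_min hε Real.pi_pos
  have m2 : l + min ε π ≤ _ := m.2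
  refine n1 _ ⟨by linarith, hl, m.1, fun t t1 t2 ht => ?_⟩
  exact absurd (csInf_le bd ⟨ht, show l + min ε π ≤ t by
    linarith [c t ht t1, min_le_left ε π]⟩) (not_le.2 t2)

lemma v2 (h1 : Cell1St) (k : C.W) (l : ℝ) (hl : l ∈ Lam k) (n1 : ∀ v, ¬Gap k l v)
    (n2 : ∀ u, ¬Gap k u l) : C.Sh l := by
  have c1 := h1 C k
  obtain ⟨e, he, R⟩ := recn C.cg
  obtain ⟨n, c, hc⟩ := cells he
  obtain ⟨β, hβ, b1, b2⟩ := acc c1 hl n1 _ Real.two_pi_pos
  have hα : β - 2 * π ∈ Lam k := by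
    have := (c1.per β (-1)).2 hβ
    simpa [sub_eq_add_neg] using this
  set α := β - 2 * π with eα
  have a1 : α < l := by linarith
  have a2 : l < α + 2 * π := by linarith
  obtain ⟨μ, T, hμ⟩ := seq_to a2 (acc c1 hl n1)
  choose g hg s using fun i => R α l (μ i) a1 (hμ i).2.1 (hμ i).2.2
  obtain ⟨φ, hφ, E⟩ := fiber fun i => c (g i α) (g i l) (g i (μ i))
  obtain ⟨k', i0⟩ := C.act _ (hg (φ 0)) k
  have c2 := h1 C k'
  have tr : ∀ i t, g (φ i) t ∈ Lam k' ↔ t ∈ Lam k := fun i t => by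
    obtain ⟨k1, i1⟩ := C.act _ (hg (φ i)) k
    rw [← lam_eq (same h1 he (s _) (s _) (hc _ _ _ _ _ _ (s _) (s _) (E i)) (lam_im (hg _) i1 hα)
      (lam_im (hg _) i1 hl) (lam_im (hg _) i1 (hμ _).1) (lam_im (hg _) i0 hα)
      (lam_im (hg _) i0 hl) (lam_im (hg _) i0 (hμ _).1))]
    exact lam_iff (hg _) i1 t
  have cp : IsCompact (Icc (0 : ℝ) (4 * π) ×ˢ Icc (0 : ℝ) (4 * π) ×ˢ Icc (0 : ℝ) (4 * π)) :=
    isCompact_Icc.prod (isCompact_Icc.prod isCompact_Icc)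
  obtain ⟨⟨r, l', μ'⟩, -, ψ, hψ, TT⟩ := cp.tendsto_subseq
    (x := fun i => (g (φ i) α, g (φ i) l, g (φ i) (μ (φ i)))) fun i => by
      obtain ⟨a1, a2, a3, a4, a5⟩ := s (φ i)
      have := Real.pi_pos
      exact ⟨⟨a1, by linarith⟩, ⟨by linarith, by linarith⟩, by linarith, by linarith⟩
  have t1 : Tendsto (fun i => g (φ (ψ i)) α) atTop (𝓝 r) := TT.fst_nhds
  have t2 : Tendsto (fun i => g (φ (ψ i)) l) atTop (𝓝 l') := TT.snd_nhds.fst_nhds
  have t3 : Tendsto (fun i => g (φ (ψ i)) (μ (φ (ψ i)))) atTop (𝓝 μ') := TT.snd_nhds.snd_nhds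
  have o1 : r + e ≤ l' := le_of_tendsto_of_tendsto' (t1.add_const e) t2 fun i => (s _).2.2.1
  have o2 : l' + e ≤ μ' := le_of_tendsto_of_tendsto' (t2.add_const e) t3 fun i => (s _).2.2.2.1
  have o3 : μ' + e ≤ r + 2 * π :=
    le_of_tendsto_of_tendsto' (t3.add_const e) (t1.add_const _) fun i => (s _).2.2.2.2
  have cl : IsClosed (Lam k') := isClosed_closure
  have m1 : r ∈ Lam k' := cl.mem_of_tendsto t1 (.of_forall fun i => (tr _ _).2 hα)
  have m2 : l' ∈ Lam k' := cl.mem_of_tendsto t2 (.of_forall fun i => (tr _ _).2 hl)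
  have m3 : μ' ∈ Lam k' := cl.mem_of_tendsto t3 (.of_forall fun i => (tr _ _).2 (hμ _).1)
  obtain ⟨χ, hχ, CT⟩ := contract C.cg (f := fun i => g (φ (ψ i))) (fun i => hg _) a1 a2
    (T.comp (hφ.comp hψ).tendsto_atTop) t1 t2 t3 (by linarith) (by linarith) (by linarith)
  set f : ℕ → ℝ ≃o ℝ := fun i => g (φ (ψ (χ i))) with hf
  have u2 : Tendsto (fun i => f i l) atTop (𝓝 l') := t2.comp hχ.tendsto_atTop
  by_cases z : ∃ s, r < s ∧ s < l' ∧ s ∈ Lam k'
  · obtain ⟨s, s1, s2, s3⟩ := z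
    refine sh_of h1 s1 s2 (by linarith) (by linarith) s3 m3 fun ε hε => ?_
    obtain ⟨i, p, q⟩ := ((CT ε hε).and (Metric.tendsto_nhds.1 u2 ε hε)).exists
    exact ⟨_, C.G.inv_mem (hg _), p, by rwa [inv_inv, ← Real.dist_eq]⟩
  push Not at z
  have H : Gap k' r l' := ⟨by linarith, m1, m2, z⟩
  obtain ⟨γ, st, hy⟩ := hyp h1 k' r l' H
  have ev : ∀ᶠ i in atTop, l' < f i l ∧ f i l ≤ μ' := by
    filter_upwards [u2.eventually (lt_mem_nhds H.1),
      u2.eventually (gt_mem_nhds (show l' < μ' by linarith))] with i p q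
    refine ⟨lt_of_le_of_ne (not_lt.1 fun y => z _ p y ((tr _ _).2 hl)) fun y => ?_, q.le⟩
    have := gap_tr (g := (f i)⁻¹) (k' := k) (fun t => by rw [← tr _ _, ai]) H
    rw [y, ia] at this
    exact n2 _ this
  have A : ∀ i, ∃ j : ℕ, l' < f i l ∧ f i l ≤ μ' →
      (γ ^ j)⁻¹ (f i l) ∈ Icc (γ μ') μ' := fun i => by
    by_cases y : l' < f i l ∧ f i l ≤ μ'
    · obtain ⟨j, hj⟩ := fund hy (b := μ') (by linarith) (by linarith) y.1 y.2
      exact ⟨j, fun _ => hj⟩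
    · exact ⟨0, fun w => (y w).elim⟩
  choose j hj using A
  obtain ⟨a, ha, ω, hω, Ta⟩ := isCompact_Icc.tendsto_subseq' (x := fun i => (γ ^ j i)⁻¹ (f i l))
    (ev.mono fun i y => hj i y).frequently
  have g1 : l' < γ μ' := hy.fv.symm.trans_lt (γ.strictMono (by linarith))
  obtain ⟨t, ht, q1, q2⟩ := (c2.gapN r l' H e he).1
  refine sh_of h1 H.1 (g1.trans_le ha.1) (t := t + 2 * π) (by linarith [ha.2]) (by linarith) m2
    (lam_p c2 (subset_closure ht)) fun ε hε => ?_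
  have d0 := lt_min hε he
  obtain ⟨i, p, q⟩ := ((hω.tendsto_atTop.eventually (CT _ d0)).and
    (Metric.tendsto_nhds.1 Ta ε hε)).exists
  refine ⟨(f (ω i))⁻¹ * γ ^ j (ω i), C.G.mul_mem (C.G.inv_mem (hg _)) (C.G.pow_mem st.1 _),
    fun t s1 s2 => ?_, by rw [mul_inv_rev, inv_inv, ma, ← Real.dist_eq]; exact q⟩
  have e1 := min_le_left ε e
  have e2 := min_le_right ε e
  rw [ma]
  refine (p _ ?_ ?_).trans_le e1 <;> rcases le_total t l' with y | y
  · linarith [((pow_le hy (j (ω i))).1 t (by linarith) y).1]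
  · linarith [((pow_le hy (j (ω i))).2 t y (by linarith) (by linarith)).1]
  · linarith [((pow_le hy (j (ω i))).1 t (by linarith) y).2]
  · linarith [((pow_le hy (j (ω i))).2 t y (by linarith) (by linarith)).2]

end FCe2

theorem cell2 (h1 : Cell1St) : Cell2St := fun _ k =>
  ⟨FCe2.hyp h1 k, FCe2.fin h1 k, FCe2.v2 h1 k⟩

end Pool.Agent.Lib.MP_21f752_an
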