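import Pool.Agent.Lib.MP_21f752_an.FCg0

/-! The group of lifts is a convergence group without parabolic elements. -/

namespace Pool.Agent.Lib.MP_21f752_an

open UpperHalfPlane Set Filter Topology Metric
open scoped MatrixGroups Real ComplexConjugate

noncomputable section

namespace FCg

/-- the real linear action on half angle vectors -/
def T (γ : SL(2, ℝ)) (ζ : ℂ) : ℂ := cA γ * ζ + cB γ * conj ζ

def dt (a b : ℂ) : ℝ := (a * conj b).im

def sn (a b : ℝ) : ℝ := Real.sin ((a - b) / 2)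

lemma T_mul (γ δ : SL(2, ℝ)) (ζ : ℂ) : T (γ * δ) ζ = T γ (T δ ζ) := by
  simp only [T, A_mul, B_mul, map_add, map_mul, Complex.conj_conj]
  ring

lemma T_one (ζ : ℂ) : T 1 ζ = ζ := by simp [T, A_one, B_one]

lemma T_smul (γ : SL(2, ℝ)) (r : ℝ) (ζ : ℂ) : T γ (r * ζ) = r * T γ ζ := by
  simp only [T, map_mul, Complex.conj_ofReal]
  ring

lemma T_add (γ : SL(2, ℝ)) (a b : ℂ) : T γ (a + b) = T γ a + T γ b := by
  simp only [T, map_add]
  ring

lemma dt_T (γ : SL(2, ℝ)) (a b : ℂ) : dt (T γ a) (T γ b) = dt a b := by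
  have h := nsq γ
  simp only [dt, T, Complex.normSq_apply, Complex.add_re, Complex.add_im, Complex.mul_re,
    Complex.mul_im, Complex.conj_re, Complex.conj_im] at h ⊢
  linear_combination (a.im * b.re - a.re * b.im) * h

lemma dt_smul (r s : ℝ) (a b : ℂ) : dt (r * a) (s * b) = r * s * dt a b := by
  simp [dt]
  ring

lemma dt_ce (a b : ℝ) : dt (ce (a / 2)) (ce (b / 2)) = sn a b := by
  rw [dt, conj_ce, ← ce_add, ce, Complex.exp_ofReal_mul_I_im, sn]
  congr 1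
  ring

lemma ce_half' (t : ℝ) : ce t = ce (t / 2) * ce (t / 2) := by rw [← ce_add, add_halves]

lemma dm_T (γ : SL(2, ℝ)) (t : ℝ) :
    dm γ (ce t) * conj (T γ (ce (t / 2))) = T γ (ce (t / 2)) := by
  have h1 := ce_neg (t / 2)
  have e : conj (T γ (ce (t / 2))) = dd γ (ce t) * ce (-(t / 2)) := by
    simp only [T, dd, map_add, map_mul, conj_ce, neg_neg]
    rw [ce_half' t]
    linear_combination (-conj (cB γ) * ce (t / 2)) * h1
  rw [e, dm, ← mul_assoc, div_mul_cancel₀ _ (dd_ne γ (ce_le t)), T, conj_ce, ce_half' t]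
  linear_combination (cA γ * ce (t / 2)) * h1

lemma T_ne (γ : SL(2, ℝ)) {ζ : ℂ} (h : ζ ≠ 0) : T γ ζ ≠ 0 := by
  intro e
  apply h
  rw [← T_one ζ, ← inv_mul_cancel γ, T_mul, e]
  simp [T]

lemma Lf.rho {γ : SL(2, ℝ)} {g : ℝ ≃o ℝ} (a : Lf γ g) (t : ℝ) :
    ∃ ρ : ℝ, ρ ≠ 0 ∧ T γ (ce (t / 2)) = ρ * ce (g t / 2) := by
  have h := dm_T γ t
  rw [← a t, ce_half' (g t)] at h
  have h1 := ce_neg (g t / 2)
  have h2 : conj (T γ (ce (t / 2)) * ce (-(g t / 2))) = T γ (ce (t / 2)) * ce (-(g t / 2)) := by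
    rw [map_mul, conj_ce, neg_neg]
    linear_combination ce (-(g t / 2)) * h -
      (conj (T γ (ce (t / 2))) * ce (g t / 2)) * h1
  obtain ⟨ρ, hρ⟩ := Complex.conj_eq_iff_real.1 h2
  have e : T γ (ce (t / 2)) = ρ * ce (g t / 2) := by
    rw [← hρ]
    linear_combination (-T γ (ce (t / 2))) * h1
  refine ⟨ρ, fun h0 => T_ne γ (ce_ne (t / 2)) ?_, e⟩
  rw [e, h0]
  simp

lemma fix_of {γ : SL(2, ℝ)} {t ρ : ℝ} (h : T γ (ce (t / 2)) = ρ * ce (t / 2)) :
    dm γ (ce t) = ce t := by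
  have h1 := dm_T γ t
  have h0 : conj (T γ (ce (t / 2))) ≠ 0 := by simpa using T_ne γ (ce_ne (t / 2))
  refine mul_right_cancel₀ h0 (h1.trans ?_)
  rw [h, map_mul, Complex.conj_ofReal, conj_ce, ce_half' t]
  linear_combination (-(ρ : ℂ) * ce (t / 2)) * ce_neg (t / 2)

lemma triv {γ : SL(2, ℝ)} (h : ∀ w : ℍ, γ • w = w) (w : ℂ) : dm γ w = w := by
  obtain ⟨z0, h0⟩ := exists_cay (w := 0) (by simp)
  obtain ⟨z1, h1⟩ := exists_cay (w := 1 / 2) (by norm_num)
  have a := cay_smul γ z0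
  have b := cay_smul γ z1
  have hA : conj (cA γ) ≠ 0 := by simpa using A_ne γ
  rw [h, h0, dm, eq_div_iff (dd_ne γ (by simp))] at a
  have hB : cB γ = 0 := by simpa using a.symm
  rw [h, h1, dm, eq_div_iff (dd_ne γ (by norm_num)), dd, hB] at b
  rw [dm, dd, hB, map_zero, zero_mul, zero_add, add_zero, div_eq_iff hA]
  rw [map_zero] at b
  linear_combination (-2 * w) * b

/-- rotation -/
def rt (θ : ℝ) : SL(2, ℝ) := mkS (Real.cos θ) (Real.sin θ) (-Real.sin θ) (Real.cos θ) (by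
  linear_combination Real.cos_sq_add_sin_sq θ)

lemma T_rt (θ : ℝ) (ζ : ℂ) : T (rt θ) ζ = ce θ * ζ := by
  have a : cA (rt θ) = ce θ := by
    apply Complex.ext <;> simp [cA, rt, mkS, ce, Complex.exp_ofReal_mul_I_re,
      Complex.exp_ofReal_mul_I_im, -Complex.ofReal_cos, -Complex.ofReal_sin]
  have b : cB (rt θ) = 0 := by apply Complex.ext <;> simp [cB, rt, mkS]
  simp [T, a, b]

lemma T_at_one (γ : SL(2, ℝ)) : T γ 1 = ⟨γ 0 0, -γ 1 0⟩ := by
  apply Complex.ext <;> simp [T, cA, cB] <;> ring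

lemma T_at_I (γ : SL(2, ℝ)) : T γ (-Complex.I) = ⟨γ 0 1, -γ 1 1⟩ := by
  apply Complex.ext <;> simp [T, cA, cB] <;> ring

/-- no parabolic elements -/
lemma nopar {S : Sys} (hf : S.Free) {γ : SL(2, ℝ)} (hγ : γ ∈ S.Γ) {x ρ : ℝ} (hρ : ρ ^ 2 = 1)
    (h : T γ (ce (x / 2)) = ρ * ce (x / 2)) (w : ℍ) : γ • w = w := by
  obtain ⟨r, hr, hd⟩ := hf.disp
  obtain ⟨κ, hκ⟩ : ∃ κ, κ = (rt (x / 2))⁻¹ * γ * rt (x / 2) := ⟨_, rfl⟩
  have h1 : T κ 1 = ρ := by
    have e : T (rt (x / 2))⁻¹ (ce (x / 2)) = 1 := by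
      rw [← mul_one (ce _), ← T_rt, ← T_mul, inv_mul_cancel, T_one]
    rw [hκ, T_mul, T_mul, T_rt, mul_one, h, T_smul, e, mul_one]
  rw [T_at_one] at h1
  have a : κ 0 0 = ρ := by simpa using congrArg Complex.re h1
  have c : κ 1 0 = 0 := by simpa using congrArg Complex.im h1
  have d : κ 1 1 = ρ := by
    have := det_one κ
    rw [a, c] at this
    linear_combination ρ * this - κ 1 1 * hρ
  have hp : 0 < |κ 0 1| / r + 1 := by positivity
  obtain ⟨z, i1⟩ : ∃ z : ℍ, z.im = |κ 0 1| / r + 1 :=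
    ⟨⟨⟨0, |κ 0 1| / r + 1⟩, hp⟩, rfl⟩
  have e : ((κ • z : ℍ) : ℂ) = z + (κ 0 1 * ρ : ℝ) := by
    have h2 : (ρ : ℂ) ^ 2 = 1 := by exact_mod_cast hρ
    rw [coe_smul_mob, mob, div_eq_iff (den_ne κ z.im_pos), den, a, c, d]
    push_cast
    linear_combination (-((κ 0 1 : ℝ) : ℂ)) * h2
  have i2 : (κ • z).im = z.im := by rw [← coe_im, e]; simp
  refine hd γ hγ (rt (x / 2) • z) ?_ w
  have e2 : γ • rt (x / 2) • z = rt (x / 2) • κ • z := by simp [hκ, mul_smul]
  rw [e2, dist_smul]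
  refine (dist_le_dist_coe_div_sqrt _ _).trans_lt ?_
  have hρ' : |ρ| = 1 := by
    rw [← sq_eq_sq₀ (abs_nonneg _) zero_le_one, sq_abs, hρ, one_pow]
  rw [i2, Real.sqrt_mul_self z.im_pos.le, e, dist_self_add_left, Complex.norm_real,
    Real.norm_eq_abs, abs_mul, hρ', mul_one, i1, div_lt_iff₀ hp, mul_add, mul_div_cancel₀ _ hr.ne']
  linarith

lemma Lf.eq_one {γ : SL(2, ℝ)} {g : ℝ ≃o ℝ} (a : Lf γ g) (h : ∀ w : ℍ, γ • w = w) {x : ℝ}
    (hx : g x = x) : g = 1 := by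
  obtain ⟨k, hk⟩ := lift_uniq g.continuous continuous_id fun t => (a t).trans (triv h _)
  have h0 : (k : ℝ) * (2 * π) = 0 := by have := hk x; simp only [id] at this; linarith
  ext t
  rw [hk, h0]
  simp

lemma sn_pos {a b : ℝ} (h : b < a) (h' : a < b + 2 * π) : 0 < sn a b :=
  Real.sin_pos_of_pos_of_lt_pi (by linarith) (by linarith)

lemma sn_anti (a b : ℝ) : sn a b = -sn b a := by
  rw [sn, sn, ← Real.sin_neg]
  congr 1
  ring

lemma lt_of_sn {a b : ℝ} (h : 0 < sn a b) (h' : b < a + 2 * π) : b < a := by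
  by_contra hc
  have := Real.sin_nonpos_of_nonpos_of_neg_pi_le (x := (a - b) / 2) (by linarith) (by linarith)
  rw [sn] at h
  linarith

lemma sn_pl (a b c d : ℝ) : sn a b * sn c d = sn a c * sn b d - sn a d * sn b c := by
  simp only [sn, sub_div, Real.sin_sub]
  ring

lemma int_zero {k : ℤ} (h1 : -(2 * π) < k * (2 * π)) (h2 : k * (2 * π) < 2 * π) :
    (k : ℝ) * (2 * π) = 0 := by
  have hp := Real.pi_pos
  have a : (-1 : ℝ) < k := by nlinarith
  have b : (k : ℝ) < 1 := by nlinarith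
  have a' : -1 < k := by exact_mod_cast a
  have b' : k < 1 := by exact_mod_cast b
  have : k = 0 := by omega
  simp [this]

lemma Lf.hyp {γ : SL(2, ℝ)} {g : ℝ ≃o ℝ} (a : Lf γ g) {x l : ℝ} (hx : g x = x) (l0 : l ≠ 0)
    (l1 : l ^ 2 ≠ 1) (h : T γ (ce (x / 2)) = l * ce (x / 2)) :
    ∃ u v, Hyp g u v ∧ (x = u ∨ x = v) := by
  have hp := Real.pi_pos
  have hc := ce_neg (x / 2)
  obtain ⟨q, hq⟩ : ∃ q, T γ (Complex.I * ce (x / 2)) = q * ce (x / 2) :=
    ⟨T γ (Complex.I * ce (x / 2)) * ce (-(x / 2)), by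
      linear_combination (-T γ (Complex.I * ce (x / 2))) * hc⟩
  have q1 : l * q.im = 1 := by
    have := dt_T γ (Complex.I * ce (x / 2)) (ce (x / 2))
    rw [hq, h, dt, dt, map_mul, Complex.conj_ofReal, conj_ce, mul_assoc Complex.I, hc] at this
    have e : q * ce (x / 2) * (l * ce (-(x / 2))) = l * q := by
      linear_combination (l * q) * hc
    rw [e] at this
    simpa using this
  have ld : l⁻¹ - l ≠ 0 := fun e => l1 (by
    have : l * (l⁻¹ - l) = 0 := by rw [e, mul_zero]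
    rw [mul_sub, mul_inv_cancel₀ l0] at this
    linarith)
  set s := q.re / (l⁻¹ - l) with hs
  set Z : ℂ := s + Complex.I with hZ
  have hZi : Z.im = 1 := by simp [hZ]
  have hZ0 : (‖Z‖ : ℂ) ≠ 0 := by
    rw [Complex.ofReal_ne_zero, norm_ne_zero_iff]
    intro e
    simp [e] at hZi
  have t0 : 0 < Complex.arg Z := lt_of_le_of_ne (Complex.arg_nonneg_iff.2 (by simp [hZi])) fun e => by
    have := (Complex.arg_eq_zero_iff.1 e.symm).2
    simp [hZi] at this
  have t1 : Complex.arg Z < π := Complex.arg_lt_pi_iff.2 (Or.inr (by simp [hZi]))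
  obtain ⟨y, hy⟩ : ∃ y, y = x + 2 * Complex.arg Z := ⟨_, rfl⟩
  have xy : x < y := by linarith
  have yx : y < x + 2 * π := by linarith
  have hT : T γ (ce (y / 2)) = (l⁻¹ : ℝ) * ce (y / 2) := by
    have e : (‖Z‖ : ℂ) * ce (y / 2) = s * ce (x / 2) + Complex.I * ce (x / 2) := by
      have : y / 2 = Complex.arg Z + x / 2 := by rw [hy]; ring
      rw [this, ce_add, ← mul_assoc, ce_arg, hZ, add_mul]
    have e2 : q = ((l⁻¹ - l) * s : ℝ) + (l⁻¹ : ℝ) * Complex.I := by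
      apply Complex.ext
      · simp only [Complex.add_re, Complex.ofReal_re, Complex.mul_re, Complex.I_re, Complex.I_im,
          Complex.ofReal_im, hs]
        field_simp
        ring
      · simp only [Complex.add_im, Complex.ofReal_re, Complex.mul_im, Complex.I_re, Complex.I_im,
          Complex.ofReal_im]
        field_simp
        linarith
    refine mul_left_cancel₀ hZ0 ?_
    rw [← T_smul, mul_left_comm, e, T_add, T_smul, h, hq, e2]
    push_cast
    ring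
  have hx2 : g (x + 2 * π) = x + 2 * π := by rw [a.per', hx]
  have gy : g y = y := by
    obtain ⟨k, hk⟩ := ce_eq_iff.1 ((a y).trans (fix_of hT))
    have b1 := g.strictMono xy
    have b2 := g.strictMono yx
    rw [hx] at b1
    rw [hx2] at b2
    rw [hk, int_zero (by linarith) (by linarith), add_zero]
  have key : ∀ t, l ^ 2 * (sn (g t) t * sn y x) = sn (g t) y * sn t x * (l ^ 2 - 1) := fun t => by
    obtain ⟨ρ, -, e⟩ := a.rho t
    have d1 := dt_T γ (ce (t / 2)) (ce (x / 2))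
    have d2 := dt_T γ (ce (t / 2)) (ce (y / 2))
    rw [e, h, dt_smul, dt_ce, dt_ce] at d1
    rw [e, hT, dt_smul, dt_ce, dt_ce] at d2
    rw [sn_pl, ← d1, ← d2]
    field_simp
  have l2 : 0 < l ^ 2 := by positivity
  have s0 := sn_pos xy yx
  have in1 : ∀ t, x < t → t < y → x < g t ∧ g t < y := fun t b c =>
    ⟨hx ▸ g.strictMono b, gy ▸ g.strictMono c⟩
  have in2 : ∀ t, y < t → t < x + 2 * π → y < g t ∧ g t < x + 2 * π := fun t b c =>
    ⟨gy ▸ g.strictMono b, hx2 ▸ g.strictMono c⟩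
  have up : ∀ t, 0 < sn (g t) y * sn t x * (l ^ 2 - 1) → t < g t + 2 * π → t < g t :=
    fun t b c => lt_of_sn ((mul_pos_iff_of_pos_right s0).1
      ((mul_pos_iff_of_pos_left l2).1 (key t ▸ b))) c
  have dn : ∀ t, sn (g t) y * sn t x * (l ^ 2 - 1) < 0 → g t < t + 2 * π → g t < t := by
    intro t b c
    refine lt_of_sn ?_ c
    rw [← key, sn_anti (g t) t] at b
    by_contra hn
    have := mul_nonneg l2.le (mul_nonneg (neg_nonneg.2 (not_lt.1 hn)) s0.le)
    linarith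
  have n1 : ∀ t, x < t → t < y → sn (g t) y * sn t x < 0 := fun t b c => by
    have := in1 t b c
    rw [sn_anti (g t) y]
    exact mul_neg_of_neg_of_pos (neg_neg_of_pos (sn_pos this.2 (by linarith)))
      (sn_pos b (by linarith))
  have n2 : ∀ t, y < t → t < x + 2 * π → 0 < sn (g t) y * sn t x := fun t b c => by
    have := in2 t b c
    exact mul_pos (sn_pos this.1 (by linarith)) (sn_pos (by linarith) c)
  rcases lt_or_gt_of_ne l1 with hl | hl
  · refine ⟨x, y, ⟨xy, yx, hx, gy, fun t b c => ?_, fun t b c => ?_⟩, Or.inl rfl⟩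
    · exact up t (mul_pos_of_neg_of_neg (n1 t b c) (by linarith)) (by linarith [in1 t b c])
    · exact dn t (mul_neg_of_pos_of_neg (n2 t b c) (by linarith)) (by linarith [in2 t b c])
  · have e : ∀ t, g (t - 2 * π) = g t - 2 * π := fun t => by
      have := a.per' (t - 2 * π)
      rw [sub_add_cancel] at this
      linarith
    refine ⟨y - 2 * π, x, ⟨by linarith, by linarith, by rw [e, gy], hx, fun t b c => ?_,
      fun t b c => ?_⟩, Or.inr rfl⟩
    · have b' : y < t + 2 * π := by linarith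
      have c' : t + 2 * π < x + 2 * π := by linarith
      have := up _ (mul_pos (n2 _ b' c') (by linarith)) (by linarith [in2 _ b' c'])
      rw [a.per'] at this
      linarith
    · have c' : t < y := by linarith
      exact dn t (mul_neg_of_neg_of_pos (n1 t b c') (by linarith)) (by linarith [in1 t b c'])

lemma hy {S : Sys} (hf : S.Free) (g : ℝ ≃o ℝ) (hg : g ∈ GG S.Γ) (x : ℝ) (hx : g x = x)
    (h1 : g ≠ 1) : ∃ u v, Hyp g u v ∧ (x = u ∨ x = v) := by
  obtain ⟨γ, hγ, a⟩ := mem_iff.1 hg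
  obtain ⟨l, l0, h⟩ := a.rho x
  rw [hx] at h
  exact a.hyp hx l0 (fun l1 => h1 (a.eq_one (nopar hf hγ l1 h) hx)) h

lemma T_inv {γ : SL(2, ℝ)} {l : ℝ} {ζ : ℂ} (l0 : l ≠ 0) (h : T γ ζ = l * ζ) :
    T γ⁻¹ ζ = (l⁻¹ : ℝ) * ζ := by
  have h1 : T γ⁻¹ (T γ ζ) = ζ := by rw [← T_mul, inv_mul_cancel, T_one]
  rw [h, T_smul] at h1
  have : (l : ℂ) ≠ 0 := by exact_mod_cast l0
  push_cast
  rw [eq_inv_mul_iff_mul_eq₀ this, h1]

lemma ax {S : Sys} (hf : S.Free) (g : ℝ ≃o ℝ) (hg : g ∈ GG S.Γ) (h : ℝ ≃o ℝ) (hh : h ∈ GG S.Γ)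
    (x y : ℝ) (g1 : g ≠ 1) (gx : g x = x) (hx : h x = x) (gy : g y = y) : h y = y := by
  obtain ⟨u, v, H, huv⟩ := hy hf g hg x gx g1
  obtain ⟨γ, hγ, a⟩ := mem_iff.1 hg
  obtain ⟨η, hη, b⟩ := mem_iff.1 hh
  obtain ⟨l, l0, e⟩ := a.rho x
  obtain ⟨m, m0, e'⟩ := b.rho x
  rw [gx] at e
  rw [hx] at e'
  have c : (g * h) * (h * g)⁻¹ = 1 := by
    refine ((a.mul b).mul (b.mul a).inv).eq_one (nopar hf (S.Γ.mul_mem (S.Γ.mul_mem hγ hη)
      (S.Γ.inv_mem (S.Γ.mul_mem hη hγ))) (x := x) (ρ := 1) (one_pow 2) ?_) (x := x) ?_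
    · have l' : (l : ℂ) ≠ 0 := by exact_mod_cast l0
      have m' : (m : ℂ) ≠ 0 := by exact_mod_cast m0
      rw [mul_inv_rev, T_mul, T_mul, T_mul, T_inv m0 e', T_smul, T_inv l0 e]
      simp only [T_smul, e', e]
      push_cast
      field_simp
    · have : (h * g)⁻¹ x = x := by
        apply (h * g).injective
        rw [RelIso.apply_inv_self]
        change x = h (g x)
        rw [gx, hx]
      change g (h ((h * g)⁻¹ x)) = x
      rw [this, hx, gx]
  have comm : ∀ t, g (h t) = h (g t) := fun t =>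
    congrArg (fun k : ℝ ≃o ℝ => k t) (mul_inv_eq_one.1 c)
  have hp : 0 < 2 * π := by positivity
  have un : ∀ s t, x < s → s < x + 2 * π → x < t → t < x + 2 * π → g s = s → g t = t → s = t := by
    rcases huv with rfl | rfl
    · have : ∀ s, x < s → s < x + 2 * π → g s = s → s = v := fun s b c d => by
        rcases lt_trichotomy s v with k | k | k
        · linarith [H.up s b k]
        · exact k
        · linarith [H.dn s k c]
      exact fun s t b c b' c' d d' => (this s b c d).trans (this t b' c' d').symm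
    · have : ∀ s, x < s → s < x + 2 * π → g s = s → s = u + 2 * π := fun s b c d => by
        rcases lt_trichotomy s (u + 2 * π) with k | k | k
        · linarith [H.dn s b k]
        · exact k
        · have := a.per' (s - 2 * π)
          rw [sub_add_cancel] at this
          linarith [H.up (s - 2 * π) (by linarith) (by linarith)]
      exact fun s t b c b' c' d d' => (this s b c d).trans (this t b' c' d').symm
  obtain ⟨y', k, y1, y2, rfl⟩ : ∃ (y' : ℝ) (k : ℤ), x ≤ y' ∧ y' < x + 2 * π ∧ y = y' + k * (2 * π) := by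
    have := sub_toIcoDiv_zsmul_mem_Ico hp x y
    rw [zsmul_eq_mul] at this
    exact ⟨_, toIcoDiv hp x y, this.1, this.2, by ring⟩
  rw [a.per, add_left_inj] at gy
  rw [b.per, add_left_inj]
  rcases y1.eq_or_lt with rfl | y1
  · exact hx
  · have b1 := h.strictMono y1
    have b2 := h.strictMono y2
    rw [hx] at b1
    rw [b.per', hx] at b2
    exact un _ _ b1 b2 y1 y2 (by rw [comm, gy]) gy

lemma cosh_I (γ : SL(2, ℝ)) :
    Real.cosh (dist (γ • UpperHalfPlane.I) UpperHalfPlane.I) = 1 + 2 * ‖cB γ‖ ^ 2 := by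
  have h0 := den_ne γ UpperHalfPlane.I.im_pos
  have hn := Complex.normSq_pos.2 h0
  have e : mob γ (UpperHalfPlane.I : ℍ) - (UpperHalfPlane.I : ℍ) =
      2 * Complex.I * cB γ / den γ (UpperHalfPlane.I : ℍ) := by
    rw [mob, eq_div_iff h0, sub_mul, div_mul_cancel₀ _ h0]
    apply Complex.ext <;> simp [den, cB] <;> ring
  rw [cosh_dist, ← coe_im (γ • _), coe_smul_mob, mob_im γ UpperHalfPlane.I.im_pos, dist_eq_norm, e,
    norm_div, div_pow, ← Complex.normSq_eq_norm_sq (den _ _)]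
  simp only [norm_mul, Complex.norm_I, Complex.norm_ofNat, coe_im, UpperHalfPlane.I_im]
  field_simp

lemma coc (S : Sys) : ∃ e, 0 < e ∧ ∀ x y z : ℝ, x < y → y < z → z < x + 2 * π →
    ∃ g ∈ GG S.Γ, g x + e ≤ g y ∧ g y + e ≤ g z ∧ g z + e ≤ g x + 2 * π := by
  obtain ⟨M, M0, hM⟩ : ∃ M, 0 < M ∧ ∀ κ : SL(2, ℝ),
      dist (κ • UpperHalfPlane.I) UpperHalfPlane.I ≤ S.R0 → ∀ ζ, ‖ζ‖ ≤ 2 → ‖T κ ζ‖ ≤ M := by
    refine ⟨4 * Real.cosh S.R0, by positivity, fun κ h ζ hζ => ?_⟩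
    have h1 : Real.cosh (dist (κ • UpperHalfPlane.I) UpperHalfPlane.I) ≤ Real.cosh S.R0 :=
      Real.cosh_le_cosh.2 (by rw [abs_of_nonneg dist_nonneg]; exact h.trans (le_abs_self _))
    rw [cosh_I] at h1
    have h2 := nsq' κ
    have h3 := B_lt κ
    have h4 : ‖cA κ‖ ≤ Real.cosh S.R0 := by
      refine le_of_sq_le_sq ?_ (Real.cosh_pos _).le
      nlinarith [Real.one_le_cosh S.R0, sq_nonneg ‖cB κ‖]
    refine (norm_add_le _ _).trans ?_
    rw [norm_mul, norm_mul, Complex.norm_conj]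
    nlinarith [norm_nonneg ζ, norm_nonneg (cB κ)]
  refine ⟨2 / M ^ 2, by positivity, fun x y z xy yz zx => ?_⟩
  have l1 := sn_pos yz (by linarith)
  have l2 := sn_pos (xy.trans yz) zx
  have l3 := sn_pos xy (by linarith)
  obtain ⟨μ, μ0, hμ⟩ : ∃ μ : ℝ, 0 < μ ∧ μ * μ * (sn z y * sn z x * sn y x) = 1 := by
    have hp : 0 < sn z y * sn z x * sn y x := by positivity
    refine ⟨(√(sn z y * sn z x * sn y x))⁻¹, by positivity, ?_⟩
    rw [← mul_inv, Real.mul_self_sqrt hp.le, inv_mul_cancel₀ hp.ne']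
  set P1 : ℂ := (μ * sn z x : ℝ) * ce (y / 2) with h1
  set P2 : ℂ := (μ * sn z y : ℝ) * ce (x / 2) with h2
  have hd : dt P1 P2 = 1 := by rw [h1, h2, dt_smul, dt_ce]; linarith
  have h3 : P1 - P2 = (μ * sn y x : ℝ) * ce (z / 2) := by
    apply Complex.ext <;>
      simp only [h1, h2, ce, Complex.sub_re, Complex.sub_im, Complex.re_ofReal_mul,
        Complex.im_ofReal_mul, Complex.exp_ofReal_mul_I_re, Complex.exp_ofReal_mul_I_im, sn,
        sub_div, Real.sin_sub] <;> ring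
  set σ := mkS P1.re P2.re (-P1.im) (-P2.im) (by
    simp only [dt, Complex.mul_im, Complex.conj_re, Complex.conj_im] at hd
    linarith) with hσ
  have s1 : T σ 1 = P1 := by rw [T_at_one]; apply Complex.ext <;> simp [hσ, mkS]
  have s2 : T σ (-Complex.I) = P2 := by rw [T_at_I]; apply Complex.ext <;> simp [hσ, mkS]
  have s3 : T σ (1 + Complex.I) = P1 - P2 := by
    rw [← s1, ← s2]
    simp only [T, map_add, map_neg]
    ring
  obtain ⟨γ, hγ, hR⟩ := S.cov (σ • UpperHalfPlane.I)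
  rw [← mul_smul] at hR
  obtain ⟨g, a, -⟩ := exists_lf γ
  have k : ∀ (ζ : ℂ) (c t : ℝ), ‖ζ‖ ≤ 2 → T σ ζ = c * ce (t / 2) →
      ∃ ρ : ℝ, |ρ| ≤ M ∧ T (γ * σ) ζ = ρ * ce (g t / 2) := fun ζ c t b e => by
    obtain ⟨ρ, -, hρ⟩ := a.rho t
    have e2 : T (γ * σ) ζ = (c * ρ : ℝ) * ce (g t / 2) := by
      rw [T_mul, e, T_smul, hρ]
      push_cast
      ring
    refine ⟨c * ρ, ?_, e2⟩
    have := hM _ hR ζ b
    rwa [e2, norm_mul, norm_ce, mul_one, Complex.norm_real] at this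
  obtain ⟨r1, b1, e1⟩ := k 1 _ y (by simp) (s1.trans h1)
  obtain ⟨r2, b2, e2⟩ := k (-Complex.I) _ x (by simp) (s2.trans h2)
  obtain ⟨r3, b3, e3⟩ := k (1 + Complex.I) _ z ((norm_add_le _ _).trans (by norm_num)) (s3.trans h3)
  have fin : ∀ r r' d : ℝ, |r| ≤ M → |r'| ≤ M → 0 ≤ d → |r * r' * Real.sin (d / 2)| = 1 →
      2 / M ^ 2 ≤ d := fun r r' d b b' d0 e => by
    have := Real.abs_sin_le_abs (x := d / 2)
    rw [abs_of_nonneg (a := d / 2) (by linarith)] at this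
    rw [abs_mul, abs_mul] at e
    have h5 : |r| * |r'| * |Real.sin (d / 2)| ≤ M * M * (d / 2) := by gcongr
    rw [div_le_iff₀ (by positivity)]
    linarith
  have d1 := dt_T (γ * σ) 1 (-Complex.I)
  have d2 := dt_T (γ * σ) (1 + Complex.I) 1
  have d3 := dt_T (γ * σ) (1 + Complex.I) (-Complex.I)
  rw [e1, e2, dt_smul, dt_ce, sn] at d1
  rw [e3, e1, dt_smul, dt_ce, sn] at d2
  rw [e3, e2, dt_smul, dt_ce, sn] at d3
  have m1 := g.strictMono xy
  have m2 := g.strictMono yz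
  have m3 := g.strictMono zx
  rw [a.per'] at m3
  have f1 := fin r1 r2 (g y - g x) b1 b2 (by linarith) (by rw [d1]; simp [dt])
  have f2 := fin r3 r1 (g z - g y) b3 b1 (by linarith) (by rw [d2]; simp [dt])
  have f3 := fin r3 r2 (g x + 2 * π - g z) b3 b2 (by linarith) (by
    have : (g x + 2 * π - g z) / 2 = π - (g z - g x) / 2 := by ring
    rw [this, Real.sin_pi_sub, d3]
    simp [dt])
  exact ⟨g, mem_iff.2 ⟨γ, hγ, a⟩, by linarith, by linarith, by linarith⟩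

lemma one_sub (γ : SL(2, ℝ)) : 1 - ‖dm γ 0‖ ^ 2 = 1 / ‖cA γ‖ ^ 2 := by
  have := A_pos γ
  simp only [dm, dd, mul_zero, zero_add, norm_div, Complex.norm_conj, div_pow]
  field_simp
  linarith [nsq' γ]

lemma norm_inv0 (γ : SL(2, ℝ)) : ‖dm γ⁻¹ 0‖ = ‖dm γ 0‖ := by
  simp [dm, dd, A_inv, B_inv]

/-- uniform convergence away from the repelling point -/
lemma unif {γ : ℕ → SL(2, ℝ)} {α ρ : ℂ} (h1 : Tendsto (fun n => dm (γ n) 0) atTop (𝓝 α))
    (h2 : Tendsto (fun n => dm (γ n)⁻¹ 0) atTop (𝓝 ρ)) (ha : ‖α‖ = 1) (hr : ‖ρ‖ = 1) {ε : ℝ}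
    (hε : 0 < ε) : ∀ᶠ n in atTop, ∀ w, ‖w‖ ≤ 1 → ε ≤ ‖w - ρ‖ → ‖dm (γ n) w - α‖ < ε := by
  have h3 : Tendsto (fun n => 1 - ‖dm (γ n) 0‖ ^ 2) atTop (𝓝 0) := by
    simpa [ha] using (h1.norm.pow 2).const_sub 1
  filter_upwards [h1.eventually (ball_mem_nhds α (half_pos hε)),
    h2.eventually (ball_mem_nhds ρ (half_pos hε)),
    h3.eventually (gt_mem_nhds (show 0 < ε / 2 * (ε / 2) by positivity))] with n a b c w hw hd
  rw [dist_eq_norm] at a b
  have hA := A_pos (γ n)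
  have hA' : conj (cA (γ n)) ≠ 0 := by simpa using A_ne (γ n)
  have e : dd (γ n) w = conj (cA (γ n)) * (1 - conj (dm (γ n)⁻¹ 0) * w) := by
    simp only [dm, dd, A_inv, B_inv, mul_zero, zero_add, Complex.conj_conj, map_div₀, map_neg]
    field_simp
    ring
  have e2 : ε / 2 ≤ ‖1 - conj (dm (γ n)⁻¹ 0) * w‖ := by
    have r1 : conj ρ * ρ = 1 := by
      rw [Complex.conj_mul', hr]
      simp
    have r2 : -(conj ρ * (w - ρ)) =
        (1 - conj (dm (γ n)⁻¹ 0) * w) + conj (dm (γ n)⁻¹ 0 - ρ) * w := by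
      rw [map_sub]
      linear_combination r1
    have r3 := norm_add_le (1 - conj (dm (γ n)⁻¹ 0) * w) (conj (dm (γ n)⁻¹ 0 - ρ) * w)
    rw [← r2, norm_neg, norm_mul, norm_mul, Complex.norm_conj, Complex.norm_conj, hr] at r3
    have := mul_le_mul_of_nonneg_left hw (norm_nonneg (dm (γ n)⁻¹ 0 - ρ))
    linarith
  have e3 : ‖dm (γ n) w - dm (γ n) 0‖ < ε / 2 := by
    rw [dm_sub _ hw (by simp), e, norm_div, norm_mul, norm_mul, sub_zero]
    simp only [dd, mul_zero, zero_add, Complex.norm_conj]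
    rw [one_sub, div_lt_iff₀ (by positivity)] at c
    rw [div_lt_iff₀ (mul_pos (mul_pos hA ((half_pos hε).trans_le e2)) hA)]
    have := mul_le_mul_of_nonneg_left e2 (show 0 ≤ ε / 2 * ‖cA (γ n)‖ ^ 2 by positivity)
    nlinarith
  have := norm_sub_le_norm_sub_add_norm_sub (dm (γ n) w) (dm (γ n) 0) α
  linarith

lemma far {s t ε : ℝ} (h0 : 0 < ε) (h1 : ε < π) (a : ε ≤ |s - t|) (b : |s - t| ≤ 2 * π - ε) :
    2 * Real.sin (ε / 2) ≤ ‖ce s - ce t‖ := by
  have e : |Real.sin ((s - t) / 2)| = |Real.sin (|s - t| / 2)| := by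
    rcases abs_choice (s - t) with h | h
    · rw [h]
    · rw [h, neg_div, Real.sin_neg, abs_neg]
  rw [norm_ce_sub, e]
  refine mul_le_mul_of_nonneg_left (le_trans ?_ (le_abs_self _)) zero_le_two
  rcases le_total |s - t| π with c | c
  · exact Real.sin_le_sin_of_le_of_le_pi_div_two (by linarith) (by linarith) (by linarith)
  · rw [← Real.sin_pi_sub (|s - t| / 2)]
    exact Real.sin_le_sin_of_le_of_le_pi_div_two (by linarith) (by linarith) (by linarith)

lemma ctr {γ : ℕ → SL(2, ℝ)} {h : ℕ → ℝ ≃o ℝ} {a r : ℝ}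
    (h1 : Tendsto (fun n => dm (γ n) 0) atTop (𝓝 (ce a)))
    (h2 : Tendsto (fun n => dm (γ n)⁻¹ 0) atTop (𝓝 (ce r))) (l : ∀ n, Lf (γ n) (h n))
    (c : ∀ n, |h n (r + π) - a| ≤ π) (ε : ℝ) (hε : 0 < ε) : ∀ᶠ n in atTop, Ctr (h n) r a ε := by
  have hp := Real.pi_pos
  wlog h3 : ε < π generalizing ε
  · filter_upwards [this (π / 2) (by linarith) (by linarith)] with n hn t b b'
    exact (hn t (by linarith) (by linarith)).trans (by linarith)
  have s0 : 0 < 2 * Real.sin (ε / 2) :=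
    mul_pos two_pos (Real.sin_pos_of_pos_of_lt_pi (by linarith) (by linarith))
  filter_upwards [unif h1 h2 (norm_ce a) (norm_ce r) s0] with n hn
  have k : ∀ t ∈ Icc (r + ε) (r + 2 * π - ε), ε ≤ |h n t - a| → |h n t - a| ≤ π → False := by
    intro t ht b b'
    have := hn (ce t) (ce_le t) (far hε h3 (by rw [abs_of_nonneg] <;> linarith [ht.1])
      (by rw [abs_of_nonneg] <;> linarith [ht.1, ht.2]))
    rw [← l n t] at this
    linarith [far hε h3 b (by linarith)]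
  intro t b b'
  by_contra hc
  have m : r + π ∈ Icc (r + ε) (r + 2 * π - ε) := ⟨by linarith, by linarith⟩
  have c0 : |h n (r + π) - a| ≤ ε := le_of_not_gt fun e => k _ m e.le (c n)
  obtain ⟨s, hs, e⟩ := isPreconnected_Icc.intermediate_value m ⟨b, b'⟩
    (f := fun t => |h n t - a|) ((h n).continuous.sub continuous_const).abs.continuousOn
    ⟨c0, not_lt.1 hc⟩
  exact k s hs e.ge (e.le.trans h3.le)

lemma cd (S : Sys) (g : ℕ → ℝ ≃o ℝ) (hg : ∀ n, g n ∈ GG S.Γ) :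
    ∃ (φ : ℕ → ℕ) (h : ℕ → ℝ ≃o ℝ) (k : ℕ → ℤ),
    StrictMono φ ∧ (∀ n, h n ∈ GG S.Γ) ∧ (∀ n t, h n t = g (φ n) t + k n * (2 * π)) ∧
      ((∀ n, h n = h 0) ∨ ∃ r a, ∀ ε, 0 < ε → ∀ᶠ n in atTop, Ctr (h n) r a ε) := by
  choose γ hγ a using fun n => mem_iff.1 (hg n)
  by_cases hc : ∃ γ0, ∃ᶠ n in atTop, γ n = γ0
  · obtain ⟨γ0, h0⟩ := hc
    obtain ⟨φ, hφ, e⟩ := extraction_of_frequently_atTop h0
    choose k hk using fun n => (a (φ 0)).uniq ((e n).trans (e 0).symm ▸ a (φ n))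
    exact ⟨φ, fun _ => g (φ 0), k, hφ, fun _ => hg _, hk, Or.inl fun _ => rfl⟩
  have h1 : Tendsto (fun n => ‖cA (γ n)‖ ^ 2) atTop atTop := by
    refine tendsto_atTop.2 fun M => ?_
    have := ((S.fin (2 * M)).eventually_all (l := atTop) (p := fun δ n => γ n ≠ δ)).2
      fun δ _ => not_frequently.1 fun e => hc ⟨_, e⟩
    filter_upwards [this] with n hn
    by_contra hlt
    refine hn ⟨γ n, hγ n⟩ ?_ rfl
    have c1 := cosh_I (γ n)
    have c2 := nsq' (γ n)
    have c3 := Real.sinh_lt_cosh (dist (γ n • UpperHalfPlane.I) UpperHalfPlane.I)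
    have c4 := Real.self_le_sinh_iff.2
      (dist_nonneg (x := γ n • UpperHalfPlane.I) (y := UpperHalfPlane.I))
    change dist (γ n • UpperHalfPlane.I) UpperHalfPlane.I ≤ _
    linarith
  have h2 : Tendsto (fun n => ‖dm (γ n) 0‖ ^ 2) atTop (𝓝 1) := by
    have := (h1.const_div_atTop 1).const_sub 1
    simp only [← one_sub, sub_sub_cancel, sub_zero] at this
    exact this
  obtain ⟨⟨α, ρ⟩, -, φ, hφ, hl⟩ := ((isCompact_closedBall (0 : ℂ) 1).prod
    (isCompact_closedBall (0 : ℂ) 1)).tendsto_subseq (x := fun n => (dm (γ n) 0, dm (γ n)⁻¹ 0))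
      fun n => ⟨by simpa using dm_norm _ (by simp), by simpa using dm_norm _ (by simp)⟩
  have t1 : Tendsto (fun n => dm (γ (φ n)) 0) atTop (𝓝 α) := (continuous_fst.tendsto _).comp hl
  have t2 : Tendsto (fun n => dm (γ (φ n))⁻¹ 0) atTop (𝓝 ρ) := (continuous_snd.tendsto _).comp hl
  have k : ∀ β : ℂ, ‖β‖ ^ 2 = 1 → ce (Complex.arg β) = β := fun β e => by
    have h3 : ‖β‖ = 1 := by rw [← sq_eq_sq₀ (norm_nonneg _) zero_le_one, e, one_pow]
    simpa [h3] using ce_arg β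
  rw [← k α (tendsto_nhds_unique (t1.norm.pow 2) (h2.comp hφ.tendsto_atTop))] at t1
  rw [← k ρ (tendsto_nhds_unique (t2.norm.pow 2) (by
    simpa only [norm_inv0, Function.comp_def] using h2.comp hφ.tendsto_atTop))] at t2
  have hp : 0 < 2 * π := by positivity
  have ex : ∀ n, ∃ (h : ℝ ≃o ℝ) (j : ℤ), Lf (γ (φ n)) h ∧ (∀ t, h t = g (φ n) t + j * (2 * π)) ∧
      |h (Complex.arg ρ + π) - Complex.arg α| ≤ π := fun n => by
    obtain ⟨h, b, c⟩ := (a (φ n)).shift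
      (-toIcoDiv hp (Complex.arg α - π) (g (φ n) (Complex.arg ρ + π)))
    refine ⟨h, _, b, c, ?_⟩
    have := sub_toIcoDiv_zsmul_mem_Ico hp (Complex.arg α - π) (g (φ n) (Complex.arg ρ + π))
    rw [zsmul_eq_mul] at this
    rw [c]
    push_cast
    exact abs_le.2 ⟨by linarith [this.1], by linarith [this.2]⟩
  choose h j b c d using ex
  exact ⟨φ, h, j, hφ, fun n => mem_iff.2 ⟨_, hγ _, b n⟩, c, Or.inr ⟨_, _, ctr t1 t2 b d⟩⟩

end FCg

open FCg in
theorem cg : CgSt := fun S hf =>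
  ⟨fun _ hg => (mem_iff.1 hg).elim fun _ a => a.2.per',
    ⟨OrderIso.addRight (2 * π), mem_iff.2 ⟨1, S.Γ.one_mem, fun t => by
      rw [dm_one]; exact ce_per' t⟩, fun _ => rfl⟩, cd S, coc S, hy hf,
    fun g hg h hh x y g1 _ gx hx gy => ax hf g hg h hh x y g1 gx hx gy⟩

end

end Pool.Agent.Lib.MP_21f752_an
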