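import Pool.Agent.Lib.MP_21f752_an.FG

/-! Exponentially many translates reached in linear time force positive entropy. -/

namespace Pool.Agent.Lib.MP_21f752_an

open UpperHalfPlane Set Filter Topology Metric
open scoped MatrixGroups ContDiff Real

noncomputable section

namespace FCnt

/-- orbits from one point with the same itinerary stay close -/
lemma cover (S : Sys) (hf : S.Free) : ∃ (r : ℝ) (m : ℕ) (O : Fin m → Set N), (∀ i, IsOpen (O i)) ∧
    (∀ i, S.Inv fun ξ => ξ ∈ O i) ∧ (∀ ξ, ∃ i, ξ ∈ O i) ∧ 0 < r ∧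
    ∀ i, ∀ ξ ∈ O i, ∀ ζ ∈ O i, dist ξ.1 ζ.1 < r → dist (S.φ 1 ξ).1 (S.φ 1 ζ).1 < r := by
  obtain ⟨r, hr0, hr⟩ := hf.disp
  let U : N → Set N := fun x => {ξ | ∃ γ ∈ S.Γ, dist ξ.1 (γ • x.1) < r / 4 ∧
    dist (S.φ 1 ξ).1 (γ • (S.φ 1 x).1) < r / 4}
  have Uo : ∀ x, IsOpen (U x) := fun x => by
    have : U x = ⋃ γ ∈ S.Γ, {ξ | dist ξ.1 (γ • x.1) < r / 4} ∩
        {ξ | dist (S.φ 1 ξ).1 (γ • (S.φ 1 x).1) < r / 4} := by
      ext ξ
      simp only [U, mem_ofPred_eq, mem_iUnion, mem_inter_iff, exists_prop]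
    rw [this]
    exact isOpen_biUnion fun γ _ => (isOpen_lt (by fun_prop) continuous_const).inter (isOpen_lt
      ((S.continuous_φ.comp (continuous_const.prodMk continuous_id)).fst.dist continuous_const)
      continuous_const)
  have Ui : ∀ x, S.Inv fun ξ => ξ ∈ U x := fun x δ hδ k ξ => by
    simp only [U, mem_ofPred_eq, S.φ_gg hδ, eq_iff_iff]
    constructor
    · rintro ⟨γ, hγ, a, b⟩
      refine ⟨δ⁻¹ * γ, S.Γ.mul_mem (S.Γ.inv_mem hδ) hγ, ?_⟩
      rw [← dist_smul δ, ← dist_smul δ (S.φ 1 ξ).1]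
      simpa [mul_smul, gg] using And.intro a b
    · rintro ⟨γ, hγ, a, b⟩
      refine ⟨δ * γ, S.Γ.mul_mem hδ hγ, ?_⟩
      simpa [mul_smul, gg] using And.intro a b
  obtain ⟨t, ht⟩ := S.K0_compact.elim_finite_subcover U Uo fun x _ =>
    mem_iUnion.2 ⟨x, 1, S.Γ.one_mem, by simpa using hr0, by simpa using hr0⟩
  refine ⟨r / 2, t.card, fun i => U (t.equivFin.symm i), fun i => Uo _, fun i => Ui _, fun ξ => ?_,
    by positivity, ?_⟩
  · obtain ⟨γ, hγ, k, hk⟩ := S.exists_gg ξ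
    obtain ⟨x, hx, e⟩ := mem_iUnion₂.1 (ht hk)
    exact ⟨t.equivFin ⟨x, hx⟩, by simpa using (Ui x γ hγ k ξ).mp e⟩
  rintro i ξ ⟨γ, hγ, b1, b2⟩ ζ ⟨γ', hγ', c1, c2⟩ a
  generalize (t.equivFin.symm i : N) = x at *
  have := hr (γ⁻¹ * γ') (S.Γ.mul_mem (S.Γ.inv_mem hγ) hγ') x.1 (by
    rw [← dist_smul γ, mul_smul, smul_inv_smul]
    have := dist_triangle4 (γ' • x.1) ζ.1 ξ.1 (γ • x.1)
    rw [dist_comm] at c1 a
    linarith) (S.φ 1 x).1
  rw [mul_smul, inv_smul_eq_iff] at this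
  rw [this] at c2
  linarith [dist_triangle_right (S.φ 1 ξ).1 (S.φ 1 ζ).1 (γ • (S.φ 1 x).1)]

end FCnt

theorem cnt : CntSt := by
  classical
  rintro G ⟨p, C, R, h⟩ hz
  obtain ⟨r, m, O, O1, O2, O3, r0, st⟩ := FCnt.cover G.toSys G.free
  obtain ⟨D, -, hD⟩ := G.toSys.disp 1
  set η := 1 / (8 * (|C| + 1)) with hη
  have hη0 : 0 < η := by positivity
  obtain ⟨A, hA⟩ := hz m O O1 O2 O3 η hη0
  set T := (G.fin (2 * R + 2 * D + r)).toFinset with hT
  have count : ∀ n : ℕ, (2 : ℝ) ^ n ≤ T.card * (|A| / η) * Real.exp ((n + 1) / 4) := by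
    intro n
    obtain ⟨γ, g1, g2, g3⟩ := h n
    choose θ t t0 t1 t2 using g3
    set k := ⌊|C| * (n + 1)⌋₊ + 1 with hk
    obtain ⟨W, hW, hw⟩ := hA k
    choose v v1 v2 using fun w => hw (p, θ w)
    have tk : ∀ w, ⌊t w⌋₊ < k := fun w => Nat.lt_succ_of_le (Nat.floor_le_floor
      ((t1 w).trans (mul_le_mul_of_nonneg_right (le_abs_self C) (by positivity))))
    have fw : ∀ w w', v w = v w' → ∀ j : ℕ, j < k →
        dist (G.φ j (p, θ w)).1 (G.φ j (p, θ w')).1 < r := by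
      intro w w' e j
      induction j with
      | zero =>
        intro _
        simpa [G.φ_zero] using r0
      | succ j ih =>
        intro hj
        have := st (v w ⟨j, by omega⟩) _ (v2 w ⟨j, by omega⟩) _ (e ▸ v2 w' ⟨j, by omega⟩)
          (ih (by omega))
        rw [← G.φ_add, ← G.φ_add, add_comm] at this
        push_cast
        exact this
    have near : ∀ w, dist (G.φ (⌊t w⌋₊ : ℕ) (p, θ w)).1 (γ w • UpperHalfPlane.I) ≤ D + R := by
      intro w
      have := hD (p, θ w) (t w) (⌊t w⌋₊ : ℕ) (by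
        have := Nat.floor_le (t0 w)
        have := Nat.lt_floor_add_one (t w)
        rw [abs_le]
        constructor <;> linarith)
      linarith [dist_triangle (G.φ (⌊t w⌋₊ : ℕ) (p, θ w)).1 (G.φ (t w) (p, θ w)).1
        (γ w • UpperHalfPlane.I), t2 w]
    have hc := Finset.card_le_mul_card_image_of_maps_to (s := Finset.univ)
      (t := W ×ˢ Finset.range k) (f := fun w => (v w, ⌊t w⌋₊))
      (fun w _ => Finset.mem_product.2 ⟨v1 w, Finset.mem_range.2 (tk w)⟩) T.card fun b _ => by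
        rcases (Finset.univ.filter fun w => (v w, ⌊t w⌋₊) = b).eq_empty_or_nonempty with e | ⟨w0, e⟩
        · simp [e]
        refine Finset.card_le_card_of_injOn
          (fun w => (⟨(γ w0)⁻¹ * γ w, G.Γ.mul_mem (G.Γ.inv_mem (g1 _)) (g1 _)⟩ : G.Γ))
          (fun w hw => ?_) fun w _ w' _ e' => g2 (mul_left_cancel (congrArg Subtype.val e'))
        obtain ⟨e1, e2⟩ := Prod.ext_iff.1
          ((Finset.mem_filter.1 hw).2.trans (Finset.mem_filter.1 e).2.symm)
        simp only at e1 e2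
        have a := fw w w0 e1 _ (tk w)
        have b1 := near w
        have b2 := near w0
        rw [← e2] at b2
        rw [dist_comm] at b1
        have := dist_triangle4 (γ w • UpperHalfPlane.I) (G.φ (⌊t w⌋₊ : ℕ) (p, θ w)).1
          (G.φ (⌊t w⌋₊ : ℕ) (p, θ w0)).1 (γ w0 • UpperHalfPlane.I)
        simp only [hT, Finite.coe_toFinset, mem_ofPred_eq]
        rw [← dist_smul (γ w0), mul_smul, smul_inv_smul]
        linarith
    rw [Finset.card_product, Finset.card_range, Finset.card_univ, Fintype.card_fun, Fintype.card_bool,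
      Fintype.card_fin] at hc
    have hc' : (2 : ℝ) ^ n ≤ T.card * (W.card * k) := by exact_mod_cast hc
    have n0 : (0 : ℝ) ≤ n := Nat.cast_nonneg n
    have a1 : (k : ℝ) ≤ Real.exp (η * k) / η := by
      rw [le_div_iff₀ hη0]
      linarith [Real.add_one_le_exp (η * k)]
    have a2 : η * k + η * k ≤ (n + 1) / 4 := by
      have := Nat.floor_le (show 0 ≤ |C| * ((n : ℝ) + 1) by positivity)
      have e : η * ((|C| + 1) * (n + 1)) = (n + 1) / 8 := by rw [hη]; field_simp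
      have : η * k ≤ η * ((|C| + 1) * (n + 1)) :=
        mul_le_mul_of_nonneg_left (by rw [hk]; push_cast; nlinarith) hη0.le
      linarith
    rw [mul_assoc]
    refine hc'.trans (mul_le_mul_of_nonneg_left ?_ (Nat.cast_nonneg _))
    calc _ ≤ |A| * Real.exp (η * k) * (Real.exp (η * k) / η) :=
          mul_le_mul (hW.trans (by gcongr; exact le_abs_self A)) a1 (by positivity) (by positivity)
      _ = |A| / η * Real.exp (η * k + η * k) := by rw [Real.exp_add]; ring
      _ ≤ _ := by gcongr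
  obtain ⟨n, hn⟩ := exists_nat_gt (4 * (T.card * (|A| / η) * Real.exp (1 / 4)))
  have a := count n
  have b : Real.exp ((n : ℝ) / 4) * Real.exp (n / 4) ≤ 2 ^ n := by
    rw [← Real.exp_add, show (n : ℝ) / 4 + n / 4 = n * (1 / 2) by ring, Real.exp_nat_mul]
    refine pow_le_pow_left₀ (Real.exp_pos _).le ?_ n
    rw [← Real.le_log_iff_exp_le two_pos]
    linarith [Real.log_two_gt_d9]
  have c := Real.add_one_le_exp ((n : ℝ) / 4)
  have d := Real.exp_pos ((n : ℝ) / 4)
  rw [add_div, Real.exp_add] at a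
  generalize Real.exp ((n : ℝ) / 4) = x at *
  nlinarith

end

end Pool.Agent.Lib.MP_21f752_an
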