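import Pool.Agent.Lib.MP_21f752_an.FA

/-! Positive curves over normal segments, as limits of fronts focused in the past. -/

namespace Pool.Agent.Lib.MP_21f752_an

open UpperHalfPlane Set Filter Topology Metric MeasureTheory
open scoped MatrixGroups ContDiff Real

noncomputable section

namespace FCur

lemma ode {g : ℝ × ℝ → ℝ} {θ r M : ℝ} (hr : 0 < r) (hM : 0 ≤ M)
    (hg : ∀ w ∈ closedBall ((0 : ℝ), θ) (2 * r), ContDiffAt ℝ 1 g w ∧ |g w| ≤ M) :
    ∃ a : ℝ → ℝ, a 0 = θ ∧ (∀ s s', |a s - a s'| ≤ M * |s - s'|) ∧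
      ∀ s, |s| ≤ r / (M + 1) → HasDerivAt a (g (s, a s)) s := by
  let χ : ContDiffBump ((0 : ℝ), θ) := ⟨r, 2 * r, hr, by linarith⟩
  set R : ℝ × ℝ → ℝ × ℝ := fun w => ((0 : ℝ), θ) + χ w • (w - (0, θ)) with hR
  have R1 : ∀ w, R w ∈ closedBall ((0 : ℝ), θ) (2 * r) := by
    intro w
    rw [mem_closedBall, dist_eq_norm, hR]
    simp only [add_sub_cancel_left, norm_smul, Real.norm_of_nonneg χ.nonneg]
    by_cases hw : w ∈ closedBall ((0 : ℝ), θ) (2 * r)
    · rw [mem_closedBall, dist_eq_norm] at hw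
      calc _ ≤ 1 * ‖w - (0, θ)‖ := mul_le_mul_of_nonneg_right χ.le_one (norm_nonneg _)
        _ ≤ _ := by rw [one_mul]; exact hw
    · rw [χ.zero_of_le_dist (by simpa using (not_le.1 hw).le), zero_mul]
      linarith
  have R2 : ContDiff ℝ 1 R := contDiff_const.add (χ.contDiff.smul (contDiff_id.sub contDiff_const))
  have F1 : ContDiff ℝ 1 fun w : ℝ × ℝ => ((1 : ℝ), g (R w)) :=
    contDiff_const.prodMk (contDiff_iff_contDiffAt.2 fun w =>
      (hg _ (R1 w)).1.comp w R2.contDiffAt)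
  obtain ⟨x, hx0, hx⟩ := MMT.exists_global_of_bounded (MP_0cc5e8_gt.flowLipB F1) (B := max 1 M)
    (fun w => by
      rw [Prod.norm_def]
      exact max_le_max (by simp) (hg _ (R1 w)).2) (0, θ)
  have x1 : ∀ s, (x s).1 = s := by
    intro s
    have d : ∀ s, HasDerivAt (fun s => (x s).1 - s) 0 s := fun s =>
      (((ContinuousLinearMap.fst ℝ ℝ ℝ).hasFDerivAt.comp_hasDerivAt s (hx s)).sub
        (hasDerivAt_id s)).congr_deriv (by simp)
    have := is_const_of_deriv_eq_zero (fun s => (d s).differentiableAt) (fun s => (d s).deriv) s 0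
    rw [hx0] at this
    simpa [sub_eq_zero] using this
  have x2 : ∀ s, HasDerivAt (fun s => (x s).2) (g (R (x s))) s := fun s =>
    (ContinuousLinearMap.snd ℝ ℝ ℝ).hasFDerivAt.comp_hasDerivAt s (hx s)
  have lip : ∀ s s', |(x s).2 - (x s').2| ≤ M * |s - s'| := fun s s' =>
    convex_univ.norm_image_sub_le_of_norm_hasDerivWithin_le (fun s _ => (x2 s).hasDerivWithinAt)
      (fun s _ => (hg _ (R1 _)).2) (mem_univ s') (mem_univ s)
  refine ⟨fun s => (x s).2, by simp [hx0], lip, fun s hs => ?_⟩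
  have e : x s = (s, (x s).2) := Prod.ext (x1 s) rfl
  have h1 : χ (x s) = 1 := by
    refine χ.one_of_mem_closedBall ?_
    have a := lip s 0
    rw [hx0, sub_zero] at a
    rw [le_div_iff₀ (by linarith)] at hs
    have b := abs_nonneg s
    rw [e, mem_closedBall, Prod.dist_eq, Real.dist_eq, Real.dist_eq, sub_zero]
    exact max_le (by change _ ≤ r; nlinarith) (by change _ ≤ r; nlinarith)
  have h2 : R (x s) = x s := by simp [hR, h1]
  have := x2 s
  rwa [h2, e] at this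

variable (S : Sys)

lemma jq_im (x : N) (v : ℂ) (σ t : ℝ) :
    (S.jq x (v, σ) t).im = (S.jq x (v, 0) t).im + σ * S.jy x t := by
  have : S.J x (v, σ) t = S.J x (v, 0) t + σ • S.J x (0, 1) t := by
    rw [Sys.J, Sys.J, Sys.J, ← map_smul, ← map_add]
    simp
  simp only [Sys.jy, Sys.jq, this, Prod.fst_add, Prod.smul_fst, add_div, Complex.add_im,
    Complex.real_smul, mul_div_assoc, Complex.im_ofReal_mul]

/-- the normal Jacobi component read in the plane -/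
def jq' (δ : ℂ × ℝ) (t : ℝ) (y : ℂ × ℝ) : ℝ :=
  ((fderiv ℝ S.Φ (t, y) (0, δ)).1 / S.vv (S.Φ (t, y))).im

lemma jq'_cd (δ : ℂ × ℝ) (t : ℝ) {y : ℂ × ℝ} (hy : 0 < y.1.im) : ContDiffAt ℝ ∞ (jq' S δ t) y := by
  have h0 : ContDiffAt ℝ ∞ (fun y : ℂ × ℝ => (t, y)) y := contDiffAt_const.prodMk contDiffAt_id
  have h1 := S.Φ_cd (p := (t, y)) hy
  have h2 : ContDiffAt ℝ ∞ (fderiv ℝ S.Φ) (t, y) := h1.fderiv_right (by simp)
  have h3 : ContDiffAt ℝ ∞ (fun y : ℂ × ℝ => S.vv (S.Φ (t, y))) y :=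
    ContDiffAt.comp (g := S.vv) y (S.vv_cd (S.Φ_pos _)) (h1.comp y h0)
  have h4 : ContDiffAt ℝ ∞ (fun y : ℂ × ℝ => (fderiv ℝ S.Φ (t, y) (0, δ)).1) y :=
    ((h2.comp y h0).clm_apply contDiffAt_const).fst
  exact (Complex.imCLM.contDiff.contDiffAt.comp y (h4.mul (h3.inv (S.vv_ne _)))).congr_of_eventuallyEq
    (.of_forall fun y => by rw [jq', div_eq_mul_inv]; rfl)

/-- the slope of the front focused at time `-T` -/
def sl (v : ℂ) (T : ℝ) (y : ℂ × ℝ) : ℝ := -jq' S (v, 0) (-T) y / jq' S (0, 1) (-T) y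

lemma sl_emb (v : ℂ) (T : ℝ) (x : N) :
    sl S v T (emb x) = -(S.jq x (v, 0) (-T)).im / S.jy x (-T) := rfl

variable {S}

lemma sl_cd (h : S.NC) (v : ℂ) {T : ℝ} (hT : T ≠ 0) {y : ℂ × ℝ} (hy : 0 < y.1.im) :
    ContDiffAt ℝ ∞ (sl S v T) y :=
  (jq'_cd S _ _ hy).neg.div (jq'_cd S _ _ hy) (h (⟨y.1, hy⟩, y.2) (-T) (neg_ne_zero.2 hT))

lemma focus {C : ℝ} (h1 : ∀ ξ t, t ≠ 0 → 0 < t * S.jy ξ t)
    (h2 : ∀ ξ t, 1 ≤ t → |S.jw ξ t| ≤ C * S.jy ξ t) (x : N) {v : ℂ} (hv : 0 < S.l1 x (v, 0))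
    {T t : ℝ} (hT : 1 ≤ T) (ht : 1 ≤ t + T) :
    |S.l2 (S.φ t x) (S.J x (v, sl S v T (emb x)) t)| ≤
      C * S.l1 (S.φ t x) (S.J x (v, sl S v T (emb x)) t) := by
  set δ : ℂ × ℝ := (v, sl S v T (emb x)) with hδ
  set η := S.φ (-T) x with hη
  set c := S.jz x δ (-T) with hc
  obtain ⟨K, -, hK⟩ := S.ci_Km.inv.bdd S.ci_Km.cont
  have w1 : ∀ s, HasDerivAt (fun s => c * S.jy η (s + T)) (c * S.jw η (s + T)) s := fun s =>
    ((S.hd_y η (s + T)).comp_add_const s T).const_mul c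
  have w2 : ∀ s, HasDerivAt (fun s => c * S.jw η (s + T))
      (-(S.Km (S.φ s x) * (c * S.jy η (s + T)))) s := by
    intro s
    have := ((S.hd_w η (s + T)).comp_add_const s T).const_mul c
    rw [S.φ_add, hη, S.φ_neg'] at this
    exact this.congr_deriv (by ring)
  have hy : S.jy x (-T) ≠ 0 := fun h => by simpa [h] using h1 x (-T) (by linarith)
  have key := lin_uniq (k := fun s => S.Km (S.φ s x)) (fun s => hK _) (S.hd_jy x δ) (S.hd_jz x δ)
    w1 w2 (t0 := -T) (by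
      rw [neg_add_cancel, S.jy_zero, mul_zero, hδ, jq_im, sl_emb, div_mul_cancel₀ _ hy,
        add_neg_cancel]) (by rw [neg_add_cancel, S.jw_zero, mul_one])
  have c0 : 0 < c := by
    have a := (key 0).1
    rw [S.jq_zero, zero_add] at a
    have b : 0 < S.jy η T := (mul_pos_iff_of_pos_left (by linarith)).1 (h1 η T (by linarith))
    exact (mul_pos_iff_of_pos_right b).1 (a ▸ hv : 0 < c * S.jy η T)
  change |S.jz x δ t| ≤ C * (S.jq x δ t).im
  rw [(key t).1, (key t).2, abs_mul, abs_of_pos c0, mul_left_comm]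
  exact mul_le_mul_of_nonneg_left (h2 η _ ht) c0.le

lemma cont_l1 : Continuous fun p : N × (ℂ × ℝ) => S.l1 p.1 p.2 :=
  Complex.continuous_im.comp ((continuous_fst.comp continuous_snd).div
    (S.continuous_V.comp continuous_fst) fun _ => S.V_ne _)

lemma cont_l2 : Continuous fun p : N × (ℂ × ℝ) => S.l2 p.1 p.2 := by
  have h : Continuous fun p : N × (ℂ × ℝ) => p.2.1 / S.V p.1 :=
    (continuous_fst.comp continuous_snd).div (S.continuous_V.comp continuous_fst) fun _ => S.V_ne _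
  exact ((continuous_snd.comp continuous_snd).add ((Complex.continuous_im.comp h).mul
    (((Sys.cont_dG fun _ hz => S.L_cd hz).clm_apply S.continuous_V).comp continuous_fst))).sub
      ((Complex.continuous_re.comp h).mul (S.continuous_W.comp continuous_fst))

lemma cont_J (t : ℝ) : Continuous fun p : N × (ℂ × ℝ) => S.J p.1 p.2 t := by
  refine Continuous.clm_apply (Continuous.comp (g := fun ξ : N => fderiv ℝ S.Φ (t, emb ξ))
    (continuous_iff_continuousAt.2 fun ξ => ?_) continuous_fst) (by fun_prop)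
  exact ContinuousAt.comp (g := fderiv ℝ S.Φ) (f := fun ξ : N => (t, emb ξ))
    ((S.Φ_cd (p := (t, emb ξ)) ξ.1.im_pos).fderiv_right (m := ∞) (by simp)).continuousAt
    (continuous_const.prodMk Sys.continuous_emb).continuousAt

variable (S)

/-- the two linear forms cutting the cone -/
def Λ (C τ : ℝ) (ζ : N) (d : ℂ × ℝ) : ℝ := C * S.l1 ζ d + τ * S.l2 ζ d

lemma cont_Λ (C τ : ℝ) : Continuous fun p : N × (ℂ × ℝ) => Λ S C τ p.1 p.2 :=
  (continuous_const.mul cont_l1).add (continuous_const.mul cont_l2)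

lemma Λ_sub (C τ : ℝ) (ζ : N) (d d' : ℂ × ℝ) :
    Λ S C τ ζ (d - d') = Λ S C τ ζ d - Λ S C τ ζ d' := by
  simp only [Λ, Sys.l1, Sys.l2, Prod.fst_sub, Prod.snd_sub, sub_div, Complex.sub_im, Complex.sub_re]
  ring

lemma hd_Λ (C τ : ℝ) (ζ : N) {y : ℝ → ℂ × ℝ} {u : ℂ × ℝ} {s : ℝ} (h : HasDerivAt y u s) :
    HasDerivAt (fun s => Λ S C τ ζ (y s)) (Λ S C τ ζ u) s := by
  have a := (hd_fst h).div_const (S.V ζ)
  exact ((hd_im a).const_mul C).add ((((hd_snd h).add ((hd_im a).mul_const _)).sub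
    ((hd_re a).mul_const _)).const_mul τ)

/-- the plane over the normal segment -/
def P (ξ : N) (w : ℝ × ℝ) : ℂ × ℝ := ((ξ.1 : ℂ) + w.1 * (Complex.I * S.V ξ), w.2)

def pnt (ξ : N) (w : ℝ × ℝ) : N := (S.sg ξ w.1, w.2)

lemma P_cd (ξ : N) : ContDiff ℝ ∞ (P S ξ) :=
  (contDiff_const.add ((Complex.ofRealCLM.contDiff.comp contDiff_fst).mul contDiff_const)).prodMk
    contDiff_snd

variable {S}

lemma emb_pt {ξ : N} {w : ℝ × ℝ} (h : 0 < (P S ξ w).1.im) : emb (pnt S ξ w) = P S ξ w := by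
  simp only [emb, pnt, Sys.sg, P] at h ⊢
  rw [ofComplex_apply_of_im_pos h]

lemma ev_P {ξ : N} {w : ℝ × ℝ} (h : 0 < (P S ξ w).1.im) : ∀ᶠ u in 𝓝 w, 0 < (P S ξ u).1.im :=
  (Complex.continuous_im.comp (continuous_fst.comp (P_cd S ξ).continuous)).continuousAt.eventually
    (lt_mem_nhds h)

lemma cont_pt {ξ : N} {w : ℝ × ℝ} (h : 0 < (P S ξ w).1.im) : ContinuousAt (pnt S ξ) w := by
  rw [Sys.isEmbedding_emb.isInducing.continuousAt_iff]
  exact (P_cd S ξ).continuous.continuousAt.congr ((ev_P h).mono fun u hu => (emb_pt hu).symm)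

lemma pt_zero (ξ : N) : pnt S ξ (0, ξ.2) = ξ := by simp [pnt, Sys.sg]

lemma hd_front {ξ : N} {a : ℝ → ℝ} {σ s : ℝ} (t : ℝ) (h : 0 < (P S ξ (s, a s)).1.im)
    (ha : HasDerivAt a σ s) : HasDerivAt (fun s => S.Φ (t, P S ξ (s, a s)))
      (S.J (pnt S ξ (s, a s)) (Complex.I * S.V ξ, σ) t) s := by
  have h1 := S.hasFDerivAt_slice t (pnt S ξ (s, a s))
  rw [emb_pt h] at h1
  have h2 : HasDerivAt (fun s => P S ξ (s, a s)) (Complex.I * S.V ξ, σ) s :=
    ((((hasDerivAt_id s).ofReal_comp.mul_const _).const_add (ξ.1 : ℂ)).prodMk ha).congr_deriv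
      (by simp)
  refine (h1.comp_hasDerivAt (f := fun s => P S ξ (s, a s)) s h2).congr_deriv ?_
  simp [Sys.J, emb_pt h]

lemma cone_lim {ξ : N} {C M ε τ t e η : ℝ} (hM : 0 ≤ M) (he : 0 < e) (hη : |η| < ε)
    {U : Filter ℕ} [U.NeBot] {A σ : ℕ → ℝ → ℝ} {a : ℝ → ℝ}
    (hA : ∀ s, Tendsto (fun n => A n s) U (𝓝 (a s)))
    (lip : ∀ n s s', |A n s - A n s'| ≤ M * |s - s'|)
    (hp : ∀ s, |s| < ε → 0 < (P S ξ (s, a s)).1.im)
    (hd : ∀ n s, |s| < ε → HasDerivAt (A n) (σ n s) s ∧ |σ n s| ≤ M)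
    (hc : ∀ᶠ n in U, ∀ s, |s| < ε → 0 ≤ Λ S C τ (S.φ t (pnt S ξ (s, A n s)))
      (S.J (pnt S ξ (s, A n s)) (Complex.I * S.V ξ, σ n s) t)) :
    ∀ᶠ x : ℝ × ℝ in 𝓝 (η, η), x.1 ≤ x.2 → -(e * (x.2 - x.1)) ≤
      Λ S C τ (S.φ t (pnt S ξ (η, a η))) (S.df t (pnt S ξ (x.1, a x.1)) (pnt S ξ (x.2, a x.2))) := by
  set v := Complex.I * S.V ξ with hv
  set ζ := S.φ t (pnt S ξ (η, a η)) with hζ
  have cJ : Continuous fun p : N × ℝ => S.J p.1 (v, p.2) t :=
    (cont_J t).comp (f := fun p : N × ℝ => (p.1, (v, p.2))) (by fun_prop)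
  have cG : Continuous fun p : N × ℝ => Λ S C τ ζ (S.J p.1 (v, p.2) t) -
      Λ S C τ (S.φ t p.1) (S.J p.1 (v, p.2) t) :=
    ((cont_Λ S C τ).comp (continuous_const.prodMk cJ)).sub ((cont_Λ S C τ).comp
      ((S.continuous_φ.comp (continuous_const.prodMk continuous_fst)).prodMk cJ))
  have t1 := (isCompact_Icc (a := -M) (b := M)).eventually_forall_of_forall_eventually
    (x₀ := pnt S ξ (η, a η)) (P := fun x s => -e < Λ S C τ ζ (S.J x (v, s) t) -
      Λ S C τ (S.φ t x) (S.J x (v, s) t)) fun s _ =>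
        cG.continuousAt.eventually (lt_mem_nhds (by simpa [hζ] using he))
  obtain ⟨ρ, hρ, t2⟩ := Metric.eventually_nhds_iff.1
    (((cont_pt (hp η hη)).eventually t1).and (ev_P (hp η hη)))
  set ρ' := min (ρ / (2 * (M + 1))) (ε - |η|) with hρ'
  have ρ0 : 0 < ρ' := lt_min (by positivity) (by linarith)
  have b1 : ∀ s ∈ ball η ρ', |s| < ε := fun s hs => by
    have a1 : |s - η| < ε - |η| := lt_of_lt_of_le hs (min_le_right _ _)
    linarith [abs_sub_abs_le_abs_sub s η]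
  have b2 : ∀ᶠ n in U, ∀ s ∈ ball η ρ', dist (s, A n s) (η, a η) < ρ := by
    filter_upwards [Metric.tendsto_nhds.1 (hA η) (ρ / 2) (by positivity)] with n hn s hs
    have a1 : |s - η| < ρ / (2 * (M + 1)) := lt_of_lt_of_le hs (min_le_left _ _)
    rw [lt_div_iff₀ (by positivity)] at a1
    rw [Real.dist_eq] at hn
    have a2 := lip n s η
    have a3 := abs_nonneg (s - η)
    have a4 := abs_sub_le (A n s) (A n η) (a η)
    rw [Prod.dist_eq, Real.dist_eq, Real.dist_eq]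
    exact max_lt (by nlinarith) (by nlinarith)
  have lim : ∀ s ∈ ball η ρ', Tendsto (fun n => Λ S C τ ζ (S.Φ (t, P S ξ (s, A n s)))) U
      (𝓝 (Λ S C τ ζ (emb (S.φ t (pnt S ξ (s, a s)))))) := by
    intro s hs
    rw [← S.Φ_emb, emb_pt (hp s (b1 s hs))]
    have c1 : ContinuousAt (fun y : ℝ => S.Φ (t, P S ξ (s, y))) (a s) :=
      ContinuousAt.comp (g := S.Φ) (S.Φ_cd (hp s (b1 s hs))).continuousAt
        (continuous_const.prodMk ((P_cd S ξ).continuous.comp (by fun_prop))).continuousAt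
    exact (((cont_Λ S C τ).comp (continuous_const.prodMk continuous_id)).continuousAt.comp
      c1).tendsto.comp (hA s)
  filter_upwards [prod_mem_nhds (ball_mem_nhds η ρ0) (ball_mem_nhds η ρ0)] with x hx hle
  rw [Sys.df, Λ_sub]
  refine ge_of_tendsto ((lim _ hx.2).sub (lim _ hx.1)) ?_
  filter_upwards [b2, hc] with n h2 h3
  have d := fun s (hs : s ∈ ball η ρ') =>
    hd_Λ S C τ ζ (hd_front t (t2 (h2 s hs)).2 (hd n s (b1 s hs)).1)
  rw [← neg_mul]
  refine (convex_ball η ρ').mul_sub_le_image_sub_of_le_deriv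
    (fun s hs => (d s hs).continuousAt.continuousWithinAt)
    (fun s hs => (d s (interior_subset hs)).differentiableAt.differentiableWithinAt)
    (fun s hs => ?_) _ hx.1 _ hx.2 hle
  have hs' := interior_subset hs
  rw [(d s hs').deriv]
  have := (t2 (h2 s hs')).1 (σ n s) (abs_le.1 (hd n s (b1 s hs')).2)
  linarith [h3 s (b1 s hs')]

end FCur

open FCur in
theorem cur (hr : RicSt) : CurveSt := by
  intro S hN
  obtain ⟨h1, ⟨C, hC, h2⟩, -⟩ := hr S hN
  refine ⟨C, hC, fun ξ => ?_⟩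
  set v := Complex.I * S.V ξ with hv
  have p0 : 0 < (P S ξ (0, ξ.2)).1.im := by simpa [P] using ξ.1.im_pos
  have c1 : ContinuousAt (fun w => S.l1 (pnt S ξ w) (v, 0)) (0, ξ.2) :=
    cont_l1.continuousAt.comp ((cont_pt p0).prodMk continuousAt_const)
  have c2 : ContinuousAt (fun w => S.l2 (pnt S ξ w) (v, 0)) (0, ξ.2) :=
    cont_l2.continuousAt.comp ((cont_pt p0).prodMk continuousAt_const)
  have c3 := ((c1.const_mul C).add c2.abs).eventually (gt_mem_nhds (lt_add_one _))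
  have l0 : 0 < S.l1 (pnt S ξ (0, ξ.2)) (v, 0) := by
    rw [pt_zero, Sys.l1, hv, mul_div_cancel_right₀ _ (S.V_ne ξ)]
    simp
  set M := C * S.l1 (pnt S ξ (0, ξ.2)) (v, 0) + |S.l2 (pnt S ξ (0, ξ.2)) (v, 0)| + 1 with hM
  have M0 : 0 < M := by positivity
  obtain ⟨ρ, hρ, hb⟩ := Metric.eventually_nhds_iff.1
    ((ev_P p0).and ((c1.eventually (lt_mem_nhds l0)).and c3))
  have hs : ∀ (n : ℕ), ∀ w ∈ closedBall ((0 : ℝ), ξ.2) (2 * (ρ / 3)),
      ContDiffAt ℝ 1 (fun w => sl S v (n + 1) (P S ξ w)) w ∧ |sl S v (n + 1) (P S ξ w)| ≤ M := by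
    intro n w hw
    have n1 : (1 : ℝ) ≤ n + 1 := by simp
    obtain ⟨a1, a2, a3⟩ := hb (y := w) (lt_of_le_of_lt hw (by linarith))
    refine ⟨((sl_cd hN v (by linarith) a1).comp w (P_cd S ξ).contDiffAt).of_le (by simp), ?_⟩
    have := focus h1 h2 (pnt S ξ w) a2 n1 (t := 0) (by simp)
    rw [S.φ_zero, S.J_zero, emb_pt a1] at this
    have e : sl S v (n + 1) (P S ξ w) = S.l2 (pnt S ξ w) (v, sl S v (n + 1) (P S ξ w)) -
        S.l2 (pnt S ξ w) (v, 0) := by simp only [Sys.l2]; ring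
    rw [e]
    exact (abs_sub _ _).trans ((add_le_add this le_rfl).trans a3.le)
  choose A A0 lip hA using fun n : ℕ => ode (by positivity) M0.le (hs n)
  have ex : ∀ s, ∃ y, Tendsto (fun n => A n s) (hyperfilter ℕ) (𝓝 y) := fun s => by
    obtain ⟨y, -, hy⟩ := (isCompact_closedBall ξ.2 (M * |s|)).ultrafilter_le_nhds
      ((hyperfilter ℕ).map fun n => A n s) (le_principal_iff.2 (mem_map.2 <| univ_mem' fun n => by
        have := lip n s 0
        rwa [A0, sub_zero] at this))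
    exact ⟨y, hy⟩
  choose a ha using ex
  have a0 : a 0 = ξ.2 := tendsto_nhds_unique (ha 0) (by simpa only [A0] using tendsto_const_nhds)
  have alip : ∀ s s', |a s - a s'| ≤ M * |s - s'| := fun s s' =>
    le_of_tendsto' ((ha s).sub (ha s')).abs fun n => lip n s s'
  have inb : ∀ b : ℝ → ℝ, b 0 = ξ.2 → (∀ s s', |b s - b s'| ≤ M * |s - s'|) → ∀ s,
      |s| < ρ / 3 / (M + 1) → dist (s, b s) (0, ξ.2) ≤ ρ / 3 := by
    intro b b0 bl s hs
    have a := bl s 0
    rw [b0, sub_zero] at a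
    rw [lt_div_iff₀ (by linarith)] at hs
    have := abs_nonneg s
    rw [Prod.dist_eq, Real.dist_eq, Real.dist_eq, sub_zero]
    exact max_le (by nlinarith) (by nlinarith)
  have hp := fun s hs => hb ((inb a a0 alip s hs).trans_lt (by linarith))
  have hq := fun n s hs => hb ((inb (A n) (A0 n) (lip n) s hs).trans_lt (by linarith))
  refine ⟨ρ / 3 / (M + 1), by positivity, a, a0, fun η hη => ?_⟩
  have ev : ∀ᶠ x : ℝ × ℝ in 𝓝 (η, η), emb (pnt S ξ (x.2, a x.2)) - emb (pnt S ξ (x.1, a x.1)) =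
      (((x.2 - x.1 : ℝ) : ℂ) * v, a x.2 - a x.1) := by
    have o : {s : ℝ | |s| < ρ / 3 / (M + 1)} ∈ 𝓝 η :=
      continuous_abs.continuousAt.eventually (gt_mem_nhds hη)
    filter_upwards [prod_mem_nhds o o] with x hx
    rw [emb_pt (hp _ hx.1).1, emb_pt (hp _ hx.2).1]
    refine Prod.ext ?_ rfl
    simp only [P, Prod.fst_sub]
    push_cast
    ring
  have cone : ∀ τ t e : ℝ, |τ| = 1 → 0 < e → _ := fun τ t e hτ he =>
    cone_lim (C := C) (τ := τ) (t := t) M0.le he hη ha lip (fun s hs => (hp s hs).1)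
      (σ := fun n s => sl S v (n + 1) (P S ξ (s, A n s)))
      (fun n s hs' => ⟨hA n s hs'.le, (hs n _ ((inb (A n) (A0 n) (lip n) s hs').trans
        (by linarith))).2⟩) (by
      have : ∀ᶠ n : ℕ in hyperfilter ℕ, -t ≤ n := Nat.hyperfilter_le_atTop
        (tendsto_natCast_atTop_atTop.eventually_ge_atTop _)
      filter_upwards [this] with n hn s hs'
      have f := focus h1 h2 _ (hq n s hs').2.1 (T := n + 1) (t := t) (by simp) (by linarith)
      rw [emb_pt (hq n s hs').1] at f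
      have := neg_abs_le (τ * S.l2 (S.φ t (pnt S ξ (s, A n s))) (S.J (pnt S ξ (s, A n s))
        (v, sl S v (n + 1) (P S ξ (s, A n s))) t))
      rw [abs_mul, hτ, one_mul] at this
      rw [Λ]
      linarith)
  refine ⟨⟨max ‖v‖ M, ev.mono fun x hx => ?_⟩, ⟨_, (hp η hη).2.1, ev.mono fun x hx _ => ?_⟩,
    fun t e he => ?_⟩
  · refine (congrArg norm hx).trans_le (max_le ?_ ?_)
    · rw [norm_mul, Complex.norm_real, mul_comm]
      exact mul_le_mul_of_nonneg_right (le_max_left _ _) (abs_nonneg _)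
    · exact (alip _ _).trans (mul_le_mul_of_nonneg_right (le_max_right _ _) (abs_nonneg _))
  · change _ ≤ S.l1 _ (emb (pnt S ξ (x.2, a x.2)) - emb (pnt S ξ (x.1, a x.1)))
    rw [hx]
    simp only [Sys.l1, mul_div_assoc, Complex.im_ofReal_mul]
    exact (mul_comm _ _).le
  · filter_upwards [cone 1 t e abs_one he, cone (-1) t e (by simp) he] with x x1 x2 hx
    have y1 := x1 hx
    have y2 := x2 hx
    simp only [Λ, pnt] at y1 y2
    exact abs_le.2 ⟨by linarith, by linarith⟩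

end

end Pool.Agent.Lib.MP_21f752_an
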