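import Pool.Agent.Lib.MP_21f752_an.FA

/-! Pushing nearby points to the normal segment. -/

namespace Pool.Agent.Lib.MP_21f752_an

open UpperHalfPlane Set Filter Topology

namespace FZp

lemma zero_cont {X : Type} [TopologicalSpace X] {g : X → ℝ → ℝ}
    (hg : ∀ t, Continuous fun x => g x t) (hc : ∀ x, Continuous (g x)) {U : Set X} (hU : IsOpen U)
    {d : ℝ} (hd : 0 < d) (hm : ∀ x ∈ U, StrictMonoOn (g x) (Icc (-d) d))
    (h1 : ∀ x ∈ U, g x (-d) < 0) (h2 : ∀ x ∈ U, 0 < g x d) :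
    ∃ tt : X → ℝ, ∀ x ∈ U, ContinuousAt tt x ∧ tt x ∈ Icc (-d) d ∧ g x (tt x) = 0 := by
  have ex : ∀ x, ∃ t, x ∈ U → t ∈ Icc (-d) d ∧ g x t = 0 := fun x => by
    by_cases hx : x ∈ U
    · obtain ⟨t, ht, e⟩ := intermediate_value_Icc (by linarith : -d ≤ d) (hc x).continuousOn
        ⟨(h1 x hx).le, (h2 x hx).le⟩
      exact ⟨t, fun _ => ⟨ht, e⟩⟩
    · exact ⟨0, fun h => (hx h).elim⟩
  choose tt ht using ex
  refine ⟨tt, fun x hx => ⟨?_, ht x hx⟩⟩
  obtain ⟨hx1, hx2⟩ := ht x hx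
  refine tendsto_order.2 ⟨fun a ha => ?_, fun b hb => ?_⟩
  · by_cases h : a < -d
    · filter_upwards [hU.mem_nhds hx] with y hy using h.trans_le (ht y hy).1.1
    · have ha' : a ∈ Icc (-d) d := ⟨not_lt.1 h, ha.le.trans hx1.2⟩
      have : g x a < 0 := hx2 ▸ hm x hx ha' hx1 ha
      filter_upwards [hU.mem_nhds hx, (hg a).continuousAt.eventually_lt continuousAt_const this]
        with y hy hy'
      exact ((hm y hy).lt_iff_lt ha' (ht y hy).1).1 ((ht y hy).2 ▸ hy')
  · by_cases h : d < b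
    · filter_upwards [hU.mem_nhds hx] with y hy using (ht y hy).1.2.trans_lt h
    · have hb' : b ∈ Icc (-d) d := ⟨hx1.1.trans hb.le, not_lt.1 h⟩
      have : 0 < g x b := hx2 ▸ hm x hx hx1 hb' hb
      filter_upwards [hU.mem_nhds hx, continuousAt_const.eventually_lt (hg b).continuousAt this]
        with y hy hy'
      exact ((hm y hy).lt_iff_lt (ht y hy).1 hb').1 ((ht y hy).2 ▸ hy')

end FZp

theorem push (S : Sys) (x0 : N) : ∃ U ∈ 𝓝 x0, ∃ tt ee : N → ℝ, tt x0 = 0 ∧ ee x0 = 0 ∧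
    ∀ x ∈ U, ContinuousAt tt x ∧ ContinuousAt ee x ∧ (S.φ (tt x) x).1 = S.sg x0 (ee x) := by
  set q : ℝ × N → ℂ := fun p => (((S.φ p.1 p.2).1 : ℂ) - x0.1) / S.V x0 with hq
  have qc : Continuous q :=
    ((continuous_coe.comp (continuous_fst.comp S.continuous_φ)).sub continuous_const).div_const _
  have dc : Continuous fun p : ℝ × N => (S.V (S.φ p.1 p.2) / S.V x0).re :=
    Complex.continuous_re.comp ((S.continuous_V.comp S.continuous_φ).div_const _)
  have hd : ∀ x t, HasDerivAt (fun s => (q (s, x)).re) (S.V (S.φ t x) / S.V x0).re t := fun x t =>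
    hd_re (((S.hd_z x t).sub_const _).div_const _)
  have e0 : ∀ᶠ p : ℝ × N in 𝓝 (0, x0), 0 < (S.V (S.φ p.1 p.2) / S.V x0).re :=
    continuousAt_const.eventually_lt dc.continuousAt (by
      simp only [S.φ_zero]
      rw [div_self (S.V_ne x0)]
      simp)
  rw [nhds_prod_eq] at e0
  obtain ⟨pa, ha, pb, hb, hab⟩ := eventually_prod_iff.1 e0
  obtain ⟨d2, d2p, hd2⟩ := Metric.eventually_nhds_iff.1 ha
  obtain ⟨d, dp, dl⟩ := exists_between d2p
  have mono : ∀ x, pb x → StrictMonoOn (fun s => (q (s, x)).re) (Icc (-d) d) := fun x hx =>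
    strictMonoOn_of_deriv_pos (convex_Icc _ _)
      (fun t _ => (hd x t).continuousAt.continuousWithinAt) fun t ht => by
        rw [(hd x t).deriv]
        have := interior_subset ht
        refine hab (hd2 ?_) hx
        rw [Real.dist_eq, sub_zero, abs_lt]
        exact ⟨by linarith [this.1], by linarith [this.2]⟩
  have q0 : q (0, x0) = 0 := by simp [hq, S.φ_zero]
  have m0 := mono x0 hb.self_of_nhds
  have z0 : (0 : ℝ) ∈ Icc (-d) d := ⟨by linarith, dp.le⟩
  have n1 : (q (-d, x0)).re < 0 := by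
    have := m0 ⟨le_rfl, by linarith⟩ z0 (by linarith : -d < 0)
    simpa [q0] using this
  have n2 : 0 < (q (d, x0)).re := by
    have := m0 z0 ⟨by linarith, le_rfl⟩ dp
    simpa [q0] using this
  have cx : ∀ t, Continuous fun x => (q (t, x)).re := fun t =>
    Complex.continuous_re.comp (qc.comp (continuous_const.prodMk continuous_id))
  obtain ⟨U, hU, Uo, xU⟩ := eventually_nhds_iff.1 (hb.and
    (((cx (-d)).continuousAt.eventually_lt continuousAt_const n1).and
      (continuousAt_const.eventually_lt (cx d).continuousAt n2)))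
  obtain ⟨tt, ht⟩ := FZp.zero_cont (g := fun x s => (q (s, x)).re) cx
    (fun x => continuous_iff_continuousAt.2 fun t => (hd x t).continuousAt) Uo dp
    (fun x hx => mono x (hU x hx).1) (fun x hx => (hU x hx).2.1) fun x hx => (hU x hx).2.2
  have t0 : tt x0 = 0 := m0.injOn (ht x0 xU).2.1 z0 (by simpa [q0] using (ht x0 xU).2.2)
  refine ⟨U, Uo.mem_nhds xU, tt, fun x => (q (tt x, x)).im, t0, by simp [t0, q0],
    fun x hx => ⟨(ht x hx).1, ?_, ?_⟩⟩
  · exact Complex.continuous_im.continuousAt.comp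
      (qc.continuousAt.comp ((ht x hx).1.prodMk continuousAt_id))
  · have e : q (tt x, x) = ((q (tt x, x)).im : ℝ) * Complex.I := by
      apply Complex.ext <;> simp [(ht x hx).2.2]
    have : ((S.φ (tt x) x).1 : ℂ) = x0.1 + ((q (tt x, x)).im : ℝ) * (Complex.I * S.V x0) := by
      rw [← mul_assoc, ← e, hq]
      field_simp [S.V_ne x0]
      ring
    rw [Sys.sg, ← this, ofComplex_apply]

end Pool.Agent.Lib.MP_21f752_an
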