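import Pool.Agent.Lib.MP_21f752_an.FG
import Pool.Agent.Lib.MP_21f752_an.FZp

/-! Two close strands, each to the left of the other, lie on one orbit. -/

namespace Pool.Agent.Lib.MP_21f752_an

open UpperHalfPlane Set Filter Topology Metric
open scoped MatrixGroups Real

namespace FDe

lemma left (hT : T3St) {G : Geo} {a b : N} {x y x' y' : ℝ} (ha : G.Wl a x y) (hb : G.Wl b x' y')
    (h1 : x' < x) (h2 : y < y') {L R : Set ℍ} (h : G.Sides a x y L R) (t : ℝ) : G.o b t ∈ L := by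
  have c : Continuous (G.o b) :=
    continuous_fst.comp (G.continuous_φ.comp (continuous_id.prodMk continuous_const))
  obtain ⟨ε, hε, hL⟩ := h.lf y' h2 (by linarith [hb.lt2])
  obtain ⟨s, hs⟩ := (Metric.tendsto_nhds.1 hb.p ε hε).exists
  refine (isPreconnected_range c).subset_left_of_subset_union h.oL h.oR h.dis ?_
    ⟨G.o b s, mem_range_self s, hL (by rwa [dist_eq_norm] at hs)⟩ (mem_range_self t)
  rw [h.un]
  rintro _ ⟨u, rfl⟩ ⟨w, hw⟩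
  exact hT G a b x y x' y' ha hb h1 h2 w u hw

lemma ord (hS : SideSt) (hT : T3St) (G : Geo) (ζ : N) : ∃ U ∈ 𝓝 ζ, ∃ tt ee : N → ℝ,
    (∀ a ∈ U, |tt a| < 1 / 2 ∧ ContinuousAt ee a ∧ G.o a (tt a) = G.sg ζ (ee a)) ∧
    ∀ a ∈ U, ∀ b ∈ U, ∀ x y x' y', G.Wl a x y → G.Wl b x' y' → x' < x → y < y' → ee a < ee b := by
  obtain ⟨U, hU, tt, ee, t0, e0, hp⟩ := push G.toSys ζ
  have pz := hp ζ (mem_of_mem_nhds hU)
  set v := Complex.I * G.V ζ with hv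
  have dc : Continuous fun p : ℝ × N => (G.V (G.φ p.1 p.2) / G.V ζ).re :=
    Complex.continuous_re.comp ((G.continuous_V.comp G.continuous_φ).div_const _)
  have m0 : ∀ᶠ p : ℝ × N in 𝓝 (0, ζ), 0 < (G.V (G.φ p.1 p.2) / G.V ζ).re :=
    continuousAt_const.eventually_lt dc.continuousAt (by
      simp only [G.φ_zero]
      rw [div_self (G.V_ne ζ)]
      simp)
  rw [nhds_prod_eq] at m0
  obtain ⟨pa, ha, pb, hb, hab⟩ := eventually_prod_iff.1 m0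
  obtain ⟨d, dp, hd⟩ := Metric.eventually_nhds_iff.1 ha
  obtain ⟨r, rp, hr⟩ := G.nr d dp
  have lc : Continuous fun s : ℝ => (ζ.1 : ℂ) + s * v := by fun_prop
  have sc : ∀ s : ℝ, 0 < ((ζ.1 : ℂ) + s * v).im → (G.sg ζ s : ℂ) = ζ.1 + s * v := fun s hs => by
    rw [Sys.sg, ofComplex_apply_of_im_pos hs]
  have se : ∀ s : ℝ, 0 < ((ζ.1 : ℂ) + s * v).im →
      ∀ᶠ u in 𝓝 s, (G.sg ζ u : ℂ) = ζ.1 + u * v := fun s hs =>
    ((Complex.continuous_im.comp lc).continuousAt.eventually (lt_mem_nhds hs)).mono sc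
  have cs : ∀ s : ℝ, 0 < ((ζ.1 : ℂ) + s * v).im → ContinuousAt (G.sg ζ) s := fun s hs => by
    rw [isEmbedding_coe.isInducing.continuousAt_iff]
    exact lc.continuousAt.congr ((se s hs).mono fun u hu => hu.symm)
  have p0 : 0 < ((ζ.1 : ℂ) + (0 : ℝ) * v).im := by simpa using ζ.1.im_pos
  have s0 : G.sg ζ 0 = ζ.1 := by simp [Sys.sg]
  obtain ⟨ρ, ρp, hρ⟩ := Metric.eventually_nhds_iff.1
    (((Complex.continuous_im.comp lc).continuousAt.eventually (lt_mem_nhds p0)).and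
      (Metric.tendsto_nhds.1 (s0 ▸ (cs 0 p0).tendsto) (r / 2) (by positivity)))
  have k1 : ∀ᶠ a in 𝓝 ζ, |tt a| < min d (1 / 2) :=
    pz.1.abs.eventually (gt_mem_nhds (by simp [t0, dp]))
  have k2 : ∀ᶠ a in 𝓝 ζ, |ee a| < ρ := pz.2.1.abs.eventually (gt_mem_nhds (by simp [e0, ρp]))
  have k3 : ∀ᶠ a : N in 𝓝 ζ, dist a.1 ζ.1 < r / 2 :=
    Metric.tendsto_nhds.1 continuous_fst.continuousAt (r / 2) (by positivity)
  have k4 : ∀ᶠ a in 𝓝 ζ, 0 < (v / G.V (G.φ (tt a) a)).im := by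
    have c : ContinuousAt (fun a => (v / G.V (G.φ (tt a) a)).im) ζ :=
      Complex.continuous_im.continuousAt.comp (continuousAt_const.div
        (ContinuousAt.comp (g := fun p : ℝ × N => G.V (G.φ p.1 p.2)) (f := fun a => (tt a, a))
          (G.continuous_V.comp G.continuous_φ).continuousAt
          (pz.1.prodMk continuousAt_id)) (G.V_ne _))
    refine c.eventually (lt_mem_nhds ?_)
    simp only [t0, G.φ_zero, hv]
    rw [mul_div_cancel_right₀ _ (G.V_ne ζ)]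
    simp
  refine ⟨_, (show ∀ᶠ a in 𝓝 ζ, a ∈ U from hU).and (hb.and (k1.and (k2.and (k3.and k4)))), tt, ee,
    fun a h => ⟨h.2.2.1.trans_le (min_le_right _ _), (hp a h.1).2⟩,
    fun a ⟨a0, a1, a2, a3, a4, a5⟩ b ⟨b0, _, _, b3, _⟩ x y x' y' wa wb h1 h2 => ?_⟩
  have ρ' : ∀ s : ℝ, |s| < ρ → 0 < ((ζ.1 : ℂ) + s * v).im ∧ dist (G.sg ζ s) ζ.1 < r / 2 :=
    fun s hs => hρ (by simpa using hs)
  have one : ∀ s t, |s| < ρ → G.o a t = G.sg ζ s → s = ee a := by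
    intro s t hs h
    have td : |t| < d := by
      by_contra hc
      have := hr a t (not_lt.1 hc)
      change r ≤ dist (G.o a t) a.1 at this
      rw [h] at this
      linarith [dist_triangle_right (G.sg ζ s) a.1 ζ.1, (ρ' s hs).2]
    have hq : ∀ t, HasDerivAt (fun s => ((((G.φ s a).1 : ℂ) - ζ.1) / G.V ζ).re)
        (G.V (G.φ t a) / G.V ζ).re t := fun t => hd_re (((G.hd_z a t).sub_const _).div_const _)
    have mono := strictMonoOn_of_deriv_pos (convex_ball (0 : ℝ) d)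
      (fun t _ => (hq t).continuousAt.continuousWithinAt) fun t ht => by
        rw [(hq t).deriv]
        exact hab (hd (mem_ball.1 (interior_subset ht))) a1
    have z : ∀ s t, |s| < ρ → G.o a t = G.sg ζ s → ((((G.φ t a).1 : ℂ) - ζ.1) / G.V ζ).re = 0 := by
      intro s t hs h
      change ((((G.o a t) : ℂ) - ζ.1) / G.V ζ).re = 0
      rw [h, sc s (ρ' s hs).1, add_sub_cancel_left, hv, ← mul_assoc,
        mul_div_cancel_right₀ _ (G.V_ne ζ)]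
      simp
    have e : t = tt a := mono.injOn (by simpa using td)
      (by simpa using a2.trans_le (min_le_left _ _))
      ((z s t hs h).trans (z _ _ a3 (hp a a0).2.2).symm)
    have e2 : (G.sg ζ s : ℂ) = G.sg ζ (ee a) := by rw [← h, e, ← (hp a a0).2.2]
    rw [sc s (ρ' s hs).1, sc _ (ρ' _ a3).1, add_right_inj] at e2
    exact_mod_cast mul_right_cancel₀ (mul_ne_zero Complex.I_ne_zero (G.V_ne ζ)) e2
  obtain ⟨L, R, h⟩ := hS G a x y wa
  have bL : G.sg ζ (ee b) ∈ L := (hp b b0).2.2 ▸ left hT wa wb h1 h2 h (tt b)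
  by_contra hc
  rcases (not_lt.1 hc).eq_or_lt with e | e
  · exact hT G a b x y x' y' wa wb h1 h2 (tt a) (tt b)
      ((hp a a0).2.2.trans (e ▸ (hp b b0).2.2.symm))
  have ab : ∀ s ∈ Ioo (-ρ) (ee a), |s| < ρ := fun s hs =>
    abs_lt.2 ⟨hs.1, hs.2.trans (abs_lt.1 a3).2⟩
  have l1 : HasDerivAt (fun s : ℝ => ee a - s) (-1) 0 := (hasDerivAt_id (0 : ℝ)).const_sub _
  have l2 : HasDerivAt (fun s : ℝ => (G.sg ζ (ee a - s) : ℂ)) (-v) 0 := by
    refine ((((l1.ofReal_comp).mul_const v).const_add (ζ.1 : ℂ)).congr_deriv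
      (by simp)).congr_of_eventuallyEq ?_
    exact l1.continuousAt.eventually (se _ (by simpa using (ρ' _ a3).1))
  have l3 := (h.loc (tt a) (fun s => G.sg ζ (ee a - s)) (-v)
    (by simpa using (hp a a0).2.2.symm) l2).2 (by rw [neg_div, Complex.neg_im]; linarith)
  obtain ⟨s, s1, s2⟩ := (l3.and (Ioo_mem_nhdsGT (show 0 < ρ + ee a by
    linarith [(abs_lt.1 a3).1]))).exists
  have pc : IsPreconnected (G.sg ζ '' Ioo (-ρ) (ee a)) :=
    isPreconnected_Ioo.image _ fun s hs => (cs s (ρ' s (ab s hs)).1).continuousWithinAt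
  have bR := pc.subset_right_of_subset_union h.oL h.oR h.dis (by
    rw [h.un]
    rintro _ ⟨u, hu, rfl⟩ ⟨w, hw⟩
    exact hu.2.ne (one u w (ab u hu) hw))
    ⟨_, mem_image_of_mem _ (mem_Ioo.2 ⟨by linarith [s2.2], by linarith [s2.1]⟩), s1⟩
    (mem_image_of_mem _ ⟨(abs_lt.1 b3).1, e⟩)
  exact disjoint_left.1 h.dis bL bR

lemma le_of {G : Geo} {U : Set N} {ee : N → ℝ} {ζ1 ζ2 : N} (h1 : U ∈ 𝓝 ζ1) (h2 : U ∈ 𝓝 ζ2)
    (c1 : ContinuousAt ee ζ1) (c2 : ContinuousAt ee ζ2)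
    (ho : ∀ a ∈ U, ∀ b ∈ U, ∀ x y x' y', G.Wl a x y → G.Wl b x' y' → x' < x → y < y' → ee a < ee b)
    (h : G.Lf ζ1 ζ2) : ee ζ1 ≤ ee ζ2 := by
  by_contra hc
  obtain ⟨m, m1, m2⟩ := exists_between (not_le.1 hc)
  obtain ⟨a, ⟨a1, a2⟩, b, ⟨b1, b2⟩, x, y, x', y', wa, wb, k1, k2⟩ :=
    h _ (inter_mem h1 (c1.eventually (lt_mem_nhds m2))) _
      (inter_mem h2 (c2.eventually (gt_mem_nhds m1)))
  exact lt_asymm (ho a a1 b b1 x y x' y' wa wb k1 k2) (lt_trans b2 a2)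

end FDe

open FDe in
theorem de (hB : BaseSt) (hS : SideSt) (hT : T3St) : DeSt := by
  intro G ζ
  obtain ⟨U, hU, tt, ee, p1, o1⟩ := ord hS hT G ζ
  obtain ⟨U', hU', tt', ee', p2, o2⟩ := ord hS hT G (G.φ 1 ζ)
  have c : Continuous (G.φ 1) := G.continuous_φ.comp (continuous_const.prodMk continuous_id)
  obtain ⟨W, hW, Wo, Wz⟩ := _root_.mem_nhds_iff.1 (inter_mem hU (c.continuousAt.preimage_mem_nhds hU'))
  refine ⟨W, Wo.mem_nhds Wz, fun ζ1 h1 ζ2 h2 l1 l2 => ?_⟩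
  have n1 := Wo.mem_nhds h1
  have n2 := Wo.mem_nhds h2
  have a1 := p1 _ (hW h1).1
  have a2 := p1 _ (hW h2).1
  have b1 := p2 _ (hW h1).2
  have b2 := p2 _ (hW h2).2
  have q1 := fun a (ha : a ∈ W) b (hb : b ∈ W) => o1 a (hW ha).1 b (hW hb).1
  have q2 : ∀ a ∈ W, ∀ b ∈ W, ∀ x y x' y', G.Wl a x y → G.Wl b x' y' → x' < x → y < y' →
      ee' (G.φ 1 a) < ee' (G.φ 1 b) := fun a ha b hb x y x' y' wa wb =>
    o2 _ (hW ha).2 _ (hW hb).2 x y x' y' ((hB G).wφ _ _ _ 1 wa) ((hB G).wφ _ _ _ 1 wb)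
  have e1 : ee ζ1 = ee ζ2 :=
    le_antisymm (le_of n1 n2 a1.2.1 a2.2.1 q1 l1) (le_of n2 n1 a2.2.1 a1.2.1 q1 l2)
  have d1 : ContinuousAt (fun a => ee' (G.φ 1 a)) ζ1 := b1.2.1.comp c.continuousAt
  have d2 : ContinuousAt (fun a => ee' (G.φ 1 a)) ζ2 := b2.2.1.comp c.continuousAt
  have e2 : ee' (G.φ 1 ζ1) = ee' (G.φ 1 ζ2) :=
    le_antisymm (le_of (ee := fun a => ee' (G.φ 1 a)) n1 n2 d1 d2 q2 l1)
      (le_of (ee := fun a => ee' (G.φ 1 a)) n2 n1 d2 d1 q2 l2)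
  obtain ⟨k, hk⟩ := (hB G).f5 ζ1 ζ2 (tt ζ1) (tt' (G.φ 1 ζ1) + 1) (tt ζ2) (tt' (G.φ 1 ζ2) + 1)
    (by linarith [abs_lt.1 a1.1, abs_lt.1 b1.1]) (by linarith [abs_lt.1 a2.1, abs_lt.1 b2.1])
    (by rw [a1.2.2, a2.2.2, e1]) (by
      simp only [Geo.o, G.φ_add] at b1 b2 ⊢
      rw [b1.2.2, b2.2.2, e2])
  exact ⟨-tt ζ2 + tt ζ1, k, by rw [G.φ_add, hk, G.φ_rot, G.φ_neg]⟩

end Pool.Agent.Lib.MP_21f752_an
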