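import Pool.Agent.Lib.MP_21f752_an.FG

/-! The disc model of Möbius maps and their lifts to the line. -/

namespace Pool.Agent.Lib.MP_21f752_an

open UpperHalfPlane Set Filter Topology Metric
open scoped MatrixGroups Real ComplexConjugate

noncomputable section

namespace FCg

def cA (γ : SL(2, ℝ)) : ℂ := ⟨(γ 0 0 + γ 1 1) / 2, (γ 0 1 - γ 1 0) / 2⟩

def cB (γ : SL(2, ℝ)) : ℂ := ⟨(γ 0 0 - γ 1 1) / 2, -(γ 0 1 + γ 1 0) / 2⟩

lemma nsq (γ : SL(2, ℝ)) : Complex.normSq (cA γ) = Complex.normSq (cB γ) + 1 := by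
  have := det_one γ
  simp only [cA, cB, Complex.normSq_mk]
  linear_combination this

lemma det_c (γ : SL(2, ℝ)) : cA γ * conj (cA γ) - cB γ * conj (cB γ) = 1 := by
  rw [Complex.mul_conj, Complex.mul_conj, nsq]
  push_cast
  ring

lemma nsq' (γ : SL(2, ℝ)) : ‖cA γ‖ ^ 2 = ‖cB γ‖ ^ 2 + 1 := by
  rw [← Complex.normSq_eq_norm_sq, ← Complex.normSq_eq_norm_sq, nsq]

lemma B_lt (γ : SL(2, ℝ)) : ‖cB γ‖ < ‖cA γ‖ :=
  lt_of_pow_lt_pow_left₀ 2 (norm_nonneg _) (by rw [nsq']; linarith)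

lemma A_pos (γ : SL(2, ℝ)) : 0 < ‖cA γ‖ := (norm_nonneg _).trans_lt (B_lt γ)

lemma A_ne (γ : SL(2, ℝ)) : cA γ ≠ 0 := norm_pos_iff.1 (A_pos γ)

lemma A_mul (γ δ : SL(2, ℝ)) : cA (γ * δ) = cA γ * cA δ + cB γ * conj (cB δ) := by
  apply Complex.ext <;> simp [cA, cB, mul_entry, -Matrix.SpecialLinearGroup.coe_mul] <;> ring

lemma B_mul (γ δ : SL(2, ℝ)) : cB (γ * δ) = cA γ * cB δ + cB γ * conj (cA δ) := by
  apply Complex.ext <;> simp [cA, cB, mul_entry, -Matrix.SpecialLinearGroup.coe_mul] <;> ring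

lemma A_one : cA 1 = 1 := by apply Complex.ext <;> simp [cA]

lemma B_one : cB 1 = 0 := by apply Complex.ext <;> simp [cB]

lemma A_inv (γ : SL(2, ℝ)) : cA γ⁻¹ = conj (cA γ) := by
  rw [Matrix.SpecialLinearGroup.SL2_inv_expl]
  apply Complex.ext <;> simp [cA] <;> ring

lemma B_inv (γ : SL(2, ℝ)) : cB γ⁻¹ = -cB γ := by
  rw [Matrix.SpecialLinearGroup.SL2_inv_expl]
  apply Complex.ext <;> simp [cB] <;> ring

def dd (γ : SL(2, ℝ)) (w : ℂ) : ℂ := conj (cB γ) * w + conj (cA γ)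

/-- the Möbius map in the disc model -/
def dm (γ : SL(2, ℝ)) (w : ℂ) : ℂ := (cA γ * w + cB γ) / dd γ w

lemma dd_ne (γ : SL(2, ℝ)) {w : ℂ} (hw : ‖w‖ ≤ 1) : dd γ w ≠ 0 := by
  intro h
  have h1 : conj (cA γ) = -(conj (cB γ) * w) := by rw [dd] at h; linear_combination h
  have h2 := congrArg norm h1
  rw [norm_neg, norm_mul, Complex.norm_conj, Complex.norm_conj] at h2
  have := B_lt γ
  have := mul_le_mul_of_nonneg_left hw (norm_nonneg (cB γ))
  linarith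

lemma dm_sub (γ : SL(2, ℝ)) {v w : ℂ} (hv : ‖v‖ ≤ 1) (hw : ‖w‖ ≤ 1) :
    dm γ v - dm γ w = (v - w) / (dd γ v * dd γ w) := by
  rw [dm, dm, div_sub_div _ _ (dd_ne γ hv) (dd_ne γ hw)]
  congr 1
  simp only [dd]
  linear_combination (v - w) * det_c γ

lemma dm_norm (γ : SL(2, ℝ)) {w : ℂ} (hw : ‖w‖ ≤ 1) : ‖dm γ w‖ ≤ 1 := by
  rw [dm, norm_div, div_le_one (norm_pos_iff.2 (dd_ne γ hw))]
  refine le_of_sq_le_sq ?_ (norm_nonneg _)
  have h1 : Complex.normSq w ≤ 1 := by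
    rw [Complex.normSq_eq_norm_sq]; exact pow_le_one₀ (norm_nonneg _) hw
  have h2 := nsq γ
  rw [← Complex.normSq_eq_norm_sq, ← Complex.normSq_eq_norm_sq]
  simp only [dd, Complex.normSq_apply, Complex.add_re, Complex.add_im, Complex.mul_re,
    Complex.mul_im, Complex.conj_re, Complex.conj_im] at h1 h2 ⊢
  have : ∀ a b : ℝ, b - a = 1 - (w.re * w.re + w.im * w.im) → a ≤ b := fun a b h => by linarith
  apply this
  linear_combination (1 - (w.re * w.re + w.im * w.im)) * h2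

lemma dm_mul (γ δ : SL(2, ℝ)) {w : ℂ} (hw : ‖w‖ ≤ 1) : dm (γ * δ) w = dm γ (dm δ w) := by
  have h1 := dd_ne δ hw
  have h2 := dd_ne γ (dm_norm δ hw)
  have h3 := dd_ne (γ * δ) hw
  have e : dd (γ * δ) w = dd γ (dm δ w) * dd δ w := by
    rw [dd, dd, dm, add_mul, mul_assoc, div_mul_cancel₀ _ h1, A_mul, B_mul, dd]
    simp only [map_add, map_mul, Complex.conj_conj]
    ring
  have e' : cA (γ * δ) * w + cB (γ * δ) = (cA γ * dm δ w + cB γ) * dd δ w := by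
    rw [dm, add_mul (cA γ * _), mul_assoc (cA γ), div_mul_cancel₀ _ h1, A_mul, B_mul, dd]
    ring
  rw [dm, e, e', mul_div_mul_right _ _ h1]
  rfl

lemma dm_one (w : ℂ) : dm 1 w = w := by simp [dm, dd, A_one, B_one]

lemma dm_inv (γ : SL(2, ℝ)) {w : ℂ} (hw : ‖w‖ ≤ 1) : dm γ⁻¹ (dm γ w) = w := by
  rw [← dm_mul _ _ hw, inv_mul_cancel, dm_one]

lemma dm_cont (γ : SL(2, ℝ)) {w : ℂ} (hw : ‖w‖ ≤ 1) : ContinuousAt (dm γ) w :=
  ContinuousAt.div (by fun_prop) (by unfold dd; fun_prop) (dd_ne γ hw)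

lemma add_I_ne (z : ℍ) : (z : ℂ) + Complex.I ≠ 0 := by
  intro h
  have := congrArg Complex.im h
  simp at this
  linarith [z.im_pos]

lemma cay_le (z : ℍ) : ‖cay z‖ ≤ 1 := by
  rw [cay, norm_div, div_le_one (norm_pos_iff.2 (add_I_ne z))]
  refine le_of_sq_le_sq ?_ (norm_nonneg _)
  rw [← Complex.normSq_eq_norm_sq, ← Complex.normSq_eq_norm_sq]
  simp [Complex.normSq_apply]
  linarith [z.im_pos]

lemma cay_smul (γ : SL(2, ℝ)) (z : ℍ) : cay (γ • z) = dm γ (cay z) := by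
  have h1 := add_I_ne z
  have h2 := add_I_ne (γ • z)
  have h3 := dd_ne γ (cay_le z)
  have h4 := den_ne γ z.im_pos
  have a : cA γ = (((γ 0 0 : ℝ) : ℂ) + (γ 1 1 : ℝ)) / 2 +
      (((γ 0 1 : ℝ) : ℂ) - (γ 1 0 : ℝ)) / 2 * Complex.I := by
    apply Complex.ext <;> simp [cA]
  have b : cB γ = (((γ 0 0 : ℝ) : ℂ) - (γ 1 1 : ℝ)) / 2 -
      (((γ 0 1 : ℝ) : ℂ) + (γ 1 0 : ℝ)) / 2 * Complex.I := by
    apply Complex.ext <;> simp [cB]
    ring
  have a' : conj (cA γ) = (((γ 0 0 : ℝ) : ℂ) + (γ 1 1 : ℝ)) / 2 -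
      (((γ 0 1 : ℝ) : ℂ) - (γ 1 0 : ℝ)) / 2 * Complex.I := by
    apply Complex.ext <;> simp [cA]
  have b' : conj (cB γ) = (((γ 0 0 : ℝ) : ℂ) - (γ 1 1 : ℝ)) / 2 +
      (((γ 0 1 : ℝ) : ℂ) + (γ 1 0 : ℝ)) / 2 * Complex.I := by
    apply Complex.ext <;> simp [cB]
    ring
  rw [dm, cay, div_eq_div_iff h2 h3, dd, a', b', a, b, coe_smul_mob, mob, cay]
  field_simp
  rw [den]
  have hI := Complex.I_mul_I
  ring_nf
  simp only [Complex.I_sq, Complex.I_pow_three]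
  ring

lemma exists_cay {w : ℂ} (hw : ‖w‖ < 1) : ∃ z, cay z = w := by
  have h1 : 1 - w ≠ 0 := by
    intro h
    rw [← sub_eq_zero.1 h] at hw
    simp at hw
  have h2 : Complex.normSq w < 1 := by
    rw [Complex.normSq_eq_norm_sq]; exact pow_lt_one₀ (norm_nonneg _) hw two_ne_zero
  refine ⟨⟨Complex.I * (1 + w) / (1 - w), ?_⟩, ?_⟩
  · rw [Complex.div_im, ← sub_div]
    refine div_pos ?_ (Complex.normSq_pos.2 h1)
    rw [Complex.normSq_apply] at h2
    simp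
    linarith
  · rw [cay, div_eq_iff (add_I_ne _)]
    change Complex.I * (1 + w) / (1 - w) - _ = w * (Complex.I * (1 + w) / (1 - w) + _)
    field_simp
    ring

/-- `g` lifts the action on the circle -/
def Lf (γ : SL(2, ℝ)) (g : ℝ ≃o ℝ) : Prop := ∀ t, ce (g t) = dm γ (ce t)

lemma ce_le (t : ℝ) : ‖ce t‖ ≤ 1 := (norm_ce t).le

lemma Lf.mul {γ δ : SL(2, ℝ)} {g h : ℝ ≃o ℝ} (a : Lf γ g) (b : Lf δ h) : Lf (γ * δ) (g * h) :=
  fun t => by rw [dm_mul _ _ (ce_le t), ← b t, ← a]; rfl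

lemma Lf.inv {γ : SL(2, ℝ)} {g : ℝ ≃o ℝ} (a : Lf γ g) : Lf γ⁻¹ g⁻¹ := fun t => by
  have := a (g⁻¹ t)
  rw [RelIso.apply_inv_self] at this
  rw [this, dm_inv _ (ce_le _)]

lemma lf_of {γ : SL(2, ℝ)} {g : ℝ ≃o ℝ} (h : Lift γ g) : Lf γ g := by
  intro l
  refine eq_of_forall_dist_le fun ε hε => ?_
  obtain ⟨δ, hδ, h1⟩ := h.fw l (ε / 2) (by positivity)
  obtain ⟨δ', hδ', h2⟩ := Metric.continuousAt_iff.1 (dm_cont γ (ce_le l)) (ε / 2) (by positivity)
  obtain ⟨s, s0, s1, s2, s3⟩ : ∃ s : ℝ, 0 < s ∧ s < 1 ∧ s < δ ∧ s < δ' :=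
    ⟨min 1 (min δ δ') / 2, by positivity, by linarith [min_le_left 1 (min δ δ')],
      by linarith [min_le_right 1 (min δ δ'), min_le_left δ δ'],
      by linarith [min_le_right 1 (min δ δ'), min_le_right δ δ']⟩
  obtain ⟨z, hz⟩ := exists_cay (w := (1 - s : ℝ) * ce l) (by
    rw [norm_mul, norm_ce, Complex.norm_real, Real.norm_of_nonneg (by linarith)]; linarith)
  have e : ‖cay z - ce l‖ = s := by
    have : cay z - ce l = -((s : ℝ) * ce l) := by rw [hz]; push_cast; ring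
    rw [this, norm_neg, norm_mul, norm_ce, Complex.norm_real, Real.norm_of_nonneg s0.le, mul_one]
  have h3 : ‖cay (γ • z) - ce (g l)‖ < ε / 2 := h1 z (by rw [Bl, mem_ofPred_eq, e]; exact s2)
  have h4 := h2 (x := cay z) (by rw [dist_eq_norm, e]; exact s3)
  rw [cay_smul, ← dist_eq_norm] at h3
  have := dist_triangle_left (ce (g l)) (dm γ (ce l)) (dm γ (cay z))
  linarith

lemma Lf.fw {γ : SL(2, ℝ)} {g : ℝ ≃o ℝ} (a : Lf γ g) (l ε : ℝ) (hε : 0 < ε) :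
    ∃ δ, 0 < δ ∧ ∀ z ∈ Bl l δ, γ • z ∈ Bl (g l) ε := by
  obtain ⟨δ, hδ, h⟩ := Metric.continuousAt_iff.1 (dm_cont γ (ce_le l)) ε hε
  refine ⟨δ, hδ, fun z hz => ?_⟩
  have := h (x := cay z) (by rw [dist_eq_norm]; exact hz)
  rwa [← a l, ← cay_smul, dist_eq_norm] at this

lemma ce_per (t : ℝ) (k : ℤ) : ce (t + k * (2 * π)) = ce t := by rw [ce_add, ce_int, mul_one]

lemma ce_per' (t : ℝ) : ce (t + 2 * π) = ce t := by simpa using ce_per t 1

/-- two continuous lifts differ by a constant -/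
lemma lift_uniq {f g : ℝ → ℝ} (hf : Continuous f) (hg : Continuous g)
    (h : ∀ t, ce (f t) = ce (g t)) : ∃ k : ℤ, ∀ t, f t = g t + k * (2 * π) := by
  choose k hk using fun t => ce_eq_iff.1 (h t)
  have key : ∀ s t, ¬k s < k t := by
    intro s t hst
    have h1 : (k s : ℝ) + 1 ≤ k t := by exact_mod_cast hst
    have hp := Real.pi_pos
    obtain ⟨r, hr⟩ := intermediate_value_univ s t (hf.sub hg)
      (show k s * (2 * π) + π ∈ _ from ⟨by simp only [Pi.sub_apply]; linarith [hk s],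
        by simp only [Pi.sub_apply]; nlinarith [hk t]⟩)
    simp only [Pi.sub_apply] at hr
    have h2 : ((2 * k s + 1 : ℤ) : ℝ) = (2 * k r : ℤ) := by
      push_cast
      have : (2 * (k s : ℝ) + 1) * π = 2 * k r * π := by linarith [hk r]
      exact mul_right_cancel₀ hp.ne' this
    have : 2 * k s + 1 = 2 * k r := by exact_mod_cast h2
    omega
  exact ⟨k 0, fun t => by rw [le_antisymm (not_lt.1 (key t 0)) (not_lt.1 (key 0 t))]; exact hk t⟩

lemma Lf.uniq {γ : SL(2, ℝ)} {g h : ℝ ≃o ℝ} (a : Lf γ g) (b : Lf γ h) :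
    ∃ k : ℤ, ∀ t, g t = h t + k * (2 * π) :=
  lift_uniq g.continuous h.continuous fun t => (a t).trans (b t).symm

lemma ce_arg (Z : ℂ) : (‖Z‖ : ℂ) * ce (Complex.arg Z) = Z := Complex.norm_mul_exp_arg_mul_I _

lemma conj_ce (t : ℝ) : conj (ce t) = ce (-t) := by
  simp [ce, ← Complex.exp_conj]

lemma ce_neg (t : ℝ) : ce t * ce (-t) = 1 := by rw [← ce_add, add_neg_cancel, ce_zero]

lemma ce_two_arg (Z : ℂ) : ce (2 * Complex.arg Z) * conj Z = Z := by
  have h1 := ce_arg Z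
  have h2 := congrArg conj h1
  rw [map_mul, conj_ce, Complex.conj_ofReal] at h2
  rw [← h2, two_mul, ce_add]
  linear_combination h1 + (‖Z‖ : ℂ) * ce (Complex.arg Z) * ce_neg (Complex.arg Z)

lemma exists_lf (γ : SL(2, ℝ)) :
    ∃ g, Lf γ g ∧ ∀ t (k : ℤ), g (t + k * (2 * π)) = g t + k * (2 * π) := by
  have hA := A_ne γ
  have hb : ‖cB γ / cA γ‖ < 1 := by rw [norm_div, div_lt_one (A_pos γ)]; exact B_lt γ
  set β := cB γ / cA γ with hβ
  have hre : ∀ t, 0 < (1 + β * ce (-t)).re := fun t => by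
    have := (abs_le.1 (Complex.abs_re_le_norm (β * ce (-t)))).1
    rw [norm_mul, norm_ce, mul_one] at this
    rw [Complex.add_re, Complex.one_re]
    linarith
  set f : ℝ → ℝ := fun t => t + 2 * Complex.arg (cA γ) + 2 * Complex.arg (1 + β * ce (-t)) with hf
  have c : Continuous f := by
    refine (continuous_id.add continuous_const).add (continuous_const.mul
      (continuous_iff_continuousAt.2 fun t => ?_))
    exact ContinuousAt.comp (f := fun t => 1 + β * ce (-t))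
      (Complex.continuousAt_arg (Or.inl (hre t)))
      (continuous_const.add (continuous_const.mul (continuous_ce.comp continuous_neg))).continuousAt
  have l : ∀ t, ce (f t) = dm γ (ce t) := fun t => by
    rw [dm, eq_div_iff (dd_ne γ (ce_le t)), hf]
    simp only [ce_add]
    have h1 := ce_two_arg (cA γ)
    have h2 := ce_two_arg (1 + β * ce (-t))
    have h3 : cB γ = β * cA γ := by rw [hβ, div_mul_cancel₀ _ hA]
    rw [map_add, map_mul, conj_ce, neg_neg, map_one] at h2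
    rw [dd, h3, map_mul]
    linear_combination (ce t * ce (2 * Complex.arg (1 + β * ce (-t))) * (1 + conj β * ce t)) * h1 +
      ce t * cA γ * h2 + β * cA γ * ce_neg t
  have p : ∀ t (k : ℤ), f (t + k * (2 * π)) = f t + k * (2 * π) := fun t k => by
    have : ce (-(t + k * (2 * π))) = ce (-t) := by rw [← conj_ce, ce_per, conj_ce]
    simp only [hf, this]
    ring
  have inj : Function.Injective f := fun s t h => by
    have h1 : ce s = ce t := by
      rw [← dm_inv γ (ce_le s), ← l, h, l, dm_inv γ (ce_le t)]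
    obtain ⟨k, rfl⟩ := ce_eq_iff.1 h1
    rw [p] at h
    linarith
  have m : StrictMono f := (c.strictMono_of_inj inj).resolve_right fun h => by
    have h1 := h (a := 0) (b := 0 + (1 : ℤ) * (2 * π)) (by simp [Real.pi_pos])
    rw [p] at h1
    simp at h1
    linarith [Real.pi_pos]
  have bd : ∀ t, |f t - t| ≤ 4 * π := fun t => by
    have a := abs_le.1 (Complex.abs_arg_le_pi (cA γ))
    have b := abs_le.1 (Complex.abs_arg_le_pi (1 + β * ce (-t)))
    simp only [hf]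
    exact abs_le.2 ⟨by linarith, by linarith⟩
  have s : Function.Surjective f := c.surjective
    (tendsto_atTop_mono (f := fun t => t + -(4 * π)) (fun t => by linarith [(abs_le.1 (bd t)).1])
      (tendsto_atTop_add_const_right _ _ tendsto_id))
    (tendsto_atBot_mono (f := fun t => t + 4 * π) (fun t => by linarith [(abs_le.1 (bd t)).2])
      (tendsto_atBot_add_const_right _ _ tendsto_id))
  exact ⟨m.orderIsoOfSurjective f s, l, p⟩

lemma Lf.per {γ : SL(2, ℝ)} {g : ℝ ≃o ℝ} (a : Lf γ g) (t : ℝ) (k : ℤ) :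
    g (t + k * (2 * π)) = g t + k * (2 * π) := by
  obtain ⟨h, b, p⟩ := exists_lf γ
  obtain ⟨j, e⟩ := a.uniq b
  rw [e, e, p]
  ring

lemma Lf.per' {γ : SL(2, ℝ)} {g : ℝ ≃o ℝ} (a : Lf γ g) (t : ℝ) : g (t + 2 * π) = g t + 2 * π := by
  simpa using a.per t 1

lemma Lf.lift {γ : SL(2, ℝ)} {g : ℝ ≃o ℝ} (a : Lf γ g) : Lift γ g :=
  ⟨a.per', a.fw, fun l ε h => by simpa using a.inv.fw (g l) ε h⟩

lemma Lf.shift {γ : SL(2, ℝ)} {g : ℝ ≃o ℝ} (a : Lf γ g) (k : ℤ) :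
    ∃ h, Lf γ h ∧ ∀ t, h t = g t + k * (2 * π) :=
  ⟨g.trans (OrderIso.addRight (k * (2 * π))), fun t => (ce_per _ k).trans (a t), fun _ => rfl⟩

lemma mem_iff {Γ : Subgroup SL(2, ℝ)} {g : ℝ ≃o ℝ} : g ∈ GG Γ ↔ ∃ γ ∈ Γ, Lf γ g :=
  ⟨fun ⟨γ, a, b⟩ => ⟨γ, a, lf_of b⟩, fun ⟨γ, a, b⟩ => ⟨γ, a, b.lift⟩⟩

lemma norm_ce_sub (s t : ℝ) : ‖ce s - ce t‖ = 2 * |Real.sin ((s - t) / 2)| := by
  have e : ce s - ce t = ce t * (ce (s - t) - 1) := by
    rw [mul_sub, ← ce_add, mul_one, add_sub_cancel]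
  rw [e, norm_mul, norm_ce, one_mul, ce, mul_comm, Complex.norm_exp_I_mul_ofReal_sub_one,
    Real.norm_eq_abs, abs_mul, abs_two]

end FCg

end

end Pool.Agent.Lib.MP_21f752_an
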