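import Pool.Agent.Lib.MP_21f752_an.FC

/-! The dichotomy at a jump of a fan. -/

namespace Pool.Agent.Lib.MP_21f752_an

open Set Filter Topology
open scoped Real

namespace FFd

theorem pow_ap (d : ℝ ≃o ℝ) (n : ℕ) (t : ℝ) : (d ^ n) t = d^[n] t := by
  induction n generalizing t with
  | zero => rfl
  | succ n ih => rw [pow_succ, Function.iterate_succ_apply, ← ih]; rfl

theorem lim {d : ℝ ≃o ℝ} {u v t : ℝ} (H : Hyp d u v) (h1 : u < t) (h2 : t < u + 2 * π) :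
    Tendsto (fun n => d^[n] t) atTop (𝓝 v) := by
  have fv : ∀ n, d^[n] v = v := fun n => Function.iterate_fixed H.fv n
  rcases le_total t v with h | h
  · have m := d.monotone.monotone_iterate_of_le_map (x := t)
      (h.eq_or_lt.elim (fun e => by rw [e, H.fv]) fun e => (H.up t h1 e).le)
    have b : ∀ n, d^[n] t ≤ v := fun n => fv n ▸ d.monotone.iterate n h
    have T := tendsto_atTop_ciSup m ⟨v, forall_mem_range.2 b⟩
    have f : d _ = _ := isFixedPt_of_tendsto_iterate T d.continuous.continuousAt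
    have l := ge_of_tendsto' T fun n => m n.zero_le
    exact (le_of_tendsto' T b).eq_or_lt.elim (· ▸ T) fun e =>
      absurd f (H.up _ (h1.trans_le l) e).ne'
  · have m := d.monotone.antitone_iterate_of_map_le (x := t)
      (h.eq_or_lt.elim (fun e => by rw [← e, H.fv]) fun e => (H.dn t e h2).le)
    have b : ∀ n, v ≤ d^[n] t := fun n => fv n ▸ d.monotone.iterate n h
    have T := tendsto_atTop_ciInf m ⟨v, forall_mem_range.2 b⟩
    have f : d _ = _ := isFixedPt_of_tendsto_iterate T d.continuous.continuousAt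
    have l := le_of_tendsto' T fun n => m n.zero_le
    exact (ge_of_tendsto' T b).eq_or_lt.elim (·.symm ▸ T) fun e =>
      absurd f (H.dn _ e (l.trans_lt h2)).ne

/-- high powers of a hyperbolic element contract -/
theorem ctr {d : ℝ ≃o ℝ} {u v ε : ℝ} (H : Hyp d u v) (h : 0 < ε) :
    ∀ᶠ n in atTop, Ctr (d ^ n) u v ε := by
  by_cases c : u + ε ≤ u + 2 * π - ε
  · filter_upwards [(lim H (t := u + ε) (by linarith) (by linarith)).eventually
      (lt_mem_nhds (show v - ε < v by linarith)), (lim H (t := u + 2 * π - ε) (by linarith)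
      (by linarith)).eventually (gt_mem_nhds (show v < v + ε by linarith))] with n a b t t1 t2
    rw [← pow_ap] at a b
    have := (d ^ n).monotone t1
    have := (d ^ n).monotone t2
    rw [abs_lt]; constructor <;> linarith
  · exact Eventually.of_forall fun n t t1 t2 => absurd (t1.trans t2) c

variable {C : CW} {k : C.W}

/-- an axis with points of `Lam` on both sides has a shielded end -/
theorem sh (c : CW.Cell1 k) {d : ℝ ≃o ℝ} (dG : d ∈ C.G) {u v s t : ℝ} (H : Hyp d u v) (s1 : u < s)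
    (s2 : s < v) (t1 : v < t) (t2 : t < u + 2 * π) (sL : s ∈ CW.Lam k) (tL : t ∈ CW.Lam k) :
    C.Sh v := by
  have p : ∀ ε, 0 < ε → ∃ g ∈ C.G, Ctr g u v ε ∧ g v = v := fun ε h => by
    obtain ⟨n, hn⟩ := (ctr H h).exists
    exact ⟨d ^ n, C.G.pow_mem dG n, hn, (pow_ap d n v).trans (Function.iterate_fixed H.fv n)⟩
  obtain ⟨w, -, ⟨a, b, e, f⟩ | ⟨a, b, e, f⟩⟩ := c.sep u v s t s1 s2 t1 t2 sL tL
  · refine ⟨w, u, Or.inl ⟨by linarith, a, fun ε h => ?_⟩⟩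
    obtain ⟨g, gG, g1, g2⟩ := p ε h
    exact ⟨g, gG, g1, (g.strictMono b).trans_eq g2, g2.symm.trans_lt (g.strictMono e)⟩
  · refine ⟨w, u, Or.inr ⟨a, b, fun ε h => ?_⟩⟩
    obtain ⟨g, gG, g1, g2⟩ := p ε h
    exact ⟨g, gG, g1, (g.strictMono e).trans_eq g2, g2.symm.trans_lt (g.strictMono f)⟩

theorem ne1 {d : ℝ ≃o ℝ} {u v : ℝ} (H : Hyp d u v) : d ≠ 1 := fun e => by
  have := H.up ((u + v) / 2) (by linarith [H.lt]) (by linarith [H.lt])
  rw [e] at this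
  exact lt_irrefl _ this

theorem lk {w w' : C.W} (h : C.Lk w w') : w ∈ CW.K k ↔ w' ∈ CW.K k :=
  ⟨fun a => .trans _ _ _ a (.rel _ _ (Or.inl h)),
    fun a => .trans _ _ _ a (.symm _ _ (.rel _ _ (Or.inl h)))⟩

theorem lamx {w : C.W} (h : w ∈ CW.K k) : C.x w ∈ CW.Lam k := subset_closure ⟨w, h, Or.inl rfl⟩

theorem lamy {w : C.W} (h : w ∈ CW.K k) : C.y w ∈ CW.Lam k := subset_closure ⟨w, h, Or.inr rfl⟩

theorem nej {s l : ℝ} (h : (s < l ∧ l < s + 2 * π) ∨ (l < s ∧ s < l + 2 * π)) (j : ℤ) :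
    s + j * (2 * π) ≠ l := fun e => by
  have p := Real.pi_pos
  rcases h with ⟨a, b⟩ | ⟨a, b⟩
  · have h1 : (0 : ℝ) < j := by nlinarith
    have h2 : (j : ℝ) < 1 := by nlinarith
    have : 0 < j := by exact_mod_cast h1
    have : j < 1 := by exact_mod_cast h2
    omega
  · have h1 : (j : ℝ) < 0 := by nlinarith
    have h2 : (-1 : ℝ) < j := by nlinarith
    have : j < 0 := by exact_mod_cast h1
    have : -1 < j := by exact_mod_cast h2
    omega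

theorem btw {p q z : ℝ} (h : ∀ δ, 0 < δ → ∃ s, p ≤ s ∧ s ≤ q ∧ |s - z| < δ) : p ≤ z ∧ z ≤ q :=
  ⟨le_of_forall_pos_lt_add fun δ d => by
    obtain ⟨s, a, -, c⟩ := h δ d; linarith [(abs_lt.1 c).2],
  le_of_forall_pos_lt_add fun δ d => by
    obtain ⟨s, -, a, c⟩ := h δ d; linarith [(abs_lt.1 c).1]⟩

end FFd

open FFd in
theorem fd (h1 : Cell1St) (h2 : Cell2St) : FDSt := by
  intro C k w1 hw w2 L ε hε
  have c1 := h1 C.toCW k
  have c2 := h2 C.toCW k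
  obtain ⟨l1, l2, l3, l4⟩ := id L
  obtain ⟨η, η0, η1, η2, η3, η4, η5⟩ : ∃ η, 0 < η ∧ η ≤ ε ∧ 2 * η ≤ C.x w2 - C.x w1 ∧
      2 * η ≤ C.y w1 - C.x w2 ∧ 2 * η ≤ C.y w2 - C.y w1 ∧ 2 * η ≤ C.x w1 + 2 * π - C.y w2 := by
    refine ⟨min ε (min (min (C.x w2 - C.x w1) (C.y w1 - C.x w2))
      (min (C.y w2 - C.y w1) (C.x w1 + 2 * π - C.y w2)) / 2), ?_, min_le_left _ _, ?_⟩
    · exact lt_min hε (half_pos (lt_min (lt_min (sub_pos.2 l1) (sub_pos.2 l2))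
        (lt_min (sub_pos.2 l3) (sub_pos.2 l4))))
    · simp only [← le_div_iff₀' (two_pos (α := ℝ))]
      refine ⟨?_, ?_, ?_, ?_⟩ <;> refine (min_le_right _ _).trans ?_ <;> gcongr <;> simp
  obtain ⟨k1, k2, F, m1, m2, a1, a2, a3, a4, bx, J⟩ := C.fan w1 w2 L η η0
  have b1 := abs_lt.1 a1
  have b2 := abs_lt.1 a2
  have b3 := abs_lt.1 a3
  have b4 := abs_lt.1 a4
  have q1 : C.x k1 < C.x k2 := by linarith
  have q2 : C.x k2 < C.y k1 := by linarith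
  have q3 : C.y k1 < C.y k2 := by linarith
  have q4 : C.y k2 < C.x k1 + 2 * π := by linarith
  have K1 : k1 ∈ CW.K k := (lk (w := k1) (w' := w2)
    ⟨by linarith, by linarith, by linarith, by linarith⟩).2 ((lk L).1 hw)
  have FK : F ⊆ CW.K k := fun f hf => by
    obtain ⟨f1, f2, f3, f4⟩ := bx f hf
    rcases f1.eq_or_lt with e | e
    · exact c1.share f (Or.inl (e ▸ lamx K1))
    rcases f3.eq_or_lt with e' | e'
    · exact c1.share f (Or.inr (e' ▸ lamy K1))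
    exact (lk ⟨e, by linarith, e', by linarith⟩).1 K1
  refine ⟨k1, k2, F, m1, m2, FK, ⟨q1, q2, q3, q4⟩, a1.trans_le η1, a2.trans_le η1, a3.trans_le η1,
    a4.trans_le η1, bx, fun m e e1 e2 e3 e4 => ?_⟩
  obtain ⟨a, b, ω, ξ1, ξ2, am, mb, aω, ωb, A, B, D⟩ := J m e e1 e2 e3 e4
  have FA : C.Fing F ξ1 a ω := fun δ d => (A δ d).imp fun f h => ⟨h.1, h.2.1, h.2.2.1, h.2.2.2.2⟩
  have FB : C.Fing F ξ2 b ω := fun δ d => (B δ d).imp fun f h => ⟨h.1, h.2.1, h.2.2.1, h.2.2.2.2⟩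
  have A' : ∀ δ, 0 < δ → ∃ f ∈ F, |C.y f - a| < δ := fun δ d =>
    (FA δ d).imp fun f h => ⟨h.1, h.2.2.1⟩
  have B' : ∀ δ, 0 < δ → ∃ f ∈ F, |C.y f - b| < δ := fun δ d =>
    (FB δ d).imp fun f h => ⟨h.1, h.2.2.1⟩
  have lam : ∀ z, (∀ δ, 0 < δ → ∃ f ∈ F, |C.y f - z| < δ) →
      z ∈ CW.Lam k ∧ C.y k1 ≤ z ∧ z ≤ C.y k2 := fun z h =>
    ⟨Metric.mem_closure_iff.2 fun δ d => by
      obtain ⟨f, hf, h⟩ := h δ d
      exact ⟨_, ⟨f, FK hf, Or.inr rfl⟩, by rwa [dist_comm, Real.dist_eq]⟩,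
    btw fun δ d => by
      obtain ⟨f, hf, h⟩ := h δ d
      exact ⟨_, (bx f hf).2.2.1, (bx f hf).2.2.2, h⟩⟩
  obtain ⟨aL, a5, -⟩ := lam a A'
  obtain ⟨bL, -, b5⟩ := lam b B'
  have ab : b < a + 2 * π := by linarith
  have ns : ∀ ξ z, C.Fing F ξ z ω → (z < ω ∧ ω < z + 2 * π) ∨ (ω < z ∧ z < ω + 2 * π) →
      ¬C.Sh ω := fun ξ z h o s => by
    have := btw (p := C.x k1) (q := C.x k2) (z := ξ) fun δ d => by
      obtain ⟨f, hf, h, -⟩ := h δ d
      exact ⟨_, (bx f hf).1, (bx f hf).2.1, h⟩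
    obtain ⟨δ, d, v⟩ := C.v1 ω ξ z s fun j =>
      ⟨nej (Or.inl ⟨by linarith, by linarith⟩) j, nej o j⟩
    obtain ⟨f, -, f1, f2, f3⟩ := h δ d
    exact v f f1 f2 f3
  rcases aω.eq_or_lt with rfl | aω
  · refine ⟨a, b, ξ2, a, am, mb, A', B', Or.inl ?_⟩
    by_contra n
    refine ns _ _ FB (Or.inr ⟨by linarith, ab⟩) (c2.v2 a aL (fun v g => n ⟨v, g, Or.inl rfl, FB⟩)
      fun u g => ?_)
    obtain ⟨f, hf, -, f2, f3, -⟩ := A (a - u) (by linarith [g.1])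
    exact g.2.2.2 _ (by linarith [(abs_lt.1 f2).1]) (f3.lt_of_ne (c1.gapE _ _ g f).2.2.2)
      (lamy (FK hf))
  rcases ωb.eq_or_lt with rfl | ωb
  · refine ⟨a, ω, ξ1, ω, am, mb, A', B', Or.inr ?_⟩
    by_contra n
    refine ns _ _ FA (Or.inl ⟨aω, ab⟩) (c2.v2 ω bL (fun v g => ?_)
      fun u g => n ⟨u, g, Or.inr rfl, FA⟩)
    obtain ⟨f, hf, -, f2, f3, -⟩ := B (v - ω) (by linarith [g.1])
    exact g.2.2.2 _ (f3.lt_of_ne (c1.gapE _ _ g f).2.2.1.symm) (by linarith [(abs_lt.1 f2).2])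
      (lamy (FK hf))
  have nS := ns _ _ FA (Or.inl ⟨aω, by linarith⟩)
  obtain ⟨d, dG, u, H, u1, u2⟩ := D aω ωb
  rcases u2.eq_or_lt with rfl | u2
  · refine ⟨u, b, ξ2, ω, am, mb, A', B', Or.inl ⟨ω, ?_, Or.inr rfl, FB⟩⟩
    obtain ⟨v, ⟨⟨v1, v2⟩, v3⟩, v4⟩ := (isCompact_Icc.inter_right (t := CW.Lam k) isClosed_closure
      ).exists_isLeast ⟨b, ⟨ωb.le, le_rfl⟩, bL⟩
    have g : CW.Gap k u v := ⟨by linarith, aL, v3, fun t t1 t2 tL => (lt_or_ge t ω).elim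
      (fun o => nS (sh c1 dG H t1 o ωb ab tL bL)) fun o => t2.not_ge (v4 ⟨⟨o, by linarith⟩, tL⟩)⟩
    obtain ⟨γ, s, G⟩ := c2.hyp _ _ g
    have := C.cg.ax γ s.1 d dG u v (ne1 G) (ne1 H) G.fu H.fu G.fv
    exact v1.eq_or_lt.elim (· ▸ g) fun o => absurd this (H.dn v o (by linarith)).ne
  rcases u1.eq_or_lt with rfl | u1
  · refine ⟨a, b, ξ1, ω, am, mb, A', B', Or.inr ⟨ω, ?_, Or.inl rfl, FA⟩⟩
    obtain ⟨v, ⟨⟨v1, v2⟩, v3⟩, v4⟩ := (isCompact_Icc.inter_right (t := CW.Lam k) isClosed_closure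
      ).exists_isGreatest ⟨a, ⟨le_rfl, aω.le⟩, aL⟩
    have g : CW.Gap k v b := ⟨by linarith, v3, bL, fun t t1 t2 tL => (lt_or_ge ω t).elim
      (fun o => nS (sh c1 dG H u2 aω o (by linarith) aL tL))
      fun o => t1.not_ge (v4 ⟨⟨by linarith, o⟩, tL⟩)⟩
    obtain ⟨γ, s, G⟩ := c2.hyp _ _ g
    have fb : d b = b := by
      have := C.cg.per d dG (b - 2 * π)
      rwa [H.fu, sub_add_cancel] at this
    have := C.cg.ax γ s.1 d dG b v (ne1 G) (ne1 H) G.fv fb G.fu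
    exact v2.eq_or_lt.elim (· ▸ g) fun o => absurd this (H.up v (by linarith) o).ne'
  · exact (nS (sh c1 dG H u2 aω ωb (by linarith) aL bL)).elim

end Pool.Agent.Lib.MP_21f752_an
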