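import Pool.Agent.Lib.MP_21f752_an.FBase
import Pool.Agent.Lib.MP_21f752_an.FCe2
import Pool.Agent.Lib.MP_21f752_an.FFd
import Pool.Agent.Lib.MP_21f752_an.FCg0

/-! A two sided dead end points to a fixed point. -/

namespace Pool.Agent.Lib.MP_21f752_an

open UpperHalfPlane Set Filter Topology Metric
open scoped MatrixGroups Real

noncomputable section

namespace FDead

open FCe2 FBase

section grp

variable {Γ : Subgroup (ℝ ≃o ℝ)}

/-- a contracting map does not send a separated triple to a separated triple -/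
lemma sep3 {h : ℝ ≃o ℝ} (hp : ∀ (j : ℤ) t, h (t + j * (2 * π)) = h t + j * (2 * π))
    {r a ε x y z : ℝ} (H : Ctr h r a ε) (e0 : 0 < ε) (a1 : x + 2 * ε ≤ y) (a2 : y + 2 * ε ≤ z)
    (a3 : z + 2 * ε ≤ x + 2 * π) (b1 : h x + 2 * ε ≤ h y) (b2 : h y + 2 * ε ≤ h z)
    (b3 : h z + 2 * ε ≤ h x + 2 * π) : False := by
  obtain ⟨j, j1, j2⟩ := red (r + ε) x
  have e : ((j - 1 : ℤ) : ℝ) * (2 * π) = j * (2 * π) - 2 * π := by push_cast; ring
  have X := fun c => abs_lt.1 (H (x + j * (2 * π)) j1 c)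
  have Y := fun c d => abs_lt.1 (H (y + j * (2 * π)) c d)
  have Y' := fun c d => abs_lt.1 (H (y + (j - 1 : ℤ) * (2 * π)) c d)
  have Z := fun c d => abs_lt.1 (H (z + (j - 1 : ℤ) * (2 * π)) c d)
  rw [hp] at X Y Y' Z
  rw [e] at Y' Z
  rcases le_or_gt (y + j * (2 * π)) (r + 2 * π - ε) with c | c
  · linarith [(X (by linarith)).1, (Y (by linarith) c).2]
  rcases le_or_gt (x + j * (2 * π)) (r + 2 * π - ε) with d | d
  · linarith [(X d).2, (Z (by linarith) (by linarith)).1]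
  · linarith [(Y' (by linarith) (by linarith)).1, (Z (by linarith) (by linarith)).2]

lemma dom {D : ℝ ≃o ℝ} {u v m t : ℝ} (H : Hyp D u v) (m1 : u < m) (m2 : m < v) (t1 : u < t)
    (t2 : t ≤ m) : ∃ j : ℕ, m ≤ (D ^ j) t ∧ (D ^ j) t ≤ D m := by
  classical
  have ex : ∃ j : ℕ, m ≤ (D ^ j) t := by
    obtain ⟨j, hj⟩ := ((FFd.lim H t1 (by linarith [H.lt2])).eventually (lt_mem_nhds m2)).exists
    exact ⟨j, by rw [FFd.pow_ap]; exact hj.le⟩
  refine ⟨Nat.find ex, Nat.find_spec ex, ?_⟩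
  rcases h : Nat.find ex with _ | j
  · exact t2.trans (H.up m m1 m2).le
  · rw [pow_succ', ma]
    exact D.monotone (not_le.1 (Nat.find_min ex (h ▸ j.lt_succ_self))).le

lemma cj (hG : CG Γ) {D g : ℝ ≃o ℝ} (hg : g ∈ Γ) {u v : ℝ} (H : Hyp D u v) :
    Hyp (g⁻¹ * D * g) (g⁻¹ u) (g⁻¹ v) := by
  have p := hG.per _ (Γ.inv_mem hg) u
  refine ⟨g⁻¹.strictMono H.lt, p ▸ g⁻¹.strictMono H.lt2, by rw [ma, ma, ai, H.fu],
    by rw [ma, ma, ai, H.fv], fun t a b => ?_, fun t a b => ?_⟩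
  · have := g⁻¹.strictMono (H.up (g t) (by simpa only [ai] using g.strictMono a)
      (by simpa only [ai] using g.strictMono b))
    rwa [ia] at this
  · have := g⁻¹.strictMono (H.dn (g t) (by simpa only [ai] using g.strictMono a)
      (by rw [← p] at b; simpa only [ai] using g.strictMono b))
    rwa [ia] at this

lemma axis (hG : CG Γ) {d : ℝ ≃o ℝ} (hd : d ∈ Γ) (h1 : d ≠ 1) {ρ : ℝ} (h : d ρ = ρ) :
    ∃ D ∈ Γ, ∃ w, Hyp D ρ w := by
  obtain ⟨u, v, H, rfl | rfl⟩ := hG.hy d hd ρ h h1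
  · exact ⟨d, hd, v, H⟩
  · rcases hyp_of hG hd h1 H.lt2 (by linarith [H.lt]) h (by rw [hG.per d hd, H.fu]) with c | c
    · exact ⟨d, hd, _, c⟩
    · exact ⟨d⁻¹, Γ.inv_mem hd, _, c⟩

lemma zero_of {k j : ℤ} {s t ρ : ℝ} (e : s + k * (2 * π) = t + j * (2 * π)) (s1 : ρ < s)
    (s2 : s < ρ + 2 * π) (t1 : ρ < t) (t2 : t < ρ + 2 * π) : k = j := by
  have p0 : 0 < 2 * π := by positivity
  have b1 : (k : ℝ) < j + 1 := lt_of_mul_lt_mul_right (by linarith) p0.le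
  have b2 : (j : ℝ) < k + 1 := lt_of_mul_lt_mul_right (by linarith) p0.le
  have c1 : k < j + 1 := by exact_mod_cast b1
  have c2 : j < k + 1 := by exact_mod_cast b2
  omega

/-- conjugates of one axis accumulate only by being equal -/
lemma fixed (hG : CG Γ) {D : ℝ ≃o ℝ} (hD : D ∈ Γ) {ρ w p q om : ℝ} (H : Hyp D ρ w)
    {g : ℕ → ℝ ≃o ℝ} (hg : ∀ n, g n ∈ Γ) (o1 : q < om) (o2 : om < p + 2 * π)
    (C : ∀ ε, 0 < ε → ∀ᶠ n in atTop, Ctr (g n) om (ρ + 2 * π) ε)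
    (I : ∀ᶠ n in atTop, g n p ≤ ρ ∧ ρ ≤ g n q) : ∃ d ∈ Γ, ∃ u, Hyp d u om ∧ p ≤ u ∧ u ≤ q := by
  have l1 := H.lt
  have l2 := H.lt2
  have pi := Real.pi_pos
  obtain ⟨c, c1, c2, c3⟩ : ∃ c, q < c ∧ c < om ∧ om < c + 2 * π :=
    ⟨max ((q + om) / 2) (om - π), lt_max_of_lt_left (by linarith), max_lt (by linarith) (by linarith),
      by linarith [le_max_right ((q + om) / 2) (om - π)]⟩
  obtain ⟨m, m1, m2⟩ := exists_between l1
  have dm : D m < w := H.fv ▸ D.strictMono m2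
  have tv : Tendsto (fun n => (g n)⁻¹ w) atTop (𝓝 om) := by
    refine tendsto_order.2 ⟨fun s hs => ?_, fun s hs => ?_⟩
    · obtain ⟨t, t1, t2, t3⟩ : ∃ t, s < t ∧ t < om ∧ om < t + 2 * π :=
        ⟨max ((s + om) / 2) (om - π), lt_max_of_lt_left (by linarith),
          max_lt (by linarith) (by linarith), by linarith [le_max_right ((s + om) / 2) (om - π)]⟩
      filter_upwards [(ctr_lim C (x := fun _ => t + 2 * π) tendsto_const_nhds t3
        (by linarith)).eventually (gt_mem_nhds (show ρ + 2 * π < w + 2 * π by linarith))] with n hn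
      rw [hG.per _ (hg n)] at hn
      have := (g n)⁻¹.strictMono (show g n t < w by linarith)
      rw [ia] at this
      linarith
    · obtain ⟨t, t1, t2, t3⟩ : ∃ t, t < s ∧ om < t ∧ t < om + 2 * π :=
        ⟨min ((s + om) / 2) (om + π), min_lt_of_left_lt (by linarith),
          lt_min (by linarith) (by linarith), by linarith [min_le_right ((s + om) / 2) (om + π)]⟩
      filter_upwards [(ctr_lim C (x := fun _ => t) tendsto_const_nhds t2 t3).eventually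
        (lt_mem_nhds l2)] with n hn
      have := (g n)⁻¹.strictMono hn
      rw [ia] at this
      linarith
  have tc := (ctr_lim C (x := fun _ => c + 2 * π) tendsto_const_nhds c3 (by linarith)).eventually
    (gt_mem_nhds (show ρ + 2 * π < m + 2 * π by linarith))
  obtain ⟨N, hN⟩ := eventually_atTop.1 (I.and (tc.and ((tv.eventually (lt_mem_nhds
    (show (c + om) / 2 < om by linarith))).and (tv.eventually (gt_mem_nhds
    (show om < (om + (p + 2 * π)) / 2 by linarith))))))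
  have hN' := fun n => hN (n + N) (Nat.le_add_left N n)
  have u1 : ∀ n, p ≤ (g (n + N))⁻¹ ρ := fun n => by
    simpa only [ia] using (g (n + N))⁻¹.monotone (hN' n).1.1
  have u2 : ∀ n, (g (n + N))⁻¹ ρ ≤ q := fun n => by
    simpa only [ia] using (g (n + N))⁻¹.monotone (hN' n).1.2
  have : ∀ n, ∃ j : ℕ, m ≤ (D ^ j) (g (n + N) c) ∧ (D ^ j) (g (n + N) c) ≤ D m := fun n => by
    have := (hN' n).2.1
    rw [hG.per _ (hg _)] at this
    exact dom H m1 m2 ((hN' n).1.2.trans_lt ((g _).strictMono c1)) (by linarith)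
  choose j j1 j2 using this
  have fx : ∀ (i : ℕ) t, D t = t → (D ^ i) t = t := fun i t e => by
    rw [FFd.pow_ap]; exact Function.iterate_fixed e i
  obtain ⟨φ, h, k, hφ, hh, e, A⟩ := hG.cd (fun n => D ^ j n * g (n + N)) fun n =>
    Γ.mul_mem (Γ.pow_mem hD _) (hg _)
  have eu : ∀ n, h n ((g (φ n + N))⁻¹ ρ) = ρ + k n * (2 * π) := fun n => by
    rw [e, ma, ai, fx _ _ H.fu]
  have ev : ∀ n, h n ((g (φ n + N))⁻¹ w) = w + k n * (2 * π) := fun n => by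
    rw [e, ma, ai, fx _ _ H.fv]
  have ec : ∀ n, h n c = (D ^ j (φ n)) (g (φ n + N) c) + k n * (2 * π) := fun n => e n c
  rcases A with A | ⟨r, a, A⟩
  · have kk : ∀ n, k n = k 0 := fun n =>
      zero_of (ρ := ρ) (by rw [← ec, ← ec, A n]) (m1.trans_le (j1 _)) (by linarith [j2 (φ n)])
        (m1.trans_le (j1 _)) (by linarith [j2 (φ 0)])
    have vv : ∀ n, (g (φ n + N))⁻¹ w = (g (φ 0 + N))⁻¹ w := fun n =>
      (h 0).injective (by rw [ev, ← kk n, ← ev, A n])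
    have t2 := tv.comp ((tendsto_add_atTop_nat N).comp hφ.tendsto_atTop)
    have eo : (g (φ 0 + N))⁻¹ w = om :=
      tendsto_nhds_unique (tendsto_const_nhds.congr fun n => (vv n).symm) t2
    exact ⟨_, Γ.mul_mem (Γ.mul_mem (Γ.inv_mem (hg _)) hD) (hg _), _, eo ▸ cj hG (hg _) H,
      u1 _, u2 _⟩
  · exfalso
    obtain ⟨ε, e0, e1, e2, e3, e4, e5, e6⟩ : ∃ ε, 0 < ε ∧ 2 * ε ≤ c - q ∧ 4 * ε ≤ om - c ∧
        4 * ε ≤ p + 2 * π - om ∧ 2 * ε ≤ m - ρ ∧ 2 * ε ≤ w - D m ∧ 2 * ε ≤ ρ + 2 * π - w := by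
      have f : ∀ (s x : ℝ), 0 < x → ∀ᶠ ε in 𝓝[>] (0 : ℝ), s * ε ≤ x := fun s x hx =>
        mem_nhdsWithin_of_mem_nhds (((continuous_const_mul s).tendsto' 0 0 (mul_zero s)).eventually
          (ge_mem_nhds hx))
      exact ((eventually_mem_nhdsWithin (a := (0 : ℝ)) (s := Ioi 0)).and
        ((f _ _ (by linarith)).and ((f _ _ (by linarith)).and ((f _ _ (by linarith)).and
        ((f _ _ (by linarith)).and ((f _ _ (by linarith)).and (f _ _ (by linarith)))))))).exists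
    obtain ⟨n, hn⟩ := (A ε e0).exists
    have v1 := (hN' (φ n)).2.2.1
    have v2 := (hN' (φ n)).2.2.2
    refine sep3 (perZ hG (hh n)) (x := (g (φ n + N))⁻¹ ρ) (y := c) (z := (g (φ n + N))⁻¹ w) hn e0
      (by linarith [u2 (φ n)]) (by linarith) (by linarith [u1 (φ n)]) ?_ ?_ ?_
    · rw [eu, ec]; linarith [j1 (φ n)]
    · rw [ev, ec]; linarith [j2 (φ n)]
    · rw [eu, ev]; linarith

end grp

variable {G : Geo}

lemma acc_φ {ξ : N} {t l : ℝ} (h : G.AccM (G.φ t ξ) l) : G.AccM ξ l := fun ε e => by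
  have := h ε e
  simp only [o_φ] at this
  exact (tendsto_atBot_add_const_right _ t tendsto_id).frequently this

/-- walls near `η` with ends near `x`, `y` -/
def Ap (G : Geo) (η : N) (x y : ℝ) : Prop :=
  ∀ U ∈ 𝓝 η, ∀ δ, 0 < δ → ∃ f ∈ U, ∃ x' y', G.Wl f x' y' ∧ |x' - x| < δ ∧ |y' - y| < δ

/-- a two sided strand coming from the arc from `p` to `q` -/
structure Tw (G : Geo) (η : N) (p q : ℝ) : Prop where
  l : ∃ ξ, p < ξ ∧ ξ < q ∧ Ap G η ξ q
  r : ∃ ξ, p < ξ ∧ ξ < q ∧ Ap G η ξ (p + 2 * π)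
  no : ∀ l, q < l → l < p + 2 * π → ¬G.AccM η l

lemma Ap.tr (hB : G.Base) {η : N} {x y : ℝ} (h : Ap G η x y) {γ : SL(2, ℝ)} (hγ : γ ∈ G.Γ)
    {g : ℝ ≃o ℝ} (hg : Lift γ g) (k : ℤ) (t : ℝ) :
    Ap G (gg γ (k * (2 * π)) (G.φ t η)) (g x) (g y) := fun U hU δ d => by
  have c : Continuous fun ξ => gg γ (k * (2 * π)) (G.φ t ξ) :=
    (continuous_gg _ _).comp (G.continuous_φ.comp (continuous_const.prodMk continuous_id))
  obtain ⟨a, a0, ha⟩ := Metric.continuous_iff.1 g.continuous x δ d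
  obtain ⟨b, b0, hb⟩ := Metric.continuous_iff.1 g.continuous y δ d
  obtain ⟨f, fU, x', y', w, p, q⟩ := h _ (c.continuousAt hU) _ (lt_min a0 b0)
  exact ⟨_, fU, _, _, hB.wg _ _ _ γ hγ g k hg (hB.wφ _ _ _ t w),
    ha _ (p.trans_le (min_le_left _ _)), hb _ (q.trans_le (min_le_right _ _))⟩

lemma Tw.tr (hB : G.Base) {η : N} {p q : ℝ} (h : Tw G η p q) {γ : SL(2, ℝ)} (hγ : γ ∈ G.Γ)
    {g : ℝ ≃o ℝ} (hg : Lift γ g) (k : ℤ) (t : ℝ) :
    Tw G (gg γ (k * (2 * π)) (G.φ t η)) (g p) (g q) := by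
  obtain ⟨⟨x, x1, x2, x3⟩, ⟨y, y1, y2, y3⟩, n⟩ := h
  refine ⟨⟨g x, g.strictMono x1, g.strictMono x2, x3.tr hB hγ hg k t⟩,
    ⟨g y, g.strictMono y1, g.strictMono y2, hg.per p ▸ y3.tr hB hγ hg k t⟩, fun l l1 l2 a => ?_⟩
  obtain ⟨l, rfl⟩ := g.surjective l
  rw [← hg.per] at l2
  refine n l (g.lt_iff_lt.1 l1) (g.lt_iff_lt.1 l2) (acc_φ (t := t) fun ε e => ?_)
  obtain ⟨δ, d, hδ⟩ := hg.bw l ε e
  refine (a δ d).mono fun s hs => ?_
  have := hδ _ hs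
  rwa [o_gg G hγ, inv_smul_smul] at this

lemma lf {η η' : N} {x y x' y' : ℝ} (h : Ap G η x y) (h' : Ap G η' x' y') (a : x' < x)
    (b : y < y') : G.Lf η η' := fun U hU U' hU' => by
  have d : 0 < min (x - x') (y' - y) / 2 := half_pos (lt_min (by linarith) (by linarith))
  obtain ⟨f, fU, s, t, w, p, q⟩ := h U hU _ d
  obtain ⟨f', fU', s', t', w', p', q'⟩ := h' U' hU' _ d
  have m1 := min_le_left (x - x') (y' - y)
  have m2 := min_le_right (x - x') (y' - y)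
  rw [abs_lt] at p q p' q'
  exact ⟨f, fU, f', fU', s, t, s', t', w, w', by linarith [p.1, p'.2], by linarith [q.2, q'.1]⟩

/-- the arcs of two close strands meet -/
lemma meet (hB : G.Base) (hE : G.DE) (ζ : N) : ∃ U, IsOpen U ∧ ζ ∈ U ∧ ∀ η ∈ U, ∀ η' ∈ U,
    ∀ p q p' q', Tw G η p q → Tw G η' p' q' → q < p' → q' < p + 2 * π → False := by
  obtain ⟨U, hU, H⟩ := hE ζ
  obtain ⟨V, VU, Vo, hV⟩ := _root_.mem_nhds_iff.1 hU
  refine ⟨V, Vo, hV, fun η a η' a' p q p' q' h h' b c => ?_⟩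
  obtain ⟨⟨x, x1, x2, x3⟩, ⟨y, y1, y2, y3⟩, n⟩ := h
  obtain ⟨⟨x', x1', x2', x3'⟩, ⟨y', y1', y2', y3'⟩, n'⟩ := h'
  have y4 : Ap G η' (y' - 2 * π) p' := fun W hW δ d => by
    obtain ⟨f, fU, s, t, w, i, j⟩ := y3' W hW δ d
    refine ⟨f, fU, _, _, hB.ws _ _ _ (-1) w, ?_, ?_⟩
    · convert i using 2; push_cast; ring
    · convert j using 2; push_cast; ring
  obtain ⟨t, k, e⟩ := H η (VU a) η' (VU a') (lf x3 y4 (by linarith) b) (lf x3' y3 (by linarith) c)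
  obtain ⟨l, hl⟩ := hB.accM η
  obtain ⟨j, j1, j2⟩ := red p l
  have sh : ∀ (ξ : N) (i : ℤ), G.AccM ξ l → G.AccM ξ (l + i * (2 * π)) := fun ξ i h => by
    simpa only [Geo.AccM, Bl, ce_shift] using h
  have j3 : l + j * (2 * π) ≤ q := not_lt.1 fun c => n _ c j2 (sh _ _ hl)
  have hl' : G.AccM η' l := by
    have : G.AccM (G.φ t η) l := acc_φ (t := -t) (by rwa [← G.φ_add, neg_add_cancel, G.φ_zero])
    rw [e] at this
    simpa only [Geo.AccM, o_rot] using this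
  exact n' _ (by push_cast; linarith) (by push_cast; linarith) (sh _ (j + 1) hl')

/-- returns to the compact set -/
lemma ret (hd : Disc) (hm : Mob) (hG : CG (GG G.Γ)) (hB : G.Base) (η : N) {t : ℕ → ℝ}
    (ht : Tendsto t atTop atTop) : ∃ (φ : ℕ → ℕ) (γ : ℕ → SL(2, ℝ)) (g : ℕ → ℝ ≃o ℝ) (k : ℕ → ℤ)
      (ζ : N) (r a : ℝ), StrictMono φ ∧ (∀ n, γ n ∈ G.Γ) ∧ (∀ n, Lift (γ n) (g n)) ∧
      Tendsto (fun n => gg (γ n) (k n * (2 * π)) (G.φ (t (φ n)) η)) atTop (𝓝 ζ) ∧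
      (∀ ε, 0 < ε → ∀ᶠ n in atTop, Ctr (g n) r a ε) ∧
      ∀ ε, 0 < ε → ∀ᶠ n in atTop, G.o η (t (φ n)) ∈ Bl r ε := by
  choose γ hγ k hk using fun n => G.exists_gg (G.φ (t n) η)
  obtain ⟨ζ, -, ψ, hψ, T⟩ := G.K0_compact.tendsto_subseq hk
  choose g hg using fun n => hm.ex (γ (ψ n))
  obtain ⟨φ, h, j, hφ, -, e, A⟩ := hG.cd g fun n => ⟨_, hγ _, hg n⟩
  have L : ∀ n, Lift (γ (ψ (φ n))) (h n) := fun n => hm.add _ _ _ _ (hg _) (e n)
  have B : ∀ n, dist (γ n • G.o η (t n)) UpperHalfPlane.I ≤ G.R0 := fun n => (hk n).1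
  rcases A with A | ⟨r, a, A⟩
  · exfalso
    have E : ∀ n (z : ℍ), γ (ψ (φ n)) • z = γ (ψ (φ 0)) • z := fun n z => by
      have := hm.triv _ _ ((FCg.lf_of (L 0)).inv.mul (FCg.lf_of (L n))).lift
        (fun s => by rw [A n, inv_mul_cancel]; rfl) z
      rwa [mul_smul, inv_smul_eq_iff] at this
    obtain ⟨n, hn⟩ := (((hB.top η ((γ (ψ (φ 0)))⁻¹ • UpperHalfPlane.I)).comp
      (ht.comp (hψ.comp hφ).tendsto_atTop)).eventually_gt_atTop G.R0).exists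
    have := B (ψ (φ n))
    rw [E, ← dist_smul (γ (ψ (φ 0)))⁻¹, inv_smul_smul] at this
    exact absurd hn (not_lt.2 this)
  · refine ⟨ψ ∘ φ, fun n => γ (ψ (φ n)), h, fun n => k (ψ (φ n)), ζ, r, a, hψ.comp hφ,
      fun n => hγ _, L, T.comp hφ.tendsto_atTop, A, fun ε e => ?_⟩
    obtain ⟨e0, e1, e2⟩ := hd.far UpperHalfPlane.I G.R0
    obtain ⟨δ, d, hδ⟩ := hm.hull _ (lt_min e e1)
    filter_upwards [A δ d] with n hn
    by_contra c
    have mo : ∀ {l x y z}, x ≤ y → z ∈ Bl l x → z ∈ Bl l y := fun b c => lt_of_lt_of_le c b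
    exact absurd (e2 a _ (mo (min_le_right _ _) (hδ _ _ _ _ (L n) hn _
      fun b => c (mo (min_le_left _ _) b)))) (not_lt.2 (B _))

/-- a point where the arcs of a convergent sequence of strands accumulate is fixed -/
lemma slide (hd : Disc) (hm : Mob) (hG : CG (GG G.Γ)) (hB : G.Base) (hE : G.DE) {ζ : N}
    {η : ℕ → N} {P Q : ℕ → ℝ} {ρ : ℝ} (T : Tendsto η atTop (𝓝 ζ)) (hP : Tendsto P atTop (𝓝 ρ))
    (hQ : Tendsto Q atTop (𝓝 ρ)) (h : ∀ i, Tw G (η i) (P i) (Q i)) :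
    ∃ d ∈ GG G.Γ, d ≠ 1 ∧ d ρ = ρ := by
  obtain ⟨φ, κ, k, j, ω, r, a, -, hκ, L, S, C, -⟩ :=
    ret hd hm hG hB ζ tendsto_natCast_atTop_atTop
  obtain ⟨U, Uo, hU, M⟩ := meet hB hE ω
  have pi := Real.pi_gt_three
  have SU := S.eventually (Uo.mem_nhds hU)
  obtain ⟨m, m1⟩ := SU.exists
  have c0 : 0 < min ((k m (r + 2) - k m (r + 1)) / 2) 1 :=
    lt_min (half_pos (sub_pos.2 ((k m).strictMono (by linarith)))) one_pos
  obtain ⟨n, n1, n2⟩ := (SU.and (C _ c0)).exists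
  obtain ⟨l, l1, l2⟩ := red (k n ρ) (k m ρ)
  obtain ⟨s, hs, es⟩ := shZ hG l
  have km : ∀ i, k i ∈ GG G.Γ := fun i => ⟨_, hκ i, L i⟩
  have L' : Lift (κ m) (s * k m) := hm.add _ _ _ l (L m) fun t => es _
  have ev : ∀ i, gg (κ i) (j i * (2 * π)) (G.φ (φ i) ζ) ∈ U →
      ∀ᶠ x in atTop, gg (κ i) (j i * (2 * π)) (G.φ (φ i) (η x)) ∈ U := fun i b =>
    (((continuous_gg _ _).comp (G.continuous_φ.comp
      (continuous_const.prodMk continuous_id))).continuousAt.tendsto.comp T).eventually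
      (Uo.mem_nhds b)
  have e : k n ρ = (s * k m) ρ := by
    rw [← es] at l1 l2
    refine l1.eq_or_lt.resolve_right fun c => ?_
    have t : ∀ (g : ℝ ≃o ℝ) {X : ℕ → ℝ}, Tendsto X atTop (𝓝 ρ) →
        Tendsto (fun x => g (X x)) atTop (𝓝 (g ρ)) := fun g X b =>
      g.continuous.continuousAt.tendsto.comp b
    obtain ⟨x, x1, x2, x3, x4⟩ := ((ev n n1).and ((ev m m1).and
      (((t (k n) hQ).eventually_lt (t (s * k m) hP) c).and
        ((t (s * k m) hQ).eventually_lt ((t (k n) hP).add_const (2 * π)) l2)))).exists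
    exact M _ x1 _ x2 _ _ _ _ ((h x).tr hB (hκ n) (L n) _ _) ((h x).tr hB (hκ m) L' _ _) x3 x4
  refine ⟨(k n)⁻¹ * (s * k m), (GG _).mul_mem ((GG _).inv_mem (km n)) ((GG _).mul_mem hs (km m)),
    fun c => ?_, by rw [ma, ← e, ia]⟩
  have m1 := min_le_left ((k m (r + 2) - k m (r + 1)) / 2) 1
  have m2 := min_le_right ((k m (r + 2) - k m (r + 1)) / 2) 1
  have b1 := abs_lt.1 (n2 (r + 1) (by linarith) (by linarith))
  have b2 := abs_lt.1 (n2 (r + 2) (by linarith) (by linarith))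
  rw [inv_mul_eq_one.1 c, ma, es] at b1 b2
  linarith [b1.1, b2.2]

end FDead

open FDead FCe2 FBase in
theorem dead (hd : Disc) (hm : Mob) (hg : CgSt) (hb : BaseSt) (he : DeSt) : DeadSt := by
  intro G ζ a b om ξ1 ξ2 o1 o2 x1 x2 y1 y2 hA hM h1 h2
  have hG := hg _ G.free
  have hB := hb G
  have pi := Real.pi_pos
  have W : Tw G ζ (b - 2 * π) a := ⟨⟨ξ1, x1, x2, h1⟩, ⟨ξ2, y1, y2, by rwa [sub_add_cancel]⟩,
    by rwa [sub_add_cancel]⟩
  choose t t1 t2 using fun n : ℕ =>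
    frequently_atTop.1 (hA _ (Nat.one_div_pos_of_nat (n := n))) n
  obtain ⟨φ, γ, g, k, ω, r, s, hφ, hγ, L, T, C, R⟩ := ret hd hm hG hB ζ
    (tendsto_atTop_mono t1 tendsto_natCast_atTop_atTop)
  have gm : ∀ n, g n ∈ GG G.Γ := fun n => ⟨_, hγ n, L n⟩
  have R' : ∀ ε, 0 < ε → ∀ᶠ n in atTop, G.o ζ (t (φ n)) ∈ Bl om ε := fun ε e =>
    (hφ.tendsto_atTop.eventually (tendsto_one_div_add_atTop_nhds_zero_nat.eventually
      (gt_mem_nhds e))).mono fun n hn => lt_trans (t2 _) hn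
  obtain ⟨j, rfl⟩ := ce_eq_iff.1 (tendsto_nhds_unique (tend_iff.2 R') (tend_iff.2 R))
  obtain ⟨ρ, hρ⟩ : ∃ ρ, s + j * (2 * π) = ρ + 2 * π := ⟨_, (sub_add_cancel _ _).symm⟩
  have C' : ∀ ε, 0 < ε → ∀ᶠ n in atTop, Ctr (g n) (r + j * (2 * π)) (ρ + 2 * π) ε := fun ε e =>
    (C ε e).mono fun n hn => hρ ▸ ctr_sh hG (gm n) hn j
  have lim : ∀ x, x < r + j * (2 * π) → r + j * (2 * π) < x + 2 * π →
      Tendsto (fun n => g n x) atTop (𝓝 ρ) := fun x c d => by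
    have := (ctr_lim C' (x := fun _ => x + 2 * π) tendsto_const_nhds d (by linarith)).sub_const
      (2 * π)
    simpa only [(L _).per, add_sub_cancel_right] using this
  have hP := lim (b - 2 * π) (by linarith) (by linarith)
  have hQ := lim a o1 (by linarith)
  have W' := fun i => W.tr hB (hγ i) (L i) (k i) (t (φ i))
  obtain ⟨U, Uo, hU, M⟩ := meet hB (he G) ω
  have TU := T.eventually (Uo.mem_nhds hU)
  have I : ∀ᶠ n in atTop, g n (b - 2 * π) ≤ ρ ∧ ρ ≤ g n a := by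
    filter_upwards [TU, hP.eventually (lt_mem_nhds (show ρ - 2 * π < ρ by linarith)),
      hQ.eventually (gt_mem_nhds (show ρ < ρ + 2 * π by linarith))] with n n1 n2 n3
    refine ⟨not_lt.1 fun c => ?_, not_lt.1 fun c => ?_⟩
    · obtain ⟨i, i1, i2, i3⟩ := (TU.and ((hQ.eventually (gt_mem_nhds c)).and
        ((hP.add_const (2 * π)).eventually (lt_mem_nhds n3)))).exists
      exact M _ i1 _ n1 _ _ _ _ (W' i) (W' n) i2 i3
    · obtain ⟨i, i1, i2, i3⟩ := (TU.and ((hP.eventually (lt_mem_nhds c)).and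
        (hQ.eventually (gt_mem_nhds (show ρ < g n (b - 2 * π) + 2 * π by linarith))))).exists
      exact M _ n1 _ i1 _ _ _ _ (W' n) (W' i) i2 i3
  obtain ⟨d, d1, d2, d3⟩ := slide hd hm hG hB (he G) T hP hQ W'
  obtain ⟨D, hD, w, H⟩ := axis hG d1 d2 d3
  exact fixed hG hD H gm o1 (by linarith) C' I

end

end Pool.Agent.Lib.MP_21f752_an
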