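import Pool.Agent.Lib.MP_21f752_an.FC

/-! No node: pairs of ends are dense, every hyperbolic element gives a loop. -/

namespace Pool.Agent.Lib.MP_21f752_an

open Set Filter Topology
open scoped Real

noncomputable section

namespace FDen

variable {C : CS} {k : C.W}

theorem xl {w : C.W} (hw : w ∈ CW.K k) : C.x w ∈ CW.Lam k :=
  subset_closure ⟨w, hw, Or.inl rfl⟩

theorem lkK {w w' : C.W} (hw : w ∈ CW.K k) (h : C.Lk w w') : w' ∈ CW.K k :=
  Relation.EqvGen.trans _ _ _ hw (Relation.EqvGen.rel _ _ (Or.inl h))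

/-- no jump in a fan -/
theorem fan (h1 : Cell1St) (hn : NodeSt) (hf : FDSt) (H : ∀ s p q, ¬CW.Node k s p q)
    {w1 w2 : C.W} (hw : w1 ∈ CW.K k) (hl : C.Lk w1 w2) {m e : ℝ} (m1 : C.y w1 < m)
    (m2 : m < C.y w2) (he : 0 < e) :
    ∃ f ∈ CW.K k, C.x w1 - e < C.x f ∧ C.x f < C.x w2 + e ∧ |C.y f - m| < e := by
  obtain ⟨k1, k2, F, -, -, hF, hk, a1, a2, a3, a4, hb, hj⟩ := hf C k w1 hw w2 hl
    (min e (min (m - C.y w1) (C.y w2 - m))) (lt_min he (lt_min (by linarith) (by linarith)))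
  simp only [lt_min_iff, abs_lt] at a1 a2 a3 a4
  by_contra hc
  push Not at hc
  have hfar : ∀ f ∈ F, e ≤ |C.y f - m| := fun f hf' =>
    hc f (hF hf') (by linarith [(hb f hf').1, a1.1.1]) (by linarith [(hb f hf').2.1, a3.1.2])
  obtain ⟨a, b, ξ, μ, ha, hb', fa, fb, hd⟩ := hj m e (by linarith [a2.2.1.2])
    (by linarith [a4.2.2.1]) he hfar
  obtain ⟨l1, l2, l3, l4⟩ := hk
  obtain ⟨-, -, -, -, nL, nR, -⟩ := hn C.toCW k
  rcases hd with ⟨v, hg, -, -⟩ | ⟨u, hg, -, -⟩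
  · have hya : C.y k1 ≤ a := by
      refine le_of_forall_pos_lt_add fun δ hδ => ?_
      obtain ⟨f, hf', h⟩ := fa δ hδ
      linarith [(hb f hf').2.2.1, (abs_lt.1 h).2]
    refine H true (v - 2 * π) a (nL _ _ (C.x k2) (by simpa using hg) (by linarith) fun δ hδ => ?_)
    obtain ⟨f, hf', h⟩ := fa δ hδ
    refine ⟨f, hF hf', (hb f hf').2.1, ?_, h⟩
    by_contra hlt
    push Not at hlt
    have := ((h1 C.toCW k).per (C.x f) 1).2 (xl (hF hf'))
    simp only [Int.cast_one, one_mul] at this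
    exact hg.2.2.2 _ (by linarith [(hb f hf').1, a4.2.2.1]) (by linarith) this
  · have hyb : b ≤ C.y k2 := by
      refine le_of_forall_pos_lt_add fun δ hδ => ?_
      obtain ⟨f, hf', h⟩ := fb δ hδ
      linarith [(hb f hf').2.2.2, (abs_lt.1 h).1]
    refine H false u b (nR _ _ (C.x k1) hg (by linarith) fun δ hδ => ?_)
    obtain ⟨f, hf', h⟩ := fb δ hδ
    refine ⟨f, hF hf', (hb f hf').1, ?_, h⟩
    by_contra hlt
    push Not at hlt
    exact hg.2.2.2 _ hlt (by linarith [(hb f hf').2.1, a2.2.1.2]) (xl (hF hf'))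

theorem lam_all (h1 : Cell1St) (hn : NodeSt) (hf : FDSt) (H : ∀ s p q, ¬CW.Node k s p q) (t : ℝ) :
    t ∈ CW.Lam k := by
  have hk : k ∈ CW.K k := Relation.EqvGen.refl _
  obtain ⟨w, hw⟩ := C.up k
  have hJ : ∀ m, C.y k < m → m < C.y w → m ∈ CW.Lam k := fun m m1 m2 => by
    refine Metric.mem_closure_iff.2 fun e he => ?_
    obtain ⟨f, hf', -, -, h⟩ := fan h1 hn hf H hk hw m1 m2 he
    exact ⟨C.y f, ⟨f, hf', Or.inr rfl⟩, by rwa [Real.dist_eq, abs_sub_comm]⟩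
  have h3 := hw.2.2.1
  obtain ⟨f, hf', -, -, h⟩ := fan h1 hn hf H hk hw (m := (C.y k + C.y w) / 2)
    (e := (C.y w - C.y k) / 4) (by linarith) (by linarith) (by linarith)
  rw [abs_lt] at h
  have hI : ∀ s, C.x f < s → s < C.x f + 2 * π → s ∈ CW.Lam k := fun s s1 s2 => by
    obtain ⟨g, hg, -, -, hc⟩ := (h1 C.toCW k).recP f hf'
      (min ((C.y w - C.y k) / 4) (min (s - C.x f) (C.x f + 2 * π - s)))
      (lt_min (by linarith) (lt_min (by linarith) (by linarith)))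
    have m1 := min_le_left ((C.y w - C.y k) / 4) (min (s - C.x f) (C.x f + 2 * π - s))
    have m2 := (min_le_right ((C.y w - C.y k) / 4) _).trans
      (min_le_left (s - C.x f) (C.x f + 2 * π - s))
    have m3 := (min_le_right ((C.y w - C.y k) / 4) _).trans
      (min_le_right (s - C.x f) (C.x f + 2 * π - s))
    have := abs_lt.1 (hc s (by linarith) (by linarith))
    exact ((h1 C.toCW k).lam g hg s).1 (hJ _ (by linarith [this.1]) (by linarith [this.2]))
  have hp : 0 < 2 * π := by positivity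
  have hm := toIcoMod_mem_Ico hp (C.x f) t
  have he : toIcoMod hp (C.x f) t + (toIcoDiv hp (C.x f) t : ℤ) * (2 * π) = t := by
    simp
  rw [← he, (h1 C.toCW k).per]
  rcases hm.1.eq_or_lt with h0 | h0
  · rw [← h0]; exact xl hf'
  · exact hI _ h0 hm.2

/-- from the minus end of a wall to every point -/
theorem star (h1 : Cell1St) (hn : NodeSt) (hf : FDSt) (H : ∀ s p q, ¬CW.Node k s p q) (w : C.W)
    {m e : ℝ} (m1 : C.x w < m) (m2 : m < C.x w + 2 * π) (he : 0 < e) :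
    ∃ f, |C.x f - C.x w| < e ∧ |C.y f - m| < e := by
  have hK : ∀ f, f ∈ CW.K k := fun f => (h1 C.toCW k).share f (Or.inl (lam_all h1 hn hf H _))
  obtain ⟨w2, u1, u2, u3, u4⟩ := C.up w
  obtain ⟨w1, d1, d2, d3, d4⟩ := C.dn w
  have l1 := C.lt w
  have l2 := C.lt2 w
  obtain ⟨ε, ε0, b1, b2, b3, b4, b5, b6, b7, b8⟩ : ∃ ε, 0 < ε ∧ ε ≤ e / 2 ∧ ε ≤ m - C.x w ∧
      ε ≤ C.x w + 2 * π - m ∧ ε ≤ C.x w1 + 2 * π - C.y w ∧ ε ≤ C.y w - C.y w1 ∧
      ε ≤ C.y w - C.x w2 ∧ ε ≤ C.y w2 - C.y w ∧ ε ≤ C.y w - C.x w := by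
    refine ⟨min (e / 2) (min (m - C.x w) (min (C.x w + 2 * π - m) (min (C.x w1 + 2 * π - C.y w)
      (min (C.y w - C.y w1) (min (C.y w - C.x w2) (min (C.y w2 - C.y w) (C.y w - C.x w))))))),
      ?_, ?_⟩
    · simp only [lt_min_iff]
      refine ⟨?_, ?_, ?_, ?_, ?_, ?_, ?_, ?_⟩ <;> linarith
    · simp only [min_le_iff, le_refl, true_or, or_true, and_self]
  obtain ⟨g, hg, -, -, hc⟩ := C.recM w ε ε0
  obtain ⟨v, vx, vy⟩ := C.act g hg w
  obtain ⟨v1, v1x, v1y⟩ := C.act g hg w1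
  obtain ⟨v2, v2x, v2y⟩ := C.act g hg w2
  have per := C.cg.per g hg
  have c0 := abs_lt.1 (hc (C.x w) (by linarith) (by linarith))
  have c1 := abs_lt.1 (hc (C.x w1) (by linarith) (by linarith))
  have c2 := abs_lt.1 (hc (C.y w1) (by linarith) (by linarith))
  have c3 := abs_lt.1 (hc (C.x w2) (by linarith) (by linarith))
  have c4 := abs_lt.1 (hc (C.y w2 - 2 * π) (by linarith) (by linarith))
  have p4 := per (C.y w2 - 2 * π)
  rw [sub_add_cancel] at p4
  rcases lt_trichotomy m (C.y v) with h | h | h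
  · have hl : C.Lk v1 v := by
      refine ⟨?_, ?_, ?_, ?_⟩ <;> simp only [vx, vy, v1x, v1y, ← per, g.lt_iff_lt] <;> assumption
    obtain ⟨f, -, f1, f2, f3⟩ := fan h1 hn hf H (hK v1) hl (m := m) (e := e / 2)
      (by linarith [c2.2]) h (by linarith)
    exact ⟨f, abs_lt.2 ⟨by linarith [c1.1], by linarith [c0.2]⟩, by linarith⟩
  · exact ⟨v, abs_lt.2 ⟨by linarith [c0.1], by linarith [c0.2]⟩, by rw [h]; simpa using he⟩
  · have hl : C.Lk v v2 := by
      refine ⟨?_, ?_, ?_, ?_⟩ <;> simp only [vx, vy, v2x, v2y, ← per, g.lt_iff_lt] <;> assumption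
    obtain ⟨f, -, f1, f2, f3⟩ := fan h1 hn hf H (hK v) hl (m := m) (e := e / 2) h
      (by linarith [c4.1]) (by linarith)
    exact ⟨f, abs_lt.2 ⟨by linarith [c0.1], by linarith [c3.2]⟩, by linarith⟩

/-- pairs of ends are dense -/
theorem box (h1 : Cell1St) (hn : NodeSt) (hf : FDSt) (H : ∀ s p q, ¬CW.Node k s p q)
    {a1 a2 b1 b2 : ℝ} (ha : a1 < a2) (hab : a2 ≤ b1) (hb : b1 < b2) (hba : b2 ≤ a1 + 2 * π) :
    ∃ f, a1 < C.x f ∧ C.x f < a2 ∧ b1 < C.y f ∧ C.y f < b2 := by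
  obtain ⟨t, ht, hd⟩ := Metric.mem_closure_iff.1 (lam_all h1 hn hf H ((a1 + a2) / 2))
    ((a2 - a1) / 4) (by linarith)
  rw [Real.dist_eq, abs_lt] at hd
  obtain ⟨s, -, s1, s2, -⟩ := (h1 C.toCW k).shR t ht ((a2 - a1) / 8) (by linarith)
  obtain ⟨f, f1, f2⟩ := star h1 hn hf H s (m := (b1 + b2) / 2)
    (e := min ((a2 - a1) / 8) ((b2 - b1) / 2)) (by linarith [hd.1]) (by linarith [hd.2])
    (lt_min (by linarith) (by linarith))
  simp only [lt_min_iff, abs_lt] at f1 f2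
  exact ⟨f, by linarith [f1.1.1, hd.2], by linarith [f1.1.2, hd.1], by linarith [f2.2.1],
    by linarith [f2.2.2]⟩

theorem exHyp (C : CW) : ∃ g ∈ C.G, ∃ u v, Hyp g u v := by
  obtain ⟨w⟩ := C.ne
  have l1 := C.lt w
  have l2 := C.lt2 w
  obtain ⟨ε, ε0, b1, b2⟩ : ∃ ε, 0 < ε ∧ ε ≤ (C.y w - C.x w) / 3 ∧
      ε ≤ (C.x w + 2 * π - C.y w) / 3 :=
    ⟨min _ _, lt_min (by linarith) (by linarith), min_le_left _ _, min_le_right _ _⟩
  obtain ⟨g, hg, -, -, hc⟩ := C.recP w ε ε0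
  have c1 := abs_lt.1 (hc (C.y w - ε) (by linarith) (by linarith))
  have c2 := abs_lt.1 (hc (C.y w + ε) (by linarith) (by linarith))
  have hco : ContinuousOn (fun t => t - g t) (Icc (C.y w - ε) (C.y w + ε)) :=
    (continuous_id.sub g.continuous).continuousOn
  obtain ⟨t, -, ht⟩ := intermediate_value_Icc (by linarith) hco
    (show (0 : ℝ) ∈ Icc _ _ from ⟨by linarith [c1.1], by linarith [c2.2]⟩)
  have hne : g ≠ 1 := fun h => by
    rw [h] at c1
    have : ((1 : ℝ ≃o ℝ) (C.y w - ε)) = C.y w - ε := rfl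
    linarith [c1.1]
  obtain ⟨u, v, h, -⟩ := C.cg.hy g hg t (by simp only at ht; linarith) hne
  exact ⟨g, hg, u, v, h⟩

end FDen

open FDen in
theorem dense (h1 : Cell1St) (hn : NodeSt) (hf : FDSt) : DenseSt := by
  intro C k H
  obtain ⟨γ, hγ, p, q, hy⟩ := exHyp C.toCW
  have B := @box C k h1 hn hf H
  have l1 := hy.lt
  have l2 := hy.lt2
  have pi := Real.pi_pos
  obtain ⟨f, f1, f2, f3, f4⟩ := B (a1 := q - 2 * π) (a2 := p) (b1 := p) (b2 := q) (by linarith)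
    le_rfl l1 (by linarith)
  obtain ⟨ε, ε0, b1, b2, b3, b4⟩ : ∃ ε, 0 < ε ∧ ε ≤ p - C.x f ∧ ε ≤ C.x f + 2 * π - q ∧
      ε ≤ C.y f - p ∧ ε ≤ q - C.y f := by
    refine ⟨min (p - C.x f) (min (C.x f + 2 * π - q) (min (C.y f - p) (q - C.y f))), ?_, ?_⟩
    · simp only [lt_min_iff]
      refine ⟨?_, ?_, ?_, ?_⟩ <;> linarith
    · simp only [min_le_iff, le_refl, true_or, or_true, and_self]
  obtain ⟨h, hh, -, -, hc⟩ := C.recP f ε ε0
  have c1 := abs_lt.1 (hc p (by linarith) (by linarith))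
  have c2 := abs_lt.1 (hc q (by linarith) (by linarith))
  have o1 : p < h q := by linarith [c2.1]
  have o2 : h q < q := by linarith [c2.2]
  refine ⟨⟨p, q, γ, h, False, False, hγ, hh, hy, o1, by linarith, o2.ne, ?_, False.elim,
    False.elim, fun _ => ?_, fun _ => ?_, False.elim, fun _ ε hε => ?_, False.elim,
    fun _ ε hε => ?_, (p + h q) / 2, (h q + p + 2 * π) / 2, by linarith, by linarith, by linarith,
    by linarith, fun δ hδ => ?_⟩⟩
  · exact ne_of_gt (by linarith [c1.1])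
  · have u := hy.up ((p + q) / 2) (by linarith) (by linarith)
    have u2 : γ ((p + q) / 2) < q := by
      have := γ.strictMono (show (p + q) / 2 < q by linarith)
      rwa [hy.fv] at this
    obtain ⟨w, w1, w2, w3, w4⟩ := B (a1 := p) (a2 := (p + q) / 2) (b1 := γ ((p + q) / 2)) (b2 := q)
      (by linarith) u.le u2 l2.le
    exact ⟨w, w1, w4, (γ.strictMono w2).trans w3⟩
  · have u := hy.dn ((q + p + 2 * π) / 2) (by linarith) (by linarith)
    have u2 : q < γ ((q + p + 2 * π) / 2) := by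
      have := γ.strictMono (show q < (q + p + 2 * π) / 2 by linarith)
      rwa [hy.fv] at this
    obtain ⟨w, w1, w2, w3, w4⟩ := B (a1 := (q + p + 2 * π) / 2 - 2 * π) (a2 := p) (b1 := q)
      (b2 := γ ((q + p + 2 * π) / 2)) (by linarith) l1.le u2 (by linarith)
    refine ⟨w, w2, w3, w4.trans ?_⟩
    rw [← C.cg.per γ hγ]
    exact γ.strictMono (by linarith)
  · refine ⟨p + ε / 3, p + 2 * ε / 3, h q - 2 * ε / 3, h q - ε / 3, by linarith, by linarith,
      by linarith, by linarith, fun l a b => ?_⟩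
    exact B (by linarith) le_rfl (by linarith) (by linarith)
  · refine ⟨h q + ε / 3, h q + 2 * ε / 3, p + 2 * π - 2 * ε / 3, p + 2 * π - ε / 3, by linarith,
      by linarith, by linarith, by linarith, fun l a b => ?_⟩
    obtain ⟨w, w1, w2, w3, w4⟩ := B (a1 := l - 2 * π) (a2 := p - ε / 3) (b1 := h q + ε / 3)
      (b2 := l) (by linarith) (by linarith) (by linarith) (by linarith)
    exact ⟨w, w3, w4, by linarith, by linarith⟩
  · obtain ⟨d, d0, e1, e2, e3⟩ : ∃ d, 0 < d ∧ d ≤ δ ∧ d ≤ (h q - p) / 4 ∧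
        d ≤ (p + 2 * π - h q) / 4 := by
      refine ⟨min δ (min ((h q - p) / 4) ((p + 2 * π - h q) / 4)), ?_, ?_⟩
      · simp only [lt_min_iff]
        refine ⟨?_, ?_, ?_⟩ <;> linarith
      · simp only [min_le_iff, le_refl, true_or, or_true, and_self]
    obtain ⟨w, w1, w2, w3, w4⟩ := B (a1 := p - d) (a2 := p) (b1 := (p + h q) / 2 - d)
      (b2 := (p + h q) / 2) (by linarith) (by linarith) (by linarith) (by linarith)
    obtain ⟨v, v1, v2, v3, v4⟩ := B (a1 := p) (a2 := p + d) (b1 := (h q + p + 2 * π) / 2 - d)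
      (b2 := (h q + p + 2 * π) / 2) (by linarith) (by linarith) (by linarith) (by linarith)
    exact ⟨w, v, by linarith, abs_lt.2 ⟨by linarith, by linarith⟩,
      abs_lt.2 ⟨by linarith, by linarith⟩, abs_lt.2 ⟨by linarith, by linarith⟩,
      abs_lt.2 ⟨by linarith, by linarith⟩, False.elim, False.elim⟩

end

end Pool.Agent.Lib.MP_21f752_an
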