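import Pool.Agent.Lib.MP_21f752_an.FDm

/-! Elementary facts on the disc model. -/

namespace Pool.Agent.Lib.MP_21f752_an

open UpperHalfPlane Set Filter Topology Metric
open scoped MatrixGroups Real

noncomputable section

namespace FDisc

open FDm

lemma one_sub_ne (z : ℍ) : 1 - cay z ≠ 0 := fun h => by
  have := cay_lt z
  rw [← sub_eq_zero.1 h] at this
  simp at this

lemma coe_eq (z : ℍ) : (z : ℂ) = Complex.I * (1 + cay z) / (1 - cay z) := by
  have h := add_I_ne z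
  rw [eq_div_iff (one_sub_ne z), cay]
  field_simp
  ring

lemma range_cay : range cay = ball 0 1 := by
  ext w
  rw [mem_ball_zero_iff]
  exact ⟨by rintro ⟨z, rfl⟩; exact cay_lt z, fun h => exists_cay h⟩

lemma ind : IsInducing cay := by
  refine isInducing_iff_nhds.2 fun x => le_antisymm (continuous_cay.tendsto x).le_comap ?_
  have hg : ContinuousAt (fun w : ℂ => Complex.I * (1 + w) / (1 - w)) (cay x) :=
    ContinuousAt.div (by fun_prop) (by fun_prop) (one_sub_ne x)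
  have h := hg.tendsto.comp (tendsto_comap (f := cay))
  rw [isOpenEmbedding_coe.isInducing.nhds_eq_comap x]
  refine Tendsto.le_comap ?_
  rw [← coe_eq] at h
  exact h.congr fun z => (coe_eq z).symm

lemma emb : IsOpenEmbedding cay :=
  ⟨⟨ind, fun _ _ h => cay_inj h⟩, by rw [range_cay]; exact isOpen_ball⟩

lemma conn (l ε : ℝ) : IsPreconnected (Bl l ε) := by
  rw [← ind.isPreconnected_image]
  have : Bl l ε = cay ⁻¹' ball (ce l) ε := by
    ext z
    rw [mem_preimage, mem_ball, dist_eq_norm]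
    rfl
  rw [this, image_preimage_eq_inter_range, range_cay]
  exact ((convex_ball _ _).inter (convex_ball _ _)).isPreconnected

lemma sub (l l' ε : ℝ) : Bl l ε ⊆ Bl l' (ε + |l - l'|) := fun z hz => by
  have h1 : ‖cay z - ce l‖ < ε := hz
  have h2 := ce_ub l l'
  have h3 := norm_sub_le_norm_sub_add_norm_sub (cay z) (ce l) (ce l')
  change ‖_‖ < _
  linarith

lemma mono (l : ℝ) {ε δ : ℝ} (h : ε ≤ δ) : Bl l ε ⊆ Bl l δ := fun _ hz => lt_of_lt_of_le hz h

lemma far (p : ℍ) (R : ℝ) : ∃ ε, 0 < ε ∧ ∀ l, ∀ z ∈ Bl l ε, R < dist z p := by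
  obtain ⟨q, -, hq⟩ := (isCompact_closedBall p |R|).exists_isMaxOn
    ⟨p, mem_closedBall_self (abs_nonneg R)⟩ continuous_cay.norm.continuousOn
  refine ⟨1 - ‖cay q‖, by linarith [cay_lt q], fun l z hz => ?_⟩
  by_contra h
  have h1 : ‖cay z‖ ≤ ‖cay q‖ := hq ((not_lt.1 h).trans (le_abs_self R))
  have h2 : ‖cay z - ce l‖ < 1 - ‖cay q‖ := hz
  have h3 := norm_sub_norm_le (ce l) (cay z)
  rw [norm_ce, norm_sub_rev] at h3
  linarith

lemma arg_near (z : ℍ) : ‖cay z - ce (cay z).arg‖ = 1 - ‖cay z‖ := by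
  have e : cay z = (‖cay z‖ : ℝ) * ce (cay z).arg := (Complex.norm_mul_exp_arg_mul_I _).symm
  have : cay z - ce (cay z).arg = -(((1 - ‖cay z‖ : ℝ) : ℂ) * ce (cay z).arg) := by
    push_cast
    linear_combination e
  rw [this, norm_neg, norm_mul, norm_ce, mul_one, Complex.norm_real,
    Real.norm_of_nonneg (by linarith [cay_lt z])]

lemma near (p : ℍ) (ε : ℝ) (h : 0 < ε) : ∃ R, ∀ z, R ≤ dist z p → ∃ l, z ∈ Bl l ε := by
  have hK : IsCompact (cay ⁻¹' closedBall 0 (1 - ε)) := by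
    rw [ind.isCompact_iff, image_preimage_eq_inter_range, range_cay,
      inter_eq_left.2 (closedBall_subset_ball (by linarith))]
    exact isCompact_closedBall _ _
  obtain ⟨R, hR⟩ := hK.isBounded.subset_ball p
  refine ⟨R, fun z hz => ⟨(cay z).arg, ?_⟩⟩
  change ‖_‖ < ε
  rw [arg_near]
  by_contra h1
  have := hR (show z ∈ cay ⁻¹' closedBall 0 (1 - ε) from mem_closedBall_zero_iff.2 (by linarith))
  exact absurd hz (not_le.2 this)

lemma bdd (A : Set ℍ) (a : ℝ)
    (h : ∀ l ∈ Icc a (a + 2 * π), ∃ ε, 0 < ε ∧ Disjoint (Bl l ε) A) :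
    ∃ R, A ⊆ closedBall UpperHalfPlane.I R := by
  have key : ∃ δ, 0 < δ ∧ ∀ l ∈ Icc a (a + 2 * π), Disjoint (Bl l δ) A := by
    refine isCompact_Icc.induction_on (p := fun S => ∃ δ, 0 < δ ∧ ∀ l ∈ S, Disjoint (Bl l δ) A)
      ⟨1, one_pos, by simp⟩ (fun _ _ st ⟨δ, d, k⟩ => ⟨δ, d, fun l hl => k l (st hl)⟩) ?_ ?_
    · rintro s t ⟨δ, d, k⟩ ⟨δ', d', k'⟩
      refine ⟨min δ δ', lt_min d d', ?_⟩
      rintro l (hl | hl)
      · exact (k l hl).mono_left (mono l (min_le_left _ _))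
      · exact (k' l hl).mono_left (mono l (min_le_right _ _))
    · intro x hx
      obtain ⟨ε, e, k⟩ := h x hx
      refine ⟨ball x (ε / 2), mem_nhdsWithin_of_mem_nhds (ball_mem_nhds x (by positivity)),
        ε / 2, by positivity, fun l hl => k.mono_left ((sub l x _).trans (mono x ?_))⟩
      rw [mem_ball, Real.dist_eq] at hl
      linarith
  obtain ⟨δ, d, k⟩ := key
  obtain ⟨R, hR⟩ := near UpperHalfPlane.I δ d
  refine ⟨R, fun z hz => ?_⟩
  by_contra h1
  obtain ⟨l, hl⟩ := hR z (not_le.1 h1).le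
  obtain ⟨j, j1, j2⟩ := ex_sh l a
  refine disjoint_left.1 (k _ ⟨j1, j2.le⟩) ?_ hz
  change ‖_ - ce _‖ < δ
  rw [ce_sh]
  exact hl

lemma seg (z : ℍ) (l : ℝ) : ∃ σ : ℝ → ℍ, Continuous σ ∧ σ 0 = z ∧
    Tendsto (fun t => cay (σ t)) atTop (𝓝 (ce l)) ∧
      ∀ t, 0 ≤ t → ∃ s ∈ Ico (0 : ℝ) 1, cay (σ t) = cay z + s * (ce l - cay z) := by
  set s : ℝ → ℝ := fun t => 1 - Real.exp (-|t|) with hs
  have s0 : ∀ t, s t ∈ Ico (0 : ℝ) 1 := fun t =>
    ⟨sub_nonneg.2 (Real.exp_le_one_iff.2 (neg_nonpos.2 (abs_nonneg t))),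
      sub_lt_self _ (Real.exp_pos _)⟩
  have hw : ∀ t, ∃ w : ℍ, cay w = cay z + s t * (ce l - cay z) := fun t => by
    refine exists_cay ?_
    obtain ⟨a, b⟩ := s0 t
    have e : cay z + s t * (ce l - cay z) = ((1 - s t : ℝ) : ℂ) * cay z + s t * ce l := by
      push_cast
      ring
    rw [e]
    refine (norm_add_le _ _).trans_lt ?_
    rw [norm_mul, norm_mul, norm_ce, Complex.norm_real, Complex.norm_real,
      Real.norm_of_nonneg a, Real.norm_of_nonneg (by linarith)]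
    nlinarith [cay_lt z]
  choose σ hσ using hw
  have sc : Continuous s := by fun_prop
  refine ⟨σ, ind.continuous_iff.2 ?_, cay_inj ?_, ?_, fun t _ => ⟨s t, s0 t, hσ t⟩⟩
  · have : cay ∘ σ = fun t => cay z + s t * (ce l - cay z) := funext hσ
    rw [this]
    fun_prop
  · rw [hσ]
    simp [hs]
  · have h1 : Tendsto s atTop (𝓝 1) := by
      simpa using (Real.tendsto_exp_neg_atTop_nhds_zero.comp tendsto_abs_atTop_atTop).const_sub 1
    have h2 := (((Complex.continuous_ofReal.tendsto 1).comp h1).mul_const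
      (ce l - cay z)).const_add (cay z)
    simp only [hσ]
    simpa using h2

end FDisc

theorem disc : Disc :=
  ⟨FDm.cay_lt, FDisc.emb, fun _ => FDm.exists_cay, FDisc.conn, fun l _ => FDm.bl_ne l, FDisc.sub,
    FDisc.far, FDisc.near, FDisc.bdd, FDisc.seg⟩

end

end Pool.Agent.Lib.MP_21f752_an
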