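import Pool.Agent.Lib.MP_21f752_an.Defs

/-! Conjugate points of the magnetic flow on an energy level. -/

namespace Pool.Agent.Lib.MP_21f752_an

open UpperHalfPlane

/-- The level `k` has no conjugate points. The family `c θ` consists of the magnetic geodesics of
energy `k` through one point whose initial vectors run through the fibre circle; the image of the
tangent line of the fibre under the differential of the time `T` map is again vertical exactly when
the base point `c θ T` has derivative zero at `θ = 0`. -/
def NoConj (f b : ℍ → ℝ) (k : ℝ) : Prop :=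
  ∀ c : ℝ → ℝ → ℍ, (∀ θ, IsMagGeodesic f b k (c θ)) → (∀ θ, c θ 0 = c 0 0) →
    (∀ θ : ℝ, vel (c θ) 0 = Complex.exp (θ * Complex.I) * vel (c 0) 0) →
    ∀ T : ℝ, T ≠ 0 → ¬HasDerivAt (fun θ => (c θ T : ℂ)) 0 0

end Pool.Agent.Lib.MP_21f752_an
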