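import Pool.Agent.Lib.MP_21f752_an.Main
import Pool.Agent.Lib.MP_21f752_an.FDef

/-! From the normalised system to the statement on an arbitrary energy level. -/

namespace Pool.Agent.Lib.MP_21f752_an

open UpperHalfPlane Set Filter Topology Metric
open scoped MatrixGroups ContDiff Real

noncomputable section

lemma Sys.lit_of (S : Sys) (h : NoConj S.f S.b (1 / 2)) (ξ : N) (t : ℝ) (ht : t ≠ 0) :
    S.jq ξ (0, 1) t ≠ 0 := by
  intro e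
  refine h (fun θ s => (S.φ s (rot θ ξ)).1) (fun θ => S.mag_orbit _)
    (fun θ => by simp only [S.φ_zero]; rfl) (fun θ => ?_) t ht ?_
  · simp only [S.vel_orbit, S.φ_zero, S.V_rot, ce_zero, one_mul]
    rfl
  · have l : HasDerivAt (fun θ : ℝ => emb (rot θ ξ)) ((0, 1) : ℂ × ℝ) 0 :=
      (hasDerivAt_const (0 : ℝ) (ξ.1 : ℂ)).prodMk ((hasDerivAt_id (0 : ℝ)).const_add ξ.2)
    have e0 : emb ξ = emb (rot 0 ξ) := by simp [rot]
    have a := hd_fst ((S.hasFDerivAt_slice t ξ).comp_hasDerivAt_of_eq (0 : ℝ) l e0)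
    refine a.congr_deriv ?_
    change (S.J ξ (0, 1) t).1 = 0
    rw [S.J_fst, e, zero_mul]

theorem fin_of (H : ∀ S : Sys, S.Free → (∀ ξ t, t ≠ 0 → S.jq ξ (0, 1) t ≠ 0) → S.ZE →
      (∃ κ, ∀ z, curv S.f z = κ) ∧ ∃ β, ∀ z, S.b z = β)
    (Γ : Subgroup SL(2, ℝ)) [DiscreteTopology Γ]
    (hfree : ∀ γ ∈ Γ, ∀ z : ℍ, γ • z = z → ∀ w : ℍ, γ • w = w)
    (hco : ∃ K : Set ℍ, IsCompact K ∧ ∀ z : ℍ, ∃ γ ∈ Γ, γ • z ∈ K)
    (f b : ℍ → ℝ) (hf : SmoothH f) (hb : SmoothH b)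
    (hfi : ∀ γ ∈ Γ, ∀ z, f (γ • z) = f z) (hbi : ∀ γ ∈ Γ, ∀ z, b (γ • z) = b z)
    (k : ℝ) (hk : 0 < k) (hnc : NoConj f b k) (hent : ZeroEntropy Γ f b k) :
    (∃ κ, ∀ z, curv f z = κ) ∧ ∃ β, ∀ z, b z = β := by
  obtain ⟨K, hK, hc⟩ := hco
  obtain ⟨R, hR⟩ := hK.isBounded.subset_closedBall UpperHalfPlane.I
  let S : Sys := ⟨Γ, fin_of_discrete Γ, R, fun z => (hc z).imp fun γ h => ⟨h.1, hR h.2⟩,
    fun z => f z - Real.log (2 * k) / 2, b, ContDiffOn.sub hf contDiffOn_const, hb,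
    fun γ hγ z => by rw [hfi γ hγ], hbi⟩
  obtain ⟨⟨κ, h1⟩, h2⟩ := H S hfree
    (S.lit_of (by simpa only [S, NoConj, mag_shift f b hk] using hnc))
    (S.ze_of (by simpa only [S, ZeroEntropy, mag_shift f b hk, energy_shift f hk] using hent))
  exact ⟨⟨_, fun z => (curv_shift hf _ z).trans (congrArg _ (h1 z))⟩, h2⟩

end

end Pool.Agent.Lib.MP_21f752_an
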