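import Pool.Agent.Lib.MP_21f752_an.FG

/-! Linear escape on a set of positive measure. -/

namespace Pool.Agent.Lib.MP_21f752_an

open UpperHalfPlane Set Filter Topology Metric MeasureTheory
open scoped MatrixGroups ContDiff Real ENNReal

noncomputable section

namespace FEsc

variable {X : Type} [MeasurableSpace X] {μ : Measure X} {T : X → X} {f : X → ℝ}

def mx (T : X → X) (f : X → ℝ) : ℕ → X → ℝ
  | 0 => fun _ => 0
  | n + 1 => fun x => max 0 (f x + mx T f n (T x))

omit [MeasurableSpace X] in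
lemma mx_nn (n : ℕ) (x : X) : 0 ≤ mx T f n x := by
  cases n
  · exact le_rfl
  · exact le_max_left _ _

omit [MeasurableSpace X] in
lemma mx_mono (n : ℕ) (x : X) : mx T f n x ≤ mx T f (n + 1) x := by
  induction n generalizing x with
  | zero => exact le_max_left _ _
  | succ n ih => exact max_le_max le_rfl (by linarith [ih (T x)])

omit [MeasurableSpace X] in
lemma le_mx (n : ℕ) (x : X) : birkhoffSum T f n x ≤ mx T f n x := by
  induction n generalizing x with
  | zero => simp [mx]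
  | succ n ih =>
    rw [birkhoffSum_succ']
    exact le_max_of_le_right (by linarith [ih (T x)])

lemma mx_meas (hT : Measurable T) (hf : Measurable f) (n : ℕ) : Measurable (mx T f n) := by
  induction n with
  | zero => exact measurable_const
  | succ n ih => exact measurable_const.max (hf.add (ih.comp hT))

lemma mx_int (hT : MeasurePreserving T μ μ) (hi : Integrable f μ) (n : ℕ) :
    Integrable (mx T f n) μ := by
  induction n with
  | zero => exact integrable_zero _ _ _
  | succ n ih => exact (integrable_zero _ _ _).sup (hi.add (hT.integrable_comp_of_integrable ih))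

lemma int_comp (hT : MeasurePreserving T μ μ) (hf : Measurable f) :
    ∫ x, f (T x) ∂μ = ∫ x, f x ∂μ := by
  rw [← integral_map hT.aemeasurable hf.aestronglyMeasurable, hT.map_eq]

/-- the maximal ergodic lemma -/
theorem garsia0 (hT : MeasurePreserving T μ μ) (hf : Measurable f) (hi : Integrable f μ)
    (h : ∀ x, f x = 0 ∨ ∃ n, 0 < birkhoffSum T f n x) : 0 ≤ ∫ x, f x ∂μ := by
  have m := mx_meas hT.measurable hf
  have ms : ∀ n, MeasurableSet {x | 0 < mx T f (n + 1) x} := fun n =>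
    measurableSet_lt measurable_const (m _)
  have key : ∀ n, 0 ≤ ∫ x in {x | 0 < mx T f (n + 1) x}, f x ∂μ := by
    intro n
    have i1 := mx_int hT hi (n + 1)
    have i2 : Integrable (fun x => mx T f (n + 1) (T x)) μ := hT.integrable_comp_of_integrable i1
    have a : ∫ x, (mx T f (n + 1) x - mx T f (n + 1) (T x)) ∂μ = 0 := by
      rw [integral_sub i1 i2, int_comp hT (m _), sub_self]
    rw [← integral_indicator (ms n)]
    refine a.ge.trans (integral_mono (i1.sub i2) (hi.indicator (ms n)) fun x => ?_)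
    by_cases hx : 0 < mx T f (n + 1) x
    · rw [indicator_of_mem (s := {x | 0 < mx T f (n + 1) x}) hx]
      have e : mx T f (n + 1) x = f x + mx T f n (T x) :=
        max_eq_right (le_of_lt ((lt_max_iff.1 hx).resolve_left (lt_irrefl _)))
      linarith [mx_mono (T := T) (f := f) n (T x)]
    · rw [indicator_of_notMem (s := {x | 0 < mx T f (n + 1) x}) hx]
      linarith [mx_nn (T := T) (f := f) (n + 1) (T x), not_lt.1 hx]
  have t := tendsto_setIntegral_of_monotone (μ := μ) (f := f) ms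
    (monotone_nat_of_le_succ fun n x hx => lt_of_lt_of_le hx (mx_mono _ x)) hi.integrableOn
  rw [setIntegral_eq_integral_of_forall_compl_eq_zero fun x hx => (h x).resolve_right ?_] at t
  · exact ge_of_tendsto' t key
  · rintro ⟨n, hn⟩
    exact hx (mem_iUnion.2 ⟨n, hn.trans_le ((le_mx n x).trans (mx_mono n x))⟩)

omit [MeasurableSpace X] in
lemma iter_mem {B : Set X} (hB : ∀ x, T x ∈ B ↔ x ∈ B) (n : ℕ) (x : X) : T^[n] x ∈ B ↔ x ∈ B := by
  induction n generalizing x with
  | zero => rfl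
  | succ n ih => rw [Function.iterate_succ_apply, ih, hB]

theorem garsia (hT : MeasurePreserving T μ μ) (hf : Measurable f) (hi : Integrable f μ)
    {B : Set X} (hm : MeasurableSet B) (hB : ∀ x, T x ∈ B ↔ x ∈ B)
    (h : ∀ x ∈ B, ∃ n, 0 < birkhoffSum T f n x) : 0 ≤ ∫ x in B, f x ∂μ := by
  rw [← integral_indicator hm]
  refine garsia0 hT (hf.indicator hm) (hi.indicator hm) fun x => ?_
  by_cases hx : x ∈ B
  · refine .inr ((h x hx).imp fun n hn => hn.trans_eq ?_)
    exact Finset.sum_congr rfl fun k _ => (indicator_of_mem ((iter_mem hB k x).2 hx) f).symm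
  · exact .inl (indicator_of_notMem hx f)

/-- the sums are unbounded above -/
def Ub (T : X → X) (f : X → ℝ) : Set X := {x | ∀ c : ℕ, ∃ n, (c : ℝ) < birkhoffSum T f n x}

lemma sum_meas (hT : Measurable T) (hf : Measurable f) (n : ℕ) :
    Measurable (birkhoffSum T f n) :=
  Finset.measurable_fun_sum _ fun k _ => hf.comp (hT.iterate k)

lemma ub_meas (hT : Measurable T) (hf : Measurable f) : MeasurableSet (Ub T f) := by
  simp only [Ub, ofPred_forall, ofPred_exists]
  exact .iInter fun c => .iUnion fun n => measurableSet_lt measurable_const (sum_meas hT hf n)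

omit [MeasurableSpace X] in
lemma ub_inv (x : X) : T x ∈ Ub T f ↔ x ∈ Ub T f := by
  obtain ⟨d, hd⟩ := exists_nat_ge |f x|
  have a := abs_le.1 hd
  constructor
  · intro h c
    obtain ⟨n, hn⟩ := h (c + d)
    refine ⟨n + 1, ?_⟩
    rw [birkhoffSum_succ']
    push_cast at hn
    linarith
  · intro h c
    obtain ⟨n, hn⟩ := h (c + d)
    push_cast at hn
    cases n with
    | zero =>
      rw [birkhoffSum_zero] at hn
      exact absurd hn (not_lt.2 (by positivity))
    | succ n =>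
      rw [birkhoffSum_succ'] at hn
      exact ⟨n, by linarith⟩

omit [MeasurableSpace X] in
lemma not_ub {x : X} (h : x ∉ Ub T f) : ∃ c : ℕ, ∀ n, birkhoffSum T f n x ≤ c := by
  simpa [Ub] using h

theorem garsia_ub (hT : MeasurePreserving T μ μ) (hf : Measurable f) (hi : Integrable f μ)
    {B : Set X} (hm : MeasurableSet B) (hB : ∀ x, T x ∈ B ↔ x ∈ B) (h : B ⊆ Ub T f) :
    0 ≤ ∫ x in B, f x ∂μ :=
  garsia hT hf hi hm hB fun x hx => by simpa using h hx 0

omit [MeasurableSpace X] in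
lemma sum_sub (c : ℝ) (n : ℕ) (x : X) :
    birkhoffSum T (fun x => c - f x) n x = c * n - birkhoffSum T f n x := by
  simp [birkhoffSum, Finset.sum_sub_distrib, mul_comm]

/-- positive mean gives linear growth in both directions on a set of positive measure -/
theorem both [IsFiniteMeasure μ] {T' : X → X} (hT : MeasurePreserving T μ μ)
    (hT' : MeasurePreserving T' μ μ) (hi : ∀ x, T (T' x) = x) (hf : Measurable f)
    (hI : Integrable f μ) {ε : ℝ} (hε : 0 ≤ ε) (h : ε * μ.real univ < ∫ x, f x ∂μ) :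
    μ ((Ub T fun x => ε - f x)ᶜ ∩ (Ub T' fun x => ε - f x)ᶜ) ≠ 0 := by
  intro h0
  have mf : Measurable fun x => ε - f x := measurable_const.sub hf
  have iF : Integrable (fun x => ε - f x) μ := (integrable_const _).sub hI
  have m1 := ub_meas hT.measurable mf
  have m2 := ub_meas hT'.measurable mf
  have a1 := garsia_ub hT mf iF m1 ub_inv Subset.rfl
  have a2 := garsia_ub hT' mf iF (m2.diff m1) (fun x => by
    have := ub_inv (T := T) (f := fun x => ε - f x) (T' x)
    rw [hi] at this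
    simp only [Set.mem_sdiff, ub_inv, this]) sdiff_subset
  have a3 := setIntegral_union (μ := μ) disjoint_sdiff_right (m2.diff m1) iF.integrableOn
    iF.integrableOn
  rw [union_sdiff_self, setIntegral_eq_integral_of_ae_compl_eq_zero, integral_sub (integrable_const _) hI,
    integral_const, smul_eq_mul] at a3
  · linarith
  · filter_upwards [measure_eq_zero_iff_ae_notMem.1 h0] with x hx hx2
    exact absurd (compl_union _ _ ▸ hx2) hx

open Sys

variable (S : Sys)

/-- measurable sets invariant under the deck group -/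
@[reducible] def mI : MeasurableSpace N where
  MeasurableSet' A := MeasurableSet A ∧ S.Inv (· ∈ A)
  measurableSet_empty := ⟨.empty, fun _ _ _ _ => rfl⟩
  measurableSet_compl A h := ⟨h.1.compl, fun γ hγ k ξ => congrArg Not (h.2 γ hγ k ξ)⟩
  measurableSet_iUnion A h := ⟨.iUnion fun i => (h i).1, fun γ hγ k ξ => by
    have := fun i => (h i).2 γ hγ k ξ
    simp only [mem_iUnion] at this ⊢
    simp only [this]⟩

lemma mI_le : (mI S) ≤ (inferInstance : MeasurableSpace N) := fun _ h => h.1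

def νI : @Measure N (mI S) := S.ν.trim (mI_le S)

instance : IsFiniteMeasure (νI S) := isFiniteMeasure_trim (mI_le S)

lemma measurable_φ (t : ℝ) : Measurable (S.φ t) :=
  (S.continuous_φ.comp (continuous_const.prodMk continuous_id)).measurable

variable {S}

lemma inv_mI {Y : Type} [MeasurableSpace Y] {f : N → Y} (hi : S.Inv f) (hf : Measurable f) :
    Measurable[(mI S)] f := fun _ hA => ⟨hf hA, fun γ hγ k ξ => by
      simp only [mem_preimage, hi γ hγ]⟩

lemma ν_φ {A : Set N} (hA : MeasurableSet A) (hi : S.Inv (· ∈ A)) (t : ℝ) :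
    S.ν (S.φ t ⁻¹' A) = S.ν A := by
  rw [← lintegral_indicator_one hA, ← lintegral_indicator_one ((measurable_φ S) t hA)]
  refine S.unfold ((measurable_φ S) t) (S.pres_φ t) (fun _ hγ k ξ => S.φ_gg hγ k t ξ)
    (G := A.indicator 1) (measurable_one.indicator hA) fun γ hγ k ξ => ?_
  have := hi γ hγ k ξ
  by_cases h : ξ ∈ A
  · rw [indicator_of_mem h, indicator_of_mem (this.mpr h)]
    rfl
  · rw [indicator_of_notMem h, indicator_of_notMem fun h2 => h (this.mp h2)]

lemma mp_φ (S : Sys) (t : ℝ) : @MeasurePreserving N N (mI S) (mI S) (S.φ t) (νI S) (νI S) := by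
  have hm : @Measurable N N (mI S) (mI S) (S.φ t) := fun A hA =>
    ⟨(measurable_φ S) t hA.1, hA.2.comp_φ t⟩
  refine @MeasurePreserving.mk N N (mI S) (mI S) _ _ _ hm (@Measure.ext N (mI S) _ _ fun A hA => ?_)
  rw [@Measure.map_apply N N (mI S) (mI S) _ _ hm _ hA, νI, trim_measurableSet_eq _ (hm hA),
    trim_measurableSet_eq _ hA, ν_φ hA.1 hA.2]

lemma iter_φ (S : Sys) (t : ℝ) (k : ℕ) (ξ : N) : (S.φ t)^[k] ξ = S.φ (k * t) ξ := by
  induction k with
  | zero => simp [φ_zero]
  | succ k ih =>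
    rw [Function.iterate_succ_apply', ih, ← φ_add]
    congr 1
    push_cast
    ring

lemma sum_φ (S : Sys) (t : ℝ) (f : N → ℝ) (n : ℕ) (ξ : N) :
    birkhoffSum (S.φ t) f n ξ = ∑ k ∈ Finset.range n, f (S.φ (k * t) ξ) := by
  simp only [birkhoffSum, iter_φ]

/-- linear escape in both directions -/
def Esc (S : Sys) (ε : ℝ) : Set N := {ξ | ∃ c : ℕ, ∀ n : ℕ,
  ε * n - c ≤ dist ξ.1 (S.φ n ξ).1 ∧ ε * n - c ≤ dist ξ.1 (S.φ (-n) ξ).1}

lemma esc_meas (S : Sys) (ε : ℝ) : MeasurableSet ((Esc S) ε) := by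
  simp only [Esc, ofPred_exists, ofPred_forall, ofPred_and]
  have c : ∀ t, Continuous fun ξ : N => dist ξ.1 (S.φ t ξ).1 := fun t =>
    continuous_fst.dist (S.continuous_φ.comp (continuous_const.prodMk continuous_id)).fst
  exact .iUnion fun _ => .iInter fun n => (isClosed_le continuous_const (c _)).measurableSet.inter
    (isClosed_le continuous_const (c _)).measurableSet

lemma esc_inv (S : Sys) (ε : ℝ) : S.Inv (· ∈ (Esc S) ε) := fun γ hγ k ξ => by
  simp only [Esc, mem_ofPred_eq, S.φ_gg hγ]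
  simp only [gg, dist_smul]

lemma esc_real {ε : ℝ} (hε : 0 ≤ ε) {ξ : N} : ξ ∈ (Esc S) ε ↔
    ∃ c : ℝ, ∀ t : ℝ, ε * |t| - c ≤ dist ξ.1 (S.φ t ξ).1 := by
  constructor
  · rintro ⟨c, hc⟩
    obtain ⟨D, -, hD⟩ := S.disp 1
    refine ⟨c + D + ε, fun t => ?_⟩
    have a := Nat.floor_le (abs_nonneg t)
    have b := Nat.lt_floor_add_one |t|
    have e : ε * |t| ≤ ε * (⌊|t|⌋₊ + 1) := mul_le_mul_of_nonneg_left b.le hε
    rcases abs_cases t with ⟨h, -⟩ | ⟨h, -⟩
    · have := hD ξ t ⌊|t|⌋₊ (abs_le.2 ⟨by linarith, by linarith⟩)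
      linarith [(hc ⌊|t|⌋₊).1, dist_triangle_right ξ.1 (S.φ ⌊|t|⌋₊ ξ).1 (S.φ t ξ).1]
    · have := hD ξ t (-⌊|t|⌋₊) (abs_le.2 ⟨by linarith, by linarith⟩)
      linarith [(hc ⌊|t|⌋₊).2, dist_triangle_right ξ.1 (S.φ (-⌊|t|⌋₊) ξ).1 (S.φ t ξ).1]
  · rintro ⟨c, hc⟩
    obtain ⟨d, hd⟩ := exists_nat_ge c
    refine ⟨d, fun n => ⟨?_, ?_⟩⟩
    · have := hc n
      rw [Nat.abs_cast] at this
      linarith
    · have := hc (-n)
      rw [abs_neg, Nat.abs_cast] at this
      linarith

lemma esc_φ {ε : ℝ} (hε : 0 ≤ ε) (s : ℝ) (ξ : N) : S.φ s ξ ∈ (Esc S) ε ↔ ξ ∈ (Esc S) ε := by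
  have key : ∀ s ξ, ξ ∈ (Esc S) ε → S.φ s ξ ∈ (Esc S) ε := by
    intro s ξ h
    obtain ⟨c, hc⟩ := (esc_real hε).1 h
    refine (esc_real hε).2 ⟨c + ε * |s| + dist ξ.1 (S.φ s ξ).1, fun t => ?_⟩
    have a := hc (t + s)
    rw [φ_add] at a
    have b : ε * |t| ≤ ε * (|t + s| + |s|) :=
      mul_le_mul_of_nonneg_left (by simpa using abs_sub (t + s) s) hε
    linarith [dist_triangle ξ.1 (S.φ s ξ).1 (S.φ t (S.φ s ξ)).1]
  exact ⟨fun h => by simpa only [φ_neg] using key (-s) _ h, key s ξ⟩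

lemma sum_int {ψ : N → ℝ} (h : S.CI ψ) (σ : ℝ) (ξ : N) (n : ℕ) :
    ∑ k ∈ Finset.range n, ∫ t in (0 : ℝ)..σ, ψ (S.φ t (S.φ (k * σ) ξ)) =
      ∫ t in (0 : ℝ)..n * σ, ψ (S.φ t ξ) := by
  have := intervalIntegral.sum_integral_adjacent_intervals (μ := volume)
    (f := fun t => ψ (S.φ t ξ)) (a := fun k : ℕ => k * σ) (n := n)
    fun _ _ => (h.cont_t ξ).intervalIntegrable _ _
  simp only [Nat.cast_zero, zero_mul] at this
  rw [← this]
  refine Finset.sum_congr rfl fun k _ => ?_
  simp only [← φ_add]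
  rw [intervalIntegral.integral_comp_add_right (fun t => ψ (S.φ t ξ))]
  congr 1
  · simp
  · push_cast
    ring

end FEsc

/-- linear escape on a set of positive measure -/
theorem FEsc.esc0 (G : Geo) : ∃ ε, 0 < ε ∧ G.toSys.ν (Esc G.toSys ε) ≠ 0 := by
  set S := G.toSys
  obtain ⟨C, hC⟩ := G.lip
  obtain ⟨D, -, hD⟩ := S.disp 1
  have c1 := G.ci.avg 0 1
  have m := inv_mI c1.inv c1.cont.measurable
  have v := Sys.vol_pos (S := S)
  have p := G.pos
  set e := S.I G.ψ / S.I (fun _ => 1) / 2 with he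
  have e0 : 0 < e := by positivity
  have key := @both N (mI S) (νI S) _ _ _ _ ((mp_φ S) 1) ((mp_φ S) (-1)) (S.φ_neg' 1) m
    (c1.int.trim (mI_le S) m.stronglyMeasurable) e e0.le (by
      have a : (νI S).real univ = S.I fun _ => 1 := by
        simp [Sys.I, Measure.real, νI, trim_measurableSet_eq _ MeasurableSet.univ]
      rw [a, νI, ← integral_trim (mI_le S) m.stronglyMeasurable]
      have b := G.ci.I_avg 0 1
      rw [Sys.I] at b
      have : e * S.I (fun _ => 1) = S.I G.ψ / 2 := by rw [he]; field_simp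
      linarith)
  have hC1 : 0 < |C| + 1 := by positivity
  have l : ∀ ξ T, |∫ t in (0 : ℝ)..T, G.ψ (S.φ t ξ)| ≤ (|C| + 1) * dist ξ.1 (S.φ T ξ).1 :=
    fun ξ T => (hC ξ T).trans (mul_le_mul_of_nonneg_right (by linarith [le_abs_self C]) dist_nonneg)
  refine ⟨e / (|C| + 1), by positivity, fun h0 => key ?_⟩
  rw [← trim_measurableSet_eq (mI_le S) ⟨(esc_meas S) _, (esc_inv S) _⟩] at h0
  refine measure_mono_null (fun ξ hξ => ?_) h0
  obtain ⟨a, ha⟩ := not_ub hξ.1
  obtain ⟨b, hb⟩ := not_ub hξ.2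
  obtain ⟨d, hd⟩ := exists_nat_ge ((a + b) / (|C| + 1) + 2 * D)
  refine ⟨d, fun n => ⟨?_, ?_⟩⟩
  · have := ha n
    rw [sum_sub, sum_φ, sum_int G.ci, mul_one] at this
    have u := (le_abs_self _).trans (l ξ n)
    have D0 : 0 ≤ D := dist_nonneg.trans (hD ξ 0 0 (by simp))
    have : e / (|C| + 1) * n - (a + b) / (|C| + 1) ≤ dist ξ.1 (S.φ n ξ).1 := by
      rw [div_mul_eq_mul_div, ← sub_div, div_le_iff₀' hC1]
      linarith [Nat.cast_nonneg (α := ℝ) b]
    linarith
  · have := hb n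
    have q : ∀ k : ℕ, ∫ t in (0 : ℝ)..1, G.ψ (S.φ t (S.φ (k * -1) ξ)) =
        -∫ t in (0 : ℝ)..(-1), G.ψ (S.φ t (S.φ (k * -1) (S.φ 1 ξ))) := fun k => by
      rw [← intervalIntegral.integral_symm, ← S.φ_add (k * -1), add_comm, S.φ_add 1]
      simp only [← S.φ_add _ 1]
      rw [intervalIntegral.integral_comp_add_right (fun t => G.ψ (S.φ t (S.φ (k * -1) ξ)))]
      norm_num
    rw [sum_sub, sum_φ] at this
    rw [Finset.sum_congr rfl fun k _ => q k, Finset.sum_neg_distrib, sum_int G.ci] at this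
    have u := (neg_le_abs _).trans (l (S.φ 1 ξ) (n * -1))
    have w : dist (S.φ 1 ξ).1 (S.φ (n * -1) (S.φ 1 ξ)).1 ≤ dist ξ.1 (S.φ (-n) ξ).1 + 2 * D := by
      have x1 := hD ξ 0 1 (by simp)
      have x2 := hD ξ (n * -1 + 1) (-n) (by simp)
      rw [Sys.φ_zero] at x1
      rw [← Sys.φ_add]
      linarith [dist_triangle4 (S.φ 1 ξ).1 ξ.1 (S.φ (-n) ξ).1 (S.φ (n * -1 + 1) ξ).1]
    have : e / (|C| + 1) * n - (a + b) / (|C| + 1) ≤
        dist (S.φ 1 ξ).1 (S.φ (n * -1) (S.φ 1 ξ)).1 := by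
      rw [div_mul_eq_mul_div, ← sub_div, div_le_iff₀' hC1]
      linarith [Nat.cast_nonneg (α := ℝ) a]
    linarith

theorem esc : EscSt := fun G => by
  obtain ⟨ε, h0, h⟩ := FEsc.esc0 G
  refine ⟨ε, h0, fun h1 => h (withDensity_absolutelyContinuous _ _ (measure_mono_null ?_ h1))⟩
  intro ξ hξ
  obtain ⟨c, hc⟩ := (FEsc.esc_real h0.le).1 hξ
  exact ⟨c, fun T => (hc T).trans_eq (dist_comm _ _)⟩

end

end Pool.Agent.Lib.MP_21f752_an
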