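import Pool.Agent.Lib.MP_21f752_an.FCs

/-! The jump of a fan. -/

namespace Pool.Agent.Lib.MP_21f752_an

open UpperHalfPlane Set Filter Topology Metric MeasureTheory
open scoped MatrixGroups Real

noncomputable section

namespace FFan

variable {G : Geo}

lemma accP_of {ξ : N} {y : ℝ} (h : G.EndP ξ y) : G.AccP ξ y := fun ε e =>
  ((Metric.tendsto_nhds.1 h ε e).mono fun _ a => by rwa [dist_eq_norm] at a).frequently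

lemma accM_of {ξ : N} {y : ℝ} (h : G.EndM ξ y) : G.AccM ξ y := fun ε e =>
  ((Metric.tendsto_nhds.1 h ε e).mono fun _ a => by rwa [dist_eq_norm] at a).frequently

lemma accP_per {ξ : N} {l : ℝ} (h : G.AccP ξ l) (j : ℤ) : G.AccP ξ (l + j * (2 * π)) := by
  simpa only [Geo.AccP, FCs.bl_per] using h

lemma red (c l : ℝ) : ∃ j : ℤ, c ≤ l + j * (2 * π) ∧ l + j * (2 * π) < c + 2 * π := by
  have h := toIcoMod_mem_Ico Real.two_pi_pos c l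
  refine ⟨-toIcoDiv Real.two_pi_pos c l, ?_⟩
  rw [toIcoMod, zsmul_eq_mul] at h
  push_cast
  constructor <;> linarith [h.1, h.2]

lemma noP (hm : G.FM) {p : ℍ} {θ1 θ2 a b θ l : ℝ} (h1 : θ1 < θ2) (h2 : θ2 < θ1 + 2 * π)
    (h3 : a < b) (h4 : b < a + 2 * π) (e1 : G.EndP (p, θ1) a) (e2 : G.EndP (p, θ2) b)
    (hθ : θ ∈ Icc θ1 θ2) (l1 : b < l) (l2 : l < a + 2 * π) : ¬G.AccP (p, θ) l := fun h => by
  obtain ⟨ε, e, k⟩ := (hm p θ1 θ2 a b h1 h2 h3 h4).1 e1 e2 l l1 l2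
  obtain ⟨t, u, v⟩ := ((h ε e).and_eventually (eventually_ge_atTop 0)).exists
  exact k θ hθ t v u

lemma noM (hm : G.FM) {p : ℍ} {θ1 θ2 a b θ l : ℝ} (h1 : θ1 < θ2) (h2 : θ2 < θ1 + 2 * π)
    (h3 : a < b) (h4 : b < a + 2 * π) (e1 : G.EndM (p, θ1) a) (e2 : G.EndM (p, θ2) b)
    (hθ : θ ∈ Icc θ1 θ2) (l1 : b < l) (l2 : l < a + 2 * π) : ¬G.AccM (p, θ) l := fun h => by
  obtain ⟨ε, e, k⟩ := (hm p θ1 θ2 a b h1 h2 h3 h4).2 e1 e2 l l1 l2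
  obtain ⟨t, u, v⟩ := ((h ε e).and_eventually (eventually_le_atBot 0)).exists
  exact k θ hθ t v u

lemma clus {O : Set (ℝ × ℝ)} (T : Set (G.WT O)) (ζ : N) {x1 x2 y1 y2 : ℝ}
    (h : ∀ U ∈ 𝓝 ζ, ∃ f ∈ T, f.1.1 ∈ U) (hb : ∀ f ∈ T, f.1.2 ∈ Icc x1 x2 ×ˢ Icc y1 y2) :
    ∃ v ∈ Icc x1 x2 ×ˢ Icc y1 y2, ∀ U ∈ 𝓝 ζ, ∀ δ, 0 < δ → ∃ f ∈ T, f.1.1 ∈ U ∧
      |f.1.2.1 - v.1| < δ ∧ |f.1.2.2 - v.2| < δ := by
  let 𝓕 : Filter (G.WT O) := comap (fun f => f.1.1) (𝓝 ζ) ⊓ 𝓟 T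
  have : 𝓕.NeBot := by
    refine inf_principal_neBot_iff.2 fun V hV => ?_
    obtain ⟨U, a, b⟩ := mem_comap.1 hV
    obtain ⟨f, c, d⟩ := h U a
    exact ⟨f, b d, c⟩
  have hT : ∀ᶠ f in 𝓕, f ∈ T := mem_inf_of_right (mem_principal_self T)
  obtain ⟨v, a, b⟩ := (isCompact_Icc.prod isCompact_Icc).exists_mapClusterPt (f := 𝓕)
    (u := fun f => f.1.2) (le_principal_iff.2 (hT.mono hb))
  refine ⟨v, a, fun U hU δ d => ?_⟩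
  have hU' : ∀ᶠ f in 𝓕, f.1.1 ∈ U := mem_inf_of_left (preimage_mem_comap hU)
  obtain ⟨f, c, e1, e2⟩ := ((mapClusterPt_iff_frequently.1 b _ (ball_mem_nhds v d)).and_eventually
    (hT.and hU')).exists
  rw [mem_ball, Prod.dist_eq, max_lt_iff, Real.dist_eq, Real.dist_eq] at c
  exact ⟨f, e1, e2, c.1, c.2⟩

end FFan

open FFan in
theorem fan (hd : Disc) (hg : CgSt) (hb : BaseSt) (hm : FmSt) (hdd : DeadSt) : FanSt := by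
  intro G O hO w1 w2 a1 a2 a3 a4 ε hε
  obtain ⟨p, θ1, θ2, x1, y1, x2, y2, t1, t2, o1, o2, W1, W2, c1, c2, c3, c4, l1, l2, l3, l4, den⟩ :=
    hO.fan _ _ _ _ w1.2.1 w2.2.1 a1 a2 a3 a4 ε hε
  have hB := hb G
  have hF := hm G
  have pi0 := Real.pi_pos
  let F : Set (G.WT O) :=
    {f | f.1.1.1 = p ∧ f.1.1.2 ∈ Icc θ1 θ2 ∧ f.1.2 ∈ Icc x1 x2 ×ˢ Icc y1 y2}
  have lift : ∀ θ ∈ Icc θ1 θ2, (p, θ) ∈ G.EW O → ∃ f ∈ F, f.1.1 = (p, θ) := by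
    rintro θ hθ ⟨x, y, o, W⟩
    obtain ⟨j, j1, j2⟩ := red x1 x
    obtain ⟨T, a, b⟩ := FCs.exT (hg _ G.free) j
    have o' := hO.inv T a _ _ o
    rw [b, b] at o'
    have W' := hB.ws _ _ _ j W
    have b1 : x + j * (2 * π) ≤ x2 := not_lt.1 fun h =>
      noM hF t1 t2 l1 (by linarith) W1.m W2.m hθ h j2 (accM_of W'.m)
    refine ⟨⟨((p, θ), _, _), o', W'⟩, ⟨rfl, hθ, ⟨j1, b1⟩, not_lt.1 fun h => ?_,
      not_lt.1 fun h => ?_⟩, rfl⟩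
    · refine noP hF t1 t2 l3 (by linarith) W1.p W2.p hθ ?_ ?_ (accP_per (accP_of W'.p) 1)
      · have := W'.lt
        push_cast
        linarith
      · push_cast
        linarith
    · have := W'.lt2
      exact noP hF t1 t2 l3 (by linarith) W1.p W2.p hθ h (by linarith) (accP_of W'.p)
  have k1 : (⟨((p, θ1), x1, y1), o1, W1⟩ : G.WT O) ∈ F :=
    ⟨rfl, ⟨le_rfl, t1.le⟩, ⟨le_rfl, l1.le⟩, le_rfl, l3.le⟩
  have k2 : (⟨((p, θ2), x2, y2), o2, W2⟩ : G.WT O) ∈ F :=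
    ⟨rfl, ⟨t1.le, le_rfl⟩, ⟨l1.le, le_rfl⟩, l3.le, le_rfl⟩
  refine ⟨_, _, F, k1, k2, c1, c2, c3, c4, fun f h => ⟨h.2.2.1.1, h.2.2.1.2, h.2.2.2.1, h.2.2.2.2⟩,
    fun m e m1 m2 e0 he => ?_⟩
  let A : Set ℝ := {θ | ∃ f ∈ F, f.1.1.2 = θ ∧ f.1.2.2 < m}
  have A1 : θ1 ∈ A := ⟨_, k1, rfl, m1⟩
  have Ab : ∀ θ ∈ A, θ ≤ θ2 := by
    rintro _ ⟨f, a, rfl, -⟩
    exact a.2.1.2
  have Abd : BddAbove A := ⟨θ2, Ab⟩
  have hs : sSup A ∈ Icc θ1 θ2 := ⟨le_csSup Abd A1, csSup_le ⟨_, A1⟩ Ab⟩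
  obtain ⟨s, hsA⟩ : ∃ s, s = sSup A := ⟨_, rfl⟩
  rw [← hsA] at hs
  have nb : ∀ U ∈ 𝓝 ((p, s) : N), ∃ η, 0 < η ∧ ∀ θ, |θ - s| < η → (p, θ) ∈ U := fun U hU => by
    have : ContinuousAt (fun θ : ℝ => ((p, θ) : N)) s := by fun_prop
    obtain ⟨η, a, b⟩ := Metric.mem_nhds_iff.1 (this hU)
    exact ⟨η, a, fun θ h => b h⟩
  have ex : ∀ f ∈ F, f.1.1 = (p, f.1.1.2) := fun f h => Prod.ext h.1 rfl
  have Tm : ∀ U ∈ 𝓝 ((p, s) : N), ∃ f ∈ {f ∈ F | f.1.2.2 < m ∧ f.1.1.2 ≤ s}, f.1.1 ∈ U := by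
    intro U hU
    obtain ⟨η, a, b⟩ := nb U hU
    obtain ⟨_, ⟨f, c, rfl, d⟩, k⟩ := exists_lt_of_lt_csSup ⟨_, A1⟩
      ((sub_lt_self s a).trans_eq hsA)
    have : f.1.1.2 ≤ s := (le_csSup Abd ⟨f, c, rfl, d⟩).trans_eq hsA.symm
    exact ⟨f, ⟨c, d, this⟩, ex f c ▸ b _ (abs_lt.2 ⟨by linarith, by linarith⟩)⟩
  have Tp : ∀ U ∈ 𝓝 ((p, s) : N), ∃ f ∈ {f ∈ F | m < f.1.2.2 ∧ s ≤ f.1.1.2}, f.1.1 ∈ U := by
    intro U hU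
    rcases hs.2.eq_or_lt with h | h
    · refine ⟨_, ⟨k2, m2, h.le⟩, ?_⟩
      have := mem_of_mem_nhds hU
      rw [h] at this
      exact this
    obtain ⟨η, a, b⟩ := nb U hU
    obtain ⟨θ, ⟨c, d⟩, k⟩ := den s (min (s + η) θ2) hs.1 (lt_min (by linarith) h) (min_le_right _ _)
    rw [lt_min_iff] at d
    obtain ⟨f, f1, f2⟩ := lift θ ⟨hs.1.trans c.le, d.2.le⟩ k
    have f3 : f.1.1.2 = θ := by rw [f2]
    refine ⟨f, ⟨f1, lt_of_le_of_ne (not_lt.1 fun q => ?_) fun q => ?_, f3 ▸ c.le⟩,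
      f2 ▸ b _ (abs_lt.2 ⟨by linarith, by linarith [d.1]⟩)⟩
    · exact absurd ((le_csSup Abd ⟨f, f1, f3, q⟩).trans_eq hsA.symm) (not_le.2 c)
    · have := he f f1
      rw [← q, sub_self, abs_zero] at this
      linarith
  obtain ⟨⟨ξ1, a⟩, ⟨X1, Y1⟩, V1⟩ := clus _ _ Tm fun f h => h.1.2.2
  obtain ⟨⟨ξ2, b⟩, ⟨X2, Y2⟩, V2⟩ := clus _ _ Tp fun f h => h.1.2.2
  obtain ⟨l0, hl0⟩ := hB.accP (p, s)
  obtain ⟨j, j1, j2⟩ := red y1 l0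
  have ac := accP_per hl0 j
  set om := l0 + j * (2 * π)
  have om2 : om ≤ y2 := not_lt.1 fun h => noP hF t1 t2 l3 (by linarith) W1.p W2.p hs h j2 ac
  have btw : ∀ f ∈ {f ∈ F | f.1.2.2 < m ∧ f.1.1.2 ≤ s}, ∀ g ∈ {f ∈ F | m < f.1.2.2 ∧ s ≤ f.1.1.2},
      f.1.2.2 ≤ om ∧ om ≤ g.1.2.2 := by
    rintro f ⟨f1, f2, f3⟩ g ⟨g1, g2, g3⟩
    have Wf := f.2.2
    have Wg := g.2.2
    rw [ex f f1] at Wf
    rw [ex g g1] at Wg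
    have fy := f1.2.2.2
    have gy := g1.2.2.2
    have b1 : g.1.2.2 < f.1.2.2 + 2 * π := by linarith [fy.1, gy.2]
    rcases (f3.trans g3).eq_or_lt with h | h
    · rw [h] at Wf
      obtain ⟨k, -, q⟩ := hB.wu _ _ _ _ _ Wf Wg
      have q1 : (0 : ℝ) < k := by nlinarith
      have q2 : (k : ℝ) < 1 := by nlinarith
      have q3 : 0 < k := by exact_mod_cast q1
      have q4 : k < 1 := by exact_mod_cast q2
      omega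
    have b2 : g.1.1.2 < f.1.1.2 + 2 * π := by linarith [f1.2.1.1, g1.2.1.2]
    refine ⟨not_lt.1 fun q => ?_, not_lt.1 fun q => ?_⟩
    · refine noP hF h b2 (f2.trans g2) b1 Wf.p Wg.p ⟨f3, g3⟩ ?_ ?_ (accP_per ac 1)
      · push_cast
        linarith [gy.2]
      · push_cast
        linarith
    · exact noP hF h b2 (f2.trans g2) b1 Wf.p Wg.p ⟨f3, g3⟩ q (by linarith [fy.1]) ac
  obtain ⟨f0, hf0, -⟩ := Tm _ univ_mem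
  obtain ⟨g0, hg0, -⟩ := Tp _ univ_mem
  have nr : ∀ δ, 0 < δ → ∃ U ∈ 𝓝 ((p, s) : N), ∀ ξ ∈ U, G.Nr ξ om δ := fun δ d => by
    obtain ⟨t, ht⟩ := (ac δ d).exists
    have : Continuous fun ξ : N => ‖cay (G.o ξ t) - ce om‖ :=
      ((hd.emb.continuous.comp (continuous_fst.comp (G.continuous_φ.comp
        (continuous_const.prodMk continuous_id)))).sub continuous_const).norm
    exact ⟨_, (isOpen_lt this continuous_const).mem_nhds ht, fun ξ h => ⟨t, h⟩⟩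
  refine ⟨a, b, om, ξ1, ξ2, ?_, ?_, ?_, ?_, fun δ d => ?_, fun δ d => ?_, fun q1 q2 => ?_⟩
  · obtain ⟨f, f1, -, -, f2⟩ := V1 _ univ_mem e e0
    have := he f f1.1
    rw [abs_of_neg (sub_neg.2 f1.2.1)] at this
    linarith [(abs_lt.1 f2).1]
  · obtain ⟨f, f1, -, -, f2⟩ := V2 _ univ_mem e e0
    have := he f f1.1
    rw [abs_of_pos (sub_pos.2 f1.2.1)] at this
    linarith [(abs_lt.1 f2).2]
  · refine le_of_forall_pos_le_add fun δ d => ?_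
    obtain ⟨f, f1, -, -, f2⟩ := V1 _ univ_mem δ d
    linarith [(abs_lt.1 f2).1, (btw f f1 g0 hg0).1]
  · refine le_of_forall_pos_le_add fun δ d => ?_
    obtain ⟨f, f1, -, -, f2⟩ := V2 _ univ_mem δ d
    linarith [(abs_lt.1 f2).2, (btw f0 hf0 f f1).2]
  · obtain ⟨U, u1, u2⟩ := nr δ d
    obtain ⟨f, f1, f2, f3, f4⟩ := V1 U u1 δ d
    exact ⟨f, f1.1, f3, f4, (btw f f1 g0 hg0).1, u2 _ f2⟩
  · obtain ⟨U, u1, u2⟩ := nr δ d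
    obtain ⟨f, f1, f2, f3, f4⟩ := V2 U u1 δ d
    exact ⟨f, f1.1, f3, f4, (btw f0 hf0 f f1).2, u2 _ f2⟩
  · refine hdd G (p, s) a b om ξ1 ξ2 q1 q2 (by linarith [X1.1, Y2.2]) (by linarith [X1.2, Y1.1])
      (by linarith [X2.1, Y2.2]) (by linarith [X2.2, Y1.1]) ac
      (fun l r1 r2 => noM hF t1 t2 l1 (by linarith) W1.m W2.m hs (by linarith [Y1.1])
        (by linarith [Y2.2])) (fun U hU δ d => ?_) fun U hU δ d => ?_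
    · obtain ⟨f, -, f2, f3, f4⟩ := V1 U hU δ d
      exact ⟨_, f2, _, _, f.2.2, f3, f4⟩
    · obtain ⟨f, -, f2, f3, f4⟩ := V2 U hU δ d
      exact ⟨_, f2, _, _, f.2.2, f3, f4⟩

end

end Pool.Agent.Lib.MP_21f752_an
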