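import Pool.Agent.Lib.MP_21f752_an.FG

/-! Rays of a fan stay between the outer rays. -/

namespace Pool.Agent.Lib.MP_21f752_an

open UpperHalfPlane Set Filter Topology Metric
open scoped Real

noncomputable section

namespace FFm

/-- the punctured half-plane is connected -/
lemma punct (p : ℍ) : IsPreconnected ({p}ᶜ : Set ℍ) := by
  have hc : Continuous fun w : ℂ => (⟨Hc w, Hc_pos w⟩ : ℍ) :=
    isEmbedding_coe.continuous_iff.2 Hc_cd.continuous
  have h := (isConnected_compl_singleton_of_one_lt_rank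
    (E := ℂ) (by simp) (Hi p)).isPreconnected.image _ hc.continuousOn
  have e : (fun w : ℂ => (⟨Hc w, Hc_pos w⟩ : ℍ)) '' ({Hi p}ᶜ : Set ℂ) = {p}ᶜ := by
    ext z
    constructor
    · rintro ⟨w, hw, rfl⟩ hz
      apply hw
      have hz : Hc w = p := congrArg (fun z : ℍ => (z : ℂ)) hz
      refine Complex.ext ?_ ?_
      · rw [Hi_re, ← hz, Hc_re]
      · rw [Hi_im, ← hz, Hc_im, Real.log_exp]
    · intro hz
      refine ⟨Hi z, fun h => hz ?_, UpperHalfPlane.ext (Hc_Hi z.im_pos)⟩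
      have h : Hi z = Hi p := h
      refine UpperHalfPlane.ext ?_
      rw [← Hc_Hi z.im_pos, h, Hc_Hi p.im_pos]
  rwa [e] at h

/-- the index is locally constant off the line -/
lemma loc {Θ : ℝ → ℍ} {x y : ℝ} {n : ℍ → ℤ} (h : Idx Θ x y n) {z : ℍ} (hz : z ∉ range Θ) :
    ∀ᶠ w in 𝓝 z, w ∉ range Θ ∧ n w = n z := by
  have h1 : (range Θ)ᶜ ∈ 𝓝 z := h.cl.isOpen_compl.mem_nhds hz
  filter_upwards [connectedComponentIn_mem_nhds h1] with w hw
  have hs := connectedComponentIn_subset (range Θ)ᶜ z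
  exact ⟨hs hw, h.lc _ isPreconnected_connectedComponentIn
    (disjoint_left.2 fun a ha => hs ha) w hw z (mem_connectedComponentIn hz)⟩

/-- two local values along the line, off one point, are the only values -/
lemma two {Θ : ℝ → ℍ} {x y : ℝ} {n : ℍ → ℤ} (hD : Disc) (hl : Line Θ x y) (h : Idx Θ x y n)
    {p : ℍ} {c : ℤ} (hp : p ∈ range Θ) (h0 : ∃ t, Θ t ≠ p)
    (hc : ∀ t, Θ t ≠ p → ∀ᶠ z in 𝓝 (Θ t), z ∉ range Θ → n z = c ∨ n z = c + 1) : c = -1 := by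
  have key : ∀ z, z ∉ range Θ → n z = c ∨ n z = c + 1 := by
    intro z hz
    by_contra hn
    have oA : IsOpen {z | ∀ᶠ w in 𝓝 z, w ∉ range Θ → n w = c ∨ n w = c + 1} :=
      isOpen_setOfPred_eventually_nhds
    have oB : IsOpen {z | z ∉ range Θ ∧ ¬(n z = c ∨ n z = c + 1)} :=
      isOpen_iff_mem_nhds.2 fun z hz => (loc h hz.1).mono fun w hw =>
        ⟨hw.1, by rw [hw.2]; exact hz.2⟩
    obtain ⟨t, ht⟩ := h0
    obtain ⟨w, -, wa, wb⟩ := punct p _ _ oA oB (fun w hw => by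
      by_cases a : w ∈ range Θ
      · obtain ⟨s, rfl⟩ := a
        exact Or.inl (hc s hw)
      · by_cases b : n w = c ∨ n w = c + 1
        · exact Or.inl ((loc h a).mono fun u hu _ => by rw [hu.2]; exact b)
        · exact Or.inr ⟨a, b⟩) ⟨Θ t, ht, hc t ht⟩ ⟨z, fun e => hz (e ▸ hp), hz, hn⟩
    exact wb.2 (wa.self_of_nhds wb.1)
  obtain ⟨ε, e0, h1⟩ := h.rt ((x + y) / 2) (by linarith [hl.lt]) (by linarith [hl.lt])
  obtain ⟨z, hz⟩ := hD.ne _ ε e0
  obtain ⟨ε', e0', h2⟩ := h.lf ((y + (x + 2 * π)) / 2) (by linarith [hl.lt2]) (by linarith [hl.lt2])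
  obtain ⟨w, hw⟩ := hD.ne _ ε' e0'
  have a := key z (h1 z hz).1
  have b := key w (h2 w hw).1
  rw [(h1 z hz).2] at a
  rw [(h2 w hw).2] at b
  omega

variable {G : Geo}

lemma o_zero (ξ : N) : G.o ξ 0 = ξ.1 := by simp [Geo.o, Sys.φ_zero]

/-- two rays from one point meet again only if they are equal -/
lemma meet (hB : G.Base) {p : ℍ} {θ θ' s t : ℝ} (h : 0 < s * t)
    (e : G.o (p, θ) s = G.o (p, θ') t) : ∃ k : ℤ, θ = θ' + k * (2 * π) := by
  rcases lt_or_gt_of_ne (show s ≠ 0 by rintro rfl; simp at h) with hs | hs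
  · have ht : t < 0 := by nlinarith
    obtain ⟨k, hk⟩ := hB.f5 (p, θ) (p, θ') s 0 t 0 hs ht e (by rw [o_zero, o_zero])
    have h2 : (p, θ) = rot (k * (2 * π)) (G.φ (-s + t) (p, θ')) := by
      rw [G.φ_add, ← G.φ_rot, ← hk, ← G.φ_add, neg_add_cancel, G.φ_zero]
    have h3 : -s + t = 0 := hB.inj (p, θ') (by
      rw [o_zero]
      exact (congrArg Prod.fst h2).symm)
    rw [h3, G.φ_zero] at h2
    exact ⟨k, congrArg Prod.snd h2⟩
  · have ht : 0 < t := by nlinarith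
    obtain ⟨k, hk⟩ := hB.f5 (p, θ) (p, θ') 0 s 0 t hs ht (by rw [o_zero, o_zero]) e
    rw [G.φ_zero, G.φ_zero] at hk
    exact ⟨k, congrArg Prod.snd hk⟩

lemma nomeet (hB : G.Base) {p : ℍ} {θ θ' s t : ℝ} (h : 0 < s * t) (h1 : θ < θ')
    (h2 : θ' < θ + 2 * π) : G.o (p, θ) s ≠ G.o (p, θ') t := by
  intro e
  obtain ⟨k, hk⟩ := meet hB h e
  have hπ := Real.pi_pos
  rcases le_or_gt 0 k with c | c
  · have : (0 : ℝ) ≤ k := by exact_mod_cast c
    nlinarith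
  · have : (k : ℝ) ≤ -1 := by exact_mod_cast Int.le_sub_one_of_lt c
    nlinarith

lemma cont_o (G : Geo) (p : ℍ) : Continuous fun x : ℝ × ℝ => G.o (p, x.1) x.2 :=
  continuous_fst.comp (G.continuous_φ.comp
    (continuous_snd.prodMk (continuous_const.prodMk continuous_fst)))

/-- the broken line made of two rays -/
def Th (G : Geo) (p : ℍ) (θ1 θ2 σ t : ℝ) : ℍ :=
  if t ≤ 0 then G.o (p, θ1) (-σ * t) else G.o (p, θ2) (σ * t)

lemma Th_neg {p : ℍ} {θ1 θ2 σ t : ℝ} (h : t ≤ 0) : Th G p θ1 θ2 σ t = G.o (p, θ1) (-σ * t) :=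
  if_pos h

lemma Th_pos {p : ℍ} {θ1 θ2 σ t : ℝ} (h : 0 ≤ t) : Th G p θ1 θ2 σ t = G.o (p, θ2) (σ * t) := by
  rcases h.eq_or_lt with rfl | h
  · rw [Th_neg le_rfl, mul_zero, mul_zero, o_zero, o_zero]
  · exact if_neg (not_le.2 h)

lemma core (hD : Disc) (hI : IdxSt) (hB : G.Base) {p : ℍ} {θ1 θ2 a b σ : ℝ} (hσ : σ * σ = 1)
    (h1 : θ1 < θ2) (h2 : θ2 < θ1 + 2 * π) (h3 : a < b) (h4 : b < a + 2 * π)
    (ha : Tendsto (fun t => cay (G.o (p, θ1) (σ * t))) atTop (𝓝 (ce a)))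
    (hb : Tendsto (fun t => cay (G.o (p, θ2) (σ * t))) atTop (𝓝 (ce b))) {l : ℝ} (l1 : b < l)
    (l2 : l < a + 2 * π) :
    ∃ ε, 0 < ε ∧ ∀ θ ∈ Icc θ1 θ2, ∀ t, 0 ≤ t → G.o (p, θ) (σ * t) ∉ Bl l ε := by
  have σ0 : σ ≠ 0 := by rintro rfl; simp at hσ
  have sq : ∀ s t : ℝ, 0 < s → 0 < t → 0 < σ * s * (σ * t) := fun s t hs ht => by
    have : σ * s * (σ * t) = σ * σ * (s * t) := by ring
    rw [this, hσ, one_mul]
    exact mul_pos hs ht
  have hl : Line (Th G p θ1 θ2 σ) a b := by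
    refine ⟨?_, ?_, ?_, h3, h4⟩
    · refine Continuous.if_le ((cont_o G p).comp (continuous_const.prodMk
        (continuous_const.mul continuous_id))) ((cont_o G p).comp (continuous_const.prodMk
        (continuous_const.mul continuous_id))) continuous_id continuous_const ?_
      rintro t rfl
      simp [o_zero]
    · refine (ha.comp tendsto_neg_atBot_atTop).congr' ?_
      filter_upwards [eventually_le_atBot 0] with t ht
      simp [Th_neg ht]
    · refine hb.congr' ?_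
      filter_upwards [eventually_ge_atTop 0] with t ht
      rw [Th_pos ht]
  obtain ⟨n, hn⟩ := hI _ _ _ hl
  have T0 : Th G p θ1 θ2 σ 0 = p := by rw [Th_neg le_rfl, mul_zero, o_zero]
  have np : ∀ θ t, t ≠ 0 → G.o (p, θ) t ≠ p := fun θ t ht e =>
    ht (hB.inj (p, θ) (by rw [e, o_zero]))
  have tri : ∀ t, (∃ s, 0 < s ∧ t = -s ∧ Th G p θ1 θ2 σ t = G.o (p, θ1) (σ * s)) ∨ t = 0 ∨
      (0 < t ∧ Th G p θ1 θ2 σ t = G.o (p, θ2) (σ * t)) := fun t => by
    rcases lt_trichotomy t 0 with c | c | c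
    · exact Or.inl ⟨-t, by linarith, by ring, by rw [Th_neg c.le]; congr 1; ring⟩
    · exact Or.inr (Or.inl c)
    · exact Or.inr (Or.inr ⟨c, Th_pos c.le⟩)
  have inj : Function.Injective (Th G p θ1 θ2 σ) := by
    intro s t e
    rcases tri s with ⟨s', a1, rfl, a2⟩ | rfl | ⟨a1, a2⟩ <;>
      rcases tri t with ⟨t', b1, rfl, b2⟩ | rfl | ⟨b1, b2⟩
    · rw [a2, b2] at e
      rw [mul_left_cancel₀ σ0 (hB.inj _ e)]
    · rw [a2, T0] at e
      exact absurd e (np _ _ (mul_ne_zero σ0 a1.ne'))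
    · rw [a2, b2] at e
      exact absurd e (nomeet hB (sq _ _ a1 b1) h1 h2)
    · rw [b2, T0] at e
      exact absurd e.symm (np _ _ (mul_ne_zero σ0 b1.ne'))
    · rfl
    · rw [b2, T0] at e
      exact absurd e.symm (np _ _ (mul_ne_zero σ0 b1.ne'))
    · rw [a2, b2] at e
      exact absurd e.symm (nomeet hB (sq _ _ b1 a1) h1 h2)
    · rw [a2, T0] at e
      exact absurd e (np _ _ (mul_ne_zero σ0 a1.ne'))
    · rw [a2, b2] at e
      exact mul_left_cancel₀ σ0 (hB.inj _ e)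
  have off : ∀ θ ∈ Ioo θ1 θ2, ∀ t, 0 < t → G.o (p, θ) (σ * t) ∉ range (Th G p θ1 θ2 σ) := by
    rintro θ hθ t ht ⟨s, e⟩
    rcases tri s with ⟨s', a1, rfl, a2⟩ | rfl | ⟨a1, a2⟩
    · exact nomeet hB (sq _ _ a1 ht) hθ.1 (by linarith [hθ.2]) (a2.symm.trans e)
    · exact np _ _ (mul_ne_zero σ0 ht.ne') (e.symm.trans T0)
    · exact nomeet hB (sq _ _ ht a1) hθ.2 (by linarith [hθ.1]) (e.symm.trans a2)
  obtain ⟨c, hc⟩ : ∃ c, ∀ θ ∈ Ioo θ1 θ2, ∀ t, 0 < t → n (G.o (p, θ) (σ * t)) = c := by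
    have hW : IsPreconnected ((fun x : ℝ × ℝ => G.o (p, x.1) (σ * x.2)) '' (Ioo θ1 θ2 ×ˢ Ioi 0)) :=
      (isPreconnected_Ioo.prod isPreconnected_Ioi).image _ ((cont_o G p).comp
        (continuous_fst.prodMk (continuous_const.mul continuous_snd))).continuousOn
    refine ⟨n (G.o (p, (θ1 + θ2) / 2) (σ * 1)), fun θ hθ t ht => hn.lc _ hW
      (disjoint_left.2 ?_) _ ⟨(θ, t), ⟨hθ, ht⟩, rfl⟩ _
      ⟨((θ1 + θ2) / 2, 1), ⟨⟨by linarith, by linarith⟩, mem_Ioi.2 one_pos⟩, rfl⟩⟩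
    rintro _ ⟨x, hx, rfl⟩
    exact off _ hx.1 _ hx.2
  have side : ∀ (θ e t0 : ℝ), e * e = 1 → 0 < e * t0 → (∀ s, 0 < s → s < θ2 - θ1 →
      θ - e * s ∈ Ioo θ1 θ2) → (∀ᶠ t in 𝓝 t0, Th G p θ1 θ2 σ t = G.o (p, θ) (σ * (e * t))) →
      ∀ᶠ z in 𝓝 (Th G p θ1 θ2 σ t0), z ∉ range (Th G p θ1 θ2 σ) → n z = c ∨ n z = c + 1 := by
    intro θ e t0 he ht hs hev
    have e0 : e ≠ 0 := by rintro rfl; simp at he
    have hv : ∀ t, HasDerivAt (fun s => (G.o (p, θ) (σ * (e * s)) : ℂ))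
        ((σ * e : ℝ) • G.V (G.φ (σ * (e * t)) (p, θ))) t := fun t => by
      have := (G.hd_z (p, θ) (σ * (e * t))).scomp t
        (((hasDerivAt_id t).const_mul e).const_mul σ)
      simpa [Function.comp_def] using this
    obtain ⟨m, hm, hj⟩ := hn.jump t0 (fun t => (σ * e : ℝ) • G.V (G.φ (σ * (e * t)) (p, θ)))
      (smul_ne_zero (mul_ne_zero σ0 e0) (G.V_ne _))
      ((G.continuous_V.comp (G.continuous_φ.comp ((continuous_const.mul (continuous_const.mul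
        continuous_id)).prodMk continuous_const))).const_smul (σ * e : ℝ)).continuousAt
      (hev.eventually_nhds.mono fun t ht => (hv t).congr_of_eventuallyEq
        (ht.mono fun s hs => congrArg (fun z : ℍ => (z : ℂ)) hs)) (fun t e => inj e)
    obtain ⟨q, hq, hd⟩ := G.tw (p, θ) (σ * (e * t0)) (mul_ne_zero σ0 ht.ne')
    have hd' : HasDerivAt (fun s : ℝ => (G.o (p, θ - e * s) (σ * (e * t0)) : ℂ))
        ((-e) • (q * G.V (G.φ (σ * (e * t0)) (p, θ)))) 0 := by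
      have h5 : HasDerivAt (fun s : ℝ => θ - e * s) (-e) 0 := by
        simpa using ((hasDerivAt_id (0 : ℝ)).const_mul e).const_sub θ
      have := HasDerivAt.scomp (0 : ℝ) (g₁ := fun θ => ((G.φ (σ * (e * t0)) (p, θ)).1 : ℂ))
        (h := fun s : ℝ => θ - e * s) (by simpa using hd) h5
      exact this
    have hneg : (((-e) • (q * G.V (G.φ (σ * (e * t0)) (p, θ)))) /
        ((σ * e : ℝ) • G.V (G.φ (σ * (e * t0)) (p, θ)))).im < 0 := by
      have v0 := G.V_ne (G.φ (σ * (e * t0)) (p, θ))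
      generalize G.V (G.φ (σ * (e * t0)) (p, θ)) = v at v0
      have s0 : (σ : ℂ) ≠ 0 := by exact_mod_cast σ0
      have e1 : (e : ℂ) ≠ 0 := by exact_mod_cast e0
      have s1 : (σ : ℂ) * σ = 1 := by exact_mod_cast hσ
      have : ((-e) • (q * v)) / ((σ * e : ℝ) • v) = ((-σ : ℝ) : ℂ) * q := by
        simp only [Complex.real_smul]
        push_cast
        field_simp
        linear_combination q * s1
      rw [this, Complex.im_ofReal_mul]
      nlinarith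
    have := ((hj (fun s => G.o (p, θ - e * s) (σ * (e * t0))) _
      (by rw [hev.self_of_nhds]; simp) hd').2 hneg).and (Ioo_mem_nhdsGT (sub_pos.2 h1))
    obtain ⟨s, ⟨-, a1⟩, a2⟩ := this.exists
    rw [hc _ (hs s a2.1 a2.2) _ ht] at a1
    rw [a1]
    exact hm
  have c1 : c = -1 := by
    refine two hD hl hn ⟨0, T0⟩ ⟨1, fun e => one_ne_zero (inj (e.trans T0.symm))⟩ fun t ht => ?_
    rcases lt_trichotomy t 0 with h | rfl | h
    · refine side θ1 (-1) t (by ring) (by linarith) (fun s a b => ⟨by linarith, by linarith⟩) ?_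
      filter_upwards [gt_mem_nhds h] with s hs
      rw [Th_neg (le_of_lt hs)]
      congr 1
      ring
    · exact absurd T0 ht
    · refine side θ2 1 t (by ring) (by linarith) (fun s a b => ⟨by linarith, by linarith⟩) ?_
      filter_upwards [lt_mem_nhds h] with s hs
      rw [Th_pos (le_of_lt hs), one_mul]
  obtain ⟨ε, e0, hε⟩ := hn.lf l l1 l2
  refine ⟨ε, e0, fun θ hθ t ht hz => ?_⟩
  obtain ⟨z1, z2⟩ := hε _ hz
  rcases ht.eq_or_lt with rfl | ht
  · exact z1 ⟨0, by rw [T0, mul_zero, o_zero]⟩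
  rcases hθ.1.eq_or_lt with rfl | a1
  · exact z1 ⟨-t, by rw [Th_neg (by linarith)]; congr 1; ring⟩
  rcases hθ.2.eq_or_lt with rfl | a2
  · exact z1 ⟨t, Th_pos ht.le⟩
  rw [hc θ ⟨a1, a2⟩ t ht, c1] at z2
  omega

end FFm

theorem fm (hD : Disc) (hI : IdxSt) (hB : BaseSt) : FmSt := by
  intro G p θ1 θ2 a b h1 h2 h3 h4
  constructor
  · intro ha hb l l1 l2
    simpa using FFm.core (σ := 1) hD hI (hB G) (by ring) h1 h2 h3 h4 (by simpa [Geo.EndP] using ha)
      (by simpa [Geo.EndP] using hb) l1 l2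
  · intro ha hb l l1 l2
    obtain ⟨ε, e0, h⟩ := FFm.core (σ := -1) hD hI (hB G) (by ring) h1 h2 h3 h4
      (by simpa [Function.comp_def] using ha.comp tendsto_neg_atTop_atBot)
      (by simpa [Function.comp_def] using hb.comp tendsto_neg_atTop_atBot) l1 l2
    refine ⟨ε, e0, fun θ hθ t ht => ?_⟩
    simpa using h θ hθ (-t) (by linarith)

end

end Pool.Agent.Lib.MP_21f752_an
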