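import Mathlib

/-! The pointwise ergodic theorem for bounded functions. -/

namespace Pool.Agent.Lib.MP_21f752_an

open Set Filter Topology MeasureTheory

noncomputable section

namespace FErg

variable {X : Type}

/-- ergodic sums -/
def sm (T : X → X) (f : X → ℝ) (n : ℕ) (x : X) : ℝ := ∑ j ∈ Finset.range n, f (T^[j] x)

/-- upper limit of the ergodic averages -/
def ls (T : X → X) (f : X → ℝ) (x : X) : ℝ := limsup (fun n : ℕ => sm T f n x / n) atTop

def mx (T : X → X) (f : X → ℝ) : ℕ → X → ℝ
  | 0 => fun _ => 0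
  | n + 1 => fun x => max 0 (f x + mx T f n (T x))

variable {T : X → X} {f : X → ℝ} {C : ℝ}

lemma sm_succ (n : ℕ) (x : X) : sm T f (n + 1) x = f x + sm T f n (T x) := by
  simp only [sm]
  rw [Finset.sum_range_succ', add_comm]
  rfl

lemma sm_succ' (n : ℕ) (x : X) : sm T f (n + 1) x = sm T f n x + f (T^[n] x) :=
  Finset.sum_range_succ _ _

lemma abs_sm (hC : ∀ x, |f x| ≤ C) (n : ℕ) (x : X) : |sm T f n x| ≤ n * C := by
  refine (Finset.abs_sum_le_sum_abs _ _).trans ?_
  refine (Finset.sum_le_sum fun j _ => hC _).trans ?_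
  simp

lemma abs_av (hC : ∀ x, |f x| ≤ C) (n : ℕ) (x : X) : |sm T f n x / n| ≤ C := by
  rcases Nat.eq_zero_or_pos n with rfl | hn
  · simpa using (abs_nonneg _).trans (hC x)
  · have : (0 : ℝ) < n := by exact_mod_cast hn
    rw [abs_div, abs_of_pos this, div_le_iff₀ this, mul_comm]
    exact abs_sm hC n x

lemma mx_nn (n : ℕ) (x : X) : 0 ≤ mx T f n x := by
  cases n
  · exact le_rfl
  · exact le_max_left _ _

lemma mx_mono (n : ℕ) : ∀ x, mx T f n x ≤ mx T f (n + 1) x := by
  induction n with
  | zero => exact fun x => mx_nn 1 x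
  | succ n ih => exact fun x => max_le_max le_rfl (by linarith [ih (T x)])

lemma mx_mono' (x : X) : Monotone fun n => mx T f n x :=
  monotone_nat_of_le_succ fun n => mx_mono n x

lemma sm_le_mx (n : ℕ) : ∀ x, sm T f n x ≤ mx T f n x := by
  induction n with
  | zero => exact fun x => by simp [sm, mx]
  | succ n ih =>
    intro x
    rw [sm_succ]
    exact le_trans (by linarith [ih (T x)]) (le_max_right _ _)

lemma mx_le (hC : ∀ x, |f x| ≤ C) (n : ℕ) : ∀ x, mx T f n x ≤ n * C := by
  induction n with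
  | zero => exact fun x => by simp [mx]
  | succ n ih =>
    intro x
    have h0 := (abs_nonneg _).trans (hC x)
    refine max_le (by positivity) ?_
    have := ih (T x)
    have := (le_abs_self _).trans (hC x)
    push_cast
    linarith

lemma bd_above {u : ℕ → ℝ} (hu : ∀ n, |u n| ≤ C) : IsBoundedUnder (· ≤ ·) atTop u :=
  isBoundedUnder_of ⟨C, fun n => (le_abs_self _).trans (hu n)⟩

lemma bd_below {u : ℕ → ℝ} (hu : ∀ n, |u n| ≤ C) : IsBoundedUnder (· ≥ ·) atTop u :=
  isBoundedUnder_of ⟨-C, fun n => (abs_le.1 (hu n)).1⟩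

lemma ls_le {u v : ℕ → ℝ} (hu : ∀ n, |u n| ≤ C) (hv : ∀ n, |v n| ≤ C)
    (h : Tendsto (fun n => u n - v n) atTop (𝓝 0)) : limsup u atTop ≤ limsup v atTop := by
  refine le_of_forall_pos_le_add fun ε hε => ?_
  refine limsup_le_of_le (bd_below hu).isCoboundedUnder_le ?_
  filter_upwards [eventually_lt_of_limsup_lt (lt_add_of_pos_right (limsup v atTop) (half_pos hε))
    (bd_above hv), h.eventually (gt_mem_nhds (half_pos hε))] with n h1 h2
  linarith

lemma ls_eq {u v : ℕ → ℝ} (hu : ∀ n, |u n| ≤ C) (hv : ∀ n, |v n| ≤ C) {D : ℝ}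
    (h : ∀ n : ℕ, |u n - v n| ≤ D / n) : limsup u atTop = limsup v atTop := by
  have h0 : Tendsto (fun n => u n - v n) atTop (𝓝 0) :=
    squeeze_zero_norm h (tendsto_const_div_atTop_nhds_zero_nat D)
  refine le_antisymm (ls_le hu hv h0) (ls_le hv hu ?_)
  simpa using h0.neg

lemma ls_inv (hC : ∀ x, |f x| ≤ C) (x : X) : ls T f (T x) = ls T f x := by
  refine ls_eq (fun n => abs_av hC n _) (fun n => abs_av hC n _) (D := 2 * C) fun n => ?_
  rw [← sub_div, abs_div, Nat.abs_cast]
  refine div_le_div_of_nonneg_right ?_ (Nat.cast_nonneg n)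
  have h1 := sm_succ (T := T) (f := f) n x
  have h2 := sm_succ' (T := T) (f := f) n x
  have h3 := abs_le.1 (hC x)
  have h4 := abs_le.1 (hC (T^[n] x))
  rw [abs_le]
  constructor <;> linarith [h3.1, h3.2, h4.1, h4.2]

lemma abs_ls (hC : ∀ x, |f x| ≤ C) (x : X) : |ls T f x| ≤ C := by
  have hb := fun n => abs_av (T := T) hC n x
  rw [abs_le]
  constructor
  · exact le_limsup_of_frequently_le (Frequently.of_forall fun n => (abs_le.1 (hb n)).1)
      (bd_above hb)
  · exact limsup_le_of_le (bd_below hb).isCoboundedUnder_le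
      (.of_forall fun n => (abs_le.1 (hb n)).2)

lemma sm_neg (n : ℕ) (x : X) : sm T (fun y => -f y) n x = -sm T f n x := by simp [sm]

lemma ls_add_nn (hC : ∀ x, |f x| ≤ C) (x : X) : 0 ≤ ls T f x + ls T (fun y => -f y) x := by
  refine le_of_forall_pos_le_add fun ε hε => ?_
  have hC' : ∀ x, |-f x| ≤ C := fun x => by simpa using hC x
  obtain ⟨n, h1, h2⟩ := ((eventually_lt_of_limsup_lt
    (lt_add_of_pos_right (ls T f x) (half_pos hε)) (bd_above fun n => abs_av hC n x)).and
    (eventually_lt_of_limsup_lt (lt_add_of_pos_right (ls T (fun y => -f y) x) (half_pos hε))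
      (bd_above fun n => abs_av hC' n x))).exists
  rw [sm_neg, neg_div] at h2
  linarith

lemma tendsto_of (hC : ∀ x, |f x| ≤ C) {x : X} (h : ls T f x + ls T (fun y => -f y) x = 0) :
    Tendsto (fun n : ℕ => sm T f n x / n) atTop (𝓝 (ls T f x)) := by
  have hC' : ∀ x, |-f x| ≤ C := fun x => by simpa using hC x
  refine tendsto_order.2 ⟨fun a ha => ?_, fun a ha =>
    eventually_lt_of_limsup_lt ha (bd_above fun n => abs_av hC n x)⟩
  filter_upwards [eventually_lt_of_limsup_lt (show ls T (fun y => -f y) x < -a by linarith)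
    (bd_above fun n => abs_av hC' n x)] with n hn
  rw [sm_neg, neg_div] at hn
  linarith

variable {m : MeasurableSpace X} {μ : Measure X}

lemma meas_sm (hT : Measurable T) (hf : Measurable f) (n : ℕ) : Measurable (sm T f n) :=
  Finset.measurable_sum _ fun j _ => hf.comp (hT.iterate j)

lemma meas_ls (hT : Measurable T) (hf : Measurable f) : Measurable (ls T f) :=
  Measurable.limsup fun n => (meas_sm hT hf n).div_const _

lemma meas_mx (hT : Measurable T) (hf : Measurable f) (n : ℕ) : Measurable (mx T f n) := by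
  induction n with
  | zero => exact measurable_const
  | succ n ih => exact measurable_const.max (hf.add (ih.comp hT))

variable [IsFiniteMeasure μ]

lemma int_of {g : X → ℝ} (hg : Measurable g) {D : ℝ} (hD : ∀ x, |g x| ≤ D) : Integrable g μ :=
  .of_bound hg.aestronglyMeasurable D (.of_forall hD)

/-- the maximal ergodic lemma -/
theorem garsia (hT : MeasurePreserving T μ μ) (hf : Measurable f) (hC : ∀ x, |f x| ≤ C)
    (h : ∀ᵐ x ∂μ, ∃ n, 0 < sm T f n x) : 0 ≤ ∫ x, f x ∂μ := by
  have hm := meas_mx hT.measurable hf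
  have hE : ∀ n, MeasurableSet {x | 0 < mx T f (n + 1) x} := fun n =>
    measurableSet_lt measurable_const (hm _)
  have hb : ∀ n x, |{x | 0 < mx T f (n + 1) x}.indicator f x| ≤ C := fun n x =>
    (norm_indicator_le_norm_self f x).trans (hC x)
  have hlim : Tendsto (fun n => ∫ x, {x | 0 < mx T f (n + 1) x}.indicator f x ∂μ) atTop
      (𝓝 (∫ x, f x ∂μ)) := by
    refine tendsto_integral_of_dominated_convergence (fun _ => C)
      (fun n => (hf.indicator (hE n)).aestronglyMeasurable) (integrable_const C)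
      (fun n => .of_forall (hb n)) ?_
    filter_upwards [h] with x ⟨k, hk⟩
    refine tendsto_const_nhds.congr' ?_
    filter_upwards [eventually_ge_atTop k] with n hn
    exact (indicator_of_mem (show x ∈ {x | 0 < mx T f (n + 1) x} from
      (hk.trans_le (sm_le_mx k x)).trans_le (mx_mono' x (by omega : k ≤ n + 1))) f).symm
  refine ge_of_tendsto' hlim fun n => ?_
  have hb2 : ∀ x, |mx T f (n + 1) x| ≤ (n + 1 : ℕ) * C := fun x => by
    rw [abs_of_nonneg (mx_nn _ _)]
    exact mx_le hC _ x
  have i1 : Integrable (mx T f (n + 1)) μ := int_of (hm _) hb2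
  have i2 : Integrable (fun x => mx T f (n + 1) (T x)) μ :=
    int_of ((hm _).comp hT.measurable) fun x => hb2 _
  have e : ∫ x, mx T f (n + 1) (T x) ∂μ = ∫ x, mx T f (n + 1) x ∂μ := by
    rw [← integral_map hT.measurable.aemeasurable (hm _).aestronglyMeasurable, hT.map_eq]
  calc (0 : ℝ) = ∫ x, (mx T f (n + 1) x - mx T f (n + 1) (T x)) ∂μ := by
        rw [integral_sub i1 i2, e, sub_self]
    _ ≤ _ := by
        refine integral_mono (i1.sub i2) (int_of (hf.indicator (hE n)) (hb n)) fun x => ?_
        by_cases hx : 0 < mx T f (n + 1) x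
        · have h1 := mx_mono (T := T) (f := f) n (T x)
          have h2 : mx T f (n + 1) x = f x + mx T f n (T x) := by
            have hx' : 0 < max 0 (f x + mx T f n (T x)) := hx
            exact max_eq_right ((lt_max_iff.1 hx').resolve_left (lt_irrefl _)).le
          rw [indicator_of_mem (show x ∈ {x | 0 < mx T f (n + 1) x} from hx)]
          change mx T f (n + 1) x - mx T f (n + 1) (T x) ≤ f x
          linarith
        · rw [indicator_of_notMem (show x ∉ {x | 0 < mx T f (n + 1) x} from hx)]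
          have := mx_nn (T := T) (f := f) (n + 1) (T x)
          change mx T f (n + 1) x - mx T f (n + 1) (T x) ≤ 0
          linarith [not_lt.1 hx]

lemma int_ls_le (hT : MeasurePreserving T μ μ) (hf : Measurable f) (hC : ∀ x, |f x| ≤ C) :
    ∫ x, ls T f x ∂μ ≤ ∫ x, f x ∂μ := by
  have hl := meas_ls hT.measurable hf
  have i1 : Integrable f μ := int_of hf hC
  have i2 : Integrable (ls T f) μ := int_of hl (abs_ls hC)
  have key : ∀ ε : ℝ, 0 < ε → ∫ x, ls T f x ∂μ ≤ ∫ x, f x ∂μ + ε * μ.real univ := by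
    intro ε hε
    have := garsia (f := fun x => f x - ls T f x + ε) (C := C + C + ε) hT
      ((hf.sub hl).add measurable_const) (fun x => by
        have h1 := abs_le.1 (hC x)
        have h2 := abs_le.1 (abs_ls (T := T) hC x)
        rw [abs_le]
        constructor <;> linarith [h1.1, h1.2, h2.1, h2.2]) (.of_forall fun x => by
        obtain ⟨n, h1, h2⟩ := ((frequently_lt_of_lt_limsup
          (bd_below fun n => abs_av hC n x).isCoboundedUnder_le
          (show ls T f x - ε < ls T f x by linarith)).and_eventually (eventually_gt_atTop 0)).exists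
        refine ⟨n, ?_⟩
        have hn : (0 : ℝ) < n := by exact_mod_cast h2
        have e : ∀ j, ls T f (T^[j] x) = ls T f x := fun j => by
          induction j with
          | zero => rfl
          | succ j ih => rw [Function.iterate_succ_apply', ls_inv hC, ih]
        rw [lt_div_iff₀ hn] at h1
        simp only [sm, e, Finset.sum_add_distrib, Finset.sum_sub_distrib, Finset.sum_const,
          Finset.card_range, nsmul_eq_mul] at h1 ⊢
        linarith)
    rw [integral_add (f := fun x => f x - ls T f x) (i1.sub i2) (integrable_const _),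
      integral_sub i1 i2, integral_const, smul_eq_mul] at this
    linarith
  have ht : Tendsto (fun ε : ℝ => ∫ x, f x ∂μ + ε * μ.real univ) (𝓝[>] 0)
      (𝓝 (∫ x, f x ∂μ + 0 * μ.real univ)) :=
    ((continuous_const.add (continuous_id.mul continuous_const)).tendsto 0).mono_left
      nhdsWithin_le_nhds
  rw [zero_mul, add_zero] at ht
  exact ge_of_tendsto ht (eventually_nhdsWithin_of_forall key)

lemma birk0 (hT : MeasurePreserving T μ μ) (hf : Measurable f) (hC : ∀ x, |f x| ≤ C) :
    (∀ᵐ x ∂μ, Tendsto (fun n : ℕ => sm T f n x / n) atTop (𝓝 (ls T f x))) ∧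
      ∫ x, ls T f x ∂μ = ∫ x, f x ∂μ := by
  have hC' : ∀ x, |-f x| ≤ C := fun x => by simpa using hC x
  have h1 := int_ls_le hT hf hC
  have h2 := int_ls_le (f := fun y => -f y) hT hf.neg hC'
  have i1 : Integrable (ls T f) μ := int_of (meas_ls hT.measurable hf) (abs_ls hC)
  have i2 : Integrable (ls T fun y => -f y) μ := int_of (meas_ls hT.measurable hf.neg) (abs_ls hC')
  have h3 : 0 ≤ ∫ x, (ls T f x + ls T (fun y => -f y) x) ∂μ := integral_nonneg (ls_add_nn hC)
  have h4 := integral_add i1 i2
  simp only [integral_neg] at h2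
  have h5 : ∫ x, (ls T f x + ls T (fun y => -f y) x) ∂μ = 0 := by linarith
  rw [integral_eq_zero_iff_of_nonneg (ls_add_nn hC) (i1.add i2)] at h5
  refine ⟨?_, by linarith⟩
  filter_upwards [h5] with x hx
  exact tendsto_of hC hx

/-- the pointwise ergodic theorem -/
theorem birk (hT : MeasurePreserving T μ μ) (hf : Measurable f) (hC : ∀ x, |f x| ≤ C) :
    (∀ᵐ x ∂μ, Tendsto (fun n : ℕ => sm T f n x / n) atTop (𝓝 (ls T f x))) ∧
      ∀ A, MeasurableSet A → T ⁻¹' A = A → ∫ x in A, ls T f x ∂μ = ∫ x in A, f x ∂μ := by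
  refine ⟨(birk0 hT hf hC).1, fun A hA hi => ?_⟩
  have := hT.restrict_preimage hA
  rw [hi] at this
  exact (birk0 this hf hC).2

/-- forward and backward averages agree -/
theorem birk2 {U : X → X} (hT : MeasurePreserving T μ μ) (hU : MeasurePreserving U μ μ)
    (hTU : ∀ x, T (U x) = x) (hUT : ∀ x, U (T x) = x) (hf : Measurable f) (hC : ∀ x, |f x| ≤ C) :
    ∀ᵐ x ∂μ, Tendsto (fun n : ℕ => sm U f n x / n) atTop (𝓝 (ls T f x)) := by
  have m1 := meas_ls hT.measurable hf
  have m2 := meas_ls hU.measurable hf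
  have i1 : Integrable (ls T f) μ := int_of m1 (abs_ls hC)
  have i2 : Integrable (ls U f) μ := int_of m2 (abs_ls hC)
  have a1 : ∀ x, ls T f (U x) = ls T f x := fun x => by rw [← ls_inv hC (U x), hTU]
  have a2 : ∀ x, ls U f (T x) = ls U f x := fun x => by rw [← ls_inv hC (T x), hUT]
  have key : ∀ p q : X → ℝ, Measurable p → Measurable q → Integrable p μ → Integrable q μ →
      (∫ x in {x | p x < q x}, p x ∂μ = ∫ x in {x | p x < q x}, q x ∂μ) → ∀ᵐ x ∂μ, q x ≤ p x := by
    intro p q mp mq ip iq e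
    have hA : MeasurableSet {x | p x < q x} := measurableSet_lt mp mq
    have h0 : ∫ x in {x | p x < q x}, (q x - p x) ∂μ = 0 := by
      rw [integral_sub iq.integrableOn ip.integrableOn, e, sub_self]
    rw [setIntegral_eq_zero_iff_of_nonneg_ae ((ae_restrict_iff' hA).2 (.of_forall fun x hx =>
      sub_nonneg.2 (le_of_lt hx))) (iq.sub ip).integrableOn] at h0
    filter_upwards [(ae_restrict_iff' hA).1 h0] with x hx
    by_contra hc
    have h1 : p x < q x := not_le.1 hc
    have h2 : q x - p x = 0 := hx h1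
    linarith
  have k1 := key _ _ m1 m2 i1 i2 (by
    rw [(birk hT hf hC).2 _ (measurableSet_lt m1 m2) (by ext x; simp [ls_inv hC, a2]),
      (birk hU hf hC).2 _ (measurableSet_lt m1 m2) (by ext x; simp [ls_inv hC, a1])])
  have k2 := key _ _ m2 m1 i2 i1 (by
    rw [(birk hT hf hC).2 _ (measurableSet_lt m2 m1) (by ext x; simp [ls_inv hC, a2]),
      (birk hU hf hC).2 _ (measurableSet_lt m2 m1) (by ext x; simp [ls_inv hC, a1])])
  filter_upwards [k1, k2, (birk hU hf hC).1] with x h1 h2 h3
  rwa [le_antisymm h1 h2] at h3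

/-- a nonnegative function has positive mean at almost every point where it is positive -/
theorem ls_pos (hT : MeasurePreserving T μ μ) (hf : Measurable f) (hC : ∀ x, |f x| ≤ C)
    (h0 : ∀ x, 0 ≤ f x) : ∀ᵐ x ∂μ, 0 < f x → 0 < ls T f x := by
  have m1 := meas_ls hT.measurable hf
  have hA : MeasurableSet {x | ls T f x ≤ 0} := measurableSet_le m1 measurable_const
  have e := (birk hT hf hC).2 _ hA (by ext x; simp [ls_inv hC])
  have h1 : ∫ x in {x | ls T f x ≤ 0}, ls T f x ∂μ ≤ 0 := setIntegral_nonpos hA fun x hx => hx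
  have h2 : ∫ x in {x | ls T f x ≤ 0}, f x ∂μ = 0 :=
    le_antisymm (e ▸ h1) (integral_nonneg h0)
  rw [setIntegral_eq_zero_iff_of_nonneg_ae (.of_forall h0) (int_of hf hC).integrableOn] at h2
  filter_upwards [(ae_restrict_iff' hA).1 h2] with x hx hp
  by_contra hc
  exact hp.ne' (hx (not_lt.1 hc))

end FErg

end

end Pool.Agent.Lib.MP_21f752_an
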