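import Pool.Agent.Lib.MP_21f752_an.Meas
import Pool.Agent.Lib.MP_21f752_an.FErg0

/-! The pointwise ergodic theorem for the flow on the quotient. -/

namespace Pool.Agent.Lib.MP_21f752_an

open UpperHalfPlane Set Filter Topology Metric MeasureTheory
open scoped MatrixGroups Real ENNReal

noncomputable section

namespace FErg

variable (S : Sys)

/-- invariant measurable sets -/
@[reducible] def mi : MeasurableSpace N where
  MeasurableSet' s := MeasurableSet s ∧ S.Inv (· ∈ s)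
  measurableSet_empty := ⟨MeasurableSet.empty, fun _ _ _ _ => rfl⟩
  measurableSet_compl s h := ⟨h.1.compl, fun γ hγ k ξ => congrArg Not (h.2 γ hγ k ξ)⟩
  measurableSet_iUnion s h := ⟨MeasurableSet.iUnion fun i => (h i).1, fun γ hγ k ξ => by
    simp only [mem_iUnion]
    exact congrArg Exists (funext fun i => (h i).2 γ hγ k ξ)⟩

lemma mi_le : mi S ≤ (inferInstance : MeasurableSpace N) := fun _ h => h.1

variable {S}

lemma meas_mi {G : N → ℝ} (hG : Measurable G) (hi : S.Inv G) : Measurable[mi S] G :=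
  fun _ hs => ⟨hG hs, fun γ hγ k ξ => by simp only [mem_preimage, hi γ hγ]⟩

variable (S)

lemma meas_φ (t : ℝ) : Measurable (S.φ t) :=
  (S.continuous_φ.comp (continuous_const.prodMk continuous_id)).measurable

lemma meas_φi (t : ℝ) : @Measurable N N (mi S) (mi S) (S.φ t) :=
  fun _ hs => ⟨meas_φ S t hs.1, hs.2.comp_φ t⟩

/-- the flow preserves the measure of invariant sets -/
lemma ν_pre (t : ℝ) {A : Set N} (hA : MeasurableSet A) (hi : S.Inv (· ∈ A)) :
    S.ν (S.φ t ⁻¹' A) = S.ν A := by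
  have := S.unfold (meas_φ S t) (S.pres_φ t) (fun _ hγ k ξ => S.φ_gg hγ k t ξ)
    (G := A.indicator 1) (measurable_one.indicator hA) (fun γ hγ k ξ => by
      by_cases h : ξ ∈ A
      · rw [indicator_of_mem h, indicator_of_mem ((hi γ hγ k ξ).mpr h)]
        rfl
      · rw [indicator_of_notMem h, indicator_of_notMem fun h' => h ((hi γ hγ k ξ).mp h')])
  rw [lintegral_indicator_one hA] at this
  rw [← this, ← lintegral_indicator_one (meas_φ S t hA)]
  rfl

lemma mp (t : ℝ) : @MeasurePreserving N N (mi S) (mi S) (S.φ t) (S.ν.trim (mi_le S))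
    (S.ν.trim (mi_le S)) := by
  refine @MeasurePreserving.mk N N (mi S) (mi S) _ _ _ (meas_φi S t) ?_
  refine @Measure.ext N (mi S) _ _ fun s hs => ?_
  rw [@Measure.map_apply N N (mi S) (mi S) _ _ (meas_φi S t) s hs,
    trim_measurableSet_eq _ hs, trim_measurableSet_eq _ (meas_φi S t hs)]
  exact ν_pre S t hs.1 hs.2

lemma iter (τ : ℝ) (j : ℕ) (ξ : N) : (S.φ τ)^[j] ξ = S.φ (j * τ) ξ := by
  induction j with
  | zero => simp [S.φ_zero]
  | succ j ih =>
    rw [Function.iterate_succ_apply', ih, ← S.φ_add]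
    congr 1
    push_cast
    ring

lemma sm_eq (τ : ℝ) (G : N → ℝ) (n : ℕ) (ξ : N) :
    sm (S.φ τ) G n ξ = ∑ j ∈ Finset.range n, G (S.φ (j * τ) ξ) := by
  simp only [sm, iter]

end FErg

open FErg

namespace Sys

variable (S : Sys)

/-- the time mean of `G` for the time `τ` map -/
def mean (τ : ℝ) (G : N → ℝ) : N → ℝ := ls (S.φ τ) G

variable {S} {G : N → ℝ} {C : ℝ}

lemma mean_meas (τ : ℝ) (hG : Measurable G) : Measurable (S.mean τ G) := meas_ls (meas_φ S τ) hG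

lemma mean_inv (τ : ℝ) (hi : S.Inv G) : S.Inv (S.mean τ G) := fun γ hγ k ξ => by
  simp only [mean, ls, sm_eq, S.φ_gg hγ, hi γ hγ]

lemma mean_φ (τ : ℝ) (hC : ∀ ξ, |G ξ| ≤ C) (ξ : N) : S.mean τ G (S.φ τ ξ) = S.mean τ G ξ :=
  ls_inv hC ξ

lemma mean_abs (τ : ℝ) (hC : ∀ ξ, |G ξ| ≤ C) (ξ : N) : |S.mean τ G ξ| ≤ C := abs_ls hC ξ

/-- forward and backward ergodic averages converge to the time mean -/
theorem mean_ae (τ : ℝ) (hG : Measurable G) (hi : S.Inv G) (hC : ∀ ξ, |G ξ| ≤ C) :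
    ∀ᵐ ξ ∂S.ν,
      Tendsto (fun n : ℕ => (∑ j ∈ Finset.range n, G (S.φ (j * τ) ξ)) / n) atTop
        (𝓝 (S.mean τ G ξ)) ∧
      Tendsto (fun n : ℕ => (∑ j ∈ Finset.range n, G (S.φ (-(j * τ)) ξ)) / n) atTop
        (𝓝 (S.mean τ G ξ)) := by
  have h1 := (birk (m := mi S) (mp S τ) (meas_mi hG hi) hC).1
  have h2 := birk2 (m := mi S) (mp S τ) (mp S (-τ)) (S.φ_neg' τ) (S.φ_neg τ) (meas_mi hG hi) hC
  filter_upwards [ae_of_ae_trim _ h1, ae_of_ae_trim _ h2] with ξ a b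
  simp only [sm_eq, mul_neg] at a b
  exact ⟨a, b⟩

theorem mean_int (τ : ℝ) (hG : Measurable G) (hi : S.Inv G) (hC : ∀ ξ, |G ξ| ≤ C) {A : Set N}
    (hA : MeasurableSet A) (hAi : S.Inv (· ∈ A)) (hAφ : ∀ ξ, S.φ τ ξ ∈ A ↔ ξ ∈ A) :
    ∫ ξ in A, S.mean τ G ξ ∂S.ν = ∫ ξ in A, G ξ ∂S.ν := by
  have hA' : MeasurableSet[mi S] A := ⟨hA, hAi⟩
  have h := (birk (m := mi S) (mp S τ) (meas_mi hG hi) hC).2 A hA' (Set.ext hAφ)
  rw [setIntegral_trim (mi_le S) (meas_mi hG hi).stronglyMeasurable hA',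
    setIntegral_trim (mi_le S) (meas_mi (mean_meas τ hG) (mean_inv τ hi)).stronglyMeasurable hA']
  exact h

theorem mean_pos (τ : ℝ) (hG : Measurable G) (hi : S.Inv G) (hC : ∀ ξ, |G ξ| ≤ C)
    (h0 : ∀ ξ, 0 ≤ G ξ) : ∀ᵐ ξ ∂S.ν, 0 < G ξ → 0 < S.mean τ G ξ :=
  ae_of_ae_trim _ (ls_pos (m := mi S) (mp S τ) (meas_mi hG hi) hC h0)

open Classical in
/-- almost every point of an invariant set returns with positive frequency in both directions -/
theorem freq (τ : ℝ) {U : Set N} (hU : MeasurableSet U) (hi : S.Inv (· ∈ U)) :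
    ∀ᵐ ξ ∂S.ν, ξ ∈ U → ∃ κ : ℝ, 0 < κ ∧ ∀ᶠ n : ℕ in atTop,
      κ * n ≤ ((Finset.range n).filter fun j : ℕ => S.φ (j * τ) ξ ∈ U).card ∧
      κ * n ≤ ((Finset.range n).filter fun j : ℕ => S.φ (-(j * τ)) ξ ∈ U).card := by
  have hG : Measurable (U.indicator fun _ => (1 : ℝ)) := measurable_const.indicator hU
  have hI : S.Inv (U.indicator fun _ => (1 : ℝ)) := fun γ hγ k ξ => by
    simp only [indicator_apply, hi γ hγ k ξ]
  have hC : ∀ ξ, |U.indicator (fun _ => (1 : ℝ)) ξ| ≤ 1 := fun ξ => by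
    by_cases h : ξ ∈ U <;> simp [h]
  filter_upwards [mean_ae τ hG hI hC, mean_pos τ hG hI hC fun ξ =>
    indicator_nonneg (fun _ _ => zero_le_one) ξ] with ξ h1 h2 hξ
  have hp := h2 (by simp [hξ])
  refine ⟨_, half_pos hp, ?_⟩
  filter_upwards [h1.1.eventually (lt_mem_nhds (half_lt_self hp)),
    h1.2.eventually (lt_mem_nhds (half_lt_self hp)), eventually_gt_atTop 0] with n a b hn
  have hn' : (0 : ℝ) < n := by exact_mod_cast hn
  rw [lt_div_iff₀ hn'] at a b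
  simp only [indicator_apply, Finset.sum_boole] at a b
  exact ⟨a.le, b.le⟩

/-- Poincaré recurrence in both directions -/
theorem recur (τ : ℝ) {U : Set N} (hU : MeasurableSet U) (hi : S.Inv (· ∈ U)) :
    ∀ᵐ ξ ∂S.ν, ξ ∈ U → (∃ᶠ j : ℕ in atTop, S.φ (j * τ) ξ ∈ U) ∧
      ∃ᶠ j : ℕ in atTop, S.φ (-(j * τ)) ξ ∈ U := by
  classical
  have key : ∀ (p : ℕ → Prop) (κ : ℝ), 0 < κ →
      (∀ᶠ n : ℕ in atTop, κ * n ≤ ((Finset.range n).filter p).card) → ∃ᶠ j in atTop, p j := by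
    intro p κ hκ h
    by_contra hc
    obtain ⟨M, hM⟩ := eventually_atTop.1 (not_frequently.1 hc)
    obtain ⟨n, h1, h2⟩ := (h.and ((tendsto_natCast_atTop_atTop.const_mul_atTop hκ).eventually_gt_atTop
      (M : ℝ))).exists
    have : ((Finset.range n).filter p).card ≤ M := by
      rw [← Finset.card_range M]
      refine Finset.card_le_card fun j hj => Finset.mem_range.2 ?_
      by_contra h3
      exact hM j (not_lt.1 h3) (Finset.mem_filter.1 hj).2
    have : (((Finset.range n).filter p).card : ℝ) ≤ M := by exact_mod_cast this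
    linarith
  filter_upwards [freq τ hU hi] with ξ h hξ
  obtain ⟨κ, hκ, h⟩ := h hξ
  exact ⟨key _ κ hκ (h.mono fun n hn => by convert hn.1), key _ κ hκ (h.mono fun n hn => by
    convert hn.2)⟩

end Sys

end

end Pool.Agent.Lib.MP_21f752_an
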