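import Pool.Agent.Lib.MP_21f752_an.FG
import Pool.Agent.Lib.MP_21f752_an.FErg1

/-! Frequency of returns and null sets. -/

namespace Pool.Agent.Lib.MP_21f752_an

open UpperHalfPlane Set Filter Topology Metric MeasureTheory
open scoped MatrixGroups Real ENNReal

noncomputable section

namespace FFreq

lemma ang_mul (γ δ : SL(2, ℝ)) (z : ℍ) :
    ∃ k : ℤ, ang γ (δ • z : ℍ) + ang δ z = ang (γ * δ) z + k * (2 * π) := by
  rw [← ce_eq_iff, ce_add, ce_ang _ z.im_pos, ce_ang _ z.im_pos, ce_ang _ (δ • z : ℍ).im_pos,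
    coe_smul_mob, den_mul _ _ z.im_pos, Complex.normSq_mul]
  have h1 := den_ne δ z.im_pos
  have h2 := den_ne γ (mob_pos δ z.im_pos)
  push_cast
  field_simp

/-- composition of lifted Möbius maps -/
lemma gg_mul (γ δ : SL(2, ℝ)) (a b : ℤ) (ξ : N) : ∃ k : ℤ,
    gg γ (a * (2 * π)) (gg δ (b * (2 * π)) ξ) = gg (γ * δ) (k * (2 * π)) ξ := by
  obtain ⟨k, hk⟩ := ang_mul γ δ ξ.1
  refine ⟨a + b + k, Prod.ext (mul_smul γ δ ξ.1).symm ?_⟩
  simp only [gg]
  push_cast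
  linarith

lemma gg_div (γ δ : SL(2, ℝ)) (a b : ℤ) (ξ : N) : ∃ k : ℤ,
    gg (γ * δ⁻¹) (k * (2 * π)) (gg δ (b * (2 * π)) ξ) = gg γ (a * (2 * π)) ξ := by
  obtain ⟨k, hk⟩ := ang_mul (γ * δ⁻¹) δ ξ.1
  rw [inv_mul_cancel_right] at hk
  refine ⟨a - b - k, Prod.ext (by simp [gg, mul_smul]) ?_⟩
  simp only [gg]
  push_cast
  linarith

variable (G : Geo)

lemma sat_meas {B : Set N} (hB : MeasurableSet B) : MeasurableSet (G.Sat B) := by
  have : G.Sat B = ⋃ p : G.Γ × ℤ, gg p.1 (p.2 * (2 * π)) ⁻¹' B := by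
    ext ξ
    simp [Geo.Sat]
  rw [this]
  exact MeasurableSet.iUnion fun p => (continuous_gg _ _).measurable hB

lemma sat_inv (B : Set N) : G.Inv (· ∈ G.Sat B) := by
  intro δ hδ b ξ
  refine propext ⟨?_, ?_⟩
  · rintro ⟨γ, hγ, a, h⟩
    obtain ⟨k, hk⟩ := gg_mul γ δ a b ξ
    exact ⟨_, G.Γ.mul_mem hγ hδ, k, hk ▸ h⟩
  · rintro ⟨γ, hγ, a, h⟩
    obtain ⟨k, hk⟩ := gg_div γ δ a b ξ
    exact ⟨_, G.Γ.mul_mem hγ (G.Γ.inv_mem hδ), k, hk.symm ▸ h⟩

lemma sub_sat (B : Set N) : B ⊆ G.Sat B := fun ξ h =>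
  ⟨1, G.Γ.one_mem, 0, by simpa [gg_one, rot] using h⟩

variable (S : Sys)

lemma pre_null {T : N → N} (hm : Measurable T)
    (hT : ∀ F : N → ℝ≥0∞, ∫⁻ ξ, F (T ξ) ∂S.μ = ∫⁻ ξ, F ξ ∂S.μ) {B : Set N} (h : S.μ B = 0) :
    S.μ (T ⁻¹' B) = 0 := by
  obtain ⟨B', h1, h2, h3⟩ := exists_measurable_superset_of_null h
  refine measure_mono_null (preimage_mono h1) ?_
  rw [← lintegral_indicator_one (hm h2), ← h3, ← lintegral_indicator_one h2,
    ← hT (B'.indicator 1)]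
  rfl

lemma null_iff {B : Set N} (hi : S.Inv (· ∈ B)) : S.ν B = 0 ↔ S.μ B = 0 := by
  refine ⟨fun h => ?_, fun h => withDensity_absolutelyContinuous _ _ h⟩
  rw [Sys.ν, withDensity_apply_eq_zero S.measurable_wt] at h
  refine measure_mono_null (t := ⋃ p : S.Γ × ℤ, gg p.1 (p.2 * (2 * π)) ⁻¹' ({x | S.wt x ≠ 0} ∩ B))
    (fun ξ hξ => ?_) (measure_iUnion_null fun p =>
      pre_null S (continuous_gg _ _).measurable (S.pres_gg p.1.2 _) h)
  by_contra hc
  have h1 := S.tsum_gg ξ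
  rw [ENNReal.tsum_eq_zero.2 fun p => ?_] at h1
  · exact zero_ne_one h1
  · by_contra h2
    exact hc (mem_iUnion.2 ⟨p, h2, (hi _ p.1.2 p.2 ξ).mpr hξ⟩)

/-- invariant properties that hold almost everywhere -/
lemma ae_of {p : N → Prop} (hi : S.Inv p) (h : ∀ᵐ ξ ∂S.ν, p ξ) : ∀ᵐ ξ ∂S.μ, p ξ :=
  (null_iff S (B := {ξ | ¬p ξ}) fun γ hγ k ξ => congrArg Not (hi γ hγ k ξ)).1 h

lemma null_emb (B : Set N) : S.μ B = 0 ↔ volume (emb '' B) = 0 := by
  rw [Sys.μ, withDensity_apply_eq_zero S.continuous_ρ.measurable.ennreal_ofReal, mEmb.comap_apply]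
  have : {x | ENNReal.ofReal (S.ρ x) ≠ 0} = univ :=
    eq_univ_of_forall fun ξ => (ENNReal.ofReal_pos.2 (Real.exp_pos _)).ne'
  rw [this, univ_inter]

lemma fib (B : Set N) (p : ℍ) : Prod.mk (p : ℂ) ⁻¹' (emb '' B) = {θ : ℝ | (p, θ) ∈ B} := by
  ext θ
  exact mEmb.injective.mem_set_image (a := (p, θ))

end FFreq

open FFreq

theorem freq : FreqSt := by
  classical
  intro G
  refine ⟨fun τ B hB => ?_, fun B => null_iff G.toSys, fun B => ?_, fun B hB => ?_,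
    fun B hB => ?_, fun B hB => ?_⟩
  · have h := ae_of G.toSys (fun γ hγ k ξ => by
      simp only [G.φ_gg hγ, sat_inv G B γ hγ]) (Sys.freq τ (sat_meas G hB) (sat_inv G B))
    filter_upwards [h] with ξ h hξ
    obtain ⟨c, hc, h⟩ := h (sub_sat G B hξ)
    exact ⟨c, hc, (h.mono fun n hn => by convert hn.1).frequently⟩
  · rw [null_emb, mEmb.comap_apply]
  · rw [null_emb, Measure.volume_eq_prod] at hB
    have h := Measure.measure_ae_null_of_prod_null hB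
    refine ⟨{p | volume {θ : ℝ | (p, θ) ∈ B} ≠ 0}, ?_, fun p hp => not_not.1 hp⟩
    rw [null_emb, Measure.volume_eq_prod]
    refine measure_mono_null (t := {x : ℂ | volume (Prod.mk x ⁻¹' (emb '' B)) ≠ 0} ×ˢ univ) ?_ ?_
    · rintro _ ⟨ξ, hξ, rfl⟩
      refine ⟨?_, mem_univ _⟩
      change volume (Prod.mk (ξ.1 : ℂ) ⁻¹' (emb '' B)) ≠ 0
      rw [fib]
      exact hξ.1
    · rw [Measure.prod_prod, show volume {x : ℂ | volume (Prod.mk x ⁻¹' (emb '' B)) ≠ 0} = 0 from h,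
        zero_mul]
  · have hm : MeasurableSet {p : ℍ | volume {θ : ℝ | (p, θ) ∈ B} = 0} :=
      measurable_measure_prodMk_left (ν := volume) hB (measurableSet_singleton 0)
    refine ⟨hm, ?_⟩
    have h0 : MeasurableSet {ξ : N | ξ ∈ B ∧ volume {θ : ℝ | (ξ.1, θ) ∈ B} = 0} :=
      hB.inter (measurable_fst hm)
    rw [null_emb, Measure.volume_eq_prod, Measure.measure_prod_null (mEmb.measurableSet_image.2 h0)]
    refine .of_forall fun x => ?_
    by_contra hc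
    obtain ⟨θ, ξ, hξ, e⟩ := nonempty_of_measure_ne_zero hc
    have e1 : x = (ξ.1 : ℂ) := (congrArg Prod.fst e).symm
    simp only [e1, fib] at hc
    exact hc (measure_mono_null (fun θ h => h.1) hξ.2)
  · obtain ⟨B', h1, h2, h3⟩ := exists_measurable_superset_of_null hB
    have hm : MeasurableSet {x : N × ℝ | G.φ x.2 x.1 ∉ B'} :=
      ((G.continuous_φ.comp continuous_swap).measurable h2).compl
    have := (Measure.ae_ae_comm (μ := G.μ) (ν := volume) (p := fun ξ t => G.φ t ξ ∉ B') hm).2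
      (.of_forall fun t => by
        have := pre_null G.toSys (FErg.meas_φ G.toSys t) (G.pres_φ t) h3
        rw [ae_iff]
        simpa [preimage] using this)
    filter_upwards [this] with ξ h
    rw [ae_iff] at h
    exact measure_mono_null (fun t ht => by simpa using h1 ht) h

end

end Pool.Agent.Lib.MP_21f752_an
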