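import Pool.Agent.Lib.MP_21f752_an.FA

/-! A system without conjugate points is locally symmetric or geometric. -/

namespace Pool.Agent.Lib.MP_21f752_an

open UpperHalfPlane Set Filter Topology Metric MeasureTheory
open scoped MatrixGroups ContDiff Real

noncomputable section

theorem geo_of (hr : RicSt) (hc : CurveSt) (hg : GlueSt) (hz : ZornSt) (hp : PrimSt) (h1 : B1St)
    (h2 : B2St) (S : Sys) (hf : S.Free) (hn : S.NC) :
    ((∃ κ, ∀ z, curv S.f z = κ) ∧ ∃ β, ∀ z, S.b z = β) ∨ ∃ G : Geo, G.toSys = S := by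
  obtain ⟨-, -, tw, opn, hopf⟩ := hr S hn
  by_cases hel : S.I (fun _ => 1) ≤ S.I (fun ξ => S.b ξ.1) / S.Hy * S.I (fun ξ => S.b ξ.1)
  · exact Or.inl (hopf hel)
  right
  obtain ⟨F, F1, F2, F3⟩ := S.exists_prim (div_mul_cancel₀ _ S.Hy_pos.ne').symm
  let P : S.Pr := ⟨_, F, F1, F2, F3⟩
  have hI : 0 < S.I P.ψ := by
    rw [P.I_ψ]
    exact sub_pos.2 (not_le.1 hel)
  obtain ⟨C, C0, hC⟩ := hc S hn
  obtain ⟨-, -, ⟨M, hM⟩, glob⟩ := hg S C C0
  have fl : P.Fields := by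
    refine ⟨M, fun ξ => ?_⟩
    obtain ⟨α, a1, a2, a3⟩ := hz S C C0 hC ξ
    have lp : ∀ z w, |α z - α w| ≤ M * dist z w := glob α M fun z =>
      ((continuous_const.prodMk continuous_id).tendsto' z (z, z) rfl).eventually (hM α z (a3 z))
    obtain ⟨u, hu⟩ := hp S P α M a2 lp
    exact ⟨α, u, a1, a2, lp, hu⟩
  have B1 := h1 S P fl
  have B2 := h2 S P fl B1
  refine ⟨⟨S, hf, tw, opn, P.c, P.Ph, B1.cont, B1.tri, B1.nn, fun ξ s t r a b => ?_, B1.eqv, B2.cc,
    B2.nr, P.ψ, P.ci_ψ, hI, B1.lip⟩, rfl⟩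
  have φc : Continuous fun r : ℝ => S.φ r ξ :=
    S.continuous_φ.comp (continuous_id.prodMk continuous_const)
  have cc : Continuous fun r : ℝ => 1 - (P.Θ (S.φ r ξ).1 * S.V (S.φ r ξ)).re :=
    continuous_const.sub (Complex.continuous_re.comp
      (((Sys.cont_base fun z hz => (P.Θ_cd hz).continuousAt).mul S.continuous_V).comp φc))
  rw [B1.orb ξ s r (a.trans b), B1.orb ξ s t a, B1.orb ξ t r b,
    intervalIntegral.integral_add_adjacent_intervals (cc.intervalIntegrable _ _)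
      (cc.intervalIntegrable _ _)]

end

end Pool.Agent.Lib.MP_21f752_an
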