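import Pool.Agent.Lib.MP_21f752_an.FA

/-! Gluing of positive curves, restriction of good germs, Lipschitz bounds. -/

namespace Pool.Agent.Lib.MP_21f752_an

open UpperHalfPlane Set Filter Topology Metric MeasureTheory
open scoped MatrixGroups ContDiff Real

noncomputable section

namespace FGlu

lemma mono_right {f : ℝ → ℝ} {x y : ℝ} (hxy : x ≤ y) (hc : ContinuousOn f (Icc x y))
    (h : ∀ r ∈ Ico x y, ∀ᶠ q in 𝓝[>] r, f r ≤ f q) : f x ≤ f y := by
  have hs : IsClosed ({r | f x ≤ f r} ∩ Icc x y) := by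
    rw [inter_comm]
    exact hc.preimage_isClosed_of_isClosed isClosed_Icc isClosed_Ici
  exact hs.Icc_subset_of_forall_mem_nhdsWithin (show f x ≤ f x from le_rfl)
    (fun r hr => (h r hr.2).mono fun q hq => le_trans hr.1 hq) ⟨hxy, le_rfl⟩

lemma mono_punct {f : ℝ → ℝ} {a x y : ℝ} (hxy : x ≤ y) (hc : ∀ r ∈ Icc x y, ContinuousAt f r)
    (h : ∀ r ∈ Icc x y, r ≠ a → ∀ᶠ q in 𝓝[>] r, f r ≤ f q) : f x ≤ f y := by
  have A : ∀ u v, x ≤ u → u ≤ v → v ≤ y → a ∉ Ico u v → f u ≤ f v := fun u v h1 h2 h3 h4 =>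
    mono_right h2 (fun r hr => (hc r ⟨h1.trans hr.1, hr.2.trans h3⟩).continuousWithinAt)
      fun r hr => h r ⟨h1.trans hr.1, hr.2.le.trans h3⟩ fun e => h4 (e ▸ hr)
  by_cases ha : a ∈ Ico x y
  · refine (A x a le_rfl ha.1 ha.2.le fun e => lt_irrefl _ e.2).trans ?_
    have t1 : Tendsto f (𝓝[>] a) (𝓝 (f a)) := (hc a ⟨ha.1, ha.2.le⟩).tendsto.mono_left nhdsWithin_le_nhds
    refine le_of_tendsto t1 ?_
    filter_upwards [Ioo_mem_nhdsGT ha.2] with r hr
    exact A r y (ha.1.trans hr.1.le) hr.2.le le_rfl fun e => not_le.2 hr.1 e.1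
  · exact A x y le_rfl hxy le_rfl ha

lemma ev_diag {X : Type} [TopologicalSpace X] {a : X} {P : X × X → Prop}
    (h : ∀ᶠ p in 𝓝 (a, a), P p) : ∀ᶠ s in 𝓝 a, ∀ᶠ p in 𝓝 (s, s), P p :=
  (continuous_id.prodMk continuous_id).continuousAt.eventually h.eventually_nhds

lemma ev_slice {X : Type} [TopologicalSpace X] {a : X} {P : X × X → Prop}
    (h : ∀ᶠ p in 𝓝 (a, a), P p) : ∀ᶠ s in 𝓝 a, P (a, s) :=
  (continuous_const.prodMk continuous_id).continuousAt.eventually h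

lemma ev_two {a : ℝ} {P : ℝ → Prop} (h : ∀ᶠ s in 𝓝 a, P s) :
    ∀ᶠ x : ℝ × ℝ in 𝓝 (a, a), P x.1 ∧ P x.2 := h.prod_nhds h

lemma contAt_of_lip {E : Type} [NormedAddCommGroup E] {G : ℝ → E} {s M : ℝ}
    (h : ∀ᶠ q in 𝓝 s, ‖G q - G s‖ ≤ M * |q - s|) : ContinuousAt G s := by
  rw [ContinuousAt, tendsto_iff_norm_sub_tendsto_zero]
  refine squeeze_zero' (Eventually.of_forall fun _ => norm_nonneg _) h ?_
  have : Continuous fun q : ℝ => M * |q - s| := by fun_prop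
  simpa using this.tendsto s

variable (S : Sys)

def cB (ξ : N) : ℂ := -Complex.I / S.V ξ

def cA (ξ : N) : ℂ := (-Complex.I * (fderiv ℝ S.L ξ.1 (S.V ξ) : ℝ) - (S.W ξ : ℝ)) / S.V ξ

lemma l1_eq (ξ : N) (d : ℂ × ℝ) : S.l1 ξ d = (d.1 * cB S ξ).re := by
  have : d.1 * cB S ξ = -Complex.I * (d.1 / S.V ξ) := by rw [cB]; ring
  rw [this, Sys.l1]
  simp

lemma l2_eq (ξ : N) (d : ℂ × ℝ) : S.l2 ξ d = d.2 + (d.1 * cA S ξ).re := by
  have : d.1 * cA S ξ = (-Complex.I * (fderiv ℝ S.L ξ.1 (S.V ξ) : ℝ) - (S.W ξ : ℝ)) *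
      (d.1 / S.V ξ) := by rw [cA]; ring
  rw [this, Sys.l2]
  generalize d.1 / S.V ξ = q
  simp
  ring

lemma cont_cB : Continuous (cB S) := continuous_const.div S.continuous_V S.V_ne

lemma cont_cA : Continuous (cA S) :=
  ((continuous_const.mul (Complex.continuous_ofReal.comp
    ((Sys.cont_dG fun _ hz => S.L_cd hz).clm_apply S.continuous_V))).sub
      (Complex.continuous_ofReal.comp S.continuous_W)).div S.continuous_V S.V_ne

lemma re_le (d : ℂ × ℝ) (c : ℂ) : |(d.1 * c).re| ≤ ‖c‖ * ‖d‖ := by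
  refine (Complex.abs_re_le_norm _).trans ?_
  rw [norm_mul, mul_comm]
  exact mul_le_mul_of_nonneg_left (norm_fst_le d) (norm_nonneg _)

lemma glue1 {C : ℝ} (hC : 0 < C) (κ : ℝ → N) (a : ℝ) (hl : Sys.CLip κ a) (ht : S.CTr κ a)
    (h : ∀ᶠ s in 𝓝[≠] a, S.PC C κ s) : S.PC C κ a := by
  refine ⟨hl, ht, fun t ε hε => ?_⟩
  obtain ⟨M, hM⟩ := hl
  have ck : ContinuousAt (fun s => emb (κ s)) a := contAt_of_lip (ev_slice hM)
  have ck' : ContinuousAt κ a := Sys.isEmbedding_emb.isInducing.continuousAt_iff.2 ck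
  have cd : ContDiffAt ℝ 1 (fun x : ℂ × ℝ => S.Φ (t, x)) (emb (κ a)) :=
    ((S.Φ_cd (p := (t, emb (κ a))) (κ a).1.im_pos).of_le (by simp)).comp _
      (contDiffAt_const.prodMk contDiffAt_id)
  obtain ⟨K, U, hU, hK⟩ := cd.exists_lipschitzOnWith
  set G : ℝ → ℂ × ℝ := fun s => emb (S.φ t (κ s)) with hG
  set Q : ℝ := K * |M| + 1 with hQ
  have Q0 : 0 < Q := by positivity
  have hU' : ∀ᶠ s in 𝓝 a, emb (κ s) ∈ U := ck.eventually hU
  have LG : ∀ᶠ x : ℝ × ℝ in 𝓝 (a, a), ‖G x.2 - G x.1‖ ≤ Q * |x.2 - x.1| := by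
    filter_upwards [hM, ev_two hU'] with x h1 ⟨h2, h3⟩
    have := hK.norm_sub_le h3 h2
    calc _ ≤ K * ‖emb (κ x.2) - emb (κ x.1)‖ := this
      _ ≤ K * (|M| * |x.2 - x.1|) := by
        gcongr
        exact h1.trans (mul_le_mul_of_nonneg_right (le_abs_self _) (abs_nonneg _))
      _ ≤ _ := by rw [hQ]; nlinarith [abs_nonneg (x.2 - x.1)]
  have cφ : ContinuousAt (fun s => S.φ t (κ s)) a :=
    (S.continuous_φ.comp (continuous_const.prodMk continuous_id)).continuousAt.comp ck'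
  set ξ := S.φ t (κ a) with hξ
  have eA : ∀ᶠ s in 𝓝 a, ‖cA S ξ - cA S (S.φ t (κ s))‖ < ε / 3 / Q := by
    have := ((cont_cA S).continuousAt.comp cφ).eventually (ball_mem_nhds _ (ε := ε / 3 / Q) (by positivity))
    exact this.mono fun s hs => by rw [← dist_eq_norm, dist_comm]; exact hs
  have eB : ∀ᶠ s in 𝓝 a, ‖cB S ξ - cB S (S.φ t (κ s))‖ < ε / 3 / Q / C := by
    have := ((cont_cB S).continuousAt.comp cφ).eventually
      (ball_mem_nhds _ (ε := ε / 3 / Q / C) (by positivity))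
    exact this.mono fun s hs => by rw [← dist_eq_norm, dist_comm]; exact hs
  have key : ∀ᶠ s in 𝓝 a, ContinuousAt G s ∧ (s ≠ a → ∀ᶠ q in 𝓝[>] s,
      |S.l2 ξ (G q - G s)| ≤ C * S.l1 ξ (G q - G s) + ε * (q - s)) := by
    filter_upwards [ev_diag LG, eA, eB, eventually_nhdsWithin_iff.1 h] with s h1 h2 h3 h4
    refine ⟨contAt_of_lip (ev_slice h1), fun hs => ?_⟩
    filter_upwards [nhdsWithin_le_nhds (ev_slice h1), self_mem_nhdsWithin,
      nhdsWithin_le_nhds (ev_slice ((h4 hs).cone t (ε / 3) (by positivity)))] with q q1 q2 q3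
    have q4 : s < q := q2
    have q5 := q3 q4.le
    change |S.l2 _ (G q - G s)| ≤ C * S.l1 _ (G q - G s) + ε / 3 * (q - s) at q5
    simp only [abs_of_pos (sub_pos.2 q4)] at q1
    set d := G q - G s
    have a1 := re_le d (cA S ξ - cA S (S.φ t (κ s)))
    have b1 := re_le d (cB S ξ - cB S (S.φ t (κ s)))
    have a2 : ‖cA S ξ - cA S (S.φ t (κ s))‖ * ‖d‖ ≤ ε / 3 * (q - s) :=
      calc _ ≤ ε / 3 / Q * (Q * (q - s)) := mul_le_mul h2.le q1 (norm_nonneg _) (by positivity)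
        _ = _ := by field_simp
    have b2 : C * (‖cB S ξ - cB S (S.φ t (κ s))‖ * ‖d‖) ≤ ε / 3 * (q - s) :=
      calc _ ≤ C * (ε / 3 / Q / C * (Q * (q - s))) :=
            mul_le_mul_of_nonneg_left (mul_le_mul h3.le q1 (norm_nonneg _) (by positivity)) hC.le
        _ = _ := by field_simp
    rw [mul_sub, Complex.sub_re] at a1 b1
    rw [l1_eq, l2_eq] at q5 ⊢
    have b3 := mul_le_mul_of_nonneg_left (abs_le.1 b1).1 hC.le
    have a3 := abs_le.1 a1
    have q6 := abs_le.1 q5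
    rw [abs_le]
    constructor <;> nlinarith
  obtain ⟨δ, hδ, hb⟩ := Metric.eventually_nhds_iff_ball.1 key
  filter_upwards [ev_two (P := fun s => s ∈ ball a δ) (ball_mem_nhds a hδ)] with x ⟨h1, h2⟩ hx
  have sub : ∀ r ∈ Icc x.1 x.2, r ∈ ball a δ := fun r hr =>
    (convex_ball a δ).ordConnected.out h1 h2 hr
  have two : ∀ σ : ℝ, |σ| = 1 →
      σ * S.l2 ξ (G x.2 - G x.1) ≤ C * S.l1 ξ (G x.2 - G x.1) + ε * (x.2 - x.1) := by
    intro σ hσ
    have := mono_punct (a := a) (f := fun r => C * ((G r).1 * cB S ξ).re + ε * r -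
      σ * ((G r).2 + ((G r).1 * cA S ξ).re)) hx (fun r hr => by
        have := (hb r (sub r hr)).1
        fun_prop) fun r hr hne => ((hb r (sub r hr)).2 hne).mono fun q hq => by
          have e : σ * S.l2 ξ (G q - G r) ≤ |S.l2 ξ (G q - G r)| := by
            refine (le_abs_self _).trans ?_
            rw [abs_mul, hσ, one_mul]
          have := e.trans hq
          simp only [l1_eq, l2_eq, Prod.fst_sub, Prod.snd_sub, sub_mul, Complex.sub_re] at this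
          linarith
    simp only [l1_eq, l2_eq, Prod.fst_sub, Prod.snd_sub, sub_mul, Complex.sub_re]
    linarith
  have p1 := two 1 abs_one
  have p2 := two (-1) (by simp)
  change |S.l2 ξ (G x.2 - G x.1)| ≤ C * S.l1 ξ (G x.2 - G x.1) + ε * (x.2 - x.1)
  rw [abs_le]
  constructor <;> linarith

lemma gd_lip {C : ℝ} (hC : 0 < C) {α : ℍ → ℝ} {z : ℍ} (h : S.Gd C α z) {ε : ℝ} (hε : 0 < ε) :
    ∀ᶠ w : ℍ × ℍ in 𝓝 (z, z), |α w.2 - α w.1| ≤
      (C * ‖cB S (z, α z)‖ + ‖cA S (z, α z)‖ + ε) * ‖(w.2 : ℂ) - w.1‖ := by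
  have one : ∀ᶠ w : ℍ × ℍ in 𝓝 (z, z), 0 ≤ (((w.2 : ℂ) - w.1) / S.V (z, α z)).im →
      |α w.2 - α w.1| ≤ (C * ‖cB S (z, α z)‖ + ‖cA S (z, α z)‖ + ε) * ‖(w.2 : ℂ) - w.1‖ := by
    filter_upwards [h 0 ε hε] with w hw h0
    have := hw h0
    simp only [Sys.df, Sys.φ_zero, l1_eq, l2_eq, emb, Prod.mk_sub_mk] at this
    set u : ℂ := (w.2 : ℂ) - w.1
    have a1 := Complex.abs_re_le_norm (u * cA S (z, α z))
    have b1 := Complex.abs_re_le_norm (u * cB S (z, α z))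
    rw [norm_mul] at a1 b1
    have b2 := mul_le_mul_of_nonneg_left (abs_le.1 b1).2 hC.le
    have a2 := abs_le.1 a1
    have q := abs_le.1 this
    rw [abs_le]
    constructor <;> nlinarith
  have sw : Tendsto (Prod.swap : ℍ × ℍ → ℍ × ℍ) (𝓝 (z, z)) (𝓝 (z, z)) :=
    continuous_swap.tendsto (z, z)
  filter_upwards [one, sw.eventually one] with w h1 h2
  rcases le_total 0 (((w.2 : ℂ) - w.1) / S.V (z, α z)).im with h0 | h0
  · exact h1 h0
  · rw [abs_sub_comm, norm_sub_rev]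
    refine h2 ?_
    change 0 ≤ (((w.1 : ℂ) - w.2) / S.V (z, α z)).im
    rw [← neg_sub, neg_div, Complex.neg_im]
    linarith

lemma glue2 {C : ℝ} (hC : 0 < C) (α : ℍ → ℝ) (σ : ℝ → ℍ) (z0 v : ℂ) (a : ℝ)
    (hσ : ∀ᶠ s in 𝓝 a, (σ s : ℂ) = z0 + s * v) (hv : 0 < (v / S.V (σ a, α (σ a))).im)
    (h : S.Gd C α (σ a)) : S.PC C (fun s => (σ s, α (σ s))) a := by
  have c1 : ContinuousAt σ a := by
    refine isEmbedding_coe.isInducing.continuousAt_iff.2 ?_
    have : ContinuousAt (fun s : ℝ => z0 + s * v) a := by fun_prop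
    exact this.congr (hσ.mono fun s hs => hs.symm)
  have c2 : Tendsto (fun x : ℝ × ℝ => (σ x.1, σ x.2)) (𝓝 (a, a)) (𝓝 (σ a, σ a)) :=
    (ContinuousAt.comp (x := (a, a)) (g := σ) c1 continuousAt_fst).prodMk
      (ContinuousAt.comp (x := (a, a)) (g := σ) c1 continuousAt_snd)
  have e : ∀ᶠ x : ℝ × ℝ in 𝓝 (a, a), (σ x.2 : ℂ) - σ x.1 = ((x.2 - x.1 : ℝ) : ℂ) * v := by
    filter_upwards [ev_two hσ] with x ⟨h1, h2⟩
    rw [h1, h2]
    push_cast
    ring
  have im : ∀ r : ℝ, ((r : ℂ) * v / S.V (σ a, α (σ a))).im = r * (v / S.V (σ a, α (σ a))).im :=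
    fun r => by rw [mul_div_assoc, Complex.im_ofReal_mul]
  refine ⟨?_, ⟨_, hv, ?_⟩, fun t ε hε => ?_⟩
  · set Q := C * ‖cB S (σ a, α (σ a))‖ + ‖cA S (σ a, α (σ a))‖ + 1 with hQ
    have Q1 : 1 ≤ Q := by
      rw [hQ]
      exact le_add_of_nonneg_left (by positivity)
    refine ⟨Q * ‖v‖, ?_⟩
    filter_upwards [e, c2.eventually (gd_lip S hC h one_pos)] with x h1 h2
    have n1 : ‖(σ x.2 : ℂ) - σ x.1‖ = ‖v‖ * |x.2 - x.1| := by
      rw [h1, norm_mul, Complex.norm_real, Real.norm_eq_abs, mul_comm]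
    change |α (σ x.2) - α (σ x.1)| ≤ Q * ‖(σ x.2 : ℂ) - σ x.1‖ at h2
    simp only [emb, Prod.mk_sub_mk, Prod.norm_mk, Real.norm_eq_abs]
    rw [mul_assoc, ← n1]
    exact max_le (le_mul_of_one_le_left (norm_nonneg _) Q1) h2
  · filter_upwards [e] with x h1 _
    simp only [Sys.l1, emb, Prod.mk_sub_mk]
    rw [h1, im, mul_comm]
  · filter_upwards [e, c2.eventually (h t (ε / (‖v‖ + 1)) (by positivity))] with x h1 h2 hx
    rw [h1, im] at h2
    refine (h2 (mul_nonneg (sub_nonneg.2 hx) hv.le)).trans ?_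
    rw [norm_mul, Complex.norm_real, Real.norm_of_nonneg (sub_nonneg.2 hx)]
    have : ε / (‖v‖ + 1) * ((x.2 - x.1) * ‖v‖) ≤ ε * (x.2 - x.1) := by
      rw [div_mul_eq_mul_div, div_le_iff₀ (by positivity)]
      nlinarith [mul_nonneg hε.le (sub_nonneg.2 hx)]
    linarith

lemma coef_bdd : ∃ Q, 0 < Q ∧ ∀ ξ : N, ‖cA S ξ‖ * ξ.1.im ≤ Q ∧ ‖cB S ξ‖ * ξ.1.im ≤ Q := by
  obtain ⟨C0, h1, h0⟩ := S.exists_speed
  obtain ⟨C1, p1, b1⟩ := S.qi_f.ci.inv.bdd S.qi_f.ci.cont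
  obtain ⟨C2, p2, b2⟩ := S.qi_f.ci'.inv.bdd S.qi_f.ci'.cont
  obtain ⟨C3, p3, b3⟩ := S.ci_b.inv.bdd S.ci_b.cont
  refine ⟨(C1 + C0 + (C3 + (C2 + C0)) + 1) * C0, by positivity, fun ξ => ?_⟩
  have y0 := ξ.1.im_pos
  have v1 : ‖S.V ξ‖ / ξ.1.im ≤ C0 := by
    rw [S.norm_V, mul_div_assoc, div_self y0.ne', mul_one]
    exact (h0 _).1
  have v2 : ξ.1.im / ‖S.V ξ‖ ≤ C0 := by
    rw [S.norm_V, mul_comm, ← div_div, div_self y0.ne', one_div, ← Real.exp_neg, neg_neg]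
    exact (h0 _).2
  have dl : ∀ u : ℂ, ‖u‖ = ‖S.V ξ‖ → |u.im / ξ.1.im| ≤ C0 := fun u hu => by
    rw [abs_div, abs_of_pos y0]
    refine le_trans ?_ v1
    rw [← hu]
    exact div_le_div_of_nonneg_right (Complex.abs_im_le_norm u) y0.le
  have d1 : |fderiv ℝ S.L ξ.1 (S.V ξ)| ≤ C1 + C0 := by
    rw [S.dL_eq]
    exact (abs_sub _ _).trans (add_le_add (b1 ξ) (dl _ rfl))
  have d2 : |S.W ξ| ≤ C3 + (C2 + C0) := by
    rw [Sys.W, S.dL_eq]
    exact (abs_add_le _ _).trans (add_le_add (b3 ξ)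
      ((abs_sub _ _).trans (add_le_add (b2 ξ) (dl _ (by simp)))))
  have q0 : 0 ≤ ξ.1.im / ‖S.V ξ‖ := by positivity
  constructor
  · rw [cA, norm_div, div_mul_eq_mul_div, mul_div_assoc]
    refine mul_le_mul ?_ v2 q0 (by positivity)
    refine (norm_sub_le _ _).trans ?_
    simp only [norm_mul, norm_neg, Complex.norm_I, one_mul, Complex.norm_real, Real.norm_eq_abs]
    linarith
  · rw [cB, norm_div, div_mul_eq_mul_div, mul_div_assoc]
    refine mul_le_mul ?_ v2 q0 (by positivity)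
    simp only [norm_neg, Complex.norm_I]
    linarith

lemma glue3 {C : ℝ} (hC : 0 < C) : ∃ M, ∀ (α : ℍ → ℝ) (z : ℍ), S.Gd C α z →
    ∀ᶠ w : ℍ × ℍ in 𝓝 (z, z), |α w.2 - α w.1| ≤ M * dist w.2 w.1 := by
  obtain ⟨Q, Q0, hQ⟩ := coef_bdd S
  refine ⟨(C * Q + Q + 1) * 4, fun α z h => ?_⟩
  have y0 := z.im_pos
  have c1 : ContinuousAt (fun w : ℍ × ℍ => w.1.im) (z, z) :=
    (continuous_im.comp continuous_fst).continuousAt
  have c2 : ContinuousAt (fun w : ℍ × ℍ => dist w.2 w.1) (z, z) :=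
    (continuous_snd.dist continuous_fst).continuousAt
  filter_upwards [gd_lip S hC h (ε := 1 / z.im) (by positivity),
    c1.eventually (gt_mem_nhds (show z.im < 2 * z.im by linarith)),
    c2.eventually (gt_mem_nhds (show dist z z < 1 by simp))] with w h1 h2 h3
  have d0 : 0 ≤ dist w.2 w.1 := dist_nonneg
  have e1 := dist_coe_le w.2 w.1
  have e2 := Real.abs_exp_sub_one_le (x := dist w.2 w.1) (by rw [abs_of_nonneg d0]; exact h3.le)
  rw [abs_of_nonneg d0] at e2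
  have e3 : ‖(w.2 : ℂ) - w.1‖ ≤ z.im * (4 * dist w.2 w.1) := by
    rw [← dist_eq_norm]
    refine e1.trans ?_
    calc _ ≤ 2 * z.im * (2 * dist w.2 w.1) :=
          mul_le_mul h2.le ((le_abs_self _).trans e2) (sub_nonneg.2 (Real.one_le_exp d0)) (by positivity)
      _ = _ := by ring
  obtain ⟨a1, b1⟩ := hQ (z, α z)
  refine h1.trans ?_
  calc _ ≤ (C * ‖cB S (z, α z)‖ + ‖cA S (z, α z)‖ + 1 / z.im) * (z.im * (4 * dist w.2 w.1)) := by
        gcongr
    _ = (C * (‖cB S (z, α z)‖ * z.im) + ‖cA S (z, α z)‖ * z.im + 1) * (4 * dist w.2 w.1) := by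
        field_simp
    _ ≤ (C * Q + Q + 1) * (4 * dist w.2 w.1) := by gcongr
    _ = _ := by ring

lemma straighten (z w : ℍ) : ∃ g : SL(2, ℝ), (g • z).re = (g • w).re := by
  by_cases h : z.re = w.re
  · exact ⟨1, by simpa using h⟩
  have h' : w.re - z.re ≠ 0 := sub_ne_zero.2 (Ne.symm h)
  set c : ℝ := (w.re ^ 2 + w.im ^ 2 - z.re ^ 2 - z.im ^ 2) / (2 * (w.re - z.re)) with hc
  have p0 : 0 < (z.re - c) ^ 2 + z.im ^ 2 := by positivity
  set r : ℝ := √((z.re - c) ^ 2 + z.im ^ 2) with hr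
  have r0 : 0 < r := Real.sqrt_pos.2 p0
  have rz : r ^ 2 = (z.re - c) ^ 2 + z.im ^ 2 := Real.sq_sqrt p0.le
  have rw' : r ^ 2 = (w.re - c) ^ 2 + w.im ^ 2 := by
    have : c * (2 * (w.re - z.re)) = w.re ^ 2 + w.im ^ 2 - z.re ^ 2 - z.im ^ 2 := by
      rw [hc]; field_simp
    rw [rz]; linarith
  have det : 1 / (2 * r) * (c + r) - (r - c) / (2 * r) * (-1) = 1 := by field_simp; ring
  have zero : ∀ u : ℍ, r ^ 2 = (u.re - c) ^ 2 + u.im ^ 2 → (mkS _ _ _ _ det • u).re = 0 := by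
    intro u hu
    rw [← coe_re, coe_mkS, Complex.div_re, ← add_div, div_eq_zero_iff]
    left
    simp only [Complex.add_re, Complex.mul_re, Complex.ofReal_re, Complex.ofReal_im, coe_re, coe_im,
      Complex.add_im, Complex.mul_im]
    field_simp
    linarith
  exact ⟨_, (zero z rz).trans (zero w rw').symm⟩

lemma geodesic (z w : ℍ) : ∃ γ : ℝ → ℍ, γ 0 = z ∧ γ 1 = w ∧
    ∀ s t, dist (γ s) (γ t) = dist z w * |s - t| := by
  obtain ⟨g, hg⟩ := straighten z w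
  set a := Real.log (g • z).im
  set b := Real.log (g • w).im
  have re : ∀ x y, (pt x y).re = x := fun x y => by simp [pt, -Complex.ofReal_exp]
  refine ⟨fun s => g⁻¹ • pt (g • z).re (a + s * (b - a)), ?_, ?_, fun s t => ?_⟩
  · simp only [zero_mul, add_zero]
    rw [pt_self, inv_smul_smul]
  · simp only [one_mul, add_sub_cancel]
    rw [hg, pt_self, inv_smul_smul]
  · rw [dist_smul, dist_of_re_eq (by rw [re, re]), pt_im, pt_im, Real.log_exp, Real.log_exp,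
      ← dist_smul g z w, dist_of_re_eq hg, Real.dist_eq, Real.dist_eq, ← abs_mul, ← abs_neg]
    congr 1
    ring

lemma glue4 (α : ℍ → ℝ) (M : ℝ) (h : ∀ z, ∀ᶠ w in 𝓝 z, |α w - α z| ≤ M * dist w z) (z w : ℍ) :
    |α z - α w| ≤ M * dist z w := by
  obtain ⟨γ, h0, h1, hd⟩ := geodesic z w
  have cγ : Continuous γ := (LipschitzWith.of_dist_le' (K := dist z w) fun s t => (hd s t).le).continuous
  have loc : ∀ s, ∀ᶠ q in 𝓝 s, |α (γ q) - α (γ s)| ≤ M * dist z w * |q - s| := fun s =>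
    (cγ.continuousAt.eventually (h (γ s))).mono fun q hq => by rwa [hd, ← mul_assoc] at hq
  have ca : ∀ s, ContinuousAt (fun q => α (γ q)) s := fun s => contAt_of_lip (loc s)
  have two : ∀ σ : ℝ, |σ| = 1 → σ * (α z - α w) ≤ M * dist z w := by
    intro σ hσ
    have := mono_right (f := fun r => M * dist z w * r + σ * α (γ r)) zero_le_one
      (fun r _ => ((continuousAt_const.mul continuousAt_id).add
        (continuousAt_const.mul (ca r))).continuousWithinAt) fun r _ => by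
        filter_upwards [nhdsWithin_le_nhds (loc r), self_mem_nhdsWithin] with q q1 q2
        have q3 : r < q := q2
        rw [abs_of_pos (sub_pos.2 q3)] at q1
        have e : -(σ * (α (γ q) - α (γ r))) ≤ |α (γ q) - α (γ r)| := by
          refine (neg_le_abs _).trans ?_
          rw [abs_mul, hσ, one_mul]
        linarith
    simp only [h0, h1] at this
    linarith
  have p1 := two 1 abs_one
  have p2 := two (-1) (by simp)
  rw [abs_le]
  constructor <;> linarith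

end FGlu

theorem glue : GlueSt := fun S _ hC =>
  ⟨FGlu.glue1 S hC, FGlu.glue2 S hC, FGlu.glue3 S hC, FGlu.glue4⟩

end

end Pool.Agent.Lib.MP_21f752_an
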