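import Pool.Agent.Lib.MP_21f752_an.FG

/-! The index of a line in the disc with two ends on the circle. -/

namespace Pool.Agent.Lib.MP_21f752_an

open Set Filter Topology Metric Complex
open scoped Real

noncomputable section

namespace FIx

/-- `c` is the total change of the logarithm of `f` -/
def Chg (f : ℝ → ℂ) (c : ℂ) : Prop := ∃ A : ℝ → ℂ, Continuous A ∧ (∀ t, exp (A t) = f t) ∧
  ∃ a b, Tendsto A atBot (𝓝 a) ∧ Tendsto A atTop (𝓝 b) ∧ c = b - a

lemma const_of_exp {D : ℝ → ℂ} {s : Set ℝ} (hs : IsPreconnected s) (hD : ContinuousOn D s)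
    (h : ∀ t ∈ s, exp (D t) = 1) {a b : ℝ} (ha : a ∈ s) (hb : b ∈ s) : D a = D b := by
  have hp : (2 * π * I : ℂ) ≠ 0 := two_pi_I_ne_zero
  have hd : IsDiscrete (range fun n : ℤ => (n : ℂ)) :=
    (Complex.isClosedEmbedding_intCast).isEmbedding.isDiscrete_range
  have := hs.constant_of_mapsTo hd (f := fun t => D t / (2 * π * I)) (hD.div_const _)
    (fun t ht => by
      obtain ⟨n, hn⟩ := exp_eq_one_iff.1 (h t ht)
      exact ⟨n, by simp only [hn]; field_simp⟩) ha hb
  exact (div_left_inj' hp).1 this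

lemma lim_log {A f : ℝ → ℂ} (hA : Continuous A) (hf : Continuous f) (h : ∀ t, exp (A t) = f t)
    {b : ℂ} (hb : b ≠ 0) {l : Filter ℝ} (hl : Tendsto f l (𝓝 b))
    (hc : ∀ s ∈ l, ∃ u ∈ l, u ⊆ s ∧ IsPreconnected u) [l.NeBot] :
    ∃ a, Tendsto A l (𝓝 a) ∧ exp a = b := by
  have h1 : Tendsto (fun t => f t / b) l (𝓝 1) := by
    simpa [div_self hb] using hl.div_const b
  obtain ⟨u, hu, hus, huc⟩ := hc _ (h1.eventually (isOpen_slitPlane.mem_nhds one_mem_slitPlane))
  obtain ⟨t0, ht0⟩ := Filter.nonempty_of_mem hu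
  have hc' : ContinuousOn (fun t => A t - log (f t / b) - log b) u :=
    (hA.continuousOn.sub ((hf.continuousOn.div_const b).clog fun t ht => hus ht)).sub
      continuousOn_const
  have he : ∀ t ∈ u, exp (A t - log (f t / b) - log b) = 1 := fun t ht => by
    have : f t ≠ 0 := h t ▸ exp_ne_zero _
    rw [exp_sub, exp_sub, exp_log (div_ne_zero this hb), exp_log hb, h]
    field_simp
  refine ⟨A t0 - log (f t0 / b), ?_, ?_⟩
  · have h2 : Tendsto (fun t => log (f t / b) + (A t0 - log (f t0 / b))) l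
        (𝓝 (log 1 + (A t0 - log (f t0 / b)))) := (h1.clog one_mem_slitPlane).add_const _
    rw [log_one, zero_add] at h2
    refine h2.congr' ?_
    filter_upwards [hu] with t ht
    linear_combination const_of_exp huc hc' he ht0 ht
  · have := he t0 ht0
    rw [exp_sub, exp_log hb, div_eq_one_iff_eq hb] at this
    exact this

lemma chg_ex {f : ℝ → ℂ} (hf : Continuous f) (h0 : ∀ t, f t ≠ 0) {a b : ℂ} (ha : a ≠ 0)
    (hb : b ≠ 0) (h1 : Tendsto f atBot (𝓝 a)) (h2 : Tendsto f atTop (𝓝 b)) :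
    ∃ c, Chg f c ∧ exp c = b / a := by
  obtain ⟨A, ⟨-, hA⟩, -⟩ := isCoveringMap_exp.existsUnique_continuousMap_lifts
    (⟨fun t => ⟨f t, h0 t⟩, hf.subtype_mk _⟩ : C(ℝ, {z : ℂ // z ≠ 0})) 0 (log (f 0))
    (Subtype.ext (exp_log (h0 0)))
  have he : ∀ t, exp (A t) = f t := fun t => congrArg Subtype.val (congrFun hA t)
  obtain ⟨p, hp, ep⟩ := lim_log A.continuous hf he ha h1 fun s hs => by
    obtain ⟨T, hT⟩ := mem_atBot_sets.1 hs
    exact ⟨Iic T, Iic_mem_atBot T, hT, isPreconnected_Iic⟩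
  obtain ⟨q, hq, eq⟩ := lim_log A.continuous hf he hb h2 fun s hs => by
    obtain ⟨T, hT⟩ := mem_atTop_sets.1 hs
    exact ⟨Ici T, Ici_mem_atTop T, hT, isPreconnected_Ici⟩
  exact ⟨q - p, ⟨A, A.continuous, he, p, q, hp, hq, rfl⟩, by rw [exp_sub, ep, eq]⟩

lemma Chg.uniq {f : ℝ → ℂ} {c d : ℂ} (h : Chg f c) (h' : Chg f d) : c = d := by
  obtain ⟨A, hA, e, a, b, ha, hb, rfl⟩ := h
  obtain ⟨A', hA', e', a', b', ha', hb', rfl⟩ := h'
  have hk : ∀ t, A t - A' t = A 0 - A' 0 := fun t =>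
    const_of_exp (D := fun t => A t - A' t) isPreconnected_univ (hA.sub hA').continuousOn
      (fun t _ => by rw [exp_sub, e, ← e', div_self (exp_ne_zero _)]) (mem_univ t) (mem_univ 0)
  have h1 : a - a' = A 0 - A' 0 :=
    tendsto_nhds_unique (ha.sub ha') (by simpa only [hk] using tendsto_const_nhds)
  have h2 : b - b' = A 0 - A' 0 :=
    tendsto_nhds_unique (hb.sub hb') (by simpa only [hk] using tendsto_const_nhds)
  linear_combination h2 - h1

lemma Chg.mul {f g h : ℝ → ℂ} {c d : ℂ} (h1 : Chg f c) (h2 : Chg g d) (e : ∀ t, f t * g t = h t) :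
    Chg h (c + d) := by
  obtain ⟨A, hA, e1, a, b, ha, hb, rfl⟩ := h1
  obtain ⟨A', hA', e', a', b', ha', hb', rfl⟩ := h2
  exact ⟨fun t => A t + A' t, hA.add hA', fun t => by rw [exp_add, e1, e', e], _, _, ha.add ha',
    hb.add hb', by ring⟩

lemma chg_slit {f : ℝ → ℂ} (hf : Continuous f) (h0 : ∀ t, f t ∈ slitPlane) {a b : ℂ}
    (ha : a ∈ slitPlane) (hb : b ∈ slitPlane) (h1 : Tendsto f atBot (𝓝 a))
    (h2 : Tendsto f atTop (𝓝 b)) : Chg f (log b - log a) :=
  ⟨fun t => log (f t), hf.clog h0, fun t => exp_log (slitPlane_ne_zero (h0 t)), _, _, h1.clog ha,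
    h2.clog hb, rfl⟩

lemma chg_jump {f : ℝ → ℂ} (hf : Continuous f) {t0 : ℝ} (h0 : ∀ t, t ≠ t0 → f t ∈ slitPlane)
    (hr : (f t0).re < 0) (hi : (f t0).im = 0) (hl : ∀ᶠ t in 𝓝[<] t0, 0 < (f t).im)
    (hg : ∀ᶠ t in 𝓝[>] t0, (f t).im < 0) {a b : ℂ}
    (ha : a ∈ slitPlane) (hb : b ∈ slitPlane) (h1 : Tendsto f atBot (𝓝 a))
    (h2 : Tendsto f atTop (𝓝 b)) : Chg f (log b - log a + 2 * π * I) := by
  have hne : ∀ t, f t ≠ 0 := fun t => by
    by_cases h : t = t0
    · rintro e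
      rw [← h, e] at hr
      simp at hr
    · exact slitPlane_ne_zero (h0 t h)
  refine ⟨fun t => if t ≤ t0 then log (f t) else log (f t) + 2 * π * I,
    continuous_iff_continuousAt.2 fun t => ?_, fun t => ?_, log a, log b + 2 * π * I, ?_, ?_,
    by ring⟩
  · rcases lt_trichotomy t t0 with h | rfl | h
    · refine (hf.continuousAt.clog (h0 t h.ne)).congr ?_
      filter_upwards [Iio_mem_nhds h] with s hs using (if_pos (le_of_lt hs)).symm
    · have hc : ContinuousAt (fun s => log (-f s) + π * I) t :=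
        (hf.continuousAt.neg.clog (Or.inl (by simpa using hr))).add continuousAt_const
      refine hc.congr ?_
      rw [← nhdsLE_sup_nhdsGT, ← Iio_insert, nhdsWithin_insert, EventuallyEq, eventually_sup,
        eventually_sup, eventually_pure]
      refine ⟨⟨?_, ?_⟩, ?_⟩
      · rw [if_pos le_rfl]
        refine Complex.ext (by simp [log_re]) ?_
        have e1 : arg (f t) = π := arg_eq_pi_iff.2 ⟨hr, hi⟩
        have e2 : arg (-f t) = 0 := arg_eq_zero_iff.2 ⟨by simpa using hr.le, by simpa using hi⟩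
        simp [log_im, e1, e2]
      · filter_upwards [hl, self_mem_nhdsWithin] with s hs hs'
        rw [if_pos (le_of_lt hs')]
        refine Complex.ext (by simp [log_re]) ?_
        simp [log_im, arg_neg_eq_arg_sub_pi_of_im_pos hs]
      · filter_upwards [hg, self_mem_nhdsWithin] with s hs hs'
        rw [if_neg (not_le.2 hs')]
        refine Complex.ext (by simp [log_re]) ?_
        simp [log_im, arg_neg_eq_arg_add_pi_of_im_neg hs]
        ring
    · refine ((hf.continuousAt.clog (h0 t h.ne')).add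
        (continuousAt_const (y := (2 * π * I : ℂ)))).congr ?_
      filter_upwards [Ioi_mem_nhds h] with s hs using (if_neg (not_le.2 hs)).symm
  · dsimp only
    split_ifs
    · exact exp_log (hne t)
    · rw [exp_add, exp_log (hne t), exp_two_pi_mul_I, mul_one]
  · refine (h1.clog ha).congr' ?_
    filter_upwards [Iic_mem_atBot t0] with s hs using (if_pos hs).symm
  · refine ((h2.clog hb).add_const _).congr' ?_
    filter_upwards [Ioi_mem_atTop t0] with s hs using (if_neg (not_le.2 hs)).symm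

lemma log_div_pos {u w : ℂ} (hu : 0 < u.re) (hw : 0 < w.re) :
    u / w ∈ slitPlane ∧ log (u / w) = log u - log w := by
  have u0 : u ≠ 0 := fun e => by simp [e] at hu
  have a1 := abs_lt.1 (abs_arg_lt_pi_div_two_iff.2 (Or.inl hu))
  have a2 := abs_lt.1 (abs_arg_lt_pi_div_two_iff.2 (Or.inl hw))
  have w0 : w ≠ 0 := fun e => by simp [e] at hw
  have e : u / w = exp (log u - log w) := by rw [exp_sub, exp_log u0, exp_log w0]
  have e2 : log (u / w) = log u - log w := by
    rw [e, log_exp] <;> simp [log_im] <;> linarith [a1.1, a1.2, a2.1, a2.2]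
  refine ⟨mem_slitPlane_iff_arg.2 ⟨?_, div_ne_zero u0 w0⟩, e2⟩
  have := congrArg im e2
  simp only [log_im, sub_im] at this
  linarith [a1.1, a1.2, a2.1, a2.2]

lemma log_one_sub_ce {θ : ℝ} (h1 : 0 < θ) (h2 : θ < 2 * π) :
    0 < (1 - ce θ).re ∧ (log (1 - ce θ)).im = (θ - π) / 2 := by
  have hs : 0 < Real.sin (θ / 2) := Real.sin_pos_of_pos_of_lt_pi (by linarith) (by linarith)
  have e : 1 - ce θ = ((2 * Real.sin (θ / 2) : ℝ) : ℂ) * exp (((θ - π) / 2 : ℝ) * I) := by
    have h3 : (θ - π) / 2 = θ / 2 - π / 2 := by ring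
    have h4 : Real.cos θ = 1 - 2 * Real.sin (θ / 2) ^ 2 := by
      have := Real.cos_two_mul (θ / 2)
      rw [show 2 * (θ / 2) = θ by ring] at this
      nlinarith [Real.sin_sq_add_cos_sq (θ / 2)]
    have h5 : Real.sin θ = 2 * Real.sin (θ / 2) * Real.cos (θ / 2) := by
      rw [← Real.sin_two_mul]; congr 1; ring
    rw [h3]
    refine Complex.ext ?_ ?_
    · rw [re_ofReal_mul, exp_ofReal_mul_I_re, sub_re, ce, exp_ofReal_mul_I_re, Real.cos_sub_pi_div_two,
        h4, one_re]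
      ring
    · rw [im_ofReal_mul, exp_ofReal_mul_I_im, sub_im, ce, exp_ofReal_mul_I_im, Real.sin_sub_pi_div_two,
        h5, one_im]
      ring
  have ea : arg (1 - ce θ) = (θ - π) / 2 := by
    rw [e, arg_real_mul _ (by positivity), arg_exp_mul_I, toIocMod_eq_self]
    constructor <;> linarith [Real.pi_pos]
  refine ⟨?_, by rw [log_im, ea]⟩
  rcases abs_arg_lt_pi_div_two_iff.1 (show |arg (1 - ce θ)| < π / 2 by
    rw [ea, abs_lt]; constructor <;> linarith) with h | h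
  · exact h
  · rw [e] at h
    exact absurd h (mul_ne_zero (by exact_mod_cast (by positivity : (0 : ℝ) < _).ne')
      (exp_ne_zero _))

def Bz (x y : ℝ) (z : ℂ) : ℂ := (y - x) * I + log (1 - z * ce (-y)) - log (1 - z * ce (-x))

lemma ce_neg (x : ℝ) : ce x * ce (-x) = 1 := by rw [← ce_add, add_neg_cancel, ce_zero]

lemma sub_fac (x : ℝ) (z : ℂ) : ce x - z = ce x * (1 - z * ce (-x)) := by
  linear_combination z * ce_neg x

/-- a line in the disc with the ends `ce x` and `ce y` -/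
structure Ln (Θ : ℝ → ℂ) (x y : ℝ) : Prop where
  cont : Continuous Θ
  inn : ∀ t, ‖Θ t‖ < 1
  bot : Tendsto Θ atBot (𝓝 (ce x))
  top : Tendsto Θ atTop (𝓝 (ce y))

/-- holds on the closed disc without the two ends -/
def Okz (x y : ℝ) (z : ℂ) : Prop := 0 < (1 - z * ce (-x)).re ∧ 0 < (1 - z * ce (-y)).re

open Classical in
/-- the index of the line around `z` -/
def ix (Θ : ℝ → ℂ) (x y : ℝ) (z : ℂ) : ℤ :=
  if h : ∃ n : ℤ, Chg (fun t => Θ t - z) (Bz x y z + n * (2 * π * I)) then h.choose else 0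

lemma re_pos_of {x : ℝ} {z : ℂ} (h : ‖z‖ ≤ 1) (hx : z ≠ ce x) : 0 < (1 - z * ce (-x)).re := by
  have h1 : ‖z * ce (-x)‖ ≤ 1 := by rwa [norm_mul, norm_ce, mul_one]
  have h2 : z * ce (-x) ≠ 1 := fun e => hx (by linear_combination ce x * e - z * ce_neg x)
  by_contra hc
  have h3 : 1 ≤ (z * ce (-x)).re := by simpa using hc
  have h4 := re_le_norm (z * ce (-x))
  have h5 : (z * ce (-x)).re = ‖z * ce (-x)‖ := by linarith
  refine h2 (Complex.ext (by rw [one_re]; linarith) ?_)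
  exact ((re_eq_norm.1 h5).2).symm

lemma okz_of {x y : ℝ} {z : ℂ} (h : ‖z‖ ≤ 1) (hx : z ≠ ce x) (hy : z ≠ ce y) : Okz x y z :=
  ⟨re_pos_of h hx, re_pos_of h hy⟩

lemma okz_of_lt (x y : ℝ) {z : ℂ} (h : ‖z‖ < 1) : Okz x y z :=
  okz_of h.le (fun e => by rw [e, norm_ce] at h; exact lt_irrefl _ h)
    fun e => by rw [e, norm_ce] at h; exact lt_irrefl _ h

lemma okz_open (x y : ℝ) : IsOpen {z | Okz x y z} :=
  IsOpen.inter (s := {z | 0 < (1 - z * ce (-x)).re}) (t := {z | 0 < (1 - z * ce (-y)).re})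
    (isOpen_lt continuous_const (by fun_prop)) (isOpen_lt continuous_const (by fun_prop))

lemma Okz.ne {x y : ℝ} {z : ℂ} (h : Okz x y z) : ce x - z ≠ 0 ∧ ce y - z ≠ 0 := by
  rw [sub_fac, sub_fac]
  exact ⟨mul_ne_zero (ce_ne _) fun e => by simpa [e] using h.1,
    mul_ne_zero (ce_ne _) fun e => by simpa [e] using h.2⟩

lemma ix_eq {Θ : ℝ → ℂ} {x y : ℝ} {z : ℂ} {n : ℤ}
    (h : Chg (fun t => Θ t - z) (Bz x y z + n * (2 * π * I))) : ix Θ x y z = n := by
  have h' : ∃ n : ℤ, Chg (fun t => Θ t - z) (Bz x y z + n * (2 * π * I)) := ⟨n, h⟩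
  rw [ix, dif_pos h']
  have := h'.choose_spec.uniq h
  exact_mod_cast mul_right_cancel₀ two_pi_I_ne_zero (add_left_cancel this)

namespace Ln

variable {Θ : ℝ → ℂ} {x y : ℝ}

lemma spec (h : Ln Θ x y) {z : ℂ} (hz : Okz x y z) (h0 : ∀ t, Θ t ≠ z) :
    Chg (fun t => Θ t - z) (Bz x y z + ix Θ x y z * (2 * π * I)) := by
  obtain ⟨c, hc, e⟩ := chg_ex (h.cont.sub continuous_const) (fun t => sub_ne_zero.2 (h0 t))
    hz.ne.1 hz.ne.2 (h.bot.sub_const z) (h.top.sub_const z)
  have n1 : 1 - z * ce (-x) ≠ 0 := fun e => by simpa [e] using hz.1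
  have n2 : 1 - z * ce (-y) ≠ 0 := fun e => by simpa [e] using hz.2
  have : exp c = exp (Bz x y z) := by
    have e1 : exp ((y - x) * I) = ce y / ce x := by
      rw [ce, ce, ← exp_sub]
      congr 1
      ring
    rw [e, Bz, exp_sub, exp_add, exp_log n1, exp_log n2, e1, sub_fac, sub_fac, mul_div_mul_comm,
      mul_div_assoc]
  obtain ⟨n, hn⟩ := exp_eq_exp_iff_exists_int.1 this
  rw [hn] at hc
  rw [ix_eq hc]
  exact hc

lemma step (h : Ln Θ x y) {z w : ℂ} (hz : Okz x y z) (hw : Okz x y w) (h0 : ∀ t, Θ t ≠ z) {k : ℤ}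
    (hk : ∀ a b, a ∈ slitPlane → b ∈ slitPlane →
      Tendsto (fun t => (Θ t - w) / (Θ t - z)) atBot (𝓝 a) →
      Tendsto (fun t => (Θ t - w) / (Θ t - z)) atTop (𝓝 b) →
      Chg (fun t => (Θ t - w) / (Θ t - z)) (log b - log a + k * (2 * π * I))) :
    ix Θ x y w = ix Θ x y z + k := by
  obtain ⟨a1, a2⟩ := log_div_pos hw.1 hz.1
  obtain ⟨b1, b2⟩ := log_div_pos hw.2 hz.2
  have e : ∀ u : ℝ, (ce u - w) / (ce u - z) = (1 - w * ce (-u)) / (1 - z * ce (-u)) := fun u => by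
    rw [sub_fac, sub_fac, mul_div_mul_left _ _ (ce_ne u)]
  have := (h.spec hz h0).mul (h := fun t => Θ t - w) (hk _ _ a1 b1
    (e x ▸ (h.bot.sub_const w).div (h.bot.sub_const z) hz.ne.1)
    (e y ▸ (h.top.sub_const w).div (h.top.sub_const z) hz.ne.2))
    fun t => mul_div_cancel₀ _ (sub_ne_zero.2 (h0 t))
  refine ix_eq ?_
  convert this using 1
  rw [a2, b2, Bz, Bz]
  push_cast
  ring

lemma slit_of {p z w : ℂ} (h : p ∉ segment ℝ z w) : (p - w) / (p - z) ∈ slitPlane := by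
  have hz : p - z ≠ 0 := sub_ne_zero.2 fun e => h (e ▸ left_mem_segment ℝ _ w)
  by_contra hc
  rw [mem_slitPlane_iff, not_or, not_lt, not_not] at hc
  set s := -((p - w) / (p - z)).re
  have hs : 0 ≤ s := neg_nonneg.2 hc.1
  have e : (p - w) / (p - z) = -(s : ℂ) := Complex.ext (by simp [s]) (by simp [hc.2])
  rw [div_eq_iff hz] at e
  have h1 : (1 + s : ℂ) ≠ 0 := by exact_mod_cast (by positivity : (1 + s : ℝ) ≠ 0)
  refine h ⟨s / (1 + s), 1 / (1 + s), by positivity, by positivity, by field_simp; ring, ?_⟩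
  simp only [real_smul]
  push_cast
  field_simp
  linear_combination -e

/-- the index is constant along a segment that misses the line -/
theorem seg (h : Ln Θ x y) {z w : ℂ} (hz : Okz x y z) (hw : Okz x y w)
    (h0 : ∀ t, Θ t ∉ segment ℝ z w) : ix Θ x y w = ix Θ x y z := by
  have h1 : ∀ t, Θ t ≠ z := fun t e => h0 t (e ▸ left_mem_segment ℝ _ w)
  simpa using h.step hz hw h1 (k := 0) fun a b ha hb t1 t2 => by
    simpa using chg_slit (f := fun t => (Θ t - w) / (Θ t - z)) ((h.cont.sub continuous_const).div (h.cont.sub continuous_const)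
      fun t => sub_ne_zero.2 (h1 t)) (fun t => slit_of (h0 t)) ha hb t1 t2

/-- the line crosses the segment from `z` to `w` once, from its left to its right -/
theorem jump (h : Ln Θ x y) {z w : ℂ} (hz : Okz x y z) (hw : Okz x y w) {t0 : ℝ}
    (h0 : ∀ t, t ≠ t0 → Θ t ∉ segment ℝ z w) (hzw : z ≠ w) (h1 : Θ t0 ∈ openSegment ℝ z w)
    (hl : ∀ᶠ t in 𝓝[<] t0, 0 < ((Θ t - z) / (w - z)).im)
    (hg : ∀ᶠ t in 𝓝[>] t0, ((Θ t - z) / (w - z)).im < 0) : ix Θ x y w = ix Θ x y z + 1 := by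
  obtain ⟨a, b, ha, hb, hab, e⟩ := h1
  have hwz : w - z ≠ 0 := sub_ne_zero.2 hzw.symm
  have eab : (a : ℂ) + b = 1 := by exact_mod_cast hab
  simp only [real_smul] at e
  have e1 : Θ t0 - z = b * (w - z) := by linear_combination -e + z * eab
  have e2 : Θ t0 - w = -a * (w - z) := by linear_combination -e + w * eab
  have hb' : (b : ℂ) ≠ 0 := by exact_mod_cast hb.ne'
  have h1 : ∀ t, Θ t ≠ z := fun t e => by
    by_cases ht : t = t0
    · rw [← ht, e, sub_self] at e1
      exact mul_ne_zero hb' hwz e1.symm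
    · exact h0 t ht (e ▸ left_mem_segment ℝ _ w)
  have e3 : (Θ t0 - w) / (Θ t0 - z) = ((-a / b : ℝ) : ℂ) := by
    rw [e1, e2]
    push_cast
    field_simp
  have e4 : ∀ t, ((Θ t - w) / (Θ t - z)).im =
      ((Θ t - z) / (w - z)).im / normSq ((Θ t - z) / (w - z)) := fun t => by
    have : (Θ t - w) / (Θ t - z) = 1 - ((Θ t - z) / (w - z))⁻¹ := by
      have := sub_ne_zero.2 (h1 t)
      field_simp
      ring
    rw [this, sub_im, one_im, inv_im, zero_sub, neg_div, neg_neg]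
  have e5 : ∀ t, 0 < normSq ((Θ t - z) / (w - z)) := fun t =>
    normSq_pos.2 (div_ne_zero (sub_ne_zero.2 (h1 t)) hwz)
  refine h.step hz hw h1 (k := 1) fun p q hp hq t1 t2 => ?_
  simpa using chg_jump (f := fun t => (Θ t - w) / (Θ t - z)) ((h.cont.sub continuous_const).div (h.cont.sub continuous_const)
      fun t => sub_ne_zero.2 (h1 t)) (fun t ht => slit_of (h0 t ht))
      (by rw [e3, ofReal_re]; exact div_neg_of_neg_of_pos (neg_neg_of_pos ha) hb)
      (by rw [e3, ofReal_im])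
      (hl.mono fun t ht => by rw [e4]; exact div_pos ht (e5 t))
      (hg.mono fun t ht => by rw [e4]; exact div_neg_of_neg_of_pos ht (e5 t))
      hp hq t1 t2

/-- the line stays away from `z` outside an open set of parameters -/
lemma away (h : Ln Θ x y) {z : ℂ} (hz : Okz x y z) {s : Set ℝ} (hs : IsOpen s)
    (h0 : ∀ t, t ∉ s → Θ t ≠ z) : ∃ δ, 0 < δ ∧ ∀ t, t ∉ s → δ ≤ ‖Θ t - z‖ := by
  obtain ⟨a, ha⟩ := eventually_atBot.1 ((h.bot.sub_const z).norm.eventually
    (lt_mem_nhds (half_lt_self (norm_pos_iff.2 hz.ne.1))))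
  obtain ⟨b, hb⟩ := eventually_atTop.1 ((h.top.sub_const z).norm.eventually
    (lt_mem_nhds (half_lt_self (norm_pos_iff.2 hz.ne.2))))
  obtain ⟨d, hd, hd'⟩ := (isCompact_Icc.inter_right hs.isClosed_compl :
    IsCompact (Icc a b ∩ sᶜ)).exists_forall_le' (h.cont.sub continuous_const).norm.continuousOn
      (a := 0) fun t ht => norm_pos_iff.2 (sub_ne_zero.2 (h0 t ht.2))
  refine ⟨min d (min (‖ce x - z‖ / 2) (‖ce y - z‖ / 2)), lt_min hd (lt_min
    (half_pos (norm_pos_iff.2 hz.ne.1)) (half_pos (norm_pos_iff.2 hz.ne.2))), fun t ht => ?_⟩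
  rcases le_total t a with h1 | h1
  · exact (min_le_right _ _).trans ((min_le_left _ _).trans (ha t h1).le)
  rcases le_total b t with h2 | h2
  · exact (min_le_right _ _).trans ((min_le_right _ _).trans (hb t h2).le)
  exact (min_le_left _ _).trans (hd' t ⟨⟨h1, h2⟩, ht⟩)

/-- the index is locally constant off the line -/
theorem loc (h : Ln Θ x y) {z : ℂ} (hz : Okz x y z) (h0 : ∀ t, Θ t ≠ z) :
    ∀ᶠ w in 𝓝 z, Okz x y w ∧ (∀ t, Θ t ≠ w) ∧ ix Θ x y w = ix Θ x y z := by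
  obtain ⟨δ, hδ, hd⟩ := h.away hz isOpen_empty fun t _ => h0 t
  filter_upwards [(okz_open x y).mem_nhds hz, ball_mem_nhds z hδ] with w hw hb
  have : ∀ t, Θ t ∉ segment ℝ z w := fun t ht => by
    have := (convex_ball z δ).segment_subset (mem_ball_self hδ) hb ht
    rw [mem_ball, dist_eq_norm] at this
    exact this.not_ge (hd t (notMem_empty t))
  exact ⟨hw, fun t e => this t (e ▸ right_mem_segment ℝ z _), h.seg hz hw this⟩

/-- the index is constant on the continuous image of a connected set that misses the line -/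
theorem conn (h : Ln Θ x y) {X : Type} [TopologicalSpace X] {P : X → ℂ} {s : Set X}
    (hs : IsPreconnected s) (hP : ContinuousOn P s) (ho : ∀ a ∈ s, Okz x y (P a))
    (h0 : ∀ a ∈ s, ∀ t, Θ t ≠ P a) {a b : X} (ha : a ∈ s) (hb : b ∈ s) :
    ix Θ x y (P a) = ix Θ x y (P b) :=
  hs.constant (f := fun a => ix Θ x y (P a)) (fun c hc => by
    have := (hP c hc).eventually (h.loc (ho c hc) (h0 c hc))
    exact tendsto_const_nhds.congr' (this.mono fun _ h => h.2.2.symm)) ha hb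

lemma ne_ce (h : Ln Θ x y) (t l : ℝ) : Θ t ≠ ce l := fun e => by
  have := h.inn t
  rw [e, norm_ce] at this
  exact lt_irrefl _ this

lemma bd (h : Ln Θ x y) {l : ℝ} {j k : ℤ} (a1 : 0 < l - x + j * (2 * π))
    (a2 : l - x + j * (2 * π) < 2 * π) (b1 : 0 < l - y + k * (2 * π))
    (b2 : l - y + k * (2 * π) < 2 * π) : Okz x y (ce l) ∧ ix Θ x y (ce l) = j - k := by
  have e : ∀ (u : ℝ) (j : ℤ), ce l * ce (-u) = ce (l - u + j * (2 * π)) := fun u j => by
    rw [ce_add, ce_int, mul_one, ← ce_add, sub_eq_add_neg]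
  have e' : ∀ (u : ℝ) (j : ℤ), ce u * ce (-l) = ce (2 * π - (l - u + j * (2 * π))) := fun u j => by
    rw [← ce_add]
    exact ce_eq_iff.2 ⟨j - 1, by push_cast; ring⟩
  obtain ⟨p1, p2⟩ := log_one_sub_ce a1 a2
  obtain ⟨q1, q2⟩ := log_one_sub_ce b1 b2
  obtain ⟨r1, r2⟩ := log_one_sub_ce (θ := 2 * π - (l - x + j * (2 * π))) (by linarith) (by linarith)
  obtain ⟨s1, s2⟩ := log_one_sub_ce (θ := 2 * π - (l - y + k * (2 * π))) (by linarith) (by linarith)
  rw [← e] at p1 p2 q1 q2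
  rw [← e'] at r1 r2 s1 s2
  refine ⟨⟨p1, q1⟩, ?_⟩
  have c1 : Chg (fun t => 1 - Θ t * ce (-l)) _ := chg_slit (by have := h.cont; fun_prop)
    (fun t => Or.inl (re_pos_of (h.inn t).le (h.ne_ce t l))) (Or.inl r1) (Or.inl s1)
    ((h.bot.mul_const _).const_sub 1) ((h.top.mul_const _).const_sub 1)
  have c2 : Chg (fun _ => -ce l) 0 := ⟨fun _ => log (-ce l), continuous_const,
    fun _ => exp_log (neg_ne_zero.2 (ce_ne l)), _, _, tendsto_const_nhds, tendsto_const_nhds,
    (sub_self _).symm⟩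
  have c3 := (c1.mul c2 (h := fun t => Θ t - ce l) fun t => by
    linear_combination Θ t * ce_neg l).uniq (h.spec ⟨p1, q1⟩ fun t => h.ne_ce t l)
  have := congrArg im c3
  simp only [Bz, add_im, sub_im, p2, q2, r2, s2, zero_im] at this
  simp at this
  have h5 : ((ix Θ x y (ce l) : ℝ) - (j - k)) * (2 * π) = 0 := by linarith
  have h6 := (mul_eq_zero.1 h5).resolve_right (by positivity)
  exact_mod_cast sub_eq_zero.1 h6

/-- the right arc -/
theorem bdR (h : Ln Θ x y) (h2 : y < x + 2 * π) {l : ℝ} (a : x < l) (b : l < y) :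
    Okz x y (ce l) ∧ ix Θ x y (ce l) = -1 := by
  simpa using h.bd (l := l) (j := 0) (k := 1) (by simpa using a) (by simp; linarith)
    (by simp; linarith) (by simp; linarith)

/-- the left arc -/
theorem bdL (h : Ln Θ x y) (h1 : x < y) {l : ℝ} (a : y < l) (b : l < x + 2 * π) :
    Okz x y (ce l) ∧ ix Θ x y (ce l) = 0 := by
  simpa using h.bd (l := l) (j := 0) (k := 0) (by simp; linarith) (by simp; linarith)
    (by simp; linarith) (by simp; linarith)

/-- a curve that misses the line sees the index of each of its accumulation points -/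
theorem acc (h : Ln Θ x y) {P : ℝ → ℂ} {s : Set ℝ} (hs : IsPreconnected s) (hP : ContinuousOn P s)
    (hi : ∀ a ∈ s, ‖P a‖ < 1) (h0 : ∀ a ∈ s, ∀ t, Θ t ≠ P a) {z : ℂ} (hz : Okz x y z)
    (hz0 : ∀ t, Θ t ≠ z) (hc : z ∈ closure (P '' s)) {a : ℝ} (ha : a ∈ s) :
    ix Θ x y (P a) = ix Θ x y z := by
  obtain ⟨_, hw, b, hb, rfl⟩ := mem_closure_iff_nhds.1 hc _ (h.loc hz hz0)
  rw [h.conn hs hP (fun a ha => okz_of_lt x y (hi a ha)) h0 ha hb, hw.2.2]

/-- linked lines meet -/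
theorem meet (h : Ln Θ x y) (h1 : x < y) (h2 : y < x + 2 * π) {P : ℝ → ℂ} (hP : Continuous P)
    (hi : ∀ a, ‖P a‖ < 1) {l m : ℝ} (a1 : x < l) (a2 : l < y) (b1 : y < m) (b2 : m < x + 2 * π)
    (hl : ce l ∈ closure (range P)) (hm : ce m ∈ closure (range P)) : ∃ t s, Θ t = P s := by
  by_contra hc
  push Not at hc
  rw [← image_univ] at hl hm
  have e1 := h.acc isPreconnected_univ hP.continuousOn (fun a _ => hi a) (fun a _ t => hc t a)
    (h.bdR h2 a1 a2).1 (fun t => h.ne_ce t l) hl (mem_univ 0)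
  have e2 := h.acc isPreconnected_univ hP.continuousOn (fun a _ => hi a) (fun a _ t => hc t a)
    (h.bdL h1 b1 b2).1 (fun t => h.ne_ce t m) hm (mem_univ 0)
  rw [(h.bdR h2 a1 a2).2] at e1
  rw [(h.bdL h1 b1 b2).2] at e2
  omega

/-- local picture at a simple point with a strict derivative -/
theorem box (h : Ln Θ x y) {t0 : ℝ} {v : ℂ} (hv : v ≠ 0) (hd : HasStrictDerivAt Θ v t0)
    (hs : ∀ t, Θ t = Θ t0 → t = t0) : ∃ a : ℤ,
    (∀ ε : ℝ, 0 < ε → ∀ᶠ p : ℝ × ℂ in 𝓝 (t0, Θ t0),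
      (ε * |((p.2 - Θ p.1) / v).re| < ((p.2 - Θ p.1) / v).im →
        (∀ t, Θ t ≠ p.2) ∧ ix Θ x y p.2 = a + 1) ∧
      (ε * |((p.2 - Θ p.1) / v).re| < -((p.2 - Θ p.1) / v).im →
        (∀ t, Θ t ≠ p.2) ∧ ix Θ x y p.2 = a)) ∧
    ∀ᶠ z in 𝓝 (Θ t0), (∀ t, Θ t ≠ z) → ix Θ x y z = a ∨ ix Θ x y z = a + 1 := by
  have key : ∀ ε : ℝ, 0 < ε → ε ≤ 1 → ∃ a : ℤ, ∃ η, 0 < η ∧
      (∀ s t, |s - t0| ≤ η → |t - t0| ≤ η → s < t → 0 < ((Θ t - Θ s) / v).re) ∧
      ∀ᶠ z in 𝓝 (Θ t0), ∀ t, |t - t0| ≤ η →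
      (ε * |((z - Θ t) / v).re| < ((z - Θ t) / v).im → (∀ t, Θ t ≠ z) ∧ ix Θ x y z = a + 1) ∧
      (ε * |((z - Θ t) / v).re| < -((z - Θ t) / v).im → (∀ t, Θ t ≠ z) ∧ ix Θ x y z = a) := by
    intro ε hε hε1
    have nv : 0 < ‖v‖ := norm_pos_iff.2 hv
    have h1 := hd.hasStrictFDerivAt.isLittleO.bound (show 0 < ε / 2 * ‖v‖ by positivity)
    obtain ⟨η2, hη2, h2⟩ := Metric.eventually_nhds_iff.1 h1
    obtain ⟨η, hη, hηl⟩ := exists_between hη2
    have inc : ∀ s t, |s - t0| ≤ η → |t - t0| ≤ η →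
        |((Θ t - Θ s) / v).re - (t - s)| ≤ ε / 2 * |t - s| ∧
          |((Θ t - Θ s) / v).im| ≤ ε / 2 * |t - s| := fun s t hs ht => by
      have h3 := @h2 (t, s) (by
        rw [Prod.dist_eq, max_lt_iff]
        exact ⟨ht.trans_lt hηl, hs.trans_lt hηl⟩)
      have h4 : ‖(Θ t - Θ s) / v - ((t - s : ℝ) : ℂ)‖ ≤ ε / 2 * |t - s| := by
        have : (Θ t - Θ s) / v - ((t - s : ℝ) : ℂ) = (Θ t - Θ s - (t - s : ℝ) * v) / v := by
          field_simp
        rw [this, norm_div, div_le_iff₀ nv]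
        simpa [mul_right_comm] using h3
      exact ⟨by simpa using (abs_re_le_norm _).trans h4, by simpa using (abs_im_le_norm _).trans h4⟩
    have cone : ∀ s t, |s - t0| ≤ η → |t - t0| ≤ η →
        |((Θ t - Θ s) / v).im| ≤ ε * |((Θ t - Θ s) / v).re| := fun s t hs ht => by
      obtain ⟨a1, a2⟩ := inc s t hs ht
      have := abs_sub_abs_le_abs_sub (t - s) ((Θ t - Θ s) / v).re
      rw [abs_sub_comm (t - s)] at this
      have h5 : |t - s| / 2 ≤ |((Θ t - Θ s) / v).re| := by nlinarith [abs_nonneg (t - s)]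
      nlinarith
    have mon : ∀ s t, |s - t0| ≤ η → |t - t0| ≤ η → s < t → 0 < ((Θ t - Θ s) / v).re :=
      fun s t hs ht hst => by
        have := (abs_le.1 (inc s t hs ht).1).1
        rw [abs_of_pos (sub_pos.2 hst)] at this
        nlinarith [sub_pos.2 hst]
    have z0 : |t0 - t0| ≤ η := by simpa using hη.le
    obtain ⟨δ, hδ, far⟩ := h.away (okz_of_lt x y (h.inn t0)) (isOpen_ball (x := t0) (ε := η))
      fun t ht e => ht (hs t e ▸ mem_ball_self hη)
    obtain ⟨δ2, hδ2, hok⟩ := Metric.mem_nhds_iff.1 ((okz_open x y).mem_nhds (okz_of_lt x y (h.inn t0)))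
    set r := min δ δ2
    have hr : 0 < r := lt_min hδ hδ2
    have near : ∀ t, Θ t ∈ ball (Θ t0) r → |t - t0| ≤ η := fun t ht => by
      by_contra hc
      have := far t fun h' => hc (le_of_lt h')
      rw [mem_ball, dist_eq_norm] at ht
      exact (ht.trans_le (min_le_left _ _)).not_ge this
    have okb : ∀ z ∈ ball (Θ t0) r, Okz x y z := fun z hz =>
      hok (ball_subset_ball (min_le_right _ _) hz)
    set ρ := r / (3 * ‖v‖)
    have hρ : 0 < ρ := by positivity
    have top : ∀ σ : ℝ, |σ| = 1 → Θ t0 + (σ * (2 * ρ) : ℝ) * I * v ∈ ball (Θ t0) r := fun σ hσ => by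
      rw [mem_ball, dist_eq_norm, add_sub_cancel_left, norm_mul, norm_mul, norm_I, norm_real,
        Real.norm_eq_abs, abs_mul, hσ, abs_of_pos (by positivity : 0 < 2 * ρ)]
      have : ρ * (3 * ‖v‖) = r := div_mul_cancel₀ _ (by positivity)
      nlinarith [mul_pos hρ nv]
    have side : ∀ σ : ℝ, |σ| = 1 → ∀ z ∈ ball (Θ t0) r, ‖(z - Θ t0) / v‖ < ρ → ∀ t, |t - t0| ≤ η →
        ε * |((z - Θ t) / v).re| < σ * ((z - Θ t) / v).im →
        (∀ t, Θ t ≠ z) ∧ ix Θ x y z = ix Θ x y (Θ t0 + (σ * (2 * ρ) : ℝ) * I * v) := by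
      intro σ hσ z hz hzρ t ht hc
      have hσ2 : σ * σ = 1 := by rw [← abs_mul_abs_self, hσ, one_mul]
      have : ∀ u, Θ u ∉ segment ℝ z (Θ t0 + (σ * (2 * ρ) : ℝ) * I * v) := fun u hu => by
        have hu' := near u ((convex_ball _ _).segment_subset hz (top σ hσ) hu)
        rw [segment_eq_image'] at hu
        obtain ⟨s, ⟨s0, s1⟩, e⟩ := hu
        have e1 : (Θ u - Θ t) / v =
            (z - Θ t) / v + s * ((σ * (2 * ρ) : ℝ) * I - (z - Θ t0) / v) := by
          rw [← e]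
          simp only [real_smul]
          field_simp
          ring
        have c1 := cone t u ht hu'
        have r1 := (abs_re_le_norm _).trans_lt hzρ
        have r2 := (abs_im_le_norm _).trans_lt hzρ
        set p := (z - Θ t) / v
        set q := (z - Θ t0) / v
        have e2 : ((Θ u - Θ t) / v).re = p.re - s * q.re := by rw [e1]; simp; ring
        have e3 : σ * ((Θ u - Θ t) / v).im = σ * p.im + s * (2 * ρ - σ * q.im) := by
          rw [e1]
          simp
          linear_combination s * (2 * ρ) * hσ2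
        have c2 : σ * ((Θ u - Θ t) / v).im ≤ |((Θ u - Θ t) / v).im| := by
          rw [← one_mul |_|, ← hσ, ← abs_mul]; exact le_abs_self _
        have c3 : σ * q.im ≤ |q.im| := by rw [← one_mul |_|, ← hσ, ← abs_mul]; exact le_abs_self _
        have c4 : |p.re - s * q.re| ≤ |p.re| + s * |q.re| := by
          have := abs_sub p.re (s * q.re)
          rwa [abs_mul, abs_of_nonneg s0] at this
        rw [e2] at c1
        have c5 : s * |q.re| ≤ s * (2 * ρ - σ * q.im) := mul_le_mul_of_nonneg_left (by linarith) s0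
        have c6 : ε * (s * |q.re|) ≤ s * |q.re| :=
          mul_le_of_le_one_left (mul_nonneg s0 (abs_nonneg _)) hε1
        nlinarith [mul_le_mul_of_nonneg_left c4 hε.le]
      exact ⟨fun u e => this u (e ▸ left_mem_segment ℝ _ _),
        (h.seg (okb z hz) (okb _ (top σ hσ)) this).symm⟩
    set z1 := Θ t0 + ((-1 * (2 * ρ) : ℝ) : ℂ) * I * v
    set z2 := Θ t0 + ((1 * (2 * ρ) : ℝ) : ℂ) * I * v
    have hρ' : (ρ : ℂ) ≠ 0 := by exact_mod_cast hρ.ne'
    have e21 : z2 - z1 = 4 * ρ * I * v := by simp only [z1, z2]; push_cast; ring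
    have eq : ∀ t, ((Θ t - z1) / (z2 - z1)).im = -((Θ t - Θ t0) / v).re / (4 * ρ) := fun t => by
      have : (Θ t - z1) / (z2 - z1) = ((1 / 2 : ℝ) : ℂ) + ((-1 / (4 * ρ) : ℝ) : ℂ) *
          ((Θ t - Θ t0) / v * I) := by
        rw [e21]
        simp only [z1]
        push_cast
        field_simp
        linear_combination (Θ t - Θ t0) * 2 * I_mul_I
      rw [this, add_im, ofReal_im, im_ofReal_mul, mul_I_im]
      ring
    have hn : ∀ᶠ t in 𝓝 t0, |t - t0| ≤ η := closedBall_mem_nhds t0 hη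
    have neg : ∀ t, |t - t0| ≤ η → t < t0 → ((Θ t - Θ t0) / v).re < 0 := fun t ht h' => by
      have := mon t t0 ht z0 h'
      rw [← neg_sub, neg_div, neg_re] at this
      linarith
    have hj : ix Θ x y z2 = ix Θ x y z1 + 1 := by
      refine h.jump (okb _ (top (-1) (by simp))) (okb _ (top 1 (by simp))) (t0 := t0)
        (fun t ht hu => ?_) (sub_ne_zero.1 ?_).symm ⟨1 / 2, 1 / 2, by norm_num, by norm_num,
          by norm_num, ?_⟩ ?_ ?_
      · have hu' := near t ((convex_ball _ _).segment_subset (top (-1) (by simp))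
          (top 1 (by simp)) hu)
        rw [segment_eq_image'] at hu
        obtain ⟨s, -, e⟩ := hu
        have e1 : (Θ t - z1) / (z2 - z1) = s := by
          rw [← e]
          dsimp only
          rw [real_smul, add_sub_cancel_left, mul_div_cancel_right₀]
          rw [e21]
          simp [hρ', hv]
        have e2 := eq t
        rw [e1, ofReal_im, eq_comm, div_eq_zero_iff, neg_eq_zero] at e2
        have e3 := e2.resolve_right (by positivity)
        rcases lt_or_gt_of_ne ht with h' | h'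
        · exact (neg t hu' h').ne e3
        · exact (mon t0 t z0 hu' h').ne' e3
      · rw [e21]
        simp [hρ', hv]
      · simp only [z1, z2, real_smul]
        push_cast
        ring
      · filter_upwards [mem_nhdsWithin_of_mem_nhds hn, self_mem_nhdsWithin] with t ht ht'
        rw [eq]
        exact div_pos (neg_pos.2 (neg t ht ht')) (by positivity)
      · filter_upwards [mem_nhdsWithin_of_mem_nhds hn, self_mem_nhdsWithin] with t ht ht'
        rw [eq]
        exact div_neg_of_neg_of_pos (neg_neg_of_pos (mon t0 t z0 ht ht')) (by positivity)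
    refine ⟨ix Θ x y z1, η, hη, mon, ?_⟩
    have hq : ∀ᶠ z in 𝓝 (Θ t0), ‖(z - Θ t0) / v‖ < ρ :=
      ContinuousAt.eventually_lt (by fun_prop) continuousAt_const (by simpa using hρ)
    filter_upwards [ball_mem_nhds _ hr, hq] with z hz hz' t ht
    exact ⟨fun hc => hj ▸ side 1 (by simp) z hz hz' t ht (by rwa [one_mul]),
      fun hc => side (-1) (by simp) z hz hz' t ht (by rwa [neg_one_mul])⟩
  obtain ⟨a, η, hη, mon, ha⟩ := key 1 one_pos le_rfl
  have z0 : ∀ {η : ℝ}, 0 < η → |t0 - t0| ≤ η := fun hη => by simpa using hη.le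
  refine ⟨a, fun ε hε => ?_, ?_⟩
  · obtain ⟨b, η', hη', -, hb⟩ := key (min ε 1) (lt_min hε one_pos) (min_le_right _ _)
    have hab : b = a := by
      have ht : Tendsto (fun s : ℝ => Θ t0 + s * I * v) (𝓝[>] 0) (𝓝 (Θ t0)) :=
        (Continuous.tendsto' (by fun_prop) 0 _ (by simp)).mono_left nhdsWithin_le_nhds
      obtain ⟨s, ⟨s1, s2⟩, s3⟩ := ((ht.eventually (ha.and hb)).and self_mem_nhdsWithin).exists
      have e : (Θ t0 + s * I * v - Θ t0) / v = s * I := by field_simp; ring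
      have e1 := ((s1 t0 (z0 hη)).1 (by rw [e]; simpa using s3)).2
      have e2 := ((s2 t0 (z0 hη')).1 (by rw [e]; simpa using s3)).2
      omega
    have hn : ∀ᶠ t in 𝓝 t0, |t - t0| ≤ η' := closedBall_mem_nhds t0 hη'
    filter_upwards [hn.prod_nhds hb] with p hp
    have := mul_le_mul_of_nonneg_right (min_le_left ε 1) (abs_nonneg ((p.2 - Θ p.1) / v).re)
    exact hab ▸ ⟨fun hc => (hp.2 p.1 hp.1).1 (this.trans_lt hc),
      fun hc => (hp.2 p.1 hp.1).2 (this.trans_lt hc)⟩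
  · have m1 : |t0 - η - t0| ≤ η := by rw [sub_sub_cancel_left, abs_neg, abs_of_pos hη]
    have m2 : |t0 + η - t0| ≤ η := by rw [add_sub_cancel_left, abs_of_pos hη]
    have g1 : ∀ᶠ z in 𝓝 (Θ t0), 0 < ((z - Θ (t0 - η)) / v).re :=
      continuousAt_const.eventually_lt (by fun_prop) (mon _ _ m1 (z0 hη) (by linarith))
    have g2 : ∀ᶠ z in 𝓝 (Θ t0), ((z - Θ (t0 + η)) / v).re < 0 :=
      ContinuousAt.eventually_lt (by fun_prop) continuousAt_const (by
        have := mon _ _ (z0 hη) m2 (by linarith)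
        rw [← neg_sub, neg_div, neg_re] at this
        linarith)
    filter_upwards [ha, g1, g2] with z hz h1 h2 h0
    obtain ⟨t, ht, e⟩ := intermediate_value_Icc' (by linarith : t0 - η ≤ t0 + η)
      (f := fun t => ((z - Θ t) / v).re) (by have := h.cont; fun_prop) ⟨h2.le, h1.le⟩
    have ht' : |t - t0| ≤ η := abs_le.2 ⟨by linarith [ht.1], by linarith [ht.2]⟩
    dsimp only at e
    rcases lt_trichotomy ((z - Θ t) / v).im 0 with h3 | h3 | h3
    · exact Or.inl ((hz t ht').2 (by rw [e]; simpa using h3)).2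
    · have : (z - Θ t) / v = 0 := Complex.ext e h3
      exact (h0 t (sub_eq_zero.1 ((div_eq_zero_iff.1 this).resolve_right hv)).symm).elim
    · exact Or.inr ((hz t ht').1 (by rw [e]; simpa using h3)).2

end Ln

lemma den_ne (z : UpperHalfPlane) : (z : ℂ) + I ≠ 0 := fun e => by
  have := congrArg im e
  simp only [add_im, I_im, zero_im, UpperHalfPlane.coe_im] at this
  linarith [z.im_pos]

lemma cay_lt (z : UpperHalfPlane) : ‖cay z‖ < 1 := by
  rw [cay, norm_div, div_lt_one (norm_pos_iff.2 (den_ne z)), ← sq_lt_sq₀ (norm_nonneg _)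
    (norm_nonneg _), ← normSq_eq_norm_sq, ← normSq_eq_norm_sq, normSq_apply, normSq_apply]
  simp only [sub_re, sub_im, add_re, add_im, I_re, I_im, UpperHalfPlane.coe_im]
  nlinarith [z.im_pos]

lemma cay_cont : Continuous cay :=
  (UpperHalfPlane.continuous_coe.sub continuous_const).div
    (UpperHalfPlane.continuous_coe.add continuous_const) den_ne

lemma cay_inj : Function.Injective cay := fun z w e => by
  rw [cay, cay, div_eq_div_iff (den_ne z) (den_ne w)] at e
  refine UpperHalfPlane.ext (mul_left_cancel₀ (two_ne_zero' ℂ) (mul_left_cancel₀ I_ne_zero ?_))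
  linear_combination e

def dc (z : UpperHalfPlane) : ℂ := 2 * I / ((z : ℂ) + I) ^ 2

lemma dc_ne (z : UpperHalfPlane) : dc z ≠ 0 :=
  div_ne_zero (mul_ne_zero two_ne_zero I_ne_zero) (pow_ne_zero _ (den_ne z))

lemma dc_cont : Continuous dc :=
  continuous_const.div ((UpperHalfPlane.continuous_coe.add continuous_const).pow 2)
    fun z => pow_ne_zero _ (den_ne z)

lemma hd_cay {σ : ℝ → UpperHalfPlane} {u : ℂ} {t : ℝ} (h : HasDerivAt (fun s => (σ s : ℂ)) u t) :
    HasDerivAt (fun s => cay (σ s)) (u * dc (σ t)) t := by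
  refine ((h.sub_const I).div (h.add_const I) (den_ne _)).congr_deriv ?_
  have := den_ne (σ t)
  rw [dc]
  field_simp
  ring

lemma ln_of {Θ : ℝ → UpperHalfPlane} {x y : ℝ} (h : Line Θ x y) : Ln (fun t => cay (Θ t)) x y :=
  ⟨cay_cont.comp h.cont, fun _ => cay_lt _, h.lo, h.hi⟩

lemma side_of {σ : ℝ → ℂ} {u v : ℂ} (h : HasDerivAt σ u 0) {c : ℝ} (hu : 0 < c * (u / v).im) :
    ∃ ε, 0 < ε ∧ ∀ᶠ s in 𝓝[>] 0, ε * |((σ s - σ 0) / v).re| < c * ((σ s - σ 0) / v).im := by
  have h1 : Tendsto (fun s : ℝ => s⁻¹ • (σ s - σ 0) / v) (𝓝[>] 0) (𝓝 (u / v)) := by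
    simpa using h.tendsto_slope_zero_right.div_const v
  have h0 : 0 < |(u / v).re| + 1 := by positivity
  refine ⟨c * (u / v).im / (|(u / v).re| + 1), by positivity, ?_⟩
  have h2 := ((continuous_re.tendsto _).comp h1).abs.const_mul (c * (u / v).im / (|(u / v).re| + 1))
  have h3 := ((continuous_im.tendsto _).comp h1).const_mul c
  filter_upwards [h2.eventually_lt h3 (by
    rw [div_mul_eq_mul_div, div_lt_iff₀ h0]; nlinarith), self_mem_nhdsWithin] with s hs hs'
  have hs0 : 0 < s := hs'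
  have e : (σ s - σ 0) / v = (s : ℂ) * (s⁻¹ • (σ s - σ 0) / v) := by
    have : (s : ℂ) ≠ 0 := by exact_mod_cast hs0.ne'
    rw [real_smul]
    push_cast
    field_simp
  rw [e, re_ofReal_mul, im_ofReal_mul, abs_mul, abs_of_pos hs0]
  simp only [Function.comp] at hs
  nlinarith [mul_lt_mul_of_pos_left hs hs0]

lemma bl_of {P : ℂ → Prop} {l : ℝ} (h : ∀ᶠ w in 𝓝 (ce l), P w) :
    ∃ ε, 0 < ε ∧ ∀ z ∈ Bl l ε, P (cay z) := by
  obtain ⟨ε, hε, h⟩ := Metric.eventually_nhds_iff.1 h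
  exact ⟨ε, hε, fun z hz => h (by rwa [dist_eq_norm])⟩

end FIx

open FIx

theorem idx : IdxSt := by
  intro Θ x y h
  have L := ln_of h
  have nm : ∀ {z}, (∀ t, cay (Θ t) ≠ cay z) ↔ z ∉ range Θ :=
    ⟨fun h0 ⟨t, e⟩ => h0 t (congrArg cay e), fun h0 t e => h0 ⟨t, cay_inj e⟩⟩
  refine ⟨fun z => ix (fun t => cay (Θ t)) x y (cay z), ?_, fun A hA hd z hz w hw => ?_,
    fun l a b => ?_, fun l a b => ?_, fun t0 v hv hc hd hs => ?_⟩
  · refine isOpen_compl_iff.1 (isOpen_iff_mem_nhds.2 fun z hz => ?_)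
    exact (cay_cont.continuousAt.eventually (L.loc (okz_of_lt x y (cay_lt z)) (nm.2 hz))).mono
      fun w hw => nm.1 hw.2.1
  · exact L.conn hA cay_cont.continuousOn (fun a _ => okz_of_lt x y (cay_lt a))
      (fun a ha => nm.2 (disjoint_left.1 hd ha)) hz hw
  · obtain ⟨h1, h2⟩ := L.bdR h.lt2 a b
    obtain ⟨ε, hε, h3⟩ := bl_of (L.loc h1 fun t => L.ne_ce t l)
    exact ⟨ε, hε, fun z hz => ⟨nm.1 (h3 z hz).2.1, (h3 z hz).2.2.trans h2⟩⟩
  · obtain ⟨h1, h2⟩ := L.bdL h.lt a b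
    obtain ⟨ε, hε, h3⟩ := bl_of (L.loc h1 fun t => L.ne_ce t l)
    exact ⟨ε, hε, fun z hz => ⟨nm.1 (h3 z hz).2.1, (h3 z hz).2.2.trans h2⟩⟩
  · obtain ⟨m, h1, h2⟩ := L.box (mul_ne_zero hv (dc_ne (Θ t0)))
      (hasStrictDerivAt_of_hasDerivAt_of_continuousAt (f' := fun t => v t * dc (Θ t))
        (hd.mono fun t ht => hd_cay ht) (hc.mul (dc_cont.comp h.cont).continuousAt))
      fun t e => hs t (cay_inj e)
    refine ⟨m, (cay_cont.continuousAt.eventually h2).mono fun z hz h0 => hz (nm.2 h0),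
      fun σ u h0 hσ => ?_⟩
    have hσ' := hd_cay hσ
    have e : u * dc (σ 0) / (v t0 * dc (Θ t0)) = u / v t0 := by
      rw [h0, mul_div_mul_right _ _ (dc_ne _)]
    have ht : Tendsto (fun s => (t0, cay (σ s))) (𝓝[>] 0) (𝓝 (t0, cay (Θ t0))) :=
      tendsto_const_nhds.prodMk_nhds
        (h0 ▸ hσ'.continuousAt.tendsto.mono_left nhdsWithin_le_nhds)
    refine ⟨fun hu => ?_, fun hu => ?_⟩
    · obtain ⟨ε, hε, h3⟩ := side_of (v := v t0 * dc (Θ t0)) (c := 1) hσ' (by rwa [e, one_mul])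
      filter_upwards [h3, ht.eventually (h1 ε hε)] with s a b
      rw [one_mul, h0] at a
      exact ⟨nm.1 (b.1 a).1, (b.1 a).2⟩
    · obtain ⟨ε, hε, h3⟩ := side_of (v := v t0 * dc (Θ t0)) (c := -1) hσ'
        (by rw [e]; linarith)
      filter_upwards [h3, ht.eventually (h1 ε hε)] with s a b
      rw [neg_one_mul, h0] at a
      exact ⟨nm.1 (b.2 a).1, (b.2 a).2⟩

theorem sl : SlSt := by
  intro Θ1 Θ2 x1 y1 x2 y2 h1 h2 a b c d
  obtain ⟨s, t, e⟩ := (ln_of h1).meet h1.lt h1.lt2 (ln_of h2).cont (ln_of h2).inn a b c d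
    (mem_closure_of_tendsto h2.lo (Eventually.of_forall fun t => mem_range_self t))
    (mem_closure_of_tendsto h2.hi (Eventually.of_forall fun t => mem_range_self t))
  exact ⟨s, t, cay_inj e⟩

end

end Pool.Agent.Lib.MP_21f752_an
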