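import Pool.Agent.Lib.MP_21f752_an.FC

/-! The jump lemma at a node with the gap on the left. -/

namespace Pool.Agent.Lib.MP_21f752_an

open Set Filter Topology
open scoped Real

noncomputable section

namespace FJmp

variable {C : CS} {k : C.W}

lemma x_lam {w : C.W} (hw : w ∈ CW.K k) : C.x w ∈ CW.Lam k :=
  subset_closure ⟨w, hw, Or.inl rfl⟩

lemma x_gt (c1 : CW.Cell1 k) {p q : ℝ} (hg : CW.Gap k q (p + 2 * π)) {w : C.W} (hw : w ∈ CW.K k)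
    (h : q - 2 * π < C.x w) : p < C.x w := by
  by_contra hn
  have hn : C.x w ≤ p := not_lt.1 hn
  have hl : C.x w + (1 : ℤ) * (2 * π) ∈ CW.Lam k := (c1.per _ 1).2 (x_lam hw)
  obtain ⟨w', hx, -, -⟩ := C.shift w 1
  have hne := (c1.gapE _ _ hg w').2.1
  rw [hx] at hne
  simp only [Int.cast_one, one_mul] at hl hne
  exact hg.2.2.2 _ (by linarith) (lt_of_le_of_ne (by linarith) hne) hl

lemma depth {p a b : ℝ} (h : ∀ t, a ≤ t → t ≤ b → t ∉ CW.Xi k p) :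
    ∃ d, 0 < d ∧ ∀ w ∈ CW.K k, |C.x w - p| < d → C.y w < a ∨ b < C.y w := by
  have key : ∀ᶠ d in 𝓝 (0 : ℝ), ∀ t ∈ Icc a b, ∀ w ∈ CW.K k, |C.x w - p| < d → C.y w ≠ t := by
    refine isCompact_Icc.eventually_forall_of_forall_eventually fun t ht => ?_
    have := h t ht.1 ht.2
    simp only [CW.Xi, mem_ofPred_eq, not_forall, not_exists, not_and] at this
    obtain ⟨ε, hε, hw⟩ := this
    have h1 : ∀ᶠ z : ℝ × ℝ in 𝓝 (0, t), z.1 < ε :=
      (continuous_fst.tendsto _).eventually (gt_mem_nhds hε)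
    have h2 : ∀ᶠ z : ℝ × ℝ in 𝓝 (0, t), z.2 ∈ Metric.ball t ε :=
      (continuous_snd.tendsto _).eventually (Metric.ball_mem_nhds t hε)
    filter_upwards [h1, h2] with z a1 a2 w hw' hx hy
    refine hw w hw' (hx.trans a1) ?_
    rw [hy]
    exact a2
  obtain ⟨d, hd, hd0⟩ := ((key.filter_mono (nhdsWithin_le_nhds (s := Ioi 0))).and
    self_mem_nhdsWithin).exists
  refine ⟨d, hd0, fun w hw hx => ?_⟩
  by_contra hc
  simp only [not_or, not_lt] at hc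
  exact hd _ ⟨hc.1, hc.2⟩ w hw hx rfl

/-- the data of one fan at depth `e` -/
structure Bs (k : C.W) (p x1 m x2 e : ℝ) (F : Set C.W) (η a b ξ : ℝ) : Prop where
  η0 : 0 < η
  sub : F ⊆ CW.K k
  xs : ∀ f ∈ F, p + η < C.x f ∧ C.x f < p + e
  am : a < m
  mb : m < b
  ax : |a - x1| < e
  bx : |b - x2| < e
  ξ1 : p < ξ
  ξ2 : ξ < p + e
  fa : ∀ δ, 0 < δ → ∃ f ∈ F, |C.y f - a| < δ
  fb : ∀ δ, 0 < δ → ∃ f ∈ F, |C.y f - b| < δ

lemma lim_mem {F : Set C.W} {g : C.W → ℝ} {s : Set ℝ} (hs : IsClosed s) (h : ∀ f ∈ F, g f ∈ s)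
    {a : ℝ} (ha : ∀ δ, 0 < δ → ∃ f ∈ F, |g f - a| < δ) : a ∈ s := by
  rw [← hs.closure_eq, Metric.mem_closure_iff]
  intro δ hδ
  obtain ⟨f, hf, h1⟩ := ha δ hδ
  exact ⟨g f, h f hf, by rw [dist_comm]; exact h1⟩

lemma lev (c1 : CW.Cell1 k) (fd : CS.FD k) {p q x1 m x2 : ℝ} (hg : CW.Gap k q (p + 2 * π))
    (h1 : p < x1) (h2 : x1 < m) (h3 : m < x2) (h4 : x2 < q) (hx1 : x1 ∈ CW.Xi k p)
    (hx2 : x2 ∈ CW.Xi k p) (hno : ∀ t, x1 < t → t < x2 → t ∉ CW.Xi k p) {e : ℝ} (he : 0 < e) :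
    ∃ F η a b ξ μ, Bs k p x1 m x2 e F η a b ξ ∧
      ((∃ v, CW.Gap k a v ∧ (μ = a ∨ μ = v) ∧ C.Fing F ξ b μ) ∨
        ∃ u, CW.Gap k u b ∧ (μ = u ∨ μ = b) ∧ C.Fing F ξ a μ) := by
  have hq := hg.1
  obtain ⟨e1, e0, ea, eb, ec⟩ : ∃ e1, 0 < e1 ∧ 2 * e1 ≤ e ∧ 2 * e1 ≤ m - x1 ∧ 2 * e1 ≤ x2 - m :=
    ⟨min e (min (m - x1) (x2 - m)) / 2, by
      have := min_le_left e (min (m - x1) (x2 - m))
      have := min_le_right e (min (m - x1) (x2 - m))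
      have := min_le_left (m - x1) (x2 - m)
      have := min_le_right (m - x1) (x2 - m)
      have : 0 < min e (min (m - x1) (x2 - m)) := lt_min he (lt_min (by linarith) (by linarith))
      refine ⟨by linarith, by linarith, by linarith, by linarith⟩⟩
  obtain ⟨d, d0, hd⟩ := depth (k := k) (p := p) (a := x1 + e1) (b := x2 - e1)
    fun t a b => hno t (by linarith) (by linarith)
  obtain ⟨s, s0, sa, sb, sc, sd, se⟩ : ∃ s, 0 < s ∧ 2 * s ≤ d ∧ 2 * s ≤ e1 ∧ 2 * s ≤ x1 - p ∧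
      2 * s ≤ q - x2 ∧ 2 * s ≤ p + 2 * π - q := by
    have : ∀ᶠ s in 𝓝[>] (0 : ℝ), 0 < s ∧ 2 * s ≤ d ∧ 2 * s ≤ e1 ∧ 2 * s ≤ x1 - p ∧
        2 * s ≤ q - x2 ∧ 2 * s ≤ p + 2 * π - q := by
      have A : ∀ c : ℝ, 0 < c → ∀ᶠ s in 𝓝[>] (0 : ℝ), 2 * s ≤ c := fun c hc =>
        ((gt_mem_nhds (half_pos hc)).filter_mono nhdsWithin_le_nhds).mono fun s hs => by
          have : s < c / 2 := hs
          linarith
      filter_upwards [self_mem_nhdsWithin, A d d0, A e1 e0, A (x1 - p) (by linarith),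
        A (q - x2) (by linarith), A (p + 2 * π - q) (by linarith)] with s a b c d e f
      exact ⟨a, b, c, d, e, f⟩
    exact this.exists
  obtain ⟨w2, k2, a2, b2⟩ := hx2 s s0
  rw [abs_lt] at a2 b2
  have g2 : p < C.x w2 := x_gt c1 hg k2 (by linarith)
  obtain ⟨w1, k1, a1, b1⟩ := hx1 (C.x w2 - p) (by linarith)
  rw [abs_lt] at a1 b1
  have g1 : p < C.x w1 := x_gt c1 hg k1 (by linarith)
  obtain ⟨j1, j2, F, m1, m2, sub, -, c1, c2, c3, c4, hF, H⟩ := fd w1 k1 w2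
    ⟨by linarith, by linarith, by linarith, by linarith⟩ ((C.x w1 - p) / 2) (by linarith)
  rw [abs_lt] at c1 c2 c3 c4
  have hy : ∀ f ∈ F, C.y f ∈ Icc (x1 - e1) (x1 + e1) ∪ Icc (x2 - e1) (x2 + e1) := by
    intro f hf
    obtain ⟨f1, f2, f3, f4⟩ := hF f hf
    rcases hd f (sub hf) (abs_lt.2 ⟨by linarith, by linarith⟩) with h | h
    · exact Or.inl ⟨by linarith, h.le⟩
    · exact Or.inr ⟨h.le, by linarith⟩
  obtain ⟨a, b, ξ, μ, am, mb, fa, fb, H⟩ := H m e1 (by linarith) (by linarith) e0 fun f hf => by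
    rcases hy f hf with h | h
    · exact le_abs.2 (Or.inr (by linarith [h.2]))
    · exact le_abs.2 (Or.inl (by linarith [h.1]))
  have ha := lim_mem (isClosed_Icc.union isClosed_Icc) hy fa
  have hb := lim_mem (isClosed_Icc.union isClosed_Icc) hy fb
  have hξ : ξ ∈ Icc (C.x j1) (C.x j2) := by
    refine lim_mem (F := F) (g := C.x) isClosed_Icc (fun f hf => ⟨(hF f hf).1, (hF f hf).2.1⟩)
      fun δ hδ => ?_
    rcases H with ⟨v, -, -, h⟩ | ⟨v, -, -, h⟩ <;>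
    · obtain ⟨f, hf, h, -⟩ := h δ hδ
      exact ⟨f, hf, h⟩
  refine ⟨F, (C.x w1 - p) / 2, a, b, ξ, μ, ⟨by linarith, sub, fun f hf => ?_, am, mb, ?_, ?_,
    by linarith [hξ.1], by linarith [hξ.2], fa, fb⟩, H⟩
  · obtain ⟨f1, f2, -⟩ := hF f hf
    exact ⟨by linarith, by linarith⟩
  · rcases ha with h | h
    · exact abs_lt.2 ⟨by linarith [h.1], by linarith [h.2]⟩
    · linarith [h.1]
  · rcases hb with h | h
    · linarith [h.2]
    · exact abs_lt.2 ⟨by linarith [h.1], by linarith [h.2]⟩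

lemma small {P : ℝ → Prop} (h : ∃ᶠ e in 𝓝[>] (0 : ℝ), P e) {ε : ℝ} (hε : 0 < ε) :
    ∃ e, e < ε ∧ P e := by
  obtain ⟨e, h1, h2⟩ := (h.and_eventually
    ((gt_mem_nhds hε).filter_mono nhdsWithin_le_nhds)).exists
  exact ⟨e, h2, h1⟩

/-- fingers at all depths give a finger in the limit -/
lemma fing_lim {p b l : ℝ} (h : ∀ ε, 0 < ε → ∃ F ξ b' μ, F ⊆ CW.K k ∧ |ξ - p| < ε ∧
    |b' - b| < ε ∧ |μ - l| < ε ∧ C.Fing F ξ b' μ) : C.Fing (CW.K k) p b l := by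
  intro δ hδ
  obtain ⟨F, ξ, b', μ, sub, a1, a2, a3, H⟩ := h (δ / 2) (half_pos hδ)
  obtain ⟨f, hf, b1, b2, b3⟩ := H (δ / 2) (half_pos hδ)
  refine ⟨f, sub hf, ?_, ?_, C.mono' _ _ _ _ (C.mono _ _ l _ b3) (by linarith)⟩
  · rw [abs_lt] at *
    constructor <;> linarith [a1.1, a1.2, b1.1, b1.2]
  · rw [abs_lt] at *
    constructor <;> linarith [a2.1, a2.2, b2.1, b2.2]

lemma ne_per {a l : ℝ} (h0 : a ≠ l) (h : |a - l| < 2 * π) (j : ℤ) : a + j * (2 * π) ≠ l := by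
  intro hj
  have hπ := Real.pi_pos
  rw [abs_lt] at h
  rcases lt_trichotomy j 0 with c | c | c
  · have : (j : ℝ) ≤ -1 := by exact_mod_cast Int.le_sub_one_of_lt c
    nlinarith [h.2]
  · subst c
    exact h0 (by simpa using hj)
  · have : (1 : ℝ) ≤ j := by exact_mod_cast c
    nlinarith [h.1]

/-- a finger ends at the end of a gap -/
lemma fing_gap (c2 : CW.Cell2 k) {p b l : ℝ} (h : C.Fing (CW.K k) p b l) (hl : l ∈ CW.Lam k)
    (a1 : p ≠ l) (a2 : |p - l| < 2 * π) (b1 : b ≠ l) (b2 : |b - l| < 2 * π)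
    (hu : ∀ ε, 0 < ε → ∃ t ∈ CW.Lam k, l - ε < t ∧ t < l) : ∃ v, CW.Gap k l v := by
  by_contra hn
  have hs := c2.v2 l hl (fun v hv => hn ⟨v, hv⟩) fun u hu' => by
    obtain ⟨t, ht, t1, t2⟩ := hu (l - u) (sub_pos.2 hu'.1)
    exact hu'.2.2.2 t (by linarith) t2 ht
  obtain ⟨ε, hε, H⟩ := C.v1 l p b hs fun j => ⟨ne_per a1 a2 j, ne_per b1 b2 j⟩
  obtain ⟨f, -, f1, f2, f3⟩ := h ε hε
  exact H f f1 f2 f3

lemma gap_le {u v t : ℝ} (h : CW.Gap k u v) (ht : t ∈ CW.Lam k) (hu : u < t) : v ≤ t :=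
  not_lt.1 fun c => h.2.2.2 t hu c ht

lemma gap_ge {u v t : ℝ} (h : CW.Gap k u v) (ht : t ∈ CW.Lam k) (hv : t < v) : t ≤ u :=
  not_lt.1 fun c => h.2.2.2 t c hv ht

lemma gap_up {u v v' : ℝ} (h : CW.Gap k u v) (h' : CW.Gap k u v') : v = v' :=
  le_antisymm (gap_le h h'.2.2.1 h'.1) (gap_le h' h.2.2.1 h.1)

lemma gap_dn {u u' v : ℝ} (h : CW.Gap k u v) (h' : CW.Gap k u' v) : u = u' :=
  le_antisymm (gap_ge h' h.2.1 h.1) (gap_ge h h'.2.1 h'.1)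

lemma fing_mono {F : Set C.W} {ξ a μ : ℝ} (hF : F ⊆ CW.K k) (h : C.Fing F ξ a μ) :
    C.Fing (CW.K k) ξ a μ := fun δ hδ =>
  let ⟨f, hf, r⟩ := h δ hδ
  ⟨f, hF hf, r⟩

lemma Bs.ξp {p x1 m x2 e : ℝ} {F : Set C.W} {η a b ξ : ℝ} (h : Bs k p x1 m x2 e F η a b ξ) :
    |ξ - p| < e := abs_lt.2 ⟨by linarith [h.ξ1, h.ξ2], by linarith [h.ξ2]⟩

end FJmp

open FJmp in
theorem jump (h1 : Cell1St) (h2 : Cell2St) (hn : NodeSt) (hf : FDSt) : JumpSt := by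
  intro C k p q x1 m x2 nd o1 o2 o3 o4 hm hx1 hx2 hno
  have c1 := h1 C.toCW k
  have c2 := h2 C.toCW k
  have hg : CW.Gap k q (p + 2 * π) := by simpa using nd.gap
  have hq := hg.1
  have l1 : x1 ∈ CW.Lam k := ((hn C.toCW k).1 p).2 hx1
  have l2 : x2 ∈ CW.Lam k := ((hn C.toCW k).1 p).2 hx2
  have main : ∃ᶠ e in 𝓝[>] (0 : ℝ),
      ((∃ F η b ξ v, Bs k p x1 m x2 e F η x1 b ξ ∧ CW.Gap k x1 v ∧ C.Fing F ξ b x1) ∨
      (∃ F η b ξ v, Bs k p x1 m x2 e F η x1 b ξ ∧ CW.Gap k x1 v ∧ C.Fing F ξ b v) ∨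
      (∃ F η a b ξ μ v, Bs k p x1 m x2 e F η a b ξ ∧ a < x1 ∧ CW.Gap k a v ∧ (μ = a ∨ μ = v) ∧
        C.Fing F ξ b μ) ∨
      ∃ F η a b ξ μ v, Bs k p x1 m x2 e F η a b ξ ∧ x1 < a ∧ CW.Gap k a v ∧ (μ = a ∨ μ = v) ∧
        C.Fing F ξ b μ) ∨
      (∃ F η a ξ u, Bs k p x1 m x2 e F η a x2 ξ ∧ CW.Gap k u x2 ∧ C.Fing F ξ a x2) ∨
      (∃ F η a ξ u, Bs k p x1 m x2 e F η a x2 ξ ∧ CW.Gap k u x2 ∧ C.Fing F ξ a u) ∨
      (∃ F η a b ξ μ u, Bs k p x1 m x2 e F η a b ξ ∧ b < x2 ∧ CW.Gap k u b ∧ (μ = u ∨ μ = b) ∧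
        C.Fing F ξ a μ) ∨
      ∃ F η a b ξ μ u, Bs k p x1 m x2 e F η a b ξ ∧ x2 < b ∧ CW.Gap k u b ∧ (μ = u ∨ μ = b) ∧
        C.Fing F ξ a μ := by
    refine Eventually.frequently (eventually_nhdsWithin_of_forall fun e he => ?_)
    obtain ⟨F, η, a, b, ξ, μ, B, ⟨v, g, hμ, H⟩ | ⟨u, g, hμ, H⟩⟩ :=
      lev c1 (hf C k) hg o1 o2 o3 o4 hx1 hx2 hno he
    · left
      rcases lt_trichotomy a x1 with c | rfl | c
      · exact Or.inr (Or.inr (Or.inl ⟨F, η, a, b, ξ, μ, v, B, c, g, hμ, H⟩))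
      · rcases hμ with rfl | rfl
        · exact Or.inl ⟨F, η, b, ξ, v, B, g, H⟩
        · exact Or.inr (Or.inl ⟨F, η, b, ξ, μ, B, g, H⟩)
      · exact Or.inr (Or.inr (Or.inr ⟨F, η, a, b, ξ, μ, v, B, c, g, hμ, H⟩))
    · right
      rcases lt_trichotomy b x2 with c | rfl | c
      · exact Or.inr (Or.inr (Or.inl ⟨F, η, a, b, ξ, μ, u, B, c, g, hμ, H⟩))
      · rcases hμ with rfl | rfl
        · exact Or.inr (Or.inl ⟨F, η, a, ξ, μ, B, g, H⟩)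
        · exact Or.inl ⟨F, η, a, ξ, u, B, g, H⟩
      · exact Or.inr (Or.inr (Or.inr ⟨F, η, a, b, ξ, μ, u, B, c, g, hμ, H⟩))
  simp only [frequently_or_distrib] at main
  rcases main with (H | H | H | H) | H | H | H | H
  · obtain ⟨-, -, -, -, -, -, v, -, g, -⟩ := small H one_pos
    refine Or.inl ⟨v, x1, g, Or.inl rfl, fing_lim fun ε hε => ?_⟩
    obtain ⟨e, he, F, η, b, ξ, -, B, -, f⟩ := small H hε
    exact ⟨F, ξ, b, x1, B.sub, B.ξp.trans he, B.bx.trans he, by simpa using hε, f⟩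
  · obtain ⟨-, -, -, -, -, -, v, -, g, -⟩ := small H one_pos
    refine Or.inl ⟨v, v, g, Or.inr rfl, fing_lim fun ε hε => ?_⟩
    obtain ⟨e, he, F, η, b, ξ, v', B, g', f⟩ := small H hε
    rw [gap_up g' g] at f
    exact ⟨F, ξ, b, v, B.sub, B.ξp.trans he, B.bx.trans he, by simpa using hε, f⟩
  · have fg : C.Fing (CW.K k) p x2 x1 := fing_lim fun ε hε => by
      obtain ⟨e, he, F, η, a, b, ξ, μ, v, B, c, g, hμ, f⟩ := small H hε
      refine ⟨F, ξ, b, μ, B.sub, B.ξp.trans he, B.bx.trans he, ?_, f⟩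
      have := gap_le g l1 c
      have := abs_lt.1 B.ax
      have := g.1
      rcases hμ with rfl | rfl <;> exact abs_lt.2 ⟨by linarith, by linarith⟩
    obtain ⟨v, g⟩ := fing_gap c2 fg l1 o1.ne (abs_lt.2 ⟨by linarith, by linarith⟩)
      (by linarith) (abs_lt.2 ⟨by linarith, by linarith⟩) fun ε hε => by
        obtain ⟨e, he, F, η, a, b, ξ, μ, v, B, c, g, -⟩ := small H hε
        exact ⟨a, g.2.1, by linarith [(abs_lt.1 B.ax).1], c⟩
    exact Or.inl ⟨v, x1, g, Or.inl rfl, fg⟩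
  · exfalso
    have fg : C.Fing (CW.K k) p x2 x1 := fing_lim fun ε hε => by
      obtain ⟨e0, he0, _, _, a0, _, _, _, _, B0, c0, g0, -⟩ := small H hε
      have := abs_lt.1 B0.ax
      obtain ⟨e, he, F, η, a, b, ξ, μ, v, B, c, g, hμ, f⟩ := small H (sub_pos.2 c0)
      have := abs_lt.1 B.ax
      have := gap_le g g0.2.1 (by linarith)
      have := g.1
      refine ⟨F, ξ, b, μ, B.sub, B.ξp.trans (by linarith), B.bx.trans (by linarith), ?_, f⟩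
      rcases hμ with rfl | rfl <;> exact abs_lt.2 ⟨by linarith, by linarith⟩
    obtain ⟨e, he, F, η, a, b, ξ, μ, v, B, c, -⟩ := small H (sub_pos.2 o1)
    obtain ⟨w, hw, hy⟩ := B.fa (min (a - x1) (m - a)) (lt_min (by linarith) (by linarith [B.am]))
    have y1 := abs_lt.1 (hy.trans_le (min_le_left _ _))
    have y2 := abs_lt.1 (hy.trans_le (min_le_right _ _))
    have := B.xs w hw
    have := B.η0
    obtain ⟨r, hr, av⟩ := C.avR w x1 (by linarith) (by linarith)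
    obtain ⟨f, -, f1, f2, f3⟩ := fg (min r (min η (x2 - m))) (lt_min hr (lt_min B.η0 (by linarith)))
    have z1 := abs_lt.1 (f1.trans_le ((min_le_right _ _).trans (min_le_left _ _)))
    have z2 := abs_lt.1 (f2.trans_le ((min_le_right _ _).trans (min_le_right _ _)))
    exact av f (by linarith) (by linarith) (C.mono' _ _ _ _ f3 (min_le_left _ _))
  · obtain ⟨-, -, -, -, -, -, u, -, g, -⟩ := small H one_pos
    refine Or.inr (Or.inr ⟨u, x2, g, Or.inr rfl, fun ε hε => ?_⟩)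
    obtain ⟨e, he, F, η, a, ξ, -, B, -, f⟩ := small H hε
    refine ⟨ξ, a, η, B.ξ1, by linarith [B.ξ2], B.ax.trans he, fing_mono B.sub f, B.η0,
      fun δ hδ => ?_⟩
    obtain ⟨w, hw, hy⟩ := B.fb δ hδ
    exact ⟨w, B.sub hw, (B.xs w hw).1, by linarith [(B.xs w hw).2], hy⟩
  · obtain ⟨-, -, -, -, -, -, u, -, g, -⟩ := small H one_pos
    refine Or.inr (Or.inr ⟨u, u, g, Or.inl rfl, fun ε hε => ?_⟩)
    obtain ⟨e, he, F, η, a, ξ, u', B, g', f⟩ := small H hε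
    rw [gap_dn g' g] at f
    refine ⟨ξ, a, η, B.ξ1, by linarith [B.ξ2], B.ax.trans he, fing_mono B.sub f, B.η0,
      fun δ hδ => ?_⟩
    obtain ⟨w, hw, hy⟩ := B.fb δ hδ
    exact ⟨w, B.sub hw, (B.xs w hw).1, by linarith [(B.xs w hw).2], hy⟩
  · have fg : C.Fing (CW.K k) p x1 x2 := fing_lim fun ε hε => by
      obtain ⟨e0, he0, _, _, _, b0, _, _, _, B0, c0, g0, -⟩ := small H hε
      have := abs_lt.1 B0.bx
      obtain ⟨e, he, F, η, a, b, ξ, μ, u, B, c, g, hμ, f⟩ := small H (sub_pos.2 c0)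
      have := abs_lt.1 B.bx
      have := gap_ge g g0.2.2.1 (by linarith)
      have := g.1
      refine ⟨F, ξ, a, μ, B.sub, B.ξp.trans (by linarith), B.ax.trans (by linarith), ?_, f⟩
      rcases hμ with rfl | rfl <;> exact abs_lt.2 ⟨by linarith, by linarith⟩
    refine Or.inr (Or.inl ⟨fing_gap c2 fg l2 (by linarith) (abs_lt.2 ⟨by linarith, by linarith⟩)
      (by linarith) (abs_lt.2 ⟨by linarith, by linarith⟩) fun ε hε => ?_, fun ε hε => ?_⟩)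
    · obtain ⟨e, he, F, η, a, b, ξ, μ, v, B, c, g, -⟩ := small H hε
      exact ⟨b, g.2.2.1, by linarith [(abs_lt.1 B.bx).1], c⟩
    · obtain ⟨e, he, F, η, a, b, ξ, μ, u, B, c, g, hμ, f⟩ := small H hε
      exact ⟨u, b, μ, ξ, a, g, gap_ge g hm B.mb, c.le, hμ, B.ξ1, by linarith [B.ξ2],
        B.ax.trans he, fing_mono B.sub f⟩
  · exfalso
    have hne : ∀ v, ¬CW.Gap k x2 v := fun v gv => by
      obtain ⟨e, he, _, _, _, b, _, _, _, B, c, g, -⟩ := small H (sub_pos.2 gv.1)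
      have := gap_le gv g.2.2.1 c
      linarith [(abs_lt.1 B.bx).2]
    obtain ⟨e, he, F, η, a, b, ξ, μ, u, B, c, g, hμ, f⟩ := small H (sub_pos.2 o4)
    have := abs_lt.1 B.bx
    have hu : x2 < u := lt_of_le_of_ne (gap_ge g l2 c) fun h => hne b (h ▸ g)
    have := g.1
    have m1 : x2 < μ := by rcases hμ with rfl | rfl <;> linarith
    have m2 : μ ≤ b := by rcases hμ with rfl | rfl <;> linarith
    obtain ⟨w, hw, a1, a2⟩ := hx2 (min (min η (p + 2 * π - q)) (min (μ - x2) (x2 - m)))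
      (lt_min (lt_min B.η0 (by linarith)) (lt_min (by linarith) (by linarith)))
    have y1 := abs_lt.1 (a1.trans_le ((min_le_left _ _).trans (min_le_left _ _)))
    have y2 := abs_lt.1 (a1.trans_le ((min_le_left _ _).trans (min_le_right _ _)))
    have y3 := abs_lt.1 (a2.trans_le ((min_le_right _ _).trans (min_le_left _ _)))
    have y4 := abs_lt.1 (a2.trans_le ((min_le_right _ _).trans (min_le_right _ _)))
    have := x_gt c1 hg hw (by linarith)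
    obtain ⟨r, hr, av⟩ := C.avL w μ (by linarith) (by linarith)
    obtain ⟨j, hj, -, f2, f3⟩ := f (min r (m - a)) (lt_min hr (sub_pos.2 B.am))
    have z2 := abs_lt.1 (f2.trans_le (min_le_right _ _))
    exact av j (by linarith [(B.xs j hj).1]) (by linarith) (C.mono' _ _ _ _ f3 (min_le_left _ _))

end

end Pool.Agent.Lib.MP_21f752_an
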