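import Pool.Agent.Lib.MP_21f752_an.FG

/-! Laminations are null. -/

namespace Pool.Agent.Lib.MP_21f752_an

open UpperHalfPlane Set Filter Topology Metric MeasureTheory
open scoped MatrixGroups ContDiff Real

noncomputable section

namespace FLam

lemma co (G : Geo) (t : ℝ) : Continuous fun η : N => G.o η t :=
  (G.continuous_φ.comp (continuous_const.prodMk continuous_id)).fst

lemma ct (G : Geo) (η : N) : Continuous (G.o η) :=
  (G.continuous_φ.comp (continuous_id.prodMk continuous_const)).fst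

/-- an orbit which visits both sides of a wall is stably crossing -/
lemma stab (G : Geo) {ξ ζ : N} {x y : ℝ} {L R : Set ℍ} (h : G.Sides ζ x y L R) {s t : ℝ}
    (a : G.o ξ s ∈ L) (b : G.o ξ t ∈ R) : ∀ᶠ η in 𝓝 ξ, ¬G.Dis η ζ := by
  filter_upwards [(co G s).continuousAt.eventually (h.oL.mem_nhds a),
    (co G t).continuousAt.eventually (h.oR.mem_nhds b)] with η c d e
  have k : range (G.o η) ⊆ L ∪ R := by
    rw [h.un]
    rintro _ ⟨r, rfl⟩ ⟨r', f⟩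
    exact e r r' f.symm
  rcases (isPreconnected_range (ct G η)).subset_or_subset h.oL h.oR h.dis k with m | m
  · exact h.dis.le_bot ⟨m ⟨t, rfl⟩, d⟩
  · exact h.dis.le_bot ⟨c, m ⟨s, rfl⟩⟩

/-- transversal crossings persist -/
lemma cross (hs : SideSt) (G : Geo) {p : ℍ} {θ θ' x y : ℝ} (h : G.Wl (p, θ') x y)
    (k : Real.sin (θ - θ') ≠ 0) : ∀ᶠ η in 𝓝 ((p, θ) : N), ¬G.Dis η (p, θ') := by
  obtain ⟨L, R, H⟩ := hs G _ x y h
  have e0 : ∀ a : ℝ, G.o (p, a) 0 = p := fun a => by simp only [Geo.o, G.φ_zero]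
  have q : (G.V (p, θ) / G.V (G.φ 0 (p, θ'))).im = Real.sin (θ - θ') := by
    have : ((p, θ) : N) = rot (θ - θ') (p, θ') := by simp [rot]
    rw [G.φ_zero, this, G.V_rot, mul_div_assoc, div_self (G.V_ne _), mul_one]
    exact Complex.exp_ofReal_mul_I_im _
  have d1 : HasDerivAt (fun s => (G.o (p, θ) s : ℂ)) (G.V (p, θ)) 0 := by
    simpa only [G.φ_zero] using G.hd_z (p, θ) 0
  have d2 : HasDerivAt (fun s => (G.o (p, θ) (-s) : ℂ)) (-G.V (p, θ)) 0 := by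
    have : HasDerivAt (fun s => (G.o (p, θ) s : ℂ)) (G.V (p, θ)) (-0) := by rwa [neg_zero]
    exact (this.scomp (0 : ℝ) (hasDerivAt_neg (0 : ℝ))).congr_deriv (neg_one_smul _ _)
  have l1 := H.loc 0 (G.o (p, θ)) _ (by rw [e0, e0]) d1
  have l2 := H.loc 0 (fun s => G.o (p, θ) (-s)) _ (by rw [neg_zero, e0, e0]) d2
  rw [neg_div, Complex.neg_im, q] at l2
  rw [q] at l1
  rcases lt_or_gt_of_ne k with m | m
  · obtain ⟨s, a⟩ := (l1.2 m).exists
    obtain ⟨t, b⟩ := (l2.1 (by linarith)).exists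
    exact stab G H b a
  · obtain ⟨s, a⟩ := (l1.1 m).exists
    obtain ⟨t, b⟩ := (l2.2 (by linarith)).exists
    exact stab G H a b

lemma cnt_sin (θ : ℝ) : {θ' : ℝ | Real.sin (θ - θ') = 0}.Countable := by
  refine (countable_range fun n : ℤ => θ - n * π).mono fun t h => ?_
  obtain ⟨n, e⟩ := Real.sin_eq_zero_iff.1 h
  exact ⟨n, by simp only [e]; ring⟩

/-- a family of pairwise parallel pairs of ends is null -/
lemma par (hs : SideSt) (ht : T3St) (hq : FreqSt) (hm : MeasSt) (ha : AxisSt) (G : Geo)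
    {A : Set (ℝ × ℝ)} (mA : MeasurableSet A)
    (hA : ∀ v ∈ A, ∀ w ∈ A, v = w ∨ (v.1 < w.1 ∧ w.2 < v.2) ∨ (w.1 < v.1 ∧ v.2 < w.2)) :
    G.μ (G.EW A) = 0 := by
  have h5 := ((hq G).2.2.2.2.1 _ ((hm G).1 A mA)).2
  have h6 : G.μ {ξ | ξ ∈ G.EW A ∧ volume {θ : ℝ | (ξ.1, θ) ∈ G.EW A} ≠ 0} = 0 := by
    refine measure_null_of_locally_null _ fun ξ hξ => ?_
    obtain ⟨p, θ⟩ := ξ
    obtain ⟨θ', ⟨x, y, a, b⟩, c⟩ : ∃ θ', (p, θ') ∈ G.EW A ∧ Real.sin (θ - θ') ≠ 0 := by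
      by_contra hc
      push Not at hc
      exact hξ.2 (measure_mono_null hc ((cnt_sin θ).measure_zero _))
    refine ⟨_, inter_mem_nhdsWithin _ (cross hs G b c), measure_mono_null ?_ (ha G x y)⟩
    rintro η ⟨⟨⟨x', y', a', b'⟩, -⟩, d⟩
    rcases hA _ a' _ a with e | e | e
    · exact ⟨x', y', e, b'⟩
    · exact absurd (fun s t f => ht G _ _ _ _ _ _ b b' e.1 e.2 t s f.symm) d
    · exact absurd (ht G _ _ _ _ _ _ b' b e.1 e.2) d
  refine measure_mono_null (fun ξ h => ?_) (measure_union_null h5 h6)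
  by_cases k : volume {θ : ℝ | (ξ.1, θ) ∈ G.EW A} = 0
  · exact Or.inl ⟨h, k⟩
  · exact Or.inr ⟨h, k⟩

/-- an antitone relation has countably many vertical pieces -/
lemma cnt_sh {A : Set (ℝ × ℝ)} (h : ∀ v ∈ A, ∀ w ∈ A, v.1 < w.1 → w.2 ≤ v.2) :
    {x | ∃ y y', y < y' ∧ (x, y) ∈ A ∧ (x, y') ∈ A}.Countable := by
  refine (countable_iUnion fun q : ℚ => (?_ : {x | ∃ y y' : ℝ, y < q ∧ (q : ℝ) < y' ∧ (x, y) ∈ A ∧
    (x, y') ∈ A}.Countable)).mono ?_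
  · refine Subsingleton.countable ?_
    rintro x ⟨y, y', a, b, c, d⟩ z ⟨u, u', a', b', c', d'⟩
    rcases lt_trichotomy x z with e | e | e
    · have := h _ c _ d' e
      simp only at this
      linarith
    · exact e
    · have := h _ c' _ d e
      simp only at this
      linarith
  · rintro x ⟨y, y', a, b, c⟩
    obtain ⟨q, d, e⟩ := exists_rat_btwn a
    exact mem_iUnion.2 ⟨q, y, y', d, e, b, c⟩

lemma anti (hs : SideSt) (ht : T3St) (hq : FreqSt) (hm : MeasSt) (ha : AxisSt) (hb : AtomSt)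
    (G : Geo) {A : Set (ℝ × ℝ)} (mA : MeasurableSet A)
    (h : ∀ v ∈ A, ∀ w ∈ A, v.1 < w.1 → w.2 ≤ v.2) : G.μ (G.EW A) = 0 := by
  have cX := cnt_sh h
  have cY := cnt_sh (A := Prod.swap ⁻¹' A) fun v a w b c => le_of_not_gt fun d =>
    (h _ a _ b d).not_gt c
  set X := {x | ∃ y y', y < y' ∧ (x, y) ∈ A ∧ (x, y') ∈ A} with hX
  set Y := {x | ∃ y y', y < y' ∧ (x, y) ∈ Prod.swap ⁻¹' A ∧ (x, y') ∈ Prod.swap ⁻¹' A} with hY
  have n1 : G.μ (⋃ t ∈ X, G.EW {v | v.1 = t}) = 0 :=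
    (measure_biUnion_null_iff cX).2 fun t _ => (hb G t).1
  have n2 : G.μ (⋃ t ∈ Y, G.EW {v | v.2 = t}) = 0 :=
    (measure_biUnion_null_iff cY).2 fun t _ => (hb G t).2
  have n3 : G.μ (G.EW (A ∩ Xᶜ ×ˢ Yᶜ)) = 0 := by
    refine par hs ht hq hm ha G (mA.inter (cX.measurableSet.compl.prod cY.measurableSet.compl)) ?_
    rintro ⟨x, y⟩ ⟨a, a1, a2⟩ ⟨x', y'⟩ ⟨b, b1, b2⟩
    rcases lt_trichotomy x x' with e | e | e
    · exact Or.inr (Or.inl ⟨e, (h _ a _ b e).lt_of_ne fun f => a2 ⟨x, x', e, a, by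
        simp only at f
        rw [← f]; exact b⟩⟩)
    · subst e
      rcases lt_trichotomy y y' with f | f | f
      · exact absurd ⟨y, y', f, a, b⟩ a1
      · exact Or.inl (by rw [f])
      · exact absurd ⟨y', y, f, b, a⟩ a1
    · exact Or.inr (Or.inr ⟨e, (h _ b _ a e).lt_of_ne fun f => b2 ⟨x', x, e, b, by
        simp only at f
        rw [← f]; exact a⟩⟩)
  refine measure_mono_null ?_ (measure_union_null n1 (measure_union_null n2 n3))
  rintro ξ ⟨x, y, a, b⟩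
  by_cases c : x ∈ X
  · exact Or.inl (mem_biUnion c ⟨x, y, rfl, b⟩)
  by_cases d : y ∈ Y
  · exact Or.inr (Or.inl (mem_biUnion d ⟨x, y, rfl, b⟩))
  exact Or.inr (Or.inr ⟨x, y, ⟨a, c, d⟩, b⟩)

end FLam

theorem lamin (hs : SideSt) (ht : T3St) (hq : FreqSt) (hm : MeasSt) (ha : AxisSt) (hb : AtomSt) :
    LamSt := fun G O mO _ h => by
  have n : ∀ q : ℚ × ℚ, G.μ (G.EW (O ∩ Ioo (q.2 - 2 * π) (q.1 : ℝ) ×ˢ Ioo (q.1 : ℝ) q.2)) = 0 := by
    intro q
    refine FLam.anti hs ht hq hm ha hb G (mO.inter (measurableSet_Ioo.prod measurableSet_Ioo)) ?_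
    rintro ⟨x, y⟩ ⟨a, a1, a2⟩ ⟨x', y'⟩ ⟨b, b1, b2⟩ c
    refine le_of_not_gt fun d => h x y x' y' a b ⟨c, b1.2.trans a2.1, d, ?_⟩
    have := a1.1
    have := b2.2
    simp only at *
    linarith
  refine measure_mono_null ?_ (measure_iUnion_null n)
  rintro ξ ⟨x, y, a, b⟩
  obtain ⟨q, c, d⟩ := exists_rat_btwn b.lt
  obtain ⟨r, e, f⟩ := exists_rat_btwn b.lt2
  exact mem_iUnion.2 ⟨(q, r), x, y, ⟨a, ⟨by simp only; linarith, c⟩, d, e⟩, b⟩

end

end Pool.Agent.Lib.MP_21f752_an
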