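import Pool.Agent.Lib.MP_21f752_an.FC

/-! Guards along a good walk. -/

namespace Pool.Agent.Lib.MP_21f752_an

open Set Filter Topology
open scoped Real

noncomputable section

namespace FLop

variable {I : ℝ → ℝ → Prop}

def Cov (I : ℝ → ℝ → Prop) (U u v V : ℝ) : Prop :=
  ∀ l, u ≤ l → l ≤ v → ∃ a b, I a b ∧ U < a ∧ a < l ∧ l < b ∧ b < V

lemma Cov.mono {U u v V U' u' v' V' : ℝ} (h : Cov I U u v V) (h1 : U' ≤ U) (h2 : u ≤ u')
    (h3 : v' ≤ v) (h4 : V ≤ V') : Cov I U' u' v' V' := fun l a b => by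
  obtain ⟨x, y, i, c1, c2, c3, c4⟩ := h l (h2.trans a) (b.trans h3)
  exact ⟨x, y, i, h1.trans_lt c1, c2, c3, c4.trans_le h4⟩

lemma Cov.union {U u m v V : ℝ} (h : Cov I U u m V) (h' : Cov I U m v V) : Cov I U u v V :=
  fun l a b => (le_total l m).elim (h l a) fun c => h' l c b

lemma Cov.map {U u v V : ℝ} (g : ℝ ≃o ℝ) (hg : ∀ a b, I a b → I (g a) (g b))
    (h : Cov I U u v V) : Cov I (g U) (g u) (g v) (g V) := fun l a b => by
  obtain ⟨x, y, i, c1, c2, c3, c4⟩ := h (g.symm l) (g.le_symm_apply.2 a) (g.symm_apply_le.2 b)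
  exact ⟨g x, g y, hg _ _ i, g.lt_iff_lt.2 c1, g.lt_symm_apply.1 c2, g.symm_apply_lt.1 c3,
    g.lt_iff_lt.2 c4⟩

def Guard (I : ℝ → ℝ → Prop) (σ : Bool) (α : ℝ) (τ : Bool) (β : ℝ) : Prop :=
  ∀ ε, 0 < ε → ∃ η, 0 < η ∧ ∀ δ, 0 < δ → Cov I (cond σ (α + η) (α - δ)) (cond σ (α + ε) α)
    (cond τ (β - ε) β) (cond τ (β - η) (β + δ))

def HLo (I : ℝ → ℝ → Prop) (σ : Bool) (α m M : ℝ) : Prop :=
  ∀ ε, 0 < ε → ∃ η, 0 < η ∧ ∀ δ, 0 < δ → Cov I (cond σ (α + η) (α - δ)) (cond σ (α + ε) α) m M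

def HUp (I : ℝ → ℝ → Prop) (τ : Bool) (β m M : ℝ) : Prop :=
  ∀ ε, 0 < ε → ∃ η, 0 < η ∧ ∀ δ, 0 < δ → Cov I M m (cond τ (β - ε) β) (cond τ (β - η) (β + δ))

def LoCh (I : ℝ → ℝ → Prop) (α : ℝ) : Prop := ∀ ρ, 0 < ρ → ∃ c, α < c ∧ HLo I true α c (α + ρ)

def UpCh (I : ℝ → ℝ → Prop) (β : ℝ) : Prop := ∀ ρ, 0 < ρ → ∃ c, c < β ∧ HUp I true β c (β - ρ)

lemma HLo.ext {σ : Bool} {α m M U m0 m1 M1 : ℝ} (h : HLo I σ α m M) (c : Cov I U m0 m1 M1)
    (h1 : m0 ≤ m) (h2 : α < U) (h3 : M ≤ M1) : HLo I σ α m1 M1 := fun ε e => by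
  obtain ⟨η, η0, H⟩ := h ε e
  have a := min_le_left η (U - α)
  have b := min_le_right η (U - α)
  refine ⟨min η (U - α), lt_min η0 (by linarith), fun δ d =>
    ((H δ d).mono ?_ le_rfl le_rfl h3).union (c.mono ?_ h1 le_rfl le_rfl)⟩ <;>
  cases σ <;> simp only [cond_true, cond_false] <;> linarith

lemma HUp.ext {τ : Bool} {β m M V m0 m1 M1 : ℝ} (h : HUp I τ β m M) (c : Cov I M1 m1 m0 V)
    (h1 : m ≤ m0) (h2 : V < β) (h3 : M1 ≤ M) : HUp I τ β m1 M1 := fun ε e => by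
  obtain ⟨η, η0, H⟩ := h ε e
  have a := min_le_left η (β - V)
  have b := min_le_right η (β - V)
  refine ⟨min η (β - V), lt_min η0 (by linarith), fun δ d =>
    (c.mono le_rfl le_rfl le_rfl ?_).union ((H δ d).mono h3 h1 le_rfl ?_)⟩ <;>
  cases τ <;> simp only [cond_true, cond_false] <;> linarith

lemma join {σ τ : Bool} {α β m M m' M' : ℝ} (h : HLo I σ α m M) (h' : HUp I τ β m' M')
    (h1 : m' ≤ m) (h2 : α < M') (h3 : M < β) : Guard I σ α τ β := fun ε e => by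
  obtain ⟨η, η0, H⟩ := h ε e
  obtain ⟨η', η0', H'⟩ := h' ε e
  set θ := min (min η η') (min (M' - α) (β - M)) with hθ
  have a : θ ≤ η := (min_le_left _ _).trans (min_le_left _ _)
  have b : θ ≤ η' := (min_le_left _ _).trans (min_le_right _ _)
  have c : θ ≤ M' - α := (min_le_right _ _).trans (min_le_left _ _)
  have d : θ ≤ β - M := (min_le_right _ _).trans (min_le_right _ _)
  refine ⟨θ, lt_min (lt_min η0 η0') (lt_min (by linarith) (by linarith)), fun δ d =>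
    ((H δ d).mono ?_ le_rfl le_rfl ?_).union ((H' δ d).mono ?_ h1 le_rfl ?_)⟩ <;>
  cases σ <;> cases τ <;> simp only [cond_true, cond_false] <;> linarith

lemma Guard.lo {σ : Bool} {α β : ℝ} (h : Guard I σ α true β) (hc : σ = true → LoCh I α)
    (lt : α < β) {ε : ℝ} (e : 0 < ε) : ∃ η, 0 < η ∧ HLo I σ α (β - ε) (β - η) := by
  cases σ with
  | false =>
    obtain ⟨η, η0, H⟩ := h ε e
    exact ⟨η, η0, fun _ _ => ⟨1, one_pos, H⟩⟩
  | true =>
    obtain ⟨c, c1, c2⟩ := hc rfl ((β - α) / 2) (by linarith)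
    obtain ⟨η, η0, H⟩ := h (min ε (c - α)) (lt_min e (by linarith))
    have a := min_le_left ε (c - α)
    have b := min_le_right ε (c - α)
    have a' := min_le_left η ((β - α) / 2)
    have b' := min_le_right η ((β - α) / 2)
    refine ⟨min η ((β - α) / 2), lt_min η0 (by linarith), c2.ext (U := α + η) (m0 := c)
      ((H 1 one_pos).mono le_rfl ?_ ?_ ?_) le_rfl (by linarith) (by linarith)⟩ <;>
    simp only [cond_true] <;> linarith

lemma Guard.up {τ : Bool} {α β : ℝ} (h : Guard I true α τ β) (hc : τ = true → UpCh I β)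
    (lt : α < β) {ε : ℝ} (e : 0 < ε) : ∃ η, 0 < η ∧ HUp I τ β (α + ε) (α + η) := by
  cases τ with
  | false =>
    obtain ⟨η, η0, H⟩ := h ε e
    exact ⟨η, η0, fun _ _ => ⟨1, one_pos, H⟩⟩
  | true =>
    obtain ⟨c, c1, c2⟩ := hc rfl ((β - α) / 2) (by linarith)
    obtain ⟨η, η0, H⟩ := h (min ε (β - c)) (lt_min e (by linarith))
    have a := min_le_left ε (β - c)
    have b := min_le_right ε (β - c)
    have a' := min_le_left η ((β - α) / 2)
    have b' := min_le_right η ((β - α) / 2)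
    refine ⟨min η ((β - α) / 2), lt_min η0 (by linarith), c2.ext (V := β - η) (m0 := c)
      ((H 1 one_pos).mono ?_ ?_ ?_ le_rfl) le_rfl (by linarith) (by linarith)⟩ <;>
    simp only [cond_true] <;> linarith

lemma Guard.lo' {σ : Bool} {α β M : ℝ} (h : Guard I σ α false β) (lt : β < M) :
    HLo I σ α β M := fun ε e => by
  obtain ⟨η, η0, H⟩ := h ε e
  have a := fun δ => min_le_left δ (M - β)
  have b := fun δ => min_le_right δ (M - β)
  refine ⟨η, η0, fun δ d => (H _ (lt_min d (sub_pos.2 lt))).mono ?_ le_rfl le_rfl ?_⟩ <;>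
  cases σ <;> simp only [cond_true, cond_false] <;> linarith [a δ, b δ]

lemma Guard.up' {τ : Bool} {α β M : ℝ} (h : Guard I false α τ β) (lt : M < α) :
    HUp I τ β α M := fun ε e => by
  obtain ⟨η, η0, H⟩ := h ε e
  have a := fun δ => min_le_left δ (α - M)
  have b := fun δ => min_le_right δ (α - M)
  refine ⟨η, η0, fun δ d => (H _ (lt_min d (sub_pos.2 lt))).mono ?_ le_rfl le_rfl ?_⟩ <;>
  cases τ <;> simp only [cond_true, cond_false] <;> linarith [a δ, b δ]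

lemma HUp.map {τ : Bool} {β m M : ℝ} (g : ℝ ≃o ℝ) (hg : ∀ a b, I a b → I (g a) (g b))
    (h : HUp I τ β m M) : HUp I τ (g β) (g m) (g M) := fun ε e => by
  cases τ with
  | false =>
    obtain ⟨η, η0, H⟩ := h 1 one_pos
    refine ⟨1, one_pos, fun δ d => ?_⟩
    have a : β < g.symm (g β + δ) := g.lt_symm_apply.2 (by linarith)
    simpa using (H _ (sub_pos.2 a)).map g hg
  | true =>
    have a : g.symm (g β - ε) < β := g.symm_apply_lt.2 (by linarith)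
    obtain ⟨η, η0, H⟩ := h _ (sub_pos.2 a)
    have b : g (β - η) < g β := g.lt_iff_lt.2 (by linarith)
    refine ⟨_, sub_pos.2 b, fun δ d => ?_⟩
    simpa using (H δ d).map g hg

/-- a map that pushes from `P` to `Q` and preserves the shields -/
structure Psh (I : ℝ → ℝ → Prop) (γ : ℝ ≃o ℝ) (P Q : ℝ) : Prop where
  fP : γ P = P
  fQ : γ Q = Q
  inv : ∀ a b, I (γ a) (γ b) ↔ I a b

lemma pow_fix {γ : ℝ ≃o ℝ} {P : ℝ} (h : γ P = P) (n : ℕ) : (γ ^ n) P = P := by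
  induction n with
  | zero => rfl
  | succ n ih => rw [pow_succ, RelIso.mul_apply, h, ih]

lemma pow_inv {γ : ℝ ≃o ℝ} (h : ∀ a b, I a b → I (γ a) (γ b)) (n : ℕ) :
    ∀ a b, I a b → I ((γ ^ n) a) ((γ ^ n) b) := by
  induction n with
  | zero => exact fun _ _ h => h
  | succ n ih =>
    intro a b i
    rw [pow_succ', RelIso.mul_apply, RelIso.mul_apply]
    exact h _ _ (ih a b i)

lemma tend_up {γ : ℝ ≃o ℝ} {P Q t : ℝ} (fQ : γ Q = Q) (up : ∀ t, P < t → t < Q → t < γ t)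
    (h1 : P < t) (h2 : t < Q) : Tendsto (fun n : ℕ => (γ ^ n) t) atTop (𝓝 Q) := by
  have lt : ∀ n : ℕ, (γ ^ n) t < Q := fun n => by
    rw [← pow_fix fQ n]; exact (γ ^ n).lt_iff_lt.2 h2
  have mono : Monotone fun n : ℕ => (γ ^ n) t := monotone_nat_of_le_succ fun n => by
    rw [pow_succ, RelIso.mul_apply]; exact (γ ^ n).le_iff_le.2 (up t h1 h2).le
  have bd : BddAbove (range fun n : ℕ => (γ ^ n) t) := ⟨Q, by rintro _ ⟨n, rfl⟩; exact (lt n).le⟩
  have T := tendsto_atTop_ciSup mono bd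
  set L := ⨆ n : ℕ, (γ ^ n) t
  have l1 : t ≤ L := le_ciSup bd 0
  have l2 : L ≤ Q := ciSup_le fun n => (lt n).le
  have e : γ L = L := by
    have a := (γ.continuous.tendsto L).comp T
    have b := T.comp (tendsto_add_atTop_nat 1)
    refine tendsto_nhds_unique a (b.congr fun n => ?_)
    simp only [Function.comp, pow_succ', RelIso.mul_apply]
  rcases l2.eq_or_lt with c | c
  · rwa [c] at T
  · have := up L (h1.trans_le l1) c
    rw [e] at this
    exact absurd this (lt_irrefl _)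

/-- conjugation by the reflection -/
def ng (γ : ℝ ≃o ℝ) : ℝ ≃o ℝ where
  toFun t := -γ (-t)
  invFun t := -γ.symm (-t)
  left_inv t := by simp
  right_inv t := by simp
  map_rel_iff' := by simp

lemma ng_apply (γ : ℝ ≃o ℝ) (t : ℝ) : ng γ t = -γ (-t) := rfl

lemma ng_pow (γ : ℝ ≃o ℝ) (n : ℕ) (t : ℝ) : (ng γ ^ n) t = -(γ ^ n) (-t) := by
  induction n with
  | zero => simp
  | succ n ih => rw [pow_succ', pow_succ', RelIso.mul_apply, RelIso.mul_apply, ih, ng_apply, neg_neg]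

lemma tend_dn {γ : ℝ ≃o ℝ} {P Q t : ℝ} (fP : γ P = P) (dn : ∀ t, P < t → t < Q → γ t < t)
    (h1 : P < t) (h2 : t < Q) : Tendsto (fun n : ℕ => (γ ^ n) t) atTop (𝓝 P) := by
  have := (tend_up (γ := ng γ) (P := -Q) (Q := -P) (t := -t) (by simp [ng_apply, fP])
    (fun t a b => by
      have := dn (-t) (by linarith) (by linarith)
      rw [ng_apply]; linarith) (by linarith) (by linarith)).neg
  simpa [ng_pow] using this

/-- the first link of a chain of shields -/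
structure Ch (I : ℝ → ℝ → Prop) (γ : ℝ ≃o ℝ) (P Q a b : ℝ) : Prop where
  up : ∀ t, P < t → t < Q → t < γ t
  i : I a b
  lo : P < a
  hi : b < Q
  ov : γ a < b

variable {γ : ℝ ≃o ℝ} {P Q a b : ℝ}

lemma Ch.aQ (S : Psh I γ P Q) (h : Ch I γ P Q a b) : a < Q :=
  γ.lt_iff_lt.1 (by rw [S.fQ]; exact h.ov.trans h.hi)

lemma Ch.lt (S : Psh I γ P Q) (h : Ch I γ P Q a b) : a < b := (h.up a h.lo (h.aQ S)).trans h.ov

lemma Ch.pow (S : Psh I γ P Q) (h : Ch I γ P Q a b) (n : ℕ) :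
    Ch I γ P Q ((γ ^ n) a) ((γ ^ n) b) where
  up := h.up
  i := pow_inv (fun a b => (S.inv a b).2) n _ _ h.i
  lo := by rw [← pow_fix S.fP n]; exact (γ ^ n).lt_iff_lt.2 h.lo
  hi := by rw [← pow_fix S.fQ n]; exact (γ ^ n).lt_iff_lt.2 h.hi
  ov := by
    rw [← RelIso.mul_apply, ← pow_succ', pow_succ, RelIso.mul_apply]
    exact (γ ^ n).lt_iff_lt.2 h.ov

lemma inv_fix (h : γ P = P) : γ⁻¹ P = P := by
  conv_lhs => rw [← h]
  simp

lemma Ch.ipow (S : Psh I γ P Q) (h : Ch I γ P Q a b) (n : ℕ) :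
    Ch I γ P Q ((γ⁻¹ ^ n) a) ((γ⁻¹ ^ n) b) where
  up := h.up
  i := pow_inv (fun a b i => (S.inv _ _).1 (by simpa using i)) n _ _ h.i
  lo := by rw [← pow_fix (inv_fix S.fP) n]; exact (γ⁻¹ ^ n).lt_iff_lt.2 h.lo
  hi := by rw [← pow_fix (inv_fix S.fQ) n]; exact (γ⁻¹ ^ n).lt_iff_lt.2 h.hi
  ov := by
    rw [← RelIso.mul_apply, ((Commute.refl γ).inv_right.pow_right n).eq, RelIso.mul_apply]
    exact (γ⁻¹ ^ n).lt_iff_lt.2 h.ov

lemma Ch.cov (S : Psh I γ P Q) (h : Ch I γ P Q a b) (n : ℕ) {U u v V : ℝ} (h1 : U < a)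
    (h2 : a < u) (h3 : v < (γ ^ n) b) (h4 : (γ ^ n) b < V) : Cov I U u v V := by
  induction n generalizing a b u with
  | zero => exact fun l c d => ⟨a, b, h.i, h1, h2.trans_le c, d.trans_lt h3, h4⟩
  | succ n ih =>
    intro l c d
    have h' := h.pow S 1
    rw [pow_one] at h'
    rw [pow_succ, RelIso.mul_apply] at h3 h4
    rcases lt_or_ge l b with e | e
    · refine ⟨a, b, h.i, h1, h2.trans_le c, e, lt_trans ?_ h4⟩
      have : ∀ m : ℕ, b < (γ ^ m) (γ b) := fun m => by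
        induction m with
        | zero => exact h.up b (h.lo.trans (h.lt S)) h.hi
        | succ m ih =>
          have w := h'.pow S m
          rw [pow_succ', RelIso.mul_apply]
          exact ih.trans (h.up _ (w.lo.trans (w.lt S)) w.hi)
      exact this n
    · exact ih h' (h1.trans (h.up a h.lo (h.aQ S))) (h.ov.trans_le e) h3 h4 l le_rfl d

lemma Ch.tup (S : Psh I γ P Q) (h : Ch I γ P Q a b) {t c : ℝ} (h1 : P < t) (h2 : t < Q)
    (hc : c < Q) : ∀ᶠ n : ℕ in atTop, c < (γ ^ n) t :=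
  (tend_up S.fQ h.up h1 h2).eventually (lt_mem_nhds hc)

lemma Ch.tdn (S : Psh I γ P Q) (h : Ch I γ P Q a b) {t c : ℝ} (h1 : P < t) (h2 : t < Q)
    (hc : P < c) : ∀ᶠ n : ℕ in atTop, (γ⁻¹ ^ n) t < c := by
  refine (tend_dn (Q := Q) (inv_fix S.fP) (fun t a b => ?_) h1 h2).eventually (gt_mem_nhds hc)
  exact γ.symm_apply_lt.2 (h.up t a b)

lemma Ch.upCh (S : Psh I γ P Q) (h : Ch I γ P Q a b) : UpCh I Q := fun ρ r => by
  obtain ⟨j, hj⟩ := (h.tup S h.lo (h.aQ S) (sub_lt_self Q r)).exists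
  have w := h.pow S j
  refine ⟨_, w.hi, fun ε e => ?_⟩
  obtain ⟨n, hn⟩ := (h.tup S (w.lo.trans (w.lt S)) w.hi (sub_lt_self Q e)).exists
  have z := (w.pow S n).hi
  exact ⟨(Q - (γ ^ n) ((γ ^ j) b)) / 2, by linarith, fun _ _ =>
    w.cov S n hj (w.lt S) hn (by simp only [cond_true]; linarith)⟩

lemma pow_ipow (n : ℕ) (t : ℝ) : (γ ^ n) ((γ⁻¹ ^ n) t) = t := by
  rw [← RelIso.mul_apply, inv_pow, mul_inv_cancel]; rfl

lemma Ch.loCh (S : Psh I γ P Q) (h : Ch I γ P Q a b) : LoCh I P := fun ρ r => by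
  obtain ⟨j, hj⟩ := (h.tdn S (h.lo.trans (h.lt S)) h.hi (lt_add_of_pos_right P r)).exists
  have w := h.ipow S j
  refine ⟨_, w.lo, fun ε e => ?_⟩
  obtain ⟨n, hn⟩ := (h.tdn S w.lo (w.aQ S) (lt_add_of_pos_right P e)).exists
  have z := w.ipow S n
  have z1 := z.lo
  exact ⟨((γ⁻¹ ^ n) ((γ⁻¹ ^ j) a) - P) / 2, by linarith, fun _ _ =>
    z.cov S n (by simp only [cond_true]; linarith) hn (by rw [pow_ipow]; exact w.lt S)
      (by rw [pow_ipow]; exact hj)⟩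

/-- composition of guards -/
lemma comp {σ σ' σ'' : Bool} {α β : ℝ} (S : Psh I γ P Q) (G1 : Guard I σ α σ' Q)
    (G2 : Guard I σ' P σ'' β) (lt : α < Q) (c1 : σ = true → LoCh I α) (c2 : σ'' = true → UpCh I β)
    (c3 : σ' = true → P < β ∧ β < Q ∧ ∃ a b, Ch I γ P Q a b)
    (c4 : σ' = false → α < P ∧ P < Q ∧ Q < β) :
    ∀ᶠ N : ℕ in atTop, Guard I σ α σ'' ((γ ^ N) β) := by
  have iv := pow_inv (fun a b => (S.inv a b).2)
  cases σ' with
  | false =>
    obtain ⟨a1, a2, a3⟩ := c4 rfl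
    refine Eventually.of_forall fun N => ?_
    have b1 : Q < (γ ^ N) β := by rw [← pow_fix S.fQ N]; exact (γ ^ N).lt_iff_lt.2 a3
    have b2 : (γ ^ N).symm ((α + P) / 2) < P :=
      (γ ^ N).symm_apply_lt.2 (by rw [pow_fix S.fP]; linarith)
    have H := (G2.up' b2).map _ (iv N)
    rw [pow_fix S.fP, OrderIso.apply_symm_apply] at H
    exact join (G1.lo' (M := (Q + (γ ^ N) β) / 2) (by linarith)) H a2.le (by linarith)
      (by linarith)
  | true =>
    obtain ⟨a1, a2, a, b, h⟩ := c3 rfl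
    obtain ⟨j, hj⟩ := (h.tup S h.lo (h.aQ S) lt).exists
    obtain ⟨i, hi⟩ := (h.tdn S (h.lo.trans (h.lt S)) h.hi a1).exists
    have w := h.pow S j
    have z := h.ipow S i
    obtain ⟨η1, e1, H1⟩ := G1.lo c1 lt (sub_pos.2 w.hi)
    obtain ⟨η2, e2, H2⟩ := G2.up c2 a1 (sub_pos.2 z.lo)
    rw [sub_sub_cancel] at H1
    rw [add_sub_cancel] at H2
    have H2' : HUp I σ'' β ((γ⁻¹ ^ i) a) (min (P + η2) ((γ⁻¹ ^ i) a)) := fun ε e => by
      obtain ⟨η, η0, H⟩ := H2 ε e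
      exact ⟨η, η0, fun δ d => (H δ d).mono (min_le_left _ _) le_rfl le_rfl le_rfl⟩
    have m1 : P < min (P + η2) ((γ⁻¹ ^ i) a) := lt_min (by linarith) z.lo
    have m2 : min (P + η2) ((γ⁻¹ ^ i) a) < Q := (min_le_right _ _).trans_lt (z.aQ S)
    filter_upwards [h.tup S m1 m2 lt, h.tup S (z.lo.trans (z.lt S)) z.hi (sub_lt_self Q e1),
      eventually_ge_atTop (i + j)] with N n1 n2 n3
    obtain ⟨n, rfl⟩ := Nat.exists_eq_add_of_le n3
    have e : (γ ^ n) ((γ ^ j) b) = (γ ^ (i + j + n)) ((γ⁻¹ ^ i) b) := by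
      rw [show i + j + n = n + j + i by ring, pow_add, pow_add, RelIso.mul_apply,
        RelIso.mul_apply, pow_ipow]
    set g := γ ^ (i + j + n)
    have b1 : g ((γ⁻¹ ^ i) b) < g β := g.lt_iff_lt.2 hi
    have b2 : g ((γ⁻¹ ^ i) a) < g ((γ⁻¹ ^ i) b) := g.lt_iff_lt.2 (z.lt S)
    refine join (H1.ext (U := (α + (γ ^ j) a) / 2) (m0 := (γ ^ j) b)
      (M1 := (g ((γ⁻¹ ^ i) b) + g β) / 2) (w.cov S n (by linarith) (w.lt S) (by rw [e]; exact b2)
      (by rw [e]; linarith)) le_rfl (by linarith) (by linarith)) (H2'.map g (iv _)) le_rfl n1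
      (by linarith)

variable {C : CW} {k : C.W}

def IR (C : CW) (a b : ℝ) : Prop := ∃ w, a = C.x w ∧ b = C.y w

def IL (C : CW) (a b : ℝ) : Prop := ∃ w, -b = C.y w ∧ -a = C.x w + 2 * π

lemma ir_inv {g : ℝ ≃o ℝ} (hg : g ∈ C.G) (a b : ℝ) : IR C (g a) (g b) ↔ IR C a b := by
  constructor
  · rintro ⟨w, e1, e2⟩
    obtain ⟨w', f1, f2⟩ := C.act _ (C.G.inv_mem hg) w
    exact ⟨w', by rw [f1, ← e1]; simp, by rw [f2, ← e2]; simp⟩
  · rintro ⟨w, rfl, rfl⟩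
    obtain ⟨w', f1, f2⟩ := C.act _ hg w
    exact ⟨w', f1.symm, f2.symm⟩

lemma il_inv {g : ℝ ≃o ℝ} (hg : g ∈ C.G) (a b : ℝ) : IL C (ng g a) (ng g b) ↔ IL C a b := by
  simp only [IL, ng_apply, neg_neg]
  constructor
  · rintro ⟨w, e1, e2⟩
    obtain ⟨w', f1, f2⟩ := C.act _ (C.G.inv_mem hg) w
    refine ⟨w', by rw [f2, ← e1]; simp, ?_⟩
    rw [f1, ← C.cg.per _ (C.G.inv_mem hg), ← e2]; simp
  · rintro ⟨w, e1, e2⟩
    obtain ⟨w', f1, f2⟩ := C.act _ hg w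
    exact ⟨w', by rw [f2, e1], by rw [f1, e2, C.cg.per _ hg]⟩

lemma Cov.r {U u v V : ℝ} (h : Cov (IR C) U u v V) : C.CovR U u v V := fun l a b => by
  obtain ⟨_, _, ⟨w, rfl, rfl⟩, c⟩ := h l a b
  exact ⟨w, c⟩

lemma Cov.l {U u v V : ℝ} (h : Cov (IL C) (-U) (-u) (-v) (-V)) : C.CovL V v u U := fun l a b => by
  obtain ⟨x, y, ⟨w, e1, e2⟩, c1, c2, c3, c4⟩ := h (-l) (by linarith) (by linarith)
  exact ⟨w, by linarith, by linarith, by linarith, by linarith⟩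

lemma cov1 (i : I a b) {U u v V : ℝ} (h1 : U < a) (h2 : a < u) (h3 : v < b) (h4 : b < V) :
    Cov I U u v V := fun _ c d => ⟨a, b, i, h1, h2.trans_le c, d.trans_lt h3, h4⟩

lemma xl {w : C.W} (h : w ∈ CW.K k) : C.x w ∈ CW.Lam k := subset_closure ⟨w, h, Or.inl rfl⟩

lemma yl {w : C.W} (h : w ∈ CW.K k) : C.y w ∈ CW.Lam k := subset_closure ⟨w, h, Or.inr rfl⟩

/-- the side on which points of `Lam` approach the ends of a node -/
structure Sd (k : C.W) (s : Bool) (p q : ℝ) : Prop where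
  lt : p < q
  lt2 : q < p + 2 * π
  pl : p ∈ CW.Lam k
  ql : q ∈ CW.Lam k
  sp : ∀ t ∈ CW.Lam k, t ≠ p → q - 2 * π < t → t < q → cond s (p < t) (t < p)
  sq : ∀ t ∈ CW.Lam k, t ≠ q → p < t → t < p + 2 * π → cond s (t < q) (q < t)
  nx : ∀ w, C.x w ≠ p
  ny : ∀ w, C.y w ≠ q
  ac : ∀ ε, 0 < ε → ∃ t ∈ CW.Lam k, t ≠ p ∧ |t - p| < ε

lemma sd (H : CW.Cell1 k) {s : Bool} {p q : ℝ} (h : CW.Node k s p q) : Sd k s p q := by
  have pm := fun t => H.per t 1
  simp only [Int.cast_one, one_mul] at pm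
  cases s with
  | true =>
    have g : CW.Gap k q (p + 2 * π) := h.gap
    have sh := H.short _ _ g
    refine ⟨by linarith, g.1, (pm p).1 g.2.2.1, g.2.1, fun t ht ne a b => ?_,
      fun t ht ne a b => ?_, fun w e => ?_, fun w => (H.gapE _ _ g w).2.2.1, fun ε e => ?_⟩
    · exact lt_of_le_of_ne (not_lt.1 fun c => g.2.2.2 (t + 2 * π) (by linarith) (by linarith)
        ((pm t).2 ht)) ne.symm
    · exact lt_of_le_of_ne (not_lt.1 fun c => g.2.2.2 t c b ht) ne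
    · obtain ⟨T, T1, T2⟩ := C.cg.sh
      obtain ⟨w', f1, -⟩ := C.act T T1 w
      exact (H.gapE _ _ g w').2.1 (by rw [f1, T2, e])
    · obtain ⟨t, ht, a, b⟩ := (H.gapN _ _ g ε e).2
      refine ⟨t - 2 * π, (pm _).1 (by rw [sub_add_cancel]; exact subset_closure ht), by linarith, ?_⟩
      rw [abs_lt]; constructor <;> linarith
  | false =>
    have g : CW.Gap k p q := h.gap
    refine ⟨g.1, H.short _ _ g, g.2.1, g.2.2.1, fun t ht ne a b => ?_,
      fun t ht ne a b => ?_, fun w => (H.gapE _ _ g w).1, fun w => (H.gapE _ _ g w).2.2.2,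
      fun ε e => ?_⟩
    · exact lt_of_le_of_ne (not_lt.1 fun c => g.2.2.2 t c b ht) ne
    · exact lt_of_le_of_ne (not_lt.1 fun c => g.2.2.2 t a c ht) ne.symm
    · obtain ⟨t, ht, a, b⟩ := (H.gapN _ _ g ε e).1
      refine ⟨t, subset_closure ht, by linarith, ?_⟩
      rw [abs_lt]; constructor <;> linarith

lemma Sd.x {s : Bool} {p q : ℝ} (h : Sd k s p q) : ∃ ρ, 0 < ρ ∧ ∀ t ∈ CW.Lam k, t ≠ p →
    |t - p| < ρ → cond s (p < t) (t < p) := by
  refine ⟨min (q - p) (p + 2 * π - q), lt_min (sub_pos.2 h.lt) (sub_pos.2 h.lt2),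
    fun t ht ne a => ?_⟩
  rw [lt_min_iff, abs_lt, abs_lt] at a
  exact h.sp t ht ne (by linarith [a.2.1]) (by linarith [a.1.2])

lemma Sd.y {s : Bool} {p q : ℝ} (h : Sd k s p q) : ∃ ρ, 0 < ρ ∧ ∀ t ∈ CW.Lam k, t ≠ q →
    |t - q| < ρ → cond s (t < q) (q < t) := by
  refine ⟨min (q - p) (p + 2 * π - q), lt_min (sub_pos.2 h.lt) (sub_pos.2 h.lt2),
    fun t ht ne a => ?_⟩
  rw [lt_min_iff, abs_lt, abs_lt] at a
  exact h.sq t ht ne (by linarith [a.1.1]) (by linarith [a.2.2])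

/-- a guarded edge -/
structure GE (k : C.W) (s : Bool) (p q : ℝ) (s' : Bool) (p' q' : ℝ) : Prop where
  src : CW.Node k s p q
  tgt : CW.Node k s' p' q'
  lo : p < q'
  hi : q' < p + 2 * π
  ne : q' ≠ q
  gr : Guard (IR C) s p s' q'
  gl : Guard (IL C) (!s) (-(p + 2 * π)) (!s') (-q')

lemma GE.side (H : CW.Cell1 k) {s s' : Bool} {p q p' q' : ℝ} (h : GE k s p q s' p' q') :
    cond s (q' < q) (q < q') := (sd H h.src).sq q' (sd H h.tgt).ql h.ne h.lo h.hi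

lemma GE.sp (H : CW.Cell1 k) {s s' : Bool} {p q p' q' : ℝ} (h : GE k s p q s' p' q') :
    cond s' (p' < p) (p < p') := by
  have A := sd H h.src
  have B := sd H h.tgt
  have lo := h.lo
  have hi := h.hi
  refine B.sp p A.pl ?_ (by linarith) lo
  rintro rfl
  have e1 := h.side H
  have e2 := B.sq q A.ql h.ne.symm A.lt A.lt2
  obtain ⟨ρ, r, R⟩ := A.x
  obtain ⟨ρ', r', R'⟩ := B.x
  obtain ⟨t, ht, ne, a⟩ := A.ac _ (lt_min r r')
  have e3 := R t ht ne (a.trans_le (min_le_left _ _))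
  have e4 := R' t ht ne (a.trans_le (min_le_right _ _))
  cases s <;> cases s' <;> simp only [cond_true, cond_false] at e1 e2 e3 e4 <;> linarith

lemma edge (H : CW.Cell1 k) (hx : ∀ p, CW.Xi k p ⊆ CW.Lam k) {s s' : Bool} {p q p' q' : ℝ}
    (h : CW.Edge k (s, p, q) (s', p', q')) : GE k s p q s' p' q' := by
  have A := sd H h.src
  have B := sd H h.tgt
  obtain ⟨ρ, r, R⟩ := A.x
  obtain ⟨ρ', r', R'⟩ := B.y
  have w1 : ∀ ε, 0 < ε → ∀ t ∈ CW.Xi k p, ∃ w ∈ CW.K k, |C.x w - p| < ε ∧ |C.y w - t| < ε ∧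
      cond s (p < C.x w) (C.x w < p) := fun ε e t ht => by
    obtain ⟨w, hw, a, b⟩ := ht _ (lt_min e r)
    exact ⟨w, hw, a.trans_le (min_le_left _ _), b.trans_le (min_le_left _ _),
      R _ (xl hw) (A.nx w) (a.trans_le (min_le_right _ _))⟩
  have w2 : ∀ ε, 0 < ε → ∃ w, |C.x w - p| < ε ∧ |C.y w - q'| < ε ∧
      cond s (p < C.x w) (C.x w < p) ∧ cond s' (C.y w < q') (q' < C.y w) := fun ε e => by
    obtain ⟨w, hw, a, b, c⟩ := w1 _ (lt_min e r') q' h.xi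
    exact ⟨w, a.trans_le (min_le_left _ _), b.trans_le (min_le_left _ _), c,
      R' _ (yl hw) (B.ny w) (b.trans_le (min_le_right _ _))⟩
  have w3 : s ≠ s' → ∀ ε, 0 < ε → ∃ η, 0 < η ∧ ∀ δ, 0 < δ → ∃ w, η < |C.x w - p| ∧
      |C.x w - p| < ε ∧ |C.y w - q'| < δ ∧ cond s (p < C.x w) (C.x w < p) ∧
      cond s' (C.y w < q') (q' < C.y w) := fun ne ε e => by
    obtain ⟨η, η0, M⟩ := (h.mix ne).1 _ (lt_min e r)
    refine ⟨η, η0, fun δ d => ?_⟩
    obtain ⟨w, hw, a, b, c⟩ := M _ (lt_min d r')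
    exact ⟨w, a, b.trans_le (min_le_left _ _), c.trans_le (min_le_left _ _),
      R _ (xl hw) (A.nx w) (b.trans_le (min_le_right _ _)),
      R' _ (yl hw) (B.ny w) (c.trans_le (min_le_right _ _))⟩
  have w4 : s ≠ s' → ∀ ε, 0 < ε → ∃ η, 0 < η ∧ ∀ δ, 0 < δ → ∃ w, |C.x w - p| < δ ∧
      |C.y w - q'| < ε ∧ cond s (p < C.x w) (C.x w < p) ∧
      cond s' (C.y w < q' - η) (q' + η < C.y w) := fun ne ε e => by
    obtain ⟨t, ht, a, b⟩ := (h.mix ne).2 _ (lt_min (half_pos e) r')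
    have c := R' t (hx p ht) a (b.trans_le (min_le_right _ _))
    have b' := abs_lt.1 (b.trans_le (min_le_left _ _))
    have t0 : 0 < |t - q'| := abs_pos.2 (sub_ne_zero.2 a)
    refine ⟨|t - q'| / 2, half_pos t0, fun δ d => ?_⟩
    obtain ⟨w, -, a1, a2, a3⟩ := w1 _ (lt_min d (lt_min (half_pos e) (half_pos t0))) t ht
    simp only [lt_min_iff, abs_lt] at a2
    refine ⟨w, a1.trans_le (min_le_left _ _), abs_lt.2 ⟨by linarith [a2.2.1.1], by
      linarith [a2.2.1.2]⟩, a3, ?_⟩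
    cases s' <;> simp only [cond_true, cond_false] at c ⊢
    · rw [abs_of_pos (sub_pos.2 c)] at a2 ⊢; linarith [a2.2.2.1]
    · rw [abs_of_neg (sub_neg.2 c)] at a2 ⊢; linarith [a2.2.2.2]
  have ir : ∀ w, IR C (C.x w) (C.y w) := fun w => ⟨w, rfl, rfl⟩
  have il : ∀ w, IL C (-(C.x w + 2 * π)) (-C.y w) := fun w => ⟨w, neg_neg _, neg_neg _⟩
  refine ⟨h.src, h.tgt, h.lo, h.hi, h.ne, fun ε e => ?_, fun ε e => ?_⟩ <;>
    cases s <;> cases s' <;> simp only [cond_true, cond_false, Bool.not_true, Bool.not_false] at *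
  · refine ⟨1, one_pos, fun δ d => ?_⟩
    obtain ⟨w, a, b, c, d⟩ := w2 δ d
    rw [abs_lt] at a b
    exact cov1 (ir w) (by linarith [a.1]) c d (by linarith [b.2])
  · obtain ⟨η, η0, M⟩ := w4 (by simp) ε e
    refine ⟨η, η0, fun δ d => ?_⟩
    obtain ⟨w, a, b, c, d⟩ := M δ d
    rw [abs_lt] at a b
    exact cov1 (ir w) (by linarith [a.1]) c (by linarith [b.1]) d
  · obtain ⟨η, η0, M⟩ := w3 (by simp) ε e
    refine ⟨η, η0, fun δ d => ?_⟩
    obtain ⟨w, a, a', b, c, d⟩ := M δ d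
    rw [abs_of_pos (sub_pos.2 c)] at a a'
    rw [abs_lt] at b
    exact cov1 (ir w) (by linarith) (by linarith) d (by linarith [b.2])
  · obtain ⟨w, a, b, c, d⟩ := w2 ε e
    rw [abs_lt] at a b
    have m1 := min_le_left (C.x w - p) (q' - C.y w)
    have m2 := min_le_right (C.x w - p) (q' - C.y w)
    have m0 := lt_min (sub_pos.2 c) (sub_pos.2 d)
    exact ⟨_, half_pos m0, fun δ _ => cov1 (ir w) (by linarith) (by linarith [a.2])
      (by linarith [b.1]) (by linarith)⟩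
  · obtain ⟨w, a, b, c, d⟩ := w2 ε e
    rw [abs_lt] at a b
    have m1 := min_le_left (p - C.x w) (C.y w - q')
    have m2 := min_le_right (p - C.x w) (C.y w - q')
    have m0 := lt_min (sub_pos.2 c) (sub_pos.2 d)
    exact ⟨_, half_pos m0, fun δ _ => cov1 (il w) (by linarith) (by linarith [a.1])
      (by linarith [b.2]) (by linarith)⟩
  · obtain ⟨η, η0, M⟩ := w3 (by simp) ε e
    refine ⟨η, η0, fun δ d => ?_⟩
    obtain ⟨w, a, a', b, c, d⟩ := M δ d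
    rw [abs_of_neg (sub_neg.2 c)] at a a'
    rw [abs_lt] at b
    exact cov1 (il w) (by linarith) (by linarith) (by linarith) (by linarith [b.1])
  · obtain ⟨η, η0, M⟩ := w4 (by simp) ε e
    refine ⟨η, η0, fun δ d => ?_⟩
    obtain ⟨w, a, b, c, d⟩ := M δ d
    rw [abs_lt] at a b
    exact cov1 (il w) (by linarith [a.2]) (by linarith) (by linarith [b.2]) (by linarith)
  · refine ⟨1, one_pos, fun δ d => ?_⟩
    obtain ⟨w, a, b, c, d⟩ := w2 δ d
    rw [abs_lt] at a b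
    exact cov1 (il w) (by linarith [a.2]) (by linarith) (by linarith) (by linarith [b.1])

/-- the axis of a node with a long wall -/
lemma axis (H : CW.Cell1 k) (H2 : CW.Cell2 k) {s : Bool} {p q : ℝ} (h : CW.Node k s p q) :
    ∃ γ, CW.Stab k γ ∧ Hyp γ p q ∧ ∃ w, cond s (p < C.x w ∧ C.y w < q ∧ γ (C.x w) < C.y w)
      (C.x w < p ∧ q < C.y w ∧ C.y w < γ (C.x w) + 2 * π) := by
  have A := sd H h
  obtain ⟨γ, g1, g2⟩ : ∃ γ, CW.Stab k γ ∧ Hyp γ p q := by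
    cases s with
    | false => exact H2.hyp p q h.gap
    | true =>
      obtain ⟨g, g1, g2⟩ := H2.hyp q (p + 2 * π) h.gap
      have fp : g p = p := by have := g2.fv; rw [C.cg.per _ g1.1] at this; linarith
      refine ⟨g⁻¹, H.inv g g1, A.lt, A.lt2, inv_fix fp, inv_fix g2.fu, fun t a b => ?_,
        fun t a b => g.symm_apply_lt.2 (g2.up t a b)⟩
      have := g2.dn (t + 2 * π) (by linarith) (by linarith)
      rw [C.cg.per _ g1.1] at this
      exact g.lt_symm_apply.2 (by linarith)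
  refine ⟨γ, g1, g2, ?_⟩
  obtain ⟨ρ, r, R⟩ := A.x
  obtain ⟨ρ', r', R'⟩ := A.y
  have d0 : 0 < min (q - p) (p + 2 * π - q) / 2 :=
    half_pos (lt_min (sub_pos.2 A.lt) (sub_pos.2 A.lt2))
  have m1 := min_le_left (q - p) (p + 2 * π - q)
  have m2 := min_le_right (q - p) (p + 2 * π - q)
  obtain ⟨δ, d, D⟩ := Metric.continuousAt_iff.1 (γ.continuous.continuousAt (x := p)) _ d0
  obtain ⟨w, hw, a, b⟩ := h.deep _ (lt_min (lt_min r r') (lt_min d d0))
  simp only [lt_min_iff] at a b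
  have c1 := R _ (xl hw) (A.nx w) a.1.1
  have c2 := R' _ (yl hw) (A.ny w) b.1.2
  have c3 := D (x := C.x w) a.2.1
  rw [Real.dist_eq, g2.fu, abs_lt] at c3
  have c4 := abs_lt.1 b.2.2
  refine ⟨w, ?_⟩
  cases s <;> simp only [cond_true, cond_false] at c1 c2 ⊢ <;>
    exact ⟨c1, c2, by linarith [c3.1, c3.2, c4.1, c4.2]⟩

lemma data (H : CW.Cell1 k) (H2 : CW.Cell2 k) {s : Bool} {p q : ℝ} (h : CW.Node k s p q) :
    ∃ γ, CW.Stab k γ ∧ Hyp γ p q ∧ Psh (IR C) γ p q ∧ Psh (IL C) (ng γ) (-(p + 2 * π)) (-q) ∧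
      (s = true → ∃ a b, Ch (IR C) γ p q a b) ∧
      ((!s) = true → ∃ a b, Ch (IL C) (ng γ) (-(p + 2 * π)) (-q) a b) := by
  obtain ⟨γ, g1, g2, w, hw⟩ := axis H H2 h
  refine ⟨γ, g1, g2, ⟨g2.fu, g2.fv, ir_inv g1.1⟩, ⟨?_, ?_, il_inv g1.1⟩, ?_, ?_⟩
  · rw [ng_apply, neg_neg, C.cg.per _ g1.1, g2.fu]
  · rw [ng_apply, neg_neg, g2.fv]
  · rintro rfl
    exact ⟨_, _, g2.up, ⟨w, rfl, rfl⟩, hw.1, hw.2.1, hw.2.2⟩
  · intro e
    obtain rfl : s = false := by simpa using e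
    refine ⟨-(C.x w + 2 * π), -C.y w, fun t a b => ?_, ⟨w, neg_neg _, neg_neg _⟩,
      by linarith [hw.1], by linarith [hw.2.1], ?_⟩
    · have := g2.dn (-t) (by linarith) (by linarith)
      rw [ng_apply]; linarith
    · rw [ng_apply, neg_neg, C.cg.per _ g1.1]; linarith [hw.2.2]

lemma stab_pow (H : CW.Cell1 k) (h : CW.Stab k γ) (n : ℕ) : CW.Stab k (γ ^ n) := by
  induction n with
  | zero => exact H.one
  | succ n ih => rw [pow_succ]; exact H.mul _ _ ih h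

lemma GE.comp (H : CW.Cell1 k) (H2 : CW.Cell2 k)
    (hn : ∀ g, CW.Stab k g → ∀ s p q, CW.Node k s p q → CW.Node k s (g p) (g q))
    {s s' s'' : Bool} {p q p' q' p'' q'' : ℝ} (h : GE k s p q s' p' q')
    (h' : GE k s' p' q' s'' p'' q'') :
    ∃ g, CW.Stab k g ∧ GE k s p q s'' (g p'') (g q'') := by
  obtain ⟨γ0, -, -, a1, a2, a3, a4⟩ := data H H2 h.src
  obtain ⟨γ, g1, g2, b1, b2, b3, b4⟩ := data H H2 h.tgt
  obtain ⟨γ2, -, -, c1, c2, c3, c4⟩ := data H H2 h'.tgt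
  have e1 := h.sp H
  have e2 := h'.side H
  have lo := h'.lo
  have hi := h'.hi
  have l1 := g2.lt
  have l2 := g2.lt2
  have R := FLop.comp b1 h.gr h'.gr h.lo
    (fun e => let ⟨_, _, c⟩ := a3 e; c.loCh a1) (fun e => let ⟨_, _, c⟩ := c3 e; c.upCh c1)
    (by rintro rfl; exact ⟨lo, e2, b3 rfl⟩) (by rintro rfl; exact ⟨e1, l1, e2⟩)
  have L := FLop.comp b2 h.gl h'.gl (by linarith [h.hi])
    (fun e => let ⟨_, _, c⟩ := a4 e; c.loCh a2) (fun e => let ⟨_, _, c⟩ := c4 e; c.upCh c2)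
    (fun e => by
      obtain rfl : s' = false := by simpa using e
      exact ⟨by linarith, neg_lt_neg e2, b4 rfl⟩)
    (fun e => by
      obtain rfl : s' = true := by simpa using e
      simp only [cond_true] at e1 e2
      exact ⟨by linarith, by linarith, by linarith⟩)
  have T : Tendsto (fun n : ℕ => (γ ^ n) q'') atTop (𝓝 q') := by
    cases s' with
    | true => exact tend_up g2.fv g2.up lo e2
    | false => exact tend_dn g2.fv g2.dn e2 hi
  obtain ⟨N, n1, n2, n3, n4, n5⟩ := (R.and (L.and ((T.eventually (lt_mem_nhds h.lo)).and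
    ((T.eventually (gt_mem_nhds h.hi)).and (T.eventually_ne h.ne))))).exists
  rw [ng_pow, neg_neg] at n2
  exact ⟨γ ^ N, stab_pow H g1 N, h.src, hn _ (stab_pow H g1 N) _ _ _ h'.tgt, n3, n4, n5, n1, n2⟩

end FLop

open FLop in
theorem loop (h1 : Cell1St) (h2 : Cell2St) (hn : NodeSt) : LoopSt := by
  intro C k s p q h hs T
  have H := h1 C k
  have H2 := h2 C k
  obtain ⟨n1, -, n3, n4, -, -, n7, n8, -⟩ := hn C k
  have hx := fun p => (n1 p).2
  have key : ∀ b, Relation.TransGen (CW.Edge k) (s, p, q) b →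
      ∃ g, CW.Stab k g ∧ GE k s p q b.1 (g b.2.1) (g b.2.2) := by
    intro b hb
    induction hb with
    | single e => exact ⟨1, H.one, edge H hx e⟩
    | tail _ e ih =>
      obtain ⟨g, g1, g2⟩ := ih
      obtain ⟨g', g3, g4⟩ := g2.comp H H2 n3 (edge H hx (n4 g g1 _ _ e))
      exact ⟨g' * g, H.mul _ _ g3 g1, g4⟩
  obtain ⟨g, g1, G⟩ := key _ T
  have gs := H.mul _ _ g1 hs
  replace G : GE k s p q s ((g * h) p) ((g * h) q) := G
  generalize g * h = f at gs G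
  obtain ⟨γ, a1, a2, w, hw⟩ := axis H H2 G.src
  have A := sd H G.src
  have e1 := G.sp H
  have e2 := G.side H
  obtain ⟨ρ, r, R⟩ := A.x
  have w1 : ∀ ε, 0 < ε → ∀ t ∈ CW.Xi k p, ∃ w, |C.x w - p| < ε ∧ |C.y w - t| < ε ∧
      cond s (p < C.x w) (C.x w < p) := fun ε e t ht => by
    obtain ⟨w, hw, a, b⟩ := ht _ (lt_min e r)
    exact ⟨w, a.trans_le (min_le_left _ _), b.trans_le (min_le_left _ _),
      R _ (xl hw) (A.nx w) (a.trans_le (min_le_right _ _))⟩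
  have gr := G.gr
  have gl := G.gl
  cases s with
  | true =>
    simp only [cond_true, Bool.not_true] at hw e1 e2 w1 gl
    refine ⟨⟨p, q, γ, f, True, False, a1.1, gs.1, a2, G.lo, G.hi, G.ne, e1.ne,
      fun _ => ⟨e2, e1⟩, False.elim, fun _ => ⟨w, hw⟩, fun c => (c trivial).elim, False.elim,
      fun _ ε e => ?_, fun _ δ d => ?_, fun c => (c trivial).elim, ?_⟩⟩
    · obtain ⟨η, η0, M⟩ := gr _ (half_pos e)
      exact ⟨p + η, p + ε / 2, f q - ε / 2, f q - η, by linarith, by linarith, by linarith,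
        by linarith, (M 1 one_pos).r⟩
    · obtain ⟨η, η0, M⟩ := gl 1 one_pos
      exact Cov.l ((M δ d).mono (by simp only [cond_false]; linarith) le_rfl le_rfl
        (by simp only [cond_false]; linarith))
    · obtain ⟨⟨r, r1, r2, r3⟩, l, l1, l2, l3⟩ := n7 p q (f q) G.src G.lo e2
      refine ⟨r, l, r2, r3, l2, l3.trans A.lt2, fun δ d => ?_⟩
      obtain ⟨w2, b1, b2, b3⟩ := w1 δ d l l1
      obtain ⟨w3, c1, c2, c3⟩ := w1 _ (lt_min d (sub_pos.2 b3)) r r1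
      simp only [lt_min_iff] at c1 c2
      exact ⟨w3, w2, by linarith [(abs_lt.1 c1.2).2], c1.1, b1, c2.1, b2, fun _ => c3, False.elim⟩
  | false =>
    simp only [cond_false, Bool.not_false] at hw e1 e2 w1 gl
    refine ⟨⟨p, q, γ, f, False, True, a1.1, gs.1, a2, G.lo, G.hi, G.ne, e1.ne',
      False.elim, fun _ => ⟨e2, e1⟩, fun c => (c trivial).elim, fun _ => ⟨w, hw⟩,
      fun _ δ d => ?_, fun c => (c trivial).elim, False.elim, fun _ ε e => ?_, ?_⟩⟩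
    · obtain ⟨η, η0, M⟩ := gr 1 one_pos
      exact (M δ d).r
    · obtain ⟨η, η0, M⟩ := gl _ (half_pos e)
      refine ⟨f q + η, f q + ε / 2, p + 2 * π - ε / 2, p + 2 * π - η, by linarith, by linarith,
        by linarith, by linarith, Cov.l ((M 1 one_pos).mono ?_ ?_ ?_ ?_)⟩ <;>
      simp only [cond_true] <;> linarith
    · obtain ⟨⟨r, r1, r2, r3⟩, l, l1, l2, l3⟩ := n8 p q (f q) G.src e2 G.hi
      refine ⟨r, l, A.lt.trans r2, r3, l2, l3, fun δ d => ?_⟩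
      obtain ⟨w2, b1, b2, b3⟩ := w1 δ d r r1
      obtain ⟨w3, c1, c2, c3⟩ := w1 _ (lt_min d (sub_pos.2 b3)) l l1
      simp only [lt_min_iff] at c1 c2
      exact ⟨w2, w3, by linarith [(abs_lt.1 c1.2).1], b1, c1.1, b2, c2.1, False.elim, fun _ => c3⟩

end

end Pool.Agent.Lib.MP_21f752_an
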