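import Pool.Agent.Lib.MP_21f752_an.FG

/-! Measurability of sets of walls and of the recurrent pairs. -/

namespace Pool.Agent.Lib.MP_21f752_an

open UpperHalfPlane Set Filter Topology Metric MeasureTheory
open scoped MatrixGroups Real

noncomputable section

namespace FMeas

lemma cont_cay : Continuous cay :=
  (continuous_coe.sub continuous_const).div (continuous_coe.add continuous_const) fun z h => by
    have := congrArg Complex.im h
    have h2 := z.im_pos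
    simp at this
    linarith

lemma meas_tend {X : Type} [TopologicalSpace X] [MeasurableSpace X] [OpensMeasurableSpace X]
    {f : X → ℝ → ℂ} {g : X → ℂ} (hf : ∀ t, Continuous fun x => f x t) (hg : Continuous g) :
    MeasurableSet {x | Tendsto (f x) atTop (𝓝 (g x))} := by
  have : {x | Tendsto (f x) atTop (𝓝 (g x))} =
      ⋂ n : ℕ, ⋃ T : ℕ, ⋂ t ∈ Ici (T : ℝ), {x | dist (f x t) (g x) ≤ 1 / (n + 1)} := by
    ext x
    simp only [mem_iInter, mem_iUnion, mem_setOf_eq, Metric.tendsto_atTop]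
    constructor
    · intro h n
      obtain ⟨T, hT⟩ := h _ (Nat.one_div_pos_of_nat (n := n))
      exact ⟨⌈T⌉₊, fun t ht => (hT t ((Nat.le_ceil T).trans ht)).le⟩
    · intro h ε hε
      obtain ⟨n, hn⟩ := exists_nat_one_div_lt hε
      obtain ⟨T, hT⟩ := h n
      exact ⟨T, fun t ht => (hT t ht).trans_lt hn⟩
  rw [this]
  exact MeasurableSet.iInter fun n => MeasurableSet.iUnion fun T =>
    (isClosed_biInter fun t _ => isClosed_le ((hf t).dist hg) continuous_const).measurableSet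

variable (G : Geo)

lemma cont_o (t : ℝ) : Continuous fun ξ : N => cay (G.o ξ t) :=
  cont_cay.comp (continuous_fst.comp (G.continuous_φ.comp (continuous_const.prodMk continuous_id)))

lemma meas_P : MeasurableSet {w : N × ℝ | G.EndP w.1 w.2} :=
  meas_tend (f := fun (w : N × ℝ) t => cay (G.o w.1 t)) (fun t => (cont_o G t).comp continuous_fst)
    (continuous_ce.comp continuous_snd)

lemma meas_M : MeasurableSet {w : N × ℝ | G.EndM w.1 w.2} := by
  have := meas_tend (f := fun (w : N × ℝ) t => cay (G.o w.1 (-t)))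
    (fun t => (cont_o G (-t)).comp continuous_fst) (continuous_ce.comp continuous_snd)
  convert this using 1
  ext w
  exact ⟨fun h => h.comp tendsto_neg_atTop_atBot, fun h => by
    simpa [Function.comp_def, Geo.EndM] using h.comp tendsto_neg_atBot_atTop⟩

/-- walls with their ends form a measurable set -/
lemma meas_Wl : MeasurableSet {w : N × ℝ × ℝ | G.Wl w.1 w.2.1 w.2.2} := by
  have h1 := (measurable_fst.prodMk (measurable_fst.comp measurable_snd) :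
    Measurable fun w : N × ℝ × ℝ => (w.1, w.2.1)) (meas_M G)
  have h2 := (measurable_fst.prodMk (measurable_snd.comp measurable_snd) :
    Measurable fun w : N × ℝ × ℝ => (w.1, w.2.2)) (meas_P G)
  have h3 : MeasurableSet {w : N × ℝ × ℝ | w.2.1 < w.2.2} :=
    measurableSet_lt (by fun_prop) (by fun_prop)
  have h4 : MeasurableSet {w : N × ℝ × ℝ | w.2.2 < w.2.1 + 2 * π} :=
    measurableSet_lt (by fun_prop) (by fun_prop)
  convert (h1.inter h2).inter (h3.inter h4) using 1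
  ext w
  exact ⟨fun h => ⟨⟨h.m, h.p⟩, h.lt, h.lt2⟩, fun h => ⟨h.1.1, h.1.2, h.2.1, h.2.2⟩⟩

lemma eq_of {a b : ℝ} (h : ce a = ce b) (h1 : a < b + 2 * π) (h2 : b < a + 2 * π) : a = b := by
  obtain ⟨k, rfl⟩ := ce_eq_iff.1 h
  have hp : 0 < 2 * π := by positivity
  have a1 : (k : ℝ) < 1 := by nlinarith
  have a2 : (-1 : ℝ) < k := by nlinarith
  have a3 : k < 1 := by exact_mod_cast a1
  have a4 : -1 < k := by exact_mod_cast a2
  simp [show k = 0 by omega]

lemma meas_EW {O : Set (ℝ × ℝ)} (hO : MeasurableSet O) : MeasurableSet (G.EW O) := by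
  have hp : 0 < 2 * π := by positivity
  have : G.EW O = ⋃ k : ℤ, Prod.fst '' ({w : N × ℝ × ℝ | G.Wl w.1 w.2.1 w.2.2} ∩
      (Prod.snd ⁻¹' O ∩ (fun w => w.2.1) ⁻¹' Ico (k * (2 * π)) (k * (2 * π) + 2 * π))) := by
    ext ξ
    simp only [mem_iUnion]
    constructor
    · rintro ⟨x, y, h1, h2⟩
      refine ⟨toIcoDiv hp 0 x, (ξ, x, y), ⟨h2, h1, ?_⟩, rfl⟩
      have := sub_toIcoDiv_zsmul_mem_Ico hp 0 x
      simp only [zsmul_eq_mul, zero_add] at this
      exact ⟨by linarith [this.1], by linarith [this.2]⟩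
    · rintro ⟨k, w, ⟨h1, h2, -⟩, rfl⟩
      exact ⟨w.2.1, w.2.2, h2, h1⟩
  rw [this]
  refine MeasurableSet.iUnion fun k => MeasurableSet.image_of_continuousOn_injOn
    ((meas_Wl G).inter ((measurable_snd hO).inter
      ((measurable_fst.comp measurable_snd) measurableSet_Ico))) continuous_fst.continuousOn ?_
  rintro ⟨ξ, x, y⟩ ⟨h1, -, h2⟩ ⟨η, x', y'⟩ ⟨h3, -, h4⟩ (rfl : ξ = η)
  obtain rfl : x = x' := eq_of (tendsto_nhds_unique h1.m h3.m) (by linarith [h2.2, h4.1])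
    (by linarith [h2.1, h4.2])
  obtain rfl : y = y' := eq_of (tendsto_nhds_unique h1.p h3.p) (by linarith [h1.lt2, h3.lt])
    (by linarith [h1.lt, h3.lt2])
  rfl

lemma count (hm : Mob) (S : Sys) : (GG S.Γ : Set (ℝ ≃o ℝ)).Countable := by
  have : (GG S.Γ : Set (ℝ ≃o ℝ)) = ⋃ γ : S.Γ, {g | Lift γ g} := by
    ext g
    simp only [mem_iUnion]
    exact ⟨fun ⟨γ, a, b⟩ => ⟨⟨γ, a⟩, b⟩, fun ⟨γ, b⟩ => ⟨γ, γ.2, b⟩⟩
  rw [this]
  refine countable_iUnion fun γ => ?_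
  obtain ⟨g0, h0⟩ := hm.ex γ
  choose! k hk using fun g (h : Lift γ g) => hm.uniq γ g0 g h0 h
  exact countable_of_injective_of_countable_image (f := k)
    (fun g a g' b e => RelIso.ext fun t => by rw [hk g a, hk g' b, e]) (to_countable _)

lemma ctr_mono {g : ℝ ≃o ℝ} {r a ε ε' : ℝ} (h : Ctr g r a ε) (e : ε ≤ ε') : Ctr g r a ε' :=
  fun t h1 h2 => (h t (by linarith) (by linarith)).trans_le e

lemma ctr_iff {g : ℝ ≃o ℝ} {r a ε : ℝ} (e : ε ≤ π) :
    Ctr g r a ε ↔ |g (r + ε) - a| < ε ∧ |g (r + 2 * π - ε) - a| < ε := by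
  refine ⟨fun h => ⟨h _ le_rfl (by linarith), h _ (by linarith) le_rfl⟩, fun h t h1 h2 => ?_⟩
  have a1 := g.monotone h1
  have a2 := g.monotone h2
  rw [abs_lt] at h ⊢
  obtain ⟨⟨b1, -⟩, h⟩ := h
  rw [abs_lt] at h
  constructor <;> linarith [h.2]

lemma meas_aux (hm : Mob) (S : Sys) {r a : ℝ × ℝ → ℝ} (hr : Continuous r) (ha : Continuous a) :
    MeasurableSet {v : ℝ × ℝ | ∀ ε, 0 < ε → ∃ g ∈ GG S.Γ, |g⁻¹ v.1 - v.1| < ε ∧
      |g⁻¹ v.2 - v.2| < ε ∧ Ctr g (r v) (a v) ε} := by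
  have : {v : ℝ × ℝ | ∀ ε, 0 < ε → ∃ g ∈ GG S.Γ, |g⁻¹ v.1 - v.1| < ε ∧
      |g⁻¹ v.2 - v.2| < ε ∧ Ctr g (r v) (a v) ε} = ⋂ n : ℕ, ⋃ g ∈ (GG S.Γ : Set (ℝ ≃o ℝ)),
      {v | |g⁻¹ v.1 - v.1| < 1 / (n + 1) ∧ |g⁻¹ v.2 - v.2| < 1 / (n + 1) ∧
        Ctr g (r v) (a v) (1 / (n + 1))} := by
    ext v
    simp only [mem_iInter, mem_iUnion, mem_setOf_eq, exists_prop]
    refine ⟨fun h n => h _ Nat.one_div_pos_of_nat, fun h ε hε => ?_⟩
    obtain ⟨n, hn⟩ := exists_nat_one_div_lt hε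
    obtain ⟨g, a, b, c, d⟩ := h n
    exact ⟨g, a, b.trans hn, c.trans hn, ctr_mono d hn.le⟩
  rw [this]
  refine MeasurableSet.iInter fun n => MeasurableSet.biUnion (count hm S) fun g _ => ?_
  have e : (1 / (n + 1) : ℝ) ≤ π :=
    (Nat.one_div_le_one_div (Nat.zero_le n)).trans (by simpa using by linarith [Real.pi_gt_three])
  simp only [ctr_iff e]
  have c1 := g.continuous
  have c2 := g⁻¹.continuous
  have k : ∀ f : ℝ × ℝ → ℝ, Continuous f → MeasurableSet {v | |f v| < 1 / (n + 1)} := fun f hf =>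
    (isOpen_lt hf.abs continuous_const).measurableSet
  exact (k (fun v => g⁻¹ v.1 - v.1) (by fun_prop)).inter ((k (fun v => g⁻¹ v.2 - v.2)
    (by fun_prop)).inter ((k (fun v => g (r v + 1 / (n + 1)) - a v) (by fun_prop)).inter
      (k (fun v => g (r v + 2 * π - 1 / (n + 1)) - a v) (by fun_prop))))

lemma near (g : ℝ ≃o ℝ) (x : ℝ) {ε : ℝ} (h : 0 < ε) :
    ∀ᶠ δ in 𝓝[>] (0 : ℝ), ∀ t, |t - x| ≤ δ → |g t - g x| < ε := by
  obtain ⟨δ, d, k⟩ := Metric.continuousAt_iff.1 (g.continuous.continuousAt (x := x)) ε h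
  filter_upwards [Ioo_mem_nhdsGT d] with s hs t ht
  exact k (ht.trans_lt hs.2)

lemma ctr_conj {g : ℝ ≃o ℝ} (hg : ∀ t, g (t + 2 * π) = g t + 2 * π) (r a : ℝ) {ε : ℝ} (h : 0 < ε) :
    ∀ᶠ δ in 𝓝[>] (0 : ℝ), ∀ f, Ctr f r a δ → Ctr (g * f * g⁻¹) (g r) (g a) ε := by
  filter_upwards [near g r h, near g a h, self_mem_nhdsWithin] with δ h1 h2 (d : 0 < δ) f hf t t1 t2
  have a1 := abs_lt.1 (h1 (r + δ) (by simp [abs_of_pos d]))
  have a2 := abs_lt.1 (h1 (r - δ) (by simp [abs_of_pos d]))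
  have a3 := hg (r - δ)
  refine h2 _ (hf _ ?_ ?_).le
  · exact g.le_symm_apply.2 (by linarith [a1.2])
  · refine g.symm_apply_le.2 ?_
    rw [show r + 2 * π - δ = r - δ + 2 * π by ring]
    linarith [a2.1]

end FMeas

open FMeas

theorem meas (hm : Mob) : MeasSt := by
  intro G
  refine ⟨fun O => meas_EW G, ?_, ?_⟩
  · convert (meas_aux hm G.toSys continuous_fst continuous_snd).inter
      (meas_aux hm G.toSys (continuous_snd.sub (continuous_const (y := 2 * π))) continuous_fst)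
      using 1
    ext v
    exact ⟨fun h => ⟨fun ε e => (h ε e).1, fun ε e => (h ε e).2⟩, fun h ε e => ⟨h.1 ε e, h.2 ε e⟩⟩
  · intro g hg x y h ε e
    have hp : ∀ t, g (t + 2 * π) = g t + 2 * π := hg.choose_spec.2.per
    have h3 : g (y - 2 * π) = g y - 2 * π := by
      have := hp (y - 2 * π)
      rw [sub_add_cancel] at this
      linarith
    obtain ⟨δ, ⟨⟨a1, a2⟩, a3, a4⟩, (d : 0 < δ)⟩ := ((((near g x e).and (near g y e)).and
      ((ctr_conj hp x y e).and (ctr_conj hp (y - 2 * π) x e))).and self_mem_nhdsWithin).exists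
    obtain ⟨⟨f, f1, f2, f3, f4⟩, f', g1, g2, g3, g4⟩ := h δ d
    have m : ∀ f ∈ GG G.Γ, g * f * g⁻¹ ∈ GG G.Γ := fun f a =>
      (GG G.Γ).mul_mem ((GG G.Γ).mul_mem hg a) ((GG G.Γ).inv_mem hg)
    have q : ∀ (f : ℝ ≃o ℝ) t, (g * f * g⁻¹)⁻¹ (g t) = g (f⁻¹ t) := fun f t => by simp
    refine ⟨⟨_, m f f1, ?_, ?_, a3 f f4⟩, _, m f' g1, ?_, ?_, h3 ▸ a4 f' g4⟩
    · exact q f x ▸ a1 _ f2.le
    · exact q f y ▸ a2 _ f3.le
    · exact q f' x ▸ a1 _ g2.le
    · exact q f' y ▸ a2 _ g3.le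

end

end Pool.Agent.Lib.MP_21f752_an
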