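import Pool.Agent.Lib.MP_21f752_an.FG

/-! Two crossing families of positive measure meet over a generic point. -/

namespace Pool.Agent.Lib.MP_21f752_an

open UpperHalfPlane Set Filter Topology Metric MeasureTheory
open scoped MatrixGroups ContDiff Real

noncomputable section

namespace FMeet

lemma null_im {T : Set ℝ} (h : volume T = 0) : volume {x : ℂ × ℝ | x.1.im ∈ T} = 0 := by
  have a : volume {z : ℂ | z.im ∈ T} = 0 := by
    have := Complex.volume_preserving_equiv_real_prod.measure_preimage_equiv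
      (univ ×ˢ T)
    rw [Measure.volume_eq_prod, Measure.prod_prod, h, mul_zero] at this
    rw [← this]
    congr 1
    ext z
    simp
  have : {x : ℂ × ℝ | x.1.im ∈ T} = {z : ℂ | z.im ∈ T} ×ˢ univ := by
    ext x
    simp
  rw [this, Measure.volume_eq_prod, Measure.prod_prod, a, zero_mul]

/-- orbits through a null set of points of one orbit form a null set -/
lemma null_sweep (S : Sys) (ξ : N) {T : Set ℝ} (h : volume T = 0) :
    volume (emb '' {η | ∃ t, ∃ s ∈ T, (S.φ s ξ).1 = (S.φ t η).1}) = 0 := by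
  set F : ℂ × ℝ → ℂ × ℝ := fun x => S.Φ (x.1.re, ((S.φ x.1.im ξ).1 : ℂ), x.2) with hF
  have d : Differentiable ℝ F := fun x => by
    have a : DifferentiableAt ℝ (fun x : ℂ × ℝ => ((S.φ x.1.im ξ).1 : ℂ)) x :=
      DifferentiableAt.comp (g := fun s => ((S.φ s ξ).1 : ℂ)) (f := fun x : ℂ × ℝ => x.1.im) x
        (S.hd_z ξ x.1.im).differentiableAt (Complex.imCLM.differentiableAt.comp x differentiableAt_fst)
    exact DifferentiableAt.comp (g := S.Φ) x (S.Φ_diff x.1.re ((S.φ x.1.im ξ).1, x.2))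
      ((Complex.reCLM.differentiableAt.comp x differentiableAt_fst).prodMk
        (a.prodMk differentiableAt_snd))
  have : (volume : Measure (ℂ × ℝ)).IsAddHaarMeasure := Measure.prod.instIsAddHaarMeasure _ _
  refine measure_mono_null ?_ (addHaar_image_eq_zero_of_differentiableOn_of_addHaar_eq_zero volume
    d.differentiableOn (null_im h))
  rintro _ ⟨η, ⟨t, s, hs, e⟩, rfl⟩
  refine ⟨(⟨-t, s⟩, (S.φ t η).2), hs, ?_⟩
  have := S.Φ_emb (-t) (S.φ t η)
  rw [S.φ_neg] at this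
  simp only [hF, e]
  exact this

end FMeet

theorem meet (hq : FreqSt) : MeetSt := fun G B1 B2 E _ _ f1 f2 _ h1 h2 hE hd => by
  obtain ⟨-, -, q3, q4, -, q6⟩ := hq G
  obtain ⟨Z, hZ, hZ2⟩ := q4 E hE
  obtain ⟨ξ, hξ, hT⟩ : ∃ ξ ∈ B1, volume {t : ℝ | G.φ t ξ ∈ Z ×ˢ univ} = 0 := by
    by_contra hc
    push Not at hc
    exact h1 (measure_mono_null (fun ξ hξ => hc ξ hξ) (q6 _ hZ))
  by_contra hc
  refine h2 ((q3 B2).2 ?_)
  rw [mEmb.comap_apply]
  refine measure_mono_null (image_mono fun η hη => ?_) (FMeet.null_sweep G.toSys ξ hT)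
  obtain ⟨s, t, e⟩ : ∃ s t, G.o ξ s = G.o η t := by simpa [Geo.Dis] using hd ξ hξ η hη
  refine ⟨t, s, ⟨?_, trivial⟩, e⟩
  by_contra hz
  refine hc ⟨G.o ξ s, (G.φ s ξ).2, (G.φ t η).2, f1 s ξ hξ, ?_, hZ2 _ hz⟩
  rw [e]
  exact f2 t η hη

end

end Pool.Agent.Lib.MP_21f752_an
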