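import Pool.Agent.Lib.MP_21f752_an.FC

/-! Nodes: creation, invariance, and the set `Xi`. -/

namespace Pool.Agent.Lib.MP_21f752_an

open Set Filter Topology
open scoped Real

namespace FNod

lemma pow_app (g : ℝ ≃o ℝ) (n : ℕ) (c : ℝ) : (g ^ (n + 1)) c = g ((g ^ n) c) := by
  rw [pow_succ']; rfl

lemma pow_fix {g : ℝ ≃o ℝ} {p : ℝ} (h : g p = p) (n : ℕ) : (g ^ n) p = p := by
  induction n with
  | zero => rfl
  | succ n ih => rw [pow_app, ih, h]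

lemma inv_app (g : ℝ ≃o ℝ) (c : ℝ) : g (g⁻¹ c) = c := g.apply_symm_apply c

lemma app_inv (g : ℝ ≃o ℝ) (c : ℝ) : g⁻¹ (g c) = c := g.symm_apply_apply c

lemma inv_fix {g : ℝ ≃o ℝ} {p : ℝ} (h : g p = p) : g⁻¹ p = p := by
  conv_lhs => rw [← h]
  exact app_inv g p

lemma inv_up {g : ℝ ≃o ℝ} {s : ℝ} (h : g s < s) : s < g⁻¹ s := by
  have := (g⁻¹).strictMono h
  rwa [app_inv] at this

lemma iter_dn {g : ℝ ≃o ℝ} {p q c t : ℝ} (hg : ∀ s, p < s → s < q → g s < s) (hc : c < q)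
    (ht : p < t) : ∃ n : ℕ, (g ^ n) c < t := by
  by_contra hn
  have hn' : ∀ n : ℕ, t ≤ (g ^ n) c := fun n => not_lt.1 fun h => hn ⟨n, h⟩
  have hb : BddBelow (range fun n : ℕ => (g ^ n) c) := ⟨t, by rintro _ ⟨n, rfl⟩; exact hn' n⟩
  have hne : (range fun n : ℕ => (g ^ n) c).Nonempty := range_nonempty _
  have h1 : t ≤ sInf (range fun n : ℕ => (g ^ n) c) :=
    le_csInf hne (by rintro _ ⟨n, rfl⟩; exact hn' n)
  have h2 : sInf (range fun n : ℕ => (g ^ n) c) ≤ c := csInf_le hb ⟨0, rfl⟩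
  have h3 := inv_up (hg _ (ht.trans_le h1) (h2.trans_lt hc))
  obtain ⟨_, ⟨n, rfl⟩, h4⟩ := exists_lt_of_csInf_lt hne h3
  have h5 := g.strictMono h4
  rw [inv_app] at h5
  have h6 : sInf (range fun n : ℕ => (g ^ n) c) ≤ (g ^ (n + 1)) c := csInf_le hb ⟨n + 1, rfl⟩
  rw [pow_app] at h6
  exact absurd h5 (not_lt.2 h6)

lemma iter_up {g : ℝ ≃o ℝ} {p q c t : ℝ} (hg : ∀ s, p < s → s < q → s < g s) (hc : p < c)
    (ht : t < q) : ∃ n : ℕ, t < (g ^ n) c := by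
  by_contra hn
  have hn' : ∀ n : ℕ, (g ^ n) c ≤ t := fun n => not_lt.1 fun h => hn ⟨n, h⟩
  have hb : BddAbove (range fun n : ℕ => (g ^ n) c) := ⟨t, by rintro _ ⟨n, rfl⟩; exact hn' n⟩
  have hne : (range fun n : ℕ => (g ^ n) c).Nonempty := range_nonempty _
  have h1 : sSup (range fun n : ℕ => (g ^ n) c) ≤ t :=
    csSup_le hne (by rintro _ ⟨n, rfl⟩; exact hn' n)
  have h2 : c ≤ sSup (range fun n : ℕ => (g ^ n) c) := le_csSup hb ⟨0, rfl⟩
  have h3 := hg _ (hc.trans_le h2) (h1.trans_lt ht)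
  have h3' := (g⁻¹).strictMono h3
  rw [app_inv] at h3'
  obtain ⟨_, ⟨n, rfl⟩, h4⟩ := exists_lt_of_lt_csSup hne h3'
  have h5 := g.strictMono h4
  rw [inv_app] at h5
  have h6 : (g ^ (n + 1)) c ≤ sSup (range fun n : ℕ => (g ^ n) c) := le_csSup hb ⟨n + 1, rfl⟩
  rw [pow_app] at h6
  exact absurd h5 (not_lt.2 h6)

lemma dom_dn {g : ℝ ≃o ℝ} {p q s y : ℝ} (hg : ∀ s, p < s → s < q → g s < s) (hs : p < s)
    (hsy : s ≤ y) (hy : y < q) : ∃ n : ℕ, (g ^ n) y ∈ Icc (g s) s := by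
  classical
  have hex : ∃ n : ℕ, (g ^ n) y < s := iter_dn hg hy hs
  have h1 := Nat.find_spec hex
  cases hn : Nat.find hex with
  | zero => rw [hn] at h1; exact absurd h1 (not_lt.2 hsy)
  | succ m =>
    have h2 : ¬(g ^ m) y < s := Nat.find_min hex (by omega)
    rw [hn] at h1
    refine ⟨m + 1, ?_, h1.le⟩
    rw [pow_app]
    exact g.monotone (not_lt.1 h2)

lemma dom_up {g : ℝ ≃o ℝ} {p q s y : ℝ} (hg : ∀ s, p < s → s < q → s < g s) (hs : s < q)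
    (hsy : y ≤ s) (hy : p < y) : ∃ n : ℕ, (g ^ n) y ∈ Icc s (g s) := by
  classical
  have hex : ∃ n : ℕ, s < (g ^ n) y := iter_up hg hy hs
  have h1 := Nat.find_spec hex
  cases hn : Nat.find hex with
  | zero => rw [hn] at h1; exact absurd h1 (not_lt.2 hsy)
  | succ m =>
    have h2 : ¬s < (g ^ m) y := Nat.find_min hex (by omega)
    rw [hn] at h1
    refine ⟨m + 1, h1.le, ?_⟩
    rw [pow_app]
    exact g.monotone (not_lt.1 h2)

lemma stay_dn {g : ℝ ≃o ℝ} {p q x : ℝ} (hp : g p = p) (hg : ∀ s, p < s → s < q → g s < s)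
    (h1 : p ≤ x) (h2 : x < q) (n : ℕ) : p ≤ (g ^ n) x ∧ (g ^ n) x ≤ x := by
  have hx : g x ≤ x := by
    rcases h1.eq_or_lt with h | h
    · rw [← h, hp]
    · exact (hg x h h2).le
  refine ⟨(pow_fix hp n).ge.trans ((g ^ n).monotone h1), ?_⟩
  induction n with
  | zero => exact le_rfl
  | succ n ih => rw [pow_app]; exact (g.monotone ih).trans hx

lemma stay_up {g : ℝ ≃o ℝ} {p q x : ℝ} (hq : g q = q) (hg : ∀ s, p < s → s < q → s < g s)
    (h1 : p < x) (h2 : x ≤ q) (n : ℕ) : x ≤ (g ^ n) x ∧ (g ^ n) x ≤ q := by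
  have hx : x ≤ g x := by
    rcases h2.eq_or_lt with h | h
    · rw [h, hq]
    · exact (hg x h1 h).le
  refine ⟨?_, ((g ^ n).monotone h2).trans (pow_fix hq n).le⟩
  induction n with
  | zero => exact le_rfl
  | succ n ih => rw [pow_app]; exact hx.trans (g.monotone ih)

lemma cont (g : ℝ ≃o ℝ) (p ε : ℝ) (hε : 0 < ε) :
    ∃ δ, 0 < δ ∧ ∀ t, |t - p| < δ → |g t - g p| < ε := by
  obtain ⟨δ, hδ, h⟩ := Metric.continuous_iff.1 g.continuous p ε hε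
  exact ⟨δ, hδ, fun t ht => by simpa [Real.dist_eq] using h t (by simpa [Real.dist_eq] using ht)⟩

variable {C : CW} {k : C.W}

lemma img {g : ℝ ≃o ℝ} (hg : CW.Stab k g) {w : C.W} (hw : w ∈ CW.K k) :
    ∃ w' ∈ CW.K k, C.x w' = g (C.x w) ∧ C.y w' = g (C.y w) := by
  obtain ⟨w', h1, h2⟩ := C.act g hg.1 w
  exact ⟨w', (hg.2 w w' h1 h2).2 hw, h1, h2⟩

lemma stab_pow (c1 : CW.Cell1 k) {g : ℝ ≃o ℝ} (hg : CW.Stab k g) (n : ℕ) :
    CW.Stab k (g ^ n) := by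
  induction n with
  | zero => rw [pow_zero]; exact c1.one
  | succ n ih => rw [pow_succ]; exact c1.mul _ _ ih hg

lemma x_lam {w : C.W} (hw : w ∈ CW.K k) : C.x w ∈ CW.Lam k :=
  subset_closure ⟨w, hw, Or.inl rfl⟩

lemma y_lam {w : C.W} (hw : w ∈ CW.K k) : C.y w ∈ CW.Lam k :=
  subset_closure ⟨w, hw, Or.inr rfl⟩

lemma xi_closed (p : ℝ) : IsClosed (CW.Xi k p) := by
  refine isClosed_of_closure_subset fun t ht ε hε => ?_
  obtain ⟨t', ht', hd⟩ := Metric.mem_closure_iff.1 ht (ε / 2) (by linarith)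
  obtain ⟨w, hw, h1, h2⟩ := ht' (ε / 2) (by linarith)
  rw [Real.dist_eq] at hd
  refine ⟨w, hw, by linarith, ?_⟩
  rw [abs_lt] at hd h2 ⊢
  constructor <;> linarith [hd.1, hd.2, h2.1, h2.2]

lemma xi_lam (p : ℝ) : CW.Xi k p ⊆ CW.Lam k := by
  intro t ht
  refine Metric.mem_closure_iff.2 fun ε hε => ?_
  obtain ⟨w, hw, _, h2⟩ := ht ε hε
  exact ⟨C.y w, ⟨w, hw, Or.inr rfl⟩, by rw [Real.dist_eq, abs_sub_comm]; exact h2⟩

lemma xi_map {g : ℝ ≃o ℝ} (hg : CW.Stab k g) {p t : ℝ} (ht : t ∈ CW.Xi k p) :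
    g t ∈ CW.Xi k (g p) := by
  intro ε hε
  obtain ⟨δ1, hδ1, h1⟩ := cont g p ε hε
  obtain ⟨δ2, hδ2, h2⟩ := cont g t ε hε
  obtain ⟨w, hw, a, b⟩ := ht (min δ1 δ2) (lt_min hδ1 hδ2)
  obtain ⟨w', hw', e1, e2⟩ := img hg hw
  refine ⟨w', hw', ?_, ?_⟩
  · rw [e1]; exact h1 _ (a.trans_le (min_le_left _ _))
  · rw [e2]; exact h2 _ (b.trans_le (min_le_right _ _))

lemma node_map (c1 : CW.Cell1 k) {g : ℝ ≃o ℝ} (hg : CW.Stab k g) {s : Bool} {p q : ℝ}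
    (h : CW.Node k s p q) : CW.Node k s (g p) (g q) := by
  refine ⟨?_, xi_map hg h.deep⟩
  have h1 := h.gap
  cases s with
  | true =>
    simp only [if_true] at h1 ⊢
    rw [← C.cg.per g hg.1]
    exact c1.gap g hg _ _ h1
  | false =>
    simp only [Bool.false_eq_true, if_false] at h1 ⊢
    exact c1.gap g hg _ _ h1

lemma edge_map (c1 : CW.Cell1 k) {g : ℝ ≃o ℝ} (hg : CW.Stab k g) {a b : Bool × ℝ × ℝ}
    (h : CW.Edge k a b) : CW.Edge k (a.1, g a.2.1, g a.2.2) (b.1, g b.2.1, g b.2.2) := by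
  refine ⟨node_map c1 hg h.src, node_map c1 hg h.tgt, g.strictMono h.lo, ?_,
    fun e => h.ne (g.injective e), xi_map hg h.xi, fun hab => ⟨fun ε hε => ?_, fun ε hε => ?_⟩⟩
  · have := g.strictMono h.hi
    rwa [C.cg.per g hg.1] at this
  · obtain ⟨ε', hε', h1⟩ := cont g a.2.1 ε hε
    obtain ⟨η', hη', h2⟩ := (h.mix hab).1 ε' hε'
    obtain ⟨η, hη, h3⟩ := cont g⁻¹ (g a.2.1) η' hη'
    refine ⟨η / 2, by linarith, fun δ hδ => ?_⟩
    obtain ⟨δ', hδ', h4⟩ := cont g b.2.2 δ hδ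
    obtain ⟨w, hw, a1, a2, a3⟩ := h2 δ' hδ'
    obtain ⟨w', hw', e1, e2⟩ := img hg hw
    refine ⟨w', hw', ?_, ?_, ?_⟩
    · by_contra hc
      have h5 := h3 (C.x w') (lt_of_le_of_lt (not_lt.1 hc) (by linarith))
      rw [e1, app_inv, app_inv] at h5
      linarith
    · rw [e1]; exact h1 _ a2
    · rw [e2]; exact h4 _ a3
  · obtain ⟨ε', hε', h1⟩ := cont g b.2.2 ε hε
    obtain ⟨t, ht, a1, a2⟩ := (h.mix hab).2 ε' hε'
    exact ⟨g t, xi_map hg ht, fun e => a1 (g.injective e), h1 t a2⟩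

/-- the element of a gap on the left -/
lemma hypL (c2 : CW.Cell2 k) {p q : ℝ} (h : CW.Gap k q (p + 2 * π)) :
    ∃ g, CW.Stab k g ∧ g p = p ∧ g q = q ∧ p < q ∧ ∀ s, p < s → s < q → g s < s := by
  obtain ⟨g, hg, H⟩ := c2.hyp _ _ h
  refine ⟨g, hg, ?_, H.fu, by linarith [H.lt2], fun s h1 h2 => ?_⟩
  · have := H.fv
    rw [C.cg.per g hg.1] at this
    linarith
  · have := H.dn (s + 2 * π) (by linarith) (by linarith)
    rw [C.cg.per g hg.1] at this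
    linarith

/-- the element of a gap on the right -/
lemma hypR (c1 : CW.Cell1 k) (c2 : CW.Cell2 k) {p q : ℝ} (h : CW.Gap k p q) :
    ∃ g, CW.Stab k g ∧ g p = p ∧ g q = q ∧ g (p + 2 * π) = p + 2 * π ∧ q < p + 2 * π ∧
      (∀ s, q < s → s < p + 2 * π → s < g s) ∧ ∀ s, q - 2 * π < s → s < p → s < g s := by
  obtain ⟨g, hg, H⟩ := c2.hyp _ _ h
  have hi := c1.inv g hg
  refine ⟨g⁻¹, hi, inv_fix H.fu, inv_fix H.fv, ?_, H.lt2, fun s h1 h2 => inv_up (H.dn s h1 h2),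
    fun s h1 h2 => ?_⟩
  · rw [C.cg.per _ hi.1, inv_fix H.fu]
  · have := inv_up (H.dn (s + 2 * π) (by linarith) (by linarith))
    rw [C.cg.per _ hi.1] at this
    linarith

lemma mkL (c1 : CW.Cell1 k) (c2 : CW.Cell2 k) {p q c : ℝ} (h : CW.Gap k q (p + 2 * π))
    (hc : c < q) (hw : ∀ δ, 0 < δ → ∃ w ∈ CW.K k, C.x w ≤ c ∧ p ≤ C.x w ∧ |C.y w - q| < δ) :
    CW.Node k true p q := by
  refine ⟨by simpa using h, fun ε hε => ?_⟩
  obtain ⟨g, hg, hp, hq, _, hd⟩ := hypL c2 h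
  obtain ⟨n, hn⟩ := iter_dn hd hc (show p < p + ε by linarith)
  obtain ⟨δ, hδ, h1⟩ := cont (g ^ n) q ε hε
  obtain ⟨w, hw', a1, a2, a3⟩ := hw δ hδ
  obtain ⟨w', hw'', e1, e2⟩ := img (stab_pow c1 hg n) hw'
  refine ⟨w', hw'', ?_, ?_⟩
  · have b1 := (g ^ n).monotone a1
    have b2 := (g ^ n).monotone a2
    rw [pow_fix hp] at b2
    rw [e1, abs_lt]
    constructor <;> linarith
  · have := h1 _ a3
    rwa [pow_fix hq, ← e2] at this

lemma mkR (c1 : CW.Cell1 k) (c2 : CW.Cell2 k) {p q c : ℝ} (h : CW.Gap k p q)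
    (hc : q - 2 * π < c)
    (hw : ∀ δ, 0 < δ → ∃ w ∈ CW.K k, c ≤ C.x w ∧ C.x w ≤ p ∧ |C.y w - q| < δ) :
    CW.Node k false p q := by
  refine ⟨by simpa using h, fun ε hε => ?_⟩
  obtain ⟨g, hg, hp, hq, _, _, _, hd⟩ := hypR c1 c2 h
  obtain ⟨n, hn⟩ := iter_up hd hc (show p - ε < p by linarith)
  obtain ⟨δ, hδ, h1⟩ := cont (g ^ n) q ε hε
  obtain ⟨w, hw', a1, a2, a3⟩ := hw δ hδ
  obtain ⟨w', hw'', e1, e2⟩ := img (stab_pow c1 hg n) hw'
  refine ⟨w', hw'', ?_, ?_⟩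
  · have b1 := (g ^ n).monotone a1
    have b2 := (g ^ n).monotone a2
    rw [pow_fix hp] at b2
    rw [e1, abs_lt]
    constructor <;> linarith
  · have := h1 _ a3
    rwa [pow_fix hq, ← e2] at this

lemma xi_cpt {p a b : ℝ} (h : ∀ ε, 0 < ε → ∃ w ∈ CW.K k, |C.x w - p| < ε ∧ C.y w ∈ Icc a b) :
    ∃ ξ ∈ Icc a b, ξ ∈ CW.Xi k p := by
  have h' : ∀ n : ℕ, ∃ w ∈ CW.K k, |C.x w - p| < 1 / ((n : ℝ) + 1) ∧ C.y w ∈ Icc a b :=
    fun n => h _ Nat.one_div_pos_of_nat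
  choose w hw h1 h2 using h'
  obtain ⟨ξ, hξ, φ, hφ, ht⟩ := isCompact_Icc.tendsto_subseq h2
  refine ⟨ξ, hξ, fun ε hε => ?_⟩
  have t1 : Tendsto (fun n : ℕ => 1 / ((φ n : ℝ) + 1)) atTop (𝓝 0) :=
    tendsto_one_div_add_atTop_nhds_zero_nat.comp hφ.tendsto_atTop
  obtain ⟨n, a1, a2⟩ := ((t1.eventually (gt_mem_nhds hε)).and
    (Metric.tendsto_nhds.1 ht ε hε)).exists
  exact ⟨w (φ n), hw _, (h1 _).trans a1, by simpa [Real.dist_eq] using a2⟩

/-- long walls at a node with the gap on the left -/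
lemma wallL (c1 : CW.Cell1 k) {p q : ℝ} (h : CW.Node k true p q) (ε : ℝ) (hε : 0 < ε) :
    ∃ w ∈ CW.K k, p ≤ C.x w ∧ C.x w < p + ε ∧ q - ε < C.y w ∧ C.y w < q := by
  have hg : CW.Gap k q (p + 2 * π) := by simpa using h.gap
  have hlt := hg.1
  obtain ⟨w, hw, a1, a2⟩ := h.deep (min ε (p + 2 * π - q)) (lt_min hε (by linarith))
  have m1 := min_le_left ε (p + 2 * π - q)
  have m2 := min_le_right ε (p + 2 * π - q)
  rw [abs_lt] at a1 a2
  refine ⟨w, hw, ?_, by linarith [a1.2], by linarith [a2.1], ?_⟩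
  · by_contra hc
    have h1 := (c1.per (C.x w) 1).2 (x_lam hw)
    refine hg.2.2.2 _ ?_ ?_ h1 <;> push_cast <;> linarith [a1.1, not_le.1 hc]
  · refine lt_of_le_of_ne ?_ (c1.gapE _ _ hg w).2.2.1
    by_contra hc
    exact hg.2.2.2 _ (not_le.1 hc) (by linarith [a2.2]) (y_lam hw)

/-- long walls at a node with the gap on the right -/
lemma wallR (c1 : CW.Cell1 k) {p q : ℝ} (h : CW.Node k false p q) (ε : ℝ) (hε : 0 < ε) :
    ∃ w ∈ CW.K k, p - ε < C.x w ∧ C.x w ≤ p ∧ q < C.y w ∧ C.y w < q + ε := by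
  have hg : CW.Gap k p q := by simpa using h.gap
  have hlt := hg.1
  obtain ⟨w, hw, a1, a2⟩ := h.deep (min ε (q - p)) (lt_min hε (by linarith))
  have m1 := min_le_left ε (q - p)
  have m2 := min_le_right ε (q - p)
  rw [abs_lt] at a1 a2
  refine ⟨w, hw, by linarith [a1.1], ?_, ?_, by linarith [a2.2]⟩
  · by_contra hc
    exact hg.2.2.2 _ (not_le.1 hc) (by linarith [a1.2]) (x_lam hw)
  · refine lt_of_le_of_ne ?_ (c1.gapE _ _ hg w).2.2.2.symm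
    by_contra hc
    exact hg.2.2.2 _ (by linarith [a2.1]) (not_le.1 hc) (y_lam hw)

lemma bothL (c1 : CW.Cell1 k) (c2 : CW.Cell2 k) {p q t : ℝ} (h : CW.Node k true p q)
    (h1 : p < t) (h2 : t < q) :
    (∃ a ∈ CW.Xi k p, p < a ∧ a < t) ∧ ∃ b ∈ CW.Xi k p, t < b ∧ b < q := by
  obtain ⟨g, hg, hp, hq, _, hd⟩ := hypL c2 (show CW.Gap k q (p + 2 * π) by simpa using h.gap)
  obtain ⟨ξ, hξ, hx⟩ : ∃ ξ ∈ Icc (g t) t, ξ ∈ CW.Xi k p := by
    refine xi_cpt fun ε hε => ?_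
    obtain ⟨w, hw, a1, a2, a3, a4⟩ := wallL c1 h (min ε (q - t)) (lt_min hε (by linarith))
    have m1 := min_le_left ε (q - t)
    have m2 := min_le_right ε (q - t)
    obtain ⟨n, hn⟩ := dom_dn hd h1 (show t ≤ C.y w by linarith) a4
    obtain ⟨w', hw', e1, e2⟩ := img (stab_pow c1 hg n) hw
    obtain ⟨b1, b2⟩ := stay_dn hp hd a1 ((C.lt w).trans a4) n
    refine ⟨w', hw', ?_, by rwa [e2]⟩
    rw [e1, abs_lt]
    constructor <;> linarith
  have hpξ : p < ξ := lt_of_lt_of_le (by simpa [hp] using g.strictMono h1) hξ.1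
  have hξq : ξ < q := hξ.2.trans_lt h2
  constructor
  · obtain ⟨n, hn⟩ := iter_dn hd hξq h1
    have := xi_map (stab_pow c1 hg n) hx
    rw [pow_fix hp] at this
    exact ⟨_, this, by simpa [pow_fix hp] using (g ^ n).strictMono hpξ, hn⟩
  · obtain ⟨n, hn⟩ := iter_up (g := g⁻¹) (fun s a b => inv_up (hd s a b)) hpξ h2
    have := xi_map (stab_pow c1 (c1.inv g hg) n) hx
    rw [pow_fix (inv_fix hp)] at this
    refine ⟨_, this, hn, ?_⟩
    have := (g⁻¹ ^ n).strictMono hξq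
    rwa [pow_fix (inv_fix hq)] at this

lemma bothR (c1 : CW.Cell1 k) (c2 : CW.Cell2 k) {p q t : ℝ} (h : CW.Node k false p q)
    (h1 : q < t) (h2 : t < p + 2 * π) :
    (∃ a ∈ CW.Xi k p, q < a ∧ a < t) ∧ ∃ b ∈ CW.Xi k p, t < b ∧ b < p + 2 * π := by
  obtain ⟨g, hg, hp, hq, hp', _, hd, hd'⟩ :=
    hypR c1 c2 (show CW.Gap k p q by simpa using h.gap)
  obtain ⟨ξ, hξ, hx⟩ : ∃ ξ ∈ Icc t (g t), ξ ∈ CW.Xi k p := by
    refine xi_cpt fun ε hε => ?_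
    obtain ⟨w, hw, a1, a2, a3, a4⟩ := wallR c1 h (min ε (t - q)) (lt_min hε (by linarith))
    have m1 := min_le_left ε (t - q)
    have m2 := min_le_right ε (t - q)
    obtain ⟨n, hn⟩ := dom_up hd h2 (show C.y w ≤ t by linarith) a3
    obtain ⟨w', hw', e1, e2⟩ := img (stab_pow c1 hg n) hw
    obtain ⟨b1, b2⟩ := stay_up hp hd' (show q - 2 * π < C.x w by linarith [C.lt2 w]) a2 n
    refine ⟨w', hw', ?_, by rwa [e2]⟩
    rw [e1, abs_lt]
    constructor <;> linarith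
  have hξp : ξ < p + 2 * π := lt_of_le_of_lt hξ.2 (by
    have := g.strictMono h2
    rwa [hp'] at this)
  have hqξ : q < ξ := h1.trans_le hξ.1
  constructor
  · have hdn : ∀ s, q < s → s < p + 2 * π → g⁻¹ s < s := fun s a b => by
      have := (g⁻¹).strictMono (hd s a b)
      rwa [app_inv] at this
    obtain ⟨n, hn⟩ := iter_dn hdn hξp h1
    have := xi_map (stab_pow c1 (c1.inv g hg) n) hx
    rw [pow_fix (inv_fix hp)] at this
    refine ⟨_, this, ?_, hn⟩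
    have := (g⁻¹ ^ n).strictMono hqξ
    rwa [pow_fix (inv_fix hq)] at this
  · obtain ⟨n, hn⟩ := iter_up hd hqξ h2
    have := xi_map (stab_pow c1 hg n) hx
    rw [pow_fix hp] at this
    refine ⟨_, this, hn, ?_⟩
    have := (g ^ n).strictMono hξp
    rwa [pow_fix hp'] at this

lemma move (c1 : CW.Cell1 k) {w : C.W} (hw : w ∈ CW.K k) {q a b : ℝ} (h1 : C.x w < q)
    (h2 : q < C.x w + 2 * π) (ha : a < C.y w) (hb : C.y w < b) :
    ∃ h, CW.Stab k h ∧ a < h q ∧ h q < b := by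
  obtain ⟨ε, hε, e1, e2, e3, e4⟩ : ∃ ε, 0 < ε ∧ ε ≤ q - C.x w ∧ ε ≤ C.x w + 2 * π - q ∧
      ε ≤ C.y w - a ∧ ε ≤ b - C.y w :=
    ⟨min (min (q - C.x w) (C.x w + 2 * π - q)) (min (C.y w - a) (b - C.y w)),
      lt_min (lt_min (by linarith) (by linarith)) (lt_min (by linarith) (by linarith)),
      (min_le_left _ _).trans (min_le_left _ _), (min_le_left _ _).trans (min_le_right _ _),
      (min_le_right _ _).trans (min_le_left _ _), (min_le_right _ _).trans (min_le_right _ _)⟩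
  obtain ⟨g, hg, _, _, hc⟩ := c1.recP w hw ε hε
  have := hc q (by linarith) (by linarith)
  rw [abs_lt] at this
  exact ⟨g, hg, by linarith [this.1], by linarith [this.2]⟩

lemma other (c1 : CW.Cell1 k) {s : Bool} {p q : ℝ} (h : CW.Node k s p q) :
    ∃ h, CW.Stab k h ∧ p < h q ∧ h q < p + 2 * π ∧ h q ≠ q := by
  cases s with
  | true =>
    have hg : CW.Gap k q (p + 2 * π) := by simpa using h.gap
    obtain ⟨w, hw, a1, _, _, a4⟩ := wallL c1 h 1 one_pos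
    have l := C.lt w
    have l' := hg.1
    obtain ⟨g, hs, b1, b2⟩ := move c1 hw (q := q) (a := p) (b := q) (by linarith) (by linarith)
      (by linarith) a4
    exact ⟨g, hs, b1, by linarith, b2.ne⟩
  | false =>
    have hg : CW.Gap k p q := by simpa using h.gap
    obtain ⟨w, hw, _, a2, a3, _⟩ := wallR c1 h 1 one_pos
    have l := C.lt2 w
    have l' := hg.1
    obtain ⟨g, hs, b1, b2⟩ := move c1 hw (q := q) (a := q) (b := p + 2 * π) (by linarith)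
      (by linarith) a3 (by linarith)
    exact ⟨g, hs, by linarith, b2, b1.ne'⟩

end FNod

open FNod in
theorem node (h1 : Cell1St) (h2 : Cell2St) : NodeSt := fun C k =>
  ⟨fun p => ⟨xi_closed p, xi_lam p⟩, fun _ hg _ _ ht => xi_map hg ht,
    fun _ hg _ _ _ h => node_map (h1 C k) hg h, fun _ hg _ _ h => edge_map (h1 C k) hg h,
    fun _ _ _ h hc hw => mkL (h1 C k) (h2 C k) h hc hw,
    fun _ _ _ h hc hw => mkR (h1 C k) (h2 C k) h hc hw,
    fun _ _ _ h a b => bothL (h1 C k) (h2 C k) h a b,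
    fun _ _ _ h a b => bothR (h1 C k) (h2 C k) h a b, fun _ _ _ h => other (h1 C k) h⟩

end Pool.Agent.Lib.MP_21f752_an
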