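import Pool.Agent.Lib.MP_21f752_an.FC

/-! A guarded loop gives ping pong data. -/

namespace Pool.Agent.Lib.MP_21f752_an

open Set Filter Topology
open scoped Real

noncomputable section

namespace FPng

def mir0 (g : ℝ ≃o ℝ) : ℝ ≃o ℝ where
  toFun t := -g (-t)
  invFun t := -g.symm (-t)
  left_inv t := by simp
  right_inv t := by simp
  map_rel_iff' := by simp

def mir : (ℝ ≃o ℝ) →* (ℝ ≃o ℝ) where
  toFun := mir0
  map_one' := by ext t; exact neg_neg t
  map_mul' g h := by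
    ext t
    change -g (h (-t)) = -g (-(-h (-t)))
    rw [neg_neg]

lemma mir_apply (g : ℝ ≃o ℝ) (t : ℝ) : mir g t = -g (-t) := rfl

lemma pow_fix {f : ℝ ≃o ℝ} {q : ℝ} (hq : f q = q) (n : ℕ) : (f ^ n) q = q := by
  induction n with
  | zero => rfl
  | succ n ih => rw [pow_succ, RelIso.mul_apply, hq, ih]

lemma lim_up {f : ℝ ≃o ℝ} {q t : ℝ} (hq : f q = q) (ht : t ≤ q)
    (h : ∀ s, t ≤ s → s < q → s < f s) : Tendsto (fun n : ℕ => (f ^ n) t) atTop (𝓝 q) := by
  have b : ∀ n : ℕ, (f ^ n) t ≤ q := fun n => ((f ^ n).monotone ht).trans_eq (pow_fix hq n)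
  have t1 : t ≤ f t := by
    rcases ht.eq_or_lt with e | e
    · rw [e, hq]
    · exact (h t le_rfl e).le
  have m : Monotone fun n : ℕ => (f ^ n) t := monotone_nat_of_le_succ fun n => by
    rw [pow_succ, RelIso.mul_apply]
    exact (f ^ n).monotone t1
  have l := tendsto_atTop_ciSup m ⟨q, forall_mem_range.2 b⟩
  set L := ⨆ n : ℕ, (f ^ n) t
  have l1 : Tendsto (fun n : ℕ => (f ^ (n + 1)) t) atTop (𝓝 (f L)) := by
    simp only [pow_succ', RelIso.mul_apply]
    exact (f.continuous.tendsto L).comp l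
  have e : f L = L := tendsto_nhds_unique l1 (l.comp (tendsto_add_atTop_nat 1))
  have a : t ≤ L := ge_of_tendsto' l fun n => m (Nat.zero_le n)
  rcases (le_of_tendsto' l b).eq_or_lt with c | c
  · rwa [← c]
  · exact absurd (h L a c) (by rw [e]; exact lt_irrefl _)

lemma lim_dn {f : ℝ ≃o ℝ} {q t : ℝ} (hq : f q = q) (ht : q ≤ t)
    (h : ∀ s, s ≤ t → q < s → f s < s) : Tendsto (fun n : ℕ => (f ^ n) t) atTop (𝓝 q) := by
  have := (lim_up (f := mir f) (q := -q) (t := -t) (by simp [mir_apply, hq]) (by linarith)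
    fun s a b => by
      have := h (-s) (by linarith) (by linarith)
      rw [mir_apply]
      linarith).neg
  simpa [← map_pow, mir_apply] using this

def Cov (R : ℝ → ℝ → Prop) (U u v V : ℝ) : Prop :=
  ∀ l, u ≤ l → l ≤ v → ∃ a b, R a b ∧ U < a ∧ a < l ∧ l < b ∧ b < V

lemma inv_pow_R {R : ℝ → ℝ → Prop} {f : ℝ ≃o ℝ} (hf : ∀ a b, R a b → R (f a) (f b)) (n : ℕ) :
    ∀ a b, R a b → R ((f ^ n) a) ((f ^ n) b) := by
  induction n with
  | zero => exact fun a b h => h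
  | succ n ih => exact fun a b h => by simpa only [pow_succ', RelIso.mul_apply] using hf _ _ (ih a b h)

lemma chain {R : ℝ → ℝ → Prop} {γ : ℝ ≃o ℝ} {p q a b : ℝ} (fp : γ p = p) (fq : γ q = q)
    (up : ∀ t, p < t → t < q → t < γ t) (h1 : ∀ a b, R a b → R (γ a) (γ b))
    (h2 : ∀ a b, R a b → R (γ⁻¹ a) (γ⁻¹ b)) (hR : R a b) (ha : p < a) (hb : b < q)
    (hab : γ a < b) : ∃ δ : ℝ ≃o ℝ, δ q = q ∧ ∀ l, p < l → l < q →
      ∃ a' b', R a' b' ∧ δ l ≤ a' ∧ a' < l ∧ l < b' ∧ b' ≤ γ l := by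
  have ip : γ⁻¹ p = p := by rw [← fp, RelIso.inv_apply_self, fp]
  have iq : γ⁻¹ q = q := by rw [← fq, RelIso.inv_apply_self, fq]
  have pb : p < b := by
    have := γ.strictMono ha
    linarith
  have dn : ∀ t, p < t → t < q → Tendsto (fun n : ℕ => (γ⁻¹ ^ n) t) atTop (𝓝 p) := fun t x y =>
    lim_dn ip x.le fun s u v => by
      have := up (γ⁻¹ s) (ip ▸ γ⁻¹.strictMono v) (iq ▸ γ⁻¹.strictMono (u.trans_lt y))
      rwa [RelIso.apply_inv_self] at this
  obtain ⟨m, hm⟩ := ((dn b pb hb).eventually (gt_mem_nhds ha)).exists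
  refine ⟨γ⁻¹ ^ m, pow_fix iq m, fun l x y => ?_⟩
  let T : ℝ → ℝ → Prop := fun a b => R a b ∧ γ a < b ∧ (γ⁻¹ ^ m) b < a ∧ p < b ∧ b < q
  have key : ∀ f : ℝ ≃o ℝ, Commute f γ → f p = p → f q = q → (∀ a b, R a b → R (f a) (f b)) →
      ∀ a b, T a b → T (f a) (f b) := fun f c u v w a b ⟨t1, t2, t3, t4, t5⟩ => by
    refine ⟨w _ _ t1, ?_, ?_, u ▸ f.strictMono t4, v ▸ f.strictMono t5⟩
    · rw [← RelIso.mul_apply, ← c.eq, RelIso.mul_apply]
      exact f.strictMono t2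
    · rw [← RelIso.mul_apply, ← (c.inv_right.pow_right m).eq, RelIso.mul_apply]
      exact f.strictMono t3
  obtain ⟨k, hk⟩ := ((dn b pb hb).eventually (gt_mem_nhds x)).exists
  have t0 := inv_pow_R (key γ⁻¹ (Commute.refl γ).inv_left ip iq h2) k a b ⟨hR, hab, hm, pb, hb⟩
  generalize (γ⁻¹ ^ k) a = a0 at t0
  generalize (γ⁻¹ ^ k) b = b0 at t0 hk
  have ex : ∃ n : ℕ, l < (γ ^ n) b0 := ((lim_up fq t0.2.2.2.2.le
    fun s u v => up s (t0.2.2.2.1.trans_le u) v).eventually (lt_mem_nhds y)).exists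
  classical
  obtain ⟨i, hi⟩ := Nat.exists_eq_succ_of_ne_zero (n := Nat.find ex) fun e => by
    have := Nat.find_spec ex
    rw [e] at this
    exact absurd this (not_lt.2 hk.le)
  have s1 := Nat.find_spec ex
  have s2 := not_lt.1 (Nat.find_min ex (m := i) (by omega))
  rw [hi] at s1
  have t1 := inv_pow_R (key γ (Commute.refl γ) fp fq h1) (i + 1) a0 b0 t0
  refine ⟨_, _, t1.1, (((γ⁻¹ ^ m).strictMono s1).trans t1.2.2.1).le, ?_, s1, ?_⟩
  · rw [pow_succ, RelIso.mul_apply]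
    exact ((γ ^ i).strictMono t0.2.1).trans_le s2
  · rw [pow_succ', RelIso.mul_apply]
    exact γ.monotone s2

lemma ev_lt {f g : ℝ → ℝ} (hf : Continuous f) (hg : Continuous g) (h : f 0 < g 0) :
    ∀ᶠ ε in 𝓝[>] (0 : ℝ), f ε < g ε :=
  mem_nhdsWithin_of_mem_nhds (hf.continuousAt.eventually_lt hg.continuousAt h)

lemma side {R : ℝ → ℝ → Prop} {γ h : ℝ ≃o ℝ} {p q P r ε1 : ℝ} {gr : Prop} (pq : p < q)
    (fp : γ p = p) (fq : γ q = q) (up : ∀ t, p < t → t < q → t < γ t)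
    (dn : ∀ t, q < t → t < P → γ t < t) (h1 : ∀ a b, R a b → R (γ a) (γ b))
    (h2 : ∀ a b, R a b → R (γ⁻¹ a) (γ⁻¹ b)) (h3 : ∀ a b, R a b → R (h a) (h b))
    (hi : h q < P) (pr : gr → q < h q ∧ p < h p)
    (ch : ¬gr → ∃ a b, R a b ∧ p < a ∧ b < q ∧ γ a < b)
    (gR : gr → ∀ δ, 0 < δ → Cov R (p - δ) p (h q) (h q + δ))
    (yR : ¬gr → ∀ ε, 0 < ε → ∃ u0 u1 v1 v0, p < u0 ∧ u1 < p + ε ∧ h q - ε < v1 ∧ v0 < h q ∧
      Cov R u0 u1 v1 v0) (r1 : p < r) (r2 : r < h q) (hε : 0 < ε1) :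
    ∃ η, 0 < η ∧ ∃ F, F ≤ h q ∧ (¬gr → F < h q) ∧ ∀ X Y, |X - p| < η → |Y - r| < η →
      (gr → X < p) → ∀ ε', 0 < ε' → ∀ᶠ N : ℕ in atTop, ∃ p2 f1, X ≤ p2 ∧ p2 < Y ∧ Y < f1 ∧
        h q - ε1 < f1 ∧ f1 < F + ε' ∧ ∀ n, n = N ∨ n = N + 1 → p2 ≤ (h * γ ^ n) p2 ∧
          f1 ≤ (h * γ ^ n) f1 ∧ Y ≤ (h * γ ^ n) Y ∧ Cov R p2 Y ((h * γ ^ n) Y) ((h * γ ^ n) f1) := by
  have lim : ∀ t, p < t → t < P → Tendsto (fun n : ℕ => (h * γ ^ n) t) atTop (𝓝 (h q)) :=
    fun t x y => (h.continuous.tendsto q).comp (by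
      rcases le_total t q with e | e
      · exact lim_up fq e fun s u v => up s (x.trans_le u) v
      · exact lim_dn fq e fun s u v => dn s v (u.trans_lt y))
  have hR : ∀ n : ℕ, ∀ a b, R a b → R ((h * γ ^ n) a) ((h * γ ^ n) b) := fun n a b w =>
    h3 _ _ (inv_pow_R h1 n a b w)
  have gp : ∀ n : ℕ, (h * γ ^ n) p = h p := fun n => by rw [RelIso.mul_apply, pow_fix fp]
  have gq : ∀ n : ℕ, (h * γ ^ n) q = h q := fun n => by rw [RelIso.mul_apply, pow_fix fq]
  by_cases hg : gr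
  · obtain ⟨z1, z2⟩ := pr hg
    refine ⟨min (r - p) (h q - r), lt_min (sub_pos.2 r1) (sub_pos.2 r2), h q, le_rfl,
      fun x => absurd hg x, fun X Y _ hY hX ε' hε' => ?_⟩
    rw [lt_min_iff, abs_lt, abs_lt] at hY
    have y1 : p < Y := by linarith [hY.1.1]
    have y2 : Y < h q := by linarith [hY.2.2]
    filter_upwards [eventually_forall_ge_atTop.2
      (((lim Y y1 (y2.trans hi)).eventually (lt_mem_nhds y2)).and
        ((lim (h q) (r1.trans r2) hi).eventually (gt_mem_nhds (lt_add_of_pos_right _ hε'))))]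
      with N hN
    have z3 : ∀ n : ℕ, h q < (h * γ ^ n) (h q) := fun n =>
      (gq n).symm.trans_lt ((h * γ ^ n).strictMono z1)
    have c : ∀ n : ℕ, ∀ᶠ δ in 𝓝[>] (0 : ℝ), p < (h * γ ^ n) (p - δ) ∧
        h q + δ < (h * γ ^ n) (h q) := fun n =>
      (ev_lt (f := fun _ => p) (g := fun δ => (h * γ ^ n) (p - δ)) continuous_const
        ((h * γ ^ n).continuous.comp (by fun_prop)) (by simpa only [sub_zero, gp] using z2)).and
        (ev_lt (by fun_prop) continuous_const (by simpa only [add_zero] using z3 n))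
    obtain ⟨δ, ⟨⟨c1, c2⟩, c3⟩, δ0⟩ := ((((c N).and (c (N + 1))).and (ev_lt (f := fun _ => X)
      (g := fun δ => p - δ) continuous_const (by fun_prop) (by simpa using hX hg))).and
        self_mem_nhdsWithin).exists
    have δ0 : 0 < δ := δ0
    refine ⟨p - δ, h q + δ, c3.le, by linarith, by linarith, by linarith,
      c1.2.trans (hN N le_rfl).2, fun n hn => ?_⟩
    have c4 : p < (h * γ ^ n) (p - δ) ∧ h q + δ < (h * γ ^ n) (h q) := by
      rcases hn with rfl | rfl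
      exacts [c1, c2]
    have c5 : h q + δ < (h * γ ^ n) (h q + δ) :=
      c4.2.trans ((h * γ ^ n).strictMono (by linarith))
    refine ⟨by linarith [c4.1], c5.le, (hN n (by omega)).1.le, fun l u v => ?_⟩
    rcases le_total l (h q) with e | e
    · obtain ⟨a, b, w1, w2, w3, w4, w5⟩ := gR hg δ δ0 l (by linarith) e
      exact ⟨a, b, w1, w2, w3, w4, w5.trans c5⟩
    · obtain ⟨l, rfl⟩ := (h * γ ^ n).surjective l
      rw [← gq n, OrderIso.le_iff_le] at e
      rw [OrderIso.le_iff_le] at v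
      obtain ⟨a, b, w1, w2, w3, w4, w5⟩ := gR hg δ δ0 l (by linarith) (by linarith)
      have := (h * γ ^ n).strictMono w2
      exact ⟨_, _, hR n a b w1, by linarith [c4.1], (h * γ ^ n).strictMono w3,
        (h * γ ^ n).strictMono w4, (h * γ ^ n).strictMono w5⟩
  · obtain ⟨a, b, w1, w2, w3, w4⟩ := ch hg
    obtain ⟨δ, dq, hδ⟩ := chain fp fq up h1 h2 w1 w2 w3 w4
    obtain ⟨ε, ⟨⟨⟨⟨e1, e2⟩, e3, e4⟩, e5, e6⟩, e7⟩, ε0⟩ := ((((((ev_lt (f := fun ε => ε)
      (g := fun _ => ε1) continuous_id continuous_const hε).and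
      (ev_lt (f := fun ε => p + ε) (g := fun _ => (p + r) / 2) (by fun_prop) continuous_const
        (by linarith))).and
      ((ev_lt (f := fun _ => (r + h q) / 2) (g := fun ε => h q - ε) continuous_const (by fun_prop)
        (by linarith)).and
      (ev_lt (f := fun ε => γ (p + ε)) (g := fun _ => r)
        (γ.continuous.comp (by fun_prop)) continuous_const (by simpa [fp] using r1)))).and
      ((ev_lt (f := fun _ => h p) (g := fun ε => h q - ε) continuous_const (by fun_prop)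
        (by simpa using pq)).and
      (ev_lt (f := fun ε => p + ε) (g := fun ε => (h * δ * h⁻¹) (h q - ε)) (by fun_prop)
        ((h * δ * h⁻¹).continuous.comp (by fun_prop))
        (by simpa [RelIso.mul_apply, dq] using r1.trans r2)))).and
      (ev_lt (f := fun ε => p + ε) (g := fun _ => q) (by fun_prop) continuous_const
        (by simpa using pq))).and self_mem_nhdsWithin).exists
    have ε0 : 0 < ε := ε0
    obtain ⟨u0, u1, v1, v0, a1, a2, a3, a4, cv⟩ := yR hg ε ε0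
    have uv : u1 ≤ v1 := by linarith
    have b1 : u0 < u1 := by
      obtain ⟨a, b, -, x, y, -⟩ := cv u1 le_rfl uv
      linarith
    have b2 : v1 < v0 := by
      obtain ⟨a, b, -, -, -, x, y⟩ := cv v1 uv le_rfl
      linarith
    refine ⟨min (u0 - p) (min ((r - p) / 2) ((h q - r) / 2)),
      lt_min (by linarith) (lt_min (by linarith) (by linarith)), v0, a4.le, fun _ => a4,
      fun X Y hX hY _ ε' hε' => ?_⟩
    simp only [lt_min_iff, abs_lt] at hX hY
    have y1 : (p + r) / 2 < Y := by linarith [hY.2.1.1]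
    have y2 : Y < (r + h q) / 2 := by linarith [hY.2.2.2]
    filter_upwards [eventually_forall_ge_atTop.2
      ((lim u0 a1 (by linarith)).eventually (lt_mem_nhds a4))] with N hN
    refine ⟨u0, v0, by linarith [hX.1.2], by linarith, by linarith, by linarith, by linarith,
      fun n hn => ?_⟩
    have k := hN n (by omega)
    have k1 := (h * γ ^ n).strictMono (show u0 < v0 by linarith)
    have k2 := (h * γ ^ n).strictMono (show u0 < Y by linarith)
    refine ⟨by linarith, by linarith, by linarith, fun l u v => ?_⟩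
    rcases le_or_gt l v1 with e | e
    · obtain ⟨a, b, w1, w2, w3, w4, w5⟩ := cv l (by linarith) e
      exact ⟨a, b, w1, w2, w3, w4, by linarith⟩
    rcases le_or_gt ((h * γ ^ n) u1) l with e' | e'
    · obtain ⟨l, rfl⟩ := (h * γ ^ n).surjective l
      rw [OrderIso.le_iff_le] at v e'
      obtain ⟨a, b, w1, w2, w3, w4, w5⟩ := cv l e' (by linarith)
      have := (h * γ ^ n).strictMono w2
      exact ⟨_, _, hR n a b w1, by linarith, (h * γ ^ n).strictMono w3,
        (h * γ ^ n).strictMono w4, (h * γ ^ n).strictMono w5⟩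
    · obtain ⟨l, rfl⟩ := h.surjective l
      rw [RelIso.mul_apply, OrderIso.lt_iff_lt] at e'
      obtain ⟨a, b, w1, w2, w3, w4, w5⟩ := hδ l (h.lt_iff_lt.1 (by linarith))
        (e'.trans (((γ ^ n).strictMono (show u1 < q by linarith)).trans_eq (pow_fix fq n)))
      refine ⟨_, _, h3 a b w1, ?_, h.strictMono w3, h.strictMono w4, ?_⟩
      · have x := (h * δ * h⁻¹).strictMono (show h q - ε < h l by linarith)
        have y := h.monotone w2
        simp only [RelIso.mul_apply, RelIso.inv_apply_self] at x e6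
        linarith
      · rw [RelIso.mul_apply, OrderIso.lt_iff_lt]
        refine (w5.trans_lt (γ.strictMono e')).trans ?_
        rw [← RelIso.mul_apply, ← pow_succ', pow_succ, RelIso.mul_apply, OrderIso.lt_iff_lt]
        have := γ.strictMono a2
        linarith

end FPng

open FPng in
theorem ping : PingSt := by
  rintro C ⟨L⟩
  have per := C.cg.per
  have fP : L.γ (L.p + 2 * π) = L.p + 2 * π := by rw [per _ L.γm, L.hyp.fu]
  obtain ⟨ε1, ε0, sp⟩ : ∃ ε1, 0 < ε1 ∧ (L.h L.q + ε1 < L.γ (L.h L.q - ε1) ∨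
      L.γ (L.h L.q + ε1) < L.h L.q - ε1) := by
    rcases L.ne.lt_or_gt with e | e
    · obtain ⟨ε, a, b⟩ := ((ev_lt (f := fun ε => L.h L.q + ε) (g := fun ε => L.γ (L.h L.q - ε))
        (by fun_prop) (L.γ.continuous.comp (by fun_prop))
        (by simpa using L.hyp.up _ L.lo e)).and self_mem_nhdsWithin).exists
      exact ⟨ε, b, .inl a⟩
    · obtain ⟨ε, a, b⟩ := ((ev_lt (f := fun ε => L.γ (L.h L.q + ε)) (g := fun ε => L.h L.q - ε)
        (L.γ.continuous.comp (by fun_prop)) (by fun_prop)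
        (by simpa using L.hyp.dn _ e L.hi)).and self_mem_nhdsWithin).exists
      exact ⟨ε, b, .inr a⟩
  obtain ⟨r, l, r1, r2, l1, l2, ee⟩ := L.ee
  have aR : ∀ g ∈ C.G, ∀ a b, (∃ w, a = C.x w ∧ b = C.y w) → ∃ w, g a = C.x w ∧ g b = C.y w := by
    rintro g hg a b ⟨w, rfl, rfl⟩
    obtain ⟨w', x, y⟩ := C.act g hg w
    exact ⟨w', x.symm, y.symm⟩
  have aL : ∀ g ∈ C.G, ∀ a b, (∃ w, a = -(C.x w + 2 * π) ∧ b = -C.y w) →
      ∃ w, mir g a = -(C.x w + 2 * π) ∧ mir g b = -C.y w := by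
    rintro g hg a b ⟨w, rfl, rfl⟩
    obtain ⟨w', x, y⟩ := C.act g hg w
    exact ⟨w', by rw [mir_apply, neg_neg, per g hg, x], by rw [mir_apply, neg_neg, y]⟩
  have cR : ∀ U u v V, C.CovR U u v V ↔ Cov (fun a b => ∃ w, a = C.x w ∧ b = C.y w) U u v V :=
    fun U u v V => forall₃_congr fun l _ _ => ⟨fun ⟨w, x⟩ => ⟨_, _, ⟨w, rfl, rfl⟩, x⟩,
      fun ⟨_, _, ⟨w, x, y⟩, z⟩ => ⟨w, x ▸ y ▸ z⟩⟩
  have cL : ∀ V v u U, C.CovL V v u U ↔
      Cov (fun a b => ∃ w, a = -(C.x w + 2 * π) ∧ b = -C.y w) (-U) (-u) (-v) (-V) :=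
    fun V v u U => ⟨fun k l x y => by
      obtain ⟨w, a, b, c, d⟩ := k (-l) (by linarith) (by linarith)
      exact ⟨_, _, ⟨w, rfl, rfl⟩, by linarith, by linarith, by linarith, by linarith⟩,
      fun k l x y => by
      obtain ⟨_, _, ⟨w, rfl, rfl⟩, a, b, c, d⟩ := k (-l) (by linarith) (by linarith)
      exact ⟨w, by linarith, by linarith, by linarith, by linarith⟩⟩
  obtain ⟨η1, η10, F1, f1, f1', k1⟩ := side (P := L.p + 2 * π) L.hyp.lt L.hyp.fu L.hyp.fv L.hyp.up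
    L.hyp.dn (aR _ L.γm) (aR _ (C.G.inv_mem L.γm)) (aR _ L.hm) L.hi L.pr
    (fun x => let ⟨w, a⟩ := L.chR x; ⟨_, _, ⟨w, rfl, rfl⟩, a⟩)
    (fun x δ y => (cR ..).1 (L.gR x δ y))
    (fun x ε y => let ⟨u0, u1, v1, v0, a, b, c, d, e⟩ := L.yR x ε y
      ⟨u0, u1, v1, v0, a, b, c, d, (cR ..).1 e⟩) r1 r2 ε0
  have mq : mir L.h (-L.q) = -L.h L.q := by rw [mir_apply, neg_neg]
  obtain ⟨η2, η20, F2, f2, f2', k2⟩ := side (γ := mir L.γ) (h := mir L.h) (p := -(L.p + 2 * π))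
    (q := -L.q) (P := -L.p) (r := -l) (gr := L.gl) (neg_lt_neg L.hyp.lt2)
    (by rw [mir_apply, neg_neg, fP]) (by rw [mir_apply, neg_neg, L.hyp.fv])
    (fun t x y => by
      have := L.hyp.dn (-t) (by linarith) (by linarith)
      rw [mir_apply]
      linarith)
    (fun t x y => by
      have := L.hyp.up (-t) (by linarith) (by linarith)
      rw [mir_apply]
      linarith)
    (aL _ L.γm) (map_inv mir L.γ ▸ aL _ (C.G.inv_mem L.γm)) (aL _ L.hm)
    (by rw [mq]; linarith [L.lo])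
    (fun x => by
      rw [mq, mir_apply, neg_neg, per _ L.hm]
      constructor <;> linarith [(L.pl x).1, (L.pl x).2])
    (fun x => by
      obtain ⟨w, a, b, c⟩ := L.chL x
      refine ⟨_, _, ⟨w, rfl, rfl⟩, by linarith, by linarith, ?_⟩
      rw [mir_apply, neg_neg, per _ L.γm]
      linarith)
    (fun x δ y => by
      have := (cL ..).1 (L.gL x δ y)
      rwa [neg_add', neg_sub', sub_neg_eq_add, ← mq] at this)
    (fun x ε y => by
      obtain ⟨v0, v1, u1, u0, a, b, c, d, e⟩ := L.yL x ε y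
      rw [mq]
      exact ⟨-u0, -u1, -v1, -v0, by linarith, by linarith, by linarith, by linarith, (cL ..).1 e⟩)
    (by linarith) (by rw [mq]; linarith) ε0
  rw [mq] at f2 f2' k2
  have hF : F1 < -F2 := by
    by_cases x : L.gr
    · have := f2' fun y => lt_asymm (L.pr x).1 (L.pl y).1
      linarith
    · linarith [f1' x]
  obtain ⟨e1, e2, o2, x1, x2, y1, y2, s1, s2⟩ := ee (min η1 η2) (lt_min η10 η20)
  rw [lt_min_iff] at x1 x2 y1 y2
  obtain ⟨N, ⟨p2, g1, a1, a2, a3, a4, a5, a6⟩, p1, g2, b1, b2, b3, b4, b5, b6⟩ :=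
    ((k1 _ _ x2.1 y1.1 s2 ((-F2 - F1) / 2) (by linarith)).and
      (k2 (-(C.x e1 + 2 * π)) (-C.y e2) (by rw [← abs_neg]; ring_nf; exact x1.2.trans_eq' (by ring_nf))
        (by rw [← abs_neg]; ring_nf; exact y2.2.trans_eq' (by ring_nf))
        (fun x => by linarith [s1 x]) ((-F2 - F1) / 2) (by linarith))).exists
  let n : Bool → ℕ := fun a => if a then N + 1 else N
  have hn : ∀ a, n a = N ∨ n a = N + 1 := fun a => by cases a <;> simp [n]
  have gm : ∀ a, L.h * L.γ ^ n a ∈ C.G := fun a => C.G.mul_mem L.hm (C.G.pow_mem L.γm _)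
  simp only [← map_pow, ← map_mul, mir_apply, neg_neg] at b6
  have pe : ∀ a, (L.h * L.γ ^ n a) (-p1 - 2 * π) = (L.h * L.γ ^ n a) (-p1) - 2 * π := fun a => by
    have := per _ (gm a) (-p1 - 2 * π)
    rw [sub_add_cancel] at this
    linarith
  refine ⟨⟨fun a => L.h * L.γ ^ n a, gm, -p1 - 2 * π, p2, g1, -g2, e1, e2, by linarith, o2, a1, a2,
    a3, by linarith, by linarith, by linarith, fun a => ⟨?_, (a6 _ (hn a)).1⟩,
    fun a => ⟨(a6 _ (hn a)).2.1, by linarith [(b6 _ (hn a)).2.1]⟩, ?_,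
    fun a => ⟨(a6 _ (hn a)).2.2.1, by linarith [(b6 _ (hn a)).2.2.1]⟩,
    fun a => (cR ..).2 (a6 _ (hn a)).2.2.2, fun a => (cL ..).2 ?_⟩⟩
  · rw [pe]
    linarith [(b6 _ (hn a)).1]
  · have e : ∀ t, (L.h * L.γ ^ n true) t = (L.h * L.γ ^ n false) (L.γ t) := fun t => by
      simp [n, pow_succ, RelIso.mul_apply]
    simp only [e, OrderIso.lt_iff_lt]
    refine sp.imp (fun x => ?_) fun x => ?_
    · have := L.γ.strictMono a4
      linarith
    · have := L.γ.strictMono (show -g2 < L.h L.q + ε1 by linarith)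
      linarith
  · rw [sub_add_cancel, neg_neg]
    exact (b6 _ (hn a)).2.2.2

end

end Pool.Agent.Lib.MP_21f752_an
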