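import Pool.Agent.Lib.MP_21f752_an.FG

/-! Almost every orbit with separated limit sets is a recurrent wall. -/

namespace Pool.Agent.Lib.MP_21f752_an

open UpperHalfPlane Set Filter Topology Metric MeasureTheory
open scoped MatrixGroups Real

noncomputable section

namespace FRec

lemma bl_per (l ε : ℝ) (m : ℤ) : Bl (l + m * (2 * π)) ε = Bl l ε := by
  simp only [Bl, ce_add, ce_int, mul_one]

lemma bl_mono (l : ℝ) {ε ε' : ℝ} (h : ε ≤ ε') : Bl l ε ⊆ Bl l ε' := fun _ hz => lt_of_lt_of_le hz h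

lemma lift_inv {γ : SL(2, ℝ)} {g : ℝ ≃o ℝ} (h : Lift γ g) : Lift γ⁻¹ g⁻¹ := by
  refine ⟨fun t => g.injective ?_, fun l ε e => ?_, fun l ε e => ?_⟩
  · rw [h.per]
    simp
  · simpa using h.bw (g⁻¹ l) ε e
  · simpa using h.fw (g⁻¹ l) ε e

lemma norm_pos {z : ℍ} {y e u v : ℝ} (hz : z ∈ Bl y e) (h : ∀ l ∈ Icc u v, z ∉ Bl l e) :
    ∃ m : ℤ, v - 2 * π < y + m * (2 * π) ∧ y + m * (2 * π) < u := by
  obtain ⟨m, hm, -⟩ := existsUnique_add_zsmul_mem_Ioc (show 0 < 2 * π by positivity) y (v - 2 * π)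
  simp only [zsmul_eq_mul, sub_add_cancel] at hm
  refine ⟨m, hm.1, ?_⟩
  by_contra hc
  exact h _ ⟨not_lt.1 hc, hm.2⟩ (by rwa [bl_per])

lemma ev_bl {c : ℝ → ℍ} {F : Filter ℝ} {y e : ℝ}
    (h : Tendsto (fun t => cay (c t)) F (𝓝 (ce y))) (he : 0 < e) : ∀ᶠ t in F, c t ∈ Bl y e := by
  simpa only [Bl, dist_eq_norm, mem_ofPred_eq] using Metric.tendsto_nhds.1 h e he

lemma norm_end {c : ℝ → ℍ} {F : Filter ℝ} [F.NeBot] {y e u v : ℝ}
    (h : Tendsto (fun t => cay (c t)) F (𝓝 (ce y))) (he : 0 < e)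
    (ha : ∀ᶠ t in F, ∀ l ∈ Icc u v, c t ∉ Bl l e) :
    ∃ m : ℤ, v - 2 * π < y + m * (2 * π) ∧ y + m * (2 * π) < u := by
  obtain ⟨t, h1, h2⟩ := ((ev_bl h he).and ha).exists
  exact norm_pos h1 h2

lemma not_acc {c : ℝ → ℍ} {F : Filter ℝ} {y l : ℝ}
    (h : Tendsto (fun t => cay (c t)) F (𝓝 (ce y))) (h1 : y < l) (h2 : l < y + 2 * π) :
    ¬∀ ε, 0 < ε → ∃ᶠ t in F, c t ∈ Bl l ε := by
  intro H
  have hne : ce y ≠ ce l := by
    intro e
    obtain ⟨k, hk⟩ := ce_eq_iff.1 e.symm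
    have p := Real.pi_pos
    have a1 : (0 : ℝ) < k := by
      by_contra hc
      nlinarith [not_lt.1 hc]
    have a2 : (k : ℝ) < 1 := by
      by_contra hc
      nlinarith [not_lt.1 hc]
    have b1 : 0 < k := by exact_mod_cast a1
    have b2 : k < 1 := by exact_mod_cast a2
    omega
  have hd : 0 < ‖ce y - ce l‖ / 2 := half_pos (norm_pos_iff.2 (sub_ne_zero.2 hne))
  obtain ⟨t, a, b⟩ := ((H _ hd).and_eventually (ev_bl h hd)).exists
  have a' : ‖cay (c t) - ce l‖ < _ := a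
  have b' : ‖cay (c t) - ce y‖ < _ := b
  have := norm_sub_le_norm_sub_add_norm_sub (ce y) (cay (c t)) (ce l)
  rw [norm_sub_rev (ce y) (cay (c t))] at this
  linarith

lemma unif (hD : Disc) {c : ℝ → ℍ} {F : Filter ℝ} {u v : ℝ}
    (h : ∀ l ∈ Icc u v, ¬∀ ε, 0 < ε → ∃ᶠ t in F, c t ∈ Bl l ε) :
    ∃ e, 0 < e ∧ ∀ᶠ t in F, ∀ l ∈ Icc u v, c t ∉ Bl l e := by
  refine isCompact_Icc.induction_on
    (p := fun s => ∃ e, 0 < e ∧ ∀ᶠ t in F, ∀ l ∈ s, c t ∉ Bl l e) ?_ ?_ ?_ ?_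
  · exact ⟨1, one_pos, .of_forall fun _ _ hl => hl.elim⟩
  · rintro s t hst ⟨e, he, H⟩
    exact ⟨e, he, H.mono fun _ a l hl => a l (hst hl)⟩
  · rintro s t ⟨e, he, H⟩ ⟨e', he', H'⟩
    refine ⟨min e e', lt_min he he', (H.and H').mono fun _ a l hl hz => ?_⟩
    rcases hl with hl | hl
    · exact a.1 l hl (bl_mono l (min_le_left _ _) hz)
    · exact a.2 l hl (bl_mono l (min_le_right _ _) hz)
  · intro l hl
    have h1 := h l hl
    simp only [not_forall, not_frequently] at h1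
    obtain ⟨ε, hε, H⟩ := h1
    refine ⟨ball l (ε / 2), mem_nhdsWithin_of_mem_nhds (ball_mem_nhds _ (half_pos hε)), ε / 2,
      half_pos hε, H.mono fun t a l' hl' hz => a ?_⟩
    refine bl_mono l ?_ (hD.sub l' l _ hz)
    have : |l' - l| < ε / 2 := by simpa [Real.dist_eq] using hl'
    linarith

lemma key0 (hD : Disc) (hM : Mob) (p : ℍ) (R e e1 u v : ℝ) (he : 0 < e) (he1 : 0 < e1) :
    ∃ ρ, ∀ (γ : SL(2, ℝ)) (z : ℍ), ρ ≤ dist z p → dist (γ • z) p ≤ R →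
      (∀ l ∈ Icc u v, γ • p ∉ Bl l e) → ∃ r, v - 2 * π < r ∧ r < u ∧
        ∀ g, Lift γ⁻¹ g → ∃ α, Ctr g r α e1 := by
  obtain ⟨δ, hδ, H⟩ := hM.ctr p e1 he1
  obtain ⟨R0, H0⟩ := hD.near p (min δ e) (lt_min hδ he)
  refine ⟨R0 + R, fun γ z h1 h2 h3 => ?_⟩
  have d1 : R0 ≤ dist (γ • p) p := by
    have := dist_triangle (γ • z) p (γ • p)
    rw [dist_smul, dist_comm p] at this
    linarith
  have d2 : R0 ≤ dist (γ⁻¹ • p) p := by
    rw [← dist_smul γ, smul_inv_smul, dist_comm]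
    exact d1
  obtain ⟨r, hr⟩ := H0 _ d1
  obtain ⟨a, ha⟩ := H0 _ d2
  obtain ⟨m, m1, m2⟩ := norm_pos (bl_mono r (min_le_right _ _) hr) h3
  refine ⟨_, m1, m2, fun g hg => ?_⟩
  obtain ⟨k, hk⟩ := H γ⁻¹ g (r + m * (2 * π)) a hg (bl_mono a (min_le_left _ _) ha)
    (by rw [inv_inv, bl_per]; exact bl_mono r (min_le_left _ _) hr)
  exact ⟨_, hk⟩

variable {G : Geo}

lemma o_gg {γ : SL(2, ℝ)} (hγ : γ ∈ G.Γ) (k : ℤ) (s t : ℝ) (ξ : N) :
    G.o (gg γ (k * (2 * π)) (G.φ s ξ)) t = γ • G.o ξ (t + s) := by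
  simp only [Geo.o]
  rw [G.φ_gg hγ, G.φ_add]
  rfl

lemma ret (hD : Disc) (hM : Mob) {F : Filter ℝ} {ξ : N} {B : Set N} {R e u v : ℝ} (he : 0 < e)
    (h1 : ∃ᶠ s in F, G.φ s ξ ∈ G.Sat B)
    (h2 : Tendsto (fun t => dist (G.o ξ t) ξ.1) F atTop)
    (h3 : ∀ᶠ s in F, ∀ η ∈ B, ∀ l ∈ Icc u v, G.o η (-s) ∉ Bl l e)
    (h4 : ∀ η ∈ B, dist η.1 UpperHalfPlane.I ≤ R) (e1 : ℝ) (he1 : 0 < e1) :
    ∃ s, ∃ γ ∈ G.Γ, ∃ k : ℤ, gg γ (k * (2 * π)) (G.φ s ξ) ∈ B ∧ ∃ r, v - 2 * π < r ∧ r < u ∧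
      ∀ g, Lift γ⁻¹ g → ∃ α, Ctr g r α e1 := by
  obtain ⟨ρ, H⟩ := key0 hD hM ξ.1 (R + dist UpperHalfPlane.I ξ.1) e e1 u v he he1
  obtain ⟨s, ⟨γ, hγ, k, hB⟩, a, b⟩ := (h1.and_eventually ((h2.eventually_ge_atTop ρ).and h3)).exists
  refine ⟨s, γ, hγ, k, hB, H γ (G.o ξ s) a ?_ fun l hl => ?_⟩
  · have := dist_triangle (γ • G.o ξ s) UpperHalfPlane.I ξ.1
    have h5 := h4 _ hB
    simp only [gg] at h5
    exact this.trans (add_le_add h5 le_rfl)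
  · have := b _ hB l hl
    rwa [o_gg hγ, neg_add_cancel, Geo.o, G.φ_zero] at this

lemma ends (hD : Disc) (hM : Mob) {F : Filter ℝ} {ξ : N} {B : Set N} {R e u v l : ℝ} (he : 0 < e)
    (h1 : ∃ᶠ s in F, G.φ s ξ ∈ G.Sat B)
    (h2 : Tendsto (fun t => dist (G.o ξ t) ξ.1) F atTop)
    (h3 : ∀ᶠ s in F, ∀ η ∈ B, ∀ l ∈ Icc u v, G.o η (-s) ∉ Bl l e)
    (h4 : ∀ η ∈ B, dist η.1 UpperHalfPlane.I ≤ R)
    (h5 : ∀ᶠ t in F, ∀ η ∈ B, ∀ r, v - 2 * π < r → r < u → G.o η t ∉ Bl r e)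
    (h6 : ∀ s : ℝ, Tendsto (fun t => t - s) F F)
    (h7 : ∀ ε, 0 < ε → ∃ᶠ t in F, G.o ξ t ∈ Bl l ε) :
    Tendsto (fun t => cay (G.o ξ t)) F (𝓝 (ce l)) := by
  refine Metric.tendsto_nhds.2 fun ε hε => ?_
  have hm : 0 < min (ε / 3) e := lt_min (by linarith) he
  obtain ⟨δ, hδ, H⟩ := hM.hull _ hm
  obtain ⟨s, γ, hγ, k, hB, r, r1, r2, hc⟩ := ret hD hM he h1 h2 h3 h4 δ hδ
  obtain ⟨g, hg⟩ := hM.ex γ⁻¹
  obtain ⟨α, hα⟩ := hc g hg
  have E : ∀ᶠ t in F, ‖cay (G.o ξ t) - ce α‖ < ε / 3 := by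
    refine ((h6 s).eventually h5).mono fun t ht => ?_
    have a := H _ _ _ _ hg hα _ fun hz => ht _ hB r r1 r2 (bl_mono r (min_le_right _ _) hz)
    rw [o_gg hγ, sub_add_cancel, inv_smul_smul] at a
    exact bl_mono α (min_le_left _ _) a
  obtain ⟨t0, a, b⟩ := ((h7 (ε / 3) (by linarith)).and_eventually E).exists
  have a' : ‖cay (G.o ξ t0) - ce l‖ < ε / 3 := a
  refine E.mono fun t ht => ?_
  rw [dist_eq_norm]
  have c1 := norm_sub_le_norm_sub_add_norm_sub (cay (G.o ξ t)) (ce α) (ce l)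
  have c2 := norm_sub_le_norm_sub_add_norm_sub (ce α) (cay (G.o ξ t0)) (ce l)
  rw [norm_sub_rev (ce α) (cay (G.o ξ t0))] at c2
  linarith

/-- bounded points whose far past and far future avoid two arcs -/
def Bx (G : Geo) (R T e a b c d : ℝ) : Set N :=
  {η | dist η.1 UpperHalfPlane.I ≤ R ∧
    (∀ t, t ≤ -T → ∀ l ∈ Icc b (a + 2 * π), G.o η t ∉ Bl l e) ∧
      ∀ t, T ≤ t → ∀ l ∈ Icc d (c + 2 * π), G.o η t ∉ Bl l e}

lemma bx_closed (hD : Disc) (R T e a b c d : ℝ) : IsClosed (Bx G R T e a b c d) := by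
  have h : ∀ t l, IsClosed {η : N | G.o η t ∉ Bl l e} := fun t l => by
    have hc : Continuous fun η : N => ‖cay (G.o η t) - ce l‖ :=
      ((hD.emb.continuous.comp (continuous_fst.comp
        (G.continuous_φ.comp (continuous_const.prodMk continuous_id)))).sub continuous_const).norm
    simpa only [Bl, mem_ofPred_eq, not_lt] using isClosed_le continuous_const hc
  simp only [Bx, ofPred_and, ofPred_forall]
  exact (isClosed_le (continuous_fst.dist continuous_const) continuous_const).inter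
    ((isClosed_iInter fun t => isClosed_iInter fun _ => isClosed_iInter fun l =>
      isClosed_iInter fun _ => h t l).inter
    (isClosed_iInter fun t => isClosed_iInter fun _ => isClosed_iInter fun l =>
      isClosed_iInter fun _ => h t l))

lemma enter (hD : Disc) {ξ : N} {a b c d : ℝ} (h1 : ∀ l ∈ Icc b (a + 2 * π), ¬G.AccM ξ l)
    (h2 : ∀ l ∈ Icc d (c + 2 * π), ¬G.AccP ξ l) :
    ∃ (R T : ℕ) (e : ℚ), 0 < (e : ℝ) ∧ ξ ∈ Bx G R T e a b c d := by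
  obtain ⟨e1, he1, H1⟩ := unif hD h1
  obtain ⟨e2, he2, H2⟩ := unif hD h2
  obtain ⟨T1, H1⟩ := eventually_atBot.1 H1
  obtain ⟨T2, H2⟩ := eventually_atTop.1 H2
  obtain ⟨e, e0, ee⟩ := exists_rat_btwn (lt_min he1 he2)
  obtain ⟨R, hR⟩ := exists_nat_ge (dist ξ.1 UpperHalfPlane.I)
  obtain ⟨T, hT⟩ := exists_nat_ge (max (-T1) T2)
  have t1 := (le_max_left _ _).trans hT
  have t2 := (le_max_right _ _).trans hT
  exact ⟨R, T, e, e0, hR,
    fun t ht l hl hz => H1 t (by linarith) l hl (bl_mono l (ee.le.trans (min_le_left _ _)) hz),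
    fun t ht l hl hz => H2 t (by linarith) l hl (bl_mono l (ee.le.trans (min_le_right _ _)) hz)⟩

/-- returns in both directions of time -/
def Ret (G : Geo) (ξ : N) : Prop := ∀ (R T : ℕ) (e a b c d : ℚ), ξ ∈ Bx G R T e a b c d →
  (∃ᶠ s in atTop, G.φ s ξ ∈ G.Sat (Bx G R T e a b c d)) ∧
    ∃ᶠ s in atBot, G.φ s ξ ∈ G.Sat (Bx G R T e a b c d)

open Classical in
lemma often {P : ℕ → Prop}
    (h : ∃ c : ℝ, 0 < c ∧ ∃ᶠ n : ℕ in atTop, c * n ≤ ((Finset.range n).filter P).card) :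
    ∃ᶠ j in atTop, P j := by
  obtain ⟨c, hc, H⟩ := h
  by_contra hn
  obtain ⟨J, hJ⟩ := eventually_atTop.1 (not_frequently.1 hn)
  have t : Tendsto (fun n : ℕ => c * n) atTop atTop :=
    tendsto_natCast_atTop_atTop.const_mul_atTop hc
  obtain ⟨n, a, b⟩ := (H.and_eventually (t.eventually_gt_atTop J)).exists
  have : ((Finset.range n).filter P).card ≤ (Finset.range J).card :=
    Finset.card_le_card fun j hj => Finset.mem_range.2 (by
      by_contra hc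
      exact hJ j (not_lt.1 hc) (Finset.mem_filter.1 hj).2)
  rw [Finset.card_range] at this
  have : (((Finset.range n).filter P).card : ℝ) ≤ J := by exact_mod_cast this
  linarith

lemma ae_ret (hD : Disc) (hF : FreqSt) : ∀ᵐ ξ ∂G.μ, Ret G ξ := by
  simp only [Ret, ae_all_iff]
  intro R T e a b c d
  have hm := (bx_closed (G := G) hD R T e a b c d).measurableSet
  filter_upwards [(hF G).1 1 _ hm, (hF G).1 (-1) _ hm] with ξ h1 h2 hξ
  have t1 : Tendsto (fun j : ℕ => (j : ℝ) * 1) atTop atTop :=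
    tendsto_natCast_atTop_atTop.atTop_mul_const one_pos
  have t2 : Tendsto (fun j : ℕ => (j : ℝ) * (-1)) atTop atBot :=
    tendsto_natCast_atTop_atTop.atTop_mul_const_of_neg (by norm_num)
  exact ⟨t1.frequently (often (h1 hξ)), t2.frequently (often (h2 hξ))⟩

lemma evP (R T e a b c d : ℝ) : ∀ᶠ s in atTop, ∀ η ∈ Bx G R T e a b c d,
    ∀ l ∈ Icc b (a + 2 * π), G.o η (-s) ∉ Bl l e :=
  (eventually_ge_atTop T).mono fun s hs η hη => hη.2.1 _ (by linarith)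

lemma evM (R T e a b c d : ℝ) : ∀ᶠ s in atBot, ∀ η ∈ Bx G R T e a b c d,
    ∀ l ∈ Icc d (c + 2 * π), G.o η (-s) ∉ Bl l e :=
  (eventually_le_atBot (-T)).mono fun s hs η hη => hη.2.2 _ (by linarith)

lemma box {η : N} {R T e a b c d x y : ℝ} (he : 0 < e) (hη : η ∈ Bx G R T e a b c d)
    (hx : G.EndM η x) (hy : G.EndP η y) :
    (∃ m : ℤ, a < x + m * (2 * π) ∧ x + m * (2 * π) < b) ∧
      ∃ m : ℤ, c < y + m * (2 * π) ∧ y + m * (2 * π) < d := by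
  simpa only [add_sub_cancel_right] using
    And.intro (norm_end hx he ((eventually_le_atBot (-T)).mono hη.2.1))
      (norm_end hy he ((eventually_ge_atTop T).mono hη.2.2))

lemma wall (hD : Disc) (hM : Mob) (hB : G.Base) {ξ : N} (h : ξ ∈ G.DD) (hr : Ret G ξ) :
    ∃ x y, G.Wl ξ x y := by
  obtain ⟨a0, b0, c0, d0, h1, h2, h3, h4, hm, hp⟩ := h
  obtain ⟨b, b1, b2⟩ := exists_rat_btwn h2
  obtain ⟨c, c1, c2⟩ := exists_rat_btwn b2
  obtain ⟨d, d1, d2⟩ := exists_rat_btwn h4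
  obtain ⟨a, a1, a2⟩ := exists_rat_btwn (show (d : ℝ) - 2 * π < a0 by linarith)
  obtain ⟨R, T, e, he, hξ⟩ := enter hD (G := G) (ξ := ξ) (a := a) (b := b) (c := c) (d := d)
    (fun l hl => hm l (by linarith [hl.1]) (by linarith [hl.2]))
    (fun l hl => hp l (by linarith [hl.1]) (by linarith [hl.2]))
  obtain ⟨y, hy⟩ := hB.accP ξ
  obtain ⟨x, hx⟩ := hB.accM ξ
  obtain ⟨r1, r2⟩ := hr R T e a b c d hξ
  have EP : G.EndP ξ y := by
    refine ends hD hM he r1 (hB.top ξ _) (evP _ _ _ _ _ _ _) (fun η hη => hη.1) ?_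
      (fun s => tendsto_atTop_add_const_right _ (-s) tendsto_id) hy
    refine (eventually_ge_atTop (T : ℝ)).mono fun t ht η hη r s1 s2 hz => ?_
    refine hη.2.2 t ht (r + (1 : ℤ) * (2 * π)) ⟨?_, ?_⟩ (by rwa [bl_per]) <;> push_cast <;> linarith
  have EM : G.EndM ξ x := by
    refine ends hD hM he r2 (hB.bot ξ _) (evM _ _ _ _ _ _ _) (fun η hη => hη.1) ?_
      (fun s => tendsto_atBot_add_const_right _ (-s) tendsto_id) hx
    exact (eventually_le_atBot (-(T : ℝ))).mono fun t ht η hη r s1 s2 =>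
      hη.2.1 t ht r ⟨by linarith, by linarith⟩
  obtain ⟨⟨m, m1, m2⟩, n, n1, n2⟩ := box he hξ EM EP
  refine ⟨x + m * (2 * π), y + n * (2 * π), ?_, ?_, by linarith, by linarith⟩
  · simpa only [Geo.EndM, ce_add, ce_int, mul_one] using EM
  · simpa only [Geo.EndP, ce_add, ce_int, mul_one] using EP

lemma good (hM : Mob) (hB : G.Base) {ξ : N} {R T e a b c d x y s : ℝ} {γ : SL(2, ℝ)} {k : ℤ}
    (he : 0 < e) (hw : G.Wl ξ x y) (hγ : γ ∈ G.Γ) (h1 : b < c) (h2 : d < a + 2 * π)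
    (hη : gg γ (k * (2 * π)) (G.φ s ξ) ∈ Bx G R T e a b c d) :
    ∃ g, Lift γ g ∧ a < g x ∧ g x < b ∧ c < g y ∧ g y < d := by
  obtain ⟨g0, h0⟩ := hM.ex γ
  have w0 := hB.wg _ _ _ γ hγ g0 k h0 (hB.wφ _ _ _ s hw)
  obtain ⟨⟨m, m1, m2⟩, n, n1, n2⟩ := box he hη w0.m w0.p
  have l1 := w0.lt
  have l2 := w0.lt2
  have p := Real.pi_pos
  have a1 : (n : ℝ) < m + 1 := by
    by_contra hc
    nlinarith [not_lt.1 hc]
  have a2 : (m : ℝ) < n + 1 := by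
    by_contra hc
    nlinarith [not_lt.1 hc]
  have b1 : n < m + 1 := by exact_mod_cast a1
  have b2 : m < n + 1 := by exact_mod_cast a2
  obtain rfl : n = m := by omega
  exact ⟨g0.trans (OrderIso.addRight (n * (2 * π))), hM.add γ g0 _ n h0 fun _ => rfl,
    m1, m2, n1, n2⟩

lemma recur (hD : Disc) (hM : Mob) (hB : G.Base) {ξ : N} {x y : ℝ} (hw : G.Wl ξ x y)
    (hr : Ret G ξ) : (x, y) ∈ G.Rec := by
  intro ε hε
  have l1 := hw.lt
  have l2 := hw.lt2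
  obtain ⟨κ, k0, k1, k2, k3⟩ : ∃ κ, 0 < κ ∧ 3 * κ ≤ ε ∧ 3 * κ ≤ y - x ∧ 3 * κ ≤ x + 2 * π - y :=
    ⟨min ε (min (y - x) (x + 2 * π - y)) / 3,
      div_pos (lt_min hε (lt_min (by linarith) (by linarith))) three_pos,
      by linarith [min_le_left ε (min (y - x) (x + 2 * π - y))],
      by linarith [min_le_right ε (min (y - x) (x + 2 * π - y)),
        min_le_left (y - x) (x + 2 * π - y)],
      by linarith [min_le_right ε (min (y - x) (x + 2 * π - y)),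
        min_le_right (y - x) (x + 2 * π - y)]⟩
  obtain ⟨a, a1, a2⟩ := exists_rat_btwn (show x - κ < x by linarith)
  obtain ⟨b, b1, b2⟩ := exists_rat_btwn (show x < x + κ by linarith)
  obtain ⟨c, c1, c2⟩ := exists_rat_btwn (show y - κ < y by linarith)
  obtain ⟨d, d1, d2⟩ := exists_rat_btwn (show y < y + κ by linarith)
  obtain ⟨R, T, e, he, hξ⟩ := enter hD (G := G) (ξ := ξ) (a := a) (b := b) (c := c) (d := d)
    (fun l hl => not_acc hw.m (by linarith [hl.1]) (by linarith [hl.2]))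
    (fun l hl => not_acc hw.p (by linarith [hl.1]) (by linarith [hl.2]))
  obtain ⟨r1, r2⟩ := hr R T e a b c d hξ
  constructor
  · obtain ⟨s, γ, hγ, k, hη, r, s1, s2, hc⟩ :=
      ret hD hM he r1 (hB.top ξ _) (evP _ _ _ _ _ _ _) (fun η hη => hη.1) κ k0
    obtain ⟨g, hg, g1, g2, g3, g4⟩ := good hM hB he hw hγ (by linarith) (by linarith) hη
    obtain ⟨α, hα⟩ := hc _ (lift_inv hg)
    have e1 := hα (g y) (by linarith) (by linarith)
    rw [show g⁻¹ (g y) = y from g.symm_apply_apply y, abs_lt] at e1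
    refine ⟨g⁻¹, ⟨γ⁻¹, G.Γ.inv_mem hγ, lift_inv hg⟩, ?_, ?_, fun t t1 t2 => ?_⟩
    · rw [inv_inv, abs_lt]
      constructor <;> linarith
    · rw [inv_inv, abs_lt]
      constructor <;> linarith
    · have e2 := hα t (by linarith) (by linarith)
      rw [abs_lt] at e2 ⊢
      constructor <;> linarith [e1.1, e1.2, e2.1, e2.2]
  · obtain ⟨s, γ, hγ, k, hη, r, s1, s2, hc⟩ :=
      ret hD hM he r2 (hB.bot ξ _) (evM _ _ _ _ _ _ _) (fun η hη => hη.1) κ k0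
    obtain ⟨g, hg, g1, g2, g3, g4⟩ := good hM hB he hw hγ (by linarith) (by linarith) hη
    obtain ⟨α, hα⟩ := hc _ (lift_inv hg)
    have e1 := hα (g x + 2 * π) (by linarith) (by linarith)
    rw [(lift_inv hg).per, show g⁻¹ (g x) = x from g.symm_apply_apply x, abs_lt] at e1
    refine ⟨g⁻¹, ⟨γ⁻¹, G.Γ.inv_mem hγ, lift_inv hg⟩, ?_, ?_, fun t t1 t2 => ?_⟩
    · rw [inv_inv, abs_lt]
      constructor <;> linarith
    · rw [inv_inv, abs_lt]
      constructor <;> linarith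
    · have e2 := hα (t + 2 * π) (by linarith) (by linarith)
      rw [(lift_inv hg).per, abs_lt] at e2
      rw [abs_lt]
      constructor <;> linarith [e1.1, e1.2, e2.1, e2.2]

end FRec

open FRec in
theorem recSt (hD : Disc) (hM : Mob) (hB : BaseSt) (hF : FreqSt) : RecSt := fun G => by
  refine ⟨measure_mono_null (t := {ξ | ¬Ret G ξ}) (fun ξ hξ hr => hξ.2 ?_)
    (ae_iff.1 (ae_ret (G := G) hD hF)), ?_⟩
  · obtain ⟨x, y, hw⟩ := wall hD hM (hB G) hξ.1 hr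
    exact ⟨x, y, recur hD hM (hB G) hw hr, hw⟩
  · rintro ξ ⟨x, y, -, hw⟩
    exact ⟨x, x, y, y, le_rfl, hw.lt, le_rfl, hw.lt2, fun l a b => not_acc hw.m a b,
      fun l a b => not_acc hw.p a b⟩

end

end Pool.Agent.Lib.MP_21f752_an
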