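import Pool.Agent.Lib.MP_21f752_an.FA

/-! Riccati bound, twist, open exponential map and Hopf rigidity without conjugate points. -/

namespace Pool.Agent.Lib.MP_21f752_an

open UpperHalfPlane Set Filter Topology Metric MeasureTheory
open scoped MatrixGroups ContDiff Real

noncomputable section

namespace Sys

variable {S : Sys}

lemma NC.jy_ne (h : S.NC) (ξ : N) {t : ℝ} (ht : 0 < t) : S.jy ξ t ≠ 0 := h ξ t ht.ne'

lemma NC.jy_pos (h : S.NC) (ξ : N) {t : ℝ} (ht : 0 < t) : 0 < S.jy ξ t := by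
  by_contra hc
  have h1 := (S.hd_y ξ 0).tendsto_slope_zero_right
  rw [jw_zero] at h1
  obtain ⟨s, hs1, hs2⟩ := ((h1.eventually (lt_mem_nhds one_pos)).and (Ioo_mem_nhdsGT ht)).exists
  have hs : 0 < S.jy ξ s := by
    simp only [zero_add, jy_zero, sub_zero, smul_eq_mul] at hs1
    exact (mul_pos_iff_of_pos_left (inv_pos.2 hs2.1)).1 hs1
  obtain ⟨r, hr, h0⟩ := intermediate_value_Icc' hs2.2.le
    (fun r _ => (S.hd_y ξ r).continuousAt.continuousWithinAt) ⟨not_lt.1 hc, hs.le⟩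
  exact h.jy_ne ξ (hs2.1.trans_le hr.1) h0

lemma NC.jy_neg (h : S.NC) (ξ : N) {t : ℝ} (ht : t < 0) : S.jy ξ t < 0 := by
  by_contra hc
  have h1 := (S.hd_y ξ 0).tendsto_slope_zero_left
  rw [jw_zero] at h1
  obtain ⟨s, hs1, hs2⟩ := ((h1.eventually (lt_mem_nhds one_pos)).and (Ioo_mem_nhdsLT ht)).exists
  have hs : S.jy ξ s < 0 := by
    simp only [zero_add, jy_zero, sub_zero, smul_eq_mul] at hs1
    by_contra h2
    exact absurd hs1 (not_lt.2 (mul_nonpos_of_nonpos_of_nonneg (inv_nonpos.2 hs2.2.le) (not_lt.1 h2)))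
  obtain ⟨r, hr, h0⟩ := intermediate_value_Icc' hs2.1.le
    (fun r _ => (S.hd_y ξ r).continuousAt.continuousWithinAt) ⟨hs.le, not_lt.1 hc⟩
  exact h ξ r (hr.2.trans_lt hs2.2).ne h0

lemma NC.sign (h : S.NC) (ξ : N) (t : ℝ) (ht : t ≠ 0) : 0 < t * S.jy ξ t := by
  rcases lt_or_gt_of_ne ht with h1 | h1
  · exact mul_pos_of_neg_of_neg h1 (h.jy_neg ξ h1)
  · exact mul_pos h1 (h.jy_pos ξ h1)

lemma NC.ric (h : S.NC) (ξ : N) {a b : ℝ} (ha : 0 < a) (hab : a ≤ b) {g g' ψ : ℝ → ℝ}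
    (hg : ∀ t, HasDerivAt g (g' t) t) (hψ : Continuous ψ)
    (hle : ∀ t ∈ Ioo a b, g' t ^ 2 - S.Km (S.φ t ξ) * g t ^ 2 ≤ ψ t) :
    S.ju ξ b * g b ^ 2 - S.ju ξ a * g a ^ 2 ≤ ∫ t in a..b, ψ t := by
  have key := fun t (ht : t ∈ Icc a b) =>
    ((S.hd_w ξ t).div (S.hd_y ξ t) (h.jy_ne ξ (ha.trans_le ht.1))).mul ((hg t).pow 2)
  refine intervalIntegral.sub_le_integral_of_hasDeriv_right_of_le hab
    (g := fun t => S.ju ξ t * g t ^ 2)
    (fun t ht => (key t ht).continuousAt.continuousWithinAt)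
    (fun t ht => (key t (Ioo_subset_Icc_self ht)).hasDerivWithinAt)
    hψ.integrableOn_Icc fun t ht => le_trans ?_ (hle t ht)
  have hy := h.jy_ne ξ (ha.trans ht.1)
  have e : (-(S.Km (S.φ t ξ) * S.jy ξ t) * S.jy ξ t - S.jw ξ t * S.jw ξ t) / S.jy ξ t ^ 2 =
      -S.Km (S.φ t ξ) - (S.jw ξ t / S.jy ξ t) ^ 2 := by
    field_simp
  simp only [Pi.pow_apply, Pi.div_apply, e]
  nlinarith [sq_nonneg (S.jw ξ t / S.jy ξ t * g t - g' t)]

lemma NC.ju_bdd (h : S.NC) : ∃ C, 0 < C ∧ ∀ ξ t, 1 ≤ t → |S.ju ξ t| ≤ C := by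
  obtain ⟨C, hC0, hC⟩ := S.ci_Km.inv.bdd S.ci_Km.cont
  refine ⟨C + 2, by positivity, fun ξ t ht => abs_le.2 ⟨?_, ?_⟩⟩
  · have := h.ric ξ (a := t) (b := t + 1) (by linarith) (by linarith) (g := fun s => 1 - (s - t))
      (g' := fun _ => -1) (ψ := fun _ => 1 + C)
      (fun s => ((hasDerivAt_id s).sub_const t).const_sub 1) continuous_const fun s hs => by
        have := (abs_le.1 (hC (S.φ s ξ))).1
        have h1 : (1 - (s - t)) ^ 2 ≤ 1 := by nlinarith [hs.1, hs.2]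
        nlinarith [sq_nonneg (1 - (s - t))]
    simp at this
    linarith
  · have := h.ric ξ (a := t - 1 / 2) (b := t) (by linarith) (by linarith)
      (g := fun s => (s - t) * 2 + 1) (g' := fun _ => 1 * 2) (ψ := fun _ => 4 + C)
      (fun s => (((hasDerivAt_id s).sub_const t).mul_const 2).add_const 1) continuous_const
      fun s hs => by
        have := (abs_le.1 (hC (S.φ s ξ))).1
        have h1 : ((s - t) * 2 + 1) ^ 2 ≤ 1 := by nlinarith [hs.1, hs.2]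
        nlinarith [sq_nonneg ((s - t) * 2 + 1)]
    simp at this
    linarith

lemma NC.hopf (h : S.NC) {G G1 : N → ℝ} (hG : S.CI G) (h1 : Continuous G1)
    (hd : ∀ ξ t, HasDerivAt (fun s => G (S.φ s ξ)) (G1 (S.φ t ξ)) t) :
    0 ≤ S.I fun ξ => G1 ξ ^ 2 - S.Km ξ * G ξ ^ 2 := by
  obtain ⟨C, hC0, hC⟩ := h.ju_bdd
  obtain ⟨B, hB0, hB⟩ := hG.sq.inv.bdd hG.sq.cont
  have hc : S.CI fun ξ => G1 ξ ^ 2 - S.Km ξ * G ξ ^ 2 :=
    (CI.sq ⟨h1, hG.inv.deriv hd⟩).sub (S.ci_Km.mul hG.sq)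
  have key : ∀ T : ℝ, 1 ≤ T → -(2 * C * B) * S.I (fun _ => 1) ≤
      (T - 1) * S.I fun ξ => G1 ξ ^ 2 - S.Km ξ * G ξ ^ 2 := by
    intro T hT
    rw [← hc.I_avg, ← I_const]
    refine (CI.const _).I_mono (hc.avg 1 T) fun ξ =>
      le_trans ?_ (h.ric ξ one_pos hT (hd ξ) (hc.cont_t ξ) fun _ _ => le_rfl)
    have a : ∀ t, 1 ≤ t → |S.ju ξ t * G (S.φ t ξ) ^ 2| ≤ C * B := fun t ht => by
      rw [abs_mul]
      exact mul_le_mul (hC ξ t ht) (hB _) (abs_nonneg _) hC0.le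
    linarith [(abs_le.1 (a T hT)).1, (abs_le.1 (a 1 le_rfl)).2]
  by_contra hneg
  push Not at hneg
  set x := S.I fun ξ => G1 ξ ^ 2 - S.Km ξ * G ξ ^ 2
  have v := vol_pos (S := S)
  have p : 0 ≤ 2 * C * B * S.I (fun _ => 1) := by positivity
  have := key (2 + 2 * C * B * S.I (fun _ => 1) / -x) (by
    have := div_nonneg p (neg_pos.2 hneg).le
    linarith)
  have e : (2 + 2 * C * B * S.I (fun _ => 1) / -x - 1) * x = x - 2 * C * B * S.I (fun _ => 1) := by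
    have := hneg.ne
    field_simp
    ring
  linarith

lemma NC.rigid (h : S.NC)
    (hel : S.I (fun _ => 1) ≤ S.I (fun ξ => S.b ξ.1) / S.Hy * S.I fun ξ => S.b ξ.1) :
    (∃ κ, ∀ z, curv S.f z = κ) ∧ ∃ β, ∀ z, S.b z = β := by
  have v := vol_pos (S := S)
  have hy := S.Hy_pos
  have h1 := h.hopf (CI.const 1) (G1 := fun _ => 0) continuous_const fun _ _ => hasDerivAt_const _ _
  have h1' : S.I S.Km ≤ 0 := by
    have := I_mul (S := S) (-1) S.Km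
    simp only [neg_one_mul] at this
    simp only [one_pow, mul_one, ne_eq, OfNat.ofNat_ne_zero, not_false_eq_true, zero_pow,
      zero_sub] at h1
    linarith
  have h2 := S.I_Km
  set β := S.I (fun ξ => S.b ξ.1) / S.I fun _ => 1 with hβ
  have hB : S.I (fun ξ => S.b ξ.1) = β * S.I fun _ => 1 := by rw [hβ]; field_simp
  have h3 : S.I (fun ξ => (S.b ξ.1 - β) ^ 2) =
      S.I (fun ξ => S.b ξ.1 ^ 2) - β ^ 2 * S.I fun _ => 1 := by
    have : (fun ξ : N => (S.b ξ.1 - β) ^ 2) = fun ξ => S.b ξ.1 ^ 2 - 2 * β * S.b ξ.1 + β ^ 2 := by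
      ext; ring
    rw [this, (S.ci_b.sq.sub ((CI.const _).mul S.ci_b)).I_add (CI.const _),
      S.ci_b.sq.I_sub ((CI.const _).mul S.ci_b), I_mul, I_const (β ^ 2), hB]
    ring
  have h4 : S.Hy ≤ β ^ 2 * S.I fun _ => 1 := by
    rw [hB, div_mul_eq_mul_div, le_div_iff₀ hy] at hel
    nlinarith
  have hc := (S.ci_b.sub (CI.const β)).sq
  have hb : ∀ z, S.b z = β := fun z => by
    have := hc.eq_zero (fun _ => sq_nonneg _) (by linarith) (z, 0)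
    exact sub_eq_zero.1 (pow_eq_zero_iff two_ne_zero |>.1 this)
  refine ⟨⟨-β ^ 2, fun z => ?_⟩, β, hb⟩
  have h5 : 0 ≤ S.I fun ξ => (S.b ξ.1 - β) ^ 2 := integral_nonneg fun _ => sq_nonneg _
  have h6 : S.I S.Km = 0 := by linarith
  have hK : ∀ ξ, S.Km ξ = curv S.f ξ.1 + β ^ 2 := fun ξ => by
    have : S.B = fun _ => β := funext fun z => hb _
    simp [Km, this, hb]
  set G1 := S.d1 fun z => curv S.f (ofComplex z) with hG1
  have c1 : Continuous G1 := (cont_dG fun z hz => curv_cd hz).clm_apply S.continuous_V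
  have d1 : ∀ ξ t, HasDerivAt (fun s => S.Km (S.φ s ξ)) (G1 (S.φ t ξ)) t := fun ξ t => by
    have := (hd_base (S := S) (fun z hz => curv_cd (S := S) hz) ξ t).add_const (β ^ 2)
    simpa [hK] using this
  have k := S.ci_Km
  have g1 : S.CI G1 := ⟨c1, k.inv.deriv d1⟩
  have key : ∀ ε : ℝ, 0 < ε → 2 * S.I (fun ξ => S.Km ξ ^ 2) ≤
      ε * S.I fun ξ => G1 ξ ^ 2 - S.Km ξ * S.Km ξ ^ 2 := by
    intro ε hε
    have := h.hopf ((CI.const 1).add ((CI.const ε).mul k)) (G1 := fun ξ => ε * G1 ξ)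
      (continuous_const.mul c1) fun ξ t => ((d1 ξ t).const_mul ε).const_add 1
    have e : (fun ξ => (ε * G1 ξ) ^ 2 - S.Km ξ * (1 + ε * S.Km ξ) ^ 2) = fun ξ =>
        ε ^ 2 * (G1 ξ ^ 2 - S.Km ξ * S.Km ξ ^ 2) - 2 * ε * S.Km ξ ^ 2 - S.Km ξ := by
      ext; ring
    have a := (CI.const (ε ^ 2)).mul (g1.sq.sub (k.mul k.sq))
    have b := (CI.const (2 * ε)).mul k.sq
    rw [e, (a.sub b).I_sub k, a.I_sub b, I_mul, I_mul, h6] at this
    nlinarith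
  have h7 : S.I (fun ξ => S.Km ξ ^ 2) ≤ 0 := by
    have t : Tendsto (fun ε : ℝ => ε * S.I fun ξ => G1 ξ ^ 2 - S.Km ξ * S.Km ξ ^ 2) (𝓝[>] 0)
        (𝓝 (0 * _)) := (tendsto_id.mono_left nhdsWithin_le_nhds).mul_const _
    have := ge_of_tendsto t (eventually_mem_nhdsWithin.mono key)
    linarith
  have := k.sq.eq_zero (fun _ => sq_nonneg _) h7 (z, 0)
  rw [pow_eq_zero_iff two_ne_zero, hK] at this
  exact eq_neg_of_add_eq_zero_left this

lemma hd_ez_θ (S : Sys) (ξ : N) (t : ℝ) :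
    HasDerivAt (fun θ => ((S.φ t (ξ.1, θ)).1 : ℂ)) (S.jq ξ (0, 1) t * S.V (S.φ t ξ)) ξ.2 := by
  have a := ((S.ez_cd ξ.1).differentiable (by simp) (t, ξ.2)).hasFDerivAt.comp_hasDerivAt
    (f := fun θ : ℝ => (t, θ)) ξ.2 ((hasDerivAt_const _ _).prodMk (hasDerivAt_id _))
  refine a.congr_deriv ?_
  rw [fderiv_ez]
  simp

lemma NC.opn (h : S.NC) (ξ : N) (t : ℝ) (ht : t ≠ 0) :
    𝓝 (S.φ t ξ).1 ≤ map (fun x : ℝ × ℝ => (S.φ x.1 (ξ.1, x.2)).1) (𝓝 (t, ξ.2)) := by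
  have hs : HasStrictFDerivAt (S.ez ξ.1) (fderiv ℝ (S.ez ξ.1) (t, ξ.2)) (t, ξ.2) :=
    (S.ez_cd ξ.1).contDiffAt.hasStrictFDerivAt (by simp)
  have hy : (S.jq ξ (0, 1) t).im ≠ 0 := h ξ t ht
  have hm := hs.map_nhds_eq_of_surj (LinearMap.range_eq_top.2 fun y => by
    refine ⟨((y / S.V (S.φ t ξ)).re - (y / S.V (S.φ t ξ)).im / (S.jq ξ (0, 1) t).im *
      (S.jq ξ (0, 1) t).re, (y / S.V (S.φ t ξ)).im / (S.jq ξ (0, 1) t).im), ?_⟩
    change fderiv ℝ (S.ez ξ.1) (t, ξ.2) _ = y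
    rw [fderiv_ez, ← eq_div_iff (S.V_ne _)]
    apply Complex.ext
    · simp only [Complex.add_re, Complex.mul_re, Complex.ofReal_re, Complex.ofReal_im]
      ring
    · simp only [Complex.add_im, Complex.mul_im, Complex.ofReal_re, Complex.ofReal_im]
      field_simp
      ring)
  have e : 𝓝 (S.φ t ξ).1 = comap ((↑) : ℍ → ℂ) (𝓝 (S.ez ξ.1 (t, ξ.2))) :=
    isOpenEmbedding_coe.isInducing.nhds_eq_comap _
  rw [e, ← hm]
  exact (comap_map (m := ((↑) : ℍ → ℂ))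
    (f := map (fun x : ℝ × ℝ => (S.φ x.1 (ξ.1, x.2)).1) (𝓝 (t, ξ.2)))
    isOpenEmbedding_coe.injective).le

end Sys

theorem ric : RicSt := fun S h => by
  refine ⟨h.sign, ?_, fun ξ t ht => ⟨_, h.sign ξ t ht, S.hd_ez_θ ξ t⟩, h.opn, h.rigid⟩
  obtain ⟨C, hC0, hC⟩ := h.ju_bdd
  refine ⟨C, hC0, fun ξ t ht => ?_⟩
  have hy := h.jy_pos ξ (one_pos.trans_le ht)
  have := hC ξ t ht
  rwa [Sys.ju, abs_div, abs_of_pos hy, div_le_iff₀ hy] at this

end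

end Pool.Agent.Lib.MP_21f752_an
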