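import Pool.Agent.Lib.MP_21f752_an.FG

/-! Shooting between finitely many left and right walls. -/

namespace Pool.Agent.Lib.MP_21f752_an

open UpperHalfPlane Set Filter Topology Metric MeasureTheory
open scoped MatrixGroups ContDiff Real

noncomputable section

namespace FSho

variable (G : Geo)

lemma cont2 (p : ℍ) : Continuous fun x : ℝ × ℝ => G.o (p, x.1) x.2 :=
  (G.continuous_φ.comp (continuous_snd.prodMk (continuous_const.prodMk continuous_fst))).fst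

lemma cont1 (ξ : N) : Continuous (G.o ξ) :=
  (G.continuous_φ.comp (continuous_id.prodMk continuous_const)).fst

lemma o_zero (p : ℍ) (θ : ℝ) : G.o (p, θ) 0 = p := by
  simp only [Geo.o, Sys.φ_zero]

/-- a side `P` of the wall `w`, entered in the direction of sign `e`, and the other side `Q` -/
structure Sd (e : ℝ) (w : N) (P Q : Set ℍ) : Prop where
  oP : IsOpen P
  oQ : IsOpen Q
  dis : Disjoint P Q
  un : P ∪ Q = (range (G.o w))ᶜ
  loc : ∀ (t : ℝ) (σ : ℝ → ℍ) (u : ℂ), σ 0 = G.o w t → HasDerivAt (fun s => (σ s : ℂ)) u 0 →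
    0 < e * (u / G.V (G.φ t w)).im → ∀ᶠ s in 𝓝[>] 0, σ s ∈ P

variable {G}

lemma Sd.closed {e : ℝ} {w : N} {P Q : Set ℍ} (h : Sd G e w P Q) : IsClosed (range (G.o w)) :=
  isOpen_compl_iff.1 (h.un ▸ h.oP.union h.oQ)

lemma Sd.stay {e : ℝ} {w : N} {P Q : Set ℍ} (h : Sd G e w P Q) {c : ℝ → ℍ} (hc : Continuous c)
    {t : ℝ} (ht : 0 ≤ t) (h0 : c 0 ∈ Q) (hn : ∀ s ∈ Icc 0 t, c s ∉ range (G.o w)) : c t ∈ Q :=
  (isPreconnected_Icc.image c hc.continuousOn).subset_right_of_subset_union h.oP h.oQ h.dis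
    (by
      rintro _ ⟨s, hs, rfl⟩
      rw [h.un]
      exact hn s hs) ⟨c 0, mem_image_of_mem c (left_mem_Icc.2 ht), h0⟩
      (mem_image_of_mem c (right_mem_Icc.2 ht))

lemma dir {ξ η : N} (h : ξ.1 = η.1) (h0 : (G.V ξ / G.V η).im = 0) :
    G.V ξ = -G.V η ∨ ∃ k : ℤ, ξ = rot (k * (2 * π)) η := by
  have n : ‖G.V ξ / G.V η‖ = 1 := by
    rw [norm_div, Sys.norm_V, Sys.norm_V, h, div_self]
    exact (mul_pos (Real.exp_pos _) η.1.im_pos).ne'
  have e : G.V ξ / G.V η = ((G.V ξ / G.V η).re : ℝ) := Complex.ext rfl h0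
  rw [e, Complex.norm_real, Real.norm_eq_abs, abs_eq zero_le_one] at n
  rw [div_eq_iff (G.V_ne η)] at e
  rcases n with n | n
  · rw [n] at e
    have e2 : ξ = rot (ξ.2 - η.2) η := Prod.ext h (by simp [rot])
    have e3 : ce (ξ.2 - η.2) = ce 0 := by
      rw [e2, Sys.V_rot] at e
      rw [ce_zero]
      simpa using mul_right_cancel₀ (G.V_ne η) e
    obtain ⟨k, hk⟩ := ce_eq_iff.1 e3
    exact .inr ⟨k, by rw [e2, hk, zero_add]⟩
  · rw [n] at e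
    exact .inl (by simpa using e)

/-- a first hit persists on one side -/
lemma Sd.hit {e : ℝ} (he : e * e = 1) {w : N} {P Q : Set ℍ} (h : Sd G e w P Q) {p : ℍ} (hp : p ∈ Q)
    {θ t s0 η : ℝ} (ht : 0 ≤ t) (hη : 0 < η) (h1 : G.o (p, θ) t = G.o w s0)
    (hn : ∀ s ∈ Ico 0 t, G.o (p, θ) s ∉ range (G.o w)) :
    ∀ᶠ s in 𝓝[>] 0, ∃ r ∈ Icc 0 (t + η), G.o (p, θ - e * s) r ∈ P := by
  have pn : p ∉ range (G.o w) := by
    have : p ∈ P ∪ Q := .inr hp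
    rwa [h.un] at this
  have t0 : 0 < t := ht.lt_of_ne fun h0 => pn ⟨s0, by rw [← h1, ← h0, o_zero]⟩
  have e0 : e ≠ 0 := fun h0 => by simp [h0] at he
  rcases lt_trichotomy (e * (G.V (G.φ t (p, θ)) / G.V (G.φ s0 w)).im) 0 with c | c | c
  · exfalso
    have d : HasDerivAt (fun s => (G.o (p, θ) (t - s) : ℂ)) (-G.V (G.φ t (p, θ))) 0 := by
      have := (G.hd_z (p, θ) (t - 0)).comp_const_sub t 0
      rwa [sub_zero] at this
    have := h.loc s0 (fun s => G.o (p, θ) (t - s)) _ (by rw [sub_zero, h1]) d (by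
      rw [neg_div, Complex.neg_im]
      linarith)
    obtain ⟨s, a, b⟩ := (this.and (Ioo_mem_nhdsGT t0)).exists
    exact disjoint_left.1 h.dis a (h.stay (cont1 G _) (by linarith [b.2]) (by rwa [o_zero])
      fun r hr => hn r ⟨hr.1, by linarith [hr.2, b.1]⟩)
  · rcases dir (G := G) h1 ((mul_eq_zero.1 c).resolve_left e0) with c | ⟨k, c⟩
    · obtain ⟨q, q1, q2⟩ := G.tw (p, θ) t t0.ne'
      have l : HasDerivAt (fun s : ℝ => θ - e * s) (-e) 0 := by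
        simpa using ((hasDerivAt_id (0 : ℝ)).const_mul e).const_sub θ
      have d := HasDerivAt.scomp (g₁ := fun θ => ((G.φ t (p, θ)).1 : ℂ)) (0 : ℝ)
        (by simpa using q2) l
      refine (h.loc s0 (fun s => G.o (p, θ - e * s) t) _ (by simpa using h1) d ?_).mono
        fun s hs => ⟨t, ⟨ht, by linarith⟩, hs⟩
      have : (-e • (q * G.V (G.φ t (p, θ)))) / G.V (G.φ s0 w) = e * q := by
        rw [c, div_eq_iff (G.V_ne _), Complex.real_smul]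
        push_cast
        ring
      rw [this, Complex.im_ofReal_mul, ← mul_assoc, he, one_mul]
      exact (mul_pos_iff_of_pos_left t0).1 q1
    · refine absurd ⟨-t + s0, ?_⟩ pn
      have := congrArg (fun x => (G.φ (-t) x).1) c
      simp only [Sys.φ_neg, Sys.φ_rot] at this
      rw [Geo.o, Sys.φ_add]
      exact this.symm
  · have d : HasDerivAt (fun s => (G.o (p, θ) (t + s) : ℂ)) (G.V (G.φ t (p, θ))) 0 := by
      have := (G.hd_z (p, θ) (t + 0)).comp_const_add t 0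
      rwa [add_zero] at this
    have := h.loc s0 (fun s => G.o (p, θ) (t + s)) _ (by rw [add_zero, h1]) d c
    obtain ⟨r, a, b⟩ := (this.and (Ioo_mem_nhdsGT hη)).exists
    have k : Continuous fun s : ℝ => G.o (p, θ - e * s) (t + r) :=
      (cont2 G p).comp (f := fun s : ℝ => (θ - e * s, t + r)) (by fun_prop)
    have := k.continuousAt.eventually (h.oP.mem_nhds (x := G.o (p, θ - e * 0) (t + r))
      (by simpa using a))
    exact (this.filter_mono nhdsWithin_le_nhds).mono fun s hs =>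
      ⟨t + r, ⟨by linarith [b.1], by linarith [b.2]⟩, hs⟩

/-- the ray meets `X` before `Y` -/
def Fi (G : Geo) (p : ℍ) (X Y : Set ℍ) (θ : ℝ) : Prop :=
  ∃ t, 0 ≤ t ∧ G.o (p, θ) t ∈ X ∧ ∀ s ∈ Icc 0 t, G.o (p, θ) s ∉ Y

lemma first {c : ℝ → ℍ} (hc : Continuous c) {X : Set ℍ} (hX : IsClosed X) {t : ℝ} (ht : 0 ≤ t)
    (h : c t ∈ X) : ∃ r ∈ Icc 0 t, c r ∈ X ∧ ∀ s ∈ Ico 0 r, c s ∉ X := by
  obtain ⟨r, ⟨a, b⟩, m⟩ := (isCompact_Icc.inter_right (hX.preimage hc)).exists_isLeast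
    ⟨t, right_mem_Icc.2 ht, h⟩
  exact ⟨r, a, b, fun s hs h2 => not_le.2 hs.2 (m ⟨⟨hs.1, hs.2.le.trans a.2⟩, h2⟩)⟩

lemma excl {p : ℍ} {X Y : Set ℍ} {θ : ℝ} (h : Fi G p X Y θ) : ¬Fi G p Y X θ := by
  rintro ⟨t, a, b, c⟩
  obtain ⟨t', a', b', c'⟩ := h
  rcases le_total t t' with l | l
  · exact c' t ⟨a, l⟩ b
  · exact c t' ⟨a', l⟩ b'

lemma step {e : ℝ} (he : e * e = 1) {p : ℍ} {A : Set (N × ℝ × ℝ)} (hA : A.Finite)
    (hs : ∀ a ∈ A, ∃ P Q, Sd G e a.1 P Q ∧ p ∈ Q) {Y : Set ℍ} (hY : IsClosed Y) {θ : ℝ}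
    (h : Fi G p (⋃ a ∈ A, range (G.o a.1)) Y θ) :
    ∀ᶠ s in 𝓝[>] 0, Fi G p (⋃ a ∈ A, range (G.o a.1)) Y (θ - e * s) := by
  obtain ⟨t1, a1, b1, c1⟩ := h
  obtain ⟨t, ht, b, c⟩ := first (cont1 G (p, θ)) (hA.isClosed_biUnion fun a ha =>
    (hs a ha).elim fun _ h => h.elim fun _ h => h.1.closed) a1 b1
  obtain ⟨a, ha, s0, h1⟩ := mem_iUnion₂.1 b
  obtain ⟨P, Q, sd, hp⟩ := hs a ha
  have k : Continuous fun x : ℝ × ℝ => G.o (p, θ - e * x.1) x.2 :=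
    (cont2 G p).comp (f := fun x : ℝ × ℝ => (θ - e * x.1, x.2)) (by fun_prop)
  obtain ⟨u, v, uo, vo, u0, v0, uv⟩ := generalized_tube_lemma (isCompact_singleton (x := (0 : ℝ)))
    (isCompact_Icc (a := 0) (b := t)) (hY.isOpen_compl.preimage k) (by
      rintro ⟨_, s⟩ ⟨rfl, hs⟩
      simpa using c1 s ⟨hs.1, hs.2.trans ht.2⟩)
  obtain ⟨η, η0, hη⟩ := Metric.isOpen_iff.1 vo t (v0 (right_mem_Icc.2 ht.1))
  have := sd.hit he hp ht.1 (half_pos η0) h1.symm fun s hs h2 =>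
    c s hs (mem_iUnion₂.2 ⟨a, ha, h2⟩)
  filter_upwards [this, mem_nhdsWithin_of_mem_nhds (uo.mem_nhds (u0 rfl))] with s ⟨r, hr, h2⟩ h3
  obtain ⟨r', hr', h4⟩ : ∃ r' ∈ Icc 0 r, G.o (p, θ - e * s) r' ∈ range (G.o a.1) := by
    by_contra hc
    push Not at hc
    exact disjoint_left.1 sd.dis h2 (sd.stay (cont1 G _) hr.1 (by rwa [o_zero]) hc)
  refine ⟨r', hr'.1, mem_iUnion₂.2 ⟨a, ha, h4⟩, fun x hx => uv (mk_mem_prod h3 ?_)⟩
  rcases le_total x t with l | l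
  · exact v0 ⟨hx.1, l⟩
  · refine hη (mem_ball.2 ?_)
    rw [Real.dist_eq, abs_of_nonneg (by linarith)]
    linarith [hx.2, hr'.2, hr.2]

end FSho

open FSho in
theorem shoot (hs : SideSt) (h3 : T3St) : ShootSt := by
  intro G p θ1 θ2 A B hθ hA hB hw ho pA pB r1 r2
  have sA : ∀ a ∈ A, ∃ P Q, Sd G 1 a.1 P Q ∧ p ∈ Q := fun a ha => by
    obtain ⟨L, R, h⟩ := hs G _ _ _ (hw a (.inl ha))
    exact ⟨L, R, ⟨h.oL, h.oR, h.dis, h.un, fun t σ u a b c =>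
      (h.loc t σ u a b).1 (by linarith)⟩, pA a ha L R h⟩
  have sB : ∀ a ∈ B, ∃ P Q, Sd G (-1) a.1 P Q ∧ p ∈ Q := fun a ha => by
    obtain ⟨L, R, h⟩ := hs G _ _ _ (hw a (.inr ha))
    exact ⟨R, L, ⟨h.oR, h.oL, h.dis.symm, union_comm L R ▸ h.un, fun t σ u a b c =>
      (h.loc t σ u a b).2 (by linarith)⟩, pB a ha L R h⟩
  set X := ⋃ a ∈ A, range (G.o a.1)
  set Y := ⋃ a ∈ B, range (G.o a.1)
  have cX : IsClosed X := hA.isClosed_biUnion fun a ha =>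
    (sA a ha).elim fun _ h => h.elim fun _ h => h.1.closed
  have cY : IsClosed Y := hB.isClosed_biUnion fun a ha =>
    (sB a ha).elim fun _ h => h.elim fun _ h => h.1.closed
  have dis : ∀ z ∈ X, z ∉ Y := fun z h1 h2 => by
    obtain ⟨a, ha, s, rfl⟩ := mem_iUnion₂.1 h1
    obtain ⟨b, hb, t, e⟩ := mem_iUnion₂.1 h2
    exact h3 G _ _ _ _ _ _ (hw b (.inr hb)) (hw a (.inl ha)) (ho a ha b hb).1 (ho a ha b hb).2 t s e
  by_contra hc
  have all : ∀ θ ∈ Icc θ1 θ2, Fi G p X Y θ ∨ Fi G p Y X θ := fun θ h => by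
    obtain ⟨t, ht, m⟩ : ∃ t, 0 ≤ t ∧ G.o (p, θ) t ∈ X ∪ Y := by
      by_contra h2
      refine hc ⟨θ, h, fun w hw s t ht e => h2 ⟨t, ht, ?_⟩⟩
      exact hw.imp (fun hw => mem_iUnion₂.2 ⟨w, hw, s, e.symm⟩)
        fun hw => mem_iUnion₂.2 ⟨w, hw, s, e.symm⟩
    obtain ⟨r, hr, b, c⟩ := first (cont1 G (p, θ)) (cX.union cY) ht m
    refine b.imp (fun b => ⟨r, hr.1, b, fun s hs h2 => ?_⟩) fun b => ⟨r, hr.1, b, fun s hs h2 => ?_⟩
    · rcases hs.2.lt_or_eq with l | rfl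
      · exact c s ⟨hs.1, l⟩ (.inr h2)
      · exact dis _ b h2
    · rcases hs.2.lt_or_eq with l | rfl
      · exact c s ⟨hs.1, l⟩ (.inl h2)
      · exact dis _ h2 b
  have n1 : ¬Fi G p X Y θ1 := by
    rintro ⟨t, ht, m, -⟩
    obtain ⟨a, ha, s, e⟩ := mem_iUnion₂.1 m
    exact r1 a ha s t ht e.symm
  have n2 : Fi G p X Y θ2 := (all θ2 (right_mem_Icc.2 hθ.le)).resolve_right (by
    rintro ⟨t, ht, m, -⟩
    obtain ⟨a, ha, s, e⟩ := mem_iUnion₂.1 m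
    exact r2 a ha s t ht e.symm)
  set T := {θ ∈ Icc θ1 θ2 | Fi G p X Y θ}
  have ne : T.Nonempty := ⟨θ2, right_mem_Icc.2 hθ.le, n2⟩
  have bd : BddBelow T := ⟨θ1, fun _ h => h.1.1⟩
  have c1 : θ1 ≤ sInf T := le_csInf ne fun _ h => h.1.1
  have c2 : sInf T ≤ θ2 := csInf_le bd ⟨right_mem_Icc.2 hθ.le, n2⟩
  rcases all _ ⟨c1, c2⟩ with h | h
  · have l : θ1 < sInf T := c1.lt_of_ne fun e => n1 (e ▸ h)
    obtain ⟨s, a, b⟩ := ((step (one_mul 1) hA sA cY h).and (Ioo_mem_nhdsGT (sub_pos.2 l))).exists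
    linarith [csInf_le bd ⟨⟨by linarith [b.2], by linarith [b.1]⟩, a⟩, b.1]
  · obtain ⟨δ, δ0, hδ⟩ := (nhdsGT_basis (0 : ℝ)).eventually_iff.1
      (step (e := -1) (by norm_num) hB sB cX h)
    have : sInf T + δ ≤ sInf T := le_csInf ne fun x hx => not_lt.1 fun l => by
      rcases (csInf_le bd hx).lt_or_eq with m | m
      · have := hδ (x := x - sInf T) ⟨by linarith, by linarith⟩
        rw [show sInf T - -1 * (x - sInf T) = x by ring] at this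
        exact excl hx.2 this
      · exact excl hx.2 (m ▸ h)
    linarith

end

end Pool.Agent.Lib.MP_21f752_an
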