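import Pool.Agent.Lib.MP_21f752_an.FG

/-! The two sides of a wall. -/

namespace Pool.Agent.Lib.MP_21f752_an

open UpperHalfPlane Set Filter Topology Metric
open scoped Real

namespace FSide

theorem ev_n {Θ : ℝ → ℍ} {x y : ℝ} {n : ℍ → ℤ} (h : Idx Θ x y n) {z : ℍ} (hz : z ∉ range Θ) :
    ∀ᶠ w in 𝓝 z, w ∉ range Θ ∧ n w = n z := by
  obtain ⟨A, sA, oA, zA, cA⟩ := locallyConnectedSpace_iff_subsets_isOpen_isConnected.1
    inferInstance z _ (h.cl.isOpen_compl.mem_nhds hz)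
  filter_upwards [oA.mem_nhds zA] with w hw
  exact ⟨sA hw, h.lc A cA.isPreconnected (disjoint_left.2 sA) w hw z zA⟩

theorem tend {σ : ℝ → ℍ} {u : ℂ} (h : HasDerivAt (fun s => (σ s : ℂ)) u 0) :
    Tendsto σ (𝓝[>] 0) (𝓝 (σ 0)) :=
  (isEmbedding_coe.isInducing.continuousAt_iff.2 h.continuousAt).tendsto.mono_left nhdsWithin_le_nhds

theorem line (z : ℍ) (u : ℂ) : ∃ σ : ℝ → ℍ, σ 0 = z ∧ HasDerivAt (fun s => (σ s : ℂ)) u 0 :=
  ⟨fun s => ofComplex (z + s * u), by simp, (hd_line z u).congr_of_eventuallyEq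
    ((ev_line z.im_pos u).mono fun s hs => by simp only [ofComplex_apply_of_im_pos hs])⟩

/-- a curve which meets both sides meets the wall -/
theorem cross {G : Geo} {ξ : N} {x y : ℝ} {L R : Set ℍ} (h : G.Sides ξ x y L R) {A : Set ℍ}
    (hA : IsPreconnected A) (hL : (A ∩ L).Nonempty) (hR : (A ∩ R).Nonempty) :
    ∃ t, G.o ξ t ∈ A := by
  by_contra c
  obtain ⟨z, -, a, b⟩ := hA L R h.oL h.oR (fun z hz => by
    rw [h.un]; rintro ⟨t, rfl⟩; exact c ⟨t, hz⟩) hL hR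
  exact disjoint_left.1 h.dis a b

end FSide

open FSide in
theorem side (hd : Disc) (hi : IdxSt) (hb : BaseSt) : SideSt := by
  intro G ξ x y W
  obtain ⟨n, h⟩ := hi _ x y ((hb G).line ξ x y W)
  have cV : Continuous fun t => G.V (G.φ t ξ) :=
    G.continuous_V.comp (G.continuous_φ.comp (continuous_id.prodMk continuous_const))
  choose m m1 m2 using fun t => h.jump t (fun t => G.V (G.φ t ξ)) (G.V_ne _) cV.continuousAt
    (Eventually.of_forall (G.hd_z ξ)) fun s e => (hb G).inj ξ e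
  have lc : IsLocallyConstant m := (IsLocallyConstant.iff_eventually_eq m).2 fun t0 => by
    filter_upwards [((hb G).line ξ x y W).cont.continuousAt.eventually
      (eventually_eventually_nhds.2 (m1 t0))] with t ht
    obtain ⟨σ, s0, s1⟩ := line (G.o ξ t) (Complex.I * G.V (G.φ t ξ))
    obtain ⟨τ, t0, t1⟩ := line (G.o ξ t) (-Complex.I * G.V (G.φ t ξ))
    obtain ⟨s, a, a'⟩ := (((m2 t σ _ s0 s1).1 (by simp [mul_div_cancel_right₀ _ (G.V_ne _)])).and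
      ((tend s1).eventually (s0 ▸ ht))).exists
    obtain ⟨r, b, b'⟩ := (((m2 t τ _ t0 t1).2 (by
      rw [mul_div_cancel_right₀ _ (G.V_ne _)]; simp)).and ((tend t1).eventually (t0 ▸ ht))).exists
    have := a' a.1
    have := b' b.1
    omega
  have mc : ∀ t, m t = m 0 := fun t => lc.apply_eq_of_preconnectedSpace t 0
  have cl : IsClopen {z | z ∉ range (G.o ξ) → n z = m 0 ∨ n z = m 0 + 1} := by
    refine ⟨isOpen_compl_iff.1 (isOpen_iff_mem_nhds.2 fun z hz => ?_),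
      isOpen_iff_mem_nhds.2 fun z hz => ?_⟩
    · obtain ⟨a, b⟩ := Classical.not_imp.1 hz
      filter_upwards [ev_n h a] with w hw c
      exact b (hw.2 ▸ c hw.1)
    · by_cases a : z ∈ range (G.o ξ)
      · obtain ⟨t, rfl⟩ := a
        exact mc t ▸ m1 t
      · filter_upwards [ev_n h a] with w hw _
        exact hw.2 ▸ hz a
  have al : ∀ z, z ∉ range (G.o ξ) → n z = m 0 ∨ n z = m 0 + 1 := fun z =>
    (cl.eq_univ ⟨_, fun c => (c ⟨0, rfl⟩).elim⟩).ge (mem_univ z)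
  have m0 : m 0 = -1 := by
    obtain ⟨ε, e, a⟩ := h.rt ((x + y) / 2) (by linarith [W.lt]) (by linarith [W.lt])
    obtain ⟨δ, d, b⟩ := h.lf ((y + (x + 2 * π)) / 2) (by linarith [W.lt2]) (by linarith [W.lt2])
    obtain ⟨z, hz⟩ := hd.ne _ ε e
    obtain ⟨w, hw⟩ := hd.ne _ δ d
    have := al z (a z hz).1
    have := al w (b w hw).1
    have := (a z hz).2
    have := (b w hw).2
    omega
  have op : ∀ P : ℤ → Prop, IsOpen {z | z ∉ range (G.o ξ) ∧ P (n z)} := fun P =>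
    isOpen_iff_mem_nhds.2 fun z hz => (ev_n h hz.1).mono fun w hw => ⟨hw.1, hw.2 ▸ hz.2⟩
  refine ⟨{z | z ∉ range (G.o ξ) ∧ 0 ≤ n z}, {z | z ∉ range (G.o ξ) ∧ n z < 0}, op (0 ≤ ·),
    op (· < 0), disjoint_left.2 fun z a b => a.2.not_gt b.2, ?_, fun l a b => ?_, fun l a b => ?_,
    fun t σ u a b => ⟨fun c => ?_, fun c => ?_⟩⟩
  · ext z
    exact ⟨fun a => a.elim (·.1) (·.1), fun a => (le_or_gt 0 (n z)).imp (⟨a, ·⟩) (⟨a, ·⟩)⟩
  · obtain ⟨ε, e, c⟩ := h.rt l a b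
    exact ⟨ε, e, fun z hz => ⟨(c z hz).1, by rw [(c z hz).2]; decide⟩⟩
  · obtain ⟨ε, e, c⟩ := h.lf l a b
    exact ⟨ε, e, fun z hz => ⟨(c z hz).1, (c z hz).2.ge⟩⟩
  · exact ((m2 t σ u a b).1 c).mono fun s hs => ⟨hs.1, by rw [hs.2, mc, m0]; decide⟩
  · exact ((m2 t σ u a b).2 c).mono fun s hs => ⟨hs.1, by rw [hs.2, mc, m0]; decide⟩

end Pool.Agent.Lib.MP_21f752_an
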