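import Pool.Agent.Lib.MP_21f752_an.FG

/-! Parallel walls are disjoint. -/

namespace Pool.Agent.Lib.MP_21f752_an

open UpperHalfPlane Set Filter Topology Metric
open scoped MatrixGroups Real

noncomputable section

namespace FT3

lemma ce_per (x : ℝ) : ce (x + 2 * π) = ce x := ce_eq_iff.2 ⟨1, by simp⟩

lemma ev_bl {c : ℝ → ℍ} {F : Filter ℝ} {l ε : ℝ} (h : Tendsto (fun t => cay (c t)) F (𝓝 (ce l)))
    (hε : 0 < ε) : ∀ᶠ t in F, c t ∈ Bl l ε :=
  (h.eventually (ball_mem_nhds _ hε)).mono fun _ ht => by simpa [Bl, dist_eq_norm] using ht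

/-- `c` up to time `a`, then `d` from time `b` on -/
def cat (c d : ℝ → ℍ) (a b t : ℝ) : ℍ := if t ≤ 0 then c (t + a) else d (t + b)

lemma cat_range (c d : ℝ → ℍ) (a b : ℝ) : range (cat c d a b) ⊆ c '' Iic a ∪ d '' Ici b := by
  rintro _ ⟨t, rfl⟩
  unfold cat
  split_ifs with h
  · exact .inl ⟨_, by simpa using h, rfl⟩
  · exact .inr ⟨_, by simpa using (not_le.1 h).le, rfl⟩

lemma line_cat {c d : ℝ → ℍ} {a b x y : ℝ} (hc : Continuous c) (hd : Continuous d) (e : c a = d b)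
    (h3 : Tendsto (fun t => cay (c t)) atBot (𝓝 (ce x)))
    (h4 : Tendsto (fun t => cay (d t)) atTop (𝓝 (ce y))) (h5 : x < y) (h6 : y < x + 2 * π) :
    Line (cat c d a b) x y where
  cont := Continuous.if_le (by fun_prop) (by fun_prop) continuous_id continuous_const
    fun t ht => by simp [show t = 0 from ht, e]
  lo := (h3.comp (tendsto_atBot_add_const_right _ a tendsto_id)).congr'
    ((eventually_le_atBot 0).mono fun t ht => by simp [cat, ht])
  hi := (h4.comp (tendsto_atTop_add_const_right _ b tendsto_id)).congr'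
    ((eventually_gt_atTop 0).mono fun t ht => by simp [cat, ht.not_ge])
  lt := h5
  lt2 := h6

/-- a connected set that misses a line does not accumulate on both arcs -/
lemma sep (hi : IdxSt) {Θ : ℝ → ℍ} {x y l l' : ℝ} (h : Line Θ x y) {A : Set ℍ}
    (hA : IsPreconnected A) (hd : Disjoint A (range Θ)) (h1 : x < l) (h2 : l < y) (h3 : y < l')
    (h4 : l' < x + 2 * π) (a : ∀ ε, 0 < ε → ∃ z ∈ A, z ∈ Bl l ε)
    (b : ∀ ε, 0 < ε → ∃ z ∈ A, z ∈ Bl l' ε) : False := by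
  obtain ⟨n, hn⟩ := hi Θ x y h
  obtain ⟨ε, e, k⟩ := hn.rt l h1 h2
  obtain ⟨ε', e', k'⟩ := hn.lf l' h3 h4
  obtain ⟨z, z1, z2⟩ := a ε e
  obtain ⟨w, w1, w2⟩ := b ε' e'
  have := hn.lc A hA hd z z1 w w1
  rw [(k z z2).2, (k' w w2).2] at this
  omega

lemma sign {f : ℝ → ℝ} {d a : ℝ} (h : HasDerivAt f d a) (h0 : f a = 0) (hd : 0 < d) :
    ∀ᶠ t in 𝓝 a, (t < a → f t < 0) ∧ (a < t → 0 < f t) := by
  have := (hasDerivAt_iff_tendsto_slope.1 h).eventually (lt_mem_nhds hd)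
  rw [eventually_nhdsWithin_iff] at this
  filter_upwards [this] with t ht
  rw [slope_def_field, h0, sub_zero] at ht
  exact ⟨fun e => ((div_pos_iff.1 (ht e.ne)).resolve_left fun x => by linarith [x.2]).1,
    fun e => ((div_pos_iff.1 (ht e.ne')).resolve_right fun x => by linarith [x.2]).1⟩

lemma half (q : ℍ) (ρ : ℝ) (w : ℂ) :
    IsPreconnected {z : ℍ | z ∈ ball q ρ ∧ 0 < (((z : ℂ) - q) * w).re} := by
  rw [← isEmbedding_coe.isInducing.isPreconnected_image]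
  have : ((↑) : ℍ → ℂ) '' {z : ℍ | z ∈ ball q ρ ∧ 0 < (((z : ℂ) - q) * w).re} =
      (((↑) : ℍ → ℂ) '' ball q ρ) ∩ {z : ℂ | ((q : ℂ) * w).re < (z * w).re} := by
    ext z
    simp only [mem_image, mem_ofPred_eq, mem_inter_iff, sub_mul, Complex.sub_re, sub_pos]
    exact ⟨fun ⟨u, ⟨a, b⟩, e⟩ => ⟨⟨u, a, e⟩, e ▸ b⟩, fun ⟨⟨u, a, e⟩, b⟩ => ⟨u, ⟨a, e ▸ b⟩, e⟩⟩
  rw [this, image_coe_ball]
  refine ((convex_ball _ _).inter (convex_halfSpace_gt ⟨fun a b => ?_, fun a b => ?_⟩ _)).isPreconnected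
  · simp [add_mul]
  · simp [mul_assoc]

lemma cont_o (G : Geo) (ξ : N) : Continuous (G.o ξ) :=
  (G.continuous_φ.comp (continuous_id.prodMk continuous_const)).fst

lemma same (G : Geo) {ξ η : N} {s t : ℝ} {k : ℤ} (h : G.φ s ξ = rot (k * (2 * π)) (G.φ t η))
    (r : ℝ) : G.o ξ (r + s) = G.o η (r + t) := by
  simp only [Geo.o]
  rw [Sys.φ_add, Sys.φ_add, h, Sys.φ_rot]
  rfl

lemma same' (G : Geo) {ξ η : N} {s t : ℝ} (e : G.o ξ s = G.o η t)
    (h : G.V (G.φ s ξ) = G.V (G.φ t η)) (r : ℝ) : G.o ξ (r + s) = G.o η (r + t) := by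
  have : ce (G.φ s ξ).2 = ce (G.φ t η).2 := by
    simp only [Sys.V, Sys.vv, emb] at h
    rw [show (G.φ s ξ).1 = (G.φ t η).1 from e] at h
    exact mul_left_cancel₀ (Complex.ofReal_ne_zero.2 (Real.exp_pos _).ne') h
  obtain ⟨k, hk⟩ := ce_eq_iff.1 this
  exact same G (k := k) (Prod.ext e hk) r

lemma re_pos {a b : ℂ} (h : ‖a‖ = ‖b‖) (n : a ≠ b) : 0 < (a * (starRingEnd ℂ) (a - b)).re := by
  have h1 := Complex.normSq_pos.2 (sub_ne_zero.2 n)
  have h2 : Complex.normSq a = Complex.normSq b := by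
    rw [Complex.normSq_eq_norm_sq, Complex.normSq_eq_norm_sq, h]
  simp only [Complex.normSq_apply, Complex.mul_re, Complex.conj_re, Complex.conj_im, Complex.sub_re,
    Complex.sub_im] at *
  nlinarith

end FT3

open FT3 in
theorem t3 (hi : IdxSt) (hb : BaseSt) : T3St := by
  intro G ξ η x y x' y' w1 w2 o1 o2 s0 t0 e0
  have B := hb G
  obtain ⟨n, hn⟩ := hi _ _ _ (B.line ξ x y w1)
  have cl : IsClosed (G.o η ⁻¹' range (G.o ξ)) := hn.cl.preimage (cont_o G η)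
  have ne : (G.o η ⁻¹' range (G.o ξ)).Nonempty := ⟨t0, s0, e0⟩
  obtain ⟨t1, ⟨s1, e1⟩, m1⟩ : ∃ t, IsLeast (G.o η ⁻¹' range (G.o ξ)) t := by
    obtain ⟨ε, a, b⟩ := hn.lf (x' + 2 * π) (o2.trans w2.lt2) (by linarith)
    obtain ⟨T, hT⟩ := eventually_atBot.1 (ev_bl (c := G.o η) (l := x' + 2 * π)
      (by rw [ce_per]; exact w2.m) a)
    exact ⟨_, cl.isLeast_csInf ne ⟨T, fun t ht => le_of_not_ge fun h => (b _ (hT t h)).1 ht⟩⟩
  obtain ⟨t2, ⟨s2, e2⟩, m2⟩ : ∃ t, IsGreatest (G.o η ⁻¹' range (G.o ξ)) t := by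
    obtain ⟨ε, a, b⟩ := hn.lf y' o2 (by linarith [w2.lt2])
    obtain ⟨T, hT⟩ := eventually_atTop.1 (ev_bl w2.p a)
    exact ⟨_, cl.isGreatest_csSup ne ⟨T, fun t ht => le_of_not_ge fun h => (b _ (hT t h)).1 ht⟩⟩
  have ns : ¬∀ r, G.o ξ (r + s1) = G.o η (r + t1) := fun h => by
    linarith [m1 ⟨_, h (-1)⟩]
  have L := line_cat (cont_o G η) (cont_o G ξ) e1.symm w2.m w1.p (o1.trans w1.lt)
    (o2.trans w2.lt2)
  have key : ∀ (H : Set ℍ) (s t : ℝ), IsPreconnected H → G.o ξ s ∈ H → G.o η t ∈ H → s < s1 →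
      t1 < t → (∀ u, t ≤ u → ∀ v, s1 ≤ v → G.o ξ v ≠ G.o η u) →
      Disjoint H (G.o η '' Iic t1 ∪ G.o ξ '' Ici s1) → False := by
    intro H s t a b c d e f g
    refine sep hi L (A := G.o ξ '' Iic s ∪ H ∪ G.o η '' Ici t)
      (((isPreconnected_Iic.image _ (cont_o G ξ).continuousOn).union _
        (mem_image_of_mem _ self_mem_Iic) b a).union _ (.inr c) (mem_image_of_mem _ self_mem_Ici)
          (isPreconnected_Ici.image _ (cont_o G η).continuousOn))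
      (Disjoint.mono_right (cat_range ..) ?_) o1 w1.lt o2 w2.lt2 (fun ε h => ?_) fun ε h => ?_
    · refine disjoint_union_left.2 ⟨disjoint_union_left.2 ⟨?_, g⟩, ?_⟩
      · rw [Set.disjoint_left]
        rintro _ ⟨u, hu, rfl⟩ (⟨v, hv, k⟩ | ⟨v, hv, k⟩)
        · have : v = t1 := le_antisymm hv (m1 ⟨u, k.symm⟩)
          rw [this, ← e1] at k
          exact absurd (B.inj ξ k ▸ hu : s1 ≤ s) d.not_ge
        · exact absurd (le_trans hv (B.inj ξ k ▸ hu : v ≤ s)) d.not_ge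
      · rw [Set.disjoint_left]
        rintro _ ⟨u, hu, rfl⟩ (⟨v, hv, k⟩ | ⟨v, hv, k⟩)
        · exact absurd (le_trans hu (B.inj η k ▸ hv : u ≤ t1)) e.not_ge
        · exact f u hu v hv k
    · obtain ⟨u, u1, u2⟩ := ((ev_bl w1.m h).and (eventually_le_atBot s)).exists
      exact ⟨_, .inl (.inl ⟨u, u2, rfl⟩), u1⟩
    · obtain ⟨u, u1, u2⟩ := ((ev_bl w2.p h).and (eventually_ge_atTop t)).exists
      exact ⟨_, .inr ⟨u, u2, rfl⟩, u1⟩
  rcases (m1 ⟨s2, e2⟩).eq_or_lt with h | h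
  · subst h
    set q := G.o η t1 with hq
    set a := G.V (G.φ t1 η)
    set b := G.V (G.φ s1 ξ)
    have n1 : ‖a‖ = ‖b‖ := by
      rw [Sys.norm_V, Sys.norm_V, show (G.φ s1 ξ).1 = (G.φ t1 η).1 from e1]
    have n2 : a ≠ b := fun h => ns (same' G e1 h.symm)
    have d1 := sign (hd_re (((G.hd_z η t1).sub_const (q : ℂ)).mul_const ((starRingEnd ℂ) (a - b))))
      (by simp [hq]) (re_pos n1 n2)
    have d2 := sign (hd_re (((G.hd_z ξ s1).sub_const (q : ℂ)).mul_const ((starRingEnd ℂ) (b - a))))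
      (by simp [← e1]) (re_pos n1.symm n2.symm)
    have fl : ∀ z : ℂ, (z * (starRingEnd ℂ) (b - a)).re = -(z * (starRingEnd ℂ) (a - b)).re :=
      fun z => by rw [← neg_sub a b, map_neg, mul_neg, Complex.neg_re]
    simp only [fl, neg_lt_zero, neg_pos] at d2
    obtain ⟨δ1, p1, k1⟩ := Metric.eventually_nhds_iff.1 d1
    obtain ⟨δ2, p2, k2⟩ := Metric.eventually_nhds_iff.1 d2
    obtain ⟨ρ, r0, hρ⟩ := G.nr (min δ1 δ2) (lt_min p1 p2)
    have far : ∀ ζ u v, dist (G.o ζ u) (G.o ζ v) < ρ → dist u v < min δ1 δ2 := fun ζ u v h => by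
      by_contra! hc
      have := hρ (G.φ v ζ) (u - v) hc
      rw [← Sys.φ_add, sub_add_cancel] at this
      exact h.not_ge this
    obtain ⟨t, ⟨u1, u2⟩, u3⟩ := (((d1.and ((cont_o G η).continuousAt.eventually
      (ball_mem_nhds q r0))).filter_mono nhdsWithin_le_nhds).and
        (self_mem_nhdsWithin (s := Ioi t1))).exists
    obtain ⟨s, ⟨v1, v2⟩, v3⟩ := (((d2.and ((cont_o G ξ).continuousAt.eventually
      (ball_mem_nhds _ r0))).filter_mono nhdsWithin_le_nhds).and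
        (self_mem_nhdsWithin (s := Iio s1))).exists
    refine key _ s t (half q ρ ((starRingEnd ℂ) (a - b))) ⟨e1 ▸ v2, v1.1 v3⟩
      ⟨u2, u1.2 u3⟩ v3 u3 (fun u hu v _ k => ?_) ?_
    · exact absurd (m2 ⟨v, k⟩) (not_le.2 (lt_of_lt_of_le u3 hu))
    · rw [Set.disjoint_left]
      rintro z ⟨z1, z2⟩ (⟨v, hv, rfl⟩ | ⟨v, hv, rfl⟩)
      · rcases (show v ≤ t1 from hv).eq_or_lt with e | e
        · simp [e, hq] at z2
        · exact z2.not_gt ((k1 ((far η v t1 z1).trans_le (min_le_left _ _))).1 e)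
      · rcases (show s1 ≤ v from hv).eq_or_lt with e | e
        · simp [← e, e1] at z2
        · exact z2.not_gt ((k2 ((far ξ v s1 (e1 ▸ z1)).trans_le (min_le_right _ _))).2 e)
  · have lt : s2 < s1 := by
      rcases lt_trichotomy s1 s2 with c | c | c
      · obtain ⟨k, hk⟩ := B.f5 ξ η s1 s2 t1 t2 c h e1 e2
        exact absurd (same G hk) ns
      · exact absurd (B.inj η (e1.symm.trans (c ▸ e2))) h.ne
      · exact c
    have f : ∀ u, t2 ≤ u → ∀ v, s1 ≤ v → G.o ξ v ≠ G.o η u := fun u hu v hv k => by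
      rw [le_antisymm (m2 ⟨v, k⟩) hu, ← e2] at k
      linarith [B.inj ξ k]
    refine key {G.o η t2} s2 t2 isPreconnected_singleton e2 rfl lt h f ?_
    rw [disjoint_singleton_left]
    rintro (⟨v, hv, k⟩ | ⟨v, hv, k⟩)
    · exact absurd (B.inj η k ▸ hv : t2 ≤ t1) h.not_ge
    · exact f t2 le_rfl v hv k

end

end Pool.Agent.Lib.MP_21f752_an
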