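import Pool.Agent.Lib.MP_21f752_an.FG

/-! Walls whose ends stay away from a shielded point do not come close to it. -/

namespace Pool.Agent.Lib.MP_21f752_an

open UpperHalfPlane Set Filter Topology Metric MeasureTheory
open scoped MatrixGroups ContDiff Real

noncomputable section

namespace FV1

variable {G : Geo}

lemma opn (hD : Disc) (l ε : ℝ) : IsOpen (Bl l ε) :=
  isOpen_lt ((hD.emb.continuous.sub continuous_const).norm) continuous_const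

lemma mono {l ε ε' : ℝ} (h : ε ≤ ε') : Bl l ε ⊆ Bl l ε' := fun _ hz => lt_of_lt_of_le hz h

lemma per (l ε : ℝ) (k : ℤ) : Bl (l + k * (2 * π)) ε = Bl l ε := by
  simp only [Bl, ce_add, ce_int, mul_one]

lemma cont_o (ξ : N) : Continuous (G.o ξ) :=
  (G.continuous_φ.comp (continuous_id.prodMk continuous_const)).fst

lemma o_gg {γ : SL(2, ℝ)} (hγ : γ ∈ G.Γ) (k : ℤ) (ξ : N) (t : ℝ) :
    G.o (gg γ (k * (2 * π)) ξ) t = γ • G.o ξ t := by
  simp only [Geo.o, G.φ_gg hγ]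
  rfl

lemma o_rot (k : ℤ) (ξ : N) (t : ℝ) : G.o (rot (k * (2 * π)) ξ) t = G.o ξ t := by
  simp only [Geo.o, G.φ_rot]
  rfl

lemma o_φ (ξ : N) (s t : ℝ) : G.o (G.φ s ξ) t = G.o ξ (t + s) := by
  simp only [Geo.o, G.φ_add]

lemma evP {ξ : N} {y ε : ℝ} (h : G.EndP ξ y) (he : 0 < ε) : ∀ᶠ t in atTop, G.o ξ t ∈ Bl y ε := by
  filter_upwards [(Metric.tendsto_nhds.1 h) ε he] with t ht
  rwa [dist_eq_norm] at ht

lemma evM {ξ : N} {y ε : ℝ} (h : G.EndM ξ y) (he : 0 < ε) : ∀ᶠ t in atBot, G.o ξ t ∈ Bl y ε := by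
  filter_upwards [(Metric.tendsto_nhds.1 h) ε he] with t ht
  rwa [dist_eq_norm] at ht

lemma lift_inv {γ : SL(2, ℝ)} {g : ℝ ≃o ℝ} (h : Lift γ g) : Lift γ⁻¹ g⁻¹ := by
  refine ⟨fun t => g.injective ?_, fun l ε e => ?_, fun l ε e => ?_⟩
  · rw [h.per]
    simp
  · simpa using h.bw (g⁻¹ l) ε e
  · simpa using h.fw (g⁻¹ l) ε e

lemma cross {c : ℝ → ℍ} (hc : Continuous c) {A B M : Set ℍ} (oA : IsOpen A) (oB : IsOpen B)
    (dis : Disjoint A B) (un : A ∪ B = Mᶜ) {s t : ℝ} (hs : c s ∈ A) (ht : c t ∈ B) :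
    ∃ u ∈ uIcc s t, u ≠ s ∧ u ≠ t ∧ c u ∈ M := by
  have h1 : c s ∉ M := by
    have : c s ∈ A ∪ B := Or.inl hs
    rwa [un] at this
  have h2 : c t ∉ M := by
    have : c t ∈ A ∪ B := Or.inr ht
    rwa [un] at this
  by_contra hn
  have hsub : c '' uIcc s t ⊆ A ∪ B := by
    rintro _ ⟨u, hu, rfl⟩
    rw [un]
    intro hM
    exact hn ⟨u, hu, fun e => h1 (e ▸ hM), fun e => h2 (e ▸ hM), hM⟩
  have := (isPreconnected_uIcc.image c hc.continuousOn).subset_left_of_subset_union oA oB dis hsub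
    ⟨c s, ⟨s, left_mem_uIcc, rfl⟩, hs⟩
  exact Set.disjoint_left.1 dis (this ⟨t, right_mem_uIcc, rfl⟩) ht

/-- defect in the triangle inequality -/
def E (G : Geo) (p q z : ℍ) : ℝ := G.Ph p q + G.Ph q z - G.Ph p z

/-- the symmetrised potential -/
def D (G : Geo) (p q : ℍ) : ℝ := G.Ph p q + G.Ph q p

lemma E_inv {γ : SL(2, ℝ)} (hγ : γ ∈ G.Γ) (p q z : ℍ) : E G (γ • p) (γ • q) (γ • z) = E G p q z := by
  simp only [E, G.eqv γ hγ]
  ring

lemma D_inv {γ : SL(2, ℝ)} (hγ : γ ∈ G.Γ) (p q : ℍ) : D G (γ • p) (γ • q) = D G p q := by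
  simp only [D, G.eqv γ hγ]
  ring

lemma corner (hD : Disc) {m : N} {y e τ : ℝ} (hm : G.EndP m y) (he : 0 < e) (hτ : 0 < τ) (T : ℝ) :
    ∃ δ, 0 < δ ∧ ∀ t ∈ Icc (-T) T, ∀ ξ : N, ξ.1 = G.o m t → (∀ s, G.o ξ s ∉ Bl y e) →
      δ ≤ E G (G.o ξ (-1)) (G.o m t) (G.o m (t + τ)) := by
  have c0 : Continuous fun v : ℝ × ℝ => G.o m v.1 := (cont_o m).comp continuous_fst
  have c1 : ∀ s, Continuous fun v : ℝ × ℝ => G.o (G.o m v.1, v.2) s := fun s =>
    (G.continuous_φ.comp (continuous_const.prodMk (c0.prodMk continuous_snd))).fst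
  have c2 : Continuous fun v : ℝ × ℝ => G.o m (v.1 + τ) :=
    (cont_o m).comp (continuous_fst.add continuous_const)
  have hK : IsCompact ((Icc (-T) T ×ˢ Icc 0 (2 * π)) ∩
      ⋂ s, {v : ℝ × ℝ | G.o (G.o m v.1, v.2) s ∉ Bl y e}) :=
    (isCompact_Icc.prod isCompact_Icc).inter_right
      (isClosed_iInter fun s => ((opn hD y e).preimage (c1 s)).isClosed_compl)
  have cE : Continuous fun v : ℝ × ℝ =>
      E G (G.o (G.o m v.1, v.2) (-1)) (G.o m v.1) (G.o m (v.1 + τ)) :=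
    ((G.cont.comp ((c1 _).prodMk c0)).add (G.cont.comp (c0.prodMk c2))).sub
      (G.cont.comp ((c1 _).prodMk c2))
  obtain ⟨δ, hδ, h⟩ := hK.exists_forall_le' cE.continuousOn (a := 0) (by
    rintro ⟨t, θ⟩ ⟨-, hv⟩
    have hv' : ∀ s, G.o (G.o m t, θ) s ∉ Bl y e := fun s => mem_iInter.1 hv s
    have hne : ce θ ≠ ce (G.φ t m).2 := by
      intro h
      obtain ⟨k, hk⟩ := ce_eq_iff.1 h
      have h1 : ((G.o m t, θ) : N) = rot (k * (2 * π)) (G.φ t m) := Prod.ext rfl hk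
      obtain ⟨s, hs⟩ := ((tendsto_atTop_add_const_right atTop t tendsto_id).eventually
        (evP hm he)).exists
      refine hv' s ?_
      rw [h1, o_rot, o_φ]
      exact hs
    have := G.cc (G.o m t) θ (G.φ t m).2 1 τ hne one_pos hτ
    have h2 : G.φ τ (G.o m t, (G.φ t m).2) = G.φ (t + τ) m := by
      rw [add_comm, G.φ_add]
    rw [h2] at this
    simp only [E]
    linarith)
  refine ⟨δ, hδ, fun t ht ξ h1 h2 => ?_⟩
  have hp : 0 < 2 * π := by positivity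
  have hm' := sub_toIcoDiv_zsmul_mem_Ico hp 0 ξ.2
  simp only [zsmul_eq_mul, zero_add] at hm'
  have h3 : ξ = rot (toIcoDiv hp 0 ξ.2 * (2 * π)) (G.o m t, ξ.2 - toIcoDiv hp 0 ξ.2 * (2 * π)) :=
    Prod.ext h1 (by simp [rot])
  have h4 : ∀ s, G.o ξ s = G.o (G.o m t, ξ.2 - toIcoDiv hp 0 ξ.2 * (2 * π)) s := fun s => by
    conv_lhs => rw [h3]
    rw [o_rot]
  rw [h4]
  exact h (t, ξ.2 - toIcoDiv hp 0 ξ.2 * (2 * π))
    ⟨⟨ht, Ico_subset_Icc_self hm'⟩, mem_iInter.2 fun s => by rw [mem_ofPred_eq, ← h4]; exact h2 s⟩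

/-- a long excursion between two points of a wall has a uniform corner -/
lemma drop (hD : Disc) (hB : G.Base) {m : N} {y e : ℝ} (hm : G.EndP m y) (he : 0 < e) (T : ℝ) :
    ∃ δ, 0 < δ ∧ ∀ (w : N) (a b : ℝ), ∀ t1 ∈ Icc (-T) T, ∀ t2 ∈ Icc (-T) T, a + 1 ≤ b →
      G.o w a = G.o m t1 → G.o w b = G.o m t2 → (∀ s, G.o w s ∉ Bl y e) →
      δ ≤ E G (G.o w (b - 1)) (G.o w b) (G.o w a) := by
  obtain ⟨r, hr, hn⟩ := G.nr 1 one_pos
  obtain ⟨τ, hτ, hu⟩ := Metric.uniformContinuousOn_iff.1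
    (isCompact_Icc.uniformContinuousOn_of_continuous (cont_o (G := G) m).continuousOn
      (s := Icc (-T) T)) r hr
  obtain ⟨δ, hδ, hc⟩ := corner hD hm he hτ T
  refine ⟨δ, hδ, fun w a b t1 h1 t2 h2 hab ha hb hw => ?_⟩
  have hd : r ≤ dist (G.o m t2) (G.o m t1) := by
    have := hn (G.φ a w) (b - a) (by rw [abs_of_pos (by linarith)]; linarith)
    rw [← G.φ_add, sub_add_cancel] at this
    rw [← ha, ← hb]
    exact this
  have hlt : t2 ≤ t1 := by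
    by_contra hlt
    obtain ⟨k, hk⟩ := hB.f5 w m a b t1 t2 (by linarith) (not_le.1 hlt) ha hb
    obtain ⟨s, hs⟩ := ((tendsto_atTop_add_const_right atTop t1 tendsto_id).eventually
      (evP hm he)).exists
    refine hw (s + a) ?_
    rw [← o_φ, hk, o_rot, o_φ]
    exact hs
  have hτ' : t2 + τ ≤ t1 := by
    by_contra hh
    have := hu t2 h2 t1 h1 (by rw [Real.dist_eq, abs_lt]; constructor <;> linarith)
    linarith
  have h3 := hc t2 h2 (G.φ b w) hb (fun s => by rw [o_φ]; exact hw _)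
  rw [o_φ, show -1 + b = b - 1 by ring] at h3
  have h4 := G.act m t2 (t2 + τ) t1 (by linarith) hτ'
  have h5 := G.tri (G.o w (b - 1)) (G.o m (t2 + τ)) (G.o m t1)
  rw [ha, hb]
  simp only [E] at h3 ⊢
  simp only [Geo.o] at h3 h5 ⊢
  linarith

lemma core (hD : Disc) (hB : G.Base) {m : N} {x y l e : ℝ} (hm : G.Wl m x y) (he : 0 < e)
    {A B : Set ℍ} (oA : IsOpen A) (oB : IsOpen B) (dis : Disjoint A B)
    (un : A ∪ B = (range (G.o m))ᶜ) (W : Set N)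
    (hg : ∀ ε, 0 < ε → ∃ β ∈ G.Γ, (∀ u, u ∉ Bl l ε → β • u ∈ A) ∧
      (∃ δ, 0 < δ ∧ ∀ z ∈ Bl l δ, β • z ∈ B) ∧
      ∀ w ∈ W, (∀ s, β • G.o w s ∉ Bl x e ∧ β • G.o w s ∉ Bl y e) ∧
        (∀ᶠ s in atTop, β • G.o w s ∈ A) ∧ ∀ᶠ s in atBot, β • G.o w s ∈ A) :
    ∃ ε, 0 < ε ∧ ∀ w ∈ W, ¬G.Nr w l ε := by
  obtain ⟨T1, hT1⟩ := eventually_atTop.1 (evP hm.p he)
  obtain ⟨T2, hT2⟩ := eventually_atBot.1 (evM hm.m he)
  obtain ⟨T, hT⟩ : ∃ T, ∀ t, G.o m t ∉ Bl x e → G.o m t ∉ Bl y e → t ∈ Icc (-T) T := by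
    refine ⟨max T1 (-T2), fun t h1 h2 => ⟨?_, ?_⟩⟩
    · by_contra h
      have := le_max_right T1 (-T2)
      exact h1 (hT2 t (by linarith))
    · by_contra h
      have := le_max_left T1 (-T2)
      exact h2 (hT1 t (by linarith))
  obtain ⟨δ, hδ, hdr⟩ := drop hD hB hm.p he T
  have c1 : Continuous fun v : ℝ × ℝ => G.o m v.1 := (cont_o m).comp continuous_fst
  have c2 : Continuous fun v : ℝ × ℝ => G.o m v.2 := (cont_o m).comp continuous_snd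
  obtain ⟨Dm, hDm⟩ := ((isCompact_Icc (a := -T) (b := T)).prod
    (isCompact_Icc (a := -T) (b := T))).exists_bound_of_continuousOn
    (f := fun v => D G (G.o m v.1) (G.o m v.2))
    ((G.cont.comp (c1.prodMk c2)).add (G.cont.comp (c2.prodMk c1))).continuousOn
  obtain ⟨R1, hR1⟩ := (isCompact_Icc (a := -T) (b := T)).exists_bound_of_continuousOn
    (f := fun t => dist (G.o m t) UpperHalfPlane.I) ((cont_o m).dist continuous_const).continuousOn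
  obtain ⟨D1, hD1, hd1⟩ := G.toSys.disp 1
  have cβ : ∀ (β : SL(2, ℝ)) (w : N), Continuous fun s => β • G.o w s := fun β w =>
    (continuous_const_smul β).comp (cont_o w)
  have key : ∀ n : ℕ, ∃ ε, 0 < ε ∧ ∃ β ∈ G.Γ,
      (∀ w ∈ W, ∀ s, β • G.o w s ∉ Bl x e ∧ β • G.o w s ∉ Bl y e) ∧
      ∀ w ∈ W, ∀ s0, G.o w s0 ∈ Bl l ε → ∃ a b, a < s0 ∧ s0 < b ∧ β • G.o w a ∈ range (G.o m) ∧
        β • G.o w b ∈ range (G.o m) ∧ D G (G.o w a) (G.o w b) ≤ Dm - n * δ := by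
    intro n
    induction n with
    | zero =>
      obtain ⟨β, hβ, -, ⟨ε, hε, hb⟩, hw⟩ := hg 1 one_pos
      refine ⟨ε, hε, β, hβ, fun w h => (hw w h).1, fun w h s0 hs => ?_⟩
      obtain ⟨b0, hb0, hb1⟩ := ((hw w h).2.1.and (eventually_gt_atTop s0)).exists
      obtain ⟨a0, ha0, ha1⟩ := ((hw w h).2.2.and (eventually_lt_atBot s0)).exists
      obtain ⟨a, ha, -, ha2, t1, ha3⟩ := cross (cβ β w) oA oB dis un ha0 (hb _ hs)
      obtain ⟨b, hb', -, hb2, t2, hb3⟩ := cross (cβ β w) oA oB dis un hb0 (hb _ hs)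
      rw [uIcc_of_le ha1.le] at ha
      rw [uIcc_of_ge hb1.le] at hb'
      refine ⟨a, b, lt_of_le_of_ne ha.2 ha2, lt_of_le_of_ne hb'.1 (Ne.symm hb2), ⟨t1, ha3⟩,
        ⟨t2, hb3⟩, ?_⟩
      have h1 := hT t1 (ha3 ▸ ((hw w h).1 a).1) (ha3 ▸ ((hw w h).1 a).2)
      have h2 := hT t2 (hb3 ▸ ((hw w h).1 b).1) (hb3 ▸ ((hw w h).1 b).2)
      have := (le_abs_self _).trans (hDm (t1, t2) ⟨h1, h2⟩)
      rw [← D_inv hβ, ← ha3, ← hb3]
      simpa using this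
    | succ n ih =>
      obtain ⟨ε, hε, β, hβ, hav, hw⟩ := ih
      obtain ⟨ε1, hε1, hf⟩ := hD.far (β⁻¹ • UpperHalfPlane.I) (R1 + D1)
      obtain ⟨β', hβ', hA, ⟨ε2, hε2, hb⟩, hw'⟩ := hg ε1 hε1
      refine ⟨min ε ε2, lt_min hε hε2, β', hβ', fun w h => (hw' w h).1, fun w h s0 hs => ?_⟩
      obtain ⟨a, b, ha, hb', ⟨t1, ha1⟩, ⟨t2, hb1⟩, hle⟩ := hw w h s0 (mono (min_le_left _ _) hs)
      have hs0 := hb _ (mono (min_le_right _ _) hs)
      have h1 := hT t1 (ha1 ▸ (hav w h a).1) (ha1 ▸ (hav w h a).2)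
      have h2 := hT t2 (hb1 ▸ (hav w h b).1) (hb1 ▸ (hav w h b).2)
      have near : ∀ s u t, t ∈ Icc (-T) T → G.o m t = β • G.o w u → |s - u| ≤ 1 →
          β' • G.o w s ∈ A := by
        intro s u t ht hu hsu
        refine hA _ fun hh => ?_
        have e1 := hf l _ hh
        have e2 := (le_abs_self _).trans (hR1 t ht)
        have e3 := hd1 w u s hsu
        rw [← dist_smul β, smul_inv_smul] at e1
        rw [← dist_smul β] at e3
        rw [hu] at e2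
        have := dist_triangle (β • G.o w s) (β • G.o w u) UpperHalfPlane.I
        simp only [Geo.o] at e1 e2 this
        linarith
      have hs1 : s0 < b - 1 := by
        by_contra hh
        exact Set.disjoint_left.1 dis
          (near s0 b t2 h2 hb1 (by rw [abs_le]; constructor <;> linarith)) hs0
      obtain ⟨a', ha', -, ha2, ha3⟩ := cross (cβ β' w) oA oB dis un
        (near a a t1 h1 ha1 (by simp)) hs0
      obtain ⟨b', hb'', -, hb2, hb3⟩ := cross (cβ β' w) oA oB dis un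
        (near (b - 1) b t2 h2 hb1 (by simp)) hs0
      rw [uIcc_of_le ha.le] at ha'
      rw [uIcc_of_ge hs1.le] at hb''
      refine ⟨a', b', lt_of_le_of_ne ha'.2 ha2, lt_of_le_of_ne hb''.1 (Ne.symm hb2), ha3, hb3, ?_⟩
      have e0 := hdr (gg β ((0 : ℤ) * (2 * π)) w) a b t1 h1 t2 h2 (by linarith)
        (by rw [o_gg hβ, ha1]) (by rw [o_gg hβ, hb1]) (fun s => by rw [o_gg hβ]; exact (hav w h s).2)
      rw [o_gg hβ, o_gg hβ, o_gg hβ, E_inv hβ] at e0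
      have e1 := G.act w a a' b ha'.1 (by linarith [ha'.2])
      have e2 := G.act w a' b' b (ha'.2.trans hb''.1) (by linarith [hb''.2])
      have e3 := G.act w b' (b - 1) b hb''.2 (by linarith)
      have e4 := G.tri (G.o w b') (G.o w (b - 1)) (G.o w a')
      have e5 := G.tri (G.o w (b - 1)) (G.o w a) (G.o w a')
      simp only [D, E, Geo.o] at e0 e4 e5 hle ⊢
      push_cast
      linarith
  obtain ⟨n, hn⟩ := exists_nat_gt (Dm / δ)
  obtain ⟨ε, hε, β, -, -, hw⟩ := key n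
  refine ⟨ε, hε, fun w h ⟨s0, hs⟩ => ?_⟩
  obtain ⟨a, b, -, -, -, -, hle⟩ := hw w h s0 hs
  have := G.nn (G.o w a) (G.o w b)
  rw [div_lt_iff₀ hδ] at hn
  simp only [D] at hle
  linarith

lemma ctr_mono {g : ℝ ≃o ℝ} {r a ε ε' : ℝ} (h : Ctr g r a ε) (hε : ε ≤ ε') : Ctr g r a ε' :=
  fun t h1 h2 => (h t (by linarith) (by linarith)).trans_le hε

lemma pull {g : ℝ ≃o ℝ} {r l δ x : ℝ} (hp : ∀ t, g (t + 2 * π) = g t + 2 * π) (h : Ctr g r l δ)
    (hδ : δ ≤ π) (h1 : l - 2 * π + δ ≤ x) (h2 : x ≤ l - δ) : |g⁻¹ x - r| < δ := by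
  have e : g (g⁻¹ x) = x := by simp
  have a1 := abs_lt.1 (h (r + δ) le_rfl (by linarith))
  have a2 := abs_lt.1 (h (r + 2 * π - δ) (by linarith) le_rfl)
  rw [abs_lt]
  constructor
  · by_contra hh
    have : g (g⁻¹ x + 2 * π) ≤ g (r + 2 * π - δ) := g.monotone (by linarith)
    rw [hp, e] at this
    linarith
  · by_contra hh
    have : g (r + δ) ≤ g (g⁻¹ x) := g.monotone (by linarith)
    rw [e] at this
    linarith

lemma anti (hD : Disc) (hM : Mob) (hB : G.Base) {m : N} {x y l e r ρ εr η : ℝ} (hm : G.Wl m x y)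
    (he : 0 < e) (hρ : 0 < ρ) (hεr : 0 < εr) (hη : 0 < η) {A B : Set ℍ} (oA : IsOpen A)
    (oB : IsOpen B) (dis : Disjoint A B) (un : A ∪ B = (range (G.o m))ᶜ) (hA : Bl r εr ⊆ A) (k : ℤ)
    (hsh : ∀ w x' y', G.Wl w x' y' → |x' - r| < ρ → |y' - k * (2 * π) - r| < ρ →
      ¬G.Nr w x e ∧ ¬G.Nr w y e)
    (hg : ∀ ε, 0 < ε → ∃ g ∈ GG G.Γ, Ctr g r l ε ∧ ∃ ε', 0 < ε' ∧ Bl (g⁻¹ l) ε' ⊆ B) :
    ∃ ε, 0 < ε ∧ ∀ w x' y', G.Wl w x' y' → x' ∈ Icc (l - 2 * π + η) (l - η) →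
      y' - k * (2 * π) ∈ Icc (l - 2 * π + η) (l - η) → ¬G.Nr w l ε := by
  obtain ⟨ε, hε, h⟩ := core (l := l) hD hB hm he oA oB dis un
    {w | ∃ x' y', G.Wl w x' y' ∧ x' ∈ Icc (l - 2 * π + η) (l - η) ∧
      y' - k * (2 * π) ∈ Icc (l - 2 * π + η) (l - η)} (by
    intro ε hε
    obtain ⟨δ, hδ, hh⟩ := hM.hull (min ε εr) (lt_min hε hεr)
    obtain ⟨κ, hκ, k1, k2, k3, k4, k5⟩ : ∃ κ, 0 < κ ∧ κ ≤ δ ∧ κ ≤ ρ ∧ κ ≤ η ∧ κ ≤ εr / 2 ∧ κ ≤ π :=
      ⟨min δ (min ρ (min η (min (εr / 2) π))), by positivity, by simp, by simp, by simp, by simp,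
        by simp⟩
    obtain ⟨g, ⟨γ, hγ, hL⟩, hc, ε', hε', hb⟩ := hg κ hκ
    have hγ' := G.Γ.inv_mem hγ
    refine ⟨γ⁻¹, hγ', fun u hu => hA (mono (min_le_right ε εr) ?_), ?_, ?_⟩
    · by_contra hn
      have := hh γ g r l hL (ctr_mono hc k1) _ hn
      rw [smul_inv_smul] at this
      exact hu (mono (min_le_left _ _) this)
    · obtain ⟨δ', hδ', h'⟩ := (lift_inv hL).fw l ε' hε'
      exact ⟨δ', hδ', fun z hz => hb (h' z hz)⟩
    · rintro w ⟨x', y', hw, hx, hy⟩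
      have hw' := hB.wg w x' y' γ⁻¹ hγ' g⁻¹ 0 (lift_inv hL) hw
      have p1 := pull hL.per hc k5 (x := x') (by linarith [hx.1]) (by linarith [hx.2])
      have p2 := pull hL.per hc k5 (x := y' - k * (2 * π)) (by linarith [hy.1]) (by linarith [hy.2])
      have hper : Function.Periodic (fun t => g⁻¹ t - t) (2 * π) := fun t => by
        simp only [(lift_inv hL).per t]
        ring
      have p3 : g⁻¹ (y' - k * (2 * π)) = g⁻¹ y' - k * (2 * π) := by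
        have := (hper.int_mul k).sub_eq y'
        linarith
      rw [p3] at p2
      obtain ⟨n1, n2⟩ := hsh _ _ _ hw' (p1.trans_le k2) (p2.trans_le k2)
      refine ⟨fun s => ⟨fun hh => n1 ⟨s, by rwa [o_gg hγ']⟩, fun hh => n2 ⟨s, by rwa [o_gg hγ']⟩⟩,
        ?_, ?_⟩
      · filter_upwards [evP hw'.p (half_pos hεr)] with s hs
        rw [o_gg hγ', ← sub_add_cancel (g⁻¹ y') (k * (2 * π)), per] at hs
        exact hA (mono (by linarith) (hD.sub _ r _ hs))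
      · filter_upwards [evM hw'.m (half_pos hεr)] with s hs
        rw [o_gg hγ'] at hs
        exact hA (mono (by linarith) (hD.sub _ r _ hs)))
  exact ⟨ε, hε, fun w x' y' hw hx hy => h w ⟨x', y', hw, hx, hy⟩⟩

lemma shield (hA : G.Av) {O : Set (ℝ × ℝ)} {hO : G.Gen O} {hB : G.Base} {hG : CG (GG G.Γ)}
    {m : G.WT O} (h1 : CW.Cell1 (C := G.cw O hO hB hG) m) {t ρ : ℝ} (hρ : 0 < ρ)
    (ht : t = m.1.2.1 ∨ t = m.1.2.2) : ∃ e, 0 < e ∧ ∀ w x y, G.Wl w x y →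
      (x ≤ t - ρ ∧ t + ρ ≤ y) ∨ (y ≤ t - ρ ∧ t + ρ ≤ x + 2 * π) → ¬G.Nr w t e := by
  have hE : t ∈ CW.En (C := G.cw O hO hB hG) m := ⟨m, Relation.EqvGen.refl _, ht⟩
  obtain ⟨s, -, a1, a2, a3, a4⟩ := h1.shR t hE ρ hρ
  obtain ⟨s', -, b1, b2, b3, b4⟩ := h1.shL t hE ρ hρ
  obtain ⟨e, he, h⟩ := hA.avR _ _ _ t s.2.2 a2 a3
  obtain ⟨e', he', h'⟩ := hA.avL _ _ _ t s'.2.2 b2 b3
  refine ⟨min e e', lt_min he he', fun w x y hw hc ⟨u, hu⟩ => ?_⟩
  change t - ρ < s.1.2.1 at a1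
  change s.1.2.2 < t + ρ at a4
  change t - ρ < s'.1.2.2 at b1
  change s'.1.2.1 + 2 * π < t + ρ at b4
  rcases hc with ⟨c1, c2⟩ | ⟨c1, c2⟩
  · exact h w x y hw (by linarith) (by linarith) ⟨u, mono (min_le_left _ _) hu⟩
  · exact h' w x y hw (by linarith) (by linarith) ⟨u, mono (min_le_right _ _) hu⟩

lemma nr_mono {w : N} {l e e' : ℝ} (h : G.Nr w l e) (he : e ≤ e') : G.Nr w l e' :=
  ⟨h.choose, mono he h.choose_spec⟩

lemma main (hD : Disc) (hM : Mob) (hB : G.Base) (hG : CG (GG G.Γ)) (hS : SideSt) (hA : G.Av)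
    (hC : Cell1St) {O : Set (ℝ × ℝ)} (hO : G.Gen O) {l η : ℝ} (hl : G.Sh O l) (hη : 0 < η) :
    ∃ ε, 0 < ε ∧ ∀ w x y, G.Wl w x y →
      (x ≤ l - η ∧ l + η ≤ y) ∨ (y ≤ l - η ∧ l + η ≤ x + 2 * π) → ¬G.Nr w l ε := by
  obtain ⟨m, r, hr⟩ := hl
  have h1 := hC (G.cw O hO hB hG) m
  have hm := m.2.2
  have m1 := hm.lt
  have m2 := hm.lt2
  obtain ⟨L, R, hs⟩ := hS G _ _ _ hm
  rcases hr with ⟨r1, r2, hg⟩ | ⟨r1, r2, hg⟩
  · obtain ⟨ρ, hρ, q1, q2, q3⟩ : ∃ ρ, 0 < ρ ∧ ρ ≤ η ∧ 2 * ρ ≤ m.1.2.1 - r ∧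
        2 * ρ ≤ r + 2 * π - m.1.2.2 := by
      refine ⟨min η (min ((m.1.2.1 - r) / 2) ((r + 2 * π - m.1.2.2) / 2)),
        lt_min hη (lt_min (by linarith) (by linarith)), min_le_left _ _, ?_, ?_⟩
      · linarith [(min_le_right η _).trans
          (min_le_left ((m.1.2.1 - r) / 2) ((r + 2 * π - m.1.2.2) / 2))]
      · linarith [(min_le_right η _).trans
          (min_le_right ((m.1.2.1 - r) / 2) ((r + 2 * π - m.1.2.2) / 2))]
    obtain ⟨e1, he1, s1⟩ := shield hA h1 hρ (Or.inl rfl)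
    obtain ⟨e2, he2, s2⟩ := shield hA h1 hρ (Or.inr rfl)
    obtain ⟨εr, hεr, hL⟩ := hs.lf (r + (1 : ℤ) * (2 * π)) (by push_cast; linarith)
      (by push_cast; linarith)
    rw [per] at hL
    obtain ⟨ε, hε, h⟩ := anti (l := l) hD hM hB hm (lt_min he1 he2) hρ hεr hη hs.oL hs.oR hs.dis
      hs.un hL 0 (by
        intro w x y hw a1 a2
        rw [Int.cast_zero, zero_mul, sub_zero] at a2
        rw [abs_lt] at a1 a2
        exact ⟨fun hh => s1 w x y hw (Or.inr ⟨by linarith, by linarith⟩) (nr_mono hh (min_le_left _ _)),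
          fun hh => s2 w x y hw (Or.inr ⟨by linarith, by linarith⟩) (nr_mono hh (min_le_right _ _))⟩)
      (by
        intro ε hε
        obtain ⟨g, hg1, hc, b1, b2⟩ := hg ε hε
        exact ⟨g, hg1, hc, hs.rt _ (g.lt_symm_apply.2 b1) (g.symm_apply_lt.2 b2)⟩)
    obtain ⟨g, ⟨γ, hγ, hL'⟩, hc, b1, b2⟩ := hg ρ hρ
    obtain ⟨e, he, h'⟩ := hA.avR _ _ _ l (hB.wg _ _ _ γ hγ g 0 hL' hm) b1 b2
    have c1 := abs_lt.1 (hc m.1.2.1 (by linarith) (by linarith))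
    have c2 := abs_lt.1 (hc m.1.2.2 (by linarith) (by linarith))
    refine ⟨min ε e, lt_min hε he, fun w x y hw hc' hn => ?_⟩
    have := hw.lt
    rcases hc' with ⟨d1, d2⟩ | ⟨d1, d2⟩
    · exact h' w x y hw (by linarith) (by linarith) (nr_mono hn (min_le_right _ _))
    · refine h w x y hw ⟨by linarith, by linarith⟩ ?_ (nr_mono hn (min_le_left _ _))
      rw [Int.cast_zero, zero_mul, sub_zero]
      exact ⟨by linarith, by linarith⟩
  · obtain ⟨ρ, hρ, q1, q2, q3⟩ : ∃ ρ, 0 < ρ ∧ ρ ≤ η ∧ 2 * ρ ≤ r - m.1.2.1 ∧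
        2 * ρ ≤ m.1.2.2 - r := by
      refine ⟨min η (min ((r - m.1.2.1) / 2) ((m.1.2.2 - r) / 2)),
        lt_min hη (lt_min (by linarith) (by linarith)), min_le_left _ _, ?_, ?_⟩
      · linarith [(min_le_right η _).trans (min_le_left ((r - m.1.2.1) / 2) ((m.1.2.2 - r) / 2))]
      · linarith [(min_le_right η _).trans (min_le_right ((r - m.1.2.1) / 2) ((m.1.2.2 - r) / 2))]
    obtain ⟨e1, he1, s1⟩ := shield hA h1 hρ (Or.inl rfl)
    obtain ⟨e2, he2, s2⟩ := shield hA h1 hρ (Or.inr rfl)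
    obtain ⟨εr, hεr, hL⟩ := hs.rt r r1 r2
    obtain ⟨ε, hε, h⟩ := anti (l := l) hD hM hB hm (lt_min he1 he2) hρ hεr hη hs.oR hs.oL
      hs.dis.symm (by rw [union_comm]; exact hs.un) hL 1 (by
        intro w x y hw a1 a2
        rw [Int.cast_one, one_mul] at a2
        rw [abs_lt] at a1 a2
        have hw' := hB.ws w x y (-1) hw
        push_cast at hw'
        exact ⟨fun hh => s1 w _ _ hw' (Or.inl ⟨by linarith, by linarith⟩) (nr_mono hh (min_le_left _ _)),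
          fun hh => s2 w x y hw (Or.inl ⟨by linarith, by linarith⟩) (nr_mono hh (min_le_right _ _))⟩)
      (by
        intro ε hε
        obtain ⟨g, hg1, hc, b1, b2⟩ := hg ε hε
        exact ⟨g, hg1, hc, hs.lf _ (g.lt_symm_apply.2 b1) (g.symm_apply_lt.2 b2)⟩)
    obtain ⟨g, ⟨γ, hγ, hL'⟩, hc, b1, b2⟩ := hg ρ hρ
    have c1 := abs_lt.1 (hc (m.1.2.1 + 2 * π) (by linarith) (by linarith))
    have c2 := abs_lt.1 (hc m.1.2.2 (by linarith) (by linarith))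
    rw [hL'.per] at b2 c1
    obtain ⟨e, he, h'⟩ := hA.avL _ _ _ l (hB.wg _ _ _ γ hγ g 0 hL' hm) b1 b2
    refine ⟨min ε e, lt_min hε he, fun w x y hw hc' hn => ?_⟩
    have := hw.lt2
    rcases hc' with ⟨d1, d2⟩ | ⟨d1, d2⟩
    · refine h w x y hw ⟨by linarith, by linarith⟩ ?_ (nr_mono hn (min_le_left _ _))
      rw [Int.cast_one, one_mul]
      exact ⟨by linarith, by linarith⟩
    · exact h' w x y hw (by linarith) (by linarith) (nr_mono hn (min_le_right _ _))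

end FV1

theorem v1 (hD : Disc) (hM : Mob) (hG : CgSt) (hB : BaseSt) (hS : SideSt) (hA : AvSt)
    (hC : Cell1St) : V1St := by
  intro G O hO l a b hl hab
  have hp : 0 < 2 * π := by positivity
  have hj := sub_toIcoDiv_zsmul_mem_Ico hp (l - 2 * π) a
  simp only [zsmul_eq_mul] at hj
  obtain ⟨j, j1, j2⟩ : ∃ j : ℤ, l - 2 * π ≤ a + j * (2 * π) ∧ a + j * (2 * π) < l :=
    ⟨-toIcoDiv hp (l - 2 * π) a, by push_cast; linarith [hj.1], by push_cast; linarith [hj.2]⟩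
  have j3 : l - 2 * π < a + j * (2 * π) := lt_of_le_of_ne j1 fun h => (hab (j + 1)).1 (by
    push_cast
    linarith)
  have j4 : 0 < |b + j * (2 * π) - l| := abs_pos.2 (sub_ne_zero.2 (hab j).2)
  obtain ⟨η, hη, q1, q2, q3⟩ : ∃ η, 0 < η ∧ 2 * η ≤ l - (a + j * (2 * π)) ∧
      2 * η ≤ a + j * (2 * π) + 2 * π - l ∧ 2 * η ≤ |b + j * (2 * π) - l| := by
    refine ⟨min (l - (a + j * (2 * π))) (min (a + j * (2 * π) + 2 * π - l) |b + j * (2 * π) - l|) / 2,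
      half_pos (lt_min (by linarith) (lt_min (by linarith) j4)), ?_, ?_, ?_⟩
    · linarith [min_le_left (l - (a + j * (2 * π)))
        (min (a + j * (2 * π) + 2 * π - l) |b + j * (2 * π) - l|)]
    · linarith [(min_le_right (l - (a + j * (2 * π))) _).trans
        (min_le_left (a + j * (2 * π) + 2 * π - l) |b + j * (2 * π) - l|)]
    · linarith [(min_le_right (l - (a + j * (2 * π))) _).trans
        (min_le_right (a + j * (2 * π) + 2 * π - l) |b + j * (2 * π) - l|)]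
  obtain ⟨ε, hε, h⟩ := FV1.main hD hM (hB G) (hG G.toSys G.free) hS (hA G) hC hO hl hη
  refine ⟨min ε η, lt_min hε hη, fun w x y hw hx hy hn => ?_⟩
  have hx' := abs_lt.1 (hx.trans_le (min_le_right _ _))
  have hy' := abs_lt.1 (hy.trans_le (min_le_right _ _))
  refine h w _ _ ((hB G).ws w x y j hw) ?_ (FV1.nr_mono hn (min_le_left _ _))
  rcases le_abs'.1 q3 with q | q
  · exact Or.inr ⟨by linarith, by linarith⟩
  · exact Or.inl ⟨by linarith, by linarith⟩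

end

end Pool.Agent.Lib.MP_21f752_an
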