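import Pool.Agent.Lib.MP_21f752_an.FG
import Pool.Agent.Lib.MP_21f752_an.FErg1

/-! Walls have positive measure. -/

namespace Pool.Agent.Lib.MP_21f752_an

open UpperHalfPlane Set Filter Topology Metric MeasureTheory
open scoped MatrixGroups ContDiff Real

noncomputable section

namespace FWall

def rho (z : ℍ) : ℝ := 1 - ‖cay z‖ ^ 2

lemma add_I_ne (z : ℍ) : (z : ℂ) + Complex.I ≠ 0 := fun h => by
  have := congrArg Complex.im h
  simp only [Complex.add_im, coe_im, Complex.I_im, Complex.zero_im] at this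
  linarith [z.im_pos]

lemma rho_eq (z : ℍ) : rho z = 4 * z.im / ‖(z : ℂ) + Complex.I‖ ^ 2 := by
  have h := norm_pos_iff.2 (add_I_ne z)
  simp only [rho, cay, norm_div, div_pow]
  field_simp
  simp only [Complex.sq_norm, Complex.normSq_apply, Complex.add_re, Complex.add_im, Complex.sub_re,
    Complex.sub_im, Complex.I_re, Complex.I_im, coe_re, coe_im]
  ring

lemma rho_pos (z : ℍ) : 0 < rho z := by
  rw [rho_eq]
  exact div_pos (mul_pos four_pos z.im_pos) (pow_pos (norm_pos_iff.2 (add_I_ne z)) 2)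

lemma rho_le (z : ℍ) : rho z ≤ 1 := sub_le_self _ (sq_nonneg _)

lemma cosh_cay (z w : ℍ) :
    Real.cosh (dist z w) = 1 + 2 * ‖cay z - cay w‖ ^ 2 / (rho z * rho w) := by
  have h1 := add_I_ne z
  have h2 := add_I_ne w
  have e : cay z - cay w = 2 * Complex.I * (z - w) / ((z + Complex.I) * (w + Complex.I)) := by
    simp only [cay]
    field_simp
    ring
  have n1 := norm_pos_iff.2 h1
  have n2 := norm_pos_iff.2 h2
  have i1 := z.im_pos
  have i2 := w.im_pos
  rw [cosh_dist, e, rho_eq, rho_eq, dist_eq_norm]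
  simp only [norm_div, norm_mul, Complex.norm_I, Complex.norm_ofNat]
  field_simp
  ring

lemma cay_sq (z w : ℍ) {D : ℝ} (h : dist z w ≤ D) :
    ‖cay z - cay w‖ ^ 2 ≤ Real.cosh D * (rho z * rho w) := by
  have h1 : Real.cosh (dist z w) ≤ Real.cosh D := by
    rw [Real.cosh_le_cosh, abs_of_nonneg dist_nonneg]
    exact h.trans (le_abs_self _)
  have p := mul_pos (rho_pos z) (rho_pos w)
  rw [cosh_cay] at h1
  have h2 : 2 * ‖cay z - cay w‖ ^ 2 / (rho z * rho w) ≤ Real.cosh D := by linarith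
  rw [div_le_iff₀ p] at h2
  nlinarith [sq_nonneg ‖cay z - cay w‖]

lemma rho_exp (z : ℍ) : rho z ≤ 4 * Real.exp (-dist z UpperHalfPlane.I) := by
  have h := cosh_cay z UpperHalfPlane.I
  have c0 : cay UpperHalfPlane.I = 0 := by simp [cay]
  have r0 : rho UpperHalfPlane.I = 1 := by simp [rho, c0]
  have p := rho_pos z
  rw [c0, r0, sub_zero, mul_one, Real.cosh_eq] at h
  have e : ‖cay z‖ ^ 2 = 1 - rho z := by simp [rho]
  rw [e] at h
  have h2 : rho z * Real.exp (dist z UpperHalfPlane.I) ≤ 4 := by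
    have a := Real.exp_pos (-dist z UpperHalfPlane.I)
    field_simp at h
    nlinarith [mul_pos p a]
  rw [Real.exp_neg, ← div_eq_mul_inv, le_div_iff₀ (Real.exp_pos _)]
  exact h2

/-- the Busemann function of a point of the circle -/
def bu (e : ℂ) (z : ℍ) : ℝ := Real.log (2 * ‖cay z - e‖ ^ 2 / rho z)

lemma sub_pos' {e : ℂ} (he : ‖e‖ = 1) (z : ℍ) : 0 < ‖cay z - e‖ := by
  refine norm_pos_iff.2 (sub_ne_zero.2 fun h => ?_)
  have := rho_pos z
  simp [rho, h, he] at this

def lc (z w : ℍ) : ℝ := Real.log (Real.cosh (dist z w))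

lemma lc_le (z w c : ℍ) : lc z c - lc w c ≤ dist z w := by
  have h1 : Real.cosh (dist z c) ≤ Real.exp (dist z w) * Real.cosh (dist w c) := by
    have a : Real.cosh (dist z c) ≤ Real.cosh (dist z w + dist w c) := by
      rw [Real.cosh_le_cosh, abs_of_nonneg dist_nonneg, abs_of_nonneg (by positivity)]
      exact dist_triangle _ _ _
    refine a.trans ?_
    rw [Real.cosh_eq, Real.cosh_eq, neg_add, Real.exp_add, Real.exp_add]
    have b : Real.exp (-dist z w) ≤ Real.exp (dist z w) :=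
      Real.exp_le_exp.2 (by linarith [dist_nonneg (x := z) (y := w)])
    nlinarith [Real.exp_pos (-dist w c)]
  have := Real.log_le_log (Real.cosh_pos _) h1
  rw [Real.log_mul (Real.exp_pos _).ne' (Real.cosh_pos _).ne', Real.log_exp] at this
  simp only [lc]
  linarith

lemma lc_abs (z w c : ℍ) : |lc z c - lc w c| ≤ dist z w :=
  abs_le.2 ⟨by linarith [lc_le w z c, dist_comm z w], lc_le z w c⟩

lemma rho_lim {ι : Type} {l : Filter ι} {u : ι → ℍ} {e : ℂ} (he : ‖e‖ = 1)
    (h : Tendsto (fun n => cay (u n)) l (𝓝 e)) : Tendsto (fun n => rho (u n)) l (𝓝 0) := by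
  have := (h.norm.pow 2).const_sub 1
  simpa [he, rho] using this

lemma lc_lim {ι : Type} {l : Filter ι} {u : ι → ℍ} {e : ℂ} (he : ‖e‖ = 1)
    (h : Tendsto (fun n => cay (u n)) l (𝓝 e)) (z w : ℍ) :
    Tendsto (fun n => lc z (u n) - lc w (u n)) l (𝓝 (bu e z - bu e w)) := by
  have key : ∀ z : ℍ, Tendsto (fun n => lc z (u n) + Real.log (rho (u n))) l (𝓝 (bu e z)) := by
    intro z
    have a := (rho_lim he h).add
      (((((h.const_sub (cay z)).norm).pow 2).const_mul 2).div_const (rho z))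
    rw [zero_add] at a
    have b := a.log (div_pos (mul_pos two_pos (pow_pos (sub_pos' he z) 2)) (rho_pos z)).ne'
    refine b.congr fun n => ?_
    have p := rho_pos (u n)
    have q := rho_pos z
    rw [lc, ← Real.log_mul (Real.cosh_pos _).ne' p.ne', cosh_cay]
    congr 1
    field_simp
  exact ((key z).sub (key w)).congr fun n => by ring

/-- linear escape with bounded speed: the end exists and is approached along record times -/
lemma esc_end {c : ℝ → ℍ} {D ε C : ℝ} {p : ℍ} (hD : ∀ s t, |t - s| ≤ 1 → dist (c t) (c s) ≤ D)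
    (hε : 0 < ε) (h : ∀ t, 0 ≤ t → ε * t - C ≤ dist (c t) p) :
    ∃ y, Tendsto (fun t => cay (c t)) atTop (𝓝 (ce y)) ∧
      ∃ K, ∃ᶠ n : ℕ in atTop, bu (ce y) (c n) ≤ K - ε * n := by
  set K0 := 4 * Real.exp (C + dist p UpperHalfPlane.I) with hK0
  have K0p : 0 < K0 := by positivity
  have ha : ∀ n : ℕ, rho (c n) ≤ K0 * Real.exp (-(ε * n)) := fun n => by
    refine (rho_exp _).trans ?_
    rw [hK0, mul_assoc, ← Real.exp_add]
    have := h n (Nat.cast_nonneg n)
    have := dist_triangle (c n) UpperHalfPlane.I p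
    rw [dist_comm UpperHalfPlane.I p] at this
    gcongr
    linarith
  set q := Real.exp (-(ε / 2)) with hq
  have q0 : 0 < q := Real.exp_pos _
  have q1 : q < 1 := by
    rw [hq, ← Real.exp_zero]
    exact Real.exp_lt_exp.2 (by linarith)
  have qk : ∀ k : ℕ, q ^ k = Real.exp (-(ε / 2 * k)) := fun k => by
    rw [hq, ← Real.exp_nat_mul]
    congr 1
    ring
  set s := √(Real.cosh D) with hs
  have s0 : 0 < s := Real.sqrt_pos.2 (Real.cosh_pos _)
  have s2 : s ^ 2 = Real.cosh D := Real.sq_sqrt (Real.cosh_pos _).le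
  have geo : ∀ (m : ℕ) (A : ℝ), 0 < A → (∀ k : ℕ, rho (c (k + m : ℕ)) ≤ A * q ^ k) → ∀ k : ℕ,
      dist (cay (c (k + m : ℕ))) (cay (c (k + 1 + m : ℕ))) ≤ s * A * q ^ k := by
    intro m A hA hk k
    have a := cay_sq (c (k + m : ℕ)) (c (k + 1 + m : ℕ)) (hD _ _ (by push_cast; norm_num))
    have b : rho (c (k + 1 + m : ℕ)) ≤ A * q ^ k := (hk (k + 1)).trans (by
      rw [pow_succ]
      nlinarith [mul_pos hA (pow_pos q0 k)])
    rw [dist_eq_norm]
    refine (pow_le_pow_iff_left₀ (norm_nonneg _) (by positivity) two_ne_zero).1 (a.trans ?_)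
    rw [mul_assoc, mul_pow, s2, sq (A * q ^ k)]
    exact mul_le_mul_of_nonneg_left (mul_le_mul (hk k) b (rho_pos _).le (by positivity))
      (Real.cosh_pos _).le
  have h0 : ∀ k : ℕ, rho (c (k + 0 : ℕ)) ≤ K0 * q ^ k := fun k => by
    refine (ha (k + 0)).trans (mul_le_mul_of_nonneg_left ?_ K0p.le)
    rw [qk, add_zero]
    exact Real.exp_le_exp.2 (by nlinarith [Nat.cast_nonneg (α := ℝ) k])
  obtain ⟨e, he⟩ := cauchySeq_tendsto_of_complete
    (cauchySeq_of_le_geometric (f := fun k : ℕ => cay (c k)) q (s * K0) q1 (geo 0 K0 K0p h0))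
  have r0 : Tendsto (fun n : ℕ => rho (c n)) atTop (𝓝 0) := by
    refine squeeze_zero (fun n => (rho_pos _).le) h0 ?_
    simpa using (tendsto_pow_atTop_nhds_zero_of_lt_one q0.le q1).const_mul K0
  have e1 : ‖e‖ = 1 := by
    have a := tendsto_nhds_unique r0 ((he.norm.pow 2).const_sub 1)
    have b : ‖e‖ ^ 2 = 1 := by linarith
    exact (pow_eq_one_iff_of_nonneg (norm_nonneg e) two_ne_zero).1 b
  have e2 : ce (Complex.arg e) = e := by
    have := Complex.norm_mul_exp_arg_mul_I e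
    rwa [e1, Complex.ofReal_one, one_mul] at this
  refine ⟨Complex.arg e, ?_, Real.log (2 * (s / (1 - q)) ^ 2 * K0), ?_⟩
  · rw [e2]
    have f := tendsto_nat_floor_atTop (α := ℝ)
    refine (he.comp f).congr_dist ?_
    have t1 : Tendsto (fun t : ℝ => √(Real.cosh D * rho (c (⌊t⌋₊ : ℕ)))) atTop (𝓝 0) := by
      simpa using ((r0.comp f).const_mul (Real.cosh D)).sqrt
    refine squeeze_zero' (.of_forall fun _ => dist_nonneg) ?_ t1
    filter_upwards [eventually_ge_atTop (0 : ℝ)] with t ht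
    have a := cay_sq (c (⌊t⌋₊ : ℕ)) (c t) (hD _ _ (abs_le.2
      ⟨by linarith [Nat.lt_floor_add_one t], by linarith [Nat.floor_le ht]⟩))
    rw [Function.comp, dist_eq_norm]
    refine Real.le_sqrt_of_sq_le (a.trans (mul_le_mul_of_nonneg_left ?_ (Real.cosh_pos _).le))
    exact mul_le_of_le_one_right (rho_pos _).le (rho_le _)
  · rw [e2]
    refine frequently_atTop.2 fun m0 => ?_
    have t1 : Tendsto (fun n : ℕ => Real.log (rho (c n)) + ε / 2 * n) cofinite atBot := by
      rw [Nat.cofinite_eq_atTop]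
      have a : Tendsto (fun n : ℕ => Real.log K0 + -(ε / 2 * n)) atTop atBot :=
        tendsto_atBot_add_const_left _ _ (tendsto_neg_atTop_atBot.comp
          (tendsto_natCast_atTop_atTop.const_mul_atTop (half_pos hε)))
      refine tendsto_atBot_mono (fun n => ?_) a
      have := Real.log_le_log (rho_pos _) (ha n)
      rw [Real.log_mul K0p.ne' (Real.exp_pos _).ne', Real.log_exp] at this
      linarith
    obtain ⟨m, hm, hm'⟩ := t1.exists_within_forall_ge (s := Ici m0) nonempty_Ici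
    refine ⟨m, hm, ?_⟩
    have pm := rho_pos (c m)
    have hk : ∀ k : ℕ, rho (c (k + m : ℕ)) ≤ rho (c m) * q ^ k := fun k => by
      have a := hm' (k + m) (le_trans hm (Nat.le_add_left m k))
      rw [qk, ← Real.exp_log pm, ← Real.exp_add, ← Real.exp_log (rho_pos (c (k + m : ℕ)))]
      refine Real.exp_le_exp.2 ?_
      push_cast at a ⊢
      linarith
    have d := dist_le_of_le_geometric_of_tendsto₀ (f := fun k : ℕ => cay (c (k + m : ℕ))) q
      (s * rho (c m)) q1 (geo m _ pm hk) (he.comp (tendsto_add_atTop_nat m))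
    simp only [zero_add, dist_eq_norm] at d
    have q2 : 0 < 1 - q := sub_pos.2 q1
    have b : 2 * ‖cay (c m) - e‖ ^ 2 / rho (c m) ≤
        2 * (s / (1 - q)) ^ 2 * K0 * Real.exp (-(ε * m)) := by
      rw [div_le_iff₀ pm]
      have b1 : ‖cay (c m) - e‖ ^ 2 ≤ (s / (1 - q)) ^ 2 * (rho (c m) * rho (c m)) := by
        refine (pow_le_pow_left₀ (norm_nonneg _) d 2).trans (le_of_eq ?_)
        field_simp
      have b2 := mul_le_mul_of_nonneg_left (mul_le_mul_of_nonneg_right (ha m) pm.le)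
        (sq_nonneg (s / (1 - q)))
      nlinarith
    have := Real.log_le_log (div_pos (mul_pos two_pos (pow_pos (sub_pos' e1 _) 2)) pm) b
    rw [Real.log_mul (by positivity) (Real.exp_pos _).ne', Real.log_exp] at this
    exact this

lemma pos_of {u : ℕ → ℝ} {a ε K : ℝ} (hε : 0 < ε) (h : Tendsto (fun n : ℕ => u n / n) atTop (𝓝 a))
    (hf : ∃ᶠ n : ℕ in atTop, ε * n - K ≤ u n) : 0 < a := by
  by_contra hc
  have a1 := h.eventually (gt_mem_nhds ((not_lt.1 hc).trans_lt (half_pos hε)))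
  have a2 := (tendsto_const_div_atTop_nhds_zero_nat K).eventually (gt_mem_nhds (half_pos hε))
  obtain ⟨n, b1, b2, b3, b4⟩ := (hf.and_eventually (a1.and (a2.and (eventually_gt_atTop 0)))).exists
  have b4 : (0 : ℝ) < n := Nat.cast_pos.2 b4
  rw [div_lt_iff₀ b4] at b2 b3
  linarith

variable (G : Geo)

/-- the Busemann cocycle -/
def hh (ξ : N) : ℝ :=
  limsup (fun n : ℕ => lc (G.o ξ 0) (G.o ξ n) - lc (G.o ξ 1) (G.o ξ n)) atTop

lemma hh_meas : Measurable (hh G) := by
  have c : ∀ t, Continuous fun ξ => G.o ξ t := fun t =>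
    (G.continuous_φ.comp (continuous_const.prodMk continuous_id)).fst
  have l : ∀ s t, Continuous fun ξ => lc (G.o ξ s) (G.o ξ t) := fun s t =>
    (Real.continuous_cosh.comp ((c s).dist (c t))).log fun _ => (Real.cosh_pos _).ne'
  exact Measurable.limsup fun n => ((l 0 n).sub (l 1 n)).measurable

lemma hh_inv : G.Inv (hh G) := fun γ hγ k ξ => by
  simp only [hh, Geo.o, G.φ_gg hγ]
  simp only [gg, lc, dist_smul]

lemma hh_bdd : ∃ D, ∀ ξ, |hh G ξ| ≤ D := by
  obtain ⟨D, -, hD⟩ := G.toSys.disp 1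
  refine ⟨D, fun ξ => ?_⟩
  have a : ∀ n : ℕ, |lc (G.o ξ 0) (G.o ξ n) - lc (G.o ξ 1) (G.o ξ n)| ≤ D := fun n =>
    (lc_abs _ _ _).trans (hD ξ 1 0 (by norm_num))
  have b1 : IsBoundedUnder (· ≤ ·) atTop
      fun n : ℕ => lc (G.o ξ 0) (G.o ξ n) - lc (G.o ξ 1) (G.o ξ n) :=
    isBoundedUnder_of ⟨D, fun n => (abs_le.1 (a n)).2⟩
  have b2 : IsBoundedUnder (· ≥ ·) atTop
      fun n : ℕ => lc (G.o ξ 0) (G.o ξ n) - lc (G.o ξ 1) (G.o ξ n) :=
    isBoundedUnder_of ⟨-D, fun n => (abs_le.1 (a n)).1⟩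
  exact abs_le.2 ⟨le_limsup_of_frequently_le (.of_forall fun n => (abs_le.1 (a n)).1) b1,
    limsup_le_of_le b2.isCoboundedUnder_le (.of_forall fun n => (abs_le.1 (a n)).2)⟩

variable {G}

lemma hh_eq {ξ : N} {y : ℝ} (h : G.EndP ξ y) (s : ℝ) :
    hh G (G.φ s ξ) = bu (ce y) (G.o ξ s) - bu (ce y) (G.o ξ (1 + s)) := by
  have t : Tendsto (fun n : ℕ => cay (G.o ξ (n + s))) atTop (𝓝 (ce y)) :=
    h.comp (tendsto_atTop_add_const_right _ s tendsto_natCast_atTop_atTop)
  have := (lc_lim (norm_ce y) t (G.o ξ s) (G.o ξ (1 + s))).limsup_eq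
  simp only [hh, Geo.o, ← G.φ_add, zero_add]
  exact this

end FWall

open FWall in
theorem wall (he : EscSt) (hq : FreqSt) : WallSt := by
  intro G h0
  obtain ⟨ε, hε, hE⟩ := he G
  obtain ⟨M, hM⟩ := hh_bdd G
  obtain ⟨D, -, hD⟩ := G.toSys.disp 1
  let Z : Set N := {ξ | ¬∃ a,
    Tendsto (fun n : ℕ => (∑ j ∈ Finset.range n, hh G (G.φ (j * 1) ξ)) / n) atTop (𝓝 a) ∧
    Tendsto (fun n : ℕ => (∑ j ∈ Finset.range n, hh G (G.φ (-(j * 1)) ξ)) / n) atTop (𝓝 a)}
  have z1 : G.ν Z = 0 :=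
    (Sys.mean_ae 1 (hh_meas G) (hh_inv G) hM).mono fun ξ h => ⟨_, h⟩
  have z2 : G.μ Z = 0 := ((hq G).2.1 Z fun γ hγ k ξ => by
    simp only [Z, mem_ofPred_eq, G.φ_gg hγ, hh_inv G γ hγ]).1 z1
  refine hE (measure_mono_null (fun ξ hξ => ?_) (measure_union_null h0 z2))
  obtain ⟨C, hC⟩ := hξ
  obtain ⟨y, hy, K1, k1⟩ := esc_end (c := G.o ξ) (p := ξ.1) (C := C) (hD ξ) hε fun t ht => by
    simpa only [abs_of_nonneg ht] using hC t
  obtain ⟨x, hx, K2, k2⟩ := esc_end (c := fun t => G.o ξ (-t)) (p := ξ.1) (C := C) (D := D)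
    (fun s t h => hD ξ _ _ (by rwa [neg_sub_neg, abs_sub_comm])) hε fun t ht => by
      simpa only [abs_neg, abs_of_nonneg ht] using hC (-t)
  have hx' : G.EndM ξ x := by
    have := hx.comp tendsto_neg_atBot_atTop
    simpa only [Function.comp_def, neg_neg, Geo.EndM] using this
  by_cases hxy : ce x = ce y
  · right
    rintro ⟨a, a1, a2⟩
    rw [hxy] at k2
    have p1 : 0 < a := by
      refine pos_of (K := K1 - bu (ce y) (G.o ξ 0)) hε a1 (k1.mono fun n hn => ?_)
      have := Finset.sum_range_sub' (fun j : ℕ => bu (ce y) (G.o ξ j)) n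
      simp only [hh_eq hy, mul_one]
      simp only [Nat.cast_add, Nat.cast_one, Nat.cast_zero, add_comm _ (1 : ℝ)] at this
      rw [this]
      linarith
    have p2 : 0 < -a := by
      refine pos_of (u := fun n => -∑ j ∈ Finset.range n, hh G (G.φ (-(j * 1)) ξ))
        (K := K2 - bu (ce y) (G.o ξ 1) + ε) hε (by simpa only [neg_div] using a2.neg) ?_
      refine (tendsto_add_atTop_nat 1).frequently (k2.mono fun n hn => ?_)
      have := Finset.sum_range_sub (fun j : ℕ => bu (ce y) (G.o ξ (1 + -j))) (n + 1)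
      simp only [hh_eq hy, mul_one]
      have e : ∀ j : ℕ, (1 : ℝ) + -((j + 1 : ℕ) : ℝ) = -j := fun j => by
        push_cast
        ring
      simp only [e, Nat.cast_zero, neg_zero, add_zero] at this
      rw [this]
      push_cast
      linarith
    linarith
  · left
    have hp : 0 < 2 * π := by positivity
    have m := toIcoMod_mem_Ico hp x y
    have e : ce (toIcoMod hp x y) = ce y := ce_eq_iff.2 ⟨-toIcoDiv hp x y, by
      simp only [toIcoMod, zsmul_eq_mul]
      push_cast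
      ring⟩
    refine ⟨x, toIcoMod hp x y, mem_univ _, hx', ?_, lt_of_le_of_ne m.1 fun h => ?_, m.2⟩
    · rw [Geo.EndP, e]
      exact hy
    · exact hxy (by rw [← e, ← h])

end

end Pool.Agent.Lib.MP_21f752_an
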