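import Pool.Agent.Lib.MP_21f752_an.FMir

/-! A node gives a good walk that closes up. -/

namespace Pool.Agent.Lib.MP_21f752_an

open Set Filter Topology
open scoped Real

noncomputable section

namespace FWlk

lemma sm4 {a b c d : ℝ} (ha : 0 < a) (hb : 0 < b) (hc : 0 < c) (hd : 0 < d) :
    ∃ δ, 0 < δ ∧ δ ≤ a ∧ δ ≤ b ∧ δ ≤ c ∧ δ ≤ d :=
  ⟨min (min a b) (min c d), by positivity, (min_le_left _ _).trans (min_le_left _ _),
    (min_le_left _ _).trans (min_le_right _ _), (min_le_right _ _).trans (min_le_left _ _),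
    (min_le_right _ _).trans (min_le_right _ _)⟩

lemma around {S : Set ℝ} (hS : IsClosed S) {a m b : ℝ} (ha : a ∈ S) (hb : b ∈ S) (h1 : a < m)
    (h2 : m < b) (hm : m ∉ S) : ∃ x1 ∈ S, ∃ x2 ∈ S, a ≤ x1 ∧ x1 < m ∧ m < x2 ∧ x2 ≤ b ∧
      ∀ t, x1 < t → t < x2 → t ∉ S := by
  obtain ⟨x1, ⟨⟨a1, a2⟩, a3⟩, a4⟩ := ((isCompact_Icc (a := a) (b := m)).inter_right hS).exists_isGreatest
    ⟨a, ⟨le_rfl, h1.le⟩, ha⟩
  obtain ⟨x2, ⟨⟨b1, b2⟩, b3⟩, b4⟩ := ((isCompact_Icc (a := m) (b := b)).inter_right hS).exists_isLeast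
    ⟨b, ⟨h2.le, le_rfl⟩, hb⟩
  refine ⟨x1, a3, x2, b3, a1, a2.lt_of_ne fun e => hm (e ▸ a3), b1.lt_of_ne fun e => hm (e ▸ b3),
    b2, fun t c d ht => ?_⟩
  rcases le_total t m with e | e
  · exact c.not_ge (a4 ⟨⟨a1.trans c.le, e⟩, ht⟩)
  · exact d.not_ge (b4 ⟨⟨e, d.le.trans b2⟩, ht⟩)

section
variable {C : CW} {k : C.W}

lemma gap_le {u v t : ℝ} (h : CW.Gap k u v) (ht : t ∈ CW.Lam k) (hu : u < t) : v ≤ t :=
  not_lt.1 fun c => h.2.2.2 t hu c ht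

lemma gap_ge {u v t : ℝ} (h : CW.Gap k u v) (ht : t ∈ CW.Lam k) (hv : t < v) : t ≤ u :=
  not_lt.1 fun c => h.2.2.2 t c hv ht

lemma x_lt (c1 : CW.Cell1 k) {u v : ℝ} (h : CW.Gap k u v) {w : C.W} (hw : w ∈ CW.K k)
    (a : C.x w < v) : C.x w < u :=
  (gap_ge h (subset_closure ⟨w, hw, Or.inl rfl⟩) a).lt_of_ne (c1.gapE u v h w).1

lemma x_gt (c1 : CW.Cell1 k) {u v : ℝ} (h : CW.Gap k u (v + 2 * π)) {w : C.W} (hw : w ∈ CW.K k)
    (a : u - 2 * π < C.x w) : v < C.x w := by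
  have h' : CW.Gap k (u - 2 * π) v := FMir.gap_up.1 (by rwa [sub_add_cancel])
  exact (gap_le h' (subset_closure ⟨w, hw, Or.inl rfl⟩) a).lt_of_ne (c1.gapE _ v h' w).2.1.symm

lemma y_gt (c1 : CW.Cell1 k) {u v : ℝ} (h : CW.Gap k u v) {w : C.W} (hw : w ∈ CW.K k)
    (a : u < C.y w) : v < C.y w :=
  (gap_le h (subset_closure ⟨w, hw, Or.inr rfl⟩) a).lt_of_ne (c1.gapE u v h w).2.2.2.symm

/-- a limit of plus ends which is the lower end of a gap is the end of a node -/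
lemma nodeL (hn : NodeSt) {p v x : ℝ} (g : CW.Gap k x v) (hx : x ∈ CW.Xi k p) (a : p < x)
    (b : v < p + 2 * π) : CW.Node k true (v - 2 * π) x := by
  refine (hn C k).2.2.2.2.1 _ x ((p + x) / 2) (by rwa [sub_add_cancel]) (by linarith)
    fun δ d0 => ?_
  obtain ⟨e, e0, e1, e2, e3, -⟩ := sm4 d0 (show 0 < (x - p) / 2 by linarith) (sub_pos.2 b) d0
  obtain ⟨w, m, c, d⟩ := hx e e0
  rw [abs_lt] at c
  exact ⟨w, m, by linarith [c.2], by linarith [c.1], d.trans_le e1⟩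

lemma nodeR (hn : NodeSt) {p u x : ℝ} (g : CW.Gap k u x) (hx : x ∈ CW.Xi k p) (a : p < u)
    (b : x < p + 2 * π) : CW.Node k false u x := by
  refine (hn C k).2.2.2.2.2.1 _ x ((p + x - 2 * π) / 2) g (by linarith) fun δ d0 => ?_
  obtain ⟨e, e0, e1, e2, e3, -⟩ :=
    sm4 d0 (show 0 < (p + 2 * π - x) / 2 by linarith) (sub_pos.2 a) d0
  obtain ⟨w, m, c, d⟩ := hx e e0
  rw [abs_lt] at c
  exact ⟨w, m, by linarith [c.1], by linarith [c.2], d.trans_le e1⟩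

variable (k) in
/-- there is a good walk of length `n` -/
def Long : ℕ → Bool × ℝ × ℝ → Prop
  | 0, _ => True
  | n + 1, a => ∃ b, CW.Edge k a b ∧ Long n b

lemma Long.pred : ∀ {n : ℕ} {a : Bool × ℝ × ℝ}, Long k (n + 1) a → Long k n a
  | 0, _, _ => trivial
  | _ + 1, _, ⟨b, e, l⟩ => ⟨b, e, l.pred⟩

lemma Long.act (hn : NodeSt) {g : ℝ ≃o ℝ} (s : CW.Stab k g) :
    ∀ {n : ℕ} {a : Bool × ℝ × ℝ}, Long k n a → Long k n (a.1, g a.2.1, g a.2.2)
  | 0, _, _ => trivial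
  | _ + 1, _, ⟨_, e, l⟩ => ⟨_, (hn C k).2.2.2.1 g s _ _ e, l.act hn s⟩

lemma Long.mir : ∀ {n : ℕ} {a : Bool × ℝ × ℝ}, Long (C := C.mir) k n a → Long k n (FMir.mn a)
  | 0, _, _ => trivial
  | _ + 1, _, ⟨_, e, l⟩ => ⟨_, FMir.edge e, l.mir⟩

lemma up (c1 : CW.Cell1 k) (hn : NodeSt) {n : ℕ} {s : Bool} {p q : ℝ} (a : CW.Node k s p q)
    (l : Long k n (s, p, q)) :
    CW.Node k s (p + 2 * π) (q + 2 * π) ∧ Long k n (s, p + 2 * π, q + 2 * π) := by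
  obtain ⟨T, m, e⟩ := C.cg.sh
  have st : CW.Stab k T := c1.sh T m 1 (by simpa using e)
  have := l.act hn st
  have b := (hn C k).2.2.1 T st _ _ _ a
  simp only [e] at this b
  exact ⟨b, this⟩

lemma close (c2 : CW.Cell2 k) (h : ∀ n, ∃ a, Long k n a) :
    ∃ s p q h, CW.Stab k h ∧ Relation.TransGen (CW.Edge k) (s, p, q) (s, h p, h q) := by
  classical
  by_contra hc
  obtain ⟨N, c, H⟩ := c2.fin
  let cl : Bool × ℝ × ℝ → Bool × Fin N := fun a => (a.1, c (if a.1 then a.2.2 else a.2.1))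
  have key : ∀ n a, Long k n a → ∃ S : Finset (Bool × Fin N), S.card = n ∧ ∀ i ∈ S, ∃ b,
      Relation.ReflTransGen (CW.Edge k) a b ∧ CW.Node k b.1 b.2.1 b.2.2 ∧ cl b = i := by
    intro n
    induction n with
    | zero => exact fun a _ => ⟨∅, rfl, by simp⟩
    | succ n ih =>
      rintro ⟨s, p, q⟩ ⟨b, e, l⟩
      obtain ⟨S, a1, a2⟩ := ih b l
      have nm : cl (s, p, q) ∉ S := fun m => by
        obtain ⟨⟨s', p', q'⟩, r, nd, eq⟩ := a2 _ m
        obtain ⟨rfl, eq⟩ := Prod.mk.inj eq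
        have t := Relation.TransGen.head' e r
        cases s'
        · obtain ⟨h, st, f1, f2⟩ := H p q p' q' e.src.gap nd.gap eq.symm
          exact hc ⟨false, p, q, h, st, by rwa [f1, f2]⟩
        · obtain ⟨h, st, f1, f2⟩ := H q _ q' _ e.src.gap nd.gap eq.symm
          rw [C.cg.per h st.1, add_left_inj] at f2
          exact hc ⟨true, p, q, h, st, by rwa [f1, f2]⟩
      refine ⟨insert _ S, by rw [Finset.card_insert_of_notMem nm, a1], fun i hi => ?_⟩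
      rcases Finset.mem_insert.1 hi with rfl | hi
      · exact ⟨_, .refl, e.src, rfl⟩
      · obtain ⟨b', r, f⟩ := a2 i hi
        exact ⟨b', .head e r, f⟩
  obtain ⟨a, l⟩ := h (Fintype.card (Bool × Fin N) + 1)
  obtain ⟨S, a1, -⟩ := key _ a l
  have := S.card_le_univ
  omega

end

variable {C : CS} {k : C.W}

/-- the jump lemma at a node with the gap on the right -/
lemma jumpR (hj : JumpSt) {p q x1 m x2 : ℝ} (nd : CW.Node k false p q) (o1 : q < x1) (o2 : x1 < m)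
    (o3 : m < x2) (o4 : x2 < p + 2 * π) (hm : m ∈ CW.Lam k) (h1 : x1 ∈ CW.Xi k p)
    (h2 : x2 ∈ CW.Xi k p) (no : ∀ t, x1 < t → t < x2 → t ∉ CW.Xi k p) :
    (∃ u μ, CW.Gap k u x2 ∧ u ≤ μ ∧ μ ≤ x2 ∧ C.Fing (CW.K k) p x1 μ) ∨
    ∀ ε, 0 < ε → ∃ μ ξ a, x1 ≤ μ ∧ μ ≤ m ∧ ξ < p ∧ |a - x2| < ε ∧ C.Fing (CW.K k) ξ a μ := by
  have hm' : 2 * π - m ∈ CW.Lam (C := C.toCW.mir) k := FMir.lam'.2 (by rwa [sub_sub_cancel])
  have fg : ∀ ξ a μ, C.mir.Fing (CW.K (C := C.toCW.mir) k) ξ a μ →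
      C.Fing (CW.K k) (-ξ) (2 * π - a) (2 * π - μ) := fun ξ a μ h => by
    rw [FMir.K_eq] at h
    exact FMir.fing.1 h
  rcases hj C.mir k (-p) (2 * π - q) (2 * π - x2) (2 * π - m) (2 * π - x1)
    (FMir.node.2 (by simpa using nd)) (by linarith) (by linarith) (by linarith) (by linarith) hm'
    (FMir.xi.2 (by simpa using h2)) (FMir.xi.2 (by simpa using h1))
    (fun t a b c => no (2 * π - t) (by linarith) (by linarith) (by simpa using FMir.xi.1 c))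
    with ⟨v, μ, g, e, f⟩ | ⟨-, h⟩ | ⟨u, μ, g, e, h⟩
  · have := g.1
    refine Or.inl ⟨2 * π - v, 2 * π - μ, by simpa using FMir.gap'.1 g, ?_, ?_,
      by simpa using fg _ _ _ f⟩ <;> rcases e with e | e <;> linarith
  · refine Or.inr fun ε e0 => ?_
    obtain ⟨u, b, μ, ξ, a, g, a1, a2, e, a3, -, a4, f⟩ := h ε e0
    have := g.1
    refine ⟨2 * π - μ, -ξ, 2 * π - a, ?_, ?_, by linarith, by rwa [FMir.ab2], fg _ _ _ f⟩ <;>
      rcases e with e | e <;> linarith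
  · refine Or.inr fun ε e0 => ?_
    obtain ⟨ξ, a, η, a3, -, a4, f, -⟩ := h ε e0
    have := g.1
    have := gap_ge g hm' (by linarith)
    refine ⟨2 * π - μ, -ξ, 2 * π - a, ?_, ?_, by linarith, by rwa [FMir.ab2], fg _ _ _ f⟩ <;>
      rcases e with e | e <;> linarith

/-- one ball at `l` is avoided by all walls with both ends in `(b, p + 2π)` -/
def Av (C : CS) (p l b : ℝ) : Prop := ∃ e, 0 < e ∧ ∀ g, C.x g < p → b < C.y g → ¬C.nr g l e

def P (C : CS) (p q x : ℝ) : Prop := ∀ l, q < l → l ≤ x → ∀ b, x < b → Av C p l b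

lemma Av.up {p u l b : ℝ} (h : Av C p (l - 2 * π) (b - 2 * π)) (a : u ≤ p + 2 * π) : Av C u l b := by
  obtain ⟨e, e0, h⟩ := h
  refine ⟨e, e0, fun g c d n => ?_⟩
  obtain ⟨g', g1, g2, g3⟩ := C.shift g (-1)
  push_cast at g1 g2
  refine h g' (by linarith) (by linarith) ((g3 _ _).2 ?_)
  have := (C.per g l e (-1)).2 n
  simpa [sub_eq_add_neg] using this

lemma shield {u l b : ℝ} (m : C.W) (a1 : C.x m < l - 2 * π) (a2 : l - 2 * π < C.y m)
    (a3 : u ≤ C.x m + 2 * π) (a4 : C.y m ≤ b - 2 * π) : Av C u l b := by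
  obtain ⟨e, e0, h⟩ := C.avR m _ a1 a2
  exact Av.up ⟨e, e0, fun g c d => h g c (by linarith)⟩ a3

lemma tip {u l b μ ξ a : ℝ} {F : Set C.W} (m : C.W) (f : C.Fing F ξ a μ) (a1 : u ≤ μ) (a2 : μ < l)
    (a3 : l < μ + 2 * π) (a4 : C.y m < l) (a5 : l < C.x m + 2 * π) (a6 : C.x m < ξ)
    (a7 : a < C.y m) (a8 : a < b - 2 * π) : Av C u l b := by
  obtain ⟨e1, p1, h1⟩ := C.avL m l a4 a5
  obtain ⟨e0, p0, h0⟩ := C.tipL μ l a2 a3
  refine ⟨min e0 e1, lt_min p0 p1, fun g c d n => ?_⟩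
  obtain ⟨g', g1, g2, g3⟩ := C.shift g (-1)
  push_cast at g1 g2
  obtain ⟨δ, d0, h⟩ := h0 _ (lt_min p0 p1) (min_le_left _ _) g' (by linarith)
  obtain ⟨e, b0, b1, b2, b3, b4⟩ := sm4 (lt_min d0 (sub_pos.2 a6)) (sub_pos.2 a7) (sub_pos.2 a8)
    (show 0 < ξ - C.x g' by linarith)
  obtain ⟨b1, b5⟩ := le_min_iff.1 b1
  obtain ⟨w, -, c1, c2, c3⟩ := f e b0
  obtain ⟨c1, -⟩ := abs_lt.1 c1
  obtain ⟨-, c2⟩ := abs_lt.1 c2
  exact h w (by linarith) (by linarith) (by linarith) (C.mono' _ _ _ _ c3 b1)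
    (fun n => h1 w (by linarith) (by linarith) (C.mono' _ _ _ _ n (min_le_right _ _)))
    ((g3 _ _).2 n)

lemma step (c1 : CW.Cell1 k) (hn : NodeSt) (hj : JumpSt) {p q p0 x : ℝ} (nd : CW.Node k false p q)
    (n0 : CW.Node k false p0 x) (o1 : q < x) (o2 : x < p + 2 * π) (hP : P C p q x) :
    CW.Edge k (false, p, q) (false, p0, x) ∨ ∃ u z, CW.Edge k (false, p, q) (false, u, z) ∧
      z < x + 2 * π ∧ x < u ∧ P C u z (x + 2 * π) := by
  have g : CW.Gap k p q := nd.gap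
  have g0 : CW.Gap k p0 x := n0.gap
  have pq := g.1
  by_cases hx : x ∈ CW.Xi k p
  · exact Or.inl ⟨nd, n0, pq.trans o1, o2, o1.ne', hx, fun e => (e rfl).elim⟩
  obtain ⟨⟨a, ha, a1, a2⟩, b, hb, b1, b2⟩ := (hn C.toCW k).2.2.2.2.2.2.2.1 p q x nd o1 o2
  obtain ⟨x1, h1, x2, h2, c1', c2, c3, c4, no⟩ := around ((hn C.toCW k).1 p).1 ha hb a2 b1 hx
  rcases jumpR hj nd (by linarith) c2 c3 (by linarith) g0.2.2.1 h1 h2 no with
    ⟨u, μ, gu, m1, m2, f⟩ | h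
  swap
  · obtain ⟨μ, ξ, a', m1, m2, m3, m4, f⟩ := h ((x2 - x) / 2) (by linarith)
    obtain ⟨e, e0, h⟩ := hP μ (by linarith) m2 ((x + a') / 2) (by linarith [(abs_lt.1 m4).1])
    obtain ⟨δ, d0, d1, d2, d3, -⟩ := sm4 e0 (sub_pos.2 m3)
      (show 0 < (a' - x) / 2 by linarith [(abs_lt.1 m4).1]) e0
    obtain ⟨w, -, f1, f2, f3⟩ := f δ d0
    exact (h w (by linarith [(abs_lt.1 f1).2]) (by linarith [(abs_lt.1 f2).1])
      (C.mono' _ _ _ _ f3 d1)).elim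
  have xu : x < u := (gap_ge gu g0.2.2.1 c3).lt_of_ne fun e => by
    obtain ⟨⟨t, m, t1, t2⟩, -⟩ := c1.gapN u x2 gu (x - p0) (sub_pos.2 g0.1)
    exact g0.2.2.2 t (by linarith) (by linarith) (subset_closure m)
  have ux := gu.1
  refine Or.inr ⟨u, x2, ⟨nd, nodeR hn gu h2 (by linarith) (by linarith), by dsimp only; linarith,
    by dsimp only; linarith, by dsimp only; linarith [show q < x2 by linarith] , h2,
    fun e => (e rfl).elim⟩, by linarith, xu, fun l l1 l2 b' b3 => ?_⟩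
  rcases lt_or_ge l (p + 2 * π) with c | c
  · obtain ⟨δ, d0, d1, d2, d3, d4⟩ := sm4 (sub_pos.2 l1) (sub_pos.2 c)
      (show 0 < x2 - x1 by linarith) (sub_pos.2 pq)
    obtain ⟨w, m, w1, w2⟩ := h2 δ d0
    obtain ⟨w1, w3⟩ := abs_lt.1 w1
    obtain ⟨w2, w4⟩ := abs_lt.1 w2
    exact tip w f m1 (by linarith) (by linarith) (by linarith) (by linarith)
      (x_lt c1 g m (by linarith)) (by linarith) (by linarith)
  rcases lt_or_ge (l - 2 * π) x1 with c' | c'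
  · obtain ⟨δ, d0, d1, d2, d3, d4⟩ := sm4 (sub_pos.2 c') (show 0 < p + 2 * π - u by linarith)
      (show 0 < b' - 2 * π - x1 by linarith) (sub_pos.2 pq)
    obtain ⟨w, m, w1, w2⟩ := h1 δ d0
    obtain ⟨w1, w3⟩ := abs_lt.1 w1
    obtain ⟨w2, w4⟩ := abs_lt.1 w2
    exact shield w (by linarith [x_lt c1 g m (by linarith)]) (by linarith) (by linarith)
      (by linarith)
  · exact (hP (l - 2 * π) (by linarith) (by linarith) (b' - 2 * π) (by linarith)).up (by linarith)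

lemma chain (c1 : CW.Cell1 k) (hn : NodeSt) (hj : JumpSt) (n : ℕ) : ∀ p q p0 x : ℝ,
    CW.Node k false p q → CW.Node k false p0 x → q < x → x < p + 2 * π → P C p q x →
    Long k n (false, p0, x) → Long k (n + 1) (false, p, q) := by
  induction n with
  | zero =>
    intro p q p0 x nd n0 o1 o2 hP _
    rcases step c1 hn hj nd n0 o1 o2 hP with e | ⟨u, z, e, -⟩ <;> exact ⟨_, e, trivial⟩
  | succ n ih =>
    intro p q p0 x nd n0 o1 o2 hP l
    rcases step c1 hn hj nd n0 o1 o2 hP with e | ⟨u, z, e, a, b, c⟩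
    · exact ⟨_, e, l⟩
    · obtain ⟨d, l⟩ := up c1 hn n0 l.pred
      exact ⟨_, e, ih u z _ _ e.tgt d a (by linarith) c l⟩

/-- at a node without good edge every jump produces an isolated end of the other type -/
lemma bad (hn : NodeSt) (hj : JumpSt) {p q x1 m x2 : ℝ} (nd : CW.Node k true p q)
    (hb : ∀ b, ¬CW.Edge k (true, p, q) b) (o1 : p < x1) (o2 : x1 < m) (o3 : m < x2) (o4 : x2 < q)
    (hm : m ∈ CW.Lam k) (h1 : x1 ∈ CW.Xi k p) (h2 : x2 ∈ CW.Xi k p)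
    (no : ∀ t, x1 < t → t < x2 → t ∉ CW.Xi k p) :
    ∃ u μ, CW.Node k false u x2 ∧ m ≤ u ∧ u ≤ μ ∧ μ ≤ x2 ∧
      (∃ ε, 0 < ε ∧ ∀ t ∈ CW.Xi k p, t ≠ x2 → ε ≤ |t - x2|) ∧
      ∀ ε, 0 < ε → ∃ ξ a, p < ξ ∧ |a - x1| < ε ∧ C.Fing (CW.K k) ξ a μ := by
  have g : CW.Gap k q (p + 2 * π) := nd.gap
  have qp := g.1
  have L : ∀ x v, CW.Gap k x v → x ∈ CW.Xi k p → p < x → x < q → False := fun x v a b c d =>
    hb (true, v - 2 * π, x) ⟨nd, nodeL hn a b c (by linarith [gap_le a g.2.1 d]), c,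
      by dsimp only; linarith, d.ne, b, fun e => (e rfl).elim⟩
  rcases hj C k p q x1 m x2 nd o1 o2 o3 o4 hm h1 h2 no with
    ⟨v, -, a, -⟩ | ⟨⟨v, a⟩, -⟩ | ⟨u, μ, a, e, h⟩
  · exact (L _ _ a h1 o1 (by linarith)).elim
  · exact (L _ _ a h2 (by linarith) o4).elim
  have mu := gap_ge a hm o3
  have n2 : CW.Node k false u x2 := nodeR hn a h2 (by linarith) (by linarith)
  have := a.1
  refine ⟨u, μ, n2, mu, by rcases e with e | e <;> linarith, by rcases e with e | e <;> linarith,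
    ?_, fun ε e0 => ?_⟩
  · by_contra c
    push Not at c
    refine hb (false, u, x2) ⟨nd, n2, by dsimp only; linarith, by dsimp only; linarith, o4.ne, h2,
      fun _ => ⟨fun ε e0 => ?_, c⟩⟩
    obtain ⟨-, -, η, -, -, -, -, η0, h⟩ := h ε e0
    refine ⟨η, η0, fun δ d0 => ?_⟩
    obtain ⟨w, b, b1, b2, b3⟩ := h δ d0
    have : |C.x w - p| = C.x w - p := abs_of_pos (by linarith)
    exact ⟨w, b, by dsimp only; linarith, by dsimp only; linarith, b3⟩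
  · obtain ⟨ξ, a', -, b1, -, b2, b3, -⟩ := h ε e0
    exact ⟨ξ, a', b1, b2, b3⟩

lemma badL (h1 : Cell1St) (hn : NodeSt) (hj : JumpSt) {p q : ℝ} (nd : CW.Node k true p q)
    (hb : ∀ b, ¬CW.Edge k (true, p, q) b) (n : ℕ) : ∃ a, Long k n a := by
  have c1 := h1 C.toCW k
  have g : CW.Gap k q (p + 2 * π) := nd.gap
  have qp := g.1
  have cl := ((hn C.toCW k).1 p).1
  suffices H : ∃ u z, CW.Node k false u z ∧ z ∈ CW.Xi k p ∧ p < z ∧ z < q ∧
      (∃ ε, 0 < ε ∧ ∀ t ∈ CW.Xi k p, t ≠ z → ε ≤ |t - z|) ∧ Long k n (false, u, z) by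
    obtain ⟨u, z, -, -, -, -, -, l⟩ := H
    exact ⟨_, l⟩
  induction n with
  | zero =>
    obtain ⟨h, st, a1, a2, a3⟩ := (hn C.toCW k).2.2.2.2.2.2.2.2 true p q nd
    have hm : h q ∈ CW.Lam k := (c1.lam h st q).2 g.2.1
    have a4 : h q < q := (gap_ge g hm a2).lt_of_ne a3
    have hx : h q ∉ CW.Xi k p := fun e => hb (true, h p, h q)
      ⟨nd, (hn C.toCW k).2.2.1 h st _ _ _ nd, a1, a2, a3, e, fun e => (e rfl).elim⟩
    obtain ⟨⟨a, ha, b1, b2⟩, b, hb', b3, b4⟩ := (hn C.toCW k).2.2.2.2.2.2.1 p q _ nd a1 a4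
    obtain ⟨x1, m1, x2, m2, d1, d2, d3, d4, no⟩ := around cl ha hb' b2 b3 hx
    obtain ⟨u, μ, n2, -, -, -, iso, -⟩ :=
      bad hn hj nd hb (by linarith) d2 d3 (by linarith) hm m1 m2 no
    exact ⟨u, x2, n2, m2, by linarith, by linarith, iso, trivial⟩
  | succ n ih =>
    obtain ⟨u1, z1, n1, m1, a1, a2, ⟨ε, e0, iso⟩, l⟩ := ih
    have g1 : CW.Gap k u1 z1 := n1.gap
    obtain ⟨-, m, hm, b1, b2⟩ := c1.gapN u1 z1 g1 _ (lt_min e0 (sub_pos.2 a2))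
    have b3 := min_le_left ε (q - z1)
    have b4 := min_le_right ε (q - z1)
    have far : ∀ t ∈ CW.Xi k p, z1 < t → m < t := fun t a b => by
      have := iso t a b.ne'
      rw [abs_of_pos (sub_pos.2 b)] at this
      linarith
    obtain ⟨-, b, hb', b5, b6⟩ :=
      (hn C.toCW k).2.2.2.2.2.2.1 p q m nd (by linarith) (by linarith)
    obtain ⟨x1, m1', z, m2, d1, d2, d3, d4, no⟩ :=
      around cl m1 hb' b1 b5 fun e => lt_irrefl _ (far m e b1)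
    obtain rfl : z1 = x1 := d1.eq_of_not_lt fun e => d2.not_gt (far _ m1' e)
    obtain ⟨u, μ, n2, f1, f2, f3, iso', f⟩ :=
      bad hn hj nd hb a1 d2 d3 (by linarith) (subset_closure hm) m1 m2 no
    have g2 : CW.Gap k u z := n2.gap
    have uz := g2.1
    obtain ⟨n3, l⟩ := up c1 hn n1 l
    refine ⟨u, z, n2, m2, by linarith, by linarith, iso', chain c1 hn hj n u z _ _ n2 n3
      (by linarith) (by linarith) (fun l l1 l2 b' l3 => ?_) l⟩
    rcases le_or_gt l (p + 2 * π) with c | c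
    · obtain ⟨ξ, a, r1, r2, r3⟩ := f _ (lt_min (show 0 < (z - z1) / 2 by linarith)
        (show 0 < b' - 2 * π - z1 by linarith))
      obtain ⟨r2, r4⟩ := lt_min_iff.1 (abs_lt.1 r2).2
      obtain ⟨δ, d0, s1, s2, s3, s4⟩ := sm4 (sub_pos.2 l1) (sub_pos.2 r1)
        (show 0 < (z - z1) / 2 by linarith) (sub_pos.2 qp)
      obtain ⟨w, mw, w1, w2⟩ := m2 δ d0
      obtain ⟨w1, w3⟩ := abs_lt.1 w1
      obtain ⟨w2, w4⟩ := abs_lt.1 w2
      exact tip w r3 f2 (by linarith) (by linarith) (by linarith)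
        (by linarith [x_gt c1 g mw (by linarith)]) (by linarith) (by linarith) (by linarith)
    · obtain ⟨δ, d0, s1, s2, s3, s4⟩ := sm4 (sub_pos.2 c) (sub_pos.2 g1.1)
        (show 0 < p + 2 * π - u by linarith) (show 0 < b' - 2 * π - z1 by linarith)
      obtain ⟨w, mw, w1, w2⟩ := m1 δ d0
      obtain ⟨w1, w3⟩ := abs_lt.1 w1
      obtain ⟨w2, w4⟩ := abs_lt.1 w2
      exact shield w (by linarith) (by linarith [y_gt c1 g1 mw (by linarith)]) (by linarith)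
        (by linarith)

end FWlk

open FWlk in
theorem walk (h1 : Cell1St) (h2 : Cell2St) (hn : NodeSt) (hj : JumpSt) : WalkSt := by
  rintro C k ⟨s, p, q, nd⟩
  refine close (h2 C.toCW k) fun n => ?_
  by_cases c : ∀ a : Bool × ℝ × ℝ, CW.Node k a.1 a.2.1 a.2.2 → ∃ b, CW.Edge k a b
  · suffices H : ∀ a : Bool × ℝ × ℝ, CW.Node k a.1 a.2.1 a.2.2 → Long k n a from
      ⟨(s, p, q), H _ nd⟩
    induction n with
    | zero => exact fun _ _ => trivial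
    | succ n ih =>
      intro a h
      obtain ⟨b, e⟩ := c a h
      exact ⟨b, e, ih b e.tgt⟩
  push Not at c
  obtain ⟨⟨s, p, q⟩, nd, hb⟩ := c
  cases s
  · obtain ⟨a, l⟩ := badL (C := C.mir) (k := k) (p := -p) (q := 2 * π - q) h1 hn hj
      (FMir.node.2 (by simpa using nd))
      (fun b e => hb (FMir.mn b) (by simpa [FMir.mn] using FMir.edge e)) n
    exact ⟨_, Long.mir (C := C.toCW) l⟩
  · exact badL h1 hn hj nd hb n

end

end Pool.Agent.Lib.MP_21f752_an
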