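import Pool.Agent.Lib.MP_21f752_an.FZ3

/-! Every unit vector lies on a global invariant field. -/

namespace Pool.Agent.Lib.MP_21f752_an

open UpperHalfPlane Set Filter Topology Metric

namespace FZor

variable {S : Sys} {C : ℝ} {E : Set Gm} {R : Lf → Lf → Prop}

def LB (z : ℍ) (p : Tot) (E : Set Gm) : Prop :=
  ∀ a, Used E a → ∀ q r, a.1 = some (q, r) → ∃ p', Rl E (ray z q) 0 p r p'

lemma root (hb : BoxSt) (hg : GlueSt) (hC : 0 < C) (hc : S.Curves C) (ξ : N) :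
    ∃ E R s, Pre S C E R ∧ (ξ.1, s) ∈ E ∧ dev S (s ξ.1) = ξ ∧ ∀ a, Used E a → a.1 = none := by
  obtain ⟨ε, hε, a, a0, ha⟩ := hc ξ
  have P : Pre S C ∅ fun _ _ => False :=
    ⟨fun h => h.elim, fun h => h.elim, fun h => h.elim, fun h => h.elim, fun h => h.elim,
      fun h => h.elim, fun h => h.elim, fun _ h => h, fun h => h.elim, fun h => h.elim,
      fun h => h.elim⟩
  have D : Dat S C ∅ (fun _ _ => False) (fun η => ((none, η, (S.sg ξ η, a η)), 0)) ε 0 none :=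
    ⟨fun η h => by simpa only [dev, S.φ_zero] using ha η h, fun η _ h => by simp at h,
      fun η _ _ => ⟨rfl, rfl⟩, fun _ ⟨_, _, h, _⟩ => h.elim, fun _ h => h.elim,
      fun x _ _ _ h => by simp at h⟩
  have z0 : |((0, 0) : ℝ × ℝ).2| < ε := by simpa
  obtain ⟨iv, -, -, k, -⟩ := ch_ex (x := (0, 0)) hb hC (D.pc _ z0)
  have m := (D.all hb hC P z0 k).1
  have k0 := k.self_of_nhds
  have c0 : Fb S (fun η => ((none, η, (S.sg ξ η, a η)), 0)) (0, 0) = ξ.1 := by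
    simp only [Fb, sh_zero, dev, S.φ_zero, sg_zero]
  rw [c0] at m k0
  refine ⟨_, _, _, D.ext hb hg hC P, m, ?_, ?_⟩
  · refine (congrArg (dev S) k0).trans ?_
    simp only [sh_zero, dev, S.φ_zero, sg_zero, a0]
  · rintro _ ⟨z, s, m | ⟨x, hx, h0, rfl, hs⟩, rfl⟩
    · exact m.elim
    · exact (congrArg (fun p : Tot => p.1.1) hs.self_of_nhds).trans rfl

lemma chain {c : Set (Set Gm × (Lf → Lf → Prop))} (hc : IsChain (· ≤ ·) c)
    (h : ∀ x ∈ c, Pre S C x.1 x.2) :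
    Pre S C {g | ∃ x ∈ c, g ∈ x.1} fun a b => ∃ x ∈ c, x.2 a b := by
  have two : ∀ x ∈ c, ∀ y ∈ c, ∃ w ∈ c, x ≤ w ∧ y ≤ w := fun x hx y hy => hc.directedOn x hx y hy
  refine ⟨?_, ?_, ?_, ?_, ?_, ?_, ?_, ?_, ?_, ?_, ?_⟩
  · rintro z s s' ⟨x, hx, m⟩ k
    exact ⟨x, hx, (h x hx).eq m k⟩
  · rintro z s ⟨x, hx, m⟩
    exact ((h x hx).opn m).mono fun w k => ⟨x, hx, k⟩
  · rintro z s ⟨x, hx, m⟩
    exact (h x hx).sec m
  · rintro z s ⟨x, hx, m⟩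
    exact (h x hx).gd m
  · rintro z s ⟨x, hx, m⟩ t
    obtain ⟨s2, a, b⟩ := (h x hx).fl m t
    exact ⟨s2, ⟨x, hx, a⟩, b⟩
  · rintro z s z' s' ⟨x, hx, m⟩ ⟨y, hy, m'⟩
    obtain ⟨w, hw, a, b⟩ := two x hx y hy
    exact (h w hw).uv (a.1 m) (b.1 m')
  · rintro z s s' ⟨x, hx, m⟩ ⟨y, hy, m'⟩
    obtain ⟨w, hw, a, b⟩ := two x hx y hy
    exact (h w hw).sep (a.1 m) (b.1 m')
  · rintro a ⟨x, hx, m⟩
    exact (h x hx).irr a m
  · rintro a b d ⟨x, hx, m⟩ ⟨y, hy, m'⟩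
    obtain ⟨w, hw, u, v⟩ := two x hx y hy
    exact ⟨w, hw, (h w hw).tra (u.2 _ _ m) (v.2 _ _ m')⟩
  · rintro z s ⟨x, hx, m⟩
    exact ((h x hx).inc m).mono fun w k k' => ⟨x, hx, k k'⟩
  · rintro a b ⟨x, hx, m⟩
    obtain ⟨⟨z, s, u, v⟩, z', s', u', v'⟩ := (h x hx).usd m
    exact ⟨⟨z, s, ⟨x, hx, u⟩, v⟩, z', s', ⟨x, hx, u'⟩, v'⟩

lemma ray_c (z q : ℍ) : Continuous (ray z q) :=
  (ray_cont z).comp (continuous_const.prodMk continuous_id)

lemma rays (hb : BoxSt) (hg : GlueSt) (hC : 0 < C) (hc : S.Curves C) {z : ℍ} {s0 : ℍ → Tot}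
    (P : Pre S C E R) (B : LB z (s0 z) E) (m0 : (z, s0) ∈ E)
    (mx : ∀ E' R', Pre S C E' R' → LB z (s0 z) E' → E ⊆ E' → R ≤ R' → E' ⊆ E) (q : ℍ) :
    ∃ p, Rl E (ray z q) 0 (s0 z) 1 p := by
  have r0 : Rl E (ray z q) 0 (s0 z) 0 (s0 z) := by
    have := Rl.refl (γ := ray z q) (a := 0) (s := s0) (by rwa [ray_zero])
    rwa [ray_zero] at this
  obtain ⟨I, J, i0, -, -, ic, j1, j2, g1, -⟩ := maxl P isOpen_univ ordConnected_univ
    (ray_c z q).continuousOn (mem_univ 0) r0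
  by_contra hn
  have n1 : (1 : ℝ) ∉ I := fun h => hn ⟨_, j1 1 h⟩
  have op : ∀ b ∈ I, I ∈ 𝓝 b := fun b h => by
    obtain ⟨s, -, k⟩ := g1 b h
    exact k.mono fun y hy => hy.1
  have bd : ∀ b ∈ I, b ≤ 1 := fun b h => not_lt.1 fun k => n1 (ic.out i0 h ⟨zero_le_one, k.le⟩)
  have lub := isLUB_csSup ⟨0, i0⟩ ⟨1, bd⟩
  set r := sSup I
  have nr : r ∉ I := fun h => by
    obtain ⟨y, u, v⟩ := ((eventually_nhdsWithin_of_eventually_nhds (s := Ioi r) (op r h)).and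
      self_mem_nhdsWithin).exists
    exact (lub.1 u).not_gt v
  have rp : 0 < r := (lub.1 i0).lt_of_ne fun h => nr (h ▸ i0)
  have sub : Ioo 0 r ⊆ I := fun y hy => by
    obtain ⟨b, u, v, -⟩ := lub.exists_between hy.2
    exact ic.out i0 u ⟨hy.1.le, v.le⟩
  have evI : ∀ᶠ y in 𝓝[<] r, y ∈ I := mem_of_superset (Ioo_mem_nhdsLT rp) sub
  obtain ⟨M, M0, hM⟩ := ang_lip hg S hC
  have K0 : 0 ≤ ‖(q : ℂ) - z‖ / min z.im q.im :=
    div_nonneg (norm_nonneg _) (lt_min z.im_pos q.im_pos).le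
  have l1 := hM E R _ I J _ P ic (fun b _ => (ray_c z q).continuousAt) g1
    fun x _ y _ => ray_lip z q x y
  obtain ⟨g, hg1, hg2⟩ := (LipschitzOnWith.of_dist_le_mul (s := I) (f := fun y => (dev S (J y)).2)
    (K := ⟨_, mul_nonneg M0 K0⟩) fun x hx y hy => l1 y hy x hx).extend_real
  have cv : Tendsto (fun y => dev S (J y)) (𝓝[<] r) (𝓝 (ray z q r, g r)) := by
    refine ((((ray_c z q).prodMk hg1.continuous).tendsto r).mono_left nhdsWithin_le_nhds).congr'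
      (evI.mono fun y hy => Prod.ext ?_ (hg2 hy).symm)
    obtain ⟨s, m, k⟩ := g1 y hy
    exact (P.sec m).symm.trans (congrArg (fun p => (dev S p).1) k.self_of_nhds.2)
  obtain ⟨E', R', P', e1, e2, e3, s, m, k⟩ := step (lab := some (q, r)) hb hg hC hc P (ray_c z q)
    (evI.mono fun y hy => (g1 y hy).imp fun s h => ⟨h.1, h.2.mono fun _ k => k.2⟩) cv
    (fun a u v => (B a u q r v).elim fun p h => nr (j2 r (mem_univ _) p h))
  have lf : Rl E' (ray z q) 0 (s0 z) r (s (ray z q r)) := by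
    obtain ⟨y, u, v, w⟩ := ((eventually_nhdsWithin_of_eventually_nhds (Rl.loc (p := s0 z) P'
      isOpen_univ ordConnected_univ (ray_c z q).continuousOn (mem_univ 0) (mem_univ r) m)).and
      (k.and evI)).exists
    exact u.2.1 (v ▸ (j1 y w).sup e1)
  refine nr (j2 r (mem_univ _) _ (lf.sup (mx E' R' P' (fun a u q' r' v => ?_) e1 e2)))
  rcases e3 a u with h | h
  · exact (B a h q' r' v).imp fun p k => k.sup e1
  · obtain ⟨rfl, rfl⟩ : q' = q ∧ r' = r := by simpa [v] using h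
    exact ⟨_, lf⟩

lemma glob {z : ℍ} {s0 : ℍ → Tot} (P : Pre S C E R) (m0 : (z, s0) ∈ E)
    (h : ∀ q, ∃ p, Rl E (ray z q) 0 (s0 z) 1 p) : ∃ s, s z = s0 z ∧ ∀ q, (q, s) ∈ E := by
  choose p L hL h0 h1 using h
  rw [uIcc_of_le zero_le_one] at hL
  refine ⟨fun q => L q 1, ?_, fun q0 => ?_⟩
  · have := (hL z).uniq P (ray_c z z).continuousOn isPreconnected_Icc
      (lift_germ (s := s0) fun r _ => by rwa [ray_self]) (left_mem_Icc.2 zero_le_one)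
      (by rw [h0, ray_self]) (right_mem_Icc.2 zero_le_one)
    simpa only [ray_self] using this
  have key := isPreconnected_Icc.induction₂' (s := Icc (0 : ℝ) 1)
    (fun x y => (∃ s, (ray z q0 x, s) ∈ E ∧ ∀ᶠ q in 𝓝 q0, L q x = s (ray z q x)) →
      ∃ s, (ray z q0 y, s) ∈ E ∧ ∀ᶠ q in 𝓝 q0, L q y = s (ray z q y)) (fun x hx => ?_)
    (fun _ _ _ _ _ _ a b d => b (a d)) (left_mem_Icc.2 zero_le_one) (right_mem_Icc.2 zero_le_one)
    ⟨s0, by rwa [ray_zero], Eventually.of_forall fun q => by rw [h0, ray_zero]⟩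
  · obtain ⟨s, m, k⟩ := key
    simp only [ray_one] at m k
    exact P.eq m k
  obtain ⟨s, m, k⟩ := hL q0 x hx
  have e1 := ((ray_cont z).tendsto (q0, x)).eventually (P.opn m)
  rw [nhds_prod_eq, eventually_prod_iff] at e1
  obtain ⟨pa, ha, pb, hb, e1⟩ := e1
  obtain ⟨l, u, hlu, hB, hs⟩ := exists_Icc_mem_subset_of_mem_nhds hb
  have one : ∀ q, pa q → ∀ a ∈ Icc l u ∩ Icc 0 1, ∀ b ∈ Icc l u ∩ Icc 0 1,
      L q a = s (ray z q a) → L q b = s (ray z q b) := fun q hq a u1 b u2 u3 =>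
    ((hL q).mono inter_subset_right).uniq P (ray_c z q).continuousOn
      (ordConnected_Icc.inter ordConnected_Icc).isPreconnected
      (lift_germ fun r hr => e1 hq (hs hr.1)) u1 u3 u2
  have two : ∀ a ∈ Icc l u ∩ Icc 0 1, ∀ b ∈ Icc l u ∩ Icc 0 1,
      (∃ s, (ray z q0 a, s) ∈ E ∧ ∀ᶠ q in 𝓝 q0, L q a = s (ray z q a)) →
      ∃ s, (ray z q0 b, s) ∈ E ∧ ∀ᶠ q in 𝓝 q0, L q b = s (ray z q b) := by
    rintro a u1 b u2 ⟨s', m', k'⟩
    have v := P.uv m' (e1 ha.self_of_nhds (hs u1.1)) (k'.self_of_nhds.symm.trans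
      (one q0 ha.self_of_nhds x ⟨hlu, hx⟩ a u1 (k.self_of_nhdsWithin hx).symm))
    refine ⟨s, e1 ha.self_of_nhds (hs u2.1), ?_⟩
    filter_upwards [k', ha, (((ray_cont z).comp (continuous_id.prodMk continuous_const)).tendsto
      q0).eventually v] with q w1 w2 w3
    exact one q w2 a u1 b u2 (w1.trans w3)
  filter_upwards [mem_nhdsWithin_of_mem_nhds hB, self_mem_nhdsWithin] with y u1 u2
  exact ⟨two x ⟨hlu, hx⟩ y ⟨u1, u2⟩, two y ⟨u1, u2⟩ x ⟨hlu, hx⟩⟩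

end FZor

open FZor in
theorem zorn (hb : BoxSt) (hg : GlueSt) : ZornSt := by
  intro S C hC hc ξ
  obtain ⟨E0, R0, s0, P0, m0, d0, u0⟩ := root hb hg hC hc ξ
  obtain ⟨⟨E, R⟩, hle, ⟨P, B⟩, mx⟩ := zorn_le_nonempty₀
    {x : Set Gm × (Lf → Lf → Prop) | Pre S C x.1 x.2 ∧ LB ξ.1 (s0 ξ.1) x.1} (fun c h1 h2 _ _ =>
      ⟨(_, _), ⟨chain h2 fun x hx => (h1 hx).1, fun a ⟨z, s, ⟨x, hx, m⟩, e⟩ q r v =>
        ((h1 hx).2 a ⟨z, s, m, e⟩ q r v).imp fun _ k => k.sup fun g hg => ⟨x, hx, hg⟩⟩,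
        fun x hx => ⟨fun g hg => ⟨x, hx, hg⟩, fun a b h => ⟨x, hx, h⟩⟩⟩)
    (E0, R0) ⟨P0, fun a u q r v => by simp [u0 a u] at v⟩
  obtain ⟨s, e0, m⟩ := glob P (hle.1 m0) (rays hb hg hC hc P B (hle.1 m0)
    fun E' R' P' B' e1 e2 => (mx (y := (E', R')) ⟨P', B'⟩ ⟨e1, e2⟩).1)
  refine ⟨fun z => (dev S (s z)).2, by simp only [e0, d0], fun z t => ?_, fun z => P.gd (m z)⟩
  have e1 : (z, (dev S (s z)).2) = dev S (s z) := Prod.ext (P.sec (m z)).symm rfl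
  have c1 : Continuous fun t => (S.φ t (dev S (s z))).1 :=
    (S.continuous_φ.comp (continuous_id.prodMk continuous_const)).fst
  have := Lift.uniq (γ := fun t => (S.φ t (dev S (s z))).1) (L' := fun t => sh t (s z)) (a := 0) P
    c1.continuousOn isPreconnected_univ (lift_germ fun r _ => m _) (fun r _ => by
      obtain ⟨s2, m2, k2⟩ := P.fl (m z) r
      simp only [dev_sh] at m2 k2
      exact ⟨s2, m2, eventually_nhdsWithin_of_eventually_nhds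
        (((continuous_const.prodMk continuous_id).tendsto r).eventually k2)⟩) (mem_univ _)
    (by simp only [S.φ_zero, sh_zero, P.sec (m z)]) (mem_univ t)
  simp only [e1] at this ⊢
  rw [this, dev_sh]

end Pool.Agent.Lib.MP_21f752_an
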