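import Pool.Agent.Lib.MP_21f752_an.Ric

/-! If the vertical line never returns to the vertical line, normal Jacobi fields do not vanish. -/

namespace Pool.Agent.Lib.MP_21f752_an

open UpperHalfPlane Set Filter Topology Metric MeasureTheory
open scoped MatrixGroups ContDiff Real ENNReal

noncomputable section

namespace Sys

variable (S : Sys)

lemma lint_zero {G : N → ℝ≥0∞} (hm : Measurable G) (hi : S.Inv G) (h1 : ∫⁻ ξ, G ξ ∂S.ν = 0) :
    ∫⁻ ξ, G ξ ∂S.μ = 0 := by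
  calc _ = ∫⁻ ξ, ∑' p : S.Γ × ℤ, S.wt (gg p.1 (p.2 * (2 * π)) ξ) * G ξ ∂S.μ := by
        simp only [ENNReal.tsum_mul_right, tsum_gg, one_mul]
    _ = ∑' p : S.Γ × ℤ, ∫⁻ ξ, S.wt (gg p.1 (p.2 * (2 * π)) ξ) * G ξ ∂S.μ :=
        lintegral_tsum fun p =>
          ((S.measurable_wt.comp (continuous_gg _ _).measurable).mul hm).aemeasurable
    _ = 0 := by
        refine ENNReal.tsum_eq_zero.2 fun p => ?_
        rw [← h1, lint_ν, ← S.pres_gg p.1.2 (p.2 * (2 * π)) fun ξ => S.wt ξ * G ξ]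
        simp only [hi _ p.1.2]

lemma cont_φ (t : ℝ) : Continuous (S.φ t) :=
  S.continuous_φ.comp (continuous_const.prodMk continuous_id)

/-- an invariant function that does not decrease along the flow is almost everywhere constant -/
lemma mono_ae {G : N → ℝ} (hm : Measurable G) (hi : S.Inv G) (t : ℝ)
    (hle : ∀ ξ, G ξ ≤ G (S.φ t ξ)) : ∀ᵐ ξ ∂S.μ, G (S.φ t ξ) ≤ G ξ := by
  have hφ := (S.cont_φ t).measurable
  set H : N → ℝ≥0∞ := fun ξ => ENNReal.ofReal (Real.arctan (G ξ) + 2) with hH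
  have Hm : Measurable H :=
    ((Real.continuous_arctan.measurable.comp hm).add_const 2).ennreal_ofReal
  have Hi : S.Inv H := fun γ hγ k ξ => by simp only [hH, hi γ hγ]
  have e := S.unfold hφ (S.pres_φ t) (fun _ hγ k ξ => S.φ_gg hγ k t ξ) Hm Hi
  have fin : ∫⁻ ξ, H ξ ∂S.ν ≠ ⊤ := by
    refine ne_top_of_le_ne_top (b := ∫⁻ _, ENNReal.ofReal 4 ∂S.ν) ?_ (lintegral_mono fun ξ => ?_)
    · rw [lintegral_const]
      exact ENNReal.mul_ne_top ENNReal.ofReal_ne_top (measure_ne_top _ _)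
    · exact ENNReal.ofReal_le_ofReal
        (by linarith [Real.arctan_lt_pi_div_two (G ξ), Real.pi_le_four])
  have z := S.lint_zero (G := fun ξ => H (S.φ t ξ) - H ξ) ((Hm.comp hφ).sub Hm)
    (fun γ hγ k ξ => by simp only [S.φ_gg hγ, Hi γ hγ]) (by
      rw [lintegral_sub Hm fin (.of_forall fun ξ => ENNReal.ofReal_le_ofReal
        (by linarith [Real.arctan_strictMono.monotone (hle ξ)])), e, tsub_self])
  filter_upwards [(lintegral_eq_zero_iff ((Hm.comp hφ).sub Hm)).1 z] with ξ hξ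
  have := tsub_eq_zero_iff_le.1 (show H (S.φ t ξ) - H ξ = 0 from hξ)
  rw [ENNReal.ofReal_le_ofReal_iff
    (by linarith [Real.neg_pi_div_two_lt_arctan (G ξ), Real.pi_le_four])] at this
  exact Real.arctan_strictMono.le_iff_le.1 (by linarith)

namespace Lit

lemma cont_J : Continuous fun p : N × ℝ => S.J p.1 (0, 1) p.2 := by
  refine Continuous.clm_apply (continuous_iff_continuousAt.2 fun p => ?_) continuous_const
  exact ContinuousAt.comp (g := fderiv ℝ S.Φ) (f := fun p : N × ℝ => (p.2, emb p.1))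
    ((S.Φ_cd (p := (p.2, emb p.1)) p.1.1.im_pos).fderiv_right (m := ∞) (by simp)).continuousAt
    (continuous_snd.prodMk (continuous_emb.comp continuous_fst)).continuousAt

lemma cont_f : Continuous fun p : N × ℝ => S.φ p.2 p.1 := S.continuous_φ.comp continuous_swap

lemma cont_q : Continuous fun p : N × ℝ => S.jq p.1 (0, 1) p.2 :=
  (cont_J S).fst.div (S.continuous_V.comp (cont_f S)) fun _ => S.V_ne _

lemma cont_y : Continuous fun p : N × ℝ => S.jy p.1 p.2 := Complex.continuous_im.comp (cont_q S)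

lemma cont_a : Continuous fun p : N × ℝ => S.ja p.1 p.2 := Complex.continuous_re.comp (cont_q S)

lemma cont_w : Continuous fun p : N × ℝ => S.jw p.1 p.2 :=
  ((cont_J S).snd.add ((cont_y S).mul (((cont_dG fun _ hz => S.L_cd hz).clm_apply
    S.continuous_V).comp (cont_f S)))).sub ((cont_a S).mul (S.continuous_W.comp (cont_f S)))

lemma inv_y : S.Inv S.jy := fun γ hγ k ξ => funext fun t => (S.ci_jy t).inv γ hγ k ξ

lemma inv_w : S.Inv S.jw := fun γ hγ k ξ => funext fun t => by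
  have := S.hd_y (gg γ (k * (2 * π)) ξ) t
  rw [inv_y S γ hγ] at this
  exact this.unique (S.hd_y ξ t)

lemma hd_a (ξ : N) (t : ℝ) : HasDerivAt (S.ja ξ) (S.b (S.φ t ξ).1 * S.jy ξ t) t := S.hd_ja ξ _ t

lemma const_of {f : ℝ → ℝ} (h : ∀ t, HasDerivAt f 0 t) (t : ℝ) : f t = f 0 :=
  is_const_of_deriv_eq_zero (fun s => (h s).differentiableAt) (fun s => (h s).deriv) t 0

lemma inv_a : S.Inv S.ja := fun γ hγ k ξ => funext fun t => by
  have := const_of (f := fun t => S.ja (gg γ (k * (2 * π)) ξ) t - S.ja ξ t) (fun t =>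
    ((hd_a S _ t).sub (hd_a S ξ t)).congr_deriv (by
      rw [inv_y S γ hγ, S.φ_gg hγ, show S.b (gg γ _ _).1 = _ from S.ci_b.inv γ hγ k _, sub_self])) t
  simpa [ja_zero, sub_eq_zero] using this

/-- a second solution of the Jacobi equation -/
def u (ξ : N) (t : ℝ) : ℝ := (S.jq ξ (Complex.I * S.V ξ, 0) t).im

def v (ξ : N) (t : ℝ) : ℝ := S.jz ξ (Complex.I * S.V ξ, 0) t

lemma hd_u (ξ : N) (t : ℝ) : HasDerivAt (u S ξ) (v S ξ t) t := S.hd_jy ξ _ t

lemma hd_v (ξ : N) (t : ℝ) : HasDerivAt (v S ξ) (-(S.Km (S.φ t ξ) * u S ξ t)) t := S.hd_jz ξ _ t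

lemma u_zero (ξ : N) : u S ξ 0 = 1 := by
  rw [u, jq_zero, mul_div_cancel_right₀ _ (S.V_ne ξ), Complex.I_im]

lemma wr (ξ : N) (t : ℝ) : S.jw ξ t * u S ξ t - S.jy ξ t * v S ξ t = 1 := by
  have := const_of (f := fun t => S.jw ξ t * u S ξ t - S.jy ξ t * v S ξ t) (fun s =>
    (((S.hd_w ξ s).mul (hd_u S ξ s)).sub ((S.hd_y ξ s).mul (hd_v S ξ s))).congr_deriv (by ring)) t
  simpa [jw_zero, jy_zero, u_zero] using this

lemma rep (ξ : N) (s t : ℝ) :
    S.jy (S.φ s ξ) t = S.jy ξ (t + s) * u S ξ s - u S ξ (t + s) * S.jy ξ s ∧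
      S.jw (S.φ s ξ) t = S.jw ξ (t + s) * u S ξ s - v S ξ (t + s) * S.jy ξ s := by
  obtain ⟨C, -, hC⟩ := S.ci_Km.inv.bdd S.ci_Km.cont
  refine lin_uniq (k := fun t => S.Km (S.φ t (S.φ s ξ))) (fun t => hC _) (S.hd_y _) (S.hd_w _)
    (y2 := fun t => S.jy ξ (t + s) * u S ξ s - u S ξ (t + s) * S.jy ξ s)
    (z2 := fun t => S.jw ξ (t + s) * u S ξ s - v S ξ (t + s) * S.jy ξ s)
    (fun t => (((S.hd_y ξ _).comp_add_const t s).mul_const _).sub
      (((hd_u S ξ _).comp_add_const t s).mul_const _))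
    (fun t => ((((S.hd_w ξ _).comp_add_const t s).mul_const _).sub
      (((hd_v S ξ _).comp_add_const t s).mul_const _)).congr_deriv (by rw [φ_add]; ring))
    (t0 := 0) (by rw [jy_zero, zero_add]; ring) (by rw [jw_zero, zero_add, ← wr S ξ s]; ring) t

def q (ξ : N) (t : ℝ) : ℝ := ∫ r in (0 : ℝ)..1, S.jw ξ (r * t)

lemma cont_qq : Continuous fun p : N × ℝ => q S p.1 p.2 :=
  intervalIntegral.continuous_parametric_intervalIntegral_of_continuous'
    (f := fun (p : N × ℝ) (r : ℝ) => S.jw p.1 (r * p.2))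
    ((cont_w S).comp (f := fun x : (N × ℝ) × ℝ => (x.1.1, x.2 * x.1.2)) (by fun_prop)) 0 1

lemma cq (ξ : N) : Continuous (q S ξ) :=
  (cont_qq S).comp (f := fun t => (ξ, t)) (by fun_prop)

lemma q_zero (ξ : N) : q S ξ 0 = 1 := by simp [q, jw_zero]

lemma mul_q (ξ : N) (t : ℝ) : t * q S ξ t = S.jy ξ t := by
  rw [q, intervalIntegral.mul_integral_comp_mul_right,
    intervalIntegral.integral_eq_sub_of_hasDerivAt (fun r _ => S.hd_y ξ r)
      (((cont_w S).comp (f := fun t => (ξ, t)) (by fun_prop)).intervalIntegrable _ _)]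
  simp [jy_zero]

def Z (ξ : N) : Set ℝ := {t | 0 ≤ t ∧ q S ξ t ≤ 0}

/-- the first zero -/
def τ (ξ : N) : ℝ := sInf (Z S ξ)

def U : Set N := {ξ | (Z S ξ).Nonempty}

lemma inv_Z : S.Inv (Z S) := fun γ hγ k ξ => by simp only [Z, q, inv_w S γ hγ]

variable {S}

lemma τ_le {ξ : N} {t : ℝ} (h : t ∈ Z S ξ) : τ S ξ ≤ t := csInf_le ⟨0, fun _ h => h.1⟩ h

lemma q_pos {ξ : N} {t : ℝ} (h0 : 0 ≤ t) (h : t < τ S ξ) : 0 < q S ξ t :=
  not_le.1 fun hq => h.not_ge (τ_le ⟨h0, hq⟩)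

lemma mem_U {ξ : N} {t : ℝ} (h0 : 0 < t) (h : S.jy ξ t ≤ 0) : t ∈ Z S ξ :=
  ⟨h0.le, by rw [← mul_q] at h; exact nonpos_of_mul_nonpos_right h h0⟩

lemma τ_spec {ξ : N} (h : ξ ∈ U S) : 0 < τ S ξ ∧ S.jy ξ (τ S ξ) = 0 ∧ S.jw ξ (τ S ξ) < 0 := by
  have m : τ S ξ ∈ Z S ξ := IsClosed.csInf_mem
    ((isClosed_le continuous_const continuous_id).inter (isClosed_le (cq S ξ) continuous_const)) h
    ⟨0, fun _ h => h.1⟩
  have p : 0 < τ S ξ := m.1.lt_of_ne fun e => by
    have := m.2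
    rw [← e, q_zero] at this
    linarith
  have l : ∀ᶠ t in 𝓝[<] τ S ξ, 0 < t ∧ t < τ S ξ := Ioo_mem_nhdsLT p
  have z : q S ξ (τ S ξ) = 0 := le_antisymm m.2 (ge_of_tendsto
    ((cq S ξ).continuousAt.tendsto.mono_left (nhdsWithin_le_nhds (s := Iio (τ S ξ))))
    (l.mono fun t ht => (q_pos ht.1.le ht.2).le))
  have y : S.jy ξ (τ S ξ) = 0 := by rw [← mul_q, z, mul_zero]
  refine ⟨p, y, lt_of_le_of_ne (le_of_tendsto ((hasDerivAt_iff_tendsto_slope.1 (S.hd_y ξ _)).mono_left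
    (nhdsLT_le_nhdsNE _)) (l.mono fun t ht => ?_)) fun e => ?_⟩
  · rw [slope_def_field, y, sub_zero, ← mul_q]
    exact div_nonpos_of_nonneg_of_nonpos (mul_pos ht.1 (q_pos ht.1.le ht.2)).le (by linarith [ht.2])
  · have := wr S ξ (τ S ξ)
    rw [e, y] at this
    simp at this

lemma τ_cont {ξ : N} (h : ξ ∈ U S) : U S ∈ 𝓝 ξ ∧ ContinuousAt (τ S) ξ := by
  obtain ⟨p, y, w⟩ := τ_spec h
  have up : ∀ c, τ S ξ < c → ∀ᶠ η in 𝓝 ξ, η ∈ U S ∧ τ S η < c := by
    intro c hc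
    obtain ⟨t, h1, h2⟩ := (((((hasDerivAt_iff_tendsto_slope.1 (S.hd_y ξ _)).mono_left
      (nhdsGT_le_nhdsNE _))).eventually (gt_mem_nhds w)).and (Ioo_mem_nhdsGT hc)).exists
    rw [slope_def_field, y, sub_zero, div_neg_iff] at h1
    have h3 : S.jy ξ t < 0 := by
      rcases h1 with h1 | h1
      · linarith [h1.2, h2.1]
      · exact h1.1
    refine (((S.ci_jy t).cont.continuousAt.eventually (gt_mem_nhds h3))).mono fun η hη => ?_
    have := mem_U (p.trans h2.1) hη.le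
    exact ⟨⟨t, this⟩, (τ_le this).trans_lt h2.2⟩
  have hU := (up _ (lt_add_one _)).mono fun _ h => h.1
  refine ⟨hU, tendsto_order.2 ⟨fun c hc => ?_, fun c hc => (up c hc).mono fun _ h => h.2⟩⟩
  have := (isCompact_Icc (a := 0) (b := c)).eventually_forall_of_forall_eventually (x₀ := ξ)
    (P := fun η t => 0 < q S η t) fun t ht =>
      (cont_qq S).continuousAt.eventually (lt_mem_nhds (q_pos ht.1 (ht.2.trans_lt hc)))
  filter_upwards [this, hU] with η h1 h2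
  by_contra hn
  obtain ⟨p', y', -⟩ := τ_spec h2
  have := mul_pos p' (h1 _ ⟨p'.le, not_lt.1 hn⟩)
  rw [mul_q, y'] at this
  exact lt_irrefl _ this

lemma U_open : IsOpen (U S) := isOpen_iff_mem_nhds.2 fun _ h => (τ_cont h).1

lemma sturm {ξ : N} {s : ℝ} (hs : 0 ≤ s) (h : S.φ s ξ ∈ U S) : ξ ∈ U S := by
  by_contra hn
  have pos : ∀ t, 0 < t → 0 < S.jy ξ t := fun t ht => not_le.1 fun h => hn ⟨t, mem_U ht h⟩
  obtain ⟨p, y, w⟩ := τ_spec h
  obtain ⟨r1, r2⟩ := rep S ξ s (τ S (S.φ s ξ))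
  have e : S.jw (S.φ s ξ) (τ S (S.φ s ξ)) * S.jy ξ (τ S (S.φ s ξ) + s) = S.jy ξ s := by
    rw [y] at r1
    rw [r2]
    linear_combination S.jy ξ s * wr S ξ (τ S (S.φ s ξ) + s) -
      S.jw ξ (τ S (S.φ s ξ) + s) * r1
  have a := mul_neg_of_neg_of_pos w (pos (τ S (S.φ s ξ) + s) (by linarith))
  rcases hs.eq_or_lt with rfl | hs
  · rw [e, jy_zero] at a
    exact lt_irrefl _ a
  · linarith [pos s hs]

variable (S)

def Om : Set N := {ξ | ∀ s, S.φ s ξ ∈ U S}

def a1 (ξ : N) : ℝ := S.ja ξ (τ S ξ)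

def g (ξ : N) : ℝ := (a1 S ξ ^ 2)⁻¹

/-- the area swept during one half turn -/
def A (ξ : N) : ℝ := ∫ r in (0 : ℝ)..τ S ξ, g S (S.φ r ξ)

lemma Om_eq : Om S = ⋂ n : ℕ, S.φ n ⁻¹' U S := by
  refine subset_antisymm (fun ξ h => mem_iInter.2 fun n => h n) fun ξ h s => ?_
  obtain ⟨n, hn⟩ := exists_nat_ge s
  refine sturm (s := n - s) (by linarith) ?_
  rw [← φ_add, sub_add_cancel]
  exact mem_iInter.1 h n

variable {S}

lemma Om_φ {ξ : N} (t : ℝ) : S.φ t ξ ∈ Om S ↔ ξ ∈ Om S :=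
  ⟨fun h s => by have := h (s - t); rwa [← φ_add, sub_add_cancel] at this,
    fun h s => by rw [← φ_add]; exact h _⟩

lemma Om_U {ξ : N} (h : ξ ∈ Om S) : ξ ∈ U S := by have := h 0; rwa [φ_zero] at this

lemma a1_cont {ξ : N} (h : ξ ∈ U S) : ContinuousAt (a1 S) ξ :=
  ContinuousAt.comp (g := fun p : N × ℝ => S.ja p.1 p.2) (f := fun ξ => (ξ, τ S ξ))
    (cont_a S).continuousAt (continuousAt_id.prodMk (τ_cont h).2)

variable (h : ∀ ξ t, t ≠ 0 → S.jq ξ (0, 1) t ≠ 0)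

include h

lemma a_ne {ξ : N} {t : ℝ} (ht : t ≠ 0) (y : S.jy ξ t = 0) : S.ja ξ t ≠ 0 :=
  fun a => h ξ t ht (Complex.ext a y)

lemma a1_ne {ξ : N} (hξ : ξ ∈ U S) : a1 S ξ ≠ 0 := a_ne h (τ_spec hξ).1.ne' (τ_spec hξ).2.1

lemma g_cont {ξ : N} (hξ : ξ ∈ U S) : ContinuousAt (g S) ξ :=
  ((a1_cont hξ).pow 2).inv₀ (pow_ne_zero 2 (a1_ne h hξ))

lemma A_cont : ContinuousOn (A S) (Om S) := by
  rw [continuousOn_iff_continuous_domRestrict]
  refine intervalIntegral.continuous_parametric_intervalIntegral_of_continuous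
    (f := fun (x : Om S) (r : ℝ) => g S (S.φ r x)) (s := fun x : Om S => τ S x)
    (continuous_iff_continuousAt.2 fun p => ?_) (continuous_iff_continuousAt.2 fun x =>
      ContinuousAt.comp (g := τ S) (f := Subtype.val) (τ_cont (Om_U x.2)).2
        continuous_subtype_val.continuousAt)
  exact ContinuousAt.comp (g := g S) (f := fun p : Om S × ℝ => S.φ p.2 p.1) (g_cont h (p.1.2 p.2))
    ((cont_f S).comp (f := fun p : Om S × ℝ => ((p.1 : N), p.2)) (by fun_prop)).continuousAt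

lemma hd_A {ξ : N} (hξ : ξ ∈ Om S) : ∃ D, D ≠ 0 ∧ HasDerivAt (fun s => A S (S.φ s ξ)) D 0 := by
  obtain ⟨p, y, w⟩ := τ_spec (Om_U hξ)
  have cf : Continuous fun s => S.φ s ξ := (cont_f S).comp (f := fun s => (ξ, s)) (by fun_prop)
  have cg : Continuous fun s => g S (S.φ s ξ) := continuous_iff_continuousAt.2 fun s =>
    ContinuousAt.comp (g := g S) (g_cont h (hξ s)) cf.continuousAt
  have ca : Continuous fun s => a1 S (S.φ s ξ) := continuous_iff_continuousAt.2 fun s =>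
    ContinuousAt.comp (g := a1 S) (a1_cont (hξ s)) cf.continuousAt
  set T : ℝ → ℝ := fun s => τ S (S.φ s ξ) + s with hT
  have T0 : T 0 = τ S ξ := by simp [hT, φ_zero]
  have cT : Tendsto T (𝓝 0) (𝓝 (τ S ξ)) := T0 ▸ (ContinuousAt.add
    (ContinuousAt.comp (g := τ S) (f := fun s => S.φ s ξ) (τ_cont (hξ 0)).2 cf.continuousAt)
    continuousAt_id).tendsto
  set c := S.jw ξ (τ S ξ) with hc
  have uc : c * u S ξ (τ S ξ) = 1 := by have := wr S ξ (τ S ξ); rwa [y, zero_mul, sub_zero] at this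
  have dT : HasDerivAt T (u S ξ (τ S ξ) * 1 / (c * 1)) 0 := by
    have d : Tendsto (dslope (S.jy ξ) (τ S ξ)) (𝓝 (τ S ξ)) (𝓝 c) := by
      have := (continuousAt_dslope_same.2 (S.hd_y ξ (τ S ξ)).differentiableAt).tendsto
      rwa [dslope_same, (S.hd_y ξ _).deriv] at this
    have u0 : Tendsto (u S ξ) (𝓝 0) (𝓝 1) := u_zero S ξ ▸ (hd_u S ξ 0).continuousAt.tendsto
    have y0 := hasDerivAt_iff_tendsto_slope.1 (S.hd_y ξ 0)
    rw [jw_zero] at y0
    have dn := ((d.comp cT).mul u0).mono_left (nhdsWithin_le_nhds (s := {0}ᶜ))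
    have c1 : c * 1 ≠ 0 := by simpa using w.ne
    refine hasDerivAt_iff_tendsto_slope.2 ((((((hd_u S ξ _).continuousAt.tendsto.comp cT).mono_left
      nhdsWithin_le_nhds).mul y0).div dn c1).congr' ?_)
    filter_upwards [dn.eventually_ne c1, self_mem_nhdsWithin] with s h1 h2
    have r := (rep S ξ s (τ S (S.φ s ξ))).1
    have e := sub_smul_dslope (S.jy ξ) (τ S ξ) (T s)
    rw [(τ_spec (hξ s)).2.1] at r
    rw [y, sub_zero, smul_eq_mul] at e
    have h3 : s ≠ 0 := h2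
    simp only [Pi.div_apply, Function.comp, slope_def_field, jy_zero, T0, sub_zero] at h1 ⊢
    rw [div_eq_iff h1]
    field_simp
    linear_combination r - u S ξ s * e
  have dG : ∀ x, HasDerivAt (fun x => ∫ r in (0 : ℝ)..x, g S (S.φ r ξ)) (g S (S.φ x ξ)) x :=
    fun x => (cg.integral_hasStrictDerivAt 0 x).hasDerivAt
  have d1 := ((dG (T 0)).comp 0 dT).sub (dG 0)
  refine ⟨_, ?_, d1.congr_of_eventuallyEq (.of_forall fun s => ?_)⟩
  · rw [T0, φ_zero]
    set η := S.φ (τ S ξ) ξ with hη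
    have ry : ∀ t, S.jy ξ (t + τ S ξ) = c * S.jy η t := fun t => by
      rw [(rep S ξ _ t).1, y]
      linear_combination -S.jy ξ (t + τ S ξ) * uc
    have ra := const_of (f := fun t => S.ja ξ (t + τ S ξ) - c * S.ja η t) (fun t =>
      (((hd_a S ξ _).comp_add_const t _).sub ((hd_a S η t).const_mul c)).congr_deriv (by
        rw [ry, φ_add]; ring)) (τ S η)
    obtain ⟨p', y', -⟩ := τ_spec (hξ (τ S ξ))
    have n1 := a_ne h (ξ := ξ) (t := τ S η + τ S ξ) (by linarith) (by rw [ry, y', mul_zero])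
    simp only [ja_zero, zero_add, mul_zero, sub_zero] at ra
    have n2 : 0 < a1 S ξ * a1 S η := by
      by_contra hn
      have c2 : Continuous fun s => a1 S ξ * a1 S (S.φ s ξ) := continuous_const.mul ca
      obtain ⟨s, hs⟩ := intermediate_value_univ (τ S ξ) 0 c2
        (show (0 : ℝ) ∈ Icc _ _ from ⟨not_lt.1 hn, by rw [φ_zero]; exact mul_self_nonneg _⟩)
      exact mul_ne_zero (a1_ne h (Om_U hξ)) (a1_ne h (hξ s)) hs
    have n3 := a1_ne h (Om_U hξ)
    have n4 : a1 S η ≠ 0 := a1_ne h (hξ _)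
    have n5 := w.ne
    rw [show u S ξ (τ S ξ) = c⁻¹ from eq_inv_of_mul_eq_one_right uc, sub_ne_zero, g, g]
    intro e
    field_simp at e
    have f : (a1 S ξ + c * a1 S η) * (a1 S ξ - c * a1 S η) = 0 := by linear_combination e
    rcases mul_eq_zero.1 f with f | f
    · exact n1 (by simp only [a1] at f; linarith)
    · have : a1 S ξ = c * a1 S η := by linarith
      rw [this, mul_assoc] at n2
      nlinarith [mul_self_nonneg (a1 S η)]
  · simp only [A, ← φ_add, Function.comp, Pi.sub_apply]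
    rw [intervalIntegral.integral_comp_add_right (fun r => g S (S.φ r ξ)),
      intervalIntegral.integral_interval_sub_left (cg.intervalIntegrable _ _)
        (cg.intervalIntegrable _ _), zero_add]

lemma mono_A {ξ : N} (hξ : ξ ∈ Om S) :
    StrictMono (fun s => A S (S.φ s ξ)) ∨ StrictAnti fun s => A S (S.φ s ξ) := by
  have : ∀ s, ∃ D, D ≠ 0 ∧ HasDerivAt (fun s => A S (S.φ s ξ)) D s := fun s => by
    obtain ⟨D, h0, hD⟩ := hd_A h ((Om_φ s).2 hξ)
    refine ⟨D, h0, ?_⟩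
    rw [← sub_self s] at hD
    simpa only [← φ_add, sub_add_cancel] using hD.comp_sub_const s s
  choose D h0 hD using this
  rcases hasDerivWithinAt_forall_lt_or_forall_gt_of_forall_ne convex_univ
    (fun s _ => (hD s).hasDerivWithinAt) (fun s _ => h0 s) with a | a
  · exact .inr (strictAnti_of_deriv_neg fun s => (hD s).deriv ▸ a s trivial)
  · exact .inl (strictMono_of_deriv_pos fun s => (hD s).deriv ▸ a s trivial)

lemma U_empty : U S = ∅ := by
  classical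
  have iU : ∀ γ ∈ S.Γ, ∀ (k : ℤ) ξ, gg γ (k * (2 * π)) ξ ∈ U S ↔ ξ ∈ U S := fun γ hγ k ξ => by
    simp only [U, mem_ofPred_eq, inv_Z S γ hγ]
  have iO : ∀ γ ∈ S.Γ, ∀ (k : ℤ) ξ, gg γ (k * (2 * π)) ξ ∈ Om S ↔ ξ ∈ Om S := fun γ hγ k ξ => by
    simp only [Om, mem_ofPred_eq, S.φ_gg hγ, iU γ hγ]
  have iτ : S.Inv (τ S) := fun γ hγ k ξ => by simp only [τ, inv_Z S γ hγ]
  have iA : S.Inv (A S) := fun γ hγ k ξ => by
    simp only [A, g, a1, S.φ_gg hγ, iτ γ hγ, inv_a S γ hγ]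
  have mU := (U_open (S := S)).measurableSet
  have mO : MeasurableSet (Om S) :=
    Om_eq S ▸ MeasurableSet.iInter fun n => (S.cont_φ n).measurable mU
  have h1 : ∀ᵐ ξ ∂S.μ, ∀ n : ℕ, ξ ∈ U S → S.φ n ξ ∈ U S := ae_all_iff.2 fun n => by
    filter_upwards [S.mono_ae (G := fun ξ => if ξ ∈ U S then 0 else 1)
      (measurable_const.ite mU measurable_const) (fun γ hγ k ξ => by simp only [iU γ hγ]) n
      fun ξ => by
        by_cases a : S.φ n ξ ∈ U S
        · simp [a, sturm n.cast_nonneg a]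
        · simp only [a, if_false]
          split_ifs <;> norm_num] with ξ hξ a
    by_contra b
    simp only [a, b, if_true, if_false] at hξ
    linarith
  set G := (Om S).piecewise (A S) fun _ => 0 with hG
  have mG : Measurable G := (A_cont h).measurable_piecewise continuousOn_const mO
  have iG : S.Inv G := fun γ hγ k ξ => by simp only [hG, piecewise, iO γ hγ, iA γ hγ]
  set H : N → ℝ := fun ξ => if G ξ < G (S.φ 1 ξ) then G ξ else -G ξ with hH
  have lt : ∀ ξ ∈ Om S, H ξ < H (S.φ 1 ξ) := fun ξ hξ => by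
    have e : ∀ s, G (S.φ s ξ) = A S (S.φ s ξ) := fun s => piecewise_eq_of_mem _ _ _ ((Om_φ s).2 hξ)
    have e0 : G ξ = A S (S.φ 0 ξ) := by rw [← e, φ_zero]
    simp only [hH, ← φ_add, e, e0]
    rcases mono_A h hξ with a | a
    · have a1 := a one_pos
      rw [if_pos a1, if_pos (a (lt_add_one 1))]
      exact a1
    · have a1 := a one_pos
      rw [if_neg a1.not_gt, if_neg (a (lt_add_one 1)).not_gt]
      exact neg_lt_neg a1
  have h2 := S.mono_ae (G := H) ((mG.ite (measurableSet_lt mG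
    (mG.comp (S.cont_φ 1).measurable)) mG.neg))
    (fun γ hγ k ξ => by simp only [hH, S.φ_gg hγ, iG γ hγ]) 1 fun ξ => by
      by_cases a : ξ ∈ Om S
      · exact (lt ξ a).le
      · have e : ∀ s, G (S.φ s ξ) = 0 := fun s =>
          piecewise_eq_of_notMem _ _ _ fun b => a ((Om_φ s).1 b)
        have e0 : G ξ = 0 := piecewise_eq_of_notMem _ _ _ a
        simp [hH, ← φ_add, e, e0]
  refine (U_open.measure_eq_zero_iff S.μ).1 (measure_eq_zero_iff_ae_notMem.2 ?_)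
  filter_upwards [h1, h2] with ξ a b c
  exact (lt ξ (Om_eq S ▸ mem_iInter.2 fun n => a n c)).not_ge b

end Lit

variable {S}

/-- the definition of conjugate points by the vertical line implies the one by the normal part -/
theorem nc_of_lit (h : ∀ ξ t, t ≠ 0 → S.jq ξ (0, 1) t ≠ 0) : ∀ ξ t, t ≠ 0 → S.jy ξ t ≠ 0 := by
  have key : ∀ ξ t, 0 < t → S.jy ξ t ≠ 0 := fun ξ t ht y =>
    (Lit.U_empty h ▸ (⟨t, Lit.mem_U ht y.le⟩ : ξ ∈ Lit.U S) : ξ ∈ (∅ : Set N))
  intro ξ t ht y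
  rcases ht.lt_or_gt with ht | ht
  · refine key (S.φ t ξ) (-t) (neg_pos.2 ht) ?_
    rw [(Lit.rep S ξ t (-t)).1, neg_add_cancel, jy_zero, y]
    ring
  · exact key ξ t ht y

end Sys

end

end Pool.Agent.Lib.MP_21f752_an
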