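import Pool.Agent.Lib.MP_21f752_an.FAtom
import Pool.Agent.Lib.MP_21f752_an.FAv
import Pool.Agent.Lib.MP_21f752_an.FAxis
import Pool.Agent.Lib.MP_21f752_an.FB1
import Pool.Agent.Lib.MP_21f752_an.FB2
import Pool.Agent.Lib.MP_21f752_an.FBase
import Pool.Agent.Lib.MP_21f752_an.FBox
import Pool.Agent.Lib.MP_21f752_an.FCe1
import Pool.Agent.Lib.MP_21f752_an.FCe2
import Pool.Agent.Lib.MP_21f752_an.FCg
import Pool.Agent.Lib.MP_21f752_an.FCnt
import Pool.Agent.Lib.MP_21f752_an.FCor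
import Pool.Agent.Lib.MP_21f752_an.FCur
import Pool.Agent.Lib.MP_21f752_an.FDe
import Pool.Agent.Lib.MP_21f752_an.FDead
import Pool.Agent.Lib.MP_21f752_an.FDen
import Pool.Agent.Lib.MP_21f752_an.FDisc
import Pool.Agent.Lib.MP_21f752_an.FEnd
import Pool.Agent.Lib.MP_21f752_an.FEsc
import Pool.Agent.Lib.MP_21f752_an.FFan
import Pool.Agent.Lib.MP_21f752_an.FFd
import Pool.Agent.Lib.MP_21f752_an.FFm
import Pool.Agent.Lib.MP_21f752_an.FFreq
import Pool.Agent.Lib.MP_21f752_an.FGen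
import Pool.Agent.Lib.MP_21f752_an.FGeo
import Pool.Agent.Lib.MP_21f752_an.FGlu
import Pool.Agent.Lib.MP_21f752_an.FIx
import Pool.Agent.Lib.MP_21f752_an.FJmp
import Pool.Agent.Lib.MP_21f752_an.FLam
import Pool.Agent.Lib.MP_21f752_an.FLop
import Pool.Agent.Lib.MP_21f752_an.FMeas
import Pool.Agent.Lib.MP_21f752_an.FMeet
import Pool.Agent.Lib.MP_21f752_an.FMob
import Pool.Agent.Lib.MP_21f752_an.FNod
import Pool.Agent.Lib.MP_21f752_an.FPng
import Pool.Agent.Lib.MP_21f752_an.FPri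
import Pool.Agent.Lib.MP_21f752_an.FRec
import Pool.Agent.Lib.MP_21f752_an.FRic
import Pool.Agent.Lib.MP_21f752_an.FSho
import Pool.Agent.Lib.MP_21f752_an.FSide
import Pool.Agent.Lib.MP_21f752_an.FT3
import Pool.Agent.Lib.MP_21f752_an.FV1
import Pool.Agent.Lib.MP_21f752_an.FWall
import Pool.Agent.Lib.MP_21f752_an.FWlk
import Pool.Agent.Lib.MP_21f752_an.FZor
import Pool.Agent.Lib.MP_21f752_an.Lit

/-! No conjugate points and zero entropy force constant curvature and a constant field. -/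

namespace Pool.Agent.Lib.MP_21f752_an

open UpperHalfPlane
open scoped MatrixGroups

theorem pos_ent (G : Geo) : ¬G.ZE := by
  have hb := base disc
  have hs := side disc idx hb
  have h3 := t3 idx hb
  have ha := av disc idx hb h3
  have hm := meas mobius
  have hf := fm disc idx hb
  have hx := axis hb hm
  have h2 := cell2 cell1
  have hn := node cell1 h2
  have hfd := fd cell1 h2
  exact not_ze disc cg hb ha (v1 disc mobius cg hb hs ha cell1)
    (fan disc cg hb hf (dead disc mobius cg hb (de hb hs h3)))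
    (gen hb sl hf hm (wall esc freq) (recSt disc mobius hb freq)
      (lamin hs h3 freq hm hx (atom mobius cg hb freq hm hx)) (meet freq))
    (walk cell1 h2 hn (jump cell1 h2 hn hfd)) (loop cell1 h2 hn) (dense cell1 hn hfd) ping
    (cor disc mobius sl hs h3 hf (shoot hs h3)) cnt G

theorem rigid_sys (S : Sys) (h1 : S.Free) (h2 : ∀ ξ t, t ≠ 0 → S.jq ξ (0, 1) t ≠ 0) (h3 : S.ZE) :
    (∃ κ, ∀ z, curv S.f z = κ) ∧ ∃ β, ∀ z, S.b z = β := by
  rcases geo_of ric (cur ric) glue (zorn box glue) prim (b1 glue) b2 S h1 (Sys.nc_of_lit h2) with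
    h | ⟨G, rfl⟩
  · exact h
  · exact absurd h3 (pos_ent G)

end Pool.Agent.Lib.MP_21f752_an
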