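import Pool.Agent.Lib.MP_21f752_an.FG

/-! Walls with a prescribed end form a null set. -/

namespace Pool.Agent.Lib.MP_21f752_an

open UpperHalfPlane Set Filter Topology Metric MeasureTheory
open scoped MatrixGroups Real

namespace FAtom

/-- separation modulo `2 π` -/
def Sep (e x y : ℝ) : Prop := ∀ M : ℤ, e ≤ |x - y + M * (2 * π)|

lemma Sep.mono {e e' x y : ℝ} (h : Sep e x y) (he : e' ≤ e) : Sep e' x y := fun M => he.trans (h M)

lemma Sep.shift {e x y : ℝ} (h : Sep e x y) (k : ℤ) : Sep e (x + k * (2 * π)) (y + k * (2 * π)) :=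
  fun M => by simpa using h M

lemma ex_sep {x y : ℝ} (h0 : x ≠ y) (h1 : |x - y| < 2 * π) : ∀ᶠ n : ℕ in atTop,
    Sep (1 / ((n : ℝ) + 1)) x y := by
  have a : 0 < min |x - y| (2 * π - |x - y|) :=
    lt_min (abs_pos.2 (sub_ne_zero.2 h0)) (sub_pos.2 h1)
  filter_upwards [tendsto_one_div_add_atTop_nhds_zero_nat.eventually (gt_mem_nhds a)] with n hn M
  refine hn.le.trans ?_
  have p := Real.pi_pos
  rcases lt_trichotomy M 0 with h | h | h
  · have : (M : ℝ) ≤ -1 := by exact_mod_cast Int.le_sub_one_of_lt h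
    refine (min_le_right _ _).trans (le_abs.2 (Or.inr ?_))
    nlinarith [le_abs_self (x - y)]
  · simp [h]
  · have : (1 : ℝ) ≤ M := by exact_mod_cast h
    refine (min_le_right _ _).trans (le_abs.2 (Or.inl ?_))
    nlinarith [neg_abs_le (x - y)]

lemma per_int {h : ℝ → ℝ} (hp : ∀ t, h (t + 2 * π) = h t + 2 * π) (t : ℝ) (m : ℤ) :
    h (t + m * (2 * π)) = h t + m * (2 * π) := by
  have : Function.Periodic (fun t => h t - t) (2 * π) := fun t => by simp [hp]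
  linarith [this.int_mul m t]

lemma near {h : ℝ ≃o ℝ} (hp : ∀ t, h (t + 2 * π) = h t + 2 * π) {r a e x : ℝ} (hc : Ctr h r a e)
    (hx : Sep e x r) : ∃ m : ℤ, |h x + m * (2 * π) - a| < e := by
  obtain ⟨m, h1, -⟩ := existsUnique_add_zsmul_mem_Ico (show 0 < 2 * π by positivity) x r
  simp only [zsmul_eq_mul] at h1
  refine ⟨m, per_int hp x m ▸ hc _ ?_ ?_⟩
  · have := hx m
    rw [abs_of_nonneg (by linarith [h1.1])] at this
    linarith
  · have := hx (m - 1)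
    push_cast at this
    rw [abs_of_nonpos (by linarith [h1.2])] at this
    linarith

lemma two {h : ℝ ≃o ℝ} (hp : ∀ t, h (t + 2 * π) = h t + 2 * π) {r a e x y : ℝ} (hc : Ctr h r a e)
    (hx : Sep e x r) (hy : Sep e y r) : ¬Sep (2 * e) (h x) (h y) := by
  obtain ⟨m, h1⟩ := near hp hc hx
  obtain ⟨m', h2⟩ := near hp hc hy
  intro k
  have := k (m - m')
  push_cast at this
  rw [abs_lt] at h1 h2
  rcases le_abs.1 this with h | h <;> linarith [h1.1, h1.2, h2.1, h2.2]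

lemma alt {e x y : ℝ} (h : Sep (2 * e) x y) (r : ℝ) : Sep e x r ∨ Sep e y r := by
  by_contra hc
  simp only [Sep, not_or, not_forall, not_le] at hc
  obtain ⟨⟨m, h1⟩, m', h2⟩ := hc
  have := h (m - m')
  push_cast at this
  rw [abs_lt] at h1 h2
  rcases le_abs.1 this with h | h <;> linarith [h1.1, h1.2, h2.1, h2.2]

lemma fix {H : Subgroup (ℝ ≃o ℝ)} (h : CG H) (t : ℝ) :
    ∃ s, t < s ∧ s < t + 2 * π ∧ ∀ g ∈ H, g t = t → g s = s := by
  by_cases h0 : ∃ g ∈ H, g t = t ∧ g ≠ 1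
  · obtain ⟨g, a, b, c⟩ := h0
    have k : ∀ s, g s = s → ∀ g' ∈ H, g' t = t → g' s = s := fun s hs g' a' b' => by
      by_cases c' : g' = 1
      · simp [c']
      · exact h.ax g a g' a' t s c c' b b' hs
    obtain ⟨u, v, y, rfl | rfl⟩ := h.hy g a t b c
    · exact ⟨v, y.lt, y.lt2, k v y.fv⟩
    · exact ⟨u + 2 * π, y.lt2, by linarith [y.lt], k _ (by rw [h.per g a, y.fu])⟩
  · push Not at h0
    exact ⟨t + π, by linarith [Real.pi_pos], by linarith [Real.pi_pos], fun g a b => by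
      simp [h0 g a b]⟩

lemma lift_div {γ γ' : SL(2, ℝ)} {g : ℝ ≃o ℝ} (h : Lift γ g) (h' : Lift γ' g) :
    Lift (γ⁻¹ * γ') 1 := by
  refine ⟨fun _ => rfl, fun l ε e => ?_, fun l ε e => ?_⟩
  · obtain ⟨δ, d, k⟩ := h.bw l ε e
    obtain ⟨δ', d', k'⟩ := h'.fw l δ d
    exact ⟨δ', d', fun z hz => by rw [mul_smul]; exact k _ (k' z hz)⟩
  · obtain ⟨δ, d, k⟩ := h'.bw l ε e
    obtain ⟨δ', d', k'⟩ := h.fw l δ d
    exact ⟨δ', d', fun z hz => by rw [mul_inv_rev, inv_inv, mul_smul]; exact k _ (k' z hz)⟩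

lemma null (hm : Mob) (hg : CgSt) (hb : BaseSt) (hq : FreqSt) (hs : MeasSt) (G : Geo)
    {f f' : ℝ × ℝ → ℝ} (cf : Continuous f) (cf' : Continuous f')
    (ef : ∀ (g : ℝ → ℝ) x y, f (g x, g y) = g (f (x, y)))
    (ef' : ∀ (g : ℝ → ℝ) x y, f' (g x, g y) = g (f' (x, y))) {t s e : ℝ} (he : 0 < e) (R : ℝ)
    (hx : ∀ g ∈ GG G.Γ, g t = t → g s = s) :
    G.μ (G.EW {v | f v = t ∧ Sep e t s ∧ Sep e (f' v) t ∧ Sep e (f' v) s} ∩
      {ξ | dist ξ.1 UpperHalfPlane.I ≤ R}) = 0 := by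
  classical
  have B := hb G
  have C := hg G.toSys G.free
  have cl : IsClosed {v | f v = t ∧ Sep e t s ∧ Sep e (f' v) t ∧ Sep e (f' v) s} := by
    have : ∀ u, IsClosed {v | Sep e (f' v) u} := fun u => by
      simp only [Sep, ofPred_forall]
      exact isClosed_iInter fun M => isClosed_le continuous_const (by fun_prop)
    exact (isClosed_eq cf continuous_const).inter (isClosed_const.inter ((this t).inter (this s)))
  have me := ((hs G).1 _ cl.measurableSet).inter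
    (isClosed_le (f := fun ξ : N => dist ξ.1 UpperHalfPlane.I) (by fun_prop)
      (continuous_const (y := R))).measurableSet
  refine measure_mono_null (fun ξ hξ => ?_) (ae_iff.1 ((hq G).1 1 _ me))
  intro hr
  obtain ⟨c, c0, hc⟩ := hr hξ
  obtain ⟨⟨x, y, ⟨o1, o2, o3, o4⟩, w⟩, -⟩ := hξ
  have inf : ∀ n : ℕ, ∃ j : ℕ, n ≤ j ∧ G.φ (j * 1) ξ ∈ G.Sat (G.EW
      {v | f v = t ∧ Sep e t s ∧ Sep e (f' v) t ∧ Sep e (f' v) s} ∩
        {ξ | dist ξ.1 UpperHalfPlane.I ≤ R}) := by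
    intro n
    by_contra hn
    push Not at hn
    obtain ⟨m, m1, m2⟩ := (hc.and_eventually ((tendsto_natCast_atTop_atTop.const_mul_atTop
      c0).eventually_gt_atTop (n : ℝ))).exists
    refine lt_irrefl _ ((m2.trans_le m1).trans_le ?_)
    refine Nat.cast_le.2 ((Finset.card_le_card fun j hj => ?_).trans_eq (Finset.card_range n))
    exact Finset.mem_range.2 (lt_of_not_ge fun h => hn j h (Finset.mem_filter.1 hj).2)
  have ret : ∀ n : ℕ, ∃ (j : ℕ) (γ : SL(2, ℝ)) (g : ℝ ≃o ℝ), n ≤ j ∧ γ ∈ G.Γ ∧ Lift γ g ∧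
      dist (γ • G.o ξ j) UpperHalfPlane.I ≤ R ∧ g t = t ∧ Sep e (g (f' (x, y))) t ∧
        Sep e (g (f' (x, y))) s := by
    intro n
    obtain ⟨j, j1, γ, hγ, k, ⟨x', y', ⟨p1, -, p3, p4⟩, w'⟩, d⟩ := inf n
    obtain ⟨g, l⟩ := hm.ex γ
    obtain ⟨k', e1, e2⟩ := B.wu _ _ _ _ _ (B.wg _ _ _ γ hγ g k l (B.wφ _ _ _ _ w)) w'
    have a := ef (fun u => g u + k' * (2 * π)) x y
    have b := ef' (fun u => g u + k' * (2 * π)) x y
    simp only [← e1, ← e2] at a b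
    refine ⟨j, γ, g.trans (OrderIso.addRight (k' * (2 * π))), j1, hγ,
      hm.add γ g _ k' l fun _ => rfl, by simpa [gg] using d, ?_, ?_, ?_⟩
    · change g t + k' * (2 * π) = t
      rw [← o1, ← a, p1, o1]
    · rw [b] at p3; exact p3
    · rw [b] at p4; exact p4
  choose j γ g j1 g1 g2 g3 g4 g5 g6 using ret
  obtain ⟨φ, h, k, φ1, h1, h2, h3 | ⟨r, a, h3⟩⟩ := C.cd g fun n => ⟨γ n, g1 n, g2 n⟩
  · have l : ∀ n, Lift (γ (φ n)) (h 0) := fun n => h3 n ▸ hm.add _ _ _ (k n) (g2 _) (h2 n)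
    have T : Tendsto (fun n => ((j (φ n) : ℕ) : ℝ)) atTop atTop :=
      tendsto_natCast_atTop_atTop.comp (tendsto_atTop_mono (fun n => j1 (φ n)) φ1.tendsto_atTop)
    obtain ⟨n, hn⟩ := (((B.top ξ ((γ (φ 0))⁻¹ • UpperHalfPlane.I)).comp T).eventually_gt_atTop
      R).exists
    have z := hm.triv _ _ (lift_div (l 0) (l n)) (fun _ => rfl) (G.o ξ (j (φ n)))
    have := g3 (φ n)
    rw [← dist_smul (γ (φ 0))⁻¹, ← mul_smul, z] at this
    exact lt_irrefl _ (lt_of_lt_of_le hn this)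
  · obtain ⟨n, hn⟩ := (h3 (e / 2) (by positivity)).exists
    have p := C.per _ (h1 n)
    have e2 : e = 2 * (e / 2) := by ring
    have g7 := hx _ ⟨γ _, g1 _, g2 _⟩ (g4 (φ n))
    have q1 : Sep (2 * (e / 2)) (h n t) (h n s) := by
      rw [h2, h2, g4, g7, ← e2]; exact o2.shift _
    have q2 : Sep (2 * (e / 2)) (h n (f' (x, y))) (h n t) := by
      rw [h2, h2, g4, ← e2]; exact (g5 _).shift _
    have q3 : Sep (2 * (e / 2)) (h n (f' (x, y))) (h n s) := by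
      rw [h2, h2, g7, ← e2]; exact (g6 _).shift _
    rw [e2] at o2 o3 o4
    rcases alt o2 r with a1 | a1
    · rcases alt o4 r with a2 | a2
      exacts [two p hn a2 a1 q2, two p hn a1 a2 q1]
    · rcases alt o3 r with a2 | a2
      exacts [two p hn a2 a1 q3, two p hn a2 a1 q1]

lemma fin (hm : Mob) (hg : CgSt) (hb : BaseSt) (hq : FreqSt) (hs : MeasSt) (ha : AxisSt) (G : Geo)
    {f f' : ℝ × ℝ → ℝ} (cf : Continuous f) (cf' : Continuous f')
    (ef : ∀ (g : ℝ → ℝ) x y, f (g x, g y) = g (f (x, y)))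
    (ef' : ∀ (g : ℝ → ℝ) x y, f' (g x, g y) = g (f' (x, y))) {t s : ℝ} (v : ℝ × ℝ)
    (hx : ∀ g ∈ GG G.Γ, g t = t → g s = s) (h0 : t ≠ s) (h1 : |t - s| < 2 * π)
    (h2 : ∀ x y, x < y → y < x + 2 * π → f (x, y) = t → (x, y) ≠ v → f' (x, y) ≠ t ∧
      |f' (x, y) - t| < 2 * π ∧ f' (x, y) ≠ s ∧ |f' (x, y) - s| < 2 * π) :
    G.μ (G.EW {v | f v = t}) = 0 := by
  refine measure_mono_null ?_ (measure_union_null (ha G v.1 v.2) (measure_iUnion_null fun n : ℕ =>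
    null hm hg hb hq hs G cf cf' ef ef' (e := 1 / ((n : ℝ) + 1)) (by positivity) n hx))
  rintro ξ ⟨x, y, o, w⟩
  by_cases hv : (x, y) = v
  · exact Or.inl ⟨x, y, hv, w⟩
  obtain ⟨a, b, c, d⟩ := h2 x y w.lt w.lt2 o hv
  obtain ⟨n, n1, n2, n3, n4⟩ := ((ex_sep h0 h1).and ((ex_sep a b).and ((ex_sep c d).and
    (tendsto_natCast_atTop_atTop.eventually_ge_atTop (dist ξ.1 UpperHalfPlane.I))))).exists
  exact Or.inr (mem_iUnion.2 ⟨n, ⟨x, y, ⟨o, n1, n2, n3⟩, w⟩, n4⟩)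

end FAtom

open FAtom in
theorem atom (hm : Mob) (hg : CgSt) (hb : BaseSt) (hq : FreqSt) (hs : MeasSt) (ha : AxisSt) :
    AtomSt := by
  intro G t
  have C := hg G.toSys G.free
  obtain ⟨s, s1, s2, hx⟩ := fix C t
  constructor
  · refine fin hm hg hb hq hs ha G continuous_fst continuous_snd (fun _ _ _ => rfl)
      (fun _ _ _ => rfl) (t, s) hx s1.ne (abs_lt.2 ⟨by linarith, by linarith⟩) ?_
    rintro x y a b rfl c
    exact ⟨a.ne', abs_lt.2 ⟨by linarith, by linarith⟩, fun h => c (Prod.ext rfl h),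
      abs_lt.2 ⟨by linarith, by linarith⟩⟩
  · refine fin hm hg hb hq hs ha G continuous_snd continuous_fst (fun _ _ _ => rfl)
      (fun _ _ _ => rfl) (s := s - 2 * π) (s - 2 * π, t) (fun g a b => ?_) (by linarith)
      (abs_lt.2 ⟨by linarith, by linarith⟩) ?_
    · have := C.per g a (s - 2 * π)
      rw [sub_add_cancel, hx g a b] at this
      linarith
    rintro x y a b rfl c
    exact ⟨a.ne, abs_lt.2 ⟨by linarith, by linarith⟩, fun h => c (Prod.ext h rfl),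
      abs_lt.2 ⟨by linarith, by linarith⟩⟩

end Pool.Agent.Lib.MP_21f752_an
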