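import Mathlib

/-! The maximal inequality and the pointwise ergodic theorem. -/

namespace Pool.Agent.Lib.MP_21f752_an

open Set Filter Topology MeasureTheory

noncomputable section

namespace FBir

variable {X : Type*} {m : MeasurableSpace X} {μ : Measure X} {T : X → X} {f g : X → ℝ}

/-- the maximum of the first partial sums -/
def mx (T : X → X) (f : X → ℝ) : ℕ → X → ℝ
  | 0 => fun _ => 0
  | n + 1 => fun x => max 0 (f x + mx T f n (T x))

lemma mx_nonneg (n : ℕ) (x : X) : 0 ≤ mx T f n x := by
  cases n with
  | zero => exact le_rfl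
  | succ n => exact le_max_left _ _

lemma mx_succ (n : ℕ) : ∀ x, mx T f n x ≤ mx T f (n + 1) x := by
  induction n with
  | zero => exact fun x => le_max_left _ _
  | succ n ih => exact fun x => max_le_max le_rfl (by linarith [ih (T x)])

lemma mx_mono (x : X) : Monotone fun n => mx T f n x := monotone_nat_of_le_succ fun n => mx_succ n x

lemma sum_le_mx (n : ℕ) : ∀ x, birkhoffSum T f n x ≤ mx T f n x := by
  induction n with
  | zero => exact fun x => by simp [mx]
  | succ n ih =>
    intro x
    rw [birkhoffSum_succ']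
    exact le_trans (by linarith [ih (T x)]) (le_max_right _ _)

lemma mx_meas (hT : Measurable T) (hf : Measurable f) (n : ℕ) : Measurable (mx T f n) := by
  induction n with
  | zero => exact measurable_const
  | succ n ih => exact measurable_const.max (hf.add (ih.comp hT))

lemma mx_int [IsFiniteMeasure μ] (hT : MeasurePreserving T μ μ) (hf : Integrable f μ) (n : ℕ) :
    Integrable (mx T f n) μ := by
  induction n with
  | zero => exact integrable_const _
  | succ n ih =>
    exact (integrable_const (0 : ℝ)).sup (hf.add (hT.integrable_comp_of_integrable ih))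

lemma int_comp (hT : MeasurePreserving T μ μ) {A : Set X} (hA : MeasurableSet A)
    (hi : T ⁻¹' A = A) (hg : Measurable g) : ∫ x in A, g (T x) ∂μ = ∫ x in A, g x ∂μ := by
  have h := hT.restrict_preimage hA
  rw [hi] at h
  have := integral_map (μ := μ.restrict A) h.measurable.aemeasurable (f := g)
    hg.aestronglyMeasurable
  rw [h.map_eq] at this
  exact this.symm

/-- the maximal inequality on an invariant set -/
lemma garsia [IsFiniteMeasure μ] (hT : MeasurePreserving T μ μ) (hf : Measurable f)
    (hi : Integrable f μ) {A : Set X} (hA : MeasurableSet A) (hA' : T ⁻¹' A = A) (n : ℕ) :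
    0 ≤ ∫ x in A ∩ {x | 0 < mx T f n x}, f x ∂μ := by
  cases n with
  | zero => simp [mx]
  | succ n =>
  have hm := mx_meas hT.measurable hf (n + 1)
  have hE : MeasurableSet {x | 0 < mx T f (n + 1) x} := measurableSet_lt measurable_const hm
  have i1 := mx_int hT hi (n + 1)
  have i2 : Integrable (fun x => mx T f (n + 1) (T x)) μ := hT.integrable_comp_of_integrable i1
  rw [← setIntegral_indicator hE]
  have k : ∫ x in A, (mx T f (n + 1) x - mx T f (n + 1) (T x)) ∂μ = 0 := by
    rw [integral_sub i1.integrableOn i2.integrableOn, int_comp hT hA hA' hm, sub_self]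
  refine k.symm.trans_le <| integral_mono (i1.sub i2).integrableOn (hi.indicator hE).integrableOn fun x => ?_
  by_cases hx : 0 < mx T f (n + 1) x
  · rw [indicator_of_mem (show x ∈ {x | 0 < mx T f (n + 1) x} from hx)]
    have a : mx T f (n + 1) x = f x + mx T f n (T x) := by
      simp only [mx] at hx ⊢
      rcases le_total 0 (f x + mx T f n (T x)) with h | h
      · exact max_eq_right h
      · rw [max_eq_left h] at hx
        exact absurd hx (lt_irrefl _)
    have b := mx_succ (T := T) (f := f) n (T x)
    simp only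
    linarith
  · rw [indicator_of_notMem (show x ∉ {x | 0 < mx T f (n + 1) x} from hx)]
    have b := mx_nonneg (T := T) (f := f) (n + 1) (T x)
    simp only
    linarith [not_lt.1 hx]

lemma sum_meas (hT : Measurable T) (hf : Measurable f) (n : ℕ) :
    Measurable (birkhoffSum T f n) :=
  Finset.measurable_sum _ fun k _ => hf.comp (hT.iterate k)

/-- points with unbounded partial sums -/
def Ub (T : X → X) (f : X → ℝ) : Set X := {x | ∀ B : ℕ, ∃ n, (B : ℝ) < birkhoffSum T f n x}

lemma ub_meas (hT : Measurable T) (hf : Measurable f) : MeasurableSet (Ub T f) := by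
  simp only [Ub, ofPred_forall, ofPred_exists]
  exact .iInter fun B => .iUnion fun n => measurableSet_lt measurable_const (sum_meas hT hf n)

lemma ub_inv : T ⁻¹' Ub T f = Ub T f := by
  ext x
  simp only [Ub, mem_preimage, mem_ofPred_eq]
  constructor
  · intro h B
    obtain ⟨c, hc⟩ := exists_nat_ge (B - f x)
    obtain ⟨n, hn⟩ := h c
    exact ⟨n + 1, by rw [birkhoffSum_succ']; linarith⟩
  · intro h B
    obtain ⟨c, hc⟩ := exists_nat_ge (B + f x)
    obtain ⟨n, hn⟩ := h c
    cases n with
    | zero =>
      rw [birkhoffSum_zero] at hn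
      exact absurd hn (not_lt.2 (Nat.cast_nonneg c))
    | succ n =>
      rw [birkhoffSum_succ'] at hn
      exact ⟨n, by linarith⟩

lemma ub_int [IsFiniteMeasure μ] (hT : MeasurePreserving T μ μ) (hf : Measurable f)
    (hi : Integrable f μ) : 0 ≤ ∫ x in Ub T f, f x ∂μ := by
  have hU := ub_meas hT.measurable hf
  have e : ⋃ n, Ub T f ∩ {x | 0 < mx T f n x} = Ub T f := by
    refine Subset.antisymm (iUnion_subset fun n => inter_subset_left) fun x hx => ?_
    obtain ⟨n, hn⟩ := hx 0
    exact mem_iUnion.2 ⟨n, hx, lt_of_lt_of_le (by simpa using hn) (sum_le_mx n x)⟩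
  have := tendsto_setIntegral_of_monotone (μ := μ) (f := f)
    (s := fun n => Ub T f ∩ {x | 0 < mx T f n x})
    (fun n => hU.inter (measurableSet_lt measurable_const (mx_meas hT.measurable hf n)))
    (fun a b hab x hx => ⟨hx.1, lt_of_lt_of_le hx.2 (mx_mono x hab)⟩) hi.integrableOn
  rw [e] at this
  exact ge_of_tendsto' this fun n => garsia hT hf hi hU ub_inv n

lemma upper [IsFiniteMeasure μ] (hT : MeasurePreserving T μ μ) (hf : Measurable f)
    (hi : Integrable f μ) (hg : Measurable g) (gi : Integrable g μ) (gT : ∀ x, g (T x) = g x)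
    (h : ∀ A, MeasurableSet A → T ⁻¹' A = A → ∫ x in A, f x ∂μ ≤ ∫ x in A, g x ∂μ) :
    ∀ᵐ x ∂μ, ∀ ε, 0 < ε → ∀ᶠ n : ℕ in atTop, birkhoffSum T f n x / n < g x + ε := by
  have key : ∀ ε : ℝ, 0 < ε → ∀ᵐ x ∂μ, ∃ B : ℝ, ∀ n : ℕ,
      birkhoffSum T f n x ≤ n * (g x + ε) + B := by
    intro ε hε
    have m1 : Measurable fun x => f x - (g x + ε) := hf.sub (hg.add_const ε)
    have i0 : Integrable (fun x => g x + ε) μ := gi.add (integrable_const ε)
    have i1 : Integrable (fun x => f x - (g x + ε)) μ := hi.sub i0
    have hU := ub_meas hT.measurable m1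
    have a := ub_int hT m1 i1
    rw [integral_sub hi.integrableOn i0.integrableOn,
      integral_add gi.integrableOn (integrable_const ε).integrableOn, setIntegral_const] at a
    have b := h _ hU ub_inv
    have c : μ.real (Ub T fun x => f x - (g x + ε)) = 0 := by
      refine le_antisymm ?_ measureReal_nonneg
      rw [smul_eq_mul] at a
      by_contra hc
      have := mul_pos (not_le.1 hc) hε
      linarith
    rw [measureReal_eq_zero_iff] at c
    filter_upwards [measure_eq_zero_iff_ae_notMem.1 c] with x hx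
    simp only [Ub, mem_ofPred_eq, not_forall, not_exists, not_lt] at hx
    obtain ⟨B, hB⟩ := hx
    refine ⟨B, fun n => ?_⟩
    have e1 : birkhoffSum T (fun x => g x + ε) n x = n * (g x + ε) := by
      rw [birkhoffSum_of_comp_eq (f := T) (φ := fun x => g x + ε) (funext fun x => by simp [gT])]
      simp [mul_add]
    have e2 := birkhoffSum_sub T f (fun x => g x + ε) n x
    have := hB n
    have e3 : (fun x => f x - (g x + ε)) = f - fun x => g x + ε := rfl
    rw [e3, e2, e1] at this
    linarith
  filter_upwards [ae_all_iff.2 fun k : ℕ => key (1 / ((k : ℝ) + 1)) Nat.one_div_pos_of_nat]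
    with x hx ε hε
  obtain ⟨k, hk⟩ := exists_nat_one_div_lt hε
  obtain ⟨B, hB⟩ := hx k
  have t := (tendsto_const_div_atTop_nhds_zero_nat B).eventually (gt_mem_nhds (sub_pos.2 hk))
  filter_upwards [t, eventually_gt_atTop 0] with n h1 h2
  have h2 : (0 : ℝ) < n := Nat.cast_pos.2 h2
  rw [div_lt_iff₀ h2] at h1 ⊢
  have := hB n
  nlinarith

/-- convergence of the averages to any invariant function with the right integrals -/
lemma conv [IsFiniteMeasure μ] (hT : MeasurePreserving T μ μ) (hf : Measurable f)
    (hi : Integrable f μ) (hg : Measurable g) (gi : Integrable g μ) (gT : ∀ x, g (T x) = g x)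
    (h : ∀ A, MeasurableSet A → T ⁻¹' A = A → ∫ x in A, g x ∂μ = ∫ x in A, f x ∂μ) :
    ∀ᵐ x ∂μ, Tendsto (fun n : ℕ => birkhoffSum T f n x / n) atTop (𝓝 (g x)) := by
  filter_upwards [upper hT hf hi hg gi gT fun A a b => (h A a b).ge,
    upper (f := -f) (g := -g) hT hf.neg hi.neg hg.neg gi.neg (fun x => by simp [gT])
      fun A a b => by simp [integral_neg, h A a b]] with x h1 h2
  refine tendsto_order.2 ⟨fun a ha => ?_, fun a ha => ?_⟩
  · filter_upwards [h2 (g x - a) (sub_pos.2 ha)] with n hn
    rw [birkhoffSum_neg, neg_div, Pi.neg_apply] at hn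
    linarith
  · filter_upwards [h1 (a - g x) (sub_pos.2 ha)] with n hn
    linarith

/-- the pointwise ergodic theorem, forward and backward -/
theorem birkhoff [IsFiniteMeasure μ] {T' : X → X} (hT : MeasurePreserving T μ μ)
    (hT' : MeasurePreserving T' μ μ) (h1 : ∀ x, T (T' x) = x) (h2 : ∀ x, T' (T x) = x) (hf : Measurable f)
    (hi : Integrable f μ) : ∃ g : X → ℝ, Measurable g ∧ Integrable g μ ∧ (∀ x, g (T x) = g x) ∧
      (∀ A, MeasurableSet A → T ⁻¹' A = A → ∫ x in A, g x ∂μ = ∫ x in A, f x ∂μ) ∧
      ∀ᵐ x ∂μ, Tendsto (fun n : ℕ => birkhoffSum T f n x / n) atTop (𝓝 (g x)) ∧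
        Tendsto (fun n : ℕ => birkhoffSum T' f n x / n) atTop (𝓝 (g x)) := by
  have hle := MeasurableSpace.invariants_le T
  have sm : Measurable[MeasurableSpace.invariants T] (μ[f | MeasurableSpace.invariants T]) :=
    stronglyMeasurable_condExp.measurable
  have gT : ∀ x, (μ[f | MeasurableSpace.invariants T]) (T x) =
      (μ[f | MeasurableSpace.invariants T]) x :=
    congrFun (MeasurableSpace.comp_eq_of_measurable_invariants sm)
  have hs : ∀ A, MeasurableSet A → T ⁻¹' A = A →
      ∫ x in A, (μ[f | MeasurableSpace.invariants T]) x ∂μ = ∫ x in A, f x ∂μ := fun A a b =>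
    setIntegral_condExp hle hi ⟨a, b⟩
  have hm := sm.mono hle le_rfl
  refine ⟨_, hm, integrable_condExp, gT, hs, (conv hT hf hi hm integrable_condExp gT hs).and
    (conv hT' hf hi hm integrable_condExp (fun x => ?_) fun A a b => hs A a ?_)⟩
  · rw [← gT (T' x), h1]
  · ext x
    rw [mem_preimage, ← b, mem_preimage, h2, b]

end FBir

end

end Pool.Agent.Lib.MP_21f752_an
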