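import Mathlib

/-! Frozen statements, part C: combinatorics of walls on the circle at infinity, lifted to `ℝ`. -/

namespace Pool.Agent.Lib.MP_21f752_an

open Set Filter Topology
open scoped Real

noncomputable section

/-- `g` fixes `u`, `v` and pushes from `u` to `v` -/
structure Hyp (g : ℝ ≃o ℝ) (u v : ℝ) : Prop where
  lt : u < v
  lt2 : v < u + 2 * π
  fu : g u = u
  fv : g v = v
  up : ∀ t, u < t → t < v → t < g t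
  dn : ∀ t, v < t → t < u + 2 * π → g t < t

/-- `g` sends everything outside the `ε` neighbourhood of `r` close to `a` -/
def Ctr (g : ℝ ≃o ℝ) (r a ε : ℝ) : Prop := ∀ t, r + ε ≤ t → t ≤ r + 2 * π - ε → |g t - a| < ε

/-- a group of lifted Möbius maps -/
structure CG (G : Subgroup (ℝ ≃o ℝ)) : Prop where
  per : ∀ g ∈ G, ∀ t, g (t + 2 * π) = g t + 2 * π
  sh : ∃ T ∈ G, ∀ t, T t = t + 2 * π
  cd : ∀ g : ℕ → ℝ ≃o ℝ, (∀ n, g n ∈ G) → ∃ (φ : ℕ → ℕ) (h : ℕ → ℝ ≃o ℝ) (k : ℕ → ℤ),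
    StrictMono φ ∧ (∀ n, h n ∈ G) ∧ (∀ n t, h n t = g (φ n) t + k n * (2 * π)) ∧
      ((∀ n, h n = h 0) ∨ ∃ r a, ∀ ε, 0 < ε → ∀ᶠ n in atTop, Ctr (h n) r a ε)
  coc : ∃ e, 0 < e ∧ ∀ x y z : ℝ, x < y → y < z → z < x + 2 * π →
    ∃ g ∈ G, g x + e ≤ g y ∧ g y + e ≤ g z ∧ g z + e ≤ g x + 2 * π
  hy : ∀ g ∈ G, ∀ x, g x = x → g ≠ 1 → ∃ u v, Hyp g u v ∧ (x = u ∨ x = v)
  ax : ∀ g ∈ G, ∀ h ∈ G, ∀ x y, g ≠ 1 → h ≠ 1 → g x = x → h x = x → g y = y → h y = y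

/-- walls with their lifted ends -/
structure CW where
  W : Type
  x : W → ℝ
  y : W → ℝ
  G : Subgroup (ℝ ≃o ℝ)
  cg : CG G
  ne : Nonempty W
  lt : ∀ w, x w < y w
  lt2 : ∀ w, y w < x w + 2 * π
  act : ∀ g ∈ G, ∀ w, ∃ w', x w' = g (x w) ∧ y w' = g (y w)
  recP : ∀ w ε, 0 < ε → ∃ g ∈ G, |g⁻¹ (x w) - x w| < ε ∧ |g⁻¹ (y w) - y w| < ε ∧
    Ctr g (x w) (y w) ε
  recM : ∀ w ε, 0 < ε → ∃ g ∈ G, |g⁻¹ (x w) - x w| < ε ∧ |g⁻¹ (y w) - y w| < ε ∧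
    Ctr g (y w - 2 * π) (x w) ε
  up : ∀ w, ∃ w', x w < x w' ∧ x w' < y w ∧ y w < y w' ∧ y w' < x w + 2 * π
  dn : ∀ w, ∃ w', x w' < x w ∧ x w < y w' ∧ y w' < y w ∧ y w < x w' + 2 * π

namespace CW

variable (C : CW)

/-- `w'` is above `w` -/
def Lk (w w' : C.W) : Prop :=
  C.x w < C.x w' ∧ C.x w' < C.y w ∧ C.y w < C.y w' ∧ C.y w' < C.x w + 2 * π

/-- translates of one wall shrink to `l` and separate it -/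
def Sh (l : ℝ) : Prop := ∃ (m : C.W) (r : ℝ),
  (C.y m - 2 * π < r ∧ r < C.x m ∧
    ∀ ε, 0 < ε → ∃ g ∈ C.G, Ctr g r l ε ∧ g (C.x m) < l ∧ l < g (C.y m)) ∨
  (C.x m < r ∧ r < C.y m ∧
    ∀ ε, 0 < ε → ∃ g ∈ C.G, Ctr g r l ε ∧ g (C.y m) < l ∧ l < g (C.x m + 2 * π))

def Rel (w w' : C.W) : Prop :=
  C.Lk w w' ∨ ∃ k : ℤ, C.x w' = C.x w + k * (2 * π) ∧ C.y w' = C.y w + k * (2 * π)

variable {C}

/-- the linking component -/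
def K (k : C.W) : Set C.W := {w | Relation.EqvGen C.Rel k w}

def En (k : C.W) : Set ℝ := {t | ∃ w ∈ K k, t = C.x w ∨ t = C.y w}

def Lam (k : C.W) : Set ℝ := closure (En k)

def Gap (k : C.W) (u v : ℝ) : Prop :=
  u < v ∧ u ∈ Lam k ∧ v ∈ Lam k ∧ ∀ t, u < t → t < v → t ∉ Lam k

def Stab (k : C.W) (g : ℝ ≃o ℝ) : Prop :=
  g ∈ C.G ∧ ∀ w w', C.x w' = g (C.x w) → C.y w' = g (C.y w) → (w' ∈ K k ↔ w ∈ K k)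

structure Cell1 (k : C.W) : Prop where
  one : Stab k 1
  mul : ∀ g h, Stab k g → Stab k h → Stab k (g * h)
  inv : ∀ g, Stab k g → Stab k g⁻¹
  sh : ∀ g ∈ C.G, ∀ j : ℤ, (∀ t, g t = t + j * (2 * π)) → Stab k g
  of : ∀ g ∈ C.G, ∀ w ∈ K k, ∀ w' ∈ K k, C.x w' = g (C.x w) → C.y w' = g (C.y w) → Stab k g
  lam : ∀ g, Stab k g → ∀ t, g t ∈ Lam k ↔ t ∈ Lam k
  gap : ∀ g, Stab k g → ∀ u v, Gap k u v → Gap k (g u) (g v)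
  per : ∀ t (j : ℤ), t + j * (2 * π) ∈ Lam k ↔ t ∈ Lam k
  short : ∀ u v, Gap k u v → v < u + 2 * π
  recP : ∀ w ∈ K k, ∀ ε, 0 < ε → ∃ g, Stab k g ∧ |g⁻¹ (C.x w) - C.x w| < ε ∧
    |g⁻¹ (C.y w) - C.y w| < ε ∧ Ctr g (C.x w) (C.y w) ε
  recM : ∀ w ∈ K k, ∀ ε, 0 < ε → ∃ g, Stab k g ∧ |g⁻¹ (C.x w) - C.x w| < ε ∧
    |g⁻¹ (C.y w) - C.y w| < ε ∧ Ctr g (C.y w - 2 * π) (C.x w) ε
  shR : ∀ t ∈ En k, ∀ ε, 0 < ε → ∃ s ∈ K k, t - ε < C.x s ∧ C.x s < t ∧ t < C.y s ∧ C.y s < t + ε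
  shL : ∀ t ∈ En k, ∀ ε, 0 < ε →
    ∃ s ∈ K k, t - ε < C.y s ∧ C.y s < t ∧ t < C.x s + 2 * π ∧ C.x s + 2 * π < t + ε
  shE : ∀ t ∈ En k, C.Sh t
  share : ∀ w, C.x w ∈ Lam k ∨ C.y w ∈ Lam k → w ∈ K k
  other : ∀ w, w ∉ K k → (∀ t, C.x w < t → t < C.y w → t ∉ Lam k) ∨
    ∀ t, C.y w < t → t < C.x w + 2 * π → t ∉ Lam k
  gapE : ∀ u v, Gap k u v → ∀ w, C.x w ≠ u ∧ C.x w ≠ v ∧ C.y w ≠ u ∧ C.y w ≠ v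
  gapN : ∀ u v, Gap k u v → ∀ ε, 0 < ε →
    (∃ t ∈ En k, u - ε < t ∧ t < u) ∧ ∃ t ∈ En k, v < t ∧ t < v + ε
  sep : ∀ a b s t, a < s → s < b → b < t → t < a + 2 * π → s ∈ Lam k → t ∈ Lam k → ∃ w ∈ K k,
    (a < C.x w ∧ C.x w < b ∧ b < C.y w ∧ C.y w < a + 2 * π) ∨
      (C.x w < a ∧ a < C.y w ∧ C.y w < b ∧ b < C.x w + 2 * π)

structure Cell2 (k : C.W) : Prop where
  hyp : ∀ u v, Gap k u v → ∃ g, Stab k g ∧ Hyp g u v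
  fin : ∃ (n : ℕ) (c : ℝ → Fin n), ∀ u v u' v', Gap k u v → Gap k u' v' → c u = c u' →
    ∃ h, Stab k h ∧ h u = u' ∧ h v = v'
  v2 : ∀ l ∈ Lam k, (∀ v, ¬Gap k l v) → (∀ u, ¬Gap k u l) → C.Sh l

/-- limits of the plus ends of walls whose minus end tends to `p` -/
def Xi (k : C.W) (p : ℝ) : Set ℝ :=
  {t | ∀ ε, 0 < ε → ∃ w ∈ K k, |C.x w - p| < ε ∧ |C.y w - t| < ε}

/-- an oriented boundary axis from `p` to `q` followed by long walls; `s = true`: gap on the left -/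
structure Node (k : C.W) (s : Bool) (p q : ℝ) : Prop where
  gap : if s then Gap k q (p + 2 * π) else Gap k p q
  deep : q ∈ Xi k p

/-- a good edge -/
structure Edge (k : C.W) (a b : Bool × ℝ × ℝ) : Prop where
  src : Node k a.1 a.2.1 a.2.2
  tgt : Node k b.1 b.2.1 b.2.2
  lo : a.2.1 < b.2.2
  hi : b.2.2 < a.2.1 + 2 * π
  ne : b.2.2 ≠ a.2.2
  xi : b.2.2 ∈ Xi k a.2.1
  mix : a.1 ≠ b.1 →
    (∀ ε, 0 < ε → ∃ η, 0 < η ∧ ∀ δ, 0 < δ → ∃ w ∈ K k,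
      η < |C.x w - a.2.1| ∧ |C.x w - a.2.1| < ε ∧ |C.y w - b.2.2| < δ) ∧
    ∀ ε, 0 < ε → ∃ t ∈ Xi k a.2.1, t ≠ b.2.2 ∧ |t - b.2.2| < ε

/-- the closed interval is covered by right shields inside `(U, V)` -/
def CovR (C : CW) (U u v V : ℝ) : Prop :=
  ∀ l, u ≤ l → l ≤ v → ∃ w, U < C.x w ∧ C.x w < l ∧ l < C.y w ∧ C.y w < V

/-- the closed interval is covered by left shields inside `(V, U)` -/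
def CovL (C : CW) (V v u U : ℝ) : Prop :=
  ∀ l, v ≤ l → l ≤ u → ∃ w, V < C.y w ∧ C.y w < l ∧ l < C.x w + 2 * π ∧ C.x w + 2 * π < U

/-- a guarded loop at an axis; `gl`, `gr` say that the left or the right arc is a gap -/
structure Loop (C : CW) where
  p : ℝ
  q : ℝ
  γ : ℝ ≃o ℝ
  h : ℝ ≃o ℝ
  gl : Prop
  gr : Prop
  γm : γ ∈ C.G
  hm : h ∈ C.G
  hyp : Hyp γ p q
  lo : p < h q
  hi : h q < p + 2 * π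
  ne : h q ≠ q
  ne' : h p ≠ p
  pl : gl → h q < q ∧ h p < p
  pr : gr → q < h q ∧ p < h p
  chR : ¬gr → ∃ w, p < C.x w ∧ C.y w < q ∧ γ (C.x w) < C.y w
  chL : ¬gl → ∃ w, C.x w < p ∧ q < C.y w ∧ C.y w < γ (C.x w) + 2 * π
  gR : gr → ∀ δ, 0 < δ → C.CovR (p - δ) p (h q) (h q + δ)
  yR : ¬gr → ∀ ε, 0 < ε → ∃ u0 u1 v1 v0, p < u0 ∧ u1 < p + ε ∧ h q - ε < v1 ∧ v0 < h q ∧
    C.CovR u0 u1 v1 v0
  gL : gl → ∀ δ, 0 < δ → C.CovL (h q - δ) (h q) (p + 2 * π) (p + 2 * π + δ)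
  yL : ¬gl → ∀ ε, 0 < ε → ∃ v0 v1 u1 u0, h q < v0 ∧ v1 < h q + ε ∧ p + 2 * π - ε < u1 ∧
    u0 < p + 2 * π ∧ C.CovL v0 v1 u1 u0
  ee : ∃ r l, p < r ∧ r < h q ∧ h q < l ∧ l < p + 2 * π ∧ ∀ δ, 0 < δ → ∃ e1 e2,
    C.x e1 < C.x e2 ∧ |C.x e1 - p| < δ ∧ |C.x e2 - p| < δ ∧ |C.y e1 - r| < δ ∧ |C.y e2 - l| < δ ∧
      (gl → p < C.x e1) ∧ (gr → C.x e2 < p)

/-- ping pong data -/
structure PP (C : CW) where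
  g : Bool → ℝ ≃o ℝ
  gm : ∀ a, g a ∈ C.G
  p1 : ℝ
  p2 : ℝ
  f1 : ℝ
  f2 : ℝ
  e1 : C.W
  e2 : C.W
  o1 : p1 ≤ C.x e1
  o2 : C.x e1 < C.x e2
  o3 : C.x e2 ≤ p2
  o4 : p2 < C.y e1
  o5 : C.y e1 < f1
  o6 : f1 < f2
  o7 : f2 < C.y e2
  o8 : C.y e2 < p1 + 2 * π
  inP : ∀ a, g a p1 ≤ p1 ∧ p2 ≤ g a p2
  inF : ∀ a, f1 ≤ g a f1 ∧ g a f2 ≤ f2
  sep : g false f2 < g true f1 ∨ g true f2 < g false f1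
  rl : ∀ a, C.y e1 ≤ g a (C.y e1) ∧ g a (C.y e2) ≤ C.y e2
  cR : ∀ a, C.CovR p2 (C.y e1) (g a (C.y e1)) (g a f1)
  cL : ∀ a, C.CovL (g a f2) (g a (C.y e2)) (C.y e2) (p1 + 2 * π)

end CW

/-- walls together with the relation `nr w l e`: the wall passes within `e` of the point `l` -/
structure CS extends CW where
  nr : W → ℝ → ℝ → Prop
  mono : ∀ w l l' e, nr w l e → nr w l' (e + |l - l'|)
  mono' : ∀ w l e e', nr w l e → e ≤ e' → nr w l e'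
  per : ∀ w l e (j : ℤ), nr w (l + j * (2 * π)) e ↔ nr w l e
  shift : ∀ w (j : ℤ), ∃ w', x w' = x w + j * (2 * π) ∧ y w' = y w + j * (2 * π) ∧
    ∀ l e, nr w' l e ↔ nr w l e
  avR : ∀ m l, x m < l → l < y m → ∃ e, 0 < e ∧ ∀ g, x g < x m → y m < y g → ¬nr g l e
  avL : ∀ m l, y m < l → l < x m + 2 * π → ∃ e, 0 < e ∧ ∀ g, x m < x g → y g < y m → ¬nr g l e
  tipL : ∀ μ l, μ < l → l < μ + 2 * π → ∃ e0, 0 < e0 ∧ ∀ e, 0 < e → e ≤ e0 → ∀ g,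
    x g + 2 * π < μ → ∃ δ, 0 < δ ∧ ∀ f, x g < x f → y f < y g → l < x f + 2 * π →
      nr f μ δ → ¬nr f l e → ¬nr g l e
  tipR : ∀ μ l, l < μ → μ < l + 2 * π → ∃ e0, 0 < e0 ∧ ∀ e, 0 < e → e ≤ e0 → ∀ g,
    μ < x g → ∃ δ, 0 < δ ∧ ∀ f, x f < x g → y g < y f → x f < l →
      nr f μ δ → ¬nr f l e → ¬nr g l e
  v1 : ∀ l a b, toCW.Sh l → (∀ j : ℤ, a + j * (2 * π) ≠ l ∧ b + j * (2 * π) ≠ l) →
    ∃ ε, 0 < ε ∧ ∀ w, |x w - a| < ε → |y w - b| < ε → ¬nr w l ε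
  fan : ∀ w1 w2, toCW.Lk w1 w2 → ∀ ε, 0 < ε → ∃ (k1 k2 : W) (F : Set W), k1 ∈ F ∧ k2 ∈ F ∧
    |x k1 - x w1| < ε ∧ |y k1 - y w1| < ε ∧ |x k2 - x w2| < ε ∧ |y k2 - y w2| < ε ∧
    (∀ f ∈ F, x k1 ≤ x f ∧ x f ≤ x k2 ∧ y k1 ≤ y f ∧ y f ≤ y k2) ∧
    ∀ m e, y k1 < m → m < y k2 → 0 < e → (∀ f ∈ F, e ≤ |y f - m|) → ∃ a b ω ξ1 ξ2,
      a < m ∧ m < b ∧ a ≤ ω ∧ ω ≤ b ∧
      (∀ δ, 0 < δ → ∃ f ∈ F, |x f - ξ1| < δ ∧ |y f - a| < δ ∧ y f ≤ ω ∧ nr f ω δ) ∧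
      (∀ δ, 0 < δ → ∃ f ∈ F, |x f - ξ2| < δ ∧ |y f - b| < δ ∧ ω ≤ y f ∧ nr f ω δ) ∧
      (a < ω → ω < b → ∃ d ∈ G, ∃ u, Hyp d u ω ∧ b - 2 * π ≤ u ∧ u ≤ a)

namespace CS

variable {C : CS}

/-- walls of `F` with ends close to `(ξ, b)` pass close to `μ` -/
def Fing (C : CS) (F : Set C.W) (ξ b μ : ℝ) : Prop :=
  ∀ δ, 0 < δ → ∃ f ∈ F, |C.x f - ξ| < δ ∧ |C.y f - b| < δ ∧ C.nr f μ δ

/-- the dichotomy at a jump of a fan -/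
def FD (k : C.W) : Prop :=
  ∀ w1 ∈ CW.K k, ∀ w2, C.Lk w1 w2 → ∀ ε, 0 < ε → ∃ (k1 k2 : C.W) (F : Set C.W),
    k1 ∈ F ∧ k2 ∈ F ∧ F ⊆ CW.K k ∧ C.Lk k1 k2 ∧
    |C.x k1 - C.x w1| < ε ∧ |C.y k1 - C.y w1| < ε ∧ |C.x k2 - C.x w2| < ε ∧ |C.y k2 - C.y w2| < ε ∧
    (∀ f ∈ F, C.x k1 ≤ C.x f ∧ C.x f ≤ C.x k2 ∧ C.y k1 ≤ C.y f ∧ C.y f ≤ C.y k2) ∧
    ∀ m e, C.y k1 < m → m < C.y k2 → 0 < e → (∀ f ∈ F, e ≤ |C.y f - m|) → ∃ a b ξ μ,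
      a < m ∧ m < b ∧ (∀ δ, 0 < δ → ∃ f ∈ F, |C.y f - a| < δ) ∧
      (∀ δ, 0 < δ → ∃ f ∈ F, |C.y f - b| < δ) ∧
      ((∃ v, CW.Gap k a v ∧ (μ = a ∨ μ = v) ∧ C.Fing F ξ b μ) ∨
        ∃ u, CW.Gap k u b ∧ (μ = u ∨ μ = b) ∧ C.Fing F ξ a μ)

/-- the jump lemma at a node with the gap on the left -/
def Jump (k : C.W) : Prop :=
  ∀ p q x1 m x2, CW.Node k true p q → p < x1 → x1 < m → m < x2 → x2 < q → m ∈ CW.Lam k →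
    x1 ∈ CW.Xi k p → x2 ∈ CW.Xi k p → (∀ t, x1 < t → t < x2 → t ∉ CW.Xi k p) →
    (∃ v μ, CW.Gap k x1 v ∧ (μ = x1 ∨ μ = v) ∧ C.Fing (CW.K k) p x2 μ) ∨
    ((∃ v, CW.Gap k x2 v) ∧ ∀ ε, 0 < ε → ∃ u b μ ξ a, CW.Gap k u b ∧ m ≤ u ∧ b ≤ x2 ∧
      (μ = u ∨ μ = b) ∧ p < ξ ∧ ξ < p + ε ∧ |a - x1| < ε ∧ C.Fing (CW.K k) ξ a μ) ∨
    ∃ u μ, CW.Gap k u x2 ∧ (μ = u ∨ μ = x2) ∧ ∀ ε, 0 < ε → ∃ ξ a η, p < ξ ∧ ξ < p + ε ∧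
      |a - x1| < ε ∧ C.Fing (CW.K k) ξ a μ ∧ 0 < η ∧ ∀ δ, 0 < δ → ∃ w ∈ CW.K k,
        p + η < C.x w ∧ C.x w < p + ε ∧ |C.y w - x2| < δ

end CS

def Cell1St : Prop := ∀ (C : CW) (k : C.W), CW.Cell1 k

def Cell2St : Prop := ∀ (C : CW) (k : C.W), CW.Cell2 k

/-- nodes: creation, `Xi` is closed, invariant, inside `Lam`, on both sides of every point -/
def NodeSt : Prop := ∀ (C : CW) (k : C.W),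
  (∀ p, IsClosed (CW.Xi k p) ∧ CW.Xi k p ⊆ CW.Lam k) ∧
  (∀ g, CW.Stab k g → ∀ p t, t ∈ CW.Xi k p → g t ∈ CW.Xi k (g p)) ∧
  (∀ g, CW.Stab k g → ∀ s p q, CW.Node k s p q → CW.Node k s (g p) (g q)) ∧
  (∀ g, CW.Stab k g → ∀ a b, CW.Edge k a b →
    CW.Edge k (a.1, g a.2.1, g a.2.2) (b.1, g b.2.1, g b.2.2)) ∧
  (∀ p q c, CW.Gap k q (p + 2 * π) → c < q →
    (∀ δ, 0 < δ → ∃ w ∈ CW.K k, C.x w ≤ c ∧ p ≤ C.x w ∧ |C.y w - q| < δ) → CW.Node k true p q) ∧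
  (∀ p q c, CW.Gap k p q → q - 2 * π < c →
    (∀ δ, 0 < δ → ∃ w ∈ CW.K k, c ≤ C.x w ∧ C.x w ≤ p ∧ |C.y w - q| < δ) → CW.Node k false p q) ∧
  (∀ p q t, CW.Node k true p q → p < t → t < q →
    (∃ a ∈ CW.Xi k p, p < a ∧ a < t) ∧ ∃ b ∈ CW.Xi k p, t < b ∧ b < q) ∧
  (∀ p q t, CW.Node k false p q → q < t → t < p + 2 * π →
    (∃ a ∈ CW.Xi k p, q < a ∧ a < t) ∧ ∃ b ∈ CW.Xi k p, t < b ∧ b < p + 2 * π) ∧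
  ∀ s p q, CW.Node k s p q → ∃ h, CW.Stab k h ∧ p < h q ∧ h q < p + 2 * π ∧ h q ≠ q

def FDSt : Prop := ∀ (C : CS) (k : C.W), CS.FD k

def JumpSt : Prop := ∀ (C : CS) (k : C.W), CS.Jump k

/-- a node gives a good walk that closes up -/
def WalkSt : Prop := ∀ (C : CS) (k : C.W), (∃ s p q, CW.Node k s p q) →
  ∃ s p q h, CW.Stab k h ∧ Relation.TransGen (CW.Edge k) (s, p, q) (s, h p, h q)

def LoopSt : Prop := ∀ (C : CW) (k : C.W) (s : Bool) (p q : ℝ) (h : ℝ ≃o ℝ), CW.Stab k h →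
  Relation.TransGen (CW.Edge k) (s, p, q) (s, h p, h q) → Nonempty C.Loop

def DenseSt : Prop := ∀ (C : CS) (k : C.W), (∀ s p q, ¬CW.Node k s p q) → Nonempty C.Loop

def PingSt : Prop := ∀ C : CW, Nonempty C.Loop → Nonempty C.PP

end

end Pool.Agent.Lib.MP_21f752_an
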