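import Pool.Agent.Lib.MP_21f752_an.FG

/-! Ping pong data give exponentially many translates that are reached in linear time. -/

namespace Pool.Agent.Lib.MP_21f752_an

open UpperHalfPlane Set Filter Topology Metric
open scoped MatrixGroups Real

noncomputable section

namespace FCor

lemma int_zero {k : ℤ} (h0 : -(2 * π) < (k : ℝ) * (2 * π)) (h1 : (k : ℝ) * (2 * π) < 2 * π) :
    k = 0 := by
  have := Real.pi_pos
  have a : ((-1 : ℤ) : ℝ) < k := by push_cast; nlinarith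
  have b : (k : ℝ) < (1 : ℤ) := by push_cast; nlinarith
  have a' := Int.cast_lt.1 a
  have b' := Int.cast_lt.1 b
  omega

lemma lift_one : Lift 1 1 :=
  ⟨fun _ => rfl, fun _ ε h => ⟨ε, h, fun z hz => by simpa using hz⟩,
    fun _ ε h => ⟨ε, h, fun z hz => by simpa using hz⟩⟩

variable {γ γ' : SL(2, ℝ)} {g g' : ℝ ≃o ℝ}

lemma lift_mul (h : Lift γ g) (h' : Lift γ' g') : Lift (γ * γ') (g * g') := by
  refine ⟨fun t => ?_, fun l ε e => ?_, fun l ε e => ?_⟩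
  · change g (g' _) = g (g' t) + _
    rw [h'.per, h.per]
  · obtain ⟨δ, d, k⟩ := h.fw (g' l) ε e
    obtain ⟨δ', d', k'⟩ := h'.fw l δ d
    exact ⟨δ', d', fun z hz => by rw [mul_smul]; exact k _ (k' z hz)⟩
  · obtain ⟨δ, d, k⟩ := h'.bw l ε e
    obtain ⟨δ', d', k'⟩ := h.bw (g' l) δ d
    exact ⟨δ', d', fun z hz => by rw [mul_inv_rev, mul_smul]; exact k _ (k' z hz)⟩

lemma lift_inv (h : Lift γ g) : Lift γ⁻¹ g⁻¹ := by
  refine ⟨fun t => g.injective ?_, fun l ε e => ?_, fun l ε e => ?_⟩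
  · rw [h.per]
    simp
  · simpa using h.bw (g⁻¹ l) ε e
  · simpa using h.fw (g⁻¹ l) ε e

lemma per_int (h : Lift γ g) (t : ℝ) (k : ℤ) : g (t + k * (2 * π)) = g t + k * (2 * π) := by
  have p : Function.Periodic (fun t => g t - t) (2 * π) := fun t => by simp only [h.per]; ring
  have : g (t + k * (2 * π)) - (t + k * (2 * π)) = g t - t := p.int_mul k t
  linarith

lemma bl_mono {l a b : ℝ} {z : ℍ} (h : z ∈ Bl l a) (hab : a ≤ b) : z ∈ Bl l b :=
  lt_of_lt_of_le (show ‖cay z - ce l‖ < a from h) hab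

lemma cov {W : Type} (P : W → Prop) (lo hi : W → ℝ) {u v : ℝ} (huv : u ≤ v)
    (h : ∀ l, u ≤ l → l ≤ v → ∃ w, P w ∧ lo w < l ∧ l < hi w) :
    ∃ (s : Finset W) (η : ℝ), 0 < η ∧ (∀ w ∈ s, P w) ∧
      ∀ l, u - η ≤ l → l ≤ v + η → ∃ w ∈ s, lo w < l ∧ l < hi w := by
  classical
  obtain ⟨s, hs⟩ := (isCompact_Icc (a := u) (b := v)).elim_finite_subcover
    (fun w : {w // P w} => Ioo (lo w) (hi w)) (fun _ => isOpen_Ioo) fun l hl => by
      obtain ⟨w, a, b⟩ := h l hl.1 hl.2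
      exact mem_iUnion.2 ⟨⟨w, a⟩, b⟩
  have k : ∀ l, u ≤ l → l ≤ v → ∃ w ∈ s.image Subtype.val, lo w < l ∧ l < hi w := fun l a b => by
    obtain ⟨w, c, d⟩ := mem_iUnion₂.1 (hs ⟨a, b⟩)
    exact ⟨w, Finset.mem_image_of_mem _ c, d⟩
  obtain ⟨w1, a1, b1, c1⟩ := k u le_rfl huv
  obtain ⟨w2, a2, b2, c2⟩ := k v huv le_rfl
  have m1 := min_le_left (u - lo w1) (hi w2 - v)
  have m2 := min_le_right (u - lo w1) (hi w2 - v)
  have m0 : 0 < min (u - lo w1) (hi w2 - v) := lt_min (by linarith) (by linarith)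
  refine ⟨s.image Subtype.val, min (u - lo w1) (hi w2 - v) / 2, by linarith, fun w hw => ?_,
    fun l a b => ?_⟩
  · obtain ⟨w, -, rfl⟩ := Finset.mem_image.1 hw
    exact w.2
  rcases lt_or_ge l u with c | c
  · exact ⟨w1, a1, by linarith, by linarith⟩
  rcases lt_or_ge v l with d | d
  · exact ⟨w2, a2, by linarith, by linarith⟩
  exact k l c d

lemma side {G : Geo} {ξ : N} {x y l : ℝ} {L R S : Set ℍ} (h : G.Sides ξ x y L R) (hl : Lift γ g)
    (hS : IsPreconnected S) (hd : ∀ z ∈ S, ∀ s, z ≠ γ • G.o ξ s)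
    (ha : ∀ ε, 0 < ε → ∃ z ∈ S, z ∈ Bl l ε) :
    (g y < l → l < g x + 2 * π → ∀ z ∈ S, γ⁻¹ • z ∈ L) ∧
      (g x < l → l < g y → ∀ z ∈ S, γ⁻¹ • z ∈ R) := by
  have c := hS.image (fun z : ℍ => γ⁻¹ • z) (continuous_const_smul _).continuousOn
  have u : (fun z : ℍ => γ⁻¹ • z) '' S ⊆ L ∪ R := by
    rw [h.un]
    rintro _ ⟨z, hz, rfl⟩ ⟨s, hs⟩
    exact hd z hz s (by rw [hs, smul_inv_smul])
  have n : ∀ A : Set ℍ, (∃ ε, 0 < ε ∧ Bl (g.symm l) ε ⊆ A) →
      ((fun z : ℍ => γ⁻¹ • z) '' S ∩ A).Nonempty := by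
    rintro A ⟨ε, e, hA⟩
    obtain ⟨δ, d, k⟩ := hl.bw (g.symm l) ε e
    obtain ⟨z, a, b⟩ := ha δ d
    exact ⟨_, ⟨z, a, rfl⟩, hA (k z (by rwa [g.apply_symm_apply]))⟩
  refine ⟨fun a b z hz => c.subset_left_of_subset_union h.oL h.oR h.dis u (n _ (h.lf _ ?_ ?_))
    ⟨z, hz, rfl⟩, fun a b z hz => c.subset_right_of_subset_union h.oL h.oR h.dis u
      (n _ (h.rt _ ?_ ?_)) ⟨z, hz, rfl⟩⟩
  · exact g.lt_symm_apply.2 a
  · exact g.symm_apply_lt.2 (by rwa [hl.per])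
  · exact g.lt_symm_apply.2 a
  · exact g.symm_apply_lt.2 b

/-- products along a word -/
def pw {M : Type} [Monoid M] (f : Bool → M) (a : ℕ → Bool) : ℕ → M
  | 0 => 1
  | k + 1 => pw f a k * f (a k)

lemma pw_congr {M : Type} [Monoid M] (f : Bool → M) {a b : ℕ → Bool} :
    ∀ k, (∀ j < k, a j = b j) → pw f a k = pw f b k
  | 0, _ => rfl
  | k + 1, h => by
    rw [pw, pw, pw_congr f k fun j hj => h j (hj.trans k.lt_succ_self), h k k.lt_succ_self]

lemma pw_mono {f : Bool → ℝ ≃o ℝ} {t : ℝ} (h : ∀ a, t ≤ f a t) (a : ℕ → Bool) :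
    Monotone fun k => pw f a k t :=
  monotone_nat_of_le_succ fun k => (pw f a k).monotone (h _)

lemma pw_anti {f : Bool → ℝ ≃o ℝ} {t : ℝ} (h : ∀ a, f a t ≤ t) (a : ℕ → Bool) :
    Antitone fun k => pw f a k t :=
  antitone_nat_of_succ_le fun k => (pw f a k).monotone (h _)

lemma o_gg (G : Geo) (hγ : γ ∈ G.Γ) (k : ℤ) (ξ : N) (t : ℝ) :
    G.o (gg γ (k * (2 * π)) ξ) t = γ • G.o ξ t := by
  rw [Geo.o, G.φ_gg hγ]
  rfl

lemma acc {G : Geo} {ξ : N} {y : ℝ} (h : G.EndP ξ y) (ε : ℝ) (e : 0 < ε) :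
    ∃ t, G.o ξ t ∈ Bl y ε := by
  obtain ⟨t, ht⟩ := (h.eventually (ball_mem_nhds _ e)).exists
  exact ⟨t, by rwa [dist_eq_norm] at ht⟩

theorem main (hd : Disc) (hm : Mob) (hsl : SlSt) (G : Geo) (hsd : ∀ ξ x y, G.Wl ξ x y →
    ∃ L R, G.Sides ξ x y L R) (ht : G.T3) (hf : G.FM) (hsh : G.Shoot) (hB : G.Base)
    (hG : CG (GG G.Γ)) (C : CW) (hC : ∀ g ∈ C.G, g ∈ GG G.Γ) (wl : C.W → N)
    (hw : ∀ w, G.Wl (wl w) (C.x w) (C.y w)) (P : C.PP) : G.Exp := by
  classical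
  have pi := Real.pi_pos
  have o1 := P.o1
  have o2 := P.o2
  have o3 := P.o3
  have o4 := P.o4
  have o5 := P.o5
  have o6 := P.o6
  have o7 := P.o7
  have o8 := P.o8
  choose γ γm γl using fun a => hC _ (P.gm a)
  choose L R hS using fun w => hsd _ _ _ (hw w)
  set r := C.y P.e1 with hr
  set l := C.y P.e2 with hl
  have Γm : ∀ a k, pw γ a k ∈ G.Γ := fun a k => by
    induction k with
    | zero => exact G.Γ.one_mem
    | succ k ih => exact G.Γ.mul_mem ih (γm _)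
  have Γl : ∀ a k, Lift (pw γ a k) (pw P.g a k) := fun a k => by
    induction k with
    | zero => exact lift_one
    | succ k ih => exact lift_mul ih (γl _)
  have q1 : ∀ a k, pw P.g a k P.p1 ≤ P.p1 := fun a k =>
    pw_anti (fun a => (P.inP a).1) a (Nat.zero_le k)
  have q2 : ∀ a k, P.p2 ≤ pw P.g a k P.p2 := fun a k =>
    pw_mono (fun a => (P.inP a).2) a (Nat.zero_le k)
  have q3 : ∀ a j k, pw P.g a j P.f1 < pw P.g a k P.f2 := fun a j k =>
    (pw_mono (fun a => (P.inF a).1) a (le_max_left j k)).trans_lt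
      (((pw P.g a _).strictMono o6).trans_le (pw_anti (fun a => (P.inF a).2) a (le_max_right j k)))
  have q4 : ∀ a k, P.f1 < pw P.g a k P.f2 := fun a k => q3 a 0 k
  have q5 : ∀ a k, pw P.g a k P.f1 < P.f2 := fun a k => q3 a k 0
  have q6 : ∀ a k, P.f1 ≤ pw P.g a k P.f1 := fun a k =>
    pw_mono (fun a => (P.inF a).1) a (Nat.zero_le k)
  -- finite families of shields
  choose sR ηR ηR0 sR1 sR2 using fun a => cov (fun w => P.p2 < C.x w ∧ C.y w < P.g a P.f1) C.x C.y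
    (P.rl a).1 fun t a1 a2 => by
      obtain ⟨w, b1, b2, b3, b4⟩ := P.cR a t a1 a2
      exact ⟨w, ⟨b1, b4⟩, b2, b3⟩
  choose sL ηL ηL0 sL1 sL2 using fun a => cov (fun w => P.g a P.f2 < C.y w ∧ C.x w < P.p1) C.y
    (fun w => C.x w + 2 * π) (P.rl a).2 fun t a1 a2 => by
      obtain ⟨w, b1, b2, b3, b4⟩ := P.cL a t a1 a2
      exact ⟨w, ⟨b1, by linarith⟩, b2, b3⟩
  obtain ⟨η, η0, η1, η2, η3⟩ : ∃ η, 0 < η ∧ (∀ a, η ≤ ηR a ∧ η ≤ ηL a) ∧ P.p2 + η < r - η ∧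
      l + η < P.p1 + 2 * π - η := by
    have e : ∀ c : ℝ, 0 < c → ∀ᶠ η in 𝓝[>] (0 : ℝ), η < c := fun c hc =>
      (gt_mem_nhds hc : ∀ᶠ η in 𝓝 (0 : ℝ), η < c).filter_mono nhdsWithin_le_nhds
    obtain ⟨η, a, b, c, d⟩ := (eventually_mem_nhdsWithin.and ((eventually_all.2 fun a =>
      (e _ (ηR0 a)).and (e _ (ηL0 a))).and ((e ((r - P.p2) / 2) (by linarith)).and
        (e ((P.p1 + 2 * π - l) / 2) (by linarith))))).exists
    exact ⟨η, a, fun a => ⟨(b a).1.le, (b a).2.le⟩, by linarith, by linarith⟩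
  obtain ⟨m, m0, hm0⟩ := ((isCompact_Icc (a := r) (b := l)).prod
    (isCompact_Icc (a := l + η) (b := r - η + 2 * π))).exists_forall_le'
    (f := fun x : ℝ × ℝ => ‖ce x.1 - ce x.2‖) (a := 0) (((continuous_ce.comp continuous_fst).sub
      (continuous_ce.comp continuous_snd)).norm.continuousOn) fun x hx => by
      refine norm_pos_iff.2 (sub_ne_zero.2 fun e => ?_)
      obtain ⟨k, hk⟩ := ce_eq_iff.1 e
      have := int_zero (k := k) (by linarith [hx.1.1, hx.2.2]) (by linarith [hx.1.2, hx.2.1])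
      rw [this] at hk
      linarith [hx.1.2, hx.2.1, (by simpa using hk : x.1 = x.2)]
  have oB : ∀ t ε, IsOpen (Bl t ε) := fun t ε =>
    isOpen_lt (hd.emb.continuous.sub continuous_const).norm continuous_const
  set Q : Set ℍ := ⋃ μ ∈ Icc r l, Bl μ (m / 2) with hQ
  have oQ : IsOpen Q := isOpen_biUnion fun _ _ => oB _ _
  have Q1 : ∀ μ, r ≤ μ → μ ≤ l → Bl μ (m / 2) ⊆ Q := fun μ a b =>
    subset_biUnion_of_mem (u := fun μ => Bl μ (m / 2)) (show μ ∈ Icc r l from ⟨a, b⟩)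
  have Q2 : ∀ t, l + η ≤ t → t ≤ r - η + 2 * π → Disjoint (Bl t (m / 2)) (closure Q) := by
    intro t a b
    refine Disjoint.closure_right (disjoint_left.2 fun z h1 h2 => ?_) (oB _ _)
    obtain ⟨μ, c, d⟩ := mem_iUnion₂.1 h2
    have := hm0 (μ, t) ⟨c, a, b⟩
    have e := norm_sub_le_norm_sub_add_norm_sub (ce μ) (cay z) (ce t)
    rw [norm_sub_rev (ce μ) (cay z)] at e
    have d' : ‖cay z - ce μ‖ < m / 2 := d
    have h1' : ‖cay z - ce t‖ < m / 2 := h1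
    simp only at this
    linarith
  -- bounded blocks
  have blk : ∀ a, ∃ R0, {z | z ∈ closure Q ∧ (z ∉ Q ∨ (γ a)⁻¹ • z ∉ Q) ∧ (∀ b ∈ sR a, z ∈ L b) ∧
      ∀ b ∈ sL a, z ∈ R b} ⊆ closedBall UpperHalfPlane.I R0 := fun a => by
    refine hd.bdd _ (r - η) fun t ⟨t1, t2⟩ => ?_
    rcases le_or_gt t (P.g a r) with c1 | c1
    · obtain ⟨b, b1, b2, b3⟩ := sR2 a t (by linarith [(η1 a).1]) (by linarith [ηR0 a])
      obtain ⟨ε, e, k⟩ := (hS b).rt t b2 b3
      exact ⟨ε, e, disjoint_left.2 fun z h1 h2 =>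
        disjoint_left.1 (hS b).dis (h2.2.2.1 b b1) (k h1)⟩
    rcases le_or_gt t (P.g a l) with c2 | c2
    · obtain ⟨δ, d, k⟩ := (γl a).bw ((P.g a).symm t) (m / 2) (by linarith)
      rw [OrderIso.apply_symm_apply] at k
      refine ⟨min δ (m / 2), lt_min d (by linarith), disjoint_left.2 fun z h1 h2 => ?_⟩
      rcases h2.2.1 with h3 | h3
      · exact h3 (Q1 t (by linarith [(P.rl a).1]) (by linarith [(P.rl a).2])
          (bl_mono h1 (min_le_right _ _)))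
      · exact h3 (Q1 _ ((P.g a).le_symm_apply.2 c1.le) ((P.g a).symm_apply_le.2 c2)
          (k z (bl_mono h1 (min_le_left _ _))))
    rcases le_or_gt t (l + η) with c3 | c3
    · obtain ⟨b, b1, b2, b3⟩ := sL2 a t (by linarith [ηL0 a]) (by linarith [(η1 a).2])
      obtain ⟨ε, e, k⟩ := (hS b).lf t b2 b3
      exact ⟨ε, e, disjoint_left.2 fun z h1 h2 =>
        disjoint_left.1 (hS b).dis (k h1) (h2.2.2.2 b b1)⟩
    exact ⟨m / 2, by linarith, (Q2 t c3.le t2).mono_right fun z h => h.1⟩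
  choose R0 hR0 using blk
  -- the base point and the wedge
  obtain ⟨s1, s2, hs⟩ := hsl _ _ _ _ _ _ (hB.line _ _ _ (hw P.e1)) (hB.line _ _ _ (hw P.e2)) o2
    (by linarith) (by linarith) (by linarith)
  set p := G.o (wl P.e1) s1 with hp
  set θ1 := (G.φ s1 (wl P.e1)).2 with hθ1
  obtain ⟨k0, hk0, -⟩ := existsUnique_add_zsmul_mem_Ico (show 0 < 2 * π by linarith)
    (G.φ s2 (wl P.e2)).2 θ1
  rw [zsmul_eq_mul] at hk0
  set θ2 := (G.φ s2 (wl P.e2)).2 + k0 * (2 * π) with hθ2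
  have w1 : G.Wl (p, θ1) (C.x P.e1) r := hB.wφ _ _ _ s1 (hw P.e1)
  have w2 : G.Wl (p, θ2) (C.x P.e2) l := by
    have := hB.wg _ _ _ 1 G.Γ.one_mem 1 k0 lift_one (hB.wφ _ _ _ s2 (hw P.e2))
    rw [gg_one] at this
    rw [hs]
    exact this
  have θlt : θ1 < θ2 := hk0.1.lt_of_ne fun e => by
    obtain ⟨k, a, -⟩ := hB.wu _ _ _ _ _ w1 (e ▸ w2)
    have := int_zero (k := k) (by linarith) (by linarith)
    rw [this] at a
    linarith [(by simpa using a : C.x P.e2 = C.x P.e1)]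
  obtain ⟨R1, hR1⟩ := hd.bdd {z | z ∉ Q ∧ ∃ θ ∈ Icc θ1 θ2, ∃ t, 0 ≤ t ∧ z = G.o (p, θ) t} r
    fun t ⟨t1, t2⟩ => by
      rcases le_or_gt t l with c1 | c1
      · exact ⟨m / 2, by linarith, disjoint_left.2 fun z h1 h2 => h2.1 (Q1 t t1 c1 h1)⟩
      rcases t2.lt_or_eq with c2 | c2
      · obtain ⟨ε, e, k⟩ := (hf p θ1 θ2 r l θlt hk0.2 (by linarith) (by linarith)).1 w1.p w2.p t c1 c2
        exact ⟨ε, e, disjoint_left.2 fun z h1 ⟨_, θ, a, s, b, c⟩ => k θ a s b (c ▸ h1)⟩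
      · refine ⟨m / 2, by linarith, disjoint_left.2 fun z h1 h2 => h2.1 (Q1 r le_rfl (by linarith) ?_)⟩
        have : ce t = ce r := ce_eq_iff.2 ⟨1, by simpa using c2⟩
        simpa only [Bl, this] using h1
  -- words whose cut contains the base point
  obtain ⟨R2, hR2⟩ : ∃ R2, ∀ a k, (pw γ a k)⁻¹ • p ∈ Q →
      dist p (pw γ a k • UpperHalfPlane.I) ≤ R2 := by
    by_contra hc
    push Not at hc
    choose a k h1 h2 using fun n : ℕ => hc n
    obtain ⟨φ, h, j, φm, -, hj, hh⟩ := hG.cd (fun n => pw P.g (a n) (k n))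
      fun n => ⟨_, Γm _ _, Γl _ _⟩
    have hl' : ∀ n, Lift (pw γ (a (φ n)) (k (φ n))) (h n) := fun n =>
      hm.add _ _ _ (j n) (Γl _ _) (hj n)
    rcases hh with hh | ⟨ρ, α, hh⟩
    · obtain ⟨n, hn⟩ := exists_nat_ge (dist p (pw γ (a (φ 0)) (k (φ 0)) • UpperHalfPlane.I))
      have := hm.triv _ _ (lift_mul (lift_inv (hl' 0)) (hl' n)) (fun t => by rw [hh n]; simp)
        UpperHalfPlane.I
      rw [mul_smul, inv_smul_eq_iff] at this
      have b := h2 (φ n)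
      have c : (n : ℝ) ≤ φ n := Nat.cast_le.2 (φm.le_apply)
      rw [this] at b
      linarith
    obtain ⟨ε, e, hε⟩ := hd.far p 0
    obtain ⟨δ, d, hδ⟩ := hm.hull (min ε (m / 2)) (lt_min e (by linarith))
    obtain ⟨n, c1, c2⟩ := ((hh δ d).and (hh (min η ((P.p2 - P.p1) / 2))
      (lt_min η0 (by linarith)))).exists
    have c3 : (pw γ (a (φ n)) (k (φ n)))⁻¹ • p ∈ Bl ρ (min ε (m / 2)) := by
      by_contra hn
      have := hδ _ _ _ _ (hl' n) c1 _ hn
      rw [smul_inv_smul] at this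
      simpa using hε α p (bl_mono this (min_le_left _ _))
    obtain ⟨i, hi, -⟩ := existsUnique_add_zsmul_mem_Ico (show 0 < 2 * π by linarith) ρ (r - η)
    rw [zsmul_eq_mul] at hi
    rcases le_or_gt (l + η) (ρ + i * (2 * π)) with c4 | c4
    · refine disjoint_left.1 (Q2 _ c4 hi.2.le) ?_ (subset_closure (h1 (φ n)))
      have : ce (ρ + i * (2 * π)) = ce ρ := ce_eq_iff.2 ⟨i, rfl⟩
      simpa only [Bl, this] using bl_mono c3 (min_le_right _ _)
    have m1 := min_le_left η ((P.p2 - P.p1) / 2)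
    have m2 := min_le_right η ((P.p2 - P.p1) / 2)
    have i1 := hi.1
    have a1 := c2 (P.p1 + ((1 - i : ℤ) : ℝ) * (2 * π)) (by push_cast; linarith)
      (by push_cast; linarith)
    have a2 := c2 (P.p2 + ((1 - i : ℤ) : ℝ) * (2 * π)) (by push_cast; linarith)
      (by push_cast; linarith)
    rw [per_int (hl' n), hj] at a1 a2
    linarith [abs_lt.1 a1, abs_lt.1 a2, q1 (a (φ n)) (k (φ n)), q2 (a (φ n)) (k (φ n))]
  obtain ⟨R3, r0, r1, r2⟩ : ∃ R3, (∀ a, R0 a ≤ R3) ∧ R1 ≤ R3 ∧ R2 ≤ R3 :=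
    ⟨max (max (R0 false) (R0 true)) (max R1 R2), fun a => by cases a <;> simp, by simp, by simp⟩
  obtain ⟨M, hM⟩ := hB.cnt R3
  have co : ∀ ξ, Continuous (G.o ξ) := fun ξ =>
    (G.continuous_φ.comp (continuous_id.prodMk continuous_const)).fst
  have key : ∀ (a : ℕ → Bool) (n : ℕ), ∃ θ t : ℝ, 0 ≤ t ∧ t ≤ M * (n + 1) ∧
      dist (G.o (p, θ) t) (pw γ a n • UpperHalfPlane.I) ≤ R3 := by
    intro a n
    by_cases h0 : (pw γ a n)⁻¹ • p ∈ Q
    · exact ⟨0, 0, le_rfl, by positivity, by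
        rw [Geo.o, G.φ_zero]; exact (hR2 a n h0).trans r2⟩
    set tr : ℕ × C.W → N × ℝ × ℝ := fun x => (gg (pw γ a x.1) ((0 : ℤ) * (2 * π)) (wl x.2),
      pw P.g a x.1 (C.x x.2), pw P.g a x.1 (C.y x.2)) with htr
    have tw : ∀ x, G.Wl (tr x).1 (tr x).2.1 (tr x).2.2 := fun x =>
      hB.wg _ _ _ _ (Γm a x.1) _ 0 (Γl a x.1) (hw x.2)
    have fin : ∀ s : Bool → Finset C.W, (tr '' {x | x.1 ≤ n ∧ x.2 ∈ s (a x.1)}).Finite := fun s =>
      (((finite_le_nat n).prod ((s false).finite_toSet.union (s true).finite_toSet)).subset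
        fun x hx => ⟨hx.1, by have := hx.2; cases h : a x.1 <;> simp_all⟩).image _
    have eL : ∀ k, ∀ b ∈ sL (a k), (tr (k, b)).2.1 < P.p1 ∧
        pw P.g a (k + 1) P.f2 < (tr (k, b)).2.2 := fun k b hb =>
      ⟨((pw P.g a k).strictMono (sL1 _ b hb).2).trans_le (q1 a k),
        (pw P.g a k).strictMono (sL1 _ b hb).1⟩
    have eR : ∀ k, ∀ b ∈ sR (a k), P.p2 < (tr (k, b)).2.1 ∧
        (tr (k, b)).2.2 < pw P.g a (k + 1) P.f1 := fun k b hb =>
      ⟨(q2 a k).trans_lt ((pw P.g a k).strictMono (sR1 _ b hb).1),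
        (pw P.g a k).strictMono (sR1 _ b hb).2⟩
    have dL : ∀ k, ∀ b ∈ sL (a k), G.Dis (p, θ1) (tr (k, b)).1 := fun k b hb =>
      ht _ _ _ _ _ _ w1 (tw _) (by linarith [(eL k b hb).1])
        (by linarith [(eL k b hb).2, q4 a (k + 1)])
    have dR : ∀ k, ∀ b ∈ sR (a k), G.Dis (tr (k, b)).1 (p, θ2) := fun k b hb =>
      ht _ _ _ _ _ _ (tw _) w2 (by linarith [(eR k b hb).1])
        (by linarith [(eR k b hb).2, q5 a (k + 1)])
    have p0 : ∀ θ, G.o (p, θ) 0 = p := fun θ => by rw [Geo.o, G.φ_zero]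
    have pc : ∀ θ, IsPreconnected (range (G.o (p, θ))) := fun θ => isPreconnected_range (co _)
    have ac : ∀ θ y, G.EndP (p, θ) y → ∀ ε, 0 < ε → ∃ z ∈ range (G.o (p, θ)), z ∈ Bl y ε :=
      fun θ y h ε e => by
        obtain ⟨t, ht⟩ := acc h ε e
        exact ⟨_, ⟨t, rfl⟩, ht⟩
    obtain ⟨θ, hθ, hθ'⟩ := hsh p θ1 θ2 _ _ θlt (fin sL) (fin sR)
      (by rintro _ (⟨x, -, rfl⟩ | ⟨x, -, rfl⟩) <;> exact tw x)
      (by
        rintro _ ⟨⟨k, b⟩, hb, rfl⟩ _ ⟨⟨j, c⟩, hc, rfl⟩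
        exact ⟨by linarith [(eL k b hb.2).1, (eR j c hc.2).1],
          by linarith [(eL k b hb.2).2, (eR j c hc.2).2, q3 a (j + 1) (k + 1)]⟩)
      (by
        rintro _ ⟨⟨k, b⟩, hb, rfl⟩ L' R' h
        simpa using (side h lift_one (pc θ1) (by
          rintro _ ⟨t, rfl⟩ s
          rw [one_smul]
          exact dL k b hb.2 t s) (ac θ1 r w1.p)).2 (by
            change (tr (k, b)).2.1 < r
            linarith [(eL k b hb.2).1]) (by
            change r < (tr (k, b)).2.2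
            linarith [(eL k b hb.2).2, q4 a (k + 1)]) p ⟨0, p0 _⟩)
      (by
        rintro _ ⟨⟨k, b⟩, hb, rfl⟩ L' R' h
        simpa using (side h lift_one (pc θ2) (by
          rintro _ ⟨t, rfl⟩ s
          rw [one_smul]
          exact (dR k b hb.2 s t).symm) (ac θ2 l w2.p)).1 (by
            change (tr (k, b)).2.2 < l
            linarith [(eR k b hb.2).2, q5 a (k + 1)]) (by
            change l < (tr (k, b)).2.1 + 2 * π
            linarith [(eR k b hb.2).1]) p ⟨0, p0 _⟩)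
      (by
        rintro _ ⟨⟨k, b⟩, hb, rfl⟩ s t _
        exact dL k b hb.2 t s)
      (by
        rintro _ ⟨⟨k, b⟩, hb, rfl⟩ s t _
        exact (dR k b hb.2 s t).symm)
    have pu : ∀ θ', IsPreconnected (range (G.o (p, θ')) ∪ G.o (p, θ) '' Ici 0) := fun θ' =>
      (pc θ').union p ⟨0, p0 _⟩ ⟨0, le_refl (0 : ℝ), p0 _⟩
        (isPreconnected_Ici.image _ (co _).continuousOn)
    have inb : ∀ k ≤ n, ∀ t, 0 ≤ t → (pw γ a k)⁻¹ • G.o (p, θ) t ∈ closure Q →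
        ((pw γ a k)⁻¹ • G.o (p, θ) t ∉ Q ∨ (pw γ a (k + 1))⁻¹ • G.o (p, θ) t ∉ Q) →
        dist (G.o (p, θ) t) (pw γ a k • UpperHalfPlane.I) ≤ R3 := by
      intro k hk t t0 h1 h2
      have := @hR0 (a k) ((pw γ a k)⁻¹ • G.o (p, θ) t) ⟨h1, by
        rwa [pw, mul_inv_rev, mul_smul] at h2, fun b hb => (side (hS b) (Γl a k) (pu θ2) (by
          rintro _ (⟨u, rfl⟩ | ⟨u, hu, rfl⟩) s <;> rw [← o_gg G (Γm a k) 0]
          · exact (dR k b hb s u).symm
          · exact hθ' _ (.inr ⟨(k, b), ⟨hk, hb⟩, rfl⟩) s u hu)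
          fun ε e => (ac θ2 l w2.p ε e).imp fun z hz => ⟨.inl hz.1, hz.2⟩).1
            (by linarith [(eR k b hb).2, q5 a (k + 1)]) (by linarith [(eR k b hb).1]) _
            (.inr ⟨t, t0, rfl⟩), fun b hb => (side (hS b) (Γl a k) (pu θ1) (by
          rintro _ (⟨u, rfl⟩ | ⟨u, hu, rfl⟩) s <;> rw [← o_gg G (Γm a k) 0]
          · exact dL k b hb u s
          · exact hθ' _ (.inl ⟨(k, b), ⟨hk, hb⟩, rfl⟩) s u hu)
          fun ε e => (ac θ1 r w1.p ε e).imp fun z hz => ⟨.inl hz.1, hz.2⟩).2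
            (by linarith [(eL k b hb).1]) (by linarith [(eL k b hb).2, q4 a (k + 1)]) _
            (.inr ⟨t, t0, rfl⟩)⟩
      rw [mem_closedBall, ← dist_smul (pw γ a k), smul_inv_smul] at this
      exact this.trans (r0 _)
    have out : ∀ t, 0 ≤ t → ∀ k ≤ n, (pw γ a k)⁻¹ • G.o (p, θ) t ∉ Q →
        ∃ j ≤ k, dist (G.o (p, θ) t) (pw γ a j • UpperHalfPlane.I) ≤ R3 := by
      intro t t0 k
      induction k with
      | zero =>
        intro _ h
        refine ⟨0, le_rfl, ?_⟩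
        simp only [pw, inv_one, one_smul] at h ⊢
        exact (hR1 ⟨h, θ, hθ, t, t0, rfl⟩).trans r1
      | succ k ih =>
        intro hk h
        by_cases h' : (pw γ a k)⁻¹ • G.o (p, θ) t ∈ Q
        · exact ⟨k, k.le_succ, inb k (by omega) t t0 (subset_closure h') (.inr h)⟩
        · obtain ⟨j, a1, a2⟩ := ih (by omega) h'
          exact ⟨j, by omega, a2⟩
    obtain ⟨j, j1, j2⟩ : ∃ j ∈ Finset.Icc (0 : ℤ) (M * (n + 1)),
        (pw γ a n)⁻¹ • G.o (p, θ) j ∈ Q := by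
      by_contra hc
      push Not at hc
      have := (Finset.card_le_card (s := Finset.Icc (0 : ℤ) (M * (n + 1)))
        (t := (Finset.range (n + 1)).biUnion fun k => (Finset.Icc (0 : ℤ) (M * (n + 1))).filter
          fun j => dist (G.o (p, θ) j) (pw γ a k • UpperHalfPlane.I) ≤ R3) fun j hj => by
          obtain ⟨k, a1, a2⟩ := out j (by exact_mod_cast (Finset.mem_Icc.1 hj).1) n le_rfl (hc j hj)
          exact Finset.mem_biUnion.2 ⟨k, Finset.mem_range.2 (by omega),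
            Finset.mem_filter.2 ⟨hj, a2⟩⟩).trans (Finset.card_biUnion_le_card_mul _ _ M
              fun k _ => hM _ _ _ fun j hj => (Finset.mem_filter.1 hj).2)
      rw [Int.card_Icc, Finset.card_range] at this
      have e : ((M : ℤ) * (n + 1) + 1 - 0).toNat = (n + 1) * M + 1 := by
        rw [show (M : ℤ) * (n + 1) + 1 - 0 = ((n + 1) * M + 1 : ℕ) by push_cast; ring,
          Int.toNat_natCast]
      omega
    obtain ⟨j0, j1⟩ := Finset.mem_Icc.1 j1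
    have j0' : (0 : ℝ) ≤ j := by exact_mod_cast j0
    have j1' : (j : ℝ) ≤ M * (n + 1) := by exact_mod_cast j1
    by_contra hc
    refine h0 ?_
    have := ((isPreconnected_Icc (a := (0 : ℝ)) (b := j)).image
      (fun t => (pw γ a n)⁻¹ • G.o (p, θ) t)
      ((co _).const_smul _).continuousOn).subset_of_closure_inter_subset oQ
      ⟨_, ⟨j, ⟨j0', le_rfl⟩, rfl⟩, j2⟩ (by
        rintro _ ⟨h1, t, t0, rfl⟩
        by_contra h2
        exact hc ⟨θ, t, t0.1, t0.2.trans j1', inb n le_rfl t t0.1 h1 (.inl h2)⟩)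
      ⟨0, ⟨le_rfl, j0'⟩, rfl⟩
    simpa only [p0] using this
  refine ⟨p, M, R3, fun n => ⟨fun w => pw γ (fun k => if h : k < n then w ⟨k, h⟩ else false) n,
    fun w => Γm _ _, fun w w' e => ?_, fun w => key _ n⟩⟩
  set a : ℕ → Bool := fun k => if h : k < n then w ⟨k, h⟩ else false with ha
  set b : ℕ → Bool := fun k => if h : k < n then w' ⟨k, h⟩ else false with hb
  have e' : pw γ a n = pw γ b n := e
  obtain ⟨i, hi⟩ := hm.uniq _ _ _ (Γl a n) (e' ▸ Γl b n)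
  have i0 := int_zero (k := i) (by linarith [hi P.f1, q5 a n, q6 b n])
    (by linarith [hi P.f1, q6 a n, q5 b n])
  simp only [i0, Int.cast_zero, zero_mul, add_zero] at hi
  have : ∀ k < n, a k = b k := fun k => by
    induction k using Nat.strong_induction_on with
    | _ k ih =>
      intro hk
      by_contra hne
      have c := pw_congr P.g k fun j hj => ih j hj (hj.trans hk)
      have u : ∀ a : ℕ → Bool, pw P.g a k (P.g (a k) P.f1) ≤ pw P.g a n P.f1 ∧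
          pw P.g a n P.f1 < pw P.g a k (P.g (a k) P.f2) := fun a =>
        ⟨pw_mono (fun a => (P.inF a).1) a (Nat.succ_le_of_lt hk), q3 a n (k + 1)⟩
      have ua := u a
      have ub := u b
      rw [hi, ← c] at ub
      have v1 := (pw P.g a k).lt_iff_lt.1 (ua.1.trans_lt ub.2)
      have v2 := (pw P.g a k).lt_iff_lt.1 (ub.1.trans_lt ua.2)
      have := P.sep
      cases h1 : a k <;> cases h2 : b k <;> simp only [h1, h2, not_true] at hne v1 v2 <;>
        rcases this with h | h <;> linarith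
  funext k
  simpa [ha, hb] using this k k.2

end FCor

theorem cor (hd : Disc) (hm : Mob) (hsl : SlSt) (hsd : SideSt) (ht : T3St) (hf : FmSt)
    (hsh : ShootSt) : CorSt := fun G O hO hB hG ⟨P⟩ =>
  FCor.main hd hm hsl G (hsd G) (ht G) (hf G) (hsh G) hB hG (G.cw O hO hB hG) (fun _ h => h)
    (fun w : G.WT O => w.1.1) (fun w : G.WT O => w.2.2) P

end

end Pool.Agent.Lib.MP_21f752_an
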