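import Pool.Agent.Lib.MP_21f752_an.FG

/-! The combinatorial system with fingers attached to a geometric system. -/

namespace Pool.Agent.Lib.MP_21f752_an

open UpperHalfPlane Set Filter Topology Metric MeasureTheory
open scoped MatrixGroups Real

noncomputable section

namespace FCs

lemma ce_per (l : ℝ) (j : ℤ) : ce (l + j * (2 * π)) = ce l := by
  unfold ce
  rw [Complex.exp_eq_exp_iff_exists_int]
  exact ⟨j, by push_cast; ring⟩

lemma bl_per (l e : ℝ) (j : ℤ) : Bl (l + j * (2 * π)) e = Bl l e := by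
  simp only [Bl, ce_per]

lemma exT {G : Subgroup (ℝ ≃o ℝ)} (h : CG G) (j : ℤ) : ∃ T ∈ G, ∀ t, T t = t + j * (2 * π) := by
  obtain ⟨T, a, b⟩ := h.sh
  induction j with
  | zero => exact ⟨1, G.one_mem, fun t => by simp⟩
  | succ n ih =>
    obtain ⟨U, c, d⟩ := ih
    exact ⟨T * U, G.mul_mem a c, fun t => by
      change T (U t) = _
      rw [b, d]; push_cast; ring⟩
  | pred n ih =>
    obtain ⟨U, c, d⟩ := ih
    refine ⟨T⁻¹ * U, G.mul_mem (G.inv_mem a) c, fun t => T.injective ?_⟩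
    change T (T.symm (U t)) = _
    rw [T.apply_symm_apply, b, d]; push_cast; ring

/-- the system -/
def cs (G : Geo) (O : Set (ℝ × ℝ)) (hO : G.Gen O) (hB : G.Base) (hG : CG (GG G.Γ)) (hd : Disc)
    (ha : G.Av) (hv : G.V1 O) (hf : G.Fan O) : CS where
  toCW := G.cw O hO hB hG
  nr w l e := G.Nr w.1.1 l e
  mono := fun _ l l' e ⟨t, h⟩ => ⟨t, hd.sub l l' e h⟩
  mono' := fun _ _ _ _ ⟨t, h⟩ k => ⟨t, lt_of_lt_of_le h k⟩
  per w l e j := by simp only [Geo.Nr, bl_per]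
  shift w j := by
    obtain ⟨T, a, b⟩ := exT hG j
    refine ⟨⟨(w.1.1, w.1.2.1 + j * (2 * π), w.1.2.2 + j * (2 * π)), ?_, hB.ws _ _ _ j w.2.2⟩,
      rfl, rfl, fun _ _ => Iff.rfl⟩
    have := hO.inv T a _ _ w.2.1
    rwa [b, b] at this
  avR m l a b := by
    obtain ⟨e, c, d⟩ := ha.avR _ _ _ l m.2.2 a b
    exact ⟨e, c, fun g => d _ _ _ g.2.2⟩
  avL m l a b := by
    obtain ⟨e, c, d⟩ := ha.avL _ _ _ l m.2.2 a b
    exact ⟨e, c, fun g => d _ _ _ g.2.2⟩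
  tipL μ l a b := by
    obtain ⟨e0, c, d⟩ := ha.tipL μ l a b
    refine ⟨e0, c, fun e h1 h2 g h3 => ?_⟩
    obtain ⟨δ, p, q⟩ := d e h1 h2 _ _ _ g.2.2 h3
    exact ⟨δ, p, fun f => q _ _ _ f.2.2⟩
  tipR μ l a b := by
    obtain ⟨e0, c, d⟩ := ha.tipR μ l a b
    refine ⟨e0, c, fun e h1 h2 g h3 => ?_⟩
    obtain ⟨δ, p, q⟩ := d e h1 h2 _ _ _ g.2.2 h3
    exact ⟨δ, p, fun f => q _ _ _ f.2.2⟩
  v1 l a b h k := by
    obtain ⟨ε, p, q⟩ := hv l a b h k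
    exact ⟨ε, p, fun w => q _ _ _ w.2.2⟩
  fan w1 w2 h := hf w1 w2 h.1 h.2.1 h.2.2.1 h.2.2.2

end FCs

theorem not_ze (hd : Disc) (hg : CgSt) (hb : BaseSt) (ha : AvSt) (hv : V1St) (hf : FanSt)
    (hn : GenSt) (hw : WalkSt) (hl : LoopSt) (he : DenseSt) (hp : PingSt) (hc : CorSt)
    (ht : CntSt) (G : Geo) : ¬G.ZE := by
  obtain ⟨O, hO⟩ := hn G
  let C := FCs.cs G O hO (hb G) (hg _ G.free) hd (ha G) (hv G O hO) (hf G O hO)
  obtain ⟨k⟩ := C.ne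
  refine ht G (hc G O hO (hb G) (hg _ G.free) (hp C.toCW ?_))
  by_cases h : ∃ s p q, CW.Node k s p q
  · obtain ⟨s, p, q, g, a, b⟩ := hw C k h
    exact hl _ k s p q g a b
  · exact he C k fun s p q a => h ⟨s, p, q, a⟩

end

end Pool.Agent.Lib.MP_21f752_an
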