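import Pool.Agent.Lib.MP_21f752_an.FG

/-! The disc model, lifts of Möbius maps to the line, north-south dynamics. -/

namespace Pool.Agent.Lib.MP_21f752_an

open UpperHalfPlane Set Filter Topology Metric
open scoped MatrixGroups Real ComplexConjugate

noncomputable section

namespace FDm

def al (γ : SL(2, ℝ)) : ℂ := ⟨(γ 0 0 + γ 1 1) / 2, (γ 0 1 - γ 1 0) / 2⟩

def be (γ : SL(2, ℝ)) : ℂ := ⟨(γ 0 0 - γ 1 1) / 2, -(γ 0 1 + γ 1 0) / 2⟩

def dd (γ : SL(2, ℝ)) (w : ℂ) : ℂ := conj (be γ) * w + conj (al γ)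

/-- the Möbius map of the disc -/
def dm (γ : SL(2, ℝ)) (w : ℂ) : ℂ := (al γ * w + be γ) / dd γ w

/-- `h` is a lift of the action of `γ` on the circle -/
def Lc (γ : SL(2, ℝ)) (h : ℝ ≃o ℝ) : Prop :=
  (∀ t, ce (h t) = dm γ (ce t)) ∧ ∀ t, h (t + 2 * π) = h t + 2 * π

lemma ab (γ : SL(2, ℝ)) : al γ * conj (al γ) - be γ * conj (be γ) = 1 := by
  have := det_one γ
  apply Complex.ext <;> simp [al, be] <;> linarith

lemma nsq (γ : SL(2, ℝ)) : ‖al γ‖ ^ 2 = 1 + ‖be γ‖ ^ 2 := by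
  have := ab γ
  rw [Complex.mul_conj, Complex.mul_conj, Complex.normSq_eq_norm_sq,
    Complex.normSq_eq_norm_sq] at this
  have h : ‖al γ‖ ^ 2 - ‖be γ‖ ^ 2 = 1 := by exact_mod_cast this
  linarith

lemma be_lt (γ : SL(2, ℝ)) : ‖be γ‖ < ‖al γ‖ :=
  lt_of_pow_lt_pow_left₀ 2 (norm_nonneg _) (by linarith [nsq γ])

lemma one_le (γ : SL(2, ℝ)) : 1 ≤ ‖al γ‖ :=
  le_of_pow_le_pow_left₀ two_ne_zero (norm_nonneg _) (by nlinarith [nsq γ])

lemma al_ne (γ : SL(2, ℝ)) : al γ ≠ 0 := norm_pos_iff.1 (one_pos.trans_le (one_le γ))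

lemma dd_ne (γ : SL(2, ℝ)) {w : ℂ} (hw : ‖w‖ ≤ 1) : dd γ w ≠ 0 := by
  intro h
  have h1 : conj (al γ) = -(conj (be γ) * w) := by rw [dd] at h; linear_combination h
  have := congrArg norm h1
  rw [norm_neg, norm_mul, Complex.norm_conj, Complex.norm_conj] at this
  nlinarith [be_lt γ, norm_nonneg (be γ)]

lemma dd_le (γ : SL(2, ℝ)) {w : ℂ} (hw : ‖w‖ ≤ 1) : ‖dd γ w‖ ≤ 2 * ‖al γ‖ := by
  refine (norm_add_le _ _).trans ?_
  rw [norm_mul, Complex.norm_conj, Complex.norm_conj]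
  nlinarith [be_lt γ, norm_nonneg (be γ)]

lemma nsq_dm (γ : SL(2, ℝ)) (w : ℂ) :
    ‖dd γ w‖ ^ 2 - ‖al γ * w + be γ‖ ^ 2 = 1 - ‖w‖ ^ 2 := by
  have h := ab γ
  have : dd γ w * conj (dd γ w) - (al γ * w + be γ) * conj (al γ * w + be γ) =
      1 - w * conj w := by
    simp only [dd, map_add, map_mul, Complex.conj_conj]
    linear_combination (1 - w * conj w) * h
  simp only [Complex.mul_conj, Complex.normSq_eq_norm_sq] at this
  exact_mod_cast this

lemma one_sub (γ : SL(2, ℝ)) {w : ℂ} (hw : ‖w‖ ≤ 1) :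
    1 - ‖dm γ w‖ ^ 2 = (1 - ‖w‖ ^ 2) / ‖dd γ w‖ ^ 2 := by
  have := norm_ne_zero_iff.2 (dd_ne γ hw)
  rw [dm, norm_div, ← nsq_dm γ w]
  field_simp

lemma dm_le (γ : SL(2, ℝ)) {w : ℂ} (hw : ‖w‖ ≤ 1) : ‖dm γ w‖ ≤ 1 := by
  have h := one_sub γ hw
  have : 0 ≤ (1 - ‖w‖ ^ 2) / ‖dd γ w‖ ^ 2 :=
    div_nonneg (by nlinarith [norm_nonneg w]) (by positivity)
  exact le_of_pow_le_pow_left₀ two_ne_zero zero_le_one (by linarith)

lemma dm_sub (γ : SL(2, ℝ)) {v w : ℂ} (hv : ‖v‖ ≤ 1) (hw : ‖w‖ ≤ 1) :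
    dm γ v - dm γ w = (v - w) / (dd γ v * dd γ w) := by
  have h := ab γ
  have h1 := dd_ne γ hv
  have h2 := dd_ne γ hw
  rw [dm, dm, div_sub_div _ _ h1 h2]
  congr 1
  simp only [dd]
  linear_combination (v - w) * h

lemma dm_inj (γ : SL(2, ℝ)) {v w : ℂ} (hv : ‖v‖ ≤ 1) (hw : ‖w‖ ≤ 1) (h : dm γ v = dm γ w) :
    v = w := by
  have := dm_sub γ hv hw
  rw [h, sub_self, eq_comm, div_eq_zero_iff] at this
  exact this.elim sub_eq_zero.1 fun h => absurd h (mul_ne_zero (dd_ne γ hv) (dd_ne γ hw))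

lemma al_mul (γ δ : SL(2, ℝ)) : al (γ * δ) = al γ * al δ + be γ * conj (be δ) := by
  apply Complex.ext <;> simp [al, be, mul_entry, -Matrix.SpecialLinearGroup.coe_mul] <;> ring

lemma be_mul (γ δ : SL(2, ℝ)) : be (γ * δ) = al γ * be δ + be γ * conj (al δ) := by
  apply Complex.ext <;> simp [al, be, mul_entry, -Matrix.SpecialLinearGroup.coe_mul] <;> ring

lemma al_one : al 1 = 1 := by apply Complex.ext <;> simp [al]

lemma be_one : be 1 = 0 := by apply Complex.ext <;> simp [be]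

lemma al_inv (γ : SL(2, ℝ)) : al γ⁻¹ = conj (al γ) := by
  apply Complex.ext <;> simp [al, Matrix.SpecialLinearGroup.SL2_inv_expl] <;> ring

lemma be_inv (γ : SL(2, ℝ)) : be γ⁻¹ = -be γ := by
  apply Complex.ext <;> simp [be, Matrix.SpecialLinearGroup.SL2_inv_expl] <;> ring

lemma dd_mul (γ δ : SL(2, ℝ)) {w : ℂ} (hw : ‖w‖ ≤ 1) :
    dd (γ * δ) w = dd γ (dm δ w) * dd δ w := by
  have h := dd_ne δ hw
  rw [dd, dd, dm, al_mul, be_mul]
  field_simp
  simp only [dd, map_add, map_mul, Complex.conj_conj]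
  ring

lemma dm_mul (γ δ : SL(2, ℝ)) {w : ℂ} (hw : ‖w‖ ≤ 1) : dm (γ * δ) w = dm γ (dm δ w) := by
  have h := dd_ne δ hw
  have h2 := dd_ne γ (dm_le δ hw)
  rw [dm, dd_mul γ δ hw, dm.eq_1 γ, al_mul, be_mul]
  nth_rewrite 2 [dm.eq_1 δ]
  field_simp
  simp only [dd]
  ring

lemma dm_one (w : ℂ) : dm 1 w = w := by simp [dm, dd, al_one, be_one]

lemma dd_one (w : ℂ) : dd 1 w = 1 := by simp [dd, al_one, be_one]

lemma dm_inv_dm (γ : SL(2, ℝ)) {w : ℂ} (hw : ‖w‖ ≤ 1) : dm γ⁻¹ (dm γ w) = w := by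
  rw [← dm_mul _ _ hw, inv_mul_cancel, dm_one]

lemma dm_dm_inv (γ : SL(2, ℝ)) {w : ℂ} (hw : ‖w‖ ≤ 1) : dm γ (dm γ⁻¹ w) = w := by
  rw [← dm_mul _ _ hw, mul_inv_cancel, dm_one]

lemma dm_cont (γ : SL(2, ℝ)) {w : ℂ} (hw : ‖w‖ ≤ 1) : ContinuousAt (dm γ) w :=
  ContinuousAt.div (by fun_prop) (by unfold dd; fun_prop) (dd_ne γ hw)

lemma add_I_ne (z : ℍ) : (z : ℂ) + Complex.I ≠ 0 := fun h => by
  have := congrArg Complex.im h
  simp at this
  linarith [z.im_pos]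

lemma one_sub_cay (z : ℍ) : 1 - ‖cay z‖ ^ 2 = 4 * z.im / ‖(z : ℂ) + Complex.I‖ ^ 2 := by
  have := norm_ne_zero_iff.2 (add_I_ne z)
  rw [cay, norm_div]
  field_simp
  simp only [Complex.sq_norm, Complex.normSq_apply]
  simp
  ring

lemma cay_lt (z : ℍ) : ‖cay z‖ < 1 := by
  have h := one_sub_cay z
  have h1 := norm_pos_iff.2 (add_I_ne z)
  have : 0 < 4 * z.im / ‖(z : ℂ) + Complex.I‖ ^ 2 := by have := z.im_pos; positivity
  exact lt_of_pow_lt_pow_left₀ 2 zero_le_one (by linarith)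

lemma cay_I : cay UpperHalfPlane.I = 0 := by simp [cay]

lemma cay_sub (z w : ℍ) :
    cay z - cay w = 2 * Complex.I * (z - w) / ((z + Complex.I) * (w + Complex.I)) := by
  rw [cay, cay, div_sub_div _ _ (add_I_ne z) (add_I_ne w)]
  congr 1
  ring

lemma cay_inj {z w : ℍ} (h : cay z = cay w) : z = w := by
  have := cay_sub z w
  rw [h, sub_self, eq_comm, div_eq_zero_iff] at this
  rcases this with h | h
  · exact UpperHalfPlane.ext (by simpa [sub_eq_zero] using h)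
  · exact absurd h (mul_ne_zero (add_I_ne z) (add_I_ne w))

lemma continuous_cay : Continuous cay :=
  (continuous_coe.sub continuous_const).div (continuous_coe.add continuous_const) add_I_ne

lemma cay_smul (γ : SL(2, ℝ)) (z : ℍ) : cay (γ • z) = dm γ (cay z) := by
  have h1 := add_I_ne z
  have h2 := add_I_ne (γ • z)
  have h3 := den_ne γ z.im_pos
  have h4 := dd_ne γ (cay_lt z).le
  rw [cay.eq_1 (γ • z)]
  rw [coe_smul_mob] at h2 ⊢
  have e1 : (al γ * cay z + be γ) * (z + Complex.I) =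
      (mob γ z - Complex.I) * den γ z := by
    rw [cay, mob]
    field_simp
    apply Complex.ext <;> simp [al, be, den] <;> ring
  have e2 : dd γ (cay z) * (z + Complex.I) = (mob γ z + Complex.I) * den γ z := by
    rw [dd, cay, mob]
    field_simp
    apply Complex.ext <;> simp [al, be, den] <;> ring
  rw [dm, div_eq_div_iff h2 h4]
  apply mul_right_cancel₀ h1
  linear_combination (mob γ z - Complex.I) * e2 - (mob γ z + Complex.I) * e1

lemma exists_cay {w : ℂ} (hw : ‖w‖ < 1) : ∃ z : ℍ, cay z = w := by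
  have h1 : 1 - w ≠ 0 := fun h => by
    rw [← sub_eq_zero.1 h] at hw
    simp at hw
  have h2 : 0 < (Complex.I * (1 + w) / (1 - w)).im := by
    have h3 := Complex.normSq_pos.2 h1
    have h4 : w.re * w.re + w.im * w.im < 1 := by
      rw [← Complex.normSq_apply, Complex.normSq_eq_norm_sq]
      nlinarith [norm_nonneg w]
    rw [Complex.div_im, ← sub_div]
    refine div_pos ?_ h3
    simp
    linarith
  refine ⟨⟨_, h2⟩, ?_⟩
  have h5 := add_I_ne ⟨_, h2⟩
  rw [cay, div_eq_iff h5]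
  change Complex.I * (1 + w) / (1 - w) - _ = w * (Complex.I * (1 + w) / (1 - w) + _)
  field_simp
  ring

lemma cosh_cay (z w : ℍ) : Real.cosh (dist z w) =
    1 + 2 * ‖cay z - cay w‖ ^ 2 / ((1 - ‖cay z‖ ^ 2) * (1 - ‖cay w‖ ^ 2)) := by
  have h1 := norm_ne_zero_iff.2 (add_I_ne z)
  have h2 := norm_ne_zero_iff.2 (add_I_ne w)
  have h3 := z.im_pos.ne'
  have h4 := w.im_pos.ne'
  rw [cosh_dist, one_sub_cay, one_sub_cay, cay_sub, dist_eq_norm]
  simp only [norm_div, norm_mul, Complex.norm_I, Complex.norm_ofNat]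
  field_simp
  ring

lemma dm_zero (γ : SL(2, ℝ)) : dm γ 0 = be γ / conj (al γ) := by simp [dm, dd]

lemma cay_smul_I (γ : SL(2, ℝ)) : cay (γ • UpperHalfPlane.I) = dm γ 0 := by
  rw [cay_smul, cay_I]

lemma one_sub_zero (γ : SL(2, ℝ)) : 1 - ‖dm γ 0‖ ^ 2 = 1 / ‖al γ‖ ^ 2 := by
  rw [one_sub γ (by simp)]
  simp [dd]

lemma cosh_be (γ : SL(2, ℝ)) :
    Real.cosh (dist (γ • UpperHalfPlane.I) UpperHalfPlane.I) = 1 + 2 * ‖be γ‖ ^ 2 := by
  have h := norm_ne_zero_iff.2 (al_ne γ)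
  rw [cosh_cay, cay_smul_I, one_sub_zero, cay_I, dm_zero]
  simp only [sub_zero, norm_div, Complex.norm_conj, norm_zero]
  field_simp
  ring

lemma ce_neg (t : ℝ) : ce (-t) = conj (ce t) := by
  simp [ce, ← Complex.exp_conj]

lemma ce_mul_neg (t : ℝ) : ce t * ce (-t) = 1 := by rw [← ce_add, add_neg_cancel, ce_zero]

lemma ce_two (t : ℝ) : ce (t + 2 * π) = ce t := by
  simpa using (ce_eq_iff (a := t + 2 * π) (b := t)).2 ⟨1, by simp⟩

lemma ce_sh (t : ℝ) (k : ℤ) : ce (t + k * (2 * π)) = ce t := ce_eq_iff.2 ⟨k, rfl⟩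

lemma ce_sub (s t : ℝ) :
    ce s - ce t = 2 * Complex.I * (Real.sin ((s - t) / 2) : ℝ) * ce ((s + t) / 2) := by
  have e1 : ce s = ce ((s - t) / 2) * ce ((s + t) / 2) := by rw [← ce_add]; congr 1; ring
  have e2 : ce t = ce (-((s - t) / 2)) * ce ((s + t) / 2) := by rw [← ce_add]; congr 1; ring
  rw [e1, e2, ← sub_mul, ce_neg, Complex.sub_conj]
  congr 1
  rw [ce, Complex.exp_ofReal_mul_I_im]
  push_cast
  ring

lemma norm_ce_sub (s t : ℝ) : ‖ce s - ce t‖ = 2 * |Real.sin ((s - t) / 2)| := by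
  rw [ce_sub]
  simp only [norm_mul, norm_ce, Complex.norm_I, Complex.norm_ofNat, Complex.norm_real,
    Real.norm_eq_abs, mul_one]

lemma ce_ub (s t : ℝ) : ‖ce s - ce t‖ ≤ |s - t| := by
  have := Real.abs_sin_le_abs (x := (s - t) / 2)
  rw [abs_div, abs_two] at this
  rw [norm_ce_sub]
  linarith

lemma ce_lb {s t : ℝ} (h : |s - t| ≤ π) : |s - t| / 2 ≤ ‖ce s - ce t‖ := by
  have h1 := Real.mul_abs_le_abs_sin (x := (s - t) / 2) (by rw [abs_div, abs_two]; linarith)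
  rw [abs_div, abs_two] at h1
  have h2 : 1 / 2 ≤ 2 / π := by
    rw [le_div_iff₀ Real.pi_pos]
    linarith [Real.pi_le_four]
  rw [norm_ce_sub]
  nlinarith [abs_nonneg (s - t)]

lemma ce_far {r t ε : ℝ} (h1 : r + ε ≤ t) (h2 : t ≤ r + 2 * π - ε) : ε / 2 ≤ ‖ce t - ce r‖ := by
  by_cases h0 : ε ≤ 0
  · linarith [norm_nonneg (ce t - ce r)]
  rcases le_total t (r + π) with h | h
  · have := ce_lb (s := t) (t := r) (abs_le.2 ⟨by linarith, by linarith⟩)
    linarith [le_abs_self (t - r)]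
  · have := ce_lb (s := t) (t := r + 2 * π) (abs_le.2 ⟨by linarith, by linarith⟩)
    rw [ce_two] at this
    linarith [neg_abs_le (t - (r + 2 * π))]

lemma exists_ce {w : ℂ} (h : ‖w‖ = 1) : ∃ t, ce t = w :=
  ⟨w.arg, by simpa [h, ce] using Complex.norm_mul_exp_arg_mul_I w⟩

lemma eq_of_ce {s t a : ℝ} (h : ce s = ce t) (s1 : a ≤ s) (s2 : s < a + 2 * π) (t1 : a ≤ t)
    (t2 : t < a + 2 * π) : s = t := by
  obtain ⟨k, rfl⟩ := ce_eq_iff.1 h
  have hp := Real.pi_pos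
  have h1 : (k : ℝ) < 1 := by nlinarith
  have h2 : (-1 : ℝ) < k := by nlinarith
  have : k = 0 := by
    have a : k < 1 := by exact_mod_cast h1
    have b : -1 < k := by exact_mod_cast h2
    omega
  simp [this]

lemma ex_sh (t a : ℝ) : ∃ j : ℤ, a ≤ t + j * (2 * π) ∧ t + j * (2 * π) < a + 2 * π := by
  have hp : (0 : ℝ) < 2 * π := by positivity
  refine ⟨⌈(a - t) / (2 * π)⌉, ?_, ?_⟩
  · have := Int.le_ceil ((a - t) / (2 * π))
    rw [div_le_iff₀ hp] at this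
    linarith
  · have := Int.ceil_lt_add_one ((a - t) / (2 * π))
    rw [div_add_one hp.ne', lt_div_iff₀ hp] at this
    linarith

lemma perZ {g : ℝ → ℝ} (hg : ∀ t, g (t + 2 * π) = g t + 2 * π) (t : ℝ) (j : ℤ) :
    g (t + j * (2 * π)) = g t + j * (2 * π) := by
  have : Function.Periodic (fun t => g t - t) (2 * π) := fun t => by simp only [hg]; ring
  have := this.int_mul j t
  linarith

lemma circ (γ : SL(2, ℝ)) (t : ℝ) : al γ * ce t + be γ = ce t * conj (dd γ (ce t)) := by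
  simp only [dd, map_add, map_mul, Complex.conj_conj, ← ce_neg]
  linear_combination (-be γ) * ce_mul_neg t

theorem exists_lift (γ : SL(2, ℝ)) : ∃ h, Lc γ h := by
  have ha := al_ne γ
  set u : ℝ → ℂ := fun t => 1 + be γ / al γ * ce (-t) with hu
  have hs : ∀ t, u t ∈ Complex.slitPlane := fun t => Complex.mem_slitPlane_of_norm_lt_one (by
    rw [norm_mul, norm_ce, mul_one, norm_div, div_lt_one (norm_pos_iff.2 ha)]
    exact be_lt γ)
  have uc : Continuous u := continuous_const.add (continuous_const.mul (continuous_ce.comp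
    continuous_neg))
  set h : ℝ → ℝ := fun t => t + 2 * ((al γ).arg + (u t).arg) with hh
  have hc : Continuous h := continuous_id.add (continuous_const.mul (continuous_const.add
    (continuous_iff_continuousAt.2 fun t =>
      (Complex.continuousAt_arg (hs t)).comp uc.continuousAt)))
  have hp : ∀ t, h (t + 2 * π) = h t + 2 * π := fun t => by
    simp only [hh, hu, ce_neg, ce_two]
    ring
  have key : ∀ z : ℂ, z ≠ 0 → ce (2 * z.arg) * conj z = z := fun z hz => by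
    have e : z = (‖z‖ : ℝ) * ce z.arg := (Complex.norm_mul_exp_arg_mul_I z).symm
    rw [two_mul, ce_add]
    nth_rewrite 3 4 [e]
    rw [map_mul, Complex.conj_ofReal, ← ce_neg]
    linear_combination ((‖z‖ : ℝ) : ℂ) * ce z.arg * ce_mul_neg z.arg
  have he : ∀ t, ce (h t) = dm γ (ce t) := fun t => by
    have e : conj (dd γ (ce t)) = al γ * u t := by
      simp only [dd, map_add, map_mul, Complex.conj_conj, ← ce_neg, hu]
      field_simp
      ring
    have e2 : dd γ (ce t) = conj (al γ) * conj (u t) := by rw [← map_mul, ← e, Complex.conj_conj]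
    rw [dm, eq_div_iff (dd_ne γ (norm_ce t).le), circ, e, e2]
    simp only [hh, mul_add, ce_add]
    linear_combination ce t * ce (2 * (u t).arg) * conj (u t) * key _ ha +
      ce t * al γ * key _ (Complex.slitPlane_ne_zero (hs t))
  have hi : Function.Injective h := fun s t e => by
    obtain ⟨k, rfl⟩ := ce_eq_iff.1
      (dm_inj γ (norm_ce s).le (norm_ce t).le (by rw [← he, ← he, e]))
    rw [perZ hp] at e
    linarith
  have hm : StrictMono h := (hc.strictMono_of_inj hi).resolve_right fun a => by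
    have := a (show (0 : ℝ) < 0 + 2 * π by positivity)
    rw [hp] at this
    linarith [Real.pi_pos]
  have hsu : Function.Surjective h := fun y => by
    obtain ⟨j, a, b⟩ := ex_sh y (h 0)
    obtain ⟨t, -, e⟩ := intermediate_value_Icc (show (0 : ℝ) ≤ 0 + 2 * π by positivity)
      hc.continuousOn ⟨a, by rw [hp]; exact b.le⟩
    refine ⟨t + (-j : ℤ) * (2 * π), ?_⟩
    rw [perZ hp, e]
    push_cast
    ring
  exact ⟨hm.orderIsoOfSurjective h hsu, he, hp⟩

namespace Lc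

variable {γ δ : SL(2, ℝ)} {g h : ℝ ≃o ℝ}

lemma one : Lc 1 1 := ⟨fun _ => (dm_one _).symm, fun _ => rfl⟩

lemma mul (a : Lc γ g) (b : Lc δ h) : Lc (γ * δ) (g * h) :=
  ⟨fun t => by rw [dm_mul _ _ (norm_ce t).le, ← b.1, ← a.1]; rfl,
    fun t => by change g (h _) = g (h t) + _; rw [b.2, a.2]⟩

lemma inv (a : Lc γ g) : Lc γ⁻¹ g⁻¹ := by
  refine ⟨fun t => ?_, fun t => g.injective ?_⟩
  · have := a.1 (g.symm t)
    rw [g.apply_symm_apply] at this
    rw [this, dm_inv_dm _ (norm_ce _).le]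
    rfl
  · change g (g.symm _) = g (g.symm t + _)
    rw [a.2, g.apply_symm_apply, g.apply_symm_apply]

lemma sh (a : Lc γ g) (k : ℤ) : ∃ h, Lc γ h ∧ ∀ t, h t = g t + k * (2 * π) :=
  ⟨g.trans (OrderIso.addRight _), ⟨fun t => (ce_sh _ k).trans (a.1 t), fun t => by
    change g _ + _ = g t + _ + _
    rw [a.2]
    ring⟩, fun _ => rfl⟩

lemma uniq (a : Lc γ g) (b : Lc δ h) (e : ∀ t, dm γ (ce t) = dm δ (ce t)) {x : ℝ}
    (hx : g x = h x) : g = h := by
  ext t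
  obtain ⟨j, p, q⟩ := ex_sh t x
  have := eq_of_ce (a := g x) ((a.1 (t + j * (2 * π))).trans ((e _).trans (b.1 _).symm))
    (g.monotone p) (by rw [← a.2]; exact g.strictMono q) (by rw [hx]; exact h.monotone p)
    (by rw [hx, ← b.2]; exact h.strictMono q)
  rw [perZ a.2, perZ b.2] at this
  linarith

lemma diff (a : Lc γ g) (b : Lc γ h) : ∃ k : ℤ, ∀ t, h t = g t + k * (2 * π) := by
  obtain ⟨k, e⟩ := ce_eq_iff.1 ((b.1 0).trans (a.1 0).symm)
  obtain ⟨g', c, d⟩ := a.sh k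
  exact ⟨k, fun t => by rw [← d, c.uniq b (fun _ => rfl) ((d 0).trans e.symm)]⟩

/-- the real multiplier -/
lemma mu (a : Lc γ g) : ∃ μ : ℝ → ℝ, (∀ t, μ t ≠ 0) ∧
    (∀ t, dd γ (ce t) = μ t * ce ((t - g t) / 2)) ∧
      ∀ s t, μ s * μ t * Real.sin ((g s - g t) / 2) = Real.sin ((s - t) / 2) := by
  have h1 : ∀ t, ∃ m : ℝ, dd γ (ce t) = m * ce ((t - g t) / 2) := fun t => by
    have e := a.1 t
    rw [dm, eq_div_iff (dd_ne γ (norm_ce t).le), circ] at e
    have e1 : ce (g t) = ce (-((t - g t) / 2)) * ce ((t + g t) / 2) := by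
      rw [← ce_add]; congr 1; ring
    have e2 : ce t = ce ((t - g t) / 2) * ce ((t + g t) / 2) := by
      rw [← ce_add]; congr 1; ring
    obtain ⟨m, hm⟩ := Complex.conj_eq_iff_real.1
      (show conj (dd γ (ce t) * ce (-((t - g t) / 2))) = dd γ (ce t) * ce (-((t - g t) / 2)) by
        rw [map_mul, ← ce_neg, neg_neg]
        apply mul_right_cancel₀ (ce_ne ((t + g t) / 2))
        rw [mul_assoc, mul_assoc, ← e1, ← e2]
        linear_combination -e)
    refine ⟨m, ?_⟩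
    rw [← hm]
    linear_combination (-dd γ (ce t)) * ce_mul_neg ((t - g t) / 2)
  choose μ hμ using h1
  have h0 : ∀ t, μ t ≠ 0 := fun t h => dd_ne γ (norm_ce t).le (by rw [hμ, h]; simp)
  refine ⟨μ, h0, hμ, fun s t => ?_⟩
  have e := dm_sub γ (norm_ce s).le (norm_ce t).le
  rw [← a.1, ← a.1, eq_div_iff (mul_ne_zero (dd_ne γ (norm_ce s).le) (dd_ne γ (norm_ce t).le)),
    hμ, hμ, ce_sub, ce_sub] at e
  have e1 : ce ((s + t) / 2) = ce ((g s + g t) / 2) * (ce ((s - g s) / 2) * ce ((t - g t) / 2)) := by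
    rw [← ce_add, ← ce_add]; congr 1; ring
  have : ((μ s * μ t * Real.sin ((g s - g t) / 2) : ℝ) : ℂ) = (Real.sin ((s - t) / 2) : ℝ) := by
    apply mul_right_cancel₀ (mul_ne_zero (mul_ne_zero two_ne_zero Complex.I_ne_zero)
      (ce_ne ((s + t) / 2)))
    simp only [Complex.ofReal_mul]
    linear_combination e + 2 * Complex.I * μ s * μ t * (Real.sin ((g s - g t) / 2) : ℝ) * e1
  exact_mod_cast this

end Lc

lemma bl_ne (l : ℝ) {ε : ℝ} (h : 0 < ε) : (Bl l ε).Nonempty := by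
  obtain ⟨s, s0, s1, s2⟩ : ∃ s : ℝ, 0 < s ∧ s ≤ 1 ∧ s < ε :=
    ⟨min 1 (ε / 2), by positivity, min_le_left _ _, (min_le_right _ _).trans_lt (by linarith)⟩
  obtain ⟨z, hz⟩ := exists_cay (w := (1 - s : ℝ) * ce l) (by
    rw [norm_mul, norm_ce, mul_one, Complex.norm_real, Real.norm_of_nonneg (by linarith)]
    linarith)
  refine ⟨z, ?_⟩
  change ‖_‖ < ε
  rw [hz, show ((1 - s : ℝ) : ℂ) * ce l - ce l = -(s * ce l) by push_cast; ring, norm_neg,
    norm_mul, norm_ce, mul_one, Complex.norm_real, Real.norm_of_nonneg s0.le]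
  exact s2

lemma bl_cont (γ : SL(2, ℝ)) (l : ℝ) {ε : ℝ} (h : 0 < ε) :
    ∃ δ, 0 < δ ∧ ∀ z ∈ Bl l δ, ‖cay (γ • z) - dm γ (ce l)‖ < ε := by
  obtain ⟨δ, a, b⟩ := Metric.continuousAt_iff.1 (dm_cont γ (norm_ce l).le) ε h
  exact ⟨δ, a, fun z hz => by rw [cay_smul, ← dist_eq_norm]; exact b (by rwa [dist_eq_norm])⟩

theorem lift_iff {γ : SL(2, ℝ)} {g : ℝ ≃o ℝ} : Lift γ g ↔ Lc γ g := by
  constructor
  · refine fun h => ⟨fun t => ?_, h.per⟩
    refine eq_of_forall_dist_le fun ε he => ?_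
    obtain ⟨δ, a, b⟩ := h.fw t (ε / 2) (by positivity)
    obtain ⟨δ', a', b'⟩ := bl_cont γ t (ε := ε / 2) (by positivity)
    obtain ⟨z, hz⟩ := bl_ne t (lt_min a a')
    obtain ⟨z1, z2⟩ := lt_min_iff.1 (show ‖cay z - ce t‖ < _ from hz)
    have h1 : ‖cay (γ • z) - ce (g t)‖ < ε / 2 := b z z1
    have h2 := b' z z2
    rw [← dist_eq_norm] at h1 h2
    linarith [dist_triangle_left (ce (g t)) (dm γ (ce t)) (cay (γ • z))]
  · refine fun h => ⟨h.2, fun l ε he => ?_, fun l ε he => ?_⟩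
    · have := bl_cont γ l he
      rwa [← h.1] at this
    · have := bl_cont γ⁻¹ (g l) he
      rwa [h.1, dm_inv_dm _ (norm_ce l).le] at this

end FDm

end

end Pool.Agent.Lib.MP_21f752_an
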