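import Pool.Agent.Lib.MP_21f752_an.FA
import Pool.Agent.Lib.MP_21f752_an.FC

/-! Frozen statements, part G: planar topology, measure theory, shooting. -/

namespace Pool.Agent.Lib.MP_21f752_an

open UpperHalfPlane Set Filter Topology Metric MeasureTheory
open scoped MatrixGroups ContDiff Real

noncomputable section

/-- the Cayley map to the unit disc -/
def cay (z : ℍ) : ℂ := ((z : ℂ) - Complex.I) / ((z : ℂ) + Complex.I)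

/-- neighbourhoods of the point `ce l` at infinity -/
def Bl (l ε : ℝ) : Set ℍ := {z | ‖cay z - ce l‖ < ε}

/-- `g` is a lift of the boundary action of `γ` -/
structure Lift (γ : SL(2, ℝ)) (g : ℝ ≃o ℝ) : Prop where
  per : ∀ t, g (t + 2 * π) = g t + 2 * π
  fw : ∀ l ε, 0 < ε → ∃ δ, 0 < δ ∧ ∀ z ∈ Bl l δ, γ • z ∈ Bl (g l) ε
  bw : ∀ l ε, 0 < ε → ∃ δ, 0 < δ ∧ ∀ z ∈ Bl (g l) δ, γ⁻¹ • z ∈ Bl l ε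

/-- the group of lifts -/
def GG (Γ : Subgroup SL(2, ℝ)) : Subgroup (ℝ ≃o ℝ) where
  carrier := {g | ∃ γ ∈ Γ, Lift γ g}
  one_mem' := ⟨1, Γ.one_mem, fun _ => rfl, fun _ ε h => ⟨ε, h, fun z hz => by simpa using hz⟩,
    fun _ ε h => ⟨ε, h, fun z hz => by simpa using hz⟩⟩
  mul_mem' := by
    rintro g g' ⟨γ, a, h⟩ ⟨γ', a', h'⟩
    refine ⟨γ * γ', Γ.mul_mem a a', fun t => ?_, fun l ε e => ?_, fun l ε e => ?_⟩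
    · change g (g' _) = g (g' t) + _
      rw [h'.per, h.per]
    · obtain ⟨δ, d, k⟩ := h.fw (g' l) ε e
      obtain ⟨δ', d', k'⟩ := h'.fw l δ d
      exact ⟨δ', d', fun z hz => by rw [mul_smul]; exact k _ (k' z hz)⟩
    · obtain ⟨δ, d, k⟩ := h'.bw l ε e
      obtain ⟨δ', d', k'⟩ := h.bw (g' l) δ d
      exact ⟨δ', d', fun z hz => by rw [mul_inv_rev, mul_smul]; exact k _ (k' z hz)⟩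
  inv_mem' := by
    rintro g ⟨γ, a, h⟩
    refine ⟨γ⁻¹, Γ.inv_mem a, fun t => g.injective ?_, fun l ε e => ?_, fun l ε e => ?_⟩
    · rw [h.per]
      simp
    · simpa using h.bw (g⁻¹ l) ε e
    · simpa using h.fw (g⁻¹ l) ε e

/-- elementary facts on the disc model -/
structure Disc : Prop where
  lt : ∀ z, ‖cay z‖ < 1
  emb : IsOpenEmbedding cay
  sur : ∀ w : ℂ, ‖w‖ < 1 → ∃ z, cay z = w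
  conn : ∀ l ε, IsPreconnected (Bl l ε)
  ne : ∀ l ε, 0 < ε → (Bl l ε).Nonempty
  sub : ∀ l l' ε, Bl l ε ⊆ Bl l' (ε + |l - l'|)
  far : ∀ (p : ℍ) (R : ℝ), ∃ ε, 0 < ε ∧ ∀ l, ∀ z ∈ Bl l ε, R < dist z p
  near : ∀ (p : ℍ) (ε : ℝ), 0 < ε → ∃ R, ∀ z, R ≤ dist z p → ∃ l, z ∈ Bl l ε
  bdd : ∀ (A : Set ℍ) (a : ℝ), (∀ l ∈ Icc a (a + 2 * π), ∃ ε, 0 < ε ∧ Disjoint (Bl l ε) A) →
    ∃ R, A ⊆ closedBall UpperHalfPlane.I R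
  seg : ∀ (z : ℍ) (l : ℝ), ∃ σ : ℝ → ℍ, Continuous σ ∧ σ 0 = z ∧
    Tendsto (fun t => cay (σ t)) atTop (𝓝 (ce l)) ∧
      ∀ t, 0 ≤ t → ∃ s ∈ Ico (0 : ℝ) 1, cay (σ t) = cay z + s * (ce l - cay z)

/-- boundary action of Möbius maps -/
structure Mob : Prop where
  ex : ∀ γ : SL(2, ℝ), ∃ g, Lift γ g
  uniq : ∀ γ g g', Lift γ g → Lift γ g' → ∃ k : ℤ, ∀ t, g' t = g t + k * (2 * π)
  add : ∀ γ g g' (k : ℤ), Lift γ g → (∀ t, g' t = g t + k * (2 * π)) → Lift γ g'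
  triv : ∀ γ g, Lift γ g → (∀ t, ce (g t) = ce t) → ∀ z : ℍ, γ • z = z
  hull : ∀ ε, 0 < ε → ∃ δ, 0 < δ ∧ ∀ γ g r a, Lift γ g → Ctr g r a δ →
    ∀ z, z ∉ Bl r ε → γ • z ∈ Bl a ε
  ctr : ∀ (p : ℍ) (ε : ℝ), 0 < ε → ∃ δ, 0 < δ ∧ ∀ γ g r a, Lift γ g → γ • p ∈ Bl a δ →
    γ⁻¹ • p ∈ Bl r δ → ∃ k : ℤ, Ctr g r (a + k * (2 * π)) ε
  std : ∀ x y, x < y → y < x + 2 * π → ∃ g0 : SL(2, ℝ),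
    (∀ γ g, Lift γ g → ce (g x) = ce x → ce (g y) = ce y →
      ∃ s, ∀ z : ℍ, g0 • γ • z = dil s • g0 • z) ∧
    (∀ M, ∃ ε, 0 < ε ∧ ∀ z ∈ Bl y ε, M < lg (g0 • z)) ∧
    ∀ M, ∃ ε, 0 < ε ∧ ∀ z ∈ Bl x ε, lg (g0 • z) < M

/-- a continuous line with two different ends -/
structure Line (Θ : ℝ → ℍ) (x y : ℝ) : Prop where
  cont : Continuous Θ
  lo : Tendsto (fun t => cay (Θ t)) atBot (𝓝 (ce x))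
  hi : Tendsto (fun t => cay (Θ t)) atTop (𝓝 (ce y))
  lt : x < y
  lt2 : y < x + 2 * π

/-- the index of a line -/
structure Idx (Θ : ℝ → ℍ) (x y : ℝ) (n : ℍ → ℤ) : Prop where
  cl : IsClosed (range Θ)
  lc : ∀ A : Set ℍ, IsPreconnected A → Disjoint A (range Θ) → ∀ z ∈ A, ∀ w ∈ A, n z = n w
  rt : ∀ l, x < l → l < y → ∃ ε, 0 < ε ∧ ∀ z ∈ Bl l ε, z ∉ range Θ ∧ n z = -1
  lf : ∀ l, y < l → l < x + 2 * π → ∃ ε, 0 < ε ∧ ∀ z ∈ Bl l ε, z ∉ range Θ ∧ n z = 0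
  jump : ∀ (t0 : ℝ) (v : ℝ → ℂ), v t0 ≠ 0 → ContinuousAt v t0 →
    (∀ᶠ t in 𝓝 t0, HasDerivAt (fun s => (Θ s : ℂ)) (v t) t) → (∀ t, Θ t = Θ t0 → t = t0) →
    ∃ m : ℤ, (∀ᶠ z in 𝓝 (Θ t0), z ∉ range Θ → n z = m ∨ n z = m + 1) ∧
      ∀ (σ : ℝ → ℍ) (u : ℂ), σ 0 = Θ t0 → HasDerivAt (fun s => (σ s : ℂ)) u 0 →
        (0 < (u / v t0).im → ∀ᶠ s in 𝓝[>] 0, σ s ∉ range Θ ∧ n (σ s) = m + 1) ∧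
        ((u / v t0).im < 0 → ∀ᶠ s in 𝓝[>] 0, σ s ∉ range Θ ∧ n (σ s) = m)

namespace Geo

variable (G : Geo)

/-- the curve of an orbit -/
abbrev o (ξ : N) (t : ℝ) : ℍ := (G.φ t ξ).1

def EndP (ξ : N) (y : ℝ) : Prop := Tendsto (fun t => cay (G.o ξ t)) atTop (𝓝 (ce y))

def EndM (ξ : N) (x : ℝ) : Prop := Tendsto (fun t => cay (G.o ξ t)) atBot (𝓝 (ce x))

def AccP (ξ : N) (l : ℝ) : Prop := ∀ ε, 0 < ε → ∃ᶠ t in atTop, G.o ξ t ∈ Bl l ε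

def AccM (ξ : N) (l : ℝ) : Prop := ∀ ε, 0 < ε → ∃ᶠ t in atBot, G.o ξ t ∈ Bl l ε

/-- a wall: an orbit with two different ends -/
structure Wl (ξ : N) (x y : ℝ) : Prop where
  m : G.EndM ξ x
  p : G.EndP ξ y
  lt : x < y
  lt2 : y < x + 2 * π

def Nr (ξ : N) (l e : ℝ) : Prop := ∃ t, G.o ξ t ∈ Bl l e

def Dis (ξ η : N) : Prop := ∀ s t, G.o ξ s ≠ G.o η t

structure Base : Prop where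
  inj : ∀ ξ, Function.Injective (G.o ξ)
  f5 : ∀ ξ η s1 s2 t1 t2, s1 < s2 → t1 < t2 → G.o ξ s1 = G.o η t1 → G.o ξ s2 = G.o η t2 →
    ∃ k : ℤ, G.φ s1 ξ = rot (k * (2 * π)) (G.φ t1 η)
  cnt : ∀ R, ∃ M : ℕ, ∀ (ξ : N) (p : ℍ) (s : Finset ℤ), (∀ j ∈ s, dist (G.o ξ j) p ≤ R) → s.card ≤ M
  top : ∀ ξ p, Tendsto (fun t => dist (G.o ξ t) p) atTop atTop
  bot : ∀ ξ p, Tendsto (fun t => dist (G.o ξ t) p) atBot atTop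
  accP : ∀ ξ, ∃ l, G.AccP ξ l
  accM : ∀ ξ, ∃ l, G.AccM ξ l
  line : ∀ ξ x y, G.Wl ξ x y → Line (G.o ξ) x y
  wφ : ∀ ξ x y t, G.Wl ξ x y → G.Wl (G.φ t ξ) x y
  wg : ∀ ξ x y, ∀ γ ∈ G.Γ, ∀ g (k : ℤ), Lift γ g → G.Wl ξ x y →
    G.Wl (gg γ (k * (2 * π)) ξ) (g x) (g y)
  wu : ∀ ξ x y x' y', G.Wl ξ x y → G.Wl ξ x' y' →
    ∃ k : ℤ, x' = x + k * (2 * π) ∧ y' = y + k * (2 * π)
  ws : ∀ ξ x y (k : ℤ), G.Wl ξ x y → G.Wl ξ (x + k * (2 * π)) (y + k * (2 * π))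

/-- the two sides of a wall -/
structure Sides (ξ : N) (x y : ℝ) (L R : Set ℍ) : Prop where
  oL : IsOpen L
  oR : IsOpen R
  dis : Disjoint L R
  un : L ∪ R = (range (G.o ξ))ᶜ
  rt : ∀ l, x < l → l < y → ∃ ε, 0 < ε ∧ Bl l ε ⊆ R
  lf : ∀ l, y < l → l < x + 2 * π → ∃ ε, 0 < ε ∧ Bl l ε ⊆ L
  loc : ∀ (t : ℝ) (σ : ℝ → ℍ) (u : ℂ), σ 0 = G.o ξ t → HasDerivAt (fun s => (σ s : ℂ)) u 0 →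
    (0 < (u / G.V (G.φ t ξ)).im → ∀ᶠ s in 𝓝[>] 0, σ s ∈ L) ∧
    ((u / G.V (G.φ t ξ)).im < 0 → ∀ᶠ s in 𝓝[>] 0, σ s ∈ R)

/-- parallel walls are disjoint -/
def T3 : Prop := ∀ ξ η x y x' y', G.Wl ξ x y → G.Wl η x' y' → x' < x → y < y' → G.Dis ξ η

/-- rays of a fan stay between the outer rays -/
def FM : Prop := ∀ (p : ℍ) (θ1 θ2 a b : ℝ), θ1 < θ2 → θ2 < θ1 + 2 * π → a < b → b < a + 2 * π →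
  (G.EndP (p, θ1) a → G.EndP (p, θ2) b → ∀ l, b < l → l < a + 2 * π →
    ∃ ε, 0 < ε ∧ ∀ θ ∈ Icc θ1 θ2, ∀ t, 0 ≤ t → G.o (p, θ) t ∉ Bl l ε) ∧
  (G.EndM (p, θ1) a → G.EndM (p, θ2) b → ∀ l, b < l → l < a + 2 * π →
    ∃ ε, 0 < ε ∧ ∀ θ ∈ Icc θ1 θ2, ∀ t, t ≤ 0 → G.o (p, θ) t ∉ Bl l ε)

/-- `ζ1` and `ζ2` are limits of walls `a`, `b` with `b` parallel to `a` on its left -/
def Lf (ζ1 ζ2 : N) : Prop := ∀ U1 ∈ 𝓝 ζ1, ∀ U2 ∈ 𝓝 ζ2, ∃ a ∈ U1, ∃ b ∈ U2, ∃ x y x' y',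
  G.Wl a x y ∧ G.Wl b x' y' ∧ x' < x ∧ y < y'

/-- two close strands, each to the left of the other, lie on one orbit -/
def DE : Prop := ∀ ζ : N, ∃ U ∈ 𝓝 ζ, ∀ ζ1 ∈ U, ∀ ζ2 ∈ U, G.Lf ζ1 ζ2 → G.Lf ζ2 ζ1 →
  ∃ (t : ℝ) (k : ℤ), G.φ t ζ1 = rot (k * (2 * π)) ζ2

/-- walls with ends in `O` -/
def EW (O : Set (ℝ × ℝ)) : Set N := {ξ | ∃ x y, (x, y) ∈ O ∧ G.Wl ξ x y}

/-- recurrent pairs of ends -/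
def Rec : Set (ℝ × ℝ) := {v | ∀ ε, 0 < ε →
  (∃ g ∈ GG G.Γ, |g⁻¹ v.1 - v.1| < ε ∧ |g⁻¹ v.2 - v.2| < ε ∧ Ctr g v.1 v.2 ε) ∧
    ∃ g ∈ GG G.Γ, |g⁻¹ v.1 - v.1| < ε ∧ |g⁻¹ v.2 - v.2| < ε ∧ Ctr g (v.2 - 2 * π) v.1 ε}

/-- orbits whose two limit sets lie in disjoint arcs -/
def DD : Set N := {ξ | ∃ a b c d : ℝ, a ≤ b ∧ b < c ∧ c ≤ d ∧ d < a + 2 * π ∧
  (∀ l, b < l → l < a + 2 * π → ¬G.AccM ξ l) ∧ ∀ l, d < l → l < c + 2 * π → ¬G.AccP ξ l}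

def Sat (B : Set N) : Set N := {ξ | ∃ γ ∈ G.Γ, ∃ k : ℤ, gg γ (k * (2 * π)) ξ ∈ B}

/-- a generic family of walls, given by the set of its pairs of ends -/
structure Gen (O : Set (ℝ × ℝ)) : Prop where
  ne : (G.EW O).Nonempty
  inv : ∀ g ∈ GG G.Γ, ∀ x y, (x, y) ∈ O → (g x, g y) ∈ O
  rc : O ⊆ G.Rec
  up : ∀ x y, (x, y) ∈ O → ∃ ξ x' y', (x', y') ∈ O ∧ G.Wl ξ x' y' ∧
    x < x' ∧ x' < y ∧ y < y' ∧ y' < x + 2 * π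
  dn : ∀ x y, (x, y) ∈ O → ∃ ξ x' y', (x', y') ∈ O ∧ G.Wl ξ x' y' ∧
    x' < x ∧ x < y' ∧ y' < y ∧ y < x' + 2 * π
  fan : ∀ x y x' y', (x, y) ∈ O → (x', y') ∈ O → x < x' → x' < y → y < y' → y' < x + 2 * π →
    ∀ ε, 0 < ε → ∃ (p : ℍ) (θ1 θ2 x1 y1 x2 y2 : ℝ), θ1 < θ2 ∧ θ2 < θ1 + 2 * π ∧
      (x1, y1) ∈ O ∧ (x2, y2) ∈ O ∧ G.Wl (p, θ1) x1 y1 ∧ G.Wl (p, θ2) x2 y2 ∧
      |x1 - x| < ε ∧ |y1 - y| < ε ∧ |x2 - x'| < ε ∧ |y2 - y'| < ε ∧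
      x1 < x2 ∧ x2 < y1 ∧ y1 < y2 ∧ y2 < x1 + 2 * π ∧
      ∀ a b, θ1 ≤ a → a < b → b ≤ θ2 → ∃ θ ∈ Ioo a b, (p, θ) ∈ G.EW O

/-- the walls of a family -/
def WT (O : Set (ℝ × ℝ)) : Type := {w : N × ℝ × ℝ // w.2 ∈ O ∧ G.Wl w.1 w.2.1 w.2.2}

/-- translates of a wall shrink to `l` and separate it -/
def Sh (O : Set (ℝ × ℝ)) (l : ℝ) : Prop := ∃ (m : G.WT O) (r : ℝ),
  (m.1.2.2 - 2 * π < r ∧ r < m.1.2.1 ∧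
    ∀ ε, 0 < ε → ∃ g ∈ GG G.Γ, Ctr g r l ε ∧ g m.1.2.1 < l ∧ l < g m.1.2.2) ∨
  (m.1.2.1 < r ∧ r < m.1.2.2 ∧
    ∀ ε, 0 < ε → ∃ g ∈ GG G.Γ, Ctr g r l ε ∧ g m.1.2.2 < l ∧ l < g (m.1.2.1 + 2 * π))

structure Av : Prop where
  avR : ∀ m x y l, G.Wl m x y → x < l → l < y → ∃ e, 0 < e ∧
    ∀ g x' y', G.Wl g x' y' → x' < x → y < y' → ¬G.Nr g l e
  avL : ∀ m x y l, G.Wl m x y → y < l → l < x + 2 * π → ∃ e, 0 < e ∧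
    ∀ g x' y', G.Wl g x' y' → x < x' → y' < y → ¬G.Nr g l e
  tipL : ∀ μ l, μ < l → l < μ + 2 * π → ∃ e0, 0 < e0 ∧ ∀ e, 0 < e → e ≤ e0 → ∀ g x y,
    G.Wl g x y → x + 2 * π < μ → ∃ δ, 0 < δ ∧ ∀ f x' y', G.Wl f x' y' → x < x' → y' < y →
      l < x' + 2 * π → G.Nr f μ δ → ¬G.Nr f l e → ¬G.Nr g l e
  tipR : ∀ μ l, l < μ → μ < l + 2 * π → ∃ e0, 0 < e0 ∧ ∀ e, 0 < e → e ≤ e0 → ∀ g x y,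
    G.Wl g x y → μ < x → ∃ δ, 0 < δ ∧ ∀ f x' y', G.Wl f x' y' → x' < x → y < y' →
      x' < l → G.Nr f μ δ → ¬G.Nr f l e → ¬G.Nr g l e

def V1 (O : Set (ℝ × ℝ)) : Prop :=
  ∀ l a b, G.Sh O l → (∀ j : ℤ, a + j * (2 * π) ≠ l ∧ b + j * (2 * π) ≠ l) →
    ∃ ε, 0 < ε ∧ ∀ w x y, G.Wl w x y → |x - a| < ε → |y - b| < ε → ¬G.Nr w l ε

/-- a two sided dead end points to a fixed point -/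
def Dead : Prop := ∀ (ζ : N) (a b om ξ1 ξ2 : ℝ), a < om → om < b → b - 2 * π < ξ1 → ξ1 < a →
  b - 2 * π < ξ2 → ξ2 < a → G.AccP ζ om → (∀ l, a < l → l < b → ¬G.AccM ζ l) →
  (∀ U ∈ 𝓝 ζ, ∀ δ, 0 < δ → ∃ f ∈ U, ∃ x y, G.Wl f x y ∧ |x - ξ1| < δ ∧ |y - a| < δ) →
  (∀ U ∈ 𝓝 ζ, ∀ δ, 0 < δ → ∃ f ∈ U, ∃ x y, G.Wl f x y ∧ |x - ξ2| < δ ∧ |y - b| < δ) →
  ∃ d ∈ GG G.Γ, ∃ u, Hyp d u om ∧ b - 2 * π ≤ u ∧ u ≤ a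

def Fan (O : Set (ℝ × ℝ)) : Prop :=
  ∀ w1 w2 : G.WT O, w1.1.2.1 < w2.1.2.1 → w2.1.2.1 < w1.1.2.2 → w1.1.2.2 < w2.1.2.2 →
    w2.1.2.2 < w1.1.2.1 + 2 * π → ∀ ε, 0 < ε → ∃ (k1 k2 : G.WT O) (F : Set (G.WT O)),
    k1 ∈ F ∧ k2 ∈ F ∧ |k1.1.2.1 - w1.1.2.1| < ε ∧ |k1.1.2.2 - w1.1.2.2| < ε ∧
    |k2.1.2.1 - w2.1.2.1| < ε ∧ |k2.1.2.2 - w2.1.2.2| < ε ∧
    (∀ f ∈ F, k1.1.2.1 ≤ f.1.2.1 ∧ f.1.2.1 ≤ k2.1.2.1 ∧ k1.1.2.2 ≤ f.1.2.2 ∧ f.1.2.2 ≤ k2.1.2.2) ∧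
    ∀ m e, k1.1.2.2 < m → m < k2.1.2.2 → 0 < e → (∀ f ∈ F, e ≤ |f.1.2.2 - m|) → ∃ a b om ξ1 ξ2,
      a < m ∧ m < b ∧ a ≤ om ∧ om ≤ b ∧
      (∀ δ, 0 < δ → ∃ f ∈ F, |f.1.2.1 - ξ1| < δ ∧ |f.1.2.2 - a| < δ ∧ f.1.2.2 ≤ om ∧
        G.Nr f.1.1 om δ) ∧
      (∀ δ, 0 < δ → ∃ f ∈ F, |f.1.2.1 - ξ2| < δ ∧ |f.1.2.2 - b| < δ ∧ om ≤ f.1.2.2 ∧
        G.Nr f.1.1 om δ) ∧
      (a < om → om < b → ∃ d ∈ GG G.Γ, ∃ u, Hyp d u om ∧ b - 2 * π ≤ u ∧ u ≤ a)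

/-- finitely many left and right walls leave a ray free -/
def Shoot : Prop := ∀ (p : ℍ) (θ1 θ2 : ℝ) (A B : Set (N × ℝ × ℝ)), θ1 < θ2 → A.Finite → B.Finite →
  (∀ w ∈ A ∪ B, G.Wl w.1 w.2.1 w.2.2) → (∀ a ∈ A, ∀ b ∈ B, a.2.1 < b.2.1 ∧ b.2.2 < a.2.2) →
  (∀ a ∈ A, ∀ L R, G.Sides a.1 a.2.1 a.2.2 L R → p ∈ R) →
  (∀ b ∈ B, ∀ L R, G.Sides b.1 b.2.1 b.2.2 L R → p ∈ L) →
  (∀ a ∈ A, ∀ s t, 0 ≤ t → G.o (p, θ1) t ≠ G.o a.1 s) →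
  (∀ b ∈ B, ∀ s t, 0 ≤ t → G.o (p, θ2) t ≠ G.o b.1 s) →
  ∃ θ ∈ Icc θ1 θ2, ∀ w ∈ A ∪ B, ∀ s t, 0 ≤ t → G.o (p, θ) t ≠ G.o w.1 s

/-- exponentially many translates are reached in linear time -/
def Exp : Prop := ∃ (p : ℍ) (C R : ℝ), ∀ n : ℕ, ∃ γ : (Fin n → Bool) → SL(2, ℝ),
  (∀ w, γ w ∈ G.Γ) ∧ Function.Injective γ ∧ ∀ w, ∃ θ t, 0 ≤ t ∧ t ≤ C * (n + 1) ∧
    dist (G.o (p, θ) t) (γ w • UpperHalfPlane.I) ≤ R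

/-- the combinatorial system of a generic family -/
def cw (O : Set (ℝ × ℝ)) (hO : G.Gen O) (hB : G.Base) (hG : CG (GG G.Γ)) : CW where
  W := G.WT O
  x w := w.1.2.1
  y w := w.1.2.2
  G := GG G.Γ
  cg := hG
  ne := by
    obtain ⟨ξ, x, y, a, b⟩ := hO.ne
    exact ⟨⟨(ξ, x, y), a, b⟩⟩
  lt w := w.2.2.lt
  lt2 w := w.2.2.lt2
  act := by
    rintro g ⟨γ, a, b⟩ w
    exact ⟨⟨(gg γ ((0 : ℤ) * (2 * π)) w.1.1, g w.1.2.1, g w.1.2.2),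
      hO.inv g ⟨γ, a, b⟩ _ _ w.2.1, hB.wg _ _ _ γ a g 0 b w.2.2⟩, rfl, rfl⟩
  recP w ε h := (hO.rc w.2.1 ε h).1
  recM w ε h := (hO.rc w.2.1 ε h).2
  up w := by
    obtain ⟨ξ, x, y, a, b, c⟩ := hO.up _ _ w.2.1
    exact ⟨⟨(ξ, x, y), a, b⟩, c⟩
  dn w := by
    obtain ⟨ξ, x, y, a, b, c⟩ := hO.dn _ _ w.2.1
    exact ⟨⟨(ξ, x, y), a, b⟩, c⟩

end Geo

def CgSt : Prop := ∀ S : Sys, S.Free → CG (GG S.Γ)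

def IdxSt : Prop := ∀ Θ x y, Line Θ x y → ∃ n, Idx Θ x y n

/-- lines with linked ends meet -/
def SlSt : Prop := ∀ Θ1 Θ2 x1 y1 x2 y2, Line Θ1 x1 y1 → Line Θ2 x2 y2 → x1 < x2 → x2 < y1 →
  y1 < y2 → y2 < x1 + 2 * π → ∃ s t, Θ1 s = Θ2 t

def BaseSt : Prop := ∀ G : Geo, G.Base

def SideSt : Prop := ∀ (G : Geo) ξ x y, G.Wl ξ x y → ∃ L R, G.Sides ξ x y L R

def T3St : Prop := ∀ G : Geo, G.T3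

def FmSt : Prop := ∀ G : Geo, G.FM

def AvSt : Prop := ∀ G : Geo, G.Av

def DeSt : Prop := ∀ G : Geo, G.DE

def V1St : Prop := ∀ (G : Geo) O, G.Gen O → G.V1 O

def DeadSt : Prop := ∀ G : Geo, G.Dead

def FanSt : Prop := ∀ (G : Geo) O, G.Gen O → G.Fan O

def ShootSt : Prop := ∀ G : Geo, G.Shoot

def CorSt : Prop := ∀ (G : Geo) O (hO : G.Gen O) (hB : G.Base) (hG : CG (GG G.Γ)),
  Nonempty (G.cw O hO hB hG).PP → G.Exp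

def CntSt : Prop := ∀ G : Geo, G.Exp → ¬G.ZE

/-- the maximal lemma on invariant sets -/
def MaxSt : Prop := ∀ (S : Sys) (τ : ℝ) (f : N → ℝ) (B : Set N) (M : ℝ), Measurable f →
  (∀ ξ, |f ξ| ≤ M) → S.Inv f → MeasurableSet B → (S.Inv fun ξ => ξ ∈ B) →
  (∀ ξ, S.φ τ ξ ∈ B ↔ ξ ∈ B) →
  (∀ ξ ∈ B, ∃ n : ℕ, 0 < ∑ j ∈ Finset.range n, f (S.φ (j * τ) ξ)) → 0 ≤ ∫ ξ in B, f ξ ∂S.ν

open Classical in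
/-- returns have positive upper frequency; null sets for the two measures -/
def FreqSt : Prop := ∀ G : Geo,
  (∀ (τ : ℝ) (B : Set N), MeasurableSet B → ∀ᵐ ξ ∂G.μ, ξ ∈ B → ∃ c : ℝ, 0 < c ∧ ∃ᶠ n : ℕ in atTop,
    c * n ≤ ((Finset.range n).filter fun j : ℕ => G.φ (j * τ) ξ ∈ G.Sat B).card) ∧
  (∀ B : Set N, (G.Inv fun ξ => ξ ∈ B) → (G.ν B = 0 ↔ G.μ B = 0)) ∧
  (∀ B : Set N, G.μ B = 0 ↔ (Measure.comap emb volume) B = 0) ∧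
  (∀ B : Set N, G.μ B = 0 → ∃ Z : Set ℍ, G.μ (Z ×ˢ univ) = 0 ∧
    ∀ p, p ∉ Z → volume {θ : ℝ | (p, θ) ∈ B} = 0) ∧
  (∀ B : Set N, MeasurableSet B → MeasurableSet {p : ℍ | volume {θ : ℝ | (p, θ) ∈ B} = 0} ∧
    G.μ {ξ | ξ ∈ B ∧ volume {θ : ℝ | (ξ.1, θ) ∈ B} = 0} = 0) ∧
  ∀ B : Set N, G.μ B = 0 → ∀ᵐ ξ ∂G.μ, volume {t : ℝ | G.φ t ξ ∈ B} = 0

def MeasSt : Prop := ∀ G : Geo, (∀ O, MeasurableSet O → MeasurableSet (G.EW O)) ∧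
  MeasurableSet G.Rec ∧ ∀ g ∈ GG G.Γ, ∀ x y, (x, y) ∈ G.Rec → (g x, g y) ∈ G.Rec

/-- linear escape on a set of positive measure -/
def EscSt : Prop := ∀ G : Geo, ∃ ε, 0 < ε ∧
  G.μ {ξ | ∃ C, ∀ T : ℝ, ε * |T| - C ≤ dist (G.o ξ T) ξ.1} ≠ 0

def WallSt : Prop := ∀ G : Geo, G.μ (G.EW univ) ≠ 0

def RecSt : Prop := ∀ G : Geo, G.μ (G.DD \ G.EW G.Rec) = 0 ∧ G.EW univ ⊆ G.DD

def AxisSt : Prop := ∀ (G : Geo) x y, G.μ (G.EW {(x, y)}) = 0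

def AtomSt : Prop := ∀ (G : Geo) t, G.μ (G.EW {v | v.1 = t}) = 0 ∧ G.μ (G.EW {v | v.2 = t}) = 0

/-- laminations are null -/
def LamSt : Prop := ∀ (G : Geo) (O : Set (ℝ × ℝ)), MeasurableSet O →
  (∀ x y (k : ℤ), (x, y) ∈ O → (x + k * (2 * π), y + k * (2 * π)) ∈ O) →
  (∀ x y x' y', (x, y) ∈ O → (x', y') ∈ O → ¬(x < x' ∧ x' < y ∧ y < y' ∧ y' < x + 2 * π)) →
  G.μ (G.EW O) = 0

/-- two crossing families of positive measure meet over a generic point -/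
def MeetSt : Prop := ∀ (G : Geo) (B1 B2 E : Set N), MeasurableSet B1 → MeasurableSet B2 →
  (∀ t ξ, ξ ∈ B1 → G.φ t ξ ∈ B1) → (∀ t ξ, ξ ∈ B2 → G.φ t ξ ∈ B2) →
  (∀ (k : ℤ) ξ, ξ ∈ B2 → rot (k * (2 * π)) ξ ∈ B2) → G.μ B1 ≠ 0 → G.μ B2 ≠ 0 → G.μ E = 0 →
  (∀ ξ ∈ B1, ∀ η ∈ B2, ¬G.Dis ξ η) →
  ∃ (p : ℍ) (θ1 θ2 : ℝ), (p, θ1) ∈ B1 ∧ (p, θ2) ∈ B2 ∧ volume {θ : ℝ | (p, θ) ∈ E} = 0

def GenSt : Prop := ∀ G : Geo, ∃ O, G.Gen O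

end

end Pool.Agent.Lib.MP_21f752_an
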