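import Pool.Agent.Lib.MP_21f752_an.FG

/-! A generic family of walls. -/

namespace Pool.Agent.Lib.MP_21f752_an

open UpperHalfPlane Set Filter Topology Metric MeasureTheory
open scoped MatrixGroups Real

noncomputable section

namespace FGen

/-- `w` is above `v` -/
def Ab (v w : ℝ × ℝ) : Prop := v.1 < w.1 ∧ w.1 < v.2 ∧ v.2 < w.2 ∧ w.2 < v.1 + 2 * π

lemma ab_open : IsOpen {p : (ℝ × ℝ) × ℝ × ℝ | Ab p.1 p.2} := by
  refine IsOpen.and ?_ (IsOpen.and ?_ (IsOpen.and ?_ ?_)) <;>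
    exact isOpen_lt (by fun_prop) (by fun_prop)

lemma lift_one : Lift 1 1 :=
  ⟨fun _ => rfl, fun _ ε h => ⟨ε, h, fun z hz => by simpa using hz⟩,
    fun _ ε h => ⟨ε, h, fun z hz => by simpa using hz⟩⟩

lemma bl_sh (l ε : ℝ) (k : ℤ) : Bl (l + k * (2 * π)) ε = Bl l ε := by
  rw [Bl, Bl, ce_add, ce_int, mul_one]

lemma sh_mem (Γ : Subgroup SL(2, ℝ)) (k : ℤ) : OrderIso.addRight (k * (2 * π)) ∈ GG Γ :=
  ⟨1, Γ.one_mem, fun t => by simp only [OrderIso.addRight_apply]; ring,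
    fun l ε h => ⟨ε, h, fun z hz => by simpa [bl_sh] using hz⟩,
    fun l ε h => ⟨ε, h, fun z hz => by simpa [bl_sh] using hz⟩⟩

lemma Ab.map {Γ : Subgroup SL(2, ℝ)} {g : ℝ ≃o ℝ} (hg : g ∈ GG Γ) {v w : ℝ × ℝ} (h : Ab v w) :
    Ab (g v.1, g v.2) (g w.1, g w.2) := by
  obtain ⟨γ, -, hl⟩ := hg
  exact ⟨g.strictMono h.1, g.strictMono h.2.1, g.strictMono h.2.2.1,
    hl.per _ ▸ g.strictMono h.2.2.2⟩

variable (G : Geo)

/-- the support of the pairs of ends -/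
def Sp : Set (ℝ × ℝ) := {v | ∀ U ∈ 𝓝 v, G.μ (G.EW U) ≠ 0}

variable {G}

lemma ew_mono {U V : Set (ℝ × ℝ)} (h : U ⊆ V) : G.EW U ⊆ G.EW V :=
  fun _ ⟨x, y, a, b⟩ => ⟨x, y, h a, b⟩

lemma sp_closed : IsClosed (Sp G) := by
  refine isOpen_compl_iff.1 (isOpen_iff_mem_nhds.2 fun v hv => ?_)
  simp only [Sp, mem_compl_iff, mem_ofPred_eq, not_forall, not_not] at hv ⊢
  obtain ⟨U, hU, h⟩ := hv
  filter_upwards [eventually_mem_nhds_iff.2 hU] with w hw h' using h' U hw h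

lemma sp_null : G.μ (G.EW (Sp G)ᶜ) = 0 := by
  have : ∀ v ∈ (Sp G)ᶜ, ∃ U ∈ 𝓝 v, G.μ (G.EW U) = 0 := fun v hv => by
    simpa only [Sp, mem_compl_iff, mem_ofPred_eq, not_forall, not_not, exists_prop] using hv
  choose! U hU h0 using this
  obtain ⟨t, ht, hc, hs⟩ := TopologicalSpace.countable_cover_nhdsWithin (f := U) (s := (Sp G)ᶜ)
    fun v hv => mem_nhdsWithin_of_mem_nhds (hU v hv)
  refine measure_mono_null (t := ⋃ v ∈ t, G.EW (U v)) ?_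
    ((measure_biUnion_null_iff hc).2 fun v hv => h0 v (ht hv))
  rintro ξ ⟨x, y, a, b⟩
  obtain ⟨v, hv, h⟩ := mem_iUnion₂.1 (hs a)
  exact mem_iUnion₂.2 ⟨v, hv, x, y, h, b⟩

lemma null_gg {γ : SL(2, ℝ)} (hγ : γ ∈ G.Γ) (s : ℝ) {B : Set N} (h : G.μ B = 0) :
    G.μ (gg γ s ⁻¹' B) = 0 := by
  obtain ⟨C, hBC, hC, h0⟩ := exists_measurable_superset_of_null h
  refine measure_mono_null (preimage_mono hBC) ?_
  have := G.pres_gg hγ s (C.indicator 1)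
  rw [lintegral_indicator_one hC, h0] at this
  rw [← lintegral_indicator_one ((continuous_gg γ s).measurable hC), ← this]
  rfl

lemma sp_inv (hB : G.Base) {g : ℝ ≃o ℝ} (hg : g ∈ GG G.Γ) {v : ℝ × ℝ} (h : v ∈ Sp G) :
    (g v.1, g v.2) ∈ Sp G := by
  obtain ⟨γ, hγ, hl⟩ := hg
  intro U hU h0
  have hc : Continuous fun w : ℝ × ℝ => (g w.1, g w.2) :=
    (g.continuous.comp continuous_fst).prodMk (g.continuous.comp continuous_snd)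
  refine h _ (hc.continuousAt.preimage_mem_nhds hU)
    (measure_mono_null ?_ (null_gg hγ ((0 : ℤ) * (2 * π)) h0))
  rintro ξ ⟨x, y, a, b⟩
  exact ⟨_, _, a, hB.wg ξ x y γ hγ g 0 hl b⟩

variable (G)

def Up : Set (ℝ × ℝ) := {v | ∃ w ∈ Sp G, Ab v w}

def Dn : Set (ℝ × ℝ) := {v | ∃ w ∈ Sp G, Ab w v}

def OO : Set (ℝ × ℝ) := G.Rec ∩ Sp G ∩ Up G ∩ Dn G

variable {G}

lemma up_open : IsOpen (Up G) := isOpen_iff_mem_nhds.2 fun _ ⟨w, a, b⟩ =>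
  mem_of_superset ((ab_open.preimage (continuous_id.prodMk (continuous_const (y := w)))).mem_nhds b)
    fun _ h => ⟨w, a, h⟩

lemma dn_open : IsOpen (Dn G) := isOpen_iff_mem_nhds.2 fun _ ⟨w, a, b⟩ =>
  mem_of_superset ((ab_open.preimage ((continuous_const (y := w)).prodMk continuous_id)).mem_nhds b)
    fun _ h => ⟨w, a, h⟩

lemma up_inv (hB : G.Base) {g : ℝ ≃o ℝ} (hg : g ∈ GG G.Γ) {v : ℝ × ℝ} (h : v ∈ Up G) :
    (g v.1, g v.2) ∈ Up G :=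
  let ⟨_, a, b⟩ := h
  ⟨_, sp_inv hB hg a, b.map hg⟩

lemma dn_inv (hB : G.Base) {g : ℝ ≃o ℝ} (hg : g ∈ GG G.Γ) {v : ℝ × ℝ} (h : v ∈ Dn G) :
    (g v.1, g v.2) ∈ Dn G :=
  let ⟨_, a, b⟩ := h
  ⟨_, sp_inv hB hg a, b.map hg⟩

lemma up_null (hB : G.Base) (hl : LamSt) : G.μ (G.EW (Sp G \ Up G)) = 0 := by
  refine hl G _ (sp_closed.measurableSet.diff up_open.measurableSet)
    (fun x y k h => ⟨sp_inv hB (sh_mem _ k) h.1, fun h' => h.2 ?_⟩)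
    fun x y x' y' h h' a => h.2 ⟨_, h'.1, a⟩
  simpa using up_inv hB (sh_mem _ (-k)) h'

lemma dn_null (hB : G.Base) (hl : LamSt) : G.μ (G.EW (Sp G \ Dn G)) = 0 := by
  refine hl G _ (sp_closed.measurableSet.diff dn_open.measurableSet)
    (fun x y k h => ⟨sp_inv hB (sh_mem _ k) h.1, fun h' => h.2 ?_⟩)
    fun x y x' y' h h' a => h'.2 ⟨_, h.1, a⟩
  simpa using dn_inv hB (sh_mem _ (-k)) h'

lemma oo_inv (hB : G.Base) (hm : MeasSt) {g : ℝ ≃o ℝ} (hg : g ∈ GG G.Γ) {x y : ℝ}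
    (h : (x, y) ∈ OO G) : (g x, g y) ∈ OO G :=
  ⟨⟨⟨(hm G).2.2 g hg x y h.1.1.1, sp_inv hB hg h.1.1.2⟩, up_inv hB hg h.1.2⟩, dn_inv hB hg h.2⟩

lemma oo_meas (hm : MeasSt) : MeasurableSet (OO G) :=
  (((hm G).2.1.inter sp_closed.measurableSet).inter up_open.measurableSet).inter
    dn_open.measurableSet

lemma dd_null (hB : G.Base) (hl : LamSt) (hr : RecSt) : G.μ (G.DD \ G.EW (OO G)) = 0 := by
  refine measure_mono_null ?_ (measure_union_null (measure_union_null (measure_union_null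
    (hr G).1 sp_null) (up_null hB hl)) (dn_null hB hl))
  rintro ξ ⟨h1, h2⟩
  by_contra hc
  simp only [mem_union, not_or, Set.mem_sdiff, not_and, not_not] at hc
  obtain ⟨⟨⟨a, b⟩, c⟩, d⟩ := hc
  obtain ⟨x, y, e, w⟩ := a h1
  have s : (x, y) ∈ Sp G := by_contra fun h => b ⟨x, y, h, w⟩
  exact h2 ⟨x, y, ⟨⟨⟨e, s⟩, by_contra fun h => c ⟨x, y, ⟨s, h⟩, w⟩⟩,
    by_contra fun h => d ⟨x, y, ⟨s, h⟩, w⟩⟩, w⟩

lemma pick (hB : G.Base) (hm : MeasSt) (hl : LamSt) (hr : RecSt) {v : ℝ × ℝ} (hv : v ∈ Sp G)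
    {U : Set (ℝ × ℝ)} (hU : U ∈ 𝓝 v) : G.μ (G.EW (U ∩ OO G)) ≠ 0 := fun h0 => by
  refine hv U hU (measure_mono_null ?_ (measure_union_null h0 (dd_null hB hl hr)))
  rintro ξ ⟨x, y, a, w⟩
  by_cases h : ξ ∈ G.EW (OO G)
  · obtain ⟨x', y', a', w'⟩ := h
    obtain ⟨k, rfl, rfl⟩ := hB.wu ξ x' y' x y w' w
    exact Or.inl ⟨_, _, ⟨a, oo_inv hB hm (sh_mem _ k) a'⟩, w⟩
  · exact Or.inr ⟨(hr G).2 ⟨x, y, trivial, w⟩, h⟩

lemma ew_rot (hB : G.Base) {U : Set (ℝ × ℝ)} (k : ℤ) {ξ : N} (h : ξ ∈ G.EW U) :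
    rot (k * (2 * π)) ξ ∈ G.EW U :=
  let ⟨x, y, a, w⟩ := h
  ⟨x, y, a, gg_one (k * (2 * π)) ▸ hB.wg ξ x y 1 G.Γ.one_mem 1 k lift_one w⟩

lemma wedge (hf : G.FM) {p : ℍ} {θ1 θ2 x1 y1 x2 y2 θ : ℝ} (h1 : θ1 < θ2) (h2 : θ2 < θ1 + 2 * π)
    (w1 : G.Wl (p, θ1) x1 y1) (w2 : G.Wl (p, θ2) x2 y2) (a : Ab (x1, y1) (x2, y2))
    (hθ : θ ∈ Icc θ1 θ2) : (p, θ) ∈ G.DD := by
  obtain ⟨a1, a2, a3, a4⟩ := a
  dsimp only at a1 a2 a3 a4
  refine ⟨x1, x2, y1, y2, a1.le, a2, a3.le, a4, fun l b c h => ?_, fun l b c h => ?_⟩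
  · obtain ⟨ε, hε, h3⟩ := (hf p θ1 θ2 x1 x2 h1 h2 a1 (by linarith)).2 w1.m w2.m l b c
    obtain ⟨t, h4, h5⟩ := ((h ε hε).and_eventually (eventually_le_atBot 0)).exists
    exact h3 θ hθ t h5 h4
  · obtain ⟨ε, hε, h3⟩ := (hf p θ1 θ2 y1 y2 h1 h2 a3 (by linarith)).1 w1.p w2.p l b c
    obtain ⟨t, h4, h5⟩ := ((h ε hε).and_eventually (eventually_ge_atTop 0)).exists
    exact h3 θ hθ t h5 h4

end FGen

open FGen

theorem gen (hb : BaseSt) (hs : SlSt) (hf : FmSt) (hm : MeasSt) (hw : WallSt) (hr : RecSt)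
    (hl : LamSt) (he : MeetSt) : GenSt := by
  intro G
  have hB := hb G
  refine ⟨OO G, ?_, fun g hg x y h => oo_inv hB hm hg h, fun v h => h.1.1.1, fun x y h => ?_,
    fun x y h => ?_, fun x y x' y' h h' a1 a2 a3 a4 ε hε => ?_⟩
  · by_contra hc
    refine hw G (measure_mono_null (fun ξ h => ?_) (dd_null hB hl hr))
    exact ⟨(hr G).2 h, fun h' => hc ⟨ξ, h'⟩⟩
  · obtain ⟨w, a, b⟩ := h.1.2
    obtain ⟨ξ, x', y', c, d⟩ := nonempty_of_measure_ne_zero (pick hB hm hl hr a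
      ((ab_open.preimage ((continuous_const (y := (x, y))).prodMk continuous_id)).mem_nhds b))
    exact ⟨ξ, x', y', c.2, d, c.1⟩
  · obtain ⟨w, a, b⟩ := h.2
    obtain ⟨ξ, x', y', c, d⟩ := nonempty_of_measure_ne_zero (pick hB hm hl hr a
      ((ab_open.preimage (continuous_id.prodMk (continuous_const (y := (x, y))))).mem_nhds b))
    exact ⟨ξ, x', y', c.2, d, c.1⟩
  · have h1 := ab_open.mem_nhds (show ((x, y), (x', y')) ∈ {p | Ab p.1 p.2} from ⟨a1, a2, a3, a4⟩)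
    obtain ⟨U1, U2, o1, m1, o2, m2, hU⟩ := mem_nhds_prod_iff'.1 h1
    have M : ∀ {U : Set (ℝ × ℝ)} (v : ℝ × ℝ), IsOpen U →
        MeasurableSet (G.EW (U ∩ ball v ε ∩ OO G)) := fun v o =>
      (hm G).1 _ ((o.inter isOpen_ball).measurableSet.inter (oo_meas hm))
    have F : ∀ (U : Set (ℝ × ℝ)) t ξ, ξ ∈ G.EW U → G.φ t ξ ∈ G.EW U :=
      fun U t ξ ⟨x, y, a, w⟩ => ⟨x, y, a, hB.wφ ξ x y t w⟩
    obtain ⟨p, θ1, θ, b1, b2, b3⟩ := he G _ _ _ (M (x, y) o1) (M (x', y') o2) (F _) (F _)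
      (fun k ξ h => ew_rot hB k h)
      (pick hB hm hl hr h.1.1.2 (inter_mem (o1.mem_nhds m1) (ball_mem_nhds _ hε)))
      (pick hB hm hl hr h'.1.1.2 (inter_mem (o2.mem_nhds m2) (ball_mem_nhds _ hε)))
      (dd_null hB hl hr) (by
        rintro ξ ⟨x1, y1, c1, w1⟩ η ⟨x2, y2, c2, w2⟩ hd
        have a : Ab (x1, y1) (x2, y2) := hU (mk_mem_prod c1.1.1 c2.1.1)
        obtain ⟨s, t, e⟩ := hs _ _ _ _ _ _ (hB.line _ _ _ w1) (hB.line _ _ _ w2) a.1 a.2.1 a.2.2.1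
          a.2.2.2
        exact hd s t e)
    have hp := Real.two_pi_pos
    set k := -toIcoDiv hp θ1 θ
    have hk : θ + k * (2 * π) ∈ Ico θ1 (θ1 + 2 * π) := by
      have := toIcoMod_mem_Ico hp θ1 θ
      rw [toIcoMod, zsmul_eq_mul] at this
      simpa [k, sub_eq_add_neg] using this
    obtain ⟨x1, y1, c1, w1⟩ := b1
    obtain ⟨x2, y2, c2, w2⟩ := ew_rot hB k b2
    change G.Wl (p, θ + k * (2 * π)) x2 y2 at w2
    have a : Ab (x1, y1) (x2, y2) := hU (mk_mem_prod c1.1.1 c2.1.1)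
    have hlt : θ1 < θ + k * (2 * π) := lt_of_le_of_ne hk.1 fun e => by
      rw [← e] at w2
      obtain ⟨j, e1, -⟩ := hB.wu _ _ _ _ _ w1 w2
      obtain ⟨d1, d2, d3, d4⟩ := a
      dsimp only at d1 d2 d3 d4
      have j1 : (0 : ℝ) < j := by nlinarith
      have j2 : (j : ℝ) < 1 := by nlinarith
      have j3 : 0 < j := by exact_mod_cast j1
      have j4 : j < 1 := by exact_mod_cast j2
      omega
    have n1 := mem_ball.1 c1.1.2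
    have n2 := mem_ball.1 c2.1.2
    rw [Prod.dist_eq, max_lt_iff] at n1 n2
    refine ⟨p, θ1, _, x1, y1, x2, y2, hlt, hk.2, c1.2, c2.2, w1, w2, n1.1, n1.2, n2.1, n2.2, a.1,
      a.2.1, a.2.2.1, a.2.2.2, fun s t hs hst ht => ?_⟩
    by_contra hc
    have : volume (Ioo s t) = 0 := by
      refine measure_mono_null (fun θ' h => ?_) b3
      exact ⟨wedge (hf G) hlt hk.2 w1 w2 a ⟨hs.trans h.1.le, h.2.le.trans ht⟩,
        fun h' => hc ⟨θ', h, h'⟩⟩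
    rw [Real.volume_Ioo, ENNReal.ofReal_eq_zero] at this
    linarith

end

end Pool.Agent.Lib.MP_21f752_an
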