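import Pool.Agent.Lib.MP_21f752_an.FG
import Pool.Agent.Lib.MP_21f752_an.FErg1

/-! The maximal lemma on invariant sets. -/

namespace Pool.Agent.Lib.MP_21f752_an

open Set MeasureTheory FErg

theorem mx : MaxSt := by
  intro S τ f B M hf hM hi hB hBi hφ h
  have hB' : MeasurableSet[mi S] B := ⟨hB, hBi⟩
  have hT := @MeasurePreserving.restrict_preimage N N (mi S) (mi S) _ _ _ (mp S τ) B hB'
  rw [show S.φ τ ⁻¹' B = B from Set.ext hφ] at hT
  rw [setIntegral_trim (mi_le S) (meas_mi hf hi).stronglyMeasurable hB']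
  refine garsia (m := mi S) hT (meas_mi hf hi) hM ?_
  refine (@ae_restrict_iff' N (mi S) _ _ _ hB').2 (.of_forall fun ξ hξ => ?_)
  simpa only [sm_eq] using h ξ hξ

end Pool.Agent.Lib.MP_21f752_an
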