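import Pool.Agent.Lib.MP_21f752_an.FC

/-! The mirror image of a system of walls. -/

namespace Pool.Agent.Lib.MP_21f752_an

open Set Filter Topology
open scoped Real

noncomputable section

namespace FMir

/-- conjugation by the reflection -/
def mo : (ℝ ≃o ℝ) →* (ℝ ≃o ℝ) where
  toFun g :=
    { toFun := fun t => -g (-t)
      invFun := fun t => -g.symm (-t)
      left_inv := fun t => by simp
      right_inv := fun t => by simp
      map_rel_iff' := by simp }
  map_one' := by ext t; simp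
  map_mul' g h := by ext t; simp

@[simp] lemma mo_ap (g : ℝ ≃o ℝ) (t : ℝ) : mo g t = -g (-t) := rfl

@[simp] lemma mo_mo (g : ℝ ≃o ℝ) : mo (mo g) = g := by ext t; simp

lemma mo_mem {G : Subgroup (ℝ ≃o ℝ)} {g : ℝ ≃o ℝ} (h : g ∈ G) : mo g ∈ G.comap mo := by
  simpa using h

lemma mo_ne {g : ℝ ≃o ℝ} (h : g ≠ 1) : mo g ≠ 1 := fun e => h (by rw [← mo_mo g, e, map_one])

def Per (g : ℝ ≃o ℝ) : Prop := ∀ t, g (t + 2 * π) = g t + 2 * π

lemma Per.sub {g : ℝ ≃o ℝ} (h : Per g) (t : ℝ) : g (t - 2 * π) = g t - 2 * π := by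
  have := h (t - 2 * π)
  rw [sub_add_cancel] at this
  linarith

lemma Per.mo {g : ℝ ≃o ℝ} (h : Per g) : Per (mo g) := fun t => by
  rw [mo_ap, mo_ap, neg_add', h.sub]; ring

lemma Per.ref {g : ℝ ≃o ℝ} (h : Per g) (t : ℝ) : FMir.mo g (2 * π - t) = 2 * π - g t := by
  rw [mo_ap, neg_sub, h.sub]; ring

lemma ctr_mo {g : ℝ ≃o ℝ} {r a ε : ℝ} (h : Ctr g r a ε) : Ctr (mo g) (-r - 2 * π) (-a) ε := by
  intro t a1 a2
  have := h (-t) (by linarith) (by linarith)
  rwa [mo_ap, ← abs_neg, show -(-g (-t) - -a) = g (-t) - a by ring]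

lemma ctr_up {g : ℝ ≃o ℝ} (p : Per g) {r a ε : ℝ} (h : Ctr g r a ε) :
    Ctr g (r + 2 * π) (a + 2 * π) ε := by
  intro t a1 a2
  have := h (t - 2 * π) (by linarith) (by linarith)
  rwa [p.sub, show g t - 2 * π - a = g t - (a + 2 * π) by ring] at this

lemma hyp_mo {g : ℝ ≃o ℝ} (p : Per g) {u v : ℝ} (h : Hyp g u v) :
    Hyp (mo g) (-u) (2 * π - v) := by
  refine ⟨by linarith [h.lt2], by linarith [h.lt], by simp [h.fu], by rw [p.ref, h.fv],
    fun t a b => ?_, fun t a b => ?_⟩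
  · have := h.dn (2 * π - t) (by linarith) (by linarith)
    have e := p.ref (2 * π - t)
    rw [sub_sub_cancel] at e
    linarith
  · have := h.up (2 * π - t) (by linarith) (by linarith)
    have e := p.ref (2 * π - t)
    rw [sub_sub_cancel] at e
    linarith

lemma hyp_dn {g : ℝ ≃o ℝ} (p : Per g) {u v : ℝ} (h : Hyp g u v) :
    Hyp g (u - 2 * π) (v - 2 * π) := by
  refine ⟨by linarith [h.lt], by linarith [h.lt2], by rw [p.sub, h.fu], by rw [p.sub, h.fv],
    fun t a b => ?_, fun t a b => ?_⟩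
  · have := h.up (t + 2 * π) (by linarith) (by linarith)
    rw [p] at this
    linarith
  · have := h.dn (t + 2 * π) (by linarith) (by linarith)
    rw [p] at this
    linarith

lemma per' {G : Subgroup (ℝ ≃o ℝ)} (c : CG G) {g : ℝ ≃o ℝ} (h : g ∈ G.comap mo) : Per g := by
  have := Per.mo (c.per _ h)
  rwa [mo_mo] at this

lemma cg_mo {G : Subgroup (ℝ ≃o ℝ)} (c : CG G) : CG (G.comap mo) where
  per g h := per' c h
  sh := by
    obtain ⟨T, m, e⟩ := c.sh
    refine ⟨mo T⁻¹, mo_mem (inv_mem m), fun t => ?_⟩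
    have : T⁻¹ (-t) = -t - 2 * π := by
      apply T.injective
      rw [e (-t - 2 * π), sub_add_cancel]
      exact T.apply_symm_apply _
    rw [mo_ap, this]; ring
  cd g m := by
    obtain ⟨φ, h, k, a, b, d, e⟩ := c.cd (fun n => mo (g n)) m
    refine ⟨φ, fun n => mo (h n), fun n => -k n, a, fun n => mo_mem (b n), fun n t => ?_, ?_⟩
    · rw [mo_ap, d]; simp; ring
    · rcases e with e | ⟨r, a, e⟩
      · exact Or.inl fun n => by simp only [e n]
      · exact Or.inr ⟨_, _, fun ε h => (e ε h).mono fun n => ctr_mo⟩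
  coc := by
    obtain ⟨e, e0, h⟩ := c.coc
    refine ⟨e, e0, fun x y z a b d => ?_⟩
    obtain ⟨g, m, h1, h2, h3⟩ := h (-z) (-y) (-x) (by linarith) (by linarith) (by linarith)
    exact ⟨mo g, mo_mem m, by simp only [mo_ap]; linarith, by simp only [mo_ap]; linarith,
      by simp only [mo_ap]; linarith⟩
  hy g m x a b := by
    obtain ⟨u, v, h, e⟩ := c.hy (mo g) m (-x) (by simp [a]) (mo_ne b)
    have h' := hyp_mo (c.per _ m) h
    rw [mo_mo] at h'
    rcases e with e | e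
    · exact ⟨_, _, h', Or.inl (by linarith)⟩
    · exact ⟨_, _, hyp_dn (per' c m) h', Or.inr (by linarith)⟩
  ax g m h m' x y a b d e f := by
    have := c.ax (mo g) m (mo h) m' (-x) (-y) (mo_ne a) (mo_ne b) (by simp [d]) (by simp [e])
      (by simp [f])
    simpa using this

lemma near {g : ℝ ≃o ℝ} (p : Per g) {x y ε : ℝ} (a : |g x - x| < ε) (b : |g y - y| < ε) :
    |mo g (-x) - -x| < ε ∧ |mo g (2 * π - y) - (2 * π - y)| < ε := by
  rw [p.ref, mo_ap, neg_neg, show -g x - -x = -(g x - x) by ring,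
    show 2 * π - g y - (2 * π - y) = -(g y - y) by ring, abs_neg, abs_neg]
  exact ⟨a, b⟩

end FMir

open FMir

/-- the mirror image -/
def CW.mir (C : CW) : CW where
  W := C.W
  x w := -C.x w
  y w := 2 * π - C.y w
  G := C.G.comap mo
  cg := cg_mo C.cg
  ne := C.ne
  lt w := by linarith [C.lt2 w]
  lt2 w := by linarith [C.lt w]
  act g m w := by
    obtain ⟨w', a, b⟩ := C.act (mo g) m w
    refine ⟨w', by simp [a], ?_⟩
    have := Per.ref (C.cg.per _ m) (C.y w)
    rw [mo_mo] at this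
    rw [this, b]
  recP w ε h := by
    obtain ⟨g, m, a, b, c⟩ := C.recP w ε h
    obtain ⟨a, b⟩ := near (C.cg.per _ (inv_mem m)) a b
    rw [map_inv] at a b
    refine ⟨mo g, mo_mem m, a, b, ?_⟩
    have := ctr_up (Per.mo (C.cg.per _ m)) (ctr_mo c)
    rwa [sub_add_cancel, neg_add_eq_sub] at this
  recM w ε h := by
    obtain ⟨g, m, a, b, c⟩ := C.recM w ε h
    obtain ⟨a, b⟩ := near (C.cg.per _ (inv_mem m)) a b
    rw [map_inv] at a b
    refine ⟨mo g, mo_mem m, a, b, ?_⟩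
    have := ctr_mo c
    rwa [show -(C.y w - 2 * π) - 2 * π = 2 * π - C.y w - 2 * π by ring] at this
  up w := by
    obtain ⟨w', a, b, c, d⟩ := C.dn w
    exact ⟨w', by linarith, by linarith, by linarith, by linarith⟩
  dn w := by
    obtain ⟨w', a, b, c, d⟩ := C.up w
    exact ⟨w', by linarith, by linarith, by linarith, by linarith⟩

namespace FMir

variable {C : CW}

@[simp] lemma mx (w : C.W) : C.mir.x w = -C.x w := rfl

@[simp] lemma my (w : C.W) : C.mir.y w = 2 * π - C.y w := rfl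

lemma mG {g : ℝ ≃o ℝ} : g ∈ C.mir.G ↔ mo g ∈ C.G := Iff.rfl

lemma ex_up (w : C.W) : ∃ w', C.x w' = C.x w + 2 * π ∧ C.y w' = C.y w + 2 * π := by
  obtain ⟨T, m, e⟩ := C.cg.sh
  simpa only [e] using C.act T m w

lemma ex_dn (w : C.W) : ∃ w', C.x w' = C.x w - 2 * π ∧ C.y w' = C.y w - 2 * π := by
  obtain ⟨w', a, b⟩ := ex_up (C := C.mir) w
  rw [mx, mx] at a
  rw [my, my] at b
  exact ⟨w', by linarith, by linarith⟩

lemma lk {w w' : C.W} : C.mir.Lk w w' ↔ C.Lk w' w := by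
  simp only [CW.Lk, mx, my]
  constructor <;> rintro ⟨a, b, c, d⟩ <;>
    exact ⟨by linarith, by linarith, by linarith, by linarith⟩

lemma rel {w w' : C.W} : C.mir.Rel w w' ↔ C.Rel w' w := by
  simp only [CW.Rel, lk, mx, my]
  refine or_congr Iff.rfl (exists_congr fun j => ?_)
  constructor <;> rintro ⟨a, b⟩ <;> exact ⟨by linarith, by linarith⟩

lemma eqv {ι : Type} {r s : ι → ι → Prop} (h : ∀ a b, r a b → s b a) {a b : ι}
    (e : Relation.EqvGen r a b) : Relation.EqvGen s a b := by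
  induction e with
  | rel a b e => exact .symm _ _ (.rel _ _ (h _ _ e))
  | refl a => exact .refl _
  | symm a b _ e => exact .symm _ _ e
  | trans a b c _ _ e f => exact .trans _ _ _ e f

lemma mK {k w : C.W} : w ∈ CW.K (C := C.mir) k ↔ w ∈ CW.K k :=
  ⟨eqv fun _ _ => rel.1, eqv fun _ _ => rel.2⟩

lemma K_eq (k : C.W) : CW.K (C := C.mir) k = CW.K k := Set.ext fun _ => mK

lemma en {k : C.W} {t : ℝ} : t ∈ CW.En (C := C.mir) k ↔ -t ∈ CW.En k := by
  constructor
  · rintro ⟨w, m, e | e⟩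
    · exact ⟨w, mK.1 m, Or.inl (by rw [e, mx, neg_neg])⟩
    · obtain ⟨w', a, b⟩ := ex_dn (C := C) w
      exact ⟨w', .trans _ _ _ (mK.1 m) (.rel _ _ (Or.inr ⟨-1, by rw [a]; push_cast; ring,
        by rw [b]; push_cast; ring⟩)), Or.inr (by rw [e, my, b]; ring)⟩
  · rintro ⟨w, m, e | e⟩
    · exact ⟨w, mK.2 m, Or.inl (by rw [mx, ← e, neg_neg])⟩
    · obtain ⟨w', a, b⟩ := ex_up (C := C) w
      exact ⟨w', mK.2 (.trans _ _ _ m (.rel _ _ (Or.inr ⟨1, by rw [a]; push_cast; ring,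
        by rw [b]; push_cast; ring⟩))), Or.inr (by rw [my, b, ← e]; ring)⟩

lemma lam {k : C.W} {t : ℝ} : t ∈ CW.Lam (C := C.mir) k ↔ -t ∈ CW.Lam k := by
  have : CW.En (C := C.mir) k = Homeomorph.neg ℝ ⁻¹' CW.En k := Set.ext fun _ => en
  rw [CW.Lam, this, ← Homeomorph.preimage_closure]
  rfl

lemma gap {k : C.W} {u v : ℝ} : CW.Gap (C := C.mir) k u v ↔ CW.Gap k (-v) (-u) := by
  simp only [CW.Gap, lam]
  constructor <;> rintro ⟨a, b, c, d⟩
  · exact ⟨by linarith, c, b, fun t e f => by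
      simpa using d (-t) (by linarith) (by linarith)⟩
  · exact ⟨by linarith, c, b, fun t e f => d _ (by linarith) (by linarith)⟩

lemma stab {k : C.W} {g : ℝ ≃o ℝ} : CW.Stab (C := C.mir) k g ↔ CW.Stab k (mo g) := by
  refine and_congr_right fun m => forall₂_congr fun w w' => ?_
  have := Per.ref (C.cg.per _ m) (C.y w)
  rw [mo_mo] at this
  rw [K_eq, mx, mx, my, my, this, mo_ap, neg_eq_iff_eq_neg, sub_right_inj]
  rfl

lemma ab1 (a b : ℝ) : |-a - b| = |a - -b| := by rw [← abs_neg]; congr 1; ring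

lemma ab2 (a b : ℝ) : |2 * π - a - b| = |a - (2 * π - b)| := by rw [← abs_neg]; congr 1; ring

lemma xi {k : C.W} {p t : ℝ} : t ∈ CW.Xi (C := C.mir) k p ↔ 2 * π - t ∈ CW.Xi k (-p) := by
  simp only [CW.Xi, mem_ofPred, mx, my, ab1, ab2]
  rw [K_eq]
  rfl

lemma lam_up {k : C.W} {t : ℝ} : t + 2 * π ∈ CW.Lam k ↔ t ∈ CW.Lam k := by
  have : CW.En k = Homeomorph.addRight (2 * π) ⁻¹' CW.En k := by
    ext t
    constructor
    · rintro ⟨w, m, e⟩
      obtain ⟨w', a, b⟩ := ex_up (C := C) w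
      refine ⟨w', .trans _ _ _ m (.rel _ _ (Or.inr ⟨1, by rw [a]; push_cast; ring,
        by rw [b]; push_cast; ring⟩)), ?_⟩
      rw [a, b]
      simpa using e
    · rintro ⟨w, m, e⟩
      obtain ⟨w', a, b⟩ := ex_dn (C := C) w
      refine ⟨w', .trans _ _ _ m (.rel _ _ (Or.inr ⟨-1, by rw [a]; push_cast; ring,
        by rw [b]; push_cast; ring⟩)), ?_⟩
      rw [a, b]
      simpa [eq_sub_iff_add_eq] using e
  conv_rhs => rw [CW.Lam, this, ← Homeomorph.preimage_closure]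
  rfl

lemma gap_up {k : C.W} {u v : ℝ} : CW.Gap k (u + 2 * π) (v + 2 * π) ↔ CW.Gap k u v := by
  simp only [CW.Gap, lam_up]
  constructor <;> rintro ⟨a, b, c, d⟩
  · exact ⟨by linarith, b, c, fun t e f m => d _ (by linarith) (by linarith) (lam_up.2 m)⟩
  · exact ⟨by linarith, b, c, fun t e f m => d (t - 2 * π) (by linarith) (by linarith)
      (lam_up.1 (by rwa [sub_add_cancel]))⟩

lemma gap' {k : C.W} {u v : ℝ} :
    CW.Gap (C := C.mir) k u v ↔ CW.Gap k (2 * π - v) (2 * π - u) := by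
  rw [gap, ← gap_up, neg_add_eq_sub, neg_add_eq_sub]

lemma lam' {k : C.W} {t : ℝ} : t ∈ CW.Lam (C := C.mir) k ↔ 2 * π - t ∈ CW.Lam k := by
  rw [lam, ← lam_up, neg_add_eq_sub]

lemma node {k : C.W} {s : Bool} {p q : ℝ} :
    CW.Node (C := C.mir) k s p q ↔ CW.Node k (!s) (-p) (2 * π - q) := by
  have a : CW.Gap (C := C.mir) k q (p + 2 * π) ↔ CW.Gap k (-p) (2 * π - q) := by
    rw [gap', show 2 * π - (p + 2 * π) = -p by ring]
  have b : CW.Gap (C := C.mir) k p q ↔ CW.Gap k (2 * π - q) (-p + 2 * π) := by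
    rw [gap', neg_add_eq_sub]
  cases s
  · exact ⟨fun h => ⟨b.1 h.1, xi.1 h.2⟩, fun h => ⟨b.2 h.1, xi.2 h.2⟩⟩
  · exact ⟨fun h => ⟨a.1 h.1, xi.1 h.2⟩, fun h => ⟨a.2 h.1, xi.2 h.2⟩⟩

/-- the mirror image of a node -/
def mn (a : Bool × ℝ × ℝ) : Bool × ℝ × ℝ := (!a.1, -a.2.1, 2 * π - a.2.2)

lemma edge {k : C.W} {a b : Bool × ℝ × ℝ} (h : CW.Edge (C := C.mir) k a b) :
    CW.Edge k (mn a) (mn b) := by
  refine ⟨node.1 h.src, node.1 h.tgt, by simp only [mn]; linarith [h.hi],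
    by simp only [mn]; linarith [h.lo], fun e => h.ne (by simp only [mn] at e; linarith),
    xi.1 h.xi, fun e => ?_⟩
  obtain ⟨A, B⟩ := h.mix fun f => e (by simp only [mn, f])
  refine ⟨fun ε e0 => ?_, fun ε e0 => ?_⟩
  · have := A ε e0
    simp only [mx, my, ab1, ab2] at this
    rw [K_eq] at this
    exact this
  · obtain ⟨t, m, n, c⟩ := B ε e0
    refine ⟨2 * π - t, xi.1 m, fun f => n (by simp only [mn] at f; linarith), ?_⟩
    simp only [mn]
    rwa [ab2, sub_sub_cancel]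

lemma sh {l : ℝ} (h : C.mir.Sh l) : C.Sh (-l) := by
  obtain ⟨m, r, h⟩ := h
  obtain ⟨m', a, b⟩ := ex_dn (C := C) m
  refine ⟨m', -r - 2 * π, ?_⟩
  simp only [mx, my] at h
  rcases h with ⟨c, d, e⟩ | ⟨c, d, e⟩
  · refine Or.inr ⟨by linarith, by linarith, fun ε e0 => ?_⟩
    obtain ⟨g, gm, e1, e2, e3⟩ := e ε e0
    refine ⟨mo g, gm, ctr_mo e1, ?_, ?_⟩
    · rw [mo_ap, b, neg_sub]; linarith
    · rw [mo_ap, a, sub_add_cancel]; linarith
  · refine Or.inl ⟨by linarith, by linarith, fun ε e0 => ?_⟩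
    obtain ⟨g, gm, e1, e2, e3⟩ := e ε e0
    refine ⟨mo g, gm, ctr_mo e1, ?_, ?_⟩
    · rw [mo_ap, a, neg_sub, ← neg_add_eq_sub]; linarith
    · rw [mo_ap, b, neg_sub]; linarith

lemma covR {U u v V : ℝ} : C.mir.CovR U u v V ↔
    C.CovL (2 * π - V) (2 * π - v) (2 * π - u) (2 * π - U) := by
  simp only [CW.CovR, CW.CovL, mx, my]
  constructor <;> intro h l a b <;>
    obtain ⟨w, c, d, e, f⟩ := h (2 * π - l) (by linarith) (by linarith) <;>
    exact ⟨w, by linarith, by linarith, by linarith, by linarith⟩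

lemma covL {U u v V : ℝ} : C.mir.CovL V v u U ↔
    C.CovR (2 * π - U) (2 * π - u) (2 * π - v) (2 * π - V) := by
  simp only [CW.CovR, CW.CovL, mx, my]
  constructor <;> intro h l a b <;>
    obtain ⟨w, c, d, e, f⟩ := h (2 * π - l) (by linarith) (by linarith) <;>
    exact ⟨w, by linarith, by linarith, by linarith, by linarith⟩

lemma nr2 (C : CS) (w : C.W) (l e : ℝ) : C.nr w (2 * π - l) e ↔ C.nr w (-l) e := by
  rw [← C.per w (-l) e 1]; simp [neg_add_eq_sub]

end FMir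

/-- the mirror image -/
def CS.mir (C : CS) : CS where
  toCW := C.toCW.mir
  nr w l e := C.nr w (-l) e
  mono w l l' e h := by
    have := C.mono w (-l) (-l') e h
    rwa [neg_sub_neg, abs_sub_comm] at this
  mono' w l := C.mono' w (-l)
  per w l e j := by
    rw [← C.per w (-l) e (-j)]; simp [add_comm]
  shift w j := by
    obtain ⟨w', a, b, c⟩ := C.shift w (-j)
    exact ⟨w', by rw [mx, mx, a]; push_cast; ring, by rw [my, my, b]; push_cast; ring,
      fun l e => c _ _⟩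
  avR m l a b := by
    rw [mx] at a
    rw [my] at b
    obtain ⟨e, e0, h⟩ := C.avL m (2 * π - l) (by linarith) (by linarith)
    refine ⟨e, e0, fun g c d => ?_⟩
    simp only [mx, my] at c d
    rw [← nr2]
    exact h g (by linarith) (by linarith)
  avL m l a b := by
    rw [my] at a
    rw [mx] at b
    obtain ⟨e, e0, h⟩ := C.avR m (2 * π - l) (by linarith) (by linarith)
    refine ⟨e, e0, fun g c d => ?_⟩
    simp only [mx, my] at c d
    rw [← nr2]
    exact h g (by linarith) (by linarith)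
  tipL μ l a b := by
    obtain ⟨e0, p0, h⟩ := C.tipR (2 * π - μ) (2 * π - l) (by linarith) (by linarith)
    refine ⟨e0, p0, fun e e1 e2 g c => ?_⟩
    rw [mx] at c
    obtain ⟨δ, d0, h⟩ := h e e1 e2 g (by linarith)
    refine ⟨δ, d0, fun f f1 f2 f3 => ?_⟩
    simp only [mx, my] at f1 f2 f3
    simpa only [nr2] using h f (by linarith) (by linarith) (by linarith)
  tipR μ l a b := by
    obtain ⟨e0, p0, h⟩ := C.tipL (2 * π - μ) (2 * π - l) (by linarith) (by linarith)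
    refine ⟨e0, p0, fun e e1 e2 g c => ?_⟩
    rw [mx] at c
    obtain ⟨δ, d0, h⟩ := h e e1 e2 g (by linarith)
    refine ⟨δ, d0, fun f f1 f2 f3 => ?_⟩
    simp only [mx, my] at f1 f2 f3
    simpa only [nr2] using h f (by linarith) (by linarith) (by linarith)
  v1 l a b s h := by
    obtain ⟨ε, e0, h⟩ := C.v1 (-l) (-a) (2 * π - b) (sh s) fun j =>
      ⟨fun e => (h (-j)).1 (by push_cast; linarith),
        fun e => (h (-j - 1)).2 (by push_cast; linarith)⟩
    exact ⟨ε, e0, fun w => by simpa only [mx, my, ab1, ab2] using h w⟩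
  fan w1 w2 l ε e0 := by
    obtain ⟨k1, k2, F, m1, m2, a1, a2, a3, a4, h, H⟩ := C.fan w2 w1 (lk.1 l) ε e0
    refine ⟨k2, k1, F, m2, m1, ?_, ?_, ?_, ?_, fun f m => ?_, fun m e b1 b2 p0 b => ?_⟩
    · simpa only [mx, ab1, neg_neg] using a3
    · simpa only [my, ab2, sub_sub_cancel] using a4
    · simpa only [mx, ab1, neg_neg] using a1
    · simpa only [my, ab2, sub_sub_cancel] using a2
    · obtain ⟨c1, c2, c3, c4⟩ := h f m
      simp only [mx, my]
      exact ⟨by linarith, by linarith, by linarith, by linarith⟩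
    · simp only [my, ab2] at b1 b2 b
      obtain ⟨a, b, ω, ξ1, ξ2, c1, c2, c3, c4, d1, d2, d3⟩ :=
        H (2 * π - m) e (by linarith) (by linarith) p0 b
      refine ⟨2 * π - b, 2 * π - a, 2 * π - ω, -ξ2, -ξ1, by linarith, by linarith, by linarith,
        by linarith, fun δ d0 => ?_, fun δ d0 => ?_, fun f1 f2 => ?_⟩
      · simp only [mx, my, ab1, ab2, neg_neg, sub_sub_cancel, sub_le_sub_iff_left, ← nr2]
        exact d2 δ d0
      · simp only [mx, my, ab1, ab2, neg_neg, sub_sub_cancel, sub_le_sub_iff_left, ← nr2]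
        exact d1 δ d0
      · obtain ⟨d, dm, u, g1, g2, g3⟩ := d3 (by linarith) (by linarith)
        exact ⟨mo d, mo_mem dm, -u, hyp_mo (C.cg.per _ dm) g1, by linarith, by linarith⟩

namespace FMir

lemma mcw (C : CS) : C.mir.toCW = C.toCW.mir := rfl

lemma fing {C : CS} {F : Set C.W} {ξ b μ : ℝ} :
    C.mir.Fing F ξ b μ ↔ C.Fing F (-ξ) (2 * π - b) (2 * π - μ) := by
  simp only [CS.Fing, nr2, ← ab1, ← ab2]
  rfl

end FMir

end

end Pool.Agent.Lib.MP_21f752_an
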