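import Pool.Agent.Lib.MP_21f752_an.FA

/-! The potential of an invariant Lipschitz field. -/

namespace Pool.Agent.Lib.MP_21f752_an

open UpperHalfPlane Set Filter Topology Metric MeasureTheory Asymptotics
open scoped MatrixGroups ContDiff Real ComplexConjugate

noncomputable section

namespace FPri

/-- a continuous locally exact form on a convex open set is exact -/
lemma glob {U : Set ℂ} (hU : IsOpen U) (hc : Convex ℝ U) {p : ℂ} (hp : p ∈ U)
    {om : ℂ → ℂ →L[ℝ] ℝ} (hom : ContinuousOn om U)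
    (hl : ∀ z ∈ U, ∃ v : ℂ → ℝ, ∀ᶠ w in 𝓝 z, HasFDerivAt v (om w) w) :
    ∃ u : ℂ → ℝ, ∀ z ∈ U, HasFDerivAt u (om z) z := by
  set x : ℝ → ℂ → ℂ := fun s q => p + s • (q - p) with hx
  set g : ℝ → ℂ → ℝ := fun s q => ∫ r in (0 : ℝ)..s, om (x r q) (q - p) with hg
  have xU : ∀ q ∈ U, ∀ s ∈ Icc (0 : ℝ) 1, x s q ∈ U := fun q hq s hs =>
    hc.add_smul_sub_mem hp hq hs
  have ci : ∀ q ∈ U, ContinuousOn (fun r => om (x r q) (q - p)) (Icc 0 1) := fun q hq =>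
    (hom.comp (by fun_prop) (xU q hq)).clm_apply continuousOn_const
  have dx : ∀ s q, HasFDerivAt (x s) (s • ContinuousLinearMap.id ℝ ℂ) q := fun s q =>
    (((hasFDerivAt_id q).sub_const p).const_smul s).const_add p
  refine ⟨g 1, fun q₀ hq₀ => ?_⟩
  have key : HasFDerivAt (g 0) ((0 : ℝ) • om (x 0 q₀)) q₀ → HasFDerivAt (g 1) ((1 : ℝ) • om (x 1 q₀)) q₀ := by
    refine isPreconnected_Icc.induction₂' (s := Icc (0 : ℝ) 1)
      (fun s s' => HasFDerivAt (g s) (s • om (x s q₀)) q₀ → HasFDerivAt (g s') (s' • om (x s' q₀)) q₀)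
      (fun s₀ hs₀ => ?_) (fun _ _ _ _ _ _ a b h => b (a h)) (by simp) (by simp)
    obtain ⟨v, hv⟩ := hl _ (xU q₀ hq₀ s₀ hs₀)
    obtain ⟨ε, ε0, hε⟩ := Metric.eventually_nhds_iff_ball.1 hv
    have t1 : ∀ᶠ s in 𝓝 s₀, x s q₀ ∈ ball (x s₀ q₀) ε :=
      (by fun_prop : Continuous fun s => x s q₀).continuousAt.eventually (ball_mem_nhds _ ε0)
    filter_upwards [self_mem_nhdsWithin, mem_nhdsWithin_of_mem_nhds t1] with s hs hb
    have near : ∀ r, x r q₀ ∈ ball (x s₀ q₀) ε → ∀ᶠ q in 𝓝 q₀, x r q ∈ ball (x s₀ q₀) ε :=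
      fun r h => (dx r q₀).continuousAt.eventually (isOpen_ball.mem_nhds h)
    have e : (fun q => g s q - g s₀ q) =ᶠ[𝓝 q₀] fun q => v (x s q) - v (x s₀ q) := by
      filter_upwards [near s hb, near s₀ (mem_ball_self ε0), hU.mem_nhds hq₀] with q h1 h2 hq
      have sub : uIcc s₀ s ⊆ Icc 0 1 := uIcc_subset_Icc hs₀ hs
      have i : ∀ a ∈ Icc (0 : ℝ) 1, ∀ b ∈ Icc (0 : ℝ) 1,
          IntervalIntegrable (fun r => om (x r q) (q - p)) volume a b := fun a ha b hb =>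
        ((ci q hq).mono (uIcc_subset_Icc ha hb)).intervalIntegrable
      simp only [hg]
      rw [intervalIntegral.integral_interval_sub_left (i 0 (by simp) s hs) (i 0 (by simp) s₀ hs₀)]
      refine intervalIntegral.integral_eq_sub_of_hasDerivAt (f := fun r => v (x r q))
        (fun r hr => ?_) (i _ hs₀ _ hs)
      have m : x r q ∈ ball (x s₀ q₀) ε := by
        have cv : Convex ℝ ((AffineMap.lineMap p q : ℝ →ᵃ[ℝ] ℂ) ⁻¹' ball (x s₀ q₀) ε) :=
          (convex_ball _ _).affine_preimage _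
        have l : ∀ r, (AffineMap.lineMap p q : ℝ →ᵃ[ℝ] ℂ) r = x r q := fun r => by
          simp [hx, AffineMap.lineMap_apply, add_comm]
        rw [← l]
        exact cv.ordConnected.uIcc_subset (by rwa [mem_preimage, l]) (by rwa [mem_preimage, l]) hr
      have d : HasDerivAt (fun r => x r q) (q - p) r := by
        exact (((hasDerivAt_id r).smul_const (q - p)).const_add p).congr_deriv (one_smul _ _)
      exact (hε _ m).comp_hasDerivAt r d
    have d1 : HasFDerivAt (fun q => v (x s q)) (s • om (x s q₀)) q₀ :=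
      ((hε _ hb).comp q₀ (dx s q₀)).congr_fderiv (by ext d; simp)
    have d2 : HasFDerivAt (fun q => v (x s₀ q)) (s₀ • om (x s₀ q₀)) q₀ :=
      ((hε _ (mem_ball_self ε0)).comp q₀ (dx s₀ q₀)).congr_fderiv (by ext d; simp)
    have d3 := (d1.sub d2).congr_of_eventuallyEq e
    constructor
    · intro h
      simpa using d3.fun_add h
    · intro h
      simpa using h.fun_sub d3
  have z : g 0 = fun _ => 0 := by
    funext q
    simp [hg]
  have := key (by rw [z, zero_smul]; exact hasFDerivAt_const _ _)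
  simpa [hx] using this

/-- the local primitive in a flow box -/
lemma loc {Φ : ℝ × (ℂ × ℝ) → ℂ × ℝ} {A : ℝ × (ℂ × ℝ) → ℝ} {l : ℂ × ℝ → ℂ →L[ℝ] ℝ} {a : ℂ → ℝ}
    {z₀ V : ℂ} (hV : V ≠ 0) {U : Set ℂ} (hU : IsOpen U) (hz : z₀ ∈ U)
    (hΦ : ∀ p : ℝ × (ℂ × ℝ), p.2.1 ∈ U → ContDiffAt ℝ 1 Φ p)
    (h0 : Φ (0, (z₀, a z₀)) = (z₀, a z₀))
    (hD : ∀ d, (fderiv ℝ Φ (0, (z₀, a z₀)) d).1 = d.1 • V + d.2.1)
    (hA : ∀ p : ℝ × (ℂ × ℝ), p.2.1 ∈ U → ∃ D : ℝ × (ℂ × ℝ) →L[ℝ] ℝ, HasFDerivAt A D p ∧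
      ∀ d, D d = l (Φ p) (fderiv ℝ Φ p d).1 - l p.2 d.2.1)
    (hi : ∀ t, ∀ z ∈ U, a (Φ (t, (z, a z))).1 = (Φ (t, (z, a z))).2)
    {K : ℝ} (hK : 0 ≤ K) (ha : ∀ᶠ w : ℂ × ℂ in 𝓝 (z₀, z₀), |a w.1 - a w.2| ≤ K * ‖w.1 - w.2‖)
    (hom : ContinuousOn (fun z => l (z, a z)) U) :
    ∃ v : ℂ → ℝ, ∀ᶠ w in 𝓝 z₀, HasFDerivAt v (l (w, a w)) w := by
  set n := Complex.I * V with hn
  set σ : ℂ → ℂ := fun y => z₀ + (y / V).im • n with hσ
  set κ : ℂ → ℝ × (ℂ × ℝ) := fun y => ((y / V).re, (σ y, a (σ y))) with hκ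
  set F : ℂ → ℂ := fun y => (Φ (κ y)).1 with hF
  have σc : Continuous σ := by fun_prop
  have σ0 : σ 0 = z₀ := by simp [hσ]
  have κ0 : κ 0 = (0, (z₀, a z₀)) := by simp [hκ, σ0]
  have Vp : 0 < ‖V‖ := norm_pos_iff.2 hV
  have σl : ∀ y y', ‖σ y - σ y'‖ ≤ ‖y - y'‖ := fun y y' => by
    have : σ y - σ y' = ((y - y') / V).im • n := by
      simp only [hσ, sub_div, Complex.sub_im, sub_smul]
      ring
    rw [this, norm_smul, hn, norm_mul, Complex.norm_I, one_mul, ← le_div_iff₀ Vp, ← norm_div]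
    exact Complex.abs_im_le_norm _
  set M := ‖V‖⁻¹ + 1 + K with hM
  have M0 : 0 < M := by positivity
  have κl : ∀ᶠ y : ℂ × ℂ in 𝓝 (0, 0), ‖κ y.1 - κ y.2‖ ≤ M * ‖y.1 - y.2‖ := by
    have t : Tendsto (fun y : ℂ × ℂ => (σ y.1, σ y.2)) (𝓝 (0, 0)) (𝓝 (z₀, z₀)) := by
      have : Continuous fun y : ℂ × ℂ => (σ y.1, σ y.2) := by fun_prop
      simpa [σ0] using this.tendsto (0, 0)
    filter_upwards [t.eventually ha] with y hy
    have n0 := norm_nonneg (y.1 - y.2)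
    have b1 : |(y.1 / V).re - (y.2 / V).re| ≤ ‖V‖⁻¹ * ‖y.1 - y.2‖ := by
      rw [← Complex.sub_re, ← sub_div, ← div_eq_inv_mul, ← norm_div]
      exact Complex.abs_re_le_norm _
    have b2 := σl y.1 y.2
    have b3 := hy.trans (mul_le_mul_of_nonneg_left b2 hK)
    have b4 : 0 ≤ ‖V‖⁻¹ * ‖y.1 - y.2‖ := by positivity
    have b5 : 0 ≤ K * ‖y.1 - y.2‖ := by positivity
    simp only [hκ, Prod.mk_sub_mk, Prod.norm_mk, Real.norm_eq_abs, max_le_iff, hM]
    refine ⟨?_, ?_, ?_⟩ <;> nlinarith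
  have κt : Tendsto κ (𝓝 0) (𝓝 (κ 0)) := by
    rw [tendsto_iff_norm_sub_tendsto_zero]
    refine squeeze_zero' (.of_forall fun _ => norm_nonneg _)
      ((by fun_prop : Continuous fun y : ℂ => (y, (0 : ℂ))).continuousAt.eventually κl) ?_
    have : Continuous fun y : ℂ => M * ‖y - 0‖ := by fun_prop
    simpa using this.tendsto 0
  have ap : ∀ᶠ y : ℂ × ℂ in 𝓝 (0, 0), ‖F y.1 - F y.2 - (y.1 - y.2)‖ ≤ 1 / 2 * ‖y.1 - y.2‖ := by
    have s := ((hΦ (0, (z₀, a z₀)) hz).hasStrictFDerivAt one_ne_zero).isLittleO.def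
      (c := 1 / (2 * M)) (by positivity)
    have t : Tendsto (fun y : ℂ × ℂ => (κ y.1, κ y.2)) (𝓝 (0, 0))
        (𝓝 ((0, (z₀, a z₀)), (0, (z₀, a z₀)))) := by
      rw [← κ0]
      exact (κt.comp (continuous_fst.tendsto (0, 0))).prodMk_nhds
        (κt.comp (continuous_snd.tendsto (0, 0)))
    filter_upwards [t.eventually s, κl] with y h1 h2
    have e : F y.1 - F y.2 - (y.1 - y.2) =
        (Φ (κ y.1) - Φ (κ y.2) - fderiv ℝ Φ (0, (z₀, a z₀)) (κ y.1 - κ y.2)).1 := by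
      rw [Prod.fst_sub, Prod.fst_sub, hD]
      congr 1
      have : y.1 - y.2 = (y.1 - y.2) / V * V := by field_simp
      refine this.trans ((clm_lin (ContinuousLinearMap.id ℝ ℂ) ((y.1 - y.2) / V) V).trans ?_)
      simp only [hκ, hσ, hn, Prod.mk_sub_mk, sub_div, Complex.sub_re, Complex.sub_im, sub_smul,
        ContinuousLinearMap.id_apply]
      ring
    rw [e]
    refine (norm_fst_le _).trans (h1.trans ((mul_le_mul_of_nonneg_left h2 (by positivity)).trans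
      (le_of_eq ?_)))
    field_simp
  obtain ⟨r, r0, hr⟩ : ∃ r > 0, ∀ y ∈ ball (0 : ℂ) r, σ y ∈ U ∧ ∀ y' ∈ ball (0 : ℂ) r,
      ‖κ y - κ y'‖ ≤ M * ‖y - y'‖ ∧ ‖F y - F y' - (y - y')‖ ≤ 1 / 2 * ‖y - y'‖ := by
    have t : ∀ᶠ y : ℂ × ℂ in 𝓝 (0, 0), σ y.1 ∈ U :=
      (σc.comp continuous_fst).continuousAt.eventually (hU.mem_nhds (by simpa [σ0] using hz))
    obtain ⟨r, r0, h⟩ := Metric.eventually_nhds_iff_ball.1 (t.and (κl.and ap))
    rw [← ball_prod_same] at h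
    exact ⟨r, r0, fun y hy => ⟨(h (y, y) ⟨hy, hy⟩).1, fun y' hy' => (h (y, y') ⟨hy, hy'⟩).2⟩⟩
  have al : ApproximatesLinearOn F (ContinuousLinearMap.id ℝ ℂ) (ball 0 r) (1 / 2) :=
    fun y hy y' hy' => by simpa using ((hr y hy).2 y' hy').2
  have op : IsOpen (F '' ball 0 r) := al.open_image ⟨id, 1, by simp, by simp⟩ isOpen_ball
    (Or.inr (by norm_num))
  set iv := Function.invFunOn F (ball 0 r) with hiv
  have an : ∀ y ∈ ball (0 : ℂ) r, ∀ y' ∈ ball (0 : ℂ) r, ‖y - y'‖ ≤ 2 * ‖F y - F y'‖ := by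
    intro y hy y' hy'
    have := ((hr y hy).2 y' hy').2
    have := norm_sub_norm_le (y - y') (F y - F y')
    rw [norm_sub_rev (y - y')] at this
    linarith
  set T : ℝ → ℝ := fun η => ∫ s in (0 : ℝ)..η, l (z₀ + s • n, a (z₀ + s • n)) n with hT
  refine ⟨fun w => T (iv w / V).im + A (κ (iv w)), ?_⟩
  filter_upwards [op.mem_nhds ⟨0, mem_ball_self r0, by simp [hF, κ0, h0]⟩] with w₁ hw₁
  have m1 : iv w₁ ∈ ball (0 : ℂ) r := Function.invFunOn_mem hw₁
  have e1 : F (iv w₁) = w₁ := Function.invFunOn_eq hw₁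
  set y₁ := iv w₁ with hy₁
  have u1 := (hr y₁ m1).1
  have j1 : Φ (κ y₁) = (w₁, a w₁) := Prod.ext e1 (by rw [← e1]; exact (hi _ _ u1).symm)
  have lo : (fun y => (T (y / V).im + A (κ y)) - (T (y₁ / V).im + A (κ y₁)) -
      l (w₁, a w₁) (F y - F y₁)) =o[𝓝 y₁] fun y => y - y₁ := by
    obtain ⟨D, d1, d2⟩ := hA (κ y₁) u1
    have d3 := ((hΦ (κ y₁) u1).differentiableAt one_ne_zero).hasFDerivAt
    have d4 := (d1.sub ((l (w₁, a w₁)).hasFDerivAt.comp _ d3.fst)).add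
      ((l (σ y₁, a (σ y₁))).hasFDerivAt.comp _ (hasFDerivAt_fst.comp (κ y₁) hasFDerivAt_snd))
    have kb : (fun y => κ y - κ y₁) =O[𝓝 y₁] fun y => y - y₁ :=
      IsBigO.of_bound M ((isOpen_ball.eventually_mem m1).mono
        fun y hy => ((hr y hy).2 y₁ m1).1)
    have kt : Tendsto κ (𝓝 y₁) (𝓝 (κ y₁)) := by
      rw [← tendsto_sub_nhds_zero_iff]
      exact kb.trans_tendsto (tendsto_sub_nhds_zero_iff.2 tendsto_id)
    have o1 := (d4.isLittleO.comp_tendsto kt).trans_isBigO kb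
    have cv : Convex ℝ {s : ℝ | s • n ∈ ball (0 : ℂ) r} :=
      (convex_ball (0 : ℂ) r).linear_preimage (LinearMap.toSpanSingleton ℝ ℂ n)
    have oo : IsOpen {s : ℝ | s • n ∈ ball (0 : ℂ) r} := isOpen_ball.preimage (by fun_prop)
    have sU : ∀ s : ℝ, s • n ∈ ball (0 : ℂ) r → z₀ + s • n ∈ U := fun s hs => by
      have := (hr _ hs).1
      simpa [hσ, hn, mul_div_assoc, hV] using this
    have cn : ContinuousOn (fun s : ℝ => l (z₀ + s • n, a (z₀ + s • n)) n)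
        {s : ℝ | s • n ∈ ball (0 : ℂ) r} :=
      (hom.comp (f := fun s : ℝ => z₀ + s • n) (by fun_prop) sU).clm_apply continuousOn_const
    have η1 : (y₁ / V).im • n ∈ ball (0 : ℂ) r := by
      have := σl y₁ 0
      rw [σ0, hσ, sub_zero] at this
      simp only [add_sub_cancel_left] at this
      exact mem_ball_zero_iff.2 (this.trans_lt (mem_ball_zero_iff.1 m1))
    have dT : HasDerivAt T (l (σ y₁, a (σ y₁)) n) (y₁ / V).im :=
      intervalIntegral.integral_hasDerivAt_right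
        ((cn.mono (cv.ordConnected.uIcc_subset (by simpa using r0) η1)).intervalIntegrable)
        (cn.stronglyMeasurableAtFilter oo _ η1) (cn.continuousAt (oo.mem_nhds η1))
    have di : HasFDerivAt (fun y : ℂ => (y / V).im) _ y₁ :=
      Complex.imCLM.hasFDerivAt.comp y₁ ((hasFDerivAt_id y₁).mul_const V⁻¹)
    have o2 := (dT.hasFDerivAt.comp y₁ di).isLittleO
    refine (o1.add o2).congr_left fun y => ?_
    have e : σ y - σ y₁ = ((y / V).im - (y₁ / V).im) • n := by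
      simp only [hσ, sub_smul]
      ring
    have e2 : l (σ y₁, a (σ y₁)) (σ y) - l (σ y₁, a (σ y₁)) (σ y₁) =
        ((y / V).im - (y₁ / V).im) * l (σ y₁, a (σ y₁)) n := by
      rw [← map_sub, e, map_smul, smul_eq_mul]
    have e3 := d2 (κ y - κ y₁)
    rw [j1] at e3
    have e4 : (V⁻¹ * (y - y₁)).im = (y / V).im - (y₁ / V).im := by
      rw [← Complex.sub_im, ← sub_div, div_eq_inv_mul]
    simp only [Function.comp, Pi.add_apply, Pi.sub_apply, add_apply, sub_apply,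
      ContinuousLinearMap.comp_apply, ContinuousLinearMap.coe_fst', ContinuousLinearMap.coe_snd',
      ContinuousLinearMap.toSpanSingleton_apply, smul_apply, ContinuousLinearMap.id_apply,
      Complex.imCLM_apply, e4, e3, smul_eq_mul, map_sub (l (w₁, a w₁)) (F y)]
    change A (κ y) - l _ (F y) + l _ (σ y) - (A (κ y₁) - l _ (F y₁) + l _ (σ y₁)) -
      (_ - l (σ y₁, a (σ y₁)) _ - _ + _) + _ = _
    linarith
  have wb : ∀ᶠ w in 𝓝 w₁, iv w ∈ ball (0 : ℂ) r ∧ F (iv w) = w :=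
    (op.eventually_mem hw₁).mono fun w hw =>
      ⟨Function.invFunOn_mem hw, Function.invFunOn_eq hw⟩
  have ib : (fun w => iv w - y₁) =O[𝓝 w₁] fun w => w - w₁ :=
    IsBigO.of_bound 2 (wb.mono fun w hw => by simpa [hw.2, e1] using an _ hw.1 _ m1)
  have it : Tendsto iv (𝓝 w₁) (𝓝 y₁) := by
    rw [← tendsto_sub_nhds_zero_iff]
    exact ib.trans_tendsto (tendsto_sub_nhds_zero_iff.2 tendsto_id)
  refine HasFDerivAt.of_isLittleO (((lo.comp_tendsto it).trans_isBigO ib).congr' ?_ .rfl)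
  filter_upwards [wb] with w hw
  simp only [Function.comp, hw.2, e1]
  rfl

variable {S : Sys} (P : S.Pr)

/-- the twisted Liouville form -/
def lv (x : ℂ × ℝ) : ℂ →L[ℝ] ℝ :=
  Complex.reCLM.comp (ContinuousLinearMap.mul ℝ ℂ ((S.vv x)⁻¹ - P.Θ x.1))

lemma lv_apply (x : ℂ × ℝ) (δ : ℂ) : lv P x δ = (δ / S.vv x).re - (P.Θ x.1 * δ).re := by
  simp only [lv, ContinuousLinearMap.comp_apply, ContinuousLinearMap.mul_apply', Complex.reCLM_apply,
    sub_mul, Complex.sub_re, div_eq_inv_mul]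

lemma lv_cont {x : ℂ × ℝ} (hx : 0 < x.1.im) : ContinuousAt (lv P) x :=
  continuousAt_const.clm_comp ((ContinuousLinearMap.mul ℝ ℂ).continuous.continuousAt.comp
    (((S.vv_cd hx).continuousAt.inv₀ (S.vv_ne x)).sub
      ((P.Θ_cd hx).continuousAt.comp continuousAt_fst)))

/-- the Lagrangian -/
def lg (x : ℂ × ℝ) : ℝ := 1 - (P.Θ x.1 * (S.X x).1).re

lemma lg_cd {x : ℂ × ℝ} (hx : 0 < x.1.im) : ContDiffAt ℝ ∞ (lg P) x :=
  contDiffAt_const.sub (Complex.reCLM.contDiff.contDiffAt.comp x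
    (((P.Θ_cd hx).comp x contDiffAt_fst).mul (S.X_cd hx).fst))

lemma fvar (ξ : N) (δ : ℂ × ℝ) (r : ℝ) :
    HasDerivAt (fun r => lv P (emb (S.φ r ξ)) (S.J ξ δ r).1)
      (fderiv ℝ (lg P) (emb (S.φ r ξ)) (S.J ξ δ r)) r := by
  have hp := (S.φ r ξ).1.im_pos
  set x := emb (S.φ r ξ) with hx
  set d := S.J ξ δ r with hd
  have hE : HasDerivAt (fun s : ℝ => x + s • d) d 0 :=
    (((hasDerivAt_id (0 : ℝ)).smul_const d).const_add x).congr_deriv (one_smul _ _)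
  have e0 : x + (0 : ℝ) • d = x := by simp
  have hp' : 0 < (x + (0 : ℝ) • d).1.im := by rw [e0]; exact hp
  have hX := ((S.X_cd hp').differentiableAt (by simp)).hasFDerivAt.comp_hasDerivAt 0 hE
  have a := (hd_re ((P.hd_Θ (hd_fst hE) hp').mul (hd_fst hX))).const_sub 1
  have b := ((lg_cd P hp').differentiableAt (by simp)).hasFDerivAt.comp_hasDerivAt 0 hE
  have ab := a.unique b
  simp only [Function.comp, e0] at ab
  have hJ := S.hd_J ξ δ r
  simp only [lv_apply]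
  refine ((S.hd_ja ξ δ r).sub (hd_re ((P.hd_Θ (S.hd_z ξ r) hp).mul (hd_fst hJ)))).congr_deriv ?_
  refine Eq.trans ?_ ab
  have c := P.curl _ hp (S.V (S.φ r ξ)) d.1
  have e : (conj (S.V (S.φ r ξ)) * d.1).im = ‖S.V (S.φ r ξ)‖ ^ 2 * (S.jq ξ δ r).im := by
    rw [hd, Sys.J_fst, Complex.sq_norm, Complex.normSq_apply]
    simp
    ring
  have e2 : Real.exp (2 * S.L (S.φ r ξ).1) * (conj (S.V (S.φ r ξ)) * d.1).im = (S.jq ξ δ r).im := by
    rw [e, Sys.normSq_V, ← mul_assoc, ← Real.exp_add]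
    simp
  rw [sub_mul, mul_assoc, e2] at c
  simp only [Sys.B, ofComplex_apply] at c
  change _ = -((fderiv ℝ P.F (S.φ r ξ).1 d.1 +
    ((-(P.c * d.1.im) / ((S.φ r ξ).1 : ℂ).im ^ 2 : ℝ) : ℂ)) *
      S.V (S.φ r ξ) + P.Θ (S.φ r ξ).1 * (fderiv ℝ S.X x d).1).re
  simp only [add_mul, Complex.add_re, Complex.re_ofReal_mul, Complex.mul_im, Complex.conj_re,
    Complex.conj_im] at c ⊢
  linear_combination -c

/-- the action of an orbit segment -/
def act (p : ℝ × (ℂ × ℝ)) : ℝ := ∫ r in (0 : ℝ)..p.1, lg P (S.Φ (r, p.2))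

lemma lgΦ_cd {p : ℝ × (ℂ × ℝ)} (hp : 0 < p.2.1.im) : ContDiffAt ℝ ∞ (fun q => lg P (S.Φ q)) p :=
  (lg_cd P (S.Φ_pos p)).comp p (S.Φ_cd hp)

lemma act_diff {p : ℝ × (ℂ × ℝ)} (hp : 0 < p.2.1.im) : DifferentiableAt ℝ (act P) p := by
  have : act P = fun p => p.1 * ∫ s in (0 : ℝ)..1, lg P (S.Φ (p.1 * s, p.2)) := by
    funext p
    rw [← smul_eq_mul, intervalIntegral.smul_integral_comp_mul_left (fun r => lg P (S.Φ (r, p.2)))]
    simp [act]
  rw [this]
  refine differentiableAt_fst.mul (ContDiffAt.differentiableAt (n := (1 : ℕ))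
    (contDiffAt_int (F := fun y : (ℝ × (ℂ × ℝ)) × ℝ => lg P (S.Φ (y.1.1 * y.2, y.1.2)))
      fun t _ => ?_) (by simp))
  exact ContDiffAt.comp (g := fun q => lg P (S.Φ q)) (f := fun y : (ℝ × (ℂ × ℝ)) × ℝ =>
    (y.1.1 * y.2, y.1.2)) (p, t) ((lgΦ_cd P (p := (p.1 * t, p.2)) hp).of_le (by exact_mod_cast le_top))
    (by fun_prop)

lemma act_fderiv (t : ℝ) (ξ : N) (d : ℝ × (ℂ × ℝ)) : fderiv ℝ (act P) (t, emb ξ) d =
    lv P (S.Φ (t, emb ξ)) (fderiv ℝ S.Φ (t, emb ξ) d).1 - lv P (emb ξ) d.2.1 := by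
  have hp : ∀ r : ℝ, 0 < ((r, emb ξ) : ℝ × (ℂ × ℝ)).2.1.im := fun _ => ξ.1.im_pos
  have hA := (act_diff P (hp t)).hasFDerivAt
  have c0 : Continuous fun r : ℝ => lg P (S.Φ (r, emb ξ)) := continuous_iff_continuousAt.2 fun r =>
    ContinuousAt.comp (g := fun q => lg P (S.Φ q)) (f := fun r : ℝ => (r, emb ξ))
      (lgΦ_cd P (hp r)).continuousAt (by fun_prop)
  have d1 := (hA.comp_hasDerivAt (f := fun s : ℝ => (s, emb ξ)) t
    ((hasDerivAt_id _).prodMk (hasDerivAt_const _ _))).unique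
      (c0.integral_hasStrictDerivAt 0 t).hasDerivAt
  have hF : ∀ r : ℝ, ContDiffAt ℝ ∞ (fun y : (ℂ × ℝ) × ℝ => lg P (S.Φ (y.2, y.1))) (emb ξ, r) :=
    fun r => ContDiffAt.comp (g := fun q => lg P (S.Φ q))
      (f := fun y : (ℂ × ℝ) × ℝ => (y.2, y.1)) (emb ξ, r) (lgΦ_cd P (hp r)) (by fun_prop)
  have d2 := (hA.comp (f := fun x : ℂ × ℝ => (t, x)) (emb ξ)
    (hasFDerivAt_prodMk_right t (emb ξ))).unique
      (Calc.hasF (a := 0) (b := t) fun r _ => (hF r).of_le (by simp))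
  have c1 : Continuous fun r : ℝ =>
      Calc.pd (fun y : (ℂ × ℝ) × ℝ => lg P (S.Φ (y.2, y.1))) (emb ξ, r) :=
    continuous_iff_continuousAt.2 fun r => ContinuousAt.comp (f := fun r : ℝ => (emb ξ, r))
      (Calc.pd_cd (n := 0) ((hF r).of_le (by simp))).continuousAt (by fun_prop)
  have d4 : ∀ r, Calc.pd (fun y : (ℂ × ℝ) × ℝ => lg P (S.Φ (y.2, y.1))) (emb ξ, r) d.2 =
      fderiv ℝ (lg P) (emb (S.φ r ξ)) (S.J ξ d.2 r) := fun r => by
    have u1 := ((hF r).differentiableAt (by simp)).hasFDerivAt.comp (f := fun x : ℂ × ℝ => (x, r))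
      (emb ξ) (hasFDerivAt_prodMk_left (emb ξ) r)
    have u2 := ((lg_cd P (S.Φ_pos (r, emb ξ))).differentiableAt (by simp)).hasFDerivAt.comp (emb ξ)
      (S.hasFDerivAt_slice r ξ)
    exact congrArg (fun E => E d.2) (u1.unique u2)
  have d3 : fderiv ℝ (act P) (t, emb ξ) (0, d.2) =
      lv P (emb (S.φ t ξ)) (S.J ξ d.2 t).1 - lv P (emb ξ) d.2.1 := by
    refine (congrArg (fun E => E d.2) d2).trans ?_
    rw [ContinuousLinearMap.intervalIntegral_apply (c1.intervalIntegrable _ _),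
      intervalIntegral.integral_eq_sub_of_hasDerivAt (fun r _ => by rw [d4]; exact fvar P ξ d.2 r)
        ((c1.clm_apply continuous_const).intervalIntegrable _ _), S.φ_zero, S.J_zero]
  have e : d = d.1 • ((1, 0) : ℝ × (ℂ × ℝ)) + (0, d.2) := by simp
  have d5 : lv P (S.Φ (t, emb ξ)) (S.X (S.Φ (t, emb ξ))).1 = lg P (S.Φ (t, emb ξ)) := by
    rw [lv_apply, lg]
    change (S.vv _ / S.vv _).re - _ = _
    rw [div_self (S.vv_ne _), Complex.one_re]
  conv_lhs => rw [e, map_add, map_smul, d1, d3]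
  conv_rhs => rw [e, map_add, map_smul, S.fderiv_Φ_t (hp t), Prod.fst_add, Prod.smul_fst, map_add,
    map_smul, d5]
  simp only [smul_eq_mul, Prod.snd_add, Prod.smul_snd, smul_zero, zero_add]
  exact (add_sub_assoc _ _ _).symm

lemma loc_lip {α : ℍ → ℝ} {C : ℝ} (h : ∀ z w, |α z - α w| ≤ C * dist z w) {z : ℂ} (hz : 0 < z.im) :
    ∀ᶠ w : ℂ × ℂ in 𝓝 (z, z),
      |α (ofComplex w.1) - α (ofComplex w.2)| ≤ |C| * (2 / z.im) * ‖w.1 - w.2‖ := by
  have t : ∀ᶠ w : ℂ in 𝓝 z, z.im / 2 < w.im :=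
    Complex.continuous_im.continuousAt.eventually (lt_mem_nhds (by linarith))
  filter_upwards [t.prod_nhds t] with w ⟨h1, h2⟩
  have p1 : 0 < w.1.im := by linarith
  have p2 : 0 < w.2.im := by linarith
  refine (h _ _).trans ((mul_le_mul_of_nonneg_right (le_abs_self C) dist_nonneg).trans ?_)
  rw [mul_assoc]
  refine mul_le_mul_of_nonneg_left ((dist_le_dist_coe_div_sqrt _ _).trans ?_) (abs_nonneg C)
  rw [ofComplex_apply_of_im_pos p1, ofComplex_apply_of_im_pos p2, dist_eq_norm]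
  change ‖w.1 - w.2‖ / √(w.1.im * w.2.im) ≤ _
  have : z.im / 2 ≤ √(w.1.im * w.2.im) := Real.le_sqrt_of_sq_le (by nlinarith)
  calc _ ≤ ‖w.1 - w.2‖ / (z.im / 2) := by gcongr
    _ = _ := by field_simp

end FPri

open FPri in
theorem prim : PrimSt := by
  intro S P α C hF hL
  have cv : Convex ℝ {z : ℂ | 0 < z.im} := convex_halfSpace_im_gt 0
  have ca : ∀ z : ℂ, 0 < z.im → ContinuousAt (fun w => α (ofComplex w)) z := fun z hz => by
    rw [ContinuousAt, tendsto_iff_norm_sub_tendsto_zero]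
    refine squeeze_zero' (.of_forall fun _ => norm_nonneg _)
      ((by fun_prop : Continuous fun y : ℂ => (y, z)).continuousAt.eventually (loc_lip hL hz)) ?_
    have : Continuous fun y : ℂ => |C| * (2 / z.im) * ‖y - z‖ := by fun_prop
    simpa using this.tendsto z
  have co : ContinuousOn (fun z => lv P (z, α (ofComplex z))) {z : ℂ | 0 < z.im} := fun z hz =>
    (ContinuousAt.comp (f := fun z : ℂ => (z, α (ofComplex z))) (lv_cont P hz)
      (continuousAt_id.prodMk (ca z hz))).continuousWithinAt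
  obtain ⟨u, hu⟩ := glob isOpen_upperHalfPlaneSet cv (p := Complex.I) (by simp) co fun z hz => by
    replace hz : 0 < z.im := hz
    have e : ((z, α (ofComplex z)) : ℂ × ℝ) = emb (⟨z, hz⟩, α (ofComplex z)) := rfl
    refine loc (Φ := S.Φ) (A := act P) (V := S.vv (z, α (ofComplex z))) (S.vv_ne _)
      isOpen_upperHalfPlaneSet hz (fun p hp => (S.Φ_cd hp).of_le (by simp)) ?_ (fun d => ?_)
      (fun p hp => ⟨_, (act_diff P hp).hasFDerivAt, act_fderiv P p.1 (⟨p.2.1, hp⟩, p.2.2)⟩)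
      (fun t w hw => ?_) (by positivity) (loc_lip hL hz) co
    · rw [e, S.Φ_emb, S.φ_zero]
    · have e' : d = d.1 • ((1, 0) : ℝ × (ℂ × ℝ)) + (0, d.2) := by simp
      have j := S.J_zero (⟨z, hz⟩, α (ofComplex z)) d.2
      conv_lhs => rw [e', map_add, map_smul, S.fderiv_Φ_t (p := (0, (z, α (ofComplex z)))) hz, e, S.Φ_emb, S.φ_zero]
      rw [Sys.J] at j
      rw [j]
      rfl
    · have := hF ⟨w, hw⟩ t
      rw [ofComplex_apply_of_im_pos hw]
      refine Eq.trans ?_ this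
      exact congrArg α (ofComplex_apply (S.φ t (⟨w, hw⟩, α ⟨w, hw⟩)).1)
  refine ⟨fun z => u z, fun z => ⟨lv P (z, α (ofComplex z)), (hu z z.im_pos).congr_of_eventuallyEq
    ((isOpen_upperHalfPlaneSet.eventually_mem z.im_pos).mono fun w hw => ?_), fun δ => ?_⟩⟩
  · simp only [ofComplex_apply_of_im_pos hw]
  · rw [lv_apply, ofComplex_apply]
    rfl

end

end Pool.Agent.Lib.MP_21f752_an
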