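import Pool.Agent.Lib.MP_21f752_an.FA

/-! Sheets of good germs over the half-plane and their extension across a boundary leaf. -/

namespace Pool.Agent.Lib.MP_21f752_an.FZor

open UpperHalfPlane Set Filter Topology Metric

noncomputable section

abbrev Lf := Option (ℍ × ℝ) × ℝ × N

abbrev Tot := Lf × ℝ

abbrev Gm := ℍ × (ℍ → Tot)

def sh (t : ℝ) (p : Tot) : Tot := (p.1, p.2 + t)

lemma sh_sh (a b : ℝ) (p : Tot) : sh a (sh b p) = sh (b + a) p := by simp [sh, add_assoc]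

lemma sh_zero (p : Tot) : sh 0 p = p := by simp [sh]

def Used (E : Set Gm) (a : Lf) : Prop := ∃ z s, (z, s) ∈ E ∧ (s z).1 = a

variable (S : Sys) (C : ℝ)

def dev (p : Tot) : N := S.φ p.2 p.1.2.2

lemma dev_sh (t : ℝ) (p : Tot) : dev S (sh t p) = S.φ t (dev S p) := by
  simp only [dev, sh]
  rw [add_comm, S.φ_add]

structure Pre (E : Set Gm) (R : Lf → Lf → Prop) : Prop where
  eq : ∀ {z s s'}, (z, s) ∈ E → s' =ᶠ[𝓝 z] s → (z, s') ∈ E
  opn : ∀ {z s}, (z, s) ∈ E → ∀ᶠ w in 𝓝 z, (w, s) ∈ E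
  sec : ∀ {z s}, (z, s) ∈ E → (dev S (s z)).1 = z
  gd : ∀ {z s}, (z, s) ∈ E → S.Gd C (fun w => (dev S (s w)).2) z
  fl : ∀ {z s}, (z, s) ∈ E → ∀ t, ∃ s2, ((dev S (sh t (s z))).1, s2) ∈ E ∧
    ∀ᶠ x : ℍ × ℝ in 𝓝 (z, t), s2 (dev S (sh x.2 (s x.1))).1 = sh x.2 (s x.1)
  uv : ∀ {z s z' s'}, (z, s) ∈ E → (z', s') ∈ E → s z = s' z' → s =ᶠ[𝓝 z] s'
  sep : ∀ {z s s'}, (z, s) ∈ E → (z, s') ∈ E → (∃ᶠ w in 𝓝 z, s w = s' w) → s z = s' z
  irr : ∀ a, ¬ R a a
  tra : ∀ {a b c}, R a b → R b c → R a c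
  inc : ∀ {z s}, (z, s) ∈ E → ∀ᶠ w : ℍ × ℍ in 𝓝 (z, z),
    |(((w.2 : ℂ) - w.1) / S.V (dev S (s z))).re| < (((w.2 : ℂ) - w.1) / S.V (dev S (s z))).im →
      R (s w.1).1 (s w.2).1
  usd : ∀ {a b}, R a b → Used E a ∧ Used E b

/-- the base point of the chart -/
def Fb (c : ℝ → Tot) (x : ℝ × ℝ) : ℍ := (dev S (sh x.1 (c x.2))).1

def Ch (c : ℝ → Tot) (x0 : ℝ × ℝ) (s : ℍ → Tot) : Prop :=
  ∀ᶠ x : ℝ × ℝ in 𝓝 x0, s (Fb S c x) = sh x.1 (c x.2)

structure Dat (E : Set Gm) (R : Lf → Lf → Prop) (c : ℝ → Tot) (ε e : ℝ) (lab : Option (ℍ × ℝ)) :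
    Prop where
  pc : ∀ η, |η| < ε → S.PC C (fun y => dev S (c y)) η
  old : ∀ η, |η| < ε → e * η < 0 →
    ∃ s, ((dev S (c η)).1, s) ∈ E ∧ ∀ᶠ y in 𝓝 η, s (dev S (c y)).1 = c y
  new : ∀ η, |η| < ε → 0 ≤ e * η → (c η).1.1 = lab ∧ (c η).1.2.1 = η
  fresh : ∀ a, Used E a → a.1 ≠ lab
  nex : ∀ s, ((dev S (c 0)).1, s) ∈ E → ¬ ∃ᶠ y in 𝓝 0, e * y < 0 ∧ s (dev S (c y)).1 = c y
  mon : ∀ x y, |x| < ε → |y| < ε → e * x < 0 → e * y < 0 → x < y → R (c x).1 (c y).1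

def E2 (E : Set Gm) (c : ℝ → Tot) (ε e : ℝ) : Set Gm :=
  E ∪ {g | ∃ x : ℝ × ℝ, |x.2| < ε ∧ 0 ≤ e * x.2 ∧ g.1 = Fb S c x ∧ Ch S c x g.2}

def R2 (R : Lf → Lf → Prop) (c : ℝ → Tot) (ε : ℝ) (a b : Lf) : Prop :=
  R a b ∨ ∃ x y, |x| < ε ∧ |y| < ε ∧ x < y ∧ (a = (c x).1 ∨ R a (c x).1) ∧
    ((c y).1 = b ∨ R (c y).1 b)

variable {S C}

lemma pair_ev {X : Type} [TopologicalSpace X] {z : X} {p : X → Prop} (h : ∀ᶠ w in 𝓝 z, p w) :
    ∀ᶠ w : X × X in 𝓝 (z, z), p w.1 ∧ p w.2 :=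
  (continuousAt_fst.tendsto.eventually h).and (continuousAt_snd.tendsto.eventually h)

lemma gd_congr {α β : ℍ → ℝ} {z : ℍ} (h : S.Gd C α z) (e : β =ᶠ[𝓝 z] α) : S.Gd C β z := by
  intro t ε hε
  filter_upwards [h t ε hε, pair_ev e] with w h1 h2
  rw [e.self_of_nhds, h2.1, h2.2]
  exact h1

lemma pc_congr {κ κ' : ℝ → N} {a : ℝ} (h : S.PC C κ a) (e : κ' =ᶠ[𝓝 a] κ) : S.PC C κ' a := by
  obtain ⟨⟨M, h1⟩, ⟨c, hc, h2⟩, h3⟩ := h
  refine ⟨⟨M, ?_⟩, ⟨c, hc, ?_⟩, fun t ε hε => ?_⟩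
  · filter_upwards [h1, pair_ev e] with w h1 h2
    rwa [h2.1, h2.2]
  · filter_upwards [h2, pair_ev e] with w h1 h2
    rwa [e.self_of_nhds, h2.1, h2.2]
  · filter_upwards [h3 t ε hε, pair_ev e] with w h1 h2
    rwa [e.self_of_nhds, h2.1, h2.2]

lemma clip_cont {κ : ℝ → N} {a : ℝ} (h : Sys.CLip κ a) : ContinuousAt κ a := by
  obtain ⟨M, h⟩ := h
  rw [Sys.isEmbedding_emb.continuousAt_iff, ContinuousAt, tendsto_iff_norm_sub_tendsto_zero]
  have h1 : Tendsto (fun y : ℝ => (a, y)) (𝓝 a) (𝓝 (a, a)) :=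
    (continuous_const.prodMk continuous_id).continuousAt
  refine squeeze_zero' (Eventually.of_forall fun _ => norm_nonneg _) (h1.eventually h) ?_
  have : Continuous fun y : ℝ => M * |y - a| := by fun_prop
  simpa using this.tendsto a

lemma fb_cont {c : ℝ → Tot} {x : ℝ × ℝ} (h : S.PC C (fun y => dev S (c y)) x.2) :
    Tendsto (Fb S c) (𝓝 x) (𝓝 (Fb S c x)) := by
  have h1 : ContinuousAt (fun x : ℝ × ℝ => (x.1, dev S (c x.2))) x :=
    continuousAt_fst.prodMk ((clip_cont h.lip).comp continuousAt_snd)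
  have h2 := (S.continuous_φ.continuousAt.comp h1).fst
  have : Fb S c = fun x : ℝ × ℝ => (S.φ x.1 (dev S (c x.2))).1 := by
    ext1 x; simp only [Fb, dev_sh]
  rw [this]
  exact h2

lemma ch_ex (hb : BoxSt) (hC : 0 < C) {c : ℝ → Tot} {x : ℝ × ℝ}
    (h : S.PC C (fun y => dev S (c y)) x.2) : ∃ iv : ℍ → ℝ × ℝ,
    Tendsto iv (𝓝 (Fb S c x)) (𝓝 x) ∧ (∀ᶠ w in 𝓝 (Fb S c x), Fb S c (iv w) = w) ∧
    Ch S c x (fun w => sh (iv w).1 (c (iv w).2)) ∧
    (∀ s, Ch S c x s → s =ᶠ[𝓝 (Fb S c x)] fun w => sh (iv w).1 (c (iv w).2)) ∧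
    S.Gd C (fun w => (dev S (sh (iv w).1 (c (iv w).2))).2) (Fb S c x) ∧
    ∀ᶠ w : ℍ × ℍ in 𝓝 (Fb S c x, Fb S c x),
      |(((w.2 : ℂ) - w.1) / S.V (dev S (sh x.1 (c x.2)))).re| <
        (((w.2 : ℂ) - w.1) / S.V (dev S (sh x.1 (c x.2)))).im → (iv w.1).2 < (iv w.2).2 := by
  obtain ⟨iv, h1, h2, h3, h4, h5⟩ := hb S C _ x.2 x.1 hC h
  simp only [← dev_sh] at h1 h2 h3 h4 h5
  refine ⟨iv, h3, h2, ?_, fun s hs => ?_, h4, h5⟩
  · filter_upwards [h1] with y hy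
    simp only [Fb, hy]
  · filter_upwards [h2, h3.eventually hs] with w h1 h2
    rw [← h2]
    exact congrArg s h1.symm

lemma dev_cont (hg : GlueSt) (hC : 0 < C) {s : ℍ → Tot} {z : ℍ}
    (h1 : ∀ᶠ w in 𝓝 z, (dev S (s w)).1 = w) (h2 : S.Gd C (fun w => (dev S (s w)).2) z) :
    Tendsto (fun w => dev S (s w)) (𝓝 z) (𝓝 (dev S (s z))) := by
  obtain ⟨M, hM⟩ := (hg S C hC).2.2.1
  refine Tendsto.prodMk_nhds (mx := fun w => (dev S (s w)).1) (my := fun w => (dev S (s w)).2)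
    (x := (dev S (s z)).1) (y := (dev S (s z)).2) ?_ ?_
  · rw [h1.self_of_nhds]
    exact tendsto_id.congr' (h1.mono fun w hw => hw.symm)
  · have h0 : Tendsto (fun y : ℍ => (z, y)) (𝓝 z) (𝓝 (z, z)) :=
      (continuous_const.prodMk continuous_id).continuousAt
    rw [tendsto_iff_dist_tendsto_zero]
    refine squeeze_zero' (Eventually.of_forall fun _ => dist_nonneg) (h0.eventually (hM _ z h2)) ?_
    have : Continuous fun y : ℍ => M * dist y z := by fun_prop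
    simpa using this.tendsto z

variable {E : Set Gm} {R : Lf → Lf → Prop} {c : ℝ → Tot} {ε e : ℝ} {lab : Option (ℍ × ℝ)}

lemma ev_lt {x : ℝ × ℝ} (hx : |x.2| < ε) : ∀ᶠ y : ℝ × ℝ in 𝓝 x, |y.2| < ε :=
  (continuous_abs.comp continuous_snd).continuousAt.eventually_lt continuousAt_const hx

lemma Dat.all (hb : BoxSt) (hC : 0 < C) (P : Pre S C E R) (D : Dat S C E R c ε e lab) {x : ℝ × ℝ}
    (hx : |x.2| < ε) {s : ℍ → Tot} (hs : Ch S c x s) :
    (Fb S c x, s) ∈ E2 S E c ε e ∧ (e * x.2 < 0 → (Fb S c x, s) ∈ E) := by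
  suffices h : e * x.2 < 0 → (Fb S c x, s) ∈ E by
    refine ⟨?_, h⟩
    rcases lt_or_ge (e * x.2) 0 with h1 | h1
    · exact Or.inl (h h1)
    · exact Or.inr ⟨x, hx, h1, rfl, hs⟩
  intro h1
  obtain ⟨s0, m0, h0⟩ := D.old _ hx h1
  obtain ⟨s2, m2, h2⟩ := P.fl m0 x.1
  rw [h0.self_of_nhds] at m2
  obtain ⟨iv, -, -, -, u, -⟩ := ch_ex hb hC (D.pc _ hx)
  have t1 : Tendsto (fun y : ℝ × ℝ => ((dev S (c y.2)).1, y.1)) (𝓝 x)
      (𝓝 ((dev S (c x.2)).1, x.1)) :=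
    (((clip_cont (D.pc _ hx).lip).comp continuousAt_snd).fst.prodMk continuousAt_fst).tendsto
  have c2 : Ch S c x s2 := by
    filter_upwards [t1.eventually h2, continuousAt_snd.tendsto.eventually h0] with y a b
    simp only [b] at a
    exact a
  exact P.eq m2 ((u s hs).trans (u s2 c2).symm)

lemma Dat.le (P : Pre S C E R) (D : Dat S C E R c ε e lab) {x y : ℝ} (hx : |x| < ε) (hy : |y| < ε)
    (h : (c x).1 = (c y).1 ∨ R (c x).1 (c y).1) : x ≤ y := by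
  by_contra hc
  push Not at hc
  have us : ∀ x, |x| < ε → e * x < 0 → (c x).1.1 ≠ lab := fun x hx h1 => by
    obtain ⟨s0, m0, h0⟩ := D.old _ hx h1
    exact D.fresh _ ⟨_, _, m0, congrArg Prod.fst h0.self_of_nhds⟩
  rcases lt_or_ge (e * x) 0 with h1 | h1 <;> rcases lt_or_ge (e * y) 0 with h2 | h2
  · have := D.mon y x hy hx h2 h1 hc
    rcases h with h | h
    · rw [h] at this; exact P.irr _ this
    · exact P.irr _ (P.tra h this)
  · rcases h with h | h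
    · exact us x hx h1 (h ▸ (D.new y hy h2).1)
    · exact D.fresh _ (P.usd h).2 (D.new y hy h2).1
  · rcases h with h | h
    · exact us y hy h2 (h ▸ (D.new x hx h1).1)
    · exact D.fresh _ (P.usd h).1 (D.new x hx h1).1
  · rcases h with h | h
    · have := (D.new x hx h1).2
      rw [h, (D.new y hy h2).2] at this
      exact hc.ne this
    · exact D.fresh _ (P.usd h).1 (D.new x hx h1).1

lemma Dat.inj (P : Pre S C E R) (D : Dat S C E R c ε e lab) {x y : ℝ × ℝ} (hx : |x.2| < ε)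
    (hy : |y.2| < ε) (h : sh x.1 (c x.2) = sh y.1 (c y.2)) : x = y := by
  have h1 : (c x.2).1 = (c y.2).1 := (congrArg Prod.fst h :)
  have h2 : x.2 = y.2 := le_antisymm (D.le P hx hy (Or.inl h1)) (D.le P hy hx (Or.inl h1.symm))
  have h3 : (c x.2).2 + x.1 = (c y.2).2 + y.1 := congrArg Prod.snd h
  rw [h2] at h3
  exact Prod.ext (by linarith) h2

lemma Dat.sep (hb : BoxSt) (hg : GlueSt) (hC : 0 < C) (P : Pre S C E R)
    (D : Dat S C E R c ε e lab) {x : ℝ × ℝ} (hx : |x.2| < ε) (h0 : 0 ≤ e * x.2) {s s' : ℍ → Tot}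
    (hs : Ch S c x s) (m : (Fb S c x, s') ∈ E) : ¬ ∃ᶠ w in 𝓝 (Fb S c x), s w = s' w := by
  intro hf
  obtain ⟨iv, t1, -, -, u, g, -⟩ := ch_ex hb hC (D.pc _ hx)
  have us := u s hs
  have f1 : ∃ᶠ w in 𝓝 (Fb S c x), e * (iv w).2 < 0 ∧ s' w = sh (iv w).1 (c (iv w).2) := by
    refine (hf.and_eventually (us.and ((P.opn m).and (t1.eventually (ev_lt hx))))).mono ?_
    rintro w ⟨a, b, d, f⟩
    have k : s' w = sh (iv w).1 (c (iv w).2) := a ▸ b
    refine ⟨not_le.1 fun h => D.fresh _ ⟨_, _, d, rfl⟩ ?_, k⟩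
    rw [k]
    exact (D.new _ f h).1
  have t2 : Tendsto (fun w => (iv w).2) (𝓝 (Fb S c x)) (𝓝 x.2) := (continuous_snd.tendsto x).comp t1
  have t3 : Tendsto (fun w => (iv w).1) (𝓝 (Fb S c x)) (𝓝 x.1) := (continuous_fst.tendsto x).comp t1
  have z1 : e * x.2 = 0 := le_antisymm (le_of_tendsto_of_frequently (t2.const_mul e)
    (f1.mono fun w h => h.1.le)) h0
  have z2 : x.2 = 0 := by
    rcases mul_eq_zero.1 z1 with h | h
    · obtain ⟨w, hw, -⟩ := f1.exists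
      simp [h] at hw
    · exact h
  have c1 := dev_cont hg hC ((P.opn m).mono fun w h => P.sec h) (P.gd m)
  have c2 : Tendsto (fun w => dev S (sh (iv w).1 (c (iv w).2))) (𝓝 (Fb S c x))
      (𝓝 (dev S (sh x.1 (c x.2)))) := by
    simp only [dev_sh]
    exact (S.continuous_φ.tendsto (x.1, dev S (c x.2))).comp
      (t3.prodMk_nhds ((clip_cont (D.pc _ hx).lip).tendsto.comp t2))
  have d1 : dev S (s' (Fb S c x)) = dev S (sh x.1 (c x.2)) :=
    tendsto_nhds_unique_of_frequently_eq c1 c2 (f1.mono fun w h => by rw [h.2])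
  obtain ⟨s2, m2, h2⟩ := P.fl m (-x.1)
  have d2 : dev S (sh (-x.1) (s' (Fb S c x))) = dev S (c 0) := by
    rw [dev_sh, d1, ← dev_sh, sh_sh, add_neg_cancel, sh_zero, z2]
  rw [d2] at m2
  refine D.nex s2 m2 ?_
  rw [z2] at t2
  refine t2.frequently (p := fun y => e * y < 0 ∧ s2 (dev S (c y)).1 = c y) ?_
  refine (f1.and_eventually ((tendsto_id.prodMk_nhds t3.neg).eventually h2)).mono ?_
  rintro w ⟨⟨a, b⟩, d⟩
  simp only [id, b, sh_sh, add_neg_cancel, sh_zero] at d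
  exact ⟨a, d⟩

theorem Dat.ext (hb : BoxSt) (hg : GlueSt) (hC : 0 < C) (P : Pre S C E R)
    (D : Dat S C E R c ε e lab) : Pre S C (E2 S E c ε e) (R2 R c ε) where
  eq := by
    rintro z s s' (m | ⟨x, hx, h0, rfl, hs⟩) h
    · exact Or.inl (P.eq m h)
    · refine Or.inr ⟨x, hx, h0, rfl, ?_⟩
      filter_upwards [hs, (fb_cont (D.pc _ hx)).eventually h] with y a b
      exact b.trans a
  opn := by
    rintro z s (m | ⟨x, hx, h0, rfl, hs⟩)
    · exact (P.opn m).mono fun w h => Or.inl h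
    · obtain ⟨iv, t1, i1, -⟩ := ch_ex hb hC (D.pc _ hx)
      filter_upwards [i1, t1.eventually (ev_lt hx), t1.eventually hs.eventually_nhds] with w a b d
      exact a ▸ (D.all hb hC P b d).1
  sec := by
    rintro z s (m | ⟨x, hx, h0, rfl, hs⟩)
    · exact P.sec m
    · exact congrArg (fun p => (dev S p).1) hs.self_of_nhds
  gd := by
    rintro z s (m | ⟨x, hx, h0, rfl, hs⟩)
    · exact P.gd m
    · obtain ⟨iv, -, -, -, u, g, -⟩ := ch_ex hb hC (D.pc _ hx)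
      exact gd_congr g ((u s hs).mono fun w h => by simp only [h])
  fl := by
    rintro z s (m | ⟨x, hx, h0, rfl, hs⟩) t
    · obtain ⟨s2, a, b⟩ := P.fl m t
      exact ⟨s2, Or.inl a, b⟩
    · obtain ⟨iv, t1, -, -, u, -⟩ := ch_ex hb hC (D.pc _ hx)
      obtain ⟨iw, -, -, k, -⟩ := ch_ex (x := (x.1 + t, x.2)) hb hC (D.pc _ hx)
      refine ⟨_, Or.inr ⟨(x.1 + t, x.2), hx, h0, ?_, k⟩, ?_⟩
      · have : s (Fb S c x) = _ := hs.self_of_nhds
        rw [this, sh_sh]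
        rfl
      · have t0 := t1.comp (continuousAt_fst (p := (Fb S c x, t))).tendsto
        have t2 : Tendsto (fun y : ℍ × ℝ => ((iv y.1).1 + y.2, (iv y.1).2)) (𝓝 (Fb S c x, t))
            (𝓝 (x.1 + t, x.2)) :=
          (((continuous_fst.tendsto x).comp t0).add continuousAt_snd.tendsto).prodMk_nhds
            ((continuous_snd.tendsto x).comp t0)
        filter_upwards [t2.eventually k, continuousAt_fst.tendsto.eventually (u s hs)] with y a b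
        simp only [b, sh_sh]
        exact a
  uv := by
    rintro z s z' s' (m | ⟨x, hx, h0, rfl, hs⟩) (m' | ⟨y, hy, h1, rfl, hs'⟩) h
    · exact P.uv m m' h
    · refine absurd ?_ (D.fresh _ ⟨_, _, m, rfl⟩)
      rw [h, show s' (Fb S c y) = _ from hs'.self_of_nhds]
      exact (D.new _ hy h1).1
    · refine absurd ?_ (D.fresh _ ⟨_, _, m', rfl⟩)
      rw [← h, show s (Fb S c x) = _ from hs.self_of_nhds]
      exact (D.new _ hx h0).1
    · obtain rfl : x = y := D.inj P hx hy (hs.self_of_nhds.symm.trans (h.trans hs'.self_of_nhds))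
      obtain ⟨iv, -, -, -, u, -⟩ := ch_ex hb hC (D.pc _ hx)
      exact (u s hs).trans (u s' hs').symm
  sep := by
    rintro z s s' (m | ⟨x, hx, h0, rfl, hs⟩) (m' | ⟨y, hy, h1, e1, hs'⟩) h
    · exact P.sep m m' h
    · obtain rfl : z = Fb S c y := e1
      exact absurd (h.mono fun w => Eq.symm) (D.sep hb hg hC P hy h1 hs' m)
    · exact absurd h (D.sep hb hg hC P hx h0 hs m')
    · obtain ⟨iv, t1, -, -, u, -⟩ := ch_ex hb hC (D.pc _ hx)
      obtain ⟨iw, t2, -, -, v, -⟩ := ch_ex hb hC (D.pc _ hy)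
      have e1 : Fb S c x = Fb S c y := e1
      have v1 := v s' hs'
      rw [← e1] at t2 v1
      obtain rfl : x = y := by
        refine tendsto_nhds_unique_of_frequently_eq t1 t2 ((h.and_eventually ((u s hs).and (v1.and
          ((t1.eventually (ev_lt hx)).and (t2.eventually (ev_lt hy)))))).mono ?_)
        rintro w ⟨a, b, d, f, g⟩
        exact D.inj P f g (b.symm.trans (a.trans d))
      exact hs.self_of_nhds.trans hs'.self_of_nhds.symm
  irr := by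
    rintro a (h | ⟨x, y, hx, hy, hxy, h1, h2⟩)
    · exact P.irr a h
    · refine hxy.not_ge (D.le P hy hx ?_)
      rcases h1 with rfl | h1
      · exact h2
      · rcases h2 with rfl | h2
        · exact Or.inr h1
        · exact Or.inr (P.tra h2 h1)
  tra := by
    rintro a b d (h | ⟨x, y, hx, hy, hxy, h1, h2⟩) (h' | ⟨x', y', hx', hy', hxy', h1', h2'⟩)
    · exact Or.inl (P.tra h h')
    · refine Or.inr ⟨x', y', hx', hy', hxy', Or.inr ?_, h2'⟩
      rcases h1' with rfl | h1'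
      · exact h
      · exact P.tra h h1'
    · refine Or.inr ⟨x, y, hx, hy, hxy, h1, Or.inr ?_⟩
      rcases h2 with rfl | h2
      · exact h'
      · exact P.tra h2 h'
    · refine Or.inr ⟨x, y', hx, hy', hxy.trans_le ((D.le P hy hx' ?_).trans hxy'.le), h1, h2'⟩
      rcases h2 with rfl | h2
      · exact h1'
      · rcases h1' with rfl | h1'
        · exact Or.inr h2
        · exact Or.inr (P.tra h2 h1')
  inc := by
    rintro z s (m | ⟨x, hx, h0, rfl, hs⟩)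
    · exact (P.inc m).mono fun w h h' => Or.inl (h h')
    · obtain ⟨iv, t1, -, -, u, -, g⟩ := ch_ex hb hC (D.pc _ hx)
      filter_upwards [g, pair_ev ((u s hs).and (t1.eventually (ev_lt hx)))] with w a b d
      rw [show s (Fb S c x) = _ from hs.self_of_nhds] at d
      exact Or.inr ⟨_, _, b.1.2, b.2.2, a d, Or.inl (congrArg Prod.fst b.1.1 :),
        Or.inl ((congrArg Prod.fst b.2.1).symm :)⟩
  usd := by
    have k1 : ∀ a, Used E a → Used (E2 S E c ε e) a := fun a ⟨z, s, m, h⟩ => ⟨z, s, Or.inl m, h⟩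
    have k2 : ∀ x, |x| < ε → Used (E2 S E c ε e) (c x).1 := fun x hx => by
      obtain ⟨iv, -, -, k, -⟩ := ch_ex (x := (0, x)) hb hC (D.pc _ hx)
      exact ⟨_, _, (D.all (x := (0, x)) hb hC P hx k).1, (congrArg Prod.fst k.self_of_nhds :)⟩
    rintro a b (h | ⟨x, y, hx, hy, -, h1, h2⟩)
    · exact ⟨k1 _ (P.usd h).1, k1 _ (P.usd h).2⟩
    · constructor
      · rcases h1 with rfl | h1
        · exact k2 x hx
        · exact k1 _ (P.usd h1).1
      · rcases h2 with rfl | h2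
        · exact k2 y hy
        · exact k1 _ (P.usd h2).2

end

end Pool.Agent.Lib.MP_21f752_an.FZor
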