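import Pool.Agent.Lib.MP_21f752_an.FZ1

/-! Lifts of paths to a sheet. -/

namespace Pool.Agent.Lib.MP_21f752_an.FZor

open UpperHalfPlane Set Filter Topology Metric

noncomputable section

def Lift (E : Set Gm) (γ : ℝ → ℍ) (I : Set ℝ) (L : ℝ → Tot) : Prop :=
  ∀ r ∈ I, ∃ s, (γ r, s) ∈ E ∧ ∀ᶠ y in 𝓝[I] r, s (γ y) = L y

def Rl (E : Set Gm) (γ : ℝ → ℍ) (a : ℝ) (p : Tot) (b : ℝ) (q : Tot) : Prop :=
  ∃ L, Lift E γ (uIcc a b) L ∧ L a = p ∧ L b = q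

variable {S : Sys} {C : ℝ} {E E' : Set Gm} {R : Lf → Lf → Prop} {γ : ℝ → ℍ} {I J O : Set ℝ}
  {L L' : ℝ → Tot} {a b : ℝ} {p q q' : Tot}

lemma Lift.mono (h : Lift E γ I L) (hJ : J ⊆ I) : Lift E γ J L := fun r hr => by
  obtain ⟨s, m, k⟩ := h r (hJ hr)
  exact ⟨s, m, k.filter_mono (nhdsWithin_mono _ hJ)⟩

lemma Rl.sup (h : Rl E γ a p b q) (hE : E ⊆ E') : Rl E' γ a p b q := by
  obtain ⟨L, h, k⟩ := h
  refine ⟨L, fun r hr => ?_, k⟩
  obtain ⟨s, m, k⟩ := h r hr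
  exact ⟨s, hE m, k⟩

lemma Lift.uniq (P : Pre S C E R) (hγ : ContinuousOn γ I) (hI : IsPreconnected I)
    (h : Lift E γ I L) (h' : Lift E γ I L') (ha : a ∈ I) (e : L a = L' a) : EqOn L L' I := by
  intro b hb
  refine (hI.induction₂ (fun x y => L x = L' x ↔ L y = L' y) (fun x hx => ?_)
    (fun _ _ _ _ _ _ => Iff.trans) (fun _ _ _ _ => Iff.symm) ha hb).1 e
  obtain ⟨s, m, k⟩ := h x hx
  obtain ⟨s', m', k'⟩ := h' x hx
  have v := k.self_of_nhdsWithin hx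
  have v' := k'.self_of_nhdsWithin hx
  by_cases hc : L x = L' x
  · filter_upwards [k, k', (hγ x hx).tendsto.eventually (P.uv m m' (v.trans (hc.trans v'.symm)))]
      with y a b d
    exact iff_of_true hc (a.symm.trans (d.trans b))
  · have : ¬ ∃ᶠ y in 𝓝[I] x, s (γ y) = s' (γ y) := fun f =>
      hc (v.symm.trans ((P.sep m m' ((hγ x hx).tendsto.frequently f)).trans v'))
    filter_upwards [k, k', not_frequently.1 this] with y a b d
    exact iff_of_false hc fun f => d (a.trans (f.trans b.symm))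

lemma Lift.cat (P : Pre S C E R) (hγ : ContinuousOn γ (I ∪ J)) (hI : IsClosed I) (hJ : IsClosed J)
    (hIJ : IsPreconnected (I ∩ J)) (h : Lift E γ I L) (h' : Lift E γ J L') (ha : a ∈ I ∩ J)
    (e : L a = L' a) : ∃ L2, Lift E γ (I ∪ J) L2 ∧ EqOn L2 L I ∧ EqOn L2 L' J := by
  classical
  have u := Lift.uniq P (hγ.mono (inter_subset_left.trans subset_union_left)) hIJ
    (h.mono inter_subset_left) (h'.mono inter_subset_right) ha e
  have e1 : EqOn (fun r => if r ∈ I then L r else L' r) L I := fun r hr => if_pos hr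
  have e2 : EqOn (fun r => if r ∈ I then L r else L' r) L' J := fun r hr => by
    by_cases h : r ∈ I
    · exact (if_pos h).trans (u ⟨h, hr⟩)
    · exact if_neg h
  refine ⟨_, fun r hr => ?_, e1, e2⟩
  rw [nhdsWithin_union]
  simp only [eventually_sup]
  have n1 : ∀ K : Set ℝ, IsClosed K → r ∉ K → ∀ p : ℝ → Prop, ∀ᶠ y in 𝓝[K] r, p y := fun K hK h p => by
    rw [not_neBot.1 (mt mem_closure_iff_nhdsWithin_neBot.2 (hK.closure_eq.symm ▸ h))]
    exact eventually_bot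
  by_cases h1 : r ∈ I
  · obtain ⟨s, m, k⟩ := h r h1
    refine ⟨s, m, ?_, ?_⟩
    · filter_upwards [k, self_mem_nhdsWithin] with y a b
      exact a.trans (e1 b).symm
    · by_cases h2 : r ∈ J
      · obtain ⟨s', m', k'⟩ := h' r h2
        have := P.uv m m' ((k.self_of_nhdsWithin h1).trans ((u ⟨h1, h2⟩).trans
          (k'.self_of_nhdsWithin h2).symm))
        filter_upwards [k', self_mem_nhdsWithin,
          ((hγ r hr).mono subset_union_right).tendsto.eventually this] with y a b d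
        exact d.trans (a.trans (e2 b).symm)
      · exact n1 J hJ h2 _
  · have h2 := hr.resolve_left h1
    obtain ⟨s, m, k⟩ := h' r h2
    refine ⟨s, m, n1 I hI h1 _, ?_⟩
    filter_upwards [k, self_mem_nhdsWithin] with y a b
    exact a.trans (e2 b).symm

lemma lift_germ {s : ℍ → Tot} (h : ∀ r ∈ I, (γ r, s) ∈ E) : Lift E γ I fun r => s (γ r) :=
  fun r hr => ⟨s, h r hr, Eventually.of_forall fun _ => rfl⟩

lemma Rl.refl {s : ℍ → Tot} (m : (γ a, s) ∈ E) : Rl E γ a (s (γ a)) a (s (γ a)) :=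
  ⟨_, lift_germ fun r hr => by rw [uIcc_self] at hr; rwa [mem_singleton_iff.1 hr], rfl, rfl⟩

lemma Rl.germ (h : Rl E γ a p b q) : ∃ s, (γ b, s) ∈ E ∧ s (γ b) = q := by
  obtain ⟨L, h, -, rfl⟩ := h
  obtain ⟨s, m, k⟩ := h b right_mem_uIcc
  exact ⟨s, m, k.self_of_nhdsWithin right_mem_uIcc⟩

lemma Rl.fn (P : Pre S C E R) (hγ : ContinuousOn γ (uIcc a b)) (h : Rl E γ a p b q)
    (h' : Rl E γ a p b q') : q = q' := by
  obtain ⟨L, h, e1, rfl⟩ := h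
  obtain ⟨L', h', e2, rfl⟩ := h'
  exact h.uniq P hγ isPreconnected_uIcc h' left_mem_uIcc (e1.trans e2.symm) right_mem_uIcc

lemma Rl.loc (P : Pre S C E R) (hO : IsOpen O) (hc : O.OrdConnected) (hγ : ContinuousOn γ O)
    (ha : a ∈ O) (hb : b ∈ O) {s : ℍ → Tot} (m : (γ b, s) ∈ E) :
    ∀ᶠ y in 𝓝 b, y ∈ O ∧ (Rl E γ a p y (s (γ y)) ↔ Rl E γ a p b (s (γ b))) := by
  have h1 : ∀ᶠ y in 𝓝 b, y ∈ O ∧ (γ y, s) ∈ E := (hO.eventually_mem hb).and
    ((hγ.continuousAt (hO.mem_nhds hb)).tendsto.eventually (P.opn m))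
  obtain ⟨l, u, hlu, hB, hs⟩ := exists_Icc_mem_subset_of_mem_nhds h1
  have key : ∀ y ∈ Icc l u, ∀ y' ∈ Icc l u, Rl E γ a p y (s (γ y)) → Rl E γ a p y' (s (γ y')) := by
    rintro y hy y' hy' ⟨L, hL, e1, e2⟩
    obtain ⟨L2, h2, f1, f2⟩ := Lift.cat P (hγ.mono (union_subset (hc.uIcc_subset ha (hs hy).1)
      fun x hx => (hs hx).1)) isClosed_Icc isClosed_Icc
      (ordConnected_uIcc.inter ordConnected_Icc).isPreconnected hL
      (lift_germ fun r hr => (hs hr).2) ⟨right_mem_uIcc, hy⟩ e2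
    exact ⟨L2, h2.mono (uIcc_subset_uIcc_union_uIcc.trans (union_subset_union_right _
      (ordConnected_Icc.uIcc_subset hy hy'))), (f1 left_mem_uIcc).trans e1, f2 hy'⟩
  filter_upwards [hB] with y hy
  exact ⟨(hs hy).1, key y hy b hlu, key b hlu y hy⟩

/-- the maximal lift -/
lemma maxl (P : Pre S C E R) (hO : IsOpen O) (hc : O.OrdConnected) (hγ : ContinuousOn γ O)
    (ha : a ∈ O) (h0 : Rl E γ a p a p) : ∃ (I : Set ℝ) (J : ℝ → Tot), a ∈ I ∧ J a = p ∧ I ⊆ O ∧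
    I.OrdConnected ∧ (∀ b ∈ I, Rl E γ a p b (J b)) ∧ (∀ b ∈ O, ∀ q, Rl E γ a p b q → b ∈ I) ∧
    (∀ b ∈ I, ∃ s, (γ b, s) ∈ E ∧ ∀ᶠ y in 𝓝 b, y ∈ I ∧ s (γ y) = J y) ∧
    ∀ b ∈ O, ∀ s, (γ b, s) ∈ E → (∃ᶠ y in 𝓝 b, y ∈ I ∧ s (γ y) = J y) →
      b ∈ I ∧ s (γ b) = J b := by
  classical
  have : ∀ b, ∃ q, (∃ q, Rl E γ a p b q) → Rl E γ a p b q := fun b => by
    by_cases h : ∃ q, Rl E γ a p b q
    · exact ⟨h.choose, fun _ => h.choose_spec⟩
    · exact ⟨p, fun k => absurd k h⟩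
  choose J hJ using this
  have fn : ∀ b ∈ O, ∀ q, Rl E γ a p b q → q = J b := fun b hb q h =>
    h.fn P (hγ.mono (hc.uIcc_subset ha hb)) (hJ b ⟨q, h⟩)
  refine ⟨{b | b ∈ O ∧ ∃ q, Rl E γ a p b q}, J, ⟨ha, p, h0⟩, (fn a ha p h0).symm, fun b h => h.1,
    ordConnected_of_uIcc_subset_left (x := a) ?_, fun b h => hJ b h.2, fun b h q k => ⟨h, q, k⟩,
    fun b h => ?_, fun b hb s m f => ?_⟩
  · rintro b ⟨hb, q, L, hL, e1, -⟩ y hy
    exact ⟨hc.uIcc_subset ha hb hy, L y, L, hL.mono (uIcc_subset_uIcc_left hy), e1, rfl⟩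
  · obtain ⟨s, m, e⟩ := (hJ b h.2).germ
    refine ⟨s, m, (Rl.loc (p := p) P hO hc hγ ha h.1 m).mono fun y hy => ?_⟩
    have := hy.2.2 (e ▸ hJ b h.2)
    exact ⟨⟨hy.1, _, this⟩, fn y hy.1 _ this⟩
  · obtain ⟨y, ⟨h1, h2⟩, h3⟩ := (f.and_eventually (Rl.loc (p := p) P hO hc hγ ha hb m)).exists
    have := h3.2.1 (h2 ▸ hJ y h1.2)
    exact ⟨⟨hb, _, this⟩, fn b hb _ this⟩

lemma ev_self {r : ℝ} {p : ℝ × ℝ → Prop} (h : ∀ᶠ w in 𝓝 (r, r), p w) :
    ∃ T ∈ 𝓝 r, ∀ x ∈ T, ∀ y ∈ T, p (x, y) := by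
  rw [nhds_prod_eq] at h
  exact (eventually_prod_self_iff (r := fun x y => p (x, y))).1 h

lemma loc_glob (hI : I.OrdConnected) (Q : ℝ → ℝ → Prop) (tr : ∀ x y z, Q x y → Q y z → Q x z)
    (h : ∀ r ∈ I, ∀ᶠ w : ℝ × ℝ in 𝓝 (r, r), w.1 < w.2 → Q w.1 w.2) {x y : ℝ} (hx : x ∈ I)
    (hy : y ∈ I) (hxy : x < y) : Q x y := by
  refine isPreconnected_Icc.induction₂' (s := Icc x y)
    (fun u v => (∀ t ∈ Ioc x u, Q x t) → ∀ t ∈ Ioc x v, Q x t) (fun r hr => ?_)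
    (fun _ _ _ _ _ _ a b d => b (a d)) (left_mem_Icc.2 hxy.le) (right_mem_Icc.2 hxy.le)
    (fun t ht => absurd ht.1 ht.2.not_gt) y ⟨hxy, le_rfl⟩
  have h1 := h r (hI.out hx hy hr)
  obtain ⟨T, hT, h1⟩ := ev_self h1
  obtain ⟨l, u, hlu, hB, hs⟩ := exists_Icc_mem_subset_of_mem_nhds hT
  have key : ∀ a ∈ Icc l u, ∀ b ∈ Icc l u, x ≤ a → (∀ t ∈ Ioc x a, Q x t) →
      ∀ t ∈ Ioc x b, Q x t := fun a ha b hb hxa k t ht => by
    rcases le_or_gt t a with h2 | h2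
    · exact k t ⟨ht.1, h2⟩
    · have := h1 a (hs ha) t (hs ⟨ha.1.trans h2.le, ht.2.trans hb.2⟩) h2
      rcases hxa.eq_or_lt with rfl | h3
      · exact this
      · exact tr _ _ _ (k a ⟨h3, le_rfl⟩) this
  filter_upwards [mem_nhdsWithin_of_mem_nhds hB, self_mem_nhdsWithin] with v a b
  exact ⟨key r hlu v a hr.1, key v a r hlu b.1⟩

lemma pair_tendsto {f : ℝ → ℍ} {r : ℝ} (h : ContinuousAt f r) :
    Tendsto (fun w : ℝ × ℝ => (f w.1, f w.2)) (𝓝 (r, r)) (𝓝 (f r, f r)) :=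
  (h.tendsto.comp continuousAt_fst.tendsto).prodMk_nhds (h.tendsto.comp continuousAt_snd.tendsto)

lemma ang_lip (hg : GlueSt) (S : Sys) (hC : 0 < C) : ∃ M, 0 ≤ M ∧ ∀ (E : Set Gm)
    (R : Lf → Lf → Prop) (γ : ℝ → ℍ) (I : Set ℝ) (J : ℝ → Tot) (K : ℝ), Pre S C E R →
    I.OrdConnected → (∀ b ∈ I, ContinuousAt γ b) →
    (∀ b ∈ I, ∃ s, (γ b, s) ∈ E ∧ ∀ᶠ y in 𝓝 b, y ∈ I ∧ s (γ y) = J y) →
    (∀ x ∈ I, ∀ y ∈ I, dist (γ y) (γ x) ≤ K * |y - x|) →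
    ∀ x ∈ I, ∀ y ∈ I, |(dev S (J y)).2 - (dev S (J x)).2| ≤ M * K * |y - x| := by
  obtain ⟨M, hM⟩ := (hg S C hC).2.2.1
  refine ⟨max M 0, le_max_right _ _, fun E R γ I J K P hI hγ h hK => ?_⟩
  have key : ∀ x ∈ I, ∀ y ∈ I, x < y →
      |(dev S (J y)).2 - (dev S (J x)).2| ≤ max M 0 * K * (y - x) := fun x hx y hy hxy => by
    refine loc_glob hI (fun x y => |(dev S (J y)).2 - (dev S (J x)).2| ≤ max M 0 * K * (y - x))
      (fun x y z a b => ?_) (fun r hr => ?_) hx hy hxy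
    · have := abs_sub_le (dev S (J z)).2 (dev S (J y)).2 (dev S (J x)).2
      linarith
    · obtain ⟨s, m, k⟩ := h r hr
      filter_upwards [pair_ev k, (pair_tendsto (hγ r hr)).eventually (hM _ _ (P.gd m))] with w a b d
      simp only [a.1.2, a.2.2] at b
      have := hK _ a.1.1 _ a.2.1
      rw [abs_of_pos (sub_pos.2 d)] at this
      calc _ ≤ max M 0 * dist (γ w.2) (γ w.1) :=
            b.trans (mul_le_mul_of_nonneg_right (le_max_left _ _) dist_nonneg)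
        _ ≤ max M 0 * (K * (w.2 - w.1)) := mul_le_mul_of_nonneg_left this (le_max_right _ _)
        _ = _ := by ring
  intro x hx y hy
  rcases lt_trichotomy x y with h1 | rfl | h1
  · rw [abs_of_pos (sub_pos.2 h1)]; exact key x hx y hy h1
  · simp
  · rw [abs_sub_comm, abs_sub_comm y, abs_of_pos (sub_pos.2 h1)]; exact key y hy x hx h1

lemma seg_lip {z w : ℍ} {m : ℝ} (hm : 0 < m) (h1 : m ≤ z.im) (h2 : m ≤ w.im) :
    dist z w ≤ ‖(z : ℂ) - w‖ / m := by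
  refine (dist_le_dist_coe_div_sqrt z w).trans ?_
  rw [dist_eq_norm]
  refine div_le_div_of_nonneg_left (norm_nonneg _) hm (Real.le_sqrt_of_sq_le ?_)
  rw [sq]
  exact mul_le_mul h1 h2 hm.le z.im_pos.le

lemma ray_im (z q : ℍ) (r : ℝ) :
    min z.im q.im ≤ ((z : ℂ) + (max 0 (min r 1) : ℝ) * ((q : ℂ) - z)).im := by
  have h0 : 0 ≤ max 0 (min r 1) := le_max_left _ _
  have h1 : max 0 (min r 1) ≤ 1 := max_le zero_le_one (min_le_right _ _)
  generalize max 0 (min r 1) = t at h0 h1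
  simp only [Complex.add_im, Complex.mul_im, Complex.ofReal_re, Complex.ofReal_im, Complex.sub_im,
    coe_im, zero_mul, add_zero]
  nlinarith [min_le_left z.im q.im, min_le_right z.im q.im]

def ray (z q : ℍ) (r : ℝ) : ℍ :=
  ⟨(z : ℂ) + (max 0 (min r 1) : ℝ) * ((q : ℂ) - z),
    (lt_min z.im_pos q.im_pos).trans_le (ray_im z q r)⟩

lemma ray_cont (z : ℍ) : Continuous fun x : ℍ × ℝ => ray z x.1 x.2 := by
  rw [isEmbedding_coe.continuous_iff]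
  change Continuous fun x : ℍ × ℝ => (z : ℂ) + (max 0 (min x.2 1) : ℝ) * ((x.1 : ℂ) - z)
  fun_prop

lemma ray_zero (z q : ℍ) : ray z q 0 = z := UpperHalfPlane.ext (by simp [ray])

lemma ray_one (z q : ℍ) : ray z q 1 = q := UpperHalfPlane.ext (by simp [ray])

lemma ray_self (z : ℍ) (r : ℝ) : ray z z r = z := UpperHalfPlane.ext (by simp [ray])

lemma ray_lip (z q : ℍ) (x y : ℝ) :
    dist (ray z q y) (ray z q x) ≤ ‖(q : ℂ) - z‖ / min z.im q.im * |y - x| := by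
  have hm := lt_min z.im_pos q.im_pos
  refine (seg_lip (z := ray z q y) (w := ray z q x) hm (ray_im z q y) (ray_im z q x)).trans ?_
  have : ((ray z q y : ℍ) : ℂ) - (ray z q x : ℍ) =
      ((max 0 (min y 1) - max 0 (min x 1) : ℝ) : ℂ) * ((q : ℂ) - z) := by
    change (z : ℂ) + _ - ((z : ℂ) + _) = _
    push_cast
    ring
  rw [this, norm_mul, Complex.norm_real, Real.norm_eq_abs, div_mul_eq_mul_div, mul_comm]
  refine div_le_div_of_nonneg_right (mul_le_mul_of_nonneg_left ?_ (norm_nonneg _)) hm.le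
  have h1 := abs_max_sub_max_le_max (0 : ℝ) (min y 1) 0 (min x 1)
  have h2 := abs_min_sub_min_le_max y 1 x 1
  rw [sub_self, abs_zero, max_eq_right (abs_nonneg (min y 1 - min x 1))] at h1
  rw [sub_self, abs_zero, max_eq_left (abs_nonneg (y - x))] at h2
  exact h1.trans h2

end

end Pool.Agent.Lib.MP_21f752_an.FZor
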