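import Pool.Agent.Lib.MP_21f752_an.FZ2
import Pool.Agent.Lib.MP_21f752_an.FZp

/-! A path whose lift converges in angle lifts to its end point in a larger sheet. -/

namespace Pool.Agent.Lib.MP_21f752_an.FZor

open UpperHalfPlane Set Filter Topology Metric

noncomputable section

variable {S : Sys} {C : ℝ} {E : Set Gm} {R : Lf → Lf → Prop}

lemma sg_zero (ξ : N) : S.sg ξ 0 = ξ.1 := by simp [Sys.sg]

/-- the normal segment on a small interval -/
lemma sg_small (S : Sys) (ξ : N) {M : ℝ} (hM : 0 ≤ M) {ε1 : ℝ} (h1 : 0 < ε1) :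
    ∃ ε K, 0 < ε ∧ ε ≤ ε1 ∧ 0 ≤ K ∧
    (∀ η, |η| < ε → (S.sg ξ η : ℂ) = ξ.1 + η * (Complex.I * S.V ξ)) ∧
    (∀ η, |η| < ε → ContinuousAt (S.sg ξ) η) ∧
    (∀ x y, |x| < ε → |y| < ε → dist (S.sg ξ y) (S.sg ξ x) ≤ K * |y - x|) ∧
    ∀ η θ, |η| < ε → |θ - ξ.2| ≤ M * K * |η| →
      |(Complex.I * S.V ξ / S.V (S.sg ξ η, θ)).re| < (Complex.I * S.V ξ / S.V (S.sg ξ η, θ)).im := by
  have hz := ξ.1.im_pos
  have c1 : Continuous fun η : ℝ => (ξ.1 : ℂ) + η * (Complex.I * S.V ξ) := by fun_prop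
  have e1 : ∀ᶠ η : ℝ in 𝓝 0, ξ.1.im / 2 < ((ξ.1 : ℂ) + η * (Complex.I * S.V ξ)).im :=
    continuousAt_const.eventually_lt (Complex.continuous_im.comp c1).continuousAt (by simpa using hz)
  obtain ⟨δ, hδ, e1⟩ := Metric.eventually_nhds_iff.1 e1
  simp only [Real.dist_eq, sub_zero] at e1
  have f1 : ∀ η, |η| < δ → (S.sg ξ η : ℂ) = ξ.1 + η * (Complex.I * S.V ξ) := fun η h => by
    rw [Sys.sg, ofComplex_apply_of_im_pos ((half_pos hz).trans (e1 h))]
  have f2 : ∀ η, |η| < δ → ContinuousAt (S.sg ξ) η := fun η h => by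
    rw [isEmbedding_coe.continuousAt_iff]
    refine c1.continuousAt.congr ?_
    filter_upwards [continuous_abs.continuousAt.eventually_lt continuousAt_const h] with y hy
    exact (f1 y hy).symm
  have c2 : ContinuousAt (fun x : ℝ × ℝ => Complex.I * S.V ξ / S.V (S.sg ξ x.1, x.2)) (0, ξ.2) :=
    continuousAt_const.div (S.continuous_V.continuousAt.comp (ContinuousAt.prodMk
      (ContinuousAt.comp (f := fun x : ℝ × ℝ => x.1) (x := (0, ξ.2)) (f2 0 (by simpa)) continuousAt_fst)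
      continuousAt_snd)) (S.V_ne _)
  have e2 := (continuous_abs.continuousAt.comp (Complex.continuous_re.continuousAt.comp c2)).eventually_lt
    (Complex.continuous_im.continuousAt.comp c2) (by
      simp only [Function.comp, sg_zero, mul_div_assoc, div_self (S.V_ne ξ)]
      simp)
  obtain ⟨ρ, hρ, e2⟩ := Metric.eventually_nhds_iff.1 e2
  set K := ‖S.V ξ‖ / (ξ.1.im / 2) with hK
  have K0 : 0 ≤ K := by positivity
  refine ⟨min (min δ ε1) (ρ / (M * K + 1)), K, by positivity,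
    (min_le_left _ _).trans (min_le_right _ _), K0, fun η h => f1 η (lt_min_iff.1 (lt_min_iff.1 h).1).1,
    fun η h => f2 η (lt_min_iff.1 (lt_min_iff.1 h).1).1, fun x y hx hy => ?_, fun η θ h h' => ?_⟩
  · have hx := (lt_min_iff.1 (lt_min_iff.1 hx).1).1
    have hy := (lt_min_iff.1 (lt_min_iff.1 hy).1).1
    refine (seg_lip (half_pos hz) (by rw [← coe_im (S.sg ξ y), f1 y hy]; exact (e1 hy).le)
      (by rw [← coe_im (S.sg ξ x), f1 x hx]; exact (e1 hx).le)).trans_eq ?_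
    rw [f1 y hy, f1 x hx, add_sub_add_left_eq_sub, ← sub_mul, ← Complex.ofReal_sub, norm_mul,
      norm_mul, Complex.norm_I, Complex.norm_real, Real.norm_eq_abs, hK]
    ring
  · have h2 := (lt_div_iff₀ (by positivity)).1 (lt_min_iff.1 h).2
    have h3 : 0 ≤ M * K * |η| := by positivity
    refine e2 (y := (η, θ)) (max_lt ?_ ?_)
    · rw [Real.dist_eq, sub_zero]; nlinarith
    · rw [Real.dist_eq]; nlinarith [abs_nonneg η]

lemma finish (P : Pre S C E R) {γ σ : ℝ → ℍ} {L : ℝ → Tot} {t : ℝ → ℝ} {l : Filter ℝ} {z : ℍ}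
    {s : ℍ → Tot} (m : (z, s) ∈ E) (h1 : Tendsto σ l (𝓝 z)) (h2 : Tendsto t l (𝓝 0))
    (h3 : ∀ᶠ r in l, s (σ r) = sh (t r) (L r) ∧ (dev S (L r)).1 = γ r) :
    ∃ s, (z, s) ∈ E ∧ ∀ᶠ r in l, s (γ r) = L r := by
  obtain ⟨s2, m2, k⟩ := P.fl m 0
  rw [sh_zero, P.sec m] at m2
  refine ⟨s2, m2, ?_⟩
  have := h2.neg
  rw [neg_zero] at this
  filter_upwards [(h1.prodMk_nhds this).eventually k, h3] with r a b
  simpa only [b.1, sh_sh, add_neg_cancel, sh_zero, b.2] using a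

lemma dat_of (hg : GlueSt) (hC : 0 < C) (P : Pre S C E R) {ξ : N} {a : ℝ → ℝ} {ε0 K η0 : ℝ}
    {I : Set ℝ} {J : ℝ → Tot} {lab : Option (ℍ × ℝ)} (a0 : a 0 = ξ.2) (K0 : 0 ≤ K)
    (ha : ∀ η, |η| < ε0 → S.PC C (fun s => (S.sg ξ s, a s)) η)
    (f1 : ∀ η, |η| < ε0 → (S.sg ξ η : ℂ) = ξ.1 + η * (Complex.I * S.V ξ))
    (f2 : ∀ η, |η| < ε0 → ContinuousAt (S.sg ξ) η)
    (f4 : ∀ η θ, |η| < ε0 → |θ - ξ.2| ≤ K * |η| →
      |(Complex.I * S.V ξ / S.V (S.sg ξ η, θ)).re| < (Complex.I * S.V ξ / S.V (S.sg ξ η, θ)).im)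
    (h0 : η0 ≠ 0) (h1 : |η0| < ε0) (iO : ∀ η ∈ I, |η| < ε0) (ic : I.OrdConnected)
    (iI : ∀ η, |η| < |η0| → -η0 * η < 0 → η ∈ I)
    (g1 : ∀ b ∈ I, ∃ s, (S.sg ξ b, s) ∈ E ∧ ∀ᶠ y in 𝓝 b, y ∈ I ∧ s (S.sg ξ y) = J y)
    (g2 : ∀ s, (S.sg ξ 0, s) ∈ E → ¬ ∃ᶠ y in 𝓝 0, y ∈ I ∧ s (S.sg ξ y) = J y)
    (l1 : ∀ x ∈ I, ∀ y ∈ I, |(dev S (J y)).2 - (dev S (J x)).2| ≤ K * |y - x|)
    (l2 : ∀ x ∈ I, |(dev S (J x)).2 - ξ.2| ≤ K * |x|) (fr : ∀ a, Used E a → a.1 ≠ lab) :
    Dat S C E R (fun η => if -η0 * η < 0 then J η else ((lab, η, (S.sg ξ η, a η)), 0)) |η0| (-η0)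
      lab := by
  set c : ℝ → Tot := fun η => if -η0 * η < 0 then J η else ((lab, η, (S.sg ξ η, a η)), 0) with hc
  have co : ∀ η, -η0 * η < 0 → c η = J η := fun η h => if_pos h
  have cn : ∀ η, 0 ≤ -η0 * η → c η = ((lab, η, (S.sg ξ η, a η)), 0) := fun η h => if_neg h.not_gt
  have dn : ∀ η, 0 ≤ -η0 * η → dev S (c η) = (S.sg ξ η, a η) := fun η h => by
    rw [cn η h]; exact S.φ_zero _
  have dj : ∀ η ∈ I, (dev S (J η)).1 = S.sg ξ η := fun η h => by
    obtain ⟨s, m, k⟩ := g1 η h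
    rw [← k.self_of_nhds.2]; exact P.sec m
  have db : ∀ η, |η| < |η0| → (dev S (c η)).1 = S.sg ξ η := fun η h => by
    rcases lt_or_ge (-η0 * η) 0 with k | k
    · rw [co η k, dj η (iI η h k)]
    · rw [dn η k]
  have d0 : dev S (c 0) = ξ := by rw [dn 0 (by simp), sg_zero, a0]
  have p0 : (0 : ℝ) < |η0| := abs_pos.2 h0
  have ev : ∀ η, |η| < |η0| → ∀ᶠ y in 𝓝 η, |y| < |η0| := fun η h =>
    continuous_abs.continuousAt.eventually_lt continuousAt_const h
  have cm : Continuous fun y : ℝ => -η0 * y := by fun_prop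
  have old : ∀ η, |η| < |η0| → -η0 * η < 0 → ∃ s, (S.sg ξ η, s) ∈ E ∧
      ∀ᶠ y in 𝓝 η, s (S.sg ξ y) = c y ∧ (dev S (c y)).1 = S.sg ξ y := fun η h k => by
    obtain ⟨s, m, g⟩ := g1 η (iI η h k)
    refine ⟨s, m, ?_⟩
    filter_upwards [g, ev η h, cm.continuousAt.eventually_lt continuousAt_const k] with y u v w
    exact ⟨u.2.trans (co y w).symm, db y v⟩
  have pc : ∀ η, |η| < |η0| → η ≠ 0 → S.PC C (fun y => dev S (c y)) η := fun η h hη => by
    rcases lt_or_ge (-η0 * η) 0 with k | k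
    · obtain ⟨s, m, g⟩ := old η h k
      refine pc_congr ((hg S C hC).2.1 (fun w => (dev S (s w)).2) (S.sg ξ) ξ.1 (Complex.I * S.V ξ) η
        ((ev η h).mono fun y hy => f1 y (hy.trans h1)) ?_ (P.gd m)) ?_
      · refine (abs_nonneg _).trans_lt (f4 η _ (h.trans h1) ?_)
        rw [g.self_of_nhds.1, co η k]
        exact l2 η (iI η h k)
      · filter_upwards [g] with y hy
        exact Prod.ext hy.2 (by simp only [hy.1])
    · have k' : 0 < -η0 * η := k.lt_of_ne (mul_ne_zero (neg_ne_zero.2 h0) hη).symm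
      refine pc_congr (ha η (h.trans h1)) ?_
      filter_upwards [continuousAt_const.eventually_lt cm.continuousAt k'] with y hy
      exact dn y hy.le
  have e0 : |(0 : ℝ)| < |η0| := by simpa using h0
  refine ⟨fun η h => ?_, fun η h k => ?_, fun η h k => by rw [cn η k]; exact ⟨rfl, rfl⟩, fr,
    fun s m f => ?_, fun x y hx hy kx ky hxy => ?_⟩
  · rcases eq_or_ne η 0 with rfl | hη
    · refine (hg S C hC).1 _ 0 ?_ ⟨1, one_pos, ?_⟩ ?_
      · obtain ⟨M, hM⟩ := (ha 0 (e0.trans h1)).lip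
        obtain ⟨T, hT, hM⟩ := ev_self hM
        have hA : ∀ x ∈ T, ∀ y ∈ T, |a y - a x| ≤ |M| * |y - x| := fun x hx y hy =>
          ((norm_snd_le _).trans (hM x hx y hy)).trans
            (mul_le_mul_of_nonneg_right (le_abs_self M) (abs_nonneg _))
        have mix : ∀ x y, |x| < |η0| → y ∈ T → -η0 * x < 0 → 0 ≤ -η0 * y →
            |a y - (dev S (J x)).2| ≤ (K + |M|) * |y - x| := fun x y hx hy kx ky => by
          have u1 := l2 x (iI x hx kx)
          have u2 := hA 0 (mem_of_mem_nhds hT) y hy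
          rw [a0, sub_zero] at u2
          have u3 : x * y ≤ 0 := by
            by_contra hh
            have := mul_pos (neg_pos.2 kx) (not_le.1 hh)
            nlinarith [mul_self_nonneg x]
          have u4 : |x| ≤ |y - x| := sq_le_sq.1 (by nlinarith [mul_self_nonneg y])
          have u5 : |y| ≤ |y - x| := sq_le_sq.1 (by nlinarith [mul_self_nonneg x])
          have u6 := abs_sub_le (a y) ξ.2 (dev S (J x)).2
          rw [abs_sub_comm ξ.2] at u6
          nlinarith [mul_le_mul_of_nonneg_left u4 K0, mul_le_mul_of_nonneg_left u5 (abs_nonneg M)]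
        refine ⟨‖S.V ξ‖ + (K + |M|), ?_⟩
        filter_upwards [pair_ev ((ev 0 e0).and hT)] with x hx
        have w0 := abs_nonneg (x.2 - x.1)
        refine max_le ?_ ?_
        · change ‖((dev S (c x.2)).1 : ℂ) - (dev S (c x.1)).1‖ ≤ _
          rw [db _ hx.1.1, db _ hx.2.1, f1 _ (hx.1.1.trans h1), f1 _ (hx.2.1.trans h1),
            add_sub_add_left_eq_sub, ← sub_mul, ← Complex.ofReal_sub, norm_mul, norm_mul,
            Complex.norm_I, Complex.norm_real, Real.norm_eq_abs]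
          nlinarith [mul_nonneg (add_nonneg K0 (abs_nonneg M)) w0]
        · change |(dev S (c x.2)).2 - (dev S (c x.1)).2| ≤ _
          refine le_trans ?_ (mul_le_mul_of_nonneg_right (le_add_of_nonneg_left (norm_nonneg _)) w0)
          rcases lt_or_ge (-η0 * x.1) 0 with k | k <;> rcases lt_or_ge (-η0 * x.2) 0 with k' | k'
          · rw [co _ k, co _ k']
            nlinarith [l1 _ (iI _ hx.1.1 k) _ (iI _ hx.2.1 k'), mul_nonneg (abs_nonneg M) w0]
          · rw [co _ k, dn _ k']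
            exact mix _ _ hx.1.1 hx.2.2 k k'
          · rw [dn _ k, co _ k', abs_sub_comm, abs_sub_comm x.2]
            exact mix _ _ hx.2.1 hx.1.2 k' k
          · rw [dn _ k, dn _ k']
            nlinarith [hA _ hx.1.2 _ hx.2.2, mul_nonneg K0 w0]
      · filter_upwards [pair_ev (ev 0 e0)] with x hx _
        change _ ≤ ((((dev S (c x.2)).1 : ℂ) - (dev S (c x.1)).1) / S.V (dev S (c 0))).im
        rw [d0, db _ hx.1, db _ hx.2, f1 _ (hx.1.trans h1), f1 _ (hx.2.trans h1),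
          add_sub_add_left_eq_sub, ← sub_mul, ← Complex.ofReal_sub, mul_div_assoc, mul_div_assoc,
          div_self (S.V_ne ξ)]
        simp
      · filter_upwards [mem_nhdsWithin_of_mem_nhds (ev 0 e0), self_mem_nhdsWithin] with y u v
        exact pc y u v
    · exact pc η h hη
  · obtain ⟨s, m, g⟩ := old η h k
    exact ⟨s, by rwa [db η h], g.mono fun y hy => by rw [hy.2, hy.1]⟩
  · rw [db 0 e0] at m
    refine g2 s m ((f.and_eventually (ev 0 e0)).mono ?_)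
    rintro y ⟨⟨u, v⟩, w⟩
    rw [db y w, co y u] at v
    exact ⟨iI y w u, v⟩
  · rw [co x kx, co y ky]
    refine loc_glob ic (fun x y => R (J x).1 (J y).1) (fun _ _ _ => P.tra) (fun r hr => ?_)
      (iI x hx kx) (iI y hy ky) hxy
    obtain ⟨s, m, g⟩ := g1 r hr
    have u := f4 r _ (iO r hr) (l2 r hr)
    rw [← dj r hr, ← g.self_of_nhds.2] at u
    filter_upwards [pair_ev g, (pair_tendsto (f2 r (iO r hr))).eventually (P.inc m)] with w a b d
    simp only [a.1.2, a.2.2] at b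
    refine b ?_
    rw [f1 _ (iO _ a.1.1), f1 _ (iO _ a.2.1), add_sub_add_left_eq_sub, ← sub_mul,
      ← Complex.ofReal_sub, mul_div_assoc, Complex.re_ofReal_mul, Complex.im_ofReal_mul, abs_mul,
      abs_of_pos (sub_pos.2 d)]
    exact mul_lt_mul_of_pos_left u (sub_pos.2 d)

theorem step (hb : BoxSt) (hg : GlueSt) (hC : 0 < C) (hc : S.Curves C) (P : Pre S C E R)
    {γ : ℝ → ℍ} (hγ : Continuous γ) {r0 : ℝ} {L : ℝ → Tot} {ξ : N}
    (hL : ∀ᶠ r in 𝓝[<] r0, ∃ s, (γ r, s) ∈ E ∧ ∀ᶠ y in 𝓝 r, s (γ y) = L y)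
    (hξ : Tendsto (fun r => dev S (L r)) (𝓝[<] r0) (𝓝 ξ)) {lab : Option (ℍ × ℝ)}
    (fr : ∀ a, Used E a → a.1 ≠ lab) : ∃ E' R', Pre S C E' R' ∧ E ⊆ E' ∧ R ≤ R' ∧
      (∀ a, Used E' a → Used E a ∨ a.1 = lab) ∧
      ∃ s, (ξ.1, s) ∈ E' ∧ ∀ᶠ r in 𝓝[<] r0, s (γ r) = L r := by
  obtain ⟨U, hU, tt, ee, t0, e0, hp⟩ := push S ξ
  obtain ⟨M, M0, hM⟩ := ang_lip hg S hC
  obtain ⟨ε1, h1, a, a0, ha⟩ := hc ξ
  obtain ⟨ε, K, hε, hε1, K0, f1, f2, f3, f4⟩ := sg_small S ξ M0 h1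
  have tη : Tendsto (fun r => ee (dev S (L r))) (𝓝[<] r0) (𝓝 0) :=
    e0 ▸ (hp ξ (mem_of_mem_nhds hU)).2.1.tendsto.comp hξ
  have tτ : Tendsto (fun r => tt (dev S (L r))) (𝓝[<] r0) (𝓝 0) :=
    t0 ▸ (hp ξ (mem_of_mem_nhds hU)).1.tendsto.comp hξ
  have tσ : Tendsto (fun r => S.sg ξ (ee (dev S (L r)))) (𝓝[<] r0) (𝓝 ξ.1) :=
    sg_zero (S := S) ξ ▸ (f2 0 (by simpa)).tendsto.comp tη
  obtain ⟨r1, hr1, hT⟩ := mem_nhdsLT_iff_exists_Ioo_subset.1 (hL.and ((hξ.eventually hU).and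
    (tη.eventually (continuous_abs.continuousAt.eventually_lt continuousAt_const
      (show |(0 : ℝ)| < ε by simpa)))))
  have evT : ∀ᶠ r in 𝓝[<] r0, r ∈ Ioo r1 r0 := Ioo_mem_nhdsLT hr1
  set η : ℝ → ℝ := fun r => ee (dev S (L r)) with hη
  set Q : ℝ → Tot := fun r => sh (tt (dev S (L r))) (L r) with hQ
  have base : ∀ r ∈ Ioo r1 r0, (dev S (L r)).1 = γ r := fun r hr => by
    obtain ⟨s, m, k⟩ := (hT hr).1
    rw [← k.self_of_nhds]; exact P.sec m
  have qb : ∀ r ∈ Ioo r1 r0, (dev S (Q r)).1 = S.sg ξ (η r) := fun r hr => by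
    simp only [hQ, dev_sh]; exact (hp _ (hT hr).2.1).2.2
  have loc : ∀ r ∈ Ioo r1 r0, ContinuousAt η r ∧
      ∃ s2, (S.sg ξ (η r), s2) ∈ E ∧ ∀ᶠ y in 𝓝 r, s2 (S.sg ξ (η y)) = Q y := fun r hr => by
    obtain ⟨s, m, k⟩ := (hT hr).1
    have c1 : ContinuousAt (fun y => dev S (L y)) r := by
      have := (dev_cont hg hC ((P.opn m).mono fun w h => P.sec h) (P.gd m)).comp (hγ.tendsto r)
      rw [k.self_of_nhds] at this
      exact this.congr' (k.mono fun y hy => by simp only [Function.comp, hy])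
    refine ⟨(hp _ (hT hr).2.1).2.1.tendsto.comp c1, ?_⟩
    obtain ⟨s2, m2, k2⟩ := P.fl m (tt (dev S (L r)))
    rw [k.self_of_nhds, qb r hr] at m2
    refine ⟨s2, m2, ?_⟩
    filter_upwards [((hγ.tendsto r).prodMk_nhds
      ((hp _ (hT hr).2.1).1.tendsto.comp c1)).eventually k2, k, isOpen_Ioo.eventually_mem hr]
      with y u v w
    simp only [v, Function.comp] at u
    rw [← qb y w]
    exact u
  obtain ⟨r2, hr2⟩ := evT.exists
  have cO : ContinuousOn (S.sg ξ) (Ioo (-ε) ε) := fun y hy => (f2 y (abs_lt.2 hy)).continuousWithinAt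
  obtain ⟨I, J, i0, j0, iO, ic, -, -, g1, g2⟩ := maxl (γ := S.sg ξ) (a := η r2) (p := Q r2) P
    isOpen_Ioo ordConnected_Ioo cO (abs_lt.1 (hT hr2).2.2) (by
      obtain ⟨s2, m2, k2⟩ := (loc r2 hr2).2
      exact k2.self_of_nhds ▸ Rl.refl m2)
  have run : ∀ r ∈ Ioo r1 r0, η r ∈ I ∧ J (η r) = Q r := fun r hr => by
    refine (isPreconnected_Ioo.induction₂ (fun x y => (η x ∈ I ∧ J (η x) = Q x) ↔
      (η y ∈ I ∧ J (η y) = Q y)) (fun x hx => ?_) (fun _ _ _ _ _ _ => Iff.trans)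
      (fun _ _ _ _ => Iff.symm) hr2 hr).1 ⟨i0, j0⟩
    obtain ⟨c1, s2, m2, k2⟩ := loc x hx
    refine mem_nhdsWithin_of_mem_nhds ?_
    by_cases h : η x ∈ I ∧ J (η x) = Q x
    · obtain ⟨s, m, k⟩ := g1 _ h.1
      have := P.uv m m2 (k.self_of_nhds.2.trans (h.2.trans k2.self_of_nhds.symm))
      filter_upwards [k2, c1.tendsto.eventually k,
        ((f2 _ (hT hx).2.2).tendsto.comp c1).eventually this] with y u v w
      exact iff_of_true h ⟨v.1, v.2.symm.trans (w.trans u)⟩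
    · have : ¬ ∃ᶠ y in 𝓝 x, η y ∈ I ∧ J (η y) = Q y := fun f => by
        have := g2 _ (abs_lt.1 (hT hx).2.2) s2 m2 (c1.tendsto.frequently
          ((f.and_eventually k2).mono fun y hy => ⟨hy.1.1, hy.2.trans hy.1.2.symm⟩))
        exact h ⟨this.1, this.2.symm.trans k2.self_of_nhds⟩
      filter_upwards [not_frequently.1 this] with y u
      exact iff_of_false h u
  have iO' : ∀ y ∈ I, |y| < ε := fun y hy => abs_lt.2 (iO hy)
  have l1 := hM E R _ I J K P ic (fun b h => f2 b (iO' b h)) g1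
    fun x hx y hy => f3 x y (iO' x hx) (iO' y hy)
  have l2 : ∀ x ∈ I, |(dev S (J x)).2 - ξ.2| ≤ M * K * |x| := fun x hx => by
    have u1 : Tendsto (fun r => (dev S (Q r)).2) (𝓝[<] r0) (𝓝 ξ.2) := by
      have := ((continuous_snd.comp S.continuous_φ).tendsto (0, ξ)).comp (tτ.prodMk_nhds hξ)
      simpa only [Function.comp_def, S.φ_zero, hQ, dev_sh] using this
    have u2 := ((tendsto_const_nhds (x := x)).sub tη).abs.const_mul (M * K)
    rw [sub_zero] at u2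
    refine le_of_tendsto_of_tendsto (tendsto_const_nhds.sub u1).abs u2 (evT.mono fun r hr => ?_)
    have := l1 _ (run r hr).1 x hx
    rwa [(run r hr).2] at this
  by_cases h0 : (0 : ℝ) ∈ I
  · obtain ⟨s, m, k⟩ := g1 0 h0
    rw [sg_zero] at m
    refine ⟨E, R, P, Subset.rfl, le_rfl, fun a h => Or.inl h, finish P m tσ tτ ?_⟩
    filter_upwards [tη.eventually k, evT] with r u v
    exact ⟨u.2.trans (run r v).2, base r v⟩
  · have sgn : ∀ y ∈ I, -η r2 * y < 0 := fun y hy => by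
      by_contra hh
      refine h0 (ic.uIcc_subset i0 hy (mem_uIcc.2 ?_))
      by_contra h3
      push Not at h3 hh
      rcases le_total (η r2) 0 with h4 | h4
      · have h5 := h3.1 h4
        have h6 : η r2 < 0 := lt_of_not_ge fun h => (h3.2 h5.le).not_ge (by linarith)
        nlinarith [mul_pos_of_neg_of_neg h5 h6]
      · have h5 : 0 < y := lt_of_not_ge fun h => (h3.2 h).not_ge h4
        have h6 : 0 < η r2 := lt_of_not_ge fun h => (h3.1 h).not_ge h5.le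
        nlinarith [mul_pos h5 h6]
    have n0 : η r2 ≠ 0 := fun h => h0 (h ▸ i0)
    have iI : ∀ y, |y| < |η r2| → -η r2 * y < 0 → y ∈ I := fun y u v => by
      have y0 : y ≠ 0 := by rintro rfl; simp at v
      obtain ⟨r, w1, w2⟩ := ((tη.eventually (continuous_abs.continuousAt.eventually_lt
        continuousAt_const (show |(0 : ℝ)| < |y| by simpa))).and evT).exists
      have w3 := sgn _ (run r w2).1
      refine ic.uIcc_subset i0 (run r w2).1 (mem_uIcc.2 ?_)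
      change |η r| < |y| at w1
      rcases lt_or_gt_of_ne n0 with h | h
      · have a1 : y < 0 := by nlinarith
        have a2 : η r < 0 := by nlinarith
        rw [abs_of_neg a1, abs_of_neg a2] at w1
        rw [abs_of_neg a1, abs_of_neg h] at u
        exact Or.inl ⟨by linarith, by linarith⟩
      · have a1 : 0 < y := by nlinarith
        have a2 : 0 < η r := by nlinarith
        rw [abs_of_pos a1, abs_of_pos a2] at w1
        rw [abs_of_pos a1, abs_of_pos h] at u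
        exact Or.inr ⟨by linarith, by linarith⟩
    have D := dat_of hg hC P a0 (mul_nonneg M0 K0) (fun y hy => ha y (hy.trans_le hε1)) f1 f2 f4 n0
      (hT hr2).2.2 iO' ic iI g1 (fun s m f => h0 (g2 0 ⟨by linarith, hε⟩ s m f).1) l1 l2 fr
    generalize hc : (fun y => if -η r2 * y < 0 then J y else
      ((lab, y, (S.sg ξ y, a y)), 0) : ℝ → Tot) = c at D
    have co : ∀ y, -η r2 * y < 0 → c y = J y := fun y h => hc ▸ if_pos h
    have c0 : Fb S c (0, 0) = ξ.1 := by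
      have : c 0 = ((lab, 0, (S.sg ξ 0, a 0)), 0) := hc ▸ if_neg (by simp)
      simp only [Fb, sh_zero, this, dev, S.φ_zero, sg_zero]
    have z0 : |((0, 0) : ℝ × ℝ).2| < |η r2| := by simpa using n0
    obtain ⟨iv, -, -, k, -⟩ := ch_ex (x := (0, 0)) hb hC (D.pc _ z0)
    have m := (D.all hb hC P z0 k).1
    rw [c0] at m
    refine ⟨_, _, D.ext hb hg hC P, subset_union_left, fun a b h => Or.inl h, ?_,
      finish (D.ext hb hg hC P) m tσ tτ ?_⟩
    · rintro _ ⟨z, s, m | ⟨x, hx, h0, rfl, hs⟩, rfl⟩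
      · exact Or.inl ⟨z, s, m, rfl⟩
      · right
        rw [show s (Fb S c x) = _ from hs.self_of_nhds]
        exact (D.new _ hx h0).1
    · filter_upwards [((tendsto_const_nhds (x := (0 : ℝ))).prodMk_nhds tη).eventually k, evT]
        with r u v
      refine ⟨?_, base r v⟩
      simp only [Fb, sh_zero] at u
      rw [co _ (sgn _ (run r v).1), (run r v).2, qb r v] at u
      exact u

end

end Pool.Agent.Lib.MP_21f752_an.FZor
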