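import Pool.Agent.Lib.MP_21f752_an.Act

/-! The linearised flow and the magnetic Jacobi equation. -/

namespace Pool.Agent.Lib.MP_21f752_an

open UpperHalfPlane Set Filter Topology Metric
open scoped MatrixGroups ContDiff Real

noncomputable section

lemma clm_lin {F : Type} [NormedAddCommGroup F] [NormedSpace ℝ F] (D : ℂ →L[ℝ] F) (q v : ℂ) :
    D (q * v) = q.re • D v + q.im • D (Complex.I * v) := by
  rw [← map_smul, ← map_smul, ← map_add]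
  congr 1
  apply Complex.ext <;> simp
  ring

lemma clm_lin' (D : ℂ →L[ℝ] ℝ) (q v : ℂ) :
    D (q * v) = q.re * D v + q.im * D (Complex.I * v) := clm_lin D q v

lemma lap_trace {G : ℂ → ℝ} (z v : ℂ) :
    fderiv ℝ (fderiv ℝ G) z v v + fderiv ℝ (fderiv ℝ G) z (Complex.I * v) (Complex.I * v) =
      ‖v‖ ^ 2 * Laplacian.laplacian G z := by
  rw [InnerProductSpace.laplacian_eq_iteratedFDeriv_complexPlane]
  simp only [iteratedFDeriv_two_apply]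
  set D := fderiv ℝ (fderiv ℝ G) z
  have h1 := clm_lin D v 1
  have h2 := clm_lin D (Complex.I * v) 1
  have h3 := fun E : ℂ →L[ℝ] ℝ => clm_lin' E v 1
  have h4 := fun E : ℂ →L[ℝ] ℝ => clm_lin' E (Complex.I * v) 1
  simp only [mul_one] at h1 h2 h3 h4
  rw [h3 (D v), h4 (D (Complex.I * v)), h1, h2, Complex.sq_norm, Complex.normSq_apply]
  simp
  ring

lemma two_le_inf : (2 : WithTop ℕ∞) ≤ ∞ := WithTop.coe_le_coe.2 (le_top : (2 : ℕ∞) ≤ ⊤)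

namespace Sys

variable (S : Sys)

lemma hd_vv {z : ℝ → ℂ} {θ : ℝ → ℝ} {u : ℂ} {ρ t : ℝ} (hz : HasDerivAt z u t)
    (hθ : HasDerivAt θ ρ t) (hp : 0 < (z t).im) :
    HasDerivAt (fun s => S.vv (z s, θ s))
      (S.vv (z t, θ t) * (-(fderiv ℝ S.L (z t) u : ℝ) + ρ * Complex.I)) t := by
  have h1 := (hd_comp (S.L_diff hp) hz).neg.exp.ofReal_comp
  have h2 := (hasDerivAt_ce (θ t)).scomp t hθ
  refine (h1.mul h2).congr_deriv ?_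
  simp only [vv, Function.comp, Pi.neg_apply, Complex.real_smul]
  push_cast
  ring

lemma hd_dG {G : ℂ → ℝ} {z w : ℝ → ℂ} {u w' : ℂ} {t : ℝ} (hG : ContDiffAt ℝ ∞ G (z t))
    (hz : HasDerivAt z u t) (hw : HasDerivAt w w' t) :
    HasDerivAt (fun s => fderiv ℝ G (z s) (w s))
      (fderiv ℝ (fderiv ℝ G) (z t) u (w t) + fderiv ℝ G (z t) w') t := by
  have h1 : DifferentiableAt ℝ (fderiv ℝ G) (z t) :=
    (hG.fderiv_right (m := ∞) (by simp)).differentiableAt (by simp)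
  exact (h1.hasFDerivAt.comp_hasDerivAt t hz).clm_apply hw

lemma B_diff {z : ℂ} (hz : 0 < z.im) : DifferentiableAt ℝ S.B z :=
  (S.B_cd hz).differentiableAt (by simp)

lemma hd_X {z : ℝ → ℂ} {θ : ℝ → ℝ} {u : ℂ} {ρ t : ℝ} (hz : HasDerivAt z u t)
    (hθ : HasDerivAt θ ρ t) (hp : 0 < (z t).im) :
    HasDerivAt (fun s => S.X (z s, θ s))
      (S.vv (z t, θ t) * (-(fderiv ℝ S.L (z t) u : ℝ) + ρ * Complex.I),
        fderiv ℝ S.B (z t) u + (fderiv ℝ (fderiv ℝ S.L) (z t) u (Complex.I * S.vv (z t, θ t)) +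
          fderiv ℝ S.L (z t) (Complex.I *
            (S.vv (z t, θ t) * (-(fderiv ℝ S.L (z t) u : ℝ) + ρ * Complex.I))))) t :=
  (S.hd_vv hz hθ hp).prodMk ((hd_comp (S.B_diff hp) hz).add
    (hd_dG (S.L_cd hp) hz ((S.hd_vv hz hθ hp).const_mul Complex.I)))

lemma fderiv_X {x : ℂ × ℝ} (hx : 0 < x.1.im) (d : ℂ × ℝ) :
    fderiv ℝ S.X x d = (S.vv x * (-(fderiv ℝ S.L x.1 d.1 : ℝ) + d.2 * Complex.I),
      fderiv ℝ S.B x.1 d.1 + (fderiv ℝ (fderiv ℝ S.L) x.1 d.1 (Complex.I * S.vv x) +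
        fderiv ℝ S.L x.1 (Complex.I *
          (S.vv x * (-(fderiv ℝ S.L x.1 d.1 : ℝ) + d.2 * Complex.I))))) := by
  have l1 := hd_line x.1 d.1
  have l2 : HasDerivAt (fun s : ℝ => x.2 + s * d.2) d.2 0 := by
    simpa using ((hasDerivAt_id (0 : ℝ)).mul_const d.2).const_add x.2
  have e1 : x.1 + ((0 : ℝ) : ℂ) * d.1 = x.1 := by simp
  have e2 : x.2 + 0 * d.2 = x.2 := by simp
  have h1 := S.hd_X l1 l2 (by rw [e1]; exact hx)
  have h2 : HasFDerivAt S.X (fderiv ℝ S.X x) (x.1 + ((0 : ℝ) : ℂ) * d.1, x.2 + 0 * d.2) := by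
    rw [e1, e2]
    exact ((S.X_cd hx).differentiableAt (by simp)).hasFDerivAt
  have h3 := h2.comp_hasDerivAt (f := fun s : ℝ => (x.1 + (s : ℂ) * d.1, x.2 + s * d.2)) 0
    (l1.prodMk l2)
  have := h3.unique h1
  simpa only [e1, e2] using this

/-- the linearised flow -/
def J (ξ : N) (δ : ℂ × ℝ) (t : ℝ) : ℂ × ℝ := fderiv ℝ S.Φ (t, emb ξ) (0, δ)

lemma Φ_diff (t : ℝ) (ξ : N) : DifferentiableAt ℝ S.Φ (t, emb ξ) :=
  (S.Φ_cd ξ.1.im_pos).differentiableAt (by simp)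

lemma fderiv_Φ_t {p : ℝ × (ℂ × ℝ)} (hp : 0 < p.2.1.im) :
    fderiv ℝ S.Φ p (1, 0) = S.X (S.Φ p) := by
  have h1 := ((S.Φ_cd hp).differentiableAt (by simp)).hasFDerivAt.comp_hasDerivAt
    (f := fun s : ℝ => (s, p.2)) p.1 ((hasDerivAt_id p.1).prodMk (hasDerivAt_const _ _))
  exact h1.unique (S.hd_Φ p.2 p.1)

lemma ev_pos {p : ℝ × (ℂ × ℝ)} (hp : 0 < p.2.1.im) : ∀ᶠ q in 𝓝 p, 0 < q.2.1.im := by
  have : ContinuousAt (fun q : ℝ × (ℂ × ℝ) => q.2.1.im) p := by fun_prop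
  exact this.eventually (lt_mem_nhds hp)

lemma hd_J (ξ : N) (δ : ℂ × ℝ) (t : ℝ) :
    HasDerivAt (S.J ξ δ) (fderiv ℝ S.X (emb (S.φ t ξ)) (S.J ξ δ t)) t := by
  have hp : 0 < ((t, emb ξ) : ℝ × (ℂ × ℝ)).2.1.im := ξ.1.im_pos
  have hc := S.Φ_cd hp
  have h1 : DifferentiableAt ℝ (fderiv ℝ S.Φ) (t, emb ξ) :=
    (hc.fderiv_right (m := ∞) (by simp)).differentiableAt (by simp)
  have h2 := (h1.hasFDerivAt.comp_hasDerivAt (f := fun s : ℝ => (s, emb ξ)) t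
    ((hasDerivAt_id t).prodMk (hasDerivAt_const _ _))).clm_apply
      (hasDerivAt_const t ((0, δ) : ℝ × (ℂ × ℝ)))
  refine h2.congr_deriv ?_
  rw [map_zero, add_zero, (hc.isSymmSndFDerivAt (by simpa using two_le_inf)).eq]
  have h3 : (fun q => fderiv ℝ S.Φ q (1, 0)) =ᶠ[𝓝 (t, emb ξ)] fun q => S.X (S.Φ q) :=
    (ev_pos hp).mono fun q hq => S.fderiv_Φ_t hq
  have h4 := h3.fderiv_eq (𝕜 := ℝ)
  rw [fderiv_clm_apply h1 (differentiableAt_const _)] at h4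
  have h5 := congrArg (fun E => E ((0, δ) : ℝ × (ℂ × ℝ))) h4
  simp only [fderiv_fun_const, Pi.zero_apply, ContinuousLinearMap.comp_zero, zero_add,
    ContinuousLinearMap.flip_apply] at h5
  rw [h5]
  have h6 : HasFDerivAt (fun q => S.X (S.Φ q)) _ (t, emb ξ) :=
    (((S.X_cd (S.Φ_pos _)).differentiableAt (by simp)).hasFDerivAt).comp _ (S.Φ_diff t ξ).hasFDerivAt
  rw [h6.fderiv]
  rfl

lemma hasFDerivAt_slice (t : ℝ) (ξ : N) :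
    HasFDerivAt (fun x => S.Φ (t, x))
      ((fderiv ℝ S.Φ (t, emb ξ)).comp (ContinuousLinearMap.inr ℝ ℝ (ℂ × ℝ))) (emb ξ) :=
  (S.Φ_diff t ξ).hasFDerivAt.comp _ (hasFDerivAt_prodMk_right t (emb ξ))

lemma J_zero (ξ : N) (δ : ℂ × ℝ) : S.J ξ δ 0 = δ := by
  have h1 := S.hasFDerivAt_slice 0 ξ
  have h2 : (fun x => S.Φ (0, x)) =ᶠ[𝓝 (emb ξ)] id := by
    have : ContinuousAt (fun q : ℂ × ℝ => q.1.im) (emb ξ) := by fun_prop
    refine (this.eventually (lt_mem_nhds ξ.1.im_pos)).mono fun x hx => ?_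
    have := S.Φ_emb 0 (⟨x.1, hx⟩, x.2)
    rw [φ_zero] at this
    exact this
  have := h1.unique ((hasFDerivAt_id _).congr_of_eventuallyEq h2)
  exact congrArg (fun E => E δ) this

/-- magnetic curvature -/
def Km (ξ : N) : ℝ := curv S.f ξ.1 + S.b ξ.1 ^ 2 - fderiv ℝ S.B ξ.1 (Complex.I * S.V ξ)

def jq (ξ : N) (δ : ℂ × ℝ) (t : ℝ) : ℂ := (S.J ξ δ t).1 / S.V (S.φ t ξ)

def jz (ξ : N) (δ : ℂ × ℝ) (t : ℝ) : ℝ :=
  (S.J ξ δ t).2 + (S.jq ξ δ t).im * fderiv ℝ S.L (S.φ t ξ).1 (S.V (S.φ t ξ)) -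
    (S.jq ξ δ t).re * S.W (S.φ t ξ)

lemma J_fst (ξ : N) (δ : ℂ × ℝ) (t : ℝ) : (S.J ξ δ t).1 = S.jq ξ δ t * S.V (S.φ t ξ) := by
  rw [jq, div_mul_cancel₀ _ (S.V_ne _)]

lemma hd_V (ξ : N) (t : ℝ) : HasDerivAt (fun s => S.V (S.φ s ξ))
    (S.V (S.φ t ξ) * (-(fderiv ℝ S.L (S.φ t ξ).1 (S.V (S.φ t ξ)) : ℝ) +
      S.W (S.φ t ξ) * Complex.I)) t :=
  S.hd_vv (S.hd_z ξ t) (S.hd_θ ξ t) (S.φ t ξ).1.im_pos

lemma hd_b (ξ : N) (t : ℝ) : HasDerivAt (fun s => S.b (S.φ s ξ).1)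
    (fderiv ℝ S.B (S.φ t ξ).1 (S.V (S.φ t ξ))) t := by
  have := hd_comp (G := S.B) (z := fun s => ((S.φ s ξ).1 : ℂ)) (S.B_diff (S.φ t ξ).1.im_pos)
    (S.hd_z ξ t)
  simpa [B] using this

lemma hd_jq (ξ : N) (δ : ℂ × ℝ) (t : ℝ) : HasDerivAt (S.jq ξ δ)
    ((S.b (S.φ t ξ).1 * (S.jq ξ δ t).im : ℝ) + S.jz ξ δ t * Complex.I) t := by
  have h := S.hd_J ξ δ t
  rw [S.fderiv_X (S.φ t ξ).1.im_pos] at h
  have h1 := (ContinuousLinearMap.fst ℝ ℂ ℝ).hasFDerivAt.comp_hasDerivAt t h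
  refine (h1.div (S.hd_V ξ t) (S.V_ne _)).congr_deriv ?_
  change (S.V (S.φ t ξ) * (-(fderiv ℝ S.L (S.φ t ξ).1 (S.J ξ δ t).1 : ℝ) +
    (S.J ξ δ t).2 * Complex.I) * S.V (S.φ t ξ) - (S.J ξ δ t).1 * _) / _ = _
  rw [J_fst, clm_lin', div_eq_iff (pow_ne_zero 2 (S.V_ne _))]
  simp only [jz, W]
  generalize S.jq ξ δ t = q
  rw [← Complex.re_add_im q]
  simp only [Complex.add_re, Complex.ofReal_re, Complex.mul_re, Complex.I_re, Complex.ofReal_im,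
    Complex.I_im, Complex.add_im, Complex.mul_im, mul_zero, mul_one, sub_zero, add_zero, zero_add]
  push_cast
  linear_combination (-(q.im : ℂ) * (S.b (S.φ t ξ).1 +
    (fderiv ℝ S.L (S.φ t ξ).1 (Complex.I * S.V (S.φ t ξ)) : ℝ)) * S.V (S.φ t ξ) ^ 2) *
      Complex.I_mul_I

lemma hd_ja (ξ : N) (δ : ℂ × ℝ) (t : ℝ) : HasDerivAt (fun s => (S.jq ξ δ s).re)
    (S.b (S.φ t ξ).1 * (S.jq ξ δ t).im) t :=
  (hd_re (S.hd_jq ξ δ t)).congr_deriv (by simp)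

lemma hd_jy (ξ : N) (δ : ℂ × ℝ) (t : ℝ) :
    HasDerivAt (fun s => (S.jq ξ δ s).im) (S.jz ξ δ t) t :=
  (hd_im (S.hd_jq ξ δ t)).congr_deriv (by simp)

lemma normSq_V (ξ : N) : ‖S.V ξ‖ ^ 2 = Real.exp (-2 * S.L ξ.1) := by
  rw [V, norm_vv, ← Real.exp_nat_mul]
  congr 1
  simp [emb]

lemma hd_jz (ξ : N) (δ : ℂ × ℝ) (t : ℝ) :
    HasDerivAt (S.jz ξ δ) (-(S.Km (S.φ t ξ) * (S.jq ξ δ t).im)) t := by
  have h := S.hd_J ξ δ t
  have hp := (S.φ t ξ).1.im_pos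
  rw [S.fderiv_X hp] at h
  have h1 := (ContinuousLinearMap.snd ℝ ℂ ℝ).hasFDerivAt.comp_hasDerivAt t h
  have h2 := (S.hd_jy ξ δ t).mul (hd_dG (S.L_cd hp) (S.hd_z ξ t) (S.hd_V ξ t))
  have h3 := (S.hd_ja ξ δ t).mul ((S.hd_b ξ t).add
    (hd_dG (S.L_cd hp) (S.hd_z ξ t) ((S.hd_V ξ t).const_mul Complex.I)))
  refine ((h1.add h2).sub h3).congr_deriv ?_
  have tr := lap_trace (G := S.L) (S.φ t ξ).1 (S.V (S.φ t ξ))
  rw [normSq_V] at tr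
  have hK : curv S.f (S.φ t ξ).1 =
      -(Real.exp (-2 * S.L (S.φ t ξ).1) * Laplacian.laplacian S.L ((S.φ t ξ).1 : ℂ)) := by
    simp only [curv, L]
    ring
  change fderiv ℝ S.B (S.φ t ξ).1 (S.J ξ δ t).1 +
    (fderiv ℝ (fderiv ℝ S.L) (S.φ t ξ).1 (S.J ξ δ t).1 (Complex.I * S.V (S.φ t ξ)) +
      fderiv ℝ S.L (S.φ t ξ).1 (Complex.I * (S.V (S.φ t ξ) *
        (-(fderiv ℝ S.L (S.φ t ξ).1 (S.J ξ δ t).1 : ℝ) + (S.J ξ δ t).2 * Complex.I)))) + _ - _ = _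
  simp only [Km, jz, hK, ← tr, Pi.add_apply]
  rw [J_fst]
  have e1 : ∀ (D : ℂ →L[ℝ] ℝ) (v : ℂ) (a c : ℝ), D (Complex.I * (v * (-(a : ℂ) + c * Complex.I))) =
      -c * D v - a * D (Complex.I * v) := by
    intro D v a c
    have : Complex.I * (v * (-(a : ℂ) + c * Complex.I)) =
        (Complex.I * (-(a : ℂ) + c * Complex.I)) * v := by ring
    rw [this, clm_lin']
    simp
    ring
  have e2 : ∀ (D : ℂ →L[ℝ] ℝ) (v : ℂ) (a c : ℝ), D (v * (-(a : ℂ) + c * Complex.I)) =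
      -a * D v + c * D (Complex.I * v) := by
    intro D v a c
    rw [mul_comm, clm_lin']
    simp
  rw [e1, e1, e2, clm_lin' _ (S.jq ξ δ t) (S.V (S.φ t ξ)), clm_lin' _ (S.jq ξ δ t) (S.V (S.φ t ξ)),
    clm_lin _ (S.jq ξ δ t) (S.V (S.φ t ξ))]
  simp only [W, add_apply, smul_apply, smul_eq_mul]
  ring

lemma jq_zero (ξ : N) (δ : ℂ × ℝ) : S.jq ξ δ 0 = δ.1 / S.V ξ := by
  rw [jq, J_zero, φ_zero]

end Sys

end

end Pool.Agent.Lib.MP_21f752_an
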