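import Pool.Agent.Lib.MP_21f752_an.Meas

/-! Integrals of Laplacians, the Gauss-Bonnet identity, and absence of a global fixed point at
infinity. -/

namespace Pool.Agent.Lib.MP_21f752_an

open UpperHalfPlane Set Filter Topology Metric MeasureTheory
open scoped MatrixGroups ContDiff Real ENNReal

noncomputable section

lemma fderiv_logim {z : ℂ} (hz : 0 < z.im) (w : ℂ) :
    fderiv ℝ (fun z : ℂ => Real.log z.im) z w = w.im / z.im := by
  have e : z + ((0 : ℝ) : ℂ) * w = z := by simp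
  have h1 := hd_comp (G := fun z : ℂ => Real.log z.im) (z := fun s : ℝ => z + (s : ℂ) * w)
    (by rw [e]; exact (logim_cd hz).differentiableAt (by simp)) (hd_line z w)
  have h2 := (hd_im (hd_line z w)).log (by rw [e]; exact hz.ne')
  simpa only [e] using h1.unique h2

lemma lap_logim {z : ℂ} (hz : 0 < z.im) :
    Laplacian.laplacian (fun z : ℂ => Real.log z.im) z = -(1 / z.im ^ 2) := by
  have key : ∀ u : ℂ, fderiv ℝ (fderiv ℝ fun z : ℂ => Real.log z.im) z u u =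
      -(u.im ^ 2 / z.im ^ 2) := by
    intro u
    have e : z + ((0 : ℝ) : ℂ) * u = z := by simp
    have h1 := Sys.hd_dG (G := fun z : ℂ => Real.log z.im) (z := fun s : ℝ => z + (s : ℂ) * u)
      (by rw [e]; exact logim_cd hz) (hd_line z u) (hasDerivAt_const 0 u)
    have h2 := (hasDerivAt_const 0 u.im).div (hd_im (hd_line z u)) (by rw [e]; exact hz.ne')
    have := h1.unique (h2.congr_of_eventuallyEq ((ev_line hz u).mono fun s hs => fderiv_logim hs u))
    simp only [e, map_zero, add_zero] at this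
    rw [this]
    ring
  have := lap_trace (G := fun z : ℂ => Real.log z.im) z 1
  rw [key, key] at this
  simpa using this.symm

namespace Sys

variable (S : Sys)

/-- smooth functions that are invariant up to additive constants -/
structure QI (G : ℂ → ℝ) : Prop where
  cd : ∀ z : ℂ, 0 < z.im → ContDiffAt ℝ ∞ G z
  inv : ∀ γ ∈ S.Γ, ∃ κ, ∀ z : ℂ, 0 < z.im → G (mob γ z) = G z + κ

def d1 (G : ℂ → ℝ) (ξ : N) : ℝ := fderiv ℝ G ξ.1 (S.V ξ)

def d1' (G : ℂ → ℝ) (ξ : N) : ℝ := fderiv ℝ G ξ.1 (Complex.I * S.V ξ)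

lemma d1_rot (G : ℂ → ℝ) (ξ : N) : S.d1 G (rot (π / 2) ξ) = S.d1' G ξ := by
  rw [d1, V_rot, ce_half]
  rfl

lemma d1_odd (G : ℂ → ℝ) (ξ : N) : S.d1 G (rot π ξ) = -S.d1 G ξ := by
  rw [d1, V_rot, ce_pi, neg_one_mul, map_neg]
  rfl

lemma d1'_odd (G : ℂ → ℝ) (ξ : N) : S.d1' G (rot π ξ) = -S.d1' G ξ := by
  rw [d1', V_rot, ce_pi, neg_one_mul, mul_neg, map_neg]
  rfl

lemma cont_base {E : Type} [TopologicalSpace E] {G : ℂ → E}
    (h : ∀ z : ℂ, 0 < z.im → ContinuousAt G z) : Continuous fun ξ : N => G ξ.1 :=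
  continuous_iff_continuousAt.2 fun ξ =>
    ContinuousAt.comp (g := G) (h _ ξ.1.im_pos) (continuous_coe.comp continuous_fst).continuousAt

variable {S}

lemma QI.of_inv {g : ℍ → ℝ} (hg : SmoothH g) (hi : ∀ γ ∈ S.Γ, ∀ z, g (γ • z) = g z) :
    S.QI fun z => g (ofComplex z) :=
  ⟨fun _ hz => hg.cd hz, fun γ hγ => ⟨0, fun z hz => by rw [ofComplex_mob γ hz, hi γ hγ, add_zero]⟩⟩

lemma cont_dG {G : ℂ → ℝ} (h : ∀ z : ℂ, 0 < z.im → ContDiffAt ℝ ∞ G z) :
    Continuous fun ξ : N => fderiv ℝ G ξ.1 :=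
  cont_base fun z hz => ((h z hz).fderiv_right (m := ∞) (by simp)).continuousAt

lemma QI.ci {G : ℂ → ℝ} (h : S.QI G) : S.CI (S.d1 G) := by
  refine ⟨(cont_dG h.cd).clm_apply S.continuous_V, fun γ hγ k ξ => ?_⟩
  obtain ⟨κ, hκ⟩ := h.inv γ hγ
  have := fderiv_inv (m := 0) (κ := κ) (γ := γ) (fun z hz => (h.cd z hz).differentiableAt (by simp))
    (fun z hz => by rw [hκ z hz]; ring) ξ.1.im_pos (S.V ξ)
  have e1 : ((gg γ (k * (2 * π)) ξ).1 : ℂ) = mob γ ξ.1 := coe_smul_mob _ _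
  rw [d1, S.V_gg' hγ, e1, this, d1]
  ring

lemma QI.ci' {G : ℂ → ℝ} (h : S.QI G) : S.CI (S.d1' G) := by
  have := h.ci.comp_rot (π / 2)
  simpa only [d1_rot] using this

lemma hd_base {G : ℂ → ℝ} (h : ∀ z : ℂ, 0 < z.im → ContDiffAt ℝ ∞ G z) (ξ : N) (t : ℝ) :
    HasDerivAt (fun s => G (S.φ s ξ).1) (S.d1 G (S.φ t ξ)) t :=
  hd_comp (G := G) (z := fun s => ((S.φ s ξ).1 : ℂ))
    ((h _ (S.φ t ξ).1.im_pos).differentiableAt (by simp)) (S.hd_z ξ t)

variable (S)

lemma ci_b : S.CI fun ξ => S.b ξ.1 := .base S.hb.continuous S.b_inv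

lemma ci_e : S.CI fun ξ => Real.exp (-2 * S.f ξ.1) :=
  .base (g := fun z => Real.exp (-2 * S.f z)) (continuous_const.mul S.hf.continuous).rexp
    fun γ hγ z => by rw [S.f_inv γ hγ]

lemma qi_B : S.QI S.B := .of_inv S.hb S.b_inv

lemma qi_f : S.QI fun z => S.f (ofComplex z) := .of_inv S.hf S.f_inv

lemma continuous_W : Continuous S.W :=
  S.ci_b.cont.add ((cont_dG fun _ hz => S.L_cd hz).clm_apply (continuous_const.mul S.continuous_V))

variable {S}

lemma QI.lap {G : ℂ → ℝ} (h : S.QI G) :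
    S.CI (fun ξ => Real.exp (-2 * S.L ξ.1) * Laplacian.laplacian G (ξ.1 : ℂ)) ∧
      S.I (fun ξ => Real.exp (-2 * S.L ξ.1) * Laplacian.laplacian G (ξ.1 : ℂ)) = 0 := by
  set G2 : N → ℝ := fun ξ => fderiv ℝ (fderiv ℝ G) ξ.1 (S.V ξ) (S.V ξ) + fderiv ℝ G ξ.1
    (S.V ξ * (-(fderiv ℝ S.L ξ.1 (S.V ξ) : ℝ) + S.W ξ * Complex.I)) with hG2
  have hd : ∀ ξ t, HasDerivAt (fun s => S.d1 G (S.φ s ξ)) (G2 (S.φ t ξ)) t := fun ξ t =>
    hd_dG (h.cd _ (S.φ t ξ).1.im_pos) (S.hd_z ξ t) (S.hd_V ξ t)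
  have hc : Continuous G2 := by
    have a : Continuous fun ξ : N => fderiv ℝ (fderiv ℝ G) ξ.1 := cont_base fun z hz =>
      (((h.cd z hz).fderiv_right (m := ∞) (by simp)).fderiv_right (m := ∞) (by simp)).continuousAt
    have v := S.continuous_V
    refine ((a.clm_apply v).clm_apply v).add ((cont_dG h.cd).clm_apply (v.mul ?_))
    exact (Complex.continuous_ofReal.comp ((cont_dG fun _ hz => S.L_cd hz).clm_apply v)).neg.add
      ((Complex.continuous_ofReal.comp S.continuous_W).mul continuous_const)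
  have h2 : S.CI G2 := ⟨hc, h.ci.inv.deriv hd⟩
  have h3 := h.ci.cob hc hd
  have h4 := S.ci_b.mul (h.ci'.sub h.ci)
  have h5 := h4.I_odd fun ξ => by
    rw [d1_odd, d1'_odd]
    simp only [rot]
    ring
  have e : (fun ξ : N => Real.exp (-2 * S.L ξ.1) * Laplacian.laplacian G (ξ.1 : ℂ)) =
      fun ξ => G2 ξ + G2 (rot (π / 2) ξ) - S.b ξ.1 * (S.d1' G ξ - S.d1 G ξ) := by
    ext ξ
    rw [← normSq_V, ← lap_trace]
    have e2 : ∀ (D : ℂ →L[ℝ] ℝ) (v : ℂ) (a c : ℝ), D (v * (-(a : ℂ) + c * Complex.I)) =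
        -a * D v + c * D (Complex.I * v) := by
      intro D v a c
      rw [mul_comm, clm_lin']
      simp
    have e3 : Complex.I * (Complex.I * S.V ξ) = -S.V ξ := by
      rw [← mul_assoc, Complex.I_mul_I, neg_one_mul]
    simp only [hG2, e2, W, V_rot, ce_half, e3, map_neg, d1, d1']
    simp only [rot]
    ring
  rw [e]
  refine ⟨(h2.add (h2.comp_rot _)).sub h4, ?_⟩
  rw [(h2.add (h2.comp_rot _)).I_sub h4, h2.I_add (h2.comp_rot _), h2.I_rot, h3, h5]
  ring

variable (S)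

lemma exp_L_div (z : ℍ) : Real.exp (-2 * S.L z) * (1 / (z : ℂ).im ^ 2) = Real.exp (-2 * S.f z) := by
  have h := S.exp_neg_L z
  have hz := z.im_pos
  rw [show -2 * S.L z = -S.L z + -S.L z by ring, show -2 * S.f z = -S.f z + -S.f z by ring,
    Real.exp_add, Real.exp_add, h, coe_im]
  field_simp

lemma curv_eq (z : ℍ) : curv S.f z = -(Real.exp (-2 * S.L z) *
    Laplacian.laplacian (fun z => S.f (ofComplex z)) (z : ℂ)) - Real.exp (-2 * S.f z) := by
  have h := ((S.hf.cd z.im_pos).of_le two_le_inf).laplacian_sub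
    ((logim_cd z.im_pos).of_le two_le_inf)
  rw [lap_logim z.im_pos] at h
  rw [← exp_L_div]
  change -Real.exp (-2 * S.L z) * Laplacian.laplacian
    ((fun z : ℂ => S.f (ofComplex z)) - fun z : ℂ => Real.log z.im) (z : ℂ) = _
  rw [h]
  ring

lemma ci_curv : S.CI fun ξ => curv S.f ξ.1 := by
  simp only [curv_eq]
  have := ((CI.const (-1)).mul S.qi_f.lap.1).sub S.ci_e
  simpa only [neg_one_mul] using this

def Hy : ℝ := S.I fun ξ => Real.exp (-2 * S.f ξ.1)

lemma Hy_pos : 0 < S.Hy := S.ci_e.I_pos fun _ => Real.exp_pos _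

lemma I_curv : S.I (fun ξ => curv S.f ξ.1) = -S.Hy := by
  have := ((CI.const (-1)).mul S.qi_f.lap.1).I_sub S.ci_e
  rw [I_mul, S.qi_f.lap.2] at this
  simp only [curv_eq]
  simpa only [neg_one_mul, neg_zero, zero_sub, Hy] using this

lemma ci_Km : S.CI S.Km := (S.ci_curv.add S.ci_b.sq).sub S.qi_B.ci'

lemma I_Km : S.I S.Km = -S.Hy + S.I fun ξ => S.b ξ.1 ^ 2 := by
  have := (S.ci_curv.add S.ci_b.sq).I_sub S.qi_B.ci'
  rw [S.ci_curv.I_add S.ci_b.sq, I_curv, S.qi_B.ci'.I_odd (S.d1'_odd _), sub_zero] at this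
  exact this

/-- no point at infinity is fixed by the whole group -/
lemma nonelem {c d : ℝ} (h : c ≠ 0 ∨ d ≠ 0) :
    ∃ γ ∈ S.Γ, (c * γ 0 0 + d * γ 1 0) * d - (c * γ 0 1 + d * γ 1 1) * c ≠ 0 := by
  by_contra hc
  push Not at hc
  have hne : ∀ z : ℂ, 0 < z.im → (c : ℂ) * z + d ≠ 0 := by
    intro z hz h0
    have h1 := congrArg Complex.im h0
    have h2 := congrArg Complex.re h0
    simp [hz.ne'] at h1 h2
    rcases h with h | h
    · exact h h1
    · simp [h1, h] at h2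
  have hh : ∀ z : ℂ, 0 < z.im →
      InnerProductSpace.HarmonicAt (fun z : ℂ => Real.log ‖(c : ℂ) * z + d‖) z := fun z hz =>
    AnalyticAt.harmonicAt_log_norm (f := fun z : ℂ => (c : ℂ) * z + d) (by fun_prop) (hne z hz)
  have hcd : ∀ z : ℂ, 0 < z.im → ContDiffAt ℝ ∞ (fun z : ℂ => Real.log ‖(c : ℂ) * z + d‖) z :=
    fun z hz => (ContDiffAt.norm ℝ (f := fun z : ℂ => (c : ℂ) * z + d) (by fun_prop) (hne z hz)).log
      (norm_ne_zero_iff.2 (hne z hz))
  have hq : S.QI ((fun z : ℂ => Real.log z.im) -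
      (2 : ℝ) • fun z : ℂ => Real.log ‖(c : ℂ) * z + d‖) := by
    refine ⟨fun z hz => (logim_cd hz).sub ((hcd z hz).const_smul (2 : ℝ)), fun γ hγ => ?_⟩
    have hp : 0 < c ^ 2 + d ^ 2 := by
      rcases h with h | h <;> positivity
    set m := ((c * γ 0 0 + d * γ 1 0) * c + (c * γ 0 1 + d * γ 1 1) * d) / (c ^ 2 + d ^ 2) with hm
    have m1 : c * γ 0 0 + d * γ 1 0 = m * c := by
      rw [hm]; field_simp; linear_combination d * hc γ hγ
    have m2 : c * γ 0 1 + d * γ 1 1 = m * d := by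
      rw [hm]; field_simp; linear_combination (-c) * hc γ hγ
    refine ⟨-2 * Real.log |m|, fun z hz => ?_⟩
    have hd := den_ne γ hz
    have e : (c : ℂ) * mob γ z + d = m * (c * z + d) / den γ z := by
      have m1' : (c : ℂ) * (γ 0 0 : ℝ) + d * (γ 1 0 : ℝ) = m * c := by exact_mod_cast m1
      have m2' : (c : ℂ) * (γ 0 1 : ℝ) + d * (γ 1 1 : ℝ) = m * d := by exact_mod_cast m2
      rw [mob]
      field_simp
      rw [den]
      linear_combination z * m1' + m2'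
    have hm0 : m ≠ 0 := by
      intro h0
      apply hne _ (mob_pos γ hz)
      rw [e, h0]
      simp
    simp only [Pi.sub_apply, Pi.smul_apply, smul_eq_mul]
    rw [e, mob_im γ hz, norm_div, norm_mul, Complex.normSq_eq_norm_sq,
      Real.log_div hz.ne' (by simpa using hd), Real.log_div (by simp [hm0, hne z hz])
        (by simpa using hd), Real.log_mul (by simpa using hm0) (by simpa using hne z hz),
      Real.log_pow, Complex.norm_real, Real.norm_eq_abs]
    push_cast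
    ring
  have h1 := hq.lap.2
  have e : ∀ ξ : N, Real.exp (-2 * S.L ξ.1) * Laplacian.laplacian ((fun z : ℂ => Real.log z.im) -
      (2 : ℝ) • fun z : ℂ => Real.log ‖(c : ℂ) * z + d‖) (ξ.1 : ℂ) =
      -1 * Real.exp (-2 * S.f ξ.1) := by
    intro ξ
    have hz := ξ.1.im_pos
    rw [((logim_cd hz).of_le two_le_inf).laplacian_sub
      (f₂ := (2 : ℝ) • fun z : ℂ => Real.log ‖(c : ℂ) * z + d‖)
      (((hcd _ hz).of_le two_le_inf).const_smul (2 : ℝ)),
      InnerProductSpace.laplacian_smul _ ((hcd _ hz).of_le two_le_inf), lap_logim hz,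
      (hh _ hz).2.self_of_nhds, ← exp_L_div]
    simp
  simp only [e, I_mul] at h1
  have := S.Hy_pos
  rw [Hy] at this
  linarith

end Sys

end

end Pool.Agent.Lib.MP_21f752_an
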