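import Pool.Agent.Lib.MP_21f752_an.Ent

/-! Translation between magnetic geodesics of energy `k` and the normalised flow. -/

namespace Pool.Agent.Lib.MP_21f752_an

open UpperHalfPlane Set Filter Topology Metric
open scoped MatrixGroups ContDiff Real

noncomputable section

lemma grad_id (D : ℂ →L[ℝ] ℝ) (v : ℂ) :
    ((‖v‖ ^ 2 : ℝ) : ℂ) * ((D 1 : ℝ) + (D Complex.I : ℝ) * Complex.I) =
      v * ((D v : ℝ) + (D (Complex.I * v) : ℝ) * Complex.I) := by
  have h1 := clm_lin' D v 1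
  have h2 := clm_lin' D (Complex.I * v) 1
  simp only [mul_one] at h1 h2
  rw [h1, h2, Complex.sq_norm, Complex.normSq_apply]
  apply Complex.ext <;> simp <;> ring

namespace Sys

variable (S : Sys)

lemma vel_orbit (ξ : N) : vel (fun t => (S.φ t ξ).1) = fun t => S.V (S.φ t ξ) :=
  funext fun t => (S.hd_z ξ t).deriv

lemma mag_orbit (ξ : N) : IsMagGeodesic S.f S.b (1 / 2) fun t => (S.φ t ξ).1 := by
  refine ⟨fun t => (S.hd_z ξ t).differentiableAt, ?_, fun t => ⟨?_, ?_⟩⟩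
  · rw [vel_orbit]
    exact fun t => (S.hd_V ξ t).differentiableAt
  · simp only [covAcc, vel_orbit]
    rw [(S.hd_V ξ t).deriv, grad_id]
    simp only [W, L]
    push_cast
    ring
  · simp only [energy, vel_orbit, normSq_V, L]
    rw [← Real.exp_add]
    simp

lemma exists_orbit {c : ℝ → ℍ} (h : IsMagGeodesic S.f S.b (1 / 2) c) :
    ∃ ξ, c = fun t => (S.φ t ξ).1 := by
  obtain ⟨h1, h2, h3⟩ := h
  have hz : ∀ t, HasDerivAt (fun s => (c s : ℂ)) (vel c t) t := fun t => (h1 t).hasDerivAt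
  have cc : Continuous c := isEmbedding_coe.continuous_iff.2 h1.continuous
  set ρ : ℝ → ℝ := fun t => S.b (c t) + fderiv ℝ S.L (c t) (Complex.I * vel c t) with hρ
  have ρc : Continuous ρ := (S.hb.continuous.comp cc).add
    (((cont_dG fun _ hz => S.L_cd hz).comp (cc.prodMk (continuous_const (y := (0 : ℝ))))).clm_apply
      (continuous_const.mul h2.continuous))
  set θ0 := Complex.arg (vel c 0) with hθ0
  have hθ : ∀ t, HasDerivAt (fun t => θ0 + ∫ s in (0 : ℝ)..t, ρ s) (ρ t) t := fun t =>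
    (ρc.integral_hasStrictDerivAt 0 t).hasDerivAt.const_add θ0
  set θ : ℝ → ℝ := fun t => θ0 + ∫ s in (0 : ℝ)..t, ρ s with hθ'
  have hR : ∀ t, HasDerivAt (fun t => vel c t / S.vv (c t, θ t)) 0 t := fun t => by
    refine ((h2 t).hasDerivAt.div (S.hd_vv (hz t) (hθ t) (c t).im_pos) (S.vv_ne _)).congr_deriv ?_
    have := (h3 t).1
    rw [covAcc, grad_id] at this
    rw [div_eq_zero_iff]
    left
    simp only [hρ, L]
    push_cast
    linear_combination S.vv (c t, θ t) * this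
  have h0 : vel c 0 = S.vv (c 0, θ 0) := by
    have e := (h3 0).2
    have n : ‖vel c 0‖ = Real.exp (-S.L (c 0)) := by
      refine (sq_eq_sq₀ (norm_nonneg _) (Real.exp_pos _).le).1 ?_
      simp only [energy] at e
      rw [← Real.exp_nat_mul, Nat.cast_ofNat, mul_neg, Real.exp_neg, L]
      field_simp at e ⊢
      linarith
    simp only [vv, hθ', intervalIntegral.integral_same, add_zero, ← n]
    exact (Complex.norm_mul_exp_arg_mul_I _).symm
  have hV : ∀ t, vel c t = S.V (c t, θ t) := fun t => by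
    have := is_const_of_deriv_eq_zero (fun t => (hR t).differentiableAt) (fun t => (hR t).deriv) t 0
    rw [h0, div_self (S.vv_ne _), div_eq_one_iff_eq (S.vv_ne _)] at this
    exact this
  refine ⟨(c 0, θ 0), funext fun t => congrArg Prod.fst
    (S.φ_uniq' (x := fun t => (c t, θ t)) (fun t => hV t ▸ hz t) (fun t => ?_) t)⟩
  rw [W, ← hV]
  exact hθ t

lemma uq_of (h : ∀ p q : ℍ, p ≠ q → ∃! x : (ℝ → ℍ) × ℝ,
    IsMagGeodesic S.f S.b (1 / 2) x.1 ∧ 0 < x.2 ∧ x.1 0 = p ∧ x.1 x.2 = q) : S.Uq := by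
  refine ⟨fun p q hpq => ?_, fun p θ1 θ2 T1 T2 h1 h2 e hne => ?_⟩
  · obtain ⟨⟨c, T⟩, ⟨a, b, d, e⟩, -⟩ := h p q hpq
    obtain ⟨ξ, rfl⟩ := S.exists_orbit a
    simp only [φ_zero] at d
    exact ⟨ξ.2, T, b, by rw [← d]; exact e⟩
  · have := (h p _ hne).unique (y₁ := (fun t => (S.φ t (p, θ1)).1, T1))
      (y₂ := (fun t => (S.φ t (p, θ2)).1, T2)) ⟨S.mag_orbit _, h1, by simp [φ_zero], rfl⟩
      ⟨S.mag_orbit _, h2, by simp [φ_zero], e.symm⟩
    obtain ⟨a, b⟩ := Prod.ext_iff.1 this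
    refine ⟨b, ?_⟩
    have v := congrFun ((S.vel_orbit _).symm.trans ((congrArg vel a).trans (S.vel_orbit _))) 0
    simp only [φ_zero, V, vv, emb] at v
    exact mul_left_cancel₀ (by exact_mod_cast (Real.exp_pos _).ne') v

lemma ze_of (h : ZeroEntropy S.Γ S.f S.b (1 / 2)) : S.ZE := by
  intro m O h1 h2 h3 η hη
  have ex : ∀ ζ : ℂ, Complex.exp ζ = (Real.exp ζ.re : ℝ) * ce ζ.im := fun ζ => by
    rw [ce, Complex.ofReal_exp, ← Complex.exp_add, Complex.re_add_im]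
  obtain ⟨C, hC⟩ := h m (fun i => Prod.map id Complex.exp '' {x : ℍ × ℂ | (x.1, x.2.im) ∈ O i})
    (fun i => (IsOpenMap.id.prodMap Complex.isOpenMap_exp) _ ((h1 i).preimage (by fun_prop)))
    (by
      rintro i γ hγ _ ⟨⟨z, ζ⟩, hx, rfl⟩
      have hn := Complex.normSq_pos.2 (den_ne γ z.im_pos)
      refine ⟨(γ • z, ζ + ((-Real.log (Complex.normSq (den γ z)) : ℝ) + ang γ z * Complex.I)), ?_,
        Prod.ext rfl ?_⟩
      · have := (h2 i γ hγ 0 (z, ζ.im)).mpr hx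
        simpa [gg] using this
      · change Complex.exp _ = Complex.exp ζ / den γ z ^ 2
        rw [Complex.exp_add, Complex.exp_add, ← Complex.ofReal_exp, Real.exp_neg, Real.exp_log hn]
        change _ * (_ * ce _) = _
        have : ((Complex.normSq (den γ z) : ℝ) : ℂ) ≠ 0 := by exact_mod_cast hn.ne'
        rw [ce_ang γ z.im_pos]
        push_cast
        field_simp)
    (fun x hx => by
      have : x.2 ≠ 0 := fun e => by simp [energy, e] at hx
      obtain ⟨i, hi⟩ := h3 (x.1, (Complex.log x.2).im)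
      exact ⟨i, (x.1, Complex.log x.2), hi, Prod.ext rfl (Complex.exp_log this)⟩) η hη
  refine ⟨C, fun n => ?_⟩
  obtain ⟨W, a, b⟩ := hC n
  refine ⟨W, a, fun ξ => ?_⟩
  obtain ⟨w, hw, e⟩ := b _ (S.mag_orbit ξ)
  refine ⟨w, hw, fun j => ?_⟩
  obtain ⟨⟨z, ζ⟩, hx, e'⟩ := e j
  obtain ⟨rfl, e2⟩ := Prod.ext_iff.1 e'
  simp only [vel_orbit, Prod.map_snd, ex, V, vv] at e2
  have e3 := congrArg norm e2
  simp only [norm_mul, norm_ce, mul_one, Complex.norm_real,
    Real.norm_of_nonneg (Real.exp_pos _).le] at e3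
  rw [e3] at e2
  obtain ⟨k, hk⟩ := ce_eq_iff.1 (mul_left_cancel₀ (by exact_mod_cast (Real.exp_pos _).ne') e2).symm
  have := (h2 (w j) 1 S.Γ.one_mem k _).mpr hx
  rw [gg_one] at this
  rw [show S.φ j ξ = rot (k * (2 * π)) ((S.φ j ξ).1, ζ.im) from Prod.ext rfl hk]
  exact this

end Sys

lemma lam_shift (f : ℍ → ℝ) (a : ℝ) : lam (fun z => f z - a) = fun z => lam f z - a := by
  ext z
  simp only [lam]
  ring

lemma energy_shift (f : ℍ → ℝ) {k : ℝ} (hk : 0 < k) (x : ℍ × ℂ) :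
    energy (fun z => f z - Real.log (2 * k) / 2) x = 1 / 2 ↔ energy f x = k := by
  simp only [energy, lam_shift]
  rw [mul_sub, Real.exp_sub, mul_div_cancel₀ _ two_ne_zero, Real.exp_log (by positivity)]
  constructor <;> intro h <;> field_simp at h ⊢ <;> linarith

lemma mag_shift (f b : ℍ → ℝ) {k : ℝ} (hk : 0 < k) (c : ℝ → ℍ) :
    IsMagGeodesic (fun z => f z - Real.log (2 * k) / 2) b (1 / 2) c ↔ IsMagGeodesic f b k c := by
  simp only [IsMagGeodesic, energy_shift f hk, covAcc, lam_shift, fderiv_sub_const]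

lemma curv_shift {f : ℍ → ℝ} (hf : SmoothH f) (a : ℝ) (z : ℍ) :
    curv f z = Real.exp (-2 * a) * curv (fun z => f z - a) z := by
  have := ((lam_cd hf z.im_pos).of_le two_le_inf).laplacian_sub (f₂ := fun _ => a) contDiffAt_const
  simp only [curv, lam_shift]
  rw [show (fun z => lam f z - a) = lam f - fun _ => a from rfl, this,
    show -2 * lam f z = -2 * a + -2 * (lam f z - a) by ring, Real.exp_add]
  simp
  ring

lemma fin_of_discrete (Γ : Subgroup SL(2, ℝ)) [DiscreteTopology Γ] (R : ℝ) :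
    {γ : Γ | dist ((γ : SL(2, ℝ)) • UpperHalfPlane.I) UpperHalfPlane.I ≤ R}.Finite :=
  (finite_disjoint_inter_image (Γ := Γ) (isCompact_singleton (x := UpperHalfPlane.I))
    (isCompact_closedBall UpperHalfPlane.I R)).subset fun _ hγ => ⟨_, ⟨_, rfl, rfl⟩, hγ⟩

theorem main (Γ : Subgroup SL(2, ℝ)) [DiscreteTopology Γ]
    (hfree : ∀ γ ∈ Γ, ∀ z : ℍ, γ • z = z → ∀ w : ℍ, γ • w = w)
    (hco : ∃ K : Set ℍ, IsCompact K ∧ ∀ z : ℍ, ∃ γ ∈ Γ, γ • z ∈ K)
    (f b : ℍ → ℝ) (hf : SmoothH f) (hb : SmoothH b)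
    (hfi : ∀ γ ∈ Γ, ∀ z, f (γ • z) = f z) (hbi : ∀ γ ∈ Γ, ∀ z, b (γ • z) = b z)
    (k : ℝ) (hk : 0 < k)
    (hjoin : ∀ p q : ℍ, p ≠ q → ∃! x : (ℝ → ℍ) × ℝ,
      IsMagGeodesic f b k x.1 ∧ 0 < x.2 ∧ x.1 0 = p ∧ x.1 x.2 = q)
    (hent : ZeroEntropy Γ f b k) : (∃ κ, ∀ z, curv f z = κ) ∧ ∃ β, ∀ z, b z = β := by
  obtain ⟨K, hK, hc⟩ := hco
  obtain ⟨R, hR⟩ := hK.isBounded.subset_closedBall UpperHalfPlane.I
  let S : Sys := ⟨Γ, fin_of_discrete Γ, R, fun z => (hc z).imp fun γ h => ⟨h.1, hR h.2⟩,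
    fun z => f z - Real.log (2 * k) / 2, b, ContDiffOn.sub hf contDiffOn_const, hb,
    fun γ hγ z => by rw [hfi γ hγ], hbi⟩
  obtain ⟨⟨κ, h1⟩, h2⟩ := (S.uq_of (by simpa only [S, mag_shift f b hk] using hjoin)).main hfree
    (S.ze_of (by simpa only [S, ZeroEntropy, mag_shift f b hk, energy_shift f hk] using hent))
  exact ⟨⟨_, fun z => (curv_shift hf _ z).trans (congrArg _ (h1 z))⟩, h2⟩

end

end Pool.Agent.Lib.MP_21f752_an
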