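import Pool.Agent.Lib.MP_21f752_an.Pres

/-! Integration over the unit tangent bundle of the quotient. -/

namespace Pool.Agent.Lib.MP_21f752_an

open UpperHalfPlane Set Filter Topology Metric MeasureTheory
open scoped MatrixGroups ContDiff Real ENNReal

noncomputable section

def ind (a : ℝ) : ℝ≥0∞ := (Ico 0 (2 * π)).indicator 1 a

lemma ind_tsum (a : ℝ) : ∑' k : ℤ, ind (a + k * (2 * π)) = 1 := by
  obtain ⟨k, h1, h2⟩ := existsUnique_add_zsmul_mem_Ico (show 0 < 2 * π by positivity) a 0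
  simp only [zsmul_eq_mul, zero_add] at h1 h2
  unfold ind
  rw [tsum_eq_single k fun j hj => indicator_of_notMem (fun h => hj (h2 j h)) _]
  exact indicator_of_mem h1 _

lemma ind_tsum' (a : ℝ) : ∑' k : ℤ, ind (a - k * (2 * π)) = 1 := by
  rw [← ind_tsum a, ← (Equiv.neg ℤ).tsum_eq]
  simp

namespace Sys

variable (S : Sys)

def wt (ξ : N) : ℝ≥0∞ := ENNReal.ofReal (S.cut.χ ξ.1) * ind ξ.2

lemma measurable_wt : Measurable S.wt :=
  ((S.cut.cd.continuous.comp (continuous_coe.comp continuous_fst)).measurable.ennreal_ofReal).mul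
    ((measurable_one.indicator measurableSet_Ico).comp measurable_snd)

lemma wt_lt (ξ : N) : S.wt ξ < ⊤ :=
  ENNReal.mul_lt_top ENNReal.ofReal_lt_top
    ((indicator_le_self _ _ _).trans_lt ENNReal.one_lt_top)

lemma tsum_gg (ξ : N) : ∑' p : S.Γ × ℤ, S.wt (gg p.1 (p.2 * (2 * π)) ξ) = 1 := by
  rw [ENNReal.tsum_prod']
  simp only [wt, gg, ENNReal.tsum_mul_left, ind_tsum, mul_one]
  exact S.cut_tsum ξ.1

lemma tsum_gi (ξ : N) : ∑' p : S.Γ × ℤ, S.wt (gi p.1 (p.2 * (2 * π)) ξ) = 1 := by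
  rw [ENNReal.tsum_prod']
  simp only [wt, gi, ENNReal.tsum_mul_left, ind_tsum', mul_one]
  rw [← S.cut_tsum ξ.1, ← (Equiv.inv S.Γ).tsum_eq]
  simp

def ν : Measure N := S.μ.withDensity S.wt

lemma lint_ν (G : N → ℝ≥0∞) : ∫⁻ ξ, G ξ ∂S.ν = ∫⁻ ξ, S.wt ξ * G ξ ∂S.μ :=
  lintegral_withDensity_eq_lintegral_mul_non_measurable _ S.measurable_wt (.of_forall S.wt_lt) G

lemma unfold {T : N → N} (hTm : Measurable T)
    (hT : ∀ G : N → ℝ≥0∞, ∫⁻ ξ, G (T ξ) ∂S.μ = ∫⁻ ξ, G ξ ∂S.μ)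
    (hc : ∀ γ ∈ S.Γ, ∀ (k : ℤ) (ξ : N), T (gg γ (k * (2 * π)) ξ) = gg γ (k * (2 * π)) (T ξ))
    {G : N → ℝ≥0∞} (hG : Measurable G) (hi : S.Inv G) :
    ∫⁻ ξ, G (T ξ) ∂S.ν = ∫⁻ ξ, G ξ ∂S.ν := by
  have hw := S.measurable_wt
  rw [lint_ν, lint_ν, ← hT fun ξ => S.wt ξ * G ξ]
  calc _ = ∫⁻ ξ, ∑' p : S.Γ × ℤ, S.wt ξ * G (T ξ) * S.wt (gg p.1 (p.2 * (2 * π)) (T ξ)) ∂S.μ := by
        simp only [ENNReal.tsum_mul_left, tsum_gg, mul_one]
    _ = ∑' p : S.Γ × ℤ, ∫⁻ ξ, S.wt ξ * G (T ξ) * S.wt (gg p.1 (p.2 * (2 * π)) (T ξ)) ∂S.μ :=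
        lintegral_tsum fun p => ((hw.mul (hG.comp hTm)).mul
          (hw.comp ((continuous_gg _ _).measurable.comp hTm))).aemeasurable
    _ = ∑' p : S.Γ × ℤ, ∫⁻ ξ, S.wt (T ξ) * G (T ξ) * S.wt (gi p.1 (p.2 * (2 * π)) ξ) ∂S.μ := by
        refine tsum_congr fun p => ?_
        rw [← S.pres_gg p.1.2 (p.2 * (2 * π))
          fun ξ => S.wt (T ξ) * G (T ξ) * S.wt (gi p.1 (p.2 * (2 * π)) ξ)]
        refine lintegral_congr fun ξ => ?_
        rw [gi_gg, hc _ p.1.2, hi _ p.1.2]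
        ring
    _ = ∫⁻ ξ, ∑' p : S.Γ × ℤ, S.wt (T ξ) * G (T ξ) * S.wt (gi p.1 (p.2 * (2 * π)) ξ) ∂S.μ :=
        (lintegral_tsum fun p => (((hw.comp hTm).mul (hG.comp hTm)).mul
          (hw.comp (continuous_gi _ _).measurable)).aemeasurable).symm
    _ = _ := by simp only [ENNReal.tsum_mul_left, tsum_gi, mul_one]

instance : IsLocallyFiniteMeasure S.μ := by
  have : IsFiniteMeasureOnCompacts (Measure.comap emb volume) :=
    .comap' _ continuous_emb mEmb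
  exact .withDensity_ofReal S.continuous_ρ

instance : Measure.IsOpenPosMeasure S.μ := by
  have : Measure.IsOpenPosMeasure (Measure.comap emb volume) :=
    Measure.IsOpenPosMeasure.comap _ isOpenEmbedding_emb
  exact (withDensity_absolutelyContinuous' S.continuous_ρ.measurable.ennreal_ofReal.aemeasurable
    (.of_forall fun ξ => (ENNReal.ofReal_pos.2 (Real.exp_pos _)).ne')).isOpenPosMeasure

instance : IsFiniteMeasure S.ν := by
  refine isFiniteMeasure_withDensity (ne_of_lt ?_)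
  have hK : IsCompact (closedBall UpperHalfPlane.I ((2 * S.cut.A + 1) / √S.cut.y0) ×ˢ
    Icc 0 (2 * π)) := (isCompact_closedBall _ _).prod isCompact_Icc
  refine lt_of_le_of_lt ?_ (hK.measure_lt_top (μ := S.μ))
  rw [← lintegral_indicator_one hK.measurableSet]
  refine lintegral_mono fun ξ => ?_
  by_cases h : S.wt ξ = 0
  · simp [h]
  rw [indicator_of_mem]
  · have := ENNReal.le_tsum (f := fun p : S.Γ × ℤ => S.wt (gg p.1 (p.2 * (2 * π)) ξ)) (1, 0)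
    rw [tsum_gg] at this
    simpa [gg_one, rot] using this
  · refine ⟨Box.dist_le S.cut.y0_pos (S.cut.box _ fun h0 => h (by simp [wt, h0])), ?_⟩
    by_contra hc
    exact h (by simp [wt, ind, indicator_of_notMem fun h => hc (Ico_subset_Icc_self h)])

/-- continuous functions on the unit tangent bundle of the quotient -/
structure CI (G : N → ℝ) : Prop where
  cont : Continuous G
  inv : S.Inv G

def I (G : N → ℝ) : ℝ := ∫ ξ, G ξ ∂S.ν

variable {S}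

lemma CI.const (c : ℝ) : S.CI fun _ => c := ⟨continuous_const, fun _ _ _ _ => rfl⟩

lemma CI.add {G H : N → ℝ} (h : S.CI G) (h' : S.CI H) : S.CI fun ξ => G ξ + H ξ :=
  ⟨h.cont.add h'.cont, fun γ hγ k ξ => by simp only [h.inv γ hγ, h'.inv γ hγ]⟩

lemma CI.sub {G H : N → ℝ} (h : S.CI G) (h' : S.CI H) : S.CI fun ξ => G ξ - H ξ :=
  ⟨h.cont.sub h'.cont, fun γ hγ k ξ => by simp only [h.inv γ hγ, h'.inv γ hγ]⟩

lemma CI.mul {G H : N → ℝ} (h : S.CI G) (h' : S.CI H) : S.CI fun ξ => G ξ * H ξ :=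
  ⟨h.cont.mul h'.cont, fun γ hγ k ξ => by simp only [h.inv γ hγ, h'.inv γ hγ]⟩

lemma CI.sq {G : N → ℝ} (h : S.CI G) : S.CI fun ξ => G ξ ^ 2 :=
  ⟨h.cont.pow 2, fun γ hγ k ξ => by simp only [h.inv γ hγ]⟩

lemma CI.comp_φ {G : N → ℝ} (h : S.CI G) (t : ℝ) : S.CI fun ξ => G (S.φ t ξ) :=
  ⟨h.cont.comp (S.continuous_φ.comp (continuous_const.prodMk continuous_id)), h.inv.comp_φ t⟩

lemma CI.comp_rot {G : N → ℝ} (h : S.CI G) (s : ℝ) : S.CI fun ξ => G (rot s ξ) :=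
  ⟨h.cont.comp (continuous_rot s), h.inv.comp_rot s⟩

lemma CI.base {g : ℍ → ℝ} (hg : Continuous g) (hi : ∀ γ ∈ S.Γ, ∀ z, g (γ • z) = g z) :
    S.CI fun ξ => g ξ.1 := ⟨hg.comp continuous_fst, fun γ hγ _ ξ => hi γ hγ ξ.1⟩

lemma CI.int {G : N → ℝ} (h : S.CI G) : Integrable G S.ν := by
  obtain ⟨C, -, hC⟩ := h.inv.bdd h.cont
  exact .of_bound h.cont.aestronglyMeasurable C (.of_forall hC)

lemma CI.I_comp {G : N → ℝ} (h : S.CI G) {T : N → N} (hTm : Measurable T)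
    (hT : ∀ G : N → ℝ≥0∞, ∫⁻ ξ, G (T ξ) ∂S.μ = ∫⁻ ξ, G ξ ∂S.μ)
    (hc : ∀ γ ∈ S.Γ, ∀ (k : ℤ) (ξ : N), T (gg γ (k * (2 * π)) ξ) = gg γ (k * (2 * π)) (T ξ))
    (h' : S.CI fun ξ => G (T ξ)) : S.I (fun ξ => G (T ξ)) = S.I G := by
  simp only [I]
  rw [integral_eq_lintegral_pos_part_sub_lintegral_neg_part h.int,
    integral_eq_lintegral_pos_part_sub_lintegral_neg_part h'.int,
    S.unfold hTm hT hc (G := fun ξ => ENNReal.ofReal (G ξ)) h.cont.measurable.ennreal_ofReal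
      fun γ hγ k ξ => by simp only [h.inv γ hγ],
    S.unfold hTm hT hc (G := fun ξ => ENNReal.ofReal (-G ξ)) h.cont.neg.measurable.ennreal_ofReal
      fun γ hγ k ξ => by simp only [h.inv γ hγ]]

lemma CI.I_φ {G : N → ℝ} (h : S.CI G) (t : ℝ) : S.I (fun ξ => G (S.φ t ξ)) = S.I G :=
  h.I_comp (S.continuous_φ.comp (continuous_const.prodMk continuous_id)).measurable (S.pres_φ t)
    (fun _ hγ k ξ => S.φ_gg hγ k t ξ) (h.comp_φ t)

lemma CI.I_rot {G : N → ℝ} (h : S.CI G) (s : ℝ) : S.I (fun ξ => G (rot s ξ)) = S.I G :=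
  h.I_comp (continuous_rot s).measurable (gg_one s ▸ S.pres_gg S.Γ.one_mem s)
    (fun γ _ _ ξ => rot_gg γ _ s ξ) (h.comp_rot s)

lemma CI.I_add {G H : N → ℝ} (h : S.CI G) (h' : S.CI H) :
    S.I (fun ξ => G ξ + H ξ) = S.I G + S.I H := integral_add h.int h'.int

lemma CI.I_sub {G H : N → ℝ} (h : S.CI G) (h' : S.CI H) :
    S.I (fun ξ => G ξ - H ξ) = S.I G - S.I H := integral_sub h.int h'.int

lemma I_mul (c : ℝ) (G : N → ℝ) : S.I (fun ξ => c * G ξ) = c * S.I G := integral_const_mul c G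

lemma I_const (c : ℝ) : S.I (fun _ => c) = c * S.I fun _ => 1 := by
  rw [← I_mul]; simp

lemma CI.I_mono {G H : N → ℝ} (h : S.CI G) (h' : S.CI H) (hle : ∀ ξ, G ξ ≤ H ξ) :
    S.I G ≤ S.I H := integral_mono h.int h'.int hle

lemma CI.I_odd {G : N → ℝ} (h : S.CI G) (ho : ∀ ξ, G (rot π ξ) = -G ξ) : S.I G = 0 := by
  have := h.I_rot π
  simp only [ho, I, integral_neg] at this
  simp only [I]
  linarith

lemma CI.eq_zero {G : N → ℝ} (h : S.CI G) (h0 : ∀ ξ, 0 ≤ G ξ) (hI : S.I G ≤ 0) (ξ : N) :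
    G ξ = 0 := by
  have hm := h.cont.measurable.ennreal_ofReal
  have h1 : ∫⁻ ξ, ENNReal.ofReal (G ξ) ∂S.ν = 0 := by
    rw [← ofReal_integral_eq_lintegral_ofReal h.int (.of_forall h0)]
    exact ENNReal.ofReal_of_nonpos hI
  have h2 : ∫⁻ ξ, ENNReal.ofReal (G ξ) ∂S.μ = 0 := by
    calc _ = ∫⁻ ξ, ∑' p : S.Γ × ℤ,
          S.wt (gg p.1 (p.2 * (2 * π)) ξ) * ENNReal.ofReal (G ξ) ∂S.μ := by
          simp only [ENNReal.tsum_mul_right, tsum_gg, one_mul]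
      _ = ∑' p : S.Γ × ℤ, ∫⁻ ξ, S.wt (gg p.1 (p.2 * (2 * π)) ξ) * ENNReal.ofReal (G ξ) ∂S.μ :=
          lintegral_tsum fun p =>
            ((S.measurable_wt.comp (continuous_gg _ _).measurable).mul hm).aemeasurable
      _ = 0 := by
          refine ENNReal.tsum_eq_zero.2 fun p => ?_
          rw [← h1, lint_ν, ← S.pres_gg p.1.2 (p.2 * (2 * π))
            fun ξ => S.wt ξ * ENNReal.ofReal (G ξ)]
          simp only [h.inv _ p.1.2]
  rw [lintegral_eq_zero_iff hm] at h2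
  have h3 : G =ᵐ[S.μ] fun _ => 0 := h2.mono fun ξ hξ =>
    le_antisymm (ENNReal.ofReal_eq_zero.1 hξ) (h0 ξ)
  exact congrFun ((h.cont.ae_eq_iff_eq S.μ continuous_const).1 h3) ξ

lemma CI.I_pos {G : N → ℝ} (h : S.CI G) (h0 : ∀ ξ, 0 < G ξ) : 0 < S.I G := by
  by_contra hc
  exact (h0 (UpperHalfPlane.I, 0)).ne' (h.eq_zero (fun ξ => (h0 ξ).le) (not_lt.1 hc) _)

lemma CI.cont2 {G : N → ℝ} (h : S.CI G) : Continuous fun p : ℝ × N => G (S.φ p.1 p.2) :=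
  h.cont.comp S.continuous_φ

lemma CI.cont_t {G : N → ℝ} (h : S.CI G) (ξ : N) : Continuous fun t => G (S.φ t ξ) :=
  h.cont2.comp (continuous_id.prodMk continuous_const)

lemma CI.avg {G : N → ℝ} (h : S.CI G) (a b : ℝ) : S.CI fun ξ => ∫ t in a..b, G (S.φ t ξ) :=
  ⟨intervalIntegral.continuous_parametric_intervalIntegral_of_continuous'
    (f := fun ξ t => G (S.φ t ξ)) (h.cont2.comp continuous_swap) a b,
    fun γ hγ k ξ => by simp only [S.φ_gg hγ, h.inv γ hγ]⟩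

lemma CI.I_avg {G : N → ℝ} (h : S.CI G) (a b : ℝ) :
    S.I (fun ξ => ∫ t in a..b, G (S.φ t ξ)) = (b - a) * S.I G := by
  obtain ⟨C, -, hC⟩ := h.inv.bdd h.cont
  have : IsFiniteMeasure (volume.restrict (uIoc a b)) :=
    isFiniteMeasure_restrict.2 measure_Ioc_lt_top.ne
  have := intervalIntegral_integral_swap (μ := S.ν) (a := a) (b := b)
    (f := fun t ξ => G (S.φ t ξ))
    (.of_bound h.cont2.aestronglyMeasurable C (.of_forall fun _ => hC _))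
  rw [I, ← this]
  have h2 : ∀ t, ∫ ξ, G (S.φ t ξ) ∂S.ν = S.I G := h.I_φ
  simp [h2]

lemma CI.cob {G G1 : N → ℝ} (h : S.CI G) (h1 : Continuous G1)
    (hd : ∀ ξ t, HasDerivAt (fun s => G (S.φ s ξ)) (G1 (S.φ t ξ)) t) : S.I G1 = 0 := by
  have h2 : S.CI G1 := ⟨h1, h.inv.deriv hd⟩
  have h3 := h2.I_avg 0 1
  have h4 : ∀ ξ, ∫ t in (0 : ℝ)..1, G1 (S.φ t ξ) = G (S.φ 1 ξ) - G ξ := fun ξ => by
    rw [intervalIntegral.integral_eq_sub_of_hasDerivAt (fun t _ => hd ξ t)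
      ((h2.cont_t ξ).intervalIntegrable _ _), φ_zero]
  simp only [h4] at h3
  rw [(h.comp_φ 1).I_sub h, h.I_φ] at h3
  linarith

lemma I_base (g : ℂ → ℝ) : S.I (fun ξ => g ξ.1) =
    (∫ z, Real.exp (2 * S.L z) * S.cut.χ z * g z) * (2 * π) := by
  rw [I, ν, integral_withDensity_eq_integral_toReal_smul S.measurable_wt (.of_forall S.wt_lt), μ,
    integral_withDensity_eq_integral_toReal_smul S.continuous_ρ.measurable.ennreal_ofReal
      (.of_forall fun _ => ENNReal.ofReal_lt_top)]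
  set h : ℂ × ℝ → ℝ := fun x => Real.exp (2 * S.L x.1) * S.cut.χ x.1 * g x.1 *
    (Ico 0 (2 * π)).indicator 1 x.2 with hh
  have e : ∀ ξ : N, (ENNReal.ofReal (S.ρ ξ)).toReal • (S.wt ξ).toReal • g ξ.1 = h (emb ξ) := by
    intro ξ
    rw [ρ, ENNReal.toReal_ofReal (Real.exp_pos _).le, wt, ENNReal.toReal_mul,
      ENNReal.toReal_ofReal (S.cut.nonneg _)]
    by_cases hξ : ξ.2 ∈ Ico 0 (2 * π)
    · simp only [hh, emb, ind, indicator_of_mem hξ]
      simp [mul_assoc]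
    · simp [hh, emb, ind, indicator_of_notMem hξ]
  simp only [e]
  rw [← mEmb.integral_map, mEmb.map_comap, setIntegral_eq_integral_of_forall_compl_eq_zero,
    Measure.volume_eq_prod, hh, integral_prod_mul (fun z => Real.exp (2 * S.L z) * S.cut.χ z * g z),
    integral_indicator_one measurableSet_Ico]
  · simp [Real.pi_pos.le]
  · intro x hx
    have : S.cut.χ x.1 = 0 := by
      by_contra hc
      exact hx ⟨(⟨x.1, S.cut.y0_pos.trans_le (S.cut.box _ hc).2.1⟩, x.2), rfl⟩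
    simp [hh, this]

end Sys

end

end Pool.Agent.Lib.MP_21f752_an
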