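import Pool.Agent.Lib.MP_21f752_an.Wall

/-! Translates of a wall can be placed near any point at infinity, in both orientations. -/

namespace Pool.Agent.Lib.MP_21f752_an

open UpperHalfPlane Set Filter Topology Metric
open scoped MatrixGroups ContDiff Real

noncomputable section

lemma cont_entry (i j : Fin 2) : Continuous fun A : SL(2, ℝ) => A i j :=
  (continuous_apply_apply i j).comp continuous_subtype_val

lemma mul_entry (A B : SL(2, ℝ)) (i j : Fin 2) : (A * B) i j = A i 0 * B 0 j + A i 1 * B 1 j := by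
  simp [Matrix.mul_apply, Fin.sum_univ_two]

lemma end_open {A0 : SL(2, ℝ)} (h : A0 1 1 ≠ 0) {σ lo hi : ℝ} (h1 : lo < σ * (A0 0 1 / A0 1 1))
    (h2 : σ * (A0 0 1 / A0 1 1) < hi) : ∃ δ, ∀ᶠ A in 𝓝 A0, A 1 1 ≠ 0 ∧
      ∀ z : ℍ, lg z < δ → lo < σ * (A • z).re ∧ σ * (A • z).re < hi := by
  have c := fun i j => Complex.continuous_ofReal.comp ((cont_entry i j).comp
    (continuous_fst : Continuous (Prod.fst : SL(2, ℝ) × ℂ → _)))
  have hc : ContinuousAt (fun x : SL(2, ℝ) × ℂ => σ * (mob x.1 x.2).re) (A0, 0) :=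
    continuousAt_const.mul (Complex.continuous_re.continuousAt.comp (ContinuousAt.div
      (((c 0 0).mul continuous_snd).add (c 0 1)).continuousAt
      (((c 1 0).mul continuous_snd).add (c 1 1)).continuousAt (by simpa [den] using h)))
  have e : (mob A0 0).re = A0 0 1 / A0 1 1 := by
    simp only [mob, den, mul_zero, zero_add, ← Complex.ofReal_div, Complex.ofReal_re]
  have := (hc.eventually (lt_mem_nhds (by simpa only [e] using h1))).and
    (hc.eventually (gt_mem_nhds (by simpa only [e] using h2)))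
  rw [nhds_prod_eq, eventually_prod_iff] at this
  obtain ⟨pa, ha, pb, hb, hab⟩ := this
  obtain ⟨δ, hδ, hb'⟩ := Metric.eventually_nhds_iff.1 hb
  refine ⟨Real.log δ, (((cont_entry 1 1).continuousAt.eventually_ne h).and ha).mono
    fun A hA => ⟨hA.1, fun z hz => ?_⟩⟩
  rw [← coe_re, coe_smul_mob]
  refine hab hA.2 (hb' ?_)
  rw [dist_zero_right, ← exp_lg]
  exact (Real.lt_log_iff_exp_lt hδ).1 hz

lemma end_im {A : SL(2, ℝ)} (h : A 1 1 ≠ 0) {u : ℝ → ℍ} {l : Filter ℝ}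
    (hu : Tendsto (fun s => lg (u s)) l atBot) : Tendsto (fun s => (A • u s).im) l (𝓝 0) := by
  have h1 : Tendsto (fun s => (u s : ℂ)) l (𝓝 0) := by
    rw [tendsto_zero_iff_norm_tendsto_zero]
    simpa only [Function.comp_def, exp_lg] using Real.tendsto_exp_atBot.comp hu
  have hc : ContinuousAt (fun z => (mob A z).im) 0 :=
    Complex.continuous_im.continuousAt.comp (ContinuousAt.div (by fun_prop)
      (by unfold den; fun_prop) (by simpa [den] using h))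
  have e : (mob A 0).im = 0 := by
    simp only [mob, den, mul_zero, zero_add, ← Complex.ofReal_div, Complex.ofReal_im]
  have := hc.tendsto.comp h1
  rw [e] at this
  simpa only [← coe_im, coe_smul_mob, Function.comp_def] using this

namespace Sys

variable (S : Sys)

def Cg (g : SL(2, ℝ)) : Set (Matrix (Fin 2) (Fin 2) ℝ) :=
  {M | ∃ γ ∈ S.Γ, ∃ ρ : ℝ, 0 < ρ ∧ ∀ i j, M i j = ρ * (g * γ) i j}

lemma prox (g : SL(2, ℝ)) (x : ℝ) : ∃ r0 r1 : ℝ, (r0 ≠ 0 ∨ r1 ≠ 0) ∧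
    !![x * r0, x * r1; r0, r1] ∈ closure (S.Cg g) := by
  choose γ hγ hd using fun n : ℕ => S.cov (g⁻¹ • pt x (-n))
  let A : ℕ → SL(2, ℝ) := fun n => g * (γ n)⁻¹
  let w : ℕ → ℂ := fun n => (A n • UpperHalfPlane.I : ℍ)
  have hw : Tendsto w atTop (𝓝 x) := by
    have e : Tendsto (fun n : ℕ => Real.exp (-n)) atTop (𝓝 0) :=
      Real.tendsto_exp_neg_atTop_nhds_zero.comp tendsto_natCast_atTop_atTop
    have a : Tendsto (fun n : ℕ => (pt x (-n) : ℂ)) atTop (𝓝 x) := by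
      have := ((Complex.continuous_ofReal.tendsto 0).comp e).mul_const Complex.I |>.const_add (x : ℂ)
      simpa [pt] using this
    refine a.congr_dist (squeeze_zero (fun _ => dist_nonneg) (fun n => ?_)
      (by simpa using e.mul_const (Real.exp S.R0 - 1)))
    rw [dist_comm]
    refine (dist_coe_le _ _).trans ?_
    rw [pt_im, ← dist_smul (γ n * g⁻¹), ← mul_smul, mul_smul (γ n) g⁻¹ (pt _ _), dist_comm]
    have := hd n
    simp only [A, mul_assoc, inv_mul_cancel_left, mul_inv_cancel, one_smul]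
    gcongr
  have hn : ∀ n, den (A n) Complex.I ≠ 0 := fun n => den_ne _ (by simp)
  let r : ℕ → ℂ := fun n => (‖den (A n) Complex.I‖⁻¹ : ℝ) * den (A n) Complex.I
  obtain ⟨r', hr', k, hk, hlim⟩ := (isCompact_sphere (0 : ℂ) 1).tendsto_subseq (x := r) fun n => by
    simp [r, hn n]
  refine ⟨r'.im, r'.re, ?_, ?_⟩
  · by_contra hc
    push Not at hc
    rw [show r' = 0 from Complex.ext hc.2 hc.1] at hr'
    simp at hr'
  have hc : Continuous fun p : ℂ × ℂ =>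
      !![(p.1 * p.2).im, (p.1 * p.2).re; p.2.im, p.2.re] := by
    refine continuous_matrix fun i j => ?_
    fin_cases i <;> fin_cases j <;> simp <;> fun_prop
  have := (hc.tendsto (x, r')).comp ((hw.comp hk.tendsto_atTop).prodMk_nhds hlim)
  simp only [Complex.im_ofReal_mul, Complex.re_ofReal_mul] at this
  refine mem_closure_of_tendsto this (.of_forall fun n => ⟨_, S.Γ.inv_mem (hγ (k n)),
    ‖den (A (k n)) Complex.I‖⁻¹, inv_pos.2 (norm_pos_iff.2 (hn _)), fun i j => ?_⟩)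
  have e : w (k n) * r (k n) = (‖den (A (k n)) Complex.I‖⁻¹ : ℝ) *
      ((A (k n) 0 0 : ℝ) * Complex.I + (A (k n) 0 1 : ℝ)) := by
    simp only [w, r, coe_smul_mob, mob, coe_I]
    have := hn (k n)
    field_simp
  simp only [Function.comp, e, Complex.im_ofReal_mul, Complex.re_ofReal_mul, r]
  fin_cases i <;> fin_cases j <;> simp [den, A]

lemma minimal {r0 r1 : ℝ} (hr : r0 ≠ 0 ∨ r1 ≠ 0) (h : SL(2, ℝ)) {σ : ℝ} (hσ : σ ≠ 0) :
    ∃ γ ∈ S.Γ, 0 < σ * ((r0 * (γ * h) 0 0 + r1 * (γ * h) 1 0) *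
      (r0 * (γ * h) 0 1 + r1 * (γ * h) 1 1)) := by
  obtain ⟨p0, p1, hp, hM⟩ := S.prox h⁻¹ (-σ)
  have key : ∀ s0 s1 : ℝ, s0 * p1 - s1 * p0 ≠ 0 → ∃ γ ∈ S.Γ,
      0 < σ * ((s0 * (γ * h) 0 0 + s1 * (γ * h) 1 0) * (s0 * (γ * h) 0 1 + s1 * (γ * h) 1 1)) := by
    intro s0 s1 hs
    have hc : Continuous fun M : Matrix (Fin 2) (Fin 2) ℝ =>
      σ * ((s0 * M 1 1 - s1 * M 1 0) * (s1 * M 0 0 - s0 * M 0 1)) := by fun_prop
    obtain ⟨M, ⟨γ, hγ, ρ, hρ, e⟩, hM'⟩ := ((mem_closure_iff_frequently.1 hM).and_eventually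
      (hc.continuousAt.eventually (lt_mem_nhds (show 0 < _ by
        have := mul_pos (sq_pos_of_ne_zero hσ) (sq_pos_of_ne_zero hs)
        simp
        nlinarith)))).exists
    refine ⟨γ⁻¹, S.Γ.inv_mem hγ, ?_⟩
    have : γ⁻¹ * h = (h⁻¹ * γ)⁻¹ := by simp
    rw [this, Matrix.SpecialLinearGroup.SL2_inv_expl]
    simp only [e] at hM'
    generalize h⁻¹ * γ = B at hM'
    simp
    by_contra hc
    nlinarith [mul_pos hρ hρ]
  by_cases hs : r0 * p1 - r1 * p0 = 0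
  · obtain ⟨δ, hδ, hd⟩ := S.nonelem hr
    obtain ⟨γ, hγ, e⟩ := key (r0 * δ 0 0 + r1 * δ 1 0) (r0 * δ 0 1 + r1 * δ 1 1) fun h0 => hd (by
      rcases hp with hp | hp
      · refine mul_left_cancel₀ hp ?_
        linear_combination r0 * h0 - (r0 * δ 0 0 + r1 * δ 1 0) * hs
      · refine mul_left_cancel₀ hp ?_
        linear_combination r1 * h0 - (r0 * δ 0 1 + r1 * δ 1 1) * hs)
    refine ⟨δ * γ, S.Γ.mul_mem hδ hγ, ?_⟩
    rw [mul_assoc δ]
    generalize γ * h = B at e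
    simp only [mul_entry]
    convert e using 3 <;> ring
  · exact key r0 r1 hs

lemma place (g h : SL(2, ℝ)) {σ : ℝ} (hσ : σ * σ = 1) : ∃ γ ∈ S.Γ,
    (g * γ * h) 1 0 ≠ 0 ∧ (g * γ * h) 1 1 ≠ 0 ∧ 0 < σ * ((g * γ * h) 0 1 / (g * γ * h) 1 1) ∧
      σ * ((g * γ * h) 0 1 / (g * γ * h) 1 1) < σ * ((g * γ * h) 0 0 / (g * γ * h) 1 0) ∧
      σ * ((g * γ * h) 0 0 / (g * γ * h) 1 0) < 9 / 10 := by
  obtain ⟨r0, r1, hr, hM⟩ := S.prox g (σ / 2)
  obtain ⟨δ, hδ, hd⟩ := S.minimal hr h (left_ne_zero_of_mul (hσ.trans_ne one_ne_zero))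
  set B := δ * h with hB
  have n := mul_ne_zero_iff.1 (right_ne_zero_of_mul hd.ne')
  have c1 : Continuous fun M : Matrix (Fin 2) (Fin 2) ℝ =>
    σ * ((M 1 0 * B 0 0 + M 1 1 * B 1 0) * (M 1 0 * B 0 1 + M 1 1 * B 1 1)) := by fun_prop
  have c2 : ∀ j, r0 * B 0 j + r1 * B 1 j ≠ 0 → Tendsto (fun M : Matrix (Fin 2) (Fin 2) ℝ =>
      σ * ((M 0 0 * B 0 j + M 0 1 * B 1 j) / (M 1 0 * B 0 j + M 1 1 * B 1 j)))
      (𝓝 !![σ / 2 * r0, σ / 2 * r1; r0, r1]) (𝓝 (1 / 2)) := by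
    intro j hj
    have : ContinuousAt (fun M : Matrix (Fin 2) (Fin 2) ℝ =>
      σ * ((M 0 0 * B 0 j + M 0 1 * B 1 j) / (M 1 0 * B 0 j + M 1 1 * B 1 j)))
        !![σ / 2 * r0, σ / 2 * r1; r0, r1] :=
      continuousAt_const.mul (ContinuousAt.div (by fun_prop) (by fun_prop) (by simpa using hj))
    convert this.tendsto using 2
    simp
    field_simp
    linear_combination (-1 : ℝ) * hσ
  obtain ⟨M, ⟨γ, hγ, ρ, hρ, e⟩, h1, h2, h3⟩ := ((mem_closure_iff_frequently.1 hM).and_eventually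
    ((c1.continuousAt.eventually (lt_mem_nhds (show 0 < _ by simpa using hd))).and
      (((c2 1 n.2).eventually (lt_mem_nhds (show (0 : ℝ) < 1 / 2 by norm_num))).and
        ((c2 0 n.1).eventually (gt_mem_nhds (show (1 / 2 : ℝ) < 9 / 10 by norm_num)))))).exists
  refine ⟨γ * δ, S.Γ.mul_mem hγ hδ, ?_⟩
  have e2 : ∀ i j, M i 0 * B 0 j + M i 1 * B 1 j = ρ * (g * (γ * δ) * h) i j := fun i j => by
    rw [e, e, ← mul_assoc g, mul_assoc _ δ, ← hB, mul_entry _ B]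
    ring
  simp only [e2, mul_div_mul_left _ _ hρ.ne'] at h1 h2 h3
  have d := det_one (g * (γ * δ) * h)
  generalize g * (γ * δ) * h = A at *
  have h4 : 0 < σ * (A 1 0 * A 1 1) := by
    by_contra hc
    nlinarith [mul_pos hρ hρ]
  have n' := mul_ne_zero_iff.1 (right_ne_zero_of_mul h4.ne')
  refine ⟨n'.1, n'.2, h2, sub_pos.1 ?_, h3⟩
  have : σ * (A 0 0 / A 1 0) - σ * (A 0 1 / A 1 1) = σ * (A 1 0 * A 1 1) / (A 1 0 * A 1 1) ^ 2 := by
    have := n'.1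
    have := n'.2
    field_simp
    linear_combination σ * d
  rw [this]
  exact div_pos h4 (sq_pos_of_ne_zero (mul_ne_zero n'.1 n'.2))

/-- a translate of the curve `w` is well placed in the frame `g` -/
def Good (w : ℝ → ℍ) (σ ε : ℝ) (g : SL(2, ℝ)) : Prop :=
  ∃ γ ∈ S.Γ, ∃ s2 s3 m : ℝ, s2 < s3 ∧ 0 < m ∧ m < 9 / 10 ∧
    (∀ s ≤ s2, 0 < σ * (g • γ • w s).re ∧ σ * (g • γ • w s).re < m) ∧
    (∀ s, s3 ≤ s → m < σ * (g • γ • w s).re ∧ σ * (g • γ • w s).re < 9 / 10) ∧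
    ε ≤ (g • γ • w s2).im ∧ ε ≤ (g • γ • w s3).im ∧
    Tendsto (fun s => (g • γ • w s).im) atBot (𝓝 0) ∧ Tendsto (fun s => (g • γ • w s).im) atTop (𝓝 0)

lemma Good.mono {w : ℝ → ℍ} {σ ε ε' : ℝ} {g : SL(2, ℝ)} (h : S.Good w σ ε g) (hε : ε' ≤ ε) :
    S.Good w σ ε' g := by
  obtain ⟨γ, hγ, s2, s3, m, a, b, c, d, e, f1, f2, f3⟩ := h
  exact ⟨γ, hγ, s2, s3, m, a, b, c, d, e, hε.trans f1, hε.trans f2, f3⟩

lemma good_loc {w : ℝ → ℍ} {g0 : SL(2, ℝ)} (h1 : Tendsto (fun t => lg (g0 • w t)) atBot atBot)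
    (h2 : Tendsto (fun t => lg (g0 • w t)) atTop atTop) {σ : ℝ} (hσ : σ * σ = 1) (g : SL(2, ℝ)) :
    ∃ ε, 0 < ε ∧ ∀ᶠ g' in 𝓝 g, S.Good w σ ε g' := by
  obtain ⟨γ, hγ, n1, n2, a, b, c⟩ := S.place g g0⁻¹ hσ
  set s : SL(2, ℝ) := mkS 0 1 (-1) 0 (by simp) with hs
  have e1 : ∀ A : SL(2, ℝ), (A * s) 0 1 = A 0 0 ∧ (A * s) 1 1 = A 1 0 := fun A => by
    simp [mul_entry, hs, mkS]
  have h2' : Tendsto (fun t => lg (s⁻¹ • g0 • w t)) atTop atBot := by
    refine (tendsto_neg_atTop_atBot.comp h2).congr fun t => ?_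
    have := coe_mkS 0 1 (-1) 0 (by simp) (s⁻¹ • g0 • w t)
    rw [← hs, smul_inv_smul] at this
    simp [lg, this]
  set m := (σ * ((g * γ * g0⁻¹) 0 1 / (g * γ * g0⁻¹) 1 1) +
    σ * ((g * γ * g0⁻¹) 0 0 / (g * γ * g0⁻¹) 1 0)) / 2 with hm
  obtain ⟨δ1, k1⟩ := end_open n2 a (hi := m) (by linarith)
  obtain ⟨δ2, k2⟩ := end_open (A0 := g * γ * g0⁻¹ * s) (σ := σ) (lo := m) (hi := 9 / 10)
    (by rwa [(e1 _).2]) (by rw [(e1 _).1, (e1 _).2]; linarith) (by rwa [(e1 _).1, (e1 _).2])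
  obtain ⟨s2, t2⟩ := eventually_atBot.1 (h1.eventually (eventually_lt_atBot δ1))
  obtain ⟨s3, t3, t4⟩ := ((eventually_forall_ge_atTop.2
    (h2'.eventually (eventually_lt_atBot δ2))).and (eventually_gt_atTop s2)).exists
  have c0 : ∀ z : ℍ, ∀ᶠ g' in 𝓝 g, (g • z).im / 2 < (g' • z).im := fun z =>
    ContinuousAt.eventually_lt continuousAt_const (by fun_prop) (half_lt_self (g • z).im_pos)
  refine ⟨min ((g • γ • w s2).im / 2) ((g • γ • w s3).im / 2),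
    lt_min (half_pos (im_pos _)) (half_pos (im_pos _)), ?_⟩
  have c1 : ContinuousAt (fun g' : SL(2, ℝ) => g' * γ * g0⁻¹) g := by fun_prop
  have c2 : ContinuousAt (fun g' : SL(2, ℝ) => g' * γ * g0⁻¹ * s) g := by fun_prop
  filter_upwards [c1.eventually k1, c2.eventually k2, c0 (γ • w s2), c0 (γ • w s3)]
    with g' u1 u2 u3 u4
  have v1 : ∀ t, g' • γ • w t = (g' * γ * g0⁻¹) • g0 • w t := fun t => by simp [mul_smul]
  have v2 : ∀ t, g' • γ • w t = (g' * γ * g0⁻¹ * s) • s⁻¹ • g0 • w t := fun t => by simp [mul_smul]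
  refine ⟨γ, hγ, s2, s3, m, t4, by linarith, by linarith, fun t ht => ?_, fun t ht => ?_,
    (min_le_left _ _).trans u3.le, (min_le_right _ _).trans u4.le, ?_, ?_⟩
  · rw [v1]
    exact u1.2 _ (t2 t ht)
  · rw [v2]
    exact u2.2 _ (t3 t ht)
  · simp only [v1]
    exact end_im u1.1 h1
  · simp only [v2]
    exact end_im u2.1 h2'

lemma good_all {w : ℝ → ℍ} {g0 : SL(2, ℝ)} (h1 : Tendsto (fun t => lg (g0 • w t)) atBot atBot)
    (h2 : Tendsto (fun t => lg (g0 • w t)) atTop atTop) {σ : ℝ} (hσ : σ * σ = 1) :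
    ∃ ε, 0 < ε ∧ ∀ g, S.Good w σ ε g := by
  obtain ⟨ε, hε, h⟩ := (compact_G S.R0).induction_on
    (p := fun K => ∃ ε, 0 < ε ∧ ∀ g ∈ K, S.Good w σ ε g) ⟨1, one_pos, fun _ h => h.elim⟩
    (fun _ _ hst ⟨ε, a, b⟩ => ⟨ε, a, fun g hg => b g (hst hg)⟩)
    (fun _ _ ⟨ε, a, b⟩ ⟨ε', a', b'⟩ => ⟨min ε ε', lt_min a a', fun g hg => hg.elim
      (fun hg => (b g hg).mono S (min_le_left _ _)) fun hg => (b' g hg).mono S (min_le_right _ _)⟩)
    fun g _ => let ⟨ε, a, b⟩ := S.good_loc h1 h2 hσ g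
      ⟨_, mem_nhdsWithin_of_mem_nhds b, ε, a, fun _ h => h⟩
  refine ⟨ε, hε, fun g => ?_⟩
  obtain ⟨δ, hδ, hd⟩ := S.cov (g⁻¹ • UpperHalfPlane.I)
  obtain ⟨γ, hγ, r⟩ := h (g * δ⁻¹) (by
    rw [mem_ofPred_eq, ← dist_smul (δ * g⁻¹), ← mul_smul, mul_smul δ g⁻¹ UpperHalfPlane.I, dist_comm]
    simpa [mul_assoc] using hd)
  refine ⟨δ⁻¹ * γ, S.Γ.mul_mem (S.Γ.inv_mem hδ) hγ, ?_⟩
  simpa only [mul_smul] using r

end Sys

end

end Pool.Agent.Lib.MP_21f752_an
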