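import Pool.Agent.Lib.MP_21f752_an.Cut

/-! The Liouville measure on the cover is preserved by the flow and by the group. -/

namespace Pool.Agent.Lib.MP_21f752_an

open UpperHalfPlane Set Filter Topology Metric MeasureTheory
open scoped MatrixGroups ContDiff Real ENNReal

noncomputable section

def D3 (u v w : ℂ × ℝ) : ℝ :=
  u.1.re * (v.1.im * w.2 - v.2 * w.1.im) - v.1.re * (u.1.im * w.2 - u.2 * w.1.im) +
    w.1.re * (u.1.im * v.2 - u.2 * v.1.im)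

def Λ3 : (ℂ × ℝ) ≃ₗ[ℝ] (Fin 3 → ℝ) where
  toFun x := ![x.1.re, x.1.im, x.2]
  invFun v := (⟨v 0, v 1⟩, v 2)
  map_add' x y := by ext i; fin_cases i <;> simp
  map_smul' c x := by ext i; fin_cases i <;> simp
  left_inv x := by simp
  right_inv v := by ext i; fin_cases i <;> simp

lemma det_eq (A : (ℂ × ℝ) →L[ℝ] (ℂ × ℝ)) :
    A.det = D3 (A (1, 0)) (A (Complex.I, 0)) (A (0, 1)) := by
  rw [ContinuousLinearMap.det, ← LinearMap.det_conj _ Λ3, ← LinearMap.det_toMatrix',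
    Matrix.det_fin_three]
  have e0 : Λ3.symm (Pi.single 0 1) = (1, 0) := by
    rw [LinearEquiv.symm_apply_eq]; ext i; fin_cases i <;> simp [Λ3]
  have e1 : Λ3.symm (Pi.single 1 1) = (Complex.I, 0) := by
    rw [LinearEquiv.symm_apply_eq]; ext i; fin_cases i <;> simp [Λ3]
  have e2 : Λ3.symm (Pi.single 2 1) = (0, 1) := by
    rw [LinearEquiv.symm_apply_eq]; ext i; fin_cases i <;> simp [Λ3]
  simp only [LinearMap.toMatrix'_apply, LinearMap.comp_apply, LinearEquiv.coe_coe, e0, e1, e2]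
  simp [Λ3, D3]
  ring

def toN (x : ℂ × ℝ) : N := (ofComplex x.1, x.2)

lemma toN_emb (ξ : N) : toN (emb ξ) = ξ := by simp [toN, emb]

lemma isOpenEmbedding_emb : IsOpenEmbedding emb := isOpenEmbedding_coe.prodMap IsOpenEmbedding.id

lemma mEmb : MeasurableEmbedding emb := isOpenEmbedding_emb.measurableEmbedding

lemma lint_emb (g : ℂ × ℝ → ℝ≥0∞) :
    ∫⁻ ξ, g (emb ξ) ∂(Measure.comap emb volume) = ∫⁻ x in range emb, g x := by
  rw [← mEmb.lintegral_map, mEmb.map_comap]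

namespace Sys

variable (S : Sys)

lemma continuous_L : Continuous fun z : ℍ => S.L z :=
  continuous_iff_continuousAt.2 fun z =>
    ContinuousAt.comp (g := S.L) (S.L_cd z.im_pos).continuousAt continuous_coe.continuousAt

def ρ (ξ : N) : ℝ := Real.exp (2 * S.L ξ.1)

lemma continuous_ρ : Continuous S.ρ :=
  (continuous_const.mul (S.continuous_L.comp continuous_fst)).rexp

def μ : Measure N := (Measure.comap emb volume).withDensity fun ξ => ENNReal.ofReal (S.ρ ξ)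

lemma lint_μ (G : N → ℝ≥0∞) : ∫⁻ ξ, G ξ ∂S.μ =
    ∫⁻ ξ, ENNReal.ofReal (S.ρ ξ) * G ξ ∂(Measure.comap emb volume) :=
  lintegral_withDensity_eq_lintegral_mul_non_measurable _
    S.continuous_ρ.measurable.ennreal_ofReal (.of_forall fun _ => ENNReal.ofReal_lt_top) G

lemma pres {T : N → N} {T' : ℂ × ℝ → ℂ × ℝ} (hT : ∀ ξ, T' (emb ξ) = emb (T ξ))
    (hb : Function.Bijective T) {A : N → (ℂ × ℝ) →L[ℝ] (ℂ × ℝ)}
    (hA : ∀ ξ, HasFDerivAt T' (A ξ) (emb ξ)) (hd : ∀ ξ, (A ξ).det * S.ρ (T ξ) = S.ρ ξ)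
    (G : N → ℝ≥0∞) : ∫⁻ ξ, G (T ξ) ∂S.μ = ∫⁻ ξ, G ξ ∂S.μ := by
  have him : T' '' range emb = range emb := by
    ext x
    constructor
    · rintro ⟨_, ⟨ξ, rfl⟩, rfl⟩
      exact ⟨_, (hT ξ).symm⟩
    · rintro ⟨ξ, rfl⟩
      obtain ⟨η, rfl⟩ := hb.2 ξ
      exact ⟨_, ⟨η, rfl⟩, hT η⟩
  have : Measure.IsAddHaarMeasure (volume : Measure (ℂ × ℝ)) :=
    Measure.prod.instIsAddHaarMeasure _ _
  have h := lintegral_image_eq_lintegral_abs_det_fderiv_mul volume (f := T')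
    (f' := fun x => A (toN x)) mEmb.measurableSet_range
    (by rintro _ ⟨ξ, rfl⟩; rw [toN_emb]; exact (hA ξ).hasFDerivWithinAt)
    (by
      rintro _ ⟨ξ, rfl⟩ _ ⟨η, rfl⟩ h
      rw [hT, hT] at h
      rw [hb.1 (emb_inj h)])
    (fun x => ENNReal.ofReal (S.ρ (toN x)) * G (toN x))
  rw [him, ← lint_emb, ← lint_emb] at h
  simp only [hT, toN_emb] at h
  rw [lint_μ, lint_μ, h]
  refine lintegral_congr fun ξ => ?_
  have h1 : 0 < S.ρ (T ξ) := Real.exp_pos _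
  have h2 : 0 < (A ξ).det := by
    have : 0 < (A ξ).det * S.ρ (T ξ) := by rw [hd]; exact Real.exp_pos _
    exact (mul_pos_iff_of_pos_right h1).1 this
  rw [← mul_assoc, ← ENNReal.ofReal_mul (abs_nonneg _), abs_of_pos h2, hd]

lemma pres_gg {γ : SL(2, ℝ)} (hγ : γ ∈ S.Γ) (s : ℝ) (G : N → ℝ≥0∞) :
    ∫⁻ ξ, G (gg γ s ξ) ∂S.μ = ∫⁻ ξ, G ξ ∂S.μ := by
  choose D hD hD' using fun ξ : N => hasFDerivAt_ang γ ξ.1.im_pos
  have h0 : ∀ x : ℂ × ℝ, HasFDerivAt Prod.fst (ContinuousLinearMap.fst ℝ ℂ ℝ) x :=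
    fun x => hasFDerivAt_fst
  have h0' : ∀ x : ℂ × ℝ, HasFDerivAt Prod.snd (ContinuousLinearMap.snd ℝ ℂ ℝ) x :=
    fun x => hasFDerivAt_snd
  have h1 := fun ξ : N =>
    (HasFDerivAt.comp (g := mob γ) (emb ξ)
      ((hasDerivAt_mob γ ξ.1.im_pos).hasFDerivAt.restrictScalars ℝ) (h0 _)).prodMk
        (((h0' _).add (HasFDerivAt.comp (g := ang γ) (emb ξ) (hD ξ) (h0 _))).add_const s)
  refine S.pres (T := gg γ s) (fun ξ => ?_)
    ⟨Function.LeftInverse.injective (gi_gg γ s), Function.RightInverse.surjective (gg_gi γ s)⟩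
    h1 (fun ξ => ?_) G
  · simp [emb, gg, coe_smul_mob]
  · have hn := Complex.normSq_pos.2 (den_ne γ ξ.1.im_pos)
    rw [det_eq]
    have e : ((gg γ s ξ).1 : ℂ) = mob γ ξ.1 := coe_smul_mob _ _
    have e2 : Complex.normSq (1 / den γ ξ.1 ^ 2) = 1 / Complex.normSq (den γ ξ.1) ^ 2 := by simp
    simp only [ρ, e, S.L_mob hγ ξ.1.im_pos]
    rw [add_zero, one_mul, mul_add, Real.exp_add, two_mul (Real.log _), Real.exp_add,
      Real.exp_log hn]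
    generalize 1 / den γ ξ.1 ^ 2 = q at e2
    simp [D3]
    rw [Complex.normSq_apply] at e2
    rw [e2]
    field_simp

lemma D3_frame (q1 q2 q3 v : ℂ) (z1 z2 z3 α β : ℝ) :
    D3 (q1 * v, z1 - q1.im * α + q1.re * β) (q2 * v, z2 - q2.im * α + q2.re * β)
      (q3 * v, z3 - q3.im * α + q3.re * β) = ‖v‖ ^ 2 * D3 (q1, z1) (q2, z2) (q3, z3) := by
  simp only [D3, Complex.sq_norm, Complex.normSq_apply, Complex.mul_re, Complex.mul_im]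
  ring

lemma J_eq (ξ : N) (δ : ℂ × ℝ) (t : ℝ) : S.J ξ δ t = (S.jq ξ δ t * S.V (S.φ t ξ),
    S.jz ξ δ t - (S.jq ξ δ t).im * fderiv ℝ S.L (S.φ t ξ).1 (S.V (S.φ t ξ)) +
      (S.jq ξ δ t).re * S.W (S.φ t ξ)) :=
  Prod.ext (S.J_fst ξ δ t) (by simp only [jz]; ring)

lemma D3_J (ξ : N) (δ1 δ2 δ3 : ℂ × ℝ) (t : ℝ) :
    D3 (S.J ξ δ1 t) (S.J ξ δ2 t) (S.J ξ δ3 t) * S.ρ (S.φ t ξ) = D3 δ1 δ2 δ3 * S.ρ ξ := by
  have h1 : ∀ t, D3 (S.J ξ δ1 t) (S.J ξ δ2 t) (S.J ξ δ3 t) * S.ρ (S.φ t ξ) =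
      D3 (S.jq ξ δ1 t, S.jz ξ δ1 t) (S.jq ξ δ2 t, S.jz ξ δ2 t) (S.jq ξ δ3 t, S.jz ξ δ3 t) := by
    intro t
    rw [J_eq, J_eq, J_eq, D3_frame, normSq_V, ρ, mul_right_comm, ← Real.exp_add]
    simp
  have h2 : ∀ t, HasDerivAt (fun t => D3 (S.jq ξ δ1 t, S.jz ξ δ1 t) (S.jq ξ δ2 t, S.jz ξ δ2 t)
      (S.jq ξ δ3 t, S.jz ξ δ3 t)) 0 t := by
    intro t
    refine ((((S.hd_ja ξ δ1 t).mul (((S.hd_jy ξ δ2 t).mul (S.hd_jz ξ δ3 t)).sub
      ((S.hd_jz ξ δ2 t).mul (S.hd_jy ξ δ3 t)))).sub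
      ((S.hd_ja ξ δ2 t).mul (((S.hd_jy ξ δ1 t).mul (S.hd_jz ξ δ3 t)).sub
      ((S.hd_jz ξ δ1 t).mul (S.hd_jy ξ δ3 t))))).add
      ((S.hd_ja ξ δ3 t).mul (((S.hd_jy ξ δ1 t).mul (S.hd_jz ξ δ2 t)).sub
      ((S.hd_jz ξ δ1 t).mul (S.hd_jy ξ δ2 t))))).congr_deriv ?_
    simp only [Pi.mul_apply, Pi.sub_apply]
    ring
  have h3 := is_const_of_deriv_eq_zero (fun t => (h2 t).differentiableAt) (fun t => (h2 t).deriv) t 0
  rw [h1, h3, ← h1, J_zero, J_zero, J_zero, φ_zero]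

lemma φ_neg (t : ℝ) (ξ : N) : S.φ (-t) (S.φ t ξ) = ξ := by
  rw [← φ_add, neg_add_cancel, φ_zero]

lemma φ_neg' (t : ℝ) (ξ : N) : S.φ t (S.φ (-t) ξ) = ξ := by
  rw [← φ_add, add_neg_cancel, φ_zero]

lemma pres_φ (t : ℝ) (G : N → ℝ≥0∞) : ∫⁻ ξ, G (S.φ t ξ) ∂S.μ = ∫⁻ ξ, G ξ ∂S.μ := by
  refine S.pres (T := S.φ t) (S.Φ_emb t)
    ⟨Function.LeftInverse.injective (S.φ_neg t), Function.RightInverse.surjective (S.φ_neg' t)⟩
    (S.hasFDerivAt_slice t) (fun ξ => ?_) G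
  have := S.D3_J ξ (1, 0) (Complex.I, 0) (0, 1) t
  rw [det_eq]
  refine Eq.trans this ?_
  simp [D3]

end Sys

end

end Pool.Agent.Lib.MP_21f752_an
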