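import Pool.Agent.Lib.MP_21f752_an.Lap
import Pool.Agent.Lib.MP_21f752_an.PInt

/-! An invariant primitive of an invariant two-form with zero mean. -/

namespace Pool.Agent.Lib.MP_21f752_an

open UpperHalfPlane Set Filter Topology Metric MeasureTheory
open scoped MatrixGroups ContDiff Real ENNReal ComplexConjugate

noncomputable section

lemma cd_prim {Y : Type} [NormedAddCommGroup Y] [NormedSpace ℝ Y] [FiniteDimensional ℝ Y]
    {h : Y × ℝ → ℝ} (hh : ContDiff ℝ ∞ h) {e : Y → ℝ} (he : ContDiff ℝ ∞ e) (a : ℝ) :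
    ContDiff ℝ ∞ fun y => ∫ s in a..e y, h (y, s) := by
  have : (fun y => ∫ s in a..e y, h (y, s)) =
      fun y => (e y - a) * ∫ s in (0 : ℝ)..1, h (y, (e y - a) * s + a) := by
    ext y
    rw [← smul_eq_mul, intervalIntegral.smul_integral_comp_mul_add (fun s => h (y, s))]
    simp
  rw [this]
  exact (he.sub contDiff_const).mul (contDiff_int
    (F := fun p : Y × ℝ => h (p.1, (e p.1 - a) * p.2 + a)) (hh.comp (contDiff_fst.prodMk
      ((((he.comp contDiff_fst).sub contDiff_const).mul contDiff_snd).add contDiff_const))) 0 1)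

lemma int_Icc {g : ℝ → ℝ} {a b : ℝ} (hab : a ≤ b) (h : ∀ s, s < a ∨ b < s → g s = 0) :
    ∫ s in a..b, g s = ∫ s, g s := by
  rw [intervalIntegral.integral_of_le hab, ← integral_Icc_eq_integral_Ioc,
    setIntegral_eq_integral_of_forall_compl_eq_zero]
  intro s hs
  refine h s ?_
  by_contra hc
  push Not at hc
  exact hs hc

lemma int_below {g : ℝ → ℝ} {a b : ℝ} (hab : b ≤ a) (h : ∀ s, s < a → g s = 0) :
    ∫ s in a..b, g s = 0 := by
  rw [intervalIntegral.integral_symm, intervalIntegral.integral_of_le hab,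
    integral_Ioc_eq_integral_Ioo, setIntegral_eq_zero_of_forall_eq_zero fun s hs => h s hs.2,
    neg_zero]

lemma hd_lineF {F : ℂ → ℂ} {z : ℂ} (hF : DifferentiableAt ℝ F z) (u : ℂ) :
    HasDerivAt (fun s : ℝ => F (z + (s : ℂ) * u)) (fderiv ℝ F z u) 0 := by
  have e : z + ((0 : ℝ) : ℂ) * u = z := by simp
  have h : HasFDerivAt F (fderiv ℝ F z) (z + ((0 : ℝ) : ℂ) * u) := by rw [e]; exact hF.hasFDerivAt
  exact h.comp_hasDerivAt (f := fun s : ℝ => z + (s : ℂ) * u) 0 (hd_line z u)

lemma curl_lin (D : ℂ →L[ℝ] ℂ) (u v : ℂ) :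
    (D u * v).re - (D v * u).re = ((D 1 * Complex.I).re - (D Complex.I).re) * (conj u * v).im := by
  have h1 := clm_lin D u 1
  have h2 := clm_lin D v 1
  simp only [mul_one] at h1 h2
  rw [h1, h2]
  simp
  ring

lemma poincare {w : ℂ → ℝ} (hw : ContDiff ℝ ∞ w) {A y0 : ℝ} (hA : y0 < A) (h0 : 0 < y0)
    (hb : ∀ z, w z ≠ 0 → Box A y0 z) (hI : ∫ z, w z = 0) :
    ∃ F : ℂ → ℂ, ContDiff ℝ ∞ F ∧ (∀ z, F z ≠ 0 → Box A y0 z) ∧
      ∀ z u v, (fderiv ℝ F z u * v).re - (fderiv ℝ F z v * u).re = w z * (conj u * v).im := by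
  have hz : ∀ x s : ℝ, A < |x| ∨ s < y0 ∨ A < s → w (x + s * Complex.I) = 0 := by
    intro x s h
    by_contra hc
    obtain ⟨a, b, c⟩ := hb _ hc
    simp at a b c
    rcases h with h | h | h <;> linarith
  have h1 : ContDiff ℝ ∞ fun p : ℝ × ℝ => w (p.1 + p.2 * Complex.I) :=
    hw.comp ((Complex.ofRealCLM.contDiff.comp contDiff_fst).add
      ((Complex.ofRealCLM.contDiff.comp contDiff_snd).mul contDiff_const))
  set p : ℂ → ℝ := fun z => ∫ s in y0..z.im, w (z.re + s * Complex.I) with hp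
  set m : ℝ → ℝ := fun x => ∫ s in y0..A, w (x + s * Complex.I) with hm
  set M : ℝ → ℝ := fun x => ∫ s in (-A)..x, m s with hM
  set σ : ℝ → ℝ := fun y => Real.smoothTransition ((y - y0) / (A - y0)) with hσ
  have pcd : ContDiff ℝ ∞ p := cd_prim (h := fun q : ℂ × ℝ => w (q.1.re + q.2 * Complex.I))
    (h1.comp ((Complex.reCLM.contDiff.comp contDiff_fst).prodMk contDiff_snd))
    Complex.imCLM.contDiff y0
  have mcd : ContDiff ℝ ∞ m := cd_prim h1 contDiff_const y0
  have Mcd : ContDiff ℝ ∞ M :=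
    cd_prim (h := fun q : ℝ × ℝ => m q.2) (mcd.comp contDiff_snd) contDiff_id (-A)
  have σcd : ContDiff ℝ ∞ σ :=
    Real.smoothTransition.contDiff.comp ((contDiff_id.sub contDiff_const).div_const _)
  have σ'cd : ContDiff ℝ ∞ (deriv σ) := (contDiff_infty_iff_deriv.1 σcd).2
  have m0 : ∀ x, A < |x| → m x = 0 := fun x hx => by simp [hm, hz x _ (Or.inl hx)]
  have mI : ∀ x, m x = ∫ s : ℝ, w (x + s * Complex.I) := fun x =>
    int_Icc hA.le fun s hs => hz x s (Or.inr hs)
  have tot : ∫ x, m x = 0 := by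
    have hint : Integrable w := by
      refine hw.continuous.integrable_of_hasCompactSupport
        (HasCompactSupport.intro (isCompact_closedBall 0 (2 * A)) fun z hz => ?_)
      by_contra hc
      obtain ⟨a, b, c⟩ := hb _ hc
      refine hz (mem_closedBall_zero_iff.2 ((Complex.norm_le_abs_re_add_abs_im z).trans ?_))
      rw [abs_of_pos (h0.trans_le b)]
      linarith
    have e := Complex.volume_preserving_equiv_real_prod.symm
    rw [← hI, ← e.integral_comp' w, Measure.volume_eq_prod, integral_prod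
      (fun x => w (Complex.measurableEquivRealProd.symm x)) ((e.integrable_comp_emb (MeasurableEquiv.measurableEmbedding _)).2 hint)]
    simp only [mI, Complex.measurableEquivRealProd_symm_apply, Complex.mk_eq_add_mul_I]
  have σ0 : ∀ y, y < y0 → σ y = 0 := fun y hy =>
    Real.smoothTransition.zero_of_nonpos (div_nonpos_of_nonpos_of_nonneg (by linarith) (by linarith))
  have σ1 : ∀ y, A < y → σ y = 1 := fun y hy =>
    Real.smoothTransition.one_of_one_le ((one_le_div (by linarith)).2 (by linarith))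
  have hF : ContDiff ℝ ∞ fun z : ℂ => ((-p z + m z.re * σ z.im : ℝ) : ℂ) -
      (deriv σ z.im * M z.re : ℝ) * Complex.I :=
    (Complex.ofRealCLM.contDiff.comp (pcd.neg.add ((mcd.comp Complex.reCLM.contDiff).mul
      (σcd.comp Complex.imCLM.contDiff)))).sub ((Complex.ofRealCLM.contDiff.comp
        ((σ'cd.comp Complex.imCLM.contDiff).mul (Mcd.comp Complex.reCLM.contDiff))).mul
          contDiff_const)
  refine ⟨_, hF, fun z h => ?_, fun z u v => ?_⟩
  · by_contra hc
    apply h
    simp only [Box, not_and_or, not_le] at hc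
    rcases hc with hc | hc | hc
    · have a : p z = 0 := by simp [hp, hz _ _ (Or.inl hc)]
      have b : M z.re = 0 := by
        rcases lt_abs.1 hc with hc | hc
        · rw [← tot]
          exact int_Icc (by linarith) fun s hs => m0 s
            (lt_abs.2 (by rcases hs with hs | hs; exacts [Or.inr (by linarith), Or.inl (by linarith)]))
        · exact int_below (by linarith) fun s hs => m0 s (lt_abs.2 (Or.inr (by linarith)))
      simp [a, b, m0 _ hc]
    · have a : p z = 0 := int_below hc.le fun s hs => hz _ s (Or.inr (Or.inl hs))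
      have b : deriv σ z.im = 0 := by
        have : σ =ᶠ[𝓝 z.im] fun _ => 0 := (eventually_lt_nhds hc).mono σ0
        rw [this.deriv_eq, deriv_const]
      simp [a, b, σ0 _ hc]
    · have a : p z = m z.re := by
        rw [mI]
        exact int_Icc (by linarith) fun s hs => hz _ s (Or.inr (hs.imp id fun h => by linarith))
      have b : deriv σ z.im = 0 := by
        have : σ =ᶠ[𝓝 z.im] fun _ => 1 := (eventually_gt_nhds hc).mono σ1
        rw [this.deriv_eq, deriv_const]
      simp [a, b, σ1 _ hc]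
  · rw [curl_lin]
    congr 1
    have d1 := hd_re ((hd_lineF (hF.differentiable (by simp) z) 1).mul_const Complex.I)
    have d2 := hd_re (hd_lineF (hF.differentiable (by simp) z) Complex.I)
    have a1 : HasDerivAt M (m z.re) (z.re + 0) := by
      rw [add_zero]
      exact (mcd.continuous.integral_hasStrictDerivAt _ _).hasDerivAt
    have a2 : HasDerivAt (fun y => ∫ s in y0..y, w (z.re + s * Complex.I)) (w z) (z.im + 0) := by
      have := ((h1.continuous.comp (continuous_const.prodMk continuous_id :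
        Continuous fun s : ℝ => (z.re, s))).integral_hasStrictDerivAt y0 z.im).hasDerivAt
      simpa using this
    have a3 : HasDerivAt σ (deriv σ z.im) (z.im + 0) := by
      rw [add_zero]
      exact (σcd.differentiable (by simp) _).hasDerivAt
    have b1 := d1.unique (((a1.comp_const_add _ _).const_mul (deriv σ z.im)).congr_of_eventuallyEq
      (.of_forall fun s => by simp))
    have b2 := d2.unique (((a2.comp_const_add _ _).neg.add
      ((a3.comp_const_add _ _).const_mul (m z.re))).congr_of_eventuallyEq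
      (.of_forall fun s => by simp [hp]))
    rw [b1, b2]
    ring

lemma den_mul (γ δ : SL(2, ℝ)) {z : ℂ} (hz : 0 < z.im) :
    den (γ * δ) z = den γ (mob δ z) * den δ z := by
  have := den_ne δ hz
  rw [den, den, mob]
  field_simp
  simp [den, Matrix.mul_apply, Fin.sum_univ_two]
  ring

lemma fderiv_pull {F : ℂ → ℂ} (hF : ContDiff ℝ ∞ F) (γ : SL(2, ℝ)) {z : ℂ} (hz : 0 < z.im) :
    ContDiffAt ℝ ∞ (fun z => F (mob γ z) / den γ z ^ 2) z ∧ ∀ u,
      fderiv ℝ (fun z => F (mob γ z) / den γ z ^ 2) z u =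
        fderiv ℝ F (mob γ z) (u / den γ z ^ 2) / den γ z ^ 2 -
          2 * F (mob γ z) * (γ 1 0 : ℝ) * u / den γ z ^ 3 := by
  have hd := den_ne γ hz
  have h1 : ContDiffAt ℝ ∞ (fun z => F (mob γ z) / den γ z ^ 2) z := by
    have : ContDiffAt ℂ ∞ (fun z => (den γ z ^ 2)⁻¹) z :=
      ContDiffAt.inv (by unfold den; fun_prop) (pow_ne_zero 2 hd)
    exact (hF.contDiffAt.comp z (mob_cd γ hz)).mul (this.restrict_scalars ℝ)
  refine ⟨h1, fun u => ?_⟩
  have e : z + ((0 : ℝ) : ℂ) * u = z := by simp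
  have a := (hF.differentiable (by simp) _).hasFDerivAt.comp_hasDerivAt
    (f := fun s : ℝ => mob γ (z + (s : ℂ) * u)) 0 (hd_mob γ (hd_line z u) (by rw [e]; exact hz))
  have b := (hd_hol (hasDerivAt_den γ _) (hd_line z u)).pow 2
  have := (hd_lineF (h1.differentiableAt (by simp)) u).unique
    (a.div b (by simp only [e]; exact pow_ne_zero 2 hd))
  rw [this]
  simp only [e, Function.comp]
  field_simp
  ring

namespace Sys

variable (S : Sys)

lemma exists_prim {c : ℝ} (hc : S.I (fun ξ => S.b ξ.1) = c * S.Hy) :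
    ∃ F : ℂ → ℂ, (∀ z : ℂ, 0 < z.im → ContDiffAt ℝ ∞ F z) ∧
      (∀ γ ∈ S.Γ, ∀ z : ℂ, 0 < z.im → F (mob γ z) / den γ z ^ 2 = F z) ∧
      ∀ z : ℂ, 0 < z.im → ∀ u v, (fderiv ℝ F z u * v).re - (fderiv ℝ F z v * u).re =
        (S.B z * Real.exp (2 * S.L z) - c / z.im ^ 2) * (conj u * v).im := by
  set g : ℂ → ℝ := fun z => S.B z - c * Real.exp (-2 * S.f (ofComplex z)) with hg
  have hb : ∀ z, Real.exp (2 * S.L z) * S.cut.χ z * g z ≠ 0 → Box S.cut.A S.cut.y0 z :=
    fun z h => S.cut.box z (right_ne_zero_of_mul (left_ne_zero_of_mul h))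
  have hI : ∫ z, Real.exp (2 * S.L z) * S.cut.χ z * g z = 0 := by
    have h1 := I_base (S := S) g
    have h2 := S.ci_b.I_sub ((CI.const c).mul S.ci_e)
    rw [I_mul, hc, Hy, sub_self] at h2
    simp only [hg, B, ofComplex_apply] at h1
    rw [h2] at h1
    exact (mul_eq_zero.1 h1.symm).resolve_right (by positivity)
  obtain ⟨F0, F0cd, F0b, hF0⟩ := poincare (Box.cd S.cut.y0_pos hb fun z hz =>
    ((contDiffAt_const.mul (S.L_cd hz)).exp.mul S.cut.cd.contDiffAt).mul ((S.B_cd hz).sub
      (contDiffAt_const.mul (contDiffAt_const.mul (S.hf.cd hz)).exp))) S.cut.y0_lt S.cut.y0_pos hb hI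
  have hs : ∀ (γ : S.Γ) (z : ℍ), F0 (mob γ z) / den γ z ^ 2 ≠ 0 →
      dist ((γ : SL(2, ℝ)) • z) UpperHalfPlane.I ≤ _ := fun γ z h =>
    Box.dist_le S.cut.y0_pos (by rw [coe_smul_mob]; exact F0b _ (left_ne_zero_of_mul h))
  refine ⟨fun z => ∑ᶠ γ : S.Γ, F0 (mob γ z) / den γ z ^ 2, fun z hz =>
    S.sum_cd (G := fun γ z => F0 (mob γ z) / den γ z ^ 2) hs hz fun γ => (fderiv_pull F0cd γ hz).1,
    fun δ hδ z hz => ?_, fun z hz u v => ?_⟩
  · beta_reduce
    rw [div_eq_mul_inv, finsum_mul, ← finsum_comp_equiv (Equiv.mulRight (⟨δ, hδ⟩ : S.Γ))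
      (f := fun γ : S.Γ => F0 (mob γ z) / den γ z ^ 2)]
    refine finsum_congr fun γ => ?_
    simp only [Equiv.coe_mulRight, Subgroup.coe_mul, mob_mul _ _ hz, den_mul _ _ hz]
    rw [mul_pow, ← div_div, div_eq_mul_inv _ (den δ z ^ 2)]
  · have key : ∀ γ : S.Γ, (fderiv ℝ (fun z => F0 (mob γ z) / den γ z ^ 2) z u * v).re -
        (fderiv ℝ (fun z => F0 (mob γ z) / den γ z ^ 2) z v * u).re = S.cut.χ (mob γ z) *
          ((S.B z * Real.exp (2 * S.L z) - c / z.im ^ 2) * (conj u * v).im) := by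
      intro γ
      have hd := den_ne γ hz
      have hn := Complex.normSq_pos.2 hd
      have h1 := hF0 (mob γ z) (u / den γ z ^ 2) (v / den γ z ^ 2)
      have e1 : (conj (u / den γ z ^ 2) * (v / den γ z ^ 2)).im =
          (conj u * v).im / Complex.normSq (den γ z) ^ 2 := by
        have : conj (u / den γ z ^ 2) * (v / den γ z ^ 2) =
            conj u * v / ((Complex.normSq (den γ z) ^ 2 : ℝ) : ℂ) := by
          push_cast
          rw [Complex.normSq_eq_conj_mul_self, map_div₀, map_pow]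
          have : conj (den γ z) ≠ 0 := by simpa using hd
          field_simp
        rw [this, Complex.div_ofReal_im]
      have e2 : g (mob γ z) = g z := by
        simp only [hg, B, ofComplex_mob _ hz, S.b_inv _ γ.2, S.f_inv _ γ.2]
      have e3 : c / z.im ^ 2 = Real.exp (2 * S.L z) * (c * Real.exp (-2 * S.f (ofComplex z))) := by
        have := S.exp_L_div ⟨z, hz⟩
        rw [ofComplex_apply_of_im_pos hz, ← this, neg_mul, Real.exp_neg]
        simp only
        field_simp
      rw [e1, e2, S.L_mob γ.2 hz, add_zero, one_mul, mul_add, Real.exp_add, two_mul (Real.log _),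
        Real.exp_add, Real.exp_log hn] at h1
      rw [(fderiv_pull F0cd γ hz).2, (fderiv_pull F0cd γ hz).2, e3, ← Complex.sub_re]
      rw [← Complex.sub_re] at h1
      refine Eq.trans (congrArg Complex.re (by ring)) (h1.trans ?_)
      simp only [hg]
      field_simp
    obtain ⟨T, hT⟩ := S.sum_ev (G := fun γ z => F0 (mob γ z) / den γ z ^ 2) hs hz
    have h1 : (fun z => ∑ᶠ γ : S.Γ, F0 (mob γ z) / den γ z ^ 2) =ᶠ[𝓝 z]
      fun z => ∑ γ ∈ T, F0 (mob γ z) / den γ z ^ 2 := hT.mono fun z h => h.2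
    rw [h1.fderiv_eq, fderiv_fun_sum fun (γ : S.Γ) _ =>
      (fderiv_pull F0cd γ hz).1.differentiableAt (by simp)]
    simp only [sum_apply, Finset.sum_mul, Complex.re_sum,
      ← Finset.sum_sub_distrib, key]
    rw [← finsum_eq_sum_of_support_subset, ← finsum_mul, S.cut.sum_one z hz, one_mul]
    intro γ hγ
    by_contra hc
    apply hγ
    have h2 : (fun z => F0 (mob γ z) / den γ z ^ 2) =ᶠ[𝓝 z] fun _ => 0 :=
      hT.mono fun z h => h.1 γ hc
    simp only
    rw [← key, h2.fderiv_eq]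
    simp

end Sys

end

end Pool.Agent.Lib.MP_21f752_an
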