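import Pool.Agent.Lib.MP_21f752_an.Conj

/-! Riccati estimates and the integral inequality of Hopf. -/

namespace Pool.Agent.Lib.MP_21f752_an

open UpperHalfPlane Set Filter Topology Metric MeasureTheory
open scoped MatrixGroups ContDiff Real

noncomputable section

namespace Sys

variable {S : Sys}

lemma CI.lower {G : N → ℝ} (h : S.CI G) (h0 : ∀ ξ, 0 < G ξ) : ∃ m, 0 < m ∧ ∀ ξ, m ≤ G ξ := by
  obtain ⟨C, hC0, hC⟩ := Inv.bdd (S := S) (G := fun ξ => (G ξ)⁻¹)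
    (fun γ hγ k ξ => by simp only [h.inv γ hγ]) (h.cont.inv₀ fun ξ => (h0 ξ).ne')
  refine ⟨(C + 1)⁻¹, by positivity, fun ξ => ?_⟩
  rw [inv_le_comm₀ (by positivity) (h0 ξ)]
  linarith [le_abs_self (G ξ)⁻¹, hC ξ]

variable (S)

lemma ci_jy (t : ℝ) : S.CI fun ξ => S.jy ξ t := by
  refine ⟨Complex.continuous_im.comp (Continuous.div (continuous_fst.comp ?_)
    (S.continuous_V.comp (S.continuous_φ.comp (continuous_const.prodMk continuous_id)))
    fun ξ => S.V_ne _), fun γ hγ k ξ => ?_⟩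
  · refine Continuous.clm_apply (continuous_iff_continuousAt.2 fun ξ => ?_) continuous_const
    exact ContinuousAt.comp (g := fderiv ℝ S.Φ) (f := fun ξ : N => (t, emb ξ))
      ((S.Φ_cd (p := (t, emb ξ)) ξ.1.im_pos).fderiv_right (m := ∞) (by simp)).continuousAt
      (continuous_const.prodMk continuous_emb).continuousAt
  · obtain ⟨C, -, hC⟩ := S.ci_Km.inv.bdd S.ci_Km.cont
    refine (lin_uniq (k := fun t => S.Km (S.φ t ξ)) (fun t => hC _) (S.hd_y _) (fun t => ?_)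
      (S.hd_y ξ) (S.hd_w ξ) (t0 := 0) (by simp [jy_zero]) (by simp [jw_zero]) t).1
    have := S.hd_w (gg γ (k * (2 * π)) ξ) t
    rwa [S.φ_gg hγ, S.ci_Km.inv γ hγ] at this

def ju (ξ : N) (t : ℝ) : ℝ := S.jw ξ t / S.jy ξ t

variable {S}

lemma Uq.ric (h : S.Uq) (ξ : N) {a b : ℝ} (ha : 0 < a) (hab : a ≤ b) {g g' ψ : ℝ → ℝ}
    (hg : ∀ t, HasDerivAt g (g' t) t) (hψ : Continuous ψ)
    (hle : ∀ t ∈ Ioo a b, g' t ^ 2 - S.Km (S.φ t ξ) * g t ^ 2 ≤ ψ t) :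
    S.ju ξ b * g b ^ 2 - S.ju ξ a * g a ^ 2 ≤ ∫ t in a..b, ψ t := by
  have key := fun t (ht : t ∈ Icc a b) =>
    ((S.hd_w ξ t).div (S.hd_y ξ t) (h.jy_ne ξ (ha.trans_le ht.1))).mul ((hg t).pow 2)
  refine intervalIntegral.sub_le_integral_of_hasDeriv_right_of_le hab
    (g := fun t => S.ju ξ t * g t ^ 2)
    (fun t ht => (key t ht).continuousAt.continuousWithinAt)
    (fun t ht => (key t (Ioo_subset_Icc_self ht)).hasDerivWithinAt)
    hψ.integrableOn_Icc fun t ht => le_trans ?_ (hle t ht)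
  have hy := h.jy_ne ξ (ha.trans ht.1)
  have e : (-(S.Km (S.φ t ξ) * S.jy ξ t) * S.jy ξ t - S.jw ξ t * S.jw ξ t) / S.jy ξ t ^ 2 =
      -S.Km (S.φ t ξ) - (S.jw ξ t / S.jy ξ t) ^ 2 := by
    field_simp
  simp only [Pi.pow_apply, Pi.div_apply, e]
  nlinarith [sq_nonneg (S.jw ξ t / S.jy ξ t * g t - g' t)]

lemma Uq.ju_bdd (h : S.Uq) : ∃ C, 0 < C ∧ ∀ ξ t, 1 ≤ t → |S.ju ξ t| ≤ C := by
  obtain ⟨C, hC0, hC⟩ := S.ci_Km.inv.bdd S.ci_Km.cont
  refine ⟨C + 2, by positivity, fun ξ t ht => abs_le.2 ⟨?_, ?_⟩⟩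
  · have := h.ric ξ (a := t) (b := t + 1) (by linarith) (by linarith) (g := fun s => 1 - (s - t))
      (g' := fun _ => -1) (ψ := fun _ => 1 + C)
      (fun s => ((hasDerivAt_id s).sub_const t).const_sub 1) continuous_const fun s hs => by
        have := (abs_le.1 (hC (S.φ s ξ))).1
        have h1 : (1 - (s - t)) ^ 2 ≤ 1 := by nlinarith [hs.1, hs.2]
        nlinarith [sq_nonneg (1 - (s - t))]
    simp at this
    linarith
  · have := h.ric ξ (a := t - 1 / 2) (b := t) (by linarith) (by linarith)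
      (g := fun s => (s - t) * 2 + 1) (g' := fun _ => 1 * 2) (ψ := fun _ => 4 + C)
      (fun s => (((hasDerivAt_id s).sub_const t).mul_const 2).add_const 1) continuous_const
      fun s hs => by
        have := (abs_le.1 (hC (S.φ s ξ))).1
        have h1 : ((s - t) * 2 + 1) ^ 2 ≤ 1 := by nlinarith [hs.1, hs.2]
        nlinarith [sq_nonneg ((s - t) * 2 + 1)]
    simp at this
    linarith

lemma Uq.jy_inv_bdd (h : S.Uq) : ∃ C, ∀ ξ t, 1 ≤ t → (S.jy ξ t)⁻¹ ≤ C := by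
  obtain ⟨C, hC0, hC⟩ := h.ju_bdd
  obtain ⟨m, hm0, hm⟩ := (S.ci_jy 1).lower fun ξ => h.jy_pos ξ one_pos
  obtain ⟨M, hM0, hM⟩ := (S.ci_jy 2).inv.bdd (S.ci_jy 2).cont
  refine ⟨1 + 2 * C * (M / m) / m, fun ξ t ht => ?_⟩
  set η := S.φ (-1) ξ with hη
  have w1 : ∀ s, HasDerivAt (fun s => S.jy η (s + 1)) (S.jw η (s + 1)) s := fun s =>
    (S.hd_y η (s + 1)).comp_add_const s 1
  have w2 : ∀ s, HasDerivAt (fun s => S.jw η (s + 1)) (-(S.Km (S.φ s ξ) * S.jy η (s + 1))) s := by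
    intro s
    have := (S.hd_w η (s + 1)).comp_add_const s 1
    rwa [φ_add, hη, φ_neg'] at this
  have W : ∀ s, S.jw ξ s * S.jy η (s + 1) - S.jy ξ s * S.jw η (s + 1) = S.jy η 1 := by
    intro s
    have d : ∀ s, HasDerivAt (fun s => S.jw ξ s * S.jy η (s + 1) - S.jy ξ s * S.jw η (s + 1)) 0 s :=
      fun s => (((S.hd_w ξ s).mul (w1 s)).sub ((S.hd_y ξ s).mul (w2 s))).congr_deriv (by ring)
    have := is_const_of_deriv_eq_zero (fun s => (d s).differentiableAt) (fun s => (d s).deriv) s 0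
    simpa [jw_zero, jy_zero] using this
  have q : ∀ s ∈ Ici (1 : ℝ), HasDerivAt (fun s => S.jy η (s + 1) / S.jy ξ s) _ s := fun s hs =>
    (w1 s).div (S.hd_y ξ s) (h.jy_ne ξ (one_pos.trans_le hs))
  have A : AntitoneOn (fun s => S.jy η (s + 1) / S.jy ξ s) (Ici 1) :=
    antitoneOn_of_deriv_nonpos (convex_Ici 1) (fun s hs => (q s hs).continuousAt.continuousWithinAt)
      (fun s hs => (q s (interior_subset hs)).differentiableAt.differentiableWithinAt) fun s hs => by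
        rw [(q s (interior_subset hs)).deriv]
        exact div_nonpos_of_nonpos_of_nonneg (by linarith [W s, hm η]) (sq_nonneg _)
  have hy := h.jy_pos ξ (one_pos.trans_le ht)
  have hw := h.jy_pos η (t := t + 1) (by linarith)
  have a1 : S.jy η (t + 1) / S.jy ξ t ≤ M / m := by
    refine (A (le_refl (1 : ℝ)) ht ht).trans ?_
    simp only [one_add_one_eq_two]
    exact div_le_div₀ hM0 ((le_abs_self _).trans (hM η)) hm0 (hm ξ)
  have a2 : m ≤ 2 * C * (S.jy ξ t * S.jy η (t + 1)) := by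
    have e : S.jy η 1 = (S.ju ξ t - S.ju η (t + 1)) * (S.jy ξ t * S.jy η (t + 1)) := by
      rw [← W t, ju, ju]
      field_simp
    have b1 := (abs_le.1 (hC ξ t ht)).2
    have b2 := (abs_le.1 (hC η (t + 1) (by linarith))).1
    refine (hm η).trans (e ▸ mul_le_mul_of_nonneg_right (by linarith) (by positivity))
  have a3 : (S.jy ξ t)⁻¹ ^ 2 ≤ 2 * C * (M / m) / m := by
    rw [le_div_iff₀ hm0]
    calc _ ≤ (S.jy ξ t)⁻¹ ^ 2 * (2 * C * (S.jy ξ t * S.jy η (t + 1))) := by gcongr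
      _ = 2 * C * (S.jy η (t + 1) / S.jy ξ t) := by field_simp
      _ ≤ _ := by gcongr
  nlinarith [sq_nonneg ((S.jy ξ t)⁻¹ - 1)]

lemma vol_pos : 0 < S.I fun _ => 1 := (CI.const 1).I_pos fun _ => one_pos

lemma Uq.hopf (h : S.Uq) {G G1 : N → ℝ} (hG : S.CI G) (h1 : Continuous G1)
    (hd : ∀ ξ t, HasDerivAt (fun s => G (S.φ s ξ)) (G1 (S.φ t ξ)) t) :
    0 ≤ S.I fun ξ => G1 ξ ^ 2 - S.Km ξ * G ξ ^ 2 := by
  obtain ⟨C, hC0, hC⟩ := h.ju_bdd
  obtain ⟨B, hB0, hB⟩ := hG.sq.inv.bdd hG.sq.cont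
  have hc : S.CI fun ξ => G1 ξ ^ 2 - S.Km ξ * G ξ ^ 2 :=
    (CI.sq ⟨h1, hG.inv.deriv hd⟩).sub (S.ci_Km.mul hG.sq)
  have key : ∀ T : ℝ, 1 ≤ T → -(2 * C * B) * S.I (fun _ => 1) ≤
      (T - 1) * S.I fun ξ => G1 ξ ^ 2 - S.Km ξ * G ξ ^ 2 := by
    intro T hT
    rw [← hc.I_avg, ← I_const]
    refine (CI.const _).I_mono (hc.avg 1 T) fun ξ =>
      le_trans ?_ (h.ric ξ one_pos hT (hd ξ) (hc.cont_t ξ) fun _ _ => le_rfl)
    have a : ∀ t, 1 ≤ t → |S.ju ξ t * G (S.φ t ξ) ^ 2| ≤ C * B := fun t ht => by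
      rw [abs_mul]
      exact mul_le_mul (hC ξ t ht) (hB _) (abs_nonneg _) hC0.le
    linarith [(abs_le.1 (a T hT)).1, (abs_le.1 (a 1 le_rfl)).2]
  by_contra hneg
  push Not at hneg
  set x := S.I fun ξ => G1 ξ ^ 2 - S.Km ξ * G ξ ^ 2
  have v := vol_pos (S := S)
  have p : 0 ≤ 2 * C * B * S.I (fun _ => 1) := by positivity
  have := key (2 + 2 * C * B * S.I (fun _ => 1) / -x) (by
    have := div_nonneg p (neg_pos.2 hneg).le
    linarith)
  have e : (2 + 2 * C * B * S.I (fun _ => 1) / -x - 1) * x = x - 2 * C * B * S.I (fun _ => 1) := by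
    have := hneg.ne
    field_simp
    ring
  linarith

lemma curv_cd {z : ℂ} (hz : 0 < z.im) : ContDiffAt ℝ ∞ (fun z => curv S.f (ofComplex z)) z := by
  have h2 : ContDiffAt ℝ ∞ (fderiv ℝ (fderiv ℝ S.L)) z := (S.dL_cd hz).fderiv_right (by simp)
  have h3 := ((contDiffAt_const (c := (-2 : ℝ))).mul (S.L_cd hz)).exp.neg.mul
    (((h2.clm_apply (contDiffAt_const (c := 1))).clm_apply (contDiffAt_const (c := 1))).add
      ((h2.clm_apply (contDiffAt_const (c := Complex.I * 1))).clm_apply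
        (contDiffAt_const (c := Complex.I * 1))))
  refine h3.congr_of_eventuallyEq ((ev_im hz).mono fun w hw => ?_)
  simp only [lap_trace, curv, ofComplex_apply_of_im_pos hw]
  simp [L]

lemma Uq.rigid (h : S.Uq)
    (hel : S.I (fun _ => 1) ≤ S.I (fun ξ => S.b ξ.1) / S.Hy * S.I fun ξ => S.b ξ.1) :
    (∃ κ, ∀ z, curv S.f z = κ) ∧ ∃ β, ∀ z, S.b z = β := by
  have v := vol_pos (S := S)
  have hy := S.Hy_pos
  have h1 := h.hopf (CI.const 1) (G1 := fun _ => 0) continuous_const fun _ _ => hasDerivAt_const _ _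
  have h1' : S.I S.Km ≤ 0 := by
    have := I_mul (S := S) (-1) S.Km
    simp only [neg_one_mul] at this
    simp only [one_pow, mul_one, ne_eq, OfNat.ofNat_ne_zero, not_false_eq_true, zero_pow,
      zero_sub] at h1
    linarith
  have h2 := S.I_Km
  set β := S.I (fun ξ => S.b ξ.1) / S.I fun _ => 1 with hβ
  have hB : S.I (fun ξ => S.b ξ.1) = β * S.I fun _ => 1 := by rw [hβ]; field_simp
  have h3 : S.I (fun ξ => (S.b ξ.1 - β) ^ 2) =
      S.I (fun ξ => S.b ξ.1 ^ 2) - β ^ 2 * S.I fun _ => 1 := by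
    have : (fun ξ : N => (S.b ξ.1 - β) ^ 2) = fun ξ => S.b ξ.1 ^ 2 - 2 * β * S.b ξ.1 + β ^ 2 := by
      ext; ring
    rw [this, (S.ci_b.sq.sub ((CI.const _).mul S.ci_b)).I_add (CI.const _),
      S.ci_b.sq.I_sub ((CI.const _).mul S.ci_b), I_mul, I_const (β ^ 2), hB]
    ring
  have h4 : S.Hy ≤ β ^ 2 * S.I fun _ => 1 := by
    rw [hB, div_mul_eq_mul_div, le_div_iff₀ hy] at hel
    nlinarith
  have hc := (S.ci_b.sub (CI.const β)).sq
  have hb : ∀ z, S.b z = β := fun z => by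
    have := hc.eq_zero (fun _ => sq_nonneg _) (by linarith) (z, 0)
    exact sub_eq_zero.1 (pow_eq_zero_iff two_ne_zero |>.1 this)
  refine ⟨⟨-β ^ 2, fun z => ?_⟩, β, hb⟩
  have h5 : 0 ≤ S.I fun ξ => (S.b ξ.1 - β) ^ 2 := integral_nonneg fun _ => sq_nonneg _
  have h6 : S.I S.Km = 0 := by linarith
  have hK : ∀ ξ, S.Km ξ = curv S.f ξ.1 + β ^ 2 := fun ξ => by
    have : S.B = fun _ => β := funext fun z => hb _
    simp [Km, this, hb]
  set G1 := S.d1 fun z => curv S.f (ofComplex z) with hG1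
  have c1 : Continuous G1 := (cont_dG fun z hz => curv_cd hz).clm_apply S.continuous_V
  have d1 : ∀ ξ t, HasDerivAt (fun s => S.Km (S.φ s ξ)) (G1 (S.φ t ξ)) t := fun ξ t => by
    have := (hd_base (S := S) (fun z hz => curv_cd (S := S) hz) ξ t).add_const (β ^ 2)
    simpa [hK] using this
  have k := S.ci_Km
  have g1 : S.CI G1 := ⟨c1, k.inv.deriv d1⟩
  have key : ∀ ε : ℝ, 0 < ε → 2 * S.I (fun ξ => S.Km ξ ^ 2) ≤
      ε * S.I fun ξ => G1 ξ ^ 2 - S.Km ξ * S.Km ξ ^ 2 := by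
    intro ε hε
    have := h.hopf ((CI.const 1).add ((CI.const ε).mul k)) (G1 := fun ξ => ε * G1 ξ)
      (continuous_const.mul c1) fun ξ t => ((d1 ξ t).const_mul ε).const_add 1
    have e : (fun ξ => (ε * G1 ξ) ^ 2 - S.Km ξ * (1 + ε * S.Km ξ) ^ 2) = fun ξ =>
        ε ^ 2 * (G1 ξ ^ 2 - S.Km ξ * S.Km ξ ^ 2) - 2 * ε * S.Km ξ ^ 2 - S.Km ξ := by
      ext; ring
    have a := (CI.const (ε ^ 2)).mul (g1.sq.sub (k.mul k.sq))
    have b := (CI.const (2 * ε)).mul k.sq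
    rw [e, (a.sub b).I_sub k, a.I_sub b, I_mul, I_mul, h6] at this
    nlinarith
  have h7 : S.I (fun ξ => S.Km ξ ^ 2) ≤ 0 := by
    have t : Tendsto (fun ε : ℝ => ε * S.I fun ξ => G1 ξ ^ 2 - S.Km ξ * S.Km ξ ^ 2) (𝓝[>] 0)
        (𝓝 (0 * _)) := (tendsto_id.mono_left nhdsWithin_le_nhds).mul_const _
    have := ge_of_tendsto t (eventually_mem_nhdsWithin.mono key)
    linarith
  have := k.sq.eq_zero (fun _ => sq_nonneg _) h7 (z, 0)
  rw [pow_eq_zero_iff two_ne_zero, hK] at this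
  exact eq_neg_of_add_eq_zero_left this

end Sys

end

end Pool.Agent.Lib.MP_21f752_an
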