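import Pool.Agent.Lib.MP_21f752_an.Defs
import Pool.Agent.Lib.MP_0cc5e8_gt.FlowA

/-! The normalised system and its flow on the unit tangent bundle of the cover. -/

namespace Pool.Agent.Lib.MP_21f752_an

open UpperHalfPlane Set Filter Topology Metric
open scoped MatrixGroups ContDiff Real

noncomputable section

structure Sys where
  Γ : Subgroup SL(2, ℝ)
  fin : ∀ R : ℝ, {γ : Γ | dist ((γ : SL(2, ℝ)) • UpperHalfPlane.I) UpperHalfPlane.I ≤ R}.Finite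
  R0 : ℝ
  cov : ∀ z : ℍ, ∃ γ ∈ Γ, dist (γ • z) UpperHalfPlane.I ≤ R0
  f : ℍ → ℝ
  b : ℍ → ℝ
  hf : SmoothH f
  hb : SmoothH b
  f_inv : ∀ γ ∈ Γ, ∀ z, f (γ • z) = f z
  b_inv : ∀ γ ∈ Γ, ∀ z, b (γ • z) = b z

abbrev N := ℍ × ℝ

def emb (ξ : N) : ℂ × ℝ := (ξ.1, ξ.2)

def ce (θ : ℝ) : ℂ := Complex.exp (θ * Complex.I)

lemma norm_ce (θ : ℝ) : ‖ce θ‖ = 1 := Complex.norm_exp_ofReal_mul_I θ

lemma ce_ne (θ : ℝ) : ce θ ≠ 0 := Complex.exp_ne_zero _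

lemma ce_add (a b : ℝ) : ce (a + b) = ce a * ce b := by
  simp [ce, add_mul, Complex.exp_add]

lemma ce_zero : ce 0 = 1 := by simp [ce]

lemma ce_int (k : ℤ) : ce (k * (2 * π)) = 1 := by
  have := Complex.exp_int_mul_two_pi_mul_I k
  simp only [ce]
  push_cast
  rw [← this]
  congr 1
  ring

lemma ce_half : ce (π / 2) = Complex.I := by
  simp only [ce]
  push_cast
  exact Complex.exp_pi_div_two_mul_I

lemma ce_pi : ce π = -1 := Complex.exp_pi_mul_I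

lemma contDiff_ce {n : WithTop ℕ∞} : ContDiff ℝ n ce :=
  (Complex.contDiff_exp (𝕜 := ℝ)).comp (Complex.ofRealCLM.contDiff.mul contDiff_const)

lemma continuous_ce : Continuous ce := (contDiff_ce (n := 0)).continuous

lemma hasDerivAt_ce (a : ℝ) : HasDerivAt ce (Complex.I * ce a) a := by
  have := ((Complex.ofRealCLM.hasDerivAt (x := a)).mul_const Complex.I).cexp
  refine this.congr_deriv ?_
  simp [ce, mul_comm]

lemma ce_eq_iff {a b : ℝ} : ce a = ce b ↔ ∃ k : ℤ, a = b + k * (2 * π) := by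
  simp only [ce, Complex.exp_eq_exp_iff_exists_int]
  constructor
  · rintro ⟨k, hk⟩
    refine ⟨k, ?_⟩
    have := congrArg Complex.im hk
    simpa using this
  · rintro ⟨k, rfl⟩
    exact ⟨k, by push_cast; ring⟩

lemma SmoothH.cd {g : ℍ → ℝ} (h : SmoothH g) {z : ℂ} (hz : 0 < z.im) :
    ContDiffAt ℝ ∞ (fun z : ℂ => g (ofComplex z)) z :=
  h.contDiffAt (isOpen_upperHalfPlaneSet.mem_nhds hz)

lemma SmoothH.continuous {g : ℍ → ℝ} (h : SmoothH g) : Continuous g := by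
  have : g = (fun z : ℂ => g (ofComplex z)) ∘ ((↑) : ℍ → ℂ) := by
    ext z; simp
  rw [this]
  exact continuous_iff_continuousAt.2 fun z =>
    ContinuousAt.comp (h.cd z.im_pos).continuousAt continuous_coe.continuousAt

lemma logim_cd {z : ℂ} (hz : 0 < z.im) : ContDiffAt ℝ ∞ (fun z : ℂ => Real.log z.im) z :=
  (Complex.imCLM.contDiff.contDiffAt).log hz.ne'

lemma lam_cd {g : ℍ → ℝ} (h : SmoothH g) {z : ℂ} (hz : 0 < z.im) : ContDiffAt ℝ ∞ (lam g) z :=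
  (h.cd hz).sub (logim_cd hz)

namespace Sys

variable (S : Sys)

def L : ℂ → ℝ := lam S.f

def B (z : ℂ) : ℝ := S.b (ofComplex z)

lemma L_cd {z : ℂ} (hz : 0 < z.im) : ContDiffAt ℝ ∞ S.L z := lam_cd S.hf hz

lemma B_cd {z : ℂ} (hz : 0 < z.im) : ContDiffAt ℝ ∞ S.B z := S.hb.cd hz

lemma dL_cd {z : ℂ} (hz : 0 < z.im) : ContDiffAt ℝ ∞ (fderiv ℝ S.L) z :=
  (S.L_cd hz).fderiv_right (by simp)

lemma bdd_inv {g : ℍ → ℝ} (hg : Continuous g) (hi : ∀ γ ∈ S.Γ, ∀ z, g (γ • z) = g z) :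
    ∃ C, ∀ z, |g z| ≤ C := by
  obtain ⟨C, hC⟩ := (isCompact_closedBall UpperHalfPlane.I S.R0).exists_bound_of_continuousOn
    hg.continuousOn
  refine ⟨C, fun z => ?_⟩
  obtain ⟨γ, hγ, h⟩ := S.cov z
  rw [← hi γ hγ z]
  exact hC _ h

lemma exp_neg_L (z : ℍ) : Real.exp (-S.L z) = Real.exp (-S.f z) * z.im := by
  simp only [L, lam, ofComplex_apply, coe_im]
  rw [neg_sub, sub_eq_add_neg, Real.exp_add, Real.exp_log z.im_pos, mul_comm]

lemma exists_speed : ∃ C : ℝ, 1 ≤ C ∧ ∀ z : ℍ, Real.exp (-S.f z) ≤ C ∧ Real.exp (S.f z) ≤ C := by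
  obtain ⟨C, hC⟩ := S.bdd_inv S.hf.continuous S.f_inv
  refine ⟨Real.exp C, Real.one_le_exp ((abs_nonneg _).trans (hC UpperHalfPlane.I)), fun z => ?_⟩
  have := abs_le.1 (hC z)
  exact ⟨Real.exp_le_exp.2 (by linarith), Real.exp_le_exp.2 this.2⟩

/-- the unit vector with angle `x.2` -/
def vv (x : ℂ × ℝ) : ℂ := (Real.exp (-S.L x.1) : ℝ) * ce x.2

/-- the generator of the flow -/
def X (x : ℂ × ℝ) : ℂ × ℝ := (S.vv x, S.B x.1 + fderiv ℝ S.L x.1 (Complex.I * S.vv x))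

lemma vv_cd {x : ℂ × ℝ} (hx : 0 < x.1.im) : ContDiffAt ℝ ∞ S.vv x := by
  have h1 : ContDiffAt ℝ ∞ (fun x : ℂ × ℝ => S.L x.1) x := (S.L_cd hx).comp x contDiffAt_fst
  exact (Complex.ofRealCLM.contDiff.contDiffAt.comp x h1.neg.exp).mul
    (contDiff_ce.contDiffAt.comp x contDiffAt_snd)

lemma X_cd {x : ℂ × ℝ} (hx : 0 < x.1.im) : ContDiffAt ℝ ∞ S.X x := by
  refine (S.vv_cd hx).prodMk (((S.B_cd hx).comp x contDiffAt_fst).add ?_)
  exact ((S.dL_cd hx).comp x contDiffAt_fst).clm_apply (contDiffAt_const.mul (S.vv_cd hx))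

lemma norm_vv (x : ℂ × ℝ) : ‖S.vv x‖ = Real.exp (-S.L x.1) := by
  simp [vv, norm_ce, Complex.norm_exp]

lemma vv_ne (x : ℂ × ℝ) : S.vv x ≠ 0 := by
  rw [← norm_ne_zero_iff, norm_vv]
  exact (Real.exp_pos _).ne'

end Sys

/-- a global chart of the half-plane -/
def Hc (w : ℂ) : ℂ := (w.re : ℂ) + (Real.exp w.im : ℝ) * Complex.I

def Hi (z : ℂ) : ℂ := (z.re : ℂ) + (Real.log z.im : ℝ) * Complex.I

lemma Hc_re (w : ℂ) : (Hc w).re = w.re := by simp [Hc, -Complex.ofReal_exp]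

lemma Hc_im (w : ℂ) : (Hc w).im = Real.exp w.im := by simp [Hc, -Complex.ofReal_exp]

lemma Hi_re (w : ℂ) : (Hi w).re = w.re := by simp [Hi]

lemma Hi_im (w : ℂ) : (Hi w).im = Real.log w.im := by simp [Hi]

lemma Hc_pos (w : ℂ) : 0 < (Hc w).im := by rw [Hc_im]; exact Real.exp_pos _

lemma Hc_Hi {z : ℂ} (hz : 0 < z.im) : Hc (Hi z) = z :=
  Complex.ext (by rw [Hc_re, Hi_re]) (by rw [Hc_im, Hi_im, Real.exp_log hz])

lemma Hc_cd : ContDiff ℝ ∞ Hc :=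
  (Complex.ofRealCLM.contDiff.comp Complex.reCLM.contDiff).add
    ((Complex.ofRealCLM.contDiff.comp Complex.imCLM.contDiff.exp).mul contDiff_const)

lemma Hi_cd {z : ℂ} (hz : 0 < z.im) : ContDiffAt ℝ ∞ Hi z :=
  (Complex.ofRealCLM.contDiff.comp Complex.reCLM.contDiff).contDiffAt.add
    ((Complex.ofRealCLM.contDiff.contDiffAt.comp z (logim_cd hz)).mul contDiffAt_const)

lemma hd_re {z : ℝ → ℂ} {z' : ℂ} {t : ℝ} (h : HasDerivAt z z' t) :
    HasDerivAt (fun s => (z s).re) z'.re t := Complex.reCLM.hasFDerivAt.comp_hasDerivAt t h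

lemma hd_im {z : ℝ → ℂ} {z' : ℂ} {t : ℝ} (h : HasDerivAt z z' t) :
    HasDerivAt (fun s => (z s).im) z'.im t := Complex.imCLM.hasFDerivAt.comp_hasDerivAt t h

lemma hd_mk {x y : ℝ → ℝ} {x' y' t : ℝ} (h : HasDerivAt x x' t) (h' : HasDerivAt y y' t) :
    HasDerivAt (fun s => (x s : ℂ) + (y s : ℝ) * Complex.I) ((x' : ℂ) + (y' : ℝ) * Complex.I) t :=
  h.ofReal_comp.add (h'.ofReal_comp.mul_const _)

lemma hd_Hc {w : ℝ → ℂ} {w' : ℂ} {t : ℝ} (h : HasDerivAt w w' t) :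
    HasDerivAt (fun s => Hc (w s))
      ((w'.re : ℂ) + (Real.exp (w t).im * w'.im : ℝ) * Complex.I) t :=
  hd_mk (hd_re h) (hd_im h).exp

lemma hd_Hi {z : ℝ → ℂ} {z' : ℂ} {t : ℝ} (h : HasDerivAt z z' t) (hz : 0 < (z t).im) :
    HasDerivAt (fun s => Hi (z s)) ((z'.re : ℂ) + (z'.im / (z t).im : ℝ) * Complex.I) t :=
  hd_mk (hd_re h) ((hd_im h).log hz.ne')

namespace Sys

variable (S : Sys)

/-- the generator in the global chart, as a function of the point and of the direction -/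
def Gc (x : ℂ × ℂ) : ℂ × ℝ :=
  (((((Real.exp (-S.L (Hc x.1)) : ℝ) * x.2).re : ℝ) : ℂ) +
      (((Real.exp (-S.L (Hc x.1)) : ℝ) * x.2).im / (Hc x.1).im : ℝ) * Complex.I,
    S.B (Hc x.1) + fderiv ℝ S.L (Hc x.1) (Complex.I * ((Real.exp (-S.L (Hc x.1)) : ℝ) * x.2)))

def Fc (x : ℂ × ℝ) : ℂ × ℝ := S.Gc (x.1, ce x.2)

lemma Gc_cd : ContDiff ℝ ∞ S.Gc := by
  have hH : ContDiff ℝ ∞ (fun x : ℂ × ℂ => Hc x.1) := Hc_cd.comp contDiff_fst
  have hL : ContDiff ℝ ∞ (fun x : ℂ × ℂ => S.L (Hc x.1)) :=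
    contDiff_iff_contDiffAt.2 fun x => (S.L_cd (Hc_pos x.1)).comp x hH.contDiffAt
  have hB : ContDiff ℝ ∞ (fun x : ℂ × ℂ => S.B (Hc x.1)) :=
    contDiff_iff_contDiffAt.2 fun x => ContDiffAt.comp (g := S.B) x (S.B_cd (Hc_pos x.1)) hH.contDiffAt
  have hD : ContDiff ℝ ∞ (fun x : ℂ × ℂ => fderiv ℝ S.L (Hc x.1)) :=
    contDiff_iff_contDiffAt.2 fun x => (S.dL_cd (Hc_pos x.1)).comp x hH.contDiffAt
  have hv : ContDiff ℝ ∞ (fun x : ℂ × ℂ => ((Real.exp (-S.L (Hc x.1)) : ℝ) : ℂ) * x.2) :=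
    (Complex.ofRealCLM.contDiff.comp hL.neg.exp).mul contDiff_snd
  refine ContDiff.prodMk ?_ (hB.add (hD.clm_apply (contDiff_const.mul hv)))
  refine (Complex.ofRealCLM.contDiff.comp (Complex.reCLM.contDiff.comp hv)).add
    ((Complex.ofRealCLM.contDiff.comp ?_).mul contDiff_const)
  exact (Complex.imCLM.contDiff.comp hv).div (Complex.imCLM.contDiff.comp hH)
    fun x => (Hc_pos x.1).ne'

lemma Fc_cd : ContDiff ℝ ∞ S.Fc :=
  S.Gc_cd.comp (contDiff_fst.prodMk (contDiff_ce.comp contDiff_snd))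

lemma Fc_lip : MMT.LipB S.Fc := MP_0cc5e8_gt.flowLipB (S.Fc_cd.of_le (by simp))

lemma Fc_bounds {C : ℝ} (hC : ∀ z : ℍ, Real.exp (-S.f z) ≤ C) (x : ℂ × ℝ) :
    |(S.Fc x).1.im| ≤ C ∧ |(S.Fc x).1.re| ≤ C * Real.exp x.1.im := by
  have h1 := S.exp_neg_L ⟨Hc x.1, Hc_pos x.1⟩
  have h2 := hC ⟨Hc x.1, Hc_pos x.1⟩
  have h3 : ‖((Real.exp (-S.L (Hc x.1)) : ℝ) : ℂ) * ce x.2‖ ≤ C * (Hc x.1).im := by
    rw [norm_mul, norm_ce, mul_one, Complex.norm_real, Real.norm_of_nonneg (Real.exp_pos _).le]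
    exact h1.le.trans (mul_le_mul_of_nonneg_right h2 (Hc_pos x.1).le)
  have hp := Hc_pos x.1
  constructor
  · have : (S.Fc x).1.im = (((Real.exp (-S.L (Hc x.1)) : ℝ) : ℂ) * ce x.2).im / (Hc x.1).im := by
      simp only [Fc, Gc, Complex.add_im, Complex.ofReal_im, Complex.mul_im, Complex.I_im,
        Complex.ofReal_re, Complex.I_re]
      ring
    rw [this, abs_div, abs_of_pos hp, div_le_iff₀ hp]
    exact (Complex.abs_im_le_norm _).trans h3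
  · have : (S.Fc x).1.re = (((Real.exp (-S.L (Hc x.1)) : ℝ) : ℂ) * ce x.2).re := by
      simp only [Fc, Gc, Complex.add_re, Complex.ofReal_im, Complex.mul_re, Complex.I_im,
        Complex.ofReal_re, Complex.I_re]
      ring
    rw [this, ← Hc_im]
    exact (Complex.abs_re_le_norm _).trans h3

lemma abs_sub_le_of_deriv {g g' : ℝ → ℝ} {C n t : ℝ} (h : ∀ s, HasDerivAt g (g' s) s)
    (hC : ∀ s ∈ Icc (-n) n, |g' s| ≤ C) (ht : t ∈ Icc (-n) n) : |g t - g 0| ≤ C * |t| := by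
  have h0 : (0 : ℝ) ∈ Icc (-n) n := ⟨by linarith [ht.1, ht.2], by linarith [ht.1, ht.2]⟩
  have := (convex_Icc (-n) n).norm_image_sub_le_of_norm_hasDerivWithin_le
    (fun s _ => (h s).hasDerivWithinAt) hC h0 ht
  simpa using this

lemma Fc_global (w : ℂ × ℝ) : ∃ x : ℝ → ℂ × ℝ, x 0 = w ∧ ∀ t, HasDerivAt x (S.Fc (x t)) t := by
  obtain ⟨C, hC1, hC⟩ := S.exists_speed
  refine MMT.glue S.Fc_lip fun n => ?_
  have hn : (0 : ℝ) ≤ n := Nat.cast_nonneg n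
  set r : ℝ := C * n + C * Real.exp (w.1.im + C * n) * n + 1 with hr
  have hr0 : 0 < r := by positivity
  let χ : ContDiffBump w.1 := ⟨r, r + 1, hr0, by linarith⟩
  have hχ : ContDiff ℝ ∞ (fun x : ℂ × ℝ => χ x.1 • S.Fc x) :=
    (χ.contDiff.comp contDiff_fst).smul S.Fc_cd
  obtain ⟨M, hM⟩ := ((isCompact_closedBall w.1 (r + 1)).prod
    (isCompact_closedBall (0 : ℂ) 1)).exists_bound_of_continuousOn S.Gc_cd.continuous.continuousOn
  have hb : ∀ x : ℂ × ℝ, ‖χ x.1 • S.Fc x‖ ≤ max M 0 := by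
    intro x
    by_cases hx : x.1 ∈ closedBall w.1 (r + 1)
    · rw [norm_smul, Real.norm_of_nonneg χ.nonneg]
      have := hM (x.1, ce x.2) ⟨hx, by simp [norm_ce]⟩
      calc _ ≤ 1 * ‖S.Fc x‖ := mul_le_mul_of_nonneg_right χ.le_one (norm_nonneg _)
        _ ≤ _ := by rw [one_mul]; exact this.trans (le_max_left _ _)
    · rw [χ.zero_of_le_dist (by simpa using (not_le.1 hx).le), zero_smul, norm_zero]
      exact le_max_right _ _
  obtain ⟨x, hx0, hx⟩ := MMT.exists_global_of_bounded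
    (MP_0cc5e8_gt.flowLipB (hχ.of_le (by simp))) hb w
  have h1 : ∀ s, HasDerivAt (fun s => (x s).1) (χ (x s).1 • (S.Fc (x s)).1) s := fun s =>
    (ContinuousLinearMap.fst ℝ ℂ ℝ).hasFDerivAt.comp_hasDerivAt s (hx s)
  have hχ1 : ∀ s, |χ (x s).1| ≤ 1 := fun s => by
    rw [abs_of_nonneg χ.nonneg]; exact χ.le_one
  have him : ∀ s ∈ Icc (-(n : ℝ)) n, |(x s).1.im - w.1.im| ≤ C * n := by
    intro s hs
    have := abs_sub_le_of_deriv (C := C) (fun s => hd_im (h1 s)) (fun s _ => by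
      rw [Complex.smul_im, smul_eq_mul, abs_mul]
      calc _ ≤ 1 * C := mul_le_mul (hχ1 s) (S.Fc_bounds (fun z => (hC z).1) _).1 (abs_nonneg _)
            zero_le_one
        _ = C := one_mul C) hs
    rw [hx0] at this
    exact this.trans (mul_le_mul_of_nonneg_left (abs_le.2 hs) (by linarith))
  have hre : ∀ s ∈ Icc (-(n : ℝ)) n,
      |(x s).1.re - w.1.re| ≤ C * Real.exp (w.1.im + C * n) * n := by
    intro s hs
    have := abs_sub_le_of_deriv (C := C * Real.exp (w.1.im + C * n)) (fun s => hd_re (h1 s))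
      (fun s hs => by
        rw [Complex.smul_re, smul_eq_mul, abs_mul]
        calc _ ≤ 1 * (C * Real.exp (x s).1.im) := mul_le_mul (hχ1 s)
              (S.Fc_bounds (fun z => (hC z).1) _).2 (abs_nonneg _) zero_le_one
          _ ≤ _ := by
            rw [one_mul]
            have := (abs_le.1 (him s hs)).2
            gcongr
            linarith) hs
    rw [hx0] at this
    exact this.trans (mul_le_mul_of_nonneg_left (abs_le.2 hs) (by positivity))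
  refine ⟨x, hx0, fun t ht => ?_⟩
  have ht' := Ioo_subset_Icc_self ht
  have : χ (x t).1 = 1 := by
    refine χ.one_of_mem_closedBall ?_
    rw [mem_closedBall, dist_eq_norm]
    refine (Complex.norm_le_abs_re_add_abs_im _).trans ?_
    have a := him t ht'
    have b := hre t ht'
    simp only [Complex.sub_re, Complex.sub_im]
    change _ ≤ r
    linarith
  simpa [this] using hx t

lemma exists_chart_flow : ∃ Ψ : ℝ × (ℂ × ℝ) → ℂ × ℝ, ContDiff ℝ ∞ Ψ ∧ (∀ x, Ψ (0, x) = x) ∧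
    ∀ x t, HasDerivAt (fun s => Ψ (s, x)) (S.Fc (Ψ (t, x))) t := by
  choose x hx0 hx using S.Fc_global
  refine ⟨fun p => x p.2 p.1, ?_, hx0, hx⟩
  exact MMT.flow_smooth (Φ := fun t w => x w t)
    (N := fun v => (⟨S.Fc, S.Fc_cd.continuous⟩ : C(ℂ × ℝ, ℂ × ℝ)).comp v) S.Fc_lip
    (contDiff_infty.2 fun n => MP_0cc5e8_gt.flowNem_contDiff n (contDiff_infty.1 S.Fc_cd n))
    (fun _ _ => rfl) hx0 hx

def Ψ : ℝ × (ℂ × ℝ) → ℂ × ℝ := S.exists_chart_flow.choose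

/-- the flow -/
def φ (t : ℝ) (ξ : N) : N :=
  (⟨Hc (S.Ψ (t, (Hi ξ.1, ξ.2))).1, Hc_pos _⟩, (S.Ψ (t, (Hi ξ.1, ξ.2))).2)

/-- the flow read in the plane -/
def Φ (p : ℝ × (ℂ × ℝ)) : ℂ × ℝ :=
  (Hc (S.Ψ (p.1, (Hi p.2.1, p.2.2))).1, (S.Ψ (p.1, (Hi p.2.1, p.2.2))).2)

lemma Φ_emb (t : ℝ) (ξ : N) : S.Φ (t, emb ξ) = emb (S.φ t ξ) := rfl

lemma Φ_pos (p : ℝ × (ℂ × ℝ)) : 0 < (S.Φ p).1.im := Hc_pos _

lemma Φ_cd {p : ℝ × (ℂ × ℝ)} (hp : 0 < p.2.1.im) : ContDiffAt ℝ ∞ S.Φ p := by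
  have h1 : ContDiffAt ℝ ∞ (fun p : ℝ × (ℂ × ℝ) => S.Ψ (p.1, (Hi p.2.1, p.2.2))) p :=
    S.exists_chart_flow.choose_spec.1.contDiffAt.comp p (contDiffAt_fst.prodMk
      (((Hi_cd hp).comp p (contDiffAt_fst.comp p contDiffAt_snd)).prodMk
        (contDiffAt_snd.comp p contDiffAt_snd)))
  exact (Hc_cd.contDiffAt.comp p (contDiffAt_fst.comp p h1)).prodMk (contDiffAt_snd.comp p h1)

lemma φ_zero (ξ : N) : S.φ 0 ξ = ξ := by
  have := S.exists_chart_flow.choose_spec.2.1 (Hi ξ.1, ξ.2)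
  refine Prod.ext (UpperHalfPlane.ext ?_) ?_
  · change Hc (S.Ψ (0, _)).1 = _
    rw [Ψ, this, Hc_Hi ξ.1.im_pos]
  · change (S.Ψ (0, _)).2 = _
    rw [Ψ, this]

lemma hd_Φ (x : ℂ × ℝ) (t : ℝ) : HasDerivAt (fun s => S.Φ (s, x)) (S.X (S.Φ (t, x))) t := by
  have h := S.exists_chart_flow.choose_spec.2.2 (Hi x.1, x.2) t
  have h1 := hd_Hc ((ContinuousLinearMap.fst ℝ ℂ ℝ).hasFDerivAt.comp_hasDerivAt t h)
  have h2 := (ContinuousLinearMap.snd ℝ ℂ ℝ).hasFDerivAt.comp_hasDerivAt t h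
  refine (h1.prodMk h2).congr_deriv (Prod.ext ?_ rfl)
  have hp := Hc_pos (S.Ψ (t, (Hi x.1, x.2))).1
  rw [Hc_im] at hp
  apply Complex.ext
  · simp [X, vv, Φ, Fc, Gc, Ψ, -Complex.ofReal_exp]
  · simp only [Ψ] at hp
    simp [X, vv, Φ, Fc, Gc, Ψ, Hc_im, -Complex.ofReal_exp]
    field_simp

lemma hd_φ (ξ : N) (t : ℝ) :
    HasDerivAt (fun s => emb (S.φ s ξ)) (S.X (emb (S.φ t ξ))) t := S.hd_Φ (emb ξ) t

lemma emb_inj {ξ ζ : N} (h : emb ξ = emb ζ) : ξ = ζ :=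
  Prod.ext (UpperHalfPlane.ext (congrArg Prod.fst h)) (congrArg (Prod.snd : ℂ × ℝ → ℝ) h)

lemma φ_uniq {x : ℝ → N} (hx : ∀ t, HasDerivAt (fun s => emb (x s)) (S.X (emb (x t))) t)
    (t : ℝ) : x t = S.φ t (x 0) := by
  have key : ∀ t, HasDerivAt (fun s => (Hi (x s).1, (x s).2)) (S.Fc (Hi (x t).1, (x t).2)) t := by
    intro t
    have h1 := hd_Hi ((ContinuousLinearMap.fst ℝ ℂ ℝ).hasFDerivAt.comp_hasDerivAt t (hx t))
      (x t).1.im_pos
    have h2 := (ContinuousLinearMap.snd ℝ ℂ ℝ).hasFDerivAt.comp_hasDerivAt t (hx t)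
    refine (h1.prodMk h2).congr_deriv ?_
    simp only [Fc, Gc, Hc_Hi (x t).1.im_pos]
    rfl
  have := MMT.uniq_global S.Fc_lip key
    (S.exists_chart_flow.choose_spec.2.2 (Hi (x 0).1, (x 0).2))
    (S.exists_chart_flow.choose_spec.2.1 _).symm t
  apply emb_inj
  change _ = (Hc (S.Ψ _).1, (S.Ψ _).2)
  rw [Ψ, ← this, Hc_Hi (x t).1.im_pos]
  rfl

lemma φ_add (t s : ℝ) (ξ : N) : S.φ (t + s) ξ = S.φ t (S.φ s ξ) := by
  have := S.φ_uniq (x := fun t => S.φ (t + s) ξ) (fun t => (S.hd_φ ξ (t + s)).comp_add_const t s) t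
  simpa using this

lemma continuous_emb : Continuous emb :=
  (continuous_coe.comp continuous_fst).prodMk continuous_snd

lemma isEmbedding_emb : IsEmbedding emb := isEmbedding_coe.prodMap IsEmbedding.id

lemma continuous_φ : Continuous (fun p : ℝ × N => S.φ p.1 p.2) := by
  rw [isEmbedding_emb.continuous_iff]
  refine continuous_iff_continuousAt.2 fun p => ?_
  exact ContinuousAt.comp (f := fun p : ℝ × N => (p.1, emb p.2)) (g := S.Φ)
    (S.Φ_cd p.2.1.im_pos).continuousAt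
    (continuous_fst.prodMk (continuous_emb.comp continuous_snd)).continuousAt

end Sys

end

end Pool.Agent.Lib.MP_21f752_an
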