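import Pool.Agent.Lib.MP_21f752_an.Ric

/-! The joining time is a continuous function of the two end points. -/

namespace Pool.Agent.Lib.MP_21f752_an

open UpperHalfPlane Set Filter Topology Metric MeasureTheory
open scoped MatrixGroups ContDiff Real

noncomputable section

namespace Sys

variable (S : Sys)

open Classical in
def tm (p q : ℍ) : ℝ × ℝ :=
  if h : ∃ x : ℝ × ℝ, 0 < x.1 ∧ (S.φ x.1 (p, x.2)).1 = q then h.choose else 0

variable {S}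

lemma Uq.tm_eq (h : S.Uq) (ξ : N) {t : ℝ} (ht : 0 < t) :
    (S.tm ξ.1 (S.φ t ξ).1).1 = t ∧ ce (S.tm ξ.1 (S.φ t ξ).1).2 = ce ξ.2 := by
  have e : ∃ x : ℝ × ℝ, 0 < x.1 ∧ (S.φ x.1 (ξ.1, x.2)).1 = (S.φ t ξ).1 := ⟨(t, ξ.2), ht, rfl⟩
  rw [tm, dif_pos e]
  exact h.uniq' e.choose_spec.1 ht e.choose_spec.2

lemma Uq.tm_self (h : S.Uq) (p : ℍ) : (S.tm p p).1 = 0 := by
  rw [tm, dif_neg]
  · rfl
  · rintro ⟨x, hx, e⟩
    exact h.noloop (p, x.2) hx e.symm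

lemma Uq.tm_eq' (h : S.Uq) (ξ : N) {t : ℝ} (ht : 0 ≤ t) : (S.tm ξ.1 (S.φ t ξ).1).1 = t := by
  rcases ht.eq_or_lt with rfl | ht
  · rw [φ_zero, h.tm_self]
  · exact (h.tm_eq ξ ht).1

lemma Uq.tm_spec (h : S.Uq) (p q : ℍ) :
    0 ≤ (S.tm p q).1 ∧ (S.φ (S.tm p q).1 (p, (S.tm p q).2)).1 = q := by
  by_cases e : p = q
  · subst e
    rw [h.tm_self, φ_zero]
    exact ⟨le_rfl, rfl⟩
  · obtain ⟨θ, T, hT, e⟩ := h.surj p q e
    have e : ∃ x : ℝ × ℝ, 0 < x.1 ∧ (S.φ x.1 (p, x.2)).1 = q := ⟨(T, θ), hT, e⟩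
    rw [tm, dif_pos e]
    exact ⟨e.choose_spec.1.le, e.choose_spec.2⟩

lemma Uq.tm_cont_ne (h : S.Uq) {p0 q0 : ℍ} (hne : p0 ≠ q0) :
    ContinuousAt (fun x : ℍ × ℍ => (S.tm x.1 x.2).1) (p0, q0) := by
  obtain ⟨θ, T, hT, rfl⟩ := h.surj p0 q0 hne
  let Λ : ℂ × ℝ × ℝ →L[ℝ] ℝ × ℂ × ℝ :=
    ((ContinuousLinearMap.fst ℝ ℝ ℝ).comp (ContinuousLinearMap.snd ℝ ℂ (ℝ × ℝ))).prod
      ((ContinuousLinearMap.fst ℝ ℂ (ℝ × ℝ)).prod
        ((ContinuousLinearMap.snd ℝ ℝ ℝ).comp (ContinuousLinearMap.snd ℝ ℂ (ℝ × ℝ))))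
  have h1 : HasStrictFDerivAt S.Φ (fderiv ℝ S.Φ (T, emb (p0, θ))) (Λ ((p0 : ℂ), T, θ)) :=
    (S.Φ_cd (p := (T, emb (p0, θ))) p0.im_pos).hasStrictFDerivAt (by simp)
  have hs := (hasStrictFDerivAt_fst (𝕜 := ℝ) (p := ((p0 : ℂ), T, θ))).prodMk
    (h1.comp _ Λ.hasStrictFDerivAt).fst
  have hy := h.jy_ne (p0, θ) hT
  have hm := hs.map_nhds_eq_of_surj (LinearMap.range_eq_top.2 fun y => by
    set q := (y.2 - (S.J (p0, θ) (y.1, 0) T).1) / S.V (S.φ T (p0, θ)) with hq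
    have e : q * S.V (S.φ T (p0, θ)) = y.2 - (S.J (p0, θ) (y.1, 0) T).1 :=
      div_mul_cancel₀ _ (S.V_ne _)
    refine ⟨(y.1, q.re - q.im / S.jy (p0, θ) T * S.ja (p0, θ) T, q.im / S.jy (p0, θ) T),
      Prod.ext rfl ?_⟩
    change (fderiv ℝ S.Φ (T, emb (p0, θ)) (q.re - q.im / S.jy (p0, θ) T * S.ja (p0, θ) T,
      y.1, q.im / S.jy (p0, θ) T)).1 = _
    have e2 : ∀ a b : ℝ, ((a, y.1, b) : ℝ × ℂ × ℝ) = (a, b • (0, 1)) + (0, y.1, 0) := by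
      intro a b
      simp
    rw [e2, map_add, fderiv_Φ, J_smul, ← sub_add_cancel y.2 (S.J (p0, θ) (y.1, 0) T).1, ← e]
    simp only [Prod.fst_add, Prod.smul_fst, X_emb, Complex.real_smul]
    congr 1
    rw [J_fst, ← Complex.re_add_im (S.jq (p0, θ) (0, 1) T)]
    conv_rhs => rw [← Complex.re_add_im q]
    have hy' : (S.jy (p0, θ) T : ℂ) ≠ 0 := by exact_mod_cast hy
    change _ + _ * (((S.ja (p0, θ) T : ℂ) + (S.jy (p0, θ) T : ℂ) * _) * _) = _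
    push_cast
    field_simp
    ring)
  refine Metric.tendsto_nhds.2 fun ε hε => ?_
  have hU : ∀ᶠ x : ℂ × ℝ × ℝ in 𝓝 ((p0 : ℂ), T, θ), 0 < x.2.1 ∧ dist x.2.1 T < ε :=
    (ContinuousAt.eventually_lt continuousAt_const (by fun_prop) hT).and
      (ContinuousAt.eventually_lt (by fun_prop) continuousAt_const (by simpa using hε))
  have h2 := image_mem_map (m := fun x : ℂ × ℝ × ℝ => (x.1, (S.Φ (Λ x)).1)) hU
  erw [hm] at h2
  have h3 : ContinuousAt (fun x : ℍ × ℍ => ((x.1 : ℂ), (x.2 : ℂ))) (p0, (S.φ T (p0, θ)).1) := by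
    fun_prop
  refine (h3.eventually h2).mono ?_
  rintro ⟨p, q⟩ ⟨⟨z, t, s⟩, ⟨u1, u2⟩, u3⟩
  obtain ⟨rfl, u4⟩ := Prod.ext_iff.1 u3
  have : q = (S.φ t (p, s)).1 := UpperHalfPlane.ext u4.symm
  subst this
  have a := (h.tm_eq (p, s) u1).1
  have b := (h.tm_eq (p0, θ) hT).1
  simp only at a b ⊢
  rw [a, b]
  exact u2

lemma Uq.tm_small (h : S.Uq) {δ : ℝ} (hδ : 0 < δ) : ∃ κ, 0 < κ ∧ ∀ p q : ℍ,
    ‖(q : ℂ) - p‖ < p.im * κ → (S.tm p q).1 < δ := by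
  have hc : S.CI fun ξ => dist ξ.1 (S.φ δ ξ).1 :=
    ⟨continuous_fst.dist (continuous_fst.comp
      (S.continuous_φ.comp (continuous_const.prodMk continuous_id))),
      fun γ hγ k ξ => by
        simp only [S.φ_gg hγ]
        exact dist_smul γ _ _⟩
  obtain ⟨m, hm0, hm⟩ := hc.lower fun ξ => dist_pos.2 (h.noloop ξ hδ)
  have hκ : 0 < 1 - Real.exp (-m) := by
    have := Real.exp_lt_one_iff.2 (neg_neg_of_pos hm0)
    linarith
  refine ⟨_, hκ, fun p q hq => ?_⟩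
  by_cases e : p = q
  · rw [← e, h.tm_self]
    exact hδ
  set ρ := p.im * (1 - Real.exp (-m)) with hρ
  have hp := p.im_pos
  have hρ0 : 0 < ρ := mul_pos hp hκ
  have hn : ∀ ζ : ℂ, ζ.re < Real.log ρ → ‖Complex.exp ζ‖ < ρ := fun ζ hζ => by
    rw [Complex.norm_exp, ← Real.lt_log_iff_exp_lt hρ0]
    exact hζ
  have hpos : ∀ ζ : ℂ, ζ.re < Real.log ρ → 0 < ((p : ℂ) + Complex.exp ζ).im := fun ζ hζ => by
    have := (abs_lt.1 ((Complex.abs_im_le_norm _).trans_lt (hn ζ hζ))).1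
    have := mul_pos hp (Real.exp_pos (-m))
    simp only [Complex.add_im, coe_im]
    nlinarith
  have hne : ∀ ζ : ℂ, ζ.re < Real.log ρ → p ≠ ofComplex ((p : ℂ) + Complex.exp ζ) := by
    intro ζ hζ e
    have := congrArg ((↑) : ℍ → ℂ) e
    rw [ofComplex_apply_of_im_pos (hpos ζ hζ)] at this
    exact Complex.exp_ne_zero ζ (left_eq_add.1 this)
  have hcont : ContinuousOn (fun ζ => (S.tm p (ofComplex ((p : ℂ) + Complex.exp ζ))).1)
      {ζ : ℂ | ζ.re < Real.log ρ} := fun ζ hζ => by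
    refine ContinuousAt.continuousWithinAt (ContinuousAt.comp
      (f := fun ζ => (p, ofComplex ((p : ℂ) + Complex.exp ζ))) (h.tm_cont_ne (hne ζ hζ))
      (continuousAt_const.prodMk ?_))
    exact ContinuousAt.comp (g := ofComplex) (f := fun ζ => (p : ℂ) + Complex.exp ζ)
      (contMDiffAt_ofComplex (n := 0) (hpos ζ hζ)).continuousAt (by fun_prop)
  have hlog : ∀ q : ℍ, p ≠ q → ‖(q : ℂ) - p‖ < ρ → (Complex.log (q - p)).re < Real.log ρ ∧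
      ofComplex ((p : ℂ) + Complex.exp (Complex.log (q - p))) = q := by
    intro q e hq
    have : (q : ℂ) - p ≠ 0 := sub_ne_zero.2 fun e' => e (UpperHalfPlane.ext e'.symm)
    rw [Complex.exp_log this, Complex.log_re]
    exact ⟨Real.log_lt_log (norm_pos_iff.2 this) hq, by simp⟩
  have h0 : ContinuousAt (fun t => ‖((S.φ t (p, 0)).1 : ℂ) - p‖) 0 :=
    ((S.hd_z (p, 0) 0).continuousAt.sub continuousAt_const).norm
  obtain ⟨t, ht1, ht2⟩ := (((h0.eventually_lt continuousAt_const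
    (by simpa [φ_zero] using hρ0)).filter_mono nhdsWithin_le_nhds).and (Ioo_mem_nhdsGT hδ)).exists
  obtain ⟨a1, a2⟩ := hlog _ (h.noloop (p, 0) ht2.1) ht1
  obtain ⟨b1, b2⟩ := hlog _ e hq
  by_contra hc
  obtain ⟨ζ, hζ, e2⟩ := (convex_halfSpace_re_lt (Real.log ρ)).isPreconnected.intermediate_value
    a1 b1 hcont (show δ ∈ _ from ⟨by
      simp only [a2]
      exact ((h.tm_eq (p, 0) ht2.1).1.trans_lt ht2.2).le, by simpa only [b2] using not_lt.1 hc⟩)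
  have e3 := (h.tm_spec p (ofComplex ((p : ℂ) + Complex.exp ζ))).2
  simp only at e2
  rw [e2] at e3
  have c1 := hm (p, (S.tm p (ofComplex ((p : ℂ) + Complex.exp ζ))).2)
  rw [e3, dist_comm] at c1
  have c2 := le_dist_coe (ofComplex ((p : ℂ) + Complex.exp ζ)) p
  rw [dist_eq_norm ((ofComplex _ : ℍ) : ℂ), ofComplex_apply_of_im_pos (hpos ζ hζ)] at c2
  rw [ofComplex_apply_of_im_pos (hpos ζ hζ)] at c1
  simp only [add_sub_cancel_left] at c1 c2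
  have c3 := Real.exp_le_exp.2 (neg_le_neg c1)
  have := hn ζ hζ
  nlinarith

lemma Uq.tm_cont (h : S.Uq) : Continuous fun x : ℍ × ℍ => (S.tm x.1 x.2).1 := by
  refine continuous_iff_continuousAt.2 fun ⟨p0, q0⟩ => ?_
  by_cases e : p0 = q0
  · subst e
    refine Metric.tendsto_nhds.2 fun ε hε => ?_
    obtain ⟨κ, hκ, hk⟩ := h.tm_small hε
    have : ∀ᶠ x : ℍ × ℍ in 𝓝 (p0, p0), ‖(x.2 : ℂ) - x.1‖ < x.1.im * κ :=
      ContinuousAt.eventually_lt (by fun_prop) (by fun_prop) (by simpa using mul_pos p0.im_pos hκ)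
    refine this.mono fun x hx => ?_
    simp only [h.tm_self, Real.dist_0_eq_abs, abs_of_nonneg (h.tm_spec x.1 x.2).1]
    exact hk _ _ hx
  · exact h.tm_cont_ne e

/-- an orbit segment with end points at bounded distance has bounded length -/
lemma Uq.prop (h : S.Uq) (R : ℝ) : ∃ F, 0 ≤ F ∧ ∀ ξ t, dist ξ.1 (S.φ t ξ).1 ≤ R → |t| ≤ F := by
  obtain ⟨F, hF⟩ := ((isCompact_closedBall UpperHalfPlane.I S.R0).prod
    (isCompact_closedBall UpperHalfPlane.I (R + S.R0))).exists_bound_of_continuousOn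
    h.tm_cont.continuousOn
  have key : ∀ ξ t, 0 ≤ t → dist ξ.1 (S.φ t ξ).1 ≤ R → |t| ≤ F := by
    intro ξ t ht hd
    obtain ⟨γ, hγ, hR⟩ := S.cov ξ.1
    have e := h.tm_eq' (gg γ ((0 : ℤ) * (2 * π)) ξ) ht
    rw [S.φ_gg hγ] at e
    have := hF (γ • ξ.1, γ • (S.φ t ξ).1) ⟨hR, by
      have := dist_triangle (γ • (S.φ t ξ).1) (γ • ξ.1) UpperHalfPlane.I
      rw [dist_smul, dist_comm _ ξ.1] at this
      simp only [mem_closedBall]
      linarith⟩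
    rw [← e]
    exact this
  refine ⟨max F 0, le_max_right _ _, fun ξ t hd => le_max_of_le_left ?_⟩
  rcases le_total 0 t with ht | ht
  · exact key ξ t ht hd
  · rw [← abs_neg]
    exact key (S.φ t ξ) (-t) (by linarith) (by rwa [φ_neg, dist_comm])

end Sys

end

end Pool.Agent.Lib.MP_21f752_an
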