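import Pool.Agent.Lib.MP_21f752_an.Time

/-! The action of an orbit segment and its first variation. -/

namespace Pool.Agent.Lib.MP_21f752_an

open UpperHalfPlane Set Filter Topology Metric MeasureTheory
open scoped MatrixGroups ContDiff Real ComplexConjugate

noncomputable section

lemma hd_fst {x : ℝ → ℂ × ℝ} {u : ℂ × ℝ} {t : ℝ} (h : HasDerivAt x u t) :
    HasDerivAt (fun s => (x s).1) u.1 t :=
  (ContinuousLinearMap.fst ℝ ℂ ℝ).hasFDerivAt.comp_hasDerivAt t h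

lemma hd_snd {x : ℝ → ℂ × ℝ} {u : ℂ × ℝ} {t : ℝ} (h : HasDerivAt x u t) :
    HasDerivAt (fun s => (x s).2) u.2 t :=
  (ContinuousLinearMap.snd ℝ ℂ ℝ).hasFDerivAt.comp_hasDerivAt t h

namespace Sys

variable (S : Sys)

/-- the data of an invariant primitive -/
structure Pr where
  c : ℝ
  F : ℂ → ℂ
  cd : ∀ z : ℂ, 0 < z.im → ContDiffAt ℝ ∞ F z
  inv : ∀ γ ∈ S.Γ, ∀ z : ℂ, 0 < z.im → F (mob γ z) / den γ z ^ 2 = F z
  curl : ∀ z : ℂ, 0 < z.im → ∀ u v, (fderiv ℝ F z u * v).re - (fderiv ℝ F z v * u).re =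
    (S.B z * Real.exp (2 * S.L z) - c / z.im ^ 2) * (conj u * v).im

variable {S}

namespace Pr

variable (P : S.Pr)

def Θ (z : ℂ) : ℂ := P.F z + (P.c / z.im : ℝ)

lemma Θ_cd {z : ℂ} (hz : 0 < z.im) : ContDiffAt ℝ ∞ P.Θ z :=
  (P.cd z hz).add (Complex.ofRealCLM.contDiff.contDiffAt.comp z
    (contDiffAt_const.div Complex.imCLM.contDiff.contDiffAt hz.ne'))

lemma hd_Θ {z : ℝ → ℂ} {u : ℂ} {t : ℝ} (h : HasDerivAt z u t) (hz : 0 < (z t).im) :
    HasDerivAt (fun s => P.Θ (z s))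
      (fderiv ℝ P.F (z t) u + (-(P.c * u.im) / (z t).im ^ 2 : ℝ)) t := by
  have a := ((P.cd _ hz).differentiableAt (by simp)).hasFDerivAt.comp_hasDerivAt t h
  have b := ((hasDerivAt_const t P.c).div (hd_im h) hz.ne').ofReal_comp
  simp only [zero_mul, zero_sub] at b
  exact a.add b

def ψ' (x : ℂ × ℝ) : ℝ := 1 - (P.Θ x.1 * (S.X x).1).re - P.c * (S.X x).2

def ψ (ξ : N) : ℝ := P.ψ' (emb ξ)

lemma ψ'_cd {x : ℂ × ℝ} (hx : 0 < x.1.im) : ContDiffAt ℝ ∞ P.ψ' x :=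
  (contDiffAt_const.sub (Complex.reCLM.contDiff.contDiffAt.comp x
    (((P.Θ_cd hx).comp x contDiffAt_fst).mul (S.X_cd hx).fst))).sub
      (contDiffAt_const.mul (S.X_cd hx).snd)

def β (ξ : N) : ℝ := (P.F ξ.1 * S.V ξ).re

lemma ci_β : S.CI P.β := by
  refine ⟨Complex.continuous_re.comp ((cont_base fun z hz => (P.cd z hz).continuousAt).mul
    S.continuous_V), fun γ hγ k ξ => ?_⟩
  have e1 : ((gg γ (k * (2 * π)) ξ).1 : ℂ) = mob γ ξ.1 := coe_smul_mob _ _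
  rw [β, β, S.V_gg' hγ, e1, ← P.inv γ hγ _ ξ.1.im_pos]
  congr 1
  ring

end Pr

lemma dL_eq (S : Sys) (z : ℍ) (u : ℂ) :
    fderiv ℝ S.L z u = fderiv ℝ (fun z => S.f (ofComplex z)) (z : ℂ) u - u.im / z.im := by
  have := fderiv_fun_sub ((S.hf.cd z.im_pos).differentiableAt (by simp))
    ((logim_cd z.im_pos).differentiableAt (by simp))
  rw [← coe_im, ← fderiv_logim z.im_pos]
  exact congrArg (fun E => E u) this

namespace Pr

variable (P : S.Pr)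

lemma ψ_eq (ξ : N) :
    P.ψ ξ = 1 - P.β ξ - P.c * (S.b ξ.1 + S.d1' (fun z => S.f (ofComplex z)) ξ) := by
  simp only [ψ, ψ', X_emb, W, dL_eq, β, d1', Θ]
  simp [emb, add_mul]
  ring

lemma ci_ψ : S.CI P.ψ := by
  have := ((CI.const 1).sub P.ci_β).sub ((CI.const P.c).mul (S.ci_b.add S.qi_f.ci'))
  simpa only [← ψ_eq] using this

lemma I_ψ : S.I P.ψ = S.I (fun _ => 1) - P.c * S.I fun ξ => S.b ξ.1 := by
  have := ((CI.const 1).sub P.ci_β).I_sub ((CI.const P.c).mul (S.ci_b.add S.qi_f.ci'))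
  rw [(CI.const 1).I_sub P.ci_β, I_mul, S.ci_b.I_add S.qi_f.ci', S.qi_f.ci'.I_odd (S.d1'_odd _),
    P.ci_β.I_odd fun ξ => by
      rw [β, V_rot, ce_pi, neg_one_mul, mul_neg, Complex.neg_re]; rfl] at this
  simpa only [← ψ_eq, sub_zero, add_zero] using this

/-- the boundary term of the first variation -/
def bt (ξ : N) (r : ℝ) : ℝ :=
  S.ja ξ r - (P.Θ (S.φ r ξ).1 * (S.J ξ (0, 1) r).1).re - P.c * (S.J ξ (0, 1) r).2

lemma first_var (p : ℍ) (θ r : ℝ) :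
    HasDerivAt (P.bt (p, θ)) (fderiv ℝ (fun q => P.ψ' (S.ex p q)) (r, θ) (0, 1)) r := by
  have hp := (S.φ r (p, θ)).1.im_pos
  have hE := ((S.ex_cd p).differentiable (by simp) (r, θ)).hasFDerivAt.comp_hasDerivAt
    (f := fun s : ℝ => (r, s)) θ ((hasDerivAt_const _ _).prodMk (hasDerivAt_id _))
  rw [fderiv_ex] at hE
  simp only [zero_smul, one_smul, zero_add] at hE
  have hX := ((S.X_cd (x := S.ex p (r, θ)) hp).differentiableAt (by simp)).hasFDerivAt.comp_hasDerivAt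
    θ hE
  have a := ((hd_re ((P.hd_Θ (hd_fst hE) hp).mul (hd_fst hX))).const_sub 1).sub ((hd_snd hX).const_mul P.c)
  have b := (((P.ψ'_cd (x := S.ex p (r, θ)) hp).comp _ (S.ex_cd p).contDiffAt).differentiableAt
    (by simp)).hasFDerivAt.comp_hasDerivAt (f := fun s : ℝ => (r, s)) θ
      ((hasDerivAt_const _ _).prodMk (hasDerivAt_id _))
  have hJ := S.hd_J (p, θ) (0, 1) r
  refine ((((S.hd_ja (p, θ) (0, 1) r).sub (hd_re ((P.hd_Θ (S.hd_z (p, θ) r) hp).mul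
    (hd_fst hJ)))).sub ((hd_snd hJ).const_mul P.c)).congr_deriv ?_)
  refine Eq.trans ?_ (a.unique b)
  have c := P.curl _ hp (S.V (S.φ r (p, θ))) (S.J (p, θ) (0, 1) r).1
  have e : (conj (S.V (S.φ r (p, θ))) * (S.J (p, θ) (0, 1) r).1).im =
      ‖S.V (S.φ r (p, θ))‖ ^ 2 * (S.jq (p, θ) (0, 1) r).im := by
    rw [J_fst, Complex.sq_norm, Complex.normSq_apply]
    simp
    ring
  have e2 : Real.exp (2 * S.L (S.φ r (p, θ)).1) *
      (conj (S.V (S.φ r (p, θ))) * (S.J (p, θ) (0, 1) r).1).im = (S.jq (p, θ) (0, 1) r).im := by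
    rw [e, normSq_V, ← mul_assoc, ← Real.exp_add]
    simp
  rw [sub_mul, mul_assoc, e2] at c
  simp only [B, ofComplex_apply] at c
  change _ = -((fderiv ℝ P.F (S.φ r (p, θ)).1 (S.J (p, θ) (0, 1) r).1 +
    ((-(P.c * (S.J (p, θ) (0, 1) r).1.im) / ((S.φ r (p, θ)).1 : ℂ).im ^ 2 : ℝ) : ℂ)) *
      S.V (S.φ r (p, θ)) + P.Θ (S.φ r (p, θ)).1 *
      (fderiv ℝ S.X (emb (S.φ r (p, θ))) (S.J (p, θ) (0, 1) r)).1).re -
      P.c * (fderiv ℝ S.X (emb (S.φ r (p, θ))) (S.J (p, θ) (0, 1) r)).2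
  simp only [add_mul, Complex.add_re, Complex.re_ofReal_mul, Complex.mul_im, Complex.conj_re,
    Complex.conj_im] at c ⊢
  linear_combination -c

/-- the action in polar coordinates -/
def ac (p : ℍ) (q : ℝ × ℝ) : ℝ := ∫ r in (0 : ℝ)..q.1, P.ψ (S.φ r (p, q.2))

lemma ψex_cd (p : ℍ) : ContDiff ℝ ∞ fun q => P.ψ' (S.ex p q) :=
  contDiff_iff_contDiffAt.2 fun q =>
    (P.ψ'_cd (x := S.ex p q) (S.φ q.1 (p, q.2)).1.im_pos).comp _ (S.ex_cd p).contDiffAt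

lemma ac_cd (p : ℍ) : ContDiff ℝ ∞ (P.ac p) :=
  cd_prim (h := fun x : (ℝ × ℝ) × ℝ => P.ψ' (S.ex p (x.2, x.1.2)))
    ((P.ψex_cd p).comp (by fun_prop)) contDiff_fst 0

lemma fderiv_ac (p : ℍ) (q d : ℝ × ℝ) : fderiv ℝ (P.ac p) q d =
    d.1 * P.ψ (S.φ q.1 (p, q.2)) + d.2 * (P.bt (p, q.2) q.1 + P.c) := by
  obtain ⟨t, θ⟩ := q
  have hA := ((P.ac_cd p).differentiable (by simp) (t, θ)).hasFDerivAt
  have d1 := (hA.comp_hasDerivAt (f := fun s : ℝ => (s, θ)) t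
    ((hasDerivAt_id _).prodMk (hasDerivAt_const _ _))).unique
      ((P.ci_ψ.cont_t (p, θ)).integral_hasStrictDerivAt 0 t).hasDerivAt
  have hF : ContDiff ℝ ∞ fun x : ℝ × ℝ => P.ψ' (S.ex p (x.2, x.1)) :=
    (P.ψex_cd p).comp (by fun_prop)
  have d2 := (hA.comp (f := fun s : ℝ => (t, s)) θ (hasFDerivAt_prodMk_right t θ)).fderiv
  have d3 := fderiv_int (hF.of_le (by simp)) 0 t θ 1
  have d4 : ∀ r, fderiv ℝ (fun x : ℝ × ℝ => P.ψ' (S.ex p (x.2, x.1))) (θ, r) (1, 0) =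
      fderiv ℝ (fun q => P.ψ' (S.ex p q)) (r, θ) (0, 1) := fun r =>
    ((hF.differentiable (by simp) (θ, r)).hasFDerivAt.comp_hasDerivAt (f := fun s : ℝ => (s, r)) θ
      ((hasDerivAt_id _).prodMk (hasDerivAt_const _ _))).unique
      (((P.ψex_cd p).differentiable (by simp) (r, θ)).hasFDerivAt.comp_hasDerivAt
        (f := fun s : ℝ => (r, s)) θ ((hasDerivAt_const _ _).prodMk (hasDerivAt_id _)))
  simp only [d4] at d3
  rw [intervalIntegral.integral_eq_sub_of_hasDerivAt (fun r _ => P.first_var p θ r)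
    (Continuous.intervalIntegrable ((((P.ψex_cd p).continuous_fderiv (by simp)).comp
      (by fun_prop)).clm_apply continuous_const) _ _)] at d3
  have d5 : fderiv ℝ (P.ac p) (t, θ) (0, 1) = P.bt (p, θ) t + P.c := by
    refine (congrArg (fun E => E 1) d2).symm.trans (d3.trans ?_)
    simp [bt, ja_zero, J_zero]
  rw [show d = d.1 • ((1, 0) : ℝ × ℝ) + d.2 • ((0, 1) : ℝ × ℝ) by simp, map_add, map_smul, map_smul,
    d1, d5]
  simp

/-- the action as a function of the end points -/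
def Ac (p q : ℍ) : ℝ := P.ac p (S.tm p q)

end Pr

lemma Uq.Ac_eq (h : S.Uq) (P : S.Pr) (p : ℍ) {x : ℝ × ℝ} (hx : 0 < x.1) :
    P.Ac p (S.φ x.1 (p, x.2)).1 = P.ac p x := by
  obtain ⟨a, b⟩ := h.tm_eq (p, x.2) hx
  obtain ⟨k, hk⟩ := ce_eq_iff.1 b
  simp only [Pr.Ac, Pr.ac] at a hk ⊢
  rw [a, hk]
  refine intervalIntegral.integral_congr fun r _ => ?_
  have := (P.ci_ψ.comp_φ r).inv 1 S.Γ.one_mem k (p, x.2)
  rwa [gg_one] at this

lemma Uq.hd_Ac (h : S.Uq) (P : S.Pr) : ∃ C, 0 ≤ C ∧ ∀ (p : ℍ) (q : ℝ → ℍ) (w : ℂ) (r : ℝ),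
    HasDerivAt (fun r => (q r : ℂ)) w r → 1 ≤ (S.tm p (q r)).1 →
    ∃ D, HasDerivAt (fun r => P.Ac p (q r)) D r ∧ |D| ≤ C * (‖w‖ / (q r).im) := by
  obtain ⟨C1, h10, h1⟩ := P.ci_ψ.inv.bdd P.ci_ψ.cont
  obtain ⟨C2, h20, h2⟩ := P.ci_β.inv.bdd P.ci_β.cont
  obtain ⟨C3, h30, h3⟩ := S.qi_f.ci.inv.bdd S.qi_f.ci.cont
  obtain ⟨C4, h40, h4⟩ := h.ju_bdd
  obtain ⟨C5, h5⟩ := h.jy_inv_bdd
  obtain ⟨C6, h60, h6⟩ := S.exists_speed
  have h50 : 0 ≤ C5 := (inv_pos.2 (h.jy_pos (UpperHalfPlane.I, 0) one_pos)).le.trans (h5 _ 1 le_rfl)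
  refine ⟨(C1 + (C2 + |P.c| * (C3 + C4 + C5))) * C6, by positivity, fun p q w r hq hT => ?_⟩
  set x := S.tm p (q r) with hx
  have hqx : (S.φ x.1 (p, x.2)).1 = q r := (h.tm_spec p (q r)).2
  have hy := h.jy_pos (p, x.2) (one_pos.trans_le hT)
  have hV := S.V_ne (S.φ x.1 (p, x.2))
  have hjq : S.jq (p, x.2) (0, 1) x.1 = S.ja (p, x.2) x.1 + S.jy (p, x.2) x.1 * Complex.I :=
    (Complex.re_add_im _).symm
  have hD : ∀ w : ℂ, fderiv ℝ (S.ez p) x ((w / S.V (S.φ x.1 (p, x.2))).re -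
      (w / S.V (S.φ x.1 (p, x.2))).im / S.jy (p, x.2) x.1 * S.ja (p, x.2) x.1,
      (w / S.V (S.φ x.1 (p, x.2))).im / S.jy (p, x.2) x.1) = w := by
    intro w
    have hy' : (S.jy (p, x.2) x.1 : ℂ) ≠ 0 := by exact_mod_cast hy.ne'
    rw [fderiv_ez, hjq, ← eq_div_iff hV]
    conv_rhs => rw [← Complex.re_add_im (w / _)]
    push_cast
    field_simp
    ring
  let E : (ℝ × ℝ) ≃L[ℝ] ℂ := ContinuousLinearEquiv.ofBijective (fderiv ℝ (S.ez p) x)
    (LinearMap.ker_eq_bot'.2 fun d hd => by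
      change fderiv ℝ (S.ez p) x d = 0 at hd
      rw [fderiv_ez, mul_eq_zero, or_iff_left hV, hjq] at hd
      have a := congrArg Complex.im hd
      have b := congrArg Complex.re hd
      simp [hy.ne'] at a b
      exact Prod.ext (by simpa [a] using b) a)
    (LinearMap.range_eq_top.2 fun w => ⟨_, hD w⟩)
  have hs : HasStrictFDerivAt (S.ez p) (E : ℝ × ℝ →L[ℝ] ℂ) x :=
    (S.ez_cd p).contDiffAt.hasStrictFDerivAt (by simp)
  have e0 : S.ez p x = q r := congrArg _ hqx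
  have i1 := hs.to_localInverse.hasFDerivAt
  have i2 := hs.eventually_right_inverse
  have i3 := hs.localInverse_tendsto.eventually
    (continuous_fst.continuousAt.eventually (lt_mem_nhds (one_pos.trans_le hT)))
  have i4 := hs.localInverse_apply_image
  rw [e0] at i1 i2 i3 i4
  have hA : HasFDerivAt (P.ac p) (fderiv ℝ (P.ac p) x) (hs.localInverse _ _ _ (q r)) := by
    rw [i4]
    exact ((P.ac_cd p).differentiable (by simp) x).hasFDerivAt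
  refine ⟨_, ((hA.comp _ i1).comp_hasDerivAt r hq).congr_of_eventuallyEq
    ((hq.continuousAt.eventually (i2.and i3)).mono fun s hs => ?_), ?_⟩
  · rw [Function.comp, Function.comp, ← h.Ac_eq P p hs.2]
    exact congrArg _ (UpperHalfPlane.ext hs.1.symm)
  have e1 : E.symm w = _ := E.symm_apply_eq.2 (hD w).symm
  change |fderiv ℝ (P.ac p) x (E.symm w)| ≤ _
  rw [e1, Pr.fderiv_ac]
  set u := w / S.V (S.φ x.1 (p, x.2)) with hu
  have e2 : (u.re - u.im / S.jy (p, x.2) x.1 * S.ja (p, x.2) x.1) * P.ψ (S.φ x.1 (p, x.2)) +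
      u.im / S.jy (p, x.2) x.1 * (P.bt (p, x.2) x.1 + P.c) =
      u.re * P.ψ (S.φ x.1 (p, x.2)) + u.im * (-P.β (rot (π / 2) (S.φ x.1 (p, x.2))) + P.c *
        (S.d1 (fun z => S.f (ofComplex z)) (S.φ x.1 (p, x.2)) - S.ju (p, x.2) x.1 +
          (S.jy (p, x.2) x.1)⁻¹)) := by
    rw [Pr.bt, J_eq, hjq]
    simp only [Pr.ψ, Pr.ψ', X_emb, Pr.β, V_rot, ce_half, d1, ju, jw, Pr.Θ, dL_eq]
    simp only [emb, rot, Complex.mul_re, Complex.mul_im, Complex.add_re, Complex.add_im,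
      Complex.ofReal_re, Complex.ofReal_im, Complex.I_re, Complex.I_im, coe_im]
    field_simp
    ring
  simp only
  rw [e2]
  have n1 : ‖u‖ ≤ C6 * (‖w‖ / (q r).im) := by
    rw [hu, norm_div, norm_V, hqx, Real.exp_neg, mul_comm, ← div_div, div_eq_mul_inv _ _⁻¹, inv_inv,
      mul_comm]
    exact mul_le_mul_of_nonneg_right (h6 _).2 (div_nonneg (norm_nonneg _) (q r).im_pos.le)
  have b1 : |S.d1 (fun z => S.f (ofComplex z)) (S.φ x.1 (p, x.2)) - S.ju (p, x.2) x.1 +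
      (S.jy (p, x.2) x.1)⁻¹| ≤ C3 + C4 + C5 :=
    (abs_add_le _ _).trans (add_le_add ((abs_sub _ _).trans (add_le_add (h3 _) (h4 _ _ hT)))
      ((abs_of_pos (inv_pos.2 hy)).trans_le (h5 _ _ hT)))
  calc _ ≤ |u.re| * |P.ψ (S.φ x.1 (p, x.2))| + |u.im| * (|P.β (rot (π / 2) (S.φ x.1 (p, x.2)))| +
        |P.c| * |S.d1 (fun z => S.f (ofComplex z)) (S.φ x.1 (p, x.2)) - S.ju (p, x.2) x.1 +
          (S.jy (p, x.2) x.1)⁻¹|) := by
        refine (abs_add_le _ _).trans (le_of_eq_of_le (by rw [abs_mul, abs_mul]) ?_)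
        gcongr
        refine (abs_add_le _ _).trans_eq ?_
        rw [abs_neg, abs_mul]
    _ ≤ ‖u‖ * C1 + ‖u‖ * (C2 + |P.c| * (C3 + C4 + C5)) := by
        gcongr
        exacts [Complex.abs_re_le_norm _, h1 _, Complex.abs_im_le_norm _, h2 _]
    _ ≤ _ := by
        rw [← mul_add, mul_comm, mul_assoc]
        gcongr

end Sys

end

end Pool.Agent.Lib.MP_21f752_an
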