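import Pool.Agent.Lib.MP_21f752_an.Drift

/-! Linear drift produces an orbit with two different end points at infinity. -/

namespace Pool.Agent.Lib.MP_21f752_an

open UpperHalfPlane Set Filter Topology Metric
open scoped MatrixGroups ContDiff Real

noncomputable section

lemma first_hit {m : ℝ → ℝ} (hm : Continuous m) {n u : ℝ} (hn : 0 ≤ n) (h0 : m 0 ≤ u)
    (h1 : u ≤ m n) : ∃ a ∈ Icc 0 n, m a = u ∧ ∀ t ∈ Icc 0 a, m t ≤ u := by
  obtain ⟨a, ⟨ha, ha'⟩, hl⟩ := (isCompact_Icc.inter_right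
    (isClosed_eq hm (continuous_const (y := u)))).exists_isLeast
    (let ⟨a, x, y⟩ := intermediate_value_Icc hn hm.continuousOn ⟨h0, h1⟩; ⟨a, x, y⟩)
  refine ⟨a, ha, ha', fun t ht => ?_⟩
  by_contra hc
  obtain ⟨s, x, y⟩ := intermediate_value_Icc ht.1 hm.continuousOn ⟨h0, (not_le.1 hc).le⟩
  have e : t = a := le_antisymm ht.2 ((hl ⟨⟨x.1, x.2.trans (ht.2.trans ha.2)⟩, y⟩).trans x.2)
  exact hc (e ▸ (le_of_eq ha'))

lemma last_hit {m : ℝ → ℝ} (hm : Continuous m) {n u : ℝ} (hn : 0 ≤ n) (h0 : m 0 ≤ u)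
    (h1 : u ≤ m n) : ∃ b ∈ Icc 0 n, m b = u ∧ ∀ t ∈ Icc b n, u ≤ m t := by
  obtain ⟨a, ha, e, h⟩ := first_hit (m := fun t => -m (n - t)) (u := -u) (by fun_prop) hn
    (by simpa using h1) (by simpa using h0)
  refine ⟨n - a, ⟨by linarith [ha.2], by linarith [ha.1]⟩, neg_inj.1 e, fun t ht => ?_⟩
  have := h (n - t) ⟨by linarith [ht.2], by linarith [ht.1]⟩
  simpa using this

lemma pigeon {x y : ℕ → ℝ} (A D : ℕ) (hx : ∀ j ≤ A + D, 0 ≤ x j ∧ x j ≤ D)
    (hy : ∀ j ≤ A + D, 0 ≤ y j ∧ y j ≤ D) (mx : ∀ i j, i < j → j ≤ A + D → x i ≤ x j)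
    (my : ∀ i j, i < j → j ≤ A + D → y i ≤ y j) :
    ∃ i ∈ Icc A (A + D), ∃ j ∈ Icc A (A + D), |i + x i - (j + y j)| ≤ 1 := by
  have key : ∀ x : ℕ → ℝ, (∀ j ≤ A + D, 0 ≤ x j ∧ x j ≤ D) →
      (∀ i j, i < j → j ≤ A + D → x i ≤ x j) →
      (Finset.Icc A (A + D)).image (fun j => j + ⌊x j⌋₊) ⊆ Finset.Icc A (A + D + D) ∧
      ((Finset.Icc A (A + D)).image (fun j => j + ⌊x j⌋₊)).card = D + 1 := by
    intro x hx mx
    constructor
    · intro k hk
      obtain ⟨j, hj, rfl⟩ := Finset.mem_image.1 hk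
      rw [Finset.mem_Icc] at hj ⊢
      have := Nat.floor_le_of_le (hx j hj.2).2
      omega
    · rw [Finset.card_image_of_injOn, Nat.card_Icc]
      · omega
      refine StrictMonoOn.injOn fun i _ j hj hij => ?_
      have := Nat.floor_le_floor (mx i j hij (Finset.mem_Icc.1 hj).2)
      omega
  obtain ⟨a1, a2⟩ := key x hx mx
  obtain ⟨b1, b2⟩ := key y hy my
  obtain ⟨k, hk⟩ := Finset.inter_nonempty_of_card_lt_card_add_card a1 b1 (by
    rw [a2, b2, Nat.card_Icc]; omega)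
  obtain ⟨i, hi, e1⟩ := Finset.mem_image.1 (Finset.mem_inter.1 hk).1
  obtain ⟨j, hj, e2⟩ := Finset.mem_image.1 (Finset.mem_inter.1 hk).2
  rw [Finset.mem_Icc] at hi hj
  refine ⟨i, hi, j, hj, ?_⟩
  have e : (i : ℝ) + ⌊x i⌋₊ = j + ⌊y j⌋₊ := by exact_mod_cast e1.trans e2.symm
  have := Nat.floor_le (hx i hi.2).1
  have := Nat.floor_le (hy j hj.2).1
  have := Nat.lt_floor_add_one (x i)
  have := Nat.lt_floor_add_one (y j)
  rw [abs_le]
  constructor <;> linarith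

lemma norm_pos' (z : ℍ) : 0 < ‖(z : ℂ)‖ := norm_pos_iff.2 z.ne_zero

lemma exp_lg (z : ℍ) : Real.exp (lg z) = ‖(z : ℂ)‖ := Real.exp_log (norm_pos' z)

lemma im_le_norm (z : ℍ) : z.im ≤ ‖(z : ℂ)‖ := (le_abs_self _).trans (Complex.abs_im_le_norm _)

lemma continuous_lg : Continuous lg :=
  continuous_coe.norm.log fun z => (norm_pos' z).ne'

lemma norm_sub_le' {z w : ℍ} {D : ℝ} (h : dist z w ≤ D) :
    |‖(z : ℂ)‖ - ‖(w : ℂ)‖| ≤ w.im * (Real.exp D - 1) := by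
  refine (abs_norm_sub_norm_le _ _).trans ?_
  rw [← dist_eq_norm]
  refine (dist_coe_le z w).trans ?_
  have := w.im_pos
  gcongr

lemma lg_sub_le (z w : ℍ) : lg z - lg w ≤ dist z w := by
  have h := (abs_le.1 (norm_sub_le' (le_refl (dist z w)))).2
  have h1 := mul_le_mul_of_nonneg_right (im_le_norm w)
    (sub_nonneg.2 (Real.one_le_exp (dist_nonneg (x := z) (y := w))))
  rw [sub_le_iff_le_add, ← Real.exp_le_exp, Real.exp_add, exp_lg, exp_lg]
  linarith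

lemma ang_low {z w : ℍ} {D l : ℝ} (h : dist z w ≤ D) (hl : l ≤ |lg z - lg w|) :
    (1 - Real.exp (-l)) * ‖(w : ℂ)‖ ≤ w.im * Real.exp D := by
  have h1 := abs_le.1 (norm_sub_le' h)
  have hw := norm_pos' w
  have hi := w.im_pos
  rcases le_abs'.1 hl with e | e
  · have : ‖(z : ℂ)‖ ≤ Real.exp (-l) * ‖(w : ℂ)‖ := by
      rw [← exp_lg, ← exp_lg, ← Real.exp_add]
      exact Real.exp_le_exp.2 (by linarith)
    nlinarith
  · have : Real.exp l * ‖(w : ℂ)‖ ≤ ‖(z : ℂ)‖ := by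
      rw [← exp_lg, ← exp_lg, ← Real.exp_add]
      exact Real.exp_le_exp.2 (by linarith)
    have h2 : 2 ≤ Real.exp l + Real.exp (-l) := by
      linarith [Real.add_one_le_exp l, Real.add_one_le_exp (-l)]
    nlinarith

lemma dist_sector {z w : ℍ} {Y ε : ℝ} (hε : 0 < ε) (hz : ‖(z : ℂ)‖ ≤ Y) (hw : ‖(w : ℂ)‖ ≤ Y)
    (hz' : ε * Y ≤ z.im) (hw' : ε * Y ≤ w.im) : dist z w ≤ 2 / ε := by
  have hY : 0 < Y := (norm_pos' z).trans_le hz
  refine (dist_le_dist_coe_div_sqrt z w).trans ?_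
  have : ε * Y ≤ √(z.im * w.im) :=
    Real.le_sqrt_of_sq_le (by rw [sq]; exact mul_le_mul hz' hw' (by positivity) z.im_pos.le)
  calc _ ≤ 2 * Y / (ε * Y) := by
        refine div_le_div₀ (by positivity) ?_ (by positivity) this
        rw [dist_eq_norm]
        linarith [norm_sub_le (z : ℂ) w]
    _ = _ := by field_simp

def dil (s : ℝ) : SL(2, ℝ) :=
  mkS (Real.exp (s / 2)) 0 0 (Real.exp (-(s / 2))) (by simp [← Real.exp_add])

lemma coe_dil (s : ℝ) (z : ℍ) : ((dil s • z : ℍ) : ℂ) = (Real.exp s : ℝ) * z := by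
  rw [dil, coe_mkS, Real.exp_neg]
  have : Real.exp s = Real.exp (s / 2) * Real.exp (s / 2) := by rw [← Real.exp_add]; simp
  rw [this]
  simp [-Complex.ofReal_exp]
  ring

lemma lg_dil (s : ℝ) (z : ℍ) : lg (dil s • z) = s + lg z := by
  rw [lg, coe_dil, norm_mul, Complex.norm_real, Real.norm_of_nonneg (Real.exp_pos _).le,
    Real.log_mul (Real.exp_pos _).ne' (norm_pos' z).ne', Real.log_exp, lg]

lemma im_dil (s : ℝ) (z : ℍ) : (dil s • z).im = Real.exp s * z.im := by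
  rw [← coe_im, coe_dil, Complex.im_ofReal_mul, coe_im]

lemma compact_G (R : ℝ) :
    IsCompact {g : SL(2, ℝ) | dist (g • UpperHalfPlane.I) UpperHalfPlane.I ≤ R} :=
  isProperMap_smul_I.isCompact_preimage (isCompact_closedBall UpperHalfPlane.I R)

namespace Sys

variable {S : Sys}

lemma disp (S : Sys) (τ : ℝ) : ∃ D, 0 ≤ D ∧ ∀ ξ s t, |t - s| ≤ τ →
    dist (S.φ t ξ).1 (S.φ s ξ).1 ≤ D := by
  obtain ⟨D, hD⟩ := ((isCompact_Icc (a := -τ) (b := τ)).prod
    S.K0_compact).exists_bound_of_continuousOn (f := fun p => dist (S.φ p.1 p.2).1 p.2.1)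
    (S.continuous_φ.fst.dist continuous_snd.fst).continuousOn
  refine ⟨max D 0, le_max_right _ _, fun ξ s t h => le_max_of_le_left ?_⟩
  obtain ⟨γ, hγ, k, hk⟩ := S.exists_gg (S.φ s ξ)
  have : dist (S.φ (t - s) (gg γ (k * (2 * π)) (S.φ s ξ))).1 (gg γ (k * (2 * π)) (S.φ s ξ)).1 ≤ D :=
    (le_abs_self _).trans (hD (t - s, gg γ (k * (2 * π)) (S.φ s ξ)) ⟨abs_le.1 h, hk⟩)
  rw [S.φ_gg hγ, ← φ_add, sub_add_cancel] at this
  rw [← dist_smul γ]
  exact this

lemma Uq.wall_approx (h : S.Uq) {η c : ℝ} (hη : 0 < η)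
    (hd : ∀ T : ℝ, 0 < T → c < η * T → ∃ (ξ : N) (g : SL(2, ℝ)),
      η * T - c ≤ lg (g • (S.φ T ξ).1) - lg (g • ξ.1)) :
    ∃ l F R : ℝ, 0 < l ∧ ∀ τ : ℕ, ∃ ξ ∈ S.K0, ∃ g : SL(2, ℝ),
      dist (g • UpperHalfPlane.I) UpperHalfPlane.I ≤ R ∧
      (∀ t ∈ Icc (-(τ : ℝ)) 0, lg (g • (S.φ t ξ).1) ≤ l * t) ∧
      ∀ t ∈ Icc F (τ : ℝ), l * (t - F) - 1 ≤ lg (g • (S.φ t ξ).1) := by
  set l := η / 4 with hl
  have hl0 : 0 < l := by positivity
  obtain ⟨D1, -, hD1⟩ := S.disp 1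
  set ε := (1 - Real.exp (-l)) / Real.exp D1 with hε
  have hε0 : 0 < ε := div_pos (sub_pos.2 (Real.exp_lt_one_iff.2 (by linarith))) (Real.exp_pos _)
  obtain ⟨F, hF0, hF⟩ := h.prop (2 / (ε * Real.exp (-2)))
  refine ⟨l, F, 2 / min ε 1 + S.R0, hl0, fun τ => ?_⟩
  obtain ⟨D, hD0, hD⟩ := S.disp (τ + F + 1)
  obtain ⟨A, hA⟩ := exists_nat_gt D
  set n := (2 * A + |c| + 1) / l with hn
  have hln : l * n = 2 * A + |c| + 1 := by rw [hn]; field_simp
  have hn0 : 0 < n := by positivity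
  have hA0 : (0 : ℝ) ≤ A := Nat.cast_nonneg A
  have hc := le_abs_self c
  have hc' := abs_nonneg c
  have hη4 : η * n = 4 * (l * n) := by rw [hl]; ring
  obtain ⟨ξ, g, hξ⟩ := hd n hn0 (by linarith)
  set L : ℝ → ℝ := fun t => lg (g • (S.φ t ξ).1) with hL
  have hLd : ∀ s t, L t - L s ≤ dist (S.φ t ξ).1 (S.φ s ξ).1 := fun s t =>
    (lg_sub_le _ _).trans_eq (dist_smul g _ _)
  have mc : Continuous fun t => L t - l * t - L 0 :=
    ((continuous_lg.comp ((continuous_const_smul g).comp (continuous_fst.comp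
      (S.continuous_φ.comp (continuous_id.prodMk continuous_const))))).sub
        (continuous_const.mul continuous_id)).sub continuous_const
  have hM : 3 * (l * n) - c ≤ L n - l * n - L 0 := by
    simp only [hL, φ_zero]
    linarith
  have hE := Nat.le_ceil (l * n)
  have hE' := Nat.ceil_lt_add_one (mul_pos hl0 hn0).le
  have hj : ∀ j ≤ A + ⌈l * n⌉₊, (j : ℝ) + A ≤ L n - l * n - L 0 := fun j hj => by
    have : (j : ℝ) ≤ A + ⌈l * n⌉₊ := by exact_mod_cast hj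
    linarith
  choose! a ha ha1 ha2 using fun j (hj' : j ≤ A + ⌈l * n⌉₊) =>
    first_hit mc hn0.le (u := j) (by simp) (by linarith [hj j hj'])
  choose! b hb hb1 hb2 using fun j (hj' : j ≤ A + ⌈l * n⌉₊) =>
    last_hit mc hn0.le (u := j) (by simp) (by linarith [hj j hj'])
  obtain ⟨i, hi, j, hj', hij⟩ := pigeon (x := fun j => l * a j) (y := fun j => l * b j) A ⌈l * n⌉₊
    (fun j hj => ⟨mul_nonneg hl0.le (ha j hj).1,
      (mul_le_mul_of_nonneg_left (ha j hj).2 hl0.le).trans hE⟩)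
    (fun j hj => ⟨mul_nonneg hl0.le (hb j hj).1,
      (mul_le_mul_of_nonneg_left (hb j hj).2 hl0.le).trans hE⟩)
    (fun i j hij hj => mul_le_mul_of_nonneg_left (by
      by_contra hc
      have := ha2 i (hij.le.trans hj) (a j) ⟨(ha j hj).1, (not_le.1 hc).le⟩
      rw [ha1 j hj] at this
      exact absurd (Nat.cast_le.1 this) (not_le.2 hij)) hl0.le)
    (fun i j hij hj => mul_le_mul_of_nonneg_left (by
      by_contra hc
      have := hb2 j hj (b i) ⟨(not_le.1 hc).le, (hb i (hij.le.trans hj)).2⟩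
      rw [hb1 i (hij.le.trans hj)] at this
      exact absurd (Nat.cast_le.1 this) (not_le.2 hij)) hl0.le)
  have a0 := ha i hi.2
  have a1 := ha1 i hi.2
  have a2 := ha2 i hi.2
  have b0 := hb j hj'.2
  have b1 := hb1 j hj'.2
  have b2 := hb2 j hj'.2
  have j2 := hj j hj'.2
  have i2 : (A : ℝ) ≤ i := Nat.cast_le.2 hi.1
  generalize a i = α at *
  generalize b j = β at *
  have hτ : (0 : ℝ) ≤ τ := Nat.cast_nonneg τ
  have m1 : τ + F + 1 < α := by
    by_contra hc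
    have := (hLd 0 α).trans (hD ξ 0 α (by rw [sub_zero, abs_of_nonneg a0.1]; linarith))
    nlinarith [a0.1]
  have m2 : τ + F + 1 < n - β := by
    by_contra hc
    have := (hLd β n).trans (hD ξ β n (by rw [abs_of_nonneg (sub_nonneg.2 b0.2)]; linarith))
    nlinarith [b0.2]
  have s1 : ε * ‖((g • (S.φ α ξ).1 : ℍ) : ℂ)‖ ≤ (g • (S.φ α ξ).1).im := by
    rw [hε, div_mul_eq_mul_div, div_le_iff₀ (Real.exp_pos _)]
    refine ang_low (z := g • (S.φ (α - 1) ξ).1) ((dist_smul g _ _).trans_le (hD1 ξ _ _ (by simp)))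
      (le_abs'.2 (Or.inl ?_))
    have := a2 (α - 1) ⟨by linarith, by linarith⟩
    change L (α - 1) - L α ≤ _
    linarith
  have s2 : ε * ‖((g • (S.φ β ξ).1 : ℍ) : ℂ)‖ ≤ (g • (S.φ β ξ).1).im := by
    rw [hε, div_mul_eq_mul_div, div_le_iff₀ (Real.exp_pos _)]
    refine ang_low (z := g • (S.φ (β + 1) ξ).1) ((dist_smul g _ _).trans_le (hD1 ξ _ _ (by simp)))
      (le_abs'.2 (Or.inr ?_))
    have := b2 (β + 1) ⟨by linarith, by linarith⟩
    change l ≤ L (β + 1) - L β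
    linarith
  have hab := abs_le.1 (show |L α - L β| ≤ 1 by convert hij using 2; linarith)
  have hF' : |β - α| ≤ F := by
    refine hF (S.φ α ξ) (β - α) ?_
    rw [← φ_add, sub_add_cancel, ← dist_smul g]
    rw [← exp_lg] at s1 s2
    refine dist_sector (Y := Real.exp (L α + 1)) (by positivity) ?_ ?_ (le_trans ?_ s1)
      (le_trans ?_ s2)
    · exact (exp_lg _).symm.trans_le (Real.exp_le_exp.2 (by change L α ≤ _; linarith))
    · exact (exp_lg _).symm.trans_le (Real.exp_le_exp.2 (by change L β ≤ _; linarith))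
    · rw [mul_assoc, ← Real.exp_add]
      exact mul_le_mul_of_nonneg_left (Real.exp_le_exp.2 (by change _ ≤ L α; linarith)) hε0.le
    · rw [mul_assoc, ← Real.exp_add]
      exact mul_le_mul_of_nonneg_left (Real.exp_le_exp.2 (by change _ ≤ L β; linarith)) hε0.le
  obtain ⟨γ, hγ, k, hk⟩ := S.exists_gg (S.φ α ξ)
  have e : ∀ t, (dil (-L α) * g * γ⁻¹) • (S.φ t (gg γ (k * (2 * π)) (S.φ α ξ))).1 =
      dil (-L α) • g • (S.φ (t + α) ξ).1 := fun t => by
    rw [S.φ_gg hγ, ← φ_add, mul_smul, mul_smul]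
    simp only [gg, inv_smul_smul]
  refine ⟨_, hk, dil (-L α) * g * γ⁻¹, ?_, fun t ht => ?_, fun t ht => ?_⟩
  · have e0 := e 0
    rw [φ_zero, zero_add] at e0
    have d1 : dist (dil (-L α) • g • (S.φ α ξ).1) UpperHalfPlane.I ≤ 2 / min ε 1 := by
      refine dist_sector (Y := 1) (lt_min hε0 one_pos) ?_ (by simp) ?_ (by simp)
      · rw [← exp_lg, lg_dil]
        simp [hL]
      · rw [im_dil, mul_one]
        refine (min_le_left _ _).trans (le_trans ?_
          (mul_le_mul_of_nonneg_left s1 (Real.exp_pos _).le))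
        rw [← exp_lg, mul_left_comm, ← Real.exp_add]
        simp [hL]
    refine (dist_triangle _ ((dil (-L α) * g * γ⁻¹) • (gg γ (k * (2 * π)) (S.φ α ξ)).1) _).trans ?_
    rw [dist_smul, e0, dist_comm, add_comm]
    exact add_le_add d1 hk.1
  · rw [e, lg_dil]
    have := a2 (t + α) ⟨by linarith [ht.1], by linarith [ht.2]⟩
    change -L α + L (t + α) ≤ _
    linarith
  · rw [e, lg_dil]
    have f := abs_le.1 hF'
    have := b2 (t + α) ⟨by linarith [ht.1], by linarith [ht.2]⟩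
    change _ ≤ -L α + L (t + α)
    nlinarith

lemma Uq.wall (h : S.Uq) {η c : ℝ} (hη : 0 < η)
    (hd : ∀ T : ℝ, 0 < T → c < η * T → ∃ (ξ : N) (g : SL(2, ℝ)),
      η * T - c ≤ lg (g • (S.φ T ξ).1) - lg (g • ξ.1)) :
    ∃ (ξ : N) (g : SL(2, ℝ)), Tendsto (fun t => lg (g • (S.φ t ξ).1)) atBot atBot ∧
      Tendsto (fun t => lg (g • (S.φ t ξ).1)) atTop atTop := by
  obtain ⟨l, F, R, hl, hw⟩ := h.wall_approx hη hd
  have hc : ∀ t, Continuous fun x : N × SL(2, ℝ) => lg (x.2 • (S.φ t x.1).1) := fun t =>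
    continuous_lg.comp (continuous_snd.smul (continuous_fst.comp
      (S.continuous_φ.comp (continuous_const.prodMk continuous_fst))))
  let Z : ℕ → Set (N × SL(2, ℝ)) := fun τ =>
    (S.K0 ×ˢ {g : SL(2, ℝ) | dist (g • UpperHalfPlane.I) UpperHalfPlane.I ≤ R}) ∩
      ((⋂ t ∈ Icc (-(τ : ℝ)) 0, {x | lg (x.2 • (S.φ t x.1).1) ≤ l * t}) ∩
        ⋂ t ∈ Icc F (τ : ℝ), {x | l * (t - F) - 1 ≤ lg (x.2 • (S.φ t x.1).1)})
  have hZ : ∀ τ, IsCompact (Z τ) := fun τ => (S.K0_compact.prod (compact_G R)).inter_right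
    ((isClosed_biInter fun t _ => isClosed_le (hc t) continuous_const).inter
      (isClosed_biInter fun t _ => isClosed_le continuous_const (hc t)))
  obtain ⟨⟨ξ, g⟩, hx⟩ := IsCompact.nonempty_iInter_of_sequence_nonempty_isCompact_isClosed Z
    (fun τ => inter_subset_inter_right _ (inter_subset_inter
      (biInter_subset_biInter_left (Icc_subset_Icc_left (by simp)))
      (biInter_subset_biInter_left (Icc_subset_Icc_right (by simp)))))
    (fun τ => by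
      obtain ⟨ξ, h1, g, h2, h3, h4⟩ := hw τ
      exact ⟨(ξ, g), ⟨h1, h2⟩, mem_iInter₂.2 h3, mem_iInter₂.2 h4⟩)
    (hZ 0) fun τ => (hZ τ).isClosed
  refine ⟨ξ, g, tendsto_atBot_mono' atBot ((eventually_le_atBot 0).mono fun t ht => ?_)
    (tendsto_id.const_mul_atBot hl), tendsto_atTop_mono' atTop
      ((eventually_ge_atTop F).mono fun t ht => ?_) (tendsto_atTop_add_const_right _ (-1)
        ((tendsto_atTop_add_const_right _ (-F) tendsto_id).const_mul_atTop hl))⟩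
  · obtain ⟨τ, hτ⟩ := exists_nat_ge (-t)
    exact mem_iInter₂.1 (mem_iInter.1 hx τ).2.1 t ⟨by linarith, ht⟩
  · obtain ⟨τ, hτ⟩ := exists_nat_ge t
    exact mem_iInter₂.1 (mem_iInter.1 hx τ).2.2 t ⟨ht, hτ⟩

end Sys

end

end Pool.Agent.Lib.MP_21f752_an
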